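import Pool.Agent.T2H29.SW.M1

/-! # Mixed sums over finite fields: the bound -/

set_option autoImplicit false
set_option linter.unusedSectionVars false

namespace Pool.Agent.T2H29.SW.Mix

open Polynomial Finset IntermediateField
open Pool.Agent.H341R2.Sharp Pool.Agent.H435R3.Weil Pool.Agent.H498R2

section

variable {F E : Type} [Field F] [Fintype F] [DecidableEq F] [Field E] [Fintype E] [DecidableEq E]
  [Algebra F E]

/-- the sum over the scalings, over an extension -/
theorem sum_ext_bound (χ : MulChar F ℂ) (hχ : χ ≠ 1) {ψ : AddChar F ℂ} (hψ : ψ.IsPrimitive)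
    {a : F} (ha : a ≠ 0) :
    ‖∑ c ∈ univ.filter (fun c : F => c ≠ 0), ∑ x : E, χ (Algebra.norm F (x + 1)) *
      (starRingEnd ℂ) (χ (Algebra.norm F x)) * ψ (Algebra.trace F E (algebraMap F E (c * a) * x))‖ ≤
      (2 * Fintype.card F + 2) * Real.sqrt (Fintype.card E) := by
  have hfin : FiniteDimensional F E := inferInstance
  have haE : algebraMap F E a ≠ 0 := (_root_.map_ne_zero _).2 ha
  set q := Fintype.card F with hq
  have hq1 : 1 < q := Fintype.one_lt_card
  set χE : MulChar E ℂ := normChar F E χ with hχE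
  have h1E : χE ≠ 1 := normChar_ne_one F E χ hχ
  set t := orderOf χE with ht
  have ht0 : 0 < t := χE.orderOf_pos
  have ht1 : t ≠ 1 := fun h => h1E (orderOf_eq_one_iff.1 h)
  have ht2 : 2 ≤ t := by omega
  have htE : t ∣ Fintype.card E - 1 := χE.orderOf_dvd_card_sub_one
  have hpow : χE ^ t = 1 := pow_orderOf_eq_one χE
  rw [sum_scal hψ ha (fun x => χ (Algebra.norm F (x + 1)) * (starRingEnd ℂ) (χ (Algebra.norm F x)))]
  have hqE : ((q : ℕ) : E) = 0 := by
    have : ((Fintype.card F : ℕ) : F) = 0 := FiniteField.cast_card_eq_zero F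
    have h3 := congrArg (algebraMap F E) this
    rw [map_natCast, map_zero] at h3
    exact h3
  -- the polynomials
  set R : E[X] := X ^ q - X with hR
  set P : E[X] := X ^ q - X + C (algebraMap F E a) with hP
  have hXm : (X ^ q : E[X]).Monic := monic_X_pow q
  have hXd : (X ^ q : E[X]).degree = q := degree_X_pow q
  have hRm : R.Monic := by
    rw [hR]
    refine hXm.sub_of_left ?_
    rw [hXd, degree_X]
    exact_mod_cast hq1
  have hRd : R.natDegree = q := FiniteField.X_pow_card_sub_X_natDegree_eq E hq1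
  have hPm : P.Monic := by
    rw [hP]
    refine hRm.add_of_left ?_
    refine degree_C_le.trans_lt ?_
    rw [degree_eq_natDegree hRm.ne_zero, hRd]
    exact_mod_cast (by omega : 0 < q)
  have hPd : P.natDegree = q := by rw [hP, natDegree_add_C, ← hR, hRd]
  have hR0 : R.eval 0 = 0 := by
    rw [hR, eval_sub, eval_pow, eval_X, zero_pow (by omega), sub_zero]
  have hP0 : P.eval 0 ≠ 0 := by
    rw [hP, eval_add, ← hR, hR0, eval_C, zero_add]
    exact haE
  have hR' : R.derivative.eval 0 ≠ 0 := by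
    rw [hR, derivative_sub, derivative_X_pow, derivative_X, hqE, C_0, zero_mul, zero_sub, eval_neg,
      eval_one]
    exact neg_ne_zero.2 one_ne_zero
  have w1 := weil t ht2 htE χE h1E hpow P R hPm hRm (cop_of ht2 hP0 hR0 hR')
  have w2 := weil t ht2 htE χE h1E hpow (X + C 1) (X - C 0) (monic_X_add_C 1) (monic_X_sub_C 0)
    (cop_of ht2 (by simp) (by simp) (by simp))
  have hcn : ‖χE (algebraMap F E a)⁻¹‖ = 1 := char_norm (inv_ne_zero haE)
  have e1 : ∀ z : E, χ (Algebra.norm F ((z ^ q - z) / algebraMap F E a + 1)) *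
      (starRingEnd ℂ) (χ (Algebra.norm F ((z ^ q - z) / algebraMap F E a))) =
      (χE (algebraMap F E a)⁻¹ * (starRingEnd ℂ) (χE (algebraMap F E a)⁻¹)) *
      (χE (P.eval z) * (starRingEnd ℂ) (χE (R.eval z))) := by
    intro z
    rw [← normChar_apply, ← normChar_apply, ← hχE]
    have e2 : (z ^ q - z) / algebraMap F E a + 1 = (algebraMap F E a)⁻¹ * P.eval z := by
      rw [hP, eval_add, eval_sub, eval_pow, eval_X, eval_C]
      field_simp
    have e3 : (z ^ q - z) / algebraMap F E a = (algebraMap F E a)⁻¹ * R.eval z := by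
      rw [hR, eval_sub, eval_pow, eval_X]
      field_simp
    rw [e2, e3, map_mul, map_mul, map_mul]
    ring
  have e4 : ∀ x : E, χ (Algebra.norm F (x + 1)) * (starRingEnd ℂ) (χ (Algebra.norm F x)) =
      χE ((X + C 1 : E[X]).eval x) * (starRingEnd ℂ) (χE ((X - C 0 : E[X]).eval x)) := by
    intro x
    rw [hχE, normChar_apply, normChar_apply]
    simp
  beta_reduce
  rw [sum_congr rfl fun z _ => e1 z, sum_congr rfl fun x _ => e4 x, ← mul_sum]
  refine (norm_sub_le _ _).trans ?_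
  rw [norm_mul, norm_mul, RCLike.norm_conj, hcn, one_mul, one_mul]
  refine (add_le_add w1 w2).trans (le_of_eq ?_)
  rw [hPd, hRd, natDegree_X_add_C, natDegree_X_sub_C]
  push_cast
  ring

end

section Final

variable {F : Type} [Field F] [Fintype F] [DecidableEq F]

/-- the `L`-polynomial of a mixed sum -/
noncomputable def LM (χ : MulChar F ℂ) (ψ : AddChar F ℂ) (a : F) : ℂ[X] :=
  ∑ n ∈ range 3, C (AL (lamM χ ψ a) n) * X ^ n

theorem LM_coeff (χ : MulChar F ℂ) {ψ : AddChar F ℂ} (hψ : ψ ≠ 1) {a : F} (ha : a ≠ 0) (n : ℕ) :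
    (LM χ ψ a).coeff n = AL (lamM χ ψ a) n := by
  rw [LM, finsetSum_coeff]
  simp_rw [coeff_C_mul_X_pow]
  by_cases hn : n < 3
  · rw [sum_eq_single n]
    · simp
    · intro m _ hm
      rw [if_neg (Ne.symm hm)]
    · intro h
      exact absurd (mem_range.2 hn) h
  · rw [AL_M_zero χ hψ ha n (by omega)]
    apply sum_eq_zero
    intro m hm
    rw [mem_range] at hm
    rw [if_neg (by omega)]

theorem LM_zero (χ : MulChar F ℂ) {ψ : AddChar F ℂ} (hψ : ψ ≠ 1) {a : F} (ha : a ≠ 0) :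
    (LM χ ψ a).coeff 0 = 1 := by
  rw [LM_coeff χ hψ ha, AL_zero _ (lamM_one χ ψ a)]

theorem LM_natDegree (χ : MulChar F ℂ) {ψ : AddChar F ℂ} (hψ : ψ ≠ 1) {a : F} (ha : a ≠ 0) :
    (LM χ ψ a).natDegree ≤ 2 := by
  rw [natDegree_le_iff_coeff_eq_zero]
  intro n hn
  rw [LM_coeff χ hψ ha, AL_M_zero χ hψ ha n (by omega)]

theorem LM_HID (χ : MulChar F ℂ) {ψ : AddChar F ℂ} (hψ : ψ ≠ 1) {a : F} (ha : a ≠ 0) :
    Kl.HID (LM χ ψ a) (TL (lamM χ ψ a)) := by
  intro n
  simp_rw [LM_coeff χ hψ ha]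
  exact n_mul_AL _ (lamM_one χ ψ a) (fun g h hg hh => lamM_mul χ ψ a g h hg hh) n

theorem sum_TL_bound (χ : MulChar F ℂ) (hχ : χ ≠ 1) {ψ : AddChar F ℂ} (hψ : ψ.IsPrimitive) {a : F}
    (ha : a ≠ 0) (m : ℕ) (hm : 1 ≤ m) :
    ‖∑ c ∈ univ.filter (fun c : F => c ≠ 0), TL (lamM χ ψ (c * a)) m‖ ≤
      (2 * Fintype.card F + 2) * (Real.sqrt (Fintype.card F)) ^ m := by
  classical
  obtain ⟨p, hp⟩ := CharP.exists F
  have : Fact (Nat.Prime p) := ⟨CharP.char_is_prime F p⟩
  have : NeZero m := ⟨by omega⟩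
  let E := FiniteField.Extension F p m
  let _ : Fintype E := Fintype.ofFinite E
  have hfr : Module.finrank F E = m := FiniteField.finrank_extension F p m
  have hcard : Fintype.card E = Fintype.card F ^ m := by
    rw [Module.card_eq_pow_finrank (K := F) (V := E), hfr]
  have h2 : Real.sqrt (Fintype.card E) = (Real.sqrt (Fintype.card F)) ^ m := by
    rw [hcard]
    push_cast
    rw [Real.sqrt_eq_iff_mul_self_eq (by positivity) (by positivity), ← mul_pow,
      Real.mul_self_sqrt (by positivity)]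
  have h3 := sum_ext_bound (E := E) χ hχ hψ ha
  rw [h2] at h3
  have h4 : ∀ c : F, TL (lamM χ ψ (c * a)) m = ∑ x : E, χ (Algebra.norm F (x + 1)) *
      (starRingEnd ℂ) (χ (Algebra.norm F x)) *
        ψ (Algebra.trace F E (algebraMap F E (c * a) * x)) := by
    intro c
    have h5 := TL_M (E := E) χ ψ (c * a)
    rw [hfr] at h5
    exact h5
  simp_rw [h4]
  exact h3

/-- **Weil's bound** for mixed sums -/
theorem mixed_le (χ : MulChar F ℂ) (hχ : χ ≠ 1) {ψ : AddChar F ℂ} (hψ : ψ.IsPrimitive) {a : F}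
    (ha : a ≠ 0) : ‖∑ x : F, χ (x + 1) * (starRingEnd ℂ) (χ x) * ψ (a * x)‖ ≤
      2 * Real.sqrt (Fintype.card F) := by
  have hψ1 : ψ ≠ 1 := by
    rintro rfl
    exact hψ one_ne_zero (by simp)
  have hq0 : 0 < Real.sqrt (Fintype.card F) :=
    Real.sqrt_pos.2 (by exact_mod_cast Fintype.card_pos)
  set s := univ.filter (fun c : F => c ≠ 0) with hs
  set A : ℂ[X] := ∏ c ∈ s, LM χ ψ (c * a) with hA
  have hc : ∀ c ∈ s, c * a ≠ 0 := by
    intro c hc
    rw [hs, mem_filter] at hc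
    exact mul_ne_zero hc.2 ha
  have hid : Kl.HID A (fun m => ∑ c ∈ s, TL (lamM χ ψ (c * a)) m) :=
    Kl.HID.prod s _ _ fun c hcs => LM_HID χ hψ1 (hc c hcs)
  have hA0 : A.coeff 0 = 1 := by
    rw [hA, coeff_zero_prod]
    exact prod_eq_one fun c hcs => LM_zero χ hψ1 (hc c hcs)
  have hroot : ∀ z : ℂ, (LM χ ψ a).eval z = 0 → 1 ≤ Real.sqrt (Fintype.card F) * ‖z‖ := by
    intro z hz
    apply root_norm A hA0 (fun m => ∑ c ∈ s, TL (lamM χ ψ (c * a)) m)
      (Real.sqrt (Fintype.card F)) (2 * Fintype.card F + 2) hq0 (by positivity)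
    · intro m hm
      exact sum_TL_bound χ hχ hψ ha m hm
    · exact hid
    · rw [hA, eval_prod]
      apply prod_eq_zero (i := (1 : F))
      · rw [hs, mem_filter]
        exact ⟨mem_univ _, one_ne_zero⟩
      · rw [one_mul]
        exact hz
  have h1 := Kl.coeff_one_le (LM χ ψ a) (LM_zero χ hψ1 ha) _ hq0 hroot 2 (LM_natDegree χ hψ1 ha)
  have h2 : (LM χ ψ a).coeff 1 = ∑ x : F, χ (x + 1) * (starRingEnd ℂ) (χ x) * ψ (a * x) := by
    have h3 := LM_HID χ hψ1 ha 1
    rw [Icc_self, sum_singleton, Nat.sub_self, LM_zero χ hψ1 ha, one_mul, Nat.cast_one,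
      one_mul] at h3
    rw [h3]
    have h4 := TL_M (F := F) (E := F) χ ψ a
    rw [Module.finrank_self] at h4
    rw [h4]
    apply sum_congr rfl
    intro x _
    simp
  rw [h2] at h1
  exact_mod_cast h1

/-- all cases together -/
theorem mixed_all (χ : MulChar F ℂ) (hχ : χ ≠ 1) (ψ : AddChar F ℂ) {h : F} (hh : h ≠ 0) :
    ‖∑ x : F, χ (x + h) * (starRingEnd ℂ) (χ x) * ψ x‖ ≤ 2 * Real.sqrt (Fintype.card F) := by
  have e1 : ∑ x : F, χ (x + h) * (starRingEnd ℂ) (χ x) * ψ x =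
      (χ h * (starRingEnd ℂ) (χ h)) * ∑ x : F, χ (x + 1) * (starRingEnd ℂ) (χ x) * ψ (h * x) := by
    rw [← Equiv.sum_comp (Equiv.mulLeft₀ h hh), mul_sum]
    refine sum_congr rfl fun x _ => ?_
    rw [Equiv.mulLeft₀_apply]
    have : h * x + h = h * (x + 1) := by ring
    rw [this, map_mul, map_mul, map_mul]
    ring
  rw [e1, norm_mul, norm_mul, RCLike.norm_conj, char_norm hh, one_mul, one_mul]
  by_cases hψ : ψ = 1
  · rw [hψ]
    have h2 := orderOf_pos_iff.2 (isOfFinOrder_of_finite χ)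
    set t := orderOf χ with ht
    have ht1 : t ≠ 1 := fun h => hχ (orderOf_eq_one_iff.1 h)
    have ht2 : 2 ≤ t := by omega
    have w2 := weil t ht2 χ.orderOf_dvd_card_sub_one χ hχ (pow_orderOf_eq_one χ) (X + C 1) (X - C 0)
      (monic_X_add_C 1) (monic_X_sub_C 0) (cop_of ht2 (by simp) (by simp) (by simp))
    rw [natDegree_X_add_C, natDegree_X_sub_C] at w2
    have e2 : ∑ x : F, χ (x + 1) * (starRingEnd ℂ) (χ x) * (1 : AddChar F ℂ) (h * x) =
        ∑ x : F, χ ((X + C 1 : F[X]).eval x) * (starRingEnd ℂ) (χ ((X - C 0 : F[X]).eval x)) := by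
      refine sum_congr rfl fun x _ => ?_
      simp
    rw [e2]
    refine w2.trans (le_of_eq ?_)
    norm_num
  · have hp : ψ.IsPrimitive := AddChar.IsPrimitive.of_ne_one hψ
    exact mixed_le χ hχ hp hh

end Final

end Pool.Agent.T2H29.SW.Mix
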