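import Pool.Agent.T2H29.SW.X16

/-!
# Differencing and completion for general sublattices
-/

set_option autoImplicit false
set_option linter.unusedSectionVars false

namespace Pool.Agent.T2H29.SW

open Finset MeasureTheory Matrix Topology

variable {ι : Type} [Fintype ι] [DecidableEq ι] {Qt : Type} [Fintype Qt] [DecidableEq Qt]
  {cls : (ι → ℤ) → Qt} {τ : (ι → ℤ) → (ι → ℤ)}

/-- a sublattice with its classes -/
structure SubL (cls : (ι → ℤ) → Qt) (τ : (ι → ℤ) → (ι → ℤ)) : Prop where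
  inj : Function.Injective τ
  iff : ∀ z w, cls z = cls w ↔ ∃ t, z = w + τ t

/-- the pair `(z + τ t, z)` -/
def jt (τ : (ι → ℤ) → (ι → ℤ)) (tz : (ι → ℤ) × (ι → ℤ)) : (ι → ℤ) × (ι → ℤ) :=
  (tz.2 + τ tz.1, tz.2)

lemma SubL.jt_inj (h : SubL cls τ) : Function.Injective (jt τ) := by
  rintro ⟨t, z⟩ ⟨t', z'⟩ h0
  unfold jt at h0
  rw [Prod.mk.injEq] at h0
  obtain ⟨h1, h2⟩ := h0
  simp only at h1 h2
  subst h2
  have h3 : t = t' := h.inj (add_left_cancel h1)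
  rw [h3]

lemma SubL.cls_add (h : SubL cls τ) (z t : ι → ℤ) : cls (z + τ t) = cls z :=
  (h.iff _ _).2 ⟨t, rfl⟩

lemma SubL.pair_summable2 (h : SubL cls τ) {H : (ι → ℤ) → ℂ} (hH : Summable fun z => ‖H z‖) :
    Summable fun tz : (ι → ℤ) × (ι → ℤ) => ‖H (tz.2 + τ tz.1) * (starRingEnd ℂ) (H tz.2)‖ := by
  have h1 := (pair_summable hH).comp_injective h.jt_inj
  refine h1.congr fun tz => ?_
  rw [Function.comp_apply]
  unfold jt
  rfl

/-- the part of `H` on a class -/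
noncomputable def HK (cls : (ι → ℤ) → Qt) (H : (ι → ℤ) → ℂ) (c : Qt) (z : ι → ℤ) : ℂ :=
  if cls z = c then H z else 0

lemma HK_le (H : (ι → ℤ) → ℂ) (c : Qt) (z : ι → ℤ) : ‖HK cls H c z‖ ≤ ‖H z‖ := by
  unfold HK
  split_ifs
  · exact le_rfl
  · rw [norm_zero]; exact norm_nonneg _

lemma HK_summable {H : (ι → ℤ) → ℂ} (hH : Summable fun z => ‖H z‖) (c : Qt) :
    Summable fun z => ‖HK cls H c z‖ :=
  Summable.of_nonneg_of_le (fun z => norm_nonneg _) (fun z => HK_le H c z) hH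

lemma HK_sum_classes {H : (ι → ℤ) → ℂ} (hH : Summable fun z => ‖H z‖) :
    ∑' z, H z = ∑ c, ∑' z, HK cls H c z := by
  rw [← Summable.tsum_finsetSum (fun c _ => (HK_summable hH c).of_norm)]
  refine tsum_congr fun z => ?_
  unfold HK
  rw [sum_ite_eq, if_pos (mem_univ _)]

lemma HK_class_sq {H : (ι → ℤ) → ℂ} (hH : Summable fun z => ‖H z‖) (c : Qt) :
    ((‖∑' z, HK cls H c z‖ ^ 2 : ℝ) : ℂ) = ∑' zw : (ι → ℤ) × (ι → ℤ),
      HK cls H c zw.1 * (starRingEnd ℂ) (HK cls H c zw.2) := by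
  rw [Complex.ofReal_pow, ← Complex.mul_conj', Complex.conj_tsum]
  have hc2 : Summable fun z => ‖(starRingEnd ℂ) (HK cls H c z)‖ := by
    refine (HK_summable (cls := cls) hH c).congr fun z => ?_
    rw [RCLike.norm_conj]
  rw [tsum_mul_tsum_of_summable_norm (HK_summable hH c) hc2]

lemma sum_HK {H : (ι → ℤ) → ℂ} (z w : ι → ℤ) :
    ∑ c, HK cls H c z * (starRingEnd ℂ) (HK cls H c w) =
      if cls z = cls w then H z * (starRingEnd ℂ) (H w) else 0 := by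
  rw [sum_eq_single (cls z)]
  · unfold HK
    rw [if_pos rfl]
    by_cases h : cls z = cls w
    · rw [if_pos h, if_pos h.symm]
    · rw [if_neg h, if_neg (fun h' => h h'.symm), map_zero, mul_zero]
  · intro c _ hc
    unfold HK
    rw [if_neg (fun h => hc h.symm), zero_mul]
  · intro h; exact absurd (mem_univ _) h

lemma SubL.reindex (h : SubL cls τ) {H : (ι → ℤ) → ℂ} :
    ∑' zw : (ι → ℤ) × (ι → ℤ),
        (if cls zw.1 = cls zw.2 then H zw.1 * (starRingEnd ℂ) (H zw.2) else 0) =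
        ∑' tz : (ι → ℤ) × (ι → ℤ), H (tz.2 + τ tz.1) * (starRingEnd ℂ) (H tz.2) := by
  have hsup : Function.support (fun zw : (ι → ℤ) × (ι → ℤ) =>
      (if cls zw.1 = cls zw.2 then H zw.1 * (starRingEnd ℂ) (H zw.2) else 0)) ⊆
        Set.range (jt τ) := by
    rintro ⟨z, w⟩ h0
    rw [Function.mem_support] at h0
    have h4 : cls z = cls w := by
      by_contra h5
      exact h0 (if_neg h5)
    obtain ⟨t, ht⟩ := (h.iff z w).1 h4
    exact ⟨(t, w), by unfold jt; rw [ht]⟩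
  rw [← h.jt_inj.tsum_eq hsup]
  refine tsum_congr fun tz => ?_
  have : cls (jt τ tz).1 = cls (jt τ tz).2 := h.cls_add _ _
  rw [if_pos this]
  rfl

lemma SubL.class_total (h : SubL cls τ) {H : (ι → ℤ) → ℂ} (hH : Summable fun z => ‖H z‖) :
    ((∑ c, ‖∑' z, HK cls H c z‖ ^ 2 : ℝ) : ℂ) =
      ∑' t, ∑' z, H (z + τ t) * (starRingEnd ℂ) (H z) := by
  rw [Complex.ofReal_sum, sum_congr rfl fun c _ => HK_class_sq hH c]
  have hsm : ∀ c ∈ (univ : Finset Qt), Summable fun zw : (ι → ℤ) × (ι → ℤ) =>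
      HK cls H c zw.1 * (starRingEnd ℂ) (HK cls H c zw.2) := by
    intro c _
    refine Summable.of_norm_bounded (pair_summable hH) fun zw => ?_
    rw [norm_mul, norm_mul, RCLike.norm_conj, RCLike.norm_conj]
    exact mul_le_mul (HK_le _ _ _) (HK_le _ _ _) (norm_nonneg _) (norm_nonneg _)
  rw [← Summable.tsum_finsetSum hsm]
  simp_rw [sum_HK]
  rw [h.reindex]
  exact (h.pair_summable2 hH).of_norm.tsum_prod

/-- differencing -/
theorem SubL.vdc (h : SubL cls τ) {H : (ι → ℤ) → ℂ} (hH : Summable fun z => ‖H z‖) :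
    ‖∑' z, H z‖ ^ 2 ≤ Fintype.card Qt * ‖∑' t, ∑' z, H (z + τ t) * (starRingEnd ℂ) (H z)‖ := by
  have h4 : 0 ≤ ∑ c, ‖∑' z, HK cls H c z‖ ^ 2 := sum_nonneg fun c _ => by positivity
  rw [← h.class_total hH, Complex.norm_real, Real.norm_of_nonneg h4, HK_sum_classes (cls := cls) hH]
  calc ‖∑ c, ∑' z, HK cls H c z‖ ^ 2 ≤ (∑ c, ‖∑' z, HK cls H c z‖) ^ 2 :=
        pow_le_pow_left₀ (norm_nonneg _) (norm_sum_le _ _) 2
    _ ≤ (univ : Finset Qt).card * ∑ c, ‖∑' z, HK cls H c z‖ ^ 2 := sq_sum_le_card_mul_sum_sq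
    _ = _ := by rw [card_univ]

/-- the difference of a function -/
noncomputable def DT (τ : (ι → ℤ) → (ι → ℤ)) (F : (ι → ℤ) → ℂ) (t z : ι → ℤ) : ℂ :=
  F (z + τ t) * (starRingEnd ℂ) (F z)

lemma DT_norm {F : (ι → ℤ) → ℂ} (hF : ∀ z, ‖F z‖ ≤ 1) (t z : ι → ℤ) : ‖DT τ F t z‖ ≤ 1 := by
  unfold DT
  rw [norm_mul, RCLike.norm_conj]
  exact mul_le_one₀ (hF _) (norm_nonneg _) (hF _)

lemma q_tau {A A2 : Matrix ι ι ℝ} (hτ : ∀ t, A.mulVec (cz (τ t)) = A2.mulVec (cz t)) (t : ι → ℤ) :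
    q A (cz (τ t)) = q A2 (cz t) := by
  unfold q
  rw [hτ]

lemma gs_tau {A A2 : Matrix ι ι ℝ} (hτ : ∀ t, A.mulVec (cz (τ t)) = A2.mulVec (cz t)) (s : ℝ)
    (t : ι → ℤ) : gs (s • A) 0 (τ t) = gs (s • A2) 0 t := by
  unfold gs
  rw [sub_zero, sub_zero, q_smul, q_smul, q_tau hτ]

/-- differencing for Gaussian sums -/
theorem SubL.vdc_gs (h : SubL cls τ) {A A2 : Matrix ι ι ℝ} (hA : A.det ≠ 0)
    (hτ : ∀ t, A.mulVec (cz (τ t)) = A2.mulVec (cz t)) (c : ι → ℝ) {F : (ι → ℤ) → ℂ}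
    (hF : ∀ z, ‖F z‖ ≤ 1) :
    (Summable fun t => (gs ((√2)⁻¹ • A2) 0 t : ℂ) *
      GS ((√2) • A) (c - (2 : ℝ)⁻¹ • cz (τ t)) (DT τ F t)) ∧
    ‖GS A c F‖ ^ 2 ≤ Fintype.card Qt *
      ‖∑' t, (gs ((√2)⁻¹ • A2) 0 t : ℂ) * GS ((√2) • A) (c - (2 : ℝ)⁻¹ • cz (τ t)) (DT τ F t)‖ := by
  have h1 := h.pair_summable2 (GS_summable hA c hF)
  have h2 := h.vdc (GS_summable hA c hF)
  have e1 : ∀ t, ∑' z, ((gs A c (z + τ t) : ℂ) * F (z + τ t)) *
      (starRingEnd ℂ) ((gs A c z : ℂ) * F z) =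
      (gs ((√2)⁻¹ • A2) 0 t : ℂ) * GS ((√2) • A) (c - (2 : ℝ)⁻¹ • cz (τ t)) (DT τ F t) := by
    intro t
    unfold GS DT
    rw [← tsum_mul_left]
    refine tsum_congr fun z => ?_
    have h3 := gs_par A c z (τ t)
    rw [gs_tau hτ] at h3
    rw [map_mul, Complex.conj_ofReal]
    have h4 : ((gs A c (z + τ t) : ℂ) * (gs A c z : ℂ)) =
      (gs ((√2) • A) (c - (2 : ℝ)⁻¹ • cz (τ t)) z : ℂ) * (gs ((√2)⁻¹ • A2) 0 t : ℂ) := by
      exact_mod_cast h3
    linear_combination (F (z + τ t) * (starRingEnd ℂ) (F z)) * h4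
  constructor
  · have := h1.of_norm.prod
    refine this.congr fun t => ?_
    exact e1 t
  · rw [tsum_congr e1] at h2
    exact h2

lemma inv_mv {M : Matrix ι ι ℝ} (hM : M.det ≠ 0) (x : ι → ℝ) : M⁻¹.mulVec (M.mulVec x) = x := by
  rw [Matrix.mulVec_mulVec, Matrix.nonsing_inv_mul _ (isUnit_iff_ne_zero.2 hM), Matrix.one_mulVec]

lemma mv_inv {M : Matrix ι ι ℝ} (hM : M.det ≠ 0) (x : ι → ℝ) : M.mulVec (M⁻¹.mulVec x) = x := by
  rw [Matrix.mulVec_mulVec, Matrix.mul_nonsing_inv _ (isUnit_iff_ne_zero.2 hM), Matrix.one_mulVec]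

/-- the characters which occur in the completion -/
noncomputable def lamS (A A3 : Matrix ι ι ℝ) (y w : ι → ℤ) : ℂ :=
  e (∑ i, (y i : ℝ) * (A3⁻¹.mulVec (A.mulVec (cz w))) i)

lemma lamS_add (A A3 : Matrix ι ι ℝ) (y z w : ι → ℤ) :
    lamS A A3 y (z + w) = lamS A A3 y z * lamS A A3 y w := by
  unfold lamS
  have e1 : cz (z + w) = cz z + cz w := by
    funext i; simp [cz]
  rw [e1, Matrix.mulVec_add, Matrix.mulVec_add, ← e_add, ← sum_add_distrib]
  congr 1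
  refine sum_congr rfl fun i _ => ?_
  rw [Pi.add_apply]
  ring

lemma lamS_norm (A A3 : Matrix ι ι ℝ) (y w : ι → ℤ) : ‖lamS A A3 y w‖ = 1 := e_norm _

lemma lamS_tau {A A3 : Matrix ι ι ℝ} (hA3 : A3.det ≠ 0)
    (hτ : ∀ t, A.mulVec (cz (τ t)) = A3.mulVec (cz t)) (y t : ι → ℤ) :
    lamS A A3 y (τ t) = 1 := by
  unfold lamS
  rw [hτ, Matrix.mulVec_mulVec, Matrix.nonsing_inv_mul _ (isUnit_iff_ne_zero.2 hA3),
    Matrix.one_mulVec]
  have : ∑ i, (y i : ℝ) * cz t i = ((∑ i, y i * t i : ℤ) : ℝ) := by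
    push_cast
    rfl
  rw [this, e_int]

lemma lamS_zero (A A3 : Matrix ι ι ℝ) (w : ι → ℤ) : lamS A A3 0 w = 1 := by
  unfold lamS
  simp [e_zero]

/-- dot products -/
lemma dot_tr (M : Matrix ι ι ℝ) (x y : ι → ℝ) :
    ∑ i, (M.transpose.mulVec x) i * y i = ∑ i, x i * (M.mulVec y) i := by
  have h1 : ∑ i, (M.transpose.mulVec x) i * y i = dotProduct (M.transpose.mulVec x) y := rfl
  have h2 : ∑ i, x i * (M.mulVec y) i = dotProduct x (M.mulVec y) := rfl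
  rw [h1, h2, Matrix.mulVec_transpose, ← Matrix.dotProduct_mulVec]

/-- the frequency on the dual side -/
noncomputable def xiS (A A3 : Matrix ι ι ℝ) (η : ι → ℝ) : ι → ℝ :=
  A3.transpose.mulVec ((A⁻¹).transpose.mulVec η)

lemma xiS_dot (A A3 : Matrix ι ι ℝ) (η y : ι → ℝ) :
    ∑ i, xiS A A3 η i * y i = ∑ i, η i * (A⁻¹.mulVec (A3.mulVec y)) i := by
  unfold xiS
  rw [dot_tr, dot_tr]

/-- completion and Poisson summation -/
theorem SubL.complete (h : SubL cls τ) {rep : Qt → (ι → ℤ)} (hrep : ∀ k, cls (rep k) = k)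
    {A A3 : Matrix ι ι ℝ} (hA : A.det ≠ 0) (hA3 : A3.det ≠ 0)
    (hτ : ∀ t, A.mulVec (cz (τ t)) = A3.mulVec (cz t)) {g : (ι → ℤ) → ℂ} (hg1 : ∀ z, ‖g z‖ ≤ 1)
    (hg : ∀ z t, g (z + τ t) = g z) (c η : ι → ℝ) :
    (Summable fun y => gs (du A3) (xiS A A3 η) y * ‖∑ k, g (rep k) * lamS A A3 y (rep k)‖) ∧
    ‖GS A c (fun z => ee η z * g z)‖ ≤ Mv A3 * ∑' y, gs (du A3) (xiS A A3 η) y *
      ‖∑ k, g (rep k) * lamS A A3 y (rep k)‖ := by
  -- the reindexing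
  have hbij : Function.Bijective (fun kt : Qt × (ι → ℤ) => rep kt.1 + τ kt.2) := by
    constructor
    · rintro ⟨k, t⟩ ⟨k', t'⟩ h0
      simp only at h0
      have h1 : k = k' := by
        have := congrArg cls h0
        rwa [h.cls_add, h.cls_add, hrep, hrep] at this
      subst h1
      have h2 := h.inj (add_left_cancel h0)
      rw [h2]
    · intro z
      obtain ⟨t, ht⟩ := (h.iff z (rep (cls z))).1 (by rw [hrep])
      exact ⟨(cls z, t), ht.symm⟩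
  have hUA : IsUnit A.det := isUnit_iff_ne_zero.2 hA
  have hUA3 : IsUnit A3.det := isUnit_iff_ne_zero.2 hA3
  set ck : Qt → ι → ℝ := fun k => A3⁻¹.mulVec (A.mulVec (c - cz (rep k))) with hck
  set ξ' := xiS A A3 η with hξ'
  have hgk : ∀ k t, gs A c (rep k + τ t) = gs A3 (ck k) t := by
    intro k t
    unfold gs q
    congr 3
    have e1 : cz (rep k + τ t) - c = cz (τ t) - (c - cz (rep k)) := by
      funext i; simp [cz]; ring
    have e2 : A.mulVec (cz (rep k + τ t) - c) = A3.mulVec (cz t - ck k) := by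
      simp only [hck]
      rw [e1, Matrix.mulVec_sub, hτ, Matrix.mulVec_sub A3, mv_inv hA3]
    rw [e2]
  have hek : ∀ k t, ee η (rep k + τ t) = ee η (rep k) * e (∑ i, ξ' i * (t i : ℝ)) := by
    intro k t
    rw [ee_add]
    congr 1
    unfold ee
    have h1 := xiS_dot A A3 η (cz t)
    have e1 : ∑ i, ξ' i * (t i : ℝ) = ∑ i, xiS A A3 η i * cz t i := rfl
    rw [e1, h1, ← hτ, inv_mv hA]
    rfl
  -- the sum over one class
  have hpo : ∀ k, ee η (rep k) * ∑' t, (gs A3 (ck k) t : ℂ) * e (∑ i, ξ' i * (t i : ℝ)) =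
      ((|A3.det|⁻¹ : ℝ) : ℂ) * ∑' y : ι → ℤ, (gs (du A3) ξ' y : ℂ) *
        (e (∑ i, (A3⁻¹.mulVec (A.mulVec c)) i * (ξ' i - y i)) * lamS A A3 y (rep k)) := by
    intro k
    rw [gs_poisson hA3 (ck k) ξ', mul_left_comm]
    congr 1
    rw [← tsum_mul_left]
    refine tsum_congr fun y => ?_
    rw [mul_left_comm]
    congr 1
    unfold ee lamS
    rw [← e_add, ← e_add]
    congr 1
    have h1 := xiS_dot A A3 η (A3⁻¹.mulVec (A.mulVec (cz (rep k))))
    rw [← hξ', mv_inv hA3, inv_mv hA] at h1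
    have h2 : ∀ i, ck k i = (A3⁻¹.mulVec (A.mulVec c)) i -
        (A3⁻¹.mulVec (A.mulVec (cz (rep k)))) i := by
      intro i
      simp only [hck]
      rw [Matrix.mulVec_sub, Matrix.mulVec_sub, Pi.sub_apply]
    have h3 : ∑ i, ck k i * (ξ' i - (y i : ℝ)) =
        ∑ i, (A3⁻¹.mulVec (A.mulVec c)) i * (ξ' i - (y i : ℝ)) -
        ∑ i, ξ' i * (A3⁻¹.mulVec (A.mulVec (cz (rep k)))) i +
        ∑ i, (y i : ℝ) * (A3⁻¹.mulVec (A.mulVec (cz (rep k)))) i := by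
      rw [← sum_sub_distrib, ← sum_add_distrib]
      refine sum_congr rfl fun i _ => ?_
      rw [h2]
      ring
    rw [h3, h1]
    have h4 : ∑ i, η i * ((rep k i : ℤ) : ℝ) = ∑ i, η i * cz (rep k) i := rfl
    rw [h4]
    ring
  -- summability
  have hsA := GS_summable hA c (F := fun z => ee η z * g z) (fun z => by
    rw [norm_mul, ee_norm, one_mul]; exact hg1 z)
  have hdu := du_det_ne hA3
  have hb : ∀ y, ‖∑ k, g (rep k) * lamS A A3 y (rep k)‖ ≤ Fintype.card Qt := by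
    intro y
    refine (norm_sum_le _ _).trans ((sum_le_card_nsmul _ _ 1 fun k _ => ?_).trans (by simp))
    rw [norm_mul, lamS_norm, mul_one]
    exact hg1 _
  have hsy : Summable fun y => gs (du A3) ξ' y * ‖∑ k, g (rep k) * lamS A A3 y (rep k)‖ := by
    refine Summable.of_nonneg_of_le (fun y => mul_nonneg (gs_pos _ _ _).le (norm_nonneg _))
      (fun y => mul_le_mul_of_nonneg_left (hb y) (gs_pos _ _ _).le)
      ((gs_summable hdu ξ').mul_right _)
  refine ⟨hsy, ?_⟩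
  have hmain : GS A c (fun z => ee η z * g z) = ((|A3.det|⁻¹ : ℝ) : ℂ) * ∑' y : ι → ℤ,
      (gs (du A3) ξ' y : ℂ) * (e (∑ i, (A3⁻¹.mulVec (A.mulVec c)) i * (ξ' i - y i)) *
        ∑ k, g (rep k) * lamS A A3 y (rep k)) := by
    unfold GS
    rw [← (Equiv.ofBijective _ hbij).tsum_eq]
    have hs2 : Summable fun kt : Qt × (ι → ℤ) =>
        (gs A c ((Equiv.ofBijective _ hbij) kt) : ℂ) *
        (ee η ((Equiv.ofBijective _ hbij) kt) * g ((Equiv.ofBijective _ hbij) kt)) :=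
      (Equiv.ofBijective _ hbij).summable_iff.2 hsA.of_norm
    beta_reduce
    rw [hs2.tsum_prod' (fun k => hs2.prod_factor k)]
    rw [tsum_fintype]
    have e1 : ∀ k, ∑' t, (gs A c ((Equiv.ofBijective _ hbij) (k, t)) : ℂ) *
        (ee η ((Equiv.ofBijective _ hbij) (k, t)) * g ((Equiv.ofBijective _ hbij) (k, t))) =
        g (rep k) * (((|A3.det|⁻¹ : ℝ) : ℂ) * ∑' y : ι → ℤ, (gs (du A3) ξ' y : ℂ) *
        (e (∑ i, (A3⁻¹.mulVec (A.mulVec c)) i * (ξ' i - y i)) * lamS A A3 y (rep k))) := by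
      intro k
      rw [← hpo k, ← tsum_mul_left, ← tsum_mul_left]
      refine tsum_congr fun t => ?_
      show (gs A c (rep k + τ t) : ℂ) * (ee η (rep k + τ t) * g (rep k + τ t)) = _
      rw [hgk, hek, hg]
      ring
    rw [sum_congr rfl fun k _ => e1 k]
    have e2 : ∀ k, g (rep k) * (((|A3.det|⁻¹ : ℝ) : ℂ) * ∑' y : ι → ℤ, (gs (du A3) ξ' y : ℂ) *
        (e (∑ i, (A3⁻¹.mulVec (A.mulVec c)) i * (ξ' i - y i)) * lamS A A3 y (rep k))) =
        ((|A3.det|⁻¹ : ℝ) : ℂ) * ∑' y : ι → ℤ, g (rep k) * ((gs (du A3) ξ' y : ℂ) *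
        (e (∑ i, (A3⁻¹.mulVec (A.mulVec c)) i * (ξ' i - y i)) * lamS A A3 y (rep k))) := by
      intro k
      rw [mul_left_comm, tsum_mul_left]
    rw [sum_congr rfl fun k _ => e2 k, ← mul_sum]
    congr 1
    have hs3 : ∀ k ∈ (univ : Finset Qt), Summable fun y : ι → ℤ => g (rep k) *
        ((gs (du A3) ξ' y : ℂ) * (e (∑ i, (A3⁻¹.mulVec (A.mulVec c)) i * (ξ' i - y i)) *
          lamS A A3 y (rep k))) := by
      intro k _
      refine Summable.of_norm_bounded (gs_summable hdu ξ') fun y => ?_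
      rw [norm_mul, norm_mul, norm_mul, e_norm, lamS_norm, Complex.norm_real,
        Real.norm_of_nonneg (gs_pos _ _ _).le]
      have := mul_le_mul_of_nonneg_right (hg1 (rep k)) (gs_pos (du A3) ξ' y).le
      linarith
    rw [← Summable.tsum_finsetSum hs3]
    refine tsum_congr fun y => ?_
    rw [mul_sum, mul_sum]
    refine sum_congr rfl fun k _ => ?_
    ring
  rw [hmain, norm_mul, Complex.norm_real, Real.norm_of_nonneg (inv_nonneg.2 (abs_nonneg _))]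
  refine mul_le_mul_of_nonneg_left ?_ (inv_nonneg.2 (abs_nonneg _))
  refine tsum_of_norm_bounded hsy.hasSum fun y => ?_
  rw [norm_mul, norm_mul, e_norm, one_mul, Complex.norm_real,
    Real.norm_of_nonneg (gs_pos _ _ _).le]

end Pool.Agent.T2H29.SW
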