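import Pool.Agent.T2H29.SW.B9

/-!
# The abstract main theorem, second form
-/

set_option autoImplicit false
set_option linter.unusedSectionVars false

namespace Pool.Agent.T2H29.SW

open Finset NumberField NumberField.InfinitePlace Module MeasureTheory NumberField.Units
open scoped nonZeroDivisors

variable {K : Type} [Field K] [NumberField K]

/-- one class -/
theorem class_LGH {B : ℝ} {Ct : ℕ → ℝ} {Q k : ℝ} {I : Ideal (𝓞 K)} {b : Basis (Fin (dg K)) ℤ I}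
    {F : (Fin (dg K) → ℤ) → ℂ} {θ : Par (InfinitePlace K)} {χ : Ideal (𝓞 K) →* ℂ}
    (h : SetH B Ct Q k I b F) {κ : ℂ}
    (hrel : ∀ z, χ (Ideal.span {el b z}) = κ * F z * infK θ (el b z : K)) (hχI : χ I ≠ 0)
    {c : ℝ} (hc0 : 0 < c)
    (hc : ∀ G : (InfinitePlace K → ℝ) → ℂ, (∫ x, G (UU K x) = (c : ℂ) * ∫ u, G u) ∧
      (Integrable G → Integrable fun x => G (UU K x))) {C : ClassGroup (𝓞 K)} (hI : I ≠ ⊥)
    (hC : ClassGroup.mk0 ⟨I, nzd hI⟩ = C⁻¹) {s : ℂ} (hs : 1 < s.re) {t0 : ℝ}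
    (ht : |s.im - t0| < 1) :
    HasSum (fun J : clS C => χ J.1 * (Ideal.absNorm J.1 : ℂ) ^ (-s))
      ((χ I)⁻¹ * (Ideal.absNorm I : ℂ) ^ s *
        (((torsionOrder K : ℂ) * c)⁻¹ * (Zf K (s - Complex.I * t0))⁻¹ *
          (κ * LamT θ.2 (ThW b (shp θ t0) F) s))) := by
  refine cl_hasSum hI hC hχI ?_
  have h1 := el_sumTH (χ := χ) h hrel t0 hs hc
  have hF0 : (fun α : 𝓞 K => ∫ x in box K, TN s θ t0 χ α x) 0 = 0 := by
    beta_reduce
    have : ∀ x, TN s θ t0 χ 0 x = 0 := by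
      intro x
      have h2 := TN_el h.zero hrel s t0 0 x
      rw [h.zero, el_zero] at h2
      rw [h2]
      ring
    simp_rw [this]
    simp
  have h2 := class_hasSum b (F := fun α : 𝓞 K => ∫ x in box K, TN s θ t0 χ α x) hF0 h1
    (G := fun J : PrI I => (torsionOrder K : ℂ) * ((c * Zf K (s - Complex.I * t0)) *
      (χ (Ideal.span {J.gen}) * (Ideal.absNorm (Ideal.span {J.gen}) : ℂ) ^ (-s))))
    (fun J => TN_units s θ t0 χ hc J.gen_ne)
  have h3 := h2.mul_left (((torsionOrder K : ℂ) * c)⁻¹ * (Zf K (s - Complex.I * t0))⁻¹)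
  refine h3.congr_fun ?_ |> id
  intro J
  rw [J.span]
  have hw : (torsionOrder K : ℂ) ≠ 0 := by exact_mod_cast torsionOrder_ne_zero K
  have hcc : (c : ℂ) ≠ 0 := by exact_mod_cast hc0.ne'
  have hZ : Zf K (s - Complex.I * t0) ≠ 0 := by
    refine Zf_ne K ?_
    have e1 : (s - Complex.I * t0).im = s.im - t0 := by simp
    rw [e1]
    exact ht.le
  field_simp

/-- the abstract main theorem -/
theorem main_absH (K : Type) [Field K] [NumberField K] (B : ℝ) (Ct : ℕ → ℝ) (hCt : ∀ N, 0 ≤ Ct N) :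
    ∃ C0 : ℝ, 0 < C0 ∧ ∀ (m : Ideal (𝓞 K)) (θ : Par (InfinitePlace K)) (χ : Ideal (𝓞 K) →* ℂ)
    (Q k : ℝ), m ≠ ⊤ → (∀ I, ¬ IsCoprime I m → χ I = 0) → (∀ I, IsCoprime I m → ‖χ I‖ = 1) →
    (∀ C : ClassGroup (𝓞 K), ∃ (I : Ideal (𝓞 K)) (hI : I ≠ ⊥), IsCoprime I m ∧
      ClassGroup.mk0 ⟨I, nzd hI⟩ = C⁻¹ ∧ ∃ (b : Basis (Fin (dg K)) ℤ I)
      (G : (Fin (dg K) → ℤ) → ℂ), SetH B Ct Q k I b G ∧
      ∀ z, χ (Ideal.span {el b z}) = 1 * G z * infK θ (el b z : K)) →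
    ∃ L : ℂ → ℂ, Differentiable ℂ L ∧
    (∀ s : ℂ, 1 < s.re →
      HasSum (fun I : Ideal (𝓞 K) => χ I * (Ideal.absNorm I : ℂ) ^ (-s)) (L s)) ∧
    ∀ t : ℝ, ‖L (1 / 2 + t * Complex.I)‖ ≤ C0 * (Tp θ * (1 + |t|)) ^ (3 * dg K + 1) *
        (√k * (Real.log Q + 1) + 1) := by
  haveI : Nonempty (Fin (dg K)) := ⟨0⟩
  obtain ⟨c, hc0, hc⟩ := UU_int K
  obtain ⟨C0, hC00, hC0⟩ := LamT_bdH K B Ct hCt
  have hwc : 0 < (torsionOrder K : ℝ) * c := by
    have : (0 : ℝ) < torsionOrder K := by exact_mod_cast torsionOrder_pos K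
    positivity
  have hcard : (0 : ℝ) < Fintype.card (ClassGroup (𝓞 K)) := by
    exact_mod_cast Fintype.card_pos
  have hZ0 : Zf K (1 / 2) ≠ 0 := Zf_ne K (by norm_num)
  have hZn : 0 < ‖Zf K (1 / 2)‖ := norm_pos_iff.2 hZ0
  set A0 : ℝ := (1 + 2 * Fintype.card (InfinitePlace K)) ^ (3 * dg K + 1) with hA0
  have hA00 : 0 < A0 := by positivity
  refine ⟨Fintype.card (ClassGroup (𝓞 K)) * (((torsionOrder K : ℝ) * c)⁻¹ *
    ‖Zf K (1 / 2)‖⁻¹ * (C0 * A0)), by positivity, fun m θ χ Q k hm hχz hχnn hdata => ?_⟩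
  choose I hI hco hC b G hS hrel using hdata
  have hχn : ∀ C, ‖χ (I C)‖ = 1 := fun C => hχnn _ (hco C)
  have hχ0 : ∀ C, χ (I C) ≠ 0 := by
    intro C h1
    have := hχn C
    rw [h1, norm_zero] at this
    exact zero_ne_one this
  have hbot : χ ⊥ = 0 := by
    refine hχz _ fun h1 => ?_
    rw [Ideal.isCoprime_iff_sup_eq, bot_sup_eq] at h1
    exact hm h1
  set Lt : ℝ → ℂ → ℂ := fun t0 s => ∑ C : ClassGroup (𝓞 K), ((χ (I C))⁻¹ *
    (Ideal.absNorm (I C) : ℂ) ^ s * (((torsionOrder K : ℂ) * c)⁻¹ *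
      (Zf K (s - Complex.I * t0))⁻¹ * ((1 : ℂ) * LamT θ.2 (ThW (b C) (shp θ t0) (G C)) s))) with hLt
  have hd : ∀ t0, DifferentiableOn ℂ (Lt t0) {s | |s.im - t0| < 1} := by
    intro t0
    rw [hLt]
    beta_reduce
    refine DifferentiableOn.fun_sum fun C _ => ?_
    have h1 := ((hS C).td (shp θ t0)).diff θ.2
    have h2 : DifferentiableOn ℂ (fun s => (Zf K (s - Complex.I * t0))⁻¹) {s | |s.im - t0| < 1} := by
      refine DifferentiableOn.inv ?_ fun s hs => ?_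
      · exact ((Zf_diff K).comp (by fun_prop :
          Differentiable ℂ fun s : ℂ => s - Complex.I * t0)).differentiableOn
      · refine Zf_ne K ?_
        have e1 : (s - Complex.I * t0).im = s.im - t0 := by simp
        rw [e1]
        exact le_of_lt hs
    have h3 : Differentiable ℂ fun s : ℂ => (Ideal.absNorm (I C) : ℂ) ^ s := by
      refine Differentiable.const_cpow differentiable_id (Or.inl ?_)
      have := absNorm_pos' (hI C)
      exact_mod_cast this.ne'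
    refine DifferentiableOn.mul ((h3.differentiableOn).const_mul _) ?_
    refine DifferentiableOn.mul (h2.const_mul _) ?_
    exact (h1.differentiableOn).const_mul _
  have hsum : ∀ t0 s, 1 < s.re → |s.im - t0| < 1 →
      HasSum (fun I : Ideal (𝓞 K) => χ I * (Ideal.absNorm I : ℂ) ^ (-s)) (Lt t0 s) := by
    intro t0 s hs ht
    refine all_hasSum (f := fun J : Ideal (𝓞 K) => χ J * (Ideal.absNorm J : ℂ) ^ (-s)) ?_
      fun C => ?_
    · rw [hbot, zero_mul]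
    · exact class_LGH (hS C) (hrel C) (hχ0 C) hc0 hc (hI C) (hC C) hs ht
  obtain ⟨L, hL1, hL2, hL3⟩ := glue hd
    (g := fun s => ∑' I : Ideal (𝓞 K), χ I * (Ideal.absNorm I : ℂ) ^ (-s))
    (fun t0 s hs ht => ((hsum t0 s hs ht).tsum_eq).symm)
  refine ⟨L, hL1, fun s hs => ?_, fun t => ?_⟩
  · rw [hL3 s.im s (by simp)]
    exact hsum s.im s hs (by simp)
  · set s : ℂ := 1 / 2 + t * Complex.I with hs
    have hsi : s.im = t := by simp [hs]
    have hre : s.re = 1 / 2 := by simp [hs]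
    rw [hL3 t s (by rw [hsi]; simp)]
    have hsub : s - Complex.I * t = 1 / 2 := by rw [hs]; ring
    rw [hLt]
    beta_reduce
    refine (norm_sum_le _ _).trans ?_
    have hT1 := Tp_one θ
    have h1 : ∀ C : ClassGroup (𝓞 K), ‖(χ (I C))⁻¹ * (Ideal.absNorm (I C) : ℂ) ^ s *
        (((torsionOrder K : ℂ) * c)⁻¹ * (Zf K (s - Complex.I * t))⁻¹ *
        ((1 : ℂ) * LamT θ.2 (ThW (b C) (shp θ t) (G C)) s))‖ ≤
        ((torsionOrder K : ℝ) * c)⁻¹ * ‖Zf K (1 / 2)‖⁻¹ * (C0 * A0) *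
        ((Tp θ * (1 + |t|)) ^ (3 * dg K + 1) * (√k * (Real.log Q + 1) + 1)) := by
      intro C
      have hlQ : 0 ≤ Real.log Q := Real.log_nonneg (hS C).Q1
      have h2 := hC0 Q k (I C) (b C) (G C) (shp θ t) θ.2 s (hS C) hre
      have hI0 := absNorm_pos' (hI C)
      have e1 : ‖(Ideal.absNorm (I C) : ℂ) ^ s‖ = √(Ideal.absNorm (I C)) := by
        have e2 : ((Ideal.absNorm (I C) : ℕ) : ℂ) = (((Ideal.absNorm (I C) : ℕ) : ℝ) : ℂ) := by
          push_cast; rfl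
        rw [e2, Complex.norm_cpow_eq_rpow_re_of_pos hI0, hre, Real.sqrt_eq_rpow]
      have e3 : ‖((torsionOrder K : ℂ) * c)⁻¹‖ = ((torsionOrder K : ℝ) * c)⁻¹ := by
        rw [norm_inv]
        congr 1
        have : ((torsionOrder K : ℂ) * c) = (((torsionOrder K : ℝ) * c : ℝ) : ℂ) := by
          push_cast; rfl
        rw [this, Complex.norm_real, Real.norm_of_nonneg hwc.le]
      rw [norm_mul, norm_mul, norm_inv, hχn, inv_one, one_mul, norm_mul, norm_mul, one_mul, e1, e3,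
        hsub, norm_inv]
      set Λ := ‖LamT θ.2 (ThW (b C) (shp θ t) (G C)) s‖ with hΛ
      have hΛ0 : 0 ≤ Λ := norm_nonneg _
      have hTs : Tp (shp θ t) ^ (3 * dg K + 1) ≤ A0 * (Tp θ * (1 + |t|)) ^ (3 * dg K + 1) := by
        rw [hA0, ← mul_pow]
        have h5 := Tp_one (shp θ t)
        exact pow_le_pow_left₀ (by linarith) (Tp_shp θ t) _
      have hYY : 0 ≤ √k * (Real.log Q + 1) + 1 := by positivity
      calc √(Ideal.absNorm (I C)) * (((torsionOrder K : ℝ) * c)⁻¹ * ‖Zf K (1 / 2)‖⁻¹ * Λ) =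
            ((torsionOrder K : ℝ) * c)⁻¹ * ‖Zf K (1 / 2)‖⁻¹ * (√(Ideal.absNorm (I C)) * Λ) := by ring
        _ ≤ ((torsionOrder K : ℝ) * c)⁻¹ * ‖Zf K (1 / 2)‖⁻¹ * (C0 * (A0 *
            (Tp θ * (1 + |t|)) ^ (3 * dg K + 1)) * (√k * (Real.log Q + 1) + 1)) := by
            refine mul_le_mul_of_nonneg_left (h2.trans ?_) (by positivity)
            refine mul_le_mul_of_nonneg_right ?_ hYY
            exact mul_le_mul_of_nonneg_left hTs hC00.le
        _ = _ := by ring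
    refine (sum_le_sum fun C _ => h1 C).trans ?_
    rw [sum_const, card_univ, nsmul_eq_mul]
    exact le_of_eq (by ring)

end Pool.Agent.T2H29.SW
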