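import Pool.Agent.T2H29.SW.B10

/-!
# The divisor bound for ideals
-/

set_option autoImplicit false
set_option linter.unusedSectionVars false

namespace Pool.Agent.T2H29.SW

open Finset NumberField NumberField.InfinitePlace Module

variable {K : Type} [Field K] [NumberField K]

lemma tau_mul_le {x y : Ideal (𝓞 K)} (hx : x ≠ ⊥) (hy : y ≠ ⊥) (hxy : x * y ≠ ⊥) :
    tau (x * y) ≤ tau x * tau y := by
  classical
  unfold tau
  rw [← card_product]
  refine (card_le_card fun d hd => ?_).trans (card_image_le (f := fun p => p.1 * p.2))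
  obtain ⟨d1, d2, h1, h2, h3⟩ := exists_dvd_and_dvd_of_dvd_mul ((mem_dvs hxy).1 hd)
  rw [mem_image]
  exact ⟨(d1, d2), mem_product.2 ⟨(mem_dvs hx).2 h1, (mem_dvs hy).2 h2⟩, h3.symm⟩

lemma tau_pow_le {P : Ideal (𝓞 K)} (hP : Prime P) (k : ℕ) : tau (P ^ k) ≤ k + 1 := by
  classical
  have h0 : P ^ k ≠ ⊥ := pow_ne_zero k hP.ne_zero
  unfold tau
  have h1 : dvs (P ^ k) ⊆ (range (k + 1)).image fun i => P ^ i := by
    intro d hd
    obtain ⟨i, hi, hdi⟩ := (dvd_prime_pow hP k).1 ((mem_dvs h0).1 hd)
    rw [mem_image]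
    refine ⟨i, mem_range.2 (by omega), ?_⟩
    exact (associated_iff_eq.1 hdi).symm
  refine (card_le_card h1).trans (card_image_le.trans ?_)
  rw [card_range]

lemma two_le_nrm {P : Ideal (𝓞 K)} (hP : Prime P) : 2 ≤ Ideal.absNorm P := by
  have h0 : Ideal.absNorm P ≠ 0 := fun h => hP.ne_zero (Ideal.absNorm_eq_zero_iff.1 h)
  have h1 : Ideal.absNorm P ≠ 1 := by
    intro h
    rw [Ideal.absNorm_eq_one_iff] at h
    apply hP.not_unit
    rw [Ideal.isUnit_iff]
    exact h
  omega

/-- the divisor bound -/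
theorem tau_bound (K : Type) [Field K] [NumberField K] {ε : ℝ} (hε : 0 < ε) : ∃ C : ℝ, 1 ≤ C ∧
    ∀ s : Ideal (𝓞 K), s ≠ ⊥ → (tau s : ℝ) ≤ C * (Ideal.absNorm s : ℝ) ^ ε := by
  classical
  set c : ℝ := 1 / (ε * Real.log 2) + 1 with hc
  have hl2 : 0 < Real.log 2 := Real.log_pos (by norm_num)
  have hc1 : 1 ≤ c := by
    rw [hc]
    have : 0 ≤ 1 / (ε * Real.log 2) := by positivity
    linarith
  set N0 : ℕ := ⌈(2 : ℝ) ^ (1 / ε)⌉₊ with hN0
  set S : Finset (Ideal (𝓞 K)) :=
    ((Ideal.finite_setOfPred_absNorm_le (S := 𝓞 K) N0).toFinset).filter Prime with hS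
  set cn : Ideal (𝓞 K) → ℕ := fun s => (S.filter (· ∣ s)).card with hcn
  have hmain : ∀ s : Ideal (𝓞 K), s ≠ 0 → (tau s : ℝ) ≤ c ^ cn s * (Ideal.absNorm s : ℝ) ^ ε := by
    intro s
    refine UniqueFactorizationMonoid.induction_on_coprime s (fun h => absurd rfl h)
      (fun {x} hx _ => ?_) (fun {P} k hP _ => ?_) (fun {x y} hxy hx hy h0 => ?_)
    · -- units
      rw [Ideal.isUnit_iff] at hx
      have h1 : tau x ≤ 1 := by
        unfold tau
        rw [card_le_one]
        intro d1 hd1 d2 hd2
        have hx0 : x ≠ ⊥ := by rw [hx]; exact top_ne_bot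
        have h2 := (mem_dvs hx0).1 hd1
        have h3 := (mem_dvs hx0).1 hd2
        rw [hx, Ideal.dvd_iff_le, top_le_iff] at h2 h3
        rw [h2, h3]
      have h2 : (Ideal.absNorm x : ℝ) = 1 := by
        have : Ideal.absNorm x = 1 := Ideal.absNorm_eq_one_iff.2 hx
        exact_mod_cast this
      rw [h2, Real.one_rpow, mul_one]
      have h3 : (tau x : ℝ) ≤ 1 := by exact_mod_cast h1
      exact h3.trans (one_le_pow₀ hc1)
    · -- prime powers
      have hN2 := two_le_nrm hP
      have hN2' : (2 : ℝ) ≤ Ideal.absNorm P := by exact_mod_cast hN2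
      have hNpos : (0 : ℝ) < Ideal.absNorm P := by linarith
      have h1 : (tau (P ^ k) : ℝ) ≤ k + 1 := by exact_mod_cast tau_pow_le hP k
      have h2 : ((Ideal.absNorm (P ^ k) : ℕ) : ℝ) ^ ε = ((Ideal.absNorm P : ℝ) ^ ε) ^ k := by
        rw [map_pow]
        push_cast
        rw [← Real.rpow_natCast, ← Real.rpow_natCast, ← Real.rpow_mul hNpos.le,
          ← Real.rpow_mul hNpos.le]
        congr 1
        ring
      rw [h2]
      rcases Nat.eq_zero_or_pos k with hk | hk
      · subst hk
        rw [pow_zero ((Ideal.absNorm P : ℝ) ^ ε), mul_one]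
        push_cast at h1
        rw [zero_add] at h1
        exact h1.trans (one_le_pow₀ hc1)
      by_cases hPS : P ∈ S
      · have h3 : 1 ≤ cn (P ^ k) := by
          simp only [hcn]
          refine card_pos.2 ⟨P, mem_filter.2 ⟨hPS, dvd_pow_self P (by omega)⟩⟩
        have h4 := y_le_exp (y := (k : ℝ)) (by positivity) (show 0 < ε * Real.log 2 by positivity)
        have h5 : Real.exp (ε * Real.log 2 * k) = ((2 : ℝ) ^ ε) ^ k := by
          rw [Real.rpow_def_of_pos (by norm_num), ← Real.exp_nat_mul]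
          congr 1
          ring
        rw [h5, ← hc] at h4
        have h6 : ((2 : ℝ) ^ ε) ^ k ≤ ((Ideal.absNorm P : ℝ) ^ ε) ^ k :=
          pow_le_pow_left₀ (by positivity) (Real.rpow_le_rpow (by norm_num) hN2' hε.le) k
        have h7 : c ≤ c ^ cn (P ^ k) := by
          calc c = c ^ 1 := (pow_one c).symm
            _ ≤ _ := pow_le_pow_right₀ hc1 h3
        calc (tau (P ^ k) : ℝ) ≤ k + 1 := h1
          _ ≤ c * ((2 : ℝ) ^ ε) ^ k := h4
          _ ≤ _ := mul_le_mul h7 h6 (by positivity) (by positivity)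
      · have h3 : (2 : ℝ) ≤ (Ideal.absNorm P : ℝ) ^ ε := by
          have h4 : N0 < Ideal.absNorm P := by
            by_contra hcon
            push Not at hcon
            apply hPS
            rw [hS, mem_filter, Set.Finite.mem_toFinset]
            exact ⟨hcon, hP⟩
          have h5 : (2 : ℝ) ^ (1 / ε) ≤ Ideal.absNorm P := by
            refine (Nat.le_ceil _).trans ?_
            rw [← hN0]
            exact_mod_cast h4.le
          have h6 := Real.rpow_le_rpow (by positivity) h5 hε.le
          rw [← Real.rpow_mul (by norm_num), one_div, inv_mul_cancel₀ hε.ne', Real.rpow_one] at h6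
          exact h6
        have h4 : (k : ℝ) + 1 ≤ 2 ^ k := by
          have := Nat.lt_two_pow_self (n := k)
          exact_mod_cast this
        calc (tau (P ^ k) : ℝ) ≤ 2 ^ k := h1.trans h4
          _ ≤ ((Ideal.absNorm P : ℝ) ^ ε) ^ k := pow_le_pow_left₀ (by norm_num) h3 k
          _ ≤ _ := le_mul_of_one_le_left (by positivity) (one_le_pow₀ hc1)
    · -- coprime products
      have hx0 : x ≠ 0 := left_ne_zero_of_mul h0
      have hy0 : y ≠ 0 := right_ne_zero_of_mul h0
      have h1 := hx hx0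
      have h2 := hy hy0
      have h3 : cn (x * y) = cn x + cn y := by
        simp only [hcn]
        rw [← card_union_of_disjoint]
        · congr 1
          ext P
          simp only [mem_filter, mem_union]
          constructor
          · rintro ⟨h4, h5⟩
            have hP : Prime P := (mem_filter.1 h4).2
            rcases hP.dvd_or_dvd h5 with h6 | h6
            · exact Or.inl ⟨h4, h6⟩
            · exact Or.inr ⟨h4, h6⟩
          · rintro (⟨h4, h5⟩ | ⟨h4, h5⟩)
            · exact ⟨h4, h5.mul_right y⟩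
            · exact ⟨h4, h5.mul_left x⟩
        · rw [disjoint_left]
          intro P h4 h5
          rw [mem_filter] at h4 h5
          have hP : Prime P := (mem_filter.1 h4.1).2
          exact hP.not_unit (hxy h4.2 h5.2)
      have h4 : (tau (x * y) : ℝ) ≤ tau x * tau y := by
        exact_mod_cast tau_mul_le hx0 hy0 h0
      have h5 : ((Ideal.absNorm (x * y) : ℕ) : ℝ) ^ ε =
          (Ideal.absNorm x : ℝ) ^ ε * (Ideal.absNorm y : ℝ) ^ ε := by
        rw [map_mul]
        push_cast
        exact Real.mul_rpow (by positivity) (by positivity)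
      rw [h3, pow_add, h5]
      calc (tau (x * y) : ℝ) ≤ tau x * tau y := h4
        _ ≤ (c ^ cn x * (Ideal.absNorm x : ℝ) ^ ε) * (c ^ cn y * (Ideal.absNorm y : ℝ) ^ ε) :=
            mul_le_mul h1 h2 (by positivity) (by positivity)
        _ = _ := by ring
  refine ⟨c ^ S.card, one_le_pow₀ hc1, fun s hs => (hmain s hs).trans ?_⟩
  refine mul_le_mul_of_nonneg_right ?_ (by positivity)
  exact pow_le_pow_right₀ hc1 (card_le_card (filter_subset _ _))

end Pool.Agent.T2H29.SW
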