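import Pool.Agent.T2H29.SW.B11

/-!
# Hecke characters of general modulus
-/

set_option autoImplicit false
set_option linter.unusedSectionVars false

namespace Pool.Agent.T2H29.SW

open Finset NumberField NumberField.InfinitePlace Module
open scoped nonZeroDivisors

variable {K : Type} [Field K] [NumberField K]

lemma cop_prime {I J : Ideal (𝓞 K)} :
    IsCoprime I J ↔ ∀ P : Ideal (𝓞 K), P.IsPrime → I ≤ P → J ≤ P → False := by
  rw [Ideal.isCoprime_iff_sup_eq]
  constructor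
  · intro h P hP h1 h2
    apply hP.ne_top
    rw [eq_top_iff, ← h]
    exact sup_le h1 h2
  · intro h
    by_contra h1
    obtain ⟨P, hP, hle⟩ := Ideal.exists_le_maximal _ h1
    exact h P hP.isPrime (le_sup_left.trans hle) (le_sup_right.trans hle)

/-- splitting off the part coprime to `s` -/
lemma split_cop (s : Ideal (𝓞 K)) : ∀ (n : ℕ) (c : Ideal (𝓞 K)), c ≠ ⊥ → Ideal.absNorm c ≤ n →
    ∃ f a, c = f * a ∧ IsCoprime f s ∧ ∀ P : Ideal (𝓞 K), P.IsPrime → a ≤ P → s ≤ P := by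
  intro n
  induction n with
  | zero =>
    intro c hc hn
    have := nrm_pos hc
    omega
  | succ n ih =>
    intro c hc hn
    by_cases h : IsCoprime c s
    · refine ⟨c, ⊤, (Ideal.mul_top c).symm, h, fun P hP h1 => absurd (top_le_iff.1 h1) hP.ne_top⟩
    · have h1 : ∃ P : Ideal (𝓞 K), P.IsPrime ∧ c ≤ P ∧ s ≤ P := by
        by_contra hcon
        push Not at hcon
        exact h (cop_prime.2 fun P hP h1 h2 => hcon P hP h1 h2)
      obtain ⟨P, hP, hcP, hsP⟩ := h1
      obtain ⟨c1, hc1⟩ := Ideal.dvd_iff_le.2 hcP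
      have hP0 : P ≠ ⊥ := (ne_bot_mul (hc1 ▸ hc)).1
      have hc10 : c1 ≠ ⊥ := (ne_bot_mul (hc1 ▸ hc)).2
      have hN1 : Ideal.absNorm P ≠ 1 := fun h2 => hP.ne_top (Ideal.absNorm_eq_one_iff.1 h2)
      have hN0 := nrm_pos hP0
      have hNc := nrm_pos hc10
      have hN : Ideal.absNorm c = Ideal.absNorm P * Ideal.absNorm c1 := by rw [hc1, map_mul]
      have hle : Ideal.absNorm c1 ≤ n := by
        have : 2 * Ideal.absNorm c1 ≤ Ideal.absNorm P * Ideal.absNorm c1 :=
          Nat.mul_le_mul_right _ (by omega)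
        omega
      obtain ⟨f, a, h2, h3, h4⟩ := ih c1 hc10 hle
      refine ⟨f, P * a, by rw [hc1, h2]; ring, h3, fun P' hP' h5 => ?_⟩
      rcases (Ideal.IsPrime.mul_le hP').1 h5 with h6 | h6
      · have h7 : P = P' := (hP.isMaximal hP0).eq_of_le hP'.ne_top h6
        rw [← h7]
        exact hsP
      · exact h4 P' hP' h6

/-- the two components -/
noncomputable def FA (F : 𝓞 K → ℂ) (e : 𝓞 K) (x : 𝓞 K) : ℂ := F (e * x + (1 - e))

section
variable {f m1 : Ideal (𝓞 K)} {F : 𝓞 K → ℂ} {e : 𝓞 K}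

lemma FA_mul_mem (he : e ∈ f) (he1 : e - 1 ∈ m1) (c : 𝓞 K) : e * (1 - e) * c ∈ f * m1 := by
  have h1 : (1 - e) ∈ m1 := by
    have := neg_mem he1
    have e1 : -(e - 1) = 1 - e := by ring
    rwa [e1] at this
  exact Ideal.mul_mem_right _ _ (Ideal.mul_mem_mul he h1)

lemma FA_prod (hF : PM (f * m1) F) (he : e ∈ f) (he1 : e - 1 ∈ m1) (x : 𝓞 K) :
    F x = FA F (1 - e) x * FA F e x := by
  unfold FA
  rw [← hF.mul]
  refine hF.per _ _ ?_
  have e1 : x - ((1 - e) * x + (1 - (1 - e))) * (e * x + (1 - e)) =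
    e * (1 - e) * (-(x - 1) ^ 2) := by ring
  rw [e1]
  exact FA_mul_mem he he1 _

lemma FA_PM (hf : f ≠ ⊥) (hF : PM (f * m1) F) (he : e ∈ f) (he1 : e - 1 ∈ m1) :
    PM m1 (FA F e) := by
  have h1e : (1 - e) ∈ m1 := by
    have := neg_mem he1
    have e1 : -(e - 1) = 1 - e := by ring
    rwa [e1] at this
  refine ⟨fun α hα => ?_, fun α hα => ?_, fun α β => ?_, fun α β hαβ => ?_, fun n hn => ?_⟩
  · obtain ⟨P, hP, h1, h2⟩ := not_cop.1 hα
    refine hF.zero _ (not_cop.2 ⟨P, hP, ?_, Ideal.mul_le_right.trans h2⟩)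
    exact add_mem (Ideal.mul_mem_left _ _ h1) (h2 h1e)
  · refine hF.norm _ ?_
    by_contra hcon
    obtain ⟨P, hP, h1, h2⟩ := not_cop.1 hcon
    rcases (Ideal.IsPrime.mul_le hP).1 h2 with h3 | h3
    · apply hP.ne_top
      rw [Ideal.eq_top_iff_one]
      have h4 : e * α + (1 - e) - e * α + e ∈ P :=
        add_mem (sub_mem h1 (Ideal.mul_mem_right _ _ (h3 he))) (h3 he)
      have e1 : e * α + (1 - e) - e * α + e = 1 := by ring
      rwa [e1] at h4
    · apply not_cop.2 ⟨P, hP, ?_, h3⟩ hα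
      have h4 : e * α ∈ P := by
        have := sub_mem h1 (h3 h1e)
        simpa using this
      rcases hP.mem_or_mem h4 with h5 | h5
      · exfalso
        apply hP.ne_top
        rw [Ideal.eq_top_iff_one]
        have := add_mem h5 (h3 h1e)
        simpa using this
      · exact h5
  · unfold FA
    rw [← hF.mul]
    refine hF.per _ _ ?_
    have e1 : e * (α * β) + (1 - e) - (e * α + (1 - e)) * (e * β + (1 - e)) =
      e * (1 - e) * (α * β + 1 - α - β) := by ring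
    rw [e1]
    exact FA_mul_mem he he1 _
  · unfold FA
    refine hF.per _ _ ?_
    have e1 : e * α + (1 - e) - (e * β + (1 - e)) = e * (α - β) := by ring
    rw [e1]
    exact Ideal.mul_mem_mul he hαβ
  · have h1 : f * m1 < f * n := by
      refine lt_of_le_of_ne (Ideal.mul_mono_right hn.le) fun h2 => ?_
      have hf0 : f ≠ 0 := hf
      exact hn.ne (mul_left_cancel₀ hf0 h2)
    obtain ⟨α, h2, h3, h4⟩ := hF.prim _ h1
    refine ⟨α, Ideal.mul_le_right h2, IsCoprime.of_mul_right_right h3, ?_⟩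
    have h5 : FA F e α = F α := by
      unfold FA
      refine hF.per _ _ ?_
      have e1 : e * α + (1 - e) - α = -((α - 1) * (1 - e)) := by ring
      rw [e1]
      exact neg_mem (Ideal.mul_mem_mul (Ideal.mul_le_left h2) h1e)
    rw [h5]
    exact h4

lemma FA_per (hF : PM (f * m1) F) (he : e ∈ f) (he1 : e - 1 ∈ m1) : PerO f (FA F (1 - e)) := by
  have h1e : (1 - e) ∈ m1 := by
    have := neg_mem he1
    have e1 : -(e - 1) = 1 - e := by ring
    rwa [e1] at this
  intro x y hxy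
  unfold FA
  refine hF.per _ _ ?_
  have e1 : (1 - e) * x + (1 - (1 - e)) - ((1 - e) * y + (1 - (1 - e))) = (x - y) * (1 - e) := by
    ring
  rw [e1]
  exact Ideal.mul_mem_mul hxy h1e

end

/-- primitive Hecke characters -/
structure HeckeM (m : Ideal (𝓞 K)) (θ : Par (InfinitePlace K)) (χ : Ideal (𝓞 K) →* ℂ) : Prop where
  zero : ∀ I, ¬ IsCoprime I m → χ I = 0
  norm : ∀ I, IsCoprime I m → ‖χ I‖ = 1
  inf : ∀ α : 𝓞 K, α - 1 ∈ m → χ (Ideal.span {α}) = infK θ (α : K)
  prim : ∀ n : Ideal (𝓞 K), m < n → ∃ α : 𝓞 K, α - 1 ∈ n ∧ IsCoprime (Ideal.span {α}) m ∧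
    χ (Ideal.span {α}) ≠ infK θ (α : K)

open scoped Classical in
/-- the finite part of a Hecke character -/
noncomputable def FF (m : Ideal (𝓞 K)) (θ : Par (InfinitePlace K)) (χ : Ideal (𝓞 K) →* ℂ)
    (α : 𝓞 K) : ℂ := if IsCoprime (Ideal.span {α}) m then gG θ χ α else 0

variable {m : Ideal (𝓞 K)} {θ : Par (InfinitePlace K)} {χ : Ideal (𝓞 K) →* ℂ}

lemma FF_of {α : 𝓞 K} (h : IsCoprime (Ideal.span {α}) m) : FF m θ χ α = gG θ χ α := by
  unfold FF
  rw [if_pos h]

lemma FF_not {α : 𝓞 K} (h : ¬ IsCoprime (Ideal.span {α}) m) : FF m θ χ α = 0 := by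
  unfold FF
  rw [if_neg h]

lemma FF_rel (hm : m ≠ ⊤) (h : HeckeM m θ χ) (α : 𝓞 K) :
    χ (Ideal.span {α}) = FF m θ χ α * infK θ (α : K) := by
  by_cases h1 : IsCoprime (Ideal.span {α}) m
  · rw [FF_of h1]
    unfold gG
    have h9 : (α : K) ≠ 0 := by exact_mod_cast cop_ne hm h1
    rw [mul_assoc, inv_mul_cancel₀ (infK_ne θ h9), mul_one]
  · rw [FF_not h1, zero_mul, h.zero _ h1]

lemma FF_PM (hm : m ≠ ⊤) (h : HeckeM m θ χ) : PM m (FF m θ χ) := by
  have hcc : ∀ α β : 𝓞 K, α - β ∈ m → IsCoprime (Ideal.span {α}) m → IsCoprime (Ideal.span {β}) m := by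
    intro α β h1 h2
    have h3 : β = α + (-(α - β)) := by ring
    rw [h3]
    exact (cop_add (neg_mem h1)).2 h2
  refine ⟨fun α hα => FF_not hα, fun α hα => ?_, fun α β => ?_, fun α β hαβ => ?_, fun n hn => ?_⟩
  · rw [FF_of hα]
    exact gG_norm hm h.norm hα
  · have h1 : IsCoprime (Ideal.span {α * β}) m ↔
        IsCoprime (Ideal.span {α}) m ∧ IsCoprime (Ideal.span {β}) m := by
      rw [← Ideal.span_singleton_mul_span_singleton, IsCoprime.mul_left_iff]
    by_cases hα : IsCoprime (Ideal.span {α}) m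
    · by_cases hβ : IsCoprime (Ideal.span {β}) m
      · rw [FF_of hα, FF_of hβ, FF_of (h1.2 ⟨hα, hβ⟩), gG_mul (cop_ne hm hα) (cop_ne hm hβ)]
      · rw [FF_not hβ, FF_not (fun h2 => hβ (h1.1 h2).2), mul_zero]
    · rw [FF_not hα, FF_not (fun h2 => hα (h1.1 h2).1), zero_mul]
  · by_cases hα : IsCoprime (Ideal.span {α}) m
    · rw [FF_of hα, FF_of (hcc α β hαβ hα)]
      exact gG_congr hm h.inf hα hαβ
    · have hβ : ¬ IsCoprime (Ideal.span {β}) m := fun h2 => hα (hcc β α (by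
        have := neg_mem hαβ
        simpa using this) h2)
      rw [FF_not hα, FF_not hβ]
  · obtain ⟨α, h1, h2, h3⟩ := h.prim n hn
    refine ⟨α, h1, h2, fun h4 => h3 ?_⟩
    rw [FF_rel hm h, h4, one_mul]

end Pool.Agent.T2H29.SW
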