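import Pool.Agent.T2H29.SW.B12

/-!
# The bound of Weyl quality for factorable moduli
-/

set_option autoImplicit false
set_option linter.unusedSectionVars false

namespace Pool.Agent.T2H29.SW

open Finset NumberField NumberField.InfinitePlace Module
open scoped nonZeroDivisors

/-- the bounds for large `M` -/
def TailP (K : Type) [Field K] [NumberField K] (N : ℕ) (C : ℝ) : Prop := ∀ (I m : Ideal (𝓞 K))
    (b : Basis (Fin (dg K)) ℤ I) (F : 𝓞 K → ℂ) (x : LS K), I ≠ ⊥ → m ≠ ⊥ → m ≠ ⊤ → IsCoprime I m →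
    PM m F → (Ideal.absNorm m : ℝ) ≤ mm I x.2 → ∀ ξ : EuclideanSpace ℝ (Fin (dg K)),
    ‖GS (AX b x) 0 (fun z => ee ((AX b x).transpose.mulVec ξ.ofLp) z * F (el b z))‖ ≤
      C * (1 + ‖ξ‖) ^ (2 * (dg K * N)) * (mm I x.2 / √(Ideal.absNorm m) *
        (Ideal.absNorm m / mm I x.2) ^ (2 * N))

/-- the core bounds -/
def CoreP (K : Type) [Field K] [NumberField K] (C : ℝ) : Prop :=
    ∀ (f a s s' I : Ideal (𝓞 K)) (F1 F2 : 𝓞 K → ℂ) (b : Basis (Fin (dg K)) ℤ I) (x : LS K)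
    (c η : Fin (dg K) → ℝ), LC a s s' → f ≠ ⊥ → IsCoprime f (a * s * s') → I ≠ ⊥ →
    IsCoprime I (Ideal.span {(2 : 𝓞 K)} * (f * (a * s * s'))) → PM (a * s * s') F1 → PerO f F2 →
    (∀ x, ‖F2 x‖ ≤ 1) → mm I x.2 ≤ Ideal.absNorm (s * s') →
    ‖GS (AX b x) c (fun z => ee η z * (F2 (el b z) * F1 (el b z)))‖ ^ 2 ≤
      C * (tau s' : ℝ) ^ 2 * (Ideal.absNorm f * Ideal.absNorm a + Ideal.absNorm s) *
        (1 + mm I x.2)

variable {K : Type} [Field K] [NumberField K]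

/-- the data of a class -/
theorem dataH {B : ℝ} (hB1 : 1 ≤ B) (hB : CBI K B) {Ct : ℕ → ℝ} (hCt0 : ∀ N, 0 < Ct N)
    (hCt : ∀ N, TailP K N (Ct N)) {C1 : ℝ} (hC10 : 0 < C1) (hC1 : CoreP K C1)
    {c s s' : Ideal (𝓞 K)} (hne : c * s * s' ≠ ⊥) (htop : c * s * s' ≠ ⊤) (hle : s ≤ s')
    (hp : ∀ P : Ideal (𝓞 K), P.IsPrime → s' ≤ P → c ≤ P) {θ : Par (InfinitePlace K)}
    {χ : Ideal (𝓞 K) →* ℂ} (h : HeckeM (c * s * s') θ χ) (C : ClassGroup (𝓞 K)) :
    ∃ (I : Ideal (𝓞 K)) (hI : I ≠ ⊥), IsCoprime I (c * s * s') ∧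
      ClassGroup.mk0 ⟨I, nzd hI⟩ = C⁻¹ ∧ ∃ (b : Basis (Fin (dg K)) ℤ I)
      (G : (Fin (dg K) → ℤ) → ℂ), SetH B Ct (Ideal.absNorm (c * s * s'))
        ((C1 + 2 * B ^ 2) * ((tau s' : ℝ) ^ 2 * (Ideal.absNorm c + Ideal.absNorm s))) I b G ∧
      ∀ z, χ (Ideal.span {el b z}) = 1 * G z * infK θ (el b z : K) := by
  have hc0 : c ≠ ⊥ := (ne_bot_mul (ne_bot_mul hne).1).1
  have hs0 : s ≠ ⊥ := (ne_bot_mul (ne_bot_mul hne).1).2
  have hs'0 : s' ≠ ⊥ := (ne_bot_mul hne).2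
  obtain ⟨f, a, hfa, hfs, has⟩ := split_cop s _ c hc0 le_rfl
  have hf0 : f ≠ ⊥ := (ne_bot_mul (hfa ▸ hc0)).1
  have ha0 : a ≠ ⊥ := (ne_bot_mul (hfa ▸ hc0)).2
  have hm : c * s * s' = f * (a * s * s') := by rw [hfa]; ring
  have L : LC a s s' := by
    refine ⟨?_, hle, fun P hP h1 => ?_, has⟩
    · rw [hm] at hne
      exact (ne_bot_mul hne).2
    · have h2 := hp P hP h1
      rw [hfa] at h2
      rcases (Ideal.IsPrime.mul_le hP).1 h2 with h3 | h3
      · exact absurd (hle.trans h1) fun h4 => cop_prime.1 hfs P hP h3 h4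
      · exact h3
  have hfc : IsCoprime f (a * s * s') := by
    rw [cop_prime]
    intro P hP h1 h2
    refine cop_prime.1 hfs P hP h1 ?_
    rcases (Ideal.IsPrime.mul_le hP).1 h2 with h3 | h3
    · rcases (Ideal.IsPrime.mul_le hP).1 h3 with h4 | h4
      · exact has P hP h4
      · exact h4
    · exact hle.trans h3
  obtain ⟨e, he, he1⟩ := exists_e0 hfc
  set F := FF (c * s * s') θ χ with hF
  have hFm : PM (c * s * s') F := FF_PM htop h
  have hFm' : PM (f * (a * s * s')) F := hm ▸ hFm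
  have hF1 := FA_PM hf0 hFm' he he1
  have hF2 := FA_per hFm' he he1
  have hFF : ∀ α, F α = FA F (1 - e) α * FA F e α := FA_prod hFm' he he1
  -- the representative
  have h20 : Ideal.span {(2 : 𝓞 K)} ≠ ⊥ := by
    rw [Ne, Ideal.span_singleton_eq_bot]
    exact two_ne_zero
  have h2m : Ideal.span {(2 : 𝓞 K)} * (c * s * s') ≠ ⊥ := by
    intro h0
    rcases Ideal.mul_eq_bot.1 h0 with h1 | h1
    · exact h20 h1
    · exact hne h1
  have h2t : Ideal.span {(2 : 𝓞 K)} * (c * s * s') ≠ ⊤ := by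
    intro h0
    apply htop
    rw [eq_top_iff, ← h0]
    exact Ideal.mul_le_right
  obtain ⟨I, hI, hco, hCl⟩ := exists_rep2 h2m h2t C⁻¹
  have hcoI : IsCoprime I (c * s * s') := IsCoprime.of_mul_right_right hco
  obtain ⟨b⟩ := exists_bas I hI
  have hNc := absNorm_pos' hc0
  have hNs := absNorm_pos' hs0
  have hτ1 : (1 : ℝ) ≤ tau s' := by exact_mod_cast tau_pos hs'0
  have hNc1 : (1 : ℝ) ≤ Ideal.absNorm c := by exact_mod_cast nrm_pos hc0
  have hQ1 : (1 : ℝ) ≤ Ideal.absNorm (c * s * s') := by exact_mod_cast nrm_pos hne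
  refine ⟨I, hI, hcoI, hCl, b, fun z => F (el b z), ⟨hI, hB I hI b, fun z => hFm.le_one _, ?_, hQ1,
    by positivity, fun N => (hCt0 N).le, fun x η => ?_, fun N x hx ξ => ?_⟩, fun z => ?_⟩
  · beta_reduce
    rw [el_zero]
    refine hFm.zero _ fun h1 => ?_
    rw [Ideal.isCoprime_iff_sup_eq] at h1
    apply htop
    simpa using h1
  · -- the bound
    have hMM := mm_pos hI x.2
    set M := mm I x.2 with hM
    set T2 : ℝ := (tau s' : ℝ) ^ 2 with hT2
    have hT21 : 1 ≤ T2 := one_le_pow₀ hτ1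
    have hQ0 : (0 : ℝ) < Ideal.absNorm (c * s * s') := by linarith
    rcases le_total M (Ideal.absNorm (s * s')) with h1 | h1
    · have h2 := hC1 f a s s' I (FA F e) (FA F (1 - e)) b x 0 η L hf0 hfc hI (by
        rw [← hm]; exact hco) hF1 hF2 (fun x => by unfold FA; exact hFm.le_one _) h1
      have e1 : (fun z => ee η z * F (el b z)) =
          fun z => ee η z * (FA F (1 - e) (el b z) * FA F e (el b z)) := by
        funext z
        rw [hFF]
      have e2 : (Ideal.absNorm f : ℝ) * Ideal.absNorm a = Ideal.absNorm c := by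
        rw [hfa, map_mul]
        push_cast
        rfl
      rw [← e1, e2] at h2
      refine h2.trans ?_
      have h3 : 0 ≤ M ^ 2 / (Ideal.absNorm (c * s * s') : ℝ) := by positivity
      calc C1 * T2 * (Ideal.absNorm c + Ideal.absNorm s) * (1 + M) =
            C1 * (T2 * (Ideal.absNorm c + Ideal.absNorm s)) * (1 + M) := by ring
        _ ≤ (C1 + 2 * B ^ 2) * (T2 * (Ideal.absNorm c + Ideal.absNorm s)) *
            (1 + M + M ^ 2 / (Ideal.absNorm (c * s * s') : ℝ)) := by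
            refine mul_le_mul ?_ (by linarith) (by positivity) (by positivity)
            refine mul_le_mul_of_nonneg_right ?_ (by positivity)
            have : 0 ≤ 2 * B ^ 2 := by positivity
            linarith
    · have h2 := pvI hB hI hne hcoI b hFm x 0 η
      set Q : ℝ := (Ideal.absNorm (c * s * s') : ℝ) with hQ
      have hQM : Q ≤ Ideal.absNorm c * M := by
        have : Q = Ideal.absNorm c * Ideal.absNorm (s * s') := by
          rw [hQ, mul_assoc, map_mul]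
          push_cast
          rfl
        rw [this]
        exact mul_le_mul_of_nonneg_left h1 hNc.le
      have h3 : ‖GS (AX b x) 0 (fun z => ee η z * F (el b z))‖ ^ 2 ≤
          Q * (B ^ 2 * (1 + M / Q) ^ 2) := by
        refine (pow_le_pow_left₀ (norm_nonneg _) h2 2).trans (le_of_eq ?_)
        rw [mul_pow, Real.sq_sqrt hQ0.le, mul_pow]
      refine h3.trans ?_
      have h4 : Q * (B ^ 2 * (1 + M / Q) ^ 2) ≤ 2 * B ^ 2 * (Q + M ^ 2 / Q) := by
        have e1 : Q * (B ^ 2 * (1 + M / Q) ^ 2) = B ^ 2 * (Q + 2 * M + M ^ 2 / Q) := by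
          field_simp
          ring
        have e2 : 2 * M ≤ Q + M ^ 2 / Q := by
          have h5 : 0 ≤ (Q - M) ^ 2 / Q := by positivity
          have e3 : (Q - M) ^ 2 / Q = Q + M ^ 2 / Q - 2 * M := by field_simp; ring
          linarith
        rw [e1]
        have : 0 ≤ B ^ 2 := by positivity
        nlinarith
      refine h4.trans ?_
      have h5 : Q + M ^ 2 / Q ≤ (T2 * (Ideal.absNorm c + Ideal.absNorm s)) * (1 + M + M ^ 2 / Q) := by
        have h6 : 0 ≤ M ^ 2 / Q := by positivity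
        have h7 : Q + M ^ 2 / Q ≤ Ideal.absNorm c * (1 + M + M ^ 2 / Q) := by nlinarith
        refine h7.trans ?_
        refine mul_le_mul_of_nonneg_right ?_ (by positivity)
        nlinarith
      calc 2 * B ^ 2 * (Q + M ^ 2 / Q) ≤ (C1 + 2 * B ^ 2) *
            ((T2 * (Ideal.absNorm c + Ideal.absNorm s)) * (1 + M + M ^ 2 / Q)) :=
            mul_le_mul (by linarith) h5 (by positivity) (by positivity)
        _ = _ := by ring
  · exact hCt N I (c * s * s') b F x hI hne htop hcoI hFm hx ξ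
  · rw [FF_rel htop h, one_mul]

/-- the theorem, with the divisor function -/
theorem B_abs (K : Type) [Field K] [NumberField K] : ∃ C : ℝ, 0 < C ∧
    ∀ (c s s' : Ideal (𝓞 K)) (θ : Par (InfinitePlace K)) (χ : Ideal (𝓞 K) →* ℂ),
    c * s * s' ≠ ⊥ → c * s * s' ≠ ⊤ → s ≤ s' →
    (∀ P : Ideal (𝓞 K), P.IsPrime → s' ≤ P → c ≤ P) → HeckeM (c * s * s') θ χ →
    ∃ L : ℂ → ℂ, Differentiable ℂ L ∧
    (∀ s : ℂ, 1 < s.re →
      HasSum (fun I : Ideal (𝓞 K) => χ I * (Ideal.absNorm I : ℂ) ^ (-s)) (L s)) ∧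
    ∀ t : ℝ, ‖L (1 / 2 + t * Complex.I)‖ ≤ C * (Tp θ * (1 + |t|)) ^ (3 * dg K + 1) *
        (tau s' * √(Ideal.absNorm c + Ideal.absNorm s) *
          (Real.log (Ideal.absNorm (c * s * s')) + 1) + 1) := by
  obtain ⟨B, hB1, hB⟩ := exists_CBI K
  choose Ct hCt0 hCt using fun N => tailI (K := K) (B := B) hB N
  obtain ⟨C1, hC10, hC1⟩ := coreI (K := K) hB1 hB
  obtain ⟨C0, hC00, hC0⟩ := main_absH K B Ct (fun N => (hCt0 N).le)
  set D : ℝ := √(C1 + 2 * B ^ 2) + 1 with hD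
  have hD1 : 1 ≤ D := by
    have := Real.sqrt_nonneg (C1 + 2 * B ^ 2)
    linarith
  refine ⟨C0 * D, by positivity, fun c s s' θ χ hne htop hle hp h => ?_⟩
  obtain ⟨L, hL1, hL2, hL3⟩ := hC0 (c * s * s') θ χ _ _ htop h.zero h.norm
    (dataH hB1 hB hCt0 hCt hC10 hC1 hne htop hle hp h)
  refine ⟨L, hL1, hL2, fun t => (hL3 t).trans ?_⟩
  have hQ1 : (1 : ℝ) ≤ Ideal.absNorm (c * s * s') := by exact_mod_cast nrm_pos hne
  have hlQ : 0 ≤ Real.log (Ideal.absNorm (c * s * s')) := Real.log_nonneg hQ1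
  have hT1 := Tp_one θ
  have e1 : √((C1 + 2 * B ^ 2) * ((tau s' : ℝ) ^ 2 * (Ideal.absNorm c + Ideal.absNorm s))) =
      √(C1 + 2 * B ^ 2) * (tau s' * √(Ideal.absNorm c + Ideal.absNorm s)) := by
    rw [Real.sqrt_mul (by positivity), Real.sqrt_mul (by positivity), Real.sqrt_sq (by positivity)]
  rw [e1]
  set Y : ℝ := tau s' * √(Ideal.absNorm c + Ideal.absNorm s) *
          (Real.log (Ideal.absNorm (c * s * s')) + 1) with hY
  have hY0 : 0 ≤ Y := by positivity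
  have h1 : √(C1 + 2 * B ^ 2) * (tau s' * √(Ideal.absNorm c + Ideal.absNorm s)) *
      (Real.log (Ideal.absNorm (c * s * s')) + 1) + 1 ≤ D * (Y + 1) := by
    have e2 : √(C1 + 2 * B ^ 2) * (tau s' * √(Ideal.absNorm c + Ideal.absNorm s)) *
      (Real.log (Ideal.absNorm (c * s * s')) + 1) = √(C1 + 2 * B ^ 2) * Y := by rw [hY]; ring
    rw [e2]
    have h2 : √(C1 + 2 * B ^ 2) * Y ≤ D * Y := mul_le_mul_of_nonneg_right (by linarith) hY0
    linarith
  calc C0 * (Tp θ * (1 + |t|)) ^ (3 * dg K + 1) * _ ≤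
      C0 * (Tp θ * (1 + |t|)) ^ (3 * dg K + 1) * (D * (Y + 1)) :=
        mul_le_mul_of_nonneg_left h1 (by positivity)
    _ = _ := by ring

/-- the theorem -/
theorem B_thm (K : Type) [Field K] [NumberField K] (ε : ℝ) (hε : 0 < ε) : ∃ C : ℝ, 0 < C ∧
    ∀ (c s s' : Ideal (𝓞 K)) (θ : Par (InfinitePlace K)) (χ : Ideal (𝓞 K) →* ℂ),
    c * s * s' ≠ ⊥ → c * s * s' ≠ ⊤ → s ≤ s' →
    (∀ P : Ideal (𝓞 K), P.IsPrime → s' ≤ P → c ≤ P) → HeckeM (c * s * s') θ χ →
    ∃ L : ℂ → ℂ, Differentiable ℂ L ∧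
    (∀ s : ℂ, 1 < s.re →
      HasSum (fun I : Ideal (𝓞 K) => χ I * (Ideal.absNorm I : ℂ) ^ (-s)) (L s)) ∧
    ∀ t : ℝ, ‖L (1 / 2 + t * Complex.I)‖ ≤ C * (Tp θ * (1 + |t|)) ^ (3 * dg K + 1) *
        (Ideal.absNorm (c * s * s') : ℝ) ^ ε * √(Ideal.absNorm c + Ideal.absNorm s) := by
  obtain ⟨C, hC0, hC⟩ := B_abs K
  obtain ⟨C2, hC21, hC2⟩ := tau_bound K (half_pos hε)
  set C3 : ℝ := 1 / (ε / 2) + 1 with hC3
  have hC31 : 1 ≤ C3 := by
    have : 0 ≤ 1 / (ε / 2) := by positivity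
    linarith
  refine ⟨C * (2 * (C2 * C3)), by positivity, fun c s s' θ χ hne htop hle hp h => ?_⟩
  obtain ⟨L, hL1, hL2, hL3⟩ := hC c s s' θ χ hne htop hle hp h
  refine ⟨L, hL1, hL2, fun t => (hL3 t).trans ?_⟩
  have hc0 : c ≠ ⊥ := (ne_bot_mul (ne_bot_mul hne).1).1
  have hs'0 : s' ≠ ⊥ := (ne_bot_mul hne).2
  have hQ1 : (1 : ℝ) ≤ Ideal.absNorm (c * s * s') := by exact_mod_cast nrm_pos hne
  have hNc1 : (1 : ℝ) ≤ Ideal.absNorm c := by exact_mod_cast nrm_pos hc0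
  have hT1 := Tp_one θ
  set Q : ℝ := (Ideal.absNorm (c * s * s') : ℝ) with hQ
  have hQ0 : 0 < Q := by linarith
  have hlQ : 0 ≤ Real.log Q := Real.log_nonneg hQ1
  set R : ℝ := √(Ideal.absNorm c + Ideal.absNorm s) with hR
  have hR1 : 1 ≤ R := by
    rw [hR, Real.one_le_sqrt]
    have : (0 : ℝ) ≤ Ideal.absNorm s := by positivity
    linarith
  have h1 : (tau s' : ℝ) ≤ C2 * Q ^ (ε / 2) := by
    refine (hC2 s' hs'0).trans ?_
    refine mul_le_mul_of_nonneg_left ?_ (by linarith)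
    refine Real.rpow_le_rpow (by positivity) ?_ (by positivity)
    rw [hQ]
    have h2 : Ideal.absNorm s' ∣ Ideal.absNorm (c * s * s') := by
      rw [map_mul]
      exact dvd_mul_left _ _
    exact_mod_cast Nat.le_of_dvd (nrm_pos hne) h2
  have h2 : Real.log Q + 1 ≤ C3 * Q ^ (ε / 2) := by
    have h3 := y_le_exp hlQ (half_pos hε)
    have e1 : Real.exp (ε / 2 * Real.log Q) = Q ^ (ε / 2) := by
      rw [Real.rpow_def_of_pos hQ0, mul_comm]
    rw [e1] at h3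
    exact h3
  have h3 : Q ^ (ε / 2) * Q ^ (ε / 2) = Q ^ ε := by
    rw [← Real.rpow_add hQ0]
    congr 1
    ring
  have hQε : 1 ≤ Q ^ ε := Real.one_le_rpow hQ1 hε.le
  have h4 : tau s' * R * (Real.log Q + 1) ≤ C2 * C3 * (Q ^ ε * R) := by
    calc tau s' * R * (Real.log Q + 1) ≤ (C2 * Q ^ (ε / 2)) * R * (C3 * Q ^ (ε / 2)) := by
          refine mul_le_mul ?_ h2 (by positivity) (by positivity)
          exact mul_le_mul_of_nonneg_right h1 (by positivity)
      _ = C2 * C3 * ((Q ^ (ε / 2) * Q ^ (ε / 2)) * R) := by ring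
      _ = _ := by rw [h3]
  have h5 : (1 : ℝ) ≤ C2 * C3 * (Q ^ ε * R) :=
    one_le_mul_of_one_le_of_one_le (one_le_mul_of_one_le_of_one_le hC21 hC31)
      (one_le_mul_of_one_le_of_one_le hQε hR1)
  calc C * (Tp θ * (1 + |t|)) ^ (3 * dg K + 1) * (tau s' * R * (Real.log Q + 1) + 1) ≤
      C * (Tp θ * (1 + |t|)) ^ (3 * dg K + 1) * (2 * (C2 * C3 * (Q ^ ε * R))) := by
        refine mul_le_mul_of_nonneg_left ?_ (by positivity)
        linarith
    _ = _ := by ring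

end Pool.Agent.T2H29.SW
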