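import Pool.Agent.T2H29.SW.B1

/-!
# Complete sums over the ring of integers: basics
-/

set_option autoImplicit false
set_option linter.unusedSectionVars false

namespace Pool.Agent.T2H29.SW

open Finset NumberField NumberField.InfinitePlace Module

variable {K : Type} [Field K] [NumberField K]

/-- primitive characters modulo `m` -/
structure PM (m : Ideal (𝓞 K)) (F : 𝓞 K → ℂ) : Prop where
  zero : ∀ α, ¬ IsCoprime (Ideal.span {α}) m → F α = 0
  norm : ∀ α, IsCoprime (Ideal.span {α}) m → ‖F α‖ = 1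
  mul : ∀ α β, F (α * β) = F α * F β
  per : ∀ α β, α - β ∈ m → F α = F β
  prim : ∀ n : Ideal (𝓞 K), m < n → ∃ α, α - 1 ∈ n ∧ IsCoprime (Ideal.span {α}) m ∧ F α ≠ 1

/-- additive characters modulo `b` -/
structure AC (b : Ideal (𝓞 K)) (l : 𝓞 K → ℂ) : Prop where
  add : ∀ x y, l (x + y) = l x * l y
  norm : ∀ x, ‖l x‖ = 1
  triv : ∀ x ∈ b, l x = 1

lemma AC.ne {b : Ideal (𝓞 K)} {l : 𝓞 K → ℂ} (h : AC b l) (x : 𝓞 K) : l x ≠ 0 := by
  intro h0
  have := h.norm x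
  rw [h0, norm_zero] at this
  exact zero_ne_one this

lemma AC.per {b : Ideal (𝓞 K)} {l : 𝓞 K → ℂ} (h : AC b l) {x y : 𝓞 K} (hxy : x - y ∈ b) :
    l x = l y := by
  have : x = y + (x - y) := by ring
  rw [this, h.add, h.triv _ hxy, mul_one]

/-- periodic functions -/
def PerO (b : Ideal (𝓞 K)) (g : 𝓞 K → ℂ) : Prop := ∀ x y, x - y ∈ b → g x = g y

/-- the sum over a complete system of residues -/
noncomputable def sQ (b : Ideal (𝓞 K)) [Fintype (𝓞 K ⧸ b)] (g : 𝓞 K → ℂ) : ℂ :=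
  ∑ c : 𝓞 K ⧸ b, g (Quotient.out c)

lemma out_sub (b : Ideal (𝓞 K)) (x : 𝓞 K) :
    Quotient.out (Ideal.Quotient.mk b x) - x ∈ b := by
  rw [← Ideal.Quotient.mk_eq_mk_iff_sub_mem]
  exact Quotient.out_eq (Ideal.Quotient.mk b x)

lemma mk_out (b : Ideal (𝓞 K)) (c : 𝓞 K ⧸ b) : Ideal.Quotient.mk b (Quotient.out c) = c :=
  Quotient.out_eq c

lemma sQ_comp {b : Ideal (𝓞 K)} [Fintype (𝓞 K ⧸ b)] {g : 𝓞 K → ℂ} (hg : PerO b g)
    (e : (𝓞 K ⧸ b) ≃ (𝓞 K ⧸ b)) {φ : 𝓞 K → 𝓞 K}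
    (hφ : ∀ c, Ideal.Quotient.mk b (φ (Quotient.out c)) = e c) :
    sQ b (fun x => g (φ x)) = sQ b g := by
  unfold sQ
  rw [← e.sum_comp (fun c => g (Quotient.out c))]
  refine sum_congr rfl fun c _ => hg _ _ ?_
  rw [← Ideal.Quotient.mk_eq_mk_iff_sub_mem, mk_out, hφ]

lemma sQ_shift {b : Ideal (𝓞 K)} [Fintype (𝓞 K ⧸ b)] {g : 𝓞 K → ℂ} (hg : PerO b g) (z : 𝓞 K) :
    sQ b (fun x => g (x + z)) = sQ b g :=
  sQ_comp hg (Equiv.addRight (Ideal.Quotient.mk b z)) (fun c => by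
    rw [map_add, mk_out]; rfl)

lemma sQ_mul {b : Ideal (𝓞 K)} [Fintype (𝓞 K ⧸ b)] {g : 𝓞 K → ℂ} (hg : PerO b g) {α γ : 𝓞 K}
    (hαγ : α * γ - 1 ∈ b) : sQ b (fun x => g (α * x)) = sQ b g := by
  have h1 : Ideal.Quotient.mk b α * Ideal.Quotient.mk b γ = 1 := by
    rw [← map_mul, ← map_one (Ideal.Quotient.mk b)]
    exact (Ideal.Quotient.mk_eq_mk_iff_sub_mem _ _).2 hαγ
  refine sQ_comp hg ⟨fun c => Ideal.Quotient.mk b α * c, fun c => Ideal.Quotient.mk b γ * c, ?_, ?_⟩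
    (fun c => by rw [map_mul, mk_out]; rfl)
  · intro c
    show Ideal.Quotient.mk b γ * (Ideal.Quotient.mk b α * c) = c
    rw [← mul_assoc, mul_comm (Ideal.Quotient.mk b γ), h1, one_mul]
  · intro c
    show Ideal.Quotient.mk b α * (Ideal.Quotient.mk b γ * c) = c
    rw [← mul_assoc, h1, one_mul]

open scoped Classical in
/-- the number of classes modulo `b` in a class modulo `l` -/
lemma cnt_le {b l : Ideal (𝓞 K)} [Fintype (𝓞 K ⧸ b)] (hb : b ≠ ⊥) (hl : l ≠ ⊥) (hbl : b ≤ l)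
    (y0 : 𝓞 K) : ((univ.filter fun c : 𝓞 K ⧸ b => Quotient.out c - y0 ∈ l).card : ℕ) *
      Ideal.absNorm l ≤ Ideal.absNorm b := by
  haveI : Finite (𝓞 K ⧸ l) := Ideal.finiteQuotientOfFreeOfNeBot l hl
  haveI : Fintype (𝓞 K ⧸ l) := Fintype.ofFinite _
  have e1 : Ideal.absNorm l = Fintype.card (𝓞 K ⧸ l) := by
    rw [Ideal.absNorm_apply, Submodule.cardQuot_apply, Nat.card_eq_fintype_card]
  have e2 : Ideal.absNorm b = Fintype.card (𝓞 K ⧸ b) := by
    rw [Ideal.absNorm_apply, Submodule.cardQuot_apply, Nat.card_eq_fintype_card]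
  rw [e1, e2, ← card_univ (α := 𝓞 K ⧸ l), ← card_product, ← card_univ (α := 𝓞 K ⧸ b)]
  refine card_le_card_of_injOn (fun cd => cd.1 + Ideal.Quotient.mk b (Quotient.out cd.2))
    (fun _ _ => by simp) ?_
  rintro ⟨c, d⟩ hc ⟨c', d'⟩ hc' heq
  simp only [coe_product, coe_filter, mem_univ, true_and, coe_univ, Set.mem_prod,
    Set.mem_setOf_eq, Set.mem_univ, and_true] at hc hc'
  simp only at heq
  have h1 : (Quotient.out c + Quotient.out d) - (Quotient.out c' + Quotient.out d') ∈ b := by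
    rw [← Ideal.Quotient.mk_eq_mk_iff_sub_mem, map_add, map_add, mk_out, mk_out]
    exact heq
  have h2 : Quotient.out d - Quotient.out d' ∈ l := by
    have h3 := sub_mem (hbl h1) (sub_mem hc hc')
    have e : Quotient.out c + Quotient.out d - (Quotient.out c' + Quotient.out d') -
      (Quotient.out c - y0 - (Quotient.out c' - y0)) = Quotient.out d - Quotient.out d' := by ring
    rwa [e] at h3
  have h4 : d = d' := by
    rw [← mk_out l d, ← mk_out l d']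
    exact (Ideal.Quotient.mk_eq_mk_iff_sub_mem _ _).2 h2
  subst h4
  have h5 : c = c' := add_right_cancel heq
  rw [h5]

/-- the finset of divisors -/
noncomputable def dvs (s : Ideal (𝓞 K)) : Finset (Ideal (𝓞 K)) := by
  classical
  exact (Ideal.finite_setOfPred_absNorm_le (S := 𝓞 K) (Ideal.absNorm s)).toFinset.filter (· ∣ s)

lemma mem_dvs {s d : Ideal (𝓞 K)} (hs : s ≠ ⊥) : d ∈ dvs s ↔ d ∣ s := by
  classical
  unfold dvs
  rw [mem_filter, Set.Finite.mem_toFinset]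
  constructor
  · exact fun h => h.2
  · intro h
    refine ⟨?_, h⟩
    have h1 : Ideal.absNorm d ∣ Ideal.absNorm s := Ideal.absNorm_dvd_absNorm_of_le (Ideal.le_of_dvd h)
    have h2 : Ideal.absNorm s ≠ 0 := fun h0 => hs (Ideal.absNorm_eq_zero_iff.1 h0)
    exact Nat.le_of_dvd (Nat.pos_of_ne_zero h2) h1

/-- the number of divisors -/
noncomputable def tau (s : Ideal (𝓞 K)) : ℕ := (dvs s).card

lemma tau_mono {s t : Ideal (𝓞 K)} (ht : t ≠ ⊥) (h : s ∣ t) : tau s ≤ tau t := by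
  have hs : s ≠ ⊥ := by
    rintro rfl
    apply ht
    have := Ideal.le_of_dvd h
    exact le_bot_iff.1 this
  unfold tau
  refine card_le_card fun d hd => ?_
  rw [mem_dvs hs] at hd
  rw [mem_dvs ht]
  exact hd.trans h

lemma tau_pos {s : Ideal (𝓞 K)} (hs : s ≠ ⊥) : 1 ≤ tau s := by
  unfold tau
  exact card_pos.2 ⟨s, (mem_dvs hs).2 dvd_rfl⟩

lemma ne_bot_mul {a b : Ideal (𝓞 K)} (h : a * b ≠ ⊥) : a ≠ ⊥ ∧ b ≠ ⊥ := by
  constructor
  · rintro rfl
    exact h (Ideal.bot_mul b)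
  · rintro rfl
    exact h (Ideal.mul_bot a)

end Pool.Agent.T2H29.SW
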