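import Pool.Agent.T2H29.SW.B2

/-!
# Complete sums: stationary phase and Gauss sums
-/

set_option autoImplicit false
set_option linter.unusedSectionVars false

namespace Pool.Agent.T2H29.SW

open Finset NumberField NumberField.InfinitePlace Module

variable {K : Type} [Field K] [NumberField K]

lemma not_cop {α : 𝓞 K} {m : Ideal (𝓞 K)} : ¬ IsCoprime (Ideal.span {α}) m ↔
    ∃ P : Ideal (𝓞 K), P.IsPrime ∧ α ∈ P ∧ m ≤ P := by
  rw [Ideal.isCoprime_iff_sup_eq]
  constructor
  · intro h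
    obtain ⟨P, hP, hle⟩ := Ideal.exists_le_maximal _ h
    refine ⟨P, hP.isPrime, ?_, le_sup_right.trans hle⟩
    exact hle (Ideal.mem_sup_left (Ideal.mem_span_singleton_self α))
  · rintro ⟨P, hP, h1, h2⟩ h3
    apply hP.ne_top
    rw [eq_top_iff, ← h3]
    exact sup_le ((Ideal.span_singleton_le_iff_mem _).2 h1) h2

/-- the shape of the modulus -/
structure LC (a s s' : Ideal (𝓞 K)) : Prop where
  ne : a * s * s' ≠ ⊥
  le : s ≤ s'
  pa : ∀ P : Ideal (𝓞 K), P.IsPrime → s' ≤ P → a ≤ P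
  ps : ∀ P : Ideal (𝓞 K), P.IsPrime → a ≤ P → s ≤ P

variable {a s s' : Ideal (𝓞 K)} {F : 𝓞 K → ℂ} {h : 𝓞 K} {l : 𝓞 K → ℂ}

lemma LC.cop (L : LC a s s') {α : 𝓞 K} :
    IsCoprime (Ideal.span {α}) (a * s * s') ↔ IsCoprime (Ideal.span {α}) s := by
  constructor
  · intro h1
    exact IsCoprime.of_mul_right_right (IsCoprime.of_mul_right_left h1)
  · intro h1
    by_contra h2
    obtain ⟨P, hP, h3, h4⟩ := not_cop.1 h2
    apply not_cop.2 ⟨P, hP, h3, ?_⟩ h1
    rcases (Ideal.IsPrime.mul_le hP).1 h4 with h5 | h5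
    · rcases (Ideal.IsPrime.mul_le hP).1 h5 with h6 | h6
      · exact L.ps P hP h6
      · exact h6
    · exact L.ps P hP (L.pa P hP h5)

lemma cop_add {s : Ideal (𝓞 K)} {α z : 𝓞 K} (hz : z ∈ s) :
    IsCoprime (Ideal.span {α + z}) s ↔ IsCoprime (Ideal.span {α}) s := by
  rw [← not_iff_not, not_cop, not_cop]
  constructor
  · rintro ⟨P, hP, h1, h2⟩
    exact ⟨P, hP, by simpa using sub_mem h1 (h2 hz), h2⟩
  · rintro ⟨P, hP, h1, h2⟩
    exact ⟨P, hP, add_mem h1 (h2 hz), h2⟩

lemma LC.mem2 (L : LC a s s') (ha : h ∈ a) {z z' : 𝓞 K} (hz : z ∈ s) (hz' : z' ∈ s) (c : 𝓞 K) :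
    c * (h * (z * z')) ∈ a * s * s' := by
  rw [mul_assoc a s s']
  exact Ideal.mul_mem_left _ _ (Ideal.mul_mem_mul ha (Ideal.mul_mem_mul hz (L.le hz')))

lemma conj_rel {u v u' v' : ℂ} (hu : ‖u'‖ = 1) (hv : ‖v'‖ = 1) :
    u * v' = v * u' ↔ u * (starRingEnd ℂ) u' = v * (starRingEnd ℂ) v' := by
  have h1 : u' * (starRingEnd ℂ) u' = 1 := by
    rw [Complex.mul_conj', hu]; norm_num
  have h2 : v' * (starRingEnd ℂ) v' = 1 := by
    rw [Complex.mul_conj', hv]; norm_num
  constructor
  · intro h3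
    calc u * (starRingEnd ℂ) u' = (u * v') * ((starRingEnd ℂ) u' * (starRingEnd ℂ) v') := by
          linear_combination (-u * (starRingEnd ℂ) u') * h2
      _ = _ := by rw [h3]; linear_combination (v * (starRingEnd ℂ) v') * h1
  · intro h3
    calc u * v' = (u * (starRingEnd ℂ) u') * (u' * v') := by linear_combination (-u * v') * h1
      _ = _ := by rw [h3]; linear_combination (v * u') * h2

/-- the difference -/
noncomputable def DH (F : 𝓞 K → ℂ) (h x : 𝓞 K) : ℂ := F (x + h) * (starRingEnd ℂ) (F x)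

lemma PM.le_one {m : Ideal (𝓞 K)} (hF : PM m F) (x : 𝓞 K) : ‖F x‖ ≤ 1 := by
  by_cases hx : IsCoprime (Ideal.span {x}) m
  · rw [hF.norm _ hx]
  · rw [hF.zero _ hx, norm_zero]; exact zero_le_one

lemma PM.DH_le {m : Ideal (𝓞 K)} (hF : PM m F) (h x : 𝓞 K) : ‖DH F h x‖ ≤ 1 := by
  unfold DH
  rw [norm_mul, RCLike.norm_conj]
  exact mul_le_one₀ (hF.le_one _) (norm_nonneg _) (hF.le_one _)

lemma DH_zero (L : LC a s s') (hF : PM (a * s * s') F) {x : 𝓞 K}
    (hx : ¬ (IsCoprime (Ideal.span {x}) s ∧ IsCoprime (Ideal.span {x + h}) s)) : DH F h x = 0 := by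
  unfold DH
  by_cases h1 : IsCoprime (Ideal.span {x}) s
  · have h2 : ¬ IsCoprime (Ideal.span {x + h}) s := fun h2 => hx ⟨h1, h2⟩
    rw [hF.zero _ (fun h3 => h2 (L.cop.1 h3)), zero_mul]
  · rw [hF.zero x (fun h3 => h1 (L.cop.1 h3)), map_zero, mul_zero]

lemma cop2_add {x z : 𝓞 K} (hz : z ∈ s) :
    (IsCoprime (Ideal.span {x + z}) s ∧ IsCoprime (Ideal.span {x + z + h}) s) ↔
      (IsCoprime (Ideal.span {x}) s ∧ IsCoprime (Ideal.span {x + h}) s) := by
  have e : x + z + h = x + h + z := by ring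
  rw [e, cop_add hz, cop_add hz]

lemma DH_norm (L : LC a s s') (hF : PM (a * s * s') F) {x : 𝓞 K}
    (hx : IsCoprime (Ideal.span {x}) s ∧ IsCoprime (Ideal.span {x + h}) s) : ‖DH F h x‖ = 1 := by
  unfold DH
  rw [norm_mul, RCLike.norm_conj, hF.norm _ (L.cop.2 hx.1), hF.norm _ (L.cop.2 hx.2), mul_one]

lemma DH_per (L : LC a s s') (hF : PM (a * s * s') F) (ha : h ∈ a) : PerO (s * s') (DH F h) := by
  intro x y hxy
  have hs : s * s' ≤ s := Ideal.mul_le_left
  have hyx : y - x ∈ s := by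
    have := neg_mem (hs hxy)
    simpa using this
  have e0 : x + (y - x) = y := by ring
  by_cases hx : IsCoprime (Ideal.span {x}) s ∧ IsCoprime (Ideal.span {x + h}) s
  · have hy := (cop2_add (h := h) (x := x) hyx).2 hx
    rw [e0] at hy
    unfold DH
    rw [← conj_rel (hF.norm _ (L.cop.2 hx.1)) (hF.norm _ (L.cop.2 hy.1)), ← hF.mul, ← hF.mul]
    refine hF.per _ _ ?_
    have e1 : (x + h) * y - (y + h) * x = -(h * (x - y)) := by ring
    rw [e1, mul_assoc a s s']
    exact neg_mem (Ideal.mul_mem_mul ha hxy)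
  · have hy : ¬ (IsCoprime (Ideal.span {y}) s ∧ IsCoprime (Ideal.span {y + h}) s) := by
      intro hy
      apply hx
      have := (cop2_add (h := h) (x := x) hyx).1
      rw [e0] at this
      exact this hy
    rw [DH_zero L hF hx, DH_zero L hF hy]

lemma DH_mul (L : LC a s s') (hF : PM (a * s * s') F) (ha : h ∈ a) {x z z' : 𝓞 K}
    (hx : IsCoprime (Ideal.span {x}) s ∧ IsCoprime (Ideal.span {x + h}) s) (hz : z ∈ s)
    (hz' : z' ∈ s) : DH F h (x + z + z') * DH F h x = DH F h (x + z) * DH F h (x + z') := by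
  have c1 := (cop2_add (h := h) (x := x) hz).2 hx
  have c2 := (cop2_add (h := h) (x := x) hz').2 hx
  have c3 := (cop2_add (h := h) (x := x + z) hz').2 c1
  unfold DH
  have e1 : F (x + z + z' + h) * (starRingEnd ℂ) (F (x + z + z')) * (F (x + h) * (starRingEnd ℂ) (F x)) =
    F ((x + z + z' + h) * (x + h)) * (starRingEnd ℂ) (F ((x + z + z') * x)) := by
    rw [hF.mul, hF.mul, map_mul]; ring
  have e2 : F (x + z + h) * (starRingEnd ℂ) (F (x + z)) *
      (F (x + z' + h) * (starRingEnd ℂ) (F (x + z'))) =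
    F ((x + z + h) * (x + z' + h)) * (starRingEnd ℂ) (F ((x + z) * (x + z'))) := by
    rw [hF.mul, hF.mul, map_mul]; ring
  rw [e1, e2, ← conj_rel (by rw [hF.mul, norm_mul, hF.norm _ (L.cop.2 c3.1),
    hF.norm _ (L.cop.2 hx.1), mul_one]) (by rw [hF.mul, norm_mul, hF.norm _ (L.cop.2 c1.1),
    hF.norm _ (L.cop.2 c2.1), mul_one]), ← hF.mul, ← hF.mul]
  refine hF.per _ _ ?_
  have e3 : (x + z + z' + h) * (x + h) * ((x + z) * (x + z')) -
    (x + z + h) * (x + z' + h) * ((x + z + z') * x) = (2 * x + h + z + z') * (h * (z * z')) := by ring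
  rw [e3]
  exact L.mem2 ha hz hz' _

/-- stationary points -/
def Sol (s : Ideal (𝓞 K)) (l F : 𝓞 K → ℂ) (h x : 𝓞 K) : Prop :=
  (IsCoprime (Ideal.span {x}) s ∧ IsCoprime (Ideal.span {x + h}) s) ∧
    ∀ z ∈ s, DH F h (x + z) * l z = DH F h x

open scoped Classical in
theorem stat (L : LC a s s') (hF : PM (a * s * s') F) (ha : h ∈ a) {b : Ideal (𝓞 K)}
    (hb : b = s * s') [Fintype (𝓞 K ⧸ b)] (hl : AC b l) :
    ‖sQ b (fun x => DH F h x * l x)‖ ≤
      ((univ.filter fun c : 𝓞 K ⧸ b => Sol s l F h (Quotient.out c)).card : ℝ) := by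
  have hbs : b ≤ s := by rw [hb]; exact Ideal.mul_le_left
  set g : 𝓞 K → ℂ := fun x => DH F h x * l x with hg
  have hgp : PerO b g := by
    intro x y hxy
    simp only [hg]
    rw [DH_per L hF ha x y (by rwa [hb] at hxy), hl.per hxy]
  have hg1 : ∀ x, ‖g x‖ ≤ 1 := by
    intro x
    simp only [hg]
    rw [norm_mul, hl.norm, mul_one]
    exact hF.DH_le _ _
  set ind : 𝓞 K → ℂ := fun z => if z ∈ s then 1 else 0 with hind
  set ns : ℝ := ∑ d : 𝓞 K ⧸ b, ‖ind (Quotient.out d)‖ with hns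
  have hns0 : 0 < ns := by
    have h1 : ‖ind (Quotient.out (0 : 𝓞 K ⧸ b))‖ = 1 := by
      have h2 : Quotient.out (0 : 𝓞 K ⧸ b) ∈ s := by
        have := out_sub b 0
        rw [map_zero, sub_zero] at this
        exact hbs this
      simp only [hind]
      rw [if_pos h2, norm_one]
    have h3 := single_le_sum (f := fun d : 𝓞 K ⧸ b => ‖ind (Quotient.out d)‖)
      (fun d _ => norm_nonneg _) (mem_univ (0 : 𝓞 K ⧸ b))
    rw [h1] at h3
    linarith
  have hnsc : ((ns : ℝ) : ℂ) = ∑ d : 𝓞 K ⧸ b, ind (Quotient.out d) := by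
    rw [hns]
    push_cast
    refine sum_congr rfl fun d _ => ?_
    simp only [hind]
    split_ifs <;> simp
  -- the averaging
  have e1 : (ns : ℂ) * sQ b g = ∑ c : 𝓞 K ⧸ b, ∑ d : 𝓞 K ⧸ b, ind (Quotient.out d) *
      g (Quotient.out c + Quotient.out d) := by
    rw [hnsc, sum_mul, sum_comm]
    refine sum_congr rfl fun d _ => ?_
    rw [← mul_sum]
    congr 1
    rw [← sQ_shift hgp (Quotient.out d)]
    rfl
  have hT : ∀ c : 𝓞 K ⧸ b, ‖∑ d : 𝓞 K ⧸ b, ind (Quotient.out d) *
      g (Quotient.out c + Quotient.out d)‖ ≤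
      if Sol s l F h (Quotient.out c) then ns else 0 := by
    intro c
    set x : 𝓞 K := Quotient.out c with hx
    split_ifs with hS
    · refine (norm_sum_le _ _).trans ?_
      rw [hns]
      refine sum_le_sum fun d _ => ?_
      rw [norm_mul]
      exact mul_le_of_le_one_right (norm_nonneg _) (hg1 _)
    · refine le_of_eq ?_
      rw [norm_eq_zero]
      by_cases hU : IsCoprime (Ideal.span {x}) s ∧ IsCoprime (Ideal.span {x + h}) s
      · have h1 : ∃ z0 ∈ s, DH F h (x + z0) * l z0 ≠ DH F h x := by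
          by_contra hcon
          push Not at hcon
          exact hS ⟨hU, hcon⟩
        obtain ⟨z0, hz0, hne⟩ := h1
        set ψ : 𝓞 K → ℂ := fun z => ind z * g (x + z) with hψ
        have hψp : PerO b ψ := by
          intro z w hzw
          simp only [hψ, hind]
          have h2 : g (x + z) = g (x + w) := hgp _ _ (by simpa using hzw)
          rw [h2]
          have h3 : z ∈ s ↔ w ∈ s := by
            constructor
            · intro h4
              have := sub_mem h4 (hbs hzw)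
              simpa using this
            · intro h4
              have := add_mem (hbs hzw) h4
              simpa using this
          by_cases h4 : z ∈ s
          · rw [if_pos h4, if_pos (h3.1 h4)]
          · rw [if_neg h4, if_neg (fun h5 => h4 (h3.2 h5))]
        have h2 : ∀ z, ψ (z + z0) * DH F h x = ψ z * (DH F h (x + z0) * l z0) := by
          intro z
          simp only [hψ, hind]
          by_cases hz : z ∈ s
          · rw [if_pos hz, if_pos (add_mem hz hz0)]
            simp only [hg]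
            have h3 := DH_mul L hF ha hU hz hz0
            have h4 : l (x + (z + z0)) = l (x + z) * l z0 := by rw [← hl.add]; congr 1; ring
            rw [h4, ← add_assoc]
            linear_combination (l (x + z) * l z0) * h3
          · have h5 : z + z0 ∉ s := fun h6 => hz (by simpa using sub_mem h6 hz0)
            rw [if_neg hz, if_neg h5]
            ring
        have h3 := sQ_shift hψp z0
        have h4 : sQ b ψ * DH F h x = sQ b ψ * (DH F h (x + z0) * l z0) := by
          conv_lhs => rw [← h3]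
          unfold sQ
          rw [sum_mul, sum_mul]
          exact sum_congr rfl fun d _ => h2 _
        have h5 : sQ b ψ * (DH F h x - DH F h (x + z0) * l z0) = 0 := by
          rw [mul_sub, h4, sub_self]
        rcases mul_eq_zero.1 h5 with h6 | h6
        · exact h6
        · exact absurd (sub_eq_zero.1 h6).symm hne
      · refine sum_eq_zero fun d _ => ?_
        simp only [hind]
        split_ifs with hd
        · simp only [hg]
          rw [DH_zero L hF (fun h1 => hU ((cop2_add hd).1 h1))]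
          ring
        · rw [zero_mul]
  have h1 : ns * ‖sQ b g‖ ≤ ns * ((univ.filter fun c : 𝓞 K ⧸ b => Sol s l F h (Quotient.out c)).card : ℝ) := by
    have e2 : ns * ‖sQ b g‖ = ‖(ns : ℂ) * sQ b g‖ := by
      rw [norm_mul, Complex.norm_real, Real.norm_of_nonneg hns0.le]
    rw [e2, e1]
    refine (norm_sum_le _ _).trans ((sum_le_sum fun c _ => hT c).trans ?_)
    rw [← sum_filter, sum_const, nsmul_eq_mul, mul_comm]
  exact le_of_mul_le_mul_left h1 hns0

lemma PM.one {m : Ideal (𝓞 K)} (hF : PM m F) : F 1 = 1 := by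
  have h1 : IsCoprime (Ideal.span {(1 : 𝓞 K)}) m := by
    rw [Ideal.isCoprime_iff_sup_eq, Ideal.span_singleton_one]
    exact top_sup_eq m
  have h2 := hF.norm _ h1
  have h3 := hF.mul 1 1
  rw [mul_one] at h3
  have h4 : F 1 ≠ 0 := by
    intro h5
    rw [h5, norm_zero] at h2
    exact zero_ne_one h2
  have h5 : F 1 * (F 1 - 1) = 0 := by linear_combination -h3
  rcases mul_eq_zero.1 h5 with h6 | h6
  · exact absurd h6 h4
  · exact sub_eq_zero.1 h6

lemma two_sol (L : LC a s s') (hF : PM (a * s * s') F) (ha : h ∈ a) (hl : AC (s * s') l)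
    {x y z : 𝓞 K} (hx : Sol s l F h x) (hy : Sol s l F h y) (hz : z ∈ s) :
    F (1 + h * ((x - y) * (x + y + h)) * z) = 1 := by
  set q0 := (x + h) * x * ((y + h) * y) with hq0
  set w := q0 * z with hw
  have hws : w ∈ s := Ideal.mul_mem_left _ _ hz
  have cx := (cop2_add (h := h) (x := x) hws).2 hx.1
  have cy := (cop2_add (h := h) (x := y) hws).2 hy.1
  have h1 := hx.2 w hws
  have h2 := hy.2 w hws
  have h3 : DH F h (x + w) * DH F h y = DH F h (y + w) * DH F h x := by
    have h4 : (DH F h (x + w) * DH F h y) * l w = (DH F h (y + w) * DH F h x) * l w := by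
      rw [← h1, ← h2]; ring
    exact mul_right_cancel₀ (hl.ne w) h4
  have e1 : DH F h (x + w) * DH F h y = F ((x + w + h) * (y + h)) *
      (starRingEnd ℂ) (F ((x + w) * y)) := by
    unfold DH
    rw [hF.mul, hF.mul, map_mul]; ring
  have e2 : DH F h (y + w) * DH F h x = F ((y + w + h) * (x + h)) *
      (starRingEnd ℂ) (F ((y + w) * x)) := by
    unfold DH
    rw [hF.mul, hF.mul, map_mul]; ring
  rw [e1, e2, ← conj_rel (by rw [hF.mul, norm_mul, hF.norm _ (L.cop.2 cx.1),
    hF.norm _ (L.cop.2 hy.1.1), mul_one]) (by rw [hF.mul, norm_mul, hF.norm _ (L.cop.2 cy.1),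
    hF.norm _ (L.cop.2 hx.1.1), mul_one]), ← hF.mul, ← hF.mul] at h3
  set P := (x + w + h) * (y + h) * ((y + w) * x) with hP
  set Q := (y + w + h) * (x + h) * ((x + w) * y) with hQ
  have hQn : F Q ≠ 0 := by
    intro h0
    have h5 : ‖F Q‖ = 1 := by
      rw [hQ, hF.mul, hF.mul, hF.mul, norm_mul, norm_mul, norm_mul, hF.norm _ (L.cop.2 cx.1),
        hF.norm _ (L.cop.2 cy.2), hF.norm _ (L.cop.2 hx.1.2), hF.norm _ (L.cop.2 hy.1.1)]
      norm_num
    rw [h0, norm_zero] at h5
    exact zero_ne_one h5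
  have h4 : F P = F (Q * (1 + h * ((x - y) * (x + y + h)) * z)) := by
    refine hF.per _ _ ?_
    have e3 : P - Q * (1 + h * ((x - y) * (x + y + h)) * z) =
      (-((x - y) * (x + y + h)) * (y * (y + h) * (x + h) + y * x * (x + h) + y * (x + h) * w)) *
        (h * (z * w)) + (x - y) * (h * (w * w)) +
        (w - q0 * z) * (h * ((x - y) * (x + y + h))) := by
      rw [hP, hQ, hq0]; ring
    have e4 : w - q0 * z = 0 := by rw [hw, sub_self]
    rw [e3, e4, zero_mul, add_zero]
    exact add_mem (L.mem2 ha hz hws _) (L.mem2 ha hws hws _)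
  rw [hF.mul Q] at h4
  have h5 : F Q * F (1 + h * ((x - y) * (x + y + h)) * z) = F Q * 1 := by rw [← h4, h3, mul_one]
  exact mul_left_cancel₀ hQn h5

lemma span_le (hF : PM (a * s * s') F) {ν : 𝓞 K} (H : ∀ z ∈ s, F (1 + ν * z) = 1) :
    Ideal.span {ν} * s ≤ a * s * s' := by
  by_contra hcon
  have h1 : a * s * s' < a * s * s' ⊔ Ideal.span {ν} * s := by
    refine lt_of_le_of_ne le_sup_left fun h2 => hcon ?_
    rw [h2]
    exact le_sup_right
  obtain ⟨α, hα1, hα2, hα3⟩ := hF.prim _ h1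
  obtain ⟨m, hm, w, hw, hmw⟩ := Submodule.mem_sup.1 hα1
  obtain ⟨z, hz, hzw⟩ := Ideal.mem_span_singleton_mul.1 hw
  apply hα3
  rw [← H z hz]
  refine hF.per _ _ ?_
  have : α - (1 + ν * z) = m := by rw [hzw]; linear_combination -hmw
  rw [this]
  exact hm

end Pool.Agent.T2H29.SW
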