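import Pool.Agent.T2H29.SW.B3

/-!
# Complete sums: counting the stationary points, Gauss sums
-/

set_option autoImplicit false
set_option linter.unusedSectionVars false

namespace Pool.Agent.T2H29.SW

open Finset NumberField NumberField.InfinitePlace Module

variable {K : Type} [Field K] [NumberField K]
  {a s s' : Ideal (𝓞 K)} {F : 𝓞 K → ℂ} {h : 𝓞 K} {l : 𝓞 K → ℂ}

lemma LC.parts (L : LC a s s') : a ≠ ⊥ ∧ s ≠ ⊥ ∧ s' ≠ ⊥ :=
  ⟨(ne_bot_mul (ne_bot_mul L.ne).1).1, (ne_bot_mul (ne_bot_mul L.ne).1).2, (ne_bot_mul L.ne).2⟩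

lemma nrm_pos {I : Ideal (𝓞 K)} (hI : I ≠ ⊥) : 0 < Ideal.absNorm I :=
  Nat.pos_of_ne_zero fun h => hI (Ideal.absNorm_eq_zero_iff.1 h)

open scoped Classical in
/-- the classes attached to a factorisation -/
lemma cnt_d (L : LC a s s') {h' : 𝓞 K} (hh : h = 2 * h') (ha' : h' ∈ a) {g u : Ideal (𝓞 K)}
    (hgu : s' = g * u) {b : Ideal (𝓞 K)} (hb : b = s * s') [Fintype (𝓞 K ⧸ b)] (y : 𝓞 K)
    {d1 d2 : Ideal (𝓞 K)} (hd : u = d1 * d2) :
    ((univ.filter fun c : 𝓞 K ⧸ b => IsCoprime (Ideal.span {Quotient.out c}) s ∧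
      Quotient.out c - y ∈ d1 ∧ Quotient.out c + y + h ∈ d2).card : ℕ) ≤
      Ideal.absNorm (Ideal.span {(2 : 𝓞 K)}) * Ideal.absNorm s * Ideal.absNorm g := by
  obtain ⟨ha0, hs0, hs'0⟩ := L.parts
  have hg0 : g ≠ ⊥ := (ne_bot_mul (hgu ▸ hs'0)).1
  have hu0 : u ≠ ⊥ := (ne_bot_mul (hgu ▸ hs'0)).2
  have hd10 : d1 ≠ ⊥ := (ne_bot_mul (hd ▸ hu0)).1
  have hd20 : d2 ≠ ⊥ := (ne_bot_mul (hd ▸ hu0)).2
  have hb0 : b ≠ ⊥ := by
    rw [hb]
    intro h0
    rcases Ideal.mul_eq_bot.1 h0 with h1 | h1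
    · exact hs0 h1
    · exact hs'0 h1
  set S := univ.filter fun c : 𝓞 K ⧸ b => IsCoprime (Ideal.span {Quotient.out c}) s ∧
      Quotient.out c - y ∈ d1 ∧ Quotient.out c + y + h ∈ d2 with hS
  rcases S.eq_empty_or_nonempty with h0 | ⟨c0, hc0⟩
  · rw [h0, card_empty]; exact Nat.zero_le _
  rw [hS, mem_filter] at hc0
  obtain ⟨-, hc1, hc2, hc3⟩ := hc0
  set x0 : 𝓞 K := Quotient.out c0 with hx0
  have hs'u : s' ≤ u := by rw [hgu]; exact Ideal.mul_le_right
  have hu1 : u ≤ d1 := by rw [hd]; exact Ideal.mul_le_left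
  have hu2 : u ≤ d2 := by rw [hd]; exact Ideal.mul_le_right
  have hb1 : b ≤ d1 ⊓ d2 := by
    have : b ≤ u := by
      rw [hb]
      exact Ideal.mul_le_right.trans hs'u
    exact le_inf (this.trans hu1) (this.trans hu2)
  have hinf0 : d1 ⊓ d2 ≠ ⊥ := fun h1 => hb0 (le_bot_iff.1 (h1 ▸ hb1))
  -- the size of the sum
  have hsup : Ideal.absNorm (d1 ⊔ d2) ≤ Ideal.absNorm (Ideal.span {(2 : 𝓞 K)}) := by
    have h20 : Ideal.span {(2 : 𝓞 K)} ≠ ⊥ := by
      rw [Ne, Ideal.span_singleton_eq_bot]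
      exact two_ne_zero
    have h1 : 2 * (x0 + h') ∈ d1 ⊔ d2 := by
      have e1 : 2 * (x0 + h') = (x0 - y) + (x0 + y + h) := by rw [hh]; ring
      rw [e1]
      exact add_mem (Ideal.mem_sup_left hc2) (Ideal.mem_sup_right hc3)
    have h2 : d1 ⊔ d2 ∣ Ideal.span {(2 : 𝓞 K)} * Ideal.span {x0 + h'} := by
      rw [Ideal.span_singleton_mul_span_singleton, Ideal.dvd_iff_le,
        Ideal.span_singleton_le_iff_mem]
      exact h1
    have h3 : IsCoprime (d1 ⊔ d2) (Ideal.span {x0 + h'}) := by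
      by_contra hcon
      have hcon' : ¬ IsCoprime (Ideal.span {x0 + h'}) (d1 ⊔ d2) := fun h4 => hcon h4.symm
      obtain ⟨P, hP, h4, h5⟩ := not_cop.1 hcon'
      have h6 : s' ≤ P := hs'u.trans (hu1.trans (le_sup_left.trans h5))
      have h7 : a ≤ P := L.pa P hP h6
      have h8 : x0 ∈ P := by
        have := sub_mem h4 (h7 ha')
        simpa using this
      exact not_cop.2 ⟨P, hP, h8, L.ps P hP h7⟩ hc1
    have h4 : d1 ⊔ d2 ∣ Ideal.span {(2 : 𝓞 K)} := h3.dvd_of_dvd_mul_right h2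
    exact Nat.le_of_dvd (nrm_pos h20) (Ideal.absNorm_dvd_absNorm_of_le (Ideal.le_of_dvd h4))
  have hmul : Ideal.absNorm (d1 ⊔ d2) * Ideal.absNorm (d1 ⊓ d2) = Ideal.absNorm u := by
    rw [← map_mul, Ideal.sup_mul_inf, ← hd]
  have hcard : S.card * Ideal.absNorm (d1 ⊓ d2) ≤ Ideal.absNorm b := by
    refine le_trans ?_ (cnt_le hb0 hinf0 hb1 x0)
    refine Nat.mul_le_mul_right _ (card_le_card fun c hc => ?_)
    rw [hS, mem_filter] at hc
    rw [mem_filter]
    obtain ⟨-, -, h2, h3⟩ := hc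
    refine ⟨mem_univ _, ?_, ?_⟩
    · have := sub_mem h2 hc2
      have e1 : Quotient.out c - y - (x0 - y) = Quotient.out c - x0 := by ring
      rwa [e1] at this
    · have := sub_mem h3 hc3
      have e1 : Quotient.out c + y + h - (x0 + y + h) = Quotient.out c - x0 := by ring
      rwa [e1] at this
  have hNb : Ideal.absNorm b = Ideal.absNorm s * Ideal.absNorm g * Ideal.absNorm u := by
    rw [hb, map_mul, hgu, map_mul, mul_assoc]
  have h5 : S.card * Ideal.absNorm u ≤ (Ideal.absNorm (Ideal.span {(2 : 𝓞 K)}) *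
      Ideal.absNorm s * Ideal.absNorm g) * Ideal.absNorm u := by
    calc S.card * Ideal.absNorm u = Ideal.absNorm (d1 ⊔ d2) * (S.card * Ideal.absNorm (d1 ⊓ d2)) := by
          rw [← hmul]; ring
      _ ≤ Ideal.absNorm (Ideal.span {(2 : 𝓞 K)}) * Ideal.absNorm b := Nat.mul_le_mul hsup hcard
      _ = _ := by rw [hNb]; ring
  exact Nat.le_of_mul_le_mul_right h5 (nrm_pos hu0)

open scoped Classical in
/-- the number of stationary points -/
theorem card_solB (L : LC a s s') (hF : PM (a * s * s') F) {h' : 𝓞 K} (hh : h = 2 * h')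
    (ha' : h' ∈ a) {b : Ideal (𝓞 K)} (hb : b = s * s') [Fintype (𝓞 K ⧸ b)] (hl : AC b l) :
    ∃ g : Ideal (𝓞 K), g ∣ s' ∧ h ∈ a * g ∧
      ((univ.filter fun c : 𝓞 K ⧸ b => Sol s l F h (Quotient.out c)).card : ℕ) ≤
        tau s' * (Ideal.absNorm (Ideal.span {(2 : 𝓞 K)}) * Ideal.absNorm s * Ideal.absNorm g) := by
  obtain ⟨ha0, hs0, hs'0⟩ := L.parts
  have ha : h ∈ a := by rw [hh]; exact Ideal.mul_mem_left _ _ ha'
  have h1 : a ∣ Ideal.span {h} := by
    rw [Ideal.dvd_iff_le, Ideal.span_singleton_le_iff_mem]; exact ha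
  obtain ⟨H, hH⟩ := h1
  set g := H ⊔ s' with hg
  have hg1 : g ∣ s' := by rw [Ideal.dvd_iff_le]; exact le_sup_right
  have hg2 : g ∣ H := by rw [Ideal.dvd_iff_le]; exact le_sup_left
  have hg0 : g ≠ ⊥ := fun h0 => hs'0 (le_bot_iff.1 (h0 ▸ le_sup_right))
  obtain ⟨u, hu⟩ := hg1
  obtain ⟨H', hH'⟩ := hg2
  have hu0 : u ≠ ⊥ := (ne_bot_mul (hu ▸ hs'0)).2
  have hcop : IsCoprime u H' := by
    rw [Ideal.isCoprime_iff_sup_eq]
    have h2 : g * (u ⊔ H') = g * ⊤ := by
      rw [Ideal.mul_sup, ← hu, ← hH', Ideal.mul_top, hg, sup_comm]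
    have h3 : g ≠ 0 := hg0
    exact mul_left_cancel₀ h3 h2
  refine ⟨g, ⟨u, hu⟩, ?_, ?_⟩
  · have h2 : Ideal.span {h} ≤ a * g := by
      rw [hH, hH']
      rw [← mul_assoc]
      exact Ideal.mul_le_left
    exact h2 (Ideal.mem_span_singleton_self h)
  · set S := univ.filter fun c : 𝓞 K ⧸ b => Sol s l F h (Quotient.out c) with hS
    rcases S.eq_empty_or_nonempty with h0 | ⟨c0, hc0⟩
    · rw [h0, card_empty]; exact Nat.zero_le _
    rw [hS, mem_filter] at hc0
    set y : 𝓞 K := Quotient.out c0 with hy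
    have hys : Sol s l F h y := hc0.2
    -- the factorisations
    set T : Ideal (𝓞 K) → Finset (𝓞 K ⧸ b) := fun d1 => univ.filter fun c : 𝓞 K ⧸ b =>
      ∃ d2, u = d1 * d2 ∧ (IsCoprime (Ideal.span {Quotient.out c}) s ∧
      Quotient.out c - y ∈ d1 ∧ Quotient.out c + y + h ∈ d2) with hT
    have hsub : S ⊆ (dvs u).biUnion T := by
      intro c hc
      rw [hS, mem_filter] at hc
      have hx := hc.2
      set x : 𝓞 K := Quotient.out c with hx'
      have h2 : Ideal.span {h * ((x - y) * (x + y + h))} * s ≤ a * s * s' :=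
        span_le hF fun z hz => two_sol L hF ha (hb ▸ hl) hx hys hz
      have h3 : u ∣ Ideal.span {x - y} * Ideal.span {x + y + h} := by
        rw [← Ideal.dvd_iff_le] at h2
        have e1 : Ideal.span {h * ((x - y) * (x + y + h))} * s =
            (a * s * g) * (H' * (Ideal.span {x - y} * Ideal.span {x + y + h})) := by
          rw [← Ideal.span_singleton_mul_span_singleton,
            ← Ideal.span_singleton_mul_span_singleton, hH]
          conv_lhs => rw [hH']
          ring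
        have e2 : a * s * s' = (a * s * g) * u := by
          conv_lhs => rw [hu]
          ring
        rw [e1, e2] at h2
        have h4 : a * s * g ≠ 0 := by
          refine mul_ne_zero (mul_ne_zero ?_ ?_) ?_
          · exact ha0
          · exact hs0
          · exact hg0
        have h5 := (mul_dvd_mul_iff_left h4).1 h2
        exact hcop.dvd_of_dvd_mul_left h5
      obtain ⟨d1, d2, h4, h5, h6⟩ := exists_dvd_and_dvd_of_dvd_mul h3
      rw [mem_biUnion]
      refine ⟨d1, (mem_dvs hu0).2 ⟨d2, h6⟩, ?_⟩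
      rw [hT, mem_filter]
      refine ⟨mem_univ _, d2, h6, hx.1.1, ?_, ?_⟩
      · exact (Ideal.span_singleton_le_iff_mem _).1 (Ideal.le_of_dvd h4)
      · exact (Ideal.span_singleton_le_iff_mem _).1 (Ideal.le_of_dvd h5)
    have hTc : ∀ d1 ∈ dvs u, (T d1).card ≤ Ideal.absNorm (Ideal.span {(2 : 𝓞 K)}) *
        Ideal.absNorm s * Ideal.absNorm g := by
      intro d1 hd1
      obtain ⟨d2, hd2⟩ := (mem_dvs hu0).1 hd1
      refine le_trans (card_le_card fun c hc => ?_) (cnt_d L hh ha' hu hb y hd2)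
      rw [hT, mem_filter] at hc
      obtain ⟨-, d2', h2, h3⟩ := hc
      have hd10 : d1 ≠ 0 := (ne_bot_mul (hd2 ▸ hu0)).1
      have h4 : d2' = d2 := mul_left_cancel₀ hd10 (h2.symm.trans hd2)
      rw [mem_filter]
      exact ⟨mem_univ _, h4 ▸ h3⟩
    calc S.card ≤ ((dvs u).biUnion T).card := card_le_card hsub
      _ ≤ ∑ d1 ∈ dvs u, (T d1).card := card_biUnion_le
      _ ≤ (dvs u).card * (Ideal.absNorm (Ideal.span {(2 : 𝓞 K)}) *
          Ideal.absNorm s * Ideal.absNorm g) := by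
          refine (sum_le_card_nsmul _ _ _ hTc).trans ?_
          rw [smul_eq_mul]
      _ ≤ _ := by
          refine Nat.mul_le_mul_right _ ?_
          exact tau_mono hs'0 ⟨g, by rw [mul_comm]; exact hu⟩

/-- the complete sums -/
theorem sQ_DH (L : LC a s s') (hF : PM (a * s * s') F) {h' : 𝓞 K} (hh : h = 2 * h')
    (ha' : h' ∈ a) {b : Ideal (𝓞 K)} (hb : b = s * s') [Fintype (𝓞 K ⧸ b)] (hl : AC b l) :
    ∃ g : Ideal (𝓞 K), g ∣ s' ∧ h ∈ a * g ∧ ‖sQ b (fun x => DH F h x * l x)‖ ≤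
        tau s' * (Ideal.absNorm (Ideal.span {(2 : 𝓞 K)}) * Ideal.absNorm s * Ideal.absNorm g) := by
  have ha : h ∈ a := by rw [hh]; exact Ideal.mul_mem_left _ _ ha'
  obtain ⟨g, hg1, hg2, hg3⟩ := card_solB L hF hh ha' hb hl
  refine ⟨g, hg1, hg2, (stat L hF ha hb hl).trans ?_⟩
  exact_mod_cast hg3

lemma sQ_AC {b : Ideal (𝓞 K)} [Fintype (𝓞 K ⧸ b)] (hl : AC b l) :
    (∀ x, l x = 1) ∨ sQ b l = 0 := by
  by_cases h1 : ∀ x, l x = 1
  · exact Or.inl h1
  · right
    push Not at h1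
    obtain ⟨z, hz⟩ := h1
    have hp : PerO b l := fun x y hxy => hl.per hxy
    have h2 := sQ_shift hp z
    have h3 : sQ b (fun x => l (x + z)) = sQ b l * l z := by
      unfold sQ
      rw [sum_mul]
      exact sum_congr rfl fun c _ => hl.add _ _
    rw [h3] at h2
    have h4 : sQ b l * (l z - 1) = 0 := by rw [mul_sub, h2, mul_one, sub_self]
    rcases mul_eq_zero.1 h4 with h5 | h5
    · exact h5
    · exact absurd (sub_eq_zero.1 h5) hz

lemma AC.mulr {b : Ideal (𝓞 K)} (hl : AC b l) (w : 𝓞 K) : AC b fun y => l (y * w) where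
  add x y := by rw [add_mul, hl.add]
  norm x := hl.norm _
  triv x hx := hl.triv _ (Ideal.mul_mem_right _ _ hx)

/-- the bound for Gauss sums -/
theorem gauss {m : Ideal (𝓞 K)} [Fintype (𝓞 K ⧸ m)] (hF : PM m F) (hl : AC m l) :
    ‖sQ m (fun x => F x * l x)‖ ^ 2 ≤ Fintype.card (𝓞 K ⧸ m) := by
  classical
  by_cases hc : ∃ w, w ∉ m ∧ ∀ y, l (y * w) = 1
  · -- the sum vanishes
    obtain ⟨w, hw, hlw⟩ := hc
    have h1 : m < m ⊔ Ideal.span {w} := by
      refine lt_of_le_of_ne le_sup_left fun h2 => hw ?_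
      rw [h2]
      exact Ideal.mem_sup_right (Ideal.mem_span_singleton_self w)
    obtain ⟨α, hα1, hα2, hα3⟩ := hF.prim _ h1
    have htriv : ∀ z ∈ m ⊔ Ideal.span {w}, l z = 1 := by
      intro z hz
      obtain ⟨z1, hz1, z2, hz2, rfl⟩ := Submodule.mem_sup.1 hz
      obtain ⟨y, rfl⟩ := Ideal.mem_span_singleton'.1 hz2
      rw [hl.add, hl.triv _ hz1, hlw, mul_one]
    obtain ⟨γ, hγ⟩ := cop_inv hα2
    have hp : PerO m fun x => F x * l x := by
      intro x y hxy
      beta_reduce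
      rw [hF.per _ _ hxy, hl.per hxy]
    have h2 := sQ_mul hp hγ
    have h3 : sQ m (fun x => F (α * x) * l (α * x)) = F α * sQ m (fun x => F x * l x) := by
      unfold sQ
      rw [mul_sum]
      refine sum_congr rfl fun c _ => ?_
      have e1 : α * Quotient.out c = Quotient.out c + (α - 1) * Quotient.out c := by ring
      have e2 : l (α * Quotient.out c) = l (Quotient.out c) := by
        rw [e1, hl.add, htriv _ (Ideal.mul_mem_right _ _ hα1), mul_one]
      beta_reduce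
      rw [e2, hF.mul, mul_assoc]
    rw [h3] at h2
    have h4 : (F α - 1) * sQ m (fun x => F x * l x) = 0 := by rw [sub_mul, h2, one_mul, sub_self]
    have h5 : sQ m (fun x => F x * l x) = 0 := by
      rcases mul_eq_zero.1 h4 with h5 | h5
      · exact absurd (sub_eq_zero.1 h5) hα3
      · exact h5
    rw [h5, norm_zero]
    have : (0 : ℝ) ≤ Fintype.card (𝓞 K ⧸ m) := Nat.cast_nonneg _
    simpa using this
  · push Not at hc
    set W : 𝓞 K → ℂ := fun y => sQ m (fun x => F x * l (y * x)) with hW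
    have hW1 : W 1 = sQ m (fun x => F x * l x) := by
      simp only [hW, one_mul]
    rw [← hW1]
    -- units
    have hunit : ∀ y, IsCoprime (Ideal.span {y}) m → ‖W y‖ = ‖W 1‖ := by
      intro y hy
      obtain ⟨γ, hγ⟩ := cop_inv hy
      have hp : PerO m fun x => F x * l (y * x) := by
        intro x x' hx
        beta_reduce
        rw [hF.per _ _ hx]
        congr 1
        exact hl.per (by rw [← mul_sub]; exact Ideal.mul_mem_left _ _ hx)
      have h2 := sQ_mul hp (α := γ) (γ := y) (by rwa [mul_comm])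
      have h3 : sQ m (fun x => F (γ * x) * l (y * (γ * x))) = F γ * W 1 := by
        simp only [hW]
        unfold sQ
        rw [mul_sum]
        refine sum_congr rfl fun c _ => ?_
        have e1 : y * (γ * Quotient.out c) = Quotient.out c + (y * γ - 1) * Quotient.out c := by ring
        beta_reduce
        rw [e1, hl.add, hl.triv _ (Ideal.mul_mem_right _ _ hγ), mul_one, hF.mul, one_mul, mul_assoc]
      have h4 : ‖F γ‖ = 1 := hF.norm _ (inv_cop (γ := y) (by rwa [mul_comm]))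
      have h5 : W y = F γ * W 1 := by rw [← h3, h2]
      rw [h5, norm_mul, h4, one_mul]
    -- the second moment
    have hdelta : ∀ w, sQ m (fun y => l (y * w)) =
        if w ∈ m then (Fintype.card (𝓞 K ⧸ m) : ℂ) else 0 := by
      intro w
      split_ifs with hw
      · unfold sQ
        have h1 : ∀ c ∈ (univ : Finset (𝓞 K ⧸ m)), (fun y => l (y * w)) (Quotient.out c) = (1 : ℂ) :=
          fun c _ => hl.triv _ (Ideal.mul_mem_left m (Quotient.out c) hw)
        rw [sum_congr rfl h1, sum_const, nsmul_eq_mul, mul_one, card_univ]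
      · rcases sQ_AC (hl.mulr w) with h1 | h1
        · obtain ⟨y, hy⟩ := hc w hw
          exact absurd (h1 y) hy
        · exact h1
    have hsq : ((∑ c : 𝓞 K ⧸ m, ‖W (Quotient.out c)‖ ^ 2 : ℝ) : ℂ) =
        (Fintype.card (𝓞 K ⧸ m) : ℂ) * ((∑ c : 𝓞 K ⧸ m, ‖F (Quotient.out c)‖ ^ 2 : ℝ) : ℂ) := by
      have h1 : ∀ y, ((‖W y‖ ^ 2 : ℝ) : ℂ) = ∑ c : 𝓞 K ⧸ m, ∑ c' : 𝓞 K ⧸ m,
          (F (Quotient.out c) * (starRingEnd ℂ) (F (Quotient.out c'))) *
          l (y * (Quotient.out c - Quotient.out c')) := by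
        intro y
        rw [Complex.ofReal_pow, ← Complex.mul_conj']
        simp only [hW]
        unfold sQ
        rw [map_sum, sum_mul_sum]
        refine sum_congr rfl fun c _ => sum_congr rfl fun c' _ => ?_
        rw [map_mul]
        have e1 : l (y * Quotient.out c) * (starRingEnd ℂ) (l (y * Quotient.out c')) =
            l (y * (Quotient.out c - Quotient.out c')) := by
          have e2 : l (y * Quotient.out c) = l (y * (Quotient.out c - Quotient.out c')) *
              l (y * Quotient.out c') := by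
            rw [← hl.add]
            congr 1
            ring
          rw [e2, mul_assoc, Complex.mul_conj', hl.norm]
          norm_num
        rw [← e1]
        ring
      rw [Complex.ofReal_sum, sum_congr rfl fun c _ => h1 _]
      rw [sum_comm, Complex.ofReal_sum, mul_sum]
      refine sum_congr rfl fun c _ => ?_
      rw [sum_comm, sum_eq_single c]
      · rw [← mul_sum]
        have h2 := hdelta (Quotient.out c - Quotient.out c)
        rw [if_pos (by rw [sub_self]; exact zero_mem _)] at h2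
        unfold sQ at h2
        rw [h2, Complex.mul_conj', Complex.ofReal_pow, mul_comm]
      · intro c' _ hc'
        rw [← mul_sum]
        have h2 := hdelta (Quotient.out c - Quotient.out c')
        have h3 : Quotient.out c - Quotient.out c' ∉ m := by
          intro h4
          apply hc'
          have := (Ideal.Quotient.mk_eq_mk_iff_sub_mem _ _).2 h4
          rw [mk_out, mk_out] at this
          exact this.symm
        rw [if_neg h3] at h2
        unfold sQ at h2
        rw [h2, mul_zero]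
      · intro h0; exact absurd (mem_univ _) h0
    have hsq' : ∑ c : 𝓞 K ⧸ m, ‖W (Quotient.out c)‖ ^ 2 =
        (Fintype.card (𝓞 K ⧸ m) : ℝ) * ∑ c : 𝓞 K ⧸ m, ‖F (Quotient.out c)‖ ^ 2 := by
      exact_mod_cast hsq
    have hlow : (∑ c : 𝓞 K ⧸ m, ‖F (Quotient.out c)‖ ^ 2) * ‖W 1‖ ^ 2 ≤
        ∑ c : 𝓞 K ⧸ m, ‖W (Quotient.out c)‖ ^ 2 := by
      rw [sum_mul]
      refine sum_le_sum fun c _ => ?_
      by_cases hcc : IsCoprime (Ideal.span {(Quotient.out c : 𝓞 K)}) m
      · rw [hunit _ hcc, hF.norm _ hcc]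
        norm_num
      · rw [hF.zero _ hcc, norm_zero]
        have : 0 ≤ ‖W (Quotient.out c)‖ ^ 2 := by positivity
        simpa using this
    have hφ : 0 < ∑ c : 𝓞 K ⧸ m, ‖F (Quotient.out c)‖ ^ 2 := by
      have h1 : F (Quotient.out (Ideal.Quotient.mk m 1)) = 1 := by
        rw [← hF.one]
        exact hF.per _ _ (out_sub m 1)
      have h2 := single_le_sum (f := fun c : 𝓞 K ⧸ m => ‖F (Quotient.out c)‖ ^ 2)
        (fun c _ => by positivity) (mem_univ (Ideal.Quotient.mk m 1))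
      beta_reduce at h2
      rw [h1, norm_one] at h2
      linarith
    rw [hsq'] at hlow
    have h3 : (∑ c : 𝓞 K ⧸ m, ‖F (Quotient.out c)‖ ^ 2) * ‖W 1‖ ^ 2 ≤
        (∑ c : 𝓞 K ⧸ m, ‖F (Quotient.out c)‖ ^ 2) * (Fintype.card (𝓞 K ⧸ m) : ℝ) := by
      linarith
    exact le_of_mul_le_mul_left h3 hφ

end Pool.Agent.T2H29.SW
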