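import Pool.Agent.T2H29.SW.B4

/-!
# Differencing with a factor, decay, nonzero vectors
-/

set_option autoImplicit false
set_option linter.unusedSectionVars false

namespace Pool.Agent.T2H29.SW

open Finset MeasureTheory Matrix Topology

variable {ι : Type} [Fintype ι] [DecidableEq ι] {Qt : Type} [Fintype Qt] [DecidableEq Qt]
  {cls : (ι → ℤ) → Qt} {τ : (ι → ℤ) → (ι → ℤ)}

/-- differencing with a factor which is constant on the classes -/
theorem SubL.vdc2 (h : SubL cls τ) {H G u : (ι → ℤ) → ℂ} (hG : Summable fun z => ‖G z‖)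
    (hu : ∀ z, ‖u z‖ ≤ 1) (hut : ∀ z w, cls z = cls w → u z = u w) (hH : ∀ z, H z = u z * G z) :
    ‖∑' z, H z‖ ^ 2 ≤
      Fintype.card Qt * ‖∑' t, ∑' z, G (z + τ t) * (starRingEnd ℂ) (G z)‖ := by
  have hHs : Summable fun z => ‖H z‖ := by
    refine Summable.of_nonneg_of_le (fun z => norm_nonneg _) (fun z => ?_) hG
    rw [hH, norm_mul]
    exact mul_le_of_le_one_left (norm_nonneg _) (hu z)
  have h4 : 0 ≤ ∑ c, ‖∑' z, HK cls G c z‖ ^ 2 := sum_nonneg fun c _ => by positivity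
  have h5 : ∀ c, ‖∑' z, HK cls H c z‖ ≤ ‖∑' z, HK cls G c z‖ := by
    intro c
    by_cases hc : ∃ z0, cls z0 = c
    · obtain ⟨z0, hz0⟩ := hc
      have e1 : ∀ z, HK cls H c z = u z0 * HK cls G c z := by
        intro z
        unfold HK
        split_ifs with h6
        · rw [hH, hut z z0 (by rw [h6, hz0])]
        · rw [mul_zero]
      simp_rw [e1]
      rw [tsum_mul_left, norm_mul]
      exact mul_le_of_le_one_left (norm_nonneg _) (hu z0)
    · push Not at hc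
      have e1 : ∀ z, HK cls H c z = 0 := by
        intro z
        unfold HK
        rw [if_neg (hc z)]
      simp_rw [e1]
      rw [tsum_zero, norm_zero]
      exact norm_nonneg _
  rw [← h.class_total hG, Complex.norm_real, Real.norm_of_nonneg h4, HK_sum_classes (cls := cls) hHs]
  calc ‖∑ c, ∑' z, HK cls H c z‖ ^ 2 ≤ (∑ c, ‖∑' z, HK cls G c z‖) ^ 2 :=
        pow_le_pow_left₀ (norm_nonneg _) ((norm_sum_le _ _).trans (sum_le_sum fun c _ => h5 c)) 2
    _ ≤ (univ : Finset Qt).card * ∑ c, ‖∑' z, HK cls G c z‖ ^ 2 := sq_sum_le_card_mul_sum_sq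
    _ = _ := by rw [card_univ]

/-- differencing for Gaussian sums, with a factor -/
theorem SubL.vdc_gs2 (h : SubL cls τ) {A A2 : Matrix ι ι ℝ} (hA : A.det ≠ 0)
    (hτ : ∀ t, A.mulVec (cz (τ t)) = A2.mulVec (cz t)) (c : ι → ℝ) {F u : (ι → ℤ) → ℂ}
    (hF : ∀ z, ‖F z‖ ≤ 1) (hu : ∀ z, ‖u z‖ ≤ 1) (hut : ∀ z w, cls z = cls w → u z = u w) :
    (Summable fun t => (gs ((√2)⁻¹ • A2) 0 t : ℂ) *
      GS ((√2) • A) (c - (2 : ℝ)⁻¹ • cz (τ t)) (DT τ F t)) ∧
    ‖GS A c (fun z => u z * F z)‖ ^ 2 ≤ Fintype.card Qt *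
      ‖∑' t, (gs ((√2)⁻¹ • A2) 0 t : ℂ) * GS ((√2) • A) (c - (2 : ℝ)⁻¹ • cz (τ t)) (DT τ F t)‖ := by
  have h1 := h.pair_summable2 (GS_summable hA c hF)
  have h2 := h.vdc2 (H := fun z => (gs A c z : ℂ) * (u z * F z)) (u := u) (GS_summable hA c hF) hu hut
    (fun z => by ring)
  have e1 : ∀ t, ∑' z, ((gs A c (z + τ t) : ℂ) * F (z + τ t)) *
      (starRingEnd ℂ) ((gs A c z : ℂ) * F z) =
      (gs ((√2)⁻¹ • A2) 0 t : ℂ) * GS ((√2) • A) (c - (2 : ℝ)⁻¹ • cz (τ t)) (DT τ F t) := by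
    intro t
    unfold GS DT
    rw [← tsum_mul_left]
    refine tsum_congr fun z => ?_
    have h3 := gs_par A c z (τ t)
    rw [gs_tau hτ] at h3
    rw [map_mul, Complex.conj_ofReal]
    have h4 : ((gs A c (z + τ t) : ℂ) * (gs A c z : ℂ)) =
      (gs ((√2) • A) (c - (2 : ℝ)⁻¹ • cz (τ t)) z : ℂ) * (gs ((√2)⁻¹ • A2) 0 t : ℂ) := by
      exact_mod_cast h3
    linear_combination (F (z + τ t) * (starRingEnd ℂ) (F z)) * h4
  constructor
  · have := h1.of_norm.prod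
    refine this.congr fun t => ?_
    exact e1 t
  · rw [tsum_congr e1] at h2
    exact h2

/-- the linear phase disappears -/
lemma GS_DT_ee (A : Matrix ι ι ℝ) (c η : ι → ℝ) (F : (ι → ℤ) → ℂ) (t : ι → ℤ) :
    ‖GS A c (DT τ (fun z => ee η z * F z) t)‖ = ‖GS A c (DT τ F t)‖ := by
  have e1 : GS A c (DT τ (fun z => ee η z * F z) t) = ee η (τ t) * GS A c (DT τ F t) := by
    unfold GS DT
    rw [← tsum_mul_left]
    refine tsum_congr fun z => ?_
    have h1 : ee η z * (starRingEnd ℂ) (ee η z) = 1 := by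
      rw [Complex.mul_conj', ee_norm]; norm_num
    beta_reduce
    rw [ee_add, map_mul]
    linear_combination ((gs A c z : ℂ) * (ee η (τ t) * F (z + τ t) * (starRingEnd ℂ) (F z))) * h1
  rw [e1, norm_mul, ee_norm, one_mul]

/-- the sum over the nonzero vectors -/
theorem nz_sum [Nonempty ι] {B : ℝ} (hB0 : 0 ≤ B) : ∃ C : ℝ, 0 < C ∧ ∀ A : Matrix ι ι ℝ,
    A.det ≠ 0 → CB B A → ∑' z, (if z = 0 then 0 else gs A 0 z) ≤ C * Mv A := by
  obtain ⟨C, hC0, hC⟩ := tail (ι := ι) B 1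
  refine ⟨C + 2 * B, by positivity, fun A hA hB => ?_⟩
  have hM := Mv_pos hA
  have hs := gs_summable hA (0 : ι → ℝ)
  have hs2 : Summable fun z : ι → ℤ => (if z = 0 then 0 else gs A 0 z) := by
    refine Summable.of_nonneg_of_le (fun z => ?_) (fun z => ?_) hs
    · split_ifs
      · exact le_rfl
      · exact (gs_pos _ _ _).le
    · split_ifs
      · exact (gs_pos _ _ _).le
      · exact le_rfl
  rcases le_total (Mv A) 1 with h1 | h1
  · have h2 := hC A hA hB h1 (fun z => if z = 0 then 0 else 1) (by simp) (fun z => by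
      beta_reduce
      split_ifs <;> simp)
    have e1 : GS A 0 (fun z : ι → ℤ => if z = 0 then (0 : ℂ) else 1) =
        ((∑' z, (if z = 0 then 0 else gs A 0 z) : ℝ) : ℂ) := by
      unfold GS
      rw [Complex.ofReal_tsum]
      refine tsum_congr fun z => ?_
      beta_reduce
      by_cases hz : z = 0
      · rw [if_pos hz, if_pos hz, mul_zero, Complex.ofReal_zero]
      · rw [if_neg hz, if_neg hz, mul_one]
    have h3 : 0 ≤ ∑' z, (if z = 0 then 0 else gs A 0 z) := tsum_nonneg fun z => by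
      split_ifs
      · exact le_rfl
      · exact (gs_pos _ _ _).le
    rw [e1, Complex.norm_real, Real.norm_of_nonneg h3, pow_one] at h2
    have : 0 ≤ B * Mv A := by positivity
    linarith
  · have h2 := hB.one 0
    have h3 : ∑' z, (if z = 0 then 0 else gs A 0 z) ≤ ∑' z, gs A 0 z := by
      refine hs2.tsum_le_tsum (fun z => ?_) hs
      split_ifs
      · exact (gs_pos _ _ _).le
      · exact le_rfl
    have h4 : B * (1 + Mv A) ≤ 2 * B * Mv A := by nlinarith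
    have : 0 ≤ C * Mv A := by positivity
    linarith

/-- decay for large `M` -/
theorem tail_c [Nonempty ι] (B : ℝ) (N : ℕ) : ∃ C : ℝ, 0 < C ∧ ∀ (Qt : Type) [Fintype Qt]
    [DecidableEq Qt] (cls : (ι → ℤ) → Qt) (τ : (ι → ℤ) → (ι → ℤ)) (rep : Qt → (ι → ℤ))
    (A A3 : Matrix ι ι ℝ) (g : (ι → ℤ) → ℂ) (k : ℝ), SubL cls τ → (∀ k, cls (rep k) = k) →
    A.det ≠ 0 → A3.det ≠ 0 → (∀ t, A.mulVec (cz (τ t)) = A3.mulVec (cz t)) → CB B A3 →
    (∀ z, ‖g z‖ ≤ 1) → (∀ z t, g (z + τ t) = g z) →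
    (∀ y, ‖∑ k, g (rep k) * lamS A A3 y (rep k)‖ ≤ k) → (∑ k, g (rep k) = 0) → 1 ≤ Mv A3 →
    ∀ ξ : EuclideanSpace ℝ ι, ‖GS A 0 (fun z => ee (A.transpose.mulVec ξ.ofLp) z * g z)‖ ≤
      C * (1 + ‖ξ‖) ^ (2 * (Fintype.card ι * N)) * (k * Mv A3 * ((Mv A3)⁻¹) ^ (2 * N)) := by
  set n := Fintype.card ι with hn
  have hn1 : 1 ≤ n := Fintype.card_pos
  set κ := Real.exp (-(2 * Real.pi)) / (4 * B ^ 2) with hκ
  obtain ⟨Cg, hCg0, hCg⟩ := gauss_decay (n * N)
  set C := Cg * ((κ⁻¹) ^ (n * N)) * ((|B| + 1) * (1 + √2 ^ n)) with hC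
  by_cases hB0 : B = 0
  · refine ⟨1, one_pos, fun Qt _ _ cls τ rep A A3 g k h hrep hA hA3 hτ hB hg1 hg hk hk0 hM ξ => ?_⟩
    exfalso
    have h1 := (gs_summable hA3 (0 : ι → ℝ)).le_tsum 0 (fun z _ => (gs_pos _ _ _).le)
    have h2 := hB.one 0
    rw [gs_zero] at h1
    rw [hB0, zero_mul] at h2
    linarith
  have hκ0 : 0 < κ := by positivity
  have hC0 : 0 < C := by positivity
  refine ⟨C, hC0, fun Qt _ _ cls τ rep A A3 g k h hrep hA hA3 hτ hB hg1 hg hk hk0 hM ξ => ?_⟩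
  have hk00 : 0 ≤ k := (norm_nonneg _).trans (hk 0)
  have hMA := Mv_pos hA3
  set A2 := du A3 with hA2
  have hA2d : A2.det ≠ 0 := du_det_ne hA3
  have hMA2 : Mv A2 = (Mv A3)⁻¹ := Mv_du A3
  have hMA2p := Mv_pos hA2d
  have hMA21 : Mv A2 ≤ 1 := by rw [hMA2]; exact inv_le_one_of_one_le₀ hM
  have hB2 : CB B A2 := hB.du hA3
  have hBn := hB.nonneg
  set c' := xiS A A3 (A.transpose.mulVec ξ.ofLp) with hc'
  set m := Mv A2 ^ ((n : ℝ)⁻¹) with hm
  have hm0 : 0 < m := Real.rpow_pos_of_pos hMA2p _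
  have hmM : m ^ n = Mv A2 := by
    rw [hm, ← Real.rpow_natCast, ← Real.rpow_mul hMA2p.le, inv_mul_cancel₀ (by positivity),
      Real.rpow_one]
  set r := ‖ξ‖ with hr
  have hr0 : 0 ≤ r := norm_nonneg _
  have hdc : A2.mulVec c' = ξ.ofLp := by
    rw [hc', hA2]
    unfold xiS du
    have e1 : (A⁻¹)ᵀ.mulVec (Aᵀ.mulVec ξ.ofLp) = ξ.ofLp := by
      rw [Matrix.mulVec_mulVec, ← Matrix.transpose_mul,
        Matrix.mul_nonsing_inv _ (isUnit_iff_ne_zero.2 hA), Matrix.transpose_one, Matrix.one_mulVec]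
    rw [e1, Matrix.mulVec_mulVec, ← Matrix.transpose_mul,
      Matrix.mul_nonsing_inv _ (isUnit_iff_ne_zero.2 hA3), Matrix.transpose_one, Matrix.one_mulVec]
  -- the pointwise bound
  set X := Cg * ((κ⁻¹) ^ (n * N)) * (1 + r) ^ (2 * (n * N)) * (m ^ 2) ^ (n * N) with hX
  have hX0 : 0 ≤ X := by positivity
  set S : (ι → ℤ) → ℝ := fun y => ‖∑ k, g (rep k) * lamS A A3 y (rep k)‖ with hS
  have hS0 : S 0 = 0 := by
    simp only [hS]
    rw [norm_eq_zero, ← hk0]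
    refine sum_congr rfl fun k _ => ?_
    rw [lamS_zero, mul_one]
  have hpt : ∀ y, gs A2 c' y * S y ≤ (X * k) * gs ((√2)⁻¹ • A2) c' y := by
    intro y
    by_cases hy : y = 0
    · rw [hy, hS0, mul_zero]
      exact mul_nonneg (by positivity) (gs_pos _ _ _).le
    · have hsep := sep hA2d hB2 hy hm0 (by rw [← hn]; exact hmM)
      rw [← hκ] at hsep
      set w : EuclideanSpace ℝ ι := vc A2 y with hw
      have hwn : ‖w‖ ^ 2 = q A2 (cz y) := vc_norm _ _
      have hvec : A2.mulVec (cz y - c') = (w - ξ).ofLp := by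
        rw [Matrix.mulVec_sub, hdc]
        rfl
      have hq : q A2 (cz y - c') = ‖w - ξ‖ ^ 2 := by
        unfold q
        rw [hvec, EuclideanSpace.norm_sq_eq]
        refine sum_congr rfl fun i _ => ?_
        rw [Real.norm_eq_abs, sq_abs]
      set a := ‖w - ξ‖ with ha
      have ha0 : 0 ≤ a := norm_nonneg _
      have hwar : ‖w‖ ≤ (1 + a) * (1 + r) := by
        have h1 : ‖w‖ ≤ a + r := by
          have : w = (w - ξ) + ξ := by abel
          calc ‖w‖ = ‖(w - ξ) + ξ‖ := by rw [← this]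
            _ ≤ _ := norm_add_le _ _
        nlinarith
      have h5 : κ / m ^ 2 ≤ ((1 + a) * (1 + r)) ^ 2 := by
        calc κ / m ^ 2 ≤ q A2 (cz y) := hsep
          _ = ‖w‖ ^ 2 := hwn.symm
          _ ≤ _ := pow_le_pow_left₀ (norm_nonneg _) hwar 2
      have h6 : 1 ≤ κ⁻¹ * ((1 + r) ^ 2 * m ^ 2) * (1 + a) ^ 2 := by
        rw [div_le_iff₀ (by positivity)] at h5
        have : κ⁻¹ * κ ≤ κ⁻¹ * (((1 + a) * (1 + r)) ^ 2 * m ^ 2) :=
          mul_le_mul_of_nonneg_left h5 (by positivity)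
        rw [inv_mul_cancel₀ hκ0.ne'] at this
        calc (1 : ℝ) ≤ _ := this
          _ = _ := by ring
      have h7 : 1 ≤ (κ⁻¹) ^ (n * N) * (1 + r) ^ (2 * (n * N)) * (m ^ 2) ^ (n * N) *
          (1 + a) ^ (2 * (n * N)) := by
        calc (1 : ℝ) ≤ (κ⁻¹ * ((1 + r) ^ 2 * m ^ 2) * (1 + a) ^ 2) ^ (n * N) := one_le_pow₀ h6
          _ = _ := by
              rw [mul_pow, mul_pow, mul_pow, pow_mul (1 + r) 2 (n * N),
                pow_mul (1 + a) 2 (n * N)]
              ring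
      have h8 : gs A2 c' y = Real.exp (-(Real.pi / 2 * a ^ 2)) * gs ((√2)⁻¹ • A2) c' y := by
        unfold gs
        rw [q_smul, hq, inv_pow, Real.sq_sqrt (by norm_num), ← Real.exp_add]
        congr 1
        ring
      have h9 : Real.exp (-(Real.pi / 2 * a ^ 2)) ≤ X := by
        calc Real.exp (-(Real.pi / 2 * a ^ 2)) ≤ Real.exp (-(Real.pi / 2 * a ^ 2)) *
              ((κ⁻¹) ^ (n * N) * (1 + r) ^ (2 * (n * N)) * (m ^ 2) ^ (n * N) *
              (1 + a) ^ (2 * (n * N))) := le_mul_of_one_le_right (Real.exp_pos _).le h7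
          _ = (Real.exp (-(Real.pi / 2 * a ^ 2)) * (1 + a) ^ (2 * (n * N))) *
              ((κ⁻¹) ^ (n * N) * (1 + r) ^ (2 * (n * N)) * (m ^ 2) ^ (n * N)) := by ring
          _ ≤ Cg * ((κ⁻¹) ^ (n * N) * (1 + r) ^ (2 * (n * N)) * (m ^ 2) ^ (n * N)) :=
              mul_le_mul_of_nonneg_right (hCg a ha0) (by positivity)
          _ = X := by rw [hX]; ring
      have hg0 := (gs_pos ((√2)⁻¹ • A2) c' y).le
      calc gs A2 c' y * S y ≤ (X * gs ((√2)⁻¹ • A2) c' y) * k := by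
            rw [h8]
            exact mul_le_mul (mul_le_mul_of_nonneg_right h9 hg0) (hk y) (norm_nonneg _)
              (by positivity)
        _ = _ := by ring
  obtain ⟨hsy, hco⟩ := h.complete hrep hA hA3 hτ hg1 hg 0 (A.transpose.mulVec ξ.ofLp)
  have hA4 : ((√2)⁻¹ • A2).det ≠ 0 := smul_det_ne (by positivity) hA2d
  have h1 : ∑' y, gs (du A3) (xiS A A3 (A.transpose.mulVec ξ.ofLp)) y * S y ≤
      (X * k) * (B * (1 + √2 ^ n)) := by
    rw [← hA2, ← hc']
    refine (hsy.tsum_le_tsum (fun y => hpt y) ((gs_summable hA4 c').mul_left (X * k))).trans ?_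
    rw [tsum_mul_left]
    refine mul_le_mul_of_nonneg_left ?_ (by positivity)
    refine (hB2 _ (by positivity) c').trans ?_
    rw [Mv_smul (by positivity), inv_pow, div_inv_eq_mul, ← hn]
    refine mul_le_mul_of_nonneg_left ?_ hBn
    have : 0 ≤ √2 ^ n := by positivity
    have : Mv A2 * √2 ^ n ≤ 1 * √2 ^ n := mul_le_mul_of_nonneg_right hMA21 this
    linarith
  have hmN : (m ^ 2) ^ (n * N) = ((Mv A3)⁻¹) ^ (2 * N) := by
    rw [← pow_mul, ← hMA2, ← hmM, ← pow_mul]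
    congr 1
    ring
  refine hco.trans ((mul_le_mul_of_nonneg_left h1 hMA.le).trans ?_)
  rw [hX, hmN]
  calc Mv A3 * ((Cg * κ⁻¹ ^ (n * N) * (1 + r) ^ (2 * (n * N)) * ((Mv A3)⁻¹) ^ (2 * N)) * k *
        (B * (1 + √2 ^ n))) = (Cg * κ⁻¹ ^ (n * N) * (B * (1 + √2 ^ n))) *
        (1 + r) ^ (2 * (n * N)) * (k * Mv A3 * ((Mv A3)⁻¹) ^ (2 * N)) := by ring
    _ ≤ C * (1 + r) ^ (2 * (n * N)) * (k * Mv A3 * ((Mv A3)⁻¹) ^ (2 * N)) := by
        refine mul_le_mul_of_nonneg_right ?_ (by positivity)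
        refine mul_le_mul_of_nonneg_right ?_ (by positivity)
        rw [hC]
        refine mul_le_mul_of_nonneg_left ?_ (by positivity)
        refine mul_le_mul_of_nonneg_right ?_ (by positivity)
        linarith [le_abs_self B]

end Pool.Agent.T2H29.SW
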