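import Pool.Agent.T2H29.SW.B5

/-!
# Sublattices given by ideals
-/

set_option autoImplicit false
set_option linter.unusedSectionVars false

namespace Pool.Agent.T2H29.SW

open Finset NumberField NumberField.InfinitePlace Module MeasureTheory NumberField.Units

variable {K : Type} [Field K] [NumberField K]

section
variable {I I2 : Ideal (𝓞 K)}

/-- coordinates -/
noncomputable def crd (b : Basis (Fin (dg K)) ℤ I) (α : I) : Fin (dg K) → ℤ := b.equivFun α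

lemma el_crd (b : Basis (Fin (dg K)) ℤ I) (α : I) : el b (crd b α) = α := by
  rw [el_eq, crd, LinearEquiv.symm_apply_apply]

lemma el_inj (b : Basis (Fin (dg K)) ℤ I) : Function.Injective (el b) := by
  intro z w h
  rw [el_eq, el_eq] at h
  exact b.equivFun.symm.injective (Subtype.ext h)

lemma el_addd (b : Basis (Fin (dg K)) ℤ I) (z w : Fin (dg K) → ℤ) :
    el b (z + w) = el b z + el b w := by
  rw [el_eq, el_eq, el_eq, map_add]
  rfl

/-- the inclusion of a sublattice, in coordinates -/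
noncomputable def tauI (b : Basis (Fin (dg K)) ℤ I) (b2 : Basis (Fin (dg K)) ℤ I2) (hle : I2 ≤ I)
    (t : Fin (dg K) → ℤ) : Fin (dg K) → ℤ := crd b ⟨el b2 t, hle (el_mem b2 t)⟩

lemma el_tauI (b : Basis (Fin (dg K)) ℤ I) (b2 : Basis (Fin (dg K)) ℤ I2) (hle : I2 ≤ I)
    (t : Fin (dg K) → ℤ) : el b (tauI b b2 hle t) = el b2 t := by
  unfold tauI
  rw [el_crd]

/-- the classes -/
noncomputable def clsI (c : Ideal (𝓞 K)) (b : Basis (Fin (dg K)) ℤ I) (z : Fin (dg K) → ℤ) :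
    𝓞 K ⧸ c := Ideal.Quotient.mk c (el b z)

lemma tauI_inj (b : Basis (Fin (dg K)) ℤ I) (b2 : Basis (Fin (dg K)) ℤ I2) (hle : I2 ≤ I) :
    Function.Injective (tauI b b2 hle) := by
  intro t t' h
  apply el_inj b2
  rw [← el_tauI b b2 hle, ← el_tauI b b2 hle, h]

lemma subLI (b : Basis (Fin (dg K)) ℤ I) {c : Ideal (𝓞 K)} (hc : IsCoprime I c)
    (b2 : Basis (Fin (dg K)) ℤ I2) (h2 : I2 = I * c) (hle : I2 ≤ I) :
    SubL (clsI c b) (tauI b b2 hle) := by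
  refine ⟨tauI_inj b b2 hle, fun z w => ?_⟩
  unfold clsI
  rw [Ideal.Quotient.mk_eq_mk_iff_sub_mem]
  constructor
  · intro h
    have h1 : el b z - el b w ∈ I2 := by
      rw [h2, ← Ideal.inf_eq_mul_of_isCoprime hc]
      exact ⟨sub_mem (el_mem b z) (el_mem b w), h⟩
    refine ⟨crd b2 ⟨_, h1⟩, ?_⟩
    apply el_inj b
    rw [el_addd, el_tauI, el_crd]
    ring
  · rintro ⟨t, rfl⟩
    rw [el_addd, el_tauI, add_sub_cancel_left]
    have h3 : I2 ≤ c := by rw [h2]; exact Ideal.mul_le_right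
    exact h3 (el_mem b2 t)

lemma AX_tau (b : Basis (Fin (dg K)) ℤ I) (b2 : Basis (Fin (dg K)) ℤ I2) (hle : I2 ≤ I) (x : LS K)
    (t : Fin (dg K) → ℤ) : (AX b x).mulVec (cz (tauI b b2 hle t)) = (AX b2 x).mulVec (cz t) := by
  funext i
  unfold AX
  rw [MX_mulVec, MX_mulVec, el_tauI]

lemma mm_mul (hI : I ≠ ⊥) {c : Ideal (𝓞 K)} (hc : c ≠ ⊥) (t : ℝ) :
    mm (I * c) t = mm I t / Ideal.absNorm c := by
  unfold mm
  rw [map_mul, Nat.cast_mul, ← mul_assoc, div_div]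

lemma exists_bas (I : Ideal (𝓞 K)) (hI : I ≠ ⊥) : Nonempty (Basis (Fin (dg K)) ℤ I) :=
  ⟨Ideal.selfBasis (bO K) I hI⟩

end

variable (K)

/-- ideal lattices are balanced -/
theorem exists_CBI : ∃ B : ℝ, 1 ≤ B ∧ ∀ I : Ideal (𝓞 K), I ≠ ⊥ →
    ∀ (b : Basis (Fin (dg K)) ℤ I) (x : LS K), CB B (AX b x) := by
  obtain ⟨B, hB1, hB⟩ := exists_BalV K
  refine ⟨B, hB1, fun I hI b x => ?_⟩
  have h := hB Empty (fun j => j.elim) 2 (fun j => j.elim) (fun j => j.elim)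
    ⟨Nat.prime_two, fun j => j.elim, fun j => j.elim, fun j => j.elim⟩ (fun j => j.elim) I hI
    (fun j => j.elim) b (fun j => j.elim) (fun j => j.elim) (fun j => j.elim) (fun j => j.elim) x
  exact h.zero

variable {K}

section
variable {I : Ideal (𝓞 K)}

/-- an idempotent-like element -/
lemma exists_e0 {m : Ideal (𝓞 K)} (hc : IsCoprime I m) : ∃ e0 ∈ I, e0 - 1 ∈ m := by
  obtain ⟨x, hx, y, hy, hxy⟩ := Ideal.isCoprime_iff_exists.1 hc
  refine ⟨x, hx, ?_⟩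
  have : x - 1 = -y := by rw [← hxy]; ring
  rw [this]
  exact neg_mem hy

/-- the character of the ring of integers -/
noncomputable def lI (b : Basis (Fin (dg K)) ℤ I) (e0 : I) (lam : (Fin (dg K) → ℤ) → ℂ)
    (x : 𝓞 K) : ℂ := lam (crd b (x • e0))

lemma lI_AC (b : Basis (Fin (dg K)) ℤ I) {m : Ideal (𝓞 K)} (hc : IsCoprime I m) {e0 : I}
    {I2 : Ideal (𝓞 K)} (b2 : Basis (Fin (dg K)) ℤ I2)
    (h2 : I2 = I * m) (hle : I2 ≤ I) {lam : (Fin (dg K) → ℤ) → ℂ}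
    (h1 : ∀ z w, lam (z + w) = lam z * lam w) (hn : ∀ z, ‖lam z‖ = 1)
    (ht : ∀ t, lam (tauI b b2 hle t) = 1) : AC m (lI b e0 lam) where
  add x y := by
    unfold lI
    rw [← h1]
    congr 1
    unfold crd
    rw [add_smul, map_add]
  norm x := hn _
  triv x hx := by
    unfold lI
    have h3 : ((x • e0 : I) : 𝓞 K) ∈ I2 := by
      rw [h2, ← Ideal.inf_eq_mul_of_isCoprime hc]
      refine ⟨(x • e0).2, ?_⟩
      show x * (e0 : 𝓞 K) ∈ m
      exact Ideal.mul_mem_right _ _ hx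
    have h4 : crd b (x • e0) = tauI b b2 hle (crd b2 ⟨_, h3⟩) := by
      apply el_inj b
      rw [el_crd, el_tauI, el_crd]
    rw [h4, ht]

/-- representatives -/
noncomputable def repI (m : Ideal (𝓞 K)) (b : Basis (Fin (dg K)) ℤ I) (e0 : I) (k : 𝓞 K ⧸ m) :
    Fin (dg K) → ℤ := crd b ((Quotient.out k : 𝓞 K) • e0)

lemma el_repI (m : Ideal (𝓞 K)) (b : Basis (Fin (dg K)) ℤ I) (e0 : I) (k : 𝓞 K ⧸ m) :
    el b (repI m b e0 k) = Quotient.out k * e0 := by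
  unfold repI
  rw [el_crd]
  rfl

lemma repI_sub {m : Ideal (𝓞 K)} (b : Basis (Fin (dg K)) ℤ I) {e0 : I} (he : (e0 : 𝓞 K) - 1 ∈ m)
    (k : 𝓞 K ⧸ m) : el b (repI m b e0 k) - Quotient.out k ∈ m := by
  rw [el_repI]
  have : (Quotient.out k : 𝓞 K) * e0 - Quotient.out k = Quotient.out k * ((e0 : 𝓞 K) - 1) := by ring
  rw [this]
  exact Ideal.mul_mem_left _ _ he

lemma cls_repI {m : Ideal (𝓞 K)} (b : Basis (Fin (dg K)) ℤ I) {e0 : I} (he : (e0 : 𝓞 K) - 1 ∈ m)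
    (k : 𝓞 K ⧸ m) : clsI m b (repI m b e0 k) = k := by
  unfold clsI
  have h := (Ideal.Quotient.mk_eq_mk_iff_sub_mem _ _).2 (repI_sub b he k)
  rw [h, mk_out]

/-- the complete sums -/
lemma sum_repI {m : Ideal (𝓞 K)} [Fintype (𝓞 K ⧸ m)] (b : Basis (Fin (dg K)) ℤ I) {e0 : I}
    (he : (e0 : 𝓞 K) - 1 ∈ m) {g : 𝓞 K → ℂ} (hg : PerO m g) (lam : (Fin (dg K) → ℤ) → ℂ) :
    ∑ k : 𝓞 K ⧸ m, g (el b (repI m b e0 k)) * lam (repI m b e0 k) =
      sQ m (fun x => g x * lI b e0 lam x) := by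
  unfold sQ
  refine sum_congr rfl fun k _ => ?_
  beta_reduce
  rw [hg _ _ (repI_sub b he k)]
  rfl

end

end Pool.Agent.T2H29.SW
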