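import Pool.Agent.T2H29.SW.B6

/-!
# The core bounds for ideal lattices
-/

set_option autoImplicit false
set_option linter.unusedSectionVars false

namespace Pool.Agent.T2H29.SW

open Finset NumberField NumberField.InfinitePlace Module MeasureTheory NumberField.Units

section
variable {ι : Type} [Fintype ι] [DecidableEq ι]

/-- sums over subsets -/
lemma sub_sum {P : Set (ι → ℤ)} {A2 Ad : Matrix ι ι ℝ} {φ : (ι → ℤ) → (ι → ℤ)}
    (hinj : ∀ t ∈ P, ∀ t' ∈ P, φ t = φ t' → t = t') (h0 : ∀ t ∈ P, φ t ≠ 0)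
    (hq : ∀ t ∈ P, A2.mulVec (cz t) = Ad.mulVec (cz (φ t))) (hAd : Ad.det ≠ 0) {s : ℝ}
    (hs : s ≠ 0) :
    (Summable fun t => P.indicator (gs (s • A2) 0) t) ∧
      ∑' t, P.indicator (gs (s • A2) 0) t ≤ ∑' z, (if z = 0 then 0 else gs (s • Ad) 0 z) := by
  classical
  set g' : (ι → ℤ) → ℝ := fun z => if z = 0 then 0 else gs (s • Ad) 0 z with hg'
  have hg'0 : ∀ z, 0 ≤ g' z := by
    intro z
    simp only [hg']
    split_ifs
    · exact le_rfl
    · exact (gs_pos _ _ _).le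
  have hs2 : Summable g' := by
    refine Summable.of_nonneg_of_le hg'0 (fun z => ?_) (gs_summable (smul_det_ne hs hAd) 0)
    simp only [hg']
    split_ifs
    · exact (gs_pos _ _ _).le
    · exact le_rfl
  have hnn : ∀ t, 0 ≤ P.indicator (gs (s • A2) 0) t := fun t =>
    Set.indicator_nonneg (fun t _ => (gs_pos _ _ _).le) t
  have hbd : ∀ S : Finset (ι → ℤ), ∑ t ∈ S, P.indicator (gs (s • A2) 0) t ≤ ∑' z, g' z := by
    intro S
    have e0 : ∑ t ∈ S, P.indicator (gs (s • A2) 0) t = ∑ t ∈ S.filter (· ∈ P), gs (s • A2) 0 t := by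
      rw [sum_filter]
      refine sum_congr rfl fun t _ => ?_
      rw [Set.indicator_apply]
    rw [e0]
    have e1 : ∀ t ∈ S.filter (· ∈ P), gs (s • A2) 0 t = g' (φ t) := by
      intro t ht
      have hP := (mem_filter.1 ht).2
      simp only [hg']
      rw [if_neg (h0 t hP)]
      unfold gs
      rw [sub_zero, sub_zero, q_smul, q_smul]
      unfold q
      rw [hq t hP]
    rw [sum_congr rfl e1]
    have e2 : ∑ t ∈ S.filter (· ∈ P), g' (φ t) = ∑ z ∈ (S.filter (· ∈ P)).image φ, g' z := by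
      rw [sum_image]
      intro t ht t' ht' h
      exact hinj t (mem_filter.1 ht).2 t' (mem_filter.1 ht').2 h
    rw [e2]
    exact hs2.sum_le_tsum _ fun z _ => hg'0 z
  exact ⟨summable_of_sum_le hnn hbd, Real.tsum_le_of_sum_le hnn hbd⟩

end

variable {K : Type} [Field K] [NumberField K]

/-- the constant of the field -/
def CBI (K : Type) [Field K] [NumberField K] (B : ℝ) : Prop := ∀ I : Ideal (𝓞 K), I ≠ ⊥ →
    ∀ (b : Basis (Fin (dg K)) ℤ I) (x : LS K), CB B (AX b x)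

/-- completion -/
theorem compI {B : ℝ} (hB : CBI K B) {I m : Ideal (𝓞 K)} (hI : I ≠ ⊥) (hm : m ≠ ⊥)
    (hc : IsCoprime I m) (b : Basis (Fin (dg K)) ℤ I) [Fintype (𝓞 K ⧸ m)] {g : 𝓞 K → ℂ}
    (hg1 : ∀ x, ‖g x‖ ≤ 1) (hg : PerO m g) {k : ℝ}
    (hk : ∀ l, AC m l → ‖sQ m (fun x => g x * l x)‖ ≤ k) (x : LS K) {s : ℝ} (hs : 1 ≤ s)
    (c η : Fin (dg K) → ℝ) :
    ‖GS (s • AX b x) c (fun z => ee η z * g (el b z))‖ ≤
      k * (B * (1 + mm I x.2 / Ideal.absNorm m)) := by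
  classical
  have hIm : I * m ≠ ⊥ := by
    intro h
    rcases Ideal.mul_eq_bot.1 h with h1 | h1
    · exact hI h1
    · exact hm h1
  obtain ⟨b2⟩ := exists_bas (I * m) hIm
  have hle : I * m ≤ I := Ideal.mul_le_left
  obtain ⟨e0, he0, he1⟩ := exists_e0 hc
  have hs0 : 0 < s := by linarith
  have hsub := subLI b hc b2 rfl hle
  have hA : (s • AX b x).det ≠ 0 := smul_det_ne hs0.ne' (det_AX_ne hI b x)
  have hA3 : (s • AX b2 x).det ≠ 0 := smul_det_ne hs0.ne' (det_AX_ne hIm b2 x)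
  have hτ : ∀ t, (s • AX b x).mulVec (cz (tauI b b2 hle t)) = (s • AX b2 x).mulVec (cz t) := by
    intro t
    rw [Matrix.smul_mulVec, Matrix.smul_mulVec, AX_tau]
  have hper : ∀ z t, g (el b (z + tauI b b2 hle t)) = g (el b z) := by
    intro z t
    refine hg _ _ ?_
    rw [el_addd, el_tauI, add_sub_cancel_left]
    exact Ideal.mul_le_right (el_mem b2 t)
  obtain ⟨hsm, hco⟩ := hsub.complete (rep := repI m b ⟨e0, he0⟩) (cls_repI b he1) hA hA3 hτ
    (g := fun z => g (el b z)) (fun z => hg1 _) hper c η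
  have hS : ∀ y, ‖∑ k : 𝓞 K ⧸ m, g (el b (repI m b ⟨e0, he0⟩ k)) *
      lamS (s • AX b x) (s • AX b2 x) y (repI m b ⟨e0, he0⟩ k)‖ ≤ k := by
    intro y
    rw [sum_repI b he1 hg]
    exact hk _ (lI_AC b hc b2 rfl hle (lamS_add _ _ y) (lamS_norm _ _ y)
      (fun t => lamS_tau hA3 hτ y t))
  have hk0 : 0 ≤ k := (norm_nonneg _).trans (hS 0)
  have hdu := du_det_ne hA3
  have hMp := Mv_pos hA3
  have hCB3 : CB B (s • AX b2 x) := (hB _ hIm b2 x).smul hs0
  have h1 := (hCB3.du hA3).one (xiS (s • AX b x) (s • AX b2 x) η)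
  rw [Mv_du] at h1
  have hMle : Mv (s • AX b2 x) ≤ mm I x.2 / Ideal.absNorm m := by
    rw [Mv_smul hs0, Mv_AX, mm_mul hI hm]
    refine div_le_self ?_ (one_le_pow₀ hs)
    have := mm_pos hI x.2
    positivity
  refine hco.trans ?_
  calc Mv (s • AX b2 x) * ∑' y, gs (du (s • AX b2 x)) (xiS (s • AX b x) (s • AX b2 x) η) y *
        ‖∑ k : 𝓞 K ⧸ m, g (el b (repI m b ⟨e0, he0⟩ k)) *
          lamS (s • AX b x) (s • AX b2 x) y (repI m b ⟨e0, he0⟩ k)‖ ≤
        Mv (s • AX b2 x) * ((B * (1 + (Mv (s • AX b2 x))⁻¹)) * k) := by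
        refine mul_le_mul_of_nonneg_left ?_ hMp.le
        refine (hsm.tsum_le_tsum (fun y => mul_le_mul_of_nonneg_left (hS y) (gs_pos _ _ _).le)
          ((gs_summable hdu _).mul_right k)).trans ?_
        rw [tsum_mul_right]
        exact mul_le_mul_of_nonneg_right h1 hk0
    _ = k * (B * (1 + Mv (s • AX b2 x))) := by field_simp; ring
    _ ≤ _ := by
        refine mul_le_mul_of_nonneg_left ?_ hk0
        exact mul_le_mul_of_nonneg_left (by linarith) hCB3.nonneg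

lemma PM.sum_zero {m : Ideal (𝓞 K)} [Fintype (𝓞 K ⧸ m)] {F : 𝓞 K → ℂ} (hF : PM m F)
    (hm : m ≠ ⊤) : sQ m F = 0 := by
  obtain ⟨α, -, hα2, hα3⟩ := hF.prim ⊤ (lt_top_iff_ne_top.2 hm)
  obtain ⟨γ, hγ⟩ := cop_inv hα2
  have hgp : PerO m F := fun x y hxy => hF.per x y hxy
  have h2 := sQ_mul hgp hγ
  have h3 : sQ m (fun x => F (α * x)) = F α * sQ m F := by
    unfold sQ
    rw [mul_sum]
    exact sum_congr rfl fun c _ => hF.mul _ _
  rw [h3] at h2
  have h4 : (F α - 1) * sQ m F = 0 := by rw [sub_mul, h2, one_mul, sub_self]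
  rcases mul_eq_zero.1 h4 with h5 | h5
  · exact absurd (sub_eq_zero.1 h5) hα3
  · exact h5

/-- decay -/
theorem tailI {B : ℝ} (hB : CBI K B) (N : ℕ) : ∃ C : ℝ, 0 < C ∧ ∀ (I m : Ideal (𝓞 K))
    (b : Basis (Fin (dg K)) ℤ I) (F : 𝓞 K → ℂ) (x : LS K), I ≠ ⊥ → m ≠ ⊥ → m ≠ ⊤ → IsCoprime I m →
    PM m F → (Ideal.absNorm m : ℝ) ≤ mm I x.2 → ∀ ξ : EuclideanSpace ℝ (Fin (dg K)),
    ‖GS (AX b x) 0 (fun z => ee ((AX b x).transpose.mulVec ξ.ofLp) z * F (el b z))‖ ≤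
      C * (1 + ‖ξ‖) ^ (2 * (dg K * N)) * (mm I x.2 / √(Ideal.absNorm m) *
        (Ideal.absNorm m / mm I x.2) ^ (2 * N)) := by
  classical
  haveI : Nonempty (Fin (dg K)) := ⟨0⟩
  obtain ⟨C, hC0, hC⟩ := tail_c (ι := Fin (dg K)) B N
  refine ⟨C, hC0, fun I m b F x hI hm hmt hc hF hM ξ => ?_⟩
  haveI : Finite (𝓞 K ⧸ m) := Ideal.finiteQuotientOfFreeOfNeBot m hm
  haveI : Fintype (𝓞 K ⧸ m) := Fintype.ofFinite _
  have hcard : Ideal.absNorm m = Fintype.card (𝓞 K ⧸ m) := by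
    rw [Ideal.absNorm_apply, Submodule.cardQuot_apply, Nat.card_eq_fintype_card]
  have hIm : I * m ≠ ⊥ := by
    intro h
    rcases Ideal.mul_eq_bot.1 h with h1 | h1
    · exact hI h1
    · exact hm h1
  obtain ⟨b2⟩ := exists_bas (I * m) hIm
  have hle : I * m ≤ I := Ideal.mul_le_left
  obtain ⟨e0, he0, he1⟩ := exists_e0 hc
  have hsub := subLI b hc b2 rfl hle
  have hA := det_AX_ne hI b x
  have hA3 := det_AX_ne hIm b2 x
  have hτ := fun t => AX_tau b b2 hle x t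
  have hgp : PerO m F := fun x y hxy => hF.per x y hxy
  have hper : ∀ z t, F (el b (z + tauI b b2 hle t)) = F (el b z) := by
    intro z t
    refine hgp _ _ ?_
    rw [el_addd, el_tauI, add_sub_cancel_left]
    exact Ideal.mul_le_right (el_mem b2 t)
  have hQ0 := absNorm_pos' hm
  have hMM := mm_pos hI x.2
  have hM3 : Mv (AX b2 x) = mm I x.2 / Ideal.absNorm m := by rw [Mv_AX, mm_mul hI hm]
  have h1 := hC (𝓞 K ⧸ m) (clsI m b) (tauI b b2 hle) (repI m b ⟨e0, he0⟩) (AX b x) (AX b2 x)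
    (fun z => F (el b z)) (√(Ideal.absNorm m)) hsub (cls_repI b he1) hA hA3 hτ (hB _ hIm b2 x)
    (fun z => hF.le_one _) hper (fun y => ?_) ?_ ?_ ξ
  · rw [hM3, Fintype.card_fin] at h1
    refine h1.trans (le_of_eq ?_)
    congr 1
    rw [inv_div]
    have h2 : √(Ideal.absNorm m : ℝ) * √(Ideal.absNorm m : ℝ) = Ideal.absNorm m :=
      Real.mul_self_sqrt hQ0.le
    have h3 : 0 < √(Ideal.absNorm m : ℝ) := Real.sqrt_pos.2 hQ0
    have e1 : √(Ideal.absNorm m : ℝ) * (mm I x.2 / Ideal.absNorm m) =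
        mm I x.2 / √(Ideal.absNorm m : ℝ) := by
      rw [eq_div_iff h3.ne']
      calc √(Ideal.absNorm m : ℝ) * (mm I x.2 / Ideal.absNorm m) * √(Ideal.absNorm m : ℝ) =
          (√(Ideal.absNorm m : ℝ) * √(Ideal.absNorm m : ℝ)) * (mm I x.2 / Ideal.absNorm m) := by ring
        _ = mm I x.2 := by rw [h2]; field_simp
    rw [e1]
  · have h2 := sum_repI b (e0 := ⟨e0, he0⟩) he1 hgp (lamS (AX b x) (AX b2 x) y)
    rw [h2]
    refine Real.le_sqrt_of_sq_le ?_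
    rw [hcard]
    exact gauss hF (lI_AC b hc b2 rfl hle (lamS_add _ _ y) (lamS_norm _ _ y)
      (fun t => lamS_tau hA3 hτ y t))
  · rw [← hF.sum_zero hmt]
    unfold sQ
    exact sum_congr rfl fun k _ => hF.per _ _ (repI_sub b (e0 := ⟨e0, he0⟩) he1 k)
  · rw [hM3, le_div_iff₀ hQ0, one_mul]
    exact hM

/-- Pólya–Vinogradov -/
theorem pvI {B : ℝ} (hB : CBI K B) {I m : Ideal (𝓞 K)} (hI : I ≠ ⊥) (hm : m ≠ ⊥)
    (hc : IsCoprime I m) (b : Basis (Fin (dg K)) ℤ I) {F : 𝓞 K → ℂ} (hF : PM m F) (x : LS K)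
    (c η : Fin (dg K) → ℝ) : ‖GS (AX b x) c (fun z => ee η z * F (el b z))‖ ≤
      √(Ideal.absNorm m) * (B * (1 + mm I x.2 / Ideal.absNorm m)) := by
  classical
  haveI : Finite (𝓞 K ⧸ m) := Ideal.finiteQuotientOfFreeOfNeBot m hm
  haveI : Fintype (𝓞 K ⧸ m) := Fintype.ofFinite _
  have hcard : Ideal.absNorm m = Fintype.card (𝓞 K ⧸ m) := by
    rw [Ideal.absNorm_apply, Submodule.cardQuot_apply, Nat.card_eq_fintype_card]
  have h1 := compI hB hI hm hc b (g := F) hF.le_one (fun x y hxy => hF.per x y hxy)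
    (k := √(Ideal.absNorm m)) (fun l hl => by
      refine Real.le_sqrt_of_sq_le ?_
      rw [hcard]
      exact gauss hF hl) x (le_refl (1 : ℝ)) c η
  rwa [one_smul] at h1

end Pool.Agent.T2H29.SW
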