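import Pool.Agent.T2H29.SW.B7

/-!
# The core bound of Weyl quality
-/

set_option autoImplicit false
set_option linter.unusedSectionVars false

namespace Pool.Agent.T2H29.SW

open Finset NumberField NumberField.InfinitePlace Module MeasureTheory NumberField.Units

variable {K : Type} [Field K] [NumberField K]

/-- the shifts in a sublattice -/
def PS {I2 : Ideal (𝓞 K)} (b2 : Basis (Fin (dg K)) ℤ I2) (e : Ideal (𝓞 K)) :
    Set (Fin (dg K) → ℤ) := {t | t ≠ 0 ∧ el b2 t ∈ e}

lemma shift_sum {B C1 : ℝ} (hB : CBI K B) (hC1 : ∀ A : Matrix (Fin (dg K)) (Fin (dg K)) ℝ,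
    A.det ≠ 0 → CB B A → ∑' z, (if z = 0 then 0 else gs A 0 z) ≤ C1 * Mv A)
    {I I2 f e : Ideal (𝓞 K)} (hI : I ≠ ⊥) (hf : f ≠ ⊥) (he : e ≠ ⊥) (h1 : IsCoprime I (f * e))
    (h2 : IsCoprime f e) (hI2 : I2 ≤ I) (hf2 : I2 ≤ f) (b2 : Basis (Fin (dg K)) ℤ I2) (x : LS K) :
    (Summable fun t => (PS b2 e).indicator (gs ((√2)⁻¹ • AX b2 x) 0) t) ∧
    ∑' t, (PS b2 e).indicator (gs ((√2)⁻¹ • AX b2 x) 0) t ≤
      C1 * (√2 ^ (dg K) * (mm I x.2 / (Ideal.absNorm f * Ideal.absNorm e))) := by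
  classical
  have hfe : f * e ≠ ⊥ := by
    intro h
    rcases Ideal.mul_eq_bot.1 h with h1 | h1
    · exact hf h1
    · exact he h1
  have hId : I * (f * e) ≠ ⊥ := by
    intro h
    rcases Ideal.mul_eq_bot.1 h with h1 | h1
    · exact hI h1
    · exact hfe h1
  obtain ⟨bd⟩ := exists_bas (I * (f * e)) hId
  have hmem : ∀ t, el b2 t ∈ e → el b2 t ∈ I * (f * e) := by
    intro t ht
    rw [← Ideal.inf_eq_mul_of_isCoprime h1, ← Ideal.inf_eq_mul_of_isCoprime h2]
    exact ⟨hI2 (el_mem b2 t), hf2 (el_mem b2 t), ht⟩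
  set φ : (Fin (dg K) → ℤ) → (Fin (dg K) → ℤ) := fun t =>
    if h : el b2 t ∈ I * (f * e) then crd bd ⟨_, h⟩ else 0 with hφ
  have hel : ∀ t ∈ PS b2 e, el bd (φ t) = el b2 t := by
    intro t ht
    simp only [hφ]
    rw [dif_pos (hmem t ht.2), el_crd]
  have hs2 : ((√2)⁻¹ : ℝ) ≠ 0 := by positivity
  have hd := det_AX_ne hId bd x
  obtain ⟨g1, g2⟩ := sub_sum (P := PS b2 e) (A2 := AX b2 x) (Ad := AX bd x) (φ := φ)
    (fun t ht t' ht' h => by
      apply el_inj b2
      rw [← hel t ht, ← hel t' ht', h])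
    (fun t ht h => by
      have h3 := hel t ht
      rw [h, el_zero] at h3
      exact el_ne b2 ht.1 h3.symm)
    (fun t ht => by
      funext i
      unfold AX
      rw [MX_mulVec, MX_mulVec, hel t ht]) hd hs2
  refine ⟨g1, g2.trans ?_⟩
  refine (hC1 _ (smul_det_ne hs2 hd) ((hB _ hId bd x).smul (by positivity))).trans (le_of_eq ?_)
  rw [Mv_smul (by positivity), Mv_AX, mm_mul hI hfe, map_mul, Fintype.card_fin, inv_pow,
    div_inv_eq_mul]
  push_cast
  ring

/-- the core bound -/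
theorem coreI {B : ℝ} (hB1 : 1 ≤ B) (hB : CBI K B) : ∃ C : ℝ, 0 < C ∧
    ∀ (f a s s' I : Ideal (𝓞 K)) (F1 F2 : 𝓞 K → ℂ) (b : Basis (Fin (dg K)) ℤ I) (x : LS K)
    (c η : Fin (dg K) → ℝ), LC a s s' → f ≠ ⊥ → IsCoprime f (a * s * s') → I ≠ ⊥ →
    IsCoprime I (Ideal.span {(2 : 𝓞 K)} * (f * (a * s * s'))) → PM (a * s * s') F1 → PerO f F2 →
    (∀ x, ‖F2 x‖ ≤ 1) → mm I x.2 ≤ Ideal.absNorm (s * s') →
    ‖GS (AX b x) c (fun z => ee η z * (F2 (el b z) * F1 (el b z)))‖ ^ 2 ≤
      C * (tau s' : ℝ) ^ 2 * (Ideal.absNorm f * Ideal.absNorm a + Ideal.absNorm s) *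
        (1 + mm I x.2) := by
  classical
  haveI : Nonempty (Fin (dg K)) := ⟨0⟩
  obtain ⟨C1, hC10, hC1⟩ := nz_sum (ι := Fin (dg K)) (B := B) (by linarith)
  set w : ℝ := √2 ^ dg K with hw
  have hw0 : 0 < w := by positivity
  set N2 : ℝ := ((Ideal.absNorm (Ideal.span {(2 : 𝓞 K)}) : ℕ) : ℝ) with hN2
  have h20 : Ideal.span {(2 : 𝓞 K)} ≠ ⊥ := by
    rw [Ne, Ideal.span_singleton_eq_bot]
    exact two_ne_zero
  have hN20 : 0 < N2 := absNorm_pos' h20
  have hB0 : 0 < B := by linarith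
  refine ⟨N2 * B + 2 * B * N2 ^ 2 * C1 * w, by positivity,
    fun f a s s' I F1 F2 b x c η L hf hfc hI hIc hF1 hF2 hF2n hM => ?_⟩
  obtain ⟨ha0, hs0, hs'0⟩ := L.parts
  have hNf := absNorm_pos' hf
  have hNa := absNorm_pos' ha0
  have hNs := absNorm_pos' hs0
  have hMM := mm_pos hI x.2
  have hτ1 : (1 : ℝ) ≤ tau s' := by exact_mod_cast tau_pos hs'0
  set M := mm I x.2 with hMdef
  -- the modulus of the shifts
  set cc := Ideal.span {(2 : 𝓞 K)} * (f * a) with hcc
  have hfa : f * a ≠ ⊥ := by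
    intro h
    rcases Ideal.mul_eq_bot.1 h with h1 | h1
    · exact hf h1
    · exact ha0 h1
  have hcc0 : cc ≠ ⊥ := by
    intro h
    rcases Ideal.mul_eq_bot.1 h with h1 | h1
    · exact h20 h1
    · exact hfa h1
  have hccI : IsCoprime I cc := by
    have e1 : Ideal.span {(2 : 𝓞 K)} * (f * (a * s * s')) = cc * (s * s') := by rw [hcc]; ring
    rw [e1] at hIc
    exact IsCoprime.of_mul_right_left hIc
  have hbI : IsCoprime I (s * s') := by
    have e1 : Ideal.span {(2 : 𝓞 K)} * (f * (a * s * s')) = cc * (s * s') := by rw [hcc]; ring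
    rw [e1] at hIc
    exact IsCoprime.of_mul_right_right hIc
  have hbb0 : s * s' ≠ ⊥ := by
    intro h
    rcases Ideal.mul_eq_bot.1 h with h1 | h1
    · exact hs0 h1
    · exact hs'0 h1
  haveI : Finite (𝓞 K ⧸ cc) := Ideal.finiteQuotientOfFreeOfNeBot cc hcc0
  haveI : Fintype (𝓞 K ⧸ cc) := Fintype.ofFinite _
  haveI : Finite (𝓞 K ⧸ (s * s')) := Ideal.finiteQuotientOfFreeOfNeBot _ hbb0
  haveI : Fintype (𝓞 K ⧸ (s * s')) := Fintype.ofFinite _
  have hcard : (Fintype.card (𝓞 K ⧸ cc) : ℝ) = N2 * (Ideal.absNorm f * Ideal.absNorm a) := by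
    have : Ideal.absNorm cc = Fintype.card (𝓞 K ⧸ cc) := by
      rw [Ideal.absNorm_apply, Submodule.cardQuot_apply, Nat.card_eq_fintype_card]
    rw [← this, hcc, map_mul, map_mul, hN2]
    push_cast
    rfl
  have hI20 : I * cc ≠ ⊥ := by
    intro h
    rcases Ideal.mul_eq_bot.1 h with h1 | h1
    · exact hI h1
    · exact hcc0 h1
  obtain ⟨b2⟩ := exists_bas (I * cc) hI20
  have hle : I * cc ≤ I := Ideal.mul_le_left
  have hsub := subLI b hccI b2 rfl hle
  have hccf : cc ≤ f := by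
    rw [hcc]
    exact Ideal.mul_le_right.trans Ideal.mul_le_left
  set τ := tauI b b2 hle with hτdef
  have hA := det_AX_ne hI b x
  have hA2 := det_AX_ne hI20 b2 x
  have hs2 : ((√2)⁻¹ : ℝ) ≠ 0 := by positivity
  have hsA2 := smul_det_ne hs2 hA2
  set F : (Fin (dg K) → ℤ) → ℂ := fun z => ee η z * F1 (el b z) with hF
  set u : (Fin (dg K) → ℤ) → ℂ := fun z => F2 (el b z) with hu
  have hFn : ∀ z, ‖F z‖ ≤ 1 := by
    intro z
    simp only [hF]
    rw [norm_mul, ee_norm, one_mul]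
    exact hF1.le_one _
  have hut : ∀ z v, clsI cc b z = clsI cc b v → u z = u v := by
    intro z v h
    unfold clsI at h
    rw [Ideal.Quotient.mk_eq_mk_iff_sub_mem] at h
    exact hF2 _ _ (hccf h)
  obtain ⟨-, hv⟩ := hsub.vdc_gs2 hA (fun t => AX_tau b b2 hle x t) c hFn (u := u)
    (fun z => hF2n _) hut
  have e0 : (fun z => ee η z * (F2 (el b z) * F1 (el b z))) = fun z => u z * F z := by
    funext z
    simp only [hu, hF]
    ring
  rw [e0]
  set G2 : (Fin (dg K) → ℤ) → ℝ := gs ((√2)⁻¹ • AX b2 x) 0 with hG2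
  have hG20 : ∀ t, 0 ≤ G2 t := fun t => (gs_pos _ _ _).le
  have hG2s : Summable G2 := gs_summable hsA2 0
  set T : (Fin (dg K) → ℤ) → ℝ := fun t => ‖GS ((√2) • AX b x) (c - (2 : ℝ)⁻¹ • cz (τ t))
    (DT τ (fun z => F1 (el b z)) t)‖ with hT
  have hT0 : ∀ t, 0 ≤ T t := fun t => norm_nonneg _
  have hs21 : (1 : ℝ) ≤ √2 := by rw [Real.one_le_sqrt]; norm_num
  have hsA := smul_det_ne (show (√2 : ℝ) ≠ 0 by positivity) hA
  have hMs : Mv ((√2) • AX b x) ≤ M := Mv_s2 (by rw [Mv_AX])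
  have hT1 : ∀ t, T t ≤ B * (1 + M) := by
    intro t
    refine (GS_le hsA _ (DT_norm (fun z => hF1.le_one _) t)).trans ?_
    refine (((hB I hI b x).smul (by positivity : (0 : ℝ) < √2)).one _).trans ?_
    exact mul_le_mul_of_nonneg_left (by linarith) hB0.le
  have hTs : Summable fun t => G2 t * T t := by
    refine Summable.of_nonneg_of_le (fun t => mul_nonneg (hG20 t) (hT0 t))
      (fun t => mul_le_mul_of_nonneg_left (hT1 t) (hG20 t)) (hG2s.mul_right _)
  have hn1 : ‖∑' t, (gs ((√2)⁻¹ • AX b2 x) 0 t : ℂ) *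
      GS ((√2) • AX b x) (c - (2 : ℝ)⁻¹ • cz (τ t)) (DT τ F t)‖ ≤ ∑' t, G2 t * T t := by
    refine tsum_of_norm_bounded hTs.hasSum fun t => ?_
    rw [norm_mul, Complex.norm_real, Real.norm_of_nonneg (hG20 t), GS_DT_ee]
  -- the inner sums
  set Kc : ℝ := 2 * B * (tau s' * (N2 * Ideal.absNorm s)) with hKc
  have hKc0 : 0 ≤ Kc := by positivity
  have hDT : ∀ t, DT τ (fun z => F1 (el b z)) t = fun z => DH F1 (el b2 t) (el b z) := by
    intro t
    funext z
    unfold DT DH
    beta_reduce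
    rw [hτdef, el_addd, el_tauI]
  have hTd : ∀ t, T t ≤ Kc * ∑ d ∈ dvs s', (if el b2 t ∈ a * d then (Ideal.absNorm d : ℝ) else 0) := by
    intro t
    set h := el b2 t with hh
    obtain ⟨h', hh'1, hh'2⟩ : ∃ h' ∈ I * (f * a), 2 * h' = h := by
      have h1 : h ∈ I * cc := el_mem b2 t
      have e1 : I * cc = Ideal.span {(2 : 𝓞 K)} * (I * (f * a)) := by rw [hcc]; ring
      rw [e1] at h1
      exact Ideal.mem_span_singleton_mul.1 h1
    have hh'a : h' ∈ a := (Ideal.mul_le_right.trans Ideal.mul_le_right) hh'1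
    have hha : h ∈ a := by rw [← hh'2]; exact Ideal.mul_mem_left _ _ hh'a
    have key : ∀ W : ℝ, 0 ≤ W → (∀ l, AC (s * s') l → ‖sQ (s * s') (fun x => DH F1 h x * l x)‖ ≤
        tau s' * (N2 * Ideal.absNorm s * W)) → T t ≤ Kc * W := by
      intro W hW0 hW1
      have h1 := compI hB hI hbb0 hbI b (g := DH F1 h) (hF1.DH_le h) (DH_per L hF1 hha)
        (k := tau s' * (N2 * Ideal.absNorm s * W)) hW1 x hs21 (c - (2 : ℝ)⁻¹ • cz (τ t)) 0
      simp_rw [ee_zero, one_mul] at h1
      simp only [hT]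
      rw [hDT]
      refine h1.trans ?_
      have hNb := absNorm_pos' hbb0
      have h4 : M / Ideal.absNorm (s * s') ≤ 1 := (div_le_one hNb).2 hM
      have h5 : 0 ≤ (tau s' : ℝ) * (N2 * Ideal.absNorm s * W) := by positivity
      have h6 : B * (1 + M / Ideal.absNorm (s * s')) ≤ B * (1 + 1) :=
        mul_le_mul_of_nonneg_left (by linarith) hB0.le
      refine (mul_le_mul_of_nonneg_left h6 h5).trans (le_of_eq ?_)
      rw [hKc]
      ring
    refine key _ (sum_nonneg fun d _ => ?_) (fun l hl => ?_)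
    · split_ifs
      · positivity
      · exact le_rfl
    · obtain ⟨g, hg1, hg2, hg3⟩ := sQ_DH L hF1 hh'2.symm hh'a rfl hl
      refine hg3.trans ?_
      have h3 := single_le_sum (f := fun d => (if h ∈ a * d then (Ideal.absNorm d : ℝ) else 0))
        (fun d _ => by
          beta_reduce
          split_ifs
          · positivity
          · exact le_rfl) ((mem_dvs hs'0).2 hg1)
      beta_reduce at h3
      rw [if_pos hg2] at h3
      refine mul_le_mul_of_nonneg_left ?_ (by positivity)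
      exact mul_le_mul_of_nonneg_left h3 (by positivity)
  -- the pointwise bound
  have hpt : ∀ t, G2 t * T t ≤ (if t = 0 then B * (1 + M) else 0) +
      ∑ d ∈ dvs s', Kc * Ideal.absNorm d * (PS b2 (a * d)).indicator G2 t := by
    intro t
    have hS0 : 0 ≤ ∑ d ∈ dvs s', Kc * Ideal.absNorm d * (PS b2 (a * d)).indicator G2 t :=
      sum_nonneg fun d _ => mul_nonneg (by positivity) (Set.indicator_nonneg (fun t _ => hG20 t) t)
    by_cases ht : t = 0
    · rw [if_pos ht]
      have h1 : G2 t = 1 := by rw [ht, hG2, gs_zero]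
      rw [h1, one_mul]
      have := hT1 t
      linarith
    · rw [if_neg ht, zero_add]
      calc G2 t * T t ≤ G2 t * (Kc * ∑ d ∈ dvs s',
            (if el b2 t ∈ a * d then (Ideal.absNorm d : ℝ) else 0)) :=
            mul_le_mul_of_nonneg_left (hTd t) (hG20 t)
        _ = _ := by
            rw [mul_sum, mul_sum]
            refine sum_congr rfl fun d _ => ?_
            by_cases hd : el b2 t ∈ a * d
            · have h1 : t ∈ PS b2 (a * d) := ⟨ht, hd⟩
              rw [if_pos hd, Set.indicator_of_mem h1]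
              ring
            · have h1 : t ∉ PS b2 (a * d) := fun h => hd h.2
              rw [if_neg hd, Set.indicator_of_notMem h1]
              ring
  -- the sums over the shifts
  have hsd : ∀ d ∈ dvs s', (Summable fun t => (PS b2 (a * d)).indicator G2 t) ∧
      ∑' t, (PS b2 (a * d)).indicator G2 t ≤
        C1 * (w * (M / (Ideal.absNorm f * (Ideal.absNorm a * Ideal.absNorm d)))) := by
    intro d hd
    obtain ⟨d', hd'⟩ := (mem_dvs hs'0).1 hd
    have hd0 : d ≠ ⊥ := (ne_bot_mul (hd' ▸ hs'0)).1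
    have had : a * d ≠ ⊥ := by
      intro h
      rcases Ideal.mul_eq_bot.1 h with h1 | h1
      · exact ha0 h1
      · exact hd0 h1
    have hfad : IsCoprime f (a * d) := by
      have e1 : a * s * s' = (a * d) * (s * d') := by
        conv_lhs => rw [hd']
        ring
      rw [e1] at hfc
      exact IsCoprime.of_mul_right_left hfc
    have hIad : IsCoprime I (f * (a * d)) := by
      have e1 : Ideal.span {(2 : 𝓞 K)} * (f * (a * s * s')) =
          (f * (a * d)) * (Ideal.span {(2 : 𝓞 K)} * (s * d')) := by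
        conv_lhs => rw [hd']
        ring
      rw [e1] at hIc
      exact IsCoprime.of_mul_right_left hIc
    have h1 := shift_sum hB hC1 hI hf had hIad hfad hle (Ideal.mul_le_right.trans hccf) b2 x
    rw [map_mul, Nat.cast_mul] at h1
    exact h1
  have htot : ∑' t, G2 t * T t ≤ B * (1 + M) + ∑ d ∈ dvs s', Kc * Ideal.absNorm d *
      (C1 * (w * (M / (Ideal.absNorm f * (Ideal.absNorm a * Ideal.absNorm d))))) := by
    have hsm : ∀ d ∈ dvs s', Summable fun t =>
        Kc * Ideal.absNorm d * (PS b2 (a * d)).indicator G2 t := fun d hd => (hsd d hd).1.mul_left _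
    have hs1 : Summable fun t : Fin (dg K) → ℤ => (if t = 0 then B * (1 + M) else 0) :=
      (hasSum_ite_eq 0 _).summable
    calc ∑' t, G2 t * T t ≤ ∑' t, ((if t = 0 then B * (1 + M) else 0) +
          ∑ d ∈ dvs s', Kc * Ideal.absNorm d * (PS b2 (a * d)).indicator G2 t) :=
          hTs.tsum_le_tsum hpt (hs1.add (summable_sum hsm))
      _ = B * (1 + M) + ∑ d ∈ dvs s', Kc * Ideal.absNorm d *
          ∑' t, (PS b2 (a * d)).indicator G2 t := by
          rw [Summable.tsum_add hs1 (summable_sum hsm), (hasSum_ite_eq 0 (B * (1 + M))).tsum_eq,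
            Summable.tsum_finsetSum hsm]
          congr 1
          refine sum_congr rfl fun d _ => ?_
          rw [tsum_mul_left]
      _ ≤ _ := by
          refine add_le_add le_rfl (sum_le_sum fun d hd => ?_)
          exact mul_le_mul_of_nonneg_left (hsd d hd).2 (by positivity)
  have hsum : ∑ d ∈ dvs s', Kc * Ideal.absNorm d *
      (C1 * (w * (M / (Ideal.absNorm f * (Ideal.absNorm a * Ideal.absNorm d))))) =
      tau s' * (Kc * (C1 * (w * (M / (Ideal.absNorm f * Ideal.absNorm a))))) := by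
    unfold tau
    rw [← nsmul_eq_mul, ← sum_const]
    refine sum_congr rfl fun d hd => ?_
    obtain ⟨d', hd'⟩ := (mem_dvs hs'0).1 hd
    have hd0 : d ≠ ⊥ := (ne_bot_mul (hd' ▸ hs'0)).1
    have hNd := absNorm_pos' hd0
    field_simp
  rw [hsum] at htot
  set t1 : ℝ := ((tau s' : ℕ) : ℝ) with ht1
  set Nf : ℝ := ((Ideal.absNorm f : ℕ) : ℝ) with hNfd
  set Na : ℝ := ((Ideal.absNorm a : ℕ) : ℝ) with hNad
  set Ns : ℝ := ((Ideal.absNorm s : ℕ) : ℝ) with hNsd
  have ht2 : t1 ≤ t1 ^ 2 := by nlinarith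
  have ht3 : 1 ≤ t1 ^ 2 := one_le_pow₀ hτ1
  calc ‖GS (AX b x) c (fun z => u z * F z)‖ ^ 2 ≤ (N2 * (Nf * Na)) * (B * (1 + M) +
        t1 * (Kc * (C1 * (w * (M / (Nf * Na)))))) := by
        rw [← hcard]
        exact hv.trans (mul_le_mul_of_nonneg_left (hn1.trans htot) (by positivity))
    _ = N2 * B * ((Nf * Na) * (1 + M)) + 2 * B * N2 ^ 2 * C1 * w * (t1 ^ 2 * (Ns * M)) := by
        rw [hKc]
        field_simp
    _ ≤ N2 * B * (t1 ^ 2 * ((Nf * Na + Ns) * (1 + M))) +
        2 * B * N2 ^ 2 * C1 * w * (t1 ^ 2 * ((Nf * Na + Ns) * (1 + M))) := by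
        refine add_le_add ?_ ?_
        · refine mul_le_mul_of_nonneg_left ?_ (by positivity)
          calc (Nf * Na) * (1 + M) ≤ 1 * ((Nf * Na + Ns) * (1 + M)) := by
                rw [one_mul]
                exact mul_le_mul_of_nonneg_right (by linarith) (by positivity)
            _ ≤ _ := mul_le_mul_of_nonneg_right ht3 (by positivity)
        · refine mul_le_mul_of_nonneg_left ?_ (by positivity)
          refine mul_le_mul_of_nonneg_left ?_ (by positivity)
          have : 0 < Nf * Na := by positivity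
          nlinarith
    _ = _ := by ring

end Pool.Agent.T2H29.SW
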