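import Pool.Agent.T2H29.SW.B8

/-!
# The chain for abstract data
-/

set_option autoImplicit false
set_option linter.unusedSectionVars false

namespace Pool.Agent.T2H29.SW

open Finset NumberField NumberField.InfinitePlace Module MeasureTheory NumberField.Units

variable {K : Type} [Field K] [NumberField K]

/-- the data of an ideal class, abstract form -/
structure SetH (B : ℝ) (Ct : ℕ → ℝ) (Q k : ℝ) (I : Ideal (𝓞 K)) (b : Basis (Fin (dg K)) ℤ I)
    (F : (Fin (dg K) → ℤ) → ℂ) : Prop where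
  ne : I ≠ ⊥
  bal : ∀ x : LS K, CB B (AX b x)
  le : ∀ z, ‖F z‖ ≤ 1
  zero : F 0 = 0
  Q1 : 1 ≤ Q
  k0 : 0 ≤ k
  ct : ∀ N, 0 ≤ Ct N
  core : ∀ (x : LS K) (η : Fin (dg K) → ℝ), ‖GS (AX b x) 0 (fun z => ee η z * F z)‖ ^ 2 ≤
    k * (1 + mm I x.2 + mm I x.2 ^ 2 / Q)
  tail : ∀ (N : ℕ) (x : LS K), Q ≤ mm I x.2 → ∀ ξ : EuclideanSpace ℝ (Fin (dg K)),
    ‖GS (AX b x) 0 (fun z => ee ((AX b x).transpose.mulVec ξ.ofLp) z * F z)‖ ≤
      Ct N * (1 + ‖ξ‖) ^ (2 * (dg K * N)) * (mm I x.2 / √Q * (Q / mm I x.2) ^ (2 * N))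

variable {B : ℝ} {Ct : ℕ → ℝ} {Q k : ℝ} {I : Ideal (𝓞 K)} {b : Basis (Fin (dg K)) ℤ I}
  {F : (Fin (dg K) → ℤ) → ℂ} {θ : Par (InfinitePlace K)} {χ : Ideal (𝓞 K) →* ℂ}

variable (K) in
/-- the bound for all `M` -/
theorem TW_allH : ∃ C : ℝ, 0 ≤ C ∧ ∀ (B : ℝ) (Ct : ℕ → ℝ) (Q k : ℝ) (I : Ideal (𝓞 K))
    (b : Basis (Fin (dg K)) ℤ I) (F : (Fin (dg K) → ℤ) → ℂ) (θ : Par (InfinitePlace K)) (x : LS K),
    SetH B Ct Q k I b F → ‖TW (lamK K) θ (AX b x) F‖ ≤ C * Tp θ ^ (dg K + 1) *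
      √(k * (1 + mm I x.2 + mm I x.2 ^ 2 / Q)) := by
  obtain ⟨C, hC0, hC⟩ := gh_main (lamK_LF K) 0
  refine ⟨C, hC0, fun B Ct Q k I b F θ x h => ?_⟩
  have hA := det_AX_ne h.ne b x
  have hG : ∀ ξ : EuclideanSpace ℝ (Fin (dg K)),
      ‖GS (AX b x) 0 (fun z => ee ((AX b x).transpose.mulVec ξ.ofLp) z * F z)‖ ≤
      √(k * (1 + mm I x.2 + mm I x.2 ^ 2 / Q)) * (1 + ‖ξ‖) ^ 0 := by
    intro ξ
    rw [pow_zero, mul_one]
    exact Real.le_sqrt_of_sq_le (h.core x _)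
  obtain ⟨h1, h2⟩ := TW_le (lamK_LF K) θ hA h.le (Real.sqrt_nonneg _) hG
  refine h2.trans ?_
  have h3 := (hC θ).2.2
  rw [zero_add, Fintype.card_fin] at h3
  calc _ ≤ √(k * (1 + mm I x.2 + mm I x.2 ^ 2 / Q)) * (C * Tp θ ^ (dg K + 1)) :=
        mul_le_mul_of_nonneg_left h3 (Real.sqrt_nonneg _)
    _ = _ := by ring

variable (K) in
/-- the bound for large `M` -/
theorem TW_tailH (N : ℕ) : ∃ C : ℝ, 0 ≤ C ∧ ∀ (B : ℝ) (Ct : ℕ → ℝ) (Q k : ℝ) (I : Ideal (𝓞 K))
    (b : Basis (Fin (dg K)) ℤ I) (F : (Fin (dg K) → ℤ) → ℂ) (θ : Par (InfinitePlace K)) (x : LS K),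
    SetH B Ct Q k I b F → Q ≤ mm I x.2 → ‖TW (lamK K) θ (AX b x) F‖ ≤
      C * Ct N * Tp θ ^ (2 * (dg K * N) + dg K + 1) *
      (mm I x.2 / √Q * (Q / mm I x.2) ^ (2 * N)) := by
  obtain ⟨C, hC0, hC⟩ := gh_main (lamK_LF K) (2 * (dg K * N))
  refine ⟨C, hC0, fun B Ct Q k I b F θ x h hQ => ?_⟩
  have hA := det_AX_ne h.ne b x
  have hMM := mm_pos h.ne x.2
  have hQ0 : 0 < Q := by linarith [h.Q1]
  have hct := h.ct N
  set Y := mm I x.2 / √Q * (Q / mm I x.2) ^ (2 * N) with hY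
  have hY0 : 0 ≤ Y := by positivity
  have hG : ∀ ξ : EuclideanSpace ℝ (Fin (dg K)),
      ‖GS (AX b x) 0 (fun z => ee ((AX b x).transpose.mulVec ξ.ofLp) z * F z)‖ ≤
      (Ct N * Y) * (1 + ‖ξ‖) ^ (2 * (dg K * N)) := by
    intro ξ
    refine (h.tail N x hQ ξ).trans (le_of_eq ?_)
    ring
  obtain ⟨-, h2⟩ := TW_le (lamK_LF K) θ hA h.le (by positivity) hG
  refine h2.trans ?_
  have h3 := (hC θ).2.2
  rw [Fintype.card_fin] at h3
  calc _ ≤ (Ct N * Y) * (C * Tp θ ^ (2 * (dg K * N) + dg K + 1)) :=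
        mul_le_mul_of_nonneg_left h3 (by positivity)
    _ = _ := by ring

lemma ThW_bd2H (h : SetH B Ct Q k I b F) (θ : Par (InfinitePlace K)) (N : ℕ) :
    ∃ C : ℝ, 0 ≤ C ∧ ∀ x : LS K, ‖ThW b θ F x‖ * mm I x.2 ^ N ≤ C := by
  haveI : Nonempty (Fin (dg K)) := ⟨0⟩
  obtain ⟨C1, hC10, hC1⟩ := TW_tailH K (N + 1)
  have hB : 0 ≤ B := (h.bal 0).nonneg
  have hQ1 := h.Q1
  have hQ0 : 0 < Q := by linarith
  set C2 := (1 : ℝ) * (Real.exp (Real.pi * (3 / 2 * dg K)) * B * ((m0 K)⁻¹ + 1)) with hC2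
  have hm0 := m0_pos (K := K)
  have hC20 : 0 ≤ C2 := by positivity
  have hct := h.ct (N + 1)
  set C3 := C1 * Ct (N + 1) * Tp θ ^ (2 * (dg K * (N + 1)) + dg K + 1) with hC3
  have hT1 := Tp_one θ
  have hC30 : 0 ≤ C3 := by positivity
  refine ⟨C2 * Q * Q ^ N + C3 * Q ^ (N + 1), by positivity, fun x => ?_⟩
  have hmm := mm_pos h.ne x.2
  rcases le_total (mm I x.2) Q with h1 | h1
  · have h2 := (ThW_triv (θ := θ) h.ne h.bal h.zero h.le x).2
    have h3 : ‖ThW b θ F x‖ ≤ C2 * Q := by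
      refine h2.trans ?_
      calc _ = C2 * mm I x.2 := by rw [hC2]; ring
        _ ≤ _ := mul_le_mul_of_nonneg_left h1 hC20
    have h4 : ‖ThW b θ F x‖ * mm I x.2 ^ N ≤ C2 * Q * Q ^ N :=
      mul_le_mul h3 (pow_le_pow_left₀ hmm.le h1 N) (by positivity) (by positivity)
    have : 0 ≤ C3 * Q ^ (N + 1) := by positivity
    linarith
  · have h2 := hC1 B Ct Q k I b F θ x h h1
    rw [← hC3] at h2
    have hsQ : 1 ≤ √Q := by rw [Real.one_le_sqrt]; exact hQ1
    have h3 : mm I x.2 / √Q * (Q / mm I x.2) ^ (2 * (N + 1)) * mm I x.2 ^ N ≤ Q ^ (N + 1) := by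
      have e1 : mm I x.2 * (Q / mm I x.2) ^ (2 * (N + 1)) * mm I x.2 ^ N =
          Q ^ (N + 1) * (Q / mm I x.2) ^ (N + 1) := by
        rw [div_pow, div_pow]
        have e2 : mm I x.2 ^ (2 * (N + 1)) = mm I x.2 ^ (N + 1) * (mm I x.2 * mm I x.2 ^ N) := by
          ring
        have e3 : Q ^ (2 * (N + 1)) = Q ^ (N + 1) * Q ^ (N + 1) := by ring
        rw [e2, e3]
        field_simp
      calc mm I x.2 / √Q * (Q / mm I x.2) ^ (2 * (N + 1)) * mm I x.2 ^ N ≤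
          mm I x.2 * (Q / mm I x.2) ^ (2 * (N + 1)) * mm I x.2 ^ N := by
            refine mul_le_mul_of_nonneg_right ?_ (by positivity)
            exact mul_le_mul_of_nonneg_right (div_le_self hmm.le hsQ) (by positivity)
        _ = Q ^ (N + 1) * (Q / mm I x.2) ^ (N + 1) := e1
        _ ≤ Q ^ (N + 1) * 1 := by
            refine mul_le_mul_of_nonneg_left ?_ (by positivity)
            exact pow_le_one₀ (by positivity) ((div_le_one hmm).2 h1)
        _ = _ := mul_one _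
    have h4 : ‖ThW b θ F x‖ * mm I x.2 ^ N ≤ C3 * Q ^ (N + 1) := by
      calc ‖ThW b θ F x‖ * mm I x.2 ^ N ≤ C3 * (mm I x.2 / √Q * (Q / mm I x.2) ^ (2 * (N + 1))) *
            mm I x.2 ^ N := mul_le_mul_of_nonneg_right h2 (by positivity)
        _ = C3 * (mm I x.2 / √Q * (Q / mm I x.2) ^ (2 * (N + 1)) * mm I x.2 ^ N) := by ring
        _ ≤ _ := mul_le_mul_of_nonneg_left h3 hC30
    have : 0 ≤ C2 * Q * Q ^ N := by positivity
    linarith

lemma ThW_decayH (h : SetH B Ct Q k I b F) (θ : Par (InfinitePlace K)) (R : ℝ) :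
    ∃ C : ℝ, 0 ≤ C ∧ ∀ x : LS K, ‖ThW b θ F x‖ ≤ C * Real.exp (-(R * |x.2|)) := by
  refine decay_abs h.ne (fun N => ?_) (ThW_bd2H h θ) R
  obtain ⟨C, hC0, hC⟩ := ThW_bd2H h θ 0
  have hm0 := m0_pos (K := K)
  refine ⟨C / m0 K ^ N, by positivity, fun x => ?_⟩
  have hmm := mm_pos h.ne x.2
  have h1 := hC x
  rw [pow_zero, mul_one] at h1
  rcases lt_or_ge (mm I x.2) (m0 K) with h2 | h2
  · rw [ThW_zero h.ne h.zero h2, norm_zero]
    positivity
  · rw [div_mul_eq_mul_div, le_div_iff₀ (by positivity)]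
    calc ‖ThW b θ F x‖ * m0 K ^ N ≤ C * mm I x.2 ^ N :=
          mul_le_mul h1 (pow_le_pow_left₀ hm0.le h2 N) (by positivity) hC0
      _ = _ := rfl

lemma SetH.td (h : SetH B Ct Q k I b F) (θ : Par (InfinitePlace K)) : TD (ThW b θ F) :=
  ⟨ThW_meas h.ne h.bal h.zero h.le, ThW_decayH h θ⟩

lemma S1_bdH (hne : I ≠ ⊥) (hCB : ∀ x : LS K, CB B (AX b x)) {r : ℝ} (hr : 1 < r) :
    ∃ C δ : ℝ, 0 ≤ C ∧ 0 < δ ∧
    ∀ (x : LS K) (s : Finset (Fin (dg K) → ℤ)), 0 ∉ s →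
    (∑ z ∈ s, ‖Wt (lamK K) θ (vc (AX b x) z)‖) * Real.exp (r * (dg K * x.2 / 2)) ≤
      C * Real.exp (-(δ * |x.2|)) := by
  have hn : (0 : ℝ) < dg K := by exact_mod_cast NeZero.pos (dg K)
  set κ := cK K * Ideal.absNorm I with hκ
  have hκ0 : 0 < κ := by
    have := cK_pos K
    have := absNorm_pos' hne
    positivity
  have hm0 := m0_pos (K := K)
  have hB : 0 ≤ B := (hCB 0).nonneg
  set C1 := Real.exp (Real.pi * (3 / 2 * dg K)) * B * ((m0 K)⁻¹ + 1) with hC1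
  have hC10 : 0 ≤ C1 := by positivity
  set t1 := -(2 / dg K) * Real.log (m0 K * κ) with ht1
  set δ := (r - 1) * (dg K / 2) with hδd
  have hδ : 0 < δ := by
    have : 0 < r - 1 := by linarith
    positivity
  refine ⟨C1 / κ * Real.exp (2 * δ * |t1|), δ, by positivity, hδ, fun x s hs => ?_⟩
  have h1 := Wt_sum (θ := θ) hne hCB x s hs
  rw [← hC1] at h1
  split_ifs at h1 with hm
  · have e1 : C1 * mm I x.2 * Real.exp (r * (dg K * x.2 / 2)) = C1 / κ * Real.exp (δ * x.2) := by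
      unfold mm
      rw [← hκ, mul_div_assoc', div_mul_eq_mul_div, mul_assoc, ← Real.exp_add, div_mul_eq_mul_div]
      congr 3
      rw [hδd]
      ring
    have h2 : x.2 ≤ t1 := by
      have h3 : m0 K * κ ≤ Real.exp (-(dg K * x.2 / 2)) := by
        unfold mm at hm
        rw [← hκ, le_div_iff₀ hκ0] at hm
        exact hm
      have h4 : Real.log (m0 K * κ) ≤ -(dg K * x.2 / 2) := by
        rw [← Real.log_exp (-(dg K * x.2 / 2))]
        exact Real.log_le_log (by positivity) h3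
      have h5 : x.2 = -(2 / dg K) * (-(dg K * x.2 / 2)) := by field_simp
      rw [h5, ht1, neg_mul, neg_mul, neg_le_neg_iff]
      exact mul_le_mul_of_nonneg_left h4 (by positivity)
    have h3 : Real.exp (δ * x.2) ≤ Real.exp (2 * δ * |t1|) * Real.exp (-(δ * |x.2|)) := by
      rw [← Real.exp_add, Real.exp_le_exp]
      have h4 : x.2 + |x.2| ≤ 2 * |t1| := by
        rcases le_total 0 x.2 with h5 | h5
        · rw [abs_of_nonneg h5]
          have := h2.trans (le_abs_self t1)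
          linarith
        · rw [abs_of_nonpos h5]
          have := abs_nonneg t1
          linarith
      have := mul_le_mul_of_nonneg_left h4 hδ.le
      linarith
    calc _ ≤ C1 * mm I x.2 * Real.exp (r * (dg K * x.2 / 2)) :=
          mul_le_mul_of_nonneg_right h1 (Real.exp_pos _).le
      _ = C1 / κ * Real.exp (δ * x.2) := e1
      _ ≤ C1 / κ * (Real.exp (2 * δ * |t1|) * Real.exp (-(δ * |x.2|))) :=
          mul_le_mul_of_nonneg_left h3 (by positivity)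
      _ = _ := by ring
  · have h2 : (∑ z ∈ s, ‖Wt (lamK K) θ (vc (AX b x) z)‖) * Real.exp (r * (dg K * x.2 / 2)) ≤ 0 :=
      mul_nonpos_of_nonpos_of_nonneg h1 (Real.exp_pos _).le
    refine h2.trans (by positivity)

/-- the sum over the elements, absolutely convergent -/
theorem el_sumTH (h : SetH B Ct Q k I b F) {κ : ℂ}
    (hrel : ∀ z, χ (Ideal.span {el b z}) = κ * F z * infK θ (el b z : K)) (t0 : ℝ) {s : ℂ}
    (hs : 1 < s.re) {c : ℝ}
    (hc : ∀ G : (InfinitePlace K → ℝ) → ℂ, (∫ x, G (UU K x) = (c : ℂ) * ∫ u, G u) ∧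
      (Integrable G → Integrable fun x => G (UU K x))) :
    HasSum (fun z => ∫ x in box K, TN s θ t0 χ (el b z) x)
      (κ * LamT θ.2 (ThW b (shp θ t0) F) s) := by
  have hz0 : ∀ x, TN s θ t0 χ (el b 0) x = 0 := by
    intro x
    rw [TN_el h.zero hrel, h.zero]
    ring
  have hint : ∀ z, Integrable (fun x => TN s θ t0 χ (el b z) x) (volume.restrict (box K)) := by
    intro z
    by_cases hz : z = 0
    · rw [hz]
      have : (fun x => TN s θ t0 χ (el b 0) x) = fun _ => (0 : ℂ) := funext hz0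
      rw [this]
      exact integrable_zero _ _ _
    · exact (TN_int θ t0 s χ hc (el_ne b hz)).1.integrableOn
  set bF := ‖κ‖ with hbF
  have hbF0 : 0 ≤ bF := by positivity
  have hnorm : ∀ z x, ‖TN s θ t0 χ (el b z) x‖ ≤
      bF * (if z = 0 then 0 else ‖Wt (lamK K) (shp θ t0) (vc (AX b x) z)‖) *
        Real.exp (s.re * (dg K * x.2 / 2)) := by
    intro z x
    by_cases hz : z = 0
    · rw [hz, hz0, norm_zero, if_pos rfl, mul_zero, zero_mul]
    · rw [if_neg hz, TN_el h.zero hrel, norm_mul, norm_mul, norm_mul, WW_norm]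
      refine mul_le_mul_of_nonneg_right ?_ (Real.exp_pos _).le
      have h2 := h.le z
      have h3 := norm_nonneg (Wt (lamK K) (shp θ t0) (vc (AX b x) z))
      calc ‖κ‖ * (‖Wt (lamK K) (shp θ t0) (vc (AX b x) z)‖ * ‖F z‖) ≤
          ‖κ‖ * (‖Wt (lamK K) (shp θ t0) (vc (AX b x) z)‖ * 1) :=
            mul_le_mul_of_nonneg_left (mul_le_mul_of_nonneg_left h2 h3) (norm_nonneg _)
        _ = _ := by rw [hbF]; ring
  obtain ⟨C, δ, hC0, hδ, hC⟩ := S1_bdH (θ := shp θ t0) h.ne h.bal hs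
  have hsum : Summable fun z => ∫ x in box K, ‖TN s θ t0 χ (el b z) x‖ := by
    refine summable_of_sum_le (c := ∫ x in box K, bF * (C * Real.exp (-(δ * |x.2|))))
      (fun z => integral_nonneg fun x => norm_nonneg _) fun t => ?_
    rw [← integral_finsetSum _ (fun z _ => (hint z).norm)]
    refine setIntegral_mono_on (integrable_finsetSum _ fun z _ => (hint z).norm)
      (((box_int K (ea_int hδ)).1.const_mul C).const_mul bF) (box_meas K) fun x _ => ?_
    refine le_trans ?_ (mul_le_mul_of_nonneg_left (hC x (t.erase 0) (by simp)) hbF0)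
    rw [sum_mul, mul_sum]
    calc ∑ z ∈ t, ‖TN s θ t0 χ (el b z) x‖ ≤
          ∑ z ∈ t, bF * (if z = 0 then 0 else ‖Wt (lamK K) (shp θ t0) (vc (AX b x) z)‖) *
          Real.exp (s.re * (dg K * x.2 / 2)) := sum_le_sum fun z _ => hnorm z x
      _ = ∑ z ∈ t.erase 0, bF * (‖Wt (lamK K) (shp θ t0) (vc (AX b x) z)‖ *
            Real.exp (s.re * (dg K * x.2 / 2))) := by
          rw [← Finset.sum_filter_add_sum_filter_not t (fun z => z = 0)]
          have e1 : ∑ z ∈ t with z = 0, bF * (if z = 0 then 0 else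
              ‖Wt (lamK K) (shp θ t0) (vc (AX b x) z)‖) *
              Real.exp (s.re * (dg K * x.2 / 2)) = 0 := by
            refine sum_eq_zero fun z hz => ?_
            rw [if_pos (mem_filter.1 hz).2, mul_zero, zero_mul]
          rw [e1, zero_add]
          have e2 : ({z ∈ t | ¬ z = 0} : Finset _) = t.erase 0 := by
            ext z
            rw [mem_filter, mem_erase]
            tauto
          rw [e2]
          refine sum_congr rfl fun z hz => ?_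
          rw [if_neg (mem_erase.1 hz).1, mul_assoc]
  have h1 := hasSum_integral_of_summable_integral_norm hint hsum
  have h2 : ∫ x in box K, ∑' z, TN s θ t0 χ (el b z) x =
      κ * LamT θ.2 (ThW b (shp θ t0) F) s := by
    unfold LamT
    rw [← integral_const_mul]
    refine setIntegral_congr_fun (box_meas K) fun x _ => ?_
    beta_reduce
    rw [(TN_sum h.ne h.bal h.zero h.le hrel s t0 x).tsum_eq, mul_assoc]
  rw [h2] at h1
  exact h1

variable (K) in
/-- the bound for the completed L-function of a class -/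
theorem LamT_bdH (B : ℝ) (Ct : ℕ → ℝ) (hCt : ∀ N, 0 ≤ Ct N) :
    ∃ C : ℝ, 0 < C ∧ ∀ (Q k : ℝ) (I : Ideal (𝓞 K))
    (b : Basis (Fin (dg K)) ℤ I)
    (F : (Fin (dg K) → ℤ) → ℂ) (θ : Par (InfinitePlace K)) (τ : InfinitePlace K → ℝ) (s : ℂ),
    SetH B Ct Q k I b F → s.re = 1 / 2 →
    √(Ideal.absNorm I) * ‖LamT τ (ThW b θ F) s‖ ≤ C * Tp θ ^ (3 * dg K + 1) *
      (√k * (Real.log Q + 1) + 1) := by
  haveI : Nonempty (Fin (dg K)) := ⟨0⟩
  obtain ⟨C1, hC10, hC1⟩ := TW_allH K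
  obtain ⟨C2, hC20, hC2⟩ := TW_tailH K 1
  have hct := hCt 1
  have hn : (0 : ℝ) < dg K := by exact_mod_cast NeZero.pos (dg K)
  have hcK := cK_pos K
  have hscK : 0 < √(cK K) := Real.sqrt_pos.2 hcK
  have hm0 := m0_pos (K := K)
  set c1 := √((m0 K)⁻¹ + 2) with hc1
  have hc10 : 0 < c1 := Real.sqrt_pos.2 (by positivity)
  set c2 := 2 / dg K * (1 + |Real.log (m0 K)|) with hc2
  have hc20 : 0 < c2 := by positivity
  refine ⟨(√(cK K))⁻¹ * (C1 * c1 * c2 + C2 * Ct 1 * (8 / dg K)) + 1, by positivity,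
    fun Q k I b F θ τ s h hs => ?_⟩
  have hQ1 : 1 ≤ Q := h.Q1
  have hk := h.k0
  have hQ0 : 0 < Q := by linarith
  have hlQ : 0 ≤ Real.log Q := Real.log_nonneg hQ1
  have hT1 := Tp_one θ
  set G := C1 * Tp θ ^ (dg K + 1) * (√k * c1) with hG
  set E := C2 * Ct 1 * Tp θ ^ (3 * dg K + 1) with hE
  have hG0 : 0 ≤ G := by positivity
  have hE0 : 0 ≤ E := by positivity
  have hcr := LamT_crit hG0 hE0 hQ1 h.ne (h.td θ) (fun x hx => ThW_zero h.ne h.zero hx)
    (fun x hx1 hx2 => ?_) (fun x hx => ?_) τ hs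
  · refine hcr.trans ?_
    set X := Tp θ ^ (3 * dg K + 1) with hX
    have hX0 : 0 ≤ X := by positivity
    have hGX : G ≤ C1 * c1 * (X * √k) := by
      have h1 : Tp θ ^ (dg K + 1) ≤ X := pow_le_pow_right₀ hT1 (by omega)
      calc G = C1 * c1 * (Tp θ ^ (dg K + 1) * √k) := by rw [hG]; ring
        _ ≤ _ := mul_le_mul_of_nonneg_left (mul_le_mul_of_nonneg_right h1 (Real.sqrt_nonneg _))
            (by positivity)
    have h4 : 2 / (dg K : ℝ) * Real.log Q + 2 / dg K * |Real.log (m0 K)| ≤ c2 * (Real.log Q + 1) := by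
      rw [hc2]
      have h5 : 0 ≤ 2 / (dg K : ℝ) * (|Real.log (m0 K)| * Real.log Q) := by positivity
      have h6 : 0 ≤ 2 / (dg K : ℝ) := by positivity
      nlinarith
    have h5 : G * (2 / (dg K : ℝ) * Real.log Q + 2 / dg K * |Real.log (m0 K)|) ≤
        C1 * c1 * (X * √k) * (c2 * (Real.log Q + 1)) :=
      mul_le_mul hGX h4 (by positivity) (by positivity)
    set Y := √k * (Real.log Q + 1) + 1 with hY
    have hsk := Real.sqrt_nonneg k
    have hY1 : 1 ≤ Y := by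
      have : 0 ≤ √k * (Real.log Q + 1) := by positivity
      linarith
    have h6 : √k * (Real.log Q + 1) ≤ Y := by linarith
    have hXY : 0 ≤ X * Y := by positivity
    calc (√(cK K))⁻¹ * (G * (2 / (dg K : ℝ) * Real.log Q + 2 / dg K * |Real.log (m0 K)|) + E * (8 / dg K)) ≤
        (√(cK K))⁻¹ * (C1 * c1 * (X * √k) * (c2 * (Real.log Q + 1)) + C2 * Ct 1 * X * (8 / dg K)) := by
          refine mul_le_mul_of_nonneg_left ?_ (by positivity)
          rw [hE]
          linarith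
      _ = (√(cK K))⁻¹ * (C1 * c1 * c2 * (X * (√k * (Real.log Q + 1))) +
          C2 * Ct 1 * (8 / dg K) * (X * 1)) := by
          ring
      _ ≤ (√(cK K))⁻¹ * (C1 * c1 * c2 * (X * Y) + C2 * Ct 1 * (8 / dg K) * (X * Y)) := by
          refine mul_le_mul_of_nonneg_left (add_le_add ?_ ?_) (by positivity)
          · exact mul_le_mul_of_nonneg_left (mul_le_mul_of_nonneg_left h6 hX0) (by positivity)
          · exact mul_le_mul_of_nonneg_left (mul_le_mul_of_nonneg_left hY1 hX0) (by positivity)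
      _ ≤ ((√(cK K))⁻¹ * (C1 * c1 * c2 + C2 * Ct 1 * (8 / dg K)) + 1) * (X * Y) := by
          have : ((√(cK K))⁻¹ * (C1 * c1 * c2 + C2 * Ct 1 * (8 / dg K)) + 1) * (X * Y) =
            (√(cK K))⁻¹ * (C1 * c1 * c2 * (X * Y) + C2 * Ct 1 * (8 / dg K) * (X * Y)) + X * Y := by
            ring
          rw [this]
          linarith
      _ = _ := by ring
  · -- middle range
    have h1 := hC1 B Ct Q k I b F θ x h
    refine h1.trans ?_
    have hmm := mm_pos h.ne x.2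
    have h2 : 1 + mm I x.2 + mm I x.2 ^ 2 / Q ≤ ((m0 K)⁻¹ + 2) * mm I x.2 := by
      have h3 : 1 ≤ (m0 K)⁻¹ * mm I x.2 := by
        rw [le_inv_mul_iff₀ hm0, mul_one]; exact hx1
      have h4 : mm I x.2 ^ 2 / Q ≤ mm I x.2 := by
        rw [div_le_iff₀ hQ0, pow_two]
        exact mul_le_mul_of_nonneg_left hx2 hmm.le
      linarith
    have h3 : √(k * (1 + mm I x.2 + mm I x.2 ^ 2 / Q)) ≤ √k * c1 * √(mm I x.2) := by
      rw [hc1, ← Real.sqrt_mul hk, ← Real.sqrt_mul (by positivity)]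
      refine Real.sqrt_le_sqrt ?_
      rw [mul_assoc]
      exact mul_le_mul_of_nonneg_left h2 hk
    calc C1 * Tp θ ^ (dg K + 1) * √(k * (1 + mm I x.2 + mm I x.2 ^ 2 / Q)) ≤
        C1 * Tp θ ^ (dg K + 1) * (√k * c1 * √(mm I x.2)) :=
          mul_le_mul_of_nonneg_left h3 (by positivity)
      _ = _ := by rw [hG]; ring
  · have h1 := hC2 B Ct Q k I b F θ x h hx
    refine h1.trans (le_of_eq ?_)
    rw [hE]
    have e1 : 2 * (dg K * 1) + dg K + 1 = 3 * dg K + 1 := by omega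
    rw [e1]

end Pool.Agent.T2H29.SW
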