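import Pool.Agent.T2H29.SW.U16

/-!
# The Burgess bound for Hecke L-functions of all number fields

`K` is any number field, `m = [K : ℚ]`, and `χ` is any primitive unitary Hecke character of `K`
modulo `𝔣 𝔟`, where `𝔟` is cube-free and coprime to `𝔣`, of any infinite type
`∏_v (σ_v α / |σ_v α|) ^ k_v |σ_v α| ^ (i τ_v)`.  Then `L(s, χ) = ∑_I χ(I) N(I)^(-s)` is entire and

`|L(1/2 + i t, χ)| ≤ C(K, ε) ((1 + |t|) (1 + ∑ (|k_v| + |τ_v|))) ^ (3 m + 1) N(𝔣𝔟)^ε N(𝔣)^(1/4) N(𝔟)^(3/16)`.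

With `𝔣 = 1` this is the Burgess exponent `3/16` for all cube-free conductors `𝔟` over all number
fields.  All primes are allowed: above `2`, ramified, of any degree.

Proof (modules `Pool.Agent.T2H29.SW`, files `U1`-`U16`): the method of Burgess for Gaussian sums over
the balanced ideal lattices of `K`.  The sum over `α` is shifted by `a β`, where `a` runs over the
algebraic integers prime to the modulus with all conjugates of size about `R` (their number is bounded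
below by a sieve with Gaussian weights), the variables are separated by the Fourier transform, and
Hölder's inequality leads to the number of solutions of `a' α ≡ a α'` (bounded by counting lattice
points in cosets of ideals) and to the fourth moment of short sums, i.e. to the complete sums
`∑ χ((x + b1)(x + b2)) conj χ((x + b3)(x + b4))`, bounded by Weil's bound over the residue fields and
elementarily modulo squares of primes.
-/

set_option autoImplicit false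

open NumberField NumberField.InfinitePlace

namespace Pool.Agent.Results.MP_52e316_nt.HeckeBurgessGLm

variable {K : Type} [Field K] [NumberField K]

/-- The unitary character `α ↦ ∏_v (σ_v α / |σ_v α|) ^ k_v |σ_v α| ^ (i τ_v)`; `σ_v` is an
embedding for the infinite place `v` and `|σ_v α| = v α`.  At a real place the first factor is the
`k_v`-th power of the sign. -/
noncomputable def infType (k : InfinitePlace K → ℤ) (τ : InfinitePlace K → ℝ) (α : K) : ℂ :=
  ∏ v : InfinitePlace K, (v.embedding α / ((v α : ℝ) : ℂ)) ^ k v *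
    ((v α : ℝ) : ℂ) ^ ((τ v : ℂ) * Complex.I)

/-- `χ` is a primitive unitary Hecke character of `K` modulo `𝔪` of infinite type given by `k` and
`τ`, extended by zero to the ideals not coprime to `𝔪`. -/
structure IsPrimitiveHecke (𝔪 : Ideal (𝓞 K)) (k : InfinitePlace K → ℤ)
    (τ : InfinitePlace K → ℝ) (χ : Ideal (𝓞 K) →* ℂ) : Prop where
  /-- it vanishes at the ideals not coprime to `𝔪` -/
  zero : ∀ I, ¬ IsCoprime I 𝔪 → χ I = 0
  /-- it is unitary -/
  norm : ∀ I, IsCoprime I 𝔪 → ‖χ I‖ = 1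
  /-- the values at the principal ideals `(α)`, `α ≡ 1` modulo `𝔪` -/
  infinite_type : ∀ α : 𝓞 K, α - 1 ∈ 𝔪 → χ (Ideal.span {α}) = infType k τ (α : K)
  /-- it does not have this property modulo any larger ideal `𝔫` -/
  primitive : ∀ 𝔫 : Ideal (𝓞 K), 𝔪 < 𝔫 → ∃ α : 𝓞 K, α - 1 ∈ 𝔫 ∧
    IsCoprime (Ideal.span {α}) 𝔪 ∧ χ (Ideal.span {α}) ≠ infType k τ (α : K)

theorem result (K : Type) [Field K] [NumberField K] (ε : ℝ) (hε : 0 < ε) : ∃ C : ℝ, 0 < C ∧
    ∀ (𝔣 𝔟 : Ideal (𝓞 K)) (k : InfinitePlace K → ℤ) (τ : InfinitePlace K → ℝ)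
    (χ : Ideal (𝓞 K) →* ℂ),
    𝔣 * 𝔟 ≠ ⊥ → 𝔣 * 𝔟 ≠ ⊤ → (∀ P : Ideal (𝓞 K), Prime P → ¬ P ^ 3 ∣ 𝔟) → IsCoprime 𝔣 𝔟 →
    IsPrimitiveHecke (𝔣 * 𝔟) k τ χ →
    ∃ L : ℂ → ℂ, Differentiable ℂ L ∧
    (∀ s : ℂ, 1 < s.re →
      HasSum (fun I : Ideal (𝓞 K) => χ I * (Ideal.absNorm I : ℂ) ^ (-s)) (L s)) ∧
    ∀ t : ℝ, ‖L (1 / 2 + t * Complex.I)‖ ≤
      C * ((1 + ∑ v, (|(k v : ℝ)| + |τ v|)) * (1 + |t|)) ^ (3 * Module.finrank ℚ K + 1) *
        (Ideal.absNorm (𝔣 * 𝔟) : ℝ) ^ ε *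
        ((Ideal.absNorm 𝔣 : ℝ) ^ (1 / 4 : ℝ) * (Ideal.absNorm 𝔟 : ℝ) ^ (3 / 16 : ℝ)) := by
  obtain ⟨C, hC0, hC⟩ := Pool.Agent.T2H29.SW.U_thm K ε hε
  refine ⟨C, hC0, fun 𝔣 𝔟 k τ χ hbot htop hcf hco hχ => ?_⟩
  have hinf : ∀ α : 𝓞 K, α ≠ 0 → Pool.Agent.T2H29.SW.infK (k, τ) (α : K) = infType k τ (α : K) :=
    fun α hα => Pool.Agent.T2H29.SW.infK_ityp (k, τ) (by exact_mod_cast hα)
  refine hC 𝔣 𝔟 (k, τ) χ hbot htop hcf hco ⟨hχ.zero, hχ.norm, ?_, ?_⟩
  · intro α hα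
    have h0 : α ≠ 0 := by
      rintro rfl
      apply htop
      rw [Ideal.eq_top_iff_one]
      have := neg_mem hα
      simpa using this
    rw [hinf α h0]
    exact hχ.infinite_type α hα
  · intro 𝔫 h𝔫
    obtain ⟨α, h1, h2, h3⟩ := hχ.primitive 𝔫 h𝔫
    refine ⟨α, h1, h2, ?_⟩
    rw [hinf α (Pool.Agent.T2H29.SW.cop_ne htop h2)]
    exact h3

end Pool.Agent.Results.MP_52e316_nt.HeckeBurgessGLm
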