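import Mathlib

/-!
# Poisson summation for Gaussians of positive definite quadratic forms
-/

set_option autoImplicit false
set_option linter.unusedSectionVars false

namespace Pool.Agent.T2H29.SW

open Finset MeasureTheory Matrix Topology

variable {ι : Type} [Fintype ι] [DecidableEq ι]

/-- `exp(2πix)` -/
noncomputable def e (x : ℝ) : ℂ := Complex.exp (2 * Real.pi * Complex.I * x)

lemma e_norm (x : ℝ) : ‖e x‖ = 1 := by
  unfold e
  rw [show (2 * Real.pi * Complex.I * x : ℂ) = ((2 * Real.pi * x : ℝ) : ℂ) * Complex.I by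
    push_cast; ring, Complex.norm_exp_ofReal_mul_I]

lemma e_add (x y : ℝ) : e (x + y) = e x * e y := by
  unfold e
  rw [← Complex.exp_add]; congr 1; push_cast; ring

lemma e_zero : e 0 = 1 := by simp [e]

lemma e_conj (x : ℝ) : (starRingEnd ℂ) (e x) = e (-x) := by
  unfold e
  rw [← Complex.exp_conj]
  congr 1
  simp only [map_mul, Complex.conj_I, Complex.conj_ofReal, map_ofNat]
  push_cast
  ring

lemma e_int (n : ℤ) : e n = 1 := by
  unfold e
  rw [show (2 * Real.pi * Complex.I * ((n : ℝ) : ℂ)) = n * (2 * Real.pi * Complex.I) by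
    push_cast; ring, Complex.exp_int_mul_two_pi_mul_I]

lemma e_neg (x : ℝ) : e (-x) = (e x)⁻¹ := by
  have h : e (-x) * e x = 1 := by rw [← e_add]; simp [e_zero]
  exact eq_inv_of_mul_eq_one_left h

lemma e_sum {κ : Type} (s : Finset κ) (a : κ → ℝ) : e (∑ i ∈ s, a i) = ∏ i ∈ s, e (a i) := by
  classical
  induction s using Finset.induction_on with
  | empty => simp [e]
  | insert i s hi ih => rw [sum_insert hi, prod_insert hi, e_add, ih]

lemma e_continuous : Continuous e := by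
  unfold e
  fun_prop

/-- the quadratic form `|A x|²` -/
noncomputable def q (A : Matrix ι ι ℝ) (x : ι → ℝ) : ℝ := ∑ i, (A *ᵥ x) i ^ 2

/-- integer vectors as real vectors -/
def cz (z : ι → ℤ) : ι → ℝ := fun i => (z i : ℝ)

/-- the Gaussian `exp(-π |A (z - c)|²)` -/
noncomputable def gs (A : Matrix ι ι ℝ) (c : ι → ℝ) (z : ι → ℤ) : ℝ :=
  Real.exp (-(Real.pi * q A (cz z - c)))

/-- the dual form -/
noncomputable def du (A : Matrix ι ι ℝ) : Matrix ι ι ℝ := (A⁻¹)ᵀ

lemma q_nonneg (A : Matrix ι ι ℝ) (x : ι → ℝ) : 0 ≤ q A x :=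
  Finset.sum_nonneg fun _ _ => sq_nonneg _

lemma gs_pos (A : Matrix ι ι ℝ) (c : ι → ℝ) (z : ι → ℤ) : 0 < gs A c z := Real.exp_pos _

lemma q_continuous (A : Matrix ι ι ℝ) : Continuous (q A) := by
  unfold q
  refine continuous_finsetSum _ fun i _ => ?_
  refine Continuous.pow ?_ 2
  exact (continuous_apply i).comp (Continuous.matrix_mulVec continuous_const continuous_id)

/-- coercivity -/
lemma q_coer {A : Matrix ι ι ℝ} (hA : A.det ≠ 0) : ∃ K : ℝ, 0 < K ∧ ∀ x : ι → ℝ,
    ∑ i, x i ^ 2 ≤ K * q A x := by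
  have hu : IsUnit A.det := isUnit_iff_ne_zero.2 hA
  refine ⟨∑ i, ∑ j, (A⁻¹ i j) ^ 2 + 1, ?_, fun x => ?_⟩
  · have : 0 ≤ ∑ i, ∑ j, (A⁻¹ i j) ^ 2 := Finset.sum_nonneg fun _ _ => Finset.sum_nonneg fun _ _ =>
      sq_nonneg _
    linarith
  · have h1 : x = A⁻¹ *ᵥ (A *ᵥ x) := by
      rw [Matrix.mulVec_mulVec, Matrix.nonsing_inv_mul _ hu, Matrix.one_mulVec]
    have h2 : ∀ i, x i ^ 2 ≤ (∑ j, (A⁻¹ i j) ^ 2) * q A x := by
      intro i
      have h3 : x i = ∑ j, A⁻¹ i j * (A *ᵥ x) j := by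
        conv_lhs => rw [h1]
        rfl
      rw [h3]
      exact Finset.sum_mul_sq_le_sq_mul_sq _ _ _
    have h4 := q_nonneg A x
    calc ∑ i, x i ^ 2 ≤ ∑ i, (∑ j, (A⁻¹ i j) ^ 2) * q A x := Finset.sum_le_sum fun i _ => h2 i
      _ = (∑ i, ∑ j, (A⁻¹ i j) ^ 2) * q A x := by rw [Finset.sum_mul]
      _ ≤ _ := by nlinarith

/-- products of summable functions on the integers -/
lemma summable_pi {f : ℤ → ℝ} (hf0 : ∀ n, 0 ≤ f n) (hf : Summable f) :
    Summable fun z : ι → ℤ => ∏ i, f (z i) := by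
  classical
  refine summable_of_sum_le (c := (∑' n, f n) ^ (Fintype.card ι)) (fun z => prod_nonneg fun i _ => hf0 _) ?_
  intro s
  set t : Finset ℤ := s.biUnion fun z => univ.image z with ht
  have hsub : s ⊆ Fintype.piFinset fun _ => t := by
    intro z hz
    rw [Fintype.mem_piFinset]
    intro i
    rw [ht, mem_biUnion]
    exact ⟨z, hz, mem_image_of_mem _ (mem_univ i)⟩
  calc ∑ z ∈ s, ∏ i, f (z i) ≤ ∑ z ∈ Fintype.piFinset fun _ => t, ∏ i, f (z i) :=
        sum_le_sum_of_subset_of_nonneg hsub fun z _ _ => prod_nonneg fun i _ => hf0 _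
    _ = ∏ _i : ι, ∑ n ∈ t, f n := (Finset.prod_univ_sum (fun _ => t) (fun _ => f)).symm
    _ ≤ ∏ _i : ι, ∑' n, f n := by
        refine prod_le_prod (fun i _ => sum_nonneg fun n _ => hf0 n) fun i _ => ?_
        exact hf.sum_le_tsum _ fun n _ => hf0 n
    _ = _ := by rw [prod_const, card_univ]

lemma summable_exp_sq {a : ℝ} (ha : 0 < a) : Summable fun n : ℤ => Real.exp (-(a * (n : ℝ) ^ 2)) := by
  have h := summable_pow_mul_jacobiTheta₂_term_bound 0 (T := a / Real.pi) (by positivity) 0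
  refine h.congr fun n => ?_
  rw [pow_zero, one_mul]
  congr 1
  have := Real.pi_ne_zero
  field_simp
  ring

/-- domination of Gaussians, locally uniformly in the centre -/
lemma gauss_dom {A : Matrix ι ι ℝ} (hA : A.det ≠ 0) (R : ℝ) : ∃ u : (ι → ℤ) → ℝ,
    (∀ z, 0 ≤ u z) ∧ Summable u ∧ ∀ (c : ι → ℝ), (∀ i, |c i| ≤ R) → ∀ z, gs A c z ≤ u z := by
  obtain ⟨K, hK, h⟩ := q_coer hA
  set a : ℝ := Real.pi / K / 2 with ha
  have ha0 : 0 < a := by positivity
  refine ⟨fun z => Real.exp (2 * a * (Fintype.card ι * R ^ 2)) * ∏ i, Real.exp (-(a * (z i : ℝ) ^ 2)),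
    fun z => by positivity, (summable_pi (fun n => (Real.exp_pos _).le) (summable_exp_sq ha0)).mul_left _, ?_⟩
  intro c hc z
  unfold gs
  show _ ≤ Real.exp (2 * a * (Fintype.card ι * R ^ 2)) * ∏ i, Real.exp (-(a * (z i : ℝ) ^ 2))
  rw [← Real.exp_sum, ← Real.exp_add]
  apply Real.exp_le_exp.2
  have h1 := h (cz z - c)
  have h2 : 2 * a * ∑ i, (cz z - c) i ^ 2 ≤ Real.pi * q A (cz z - c) := by
    rw [ha]
    have : 2 * (Real.pi / K / 2) * ∑ i, (cz z - c) i ^ 2 = Real.pi / K * ∑ i, (cz z - c) i ^ 2 := by ring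
    rw [this, div_mul_eq_mul_div, div_le_iff₀ hK]
    nlinarith [Real.pi_pos]
  have h3 : ∀ i, (z i : ℝ) ^ 2 / 2 - R ^ 2 ≤ (cz z - c) i ^ 2 := by
    intro i
    have h4 : (cz z - c) i = z i - c i := rfl
    rw [h4]
    have h5 : c i ^ 2 ≤ R ^ 2 := by
      rw [← sq_abs (c i)]
      exact pow_le_pow_left₀ (abs_nonneg _) (hc i) 2
    nlinarith [sq_nonneg ((z i : ℝ) - 2 * c i)]
  have h6 : ∑ i, ((z i : ℝ) ^ 2 / 2 - R ^ 2) ≤ ∑ i, (cz z - c) i ^ 2 := sum_le_sum fun i _ => h3 i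
  rw [sum_sub_distrib, sum_const, card_univ, nsmul_eq_mul, ← sum_div] at h6
  rw [sum_neg_distrib, ← mul_sum]
  nlinarith

lemma gs_summable {A : Matrix ι ι ℝ} (hA : A.det ≠ 0) (c : ι → ℝ) : Summable (gs A c) := by
  obtain ⟨u, h0, hu, h⟩ := gauss_dom hA (∑ i, |c i|)
  refine Summable.of_nonneg_of_le (fun z => (gs_pos _ _ _).le) (fun z => h c (fun i => ?_) z) hu
  exact single_le_sum (f := fun i => |c i|) (fun j _ => abs_nonneg _) (mem_univ i)

/-! ### the torus -/

/-- the quotient map onto the torus -/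
noncomputable def tq (ι : Type) [Fintype ι] : C(ι → ℝ, UnitAddTorus ι) where
  toFun := Pi.map fun (_ : ι) (t : ℝ) => (t : UnitAddCircle)
  continuous_toFun := (IsOpenQuotientMap.piMap fun _ =>
    QuotientAddGroup.isOpenQuotientMap_mk).continuous

theorem tq_quot : IsQuotientMap (tq ι) :=
  (IsOpenQuotientMap.piMap fun _ => QuotientAddGroup.isOpenQuotientMap_mk).isQuotientMap

/-- hypothesis for Poisson summation: locally uniform domination of the translates -/
def Dom (F : (ι → ℝ) → ℂ) : Prop := ∀ R : ℝ, ∃ u : (ι → ℤ) → ℝ, Summable u ∧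
  ∀ x : ι → ℝ, (∀ i, |x i| ≤ R) → ∀ z : ι → ℤ, ‖F (x - cz z)‖ ≤ u z

theorem per_cont {F : (ι → ℝ) → ℂ} (hF : Continuous F) (hd : Dom F) :
    Continuous fun x : ι → ℝ => ∑' z : ι → ℤ, F (x - cz z) := by
  rw [continuous_iff_continuousAt]
  intro x
  obtain ⟨u, hu, h⟩ := hd (‖x‖ + 1)
  have h1 : ContinuousOn (fun x : ι → ℝ => ∑' z : ι → ℤ, F (x - cz z)) (Metric.ball x 1) := by
    refine continuousOn_tsum (fun z => (hF.comp (continuous_id.sub continuous_const)).continuousOn) hu ?_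
    intro z y hy
    refine h y (fun i => ?_) z
    have h4 : dist y x < 1 := hy
    rw [dist_eq_norm] at h4
    have h5 : ‖y‖ ≤ ‖x‖ + ‖y - x‖ := norm_le_insert' y x
    have h6 := norm_le_pi_norm y i
    rw [Real.norm_eq_abs] at h6
    linarith
  exact h1.continuousAt (Metric.ball_mem_nhds _ one_pos)

theorem per_per (F : (ι → ℝ) → ℂ) (x : ι → ℝ) (w : ι → ℤ) :
    ∑' z : ι → ℤ, F (x + cz w - cz z) = ∑' z : ι → ℤ, F (x - cz z) := by
  rw [← (Equiv.addRight w).tsum_eq fun z : ι → ℤ => F (x + cz w - cz z)]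
  refine tsum_congr fun z => ?_
  congr 1
  funext i
  simp only [Equiv.coe_addRight, cz, Pi.add_apply, Pi.sub_apply]
  push_cast
  ring

theorem per_lift {F : (ι → ℝ) → ℂ} (hF : Continuous F) (hd : Dom F) :
    ∃ Φ : C(UnitAddTorus ι, ℂ), ∀ x : ι → ℝ,
    Φ (fun i => (x i : UnitAddCircle)) = ∑' z : ι → ℤ, F (x - cz z) := by
  set g : C(ι → ℝ, ℂ) := ⟨_, per_cont hF hd⟩ with hg
  have hfac : Function.FactorsThrough g (tq ι) := by
    intro x y hxy
    have h1 : ∀ i, ∃ m : ℤ, x i = y i + m := by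
      intro i
      have h2 : (x i : UnitAddCircle) = (y i : UnitAddCircle) := congrFun hxy i
      have h3 : ((x i - y i : ℝ) : UnitAddCircle) = 0 := by
        rw [AddCircle.coe_sub, h2, sub_self]
      rw [AddCircle.coe_eq_zero_iff] at h3
      obtain ⟨m, hm⟩ := h3
      refine ⟨m, ?_⟩
      rw [zsmul_eq_mul, mul_one] at hm
      linarith
    choose w hw using h1
    have h4 : x = y + cz w := funext hw
    show (∑' z : ι → ℤ, F (x - cz z)) = ∑' z : ι → ℤ, F (y - cz z)
    rw [h4]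
    exact per_per F y w
  refine ⟨tq_quot.lift g hfac, fun x => ?_⟩
  have h5 := tq_quot.lift_comp g hfac
  have h6 := congrArg (fun f : C(ι → ℝ, ℂ) => f x) h5
  exact h6

theorem mF_neg (y : ι → ℤ) (x : ι → ℝ) :
    UnitAddTorus.mFourier (-y) (fun i => (x i : UnitAddCircle)) = e (-(∑ i, (y i : ℝ) * x i)) := by
  rw [← Finset.sum_neg_distrib, e_sum]
  show ∏ i, fourier ((-y) i) (x i : UnitAddCircle) = _
  apply Finset.prod_congr rfl
  intro i _
  rw [fourier_coe_apply]
  unfold e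
  congr 1
  simp only [Pi.neg_apply]
  push_cast
  ring

theorem mF_pos (y : ι → ℤ) (x : ι → ℝ) :
    UnitAddTorus.mFourier y (fun i => (x i : UnitAddCircle)) = e (∑ i, (y i : ℝ) * x i) := by
  have := mF_neg (-y) x
  rw [neg_neg] at this
  rw [this]
  congr 1
  rw [← sum_neg_distrib]
  refine sum_congr rfl fun i _ => ?_
  simp

/-- the unit cube -/
def cube (ι : Type) : Set (ι → ℝ) := {x | ∀ i, x i ∈ Set.Ioc (0 : ℝ) (0 + 1)}

theorem cube_meas : MeasurableSet (cube ι) := by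
  have : cube ι = Set.univ.pi fun _ => Set.Ioc (0 : ℝ) (0 + 1) := by
    ext x
    simp [cube]
  rw [this]
  exact MeasurableSet.univ_pi fun _ => measurableSet_Ioc

/-- unfolding: the integral over the space is the sum of the integrals over the cube -/
theorem unfold_cube (G : (ι → ℝ) → ℂ) (hG : Integrable G) :
    HasSum (fun z : ι → ℤ => ∫ x in cube ι, G (x - cz z)) (∫ x, G x) := by
  let s : (ι → ℤ) → Set (ι → ℝ) := fun z =>
    (fun x : ι → ℝ => x + cz z) ⁻¹' cube ι
  have hsm : ∀ z, MeasurableSet (s z) := fun z =>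
    (measurable_add_const _) cube_meas
  have hmem : ∀ z x, x ∈ s z ↔ ∀ i, x i + z i ∈ Set.Ioc (0 : ℝ) (0 + 1) := fun z x => Iff.rfl
  have hd : Pairwise (Function.onFun Disjoint s) := by
    intro z z' hne
    show Disjoint (s z) (s z')
    rw [Set.disjoint_left]
    intro x hx hx'
    apply hne
    funext i
    have h1 := (hmem z x).1 hx i
    have h2 := (hmem z' x).1 hx' i
    rw [Set.mem_Ioc] at h1 h2
    have h3 : (z i : ℝ) - z' i < 1 := by linarith [h1.2, h2.1]
    have h4 : (z' i : ℝ) - z i < 1 := by linarith [h1.1, h2.2]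
    have h5 : z i - z' i < 1 := by exact_mod_cast h3
    have h6 : z' i - z i < 1 := by exact_mod_cast h4
    omega
  have hU : (⋃ z, s z) = Set.univ := by
    rw [Set.eq_univ_iff_forall]
    intro x
    rw [Set.mem_iUnion]
    refine ⟨fun i => 1 - ⌈x i⌉, (hmem _ _).2 fun i => ?_⟩
    rw [Set.mem_Ioc]
    push_cast
    have h1 := Int.le_ceil (x i)
    have h2 := Int.ceil_lt_add_one (x i)
    constructor <;> linarith
  have h1 := hasSum_integral_iUnion (f := G) (μ := volume) hsm hd (by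
    rw [hU]; exact hG.integrableOn)
  rw [hU, setIntegral_univ] at h1
  have h2 : ∀ z : ι → ℤ, ∫ x in s z, G x = ∫ x in cube ι, G (x - cz z) := by
    intro z
    have h3 := (measurePreserving_add_right (volume : Measure (ι → ℝ))
      (cz z)).setIntegral_preimage_emb
      (measurableEmbedding_addRight _) (fun x => G (x - cz z)) (cube ι)
    rw [← h3]
    apply setIntegral_congr_fun (hsm z)
    intro x _
    show G x = G ((x + cz z) - cz z)
    congr 1
    simp
  simp only [h2] at h1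
  exact h1

theorem per_coef {F : (ι → ℝ) → ℂ} (hF : Continuous F) (hFi : Integrable F) (hd : Dom F)
    {Φ : C(UnitAddTorus ι, ℂ)}
    (hΦ : ∀ x : ι → ℝ, Φ (fun i => (x i : UnitAddCircle)) = ∑' z : ι → ℤ, F (x - cz z))
    (y : ι → ℤ) : UnitAddTorus.mFourierCoeff Φ y = ∫ x : ι → ℝ, F x * e (-(∑ i, (y i : ℝ) * x i)) := by
  set G : (ι → ℝ) → ℂ := fun x => F x * e (-(∑ i, (y i : ℝ) * x i)) with hG
  have hec : Continuous fun x : ι → ℝ => e (-(∑ i, (y i : ℝ) * x i)) :=
    e_continuous.comp (by fun_prop)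
  have hGc : Continuous G := hF.mul hec
  have hGi : Integrable G := by
    refine hFi.mul_bdd (c := 1) hec.aestronglyMeasurable (Filter.Eventually.of_forall fun x => ?_)
    rw [e_norm]
  have hsum := unfold_cube G hGi
  obtain ⟨u, hu, hdu⟩ := hd 1
  have hint : ∀ z : ι → ℤ, Integrable (fun x => G (x - cz z)) (volume.restrict (cube ι)) := fun z =>
    (hGi.comp_sub_right (cz z)).integrableOn
  have hvol : volume (cube ι) = 1 := by
    have : cube ι = Set.univ.pi fun _ => Set.Ioc (0 : ℝ) (0 + 1) := by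
      ext x
      simp [cube]
    rw [this, volume_pi_pi]
    simp
  have hn : ∀ z : ι → ℤ, ∫ x in cube ι, ‖G (x - cz z)‖ ≤ u z := by
    intro z
    have : ∫ x in cube ι, ‖G (x - cz z)‖ ≤ ∫ x in cube ι, u z := by
      refine setIntegral_mono_on (hint z).norm (by
        rw [integrableOn_const_iff]; right; rw [hvol]; exact ENNReal.one_lt_top) cube_meas ?_
      intro x hx
      show ‖F (x - cz z) * e _‖ ≤ u z
      rw [norm_mul, e_norm, mul_one]
      refine hdu x (fun i => ?_) z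
      have := hx i
      rw [Set.mem_Ioc] at this
      rw [abs_le]
      constructor <;> linarith [this.1, this.2]
    refine this.trans (le_of_eq ?_)
    rw [setIntegral_const, measureReal_def, hvol]
    simp
  have hn0 : ∀ z : ι → ℤ, 0 ≤ ∫ x in cube ι, ‖G (x - cz z)‖ := fun z =>
    integral_nonneg fun x => norm_nonneg _
  have hsn : Summable fun z : ι → ℤ => ∫ x in cube ι, ‖G (x - cz z)‖ :=
    Summable.of_nonneg_of_le hn0 hn hu
  have h1 := integral_tsum_of_summable_integral_norm hint hsn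
  rw [← hsum.tsum_eq, h1, UnitAddTorus.mFourierCoeff_eq_integral _ _ (fun _ => 0)]
  apply setIntegral_congr_fun cube_meas
  intro x hx
  show UnitAddTorus.mFourier (-y) (fun i => (x i : UnitAddCircle)) •
    Φ (fun i => (x i : UnitAddCircle)) = ∑' z : ι → ℤ, G (x - cz z)
  rw [mF_neg, hΦ, smul_eq_mul, mul_comm, ← tsum_mul_right]
  refine tsum_congr fun z => ?_
  show _ = F (x - cz z) * e (-(∑ i, (y i : ℝ) * (x i - z i)))
  have h2 : -(∑ i, (y i : ℝ) * (x i - z i)) = -(∑ i, (y i : ℝ) * x i) +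
      ((∑ i, y i * z i : ℤ) : ℝ) := by
    push_cast
    rw [← Finset.sum_neg_distrib, ← Finset.sum_neg_distrib, ← Finset.sum_add_distrib]
    apply Finset.sum_congr rfl
    intro i _
    ring
  rw [h2, e_add, e_int, mul_one]

/-- Poisson summation -/
theorem poisson {F : (ι → ℝ) → ℂ} (hF : Continuous F) (hFi : Integrable F) (hd : Dom F)
    (hs : Summable fun y : ι → ℤ => ‖∫ x : ι → ℝ, F x * e (-(∑ i, (y i : ℝ) * x i))‖) (x : ι → ℝ) :
    HasSum (fun y : ι → ℤ => (∫ u : ι → ℝ, F u * e (-(∑ i, (y i : ℝ) * u i))) *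
      e (∑ i, (y i : ℝ) * x i)) (∑' z : ι → ℤ, F (x - cz z)) := by
  obtain ⟨Φ, hΦ⟩ := per_lift hF hd
  have hco := per_coef hF hFi hd hΦ
  have hsum : Summable (UnitAddTorus.mFourierCoeff Φ) := by
    have h3 : UnitAddTorus.mFourierCoeff Φ = fun y : ι → ℤ =>
        ∫ x : ι → ℝ, F x * e (-(∑ i, (y i : ℝ) * x i)) := funext hco
    rw [h3]
    exact hs.of_norm
  have h3 := UnitAddTorus.hasSum_mFourier_series_apply_of_summable hsum
    (fun i => (x i : UnitAddCircle))
  rw [hΦ] at h3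
  refine h3.congr_fun ?_ |> id
  intro y
  rw [hco, mF_pos, smul_eq_mul]

end Pool.Agent.T2H29.SW
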