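import Pool.Agent.T2H29.SW.L9

/-!
# Three differencings, conclusion
-/

set_option autoImplicit false
set_option linter.unusedSectionVars false

namespace Pool.Agent.T2H29.SW

open Finset

variable {ι : Type} [Fintype ι] [DecidableEq ι] {p : ℕ} {X : Type}

lemma s2n (n : ℕ) : (1 : ℝ) ≤ √2 ^ n := one_le_pow₀ (by rw [Real.one_le_sqrt]; norm_num)

lemma Mv_s2 {A : Matrix ι ι ℝ} {P : ℝ} (hM : Mv A ≤ P) : Mv ((√2) • A) ≤ P := by
  rw [Mv_smul (by positivity)]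
  have h0 : 0 ≤ Mv A := inv_nonneg.2 (abs_nonneg _)
  exact (div_le_self h0 (s2n _)).trans hM

lemma ps2 (p u k : ℕ) : (p : ℝ) ^ (k * u) = ((p : ℝ) ^ u) ^ k := by
  rw [mul_comm, pow_mul]

lemma lvl3 {w : X → ℝ} (hw0 : ∀ x, 0 ≤ w x) (hw : Summable w) {W : ℝ} (hW : ∑' x, w x ≤ W)
    {o : ι} {A : Matrix ι ι ℝ} (hA : A.det ≠ 0) {F : X → (ι → ℤ) → ℂ}
    (hF : ∀ x z, ‖F x z‖ ≤ 1) {b x : ℕ} {B D : ℝ}
    (hp : p.Prime) (hx : 1 ≤ x) (hxb : x ≤ b) (hBal : Bal p o b B A) (hM : Mv A ≤ (p : ℝ) ^ b)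
    (hD : DD (Fintype.card ι) B D) {κ : ℝ} (hκ : 1 ≤ κ)
    (hfin : ∀ t : ι → ℤ, ¬ (p : ℤ) ^ x ∣ t o → ∀ c',
      S0 w ((√2) • A) c' (fun y => DF (dk p o (b - x)) (F y) t) ≤
        W * (p : ℝ) ^ b * ((p : ℝ) ^ x)⁻¹ * κ * pv p o x t) (c : ι → ℝ) :
    S1 w A c F ^ 2 ≤ (W * (p : ℝ) ^ b) ^ 2 * ((p : ℝ) ^ x)⁻¹ * (2 * x * D ^ 2 * κ) := by
  have hp0 := hp.pos
  have hW0 : 0 ≤ W := (tsum_nonneg hw0).trans hW
  have hD1 := hD.one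
  have hbx : b - (b - x) = x := by omega
  have hpx : (0 : ℝ) < (p : ℝ) ^ x := by positivity
  set κ' := W * (p : ℝ) ^ b * ((p : ℝ) ^ x)⁻¹ * κ with hκ'
  have hκ0 : 0 ≤ κ' := by positivity
  have h1 := step hw0 hw hW hA c hF hp0 (a := b - x) (by omega) hBal hM hD
    (g := fun t => κ' * pv p o x t) (K := κ' * (p : ℝ) ^ x)
    (fun t => mul_nonneg hκ0 (zero_le_one.trans (pv_one hp0 _ _ _)))
    (fun t => mul_le_mul_of_nonneg_left (pv_le hp0 _ _ _) hκ0)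
    (fun t ht c' => by rw [hbx] at ht; exact hfin t ht c')
  rw [hbx] at h1
  have h2 := vw_pv_sum hA hp (a := b - x) (by omega) hBal hM hD
  rw [hbx] at h2
  have h3 : ∑' t, vw p o A (b - x) x t * (κ' * pv p o x t) ≤ κ' * ((x : ℝ) * D * (p : ℝ) ^ x) := by
    have e : ∀ t, vw p o A (b - x) x t * (κ' * pv p o x t) =
        κ' * (vw p o A (b - x) x t * pv p o x t) := fun t => by ring
    simp_rw [e]
    rw [tsum_mul_left]
    exact mul_le_mul_of_nonneg_left h2.2 hκ0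
  have hpb : (p : ℝ) ^ (b - x) = (p : ℝ) ^ b * ((p : ℝ) ^ x)⁻¹ := by
    rw [eq_mul_inv_iff_mul_eq₀ hpx.ne', ← pow_add]
    congr 1; omega
  have hx1 : (1 : ℝ) ≤ x := by exact_mod_cast hx
  calc S1 w A c F ^ 2 ≤ W * (p : ℝ) ^ (b - x) * (D * (W * (D * (p : ℝ) ^ b)) +
      κ' * ((x : ℝ) * D * (p : ℝ) ^ x)) := by
        refine h1.trans (mul_le_mul_of_nonneg_left ?_ (by positivity))
        linarith
    _ = (W * (p : ℝ) ^ b) ^ 2 * ((p : ℝ) ^ x)⁻¹ * (D ^ 2 + x * D * κ) := by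
        rw [hpb, hκ']
        field_simp
    _ ≤ _ := by
        refine mul_le_mul_of_nonneg_left ?_ (by positivity)
        have a1 : D ^ 2 ≤ x * D ^ 2 * κ := by
          have : 1 ≤ (x : ℝ) * κ := one_le_mul_of_one_le_of_one_le hx1 hκ
          nlinarith [sq_nonneg D]
        have a2 : x * D * κ ≤ x * D ^ 2 * κ := by
          have : D ≤ D ^ 2 := by nlinarith
          have h5 : 0 ≤ (x : ℝ) * κ := by positivity
          nlinarith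
        linarith

lemma lvl2 {w : X → ℝ} (hw0 : ∀ x, 0 ≤ w x) (hw : Summable w) {W : ℝ} (hW : ∑' x, w x ≤ W)
    {o : ι} {A : Matrix ι ι ℝ} (hA : A.det ≠ 0) {F : X → (ι → ℤ) → ℂ}
    (hF : ∀ x z, ‖F x z‖ ≤ 1) {b x : ℕ} {B D : ℝ}
    (hp : p.Prime) (hx : 1 ≤ x) (hxb : x ≤ b) (hBal : Bal p o b B A) (hM : Mv A ≤ (p : ℝ) ^ b)
    (hD : DD (Fintype.card ι) B D) {κ : ℝ} (hκ : 1 ≤ κ)
    (hfin : ∀ t : ι → ℤ, ¬ (p : ℤ) ^ x ∣ t o → ∀ c',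
      S0 w ((√2) • A) c' (fun y => DF (dk p o (b - x)) (F y) t) ^ 2 ≤
        (W * (p : ℝ) ^ b) ^ 2 * (((p : ℝ) ^ x)⁻¹) ^ 2 * κ * pv p o x t) (c : ι → ℝ) :
    S1 w A c F ^ 4 ≤ (W * (p : ℝ) ^ b) ^ 4 * (((p : ℝ) ^ x)⁻¹) ^ 2 * (4 * x * D ^ 4 * κ) := by
  have hp0 := hp.pos
  have hW0 : 0 ≤ W := (tsum_nonneg hw0).trans hW
  have hD1 := hD.one
  have hbx : b - (b - x) = x := by omega
  have hpx : (0 : ℝ) < (p : ℝ) ^ x := by positivity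
  set κ' := (W * (p : ℝ) ^ b) ^ 2 * (((p : ℝ) ^ x)⁻¹) ^ 2 * κ with hκ'
  have hκ0 : 0 ≤ κ' := by positivity
  have hpv0 : ∀ t, 0 ≤ κ' * pv p o x t :=
    fun t => mul_nonneg hκ0 (zero_le_one.trans (pv_one hp0 _ _ _))
  have hpvK : ∀ t, √(κ' * pv p o x t) ≤ √(κ' * (p : ℝ) ^ x) :=
    fun t => Real.sqrt_le_sqrt (mul_le_mul_of_nonneg_left (pv_le hp0 _ _ _) hκ0)
  have h1 := step hw0 hw hW hA c hF hp0 (a := b - x) (by omega) hBal hM hD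
    (g := fun t => √(κ' * pv p o x t)) (K := √(κ' * (p : ℝ) ^ x))
    (fun t => Real.sqrt_nonneg _) hpvK
    (fun t ht c' => by
      rw [hbx] at ht
      exact Real.le_sqrt_of_sq_le (hfin t ht c'))
  rw [hbx] at h1
  have h2 := vw_pv_sum hA hp (a := b - x) (by omega) hBal hM hD
  rw [hbx] at h2
  have h2' := vw_sum hA hp0 (a := b - x) (by omega) hBal hM hD
  rw [hbx] at h2'
  set σ := ∑' t, vw p o A (b - x) x t * √(κ' * pv p o x t) with hσ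
  have hσ0 : 0 ≤ σ := tsum_nonneg fun t => mul_nonneg (vw_nonneg _ _ _ _ _) (Real.sqrt_nonneg _)
  have h3 : σ ^ 2 ≤ (D * (p : ℝ) ^ x) * (κ' * ((x : ℝ) * D * (p : ℝ) ^ x)) := by
    have h4 := avg_sq (fun t => vw_nonneg o A (b - x) x t) (vw_summable hp0 hA (b - x) x)
      (fun t => Real.sqrt_nonneg (κ' * pv p o x t)) hpvK
    have e : ∀ t, vw p o A (b - x) x t * √(κ' * pv p o x t) ^ 2 =
        κ' * (vw p o A (b - x) x t * pv p o x t) := fun t => by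
      rw [Real.sq_sqrt (hpv0 t)]; ring
    simp_rw [e] at h4
    rw [tsum_mul_left] at h4
    refine h4.trans (mul_le_mul h2' (mul_le_mul_of_nonneg_left h2.2 hκ0) ?_ (by positivity))
    refine mul_nonneg hκ0 (tsum_nonneg fun t => ?_)
    exact mul_nonneg (vw_nonneg _ _ _ _ _) (zero_le_one.trans (pv_one hp0 _ _ _))
  have hpb : (p : ℝ) ^ (b - x) = (p : ℝ) ^ b * ((p : ℝ) ^ x)⁻¹ := by
    rw [eq_mul_inv_iff_mul_eq₀ hpx.ne', ← pow_add]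
    congr 1; omega
  have hx1 : (1 : ℝ) ≤ x := by exact_mod_cast hx
  calc S1 w A c F ^ 4 = (S1 w A c F ^ 2) ^ 2 := by ring
    _ ≤ (W * (p : ℝ) ^ (b - x) * (D * (W * (D * (p : ℝ) ^ b)) + σ)) ^ 2 :=
        pow_le_pow_left₀ (sq_nonneg _) h1 2
    _ ≤ (W * (p : ℝ) ^ (b - x)) ^ 2 * (2 * (D * (W * (D * (p : ℝ) ^ b))) ^ 2 + 2 * σ ^ 2) := by
        rw [mul_pow]
        refine mul_le_mul_of_nonneg_left ?_ (by positivity)
        nlinarith [sq_nonneg (D * (W * (D * (p : ℝ) ^ b)) - σ)]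
    _ ≤ (W * (p : ℝ) ^ (b - x)) ^ 2 * (2 * (D * (W * (D * (p : ℝ) ^ b))) ^ 2 +
        2 * ((D * (p : ℝ) ^ x) * (κ' * ((x : ℝ) * D * (p : ℝ) ^ x)))) := by
        refine mul_le_mul_of_nonneg_left ?_ (by positivity)
        linarith
    _ = (W * (p : ℝ) ^ b) ^ 4 * (((p : ℝ) ^ x)⁻¹) ^ 2 * (2 * D ^ 4 + 2 * x * D ^ 2 * κ) := by
        rw [hpb, hκ']
        field_simp
    _ ≤ _ := by
        refine mul_le_mul_of_nonneg_left ?_ (by positivity)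
        have a0 : 1 ≤ (x : ℝ) * κ := one_le_mul_of_one_le_of_one_le hx1 hκ
        have a1 : D ^ 4 ≤ x * D ^ 4 * κ := by
          have : 0 ≤ D ^ 4 := by positivity
          nlinarith
        have a2 : x * D ^ 2 * κ ≤ x * D ^ 4 * κ := by
          have : D ^ 2 ≤ D ^ 4 := pow_le_pow_right₀ hD1 (by norm_num)
          have h5 : 0 ≤ (x : ℝ) * κ := by positivity
          nlinarith
        linarith

lemma lvl1 {w : X → ℝ} (hw0 : ∀ x, 0 ≤ w x) (hw : Summable w) {W : ℝ} (hW : ∑' x, w x ≤ W)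
    {o : ι} {A : Matrix ι ι ℝ} (hA : A.det ≠ 0) {F : X → (ι → ℤ) → ℂ}
    (hF : ∀ x z, ‖F x z‖ ≤ 1) {b x : ℕ} {B D : ℝ}
    (hp : p.Prime) (hx : 1 ≤ x) (hxb : x ≤ b) (hBal : Bal p o b B A) (hM : Mv A ≤ (p : ℝ) ^ b)
    (hD : DD (Fintype.card ι) B D) {κ : ℝ} (hκ : 1 ≤ κ)
    (hfin : ∀ t : ι → ℤ, ¬ (p : ℤ) ^ x ∣ t o → ∀ c',
      S0 w ((√2) • A) c' (fun y => DF (dk p o (b - x)) (F y) t) ^ 4 ≤
        (W * (p : ℝ) ^ b) ^ 4 * (((p : ℝ) ^ x)⁻¹) ^ 4 * κ * pv p o x t) (c : ι → ℝ) :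
    S1 w A c F ^ 8 ≤ (W * (p : ℝ) ^ b) ^ 8 * (((p : ℝ) ^ x)⁻¹) ^ 4 * (16 * x * D ^ 8 * κ) := by
  have hp0 := hp.pos
  have hW0 : 0 ≤ W := (tsum_nonneg hw0).trans hW
  have hD1 := hD.one
  have hbx : b - (b - x) = x := by omega
  have hpx : (0 : ℝ) < (p : ℝ) ^ x := by positivity
  set κ' := (W * (p : ℝ) ^ b) ^ 4 * (((p : ℝ) ^ x)⁻¹) ^ 4 * κ with hκ'
  have hκ0 : 0 ≤ κ' := by positivity
  have hpv0 : ∀ t, 0 ≤ κ' * pv p o x t :=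
    fun t => mul_nonneg hκ0 (zero_le_one.trans (pv_one hp0 _ _ _))
  have hpvK1 : ∀ t, √(κ' * pv p o x t) ≤ √(κ' * (p : ℝ) ^ x) :=
    fun t => Real.sqrt_le_sqrt (mul_le_mul_of_nonneg_left (pv_le hp0 _ _ _) hκ0)
  have hpvK : ∀ t, √√(κ' * pv p o x t) ≤ √√(κ' * (p : ℝ) ^ x) :=
    fun t => Real.sqrt_le_sqrt (hpvK1 t)
  have h1 := step hw0 hw hW hA c hF hp0 (a := b - x) (by omega) hBal hM hD
    (g := fun t => √√(κ' * pv p o x t)) (K := √√(κ' * (p : ℝ) ^ x))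
    (fun t => Real.sqrt_nonneg _) hpvK
    (fun t ht c' => by
      rw [hbx] at ht
      refine Real.le_sqrt_of_sq_le (Real.le_sqrt_of_sq_le ?_)
      rw [← pow_mul]
      exact hfin t ht c')
  rw [hbx] at h1
  have h2 := vw_pv_sum hA hp (a := b - x) (by omega) hBal hM hD
  rw [hbx] at h2
  have h2' := vw_sum hA hp0 (a := b - x) (by omega) hBal hM hD
  rw [hbx] at h2'
  have hV0 : 0 ≤ ∑' t, vw p o A (b - x) x t := tsum_nonneg fun t => vw_nonneg _ _ _ _ _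
  set σ := ∑' t, vw p o A (b - x) x t * √√(κ' * pv p o x t) with hσ
  set σ2 := ∑' t, vw p o A (b - x) x t * √(κ' * pv p o x t) with hσ2
  have hσ0 : 0 ≤ σ := tsum_nonneg fun t => mul_nonneg (vw_nonneg _ _ _ _ _) (Real.sqrt_nonneg _)
  have hσ20 : 0 ≤ σ2 := tsum_nonneg fun t => mul_nonneg (vw_nonneg _ _ _ _ _) (Real.sqrt_nonneg _)
  have h3 : σ2 ^ 2 ≤ (D * (p : ℝ) ^ x) * (κ' * ((x : ℝ) * D * (p : ℝ) ^ x)) := by
    have h4 := avg_sq (fun t => vw_nonneg o A (b - x) x t) (vw_summable hp0 hA (b - x) x)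
      (fun t => Real.sqrt_nonneg (κ' * pv p o x t)) hpvK1
    have e : ∀ t, vw p o A (b - x) x t * √(κ' * pv p o x t) ^ 2 =
        κ' * (vw p o A (b - x) x t * pv p o x t) := fun t => by
      rw [Real.sq_sqrt (hpv0 t)]; ring
    simp_rw [e] at h4
    rw [tsum_mul_left] at h4
    refine h4.trans (mul_le_mul h2' (mul_le_mul_of_nonneg_left h2.2 hκ0) ?_ (by positivity))
    refine mul_nonneg hκ0 (tsum_nonneg fun t => ?_)
    exact mul_nonneg (vw_nonneg _ _ _ _ _) (zero_le_one.trans (pv_one hp0 _ _ _))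
  have h3' : σ ^ 2 ≤ (D * (p : ℝ) ^ x) * σ2 := by
    have h4 := avg_sq (fun t => vw_nonneg o A (b - x) x t) (vw_summable hp0 hA (b - x) x)
      (fun t => Real.sqrt_nonneg (√(κ' * pv p o x t))) hpvK
    have e : ∀ t, vw p o A (b - x) x t * √√(κ' * pv p o x t) ^ 2 =
        vw p o A (b - x) x t * √(κ' * pv p o x t) := fun t => by
      rw [Real.sq_sqrt (Real.sqrt_nonneg _)]
    simp_rw [e] at h4
    exact h4.trans (mul_le_mul_of_nonneg_right h2' hσ20)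
  have h3'' : σ ^ 4 ≤ (D * (p : ℝ) ^ x) ^ 2 * ((D * (p : ℝ) ^ x) * (κ' * ((x : ℝ) * D * (p : ℝ) ^ x))) := by
    calc σ ^ 4 = (σ ^ 2) ^ 2 := by ring
      _ ≤ ((D * (p : ℝ) ^ x) * σ2) ^ 2 := pow_le_pow_left₀ (sq_nonneg _) h3' 2
      _ = (D * (p : ℝ) ^ x) ^ 2 * σ2 ^ 2 := by ring
      _ ≤ _ := mul_le_mul_of_nonneg_left h3 (sq_nonneg _)
  have hpb : (p : ℝ) ^ (b - x) = (p : ℝ) ^ b * ((p : ℝ) ^ x)⁻¹ := by
    rw [eq_mul_inv_iff_mul_eq₀ hpx.ne', ← pow_add]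
    congr 1; omega
  have hx1 : (1 : ℝ) ≤ x := by exact_mod_cast hx
  set α := D * (W * (D * (p : ℝ) ^ b)) with hα
  have hα0 : 0 ≤ α := by positivity
  have h8 : (α + σ) ^ 4 ≤ 8 * α ^ 4 + 8 * σ ^ 4 := by
    have k1 : (α + σ) ^ 2 ≤ 2 * α ^ 2 + 2 * σ ^ 2 := by nlinarith [sq_nonneg (α - σ)]
    calc (α + σ) ^ 4 = ((α + σ) ^ 2) ^ 2 := by ring
      _ ≤ (2 * α ^ 2 + 2 * σ ^ 2) ^ 2 := pow_le_pow_left₀ (sq_nonneg _) k1 2
      _ ≤ _ := by nlinarith [sq_nonneg (α ^ 2 - σ ^ 2)]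
  calc S1 w A c F ^ 8 = (S1 w A c F ^ 2) ^ 4 := by ring
    _ ≤ (W * (p : ℝ) ^ (b - x) * (α + σ)) ^ 4 :=
        pow_le_pow_left₀ (sq_nonneg _) h1 4
    _ ≤ (W * (p : ℝ) ^ (b - x)) ^ 4 * (8 * α ^ 4 + 8 * σ ^ 4) := by
        rw [mul_pow]
        exact mul_le_mul_of_nonneg_left h8 (by positivity)
    _ ≤ (W * (p : ℝ) ^ (b - x)) ^ 4 * (8 * α ^ 4 +
        8 * ((D * (p : ℝ) ^ x) ^ 2 * ((D * (p : ℝ) ^ x) * (κ' * ((x : ℝ) * D * (p : ℝ) ^ x))))) := by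
        refine mul_le_mul_of_nonneg_left ?_ (by positivity)
        linarith
    _ = (W * (p : ℝ) ^ b) ^ 8 * (((p : ℝ) ^ x)⁻¹) ^ 4 * (8 * D ^ 8 + 8 * x * D ^ 4 * κ) := by
        rw [hpb, hκ', hα]
        field_simp
    _ ≤ _ := by
        refine mul_le_mul_of_nonneg_left ?_ (by positivity)
        have a0 : 1 ≤ (x : ℝ) * κ := one_le_mul_of_one_le_of_one_le hx1 hκ
        have a1 : D ^ 8 ≤ x * D ^ 8 * κ := by
          have : 0 ≤ D ^ 8 := by positivity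
          nlinarith
        have a2 : x * D ^ 4 * κ ≤ x * D ^ 8 * κ := by
          have : D ^ 4 ≤ D ^ 8 := pow_le_pow_right₀ hD1 (by norm_num)
          have h5 : 0 ≤ (x : ℝ) * κ := by positivity
          nlinarith
        linarith

/-- three steps of differencing -/
theorem three {w : X → ℝ} (hw0 : ∀ x, 0 ≤ w x) (hw : Summable w) {W : ℝ} (hW : ∑' x, w x ≤ W)
    {o : ι} {A : Matrix ι ι ℝ} (hA : A.det ≠ 0) {F : X → (ι → ℤ) → ℂ}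
    (hF : ∀ x z, ‖F x z‖ ≤ 1) {b u : ℕ} {B D : ℝ}
    (hp : p.Prime) (hu : 1 ≤ u) (hub : 4 * u ≤ b) (hBal : Bal p o b B A) (hM : Mv A ≤ (p : ℝ) ^ b)
    (hD : DD (Fintype.card ι) B D) {κ : ℝ} (hκ : 1 ≤ κ)
    (hfin : ∀ t1 t2 t3 : ι → ℤ, ¬ (p : ℤ) ^ u ∣ t1 o → ¬ (p : ℤ) ^ (2 * u) ∣ t2 o →
      ¬ (p : ℤ) ^ (4 * u) ∣ t3 o → ∀ c', S0 w ((√2) • (√2) • (√2) • A) c'
        (fun y => DF (dk p o (b - 4 * u)) (DF (dk p o (b - 2 * u)) (DF (dk p o (b - u)) (F y) t1) t2) t3) ≤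
        W * (p : ℝ) ^ b * ((p : ℝ) ^ (4 * u))⁻¹ * (κ * pv p o u t1 * pv p o (2 * u) t2) *
          pv p o (4 * u) t3) (c : ι → ℝ) :
    S1 w A c F ^ 8 ≤ (W * (p : ℝ) ^ b) ^ 8 * ((p : ℝ) ^ (4 * u))⁻¹ *
      (1024 * u ^ 3 * D ^ 14 * κ) := by
  have hp0 := hp.pos
  have hW0 : 0 ≤ W := (tsum_nonneg hw0).trans hW
  have hD1 := hD.one
  have hu1 : (1 : ℝ) ≤ u := by exact_mod_cast hu
  have hA2 : ((√2) • A).det ≠ 0 := smul_det_ne (by positivity) hA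
  have hA4 : ((√2) • (√2) • A).det ≠ 0 := smul_det_ne (by positivity) hA2
  have hM2 := Mv_s2 hM
  have hM4 := Mv_s2 hM2
  have hB2 := hBal.smul (t := √2) (by positivity)
  have hB4 := hB2.smul (t := √2) (by positivity)
  have hD2 : 1 ≤ D ^ 2 := one_le_pow₀ hD1
  have hD4 : 1 ≤ D ^ 4 := one_le_pow₀ hD1
  have hpX : (p : ℝ) ^ (4 * u) = ((p : ℝ) ^ u) ^ 4 := by rw [← pow_mul]; congr 1; ring
  have hpX2 : (p : ℝ) ^ (2 * u) = ((p : ℝ) ^ u) ^ 2 := by rw [← pow_mul]; congr 1; ring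
  have hX : 0 < (p : ℝ) ^ u := by positivity
  -- level 3
  have L3 : ∀ t1 t2 : ι → ℤ, ¬ (p : ℤ) ^ u ∣ t1 o → ¬ (p : ℤ) ^ (2 * u) ∣ t2 o → ∀ c',
      S1 w ((√2) • (√2) • A) c' (fun y => DF (dk p o (b - 2 * u)) (DF (dk p o (b - u)) (F y) t1) t2) ^ 2 ≤
      (W * (p : ℝ) ^ b) ^ 2 * ((p : ℝ) ^ (4 * u))⁻¹ * (2 * (4 * u : ℕ) * D ^ 2 *
        (κ * pv p o u t1 * pv p o (2 * u) t2)) := by
    intro t1 t2 ht1 ht2 c'
    refine lvl3 hw0 hw hW hA4 (fun x z => DF_norm (fun z => DF_norm (hF x) t1 z) t2 z) hp (by omega)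
      hub hB4 hM4 hD ?_ (fun t ht c' => hfin t1 t2 t ht1 ht2 ht c') c'
    have a1 := pv_one hp0 o u t1
    have a2 := pv_one hp0 o (2 * u) t2
    exact one_le_mul_of_one_le_of_one_le (one_le_mul_of_one_le_of_one_le hκ a1) a2
  -- level 2
  have L2 : ∀ t1 : ι → ℤ, ¬ (p : ℤ) ^ u ∣ t1 o → ∀ c',
      S1 w ((√2) • A) c' (fun y => DF (dk p o (b - u)) (F y) t1) ^ 4 ≤
      (W * (p : ℝ) ^ b) ^ 4 * (((p : ℝ) ^ (2 * u))⁻¹) ^ 2 * (4 * (2 * u : ℕ) * D ^ 4 *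
        (8 * u * D ^ 2 * κ * pv p o u t1)) := by
    intro t1 ht1 c'
    have a1 := pv_one hp0 o u t1
    refine lvl2 hw0 hw hW hA2 (fun x z => DF_norm (hF x) t1 z) hp (by omega)
      (by omega) hB2 hM2 hD ?_ (fun t ht c' => ?_) c'
    · refine one_le_mul_of_one_le_of_one_le (one_le_mul_of_one_le_of_one_le ?_ hκ) a1
      nlinarith
    · have h1 := L3 t1 t ht1 ht c'
      have h2 := S0_le hw0 hw hA4 c' (F := fun y => DF (dk p o (b - 2 * u)) (DF (dk p o (b - u)) (F y) t1) t)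
        (fun x z => DF_norm (fun z => DF_norm (hF x) t1 z) t z)
      refine (pow_le_pow_left₀ (norm_nonneg _) h2 2).trans (h1.trans (le_of_eq ?_))
      rw [hpX, hpX2]
      push_cast
      field_simp
      ring
  -- level 1
  have L1 := lvl1 hw0 hw hW hA hF hp hu (by omega) hBal hM hD (κ := 8 * u * D ^ 4 * (8 * u * D ^ 2 * κ))
    ?_ (fun t ht c' => ?_) c
  · refine L1.trans (le_of_eq ?_)
    rw [hpX]
    field_simp
    ring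
  · have a1 : 1 ≤ 8 * (u : ℝ) * D ^ 4 := by nlinarith
    have a2 : 1 ≤ 8 * (u : ℝ) * D ^ 2 := by nlinarith
    exact one_le_mul_of_one_le_of_one_le a1 (one_le_mul_of_one_le_of_one_le a2 hκ)
  · have h1 := L2 t ht c'
    have h2 := S0_le hw0 hw hA2 c' (F := fun y => DF (dk p o (b - u)) (F y) t)
        (fun x z => DF_norm (hF x) t z)
    refine (pow_le_pow_left₀ (norm_nonneg _) h2 4).trans (h1.trans (le_of_eq ?_))
    rw [hpX2]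
    push_cast
    field_simp
    ring

end Pool.Agent.T2H29.SW
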