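import Pool.Agent.T2H29.SW.L10

/-!
# The sums after three differencings
-/

set_option autoImplicit false
set_option linter.unusedSectionVars false

namespace Pool.Agent.T2H29.SW

open Finset
open Pool.Agent.Y766.R7 (S_SQ aa S_BR dif3 eh ek Lam kap psi1 psi2 S_TD S_VAR S_INJ)

variable {ι : Type} [Fintype ι] [DecidableEq ι] {p : ℕ}

lemma hsq : S_SQ := Pool.Agent.Y155.R7.sq_main
lemma htd : S_TD := Pool.Agent.Y948.R7.td hsq
lemma hvar : S_VAR := Pool.Agent.Y948.R7.var hsq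
lemma hinj : S_INJ := Pool.Agent.Y924.R7.Inj.inj hsq
lemma hbr : S_BR := Pool.Agent.Y924.R7.Br.br hsq

/-- the weights on a residue class -/
noncomputable def wl (p : ℕ) (o : ι) (l0 : ℤ) (A : Matrix ι ι ℝ) (x : ι → ℤ) : ℝ :=
  if (p : ℤ) ∣ x o - l0 then gs A 0 x else 0

lemma wl_nonneg (o : ι) (l0 : ℤ) (A : Matrix ι ι ℝ) (x : ι → ℤ) : 0 ≤ wl p o l0 A x := by
  unfold wl
  split_ifs
  · exact (gs_pos _ _ _).le
  · exact le_rfl

lemma wl_le (o : ι) (l0 : ℤ) (A : Matrix ι ι ℝ) (x : ι → ℤ) : wl p o l0 A x ≤ gs A 0 x := by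
  unfold wl
  split_ifs
  · exact le_rfl
  · exact (gs_pos _ _ _).le

lemma wl_summable (o : ι) (l0 : ℤ) {A : Matrix ι ι ℝ} (hA : A.det ≠ 0) :
    Summable (wl p o l0 A) :=
  Summable.of_nonneg_of_le (fun x => wl_nonneg _ _ _ _) (fun x => wl_le _ _ _ _)
    (gs_summable hA 0)

lemma wl_sum (hp : 0 < p) (o : ι) (l0 : ℤ) {A : Matrix ι ι ℝ} (hA : A.det ≠ 0) {B : ℝ}
    (hB : CB B A) {b' : ℕ} (hM : Mv A ≤ (p : ℝ) ^ b') :
    ∑' x, wl p o l0 A x ≤ 2 * B * (p : ℝ) ^ b' := by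
  have h1 : ∑' x, wl p o l0 A x ≤ ∑' x, gs A 0 x :=
    (wl_summable o l0 hA).tsum_le_tsum (fun x => wl_le _ _ _ _) (gs_summable hA 0)
  refine h1.trans ((hB.one 0).trans ?_)
  have hpb : (1 : ℝ) ≤ (p : ℝ) ^ b' := one_le_pow₀ (by exact_mod_cast hp)
  have := mul_le_mul_of_nonneg_left (show 1 + Mv A ≤ 2 * (p : ℝ) ^ b' by linarith) hB.nonneg
  linarith

/-- the factorisation of a good shift -/
lemma good_factor (hp : p.Prime) {x : ℕ} {n : ℤ} (h : ¬ (p : ℤ) ^ x ∣ n) :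
    ∃ (v : ℕ) (n' : ℤ), v < x ∧ n = (p : ℤ) ^ v * n' ∧ ¬ (p : ℤ) ∣ n' ∧
      min x (padicValInt p n) = v := by
  haveI : Fact p.Prime := ⟨hp⟩
  have h0 : n ≠ 0 := fun h' => h (h' ▸ dvd_zero _)
  have hv : padicValInt p n < x := by
    by_contra hcon
    push Not at hcon
    apply h
    rw [padicValInt_dvd_iff]
    exact Or.inr hcon
  obtain ⟨n', hn'⟩ := padicValInt_dvd (p := p) n
  refine ⟨padicValInt p n, n', hv, hn', ?_, min_eq_right hv.le⟩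
  rintro ⟨m, rfl⟩
  have h2 : (p : ℤ) ^ (padicValInt p n + 1) ∣ n := ⟨m, by rw [pow_succ, mul_assoc]; exact hn'⟩
  rw [padicValInt_dvd_iff] at h2
  rcases h2 with h2 | h2
  · exact h0 h2
  · omega

/-- the main bound after three differencings -/
theorem fin3 {r : ℕ} [NeZero (p ^ r)] (hp : p.Prime) (hp7 : 7 ≤ p) (hr : 1 ≤ r)
    {l0 h0 : ℤ} (hl0 : ¬ (p : ℤ) ∣ l0) (hh0 : ¬ (p : ℤ) ∣ h0) {Ψ : ZMod (p ^ r) → ℂ}
    (hΨ : ∀ y, ‖Ψ y‖ = 1) {u b b' : ℕ} (hu : 1 ≤ u)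
    (hΨ2 : ∀ y z : ZMod (p ^ r), Ψ (y + (p : ZMod (p ^ r)) ^ u * z) = Ψ y)
    {Y C : ZMod (p ^ r)} (hC : IsUnit C) {E : (ι → ℤ) → ℂ} (hE1 : ∀ z, ‖E z‖ = 1)
    (hE2 : ∀ z s, E (z + s) = E z * E s) {o : ι} {A1 A2 : Matrix ι ι ℝ} (hA1 : A1.det ≠ 0)
    (hA2 : A2.det ≠ 0) {B : ℝ} (hB1 : Bal p o r B A1) (hB2 : Bal p o r B A2)
    (hM1 : Mv A1 ≤ (p : ℝ) ^ b') (hM2 : Mv A2 ≤ (p : ℝ) ^ b)
    (c1 : 4 * u ≤ b') (c2 : 5 * u ≤ b) (c3 : r + 11 * u ≤ 4 * b + b') (c4 : 3 * b ≤ r + 3 * u)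
    (c5 : r ≤ 7 * (b - 4 * u)) {t1 t2 t3 : ι → ℤ} (ht1 : ¬ (p : ℤ) ^ u ∣ t1 o)
    (ht2 : ¬ (p : ℤ) ^ (2 * u) ∣ t2 o) (ht3 : ¬ (p : ℤ) ^ (4 * u) ∣ t3 o) (c : ι → ℝ) :
    S0 (wl p o l0 A1) A2 c (fun y => DF (dk p o (b - 4 * u)) (DF (dk p o (b - 2 * u))
      (DF (dk p o (b - u)) (fun z => E z * gf p r l0 h0 Ψ Y C (y o) (z o)) t1) t2) t3) ≤
      4 * B ^ 2 * (p : ℝ) ^ 2 * (p : ℝ) ^ (b + b' - 4 * u) *
        (pv p o u t1 * pv p o (2 * u) t2 * pv p o (4 * u) t3) := by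
  have hp0 := hp.pos
  have hp1 : (1 : ℝ) ≤ p := by exact_mod_cast hp0
  have hp2 : p ≠ 2 := by omega
  obtain ⟨v1, n1, hv1, e1, hn1, w1⟩ := good_factor hp ht1
  obtain ⟨v2, n2, hv2, e2, hn2, w2⟩ := good_factor hp ht2
  obtain ⟨v3, n3, hv3, e3, hn3, w3⟩ := good_factor hp ht3
  have hpv : pv p o u t1 * pv p o (2 * u) t2 * pv p o (4 * u) t3 = (p : ℝ) ^ (v1 + v2 + v3) := by
    unfold pv
    rw [w1, w2, w3, pow_add, pow_add]
  rw [hpv]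
  set a1 := b - u with ha1
  set a2 := b - 2 * u with ha2
  set a3 := b - 4 * u with ha3
  set s1 := sc (dk p o a1) t1 with hs1
  set s2 := sc (dk p o a2) t2 with hs2
  set s3 := sc (dk p o a3) t3 with hs3
  have f1 : s1 o = (p : ℤ) ^ (a1 + v1) * n1 := by
    rw [hs1, sc_dk_o, e1, pow_add]; ring
  have f2 : s2 o = (p : ℤ) ^ (a2 + v2) * n2 := by
    rw [hs2, sc_dk_o, e2, pow_add]; ring
  have f3 : s3 o = (p : ℤ) ^ (a3 + v3) * n3 := by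
    rw [hs3, sc_dk_o, e3, pow_add]; ring
  have g1 : (p : ℤ) ^ a3 ∣ s1 o := by
    rw [f1]; exact Dvd.dvd.mul_right (pow_dvd_pow _ (by omega)) _
  have g2 : (p : ℤ) ^ a3 ∣ s2 o := by
    rw [f2]; exact Dvd.dvd.mul_right (pow_dvd_pow _ (by omega)) _
  have g3 : (p : ℤ) ^ a3 ∣ s3 o := by
    rw [f3]; exact Dvd.dvd.mul_right (pow_dvd_pow _ (by omega)) _
  have hpd : (p : ℤ) ∣ (p : ℤ) ^ a3 := dvd_pow_self _ (by omega)
  set τ := a1 + a2 + a3 + (v1 + v2 + v3) with hτ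
  have hS : s1 o * s2 o * s3 o = (p : ℤ) ^ τ * (n1 * n2 * n3) := by
    rw [f1, f2, f3, hτ]; ring
  have hpi : Prime (p : ℤ) := Nat.prime_iff_prime_int.1 hp
  have hS' : ¬ (p : ℤ) ∣ n1 * n2 * n3 := by
    intro h
    rcases hpi.dvd_or_dvd h with h | h
    · rcases hpi.dvd_or_dvd h with h | h
      · exact hn1 h
      · exact hn2 h
    · exact hn3 h
  set f : ℤ → ℤ → ZMod (p ^ r) := fun l h => C * (((s1 o * s2 o * s3 o : ℤ) : ZMod (p ^ r)) *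
    Lam p r l0 h0 (s1 o) (s2 o) (s3 o) l h) with hf
  have hval : ∀ x z : ι → ℤ, DF (dk p o a3) (DF (dk p o a2)
      (DF (dk p o a1) (fun z => E z * gf p r l0 h0 Ψ Y C (x o) (z o)) t1) t2) t3 z =
      if (p : ℤ) ∣ z o - h0 then ps (f (x o) (z o)) else 0 := by
    intro x z
    rw [tripleL hsq hp hp2 hr (a := a3) (u := u) (by omega) (by omega) hh0 hΨ hΨ2 Y C hE1 hE2 o
      (dk p o a1) (dk p o a2) (dk p o a3) t1 t2 t3 z (x o) g1 g2 g3]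
    by_cases hz : (p : ℤ) ∣ z o - h0
    · rw [if_pos hz, if_pos hz]
      congr 1
      rw [← hs1, ← hs2, ← hs3, htd p r a3 hp hp2 hr (by omega) (by omega) h0 (z o) _ _ _ hh0 hz g1 g2 g3]
      simp only [hf]
      unfold Lam
      ring
    · rw [if_neg hz, if_neg hz]
  have hgs : ∀ x : ι → ℤ, ((wl p o l0 A1 x : ℝ) : ℂ) * GS A2 c (DF (dk p o a3) (DF (dk p o a2)
      (DF (dk p o a1) (fun z => E z * gf p r l0 h0 Ψ Y C (x o) (z o)) t1) t2) t3) =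
      (gs A1 0 x : ℂ) * GS A2 c (fun z => if (p : ℤ) ∣ x o - l0 ∧ (p : ℤ) ∣ z o - h0 then
        ps (f (x o) (z o)) else 0) := by
    intro x
    have e4 : DF (dk p o a3) (DF (dk p o a2)
      (DF (dk p o a1) (fun z => E z * gf p r l0 h0 Ψ Y C (x o) (z o)) t1) t2) t3 =
      fun z => if (p : ℤ) ∣ z o - h0 then ps (f (x o) (z o)) else 0 := funext (hval x)
    rw [e4]
    unfold wl
    by_cases hx : (p : ℤ) ∣ x o - l0
    · rw [if_pos hx]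
      congr 2
      funext z
      by_cases hz : (p : ℤ) ∣ z o - h0
      · rw [if_pos hz, if_pos ⟨hx, hz⟩]
      · rw [if_neg hz, if_neg fun h => hz h.2]
    · rw [if_neg hx]
      have e5 : (fun z : ι → ℤ => if (p : ℤ) ∣ x o - l0 ∧ (p : ℤ) ∣ z o - h0 then
        ps (f (x o) (z o)) else 0) = fun _ => 0 := by
        funext z
        rw [if_neg fun h => hx h.1]
      rw [e5]
      unfold GS
      simp
  have hB := hB1.zero.nonneg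
  have hp4 : (p : ℝ) ^ (b + b' - 4 * u) ≤ (p : ℝ) ^ (b + b' - 4 * u) * (p : ℝ) ^ (v1 + v2 + v3) :=
    le_mul_of_one_le_right (by positivity) (one_le_pow₀ hp1)
  by_cases hR : τ < r
  · obtain ⟨R, hR'⟩ := Nat.exists_eq_add_of_lt hR
    have hr' : r = τ + (R + 1) := by omega
    haveI : NeZero (p ^ (R + 1)) := ⟨by positivity⟩
    have H := phase3 (r := r) (τ := τ) hsq hvar hinj hp hp7 hr hl0 hh0 (hpd.trans g1) (hpd.trans g2)
      (hpd.trans g3) hS hS' hC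
    have hcs := cs2 hp hr' (by omega) H (GP_eq hr' (by omega) H)
    have hcom := com2 (R := R + 1) hp0 o hA1 hA2 (hB1 _ (by omega)) (hB2 _ (by omega)) 0 c hcs
    unfold S0
    rw [tsum_congr hgs]
    have e6 : ∀ x : ι → ℤ, (gs A1 0 x : ℂ) * GS A2 c (fun z => if (p : ℤ) ∣ x o - l0 ∧
        (p : ℤ) ∣ z o - h0 then ps (f (x o) (z o)) else 0) =
        (gs A1 0 x : ℂ) * GS A2 c (fun z => GP p r (R + 1) l0 h0 f (x o) (z o)) := by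
      intro x
      congr 2
      funext z
      rw [GP_eq hr' (by omega) H]
    rw [tsum_congr e6]
    refine hcom.trans ?_
    have hPR : (0 : ℝ) < (p : ℝ) ^ (R + 1) := by positivity
    have k1 : (((p : ℝ) ^ (R + 1))⁻¹) ^ 2 * ((p : ℝ) ^ (R + 1 + 2) * (B * (Mv A1 + (p : ℝ) ^ (R + 1))) *
        (B * (Mv A2 + (p : ℝ) ^ (R + 1)))) = B ^ 2 * (p : ℝ) ^ 2 * (((p : ℝ) ^ (R + 1))⁻¹ *
        ((Mv A1 + (p : ℝ) ^ (R + 1)) * (Mv A2 + (p : ℝ) ^ (R + 1)))) := by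
      rw [pow_add (p : ℝ) (R + 1) 2]
      field_simp
    rw [k1]
    have hMv1 := Mv_pos hA1
    have hMv2 := Mv_pos hA2
    have k2 : ((p : ℝ) ^ (R + 1))⁻¹ *
        ((Mv A1 + (p : ℝ) ^ (R + 1)) * (Mv A2 + (p : ℝ) ^ (R + 1))) ≤
        4 * ((p : ℝ) ^ (b + b' - 4 * u) * (p : ℝ) ^ (v1 + v2 + v3)) := by
      have k3 : ((p : ℝ) ^ (R + 1))⁻¹ *
        ((Mv A1 + (p : ℝ) ^ (R + 1)) * (Mv A2 + (p : ℝ) ^ (R + 1))) ≤
        ((p : ℝ) ^ (R + 1))⁻¹ *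
        (((p : ℝ) ^ b' + (p : ℝ) ^ (R + 1)) * ((p : ℝ) ^ b + (p : ℝ) ^ (R + 1))) := by
        refine mul_le_mul_of_nonneg_left ?_ (by positivity)
        exact mul_le_mul (by linarith) (by linarith) (by positivity) (by positivity)
      refine k3.trans ?_
      have k4 : ((p : ℝ) ^ (R + 1))⁻¹ *
        (((p : ℝ) ^ b' + (p : ℝ) ^ (R + 1)) * ((p : ℝ) ^ b + (p : ℝ) ^ (R + 1))) =
        ((p : ℝ) ^ (R + 1))⁻¹ * (p : ℝ) ^ (b + b') + (p : ℝ) ^ b' + (p : ℝ) ^ b + (p : ℝ) ^ (R + 1) := by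
        rw [pow_add]
        field_simp
        ring
      rw [k4]
      have m1 : ((p : ℝ) ^ (R + 1))⁻¹ * (p : ℝ) ^ (b + b') ≤
          (p : ℝ) ^ (b + b' - 4 * u) * (p : ℝ) ^ (v1 + v2 + v3) := by
        rw [inv_mul_le_iff₀ hPR, ← pow_add, ← pow_add]
        exact pow_le_pow_right₀ hp1 (by omega)
      have m2 : (p : ℝ) ^ b' ≤ (p : ℝ) ^ (b + b' - 4 * u) := pow_le_pow_right₀ hp1 (by omega)
      have m3 : (p : ℝ) ^ b ≤ (p : ℝ) ^ (b + b' - 4 * u) := pow_le_pow_right₀ hp1 (by omega)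
      have m4 : (p : ℝ) ^ (R + 1) ≤ (p : ℝ) ^ (b + b' - 4 * u) := pow_le_pow_right₀ hp1 (by omega)
      linarith
    calc B ^ 2 * (p : ℝ) ^ 2 * (((p : ℝ) ^ (R + 1))⁻¹ *
        ((Mv A1 + (p : ℝ) ^ (R + 1)) * (Mv A2 + (p : ℝ) ^ (R + 1)))) ≤ B ^ 2 * (p : ℝ) ^ 2 *
        (4 * ((p : ℝ) ^ (b + b' - 4 * u) * (p : ℝ) ^ (v1 + v2 + v3))) :=
        mul_le_mul_of_nonneg_left k2 (by positivity)
      _ = _ := by ring
  · push Not at hR
    have hFb : ∀ x z : ι → ℤ, ‖(fun z => E z * gf p r l0 h0 Ψ Y C (x o) (z o)) z‖ ≤ 1 := by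
      intro x z
      rw [norm_mul, hE1, one_mul]
      exact gf_norm hΨ _ _ _ _
    have hpb : (1 : ℝ) ≤ (p : ℝ) ^ b := one_le_pow₀ hp1
    have hgb : ∑' z, gs A2 c z ≤ 2 * B * (p : ℝ) ^ b := by
      refine (hB2.zero.one c).trans ?_
      have := mul_le_mul_of_nonneg_left (show 1 + Mv A2 ≤ 2 * (p : ℝ) ^ b by linarith) hB
      linarith
    have hFF : ∀ x z : ι → ℤ, ‖DF (dk p o a3) (DF (dk p o a2)
      (DF (dk p o a1) (fun z => E z * gf p r l0 h0 Ψ Y C (x o) (z o)) t1) t2) t3 z‖ ≤ 1 := fun x z =>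
        DF_norm (fun z => DF_norm (fun z => DF_norm (hFb x) t1 z) t2 z) t3 z
    have h1 := (S0_le (fun x => wl_nonneg o l0 A1 x) (wl_summable (p := p) o l0 hA1) hA2 c hFF).trans
      (S1_le (fun x => wl_nonneg o l0 A1 x) (wl_summable (p := p) o l0 hA1) hA2 c hFF hgb)
    refine h1.trans ?_
    have h2 := wl_sum hp0 o l0 hA1 hB1.zero hM1
    calc (∑' x, wl p o l0 A1 x) * (2 * B * (p : ℝ) ^ b) ≤ (2 * B * (p : ℝ) ^ b') * (2 * B * (p : ℝ) ^ b) :=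
          mul_le_mul_of_nonneg_right h2 (by positivity)
      _ = 4 * B ^ 2 * 1 * (p : ℝ) ^ (b + b') := by rw [pow_add]; ring
      _ ≤ 4 * B ^ 2 * (p : ℝ) ^ 2 * (p : ℝ) ^ (b + b' - 4 * u + (v1 + v2 + v3)) := by
          refine mul_le_mul ?_ (pow_le_pow_right₀ hp1 (by omega)) (by positivity) (by positivity)
          refine mul_le_mul_of_nonneg_left (one_le_pow₀ hp1) (by positivity)
      _ = _ := by rw [pow_add _ (b + b' - 4 * u)]; ring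

end Pool.Agent.T2H29.SW
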