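import Pool.Agent.T2H29.SW.L11

/-!
# The functions `Φ(l / x)`
-/

set_option autoImplicit false
set_option linter.unusedSectionVars false

namespace Pool.Agent.T2H29.SW

open Finset
open Pool.Agent.Y766.R3 (KL S_KLO S_PHI FF)
open Pool.Agent.Y766.R7 (S_SQ aa S_BR)
open Pool.Agent.Y779.R3 (unit_int pi_zero)

variable {p r : ℕ}

lemma hklo : S_KLO := Pool.Agent.Y779.R3.klo
lemma hphi : S_PHI := Pool.Agent.Y870.R3.phi

open Classical in
/-- the function `Φ(l / x)` -/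
noncomputable def FL (Φ : ZMod (p ^ r) → ℂ) (l x : ZMod (p ^ r)) : ℂ :=
  if IsUnit x then Φ (l * x⁻¹) else 0

/-- the hypotheses on `Φ` -/
structure PhiD (p r u : ℕ) [NeZero (p ^ r)] (Φ : ZMod (p ^ r) → ℂ) (A : ZMod (p ^ r)) : Prop where
  norm : ∀ y, ‖Φ y‖ = 1
  unit : IsUnit A
  lin : ∀ y z : ZMod (p ^ r), Φ (y + (p : ZMod (p ^ r)) ^ u * z) =
        Φ y * ps (A * ((p : ZMod (p ^ r)) ^ u * z))

lemma FL_norm {Φ : ZMod (p ^ r) → ℂ} (h : ∀ y, ‖Φ y‖ = 1) (l x : ZMod (p ^ r)) :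
    ‖FL Φ l x‖ ≤ 1 := by
  unfold FL
  split_ifs
  · rw [h]
  · simp

/-- the periodic part -/
noncomputable def PP [NeZero (p ^ r)] (Φ : ZMod (p ^ r) → ℂ) (A y : ZMod (p ^ r)) : ℂ :=
  Φ y * ps (-(A * y))

lemma PP_norm [NeZero (p ^ r)] {Φ : ZMod (p ^ r) → ℂ} (h : ∀ y, ‖Φ y‖ = 1) (A y : ZMod (p ^ r)) :
    ‖PP Φ A y‖ = 1 := by
  unfold PP
  rw [norm_mul, h, ps_norm, one_mul]

lemma PP_per [NeZero (p ^ r)] {u : ℕ} {Φ : ZMod (p ^ r) → ℂ} {A : ZMod (p ^ r)}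
    (h : PhiD p r u Φ A) (y z : ZMod (p ^ r)) :
    PP Φ A (y + (p : ZMod (p ^ r)) ^ u * z) = PP Φ A y := by
  unfold PP
  rw [h.lin, mul_assoc, ← ps_add]
  congr 2
  ring

/-- its Fourier transform -/
lemma ft_FL [NeZero (p ^ r)] {Φ : ZMod (p ^ r) → ℂ} (A l : ZMod (p ^ r)) (hl : IsUnit l)
    (h : ZMod (p ^ r)) : ft (FL Φ l) h = KL (PP Φ A) A (l * h) := by
  classical
  unfold ft KL
  have e1 : ∑ a, FL Φ l a * ps (a * h) = ∑ a : (ZMod (p ^ r))ˣ, Φ (l * ((a⁻¹ : (ZMod (p ^ r))ˣ) : ZMod (p ^ r))) *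
      ps ((a : ZMod (p ^ r)) * h) := by
    symm
    refine sum_of_injOn (fun a : (ZMod (p ^ r))ˣ => (a : ZMod (p ^ r))) ?_ ?_ ?_ ?_
    · intro a _ b _ hab; exact Units.ext hab
    · intro a _; exact mem_coe.2 (mem_univ _)
    · intro a _ ha
      unfold FL
      rw [if_neg, zero_mul]
      rintro ⟨b, rfl⟩
      exact ha ⟨b, mem_coe.2 (mem_univ _), rfl⟩
    · intro a _
      unfold FL
      rw [if_pos a.isUnit, ZMod.inv_coe_unit]
  rw [e1]
  obtain ⟨L, rfl⟩ := hl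
  refine Fintype.sum_equiv ((Equiv.inv _).trans (Equiv.mulLeft L)) _ _ ?_
  · intro a
    have e2 : ((Equiv.inv (ZMod (p ^ r))ˣ).trans (Equiv.mulLeft L)) a = L * a⁻¹ := rfl
    rw [e2]
    unfold PP
    push_cast
    rw [mul_assoc]
    congr 1
    change _ = ps _ * ps _
    rw [← ps_add]
    congr 1
    have : ((L * a⁻¹ : (ZMod (p ^ r))ˣ)⁻¹ : (ZMod (p ^ r))ˣ) = a * L⁻¹ := by
      rw [mul_inv, inv_inv, mul_comm]
    rw [this]
    push_cast
    have hLL : (L : ZMod (p ^ r)) * ((L⁻¹ : (ZMod (p ^ r))ˣ) : ZMod (p ^ r)) = 1 := by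
      rw [← Units.val_mul, mul_inv_cancel, Units.val_one]
    linear_combination (-(a : ZMod (p ^ r)) * h) * hLL

/-- the sum over one class in both variables -/
lemma class_sum [NeZero (p ^ r)] {ι : Type} [Fintype ι] [DecidableEq ι] {u : ℕ} (hp : p.Prime)
    (hp2 : p ≠ 2) (hr : 2 ≤ r) (hu : 2 * u + 1 ≤ r) {Φ : ZMod (p ^ r) → ℂ} {A0 : ZMod (p ^ r)}
    (hΦ : PhiD p r u Φ A0) {A2 : Matrix ι ι ℝ} (hA2 : A2.det ≠ 0) {E : (ι → ℤ) → ℂ}
    (hE1 : ∀ z, ‖E z‖ = 1) (o : ι) {l0 : ℤ} (hl0 : ¬ (p : ℤ) ∣ l0) :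
    ∃ (Y : ℕ → Fin 2 → ZMod (p ^ r)), (∀ h i, IsUnit (Y h i)) ∧ ∀ l : ℤ, (p : ℤ) ∣ l - l0 →
      ‖GS A2 0 (fun w => E w * ft (FL Φ l) (w o))‖ ≤ ∑ h0 ∈ Ico 1 p, ∑ i : Fin 2,
        (p : ℝ) ^ (r / 2 + 1) * ‖GS A2 0 (fun w => E w *
          gf p r l0 h0 (PP Φ A0) (Y h0 i) (2 * A0 * Y h0 i) l (w o))‖ := by
  have hp0 := hp.pos
  have hbr' : ∀ h0 : ℕ, ∃ (ρ : Fin 2 → ℂ) (Y : Fin 2 → ZMod (p ^ r)), (∀ i, ‖ρ i‖ ≤ p) ∧
      (∀ i, IsUnit (Y i)) ∧ (¬ (p : ℤ) ∣ h0 → ∀ l h : ℤ, (p : ℤ) ∣ l - l0 → (p : ℤ) ∣ h - h0 →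
      KL (PP Φ A0) A0 (1 * ((l * h : ℤ) : ZMod (p ^ r))) = (p : ℂ) ^ (r / 2) *
        ∑ i, ρ i * PP Φ A0 (Y i * (aa p r l0 l * aa p r h0 h)) *
          ZMod.stdAddChar (2 * A0 * Y i * (aa p r l0 l * aa p r h0 h))) := by
    intro h0
    by_cases hh : (p : ℤ) ∣ h0
    · exact ⟨fun _ => 0, fun _ => 1, fun _ => by simp, fun _ => isUnit_one, fun h => absurd hh h⟩
    · obtain ⟨ρ, Y, h1, h2⟩ := hbr p r u hp hp2 hr hu (PP Φ A0) (PP_per hΦ) A0 1 hΦ.unit isUnit_one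
        l0 h0 hl0 hh
      exact ⟨ρ, Y, fun i => (h1 i).1, fun i => (h1 i).2, fun _ => h2⟩
  choose ρ Y hρ hY hKL using hbr'
  refine ⟨Y, fun h i => hY h i, fun l hl => ?_⟩
  have hul : IsUnit ((l : ZMod (p ^ r))) := unit_cls hp hl0 hl
  have hk := hklo p r u hp hp2 hr (by omega) (PP Φ A0) (PP_norm hΦ.norm A0) (PP_per hΦ) A0
    (l : ZMod (p ^ r)) hΦ.unit hul
  -- pointwise decomposition
  have hpt : ∀ w : ι → ℤ, E w * ft (FL Φ l) (w o) = ∑ h0 ∈ Ico 1 p, ∑ i : Fin 2,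
      ((p : ℂ) ^ (r / 2) * ρ h0 i) * (E w *
        gf p r l0 h0 (PP Φ A0) (Y h0 i) (2 * A0 * Y h0 i) l (w o)) := by
    intro w
    rw [ft_FL A0 _ hul]
    by_cases hw : (p : ℤ) ∣ w o
    · rw [hk.2.1 (w o) hw, mul_zero]
      symm
      refine sum_eq_zero fun h0 hh0 => sum_eq_zero fun i _ => ?_
      rw [mem_Ico] at hh0
      unfold gf
      rw [if_neg, mul_zero, mul_zero]
      intro h1
      have h2 : (p : ℤ) ∣ (h0 : ℤ) := by
        have := dvd_sub hw h1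
        simpa using this
      have h3 := Nat.le_of_dvd (by omega) (by exact_mod_cast h2 : p ∣ h0)
      omega
    · set k : ℕ := (w o % p).toNat with hk'
      have hk1 : (k : ℤ) = w o % p := by
        rw [hk']
        exact Int.toNat_of_nonneg (Int.emod_nonneg _ (by exact_mod_cast hp0.ne'))
      have hk2 : (p : ℤ) ∣ w o - k := by
        rw [hk1]; exact Int.dvd_self_sub_emod
      have hk3 : k < p := by
        have : (k : ℤ) < p := by rw [hk1]; exact Int.emod_lt_of_pos _ (by exact_mod_cast hp0)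
        exact_mod_cast this
      have hk4 : ¬ (p : ℤ) ∣ (k : ℤ) := fun h => hw (by
        have := dvd_add hk2 h
        simpa using this)
      have hk5 : 1 ≤ k := by
        rcases Nat.eq_zero_or_pos k with h | h
        · rw [h] at hk4; simp at hk4
        · exact h
      rw [sum_eq_single k]
      · have h1 := hKL k hk4 l (w o) hl hk2
        rw [one_mul] at h1
        have h2 : (l : ZMod (p ^ r)) * ((w o : ℤ) : ZMod (p ^ r)) = ((l * w o : ℤ) : ZMod (p ^ r)) := by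
          push_cast; rfl
        rw [h2, h1, mul_sum, mul_sum]
        refine sum_congr rfl fun i _ => ?_
        unfold gf
        rw [if_pos hk2]
        unfold ps
        ring
      · intro h0 hh0 hne
        rw [mem_Ico] at hh0
        refine sum_eq_zero fun i _ => ?_
        unfold gf
        rw [if_neg, mul_zero, mul_zero]
        intro h1
        have h2 : (p : ℤ) ∣ (k : ℤ) - h0 := by
          have := dvd_sub h1 hk2
          have e : w o - (h0 : ℤ) - (w o - k) = (k : ℤ) - h0 := by ring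
          rwa [e] at this
        apply hne
        have h3 : (k : ℤ) - h0 = 0 := by
          refine Int.eq_zero_of_abs_lt_dvd h2 ?_
          rw [abs_lt]; constructor <;> omega
        omega
      · intro h
        exact absurd (mem_Ico.2 ⟨hk5, hk3⟩) h
  have hGn : ∀ (h0 : ℕ) (i : Fin 2) (w : ι → ℤ), ‖E w *
        gf p r l0 h0 (PP Φ A0) (Y h0 i) (2 * A0 * Y h0 i) l (w o)‖ ≤ 1 := by
    intro h0 i w
    rw [norm_mul, hE1, one_mul]
    exact gf_norm (PP_norm hΦ.norm A0) _ _ _ _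
  have hGS : GS A2 0 (fun w => E w * ft (FL Φ l) (w o)) = ∑ h0 ∈ Ico 1 p, ∑ i : Fin 2,
      ((p : ℂ) ^ (r / 2) * ρ h0 i) * GS A2 0 (fun w => E w *
        gf p r l0 h0 (PP Φ A0) (Y h0 i) (2 * A0 * Y h0 i) l (w o)) := by
    unfold GS
    have hs : ∀ (h0 : ℕ) (i : Fin 2), Summable fun w : ι → ℤ => ((p : ℂ) ^ (r / 2) * ρ h0 i) *
      ((gs A2 0 w : ℂ) * (E w * gf p r l0 h0 (PP Φ A0) (Y h0 i) (2 * A0 * Y h0 i) l (w o))) :=
      fun h0 i => ((norm_gs_sum_le hA2 0 (hGn h0 i)).1).mul_left _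
    simp_rw [← tsum_mul_left]
    rw [sum_congr rfl fun h0 _ => (Summable.tsum_finsetSum fun i _ => hs h0 i).symm]
    rw [← Summable.tsum_finsetSum fun h0 _ => summable_sum fun i _ => hs h0 i]
    refine tsum_congr fun w => ?_
    rw [hpt w, mul_sum]
    refine sum_congr rfl fun h0 _ => ?_
    rw [mul_sum]
    refine sum_congr rfl fun i _ => ?_
    ring
  rw [hGS]
  refine (norm_sum_le _ _).trans (sum_le_sum fun h0 _ => ?_)
  refine (norm_sum_le _ _).trans (sum_le_sum fun i _ => ?_)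
  rw [norm_mul, norm_mul, norm_pow, Complex.norm_natCast, pow_succ]
  exact mul_le_mul_of_nonneg_right (mul_le_mul_of_nonneg_left (hρ h0 i) (by positivity))
    (norm_nonneg _)

end Pool.Agent.T2H29.SW
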