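import Pool.Agent.T2H29.SW.L12

/-!
# The second regime
-/

set_option autoImplicit false
set_option linter.unusedSectionVars false

namespace Pool.Agent.T2H29.SW

open Finset
open Pool.Agent.Y766.R3 (KL S_KLO S_PHI FF)
open Pool.Agent.Y766.R7 (S_SQ aa S_BR)
open Pool.Agent.Y779.R3 (unit_int pi_zero)

variable {ι : Type} [Fintype ι] [DecidableEq ι] {p r : ℕ}

lemma ph_add (R : ℕ) (o : ι) (c : ι → ℝ) (z s : ι → ℤ) :
    ph p R o c (z + s) = ph p R o c z * ph p R o c s := by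
  unfold ph
  rw [← e_add]
  congr 1
  rw [← neg_add, ← sum_add_distrib]
  congr 1
  refine sum_congr rfl fun i _ => ?_
  rw [Pi.add_apply]
  push_cast
  ring

/-- the weights of the vectors with last coordinate prime to `p` -/
noncomputable def w1 (p : ℕ) (o : ι) (A : Matrix ι ι ℝ) (x : ι → ℤ) : ℝ :=
  if (p : ℤ) ∣ x o then 0 else gs A 0 x

lemma w1_nonneg (o : ι) (A : Matrix ι ι ℝ) (x : ι → ℤ) : 0 ≤ w1 p o A x := by
  unfold w1
  split_ifs
  · exact le_rfl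
  · exact (gs_pos _ _ _).le

lemma w1_le (o : ι) (A : Matrix ι ι ℝ) (x : ι → ℤ) : w1 p o A x ≤ gs A 0 x := by
  unfold w1
  split_ifs
  · exact (gs_pos _ _ _).le
  · exact le_rfl

lemma w1_split (hp : p.Prime) (o : ι) (A : Matrix ι ι ℝ) (x : ι → ℤ) :
    w1 p o A x = ∑ l0 ∈ Ico 1 p, wl p o l0 A x := by
  have hp0 := hp.pos
  unfold w1 wl
  by_cases hx : (p : ℤ) ∣ x o
  · rw [if_pos hx]
    symm
    refine sum_eq_zero fun l0 hl0 => ?_
    rw [mem_Ico] at hl0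
    rw [if_neg]
    intro h1
    have h2 : (p : ℤ) ∣ (l0 : ℤ) := by
      have := dvd_sub hx h1
      simpa using this
    have h3 := Nat.le_of_dvd (by omega) (by exact_mod_cast h2 : p ∣ l0)
    omega
  · rw [if_neg hx]
    set k : ℕ := (x o % p).toNat with hk'
    have hk1 : (k : ℤ) = x o % p := by
      rw [hk']
      exact Int.toNat_of_nonneg (Int.emod_nonneg _ (by exact_mod_cast hp0.ne'))
    have hk2 : (p : ℤ) ∣ x o - k := by
      rw [hk1]; exact Int.dvd_self_sub_emod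
    have hk3 : k < p := by
      have : (k : ℤ) < p := by rw [hk1]; exact Int.emod_lt_of_pos _ (by exact_mod_cast hp0)
      exact_mod_cast this
    have hk5 : 1 ≤ k := by
      rcases Nat.eq_zero_or_pos k with h | h
      · rw [h] at hk2
        exact absurd (by simpa using hk2) hx
      · exact h
    rw [sum_eq_single k]
    · rw [if_pos hk2]
    · intro h0 hh0 hne
      rw [mem_Ico] at hh0
      rw [if_neg]
      intro h1
      have h2 : (p : ℤ) ∣ (k : ℤ) - h0 := by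
        have := dvd_sub h1 hk2
        have e : x o - (h0 : ℤ) - (x o - k) = (k : ℤ) - h0 := by ring
        rwa [e] at this
      apply hne
      have h3 : (k : ℤ) - h0 = 0 := by
        refine Int.eq_zero_of_abs_lt_dvd h2 ?_
        rw [abs_lt]; constructor <;> omega
      omega
    · intro h
      exact absurd (mem_Ico.2 ⟨hk5, hk3⟩) h

/-- the second regime, one pair of classes -/
lemma reg2_S1 [NeZero (p ^ r)] (hp : p.Prime) (hp7 : 7 ≤ p) {ν m u μ : ℕ} (hr : r = ν - m)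
    (hu : u = ν - 3 * m) (hu1 : 1 ≤ u) (h58 : 19 * ν ≤ 58 * m) (h1 : 2 * μ ≤ ν)
    (h2 : 7 * m ≤ 3 * μ + ν) (h3 : m ≤ μ) {o : ι} {A : Matrix ι ι ℝ} (hA : A.det ≠ 0) {B D : ℝ}
    (hBal : Bal p o ν B A) (hD : DD (Fintype.card ι) B D) (hM1 : (p : ℝ) ^ μ ≤ Mv A)
    (hM2 : Mv A ≤ (p : ℝ) ^ (μ + 1)) {Ψ : ZMod (p ^ r) → ℂ} (hΨ : ∀ y, ‖Ψ y‖ = 1)
    (hΨ2 : ∀ y z : ZMod (p ^ r), Ψ (y + (p : ZMod (p ^ r)) ^ u * z) = Ψ y)
    {Y C : ZMod (p ^ r)} (hC : IsUnit C) {E : (ι → ℤ) → ℂ} (hE1 : ∀ z, ‖E z‖ = 1)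
    (hE2 : ∀ z s, E (z + s) = E z * E s) {l0 h0 : ℤ} (hl0 : ¬ (p : ℤ) ∣ l0)
    (hh0 : ¬ (p : ℤ) ∣ h0) :
    S1 (wl p o l0 (A * dgm (dk p o m))) (du (A * dgm (dk p o r))) 0
      (fun x z => E z * gf p r l0 h0 Ψ Y C (x o) (z o)) ≤
      3 * u * D ^ 3 * (p : ℝ) ^ 2 * √((p : ℝ) ^ r) := by
  have hp0 := hp.pos
  have hp1 : (1 : ℝ) ≤ p := by exact_mod_cast hp0
  have hD1 := hD.one
  have hu1' : (1 : ℝ) ≤ u := by exact_mod_cast hu1
  have hA1 : (A * dgm (dk p o m)).det ≠ 0 := det_mul_dk_ne hp0 o hA m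
  have hA2 : (du (A * dgm (dk p o r))).det ≠ 0 := du_det_ne (det_mul_dk_ne hp0 o hA r)
  have hB1 : Bal p o r B (A * dgm (dk p o m)) := hr ▸ hBal.shift (a := m) (by omega)
  have hB2 : Bal p o r B (du (A * dgm (dk p o r))) := Bal.du hp0 hA hBal (by omega)
  have hMA := Mv_pos hA
  have hMA1 : Mv (A * dgm (dk p o m)) ≤ (p : ℝ) ^ (μ + 1 - m) := by
    rw [Mv_mul, Mv_dk, ← div_eq_mul_inv, div_le_iff₀ (by positivity), ← pow_add]
    have : μ + 1 - m + m = μ + 1 := by omega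
    rw [this]; exact hM2
  have hMA2 : Mv (du (A * dgm (dk p o r))) ≤ (p : ℝ) ^ (r - μ) := by
    rw [Mv_du, Mv_mul, Mv_dk, mul_inv, inv_inv, inv_mul_le_iff₀ hMA]
    calc (p : ℝ) ^ r = (p : ℝ) ^ μ * (p : ℝ) ^ (r - μ) := by rw [← pow_add]; congr 1; omega
      _ ≤ _ := mul_le_mul_of_nonneg_right hM1 (by positivity)
  have hB := hBal.zero.nonneg
  have hBD : 4 * B ^ 2 ≤ D ^ 2 := by
    have := hD.two
    nlinarith
  set b := r - μ with hb
  set b' := μ + 1 - m with hb'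
  set W : ℝ := D * (p : ℝ) ^ b' with hW
  have hWs : ∑' x, wl p o l0 (A * dgm (dk p o m)) x ≤ W := by
    refine (wl_sum hp0 o l0 hA1 hB1.zero hMA1).trans ?_
    exact mul_le_mul_of_nonneg_right hD.two (by positivity)
  have hFn : ∀ x z : ι → ℤ, ‖E z * gf p r l0 h0 Ψ Y C (x o) (z o)‖ ≤ 1 := by
    intro x z
    rw [norm_mul, hE1, one_mul]
    exact gf_norm hΨ _ _ _ _
  have hexp : (p : ℝ) ^ (b + b' - 4 * u) * (p : ℝ) ^ (4 * u) = (p : ℝ) ^ b' * (p : ℝ) ^ b := by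
    rw [← pow_add, ← pow_add]; congr 1; omega
  have key := three (fun x => wl_nonneg o l0 (A * dgm (dk p o m)) x) (wl_summable (p := p) o l0 hA1)
    hWs hA2 hFn hp hu1 (b := b) (by omega) (hB2.mono (by omega)) hMA2 hD (κ := D * (p : ℝ) ^ 2)
    (one_le_mul_of_one_le_of_one_le hD1 (one_le_pow₀ hp1)) ?_ 0
  · -- conclusion
    refine le_of_pow_le_pow_left₀ (n := 8) (by norm_num) (by positivity) (key.trans ?_)
    have hX : 0 < (p : ℝ) ^ (4 * u) := by positivity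
    have e1 : (W * (p : ℝ) ^ b) ^ 8 * ((p : ℝ) ^ (4 * u))⁻¹ =
        D ^ 8 * (p : ℝ) ^ 8 * (√((p : ℝ) ^ r)) ^ 8 := by
      rw [mul_inv_eq_iff_eq_mul₀ hX.ne', hW]
      have : (√((p : ℝ) ^ r)) ^ 8 = (p : ℝ) ^ (4 * r) := by
        rw [show 8 = 2 * 4 by norm_num, pow_mul, Real.sq_sqrt (by positivity), ← pow_mul]
        congr 1; ring
      rw [this]
      have e2 : (D * (p : ℝ) ^ b' * (p : ℝ) ^ b) ^ 8 = D ^ 8 * (p : ℝ) ^ (8 * (b' + b)) := by
        rw [mul_assoc, ← pow_add, mul_pow, ← pow_mul]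
        congr 2; ring
      rw [e2]
      rw [mul_assoc, mul_assoc, ← pow_add, ← pow_add]
      congr 2
      omega
    rw [e1]
    have e3 : (3 * (u : ℝ) * D ^ 3 * (p : ℝ) ^ 2 * √((p : ℝ) ^ r)) ^ 8 =
        6561 * u ^ 8 * D ^ 24 * (p : ℝ) ^ 16 * (√((p : ℝ) ^ r)) ^ 8 := by ring
    rw [e3]
    have e4 : D ^ 8 * (p : ℝ) ^ 8 * (√((p : ℝ) ^ r)) ^ 8 * (1024 * (u : ℝ) ^ 3 * D ^ 14 * (D * (p : ℝ) ^ 2)) =
        1024 * u ^ 3 * D ^ 23 * (p : ℝ) ^ 10 * (√((p : ℝ) ^ r)) ^ 8 := by ring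
    rw [e4]
    refine mul_le_mul_of_nonneg_right ?_ (by positivity)
    have i1 : (u : ℝ) ^ 3 ≤ (u : ℝ) ^ 8 := pow_le_pow_right₀ hu1' (by norm_num)
    have i2 : D ^ 23 ≤ D ^ 24 := pow_le_pow_right₀ hD1 (by norm_num)
    have i3 : (p : ℝ) ^ 10 ≤ (p : ℝ) ^ 16 := pow_le_pow_right₀ hp1 (by norm_num)
    have i4 : 1024 * (u : ℝ) ^ 3 ≤ 6561 * u ^ 8 := by
      have : 0 ≤ (u : ℝ) ^ 3 := by positivity
      linarith
    exact mul_le_mul (mul_le_mul i4 i2 (by positivity) (by positivity)) i3 (by positivity)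
      (by positivity)
  · intro t1 t2 t3 ht1 ht2 ht3 c'
    have hd : ∀ {M : Matrix ι ι ℝ}, M.det ≠ 0 → ((√2) • M).det ≠ 0 :=
      fun h => smul_det_ne (by positivity) h
    have hb2 : ∀ {M : Matrix ι ι ℝ}, Bal p o r B M → Bal p o r B ((√2) • M) :=
      fun h => h.smul (by positivity)
    have hf := fin3 (A1 := A * dgm (dk p o m)) (A2 := (√2) • (√2) • (√2) • du (A * dgm (dk p o r)))
      (b := b) (b' := b') hp hp7 (by omega) hl0 hh0 hΨ hu1 hΨ2 (Y := Y) hC hE1 hE2 hA1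
      (hd (hd (hd hA2))) hB1 (hb2 (hb2 (hb2 hB2))) hMA1 (Mv_s2 (Mv_s2 (Mv_s2 hMA2)))
      (by omega) (by omega) (by omega) (by omega) (by omega) ht1 ht2 ht3 c'
    refine hf.trans ?_
    have hpp : 0 ≤ pv p o u t1 * pv p o (2 * u) t2 * pv p o (4 * u) t3 := by
      have := pv_one hp0 o u t1
      have := pv_one hp0 o (2 * u) t2
      have := pv_one hp0 o (4 * u) t3
      positivity
    have e5 : W * (p : ℝ) ^ b * ((p : ℝ) ^ (4 * u))⁻¹ = D * (p : ℝ) ^ (b + b' - 4 * u) := by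
      rw [mul_inv_eq_iff_eq_mul₀ (by positivity), mul_assoc D ((p : ℝ) ^ (b + b' - 4 * u)), hexp, hW]
      ring
    rw [e5]
    calc 4 * B ^ 2 * (p : ℝ) ^ 2 * (p : ℝ) ^ (b + b' - 4 * u) *
          (pv p o u t1 * pv p o (2 * u) t2 * pv p o (4 * u) t3)
        ≤ D ^ 2 * (p : ℝ) ^ 2 * (p : ℝ) ^ (b + b' - 4 * u) *
          (pv p o u t1 * pv p o (2 * u) t2 * pv p o (4 * u) t3) := by
          refine mul_le_mul_of_nonneg_right ?_ hpp
          refine mul_le_mul_of_nonneg_right ?_ (by positivity)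
          exact mul_le_mul_of_nonneg_right hBD (by positivity)
      _ = _ := by ring

/-- the second regime -/
theorem reg2 [NeZero (p ^ r)] (hp : p.Prime) (hp7 : 7 ≤ p) {ν m u μ : ℕ} (hr : r = ν - m)
    (hu : u = ν - 3 * m) (hu1 : 1 ≤ u) (h58 : 19 * ν ≤ 58 * m) (h1 : 2 * μ ≤ ν)
    (h2 : 7 * m ≤ 3 * μ + ν) (h3 : m ≤ μ) {o : ι} {A : Matrix ι ι ℝ} (hA : A.det ≠ 0) {B D : ℝ}
    (hBal : Bal p o ν B A) (hD : DD (Fintype.card ι) B D) (hM1 : (p : ℝ) ^ μ ≤ Mv A)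
    (hM2 : Mv A ≤ (p : ℝ) ^ (μ + 1)) {Φ : ZMod (p ^ r) → ℂ} {A0 : ZMod (p ^ r)}
    (hΦ : PhiD p r u Φ A0) (c : ι → ℝ) :
    ∑' x : ι → ℤ, w1 p o (A * dgm (dk p o m)) x *
      ‖GS A c (fun z => FL Φ (x o : ZMod (p ^ r)) (z o))‖ ≤ 6 * u * D ^ 3 * (p : ℝ) ^ 5 * Mv A := by
  have hp0 := hp.pos
  have hp1 : (1 : ℝ) ≤ p := by exact_mod_cast hp0
  have hp2 : p ≠ 2 := by omega
  have hD1 := hD.one
  have hA1 : (A * dgm (dk p o m)).det ≠ 0 := det_mul_dk_ne hp0 o hA m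
  have hA2 : (du (A * dgm (dk p o r))).det ≠ 0 := du_det_ne (det_mul_dk_ne hp0 o hA r)
  have hMA := Mv_pos hA
  set A1 := A * dgm (dk p o m) with hA1'
  set A2 := du (A * dgm (dk p o r)) with hA2'
  set E := ph p r o c with hE
  have hE1 : ∀ z, ‖E z‖ = 1 := ph_norm p r o c
  have hE2 : ∀ z s, E (z + s) = E z * E s := ph_add r o c
  set Q : ℝ := 3 * u * D ^ 3 * (p : ℝ) ^ 2 * √((p : ℝ) ^ r) with hQ
  have hQ0 : 0 ≤ Q := by positivity
  set T : (ι → ℤ) → ℝ := fun x => ‖GS A c (fun z => FL Φ (x o : ZMod (p ^ r)) (z o))‖ with hT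
  have hTp : ∀ x : ι → ℤ, T x = (Mv A / (p : ℝ) ^ r) *
      ‖GS A2 0 (fun w => E w * ft (FL Φ (x o : ZMod (p ^ r))) (w o))‖ := by
    intro x
    have := pois_res (R := r) hp0 o hA c (FL Φ (x o : ZMod (p ^ r)))
    simp only [hT]
    rw [this, norm_mul, Complex.norm_real, Real.norm_of_nonneg (by positivity)]
  have hT0 : ∀ x, 0 ≤ T x := fun x => norm_nonneg _
  have hTb : ∀ x, T x ≤ ∑' z, gs A c z := fun x =>
    GS_le hA c fun z => FL_norm hΦ.norm _ _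
  have hsl : ∀ l0 : ℤ, Summable fun x => wl p o l0 A1 x * T x := fun l0 =>
    wsum (fun x => wl_nonneg _ _ _ _) (wl_summable o l0 hA1) hT0 hTb
  -- one class
  have hcl : ∀ l0 : ℕ, ¬ (p : ℤ) ∣ (l0 : ℤ) → ∑' x, wl p o l0 A1 x * T x ≤
      6 * u * D ^ 3 * (p : ℝ) ^ 4 * Mv A := by
    intro l0 hl0
    obtain ⟨Y, hY, hcs⟩ := class_sum (u := u) hp hp2 (by omega) (by omega) hΦ hA2 hE1 o hl0
    set GG : ℕ → Fin 2 → (ι → ℤ) → ℝ := fun h0 i x => ‖GS A2 0 (fun w => E w *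
          gf p r l0 h0 (PP Φ A0) (Y h0 i) (2 * A0 * Y h0 i) (x o) (w o))‖ with hGG
    have hGb : ∀ h0 i x, GG h0 i x ≤ ∑' z, gs A2 0 z := fun h0 i x =>
      GS_le hA2 0 fun z => by
        rw [norm_mul, hE1, one_mul]
        exact gf_norm (PP_norm hΦ.norm A0) _ _ _ _
    have hsG : ∀ h0 i, Summable fun x => wl p o l0 A1 x * GG h0 i x := fun h0 i =>
      wsum (fun x => wl_nonneg _ _ _ _) (wl_summable o l0 hA1) (fun x => norm_nonneg _)
        (hGb h0 i)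
    have hpt : ∀ x : ι → ℤ, wl p o l0 A1 x * T x ≤ ∑ h0 ∈ Ico 1 p, ∑ i : Fin 2,
        ((Mv A / (p : ℝ) ^ r) * (p : ℝ) ^ (r / 2 + 1)) * (wl p o l0 A1 x * GG h0 i x) := by
      intro x
      by_cases hx : (p : ℤ) ∣ x o - l0
      · have h4 := hcs (x o) hx
        rw [hTp]
        have h5 : wl p o l0 A1 x * ((Mv A / (p : ℝ) ^ r) *
            ‖GS A2 0 (fun w => E w * ft (FL Φ (x o : ZMod (p ^ r))) (w o))‖) ≤
            wl p o l0 A1 x * ((Mv A / (p : ℝ) ^ r) * ∑ h0 ∈ Ico 1 p, ∑ i : Fin 2,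
            (p : ℝ) ^ (r / 2 + 1) * GG h0 i x) := by
          refine mul_le_mul_of_nonneg_left ?_ (wl_nonneg _ _ _ _)
          exact mul_le_mul_of_nonneg_left h4 (by positivity)
        refine h5.trans (le_of_eq ?_)
        rw [← mul_assoc, mul_sum]
        refine sum_congr rfl fun h0 _ => ?_
        rw [mul_sum]
        refine sum_congr rfl fun i _ => ?_
        ring
      · have : wl p o l0 A1 x = 0 := by unfold wl; rw [if_neg hx]
        rw [this, zero_mul]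
        refine sum_nonneg fun h0 _ => sum_nonneg fun i _ => ?_
        rw [zero_mul, mul_zero]
    have hss : ∀ h0 i, Summable fun x => ((Mv A / (p : ℝ) ^ r) * (p : ℝ) ^ (r / 2 + 1)) *
        (wl p o l0 A1 x * GG h0 i x) := fun h0 i => (hsG h0 i).mul_left _
    have hmain : ∀ h0 ∈ Ico 1 p, ∀ i : Fin 2, ∑' x, ((Mv A / (p : ℝ) ^ r) * (p : ℝ) ^ (r / 2 + 1)) *
        (wl p o l0 A1 x * GG h0 i x) ≤ ((Mv A / (p : ℝ) ^ r) * (p : ℝ) ^ (r / 2 + 1)) * Q := by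
      intro h0 hh0 i
      rw [mem_Ico] at hh0
      rw [tsum_mul_left]
      refine mul_le_mul_of_nonneg_left ?_ (by positivity)
      have hh0' : ¬ (p : ℤ) ∣ (h0 : ℤ) := by
        intro h
        have h3 := Nat.le_of_dvd (by omega) (by exact_mod_cast h : p ∣ h0)
        omega
      have hC : IsUnit (2 * A0 * Y h0 i) :=
        ((Pool.Agent.Y779.R3.unit_two hp hp2).mul hΦ.unit).mul (hY h0 i)
      exact reg2_S1 hp hp7 hr hu hu1 h58 h1 h2 h3 hA hBal hD hM1 hM2 (PP_norm hΦ.norm A0)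
        (PP_per hΦ) hC hE1 hE2 hl0 hh0'
    calc ∑' x, wl p o l0 A1 x * T x ≤ ∑' x, ∑ h0 ∈ Ico 1 p, ∑ i : Fin 2,
        ((Mv A / (p : ℝ) ^ r) * (p : ℝ) ^ (r / 2 + 1)) * (wl p o l0 A1 x * GG h0 i x) :=
          (hsl l0).tsum_le_tsum hpt (summable_sum fun h0 _ => summable_sum fun i _ => hss h0 i)
      _ = ∑ h0 ∈ Ico 1 p, ∑ i : Fin 2, ∑' x,
        ((Mv A / (p : ℝ) ^ r) * (p : ℝ) ^ (r / 2 + 1)) * (wl p o l0 A1 x * GG h0 i x) := by
          rw [Summable.tsum_finsetSum fun h0 _ => summable_sum fun i _ => hss h0 i]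
          refine sum_congr rfl fun h0 _ => ?_
          rw [Summable.tsum_finsetSum fun i _ => hss h0 i]
      _ ≤ ∑ h0 ∈ Ico 1 p, ∑ i : Fin 2, ((Mv A / (p : ℝ) ^ r) * (p : ℝ) ^ (r / 2 + 1)) * Q :=
          sum_le_sum fun h0 hh0 => sum_le_sum fun i _ => hmain h0 hh0 i
      _ = ((p - 1 : ℕ) : ℝ) * (2 * (((Mv A / (p : ℝ) ^ r) * (p : ℝ) ^ (r / 2 + 1)) * Q)) := by
          rw [sum_const, sum_const, Nat.card_Ico, card_univ, Fintype.card_fin, nsmul_eq_mul,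
            nsmul_eq_mul]
          norm_num
      _ ≤ (p : ℝ) * (2 * (((Mv A / (p : ℝ) ^ r) * (p : ℝ) ^ (r / 2 + 1)) * Q)) := by
          refine mul_le_mul_of_nonneg_right ?_ (by positivity)
          exact_mod_cast Nat.sub_le p 1
      _ = 6 * u * D ^ 3 * (p : ℝ) ^ 4 * (Mv A * (((p : ℝ) ^ (r / 2) * √((p : ℝ) ^ r)) / (p : ℝ) ^ r)) := by
          rw [hQ, pow_succ]
          ring
      _ ≤ 6 * u * D ^ 3 * (p : ℝ) ^ 4 * (Mv A * 1) := by
          refine mul_le_mul_of_nonneg_left ?_ (by positivity)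
          refine mul_le_mul_of_nonneg_left ?_ hMA.le
          rw [div_le_one (by positivity)]
          have h6 : (p : ℝ) ^ (r / 2) ≤ √((p : ℝ) ^ r) := by
            refine Real.le_sqrt_of_sq_le ?_
            rw [← pow_mul]
            exact pow_le_pow_right₀ hp1 (by omega)
          calc (p : ℝ) ^ (r / 2) * √((p : ℝ) ^ r) ≤ √((p : ℝ) ^ r) * √((p : ℝ) ^ r) :=
                mul_le_mul_of_nonneg_right h6 (Real.sqrt_nonneg _)
            _ = (p : ℝ) ^ r := Real.mul_self_sqrt (by positivity)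
      _ = _ := by ring
  calc ∑' x : ι → ℤ, w1 p o A1 x * T x = ∑' x : ι → ℤ, ∑ l0 ∈ Ico 1 p, wl p o l0 A1 x * T x := by
        refine tsum_congr fun x => ?_
        rw [w1_split hp, sum_mul]
    _ = ∑ l0 ∈ Ico 1 p, ∑' x : ι → ℤ, wl p o l0 A1 x * T x :=
        Summable.tsum_finsetSum fun l0 _ => hsl l0
    _ ≤ ∑ l0 ∈ Ico 1 p, 6 * u * D ^ 3 * (p : ℝ) ^ 4 * Mv A := by
        refine sum_le_sum fun l0 hl0 => hcl l0 ?_
        rw [mem_Ico] at hl0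
        intro h
        have h3 := Nat.le_of_dvd (by omega) (by exact_mod_cast h : p ∣ l0)
        omega
    _ = ((p - 1 : ℕ) : ℝ) * (6 * u * D ^ 3 * (p : ℝ) ^ 4 * Mv A) := by
        rw [sum_const, Nat.card_Ico, nsmul_eq_mul]
    _ ≤ (p : ℝ) * (6 * u * D ^ 3 * (p : ℝ) ^ 4 * Mv A) := by
        refine mul_le_mul_of_nonneg_right ?_ (by positivity)
        exact_mod_cast Nat.sub_le p 1
    _ = _ := by ring

end Pool.Agent.T2H29.SW
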