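import Pool.Agent.T2H29.SW.L13

/-!
# One variable
-/

set_option autoImplicit false
set_option linter.unusedSectionVars false

namespace Pool.Agent.T2H29.SW

open Finset
open Pool.Agent.Y779.R3 (unit_int pi_zero)
open Pool.Agent.Y924.R7.Inj (unit_of_sub unit_small)

variable {p r : ℕ}

/-- phases of one variable -/
structure Phase1 (p r τ : ℕ) (l0 : ℤ) (T' : ZMod (p ^ r)) (f ψ : ℤ → ZMod (p ^ r)) : Prop where
  unitT : IsUnit T'
  lin : ∀ c : ℕ, 1 ≤ c → r ≤ τ + 2 * c → ∀ l : ℤ, (p : ℤ) ∣ l - l0 →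
    ∀ x : ℤ, f (l + (p : ℤ) ^ c * x) = f l + (p : ZMod (p ^ r)) ^ (τ + c) * T' * (ψ l * x)
  inj : ∀ (s : ℕ) (l l' : ℤ), (p : ℤ) ∣ l - l0 → (p : ℤ) ∣ l' - l0 →
    (p : ZMod (p ^ r)) ^ s * ψ l = (p : ZMod (p ^ r)) ^ s * ψ l' →
    (p : ZMod (p ^ r)) ^ s * ((l - l' : ℤ) : ZMod (p ^ r)) = 0

lemma Phase1.two {τ : ℕ} {l0 : ℤ} {T' : ZMod (p ^ r)} {f ψ : ℤ → ZMod (p ^ r)}
    (H : Phase1 p r τ l0 T' f ψ) : Phase p r τ l0 l0 T' (fun l h => f l + f h)
      (fun l _ => ψ l) (fun _ h => ψ h) where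
  unitT := H.unitT
  lin := by
    intro c hc hr l h hl hh x y
    rw [H.lin c hc hr l hl x, H.lin c hc hr h hh y]
    ring
  inj := by
    intro s l h l' h' hl hh hl' hh' e1 e2
    exact ⟨H.inj s l l' hl hl' e1, H.inj s h h' hh hh' e2⟩

/-- the function on residues -/
noncomputable def GP1 (p r R : ℕ) [NeZero (p ^ r)] (l0 : ℤ) (f : ℤ → ZMod (p ^ r))
    (a : ZMod (p ^ R)) : ℂ :=
  if (p : ℤ) ∣ (a.val : ℤ) - l0 then ps (f a.val) else 0

lemma GP1_eq {τ R : ℕ} [NeZero (p ^ r)] [NeZero (p ^ R)] (hr : r = τ + R)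
    (hR : 1 ≤ R) {l0 : ℤ} {T' : ZMod (p ^ r)} {f ψ : ℤ → ZMod (p ^ r)}
    (H : Phase1 p r τ l0 T' f ψ) (l : ℤ) : GP1 p r R l0 f l =
      if (p : ℤ) ∣ l - l0 then ps (f l) else 0 := by
  unfold GP1
  obtain ⟨x, hx⟩ := val_eq (p := p) (R := R) l
  rw [hx]
  by_cases hc : (p : ℤ) ∣ l - l0
  · rw [if_pos hc, if_pos ((dvd_shift hR).2 hc), H.lin R hR (by omega) l hc, ← hr, pi_zero le_rfl]
    simp
  · rw [if_neg hc, if_neg fun h => hc ((dvd_shift hR).1 h)]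

/-- the complete sum of one variable -/
theorem cs1 {τ R : ℕ} [NeZero (p ^ r)] [NeZero (p ^ R)] (hp : p.Prime) (hr : r = τ + R)
    (hR : 1 ≤ R) {l0 : ℤ} {T' : ZMod (p ^ r)} {f ψ : ℤ → ZMod (p ^ r)}
    (H : Phase1 p r τ l0 T' f ψ) (ζ : ZMod (p ^ R)) :
    ‖ft (GP1 p r R l0 f) ζ‖ ≤ (p : ℝ) ^ ((R + 3) / 2) := by
  have h1 := cs2 hp hr hR H.two (G := fun a b => GP1 p r R l0 f a * GP1 p r R l0 f b) (by
    intro l h
    rw [GP1_eq hr hR H, GP1_eq hr hR H]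
    by_cases h1 : (p : ℤ) ∣ l - l0
    · by_cases h2 : (p : ℤ) ∣ h - l0
      · rw [if_pos h1, if_pos h2, if_pos ⟨h1, h2⟩, ps_add]
      · rw [if_neg h2, if_neg (fun h3 => h2 h3.2 : ¬ ((p : ℤ) ∣ l - l0 ∧ (p : ℤ) ∣ h - l0)), mul_zero]
    · rw [if_neg h1, if_neg (fun h3 => h1 h3.1 : ¬ ((p : ℤ) ∣ l - l0 ∧ (p : ℤ) ∣ h - l0)), zero_mul]) ζ ζ
  have h2 : ∑ a, ∑ b, (GP1 p r R l0 f a * GP1 p r R l0 f b) * ps (a * ζ) * ps (b * ζ) =
      ft (GP1 p r R l0 f) ζ ^ 2 := by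
    unfold ft
    rw [pow_two, sum_mul_sum]
    refine sum_congr rfl fun a _ => sum_congr rfl fun b _ => ?_
    ring
  rw [h2, norm_pow] at h1
  refine le_of_pow_le_pow_left₀ (n := 2) (by norm_num) (by positivity) (h1.trans ?_)
  rw [← pow_mul]
  exact pow_le_pow_right₀ (by exact_mod_cast hp.one_le) (by omega)

/-- `g(z) = 1/(z (z + P))` -/
noncomputable def gg (p r : ℕ) (P z : ℤ) : ZMod (p ^ r) :=
  (((z * (z + P) : ℤ)) : ZMod (p ^ r))⁻¹

lemma gg_unit (hp : p.Prime) {P z l0 : ℤ} (hl0 : ¬ (p : ℤ) ∣ l0) (hz : (p : ℤ) ∣ z - l0)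
    (hP : (p : ℤ) ∣ P) : IsUnit ((z * (z + P) : ℤ) : ZMod (p ^ r)) := by
  refine unit_int hp fun h => ?_
  have hpi : Prime (p : ℤ) := Nat.prime_iff_prime_int.1 hp
  have hz' : ¬ (p : ℤ) ∣ z := fun h1 => hl0 (by
    have := dvd_sub h1 hz
    simpa using this)
  rcases hpi.dvd_or_dvd h with h | h
  · exact hz' h
  · apply hz'
    have := dvd_sub h hP
    simpa using this

/-- the phase of the first difference -/
lemma phase1 [NeZero (p ^ r)] {τ : ℕ} (hp : p.Prime) (hp7 : 7 ≤ p) (hr : 1 ≤ r) {l0 : ℤ}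
    (hl0 : ¬ (p : ℤ) ∣ l0) {P S : ℤ} (hP : (p : ℤ) ∣ P) (hS : P = (p : ℤ) ^ τ * S)
    (hS' : ¬ (p : ℤ) ∣ S) {C : ZMod (p ^ r)} (hC : IsUnit C) :
    Phase1 p r τ l0 (-(C * S)) (fun z => C * ((P : ZMod (p ^ r)) * gg p r P z))
      (fun z => (2 * z + P : ℤ) * gg p r P z ^ 2) where
  unitT := (hC.mul (unit_int hp hS')).neg
  lin := by
    intro c hc hrc z hz x
    have hz' : (p : ℤ) ∣ z + (p : ℤ) ^ c * x - l0 := (dvd_shift hc).2 hz
    have hu := gg_unit (r := r) hp hl0 hz hP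
    have hu' := gg_unit (r := r) hp hl0 hz' hP
    have e1 : ((z * (z + P) : ℤ) : ZMod (p ^ r)) * gg p r P z = 1 := ZMod.mul_inv_of_unit _ hu
    have e2 : (((z + (p : ℤ) ^ c * x) * ((z + (p : ℤ) ^ c * x) + P) : ℤ) : ZMod (p ^ r)) *
        gg p r P (z + (p : ℤ) ^ c * x) = 1 := ZMod.mul_inv_of_unit _ hu'
    have hz0 : (p : ZMod (p ^ r)) ^ (τ + 2 * c) = 0 := pi_zero hrc
    set g := gg p r P z with hg
    set g' := gg p r P (z + (p : ℤ) ^ c * x) with hg'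
    have hPP : (P : ZMod (p ^ r)) = (p : ZMod (p ^ r)) ^ τ * S := by rw [hS]; push_cast; ring
    have hz1 : (p : ZMod (p ^ r)) ^ τ * ((p : ZMod (p ^ r)) ^ c) ^ 2 = 0 := by
      rw [← pow_mul, ← pow_add, mul_comm c 2]; exact hz0
    push_cast at e1 e2 ⊢
    rw [hPP] at e1 e2 ⊢
    rw [pow_add]
    set π := (p : ZMod (p ^ r)) ^ τ
    set κ := (p : ZMod (p ^ r)) ^ c
    set Z := (z : ZMod (p ^ r))
    set x' := (x : ZMod (p ^ r))
    set S' := (S : ZMod (p ^ r))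
    -- `g' - g = -g g' κ x (2 z + P + κ x)`
    have h3 : g' = g - g * g' * (κ * x' * (2 * Z + π * S' + κ * x')) := by
      linear_combination (-g') * e1 + g * e2
    have h4 : κ * π * κ = 0 := by linear_combination hz1
    have h5 : π * (κ * x' * (2 * Z + π * S' + κ * x')) * g' =
        π * (κ * x' * (2 * Z + π * S')) * g := by
      linear_combination (π * (κ * x' * (2 * Z + π * S' + κ * x'))) * h3 +
        ((-g * g' * (2 * Z + π * S' + κ * x') ^ 2 * x' ^ 2) + x' ^ 2 * g) * h4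
    linear_combination (C * π * S') * h3 - C * S' * g * h5
  inj := by
    intro s z w hz hw h
    have hu := gg_unit (r := r) hp hl0 hz hP
    have hu' := gg_unit (r := r) hp hl0 hw hP
    have e1 : ((z * (z + P) : ℤ) : ZMod (p ^ r)) * gg p r P z = 1 := ZMod.mul_inv_of_unit _ hu
    have e2 : ((w * (w + P) : ℤ) : ZMod (p ^ r)) * gg p r P w = 1 := ZMod.mul_inv_of_unit _ hu'
    have huz : IsUnit (z : ZMod (p ^ r)) := unit_cls hp hl0 hz
    push_cast at e1 e2 h ⊢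
    set g := gg p r P z
    set g' := gg p r P w
    set Z := (z : ZMod (p ^ r)) with hZ
    set V := (w : ZMod (p ^ r)) with hV
    set Q := (P : ZMod (p ^ r)) with hQ
    set π := (p : ZMod (p ^ r)) ^ s
    set H := (2 * Z + Q) * (V + Z + Q) * (V * (V + Q) + Z * (Z + Q)) - 2 * (Z * (Z + Q)) ^ 2 with hH
    have hHu : IsUnit H := by
      refine unit_of_sub hp hr (u := 6 * Z ^ 4) ?_ ?_
      · have h6 := unit_small (r := r) hp hp7 (n := 6) (by norm_num)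
        have h6' : IsUnit (6 : ZMod (p ^ r)) := by simpa using h6
        exact h6'.mul (huz.pow 4)
      · rw [← Ideal.Quotient.eq_zero_iff_mem]
        have m1 : Ideal.Quotient.mk (Ideal.span {(p : ZMod (p ^ r))}) Q = 0 := by
          rw [Ideal.Quotient.eq_zero_iff_mem, Ideal.mem_span_singleton, hQ]
          obtain ⟨k, rfl⟩ := hP
          exact ⟨k, by push_cast; rfl⟩
        have m2 : Ideal.Quotient.mk (Ideal.span {(p : ZMod (p ^ r))}) V =
            Ideal.Quotient.mk (Ideal.span {(p : ZMod (p ^ r))}) Z := by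
          rw [Ideal.Quotient.eq, Ideal.mem_span_singleton, hV, hZ]
          obtain ⟨k, hk⟩ := dvd_sub hw hz
          refine ⟨k, ?_⟩
          have : w - z = (p : ℤ) * k := by linarith
          calc (w : ZMod (p ^ r)) - z = ((w - z : ℤ) : ZMod (p ^ r)) := by push_cast; ring
            _ = _ := by rw [this]; push_cast; ring
        rw [hH]
        simp only [map_sub, map_mul, map_add, map_pow, m1, m2, map_ofNat]
        ring
    have key : (π * (Z - V)) * H = 0 := by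
      have k1 : (Z * (Z + Q)) ^ 2 * (V * (V + Q)) ^ 2 * (π * ((2 * Z + Q) * g ^ 2) -
          π * ((2 * V + Q) * g' ^ 2)) = 0 := by rw [h]; ring
      have k2 : (Z * (Z + Q)) ^ 2 * g ^ 2 = 1 := by rw [← mul_pow, e1, one_pow]
      have k3 : (V * (V + Q)) ^ 2 * g' ^ 2 = 1 := by rw [← mul_pow, e2, one_pow]
      rw [hH]
      linear_combination (-1 : ZMod (p ^ r)) * k1 + (V * (V + Q)) ^ 2 * π * (2 * Z + Q) * k2 -
        (Z * (Z + Q)) ^ 2 * π * (2 * V + Q) * k3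
    exact (hHu.mul_left_eq_zero).1 key

end Pool.Agent.T2H29.SW
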