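import Pool.Agent.T2H29.SW.L14

/-!
# The first regime
-/

set_option autoImplicit false
set_option linter.unusedSectionVars false

namespace Pool.Agent.T2H29.SW

open Finset
open Pool.Agent.Y779.R3 (unit_int pi_zero not_unit_pi)
open Pool.Agent.Y766.R3 (KL)

variable {ι : Type} [Fintype ι] [DecidableEq ι] {p r : ℕ}

lemma unit_iff [NeZero (p ^ r)] (hp : p.Prime) (hr : 1 ≤ r) (n : ℤ) :
    IsUnit (n : ZMod (p ^ r)) ↔ ¬ (p : ℤ) ∣ n := by
  constructor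
  · rintro h ⟨k, rfl⟩
    push_cast at h
    exact not_unit_pi hp hr _ h
  · exact unit_int hp

lemma FL_int [NeZero (p ^ r)] (hp : p.Prime) (hr : 1 ≤ r) (Φ : ZMod (p ^ r) → ℂ)
    (l : ZMod (p ^ r)) (n : ℤ) : FL Φ l (n : ZMod (p ^ r)) =
      if (p : ℤ) ∣ n then 0 else Φ (l * (n : ZMod (p ^ r))⁻¹) := by
  unfold FL
  by_cases h : (p : ℤ) ∣ n
  · rw [if_pos h, if_neg (fun h1 => (unit_iff hp hr n).1 h1 h)]
  · rw [if_neg h, if_pos ((unit_iff hp hr n).2 h)]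

/-- basic bound -/
lemma basic [NeZero (p ^ r)] (hp : p.Prime) (hp7 : 7 ≤ p) {ν m u μ : ℕ} (hν : 3 ≤ ν)
    (hr : r = ν - m) (hu : u = ν - 3 * m) (h3 : ν ≤ 3 * m) (h1 : 2 * μ ≤ ν) (hm : m ≤ μ)
    {o : ι} {A : Matrix ι ι ℝ} (hA : A.det ≠ 0) {B : ℝ} (hBal : Bal p o ν B A)
    (hM2 : Mv A ≤ (p : ℝ) ^ (μ + 1)) {Φ : ZMod (p ^ r) → ℂ} {A0 : ZMod (p ^ r)}
    (hΦ : PhiD p r u Φ A0) (c : ι → ℝ) {l : ℤ} (hl : ¬ (p : ℤ) ∣ l) :
    ‖GS A c (fun z => FL Φ (l : ZMod (p ^ r)) (z o))‖ ≤ 4 * B * (p : ℝ) ^ (m + 3) := by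
  have hp0 := hp.pos
  have hp1 : (1 : ℝ) ≤ p := by exact_mod_cast hp0
  have hp2 : p ≠ 2 := by omega
  have hul : IsUnit ((l : ZMod (p ^ r))) := unit_int hp hl
  have hk := (hklo p r u hp hp2 (by omega) (by omega) (PP Φ A0) (PP_norm hΦ.norm A0) (PP_per hΦ) A0
    (l : ZMod (p ^ r)) hΦ.unit hul).1
  have hft : ∀ h : ZMod (p ^ r), ‖ft (FL Φ (l : ZMod (p ^ r))) h‖ ≤ 2 * (p : ℝ) ^ ((r + 1) / 2) := by
    intro h
    rw [ft_FL A0 _ hul]
    have := hk (h.val : ℤ)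
    push_cast at this
    rwa [ZMod.natCast_zmod_val] at this
  have h4 := com1 hp0 o hA (hBal r (by omega)) c hft
  refine h4.trans ?_
  have hB := hBal.zero.nonneg
  rw [inv_mul_le_iff₀ (by positivity)]
  have i1 : (p : ℝ) ^ ((r + 1) / 2) * Mv A ≤ (p : ℝ) ^ r * (p : ℝ) ^ (m + 3) := by
    calc (p : ℝ) ^ ((r + 1) / 2) * Mv A ≤ (p : ℝ) ^ ((r + 1) / 2) * (p : ℝ) ^ (μ + 1) :=
          mul_le_mul_of_nonneg_left hM2 (by positivity)
      _ ≤ _ := by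
          rw [← pow_add, ← pow_add]
          exact pow_le_pow_right₀ hp1 (by omega)
  have i2 : (p : ℝ) ^ ((r + 1) / 2) * (p : ℝ) ^ r ≤ (p : ℝ) ^ r * (p : ℝ) ^ (m + 3) := by
    rw [← pow_add, ← pow_add]
    exact pow_le_pow_right₀ hp1 (by omega)
  calc 2 * (p : ℝ) ^ ((r + 1) / 2) * (B * (Mv A + (p : ℝ) ^ r)) = 2 * B *
        ((p : ℝ) ^ ((r + 1) / 2) * Mv A + (p : ℝ) ^ ((r + 1) / 2) * (p : ℝ) ^ r) := by ring
    _ ≤ 2 * B * ((p : ℝ) ^ r * (p : ℝ) ^ (m + 3) + (p : ℝ) ^ r * (p : ℝ) ^ (m + 3)) :=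
        mul_le_mul_of_nonneg_left (add_le_add i1 i2) (by positivity)
    _ = _ := by ring

/-- the first difference -/
lemma DF_FL [NeZero (p ^ r)] (hp : p.Prime) (hr : 1 ≤ r) {u a : ℕ} (ha : 1 ≤ a) (hua : u ≤ a)
    {Φ : ZMod (p ^ r) → ℂ} {A0 : ZMod (p ^ r)} (hΦ : PhiD p r u Φ A0) (l : ℤ) (o : ι)
    (d : ι → ℕ) (t z : ι → ℤ) (ht : (p : ℤ) ^ a ∣ sc d t o) :
    DF d (fun z => FL Φ (l : ZMod (p ^ r)) (z o)) t z = if (p : ℤ) ∣ z o then 0 else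
      ps (-(A0 * (l : ZMod (p ^ r))) * (((sc d t o : ℤ) : ZMod (p ^ r)) * gg p r (sc d t o) (z o))) := by
  set P := sc d t o with hP
  have e0 : DF d (fun z => FL Φ (l : ZMod (p ^ r)) (z o)) t z =
      FL Φ (l : ZMod (p ^ r)) ((z o + P : ℤ) : ZMod (p ^ r)) *
      (starRingEnd ℂ) (FL Φ (l : ZMod (p ^ r)) ((z o : ℤ) : ZMod (p ^ r))) := rfl
  rw [e0]
  have hpP : (p : ℤ) ∣ P := (dvd_pow_self _ (by omega)).trans ht
  rw [FL_int hp hr, FL_int hp hr]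
  by_cases hz : (p : ℤ) ∣ z o
  · rw [if_pos hz, if_pos hz]
    simp
  · have hz2 : ¬ (p : ℤ) ∣ z o + P := fun h => hz (by
      have := dvd_sub h hpP
      simpa using this)
    rw [if_neg hz, if_neg hz, if_neg hz2]
    obtain ⟨k, hk⟩ := ht
    have hu1 : IsUnit ((z o : ℤ) : ZMod (p ^ r)) := unit_int hp hz
    have hu2 : IsUnit ((z o + P : ℤ) : ZMod (p ^ r)) := unit_int hp hz2
    have hu3 : IsUnit ((z o * (z o + P) : ℤ) : ZMod (p ^ r)) := by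
      push_cast at hu2 ⊢
      exact hu1.mul hu2
    have e1 := ZMod.mul_inv_of_unit _ hu1
    have e2 := ZMod.mul_inv_of_unit _ hu2
    have e3 : ((z o * (z o + P) : ℤ) : ZMod (p ^ r)) * gg p r P (z o) = 1 := ZMod.mul_inv_of_unit _ hu3
    have hPP : ((P : ℤ) : ZMod (p ^ r)) = (p : ZMod (p ^ r)) ^ u * ((p : ZMod (p ^ r)) ^ (a - u) * k) := by
      rw [hk]
      push_cast
      rw [← mul_assoc, ← pow_add]
      congr 2
      omega
    push_cast at e2 e3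
    have e4 : (l : ZMod (p ^ r)) * ((z o + P : ℤ) : ZMod (p ^ r))⁻¹ =
        (l : ZMod (p ^ r)) * ((z o : ℤ) : ZMod (p ^ r))⁻¹ + (p : ZMod (p ^ r)) ^ u *
          (-(l * ((p : ZMod (p ^ r)) ^ (a - u) * k) * gg p r P (z o))) := by
      have e5 : ((z o + P : ℤ) : ZMod (p ^ r))⁻¹ = ((z o : ℤ) : ZMod (p ^ r))⁻¹ -
          (P : ZMod (p ^ r)) * gg p r P (z o) := by
        push_cast
        set Z := ((z o : ℤ) : ZMod (p ^ r))
        set Q := ((P : ℤ) : ZMod (p ^ r))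
        set g := gg p r P (z o)
        have f1 : (Z + Q)⁻¹ = Z * g := by
          linear_combination (-(Z + Q)⁻¹) * e3 + (Z * g) * e2
        have f2 : Z⁻¹ = (Z + Q) * g := by
          linear_combination (-Z⁻¹) * e3 + ((Z + Q) * g) * e1
        rw [f1, f2]
        ring
      rw [e5, hPP]
      ring
    rw [e4, hΦ.lin, mul_comm (Φ _) (ps _), mul_assoc, Complex.mul_conj', hΦ.norm]
    push_cast
    rw [one_pow, mul_one, hPP]
    congr 1
    ring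

lemma cl_split (hp : p.Prime) (n : ℤ) (x : ℂ) : (if (p : ℤ) ∣ n then 0 else x) =
    ∑ l0 ∈ Ico 1 p, (if (p : ℤ) ∣ n - (l0 : ℕ) then x else 0) := by
  have hp0 := hp.pos
  by_cases hx : (p : ℤ) ∣ n
  · rw [if_pos hx]
    symm
    refine sum_eq_zero fun l0 hl0 => ?_
    rw [mem_Ico] at hl0
    rw [if_neg]
    intro h1
    have h2 : (p : ℤ) ∣ (l0 : ℤ) := by
      have := dvd_sub hx h1
      simpa using this
    have h3 := Nat.le_of_dvd (by omega) (by exact_mod_cast h2 : p ∣ l0)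
    omega
  · rw [if_neg hx]
    set k : ℕ := (n % p).toNat with hk'
    have hk1 : (k : ℤ) = n % p := by
      rw [hk']
      exact Int.toNat_of_nonneg (Int.emod_nonneg _ (by exact_mod_cast hp0.ne'))
    have hk2 : (p : ℤ) ∣ n - k := by
      rw [hk1]; exact Int.dvd_self_sub_emod
    have hk3 : k < p := by
      have : (k : ℤ) < p := by rw [hk1]; exact Int.emod_lt_of_pos _ (by exact_mod_cast hp0)
      exact_mod_cast this
    have hk5 : 1 ≤ k := by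
      rcases Nat.eq_zero_or_pos k with h | h
      · rw [h] at hk2
        exact absurd (by simpa using hk2) hx
      · exact h
    rw [sum_eq_single k]
    · rw [if_pos hk2]
    · intro h0 hh0 hne
      rw [mem_Ico] at hh0
      rw [if_neg]
      intro h1
      have h2 : (p : ℤ) ∣ (k : ℤ) - h0 := by
        have := dvd_sub h1 hk2
        have e : n - (h0 : ℤ) - (n - k) = (k : ℤ) - h0 := by ring
        rwa [e] at this
      apply hne
      have h3 : (k : ℤ) - h0 = 0 := by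
        refine Int.eq_zero_of_abs_lt_dvd h2 ?_
        rw [abs_lt]; constructor <;> omega
      omega
    · intro h
      exact absurd (mem_Ico.2 ⟨hk5, hk3⟩) h

/-- the sums of the first difference -/
lemma diff1 [NeZero (p ^ r)] (hp : p.Prime) (hp7 : 7 ≤ p) (hr : 1 ≤ r) {u a v : ℕ} (ha : 1 ≤ a)
    (hua : u ≤ a) {o : ι} {A : Matrix ι ι ℝ} (hA : A.det ≠ 0) {B : ℝ} (hBal : Bal p o r B A)
    {Φ : ZMod (p ^ r) → ℂ} {A0 : ZMod (p ^ r)} (hΦ : PhiD p r u Φ A0) (c : ι → ℝ) {l : ℤ}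
    (hl : ¬ (p : ℤ) ∣ l) {t : ι → ℤ} {n : ℤ} (ht : t o = (p : ℤ) ^ v * n) (hn : ¬ (p : ℤ) ∣ n)
    (hv : a + v < r) :
    ‖GS A c (DF (dk p o a) (fun z => FL Φ (l : ZMod (p ^ r)) (z o)) t)‖ ≤
      (p : ℝ) * (((p : ℝ) ^ (r - a - v))⁻¹ * ((p : ℝ) ^ ((r - a - v + 3) / 2) *
        (B * (Mv A + (p : ℝ) ^ (r - a - v))))) := by
  have hp0 := hp.pos
  have hs : sc (dk p o a) t o = (p : ℤ) ^ (a + v) * n := by rw [sc_dk_o, ht, pow_add]; ring
  have hd : (p : ℤ) ^ a ∣ sc (dk p o a) t o := by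
    rw [hs]; exact Dvd.dvd.mul_right (pow_dvd_pow _ (by omega)) _
  have hdp : (p : ℤ) ∣ sc (dk p o a) t o := (dvd_pow_self _ (by omega)).trans hd
  set P := sc (dk p o a) t o with hP
  set R := r - a - v with hR
  haveI : NeZero (p ^ R) := ⟨by positivity⟩
  have hrR : r = (a + v) + R := by omega
  have hC : IsUnit (-(A0 * (l : ZMod (p ^ r)))) := (hΦ.unit.mul (unit_int hp hl)).neg
  set f : ℤ → ZMod (p ^ r) := fun z => -(A0 * (l : ZMod (p ^ r))) * (((P : ℤ) : ZMod (p ^ r)) * gg p r P z) with hf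
  have hph : ∀ z0 : ℕ, ¬ (p : ℤ) ∣ (z0 : ℤ) → Phase1 p r (a + v) z0 _ f _ := fun z0 hz0 =>
    phase1 hp hp7 hr hz0 hdp hs hn hC
  have e1 : DF (dk p o a) (fun z => FL Φ (l : ZMod (p ^ r)) (z o)) t = fun z =>
      ∑ z0 ∈ Ico 1 p, (if (p : ℤ) ∣ z o - (z0 : ℕ) then ps (f (z o)) else 0) := by
    funext z
    rw [DF_FL hp hr ha hua hΦ l o (dk p o a) t z hd, cl_split hp]
  have hz0 : ∀ z0 ∈ Ico 1 p, ¬ (p : ℤ) ∣ (z0 : ℤ) := by
    intro z0 h hd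
    rw [mem_Ico] at h
    have h3 := Nat.le_of_dvd (by omega) (by exact_mod_cast hd : p ∣ z0)
    omega
  have e2 : GS A c (fun z : ι → ℤ => ∑ z0 ∈ Ico 1 p,
      (if (p : ℤ) ∣ z o - (z0 : ℕ) then ps (f (z o)) else 0)) =
      ∑ z0 ∈ Ico 1 p, GS A c (fun z => GP1 p r R z0 f (z o)) := by
    unfold GS
    have hb : ∀ (z0 : ℕ) (z : ι → ℤ), ‖GP1 p r R z0 f (z o)‖ ≤ 1 := by
      intro z0 z
      unfold GP1
      split_ifs
      · rw [ps_norm]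
      · simp
    rw [← Summable.tsum_finsetSum fun z0 _ => (norm_gs_sum_le hA c (hb z0)).1]
    refine tsum_congr fun z => ?_
    rw [mul_sum]
    refine sum_congr rfl fun z0 h => ?_
    rw [GP1_eq hrR (by omega) (hph z0 (hz0 z0 h))]
  rw [e1, e2]
  have h3 : ∀ z0 ∈ Ico 1 p, ‖GS A c (fun z => GP1 p r R z0 f (z o))‖ ≤
      ((p : ℝ) ^ R)⁻¹ * ((p : ℝ) ^ ((R + 3) / 2) * (B * (Mv A + (p : ℝ) ^ R))) := by
    intro z0 h
    exact com1 hp0 o hA (hBal R (by omega)) c (cs1 hp hrR (by omega) (hph z0 (hz0 z0 h)))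
  calc _ ≤ ∑ z0 ∈ Ico 1 p, ((p : ℝ) ^ R)⁻¹ * ((p : ℝ) ^ ((R + 3) / 2) * (B * (Mv A + (p : ℝ) ^ R))) :=
        (norm_sum_le _ _).trans (sum_le_sum h3)
    _ = ((p - 1 : ℕ) : ℝ) * (((p : ℝ) ^ R)⁻¹ * ((p : ℝ) ^ ((R + 3) / 2) * (B * (Mv A + (p : ℝ) ^ R)))) := by
        rw [sum_const, Nat.card_Ico, nsmul_eq_mul]
    _ ≤ _ := by
        have hB := hBal.zero.nonneg
        have := Mv_pos hA
        refine mul_le_mul_of_nonneg_right ?_ (by positivity)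
        exact_mod_cast Nat.sub_le p 1

/-- the first regime -/
theorem reg1 [NeZero (p ^ r)] (hp : p.Prime) (hp7 : 7 ≤ p) {ν m u μ : ℕ} (hr : r = ν - m)
    (hu : u = ν - 3 * m) (hu1 : 1 ≤ u) (h58 : 19 * ν ≤ 58 * m) (h1 : 2 * μ ≤ ν)
    (h2 : 3 * μ + ν < 7 * m) (h3 : m ≤ μ) {o : ι} {A : Matrix ι ι ℝ} (hA : A.det ≠ 0) {B D : ℝ}
    (hBal : Bal p o ν B A) (hD : DD (Fintype.card ι) B D)
    (hM2 : Mv A ≤ (p : ℝ) ^ (μ + 1)) {Φ : ZMod (p ^ r) → ℂ} {A0 : ZMod (p ^ r)}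
    (hΦ : PhiD p r u Φ A0) (c : ι → ℝ) {l : ℤ} (hl : ¬ (p : ℤ) ∣ l) :
    ‖GS A c (fun z => FL Φ (l : ZMod (p ^ r)) (z o))‖ ≤ 2 * ν * D * (p : ℝ) ^ (m + 3) := by
  have hp0 := hp.pos
  have hp1 : (1 : ℝ) ≤ p := by exact_mod_cast hp0
  have hD1 := hD.one
  have hA2 : ((√2) • A).det ≠ 0 := smul_det_ne (by positivity) hA
  have hB := hBal.zero.nonneg
  have hBD : B ≤ D := by have := hD.two; linarith
  set a := r / 3 with ha
  set b := μ + 1 with hb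
  set x := b - a with hx
  set ρ := r - a with hρ
  set κ : ℝ := D * (p : ℝ) * (p : ℝ) ^ ((ρ + 3) / 2) * (((p : ℝ) ^ ρ)⁻¹ * (p : ℝ) ^ b + 1) with hκ
  have hκ0 : 0 ≤ κ := by positivity
  let w : Unit → ℝ := fun _ => 1
  have hw0 : ∀ y, 0 ≤ w y := fun _ => zero_le_one
  have hw : Summable w := (hasSum_fintype w).summable
  have hW : ∑' y, w y ≤ 1 := by rw [tsum_fintype]; simp [w]
  have hFL : ∀ (y : Unit) (z : ι → ℤ), ‖(fun (_ : Unit) (z : ι → ℤ) =>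
    FL Φ (l : ZMod (p ^ r)) (z o)) y z‖ ≤ 1 := fun _ z => FL_norm hΦ.norm _ _
  have hS0 : ∀ (A' : Matrix ι ι ℝ) (c' : ι → ℝ) (G : (ι → ℤ) → ℂ), S0 w A' c' (fun _ => G) = ‖GS A' c' G‖ := by
    intro A' c' G
    unfold S0
    rw [tsum_fintype]
    simp [w]
  have hS1 : ∀ (A' : Matrix ι ι ℝ) (c' : ι → ℝ) (G : (ι → ℤ) → ℂ), S1 w A' c' (fun _ => G) = ‖GS A' c' G‖ := by
    intro A' c' G
    unfold S1
    rw [tsum_fintype]
    simp [w]
  have hbal2 := (hBal.mono (show b ≤ ν by omega))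
  have hst := step hw0 hw hW hA c hFL hp0 (a := a) (b := b) (by omega) hbal2 hM2 hD
    (g := fun t => κ * pv p o x t) (K := κ * (p : ℝ) ^ x)
    (fun t => mul_nonneg hκ0 (zero_le_one.trans (pv_one hp0 _ _ _)))
    (fun t => mul_le_mul_of_nonneg_left (pv_le hp0 _ _ _) hκ0)
    (fun t ht c' => by
      rw [hS0]
      obtain ⟨v, n, hvx, e1, hn, w1⟩ := good_factor hp ht
      have hpv : pv p o x t = (p : ℝ) ^ v := by unfold pv; rw [w1]
      rw [hpv]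
      have hMA2 := Mv_s2 hM2
      by_cases hav : a + v < r
      · refine (diff1 hp hp7 (by omega) (by omega) (by omega) hA2
          ((hBal.mono (show r ≤ ν by omega)).smul (by positivity)) hΦ c' hl e1 hn hav).trans ?_
        set R := r - a - v with hR
        have i1 : ((p : ℝ) ^ R)⁻¹ * (p : ℝ) ^ ((R + 3) / 2) ≤
            (p : ℝ) ^ ((ρ + 3) / 2) * ((p : ℝ) ^ ρ)⁻¹ * (p : ℝ) ^ v := by
          rw [inv_mul_le_iff₀ (by positivity)]
          have : (p : ℝ) ^ R * ((p : ℝ) ^ ((ρ + 3) / 2) * ((p : ℝ) ^ ρ)⁻¹ * (p : ℝ) ^ v) =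
              (p : ℝ) ^ ((ρ + 3) / 2) := by
            have e : (p : ℝ) ^ ρ = (p : ℝ) ^ R * (p : ℝ) ^ v := by rw [← pow_add]; congr 1; omega
            rw [e]
            field_simp
          rw [this]
          exact pow_le_pow_right₀ hp1 (by omega)
        have i2 : (p : ℝ) ^ ((R + 3) / 2) ≤ (p : ℝ) ^ ((ρ + 3) / 2) * (p : ℝ) ^ v := by
          rw [← pow_add]
          exact pow_le_pow_right₀ hp1 (by omega)
        calc (p : ℝ) * (((p : ℝ) ^ R)⁻¹ * ((p : ℝ) ^ ((R + 3) / 2) *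
              (B * (Mv ((√2) • A) + (p : ℝ) ^ R)))) =
              (p : ℝ) * B * ((((p : ℝ) ^ R)⁻¹ * (p : ℝ) ^ ((R + 3) / 2)) * Mv ((√2) • A) +
              (p : ℝ) ^ ((R + 3) / 2)) := by
                field_simp
          _ ≤ (p : ℝ) * D * (((p : ℝ) ^ ((ρ + 3) / 2) * ((p : ℝ) ^ ρ)⁻¹ * (p : ℝ) ^ v) * (p : ℝ) ^ b +
              (p : ℝ) ^ ((ρ + 3) / 2) * (p : ℝ) ^ v) := by
                have hMv := (Mv_pos hA2).le
                refine mul_le_mul (mul_le_mul_of_nonneg_left hBD (by positivity)) ?_ (by positivity)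
                  (by positivity)
                exact add_le_add (mul_le_mul i1 hMA2 hMv (by positivity)) i2
          _ = _ := by rw [hκ]; ring
      · push Not at hav
        have hgb : ∑' z, gs ((√2) • A) c' z ≤ D * (p : ℝ) ^ b := by
          refine ((hBal.zero.smul (s := √2) (by positivity)).one c').trans ?_
          have hpb : (1 : ℝ) ≤ (p : ℝ) ^ b := one_le_pow₀ hp1
          calc B * (1 + Mv ((√2) • A)) ≤ B * (2 * (p : ℝ) ^ b) :=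
                mul_le_mul_of_nonneg_left (by linarith) hB
            _ = (2 * B) * (p : ℝ) ^ b := by ring
            _ ≤ _ := mul_le_mul_of_nonneg_right hD.two (by positivity)
        refine (GS_le hA2 c' (fun z => DF_norm (fun z => FL_norm hΦ.norm _ _) t z)).trans (hgb.trans ?_)
        have i3 : (1 : ℝ) ≤ (p : ℝ) * (p : ℝ) ^ ((ρ + 3) / 2) * (((p : ℝ) ^ ρ)⁻¹ * (p : ℝ) ^ v) := by
          refine one_le_mul_of_one_le_of_one_le (one_le_mul_of_one_le_of_one_le hp1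
            (one_le_pow₀ hp1)) ?_
          rw [le_inv_mul_iff₀ (by positivity), mul_one]
          exact pow_le_pow_right₀ hp1 (by omega)
        calc D * (p : ℝ) ^ b ≤ D * (p : ℝ) ^ b *
              ((p : ℝ) * (p : ℝ) ^ ((ρ + 3) / 2) * (((p : ℝ) ^ ρ)⁻¹ * (p : ℝ) ^ v)) :=
              le_mul_of_one_le_right (by positivity) i3
          _ = D * (p : ℝ) * (p : ℝ) ^ ((ρ + 3) / 2) * (((p : ℝ) ^ ρ)⁻¹ * (p : ℝ) ^ b) * (p : ℝ) ^ v := by
              ring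
          _ ≤ κ * (p : ℝ) ^ v := by
              refine mul_le_mul_of_nonneg_right ?_ (by positivity)
              rw [hκ]
              refine mul_le_mul_of_nonneg_left ?_ (by positivity)
              linarith)
  rw [hS1] at hst
  have h4 := vw_pv_sum hA hp (a := a) (by omega) hbal2 hM2 hD
  have h5 : ∑' t, vw p o A a (b - a) t * (κ * pv p o x t) ≤ κ * ((x : ℝ) * D * (p : ℝ) ^ x) := by
    have e : ∀ t, vw p o A a (b - a) t * (κ * pv p o x t) =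
        κ * (vw p o A a (b - a) t * pv p o (b - a) t) := fun t => by rw [hx]; ring
    simp_rw [e]
    rw [tsum_mul_left]
    exact mul_le_mul_of_nonneg_left h4.2 hκ0
  have hx1 : (1 : ℝ) ≤ x := by
    have : 1 ≤ x := by omega
    exact_mod_cast this
  have hxν : (x : ℝ) ≤ ν := by
    have : x ≤ ν := by omega
    exact_mod_cast this
  refine le_of_pow_le_pow_left₀ (n := 2) (by norm_num) (by positivity) ?_
  have hax : (p : ℝ) ^ a * (p : ℝ) ^ x = (p : ℝ) ^ b := by rw [← pow_add]; congr 1; omega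
  have j1 : (p : ℝ) ^ a * (p : ℝ) ^ b ≤ (p : ℝ) ^ (2 * m + 6) := by
    rw [← pow_add]; exact pow_le_pow_right₀ hp1 (by omega)
  have j2 : (p : ℝ) * (p : ℝ) ^ ((ρ + 3) / 2) * (p : ℝ) ^ b ≤ (p : ℝ) ^ (2 * m + 6) := by
    rw [← pow_succ', ← pow_add]; exact pow_le_pow_right₀ hp1 (by omega)
  have j3 : (p : ℝ) * (p : ℝ) ^ ((ρ + 3) / 2) * ((p : ℝ) ^ ρ)⁻¹ * (p : ℝ) ^ b * (p : ℝ) ^ b ≤
      (p : ℝ) ^ (2 * m + 6) := by
    have e : (p : ℝ) * (p : ℝ) ^ ((ρ + 3) / 2) * ((p : ℝ) ^ ρ)⁻¹ * (p : ℝ) ^ b * (p : ℝ) ^ b =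
      ((p : ℝ) ^ ρ)⁻¹ * (p : ℝ) ^ ((ρ + 3) / 2 + 1 + b + b) := by
      rw [pow_add, pow_add, pow_add, pow_one]; ring
    rw [e, inv_mul_le_iff₀ (by positivity), ← pow_add]
    exact pow_le_pow_right₀ hp1 (by omega)
  calc ‖GS A c (fun z => FL Φ (l : ZMod (p ^ r)) (z o))‖ ^ 2 ≤
      1 * (p : ℝ) ^ a * (D * (1 * (D * (p : ℝ) ^ b)) + κ * ((x : ℝ) * D * (p : ℝ) ^ x)) := by
        refine hst.trans (mul_le_mul_of_nonneg_left ?_ (by positivity))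
        linarith
    _ = D ^ 2 * ((p : ℝ) ^ a * (p : ℝ) ^ b) + κ * x * D * ((p : ℝ) ^ a * (p : ℝ) ^ x) := by ring
    _ = D ^ 2 * ((p : ℝ) ^ a * (p : ℝ) ^ b) + x * D ^ 2 *
        ((p : ℝ) * (p : ℝ) ^ ((ρ + 3) / 2) * ((p : ℝ) ^ ρ)⁻¹ * (p : ℝ) ^ b * (p : ℝ) ^ b +
        (p : ℝ) * (p : ℝ) ^ ((ρ + 3) / 2) * (p : ℝ) ^ b) := by rw [hax, hκ]; ring
    _ ≤ D ^ 2 * (p : ℝ) ^ (2 * m + 6) + x * D ^ 2 * ((p : ℝ) ^ (2 * m + 6) + (p : ℝ) ^ (2 * m + 6)) := by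
        refine add_le_add (mul_le_mul_of_nonneg_left j1 (by positivity)) ?_
        exact mul_le_mul_of_nonneg_left (add_le_add j3 j2) (by positivity)
    _ = (1 + 2 * x) * (D ^ 2 * (p : ℝ) ^ (2 * m + 6)) := by ring
    _ ≤ (4 * ν ^ 2) * (D ^ 2 * (p : ℝ) ^ (2 * m + 6)) := by
        refine mul_le_mul_of_nonneg_right ?_ (by positivity)
        nlinarith
    _ = _ := by
        have : (p : ℝ) ^ (2 * m + 6) = ((p : ℝ) ^ (m + 3)) ^ 2 := by rw [← pow_mul]; congr 1; ring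
        rw [this]; ring

end Pool.Agent.T2H29.SW
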