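import Pool.Agent.T2H29.SW.L15

/-!
# The character sum over a balanced lattice
-/

set_option autoImplicit false
set_option linter.unusedSectionVars false

namespace Pool.Agent.T2H29.SW

open Finset
open Pool.Agent.Y779.R3 (unit_int pi_zero not_unit_pi)
open Pool.Agent.Y766.R3 (KL FF)

variable {ι : Type} [Fintype ι] [DecidableEq ι] {p : ℕ}

/-- translation of a Gaussian sum -/
lemma GS_shift (A : Matrix ι ι ℝ) (c : ι → ℝ) (s : ι → ℤ) (G : (ι → ℤ) → ℂ) :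
    GS A (c - cz s) (fun z => G (z + s)) = GS A c G := by
  unfold GS
  rw [← (Equiv.addRight s).tsum_eq (fun z => (gs A c z : ℂ) * G z)]
  refine tsum_congr fun z => ?_
  simp only [Equiv.coe_addRight]
  have e1 : cz z - (c - cz s) = cz (z + s) - c := by
    funext i
    simp [cz]
    ring
  unfold gs
  rw [e1]

/-- the steps of the first differencing -/
def d2 (p : ℕ) (o : ι) (k : ℕ) : ι → ℕ := fun i => 2 * dk p o k i

lemma d2_pos (hp : 0 < p) (o : ι) (k : ℕ) (i : ι) : 0 < d2 p o k i :=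
  Nat.mul_pos (by norm_num) (dk_pos hp o k i)

lemma d2_prod (o : ι) (k : ℕ) : ∏ i, ((d2 p o k i : ℕ) : ℝ) = 2 ^ Fintype.card ι * (p : ℝ) ^ k := by
  unfold d2
  push_cast
  rw [prod_mul_distrib, prod_const, card_univ, ← Nat.cast_prod, prod_dk]
  push_cast; rfl

lemma d2_mat (o : ι) (A : Matrix ι ι ℝ) (k j : ℕ) :
    (√2)⁻¹ • (A * dgm (d2 p o k)) * dgm (dk p o j) = ((√2) • A) * dgm (dk p o (k + j)) := by
  have e1 : dgm (d2 p o k) = (2 : ℝ) • dgm (dk p o k) := by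
    unfold dgm d2
    ext i i'
    by_cases h : i = i'
    · subst h; simp
    · simp [h]
  rw [e1, Matrix.mul_smul, smul_smul, Matrix.smul_mul, Matrix.mul_assoc, dgm_mul, dk_add,
    Matrix.smul_mul]
  congr 1
  have : √2 * √2 = 2 := Real.mul_self_sqrt (by norm_num)
  field_simp
  linarith

lemma wt_d2 (o : ι) (A : Matrix ι ι ℝ) (k j : ℕ) (x : ι → ℤ) :
    wt A (d2 p o k) (sc (dk p o j) x) = gs (((√2) • A) * dgm (dk p o (k + j))) 0 x := by
  unfold wt
  rw [← d2_mat, gs_mul_dgm]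
  congr 1
  funext i; simp

/-- the first difference of a character -/
lemma DF_chi {ν m : ℕ} [NeZero (p ^ (ν - m))] (hp : p.Prime) (hp2 : p ≠ 2) (hm : 1 ≤ m) (hmν : m < ν)
    {χ : DirichletCharacter ℂ (p ^ ν)} {Φ : ZMod (p ^ (ν - m)) → ℂ}
    (hFF : ∀ l n : ℤ, FF χ ((p : ℤ) ^ m * l) n = if (p : ℤ) ∣ n then 0 else
      Φ ((l : ZMod (p ^ (ν - m))) * ((2 * n + (p : ℤ) ^ m * l : ℤ) : ZMod (p ^ (ν - m)))⁻¹))
    (o : ι) {k j : ℕ} (hkj : k + j = m) (A : Matrix ι ι ℝ) (c : ι → ℝ) (x : ι → ℤ) :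
    GS A (c - (2 : ℝ)⁻¹ • cz (sc (d2 p o k) (sc (dk p o j) x)))
      (DF (d2 p o k) (fun z => χ (z o : ZMod (p ^ ν))) (sc (dk p o j) x)) =
    GS A c (fun z => FL Φ (x o : ZMod (p ^ (ν - m))) (z o)) := by
  set s : ι → ℤ := sc (dk p o k) (sc (dk p o j) x) with hs
  have e1 : (2 : ℝ)⁻¹ • cz (sc (d2 p o k) (sc (dk p o j) x)) = cz s := by
    funext i
    simp only [Pi.smul_apply, cz, hs, sc, d2, smul_eq_mul]
    push_cast
    ring
  rw [e1, ← GS_shift A c s]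
  congr 1
  funext z
  have hso : s o = (p : ℤ) ^ m * x o := by
    rw [hs, sc_dk_o, sc_dk_o, ← mul_assoc, ← pow_add, hkj]
  have e2 : DF (d2 p o k) (fun z => χ (z o : ZMod (p ^ ν))) (sc (dk p o j) x) z =
      FF χ ((p : ℤ) ^ m * (2 * x o)) (z o) := by
    unfold DF FF
    have e3 : (z + sc (d2 p o k) (sc (dk p o j) x)) o = z o + (p : ℤ) ^ m * (2 * x o) := by
      rw [Pi.add_apply]
      congr 1
      simp only [sc, d2, dk, if_true]
      push_cast
      rw [← hkj, pow_add]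
      ring
    simp only [e3]
  have e4 : (z + s) o = z o + (p : ℤ) ^ m * x o := by rw [Pi.add_apply, hso]
  rw [e2, hFF]
  simp only [e4]
  rw [FL_int hp (by omega)]
  have hd : (p : ℤ) ∣ z o + (p : ℤ) ^ m * x o ↔ (p : ℤ) ∣ z o :=
    dvd_add_left (Dvd.dvd.mul_right (dvd_pow_self _ (by omega)) _)
  by_cases hz : (p : ℤ) ∣ z o
  · rw [if_pos hz, if_pos (hd.2 hz)]
  · rw [if_neg hz, if_neg (fun h => hz (hd.1 h))]
    congr 1
    have hu : IsUnit ((z o + (p : ℤ) ^ m * x o : ℤ) : ZMod (p ^ (ν - m))) :=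
      unit_int hp (fun h => hz (hd.1 h))
    have h2 : IsUnit (2 : ZMod (p ^ (ν - m))) := Pool.Agent.Y779.R3.unit_two hp hp2
    have e5 : ((2 * z o + (p : ℤ) ^ m * (2 * x o) : ℤ) : ZMod (p ^ (ν - m))) =
        2 * ((z o + (p : ℤ) ^ m * x o : ℤ) : ZMod (p ^ (ν - m))) := by push_cast; ring
    have hu2 : IsUnit (2 * ((z o + (p : ℤ) ^ m * x o : ℤ) : ZMod (p ^ (ν - m)))) := h2.mul hu
    rw [e5]
    set V := ((z o + (p : ℤ) ^ m * x o : ℤ) : ZMod (p ^ (ν - m)))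
    have f1 := ZMod.mul_inv_of_unit _ hu
    have f2 := ZMod.mul_inv_of_unit _ hu2
    push_cast
    have f3 : 2 * (2 * V)⁻¹ = V⁻¹ := by
      linear_combination V⁻¹ * f2 - (2 * (2 * V)⁻¹) * f1
    linear_combination (x o : ZMod (p ^ (ν - m))) * f3

/-- the sum over the shifts of a given valuation -/
lemma sig_bound {ν m μ : ℕ} (hp : p.Prime) (hp7 : 7 ≤ p) (hν : 3 ≤ ν) (h58 : 19 * ν ≤ 58 * m)
    (h1 : 2 * μ ≤ ν) (h3 : m ≤ μ) {o : ι} {A : Matrix ι ι ℝ} (hA : A.det ≠ 0) {B D : ℝ}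
    (hBal : Bal p o ν B A) (hD : DD (Fintype.card ι) B D) (hM1 : (p : ℝ) ^ μ ≤ Mv A)
    (hM2 : Mv A ≤ (p : ℝ) ^ (μ + 1)) {χ : DirichletCharacter ℂ (p ^ ν)} (hχ : χ.IsPrimitive)
    {k j : ℕ} (hkj : k + j = m) (c : ι → ℝ) :
    ∑' x : ι → ℤ, w1 p o (A * dgm (dk p o m)) x *
      ‖GS A (c - (2 : ℝ)⁻¹ • cz (sc (d2 p o k) (sc (dk p o j) x)))
      (DF (d2 p o k) (fun z => χ (z o : ZMod (p ^ ν))) (sc (dk p o j) x))‖ ≤
      6 * ν * D ^ 3 * (p : ℝ) ^ (μ + 6) := by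
  have hp0 := hp.pos
  have hp1 : (1 : ℝ) ≤ p := by exact_mod_cast hp0
  have hp2 : p ≠ 2 := by omega
  have hD1 := hD.one
  have hD3 : D ^ 2 ≤ D ^ 3 := pow_le_pow_right₀ hD1 (by norm_num)
  have hB := hBal.zero.nonneg
  have hν1 : (1 : ℝ) ≤ ν := by exact_mod_cast (by omega : 1 ≤ ν)
  haveI : NeZero (p ^ (ν - m)) := ⟨by positivity⟩
  obtain ⟨Φ, hΦ1, hΦ2, hΦ3⟩ := hphi p ν m hp hp2 (by omega) (by omega) χ hχ
  obtain ⟨A0, hA0, hA1⟩ := hΦ3 (ν - 3 * m) (by omega) (by omega)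
  have hΦ : PhiD p (ν - m) (ν - 3 * m) Φ A0 := ⟨hΦ1, hA0, hA1⟩
  have e1 : ∀ x : ι → ℤ, w1 p o (A * dgm (dk p o m)) x *
      ‖GS A (c - (2 : ℝ)⁻¹ • cz (sc (d2 p o k) (sc (dk p o j) x)))
      (DF (d2 p o k) (fun z => χ (z o : ZMod (p ^ ν))) (sc (dk p o j) x))‖ =
      w1 p o (A * dgm (dk p o m)) x * ‖GS A c (fun z => FL Φ (x o : ZMod (p ^ (ν - m))) (z o))‖ := by
    intro x
    rw [DF_chi hp hp2 (by omega) (by omega) hΦ2 o hkj A c x]
  rw [tsum_congr e1]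
  by_cases hreg : ν ≤ 3 * m ∨ 3 * μ + ν < 7 * m
  · -- pointwise bound
    have hpt : ∀ l : ℤ, ¬ (p : ℤ) ∣ l →
        ‖GS A c (fun z => FL Φ (l : ZMod (p ^ (ν - m))) (z o))‖ ≤ 2 * ν * D * (p : ℝ) ^ (m + 3) := by
      intro l hl
      by_cases hr1 : ν ≤ 3 * m
      · refine (basic hp hp7 hν rfl rfl hr1 h1 h3 hA hBal hM2 hΦ c hl).trans ?_
        refine mul_le_mul_of_nonneg_right ?_ (by positivity)
        have := hD.two
        nlinarith
      · have hr2 : 3 * μ + ν < 7 * m := hreg.resolve_left hr1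
        exact reg1 hp hp7 rfl rfl (by omega) h58 h1 hr2 h3 hA hBal hD hM2 hΦ c hl
    have hA1 : (A * dgm (dk p o m)).det ≠ 0 := det_mul_dk_ne hp0 o hA m
    set Q : ℝ := 2 * ν * D * (p : ℝ) ^ (m + 3) with hQ
    have hQ0 : 0 ≤ Q := by positivity
    have hsum : ∑' x, gs (A * dgm (dk p o m)) 0 x ≤ D * (p : ℝ) ^ (μ + 1 - m) := by
      refine ((hBal m (by omega)).one 0).trans ?_
      have hM3 : Mv (A * dgm (dk p o m)) ≤ (p : ℝ) ^ (μ + 1 - m) := by
        rw [Mv_mul, Mv_dk, ← div_eq_mul_inv, div_le_iff₀ (by positivity), ← pow_add]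
        have : μ + 1 - m + m = μ + 1 := by omega
        rw [this]; exact hM2
      have hpb : (1 : ℝ) ≤ (p : ℝ) ^ (μ + 1 - m) := one_le_pow₀ hp1
      calc B * (1 + Mv (A * dgm (dk p o m))) ≤ B * (2 * (p : ℝ) ^ (μ + 1 - m)) :=
            mul_le_mul_of_nonneg_left (by linarith) hB
        _ = (2 * B) * (p : ℝ) ^ (μ + 1 - m) := by ring
        _ ≤ _ := mul_le_mul_of_nonneg_right hD.two (by positivity)
    have hgs := gs_summable hA1 0
    calc ∑' x : ι → ℤ, w1 p o (A * dgm (dk p o m)) x *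
          ‖GS A c (fun z => FL Φ (x o : ZMod (p ^ (ν - m))) (z o))‖ ≤
          ∑' x : ι → ℤ, gs (A * dgm (dk p o m)) 0 x * Q := by
          refine Summable.tsum_le_tsum (fun x => ?_) ?_ (hgs.mul_right _)
          · unfold w1
            by_cases hx : (p : ℤ) ∣ x o
            · rw [if_pos hx, zero_mul]
              exact mul_nonneg (gs_pos _ _ _).le hQ0
            · rw [if_neg hx]
              exact mul_le_mul_of_nonneg_left (hpt _ hx) (gs_pos _ _ _).le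
          · refine wsum (b := ∑' z, gs A c z) (fun x => w1_nonneg _ _ _) ?_ (fun x => norm_nonneg _)
              (fun x => GS_le hA c fun z => FL_norm hΦ.norm _ _)
            exact Summable.of_nonneg_of_le (fun x => w1_nonneg _ _ _) (fun x => w1_le _ _ _) hgs
      _ = (∑' x : ι → ℤ, gs (A * dgm (dk p o m)) 0 x) * Q := tsum_mul_right
      _ ≤ D * (p : ℝ) ^ (μ + 1 - m) * Q := mul_le_mul_of_nonneg_right hsum hQ0
      _ = 2 * ν * D ^ 2 * ((p : ℝ) ^ (μ + 1 - m) * (p : ℝ) ^ (m + 3)) := by rw [hQ]; ring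
      _ = 2 * ν * D ^ 2 * (p : ℝ) ^ (μ + 4) := by
          rw [← pow_add]
          congr 2; omega
      _ ≤ 6 * ν * D ^ 3 * (p : ℝ) ^ (μ + 6) := by
          refine mul_le_mul ?_ (pow_le_pow_right₀ hp1 (by omega)) (by positivity) (by positivity)
          have h5 : (ν : ℝ) * D ^ 2 ≤ ν * D ^ 3 := mul_le_mul_of_nonneg_left hD3 (by positivity)
          have h6 : 0 ≤ (ν : ℝ) * D ^ 3 := by positivity
          nlinarith
  · push Not at hreg
    obtain ⟨hr1, hr2⟩ := hreg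
    refine (reg2 hp hp7 rfl rfl (by omega) h58 h1 hr2 h3 hA hBal hD hM1 hM2 hΦ c).trans ?_
    have hu : ((ν - 3 * m : ℕ) : ℝ) ≤ ν := by exact_mod_cast Nat.sub_le _ _
    calc 6 * ((ν - 3 * m : ℕ) : ℝ) * D ^ 3 * (p : ℝ) ^ 5 * Mv A ≤
        6 * ν * D ^ 3 * (p : ℝ) ^ 5 * (p : ℝ) ^ (μ + 1) := by
          refine mul_le_mul ?_ hM2 (Mv_pos hA).le (by positivity)
          refine mul_le_mul_of_nonneg_right ?_ (by positivity)
          refine mul_le_mul_of_nonneg_right ?_ (by positivity)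
          linarith
      _ = _ := by rw [mul_assoc, ← pow_add]; congr 2; omega

/-- the character sum, `M² ≤ p^ν` -/
theorem core1 {ν : ℕ} (hp : p.Prime) (hp7 : 7 ≤ p) (hν : 1 ≤ ν) {o : ι} {A : Matrix ι ι ℝ}
    (hA : A.det ≠ 0) {B D : ℝ} (hBal : Bal p o ν B A) (hD : DD (Fintype.card ι) B D)
    (hM : Mv A ^ 2 ≤ (p : ℝ) ^ ν) {χ : DirichletCharacter ℂ (p ^ ν)} (hχ : χ.IsPrimitive)
    (c : ι → ℝ) : ‖GS A c (fun z => χ (z o : ZMod (p ^ ν)))‖ ^ 2 ≤
      7 * 2 ^ Fintype.card ι * ν ^ 2 * D ^ 3 * (p : ℝ) ^ ((19 * ν + 57) / 58 + 6) * (1 + Mv A) := by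
  have hp0 := hp.pos
  have hp1 : (1 : ℝ) ≤ p := by exact_mod_cast hp0
  have hD1 := hD.one
  have hB := hBal.zero.nonneg
  have hBD := hD.two
  have hν1 : (1 : ℝ) ≤ ν := by exact_mod_cast hν
  have hMA := Mv_pos hA
  have h2n : (1 : ℝ) ≤ 2 ^ Fintype.card ι := one_le_pow₀ (by norm_num)
  have hF : ∀ z : ι → ℤ, ‖χ (z o : ZMod (p ^ ν))‖ ≤ 1 := fun z => χ.norm_le_one _
  have htriv : ‖GS A c (fun z => χ (z o : ZMod (p ^ ν)))‖ ≤ B * (1 + Mv A) :=
    (GS_le hA c hF).trans (hBal.zero.one c)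
  set k := (19 * ν + 57) / 58 with hk
  by_cases hν3 : ν < 3
  · -- small `ν`
    have hMp : Mv A ≤ p := by
      refine le_of_pow_le_pow_left₀ (n := 2) (by norm_num) (by positivity) (hM.trans ?_)
      exact pow_le_pow_right₀ hp1 (by omega)
    have h1 : (1 + Mv A) ≤ 2 * p := by linarith
    have h2 : B ^ 2 * 2 ≤ D ^ 3 := by
      have : D ^ 2 ≤ D ^ 3 := pow_le_pow_right₀ hD1 (by norm_num)
      nlinarith
    calc ‖GS A c (fun z => χ (z o : ZMod (p ^ ν)))‖ ^ 2 ≤ (B * (1 + Mv A)) ^ 2 :=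
          pow_le_pow_left₀ (norm_nonneg _) htriv 2
      _ = B ^ 2 * (1 + Mv A) * (1 + Mv A) := by ring
      _ ≤ B ^ 2 * (2 * p) * (1 + Mv A) := by
          refine mul_le_mul_of_nonneg_right ?_ (by positivity)
          exact mul_le_mul_of_nonneg_left h1 (by positivity)
      _ = (B ^ 2 * 2) * (p : ℝ) ^ 1 * (1 + Mv A) := by ring
      _ ≤ D ^ 3 * (p : ℝ) ^ (k + 6) * (1 + Mv A) := by
          refine mul_le_mul_of_nonneg_right ?_ (by positivity)
          exact mul_le_mul h2 (pow_le_pow_right₀ hp1 (by omega)) (by positivity) (by positivity)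
      _ ≤ (7 * 2 ^ Fintype.card ι * ν ^ 2) * (D ^ 3 * (p : ℝ) ^ (k + 6) * (1 + Mv A)) := by
          refine le_mul_of_one_le_left (by positivity) ?_
          have : 1 ≤ (ν : ℝ) ^ 2 := one_le_pow₀ hν1
          have h7 : 1 ≤ 2 ^ Fintype.card ι * (ν : ℝ) ^ 2 := one_le_mul_of_one_le_of_one_le h2n this
          nlinarith
      _ = _ := by ring
  push Not at hν3
  set A' := (√2) • A with hA'
  have hA'd : A'.det ≠ 0 := smul_det_ne (by positivity) hA
  have hMA' := Mv_pos hA'd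
  have hM'eq : Mv A' = Mv A / √2 ^ Fintype.card ι := Mv_smul (by positivity) A
  have hM'le : Mv A' ≤ Mv A := Mv_s2 le_rfl
  have hBal' : Bal p o ν B A' := hBal.smul (by positivity)
  by_cases hM1 : Mv A' < 1
  · -- small `M`
    have h1 : Mv A ≤ √2 ^ Fintype.card ι := by
      rw [hM'eq, div_lt_one (by positivity)] at hM1
      exact hM1.le
    have h2 : ‖GS A c (fun z => χ (z o : ZMod (p ^ ν)))‖ ≤ D := by
      refine htriv.trans (le_trans ?_ hD.sq)
      exact mul_le_mul_of_nonneg_left (by linarith) hB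
    calc ‖GS A c (fun z => χ (z o : ZMod (p ^ ν)))‖ ^ 2 ≤ D ^ 2 :=
          pow_le_pow_left₀ (norm_nonneg _) h2 2
      _ ≤ D ^ 3 := pow_le_pow_right₀ hD1 (by norm_num)
      _ = 1 * D ^ 3 * 1 * 1 := by ring
      _ ≤ (7 * 2 ^ Fintype.card ι * ν ^ 2) * D ^ 3 * (p : ℝ) ^ (k + 6) * (1 + Mv A) := by
          refine mul_le_mul ?_ (by linarith) (by norm_num) (by positivity)
          refine mul_le_mul ?_ (one_le_pow₀ hp1) (by norm_num) (by positivity)
          refine mul_le_mul_of_nonneg_right ?_ (by positivity)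
          have : 1 ≤ (ν : ℝ) ^ 2 := one_le_pow₀ hν1
          have h7 : 1 ≤ 2 ^ Fintype.card ι * (ν : ℝ) ^ 2 := one_le_mul_of_one_le_of_one_le h2n this
          nlinarith
      _ = _ := by ring
  push Not at hM1
  have hp1' : (1 : ℝ) < p := by exact_mod_cast hp.one_lt
  obtain ⟨μ, hμ1, hμ2⟩ := exists_nat_pow_near hM1 hp1'
  have hμν : 2 * μ ≤ ν := by
    have h1 : (p : ℝ) ^ (2 * μ) ≤ (p : ℝ) ^ ν := by
      calc (p : ℝ) ^ (2 * μ) = ((p : ℝ) ^ μ) ^ 2 := by rw [← pow_mul]; congr 1; ring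
        _ ≤ Mv A ^ 2 := pow_le_pow_left₀ (by positivity) (hμ1.trans hM'le) 2
        _ ≤ _ := hM
    exact (pow_le_pow_iff_right₀ hp1').1 h1
  set J := μ + 1 - k with hJ
  have hd := d2_pos hp0 o k
  have hws := wt_summable hA hd
  set τ : (ι → ℤ) → ℝ := fun t => ‖GS A' (c - (2 : ℝ)⁻¹ • cz (sc (d2 p o k) t))
    (DF (d2 p o k) (fun z => χ (z o : ZMod (p ^ ν))) t)‖ with hτ
  have hτ0 : ∀ t, 0 ≤ τ t := fun t => norm_nonneg _
  have hpμ : (1 : ℝ) ≤ (p : ℝ) ^ (μ + 1) := one_le_pow₀ hp1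
  have hτb : ∀ t, τ t ≤ D * (p : ℝ) ^ (μ + 1) := by
    intro t
    refine (GS_le hA'd _ (fun z => DF_norm hF t z)).trans ((hBal'.zero.one _).trans ?_)
    calc B * (1 + Mv A') ≤ B * (2 * (p : ℝ) ^ (μ + 1)) :=
          mul_le_mul_of_nonneg_left (by linarith) hB
      _ = (2 * B) * (p : ℝ) ^ (μ + 1) := by ring
      _ ≤ _ := mul_le_mul_of_nonneg_right hBD (by positivity)
  -- the first differencing
  obtain ⟨-, hv⟩ := vdc_gs hA c hF hd
  rw [d2_prod] at hv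
  have hsum1 : Summable fun t => wt A (d2 p o k) t * τ t :=
    wsum (fun t => (wt_pos _ _ _).le) hws hτ0 hτb
  have hn1 : ‖∑' t, (wt A (d2 p o k) t : ℂ) * GS ((√2) • A) (c - (2 : ℝ)⁻¹ • cz (sc (d2 p o k) t))
      (DF (d2 p o k) (fun z => χ (z o : ZMod (p ^ ν))) t)‖ ≤ ∑' t, wt A (d2 p o k) t * τ t := by
    refine tsum_of_norm_bounded hsum1.hasSum fun t => ?_
    rw [norm_mul, Complex.norm_real, Real.norm_of_nonneg (wt_pos _ _ _).le]
  -- splitting according to the valuation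
  let Aj : ℕ → (ι → ℤ) → ℝ := fun j t => if (p : ℤ) ^ j ∣ t o ∧ ¬ (p : ℤ) ^ (j + 1) ∣ t o then
    wt A (d2 p o k) t * τ t else 0
  let AJ : (ι → ℤ) → ℝ := fun t => if (p : ℤ) ^ J ∣ t o then wt A (d2 p o k) t * τ t else 0
  have hwτ : ∀ t, 0 ≤ wt A (d2 p o k) t * τ t := fun t => mul_nonneg (wt_pos _ _ _).le (hτ0 t)
  have hAj0 : ∀ j t, 0 ≤ Aj j t := by
    intro j t
    simp only [Aj]
    split_ifs
    · exact hwτ t
    · exact le_rfl
  have hAJ0 : ∀ t, 0 ≤ AJ t := by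
    intro t
    simp only [AJ]
    split_ifs
    · exact hwτ t
    · exact le_rfl
  have hAjs : ∀ j, Summable (Aj j) := fun j =>
    Summable.of_nonneg_of_le (hAj0 j) (fun t => by
      simp only [Aj]
      split_ifs
      · exact le_rfl
      · exact hwτ t) hsum1
  have hAJs : Summable AJ :=
    Summable.of_nonneg_of_le hAJ0 (fun t => by
      simp only [AJ]
      split_ifs
      · exact le_rfl
      · exact hwτ t) hsum1
  have hsplit : ∀ t, wt A (d2 p o k) t * τ t ≤ ∑ j ∈ range J, Aj j t + AJ t := by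
    intro t
    by_cases ht : (p : ℤ) ^ J ∣ t o
    · have : AJ t = wt A (d2 p o k) t * τ t := by simp only [AJ]; rw [if_pos ht]
      rw [this]
      have := sum_nonneg fun j (_ : j ∈ range J) => hAj0 j t
      linarith
    · obtain ⟨v, n, hvJ, e1, hn, -⟩ := good_factor hp ht
      have hv1 : (p : ℤ) ^ v ∣ t o := by rw [e1]; exact dvd_mul_right _ _
      have hv2 : ¬ (p : ℤ) ^ (v + 1) ∣ t o := by
        rw [e1, pow_succ]
        intro h
        exact hn ((mul_dvd_mul_iff_left (pow_ne_zero _ (by exact_mod_cast hp0.ne'))).1 h)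
      have h1 : Aj v t = wt A (d2 p o k) t * τ t := by simp only [Aj]; rw [if_pos ⟨hv1, hv2⟩]
      have h2 := single_le_sum (f := fun j => Aj j t) (fun j _ => hAj0 j t) (mem_range.2 hvJ)
      rw [h1] at h2
      linarith [hAJ0 t]
  have hk1 : 19 * ν ≤ 58 * k := by omega
  have hkν : k ≤ ν := by omega
  -- one valuation
  have hAjb : ∀ j ∈ range J, ∑' t, Aj j t ≤ 6 * ν * D ^ 3 * (p : ℝ) ^ (μ + 6) := by
    intro j hj
    rw [mem_range] at hj
    have hsup : Function.support (Aj j) ⊆ Set.range (sc (dk p o j)) := by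
      intro t ht
      rw [Function.mem_support] at ht
      refine dk_range ?_
      by_contra h
      apply ht
      simp only [Aj]
      rw [if_neg fun h' => h h'.1]
    rw [← (sc_inj (dk_pos hp0 o j)).tsum_eq hsup]
    have e2 : ∀ x : ι → ℤ, Aj j (sc (dk p o j) x) = w1 p o (A' * dgm (dk p o (k + j))) x *
        ‖GS A' (c - (2 : ℝ)⁻¹ • cz (sc (d2 p o k) (sc (dk p o j) x)))
          (DF (d2 p o k) (fun z => χ (z o : ZMod (p ^ ν))) (sc (dk p o j) x))‖ := by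
      intro x
      simp only [Aj]
      unfold w1
      rw [sc_dk_o]
      by_cases hx : (p : ℤ) ∣ x o
      · rw [if_pos hx, if_neg, zero_mul]
        rintro ⟨-, h⟩
        apply h
        rw [pow_succ]
        exact mul_dvd_mul_left _ hx
      · rw [if_neg hx, if_pos, wt_d2]
        refine ⟨dvd_mul_right _ _, fun h => hx ?_⟩
        rw [pow_succ] at h
        exact (mul_dvd_mul_iff_left (pow_ne_zero _ (by exact_mod_cast hp0.ne'))).1 h
    rw [tsum_congr e2]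
    exact sig_bound hp hp7 hν3 (by omega) hμν (by omega) hA'd hBal' hD hμ1 hμ2.le hχ rfl c
  have hAJb : ∑' t, AJ t ≤ D ^ 2 * (p : ℝ) ^ (μ + 1) := by
    have h1 : ∑' t, AJ t ≤ ∑' t : ι → ℤ, (if (p : ℤ) ^ J ∣ t o then wt A (d2 p o k) t else 0) *
        (D * (p : ℝ) ^ (μ + 1)) := by
      refine hAJs.tsum_le_tsum (fun t => ?_) ((sum_dvd_summable (wt_det hA hd) J).mul_right _)
      simp only [AJ]
      split_ifs
      · exact mul_le_mul_of_nonneg_left (hτb t) (wt_pos _ _ _).le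
      · rw [zero_mul]
    rw [tsum_mul_right] at h1
    refine h1.trans ?_
    have h2 : ∑' t : ι → ℤ, (if (p : ℤ) ^ J ∣ t o then wt A (d2 p o k) t else 0) ≤ D := by
      unfold wt
      rw [sum_dvd hp0, d2_mat]
      refine ((hBal' (k + J) (by omega)).one 0).trans ?_
      have h3 : Mv (A' * dgm (dk p o (k + J))) ≤ 1 := by
        rw [Mv_mul, Mv_dk, ← div_eq_mul_inv, div_le_one (by positivity)]
        exact hμ2.le.trans (pow_le_pow_right₀ hp1 (by omega))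
      have := mul_le_mul_of_nonneg_left (show 1 + Mv (A' * dgm (dk p o (k + J))) ≤ 2 by linarith) hB
      linarith
    calc _ ≤ D * (D * (p : ℝ) ^ (μ + 1)) := mul_le_mul_of_nonneg_right h2 (by positivity)
      _ = _ := by ring
  have hJν : (J : ℝ) ≤ ν := by
    have : J ≤ ν := by omega
    exact_mod_cast this
  have htot : ∑' t, wt A (d2 p o k) t * τ t ≤ 7 * ν ^ 2 * D ^ 3 * (p : ℝ) ^ (μ + 6) := by
    calc ∑' t, wt A (d2 p o k) t * τ t ≤ ∑' t, (∑ j ∈ range J, Aj j t + AJ t) :=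
          hsum1.tsum_le_tsum hsplit ((summable_sum fun j _ => hAjs j).add hAJs)
      _ = ∑ j ∈ range J, ∑' t, Aj j t + ∑' t, AJ t := by
          rw [Summable.tsum_add (summable_sum fun j _ => hAjs j) hAJs,
            Summable.tsum_finsetSum fun j _ => hAjs j]
      _ ≤ ∑ j ∈ range J, 6 * ν * D ^ 3 * (p : ℝ) ^ (μ + 6) + D ^ 2 * (p : ℝ) ^ (μ + 1) :=
          add_le_add (sum_le_sum hAjb) hAJb
      _ = J * (6 * ν * D ^ 3 * (p : ℝ) ^ (μ + 6)) + D ^ 2 * (p : ℝ) ^ (μ + 1) := by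
          rw [sum_const, card_range, nsmul_eq_mul]
      _ ≤ ν * (6 * ν * D ^ 3 * (p : ℝ) ^ (μ + 6)) + ν ^ 2 * D ^ 3 * (p : ℝ) ^ (μ + 6) := by
          refine add_le_add (mul_le_mul_of_nonneg_right hJν (by positivity)) ?_
          refine mul_le_mul ?_ (pow_le_pow_right₀ hp1 (by omega)) (by positivity) (by positivity)
          have h5 : 1 ≤ (ν : ℝ) ^ 2 := one_le_pow₀ hν1
          have h6 : D ^ 2 ≤ D ^ 3 := pow_le_pow_right₀ hD1 (by norm_num)
          have h7 : 0 ≤ D ^ 2 := by positivity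
          nlinarith
      _ = _ := by ring
  calc ‖GS A c (fun z => χ (z o : ZMod (p ^ ν)))‖ ^ 2 ≤ 2 ^ Fintype.card ι * (p : ℝ) ^ k *
        (7 * ν ^ 2 * D ^ 3 * (p : ℝ) ^ (μ + 6)) :=
        hv.trans (mul_le_mul_of_nonneg_left (hn1.trans htot) (by positivity))
    _ = 7 * 2 ^ Fintype.card ι * ν ^ 2 * D ^ 3 * (p : ℝ) ^ (k + 6) * (p : ℝ) ^ μ := by
        rw [pow_add, pow_add]; ring
    _ ≤ _ := by
        refine mul_le_mul_of_nonneg_left ?_ (by positivity)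
        linarith

end Pool.Agent.T2H29.SW
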