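import Pool.Agent.T2H29.SW.L16

/-!
# Duality and tails
-/

set_option autoImplicit false
set_option linter.unusedSectionVars false

namespace Pool.Agent.T2H29.SW

open Finset

variable {ι : Type} [Fintype ι] [DecidableEq ι] {p : ℕ}

lemma inv_prim {N : ℕ} {χ : DirichletCharacter ℂ N} (hχ : χ.IsPrimitive) :
    (χ⁻¹ : DirichletCharacter ℂ N).IsPrimitive := by
  rw [DirichletCharacter.isPrimitive_def, DirichletCharacter.conductor_inv]
  exact hχ

/-- Fourier transform of a primitive character -/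
lemma ft_chi {N : ℕ} [NeZero N] {χ : DirichletCharacter ℂ N} (hχ : χ.IsPrimitive) (h : ZMod N) :
    ft (fun a => χ a) h = χ⁻¹ h * gaussSum χ ZMod.stdAddChar := by
  rw [← gaussSum_mulShift_of_isPrimitive _ hχ]
  unfold ft gaussSum ps
  refine sum_congr rfl fun a _ => ?_
  rw [AddChar.mulShift_apply, mul_comm a h]

lemma gauss_norm {N : ℕ} [NeZero N] {χ : DirichletCharacter ℂ N} (hχ : χ.IsPrimitive) :
    ‖gaussSum χ ZMod.stdAddChar‖ ^ 2 = N := by
  have hN : (N : ℂ) ≠ 0 := by exact_mod_cast NeZero.ne N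
  have h1 := ft_inv (fun a : ZMod N => χ a) 1
  simp only [map_one] at h1
  have h2 : ∑ h : ZMod N, ft (fun a => χ a) h * ps (h * (-1)) =
      gaussSum χ ZMod.stdAddChar * (starRingEnd ℂ) (gaussSum χ ZMod.stdAddChar) := by
    have e1 : (starRingEnd ℂ) (gaussSum χ ZMod.stdAddChar) = ∑ h : ZMod N, χ⁻¹ h * ps (h * (-1)) := by
      unfold gaussSum
      rw [map_sum]
      refine sum_congr rfl fun h _ => ?_
      rw [map_mul]
      have e2 : (starRingEnd ℂ) (χ h) = χ⁻¹ h := MulChar.star_apply' χ h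
      rw [e2]
      congr 1
      change (starRingEnd ℂ) (ps h) = _
      rw [ps_conj]
      congr 1
      ring
    rw [e1, mul_sum]
    refine sum_congr rfl fun h _ => ?_
    rw [ft_chi hχ]
    ring
  rw [h2, Complex.mul_conj', eq_comm, inv_mul_eq_iff_eq_mul₀ hN, mul_one] at h1
  exact_mod_cast h1

lemma ph_zero (R : ℕ) (o : ι) (w : ι → ℤ) : ph p R o 0 w = 1 := by
  unfold ph
  simp [e_zero]

/-- the functional equation -/
theorem dual_eq {ν : ℕ} [NeZero (p ^ ν)] (hp : 0 < p) {o : ι} {A : Matrix ι ι ℝ} (hA : A.det ≠ 0)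
    {χ : DirichletCharacter ℂ (p ^ ν)} (hχ : χ.IsPrimitive) :
    ‖GS A 0 (fun z => χ (z o : ZMod (p ^ ν)))‖ ^ 2 = Mv A ^ 2 / (p : ℝ) ^ ν *
      ‖GS (du (A * dgm (dk p o ν))) 0 (fun z => χ⁻¹ (z o : ZMod (p ^ ν)))‖ ^ 2 := by
  have h1 := pois_res (R := ν) hp o hA 0 (fun a => χ a)
  have hM := Mv_pos hA
  rw [h1]
  have h2 : GS (du (A * dgm (dk p o ν))) 0 (fun w => ph p ν o 0 w * ft (fun a => χ a) (w o : ZMod (p ^ ν))) =
      gaussSum χ ZMod.stdAddChar * GS (du (A * dgm (dk p o ν))) 0 (fun z => χ⁻¹ (z o : ZMod (p ^ ν))) := by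
    unfold GS
    rw [← tsum_mul_left]
    refine tsum_congr fun w => ?_
    simp only [ph_zero, ft_chi hχ]
    ring
  rw [h2, norm_mul, norm_mul, mul_pow, mul_pow, gauss_norm hχ, Complex.norm_real,
    Real.norm_of_nonneg (by positivity)]
  push_cast
  field_simp

/-- the character sum in the whole range -/
theorem core2 {ν : ℕ} (hp : p.Prime) (hp7 : 7 ≤ p) (hν : 1 ≤ ν) {o : ι} {A : Matrix ι ι ℝ}
    (hA : A.det ≠ 0) {B D : ℝ} (hBal : Bal p o ν B A) (hD : DD (Fintype.card ι) B D)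
    (hM1 : 1 ≤ Mv A) (hM2 : Mv A ≤ (p : ℝ) ^ ν) {χ : DirichletCharacter ℂ (p ^ ν)}
    (hχ : χ.IsPrimitive) : ‖GS A 0 (fun z => χ (z o : ZMod (p ^ ν)))‖ ^ 2 ≤
      14 * 2 ^ Fintype.card ι * ν ^ 2 * D ^ 3 * (p : ℝ) ^ ((19 * ν + 57) / 58 + 6) * Mv A := by
  have hp0 := hp.pos
  haveI : NeZero (p ^ ν) := ⟨by positivity⟩
  have hD1 := hD.one
  have hpν : (0 : ℝ) < (p : ℝ) ^ ν := by positivity
  by_cases h : Mv A ^ 2 ≤ (p : ℝ) ^ ν
  · refine (core1 hp hp7 hν hA hBal hD h hχ 0).trans ?_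
    set K := (2 : ℝ) ^ Fintype.card ι * ν ^ 2 * D ^ 3 * (p : ℝ) ^ ((19 * ν + 57) / 58 + 6) with hK
    have hK0 : 0 ≤ K := by positivity
    calc _ = 7 * K * (1 + Mv A) := by rw [hK]; ring
      _ ≤ 7 * K * (2 * Mv A) := by
          refine mul_le_mul_of_nonneg_left ?_ (by positivity)
          linarith
      _ = _ := by rw [hK]; ring
  · push Not at h
    rw [dual_eq hp0 hA hχ]
    set A2 := du (A * dgm (dk p o ν)) with hA2
    have hA2d : A2.det ≠ 0 := du_det_ne (det_mul_dk_ne hp0 o hA ν)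
    have hMA2 : Mv A2 = (p : ℝ) ^ ν / Mv A := by
      rw [hA2, Mv_du, Mv_mul, Mv_dk, mul_inv, inv_inv]
      field_simp
    have hB2 : Bal p o ν B A2 := Bal.du hp0 hA hBal le_rfl
    have h3 : Mv A2 ^ 2 ≤ (p : ℝ) ^ ν := by
      rw [hMA2, div_pow, div_le_iff₀ (by positivity)]
      nlinarith
    have h4 := core1 hp hp7 hν hA2d hB2 hD h3 (inv_prim hχ) 0
    set K := (2 : ℝ) ^ Fintype.card ι * ν ^ 2 * D ^ 3 * (p : ℝ) ^ ((19 * ν + 57) / 58 + 6) with hK
    have hK0 : 0 ≤ K := by positivity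
    have e1 : 7 * 2 ^ Fintype.card ι * (ν : ℝ) ^ 2 * D ^ 3 * (p : ℝ) ^ ((19 * ν + 57) / 58 + 6) * (1 + Mv A2) =
        7 * K * (1 + (p : ℝ) ^ ν / Mv A) := by rw [hK, hMA2]; ring
    rw [e1] at h4
    calc Mv A ^ 2 / (p : ℝ) ^ ν * ‖GS A2 0 (fun z => χ⁻¹ (z o : ZMod (p ^ ν)))‖ ^ 2 ≤
        Mv A ^ 2 / (p : ℝ) ^ ν * (7 * K * (1 + (p : ℝ) ^ ν / Mv A)) :=
          mul_le_mul_of_nonneg_left h4 (by positivity)
      _ = 7 * K * (Mv A * (Mv A / (p : ℝ) ^ ν) + Mv A) := by field_simp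
      _ ≤ 7 * K * (Mv A * 1 + Mv A) := by
          refine mul_le_mul_of_nonneg_left ?_ (by positivity)
          have : Mv A / (p : ℝ) ^ ν ≤ 1 := by rw [div_le_one hpν]; exact hM2
          nlinarith
      _ = _ := by rw [hK]; ring

lemma gs_zero (A : Matrix ι ι ℝ) : gs A 0 0 = 1 := by
  have e1 : cz (0 : ι → ℤ) - 0 = 0 := by funext i; simp [cz]
  have e2 : q A 0 = 0 := by unfold q; simp
  unfold gs
  rw [e1, e2, mul_zero, neg_zero, Real.exp_zero]

/-- separation of a balanced lattice -/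
lemma sep [Nonempty ι] {B : ℝ} {A : Matrix ι ι ℝ} (hA : A.det ≠ 0) (hB : CB B A) {z : ι → ℤ}
    (hz : z ≠ 0) {m : ℝ} (hm : 0 < m) (hmM : m ^ Fintype.card ι = Mv A) :
    Real.exp (-(2 * Real.pi)) / (4 * B ^ 2) / m ^ 2 ≤ q A (cz z) := by
  have hgs : ∀ t : ℝ, 0 < t → (1 : ℝ) ≤ B * (1 + Mv (t • A)) := by
    intro t ht
    refine le_trans ?_ (hB t ht 0)
    have h1 := (gs_summable (smul_det_ne ht.ne' hA) (0 : ι → ℝ)).le_tsum 0 (fun z _ => (gs_pos _ _ _).le)
    rwa [gs_zero] at h1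
  have hMm : Mv (m • A) = 1 := by
    rw [Mv_smul hm, hmM]
    exact div_self (Mv_pos hA).ne'
  have hB1 : 1 ≤ 2 * B := by
    have := hgs m hm
    rw [hMm] at this
    linarith
  have hB0 : 0 < B := by linarith
  by_contra hcon
  push Not at hcon
  set κ := Real.exp (-(2 * Real.pi)) / (4 * B ^ 2) with hκ
  have hκ0 : 0 < κ := by positivity
  -- `x = m √(q z)`
  set x := m * √(q A (cz z)) with hx
  have hx2 : x ^ 2 = m ^ 2 * q A (cz z) := by
    rw [hx, mul_pow, Real.sq_sqrt (q_nonneg _ _)]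
  have hx0 : 0 ≤ x := by positivity
  have hxκ : x ^ 2 < κ := by
    rw [hx2]
    rw [lt_div_iff₀ (by positivity)] at hcon
    linarith
  have hxlt : x < Real.exp (-Real.pi) / (2 * B) := by
    refine lt_of_pow_lt_pow_left₀ 2 (by positivity) ?_
    have : (Real.exp (-Real.pi) / (2 * B)) ^ 2 = κ := by
      rw [hκ, div_pow, ← Real.exp_nat_mul]
      congr 1
      · congr 1; push_cast; ring
      · ring
    rw [this]; exact hxκ
  -- the sum over the multiples of `z`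
  have hinj : Function.Injective (fun k : ℤ => fun i => k * z i : ℤ → ι → ℤ) := by
    intro k k' h
    obtain ⟨i, hi⟩ := Function.ne_iff.1 hz
    have := congrFun h i
    simp only at this
    exact mul_right_cancel₀ hi this
  have hs := gs_summable (smul_det_ne hm.ne' hA) (0 : ι → ℝ)
  have hgk : ∀ k : ℤ, gs (m • A) 0 (fun i => k * z i) = Real.exp (-(Real.pi * (x ^ 2 * (k : ℝ) ^ 2))) := by
    intro k
    unfold gs
    congr 3
    rw [sub_zero, q_smul, hx2]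
    have e1 : cz (fun i => k * z i) = (k : ℝ) • cz z := by
      funext i; simp [cz]
    have e2 : q A ((k : ℝ) • cz z) = (k : ℝ) ^ 2 * q A (cz z) := by
      unfold q
      rw [mul_sum]
      refine sum_congr rfl fun i _ => ?_
      rw [Matrix.mulVec_smul, Pi.smul_apply, smul_eq_mul]; ring
    rw [e1, e2]; ring
  have htot : ∑' z, gs (m • A) 0 z ≤ 2 * B := by
    have := hB m hm 0
    rw [hMm] at this
    linarith
  have hN : ∀ N : ℕ, x * N ≤ 1 → ((N : ℝ) + 1) * Real.exp (-Real.pi) ≤ 2 * B := by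
    intro N hNx
    have h1 : ∑ k ∈ range (N + 1), gs (m • A) 0 (fun i => (k : ℤ) * z i) ≤ 2 * B := by
      refine le_trans ?_ htot
      have h2 : ∑ k ∈ range (N + 1), gs (m • A) 0 (fun i => (k : ℤ) * z i) =
          ∑ w ∈ (range (N + 1)).image (fun k : ℕ => fun i => (k : ℤ) * z i), gs (m • A) 0 w := by
        rw [sum_image]
        intro k _ k' _ h
        exact_mod_cast hinj h
      rw [h2]
      exact hs.sum_le_tsum _ fun z _ => (gs_pos _ _ _).le
    refine le_trans ?_ h1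
    have h3 : ∀ k ∈ range (N + 1), Real.exp (-Real.pi) ≤ gs (m • A) 0 (fun i => (k : ℤ) * z i) := by
      intro k hk
      rw [mem_range] at hk
      rw [hgk, Real.exp_le_exp]
      have hkN : (k : ℝ) ≤ N := by exact_mod_cast (by omega : k ≤ N)
      have h4 : x * k ≤ 1 := (mul_le_mul_of_nonneg_left hkN hx0).trans hNx
      have h5 : x ^ 2 * ((k : ℤ) : ℝ) ^ 2 ≤ 1 := by
        rw [← mul_pow]
        push_cast
        exact pow_le_one₀ (by positivity) h4
      nlinarith [Real.pi_pos]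
    calc ((N : ℝ) + 1) * Real.exp (-Real.pi) = ∑ k ∈ range (N + 1), Real.exp (-Real.pi) := by
          rw [sum_const, card_range, nsmul_eq_mul]; push_cast; ring
      _ ≤ _ := sum_le_sum h3
  rcases hx0.eq_or_lt with h0 | h0
  · -- `x = 0`: arbitrarily many terms
    obtain ⟨N, hN1⟩ := exists_nat_gt (2 * B / Real.exp (-Real.pi))
    have := hN N (by rw [← h0]; simp)
    rw [div_lt_iff₀ (Real.exp_pos _)] at hN1
    nlinarith [Real.exp_pos (-Real.pi)]
  · have h1 := hN ⌊1 / x⌋₊ (by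
      have := Nat.floor_le (show 0 ≤ 1 / x by positivity)
      calc x * (⌊1 / x⌋₊ : ℝ) ≤ x * (1 / x) := mul_le_mul_of_nonneg_left this hx0
        _ = 1 := by field_simp)
    have h2 := Nat.lt_floor_add_one (1 / x)
    have h3 : (1 / x) * Real.exp (-Real.pi) < 2 * B :=
      lt_of_lt_of_le (mul_lt_mul_of_pos_right h2 (Real.exp_pos _)) h1
    have h4 : Real.exp (-Real.pi) < 2 * B * x := by
      rw [one_div, inv_mul_lt_iff₀ h0] at h3
      linarith
    have h5 : Real.exp (-Real.pi) / (2 * B) < x := by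
      rw [div_lt_iff₀ (by positivity)]; linarith
    linarith

/-- the tail -/
theorem tail [Nonempty ι] (B : ℝ) (N : ℕ) : ∃ C : ℝ, 0 < C ∧ ∀ A : Matrix ι ι ℝ, A.det ≠ 0 →
    CB B A → Mv A ≤ 1 → ∀ F : (ι → ℤ) → ℂ, F 0 = 0 → (∀ z, ‖F z‖ ≤ 1) →
    ‖GS A 0 F‖ ≤ C * Mv A ^ N := by
  set n := Fintype.card ι with hn
  have hn1 : 1 ≤ n := Fintype.card_pos
  set κ := Real.exp (-(2 * Real.pi)) / (4 * B ^ 2) with hκ
  set J := n * N with hJ
  set C := (|B| + 1) * (1 + √2 ^ n) * ((J.factorial : ℝ) / (Real.pi / 2 * κ) ^ J) with hC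
  by_cases hB0 : B = 0
  · refine ⟨1, one_pos, fun A hA hCB _ F _ _ => ?_⟩
    exfalso
    have h1 := (gs_summable hA (0 : ι → ℝ)).le_tsum 0 (fun z _ => (gs_pos _ _ _).le)
    have h2 := hCB.one 0
    have h3 : gs A 0 0 = 1 := gs_zero A
    rw [h3] at h1
    rw [hB0, zero_mul] at h2
    linarith
  have hκ0 : 0 < κ := by positivity
  have hC0 : 0 < C := by
    have : 0 < (Real.pi / 2 * κ) ^ J := by positivity
    have h2 : (0 : ℝ) < J.factorial := by exact_mod_cast J.factorial_pos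
    positivity
  refine ⟨C, hC0, fun A hA hCB hM F hF0 hF => ?_⟩
  have hMA := Mv_pos hA
  have hBn := hCB.nonneg
  set m := Mv A ^ ((n : ℝ)⁻¹) with hm
  have hm0 : 0 < m := Real.rpow_pos_of_pos hMA _
  have hmM : m ^ n = Mv A := by
    rw [hm, ← Real.rpow_natCast, ← Real.rpow_mul hMA.le, inv_mul_cancel₀ (by positivity),
      Real.rpow_one]
  set y := Real.pi / 2 * κ / m ^ 2 with hy
  have hy0 : 0 < y := by positivity
  have hA2 : ((√2)⁻¹ • A).det ≠ 0 := smul_det_ne (by positivity) hA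
  have hpt : ∀ z, ‖(gs A 0 z : ℂ) * F z‖ ≤ Real.exp (-y) * gs ((√2)⁻¹ • A) 0 z := by
    intro z
    by_cases hz : z = 0
    · rw [hz, hF0, mul_zero, norm_zero]
      exact mul_nonneg (Real.exp_pos _).le (gs_pos _ _ _).le
    · rw [norm_mul, Complex.norm_real, Real.norm_of_nonneg (gs_pos _ _ _).le]
      refine (mul_le_of_le_one_right (gs_pos _ _ _).le (hF z)).trans ?_
      unfold gs
      rw [← Real.exp_add, Real.exp_le_exp, sub_zero, q_smul, inv_pow, Real.sq_sqrt (by norm_num)]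
      have h1 := sep hA hCB hz hm0 hmM
      have h2 : y ≤ Real.pi / 2 * q A (cz z) := by
        rw [hy, mul_div_assoc]
        exact mul_le_mul_of_nonneg_left h1 (by positivity)
      linarith
  have hs : Summable fun z => Real.exp (-y) * gs ((√2)⁻¹ • A) 0 z := (gs_summable hA2 0).mul_left _
  have h1 : ‖GS A 0 F‖ ≤ Real.exp (-y) * ∑' z, gs ((√2)⁻¹ • A) 0 z := by
    unfold GS
    rw [← tsum_mul_left]
    exact tsum_of_norm_bounded hs.hasSum hpt
  have h2 : ∑' z, gs ((√2)⁻¹ • A) 0 z ≤ B * (1 + √2 ^ n) := by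
    refine (hCB _ (by positivity) 0).trans ?_
    rw [Mv_smul (by positivity), inv_pow, div_inv_eq_mul]
    refine mul_le_mul_of_nonneg_left ?_ hBn
    have : 0 ≤ √2 ^ n := by positivity
    have : Mv A * √2 ^ n ≤ 1 * √2 ^ n := mul_le_mul_of_nonneg_right hM this
    linarith
  have h3 : Real.exp (-y) ≤ (J.factorial : ℝ) / y ^ J := by
    have := Real.pow_div_factorial_le_exp y hy0.le J
    rw [Real.exp_neg, ← one_div, div_le_div_iff₀ (Real.exp_pos _) (by positivity)]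
    have hf : (0 : ℝ) < J.factorial := by exact_mod_cast J.factorial_pos
    rw [div_le_iff₀ hf] at this
    linarith
  have h4 : (J.factorial : ℝ) / y ^ J = (J.factorial : ℝ) / (Real.pi / 2 * κ) ^ J * Mv A ^ (2 * N) := by
    have e1 : y ^ J = (Real.pi / 2 * κ) ^ J / Mv A ^ (2 * N) := by
      rw [hy, div_pow]
      congr 1
      rw [hJ, ← hmM, ← pow_mul, ← pow_mul]
      congr 1; ring
    rw [e1, div_div_eq_mul_div, mul_div_right_comm]
  calc ‖GS A 0 F‖ ≤ Real.exp (-y) * (B * (1 + √2 ^ n)) :=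
        h1.trans (mul_le_mul_of_nonneg_left h2 (Real.exp_pos _).le)
    _ ≤ ((J.factorial : ℝ) / (Real.pi / 2 * κ) ^ J * Mv A ^ (2 * N)) * ((|B| + 1) * (1 + √2 ^ n)) := by
        rw [h4] at h3
        refine mul_le_mul h3 ?_ (by positivity) (by positivity)
        refine mul_le_mul_of_nonneg_right ?_ (by positivity)
        linarith [le_abs_self B]
    _ = C * Mv A ^ (2 * N) := by rw [hC]; ring
    _ ≤ C * Mv A ^ N := by
        refine mul_le_mul_of_nonneg_left ?_ hC0.le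
        exact pow_le_pow_of_le_one hMA.le hM (by omega)

/-- the sum for small `M` and for large `M` -/
theorem tails [Nonempty ι] (B : ℝ) (N : ℕ) : ∃ C : ℝ, 0 < C ∧ ∀ (p ν : ℕ), p.Prime → 1 ≤ ν →
    ∀ (o : ι) (A : Matrix ι ι ℝ), A.det ≠ 0 → Bal p o ν B A →
    ∀ χ : DirichletCharacter ℂ (p ^ ν), χ.IsPrimitive →
    (Mv A ≤ 1 → ‖GS A 0 (fun z => χ (z o : ZMod (p ^ ν)))‖ ≤ C * Mv A ^ N) ∧
    ((p : ℝ) ^ ν ≤ Mv A → ‖GS A 0 (fun z => χ (z o : ZMod (p ^ ν)))‖ ^ 2 ≤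
      C * (Mv A ^ 2 / (p : ℝ) ^ ν) * ((p : ℝ) ^ ν / Mv A) ^ N) := by
  obtain ⟨C, hC0, hC⟩ := tail (ι := ι) B N
  refine ⟨C + C ^ 2, by positivity, fun p ν hp hν o A hA hBal χ hχ => ?_⟩
  have hp0 := hp.pos
  haveI : NeZero (p ^ ν) := ⟨by positivity⟩
  haveI : Fact (1 < p ^ ν) := ⟨Nat.one_lt_pow (by omega) hp.one_lt⟩
  have hF0 : ∀ ψ : DirichletCharacter ℂ (p ^ ν), ψ (((0 : ι → ℤ) o : ℤ) : ZMod (p ^ ν)) = 0 := by
    intro ψ
    simp only [Pi.zero_apply, Int.cast_zero]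
    exact MulChar.map_zero ψ
  have hMA := Mv_pos hA
  constructor
  · intro hM
    refine (hC A hA hBal.zero hM (fun z => χ (z o : ZMod (p ^ ν))) (hF0 χ) (fun z => χ.norm_le_one _)).trans ?_
    refine mul_le_mul_of_nonneg_right ?_ (by positivity)
    nlinarith [sq_nonneg C]
  · intro hM
    rw [dual_eq hp0 hA hχ]
    set A2 := du (A * dgm (dk p o ν)) with hA2
    have hA2d : A2.det ≠ 0 := du_det_ne (det_mul_dk_ne hp0 o hA ν)
    have hMA2 : Mv A2 = (p : ℝ) ^ ν / Mv A := by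
      rw [hA2, Mv_du, Mv_mul, Mv_dk, mul_inv, inv_inv]
      field_simp
    have hB2 : Bal p o ν B A2 := Bal.du hp0 hA hBal le_rfl
    have h1 : Mv A2 ≤ 1 := by
      rw [hMA2, div_le_one hMA]; exact hM
    have h2 := hC A2 hA2d hB2.zero h1 (fun z => χ⁻¹ (z o : ZMod (p ^ ν))) (hF0 χ⁻¹)
      (fun z => (χ⁻¹).norm_le_one _)
    rw [hMA2] at h2
    have h3 : (0 : ℝ) ≤ (p : ℝ) ^ ν / Mv A := by positivity
    have h4 : (p : ℝ) ^ ν / Mv A ≤ 1 := by rw [div_le_one hMA]; exact hM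
    calc Mv A ^ 2 / (p : ℝ) ^ ν * ‖GS A2 0 (fun z => χ⁻¹ (z o : ZMod (p ^ ν)))‖ ^ 2 ≤
        Mv A ^ 2 / (p : ℝ) ^ ν * (C * ((p : ℝ) ^ ν / Mv A) ^ N) ^ 2 :=
          mul_le_mul_of_nonneg_left (pow_le_pow_left₀ (norm_nonneg _) h2 2) (by positivity)
      _ = C ^ 2 * (Mv A ^ 2 / (p : ℝ) ^ ν) * (((p : ℝ) ^ ν / Mv A) ^ N * ((p : ℝ) ^ ν / Mv A) ^ N) := by
          ring
      _ ≤ (C + C ^ 2) * (Mv A ^ 2 / (p : ℝ) ^ ν) * (((p : ℝ) ^ ν / Mv A) ^ N * 1) := by
          refine mul_le_mul ?_ ?_ (by positivity) (by positivity)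
          · refine mul_le_mul_of_nonneg_right ?_ (by positivity)
            linarith
          · exact mul_le_mul_of_nonneg_left (pow_le_one₀ h3 h4) (by positivity)
      _ = _ := by ring

end Pool.Agent.T2H29.SW
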