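import Pool.Agent.T2H29.SW.L1

/-!
# Poisson summation for Gaussians: the formula
-/

set_option autoImplicit false
set_option linter.unusedSectionVars false

namespace Pool.Agent.T2H29.SW

open Finset MeasureTheory Matrix Topology

variable {ι : Type} [Fintype ι] [DecidableEq ι]

lemma du_det (A : Matrix ι ι ℝ) : (du A).det = (A.det)⁻¹ := by
  unfold du
  rw [Matrix.det_transpose, Matrix.det_nonsing_inv, Ring.inverse_eq_inv']

lemma du_det_ne {A : Matrix ι ι ℝ} (hA : A.det ≠ 0) : (du A).det ≠ 0 := by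
  rw [du_det]; exact inv_ne_zero hA

lemma du_du {A : Matrix ι ι ℝ} (hA : A.det ≠ 0) : du (du A) = A := by
  unfold du
  rw [← Matrix.transpose_nonsing_inv, Matrix.transpose_transpose,
    Matrix.nonsing_inv_nonsing_inv _ (isUnit_iff_ne_zero.2 hA)]

theorem cov_meas {B : Matrix ι ι ℝ} (hB : B.det ≠ 0) :
    MeasurableEmbedding (Matrix.toLin' B : (ι → ℝ) → (ι → ℝ)) := by
  have hu : IsUnit B.det := isUnit_iff_ne_zero.2 hB
  let f : (ι → ℝ) ≃ₗ[ℝ] (ι → ℝ) :=
    LinearEquiv.ofIsUnitDet (f := Matrix.toLin' B) (v := Pi.basisFun ℝ ι)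
      (v' := Pi.basisFun ℝ ι) (by
        rw [← Matrix.toLin_eq_toLin', LinearMap.toMatrix_toLin]
        exact hu)
  have := f.toContinuousLinearEquiv.toHomeomorph.measurableEmbedding
  exact this

theorem cov {B : Matrix ι ι ℝ} (hB : B.det ≠ 0) (G : (ι → ℝ) → ℂ) :
    ∫ x, G (B *ᵥ x) = ((|B.det|⁻¹ : ℝ) : ℂ) * ∫ l, G l := by
  have hmap := Real.map_matrix_volume_pi_eq_smul_volume_pi hB
  have h1 := (cov_meas hB).integral_map (μ := volume) G
  rw [hmap, integral_smul_measure] at h1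
  simp only [Matrix.toLin'_apply] at h1
  rw [← h1, ENNReal.toReal_ofReal (abs_nonneg _), abs_inv, Complex.real_smul]

theorem cov_int {B : Matrix ι ι ℝ} (hB : B.det ≠ 0) {G : (ι → ℝ) → ℂ} (hG : Integrable G) :
    Integrable fun x => G (B *ᵥ x) := by
  have hmap := Real.map_matrix_volume_pi_eq_smul_volume_pi hB
  have h1 : Integrable G (Measure.map (Matrix.toLin' B) volume) := by
    rw [hmap]
    exact hG.smul_measure ENNReal.ofReal_ne_top
  have h2 := (cov_meas hB).integrable_map_iff.1 h1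
  simpa [Function.comp_def] using h2

lemma one_dim (t : ℝ) : ∫ s : ℝ, ((Real.exp (-(Real.pi * s ^ 2)) : ℝ) : ℂ) * e (-(t * s)) =
    ((Real.exp (-(Real.pi * t ^ 2)) : ℝ) : ℂ) := by
  have h := integral_cexp_quadratic (b := -(Real.pi : ℂ)) (by simp [Real.pi_pos])
    (-(2 * Real.pi * Complex.I * t)) 0
  have e1 : ∀ s : ℝ, ((Real.exp (-(Real.pi * s ^ 2)) : ℝ) : ℂ) * e (-(t * s)) =
      Complex.exp (-(Real.pi : ℂ) * (s : ℂ) ^ 2 + -(2 * Real.pi * Complex.I * t) * s + 0) := by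
    intro s
    unfold e
    rw [Complex.ofReal_exp, ← Complex.exp_add]
    congr 1
    push_cast
    ring
  simp_rw [e1]
  rw [h, neg_neg, div_self (by exact_mod_cast Real.pi_ne_zero), Complex.one_cpow, one_mul,
    Complex.ofReal_exp]
  congr 1
  have hpi : (Real.pi : ℂ) ≠ 0 := by exact_mod_cast Real.pi_ne_zero
  push_cast
  field_simp
  ring_nf
  rw [Complex.I_sq]
  ring

lemma int_prod : Integrable fun x : ι → ℝ => ((Real.exp (-(Real.pi * ∑ i, x i ^ 2)) : ℝ) : ℂ) := by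
  have h : ∀ i : ι, Integrable fun s : ℝ => ((Real.exp (-(Real.pi * s ^ 2)) : ℝ) : ℂ) := by
    intro i
    have := (integrable_exp_neg_mul_sq Real.pi_pos).ofReal (𝕜 := ℂ)
    refine this.congr (Filter.Eventually.of_forall fun s => ?_)
    simp
  have h2 := MeasureTheory.Integrable.fintype_prod (f := fun (_ : ι) (s : ℝ) =>
    ((Real.exp (-(Real.pi * s ^ 2)) : ℝ) : ℂ)) h
  refine h2.congr (Filter.Eventually.of_forall fun x => ?_)
  simp only
  rw [← Complex.ofReal_prod, ← Real.exp_sum]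
  congr 2
  rw [mul_sum, sum_neg_distrib]

lemma int_q {A : Matrix ι ι ℝ} (hA : A.det ≠ 0) :
    Integrable fun x : ι → ℝ => ((Real.exp (-(Real.pi * q A x)) : ℝ) : ℂ) :=
  cov_int hA int_prod

/-- Fourier transform of a Gaussian -/
lemma ft_q {A : Matrix ι ι ℝ} (hA : A.det ≠ 0) (v : ι → ℝ) :
    ∫ x : ι → ℝ, ((Real.exp (-(Real.pi * q A x)) : ℝ) : ℂ) * e (-(∑ i, v i * x i)) =
      ((|A.det|⁻¹ * Real.exp (-(Real.pi * q (du A) v)) : ℝ) : ℂ) := by
  have hu : IsUnit A.det := isUnit_iff_ne_zero.2 hA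
  have h1 : ∀ x : ι → ℝ,
      ((Real.exp (-(Real.pi * q A x)) : ℝ) : ℂ) * e (-(∑ i, v i * x i))
        = (fun η : ι → ℝ => ∏ j, (((Real.exp (-(Real.pi * η j ^ 2)) : ℝ) : ℂ) *
          e (-((v ᵥ* A⁻¹) j * η j)))) (A *ᵥ x) := by
    intro x
    have h2 : -(∑ i, v i * x i) = ∑ j, -((v ᵥ* A⁻¹) j * (A *ᵥ x) j) := by
      rw [Finset.sum_neg_distrib]
      congr 1
      have h3 : ∑ j, (v ᵥ* A⁻¹) j * (A *ᵥ x) j = (v ᵥ* A⁻¹) ⬝ᵥ (A *ᵥ x) := rfl
      have h4 : ∑ i, v i * x i = v ⬝ᵥ x := rfl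
      rw [h3, h4, Matrix.dotProduct_mulVec, Matrix.vecMul_vecMul, Matrix.nonsing_inv_mul _ hu,
        Matrix.vecMul_one]
    rw [h2, e_sum]
    simp only
    rw [Finset.prod_mul_distrib, ← Complex.ofReal_prod, ← Real.exp_sum]
    congr 3
    unfold q
    rw [mul_sum, sum_neg_distrib]
  simp_rw [h1]
  rw [cov hA (fun η : ι → ℝ => ∏ j, (((Real.exp (-(Real.pi * η j ^ 2)) : ℝ) : ℂ) *
          e (-((v ᵥ* A⁻¹) j * η j))))]
  rw [integral_fintype_prod_volume_eq_prod
    (fun j (s : ℝ) => (((Real.exp (-(Real.pi * s ^ 2)) : ℝ) : ℂ) * e (-((v ᵥ* A⁻¹) j * s))))]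
  simp_rw [one_dim]
  rw [← Complex.ofReal_prod, ← Real.exp_sum, Complex.ofReal_mul]
  congr 3
  unfold q du
  rw [sum_neg_distrib, mul_sum]
  congr 1
  refine sum_congr rfl fun j _ => ?_
  rw [Matrix.mulVec_transpose]

/-- Poisson summation for Gaussians with centre `c` and frequency `ξ` -/
theorem gs_poisson {A : Matrix ι ι ℝ} (hA : A.det ≠ 0) (c ξ : ι → ℝ) :
    ∑' z : ι → ℤ, (gs A c z : ℂ) * e (∑ i, ξ i * z i) =
      ((|A.det|⁻¹ : ℝ) : ℂ) * ∑' y : ι → ℤ, (gs (du A) ξ y : ℂ) * e (∑ i, c i * (ξ i - y i)) := by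
  set F : (ι → ℝ) → ℂ := fun x => ((Real.exp (-(Real.pi * q A (x - c))) : ℝ) : ℂ) *
    e (∑ i, ξ i * x i) with hF
  have hec : Continuous fun x : ι → ℝ => e (∑ i, ξ i * x i) := e_continuous.comp (by fun_prop)
  have hFc : Continuous F := by
    refine Continuous.mul ?_ hec
    refine Complex.continuous_ofReal.comp (Real.continuous_exp.comp ?_)
    exact (continuous_const.mul ((q_continuous A).comp (continuous_id.sub continuous_const))).neg
  have hFi : Integrable F := by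
    refine Integrable.mul_bdd (c := 1) ?_ hec.aestronglyMeasurable
      (Filter.Eventually.of_forall fun x => by rw [e_norm])
    exact (int_q hA).comp_sub_right c
  have hd : Dom F := by
    intro R
    obtain ⟨u, h0, hu, h⟩ := gauss_dom hA (∑ i, |c i| + R)
    refine ⟨fun z => u (-z), (Equiv.neg _).summable_iff.2 hu, fun x hx z => ?_⟩
    rw [hF]
    simp only
    rw [norm_mul, e_norm, mul_one, Complex.norm_real, Real.norm_of_nonneg (Real.exp_pos _).le]
    have h2 := h (c - x) (fun i => by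
      have h3 : |c i| ≤ ∑ i, |c i| :=
        single_le_sum (f := fun i => |c i|) (fun j _ => abs_nonneg _) (mem_univ i)
      have h4 := abs_sub (c i) (x i)
      have h5 := hx i
      simp only [Pi.sub_apply]
      linarith) (-z)
    refine le_trans (le_of_eq ?_) h2
    unfold gs
    congr 4
    funext i
    simp only [cz, Pi.sub_apply, Pi.neg_apply]
    push_cast
    ring
  have hft : ∀ y : ι → ℤ, ∫ u : ι → ℝ, F u * e (-(∑ i, (y i : ℝ) * u i)) =
      ((|A.det|⁻¹ : ℝ) : ℂ) * ((gs (du A) ξ y : ℂ) * e (∑ i, c i * (ξ i - y i))) := by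
    intro y
    have h1 : ∀ u : ι → ℝ, F u * e (-(∑ i, (y i : ℝ) * u i)) =
        (fun x : ι → ℝ => (((Real.exp (-(Real.pi * q A x)) : ℝ) : ℂ) *
          e (-(∑ i, (cz y - ξ) i * x i))) * e (∑ i, c i * (ξ i - y i))) (u - c) := by
      intro u
      rw [hF]
      simp only
      rw [mul_assoc, mul_assoc, ← e_add, ← e_add]
      congr 2
      rw [← sum_neg_distrib, ← sum_neg_distrib, ← sum_add_distrib, ← sum_add_distrib]
      refine sum_congr rfl fun i _ => ?_
      simp only [cz, Pi.sub_apply]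
      ring
    simp_rw [h1]
    rw [integral_sub_right_eq_self (fun x : ι → ℝ => (((Real.exp (-(Real.pi * q A x)) : ℝ) : ℂ) *
          e (-(∑ i, (cz y - ξ) i * x i))) * e (∑ i, c i * (ξ i - y i))) c, integral_mul_const,
      ft_q hA]
    unfold gs
    push_cast
    ring
  have hs : Summable fun y : ι → ℤ => ‖∫ x : ι → ℝ, F x * e (-(∑ i, (y i : ℝ) * x i))‖ := by
    simp_rw [hft, norm_mul, e_norm, mul_one, Complex.norm_real,
      Real.norm_of_nonneg (gs_pos _ _ _).le]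
    exact (gs_summable (du_det_ne hA) ξ).mul_left _
  have h := poisson hFc hFi hd hs 0
  have h2 := h.tsum_eq
  rw [← (Equiv.neg (ι → ℤ)).tsum_eq (fun z : ι → ℤ => (gs A c z : ℂ) * e (∑ i, ξ i * z i))]
  have e2 : ∀ z : ι → ℤ, (gs A c (Equiv.neg _ z) : ℂ) * e (∑ i, ξ i * ((Equiv.neg (ι → ℤ) z) i : ℤ)) =
      F (0 - cz z) := by
    intro z
    rw [hF]
    simp only
    have a1 : cz (Equiv.neg (ι → ℤ) z) - c = 0 - cz z - c := by
      funext i
      simp [cz]
    have a2 : ∑ i, ξ i * ((Equiv.neg (ι → ℤ) z) i : ℤ) = ∑ i, ξ i * (0 - cz z) i :=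
      sum_congr rfl fun i _ => by simp [cz]
    unfold gs
    rw [a1, a2]
  simp_rw [e2]
  rw [← h2, ← tsum_mul_left]
  refine tsum_congr fun y => ?_
  rw [hft]
  simp [e_zero]

end Pool.Agent.T2H29.SW
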