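import Pool.Agent.T2H29.SW.L2

/-!
# Balanced lattices and their duals
-/

set_option autoImplicit false
set_option linter.unusedSectionVars false

namespace Pool.Agent.T2H29.SW

open Finset MeasureTheory Matrix Topology

variable {ι : Type} [Fintype ι] [DecidableEq ι]

/-- diagonal matrix with natural entries -/
def dgm (d : ι → ℕ) : Matrix ι ι ℝ := Matrix.diagonal fun i => (d i : ℝ)

/-- the diagonal `(p^k, 1, …, 1)`, the distinguished place is `o` -/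
def dk (p : ℕ) (o : ι) (k : ℕ) : ι → ℕ := fun i => if i = o then p ^ k else 1

lemma det_dgm (d : ι → ℕ) : (dgm d).det = ∏ i, (d i : ℝ) := by
  unfold dgm; rw [Matrix.det_diagonal]

lemma det_dgm_ne {d : ι → ℕ} (hd : ∀ i, 0 < d i) : (dgm d).det ≠ 0 := by
  rw [det_dgm]
  exact prod_ne_zero_iff.2 fun i _ => by exact_mod_cast (hd i).ne'

lemma det_dk (p : ℕ) (o : ι) (k : ℕ) : (dgm (dk p o k)).det = (p : ℝ) ^ k := by
  rw [det_dgm]
  unfold dk
  rw [prod_eq_single o]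
  · simp
  · intro b _ hb
    simp [hb]
  · intro h; exact absurd (mem_univ o) h

lemma dk_pos {p : ℕ} (hp : 0 < p) (o : ι) (k : ℕ) (i : ι) : 0 < dk p o k i := by
  unfold dk
  split_ifs
  · positivity
  · exact one_pos

lemma prod_dk (p : ℕ) (o : ι) (k : ℕ) : ∏ i, (dk p o k i) = p ^ k := by
  unfold dk
  rw [prod_eq_single o]
  · simp
  · intro b _ hb
    simp [hb]
  · intro h; exact absurd (mem_univ o) h

/-- `z ↦ (d i z i)` on integer vectors -/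
def sc (d : ι → ℕ) (z : ι → ℤ) : ι → ℤ := fun i => d i * z i

lemma dgm_mulVec (d : ι → ℕ) (x : ι → ℝ) : dgm d *ᵥ x = fun i => d i * x i := by
  unfold dgm
  funext i
  rw [Matrix.mulVec_diagonal]

lemma gs_mul_dgm (A : Matrix ι ι ℝ) (d : ι → ℕ) (c : ι → ℝ) (z : ι → ℤ) :
    gs (A * dgm d) c z = gs A (fun i => d i * c i) (sc d z) := by
  unfold gs q
  rw [← Matrix.mulVec_mulVec, dgm_mulVec]
  congr 6
  funext i
  congr 3
  funext j
  simp only [cz, sc, Pi.sub_apply]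
  push_cast
  ring

lemma gs_sc {A : Matrix ι ι ℝ} {d : ι → ℕ} (hd : ∀ i, 0 < d i) (c : ι → ℝ) (z : ι → ℤ) :
    gs A c (sc d z) = gs (A * dgm d) (fun i => c i / d i) z := by
  rw [gs_mul_dgm]
  congr 1
  funext i
  have : (d i : ℝ) ≠ 0 := by exact_mod_cast (hd i).ne'
  field_simp

lemma q_smul (t : ℝ) (A : Matrix ι ι ℝ) (x : ι → ℝ) : q (t • A) x = t ^ 2 * q A x := by
  unfold q
  rw [mul_sum]
  refine sum_congr rfl fun i _ => ?_
  rw [Matrix.smul_mulVec, Pi.smul_apply, smul_eq_mul]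
  ring

lemma du_smul {t : ℝ} (ht : t ≠ 0) {A : Matrix ι ι ℝ} (hA : A.det ≠ 0) :
    du (t • A) = t⁻¹ • du A := by
  unfold du
  rw [← Matrix.transpose_smul]
  congr 1
  have hu : IsUnit A.det := isUnit_iff_ne_zero.2 hA
  refine Matrix.inv_eq_right_inv ?_
  rw [Matrix.smul_mul, Matrix.mul_smul, smul_smul, mul_inv_cancel₀ ht, one_smul,
    Matrix.mul_nonsing_inv _ hu]

lemma smul_det_ne {t : ℝ} (ht : t ≠ 0) {A : Matrix ι ι ℝ} (hA : A.det ≠ 0) : (t • A).det ≠ 0 := by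
  rw [Matrix.det_smul]
  exact mul_ne_zero (pow_ne_zero _ ht) hA

/-- number of lattice points, on the average -/
noncomputable def Mv (A : Matrix ι ι ℝ) : ℝ := |A.det|⁻¹

lemma Mv_pos {A : Matrix ι ι ℝ} (hA : A.det ≠ 0) : 0 < Mv A := inv_pos.2 (abs_pos.2 hA)

lemma Mv_du (A : Matrix ι ι ℝ) : Mv (du A) = (Mv A)⁻¹ := by
  unfold Mv
  rw [du_det, abs_inv]

lemma Mv_smul {t : ℝ} (ht : 0 < t) (A : Matrix ι ι ℝ) :
    Mv (t • A) = Mv A / t ^ (Fintype.card ι) := by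
  unfold Mv
  rw [Matrix.det_smul, abs_mul, abs_of_pos (pow_pos ht _), mul_inv, div_eq_mul_inv, mul_comm]

lemma Mv_mul (A D : Matrix ι ι ℝ) : Mv (A * D) = Mv A * Mv D := by
  unfold Mv
  rw [Matrix.det_mul, abs_mul, mul_inv]

lemma Mv_dk {p : ℕ} (o : ι) (k : ℕ) : Mv (dgm (dk p o k)) = ((p : ℝ) ^ k)⁻¹ := by
  unfold Mv
  rw [det_dk, abs_of_nonneg (by positivity)]

/-- the counting bound, at all scales and for all centres -/
def CB (B : ℝ) (A : Matrix ι ι ℝ) : Prop := ∀ t : ℝ, 0 < t → ∀ c : ι → ℝ,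
  ∑' z, gs (t • A) c z ≤ B * (1 + Mv (t • A))

lemma CB.smul {B : ℝ} {A : Matrix ι ι ℝ} (h : CB B A) {s : ℝ} (hs : 0 < s) : CB B (s • A) := by
  intro t ht c
  rw [smul_smul]
  exact h (t * s) (mul_pos ht hs) c

lemma CB.one {B : ℝ} {A : Matrix ι ι ℝ} (h : CB B A) (c : ι → ℝ) :
    ∑' z, gs A c z ≤ B * (1 + Mv A) := by
  have := h 1 one_pos c
  rwa [one_smul] at this

lemma CB.nonneg {B : ℝ} {A : Matrix ι ι ℝ} (h : CB B A) : 0 ≤ B := by
  have h1 := h.one 0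
  have h2 : 0 ≤ ∑' z, gs A 0 z := tsum_nonneg fun z => (gs_pos _ _ _).le
  have h3 : 0 ≤ Mv A := inv_nonneg.2 (abs_nonneg _)
  by_contra hB
  push Not at hB
  nlinarith

lemma norm_gs_sum_le {A : Matrix ι ι ℝ} (hA : A.det ≠ 0) (c : ι → ℝ) {F : (ι → ℤ) → ℂ} {b : ℝ}
    (hF : ∀ z, ‖F z‖ ≤ b) : (Summable fun z => (gs A c z : ℂ) * F z) ∧
      ‖∑' z, (gs A c z : ℂ) * F z‖ ≤ b * ∑' z, gs A c z := by
  have h1 := gs_summable hA c
  have h2 : ∀ z, ‖(gs A c z : ℂ) * F z‖ ≤ b * gs A c z := by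
    intro z
    rw [norm_mul, Complex.norm_real, Real.norm_of_nonneg (gs_pos _ _ _).le, mul_comm]
    exact mul_le_mul_of_nonneg_right (hF z) (gs_pos _ _ _).le
  have h3 : Summable fun z => (gs A c z : ℂ) * F z := Summable.of_norm_bounded (h1.mul_left b) h2
  refine ⟨h3, ?_⟩
  refine (norm_tsum_le_tsum_norm h3.norm).trans ?_
  rw [← tsum_mul_left]
  exact h3.norm.tsum_le_tsum h2 (h1.mul_left b)

lemma CB.du {B : ℝ} {A : Matrix ι ι ℝ} (hA : A.det ≠ 0) (h : CB B A) : CB B (du A) := by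
  intro t ht c
  have ht' : t⁻¹ ≠ 0 := (inv_pos.2 ht).ne'
  set A1 := t⁻¹ • A with hA1
  have hA1d : A1.det ≠ 0 := smul_det_ne ht' hA
  have e1 : t • SW.du A = SW.du A1 := by
    rw [hA1, du_smul ht' hA, inv_inv]
  rw [e1]
  have hp := gs_poisson hA1d 0 c
  simp only [Pi.zero_apply, zero_mul, sum_const_zero, e_zero, mul_one] at hp
  have h2 : (∑' y, gs (SW.du A1) c y : ℝ) = |A1.det| * ‖∑' z, (gs A1 0 z : ℂ) * e (∑ i, c i * z i)‖ := by
    rw [hp, norm_mul, ← Complex.ofReal_tsum, Complex.norm_real, Complex.norm_real,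
      Real.norm_of_nonneg (inv_nonneg.2 (abs_nonneg _)),
      Real.norm_of_nonneg (tsum_nonneg fun z => (gs_pos _ _ _).le), ← mul_assoc,
      mul_inv_cancel₀ (abs_pos.2 hA1d).ne', one_mul]
  rw [h2]
  have h3 := (norm_gs_sum_le hA1d 0 (F := fun z => e (∑ i, c i * z i)) (b := 1)
    (fun z => by rw [e_norm])).2
  have h4 := (h.smul (inv_pos.2 ht)).one 0
  rw [← hA1] at h4
  have h5 : 0 < |A1.det| := abs_pos.2 hA1d
  calc |A1.det| * ‖∑' z, (gs A1 0 z : ℂ) * e (∑ i, c i * z i)‖ ≤ |A1.det| * (B * (1 + Mv A1)) := by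
        refine mul_le_mul_of_nonneg_left ?_ h5.le
        rw [one_mul] at h3
        exact h3.trans h4
    _ = B * (1 + Mv (SW.du A1)) := by
        rw [Mv_du]
        unfold Mv
        rw [inv_inv]
        field_simp
        ring

/-- the chain `A D_k` is balanced for `k ≤ K` -/
def Bal (p : ℕ) (o : ι) (K : ℕ) (B : ℝ) (A : Matrix ι ι ℝ) : Prop :=
  ∀ k ≤ K, CB B (A * dgm (dk p o k))

lemma dgm_mul (d d' : ι → ℕ) : dgm d * dgm d' = dgm (d * d') := by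
  unfold dgm
  rw [Matrix.diagonal_mul_diagonal]
  congr 1
  funext i
  simp

lemma dk_add (p : ℕ) (o : ι) (a b : ℕ) : dk p o a * dk p o b = dk p o (a + b) := by
  funext i
  simp only [Pi.mul_apply, dk]
  split_ifs
  · rw [pow_add]
  · rw [one_mul]

lemma dk_zero (p : ℕ) (o : ι) : dgm (dk p o 0) = 1 := by
  unfold dgm dk
  rw [← Matrix.diagonal_one]
  congr 1
  funext i
  simp

lemma du_mul_dk {p : ℕ} (hp : 0 < p) (o : ι) {A : Matrix ι ι ℝ} {r a : ℕ}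
    (har : a ≤ r) : du (A * dgm (dk p o r)) * dgm (dk p o a) = du (A * dgm (dk p o (r - a))) := by
  obtain ⟨b, rfl⟩ := Nat.exists_eq_add_of_le har
  rw [Nat.add_sub_cancel_left]
  have hu : IsUnit (dgm (dk p o a)).det :=
    isUnit_iff_ne_zero.2 (det_dgm_ne (dk_pos hp o a))
  have e1 : dgm (dk p o (a + b)) = dgm (dk p o b) * dgm (dk p o a) := by
    rw [dgm_mul, dk_add, add_comm]
  have e2 : (dgm (dk p o a))ᵀ = dgm (dk p o a) := by
    unfold dgm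
    rw [Matrix.diagonal_transpose]
  rw [e1, ← Matrix.mul_assoc]
  unfold du
  rw [Matrix.mul_inv_rev, Matrix.transpose_mul, Matrix.mul_assoc]
  have e3 : (dgm (dk p o a))⁻¹ᵀ * dgm (dk p o a) = 1 := by
    conv_lhs => rw [← e2]
    rw [← Matrix.transpose_nonsing_inv, Matrix.transpose_transpose]
    rw [e2, Matrix.nonsing_inv_mul _ hu]
  rw [e3, Matrix.mul_one]

lemma Bal.du {p : ℕ} (hp : 0 < p) {o : ι} {K : ℕ} {B : ℝ} {A : Matrix ι ι ℝ} (hA : A.det ≠ 0)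
    (h : Bal p o K B A) {r : ℕ} (hr : r ≤ K) : Bal p o r B (du (A * dgm (dk p o r))) := by
  intro k hk
  rw [du_mul_dk hp o hk]
  refine CB.du ?_ (h (r - k) ((Nat.sub_le _ _).trans hr))
  rw [Matrix.det_mul]
  exact mul_ne_zero hA (det_dgm_ne (dk_pos hp o _))

lemma Bal.smul {p : ℕ} {o : ι} {K : ℕ} {B : ℝ} {A : Matrix ι ι ℝ}
    (h : Bal p o K B A) {t : ℝ} (ht : 0 < t) : Bal p o K B (t • A) := by
  intro k hk
  rw [Matrix.smul_mul]
  exact (h k hk).smul ht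

lemma Bal.shift {p : ℕ} {o : ι} {K : ℕ} {B : ℝ} {A : Matrix ι ι ℝ}
    (h : Bal p o K B A) {a : ℕ} (ha : a ≤ K) : Bal p o (K - a) B (A * dgm (dk p o a)) := by
  intro k hk
  rw [Matrix.mul_assoc, dgm_mul, dk_add]
  exact h _ (by omega)

lemma Bal.mono {p : ℕ} {o : ι} {K K' : ℕ} {B : ℝ} {A : Matrix ι ι ℝ}
    (h : Bal p o K B A) (hK : K' ≤ K) : Bal p o K' B A := fun k hk => h k (hk.trans hK)

lemma Bal.zero {p : ℕ} {o : ι} {K : ℕ} {B : ℝ} {A : Matrix ι ι ℝ}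
    (h : Bal p o K B A) : CB B A := by
  have := h 0 (Nat.zero_le _)
  rwa [dk_zero, Matrix.mul_one] at this

lemma det_mul_dk_ne {p : ℕ} (hp : 0 < p) (o : ι) {A : Matrix ι ι ℝ} (hA : A.det ≠ 0) (r : ℕ) :
    (A * dgm (dk p o r)).det ≠ 0 := by
  rw [Matrix.det_mul]
  exact mul_ne_zero hA (det_dgm_ne (dk_pos hp o _))

end Pool.Agent.T2H29.SW
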