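import Pool.Agent.T2H29.SW.L3

/-!
# Differencing over sublattices
-/

set_option autoImplicit false
set_option linter.unusedSectionVars false

namespace Pool.Agent.T2H29.SW

open Finset MeasureTheory Matrix Topology

variable {ι : Type} [Fintype ι] [DecidableEq ι]

/-- the class of a vector modulo `d` -/
def cl (d : ι → ℕ) (z : ι → ℤ) : ι → ℤ := fun i => z i % (d i : ℤ)

/-- the pair `(z + d t, z)` -/
def jj (d : ι → ℕ) (tz : (ι → ℤ) × (ι → ℤ)) : (ι → ℤ) × (ι → ℤ) := (tz.2 + sc d tz.1, tz.2)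

lemma jj_inj {d : ι → ℕ} (hd : ∀ i, 0 < d i) : Function.Injective (jj d) := by
  rintro ⟨t, z⟩ ⟨t', z'⟩ h
  unfold jj at h
  rw [Prod.mk.injEq] at h
  obtain ⟨h1, h0⟩ := h
  simp only at h0 h1
  subst h0
  have h2 : sc d t = sc d t' := add_left_cancel h1
  have h3 : t = t' := by
    funext i
    have h4 : (d i : ℤ) * t i = (d i : ℤ) * t' i := congrFun h2 i
    exact mul_left_cancel₀ (by exact_mod_cast (hd i).ne') h4
  rw [h3]

lemma cl_jj (d : ι → ℕ) (tz : (ι → ℤ) × (ι → ℤ)) : cl d (jj d tz).1 = cl d (jj d tz).2 := by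
  funext i
  show (tz.2 i + (d i : ℤ) * tz.1 i) % (d i : ℤ) = tz.2 i % (d i : ℤ)
  rw [Int.add_mul_emod_self_left]

lemma cl_range (d : ι → ℕ) {z w : ι → ℤ} (h : cl d z = cl d w) : (z, w) ∈ Set.range (jj d) := by
  have h5 : ∀ i, ∃ t : ℤ, z i = w i + d i * t := by
    intro i
    have h6 : z i % (d i : ℤ) = w i % (d i : ℤ) := congrFun h i
    have h7 : w i ≡ z i [ZMOD (d i : ℤ)] := h6.symm
    obtain ⟨t, ht⟩ := h7.dvd
    exact ⟨t, by linarith⟩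
  choose t ht using h5
  refine ⟨(t, w), ?_⟩
  unfold jj
  rw [Prod.mk.injEq]
  refine ⟨?_, rfl⟩
  funext i
  rw [ht i]; rfl

lemma pair_summable {H : (ι → ℤ) → ℂ} (hH : Summable fun z => ‖H z‖) :
    Summable fun zw : (ι → ℤ) × (ι → ℤ) => ‖H zw.1 * (starRingEnd ℂ) (H zw.2)‖ := by
  have h := hH.mul_of_nonneg hH (fun z => norm_nonneg _) (fun z => norm_nonneg _)
  refine h.congr fun zw => ?_
  rw [norm_mul, RCLike.norm_conj]

lemma pair_summable2 {H : (ι → ℤ) → ℂ} (hH : Summable fun z => ‖H z‖) {d : ι → ℕ}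
    (hd : ∀ i, 0 < d i) :
    Summable fun tz : (ι → ℤ) × (ι → ℤ) => ‖H (tz.2 + sc d tz.1) * (starRingEnd ℂ) (H tz.2)‖ := by
  have h := (pair_summable hH).comp_injective (jj_inj hd)
  refine h.congr fun tz => ?_
  rw [Function.comp_apply]
  unfold jj
  rfl

/-- the part of `H` on a class -/
noncomputable def HC (d : ι → ℕ) (H : (ι → ℤ) → ℂ) (c z : ι → ℤ) : ℂ :=
  if cl d z = c then H z else 0

lemma HC_le (d : ι → ℕ) (H : (ι → ℤ) → ℂ) (c z : ι → ℤ) : ‖HC d H c z‖ ≤ ‖H z‖ := by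
  unfold HC
  split_ifs
  · exact le_rfl
  · rw [norm_zero]; exact norm_nonneg _

/-- the set of classes -/
noncomputable def CC (d : ι → ℕ) : Finset (ι → ℤ) := Fintype.piFinset fun i => Finset.Ico (0 : ℤ) (d i)

lemma cl_mem {d : ι → ℕ} (hd : ∀ i, 0 < d i) (z : ι → ℤ) : cl d z ∈ CC d := by
  unfold CC
  rw [Fintype.mem_piFinset]
  intro i
  rw [mem_Ico]
  exact ⟨Int.emod_nonneg _ (by exact_mod_cast (hd i).ne'),
    Int.emod_lt_of_pos _ (by exact_mod_cast hd i)⟩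

lemma CC_card (d : ι → ℕ) : ((CC d).card : ℝ) = ∏ i, (d i : ℝ) := by
  unfold CC
  rw [Fintype.card_piFinset]
  push_cast
  refine prod_congr rfl fun i _ => ?_
  rw [Int.card_Ico]; simp

lemma HC_summable {H : (ι → ℤ) → ℂ} (hH : Summable fun z => ‖H z‖) (d : ι → ℕ) (c : ι → ℤ) :
    Summable fun z => ‖HC d H c z‖ :=
  Summable.of_nonneg_of_le (fun z => norm_nonneg _) (fun z => HC_le d H c z) hH

lemma sum_classes {H : (ι → ℤ) → ℂ} (hH : Summable fun z => ‖H z‖) {d : ι → ℕ}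
    (hd : ∀ i, 0 < d i) : ∑' z, H z = ∑ c ∈ CC d, ∑' z, HC d H c z := by
  rw [← Summable.tsum_finsetSum (fun c _ => (HC_summable hH d c).of_norm)]
  refine tsum_congr fun z => ?_
  unfold HC
  rw [sum_ite_eq, if_pos (cl_mem hd z)]

lemma class_sq {H : (ι → ℤ) → ℂ} (hH : Summable fun z => ‖H z‖) (d : ι → ℕ) (c : ι → ℤ) :
    ((‖∑' z, HC d H c z‖ ^ 2 : ℝ) : ℂ) = ∑' zw : (ι → ℤ) × (ι → ℤ),
      HC d H c zw.1 * (starRingEnd ℂ) (HC d H c zw.2) := by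
  rw [Complex.ofReal_pow, ← Complex.mul_conj', Complex.conj_tsum]
  have hc2 : Summable fun z => ‖(starRingEnd ℂ) (HC d H c z)‖ := by
    refine (HC_summable hH d c).congr fun z => ?_
    rw [RCLike.norm_conj]
  rw [tsum_mul_tsum_of_summable_norm (HC_summable hH d c) hc2]

lemma sum_HC {H : (ι → ℤ) → ℂ} {d : ι → ℕ} (hd : ∀ i, 0 < d i) (z w : ι → ℤ) :
    ∑ c ∈ CC d, HC d H c z * (starRingEnd ℂ) (HC d H c w) =
      if cl d z = cl d w then H z * (starRingEnd ℂ) (H w) else 0 := by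
  rw [sum_eq_single (cl d z)]
  · unfold HC
    rw [if_pos rfl]
    by_cases h : cl d z = cl d w
    · rw [if_pos h, if_pos h.symm]
    · rw [if_neg h, if_neg (fun h' => h h'.symm), map_zero, mul_zero]
  · intro c _ hc
    unfold HC
    rw [if_neg (fun h => hc h.symm), zero_mul]
  · intro h; exact absurd (cl_mem hd _) h

lemma reindex {H : (ι → ℤ) → ℂ} {d : ι → ℕ} (hd : ∀ i, 0 < d i) :
    ∑' zw : (ι → ℤ) × (ι → ℤ),
        (if cl d zw.1 = cl d zw.2 then H zw.1 * (starRingEnd ℂ) (H zw.2) else 0) =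
        ∑' tz : (ι → ℤ) × (ι → ℤ), H (tz.2 + sc d tz.1) * (starRingEnd ℂ) (H tz.2) := by
  have hsup : Function.support (fun zw : (ι → ℤ) × (ι → ℤ) =>
      (if cl d zw.1 = cl d zw.2 then H zw.1 * (starRingEnd ℂ) (H zw.2) else 0)) ⊆
        Set.range (jj d) := by
    rintro ⟨z, w⟩ h
    rw [Function.mem_support] at h
    have h4 : cl d z = cl d w := by
      by_contra h5
      exact h (if_neg h5)
    exact cl_range d h4
  rw [← (jj_inj hd).tsum_eq hsup]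
  refine tsum_congr fun tz => ?_
  rw [if_pos (cl_jj d tz)]
  rfl

lemma class_total {H : (ι → ℤ) → ℂ} (hH : Summable fun z => ‖H z‖) {d : ι → ℕ}
    (hd : ∀ i, 0 < d i) : ((∑ c ∈ CC d, ‖∑' z, HC d H c z‖ ^ 2 : ℝ) : ℂ) =
      ∑' t, ∑' z, H (z + sc d t) * (starRingEnd ℂ) (H z) := by
  rw [Complex.ofReal_sum, sum_congr rfl fun c _ => class_sq hH d c]
  have hsm : ∀ c ∈ CC d, Summable fun zw : (ι → ℤ) × (ι → ℤ) =>
      HC d H c zw.1 * (starRingEnd ℂ) (HC d H c zw.2) := by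
    intro c _
    refine Summable.of_norm_bounded (pair_summable hH) fun zw => ?_
    rw [norm_mul, norm_mul, RCLike.norm_conj, RCLike.norm_conj]
    exact mul_le_mul (HC_le _ _ _ _) (HC_le _ _ _ _) (norm_nonneg _) (norm_nonneg _)
  rw [← Summable.tsum_finsetSum hsm]
  simp_rw [sum_HC hd]
  rw [reindex hd]
  exact (pair_summable2 hH hd).of_norm.tsum_prod

/-- differencing: `|∑ H|² ≤ (∏ d) |∑_t ∑_z H(z + d t) conj H(z)|` -/
theorem vdc {H : (ι → ℤ) → ℂ} (hH : Summable fun z => ‖H z‖) {d : ι → ℕ} (hd : ∀ i, 0 < d i) :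
    ‖∑' z, H z‖ ^ 2 ≤ (∏ i, (d i : ℝ)) *
      ‖∑' t, ∑' z, H (z + sc d t) * (starRingEnd ℂ) (H z)‖ := by
  have h4 : 0 ≤ ∑ c ∈ CC d, ‖∑' z, HC d H c z‖ ^ 2 := sum_nonneg fun c _ => by positivity
  rw [← class_total hH hd, Complex.norm_real, Real.norm_of_nonneg h4, sum_classes hH hd]
  calc ‖∑ c ∈ CC d, ∑' z, HC d H c z‖ ^ 2 ≤ (∑ c ∈ CC d, ‖∑' z, HC d H c z‖) ^ 2 :=
        pow_le_pow_left₀ (norm_nonneg _) (norm_sum_le _ _) 2
    _ ≤ (CC d).card * ∑ c ∈ CC d, ‖∑' z, HC d H c z‖ ^ 2 := sq_sum_le_card_mul_sum_sq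
    _ = _ := by rw [CC_card]

/-- parallelogram law -/
lemma q_par (A : Matrix ι ι ℝ) (x t : ι → ℝ) :
    q A (x + t) + q A x = 2 * q A (x + (2 : ℝ)⁻¹ • t) + (2 : ℝ)⁻¹ * q A t := by
  unfold q
  rw [← sum_add_distrib, mul_sum, mul_sum, ← sum_add_distrib]
  refine sum_congr rfl fun i _ => ?_
  rw [Matrix.mulVec_add, Matrix.mulVec_add, Matrix.mulVec_smul]
  simp only [Pi.add_apply, Pi.smul_apply, smul_eq_mul]
  ring

lemma gs_par (A : Matrix ι ι ℝ) (c : ι → ℝ) (z t : ι → ℤ) :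
    gs A c (z + t) * gs A c z =
      gs ((√2) • A) (c - (2 : ℝ)⁻¹ • cz t) z * gs ((√2)⁻¹ • A) 0 t := by
  unfold gs
  rw [← Real.exp_add, ← Real.exp_add]
  congr 1
  have h := q_par A (cz z - c) (cz t)
  have e1 : cz (z + t) - c = cz z - c + cz t := by
    funext i; simp [cz]; ring
  have e2 : cz z - (c - (2 : ℝ)⁻¹ • cz t) = cz z - c + (2 : ℝ)⁻¹ • cz t := by
    funext i; simp; ring
  rw [e1, e2, q_smul, q_smul, inv_pow, Real.sq_sqrt (by norm_num), sub_zero]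
  linear_combination (-Real.pi) * h

/-- the difference of a function -/
noncomputable def DF (d : ι → ℕ) (F : (ι → ℤ) → ℂ) (t z : ι → ℤ) : ℂ :=
  F (z + sc d t) * (starRingEnd ℂ) (F z)

lemma DF_norm {d : ι → ℕ} {F : (ι → ℤ) → ℂ} (hF : ∀ z, ‖F z‖ ≤ 1) (t z : ι → ℤ) :
    ‖DF d F t z‖ ≤ 1 := by
  unfold DF
  rw [norm_mul, RCLike.norm_conj]
  exact mul_le_one₀ (hF _) (norm_nonneg _) (hF _)

/-- Gaussian sum -/
noncomputable def GS (A : Matrix ι ι ℝ) (c : ι → ℝ) (F : (ι → ℤ) → ℂ) : ℂ :=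
  ∑' z, (gs A c z : ℂ) * F z

lemma GS_summable {A : Matrix ι ι ℝ} (hA : A.det ≠ 0) (c : ι → ℝ) {F : (ι → ℤ) → ℂ}
    (hF : ∀ z, ‖F z‖ ≤ 1) : Summable fun z => ‖(gs A c z : ℂ) * F z‖ :=
  ((norm_gs_sum_le hA c hF).1).norm

lemma GS_le {A : Matrix ι ι ℝ} (hA : A.det ≠ 0) (c : ι → ℝ) {F : (ι → ℤ) → ℂ}
    (hF : ∀ z, ‖F z‖ ≤ 1) : ‖GS A c F‖ ≤ ∑' z, gs A c z := by
  have := (norm_gs_sum_le hA c hF).2
  rwa [one_mul] at this

/-- the weights of the shifts -/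
noncomputable def wt (A : Matrix ι ι ℝ) (d : ι → ℕ) (t : ι → ℤ) : ℝ := gs ((√2)⁻¹ • (A * dgm d)) 0 t

lemma wt_eq (A : Matrix ι ι ℝ) (d : ι → ℕ) (t : ι → ℤ) :
    gs ((√2)⁻¹ • A) 0 (sc d t) = wt A d t := by
  unfold wt
  rw [← Matrix.smul_mul, gs_mul_dgm]
  congr 1
  funext i; simp

lemma wt_pos (A : Matrix ι ι ℝ) (d : ι → ℕ) (t : ι → ℤ) : 0 < wt A d t := gs_pos _ _ _

lemma wt_det {A : Matrix ι ι ℝ} (hA : A.det ≠ 0) {d : ι → ℕ} (hd : ∀ i, 0 < d i) :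
    ((√2)⁻¹ • (A * dgm d)).det ≠ 0 := by
  refine smul_det_ne (by positivity) ?_
  rw [Matrix.det_mul]
  exact mul_ne_zero hA (det_dgm_ne hd)

lemma wt_summable {A : Matrix ι ι ℝ} (hA : A.det ≠ 0) {d : ι → ℕ} (hd : ∀ i, 0 < d i) :
    Summable (wt A d) := gs_summable (wt_det hA hd) 0

/-- differencing for Gaussian sums -/
theorem vdc_gs {A : Matrix ι ι ℝ} (hA : A.det ≠ 0) (c : ι → ℝ) {F : (ι → ℤ) → ℂ}
    (hF : ∀ z, ‖F z‖ ≤ 1) {d : ι → ℕ} (hd : ∀ i, 0 < d i) :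
    (Summable fun t => (wt A d t : ℂ) * GS ((√2) • A) (c - (2 : ℝ)⁻¹ • cz (sc d t)) (DF d F t)) ∧
    ‖GS A c F‖ ^ 2 ≤ (∏ i, (d i : ℝ)) *
      ‖∑' t, (wt A d t : ℂ) * GS ((√2) • A) (c - (2 : ℝ)⁻¹ • cz (sc d t)) (DF d F t)‖ := by
  have h1 := pair_summable2 (GS_summable hA c hF) hd
  have h2 := vdc (GS_summable hA c hF) hd
  have e1 : ∀ t, ∑' z, ((gs A c (z + sc d t) : ℂ) * F (z + sc d t)) *
      (starRingEnd ℂ) ((gs A c z : ℂ) * F z) =
      (wt A d t : ℂ) * GS ((√2) • A) (c - (2 : ℝ)⁻¹ • cz (sc d t)) (DF d F t) := by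
    intro t
    unfold GS DF
    rw [← tsum_mul_left]
    refine tsum_congr fun z => ?_
    have h3 := gs_par A c z (sc d t)
    rw [wt_eq] at h3
    rw [map_mul, Complex.conj_ofReal]
    have h4 : ((gs A c (z + sc d t) : ℂ) * (gs A c z : ℂ)) =
      (gs ((√2) • A) (c - (2 : ℝ)⁻¹ • cz (sc d t)) z : ℂ) * (wt A d t : ℂ) := by
      exact_mod_cast h3
    linear_combination (F (z + sc d t) * (starRingEnd ℂ) (F z)) * h4
  constructor
  · have := h1.of_norm.prod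
    refine this.congr fun t => ?_
    exact e1 t
  · rw [tsum_congr e1] at h2
    exact h2

end Pool.Agent.T2H29.SW
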