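import Pool.Agent.T2H29.SW.L4

/-!
# Differencing on the average
-/

set_option autoImplicit false
set_option linter.unusedSectionVars false

namespace Pool.Agent.T2H29.SW

open Finset MeasureTheory Matrix Topology

variable {ι : Type} [Fintype ι] [DecidableEq ι] {X : Type}

lemma wsum {w y : X → ℝ} {b : ℝ} (hw0 : ∀ x, 0 ≤ w x) (hw : Summable w) (hy0 : ∀ x, 0 ≤ y x)
    (hy : ∀ x, y x ≤ b) : Summable fun x => w x * y x :=
  Summable.of_nonneg_of_le (fun x => mul_nonneg (hw0 x) (hy0 x))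
    (fun x => mul_le_mul_of_nonneg_left (hy x) (hw0 x)) (hw.mul_right b)

lemma wsum_le {w y : X → ℝ} {b : ℝ} (hw0 : ∀ x, 0 ≤ w x) (hw : Summable w) (hy0 : ∀ x, 0 ≤ y x)
    (hy : ∀ x, y x ≤ b) : ∑' x, w x * y x ≤ (∑' x, w x) * b := by
  rw [← tsum_mul_right]
  exact (wsum hw0 hw hy0 hy).tsum_le_tsum (fun x => mul_le_mul_of_nonneg_left (hy x) (hw0 x))
    (hw.mul_right b)

/-- Cauchy's inequality with weights -/
lemma avg_sq {w y : X → ℝ} {b : ℝ} (hw0 : ∀ x, 0 ≤ w x) (hw : Summable w) (hy0 : ∀ x, 0 ≤ y x)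
    (hy : ∀ x, y x ≤ b) : (∑' x, w x * y x) ^ 2 ≤ (∑' x, w x) * ∑' x, w x * y x ^ 2 := by
  have hb : ∀ x, y x ^ 2 ≤ b ^ 2 := fun x => pow_le_pow_left₀ (hy0 x) (hy x) 2
  have s1 := wsum hw0 hw hy0 hy
  have s2 := wsum hw0 hw (fun x => sq_nonneg (y x)) hb
  set W := ∑' x, w x with hW
  set S1 := ∑' x, w x * y x with hS1
  set S2 := ∑' x, w x * y x ^ 2 with hS2
  have hW0 : 0 ≤ W := tsum_nonneg hw0
  have h1 : ∑' x, w x * (W * y x - S1) ^ 2 = W * (W * S2 - S1 ^ 2) := by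
    have e : ∀ x, w x * (W * y x - S1) ^ 2 =
        W ^ 2 * (w x * y x ^ 2) - 2 * W * S1 * (w x * y x) + S1 ^ 2 * w x := fun x => by ring
    simp_rw [e]
    rw [Summable.tsum_add ((s2.mul_left _).sub (s1.mul_left _)) (hw.mul_left _),
      Summable.tsum_sub (s2.mul_left _) (s1.mul_left _), tsum_mul_left, tsum_mul_left,
      tsum_mul_left]
    ring
  have h2 : 0 ≤ W * (W * S2 - S1 ^ 2) := by
    rw [← h1]
    exact tsum_nonneg fun x => mul_nonneg (hw0 x) (sq_nonneg _)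
  rcases hW0.eq_or_lt with h | h
  · have hz : ∀ x, w x = 0 := by
      have := (hasSum_zero_iff_of_nonneg hw0).1 (h ▸ hw.hasSum : HasSum w 0)
      exact fun x => congrFun this x
    have : S1 = 0 := by
      rw [hS1]; simp [hz]
    rw [this, ← h]
    simp
  · nlinarith [nonneg_of_mul_nonneg_right h2 h]

/-- the average of the absolute values of the Gaussian sums -/
noncomputable def S1 (w : X → ℝ) (A : Matrix ι ι ℝ) (c : ι → ℝ) (F : X → (ι → ℤ) → ℂ) : ℝ :=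
  ∑' x, w x * ‖GS A c (F x)‖

/-- the absolute value of the average of the Gaussian sums -/
noncomputable def S0 (w : X → ℝ) (A : Matrix ι ι ℝ) (c : ι → ℝ) (F : X → (ι → ℤ) → ℂ) : ℝ :=
  ‖∑' x, (w x : ℂ) * GS A c (F x)‖

lemma S1_nonneg {w : X → ℝ} (hw0 : ∀ x, 0 ≤ w x) (A : Matrix ι ι ℝ) (c : ι → ℝ)
    (F : X → (ι → ℤ) → ℂ) : 0 ≤ S1 w A c F :=
  tsum_nonneg fun x => mul_nonneg (hw0 x) (norm_nonneg _)

lemma S1_le {w : X → ℝ} (hw0 : ∀ x, 0 ≤ w x) (hw : Summable w) {A : Matrix ι ι ℝ}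
    (hA : A.det ≠ 0) (c : ι → ℝ) {F : X → (ι → ℤ) → ℂ} (hF : ∀ x z, ‖F x z‖ ≤ 1) {b : ℝ}
    (hb : ∑' z, gs A c z ≤ b) : S1 w A c F ≤ (∑' x, w x) * b :=
  wsum_le hw0 hw (fun x => norm_nonneg _) fun x => (GS_le hA c (hF x)).trans hb

lemma S0_le {w : X → ℝ} (hw0 : ∀ x, 0 ≤ w x) (hw : Summable w) {A : Matrix ι ι ℝ}
    (hA : A.det ≠ 0) (c : ι → ℝ) {F : X → (ι → ℤ) → ℂ} (hF : ∀ x z, ‖F x z‖ ≤ 1) :
    S0 w A c F ≤ S1 w A c F := by
  have hs : Summable fun x => w x * ‖GS A c (F x)‖ :=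
    wsum hw0 hw (fun x => norm_nonneg _) fun x => GS_le hA c (hF x)
  have e : ∀ x, ‖(w x : ℂ) * GS A c (F x)‖ = w x * ‖GS A c (F x)‖ := by
    intro x
    rw [norm_mul, Complex.norm_real, Real.norm_of_nonneg (hw0 x)]
  unfold S0 S1
  refine (norm_tsum_le_tsum_norm (hs.congr fun x => (e x).symm)).trans ?_
  rw [tsum_congr e]

/-- differencing on the average over `x` -/
theorem vdc_avg {w : X → ℝ} (hw0 : ∀ x, 0 ≤ w x) (hw : Summable w) {A : Matrix ι ι ℝ}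
    (hA : A.det ≠ 0) (c : ι → ℝ) {F : X → (ι → ℤ) → ℂ} (hF : ∀ x z, ‖F x z‖ ≤ 1)
    {d : ι → ℕ} (hd : ∀ i, 0 < d i) {b : ℝ} (hb : ∀ c', ∑' z, gs ((√2) • A) c' z ≤ b) :
    S1 w A c F ^ 2 ≤ (∑' x, w x) * ((∏ i, (d i : ℝ)) *
      ∑' t, wt A d t * S0 w ((√2) • A) (c - (2 : ℝ)⁻¹ • cz (sc d t)) (fun x => DF d (F x) t)) := by
  have hA2 : ((√2) • A).det ≠ 0 := smul_det_ne (by positivity) hA
  have hP0 : 0 ≤ ∏ i, (d i : ℝ) := prod_nonneg fun i _ => Nat.cast_nonneg _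
  have hW0 : 0 ≤ ∑' x, w x := tsum_nonneg hw0
  have hb0 : 0 ≤ b := (tsum_nonneg fun z => (gs_pos _ _ _).le).trans (hb 0)
  -- the numbers `R x`
  have hR : ∀ x, ∃ R : ℝ, 0 ≤ R ∧ (R : ℂ) = ∑' t, (wt A d t : ℂ) *
      GS ((√2) • A) (c - (2 : ℝ)⁻¹ • cz (sc d t)) (DF d (F x) t) ∧
      ‖GS A c (F x)‖ ^ 2 ≤ (∏ i, (d i : ℝ)) * R := by
    intro x
    have hH := GS_summable hA c (hF x)
    have h4 : 0 ≤ ∑ c' ∈ CC d, ‖∑' z, HC d (fun z => (gs A c z : ℂ) * F x z) c' z‖ ^ 2 :=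
      sum_nonneg fun c _ => by positivity
    refine ⟨_, h4, ?_, ?_⟩
    · rw [class_total hH hd]
      refine tsum_congr fun t => ?_
      unfold GS DF
      rw [← tsum_mul_left]
      refine tsum_congr fun z => ?_
      have h3 := gs_par A c z (sc d t)
      rw [wt_eq] at h3
      rw [map_mul, Complex.conj_ofReal]
      have h4 : ((gs A c (z + sc d t) : ℂ) * (gs A c z : ℂ)) =
        (gs ((√2) • A) (c - (2 : ℝ)⁻¹ • cz (sc d t)) z : ℂ) * (wt A d t : ℂ) := by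
        exact_mod_cast h3
      linear_combination (F x (z + sc d t) * (starRingEnd ℂ) (F x z)) * h4
    · unfold GS
      rw [sum_classes hH hd]
      calc ‖∑ c' ∈ CC d, ∑' z, HC d (fun z => (gs A c z : ℂ) * F x z) c' z‖ ^ 2
          ≤ (∑ c' ∈ CC d, ‖∑' z, HC d (fun z => (gs A c z : ℂ) * F x z) c' z‖) ^ 2 :=
            pow_le_pow_left₀ (norm_nonneg _) (norm_sum_le _ _) 2
        _ ≤ (CC d).card * ∑ c' ∈ CC d, ‖∑' z, HC d (fun z => (gs A c z : ℂ) * F x z) c' z‖ ^ 2 :=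
            sq_sum_le_card_mul_sum_sq
        _ = _ := by rw [CC_card]
  choose R hR0 hRe hRs using hR
  have hws := wt_summable hA hd
  have hGb : ∀ x t, ‖GS ((√2) • A) (c - (2 : ℝ)⁻¹ • cz (sc d t)) (DF d (F x) t)‖ ≤ b := fun x t =>
    (GS_le hA2 _ (fun z => DF_norm (hF x) t z)).trans (hb _)
  have hnt : ∀ x t, ‖(wt A d t : ℂ) *
      GS ((√2) • A) (c - (2 : ℝ)⁻¹ • cz (sc d t)) (DF d (F x) t)‖ ≤ wt A d t * b := by
    intro x t
    rw [norm_mul, Complex.norm_real, Real.norm_of_nonneg (wt_pos _ _ _).le]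
    exact mul_le_mul_of_nonneg_left (hGb x t) (wt_pos _ _ _).le
  have hRb : ∀ x, R x ≤ (∑' t, wt A d t) * b := by
    intro x
    have h1 : R x = ‖(R x : ℂ)‖ := by rw [Complex.norm_real, Real.norm_of_nonneg (hR0 x)]
    rw [h1, hRe x, ← tsum_mul_right]
    exact tsum_of_norm_bounded (hws.mul_right b).hasSum (hnt x)
  have hGA : ∀ x, ‖GS A c (F x)‖ ≤ ∑' z, gs A c z := fun x => GS_le hA c (hF x)
  have h1 := avg_sq hw0 hw (fun x => norm_nonneg (GS A c (F x))) hGA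
  refine h1.trans (mul_le_mul_of_nonneg_left ?_ hW0)
  have h2 : ∑' x, w x * ‖GS A c (F x)‖ ^ 2 ≤ (∏ i, (d i : ℝ)) * ∑' x, w x * R x := by
    rw [← tsum_mul_left]
    refine Summable.tsum_le_tsum (fun x => ?_) ?_ ?_
    · have := mul_le_mul_of_nonneg_left (hRs x) (hw0 x)
      linarith
    · exact wsum hw0 hw (fun x => sq_nonneg _) fun x => pow_le_pow_left₀ (norm_nonneg _) (hGA x) 2
    · exact (wsum hw0 hw hR0 hRb).mul_left _
  refine h2.trans (mul_le_mul_of_nonneg_left ?_ hP0)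
  -- exchange
  have hsm : Summable fun xt : X × (ι → ℤ) => (w xt.1 : ℂ) * ((wt A d xt.2 : ℂ) *
      GS ((√2) • A) (c - (2 : ℝ)⁻¹ • cz (sc d xt.2)) (DF d (F xt.1) xt.2)) := by
    have h3 : Summable fun xt : X × (ι → ℤ) => w xt.1 * (wt A d xt.2 * b) :=
      hw.mul_of_nonneg (hws.mul_right b) hw0 fun t => mul_nonneg (wt_pos _ _ _).le hb0
    refine Summable.of_norm_bounded h3 fun xt => ?_
    rw [norm_mul, Complex.norm_real, Real.norm_of_nonneg (hw0 _)]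
    exact mul_le_mul_of_nonneg_left (hnt _ _) (hw0 _)
  have h5 : ((∑' x, w x * R x : ℝ) : ℂ) = ∑' t, (wt A d t : ℂ) * ∑' x, (w x : ℂ) *
      GS ((√2) • A) (c - (2 : ℝ)⁻¹ • cz (sc d t)) (DF d (F x) t) := by
    rw [Complex.ofReal_tsum]
    have e1 : ∀ x, ((w x * R x : ℝ) : ℂ) = ∑' t, (w x : ℂ) * ((wt A d t : ℂ) *
        GS ((√2) • A) (c - (2 : ℝ)⁻¹ • cz (sc d t)) (DF d (F x) t)) := by
      intro x
      rw [tsum_mul_left, ← hRe x]
      push_cast; rfl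
    rw [tsum_congr e1, ← Summable.tsum_comm (f := fun (x : X) (t : ι → ℤ) => (w x : ℂ) *
      ((wt A d t : ℂ) * GS ((√2) • A) (c - (2 : ℝ)⁻¹ • cz (sc d t)) (DF d (F x) t))) hsm]
    refine tsum_congr fun t => ?_
    rw [← tsum_mul_left]
    refine tsum_congr fun x => ?_
    ring
  have h6 : 0 ≤ ∑' x, w x * R x := tsum_nonneg fun x => mul_nonneg (hw0 x) (hR0 x)
  have h7 : ∑' x, w x * R x = ‖((∑' x, w x * R x : ℝ) : ℂ)‖ := by
    rw [Complex.norm_real, Real.norm_of_nonneg h6]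
  rw [h7, h5]
  have h8 : ∀ t, ‖(wt A d t : ℂ) * ∑' x, (w x : ℂ) *
      GS ((√2) • A) (c - (2 : ℝ)⁻¹ • cz (sc d t)) (DF d (F x) t)‖ =
      wt A d t * S0 w ((√2) • A) (c - (2 : ℝ)⁻¹ • cz (sc d t)) (fun x => DF d (F x) t) := by
    intro t
    unfold S0
    rw [norm_mul, Complex.norm_real, Real.norm_of_nonneg (wt_pos _ _ _).le]
  have h9 : Summable fun t => wt A d t * S0 w ((√2) • A) (c - (2 : ℝ)⁻¹ • cz (sc d t))
      (fun x => DF d (F x) t) := by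
    refine wsum (fun t => (wt_pos _ _ _).le) hws (fun t => norm_nonneg _)
      (b := (∑' x, w x) * b) fun t => ?_
    exact (S0_le hw0 hw hA2 _ (fun x z => DF_norm (hF x) t z)).trans
      (S1_le hw0 hw hA2 _ (fun x z => DF_norm (hF x) t z) (hb _))
  refine (norm_tsum_le_tsum_norm (h9.congr fun t => (h8 t).symm)).trans ?_
  rw [tsum_congr h8]

end Pool.Agent.T2H29.SW
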