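import Pool.Agent.T2H29.SW.L5

/-!
# Completion and Poisson summation for functions of one residue
-/

set_option autoImplicit false
set_option linter.unusedSectionVars false

namespace Pool.Agent.T2H29.SW

open Finset MeasureTheory Matrix Topology

variable {ι : Type} [Fintype ι] [DecidableEq ι]

/-- the additive character `e(x / R)` of `ZMod R` -/
noncomputable def ps {R : ℕ} [NeZero R] (x : ZMod R) : ℂ := ZMod.stdAddChar x

lemma ps_add {R : ℕ} [NeZero R] (x y : ZMod R) : ps (x + y) = ps x * ps y := by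
  unfold ps; rw [AddChar.map_add_eq_mul]

lemma ps_zero {R : ℕ} [NeZero R] : ps (0 : ZMod R) = 1 := by
  unfold ps; rw [AddChar.map_zero_eq_one]

lemma ps_norm {R : ℕ} [NeZero R] (x : ZMod R) : ‖ps x‖ = 1 := by
  unfold ps; exact AddChar.norm_apply _ _

lemma ps_conj {R : ℕ} [NeZero R] (x : ZMod R) : (starRingEnd ℂ) (ps x) = ps (-x) := by
  unfold ps; rw [AddChar.map_neg_eq_conj]

lemma ps_int {R : ℕ} [NeZero R] (j : ℤ) : ps (j : ZMod R) = e ((j : ℝ) / R) := by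
  unfold ps e
  rw [ZMod.stdAddChar_coe]
  congr 1
  push_cast
  ring

lemma ps_sum {R : ℕ} [NeZero R] (b : ZMod R) : ∑ x : ZMod R, ps (x * b) = if b = 0 then (R : ℂ) else 0 := by
  have h := AddChar.sum_mulShift (ψ := (ZMod.stdAddChar : AddChar (ZMod R) ℂ)) b
    (ZMod.isPrimitive_stdAddChar R)
  rw [ZMod.card] at h
  unfold ps
  rw [h]
  split_ifs <;> simp

/-- Fourier transform on `ZMod R` -/
noncomputable def ft {R : ℕ} [NeZero R] (F : ZMod R → ℂ) (h : ZMod R) : ℂ := ∑ a, F a * ps (a * h)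

lemma ft_inv {R : ℕ} [NeZero R] (F : ZMod R → ℂ) (a : ZMod R) :
    F a = (R : ℂ)⁻¹ * ∑ h, ft F h * ps (h * (-a)) := by
  have hR : (R : ℂ) ≠ 0 := by exact_mod_cast NeZero.ne R
  unfold ft
  simp_rw [sum_mul]
  rw [sum_comm]
  have e1 : ∀ b : ZMod R, ∑ h : ZMod R, F b * ps (b * h) * ps (h * (-a)) =
      if b = a then F a * R else 0 := by
    intro b
    have : ∀ h : ZMod R, F b * ps (b * h) * ps (h * (-a)) = F b * ps (h * (b - a)) := by
      intro h
      rw [mul_assoc, ← ps_add]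
      congr 2
      ring
    simp_rw [this]
    rw [← mul_sum, ps_sum]
    by_cases h : b = a
    · rw [if_pos h, if_pos (sub_eq_zero.2 h), h]
    · rw [if_neg h, if_neg (fun h' => h (sub_eq_zero.1 h')), mul_zero]
  simp_rw [e1]
  rw [sum_ite_eq' univ a, if_pos (mem_univ a)]
  field_simp

/-- the Fourier transform of the Gaussian weights -/
noncomputable def Wh {R : ℕ} [NeZero R] (o : ι) (A : Matrix ι ι ℝ) (c : ι → ℝ) (ζ : ZMod R) : ℂ :=
  GS A c fun z => ps (ζ * (z o : ZMod R))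

lemma GS_inv {R : ℕ} [NeZero R] (o : ι) {A : Matrix ι ι ℝ} (hA : A.det ≠ 0) (c : ι → ℝ)
    (F : ZMod R → ℂ) : GS A c (fun z => F (z o : ZMod R)) =
      (R : ℂ)⁻¹ * ∑ h, ft F h * Wh o A c (-h) := by
  unfold Wh GS
  have e1 : ∀ z : ι → ℤ, (gs A c z : ℂ) * F (z o : ZMod R) = (R : ℂ)⁻¹ * ∑ h, ft F h *
      ((gs A c z : ℂ) * ps (-h * (z o : ZMod R))) := by
    intro z
    conv_lhs => rw [ft_inv F (z o : ZMod R)]
    rw [mul_left_comm, mul_sum]
    congr 1
    refine sum_congr rfl fun h _ => ?_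
    rw [show h * (-(z o : ZMod R)) = -h * (z o : ZMod R) by ring]
    ring
  rw [tsum_congr e1, tsum_mul_left]
  congr 1
  rw [Summable.tsum_finsetSum]
  · refine sum_congr rfl fun h _ => ?_
    rw [tsum_mul_left]
  · intro h _
    exact ((norm_gs_sum_le hA c (b := 1) (fun z => (ps_norm _).le)).1).mul_left _

/-- the vector `D_R y + ζ e_o` -/
def wm {R : ℕ} (o : ι) (x : ZMod R × (ι → ℤ)) : ι → ℤ := fun i => if i = o then R * x.2 o + x.1.val else x.2 i

lemma wm_bij {R : ℕ} [NeZero R] (o : ι) : Function.Bijective (wm (R := R) o) := by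
  have hR : 0 < R := NeZero.pos R
  constructor
  · rintro ⟨ζ, y⟩ ⟨ζ', y'⟩ h
    have h1 : (R : ℤ) * y o + ζ.val = R * y' o + ζ'.val := by
      have := congrFun h o
      simpa [wm] using this
    have h2 : (ζ.val : ℤ) = ζ'.val := by
      have a1 : (ζ.val : ℤ) < R := by exact_mod_cast ζ.val_lt
      have a2 : (ζ'.val : ℤ) < R := by exact_mod_cast ζ'.val_lt
      have b1 : ((R : ℤ) * y o + ζ.val) % R = ζ.val := by
        rw [Int.mul_add_emod_self_left]
        exact Int.emod_eq_of_lt (by positivity) a1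
      have b2 : ((R : ℤ) * y' o + ζ'.val) % R = ζ'.val := by
        rw [Int.mul_add_emod_self_left]
        exact Int.emod_eq_of_lt (by positivity) a2
      rw [← b1, h1, b2]
    have h3 : ζ = ζ' := ZMod.val_injective R (by exact_mod_cast h2)
    have h4 : y = y' := by
      funext i
      by_cases hi : i = o
      · subst hi
        rw [h2] at h1
        have : (R : ℤ) * y i = R * y' i := by linarith
        exact mul_left_cancel₀ (by exact_mod_cast hR.ne') this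
      · have := congrFun h i
        simpa [wm, hi] using this
    rw [h3, h4]
  · intro w
    refine ⟨((w o : ZMod R), fun i => if i = o then w o / R else w i), ?_⟩
    funext i
    unfold wm
    by_cases hi : i = o
    · subst hi
      simp only [if_true]
      have h1 : (((w i : ℤ) : ZMod R).val : ℤ) = w i % R := by
        rw [ZMod.val_intCast]
      rw [h1]
      exact Int.mul_ediv_add_emod (w i) R
    · simp [hi]

lemma wm_cast {R : ℕ} [NeZero R] (o : ι) (x : ZMod R × (ι → ℤ)) :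
    ((wm o x o : ℤ) : ZMod R) = x.1 := by
  unfold wm
  simp

/-- the phase of the centre -/
noncomputable def ph (p R : ℕ) (o : ι) (c : ι → ℝ) (w : ι → ℤ) : ℂ :=
  e (-(∑ i, c i * w i / (dk p o R i : ℝ)))

lemma ph_norm (p R : ℕ) (o : ι) (c : ι → ℝ) (w : ι → ℤ) : ‖ph p R o c w‖ = 1 := e_norm _

variable {p : ℕ}

lemma Wh_eq {R : ℕ} [NeZero (p ^ R)] (hp : 0 < p) (o : ι) {A : Matrix ι ι ℝ} (hA : A.det ≠ 0)
    (c : ι → ℝ) (h : ZMod (p ^ R)) : Wh o A c (-h) = (Mv A : ℂ) *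
      ∑' y : ι → ℤ, (gs (du (A * dgm (dk p o R))) 0 (wm o (h, y)) : ℂ) *
        ph p R o c (wm o (h, y)) := by
  have hpR : ((p ^ R : ℕ) : ℝ) ≠ 0 := by positivity
  set ξ : ι → ℝ := fun i => if i = o then -((h.val : ℝ) / (p ^ R : ℕ)) else 0 with hξ
  have h1 : Wh o A c (-h) = ∑' z : ι → ℤ, (gs A c z : ℂ) * e (∑ i, ξ i * z i) := by
    unfold Wh GS
    refine tsum_congr fun z => ?_
    congr 1
    have e1 : -h * (z o : ZMod (p ^ R)) = ((-(h.val : ℤ) * z o : ℤ) : ZMod (p ^ R)) := by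
      push_cast
      rw [ZMod.natCast_zmod_val]
    show ps (-h * (z o : ZMod (p ^ R))) = _
    rw [e1, ps_int]
    congr 1
    rw [sum_eq_single o]
    · rw [hξ]; simp only [if_true]
      push_cast
      ring
    · intro i _ hi
      rw [hξ]; simp [hi]
    · intro h; exact absurd (mem_univ o) h
  rw [h1, gs_poisson hA c ξ]
  unfold Mv
  congr 1
  refine tsum_congr fun y => ?_
  congr 1
  · congr 1
    have e2 : du A = du (A * dgm (dk p o R)) * dgm (dk p o R) := by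
      rw [du_mul_dk hp o (le_refl R), Nat.sub_self, dk_zero, Matrix.mul_one]
    rw [e2, gs_mul_dgm]
    unfold gs
    have e3 : cz (sc (dk p o R) y) - (fun i => (dk p o R i : ℝ) * ξ i) = cz (wm o (h, y)) - 0 := by
      funext i
      simp only [cz, sc, Pi.sub_apply, Pi.zero_apply, wm, dk, hξ]
      by_cases hi : i = o
      · subst hi
        simp only [if_true]
        push_cast at hpR ⊢
        field_simp
        ring
      · simp [hi]
    rw [e3]
  · unfold ph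
    congr 1
    rw [← sum_neg_distrib]
    refine sum_congr rfl fun i _ => ?_
    simp only [wm, dk, hξ]
    by_cases hi : i = o
    · subst hi
      simp only [if_true]
      push_cast at hpR ⊢
      field_simp
      ring
    · simp [hi]

lemma wm_summable {R : ℕ} [NeZero (p ^ R)] (hp : 0 < p) (o : ι) {A : Matrix ι ι ℝ}
    (hA : A.det ≠ 0) : Summable fun x : ZMod (p ^ R) × (ι → ℤ) =>
      gs (du (A * dgm (dk p o R))) 0 (wm o x) := by
  have h1 : (du (A * dgm (dk p o R))).det ≠ 0 := du_det_ne (det_mul_dk_ne hp o hA R)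
  exact (gs_summable h1 0).comp_injective (wm_bij o).1

lemma Wh_l1 {R : ℕ} [NeZero (p ^ R)] (hp : 0 < p) (o : ι) {A : Matrix ι ι ℝ} (hA : A.det ≠ 0)
    {B : ℝ} (hB : CB B (A * dgm (dk p o R))) (c : ι → ℝ) :
    ∑ h : ZMod (p ^ R), ‖Wh o A c (-h)‖ ≤ B * (Mv A + (p : ℝ) ^ R) := by
  have h1 : (du (A * dgm (dk p o R))).det ≠ 0 := du_det_ne (det_mul_dk_ne hp o hA R)
  have hMA := Mv_pos hA
  have hs := wm_summable (R := R) hp o hA
  have h2 : ∀ h : ZMod (p ^ R), ‖Wh o A c (-h)‖ ≤ Mv A * ∑' y : ι → ℤ,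
      gs (du (A * dgm (dk p o R))) 0 (wm o (h, y)) := by
    intro h
    rw [Wh_eq hp o hA, norm_mul, Complex.norm_real, Real.norm_of_nonneg hMA.le]
    refine mul_le_mul_of_nonneg_left ?_ hMA.le
    have hsh : Summable fun y : ι → ℤ => gs (du (A * dgm (dk p o R))) 0 (wm o (h, y)) :=
      hs.prod_factor h
    refine tsum_of_norm_bounded hsh.hasSum fun y => ?_
    rw [norm_mul, ph_norm, mul_one, Complex.norm_real, Real.norm_of_nonneg (gs_pos _ _ _).le]
  have h3 : ∑ h : ZMod (p ^ R), ∑' y : ι → ℤ, gs (du (A * dgm (dk p o R))) 0 (wm o (h, y)) =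
      ∑' w, gs (du (A * dgm (dk p o R))) 0 w := by
    rw [← (Equiv.ofBijective _ (wm_bij (R := p ^ R) o)).tsum_eq,
      ← tsum_fintype (L := .unconditional _)]
    exact (hs.tsum_prod).symm
  calc ∑ h : ZMod (p ^ R), ‖Wh o A c (-h)‖ ≤ ∑ h : ZMod (p ^ R), Mv A * ∑' y : ι → ℤ,
        gs (du (A * dgm (dk p o R))) 0 (wm o (h, y)) := sum_le_sum fun h _ => h2 h
    _ = Mv A * ∑' w, gs (du (A * dgm (dk p o R))) 0 w := by rw [← mul_sum, h3]
    _ ≤ Mv A * (B * (1 + Mv (du (A * dgm (dk p o R))))) := by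
        refine mul_le_mul_of_nonneg_left ?_ hMA.le
        exact (hB.du (det_mul_dk_ne hp o hA R)).one 0
    _ = B * (Mv A + (p : ℝ) ^ R) := by
        rw [Mv_du, Mv_mul, Mv_dk]
        have : (p : ℝ) ^ R ≠ 0 := by positivity
        field_simp

/-- completion, one variable -/
theorem com1 {R : ℕ} [NeZero (p ^ R)] (hp : 0 < p) (o : ι) {A : Matrix ι ι ℝ} (hA : A.det ≠ 0)
    {B : ℝ} (hB : CB B (A * dgm (dk p o R))) (c : ι → ℝ) {F : ZMod (p ^ R) → ℂ} {K : ℝ}
    (hK : ∀ h, ‖ft F h‖ ≤ K) :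
    ‖GS A c (fun z => F (z o : ZMod (p ^ R)))‖ ≤ ((p : ℝ) ^ R)⁻¹ * (K * (B * (Mv A + (p : ℝ) ^ R))) := by
  have hK0 : 0 ≤ K := (norm_nonneg _).trans (hK 0)
  rw [GS_inv o hA, norm_mul, norm_inv, Complex.norm_natCast]
  push_cast
  refine mul_le_mul_of_nonneg_left ?_ (by positivity)
  calc ‖∑ h, ft F h * Wh o A c (-h)‖ ≤ ∑ h, K * ‖Wh o A c (-h)‖ := by
        refine (norm_sum_le _ _).trans (sum_le_sum fun h _ => ?_)
        rw [norm_mul]
        exact mul_le_mul_of_nonneg_right (hK h) (norm_nonneg _)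
    _ ≤ _ := by
        rw [← mul_sum]
        exact mul_le_mul_of_nonneg_left (Wh_l1 hp o hA hB c) hK0

/-- completion, two variables -/
theorem com2 {R : ℕ} [NeZero (p ^ R)] (hp : 0 < p) (o : ι) {A1 A2 : Matrix ι ι ℝ}
    (hA1 : A1.det ≠ 0) (hA2 : A2.det ≠ 0) {B : ℝ} (hB1 : CB B (A1 * dgm (dk p o R)))
    (hB2 : CB B (A2 * dgm (dk p o R))) (c1 c2 : ι → ℝ) {F : ZMod (p ^ R) → ZMod (p ^ R) → ℂ} {K : ℝ}
    (hK : ∀ h1 h2, ‖∑ a, ∑ b, F a b * ps (a * h1) * ps (b * h2)‖ ≤ K) :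
    ‖∑' x : ι → ℤ, (gs A1 c1 x : ℂ) * GS A2 c2 (fun z => F (x o : ZMod (p ^ R)) (z o : ZMod (p ^ R)))‖ ≤
      (((p : ℝ) ^ R)⁻¹) ^ 2 * (K * (B * (Mv A1 + (p : ℝ) ^ R)) * (B * (Mv A2 + (p : ℝ) ^ R))) := by
  have hK0 : 0 ≤ K := (norm_nonneg _).trans (hK 0 0)
  have hB10 : 0 ≤ B * (Mv A1 + (p : ℝ) ^ R) := by
    have := hB1.nonneg
    have := Mv_pos hA1
    positivity
  have e1 : ∀ x : ι → ℤ, (gs A1 c1 x : ℂ) * GS A2 c2 (fun z => F (x o : ZMod (p ^ R)) (z o : ZMod (p ^ R))) =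
      ((p ^ R : ℕ) : ℂ)⁻¹ * ∑ h, Wh o A2 c2 (-h) *
        ((gs A1 c1 x : ℂ) * ft (F (x o : ZMod (p ^ R))) h) := by
    intro x
    rw [GS_inv o hA2, mul_left_comm, mul_sum]
    congr 1
    refine sum_congr rfl fun h _ => ?_
    ring
  rw [tsum_congr e1, tsum_mul_left, Summable.tsum_finsetSum]
  swap
  · intro h _
    refine Summable.mul_left _ ?_
    refine (norm_gs_sum_le hA1 c1 (F := fun x => ft (F (x o : ZMod (p ^ R))) h)
      (b := ∑ a, ‖ft (F a) h‖) (fun z => ?_)).1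
    exact single_le_sum (f := fun a => ‖ft (F a) h‖) (fun a _ => norm_nonneg _) (mem_univ _)
  have e2 : ∀ h : ZMod (p ^ R), ∑' x : ι → ℤ, Wh o A2 c2 (-h) *
      ((gs A1 c1 x : ℂ) * ft (F (x o : ZMod (p ^ R))) h) =
      Wh o A2 c2 (-h) * GS A1 c1 (fun x => (fun a => ft (F a) h) (x o : ZMod (p ^ R))) := by
    intro h
    rw [tsum_mul_left]; rfl
  have h3 : ∀ h : ZMod (p ^ R), ‖GS A1 c1 (fun x => (fun a => ft (F a) h) (x o : ZMod (p ^ R)))‖ ≤
      ((p : ℝ) ^ R)⁻¹ * (K * (B * (Mv A1 + (p : ℝ) ^ R))) := by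
    intro h
    refine com1 hp o hA1 hB1 c1 (F := fun a => ft (F a) h) fun h1 => ?_
    refine le_trans (le_of_eq ?_) (hK h1 h)
    congr 1
    unfold ft
    refine sum_congr rfl fun a _ => ?_
    rw [sum_mul]
    refine sum_congr rfl fun b _ => ?_
    ring
  rw [norm_mul, norm_inv, Complex.norm_natCast]
  push_cast
  calc ((p : ℝ) ^ R)⁻¹ * ‖∑ h : ZMod (p ^ R), ∑' x : ι → ℤ, Wh o A2 c2 (-h) *
      ((gs A1 c1 x : ℂ) * ft (F (x o : ZMod (p ^ R))) h)‖
      ≤ ((p : ℝ) ^ R)⁻¹ * ∑ h : ZMod (p ^ R), ‖Wh o A2 c2 (-h)‖ *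
        (((p : ℝ) ^ R)⁻¹ * (K * (B * (Mv A1 + (p : ℝ) ^ R)))) := by
        refine mul_le_mul_of_nonneg_left ?_ (by positivity)
        refine (norm_sum_le _ _).trans (sum_le_sum fun h _ => ?_)
        rw [e2, norm_mul]
        exact mul_le_mul_of_nonneg_left (h3 h) (norm_nonneg _)
    _ ≤ ((p : ℝ) ^ R)⁻¹ * ((B * (Mv A2 + (p : ℝ) ^ R)) *
        (((p : ℝ) ^ R)⁻¹ * (K * (B * (Mv A1 + (p : ℝ) ^ R))))) := by
        rw [← sum_mul]
        refine mul_le_mul_of_nonneg_left ?_ (by positivity)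
        refine mul_le_mul_of_nonneg_right (Wh_l1 hp o hA2 hB2 c2) ?_
        positivity
    _ = _ := by ring

/-- Poisson summation for a function of one residue -/
theorem pois_res {R : ℕ} [NeZero (p ^ R)] (hp : 0 < p) (o : ι) {A : Matrix ι ι ℝ} (hA : A.det ≠ 0)
    (c : ι → ℝ) (F : ZMod (p ^ R) → ℂ) : GS A c (fun z => F (z o : ZMod (p ^ R))) =
      ((Mv A / (p : ℝ) ^ R : ℝ) : ℂ) * GS (du (A * dgm (dk p o R))) 0
        (fun w => ph p R o c w * ft F (w o : ZMod (p ^ R))) := by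
  have h1 : (du (A * dgm (dk p o R))).det ≠ 0 := du_det_ne (det_mul_dk_ne hp o hA R)
  rw [GS_inv o hA]
  have e1 : ∀ h : ZMod (p ^ R), ft F h * Wh o A c (-h) = (Mv A : ℂ) * ∑' y : ι → ℤ,
      (gs (du (A * dgm (dk p o R))) 0 (wm o (h, y)) : ℂ) * (ph p R o c (wm o (h, y)) *
        ft F (wm o (h, y) o : ZMod (p ^ R))) := by
    intro h
    rw [Wh_eq hp o hA, mul_left_comm, ← tsum_mul_left]
    congr 1
    refine tsum_congr fun y => ?_
    rw [wm_cast]
    ring
  simp_rw [e1]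
  rw [← mul_sum]
  have hs : Summable fun x : ZMod (p ^ R) × (ι → ℤ) =>
      (gs (du (A * dgm (dk p o R))) 0 (wm o x) : ℂ) * (ph p R o c (wm o x) *
        ft F (wm o x o : ZMod (p ^ R))) := by
    have h2 := (norm_gs_sum_le h1 0 (F := fun w => ph p R o c w * ft F (w o : ZMod (p ^ R)))
      (b := ∑ a, ‖ft F a‖) (fun z => by
        rw [norm_mul, ph_norm, one_mul]
        exact single_le_sum (f := fun a => ‖ft F a‖) (fun a _ => norm_nonneg _) (mem_univ _))).1
    exact h2.comp_injective (wm_bij o).1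
  unfold GS
  rw [← (Equiv.ofBijective _ (wm_bij (R := p ^ R) o)).tsum_eq, ← tsum_fintype (L := .unconditional _)]
  rw [show (∑' (b : ZMod (p ^ R)), ∑' (y : ι → ℤ), (gs (du (A * dgm (dk p o R))) 0 (wm o (b, y)) : ℂ) *
    (ph p R o c (wm o (b, y)) * ft F (wm o (b, y) o : ZMod (p ^ R)))) = _ from (hs.tsum_prod).symm]
  push_cast
  rw [← mul_assoc]
  congr 1
  rw [div_eq_mul_inv, mul_comm]

end Pool.Agent.T2H29.SW
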