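import Pool.Agent.T2H29.SW.L6
import Pool.Agent.Y924.R7.Inj
import Pool.Agent.Y924.R7.Br
import Pool.Agent.Y948.R7.Td
import Pool.Agent.Y948.R7.Var
import Pool.Agent.Y155.R7.Sq
import Pool.Agent.Y870.R3.Phi

/-!
# Complete exponential sums with a locally linear phase
-/

set_option autoImplicit false
set_option linter.unusedSectionVars false

namespace Pool.Agent.T2H29.SW

open Finset
open Pool.Agent.Y779.R3 (unit_int pi_zero)

/-- splitting a complete sum -/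
lemma sum_split {R c c' : ℕ} (hR : R = c * c') [NeZero R] (hc : 0 < c) (f : ZMod R → ℂ) :
    ∑ a : ZMod R, f a = ∑ u ∈ range c, ∑ x ∈ range c', f ((u + c * x : ℕ) : ZMod R) := by
  have h1 : ∑ a : ZMod R, f a = ∑ n ∈ range R, f (n : ZMod R) := by
    refine sum_bij' (fun a _ => a.val) (fun n _ => (n : ZMod R)) ?_ ?_ ?_ ?_ ?_
    · intro a _; rw [mem_range]; exact a.val_lt
    · intro n _; exact mem_univ _
    · intro a _; exact ZMod.natCast_zmod_val a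
    · intro n hn; rw [mem_range] at hn; exact ZMod.val_natCast_of_lt hn
    · intro a _; rw [ZMod.natCast_zmod_val]
  rw [h1, ← sum_product']
  refine sum_bij' (fun n _ => (n % c, n / c)) (fun ux _ => ux.1 + c * ux.2) ?_ ?_ ?_ ?_ ?_
  · intro n hn
    rw [mem_range] at hn
    rw [mem_product, mem_range, mem_range]
    refine ⟨Nat.mod_lt _ hc, ?_⟩
    rw [Nat.div_lt_iff_lt_mul hc, mul_comm, ← hR]; exact hn
  · rintro ⟨u, x⟩ h
    rw [mem_product, mem_range, mem_range] at h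
    rw [mem_range]
    simp only at h ⊢
    calc u + c * x < c + c * x := by omega
      _ = c * (x + 1) := by ring
      _ ≤ c * c' := Nat.mul_le_mul_left _ h.2
      _ = R := hR.symm
  · intro n _; exact Nat.mod_add_div n c
  · rintro ⟨u, x⟩ h
    rw [mem_product, mem_range, mem_range] at h
    simp only at h ⊢
    rw [Nat.add_mul_mod_self_left, Nat.mod_eq_of_lt h.1, Nat.add_mul_div_left _ _ hc,
      Nat.div_eq_of_lt h.1, zero_add]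
  · intro n _
    simp only
    rw [Nat.mod_add_div]

/-- a complete geometric sum -/
lemma geom_full {w : ℂ} {N : ℕ} (hw : w ^ N = 1) :
    ∑ x ∈ range N, w ^ x = if w = 1 then (N : ℂ) else 0 := by
  split_ifs with h
  · rw [h]; simp
  · rw [geom_sum_eq h, hw, sub_self, zero_div]

lemma ps_pow {R : ℕ} [NeZero R] (x : ZMod R) (n : ℕ) : ps x ^ n = ps (x * (n : ZMod R)) := by
  induction n with
  | zero => rw [pow_zero, Nat.cast_zero, mul_zero, ps_zero]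
  | succ n ih => rw [pow_succ, ih, ← ps_add]; congr 1; push_cast; ring

lemma ps_eq_one {R : ℕ} [NeZero R] {x : ZMod R} (h : ps x = 1) : x = 0 := by
  have h2 : (ZMod.stdAddChar x : ℂ) = ZMod.stdAddChar (0 : ZMod R) := by
    rw [AddChar.map_zero_eq_one]; exact h
  exact ZMod.injective_stdAddChar h2

variable {p : ℕ}

lemma natCast_pow_eq (p r n : ℕ) : ((p ^ n : ℕ) : ZMod (p ^ r)) = (p : ZMod (p ^ r)) ^ n := by
  push_cast; rfl

/-- change of modulus -/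
lemma ps_change {r R τ : ℕ} [NeZero (p ^ r)] [NeZero (p ^ R)] (h : r = τ + R) (hp : 0 < p) (j : ℤ) :
    ps ((p : ZMod (p ^ r)) ^ τ * (j : ZMod (p ^ r))) = ps (j : ZMod (p ^ R)) := by
  have e1 : (p : ZMod (p ^ r)) ^ τ * (j : ZMod (p ^ r)) = (((p : ℤ) ^ τ * j : ℤ) : ZMod (p ^ r)) := by
    push_cast; rfl
  rw [e1, ps_int, ps_int]
  congr 1
  subst h
  have : (p : ℝ) ≠ 0 := by exact_mod_cast hp.ne'
  push_cast
  rw [pow_add]
  field_simp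

lemma pow_mul_eq_zero {r s : ℕ} (hp : p.Prime) (hs : s ≤ r) {j : ℤ}
    (h : (p : ZMod (p ^ r)) ^ s * ((j : ℤ) : ZMod (p ^ r)) = 0) : (p : ℤ) ^ (r - s) ∣ j := by
  have h1 : (((p : ℤ) ^ s * j : ℤ) : ZMod (p ^ r)) = 0 := by
    push_cast; exact h
  rw [ZMod.intCast_zmod_eq_zero_iff_dvd] at h1
  have h2 : ((p ^ r : ℕ) : ℤ) = (p : ℤ) ^ s * (p : ℤ) ^ (r - s) := by
    rw [← pow_add, Nat.add_sub_cancel' hs]; push_cast; rfl
  rw [h2] at h1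
  exact (mul_dvd_mul_iff_left (pow_ne_zero _ (by exact_mod_cast hp.ne_zero))).1 h1

/-- the solutions of the congruences lie in one class modulo `p^c'` -/
lemma card_sol {c c' : ℕ} (hcc : c' ≤ c) (hc1 : c ≤ c' + 1) (hp : 0 < p)
    (S : Finset (ℕ × ℕ)) (hS : ∀ x ∈ S, x.1 < p ^ c ∧ x.2 < p ^ c)
    (h : ∀ x ∈ S, ∀ y ∈ S, (p : ℤ) ^ c' ∣ (x.1 : ℤ) - y.1 ∧ (p : ℤ) ^ c' ∣ (x.2 : ℤ) - y.2) :
    S.card ≤ p ^ 2 := by
  have hinj : Set.InjOn (fun x : ℕ × ℕ => (x.1 / p ^ c', x.2 / p ^ c')) S := by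
    rintro ⟨a, b⟩ hx ⟨a', b'⟩ hy hxy
    have h1 := h _ hx _ hy
    simp only [Prod.mk.injEq] at hxy h1 ⊢
    have key : ∀ a a' : ℕ, (p : ℤ) ^ c' ∣ (a : ℤ) - a' → a / p ^ c' = a' / p ^ c' → a = a' := by
      intro a a' hd hq
      have h2 : a ≡ a' [MOD p ^ c'] := by
        rw [Nat.modEq_iff_dvd]
        push_cast
        have := (dvd_neg (α := ℤ)).2 hd
        rwa [neg_sub] at this
      rw [← Nat.div_add_mod a (p ^ c'), ← Nat.div_add_mod a' (p ^ c'), hq, h2]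
    exact ⟨key _ _ h1.1 hxy.1, key _ _ h1.2 hxy.2⟩
  have hmaps : Set.MapsTo (fun x : ℕ × ℕ => (x.1 / p ^ c', x.2 / p ^ c')) S
      (range p ×ˢ range p : Finset (ℕ × ℕ)) := by
    rintro ⟨a, b⟩ hx
    have h1 := hS _ hx
    simp only at h1
    have hle : p ^ c ≤ p * p ^ c' := by
      rw [← pow_succ']
      exact Nat.pow_le_pow_right hp hc1
    simp only [coe_product, coe_range, Set.mem_prod, Set.mem_Iio]
    constructor
    · rw [Nat.div_lt_iff_lt_mul (by positivity)]; omega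
    · rw [Nat.div_lt_iff_lt_mul (by positivity)]; omega
  have := card_le_card_of_injOn _ hmaps hinj
  rw [card_product, card_range] at this
  rw [pow_two]; exact this

/-- hypotheses on the phase -/
structure Phase (p r τ : ℕ) (l0 h0 : ℤ) (T' : ZMod (p ^ r)) (f ψ1 ψ2 : ℤ → ℤ → ZMod (p ^ r)) : Prop where
  unitT : IsUnit T'
  lin : ∀ c : ℕ, 1 ≤ c → r ≤ τ + 2 * c → ∀ l h : ℤ, (p : ℤ) ∣ l - l0 → (p : ℤ) ∣ h - h0 →
    ∀ x y : ℤ, f (l + (p : ℤ) ^ c * x) (h + (p : ℤ) ^ c * y) =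
      f l h + (p : ZMod (p ^ r)) ^ (τ + c) * T' * (ψ1 l h * x + ψ2 l h * y)
  inj : ∀ (s : ℕ) (l h l' h' : ℤ), (p : ℤ) ∣ l - l0 → (p : ℤ) ∣ h - h0 → (p : ℤ) ∣ l' - l0 →
    (p : ℤ) ∣ h' - h0 → (p : ZMod (p ^ r)) ^ s * ψ1 l h = (p : ZMod (p ^ r)) ^ s * ψ1 l' h' →
    (p : ZMod (p ^ r)) ^ s * ψ2 l h = (p : ZMod (p ^ r)) ^ s * ψ2 l' h' →
    (p : ZMod (p ^ r)) ^ s * ((l - l' : ℤ) : ZMod (p ^ r)) = 0 ∧
      (p : ZMod (p ^ r)) ^ s * ((h - h' : ℤ) : ZMod (p ^ r)) = 0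

/-- the complete sum -/
theorem cs2 {r τ R : ℕ} [NeZero (p ^ r)] [NeZero (p ^ R)] (hp : p.Prime) (hr : r = τ + R)
    (hR : 1 ≤ R) {l0 h0 : ℤ} {T' : ZMod (p ^ r)} {f ψ1 ψ2 : ℤ → ℤ → ZMod (p ^ r)}
    (H : Phase p r τ l0 h0 T' f ψ1 ψ2) {G : ZMod (p ^ R) → ZMod (p ^ R) → ℂ}
    (hG : ∀ l h : ℤ, G l h = if (p : ℤ) ∣ l - l0 ∧ (p : ℤ) ∣ h - h0 then ps (f l h) else 0)
    (ζ1 ζ2 : ZMod (p ^ R)) :
    ‖∑ a, ∑ b, G a b * ps (a * ζ1) * ps (b * ζ2)‖ ≤ (p : ℝ) ^ (R + 2) := by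
  classical
  have hp0 := hp.pos
  set c := (R + 1) / 2 with hc
  set c' := R / 2 with hc'
  have hcc : R = c + c' := by omega
  have hc1 : 1 ≤ c := by omega
  have hRe : p ^ R = p ^ c * p ^ c' := by rw [← pow_add, ← hcc]
  have hpc : 0 < p ^ c := by positivity
  set z1 : ℤ := (ζ1.val : ℤ) with hz1
  set z2 : ℤ := (ζ2.val : ℤ) with hz2
  have hζ1 : (z1 : ZMod (p ^ R)) = ζ1 := by rw [hz1]; push_cast; exact ZMod.natCast_zmod_val _
  have hζ2 : (z2 : ZMod (p ^ R)) = ζ2 := by rw [hz2]; push_cast; exact ZMod.natCast_zmod_val _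
  -- the values of the characters
  let w1 : ℤ → ℤ → ℂ := fun a b => ps ((p : ZMod (p ^ r)) ^ (τ + c) * (T' * ψ1 a b + (z1 : ZMod (p ^ r))))
  let w2 : ℤ → ℤ → ℂ := fun a b => ps ((p : ZMod (p ^ r)) ^ (τ + c) * (T' * ψ2 a b + (z2 : ZMod (p ^ r))))
  have hpow : ∀ v : ZMod (p ^ r), ps ((p : ZMod (p ^ r)) ^ (τ + c) * v) ^ (p ^ c') = 1 := by
    intro v
    rw [ps_pow]
    have : (p : ZMod (p ^ r)) ^ (τ + c) * v * ((p ^ c' : ℕ) : ZMod (p ^ r)) = 0 := by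
      rw [natCast_pow_eq]
      have e1 : (p : ZMod (p ^ r)) ^ (τ + c) * v * (p : ZMod (p ^ r)) ^ c' =
        (p : ZMod (p ^ r)) ^ (τ + c + c') * v := by ring
      rw [e1, pi_zero (by omega), zero_mul]
    rw [this, ps_zero]
  have hterm : ∀ a b x y : ℕ, (p : ℤ) ∣ (a : ℤ) - l0 → (p : ℤ) ∣ (b : ℤ) - h0 →
      G ((a + p ^ c * x : ℕ) : ZMod (p ^ R)) ((b + p ^ c * y : ℕ) : ZMod (p ^ R)) *
        ps (((a + p ^ c * x : ℕ) : ZMod (p ^ R)) * ζ1) * ps (((b + p ^ c * y : ℕ) : ZMod (p ^ R)) * ζ2) =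
      (ps (f a b) * ps ((a : ZMod (p ^ R)) * ζ1) * ps ((b : ZMod (p ^ R)) * ζ2)) *
        (w1 a b ^ x * w2 a b ^ y) := by
    intro a b x y ha hb
    have h1 : ((a + p ^ c * x : ℕ) : ZMod (p ^ R)) = (((a : ℤ) + (p : ℤ) ^ c * x : ℤ) : ZMod (p ^ R)) := by
      push_cast; rfl
    have h2 : ((b + p ^ c * y : ℕ) : ZMod (p ^ R)) = (((b : ℤ) + (p : ℤ) ^ c * y : ℤ) : ZMod (p ^ R)) := by
      push_cast; rfl
    have hdp : (p : ℤ) ∣ (p : ℤ) ^ c := dvd_pow_self _ (by omega)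
    have ha' : (p : ℤ) ∣ ((a : ℤ) + (p : ℤ) ^ c * x) - l0 := by
      have : ((a : ℤ) + (p : ℤ) ^ c * x) - l0 = (a - l0) + (p : ℤ) ^ c * x := by ring
      rw [this]; exact dvd_add ha (Dvd.dvd.mul_right hdp _)
    have hb' : (p : ℤ) ∣ ((b : ℤ) + (p : ℤ) ^ c * y) - h0 := by
      have : ((b : ℤ) + (p : ℤ) ^ c * y) - h0 = (b - h0) + (p : ℤ) ^ c * y := by ring
      rw [this]; exact dvd_add hb (Dvd.dvd.mul_right hdp _)
    have hlin := H.lin c hc1 (by omega) a b ha hb x y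
    rw [h1, h2, hG, if_pos ⟨ha', hb'⟩, hlin]
    simp only [w1, w2]
    rw [ps_pow, ps_pow]
    have k1 : ps ((((a : ℤ) + (p : ℤ) ^ c * x : ℤ) : ZMod (p ^ R)) * ζ1) =
        ps ((a : ZMod (p ^ R)) * ζ1) * ps ((p : ZMod (p ^ r)) ^ (τ + c) * (z1 : ZMod (p ^ r)) * (x : ZMod (p ^ r))) := by
      have e1 : (((a : ℤ) + (p : ℤ) ^ c * x : ℤ) : ZMod (p ^ R)) * ζ1 = (a : ZMod (p ^ R)) * ζ1 +
          (((p : ℤ) ^ c * z1 * x : ℤ) : ZMod (p ^ R)) := by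
        rw [← hζ1]; push_cast; ring
      rw [e1, ps_add, ← ps_change hr hp0]
      congr 2
      push_cast
      ring
    have k2 : ps ((((b : ℤ) + (p : ℤ) ^ c * y : ℤ) : ZMod (p ^ R)) * ζ2) =
        ps ((b : ZMod (p ^ R)) * ζ2) * ps ((p : ZMod (p ^ r)) ^ (τ + c) * (z2 : ZMod (p ^ r)) * (y : ZMod (p ^ r))) := by
      have e1 : (((b : ℤ) + (p : ℤ) ^ c * y : ℤ) : ZMod (p ^ R)) * ζ2 = (b : ZMod (p ^ R)) * ζ2 +
          (((p : ℤ) ^ c * z2 * y : ℤ) : ZMod (p ^ R)) := by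
        rw [← hζ2]; push_cast; ring
      rw [e1, ps_add, ← ps_change hr hp0]
      congr 2
      push_cast
      ring
    rw [k1, k2, ps_add]
    have k3 : ps ((p : ZMod (p ^ r)) ^ (τ + c) * T' * (ψ1 a b * ((x : ℤ) : ZMod (p ^ r)) + ψ2 a b * ((y : ℤ) : ZMod (p ^ r)))) *
        ps ((p : ZMod (p ^ r)) ^ (τ + c) * (z1 : ZMod (p ^ r)) * (x : ZMod (p ^ r))) *
        ps ((p : ZMod (p ^ r)) ^ (τ + c) * (z2 : ZMod (p ^ r)) * (y : ZMod (p ^ r))) =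
        ps ((p : ZMod (p ^ r)) ^ (τ + c) * (T' * ψ1 a b + (z1 : ZMod (p ^ r))) * (x : ZMod (p ^ r))) *
        ps ((p : ZMod (p ^ r)) ^ (τ + c) * (T' * ψ2 a b + (z2 : ZMod (p ^ r))) * (y : ZMod (p ^ r))) := by
      simp only [← ps_add]
      congr 1
      push_cast
      ring
    calc _ = (ps (f a b) * ps ((a : ZMod (p ^ R)) * ζ1) * ps ((b : ZMod (p ^ R)) * ζ2)) *
        (ps ((p : ZMod (p ^ r)) ^ (τ + c) * T' * (ψ1 a b * ((x : ℤ) : ZMod (p ^ r)) + ψ2 a b * ((y : ℤ) : ZMod (p ^ r)))) *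
        ps ((p : ZMod (p ^ r)) ^ (τ + c) * (z1 : ZMod (p ^ r)) * (x : ZMod (p ^ r))) *
        ps ((p : ZMod (p ^ r)) ^ (τ + c) * (z2 : ZMod (p ^ r)) * (y : ZMod (p ^ r)))) := by ring
      _ = _ := by rw [k3]
  have hzero : ∀ a b x y : ℕ, ¬ ((p : ℤ) ∣ (a : ℤ) - l0 ∧ (p : ℤ) ∣ (b : ℤ) - h0) →
      G ((a + p ^ c * x : ℕ) : ZMod (p ^ R)) ((b + p ^ c * y : ℕ) : ZMod (p ^ R)) = 0 := by
    intro a b x y hab
    have h1 : ((a + p ^ c * x : ℕ) : ZMod (p ^ R)) = (((a : ℤ) + (p : ℤ) ^ c * x : ℤ) : ZMod (p ^ R)) := by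
      push_cast; rfl
    have h2 : ((b + p ^ c * y : ℕ) : ZMod (p ^ R)) = (((b : ℤ) + (p : ℤ) ^ c * y : ℤ) : ZMod (p ^ R)) := by
      push_cast; rfl
    have hdp : (p : ℤ) ∣ (p : ℤ) ^ c := dvd_pow_self _ (by omega)
    rw [h1, h2, hG, if_neg]
    rintro ⟨h3, h4⟩
    apply hab
    constructor
    · have := dvd_sub h3 (Dvd.dvd.mul_right hdp (x : ℤ))
      have e : ((a : ℤ) + (p : ℤ) ^ c * x) - l0 - (p : ℤ) ^ c * x = a - l0 := by ring
      rwa [e] at this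
    · have := dvd_sub h4 (Dvd.dvd.mul_right hdp (y : ℤ))
      have e : ((b : ℤ) + (p : ℤ) ^ c * y) - h0 - (p : ℤ) ^ c * y = b - h0 := by ring
      rwa [e] at this
  -- the inner sums
  set Sol : Finset (ℕ × ℕ) := (range (p ^ c) ×ˢ range (p ^ c)).filter fun ab =>
    ((p : ℤ) ∣ (ab.1 : ℤ) - l0 ∧ (p : ℤ) ∣ (ab.2 : ℤ) - h0) ∧ w1 ab.1 ab.2 = 1 ∧ w2 ab.1 ab.2 = 1 with hSol
  have hsplit : ∑ a, ∑ b, G a b * ps (a * ζ1) * ps (b * ζ2) =
      ∑ ab ∈ range (p ^ c) ×ˢ range (p ^ c), ∑ x ∈ range (p ^ c'), ∑ y ∈ range (p ^ c'),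
        G ((ab.1 + p ^ c * x : ℕ) : ZMod (p ^ R)) ((ab.2 + p ^ c * y : ℕ) : ZMod (p ^ R)) *
        ps (((ab.1 + p ^ c * x : ℕ) : ZMod (p ^ R)) * ζ1) *
        ps (((ab.2 + p ^ c * y : ℕ) : ZMod (p ^ R)) * ζ2) := by
    rw [sum_split hRe hpc, sum_product]
    refine sum_congr rfl fun a _ => ?_
    have e3 : ∀ x ∈ range (p ^ c'), ∑ b, G ((a + p ^ c * x : ℕ) : ZMod (p ^ R)) b *
        ps (((a + p ^ c * x : ℕ) : ZMod (p ^ R)) * ζ1) * ps (b * ζ2) =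
        ∑ b ∈ range (p ^ c), ∑ y ∈ range (p ^ c'),
        G ((a + p ^ c * x : ℕ) : ZMod (p ^ R)) ((b + p ^ c * y : ℕ) : ZMod (p ^ R)) *
        ps (((a + p ^ c * x : ℕ) : ZMod (p ^ R)) * ζ1) *
        ps (((b + p ^ c * y : ℕ) : ZMod (p ^ R)) * ζ2) := by
      intro x _
      rw [sum_split hRe hpc]
    rw [sum_congr rfl e3, sum_comm]
  have hinner : ∀ ab : ℕ × ℕ, ‖∑ x ∈ range (p ^ c'), ∑ y ∈ range (p ^ c'),
        G ((ab.1 + p ^ c * x : ℕ) : ZMod (p ^ R)) ((ab.2 + p ^ c * y : ℕ) : ZMod (p ^ R)) *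
        ps (((ab.1 + p ^ c * x : ℕ) : ZMod (p ^ R)) * ζ1) *
        ps (((ab.2 + p ^ c * y : ℕ) : ZMod (p ^ R)) * ζ2)‖ ≤
      if ((p : ℤ) ∣ (ab.1 : ℤ) - l0 ∧ (p : ℤ) ∣ (ab.2 : ℤ) - h0) ∧ w1 ab.1 ab.2 = 1 ∧
        w2 ab.1 ab.2 = 1 then ((p : ℝ) ^ c') ^ 2 else 0 := by
    intro ab
    by_cases hab : (p : ℤ) ∣ (ab.1 : ℤ) - l0 ∧ (p : ℤ) ∣ (ab.2 : ℤ) - h0
    · have e1 : ∑ x ∈ range (p ^ c'), ∑ y ∈ range (p ^ c'),
          G ((ab.1 + p ^ c * x : ℕ) : ZMod (p ^ R)) ((ab.2 + p ^ c * y : ℕ) : ZMod (p ^ R)) *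
          ps (((ab.1 + p ^ c * x : ℕ) : ZMod (p ^ R)) * ζ1) *
          ps (((ab.2 + p ^ c * y : ℕ) : ZMod (p ^ R)) * ζ2) =
          (ps (f ab.1 ab.2) * ps ((ab.1 : ZMod (p ^ R)) * ζ1) * ps ((ab.2 : ZMod (p ^ R)) * ζ2)) *
          ((∑ x ∈ range (p ^ c'), w1 ab.1 ab.2 ^ x) * ∑ y ∈ range (p ^ c'), w2 ab.1 ab.2 ^ y) := by
        rw [sum_mul_sum, mul_sum]
        refine sum_congr rfl fun x _ => ?_
        rw [mul_sum]
        refine sum_congr rfl fun y _ => ?_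
        exact hterm _ _ _ _ hab.1 hab.2
      rw [e1, norm_mul, norm_mul, norm_mul, ps_norm, ps_norm, ps_norm, one_mul, one_mul, one_mul,
        norm_mul, geom_full (hpow _), geom_full (hpow _)]
      by_cases h1 : w1 ab.1 ab.2 = 1
      · by_cases h2 : w2 ab.1 ab.2 = 1
        · rw [if_pos h1, if_pos h2, if_pos ⟨hab, h1, h2⟩, Complex.norm_natCast]
          push_cast
          rw [pow_two]
        · rw [if_neg h2, norm_zero, mul_zero]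
          split_ifs <;> positivity
      · rw [if_neg h1, norm_zero, zero_mul]
        split_ifs <;> positivity
    · rw [if_neg (fun h => hab h.1)]
      have : ∑ x ∈ range (p ^ c'), ∑ y ∈ range (p ^ c'),
          G ((ab.1 + p ^ c * x : ℕ) : ZMod (p ^ R)) ((ab.2 + p ^ c * y : ℕ) : ZMod (p ^ R)) *
          ps (((ab.1 + p ^ c * x : ℕ) : ZMod (p ^ R)) * ζ1) *
          ps (((ab.2 + p ^ c * y : ℕ) : ZMod (p ^ R)) * ζ2) = 0 := by
        refine sum_eq_zero fun x _ => sum_eq_zero fun y _ => ?_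
        rw [hzero _ _ _ _ hab]; ring
      rw [this, norm_zero]
  have hcard : Sol.card ≤ p ^ 2 := by
    refine card_sol (c := c) (c' := c') (by omega) (by omega) hp0 Sol ?_ ?_
    · intro x hx
      rw [hSol, mem_filter, mem_product, mem_range, mem_range] at hx
      exact hx.1
    · intro x hx y hy
      rw [hSol, mem_filter] at hx hy
      obtain ⟨-, ⟨x1, x2⟩, x3, x4⟩ := hx
      obtain ⟨-, ⟨y1, y2⟩, y3, y4⟩ := hy
      have g1 := ps_eq_one x3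
      have g2 := ps_eq_one x4
      have g3 := ps_eq_one y3
      have g4 := ps_eq_one y4
      have hi := H.inj (τ + c) x.1 x.2 y.1 y.2 x1 x2 y1 y2 (by
        apply H.unitT.mul_left_cancel
        linear_combination g1 - g3) (by
        apply H.unitT.mul_left_cancel
        linear_combination g2 - g4)
      have hrc : r - (τ + c) = c' := by omega
      have i1 := pow_mul_eq_zero hp (by omega) hi.1
      have i2 := pow_mul_eq_zero hp (by omega) hi.2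
      rw [hrc] at i1 i2
      exact ⟨i1, i2⟩
  rw [hsplit]
  calc _ ≤ ∑ ab ∈ range (p ^ c) ×ˢ range (p ^ c),
      (if ((p : ℤ) ∣ (ab.1 : ℤ) - l0 ∧ (p : ℤ) ∣ (ab.2 : ℤ) - h0) ∧ w1 ab.1 ab.2 = 1 ∧
        w2 ab.1 ab.2 = 1 then ((p : ℝ) ^ c') ^ 2 else 0) :=
        (norm_sum_le _ _).trans (sum_le_sum fun ab _ => hinner ab)
    _ = Sol.card * ((p : ℝ) ^ c') ^ 2 := by
        rw [← sum_filter, ← hSol, sum_const, nsmul_eq_mul]
    _ ≤ ((p ^ 2 : ℕ) : ℝ) * ((p : ℝ) ^ c') ^ 2 := by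
        refine mul_le_mul_of_nonneg_right ?_ (by positivity)
        exact_mod_cast hcard
    _ ≤ (p : ℝ) ^ (R + 2) := by
        push_cast
        rw [← pow_mul, ← pow_add]
        exact pow_le_pow_right₀ (by exact_mod_cast hp.one_le) (by omega)

end Pool.Agent.T2H29.SW
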