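import Pool.Agent.T2H29.SW.L7

/-!
# The third difference
-/

set_option autoImplicit false
set_option linter.unusedSectionVars false

namespace Pool.Agent.T2H29.SW

open Finset
open Pool.Agent.Y766.R3 (KL)
open Pool.Agent.Y766.R7 (S_SQ aa S_BR dif3 eh ek Lam kap psi1 psi2 S_TD S_VAR S_INJ)
open Pool.Agent.Y779.R3 (unit_int pi_zero)

variable {p r : ℕ}

/-- the function of residues defined by a phase -/
noncomputable def GP (p r R : ℕ) [NeZero (p ^ r)] (l0 h0 : ℤ) (f : ℤ → ℤ → ZMod (p ^ r))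
    (a b : ZMod (p ^ R)) : ℂ :=
  if (p : ℤ) ∣ (a.val : ℤ) - l0 ∧ (p : ℤ) ∣ (b.val : ℤ) - h0 then ps (f a.val b.val) else 0

lemma val_eq {R : ℕ} [NeZero (p ^ R)] (l : ℤ) :
    ∃ x : ℤ, ((l : ZMod (p ^ R)).val : ℤ) = l + (p : ℤ) ^ R * x := by
  refine ⟨-(l / ((p ^ R : ℕ) : ℤ)), ?_⟩
  rw [ZMod.val_intCast, Int.emod_def]
  push_cast
  ring

lemma dvd_shift {R : ℕ} (hR : 1 ≤ R) {l l0 x : ℤ} :
    (p : ℤ) ∣ l + (p : ℤ) ^ R * x - l0 ↔ (p : ℤ) ∣ l - l0 := by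
  have h1 : (p : ℤ) ∣ (p : ℤ) ^ R * x := Dvd.dvd.mul_right (dvd_pow_self _ (by omega)) _
  have e : l + (p : ℤ) ^ R * x - l0 = (l - l0) + (p : ℤ) ^ R * x := by ring
  rw [e]
  exact (dvd_add_left h1)

lemma GP_eq {τ R : ℕ} [NeZero (p ^ r)] [NeZero (p ^ R)] (hr : r = τ + R)
    (hR : 1 ≤ R) {l0 h0 : ℤ} {T' : ZMod (p ^ r)} {f ψ1 ψ2 : ℤ → ℤ → ZMod (p ^ r)}
    (H : Phase p r τ l0 h0 T' f ψ1 ψ2) (l h : ℤ) : GP p r R l0 h0 f l h =
      if (p : ℤ) ∣ l - l0 ∧ (p : ℤ) ∣ h - h0 then ps (f l h) else 0 := by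
  unfold GP
  obtain ⟨x, hx⟩ := val_eq (p := p) (R := R) l
  obtain ⟨y, hy⟩ := val_eq (p := p) (R := R) h
  rw [hx, hy]
  by_cases hc : (p : ℤ) ∣ l - l0 ∧ (p : ℤ) ∣ h - h0
  · rw [if_pos hc, if_pos ⟨(dvd_shift hR).2 hc.1, (dvd_shift hR).2 hc.2⟩, H.lin R hR (by omega) l h hc.1 hc.2, ← hr, pi_zero le_rfl]
    simp
  · rw [if_neg hc, if_neg fun h => hc ⟨(dvd_shift hR).1 h.1, (dvd_shift hR).1 h.2⟩]

lemma unit_cls (hp : p.Prime) {l0 l : ℤ} (h0 : ¬ (p : ℤ) ∣ l0) (h : (p : ℤ) ∣ l - l0) :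
    IsUnit (l : ZMod (p ^ r)) := by
  refine unit_int hp fun h1 => h0 ?_
  have := dvd_sub h1 h
  simpa using this

/-- shifting `h` by a multiple of `p^a` -/
lemma aa_shift (hsq : S_SQ) (hp : p.Prime) (hp2 : p ≠ 2) (hr : 1 ≤ r) {a : ℕ} (ha : 1 ≤ a)
    {h0 h t : ℤ} (hh0 : ¬ (p : ℤ) ∣ h0) (hh : (p : ℤ) ∣ h - h0) (ht : (p : ℤ) ^ a ∣ t) :
    ∃ z : ZMod (p ^ r), aa p r h0 (h + t) = aa p r h0 h + (p : ZMod (p ^ r)) ^ a * z := by
  obtain ⟨t', rfl⟩ := ht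
  have hu : IsUnit (h : ZMod (p ^ r)) := unit_cls hp hh0 hh
  obtain ⟨z, hz⟩ := (hsq p r hp hp2 hr).2.1 a ((t' : ZMod (p ^ r)) * (h : ZMod (p ^ r))⁻¹) ha
  refine ⟨aa p r h0 h * z, ?_⟩
  have e1 : ((h + (p : ℤ) ^ a * t' : ℤ) : ZMod (p ^ r)) * (h0 : ZMod (p ^ r))⁻¹ =
      ((h : ZMod (p ^ r)) * (h0 : ZMod (p ^ r))⁻¹) *
        (1 + (p : ZMod (p ^ r)) ^ a * ((t' : ZMod (p ^ r)) * (h : ZMod (p ^ r))⁻¹)) := by
    have h1 : (h : ZMod (p ^ r)) * (h : ZMod (p ^ r))⁻¹ = 1 := ZMod.mul_inv_of_unit _ hu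
    push_cast
    linear_combination (-(p : ZMod (p ^ r)) ^ a * t' * (h0 : ZMod (p ^ r))⁻¹) * h1
  unfold aa at *
  rw [e1]
  unfold Pool.Agent.Y766.R7.sq at *
  rw [mul_pow, hz]
  ring

/-- the oscillating functions -/
noncomputable def gf (p r : ℕ) [NeZero (p ^ r)] (l0 h0 : ℤ) (Ψ : ZMod (p ^ r) → ℂ)
    (Y C : ZMod (p ^ r)) (l h : ℤ) : ℂ :=
  if (p : ℤ) ∣ h - h0 then Ψ (Y * (aa p r l0 l * aa p r h0 h)) *
    ps (C * (aa p r l0 l * aa p r h0 h)) else 0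

lemma gf_norm [NeZero (p ^ r)] {l0 h0 : ℤ} {Ψ : ZMod (p ^ r) → ℂ} (hΨ : ∀ y, ‖Ψ y‖ = 1)
    (Y C : ZMod (p ^ r)) (l h : ℤ) : ‖gf p r l0 h0 Ψ Y C l h‖ ≤ 1 := by
  unfold gf
  split_ifs
  · rw [norm_mul, hΨ, ps_norm]; norm_num
  · simp

variable {ι : Type} [Fintype ι] [DecidableEq ι]

/-- the triple difference -/
lemma tripleL (hsq : S_SQ) [NeZero (p ^ r)] (hp : p.Prime) (hp2 : p ≠ 2) (hr : 1 ≤ r) {a u : ℕ}
    (ha : 1 ≤ a) (hua : u ≤ a) {l0 h0 : ℤ} (hh0 : ¬ (p : ℤ) ∣ h0)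
    {Ψ : ZMod (p ^ r) → ℂ} (hΨ : ∀ y, ‖Ψ y‖ = 1)
    (hΨ2 : ∀ y z : ZMod (p ^ r), Ψ (y + (p : ZMod (p ^ r)) ^ u * z) = Ψ y)
    (Y C : ZMod (p ^ r)) {E : (ι → ℤ) → ℂ} (hE1 : ∀ z, ‖E z‖ = 1)
    (hE2 : ∀ z s, E (z + s) = E z * E s) (o : ι) (d1 d2 d3 : ι → ℕ) (t1 t2 t3 z : ι → ℤ) (l : ℤ)
    (h1 : (p : ℤ) ^ a ∣ sc d1 t1 o) (h2 : (p : ℤ) ^ a ∣ sc d2 t2 o)
    (h3 : (p : ℤ) ^ a ∣ sc d3 t3 o) :
    DF d3 (DF d2 (DF d1 (fun z => E z * gf p r l0 h0 Ψ Y C l (z o)) t1) t2) t3 z =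
      if (p : ℤ) ∣ z o - h0 then
        ps (C * (aa p r l0 l * dif3 p r h0 (z o) (sc d1 t1 o) (sc d2 t2 o) (sc d3 t3 o)))
      else 0 := by
  set s1 := sc d1 t1 with hs1
  set s2 := sc d2 t2 with hs2
  set s3 := sc d3 t3 with hs3
  set F : (ι → ℤ) → ℂ := fun z => E z * gf p r l0 h0 Ψ Y C l (z o) with hF
  have hpa : ∀ t : ℤ, (p : ℤ) ^ a ∣ t → (p : ℤ) ∣ t := fun t h => (dvd_pow_self _ (by omega)).trans h
  have hDD : DF d3 (DF d2 (DF d1 F t1) t2) t3 z =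
      (F (z + s1 + s2 + s3) * (starRingEnd ℂ) (F (z + s2 + s3)) *
        ((starRingEnd ℂ) (F (z + s1 + s3)) * F (z + s3))) *
      ((starRingEnd ℂ) (F (z + s1 + s2)) * F (z + s2) *
        (F (z + s1) * (starRingEnd ℂ) (F z))) := by
    unfold DF
    rw [← hs1, ← hs2, ← hs3]
    simp only [map_mul, Complex.conj_conj]
    have a1 : z + s3 + s2 + s1 = z + s1 + s2 + s3 := by abel
    have a2 : z + s3 + s2 = z + s2 + s3 := by abel
    have a3 : z + s3 + s1 = z + s1 + s3 := by abel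
    have a4 : z + s2 + s1 = z + s1 + s2 := by abel
    rw [a1, a2, a3, a4]
  rw [hDD]
  by_cases hc : (p : ℤ) ∣ z o - h0
  · rw [if_pos hc]
    have hval : ∀ t : ι → ℤ, (p : ℤ) ^ a ∣ t o →
        F (z + t) = E z * E t * (Ψ (Y * (aa p r l0 l * aa p r h0 (z o))) *
          ps (C * (aa p r l0 l * aa p r h0 (z o + t o)))) := by
      intro t ht
      simp only [hF]
      unfold gf
      have hmem : (p : ℤ) ∣ (z + t) o - h0 := by
        have : (z + t) o - h0 = (z o - h0) + t o := by rw [Pi.add_apply]; ring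
        rw [this]
        exact dvd_add hc (hpa _ ht)
      rw [if_pos hmem, hE2, Pi.add_apply]
      obtain ⟨w, hw⟩ := aa_shift hsq hp hp2 hr ha hh0 hc ht
      have e1 : Ψ (Y * (aa p r l0 l * aa p r h0 (z o + t o))) =
          Ψ (Y * (aa p r l0 l * aa p r h0 (z o))) := by
        have e2 : (p : ZMod (p ^ r)) ^ a = (p : ZMod (p ^ r)) ^ u * (p : ZMod (p ^ r)) ^ (a - u) := by
          rw [← pow_add]; congr 1; omega
        rw [hw, e2]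
        have e3 : Y * (aa p r l0 l * (aa p r h0 (z o) +
            (p : ZMod (p ^ r)) ^ u * (p : ZMod (p ^ r)) ^ (a - u) * w)) =
            Y * (aa p r l0 l * aa p r h0 (z o)) + (p : ZMod (p ^ r)) ^ u *
              (Y * aa p r l0 l * (p : ZMod (p ^ r)) ^ (a - u) * w) := by ring
        rw [e3, hΨ2]
      rw [e1]
    have d12 : (p : ℤ) ^ a ∣ (s1 + s2) o := dvd_add h1 h2
    have d13 : (p : ℤ) ^ a ∣ (s1 + s3) o := dvd_add h1 h3
    have d23 : (p : ℤ) ^ a ∣ (s2 + s3) o := dvd_add h2 h3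
    have d123 : (p : ℤ) ^ a ∣ (s1 + s2 + s3) o := dvd_add d12 h3
    have f123 := hval (s1 + s2 + s3) d123
    have f12 := hval (s1 + s2) d12
    have f13 := hval (s1 + s3) d13
    have f23 := hval (s2 + s3) d23
    have f1 := hval s1 h1
    have f2 := hval s2 h2
    have f3 := hval s3 h3
    have f0 : F z = E z * (Ψ (Y * (aa p r l0 l * aa p r h0 (z o))) *
          ps (C * (aa p r l0 l * aa p r h0 (z o)))) := by
      simp only [hF]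
      unfold gf
      rw [if_pos hc]
    rw [← add_assoc, ← add_assoc] at f123
    rw [← add_assoc] at f12 f13 f23
    rw [f123, f12, f13, f23, f1, f2, f3, f0, hE2, hE2, hE2, hE2]
    set P : ℂ := Ψ (Y * (aa p r l0 l * aa p r h0 (z o))) with hP
    have hPP : P * (starRingEnd ℂ) P = 1 := by
      rw [Complex.mul_conj', hΨ]; norm_num
    have hEE : ∀ s, E s * (starRingEnd ℂ) (E s) = 1 := by
      intro s
      rw [Complex.mul_conj', hE1]; norm_num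
    simp only [map_mul, ps_conj, Pi.add_apply]
    set A := aa p r l0 l with hA
    have e4 : ps (C * (A * dif3 p r h0 (z o) (s1 o) (s2 o) (s3 o))) =
        ps (C * (A * aa p r h0 (z o + s1 o + s2 o + s3 o))) *
        ps (-(C * (A * aa p r h0 (z o + s2 o + s3 o)))) *
        (ps (-(C * (A * aa p r h0 (z o + s1 o + s3 o)))) *
        ps (C * (A * aa p r h0 (z o + s3 o)))) *
        (ps (-(C * (A * aa p r h0 (z o + s1 o + s2 o)))) *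
        ps (C * (A * aa p r h0 (z o + s2 o))) *
        (ps (C * (A * aa p r h0 (z o + s1 o))) *
        ps (-(C * (A * aa p r h0 (z o)))))) := by
      simp only [← ps_add]
      congr 1
      unfold dif3
      ring
    rw [e4]
    have g1 : z o + (s1 o + s2 o + s3 o) = z o + s1 o + s2 o + s3 o := by ring
    have g2 : z o + (s2 o + s3 o) = z o + s2 o + s3 o := by ring
    have g3 : z o + (s1 o + s3 o) = z o + s1 o + s3 o := by ring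
    have g4 : z o + (s1 o + s2 o) = z o + s1 o + s2 o := by ring
    rw [g1, g2, g3, g4]
    have k0 := hEE z
    have k1 := hEE s1
    have k2 := hEE s2
    have k3 := hEE s3
    calc _ = (P * (starRingEnd ℂ) P) ^ 4 * (E z * (starRingEnd ℂ) (E z)) ^ 4 *
        (E s1 * (starRingEnd ℂ) (E s1)) ^ 2 * (E s2 * (starRingEnd ℂ) (E s2)) ^ 2 *
        (E s3 * (starRingEnd ℂ) (E s3)) ^ 2 *
        (ps (C * (A * aa p r h0 (z o + s1 o + s2 o + s3 o))) *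
        ps (-(C * (A * aa p r h0 (z o + s2 o + s3 o)))) *
        (ps (-(C * (A * aa p r h0 (z o + s1 o + s3 o)))) *
        ps (C * (A * aa p r h0 (z o + s3 o)))) *
        (ps (-(C * (A * aa p r h0 (z o + s1 o + s2 o)))) *
        ps (C * (A * aa p r h0 (z o + s2 o))) *
        (ps (C * (A * aa p r h0 (z o + s1 o))) *
        ps (-(C * (A * aa p r h0 (z o))))))) := by ring
      _ = _ := by rw [hPP, k0, k1, k2, k3]; ring
  · rw [if_neg hc]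
    have : F z = 0 := by
      simp only [hF]
      unfold gf
      rw [if_neg hc, mul_zero]
    rw [this]
    simp

/-- the phase of the third difference -/
lemma phase3 (hsq : S_SQ) (hvar : S_VAR) (hinj : S_INJ) {τ : ℕ} (hp : p.Prime) (hp7 : 7 ≤ p)
    (hr : 1 ≤ r) {l0 h0 : ℤ} (hl0 : ¬ (p : ℤ) ∣ l0) (hh0 : ¬ (p : ℤ) ∣ h0) {s1 s2 s3 S : ℤ}
    (h1 : (p : ℤ) ∣ s1) (h2 : (p : ℤ) ∣ s2) (h3 : (p : ℤ) ∣ s3)
    (hS : s1 * s2 * s3 = (p : ℤ) ^ τ * S) (hS' : ¬ (p : ℤ) ∣ S) {C : ZMod (p ^ r)} (hC : IsUnit C) :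
    Phase p r τ l0 h0 (C * (S : ZMod (p ^ r)))
      (fun l h => C * (((s1 * s2 * s3 : ℤ) : ZMod (p ^ r)) * Lam p r l0 h0 s1 s2 s3 l h))
      (psi1 p r l0 h0 s1 s2 s3) (psi2 p r l0 h0 s1 s2 s3) where
  unitT := hC.mul (unit_int hp hS')
  lin := by
    intro c hc hrc l h hl hh x y
    have hT : (((s1 * s2 * s3 : ℤ) : ZMod (p ^ r))) = (p : ZMod (p ^ r)) ^ τ * (S : ZMod (p ^ r)) := by
      rw [hS]; push_cast; ring
    have hz : (((s1 * s2 * s3 : ℤ) : ZMod (p ^ r))) * ((p : ZMod (p ^ r)) ^ c) ^ 2 = 0 := by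
      rw [hT]
      have e : (p : ZMod (p ^ r)) ^ τ * (S : ZMod (p ^ r)) * ((p : ZMod (p ^ r)) ^ c) ^ 2 =
        (S : ZMod (p ^ r)) * (p : ZMod (p ^ r)) ^ (τ + 2 * c) := by ring
      rw [e, pi_zero hrc, mul_zero]
    have := hvar p r c hp (by omega) hr hc l0 h0 l h s1 s2 s3 hl0 hh0 hl hh h1 h2 h3 _ hz x y
    rw [this, hT, pow_add]
    ring
  inj := fun s l h l' h' hl hh hl' hh' e1 e2 =>
    (hinj p r hp hp7 hr l0 h0 s1 s2 s3 hl0 hh0 h1 h2 h3).2 s l h l' h' hl hh hl' hh' e1 e2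

end Pool.Agent.T2H29.SW
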