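import Pool.Agent.T2H29.SW.L8

/-!
# Three differencings
-/

set_option autoImplicit false
set_option linter.unusedSectionVars false

namespace Pool.Agent.T2H29.SW

open Finset

variable {ι : Type} [Fintype ι] [DecidableEq ι] {p : ℕ}

lemma sc_inj {d : ι → ℕ} (hd : ∀ i, 0 < d i) : Function.Injective (sc d) := by
  intro z w h
  funext i
  have h4 : (d i : ℤ) * z i = (d i : ℤ) * w i := congrFun h i
  exact mul_left_cancel₀ (by exact_mod_cast (hd i).ne') h4

lemma sc_dk_o (o : ι) (j : ℕ) (t : ι → ℤ) : sc (dk p o j) t o = (p : ℤ) ^ j * t o := by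
  unfold sc dk; simp

lemma dk_range {o : ι} {j : ℕ} {t : ι → ℤ} (h : (p : ℤ) ^ j ∣ t o) :
    t ∈ Set.range (sc (dk p o j)) := by
  obtain ⟨s, hs⟩ := h
  refine ⟨fun i => if i = o then s else t i, ?_⟩
  funext i
  unfold sc dk
  by_cases hi : i = o
  · subst hi; simp [hs]
  · simp [hi]

lemma sum_dvd (hp : 0 < p) (o : ι) (A : Matrix ι ι ℝ) (j : ℕ) :
    ∑' t : ι → ℤ, (if (p : ℤ) ^ j ∣ t o then gs A 0 t else 0) =
      ∑' t, gs (A * dgm (dk p o j)) 0 t := by
  have hsup : Function.support (fun t : ι → ℤ => (if (p : ℤ) ^ j ∣ t o then gs A 0 t else 0)) ⊆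
      Set.range (sc (dk p o j)) := by
    intro t h
    rw [Function.mem_support] at h
    have h4 : (p : ℤ) ^ j ∣ t o := by
      by_contra h5
      exact h (if_neg h5)
    exact dk_range h4
  rw [← (sc_inj (dk_pos hp o j)).tsum_eq hsup]
  refine tsum_congr fun t => ?_
  rw [if_pos (by rw [sc_dk_o]; exact dvd_mul_right _ _), gs_mul_dgm]
  congr 1
  funext i; simp

lemma sum_dvd_summable {o : ι} {A : Matrix ι ι ℝ} (hA : A.det ≠ 0) (j : ℕ) :
    Summable fun t : ι → ℤ => (if (p : ℤ) ^ j ∣ t o then gs A 0 t else 0) := by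
  refine Summable.of_nonneg_of_le (fun t => ?_) (fun t => ?_) (gs_summable hA 0)
  · split_ifs
    · exact (gs_pos _ _ _).le
    · exact le_rfl
  · split_ifs
    · exact le_rfl
    · exact (gs_pos _ _ _).le

/-- constants -/
structure DD (n : ℕ) (B D : ℝ) : Prop where
  one : 1 ≤ D
  two : 2 * B ≤ D
  sq : B * (1 + √2 ^ n) ≤ D

lemma Mv_wt (hp : 0 < p) (o : ι) (A : Matrix ι ι ℝ) (a : ℕ) :
    Mv ((√2)⁻¹ • (A * dgm (dk p o a))) = √2 ^ Fintype.card ι * (Mv A / (p : ℝ) ^ a) := by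
  rw [Mv_smul (by positivity), Mv_mul, Mv_dk]
  rw [inv_pow]
  field_simp

lemma wt_dvd_le {o : ι} {A : Matrix ι ι ℝ} {b a j : ℕ} {B D : ℝ}
    (hp : 0 < p) (hab : a + j ≤ b) (hBal : Bal p o b B A) (hM : Mv A ≤ (p : ℝ) ^ b)
    (hD : DD (Fintype.card ι) B D) :
    ∑' t : ι → ℤ, (if (p : ℤ) ^ j ∣ t o then wt A (dk p o a) t else 0) ≤
      D * (p : ℝ) ^ (b - a - j) := by
  unfold wt
  rw [sum_dvd hp]
  have e1 : (√2)⁻¹ • (A * dgm (dk p o a)) * dgm (dk p o j) =
      (√2)⁻¹ • (A * dgm (dk p o (a + j))) := by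
    rw [Matrix.smul_mul, Matrix.mul_assoc, dgm_mul, dk_add]
  rw [e1]
  have h1 := ((hBal (a + j) hab).smul (s := (√2)⁻¹) (by positivity)).one 0
  refine h1.trans ?_
  rw [Mv_wt hp]
  have hB := (hBal (a + j) hab).nonneg
  have hp1 : (1 : ℝ) ≤ p := by exact_mod_cast hp
  have hpow : (1 : ℝ) ≤ (p : ℝ) ^ (b - a - j) := one_le_pow₀ hp1
  have h2 : Mv A / (p : ℝ) ^ (a + j) ≤ (p : ℝ) ^ (b - a - j) := by
    rw [div_le_iff₀ (by positivity), ← pow_add]
    have : b - a - j + (a + j) = b := by omega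
    rw [this]; exact hM
  have h3 : (0 : ℝ) ≤ √2 ^ Fintype.card ι := by positivity
  calc B * (1 + √2 ^ Fintype.card ι * (Mv A / (p : ℝ) ^ (a + j)))
      ≤ B * ((p : ℝ) ^ (b - a - j) + √2 ^ Fintype.card ι * (p : ℝ) ^ (b - a - j)) := by
        refine mul_le_mul_of_nonneg_left ?_ hB
        have := mul_le_mul_of_nonneg_left h2 h3
        linarith
    _ = (B * (1 + √2 ^ Fintype.card ι)) * (p : ℝ) ^ (b - a - j) := by ring
    _ ≤ _ := mul_le_mul_of_nonneg_right hD.sq (by positivity)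

/-- the weights of the good shifts -/
noncomputable def vw (p : ℕ) (o : ι) (A : Matrix ι ι ℝ) (a x : ℕ) (t : ι → ℤ) : ℝ :=
  if (p : ℤ) ^ x ∣ t o then 0 else wt A (dk p o a) t

/-- the power of `p` in `t` -/
noncomputable def pv (p : ℕ) (o : ι) (x : ℕ) (t : ι → ℤ) : ℝ :=
  (p : ℝ) ^ (min x (padicValInt p (t o)))

lemma vw_nonneg (o : ι) (A : Matrix ι ι ℝ) (a x : ℕ) (t : ι → ℤ) : 0 ≤ vw p o A a x t := by
  unfold vw
  split_ifs
  · exact le_rfl
  · exact (wt_pos _ _ _).le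

lemma vw_le (o : ι) (A : Matrix ι ι ℝ) (a x : ℕ) (t : ι → ℤ) :
    vw p o A a x t ≤ wt A (dk p o a) t := by
  unfold vw
  split_ifs
  · exact (wt_pos _ _ _).le
  · exact le_rfl

lemma vw_summable (hp : 0 < p) {o : ι} {A : Matrix ι ι ℝ} (hA : A.det ≠ 0) (a x : ℕ) :
    Summable (vw p o A a x) :=
  Summable.of_nonneg_of_le (fun t => vw_nonneg _ _ _ _ _) (fun t => vw_le _ _ _ _ _)
    (wt_summable hA (dk_pos hp o a))

lemma pv_one (hp : 0 < p) (o : ι) (x : ℕ) (t : ι → ℤ) : 1 ≤ pv p o x t := by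
  unfold pv
  exact one_le_pow₀ (by exact_mod_cast hp)

lemma pv_le (hp : 0 < p) (o : ι) (x : ℕ) (t : ι → ℤ) : pv p o x t ≤ (p : ℝ) ^ x := by
  unfold pv
  exact pow_le_pow_right₀ (by exact_mod_cast hp) (min_le_left _ _)

lemma vw_sum {o : ι} {A : Matrix ι ι ℝ} (hA : A.det ≠ 0) {b a : ℕ} {B D : ℝ}
    (hp : 0 < p) (hab : a ≤ b) (hBal : Bal p o b B A) (hM : Mv A ≤ (p : ℝ) ^ b)
    (hD : DD (Fintype.card ι) B D) :
    ∑' t : ι → ℤ, vw p o A a (b - a) t ≤ D * (p : ℝ) ^ (b - a) := by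
  have h1 := wt_dvd_le (j := 0) hp (by omega) hBal hM hD (a := a)
  rw [Nat.sub_zero] at h1
  refine le_trans ?_ h1
  refine (vw_summable hp hA a _).tsum_le_tsum (fun t => ?_) ?_
  · rw [if_pos (by rw [pow_zero]; exact one_dvd _)]
    exact vw_le _ _ _ _ _
  · refine (wt_summable hA (dk_pos hp o a)).congr fun t => ?_
    rw [if_pos (by rw [pow_zero]; exact one_dvd _)]

lemma bad_sum {o : ι} {A : Matrix ι ι ℝ} {b a : ℕ} {B D : ℝ}
    (hp : 0 < p) (hab : a ≤ b) (hBal : Bal p o b B A) (hM : Mv A ≤ (p : ℝ) ^ b)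
    (hD : DD (Fintype.card ι) B D) :
    ∑' t : ι → ℤ, (if (p : ℤ) ^ (b - a) ∣ t o then wt A (dk p o a) t else 0) ≤ D := by
  have h1 := wt_dvd_le (j := b - a) hp (by omega) hBal hM hD (a := a)
  rw [Nat.sub_self, pow_zero, mul_one] at h1
  exact h1

lemma vw_pv_sum {o : ι} {A : Matrix ι ι ℝ} (hA : A.det ≠ 0) {b a : ℕ} {B D : ℝ}
    (hp : p.Prime) (hab : a ≤ b) (hBal : Bal p o b B A) (hM : Mv A ≤ (p : ℝ) ^ b)
    (hD : DD (Fintype.card ι) B D) :
    (Summable fun t : ι → ℤ => vw p o A a (b - a) t * pv p o (b - a) t) ∧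
    ∑' t : ι → ℤ, vw p o A a (b - a) t * pv p o (b - a) t ≤
      ((b - a : ℕ) : ℝ) * D * (p : ℝ) ^ (b - a) := by
  have hp0 := hp.pos
  have s1 : Summable fun t : ι → ℤ => vw p o A a (b - a) t * pv p o (b - a) t :=
    wsum (fun t => vw_nonneg _ _ _ _ _) (vw_summable hp0 hA a _)
      (fun t => zero_le_one.trans (pv_one hp0 _ _ _)) (fun t => pv_le hp0 _ _ _)
  refine ⟨s1, ?_⟩
  have hsj : ∀ j, Summable fun t : ι → ℤ => (p : ℝ) ^ j *
      (if (p : ℤ) ^ j ∣ t o then wt A (dk p o a) t else 0) := fun j =>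
    (sum_dvd_summable (wt_det hA (dk_pos hp0 o a)) j).mul_left _
  have h1 : ∀ t : ι → ℤ, vw p o A a (b - a) t * pv p o (b - a) t ≤
      ∑ j ∈ range (b - a), (p : ℝ) ^ j * (if (p : ℤ) ^ j ∣ t o then wt A (dk p o a) t else 0) := by
    intro t
    have hterm : ∀ j, 0 ≤ (p : ℝ) ^ j * (if (p : ℤ) ^ j ∣ t o then wt A (dk p o a) t else 0) := by
      intro j
      refine mul_nonneg (by positivity) ?_
      split_ifs
      · exact (wt_pos _ _ _).le
      · exact le_rfl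
    unfold vw
    by_cases ht : (p : ℤ) ^ (b - a) ∣ t o
    · rw [if_pos ht, zero_mul]
      exact sum_nonneg fun j _ => hterm j
    · rw [if_neg ht]
      have h0 : t o ≠ 0 := fun h => ht (h ▸ dvd_zero _)
      haveI : Fact p.Prime := ⟨hp⟩
      have hv : padicValInt p (t o) < b - a := by
        by_contra hcon
        push Not at hcon
        apply ht
        rw [padicValInt_dvd_iff]
        exact Or.inr hcon
      have hd : (p : ℤ) ^ padicValInt p (t o) ∣ t o := padicValInt_dvd _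
      unfold pv
      rw [min_eq_right hv.le]
      have := single_le_sum (f := fun j => (p : ℝ) ^ j *
        (if (p : ℤ) ^ j ∣ t o then wt A (dk p o a) t else 0)) (fun j _ => hterm j)
        (mem_range.2 hv)
      simp only [if_pos hd] at this
      rw [mul_comm]
      exact this
  calc ∑' t : ι → ℤ, vw p o A a (b - a) t * pv p o (b - a) t
      ≤ ∑' t : ι → ℤ, ∑ j ∈ range (b - a), (p : ℝ) ^ j *
        (if (p : ℤ) ^ j ∣ t o then wt A (dk p o a) t else 0) :=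
        s1.tsum_le_tsum h1 (summable_sum fun j _ => hsj j)
    _ = ∑ j ∈ range (b - a), (p : ℝ) ^ j *
        ∑' t : ι → ℤ, (if (p : ℤ) ^ j ∣ t o then wt A (dk p o a) t else 0) := by
        rw [Summable.tsum_finsetSum fun j _ => hsj j]
        refine sum_congr rfl fun j _ => ?_
        rw [tsum_mul_left]
    _ ≤ ∑ j ∈ range (b - a), D * (p : ℝ) ^ (b - a) := by
        refine sum_le_sum fun j hj => ?_
        rw [mem_range] at hj
        have h2 := wt_dvd_le (j := j) hp0 (by omega) hBal hM hD (a := a)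
        calc _ ≤ (p : ℝ) ^ j * (D * (p : ℝ) ^ (b - a - j)) :=
              mul_le_mul_of_nonneg_left h2 (by positivity)
          _ = D * (p : ℝ) ^ (b - a) := by
              have : b - a = j + (b - a - j) := by omega
              conv_rhs => rw [this, pow_add]
              ring
    _ = _ := by rw [sum_const, card_range, nsmul_eq_mul]; ring

variable {X : Type}

/-- one step of differencing -/
lemma step {w : X → ℝ} (hw0 : ∀ x, 0 ≤ w x) (hw : Summable w) {W : ℝ} (hW : ∑' x, w x ≤ W)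
    {o : ι} {A : Matrix ι ι ℝ} (hA : A.det ≠ 0) (c : ι → ℝ) {F : X → (ι → ℤ) → ℂ}
    (hF : ∀ x z, ‖F x z‖ ≤ 1) {b a : ℕ} {B D : ℝ}
    (hp : 0 < p) (hab : a ≤ b) (hBal : Bal p o b B A) (hM : Mv A ≤ (p : ℝ) ^ b)
    (hD : DD (Fintype.card ι) B D) {g : (ι → ℤ) → ℝ} {K : ℝ} (hg0 : ∀ t, 0 ≤ g t)
    (hgK : ∀ t, g t ≤ K)
    (hg : ∀ t, ¬ (p : ℤ) ^ (b - a) ∣ t o → ∀ c',
      S0 w ((√2) • A) c' (fun x => DF (dk p o a) (F x) t) ≤ g t) :
    S1 w A c F ^ 2 ≤ W * (p : ℝ) ^ a * (D * (W * (D * (p : ℝ) ^ b)) +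
      ∑' t, vw p o A a (b - a) t * g t) := by
  have hB := hBal.zero.nonneg
  have hA2 : ((√2) • A).det ≠ 0 := smul_det_ne (by positivity) hA
  have hw00 : 0 ≤ ∑' x, w x := tsum_nonneg hw0
  have hW0 : 0 ≤ W := hw00.trans hW
  have hD0 : 0 ≤ D := zero_le_one.trans hD.one
  have hpb : (1 : ℝ) ≤ (p : ℝ) ^ b := one_le_pow₀ (by exact_mod_cast hp)
  have h2n : (1 : ℝ) ≤ √2 ^ Fintype.card ι := one_le_pow₀ (by
    rw [Real.one_le_sqrt]; norm_num)
  have hbd : ∀ c', ∑' z, gs ((√2) • A) c' z ≤ D * (p : ℝ) ^ b := by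
    intro c'
    refine ((hBal.zero).smul (s := √2) (by positivity)).one c' |>.trans ?_
    rw [Mv_smul (by positivity)]
    have h1 : Mv A / √2 ^ Fintype.card ι ≤ (p : ℝ) ^ b := by
      rw [div_le_iff₀ (by positivity)]
      nlinarith [hM]
    calc B * (1 + Mv A / √2 ^ Fintype.card ι) ≤ B * ((p : ℝ) ^ b + (p : ℝ) ^ b) :=
          mul_le_mul_of_nonneg_left (by linarith) hB
      _ = (2 * B) * (p : ℝ) ^ b := by ring
      _ ≤ _ := mul_le_mul_of_nonneg_right hD.two (by positivity)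
  have h1 := vdc_avg hw0 hw hA c hF (d := dk p o a) (dk_pos hp o a) hbd
  have hprod : ∏ i, ((dk p o a i : ℕ) : ℝ) = (p : ℝ) ^ a := by
    rw [← Nat.cast_prod, prod_dk]; push_cast; rfl
  rw [hprod] at h1
  set Y : (ι → ℤ) → ℝ := fun t => S0 w ((√2) • A) (c - (2 : ℝ)⁻¹ • cz (sc (dk p o a) t))
    (fun x => DF (dk p o a) (F x) t) with hY
  have hY0 : ∀ t, 0 ≤ Y t := fun t => norm_nonneg _
  have hYb : ∀ t, Y t ≤ W * (D * (p : ℝ) ^ b) := by
    intro t
    have h2 := (S0_le hw0 hw hA2 (c - (2 : ℝ)⁻¹ • cz (sc (dk p o a) t))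
      (F := fun x => DF (dk p o a) (F x) t) (fun x z => DF_norm (hF x) t z)).trans
      (S1_le hw0 hw hA2 _ (fun x z => DF_norm (hF x) t z) (hbd _))
    exact h2.trans (mul_le_mul_of_nonneg_right hW (by positivity))
  have hK0 : 0 ≤ K := (hg0 0).trans (hgK 0)
  have hsg : Summable fun t => vw p o A a (b - a) t * g t :=
    wsum (fun t => vw_nonneg _ _ _ _ _) (vw_summable hp hA a _) hg0 hgK
  have hsb : Summable fun t : ι → ℤ => (if (p : ℤ) ^ (b - a) ∣ t o then wt A (dk p o a) t else 0) :=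
    sum_dvd_summable (wt_det hA (dk_pos hp o a)) _
  have h3 : ∑' t, wt A (dk p o a) t * Y t ≤
      D * (W * (D * (p : ℝ) ^ b)) + ∑' t, vw p o A a (b - a) t * g t := by
    calc ∑' t, wt A (dk p o a) t * Y t ≤
        ∑' t, ((if (p : ℤ) ^ (b - a) ∣ t o then wt A (dk p o a) t else 0) *
          (W * (D * (p : ℝ) ^ b)) + vw p o A a (b - a) t * g t) := by
          refine Summable.tsum_le_tsum (fun t => ?_) ?_ ((hsb.mul_right _).add hsg)
          · unfold vw
            by_cases ht : (p : ℤ) ^ (b - a) ∣ t o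
            · rw [if_pos ht, if_pos ht, zero_mul, add_zero]
              exact mul_le_mul_of_nonneg_left (hYb t) (wt_pos _ _ _).le
            · rw [if_neg ht, if_neg ht, zero_mul, zero_add]
              exact mul_le_mul_of_nonneg_left (hg t ht _) (wt_pos _ _ _).le
          · exact wsum (fun t => (wt_pos _ _ _).le) (wt_summable hA (dk_pos hp o a)) hY0 hYb
      _ = (∑' t : ι → ℤ, (if (p : ℤ) ^ (b - a) ∣ t o then wt A (dk p o a) t else 0)) *
          (W * (D * (p : ℝ) ^ b)) + ∑' t, vw p o A a (b - a) t * g t := by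
          rw [Summable.tsum_add (hsb.mul_right _) hsg, tsum_mul_right]
      _ ≤ _ := by
          have := mul_le_mul_of_nonneg_right (bad_sum hp hab hBal hM hD)
            (show 0 ≤ W * (D * (p : ℝ) ^ b) by positivity)
          linarith
  have h4 : 0 ≤ ∑' t, wt A (dk p o a) t * Y t :=
    tsum_nonneg fun t => mul_nonneg (wt_pos _ _ _).le (hY0 t)
  calc S1 w A c F ^ 2 ≤ (∑' x, w x) * ((p : ℝ) ^ a * ∑' t, wt A (dk p o a) t * Y t) := h1
    _ ≤ W * ((p : ℝ) ^ a * (D * (W * (D * (p : ℝ) ^ b)) + ∑' t, vw p o A a (b - a) t * g t)) := by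
        refine mul_le_mul hW (mul_le_mul_of_nonneg_left h3 (by positivity)) (by positivity) hW0
    _ = _ := by ring

end Pool.Agent.T2H29.SW
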