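import Pool.Agent.H435R3.Weil.Main
import Pool.Agent.H498R2.KlWeil

/-! # Mixed sums over finite fields: the multiplicative function -/

set_option autoImplicit false
set_option linter.unusedSectionVars false

namespace Pool.Agent.T2H29.SW.Mix

open Polynomial Finset IntermediateField
open Pool.Agent.H341R2.Sharp Pool.Agent.H435R3.Weil Pool.Agent.H498R2

section Lam

variable {F : Type} [Field F] [Fintype F] [DecidableEq F]

/-- the multiplicative function of a mixed sum -/
noncomputable def lamM (χ : MulChar F ℂ) (ψ : AddChar F ℂ) (a : F) (h : F[X]) : ℂ :=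
  lamPR χ (X + C 1) (X - C 0) h * ψ (-(a * h.nextCoeff))

theorem lamM_one (χ : MulChar F ℂ) (ψ : AddChar F ℂ) (a : F) : lamM χ ψ a 1 = 1 := by
  unfold lamM
  rw [lamPR_one]
  have h1 : (1 : F[X]).nextCoeff = 0 := by simp [nextCoeff]
  rw [h1]
  simp

theorem lamM_mul (χ : MulChar F ℂ) (ψ : AddChar F ℂ) (a : F) (g h : F[X]) (hg : g.Monic)
    (hh : h.Monic) : lamM χ ψ a (g * h) = lamM χ ψ a g * lamM χ ψ a h := by
  unfold lamM
  rw [lamPR_mul χ _ _ g h hg hh, hg.nextCoeff_mul hh]
  have : -(a * (g.nextCoeff + h.nextCoeff)) = -(a * g.nextCoeff) + -(a * h.nextCoeff) := by ring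
  rw [this, AddChar.map_add_eq_mul]
  ring

theorem TL_M {E : Type} [Field E] [Fintype E] [DecidableEq E] [Algebra F E] (χ : MulChar F ℂ)
    (ψ : AddChar F ℂ) (a : F) :
    TL (lamM χ ψ a) (Module.finrank F E) = ∑ x : E, χ (Algebra.norm F (x + 1)) *
      (starRingEnd ℂ) (χ (Algebra.norm F x)) * ψ (Algebra.trace F E (algebraMap F E a * x)) := by
  rw [TL_eq_sum (E := E)]
  refine sum_congr rfl fun x _ => ?_
  have h1 := norm_aeval x (X + C 1 : F[X])
  have h2 := norm_aeval x (X - C 0 : F[X])
  have e1 : aeval x (X + C 1 : F[X]) = x + 1 := by simp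
  have e2 : aeval x (X - C 0 : F[X]) = x := by simp
  rw [e1] at h1
  rw [e2] at h2
  unfold lamM lamPR
  rw [h1, h2, map_pow, map_pow, map_pow, mul_pow, mul_pow]
  by_cases hx : x = 0
  · have h3 : Algebra.norm F x = 0 := by rw [hx, Algebra.norm_zero]
    have h4 : (starRingEnd ℂ) (χ (resultant (minpoly F x) (X - C 0) (minpoly F x).natDegree
        (X - C 0 : F[X]).natDegree)) ^ (Module.finrank F E / (minpoly F x).natDegree) = 0 := by
      rw [← map_pow, ← map_pow, ← h2, h3, MulChar.map_zero, map_zero]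
    rw [h4]
    ring
  · have h3 := Kl.trace_kl x hx a 0
    rw [map_zero, zero_mul, add_zero, zero_mul, add_zero] at h3
    rw [h3, AddChar.map_nsmul_eq_pow]

/-- vanishing in degree at least three -/
theorem AL_M_zero (χ : MulChar F ℂ) {ψ : AddChar F ℂ} (hψ : ψ ≠ 1) {a : F} (ha : a ≠ 0) (n : ℕ)
    (hn : 3 ≤ n) : AL (lamM χ ψ a) n = 0 := by
  classical
  obtain ⟨t0, ht0⟩ := AddChar.ne_one_iff.1 hψ
  set t : F := -(a⁻¹ * t0) with ht
  have hat : -(a * t) = t0 := by
    rw [ht]
    field_simp
  set g : F → F[X] := fun s => C s * X ^ (n - 1) + C s * X ^ (n - 2) with hg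
  have hgd : ∀ (s : F) (h : F[X]), h ∈ Mon F n → (g s).degree < h.degree := by
    intro s h hh
    rw [mem_Mon] at hh
    rw [degree_eq_natDegree hh.1.ne_zero, hh.2]
    refine (degree_add_le _ _).trans_lt (max_lt ?_ ?_)
    · refine (degree_C_mul_X_pow_le _ _).trans_lt ?_
      exact_mod_cast (by omega : n - 1 < n)
    · refine (degree_C_mul_X_pow_le _ _).trans_lt ?_
      exact_mod_cast (by omega : n - 2 < n)
  have key : ∀ (s : F) (h : F[X]), h ∈ Mon F n → h + g s ∈ Mon F n := by
    intro s h hh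
    have hdeg := hgd s h hh
    rw [mem_Mon] at hh ⊢
    refine ⟨hh.1.add_of_left hdeg, ?_⟩
    rw [natDegree_add_eq_left_of_degree_lt hdeg, hh.2]
  have hperm : ∑ h ∈ Mon F n, lamM χ ψ a h = ∑ h ∈ Mon F n, lamM χ ψ a (h + g t) := by
    symm
    refine sum_bij' (fun h _ => h + g t) (fun h _ => h + g (-t))
      (fun h hh => key t h hh) (fun h hh => key (-t) h hh) ?_ ?_ ?_
    · intro h _
      simp only [hg, C_neg]
      ring
    · intro h _
      simp only [hg, C_neg]
      ring
    · intro h _
      rfl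
  have hval : ∀ h ∈ Mon F n, lamM χ ψ a (h + g t) = ψ t0 * lamM χ ψ a h := by
    intro h hh
    have hdeg := hgd t h hh
    rw [mem_Mon] at hh
    have hnd : (h + g t).natDegree = n := by
      rw [natDegree_add_eq_left_of_degree_lt hdeg, hh.2]
    have e0 : (h + g t).eval (-1) = h.eval (-1) := by
      simp only [hg, eval_add, eval_mul, eval_C, eval_pow, eval_X]
      have : ((-1 : F)) ^ (n - 1) = - (-1) ^ (n - 2) := by
        have h1 : n - 1 = (n - 2) + 1 := by omega
        rw [h1, pow_succ]
        ring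
      rw [this]
      ring
    have e1 : (h + g t).eval 0 = h.eval 0 := by
      simp only [hg, eval_add, eval_mul, eval_C, eval_pow, eval_X]
      rw [zero_pow (by omega), zero_pow (by omega)]
      ring
    have e2 : (h + g t).nextCoeff = h.nextCoeff + t := by
      rw [nextCoeff_of_natDegree_pos (by rw [hnd]; omega),
        nextCoeff_of_natDegree_pos (by rw [hh.2]; omega), hnd, hh.2]
      simp only [hg, coeff_add, coeff_C_mul_X_pow]
      rw [if_pos True.intro, if_neg (by omega), add_zero]
    have e3 : lamPR χ (X + C 1) (X - C 0) (h + g t) = lamPR χ (X + C 1) (X - C 0) h := by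
      unfold lamPR
      rw [natDegree_X_add_C, natDegree_X_sub_C, resultant_X_add_C_right _ _ _ le_rfl,
        resultant_X_add_C_right _ _ _ le_rfl, resultant_X_sub_C_right _ _ _ le_rfl,
        resultant_X_sub_C_right _ _ _ le_rfl, hnd, hh.2, e0, e1]
    unfold lamM
    rw [e3, e2, ← hat]
    have : -(a * (h.nextCoeff + t)) = -(a * t) + -(a * h.nextCoeff) := by ring
    rw [this, AddChar.map_add_eq_mul]
    ring
  have h1 : AL (lamM χ ψ a) n = ψ t0 * AL (lamM χ ψ a) n := by
    unfold AL
    conv_lhs => rw [hperm, sum_congr rfl hval]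
    rw [mul_sum]
  have h2 : (1 - ψ t0) * AL (lamM χ ψ a) n = 0 := by
    linear_combination h1
  rcases mul_eq_zero.1 h2 with h | h
  · exact absurd (sub_eq_zero.1 h).symm ht0
  · exact h

end Lam

section Count

variable {F E : Type} [Field F] [Fintype F] [DecidableEq F] [Field E] [Fintype E] [DecidableEq E]
  [Algebra F E]

lemma cop_of {t : ℕ} (ht : 2 ≤ t) {P R : E[X]} (hP : P.eval 0 ≠ 0) (hR : R.eval 0 = 0)
    (hR' : R.derivative.eval 0 ≠ 0) : Cop t (P * R ^ (t - 1)) := by
  have hP0 : P ≠ 0 := by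
    rintro rfl
    simp at hP
  have hR0 : R ≠ 0 := by
    rintro rfl
    simp at hR'
  refine ⟨0, ?_⟩
  have h1 : rootMultiplicity 0 P = 0 := rootMultiplicity_eq_zero hP
  have h2 : rootMultiplicity 0 R = 1 := by
    have h3 : 0 < rootMultiplicity 0 R := (rootMultiplicity_pos hR0).2 hR
    have h4 : ¬ 1 < rootMultiplicity 0 R := by
      intro h5
      have h6 := (one_lt_rootMultiplicity_iff_isRoot hR0).1 h5
      exact hR' h6.2
    omega
  rw [rootMultiplicity_mul (mul_ne_zero hP0 (pow_ne_zero _ hR0)), h1, zero_add,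
    ← count_roots, roots_pow, Multiset.count_nsmul, count_roots, h2, mul_one]
  obtain ⟨k, rfl⟩ : ∃ k, t = k + 1 := ⟨t - 1, by omega⟩
  rw [Nat.add_sub_cancel]
  exact Nat.coprime_self_add_right.2 (Nat.coprime_one_right _)

lemma char_norm {χ : MulChar F ℂ} {x : F} (hx : x ≠ 0) : ‖χ x‖ = 1 := by
  have h1 : χ x ^ orderOf χ = 1 := by
    rw [← MulChar.pow_apply' _ χ.orderOf_pos.ne', pow_orderOf_eq_one, MulChar.one_apply
      (isUnit_iff_ne_zero.2 hx)]
  exact Complex.norm_eq_one_of_pow_eq_one h1 χ.orderOf_pos.ne'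

/-- the sum over the scalings -/
theorem sum_scal {ψ : AddChar F ℂ} (hψ : ψ.IsPrimitive) {a : F} (ha : a ≠ 0) (u : E → ℂ) :
    ∑ c ∈ univ.filter (fun c : F => c ≠ 0), ∑ x : E, u x *
      ψ (Algebra.trace F E (algebraMap F E (c * a) * x)) =
      ∑ z : E, u ((z ^ Fintype.card F - z) / algebraMap F E a) - ∑ x : E, u x := by
  have haE : algebraMap F E a ≠ 0 := (_root_.map_ne_zero _).2 ha
  have h3 : ∀ (c : F) (x : E), Algebra.trace F E (algebraMap F E (c * a) * x) =
      c * Algebra.trace F E (algebraMap F E a * x) := by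
    intro c x
    have h := (Algebra.trace F E).map_smul c (algebraMap F E a * x)
    rw [smul_eq_mul] at h
    rw [← h, Algebra.smul_def, map_mul (algebraMap F E), mul_assoc]
  have h1 : ∑ c : F, ∑ x : E, u x * ψ (Algebra.trace F E (algebraMap F E (c * a) * x)) =
      ∑ z : E, u ((z ^ Fintype.card F - z) / algebraMap F E a) := by
    rw [sum_comm]
    have h2 : ∀ x : E, ∑ c : F, u x * ψ (Algebra.trace F E (algebraMap F E (c * a) * x)) =
        ∑ z : E, if x = (z ^ Fintype.card F - z) / algebraMap F E a then u x else 0 := by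
      intro x
      simp_rw [h3]
      rw [← mul_sum, AddChar.sum_mulShift _ hψ]
      have h4 := Kl.hilbert90 (F := F) (algebraMap F E a * x)
      rw [← h4, card_filter]
      push_cast
      rw [mul_sum]
      apply sum_congr rfl
      intro z _
      have h5 : (z ^ Fintype.card F - z = algebraMap F E a * x) ↔
          x = (z ^ Fintype.card F - z) / algebraMap F E a := by
        rw [eq_div_iff haE]
        constructor
        · intro h; rw [h]; ring
        · intro h; rw [← h]; ring
      by_cases h6 : x = (z ^ Fintype.card F - z) / algebraMap F E a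
      · rw [if_pos h6, if_pos (h5.2 h6), mul_one]
      · rw [if_neg h6, if_neg (fun h => h6 (h5.1 h)), mul_zero]
    simp_rw [h2]
    rw [sum_comm]
    apply sum_congr rfl
    intro z _
    rw [sum_ite_eq' univ _ u, if_pos (mem_univ _)]
  have h2 : ∑ x : E, u x * ψ (Algebra.trace F E (algebraMap F E ((0 : F) * a) * x)) = ∑ x : E, u x := by
    apply sum_congr rfl
    intro x _
    rw [zero_mul, map_zero, zero_mul, map_zero, AddChar.map_zero_eq_one, mul_one]
  rw [← h1, ← sum_filter_add_sum_filter_not univ (fun c : F => c ≠ 0)]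
  have : (univ.filter fun c : F => ¬ c ≠ 0) = {0} := by
    ext c
    simp
  rw [this, sum_singleton, h2, add_sub_cancel_right]

end Count

end Pool.Agent.T2H29.SW.Mix
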