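import Pool.Agent.T2H29.SW.B12
import Pool.Agent.T2H29.SW.M2

/-!
# Complete sums to squarefree moduli
-/

set_option autoImplicit false
set_option linter.unusedSectionVars false

namespace Pool.Agent.T2H29.SW

open Finset NumberField NumberField.InfinitePlace Module

variable {K : Type} [Field K] [NumberField K]

lemma sQ_le {b : Ideal (𝓞 K)} [Fintype (𝓞 K ⧸ b)] {g : 𝓞 K → ℂ} (hg : ∀ x, ‖g x‖ ≤ 1) :
    ‖sQ b g‖ ≤ Ideal.absNorm b := by
  have hcard : Ideal.absNorm b = Fintype.card (𝓞 K ⧸ b) := by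
    rw [Ideal.absNorm_apply, Submodule.cardQuot_apply, Nat.card_eq_fintype_card]
  unfold sQ
  refine (norm_sum_le _ _).trans ((sum_le_sum fun c _ => hg _).trans (le_of_eq ?_))
  rw [sum_const, nsmul_eq_mul, mul_one, card_univ, hcard]

lemma AC.zero {b : Ideal (𝓞 K)} {l : 𝓞 K → ℂ} (h : AC b l) : l 0 = 1 := h.triv 0 (zero_mem _)

/-- prime moduli -/
theorem loc_prime {P : Ideal (𝓞 K)} (hP : Prime P) [Fintype (𝓞 K ⧸ P)] {F : 𝓞 K → ℂ}
    (hF : PM P F) {l : 𝓞 K → ℂ} (hl : AC P l) {h : 𝓞 K} (hh : h ∉ P) :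
    ‖sQ P (fun x => DH F h x * l x)‖ ≤ 2 * √(Ideal.absNorm P) := by
  classical
  have hP0 : P ≠ ⊥ := hP.ne_zero
  haveI hPp : P.IsPrime := Ideal.isPrime_of_prime hP
  haveI hPm : P.IsMaximal := hPp.isMaximal hP0
  letI : Field (𝓞 K ⧸ P) := Ideal.Quotient.field P
  have hcard : Ideal.absNorm P = Fintype.card (𝓞 K ⧸ P) := by
    rw [Ideal.absNorm_apply, Submodule.cardQuot_apply, Nat.card_eq_fintype_card]
  have hper : ∀ x y, x - y ∈ P → F x = F y := hF.per
  let χ : MulChar (𝓞 K ⧸ P) ℂ :=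
    { toFun := fun c => F (Quotient.out c)
      map_one' := by
        rw [← hF.one]
        exact hper _ _ (out_sub P 1)
      map_mul' := fun c d => by
        rw [← hF.mul]
        refine hper _ _ ?_
        rw [← Ideal.Quotient.mk_eq_mk_iff_sub_mem, mk_out, map_mul, mk_out, mk_out]
      map_nonunit' := fun c hc => by
        have h0 : c = 0 := by
          by_contra h1
          exact hc (isUnit_iff_ne_zero.2 h1)
        refine hF.zero _ (not_cop.2 ⟨P, hPp, ?_, le_rfl⟩)
        rw [h0, ← Ideal.Quotient.eq_zero_iff_mem, mk_out] }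
  let ψ : AddChar (𝓞 K ⧸ P) ℂ :=
    { toFun := fun c => l (Quotient.out c)
      map_zero_eq_one' := by
        refine hl.triv _ ?_
        rw [← Ideal.Quotient.eq_zero_iff_mem, mk_out]
      map_add_eq_mul' := fun c d => by
        rw [← hl.add]
        refine hl.per ?_
        rw [← Ideal.Quotient.mk_eq_mk_iff_sub_mem, mk_out, map_add, mk_out, mk_out] }
  have hχ : ∀ x, χ (Ideal.Quotient.mk P x) = F x := fun x => hper _ _ (out_sub P x)
  have hχ1 : χ ≠ 1 := by
    intro h1
    obtain ⟨α, -, hα2, hα3⟩ := hF.prim ⊤ (lt_top_iff_ne_top.2 hPp.ne_top)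
    apply hα3
    rw [← hχ, h1, MulChar.one_apply]
    rw [isUnit_iff_ne_zero, Ne, Ideal.Quotient.eq_zero_iff_mem]
    intro h2
    exact not_cop.2 ⟨P, hPp, h2, le_rfl⟩ hα2
  have hh0 : Ideal.Quotient.mk P h ≠ 0 := by
    rwa [Ne, Ideal.Quotient.eq_zero_iff_mem]
  have h1 := Mix.mixed_all χ hχ1 ψ hh0
  rw [hcard]
  refine le_trans (le_of_eq ?_) h1
  congr 1
  unfold sQ
  refine sum_congr rfl fun c _ => ?_
  beta_reduce
  unfold DH
  have e1 : χ (c + Ideal.Quotient.mk P h) = F (Quotient.out c + h) := by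
    rw [← hχ, map_add (Ideal.Quotient.mk P), mk_out]
  rw [e1]
  rfl

/-- the Chinese remainder theorem -/
lemma sQ_crt {f m : Ideal (𝓞 K)} (hc : IsCoprime f m) [Fintype (𝓞 K ⧸ f)] [Fintype (𝓞 K ⧸ m)]
    [Fintype (𝓞 K ⧸ (f * m))] {g1 g2 : 𝓞 K → ℂ} (h1 : PerO f g1) (h2 : PerO m g2) :
    sQ (f * m) (fun x => g1 x * g2 x) = sQ f g1 * sQ m g2 := by
  have hfm : f * m ≤ f := Ideal.mul_le_left
  have hmm : f * m ≤ m := Ideal.mul_le_right
  unfold sQ
  rw [sum_mul_sum, ← sum_product']
  refine sum_bij (fun c _ => (Ideal.Quotient.mk f (Quotient.out c), Ideal.Quotient.mk m (Quotient.out c)))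
    (fun _ _ => by simp) (fun c _ d _ hcd => ?_) (fun c _ => ?_) (fun c _ => ?_)
  · rw [Prod.mk.injEq, Ideal.Quotient.mk_eq_mk_iff_sub_mem, Ideal.Quotient.mk_eq_mk_iff_sub_mem] at hcd
    rw [← mk_out (f * m) c, ← mk_out (f * m) d, Ideal.Quotient.mk_eq_mk_iff_sub_mem]
    have h3 : Quotient.out c - Quotient.out d ∈ f ⊓ m := hcd
    exact (le_of_eq (Ideal.inf_eq_mul_of_isCoprime hc)) h3
  · obtain ⟨e, he, he1⟩ := exists_e0 hc
    have h1e : (1 - e) ∈ m := by
      have := neg_mem he1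
      have e1 : -(e - 1) = 1 - e := by ring
      rwa [e1] at this
    set x : 𝓞 K := (1 - e) * Quotient.out c.1 + e * Quotient.out c.2 with hx
    refine ⟨Ideal.Quotient.mk (f * m) x, mem_univ _, ?_⟩
    have h3 := out_sub (f * m) x
    refine Prod.ext ?_ ?_
    · show Ideal.Quotient.mk f _ = c.1
      rw [← mk_out f c.1, Ideal.Quotient.mk_eq_mk_iff_sub_mem]
      have e1 : Quotient.out (Ideal.Quotient.mk (f * m) x) - Quotient.out c.1 =
          (Quotient.out (Ideal.Quotient.mk (f * m) x) - x) +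
          e * (Quotient.out c.2 - Quotient.out c.1) := by rw [hx]; ring
      rw [e1]
      exact add_mem (hfm h3) (Ideal.mul_mem_right _ _ he)
    · show Ideal.Quotient.mk m _ = c.2
      rw [← mk_out m c.2, Ideal.Quotient.mk_eq_mk_iff_sub_mem]
      have e1 : Quotient.out (Ideal.Quotient.mk (f * m) x) - Quotient.out c.2 =
          (Quotient.out (Ideal.Quotient.mk (f * m) x) - x) +
          (1 - e) * (Quotient.out c.1 - Quotient.out c.2) := by rw [hx]; ring
      rw [e1]
      exact add_mem (hmm h3) (Ideal.mul_mem_right _ _ h1e)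
  · beta_reduce
    rw [h1 _ _ (out_sub f (Quotient.out c)), h2 _ _ (out_sub m (Quotient.out c))]

lemma DH_per' {m : Ideal (𝓞 K)} {F : 𝓞 K → ℂ} (hF : PerO m F) (h : 𝓞 K) : PerO m (DH F h) := by
  intro x y hxy
  unfold DH
  rw [hF _ _ hxy, hF (x + h) (y + h) (by simpa using hxy)]

lemma tau_prime_mul {P a : Ideal (𝓞 K)} (hP : Prime P) (ha : a ≠ ⊥) (hPa : ¬ P ∣ a) :
    2 * tau a ≤ tau (P * a) := by
  classical
  have hPa0 : P * a ≠ ⊥ := mul_ne_zero hP.ne_zero ha
  unfold tau
  have h1 : dvs a ∪ (dvs a).image (fun d => P * d) ⊆ dvs (P * a) := by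
    intro d hd
    rw [mem_union, mem_image] at hd
    rw [mem_dvs hPa0]
    rcases hd with hd | ⟨d', hd', rfl⟩
    · exact ((mem_dvs ha).1 hd).mul_left P
    · exact mul_dvd_mul_left P ((mem_dvs ha).1 hd')
  have h2 : Disjoint (dvs a) ((dvs a).image (fun d => P * d)) := by
    rw [disjoint_left]
    intro d hd hd'
    rw [mem_image] at hd'
    obtain ⟨d', hd', rfl⟩ := hd'
    exact hPa ((dvd_mul_right P d').trans ((mem_dvs ha).1 hd))
  have h3 : ((dvs a).image (fun d => P * d)).card = (dvs a).card := by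
    refine card_image_of_injective _ fun d d' hd => ?_
    exact mul_left_cancel₀ hP.ne_zero hd
  calc 2 * (dvs a).card = (dvs a ∪ (dvs a).image (fun d => P * d)).card := by
        rw [card_union_of_disjoint h2, h3]; ring
    _ ≤ _ := card_le_card h1

lemma sqf_cop {P a : Ideal (𝓞 K)} (hP : Prime P) (h : Squarefree (P * a)) :
    ¬ P ∣ a ∧ IsCoprime P a := by
  have h1 : ¬ P ∣ a := by
    rintro ⟨d, rfl⟩
    have h2 := h P ⟨d, by ring⟩
    exact hP.not_unit h2
  refine ⟨h1, cop_prime.2 fun P' hP' h2 h3 => h1 ?_⟩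
  have h4 : P = P' := ((Ideal.isPrime_of_prime hP).isMaximal hP.ne_zero).eq_of_le hP'.ne_top h2
  rw [Ideal.dvd_iff_le, h4]
  exact h3

/-- the complete sums -/
theorem sQ_sqf (m : Ideal (𝓞 K)) : Squarefree m → m ≠ ⊥ → ∀ (_ : Fintype (𝓞 K ⧸ m))
    (F l : 𝓞 K → ℂ) (h : 𝓞 K), PM m F → AC m l → ∃ g, g ∣ m ∧ h ∈ g ∧
    ‖sQ m (fun x => DH F h x * l x)‖ ≤ tau m * √(Ideal.absNorm m) * √(Ideal.absNorm g) := by
  refine UniqueFactorizationMonoid.induction_on_prime m (fun _ h0 => absurd rfl h0)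
    (fun x hx _ hx0 _ F l h hF hl => ?_) (fun a P ha hP ih hsq h0 _ F l h hF hl => ?_)
  · rw [Ideal.isUnit_iff] at hx
    refine ⟨x, dvd_rfl, by rw [hx]; trivial, ?_⟩
    have h1 := sQ_le (b := x) (g := fun y => DH F h y * l y) (fun y => by
      rw [norm_mul, hl.norm, mul_one]
      exact hF.DH_le _ _)
    have h2 : (Ideal.absNorm x : ℝ) = 1 := by
      have : Ideal.absNorm x = 1 := Ideal.absNorm_eq_one_iff.2 hx
      exact_mod_cast this
    rw [h2] at h1 ⊢
    have h3 : (1 : ℝ) ≤ tau x := by exact_mod_cast tau_pos hx0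
    rw [Real.sqrt_one, mul_one, mul_one]
    exact h1.trans h3
  · have hsa : Squarefree a := Squarefree.of_mul_right hsq
    have ha0 : a ≠ ⊥ := ha
    have hP0 : P ≠ ⊥ := hP.ne_zero
    obtain ⟨hPa, hcop⟩ := sqf_cop hP hsq
    haveI : Finite (𝓞 K ⧸ a) := Ideal.finiteQuotientOfFreeOfNeBot a ha0
    haveI : Fintype (𝓞 K ⧸ a) := Fintype.ofFinite _
    haveI : Finite (𝓞 K ⧸ P) := Ideal.finiteQuotientOfFreeOfNeBot P hP0
    haveI : Fintype (𝓞 K ⧸ P) := Fintype.ofFinite _
    obtain ⟨e, he, he1⟩ := exists_e0 hcop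
    have h1e : (1 - e) ∈ a := by
      have := neg_mem he1
      have e1 : -(e - 1) = 1 - e := by ring
      rwa [e1] at this
    have hF1 : PM a (FA F e) := FA_PM hP0 hF he he1
    have hF2 : PM P (FA F (1 - e)) := by
      refine FA_PM ha0 (by rwa [mul_comm]) h1e ?_
      have e1 : 1 - e - 1 = -e := by ring
      rw [e1]
      exact neg_mem he
    have hl1 : AC a (fun x => l (e * x)) := by
      refine ⟨fun x y => ?_, fun x => hl.norm _, fun x hx => hl.triv _ (Ideal.mul_mem_mul he hx)⟩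
      beta_reduce
      rw [mul_add, hl.add]
    have hl2 : AC P (fun x => l ((1 - e) * x)) := by
      refine ⟨fun x y => ?_, fun x => hl.norm _, fun x hx => hl.triv _ ?_⟩
      · beta_reduce
        rw [mul_add, hl.add]
      · rw [mul_comm P a]
        exact Ideal.mul_mem_mul h1e hx
    obtain ⟨g, hg1, hg2, hg3⟩ := ih hsa ha0 inferInstance (FA F e) (fun x => l (e * x)) h hF1 hl1
    have e1 : (fun x => DH F h x * l x) = fun x => (DH (FA F (1 - e)) h x * l ((1 - e) * x)) *
        (DH (FA F e) h x * l (e * x)) := by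
      funext x
      have e2 : l x = l ((1 - e) * x) * l (e * x) := by
        rw [← hl.add]
        congr 1
        ring
      rw [e2]
      unfold DH
      rw [FA_prod hF he he1 (x + h), FA_prod hF he he1 x, map_mul]
      ring
    have hper1 : PerO P (fun x => DH (FA F (1 - e)) h x * l ((1 - e) * x)) := by
      intro x y hxy
      beta_reduce
      rw [DH_per' (fun x y hxy => hF2.per x y hxy) h x y hxy]
      congr 1
      exact hl2.per hxy
    have hper2 : PerO a (fun x => DH (FA F e) h x * l (e * x)) := by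
      intro x y hxy
      beta_reduce
      rw [DH_per' (fun x y hxy => hF1.per x y hxy) h x y hxy]
      congr 1
      exact hl1.per hxy
    have htau : (2 : ℝ) * tau a ≤ tau (P * a) := by exact_mod_cast tau_prime_mul hP ha0 hPa
    have hsN : √(Ideal.absNorm (P * a) : ℝ) = √(Ideal.absNorm P) * √(Ideal.absNorm a) := by
      rw [map_mul, Nat.cast_mul, Real.sqrt_mul (by positivity)]
    by_cases hh : h ∈ P
    · -- the trivial bound
      refine ⟨P * g, mul_dvd_mul_left P hg1, ?_, ?_⟩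
      · have h3 : IsCoprime P g := IsCoprime.of_isCoprime_of_dvd_right hcop hg1
        rw [← Ideal.inf_eq_mul_of_isCoprime h3]
        exact ⟨hh, hg2⟩
      · rw [e1, sQ_crt hcop hper1 hper2, norm_mul]
        have h4 := sQ_le (b := P) (g := fun y => DH (FA F (1 - e)) h y * l ((1 - e) * y)) (fun y => by
          rw [norm_mul, hl.norm, mul_one]
          exact hF2.DH_le _ _)
        have hsg : √(Ideal.absNorm (P * g) : ℝ) = √(Ideal.absNorm P) * √(Ideal.absNorm g) := by
          rw [map_mul, Nat.cast_mul, Real.sqrt_mul (by positivity)]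
        rw [hsN, hsg]
        have hPP : (Ideal.absNorm P : ℝ) = √(Ideal.absNorm P) * √(Ideal.absNorm P) :=
          (Real.mul_self_sqrt (by positivity)).symm
        have ht1 : (tau a : ℝ) ≤ tau (P * a) := by
          have : (0 : ℝ) ≤ tau a := by positivity
          linarith
        calc _ ≤ (Ideal.absNorm P : ℝ) * (tau a * √(Ideal.absNorm a) * √(Ideal.absNorm g)) :=
              mul_le_mul h4 hg3 (norm_nonneg _) (by positivity)
          _ = tau a * (√(Ideal.absNorm P) * √(Ideal.absNorm a) *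
              (√(Ideal.absNorm P) * √(Ideal.absNorm g))) := by
              conv_lhs => rw [hPP]
              ring
          _ ≤ tau (P * a) * (√(Ideal.absNorm P) * √(Ideal.absNorm a) *
              (√(Ideal.absNorm P) * √(Ideal.absNorm g))) :=
              mul_le_mul_of_nonneg_right ht1 (by positivity)
          _ = _ := by ring
    · refine ⟨g, hg1.mul_left P, hg2, ?_⟩
      rw [e1, sQ_crt hcop hper1 hper2, norm_mul]
      have h4 := loc_prime hP hF2 hl2 hh
      rw [hsN]
      calc _ ≤ (2 * √(Ideal.absNorm P)) * (tau a * √(Ideal.absNorm a) * √(Ideal.absNorm g)) :=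
            mul_le_mul h4 hg3 (norm_nonneg _) (by positivity)
        _ = (2 * tau a) * (√(Ideal.absNorm P) * √(Ideal.absNorm a) * √(Ideal.absNorm g)) := by ring
        _ ≤ tau (P * a) * (√(Ideal.absNorm P) * √(Ideal.absNorm a) * √(Ideal.absNorm g)) :=
            mul_le_mul_of_nonneg_right htau (by positivity)
        _ = _ := by ring

end Pool.Agent.T2H29.SW
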