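import Pool.Agent.T2H29.SW.M3

/-!
# The core bound of Weyl quality, squarefree moduli
-/

set_option autoImplicit false
set_option linter.unusedSectionVars false

namespace Pool.Agent.T2H29.SW

open Finset NumberField NumberField.InfinitePlace Module MeasureTheory NumberField.Units

variable {K : Type} [Field K] [NumberField K]

/-- the core bound -/
theorem coreS {B : ℝ} (hB1 : 1 ≤ B) (hB : CBI K B) : ∃ C : ℝ, 0 < C ∧
    ∀ (f m I : Ideal (𝓞 K)) (F1 F2 : 𝓞 K → ℂ) (b : Basis (Fin (dg K)) ℤ I) (x : LS K)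
    (c η : Fin (dg K) → ℝ), Squarefree m → m ≠ ⊥ → f ≠ ⊥ → IsCoprime f m → I ≠ ⊥ →
    IsCoprime I (f * m) → PM m F1 → PerO f F2 → (∀ x, ‖F2 x‖ ≤ 1) → mm I x.2 ≤ Ideal.absNorm m →
    ‖GS (AX b x) c (fun z => ee η z * (F2 (el b z) * F1 (el b z)))‖ ^ 2 ≤
      C * (tau m : ℝ) ^ 2 * (Ideal.absNorm f + √(Ideal.absNorm m)) * (1 + mm I x.2) := by
  classical
  haveI : Nonempty (Fin (dg K)) := ⟨0⟩
  obtain ⟨C1, hC10, hC1⟩ := nz_sum (ι := Fin (dg K)) (B := B) (by linarith)
  set w : ℝ := √2 ^ dg K with hw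
  have hw0 : 0 < w := by positivity
  have hB0 : 0 < B := by linarith
  refine ⟨B + 2 * B * C1 * w, by positivity,
    fun f m I F1 F2 b x c η hsq hm0 hf hfc hI hIc hF1 hF2 hF2n hM => ?_⟩
  have hNf := absNorm_pos' hf
  have hNm := absNorm_pos' hm0
  have hMM := mm_pos hI x.2
  have hτ1 : (1 : ℝ) ≤ tau m := by exact_mod_cast tau_pos hm0
  set M := mm I x.2 with hMdef
  have hfI : IsCoprime I f := IsCoprime.of_mul_right_left hIc
  have hmI : IsCoprime I m := IsCoprime.of_mul_right_right hIc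
  haveI : Finite (𝓞 K ⧸ f) := Ideal.finiteQuotientOfFreeOfNeBot f hf
  haveI : Fintype (𝓞 K ⧸ f) := Fintype.ofFinite _
  haveI : Finite (𝓞 K ⧸ m) := Ideal.finiteQuotientOfFreeOfNeBot _ hm0
  haveI : Fintype (𝓞 K ⧸ m) := Fintype.ofFinite _
  have hcard : (Fintype.card (𝓞 K ⧸ f) : ℝ) = Ideal.absNorm f := by
    have : Ideal.absNorm f = Fintype.card (𝓞 K ⧸ f) := by
      rw [Ideal.absNorm_apply, Submodule.cardQuot_apply, Nat.card_eq_fintype_card]
    rw [← this]
  have hI20 : I * f ≠ ⊥ := by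
    intro h
    rcases Ideal.mul_eq_bot.1 h with h1 | h1
    · exact hI h1
    · exact hf h1
  obtain ⟨b2⟩ := exists_bas (I * f) hI20
  have hle : I * f ≤ I := Ideal.mul_le_left
  have hsub := subLI b hfI b2 rfl hle
  set τ := tauI b b2 hle with hτdef
  have hA := det_AX_ne hI b x
  have hA2 := det_AX_ne hI20 b2 x
  have hs2 : ((√2)⁻¹ : ℝ) ≠ 0 := by positivity
  have hsA2 := smul_det_ne hs2 hA2
  set F : (Fin (dg K) → ℤ) → ℂ := fun z => ee η z * F1 (el b z) with hF
  set u : (Fin (dg K) → ℤ) → ℂ := fun z => F2 (el b z) with hu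
  have hFn : ∀ z, ‖F z‖ ≤ 1 := by
    intro z
    simp only [hF]
    rw [norm_mul, ee_norm, one_mul]
    exact hF1.le_one _
  have hut : ∀ z v, clsI f b z = clsI f b v → u z = u v := by
    intro z v h
    unfold clsI at h
    rw [Ideal.Quotient.mk_eq_mk_iff_sub_mem] at h
    exact hF2 _ _ h
  obtain ⟨-, hv⟩ := hsub.vdc_gs2 hA (fun t => AX_tau b b2 hle x t) c hFn (u := u)
    (fun z => hF2n _) hut
  have e0 : (fun z => ee η z * (F2 (el b z) * F1 (el b z))) = fun z => u z * F z := by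
    funext z
    simp only [hu, hF]
    ring
  rw [e0]
  set G2 : (Fin (dg K) → ℤ) → ℝ := gs ((√2)⁻¹ • AX b2 x) 0 with hG2
  have hG20 : ∀ t, 0 ≤ G2 t := fun t => (gs_pos _ _ _).le
  have hG2s : Summable G2 := gs_summable hsA2 0
  set T : (Fin (dg K) → ℤ) → ℝ := fun t => ‖GS ((√2) • AX b x) (c - (2 : ℝ)⁻¹ • cz (τ t))
    (DT τ (fun z => F1 (el b z)) t)‖ with hT
  have hT0 : ∀ t, 0 ≤ T t := fun t => norm_nonneg _
  have hs21 : (1 : ℝ) ≤ √2 := by rw [Real.one_le_sqrt]; norm_num
  have hsA := smul_det_ne (show (√2 : ℝ) ≠ 0 by positivity) hA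
  have hMs : Mv ((√2) • AX b x) ≤ M := Mv_s2 (by rw [Mv_AX])
  have hT1 : ∀ t, T t ≤ B * (1 + M) := by
    intro t
    refine (GS_le hsA _ (DT_norm (fun z => hF1.le_one _) t)).trans ?_
    refine (((hB I hI b x).smul (by positivity : (0 : ℝ) < √2)).one _).trans ?_
    exact mul_le_mul_of_nonneg_left (by linarith) hB0.le
  have hTs : Summable fun t => G2 t * T t := by
    refine Summable.of_nonneg_of_le (fun t => mul_nonneg (hG20 t) (hT0 t))
      (fun t => mul_le_mul_of_nonneg_left (hT1 t) (hG20 t)) (hG2s.mul_right _)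
  have hn1 : ‖∑' t, (gs ((√2)⁻¹ • AX b2 x) 0 t : ℂ) *
      GS ((√2) • AX b x) (c - (2 : ℝ)⁻¹ • cz (τ t)) (DT τ F t)‖ ≤ ∑' t, G2 t * T t := by
    refine tsum_of_norm_bounded hTs.hasSum fun t => ?_
    rw [norm_mul, Complex.norm_real, Real.norm_of_nonneg (hG20 t), GS_DT_ee]
  -- the inner sums
  set Kc : ℝ := 2 * B * (tau m * √(Ideal.absNorm m)) with hKc
  have hKc0 : 0 ≤ Kc := by positivity
  have hDT : ∀ t, DT τ (fun z => F1 (el b z)) t = fun z => DH F1 (el b2 t) (el b z) := by
    intro t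
    funext z
    unfold DT DH
    beta_reduce
    rw [hτdef, el_addd, el_tauI]
  have hTd : ∀ t, T t ≤ Kc * ∑ d ∈ dvs m, (if el b2 t ∈ d then √(Ideal.absNorm d : ℝ) else 0) := by
    intro t
    set h := el b2 t with hh
    have key : ∀ W : ℝ, 0 ≤ W → (∀ l, AC m l → ‖sQ m (fun x => DH F1 h x * l x)‖ ≤
        tau m * √(Ideal.absNorm m) * W) → T t ≤ Kc * W := by
      intro W hW0 hW1
      have h1 := compI hB hI hm0 hmI b (g := DH F1 h) (hF1.DH_le h)
        (DH_per' (fun x y hxy => hF1.per x y hxy) h)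
        (k := tau m * √(Ideal.absNorm m) * W) hW1 x hs21 (c - (2 : ℝ)⁻¹ • cz (τ t)) 0
      simp_rw [ee_zero, one_mul] at h1
      simp only [hT]
      rw [hDT]
      refine h1.trans ?_
      have h4 : M / Ideal.absNorm m ≤ 1 := (div_le_one hNm).2 hM
      have h5 : 0 ≤ (tau m : ℝ) * √(Ideal.absNorm m) * W := by positivity
      have h6 : B * (1 + M / Ideal.absNorm m) ≤ B * (1 + 1) :=
        mul_le_mul_of_nonneg_left (by linarith) hB0.le
      refine (mul_le_mul_of_nonneg_left h6 h5).trans (le_of_eq ?_)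
      rw [hKc]
      ring
    refine key _ (sum_nonneg fun d _ => ?_) (fun l hl => ?_)
    · split_ifs
      · positivity
      · exact le_rfl
    · obtain ⟨g, hg1, hg2, hg3⟩ := sQ_sqf m hsq hm0 inferInstance F1 l h hF1 hl
      refine hg3.trans ?_
      have h3 := single_le_sum (f := fun d => (if h ∈ d then √(Ideal.absNorm d : ℝ) else 0))
        (fun d _ => by
          beta_reduce
          split_ifs
          · positivity
          · exact le_rfl) ((mem_dvs hm0).2 hg1)
      beta_reduce at h3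
      rw [if_pos hg2] at h3
      exact mul_le_mul_of_nonneg_left h3 (by positivity)
  -- the pointwise bound
  have hpt : ∀ t, G2 t * T t ≤ (if t = 0 then B * (1 + M) else 0) +
      ∑ d ∈ dvs m, Kc * √(Ideal.absNorm d : ℝ) * (PS b2 d).indicator G2 t := by
    intro t
    have hS0 : 0 ≤ ∑ d ∈ dvs m, Kc * √(Ideal.absNorm d : ℝ) * (PS b2 d).indicator G2 t :=
      sum_nonneg fun d _ => mul_nonneg (by positivity) (Set.indicator_nonneg (fun t _ => hG20 t) t)
    by_cases ht : t = 0
    · rw [if_pos ht]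
      have h1 : G2 t = 1 := by rw [ht, hG2, gs_zero]
      rw [h1, one_mul]
      have := hT1 t
      linarith
    · rw [if_neg ht, zero_add]
      calc G2 t * T t ≤ G2 t * (Kc * ∑ d ∈ dvs m,
            (if el b2 t ∈ d then √(Ideal.absNorm d : ℝ) else 0)) :=
            mul_le_mul_of_nonneg_left (hTd t) (hG20 t)
        _ = _ := by
            rw [mul_sum, mul_sum]
            refine sum_congr rfl fun d _ => ?_
            by_cases hd : el b2 t ∈ d
            · have h1 : t ∈ PS b2 d := ⟨ht, hd⟩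
              rw [if_pos hd, Set.indicator_of_mem h1]
              ring
            · have h1 : t ∉ PS b2 d := fun h => hd h.2
              rw [if_neg hd, Set.indicator_of_notMem h1]
              ring
  -- the sums over the shifts
  have hsd : ∀ d ∈ dvs m, (Summable fun t => (PS b2 d).indicator G2 t) ∧
      ∑' t, (PS b2 d).indicator G2 t ≤
        C1 * (w * (M / (Ideal.absNorm f * Ideal.absNorm d))) := by
    intro d hd
    obtain ⟨d', hd'⟩ := (mem_dvs hm0).1 hd
    have hd0 : d ≠ ⊥ := (ne_bot_mul (hd' ▸ hm0)).1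
    have hfd : IsCoprime f d := by
      rw [hd'] at hfc
      exact IsCoprime.of_mul_right_left hfc
    have hId : IsCoprime I (f * d) := by
      have e1 : f * m = (f * d) * d' := by
        conv_lhs => rw [hd']
        ring
      rw [e1] at hIc
      exact IsCoprime.of_mul_right_left hIc
    exact shift_sum hB hC1 hI hf hd0 hId hfd hle Ideal.mul_le_right b2 x
  have htot : ∑' t, G2 t * T t ≤ B * (1 + M) + ∑ d ∈ dvs m, Kc * √(Ideal.absNorm d : ℝ) *
      (C1 * (w * (M / (Ideal.absNorm f * Ideal.absNorm d)))) := by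
    have hsm : ∀ d ∈ dvs m, Summable fun t =>
        Kc * √(Ideal.absNorm d : ℝ) * (PS b2 d).indicator G2 t := fun d hd => (hsd d hd).1.mul_left _
    have hs1 : Summable fun t : Fin (dg K) → ℤ => (if t = 0 then B * (1 + M) else 0) :=
      (hasSum_ite_eq 0 _).summable
    calc ∑' t, G2 t * T t ≤ ∑' t, ((if t = 0 then B * (1 + M) else 0) +
          ∑ d ∈ dvs m, Kc * √(Ideal.absNorm d : ℝ) * (PS b2 d).indicator G2 t) :=
          hTs.tsum_le_tsum hpt (hs1.add (summable_sum hsm))
      _ = B * (1 + M) + ∑ d ∈ dvs m, Kc * √(Ideal.absNorm d : ℝ) *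
          ∑' t, (PS b2 d).indicator G2 t := by
          rw [Summable.tsum_add hs1 (summable_sum hsm), (hasSum_ite_eq 0 (B * (1 + M))).tsum_eq,
            Summable.tsum_finsetSum hsm]
          congr 1
          refine sum_congr rfl fun d _ => ?_
          rw [tsum_mul_left]
      _ ≤ _ := by
          refine add_le_add le_rfl (sum_le_sum fun d hd => ?_)
          exact mul_le_mul_of_nonneg_left (hsd d hd).2 (by positivity)
  have hsum : ∑ d ∈ dvs m, Kc * √(Ideal.absNorm d : ℝ) *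
      (C1 * (w * (M / (Ideal.absNorm f * Ideal.absNorm d)))) ≤
      tau m * (Kc * (C1 * (w * (M / Ideal.absNorm f)))) := by
    unfold tau
    rw [← nsmul_eq_mul, ← sum_const]
    refine sum_le_sum fun d hd => ?_
    obtain ⟨d', hd'⟩ := (mem_dvs hm0).1 hd
    have hd0 : d ≠ ⊥ := (ne_bot_mul (hd' ▸ hm0)).1
    have hNd := absNorm_pos' hd0
    have hNd1 : (1 : ℝ) ≤ Ideal.absNorm d := by exact_mod_cast nrm_pos hd0
    have h1 : √(Ideal.absNorm d : ℝ) ≤ Ideal.absNorm d := by
      rw [Real.sqrt_le_left (by positivity)]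
      nlinarith
    have h2 : 0 ≤ C1 * (w * (M / (Ideal.absNorm f * Ideal.absNorm d))) := by positivity
    calc Kc * √(Ideal.absNorm d : ℝ) * (C1 * (w * (M / (Ideal.absNorm f * Ideal.absNorm d)))) ≤
          Kc * (Ideal.absNorm d : ℝ) * (C1 * (w * (M / (Ideal.absNorm f * Ideal.absNorm d)))) :=
          mul_le_mul_of_nonneg_right (mul_le_mul_of_nonneg_left h1 hKc0) h2
      _ = Kc * (C1 * (w * (M / Ideal.absNorm f))) := by
          field_simp
  have htot2 := htot.trans (add_le_add le_rfl hsum)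
  set t1 : ℝ := ((tau m : ℕ) : ℝ) with ht1
  set Nf : ℝ := ((Ideal.absNorm f : ℕ) : ℝ) with hNfd
  set Nm : ℝ := √((Ideal.absNorm m : ℕ) : ℝ) with hNmd
  have hNm0 : 0 ≤ Nm := Real.sqrt_nonneg _
  have ht2 : t1 ≤ t1 ^ 2 := by nlinarith
  have ht3 : 1 ≤ t1 ^ 2 := one_le_pow₀ hτ1
  calc ‖GS (AX b x) c (fun z => u z * F z)‖ ^ 2 ≤ Nf * (B * (1 + M) +
        t1 * (Kc * (C1 * (w * (M / Nf))))) := by
        rw [hcard] at hv
        exact hv.trans (mul_le_mul_of_nonneg_left (hn1.trans htot2) (by positivity))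
    _ = B * (Nf * (1 + M)) + 2 * B * C1 * w * (t1 ^ 2 * (Nm * M)) := by
        rw [hKc]
        field_simp
    _ ≤ B * (t1 ^ 2 * ((Nf + Nm) * (1 + M))) +
        2 * B * C1 * w * (t1 ^ 2 * ((Nf + Nm) * (1 + M))) := by
        refine add_le_add ?_ ?_
        · refine mul_le_mul_of_nonneg_left ?_ (by positivity)
          calc Nf * (1 + M) ≤ 1 * ((Nf + Nm) * (1 + M)) := by
                rw [one_mul]
                exact mul_le_mul_of_nonneg_right (by linarith) (by positivity)
            _ ≤ _ := mul_le_mul_of_nonneg_right ht3 (by positivity)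
        · refine mul_le_mul_of_nonneg_left ?_ (by positivity)
          refine mul_le_mul_of_nonneg_left ?_ (by positivity)
          nlinarith
    _ = _ := by ring

end Pool.Agent.T2H29.SW
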