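import Pool.Agent.T2H29.SW.L17

/-!
# Packing: lattices with large minimum are balanced
-/

set_option autoImplicit false
set_option linter.unusedSectionVars false

namespace Pool.Agent.T2H29.SW

open Finset MeasureTheory

variable {ι : Type} [Fintype ι] [DecidableEq ι]

/-- the number of lattice points, counted with Gaussian weights -/
theorem pack (ι : Type) [Fintype ι] [DecidableEq ι] [Nonempty ι] : ∃ C : ℝ, 0 < C ∧
    ∀ (A : Matrix ι ι ℝ), A.det ≠ 0 → ∀ lam : ℝ, 0 < lam → lam ≤ 1 →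
    (∀ z : ι → ℤ, z ≠ 0 → lam ^ 2 ≤ q A (cz z)) → ∀ c : ι → ℝ,
    ∑' z, gs A c z ≤ C / lam ^ Fintype.card ι := by
  set n := Fintype.card ι with hn
  have hn1 : 1 ≤ n := Fintype.card_pos
  have hn0 : (0 : ℝ) < n := by exact_mod_cast hn1
  set g : (ι → ℝ) → ℝ := fun y => Real.exp (-(Real.pi * q ((√2)⁻¹ • (1 : Matrix ι ι ℝ)) y)) with hg
  have hdet : ((√2)⁻¹ • (1 : Matrix ι ι ℝ)).det ≠ 0 := smul_det_ne (by positivity) (by simp)
  have hgi : Integrable g := by
    have h1 := (int_q hdet).re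
    refine h1.congr (Filter.Eventually.of_forall fun y => ?_)
    exact Complex.ofReal_re _
  have hg0 : ∀ y, 0 ≤ g y := fun y => (Real.exp_pos _).le
  have hgq : ∀ y, g y = Real.exp (-(Real.pi / 2 * ∑ i, y i ^ 2)) := by
    intro y
    simp only [hg]
    rw [q_smul, inv_pow, Real.sq_sqrt (by norm_num)]
    congr 2
    unfold q
    rw [Matrix.one_mulVec]
    ring
  set I0 := ∫ y, g y with hI0
  have hI00 : 0 ≤ I0 := integral_nonneg hg0
  refine ⟨Real.exp (Real.pi / 4) * (I0 + 1) * (√n) ^ n, by positivity,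
    fun A hA lam h0 h1 hsep c => ?_⟩
  set h : ℝ := lam / (2 * √n) with hh
  have hsn : 0 < √(n : ℝ) := Real.sqrt_pos.2 hn0
  have hh0 : 0 < h := by positivity
  have hnh : (n : ℝ) * h ^ 2 = lam ^ 2 / 4 := by
    rw [hh, div_pow, mul_pow, Real.sq_sqrt hn0.le]
    field_simp
    norm_num
  set w : (ι → ℤ) → ι → ℝ := fun z => A.mulVec (cz z - c) with hw
  have hqw : ∀ z, q A (cz z - c) = ∑ i, w z i ^ 2 := fun z => rfl
  -- pointwise
  have hpt : ∀ z, ∀ y ∈ Metric.ball (w z) h, gs A c z ≤ Real.exp (Real.pi / 4) * g y := by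
    intro z y hy
    rw [hgq, ← Real.exp_add]
    unfold gs
    rw [Real.exp_le_exp, hqw]
    have h2 : ∀ i, |y i - w z i| < h := by
      intro i
      have := (dist_pi_lt_iff hh0).1 hy i
      rwa [Real.dist_eq] at this
    have h3 : ∀ i, y i ^ 2 / 2 - h ^ 2 ≤ w z i ^ 2 := by
      intro i
      have h4 : (y i - w z i) ^ 2 ≤ h ^ 2 := by
        rw [← sq_abs]
        exact pow_le_pow_left₀ (abs_nonneg _) (h2 i).le 2
      nlinarith [sq_nonneg (y i - 2 * w z i)]
    have h5 : ∑ i, (y i ^ 2 / 2 - h ^ 2) ≤ ∑ i, w z i ^ 2 := sum_le_sum fun i _ => h3 i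
    rw [sum_sub_distrib, sum_const, card_univ, nsmul_eq_mul, ← hn, hnh, ← sum_div] at h5
    have h6 : lam ^ 2 ≤ 1 := pow_le_one₀ h0.le h1
    have hpi := Real.pi_pos
    have h7 : (∑ i, y i ^ 2) / 2 - 1 / 4 ≤ ∑ i, w z i ^ 2 := by linarith
    have h8 := mul_le_mul_of_nonneg_left h7 hpi.le
    linarith
  -- disjointness
  have hdisj : ∀ z z', z ≠ z' → Disjoint (Metric.ball (w z) h) (Metric.ball (w z') h) := by
    intro z z' hne
    rw [Set.disjoint_left]
    intro y hy hy'
    have h2 : ∀ i, |y i - w z i| < h := by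
      intro i
      have := (dist_pi_lt_iff hh0).1 hy i
      rwa [Real.dist_eq] at this
    have h2' : ∀ i, |y i - w z' i| < h := by
      intro i
      have := (dist_pi_lt_iff hh0).1 hy' i
      rwa [Real.dist_eq] at this
    have h3 := hsep (z - z') (sub_ne_zero.2 hne)
    have h4 : q A (cz (z - z')) = ∑ i, (w z i - w z' i) ^ 2 := by
      unfold q
      refine sum_congr rfl fun i _ => ?_
      have e1 : cz (z - z') = (cz z - c) - (cz z' - c) := by funext i; simp [cz]
      rw [e1, Matrix.mulVec_sub, Pi.sub_apply]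
    have h5 : ∀ i, (w z i - w z' i) ^ 2 < (2 * h) ^ 2 := by
      intro i
      rw [sq_lt_sq, abs_of_pos (show 0 < 2 * h by positivity)]
      have e1 : w z i - w z' i = (y i - w z' i) - (y i - w z i) := by ring
      rw [e1]
      have := abs_sub (y i - w z' i) (y i - w z i)
      linarith [h2 i, h2' i]
    have h6 : ∑ i, (w z i - w z' i) ^ 2 < ∑ i : ι, (2 * h) ^ 2 :=
      sum_lt_sum_of_nonempty univ_nonempty fun i _ => h5 i
    rw [sum_const, card_univ, nsmul_eq_mul, ← hn, mul_pow] at h6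
    nlinarith
  have hvol : ∀ z, (volume (Metric.ball (w z) h)).toReal = (2 * h) ^ n := by
    intro z
    rw [Real.volume_pi_ball _ hh0, ENNReal.toReal_ofReal (by positivity)]
  have hball : ∀ z, (2 * h) ^ n * gs A c z ≤ Real.exp (Real.pi / 4) * ∫ y in Metric.ball (w z) h, g y := by
    intro z
    have h2 : ∫ y in Metric.ball (w z) h, gs A c z ≤ ∫ y in Metric.ball (w z) h,
        Real.exp (Real.pi / 4) * g y := by
      refine setIntegral_mono_on ?_ ((hgi.const_mul _).integrableOn) measurableSet_ball (hpt z)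
      refine integrableOn_const ?_
      rw [Real.volume_pi_ball _ hh0]
      exact ENNReal.ofReal_ne_top
    rw [setIntegral_const, smul_eq_mul, measureReal_def, hvol, integral_const_mul] at h2
    exact h2
  refine Real.tsum_le_of_sum_le (fun z => (gs_pos _ _ _).le) fun s => ?_
  have h2 : (2 * h) ^ n * ∑ z ∈ s, gs A c z ≤ Real.exp (Real.pi / 4) * I0 := by
    calc (2 * h) ^ n * ∑ z ∈ s, gs A c z = ∑ z ∈ s, (2 * h) ^ n * gs A c z := by rw [mul_sum]
      _ ≤ ∑ z ∈ s, Real.exp (Real.pi / 4) * ∫ y in Metric.ball (w z) h, g y :=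
          sum_le_sum fun z _ => hball z
      _ = Real.exp (Real.pi / 4) * ∫ y in ⋃ z ∈ s, Metric.ball (w z) h, g y := by
          rw [← mul_sum]
          congr 1
          rw [integral_biUnion_finset s (fun z _ => measurableSet_ball)]
          · intro z _ z' _ hne
            exact hdisj z z' hne
          · intro z _
            exact hgi.integrableOn
      _ ≤ Real.exp (Real.pi / 4) * I0 := by
          refine mul_le_mul_of_nonneg_left ?_ (Real.exp_pos _).le
          exact setIntegral_le_integral hgi (Filter.Eventually.of_forall hg0)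
  have h3 : 0 < (2 * h) ^ n := by positivity
  have h4 : ∑ z ∈ s, gs A c z ≤ Real.exp (Real.pi / 4) * I0 / (2 * h) ^ n := by
    rw [le_div_iff₀ h3]; linarith
  refine h4.trans ?_
  have h5 : (2 * h) ^ n = lam ^ n / (√n) ^ n := by
    rw [← div_pow]
    congr 1
    rw [hh]; field_simp
  rw [h5, div_div_eq_mul_div]
  refine div_le_div_of_nonneg_right ?_ (by positivity)
  refine mul_le_mul_of_nonneg_right ?_ (by positivity)
  exact mul_le_mul_of_nonneg_left (by linarith) (Real.exp_pos _).le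

/-- lattices whose minimum is as large as it can be, up to a constant -/
theorem cb_min (ι : Type) [Fintype ι] [DecidableEq ι] [Nonempty ι] {κ : ℝ} (hκ : 0 < κ) :
    ∃ B : ℝ, 1 ≤ B ∧ ∀ (A : Matrix ι ι ℝ), A.det ≠ 0 →
    (∀ z : ι → ℤ, z ≠ 0 → κ * A.det ^ 2 ≤ q A (cz z) ^ Fintype.card ι) → CB B A := by
  obtain ⟨C, hC0, hC⟩ := pack ι
  set n := Fintype.card ι with hn
  have hn1 : 1 ≤ n := Fintype.card_pos
  refine ⟨max 1 (C * (1 + (√κ)⁻¹)), le_max_left _ _, fun A hA hsep t ht c => ?_⟩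
  have htd : (t • A).det ≠ 0 := smul_det_ne ht.ne' hA
  have hM := Mv_pos htd
  have hsq : 0 < √κ := Real.sqrt_pos.2 hκ
  -- `lam ^ n = min 1 (√κ |det|)`
  set y := min 1 (√κ * |(t • A).det|) with hy
  have hy0 : 0 < y := lt_min one_pos (mul_pos hsq (abs_pos.2 htd))
  have hy1 : y ≤ 1 := min_le_left _ _
  set lam := y ^ ((n : ℝ)⁻¹) with hlam
  have hlam0 : 0 < lam := Real.rpow_pos_of_pos hy0 _
  have hlam1 : lam ≤ 1 := Real.rpow_le_one hy0.le hy1 (by positivity)
  have hlamn : lam ^ n = y := by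
    rw [hlam, ← Real.rpow_natCast, ← Real.rpow_mul hy0.le, inv_mul_cancel₀ (by positivity),
      Real.rpow_one]
  have hsep2 : ∀ z : ι → ℤ, z ≠ 0 → lam ^ 2 ≤ q (t • A) (cz z) := by
    intro z hz
    refine le_of_pow_le_pow_left₀ (n := n) (by omega) (q_nonneg _ _) ?_
    rw [← pow_mul, mul_comm 2 n, pow_mul, hlamn, q_smul, mul_pow]
    have h1 := hsep z hz
    have h2 : y ^ 2 ≤ κ * (t • A).det ^ 2 := by
      calc y ^ 2 ≤ (√κ * |(t • A).det|) ^ 2 := pow_le_pow_left₀ hy0.le (min_le_right _ _) 2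
        _ = _ := by rw [mul_pow, Real.sq_sqrt hκ.le, sq_abs]
    refine h2.trans ?_
    rw [Matrix.det_smul, ← hn, mul_pow, ← pow_mul, mul_comm n 2, pow_mul]
    have h3 : 0 ≤ (t ^ 2) ^ n := by positivity
    nlinarith
  refine (hC (t • A) htd lam hlam0 hlam1 hsep2 c).trans ?_
  rw [hlamn]
  have h4 : 1 / y ≤ (1 + (√κ)⁻¹) * (1 + Mv (t • A)) := by
    have hk0 : 0 < (√κ)⁻¹ := inv_pos.2 hsq
    rcases le_total 1 (√κ * |(t • A).det|) with h | h
    · have : y = 1 := min_eq_left h
      rw [this, div_one]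
      nlinarith
    · have : y = √κ * |(t • A).det| := min_eq_right h
      rw [this, one_div, mul_inv]
      have e1 : |(t • A).det|⁻¹ = Mv (t • A) := rfl
      rw [e1]
      nlinarith
  have hmax : C * (1 + (√κ)⁻¹) ≤ max 1 (C * (1 + (√κ)⁻¹)) := le_max_right _ _
  calc C / y = C * (1 / y) := by ring
    _ ≤ C * ((1 + (√κ)⁻¹) * (1 + Mv (t • A))) := mul_le_mul_of_nonneg_left h4 hC0.le
    _ = C * (1 + (√κ)⁻¹) * (1 + Mv (t • A)) := by ring
    _ ≤ _ := mul_le_mul_of_nonneg_right hmax (by positivity)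

end Pool.Agent.T2H29.SW
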