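import Pool.Agent.T2H29.SW.N9

/-!
# The theta function of a Hecke character
-/

set_option autoImplicit false
set_option linter.unusedSectionVars false

namespace Pool.Agent.T2H29.SW

open Finset NumberField NumberField.InfinitePlace Module MeasureTheory NumberField.Units

variable {K : Type} [Field K] [NumberField K]

/-- the archimedean factor -/
noncomputable def WW (s : ℂ) (τ : InfinitePlace K → ℝ) (x : LS K) : ℂ :=
  ∏ w, Complex.exp (sw K s τ w * UU K x w)

lemma WW_eq (s : ℂ) (τ : InfinitePlace K → ℝ) (x : LS K) : WW s τ x =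
    Complex.exp (s * (dg K * x.2 / 2 : ℝ)) * WW 0 τ x := by
  unfold WW
  rw [← Complex.exp_sum, ← Complex.exp_sum, ← Complex.exp_add]
  congr 1
  have h1 : s * (dg K * x.2 / 2 : ℝ) = ∑ w : InfinitePlace K, s / 2 * ((mult w : ℂ) * UU K x w) := by
    rw [← mul_sum]
    have h2 : (∑ w : InfinitePlace K, (mult w : ℂ) * (UU K x w : ℂ)) = ((dg K * x.2 : ℝ) : ℂ) := by
      rw [← UU_sum]
      push_cast
      rfl
    rw [h2]
    push_cast
    ring
  rw [h1, ← sum_add_distrib]
  refine sum_congr rfl fun w _ => ?_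
  unfold sw
  ring

lemma WW_norm (s : ℂ) (τ : InfinitePlace K → ℝ) (x : LS K) : ‖WW s τ x‖ =
    Real.exp (s.re * (dg K * x.2 / 2)) := by
  have h : ‖WW 0 τ x‖ = 1 := by
    unfold WW
    rw [norm_prod]
    refine prod_eq_one fun w _ => ?_
    rw [Complex.norm_exp]
    have : (sw K 0 τ w * (UU K x w : ℂ)).re = 0 := by
      rw [Complex.re_mul_ofReal, sw_re]
      simp
    rw [this, Real.exp_zero]
  rw [WW_eq, norm_mul, h, mul_one, Complex.norm_exp, Complex.re_mul_ofReal]

/-- the theta function -/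
noncomputable def Th {I : Ideal (𝓞 K)} (b : Basis (Fin (dg K)) ℤ I) (o : Fin (dg K)) {N : ℕ}
    (ψ : DirichletCharacter ℂ N) (x : LS K) : ℂ := GS (AX b x) 0 (fun z => ψ (z o : ZMod N))

variable {P : Ideal (𝓞 K)} {p ν : ℕ} {τ : InfinitePlace K → ℝ} {χ : Ideal (𝓞 K) →* ℂ}
  {ρ : 𝓞 K →+* ZMod (p ^ ν)}

/-- the terms of the theta function -/
lemma TT_el (s : ℂ) {I : Ideal (𝓞 K)} {b : Basis (Fin (dg K)) ℤ I} {o : Fin (dg K)}
    {u : ZMod (p ^ ν)} (hu : ∀ z, ρ (el b z) = (z o : ZMod (p ^ ν)) * u)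
    {ψ : DirichletCharacter ℂ (p ^ ν)} (hν : 1 < p ^ ν)
    (hψ : ∀ α : 𝓞 K, χ (Ideal.span {α}) = ψ (ρ α) * infT τ (α : K)) (z : Fin (dg K) → ℤ) (x : LS K) :
    TT s τ χ (el b z) x = ψ u * ((gs (AX b x) 0 z : ℂ) * ψ (z o : ZMod (p ^ ν))) * WW s τ x := by
  haveI : Fact (1 < p ^ ν) := ⟨hν⟩
  by_cases hz : el b z = 0
  · have h1 := hu z
    rw [hz, map_zero] at h1
    have h2 : ψ ((z o : ZMod (p ^ ν)) * u) = 0 := by rw [← h1]; exact MulChar.map_zero ψ
    rw [map_mul] at h2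
    unfold TT
    rw [hψ, hz, map_zero, MulChar.map_zero]
    have h3 : ψ u * ((gs (AX b x) 0 z : ℂ) * ψ (z o : ZMod (p ^ ν))) * WW s τ x =
      (gs (AX b x) 0 z : ℂ) * WW s τ x * (ψ (z o : ZMod (p ^ ν)) * ψ u) := by ring
    rw [h3, h2]
    ring
  · have hz' : (el b z : K) ≠ 0 := by exact_mod_cast hz
    have h4 := infT_ne τ hz'
    unfold TT fg
    rw [hψ, hu, map_mul]
    have h5 : Complex.exp (-(Real.pi * ∑ w, Real.exp (UU K x w) * (mult w * (w (el b z : K)) ^ 2) : ℝ)) =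
        (gs (AX b x) 0 z : ℂ) := by
      unfold gs AX
      rw [sub_zero, q_MX (fun w => (Real.exp_pos _).le)]
      push_cast
      rfl
    rw [h5]
    unfold WW
    field_simp

/-- the sum of the terms -/
lemma TT_sum (s : ℂ) {I : Ideal (𝓞 K)} (hI : I ≠ ⊥) {b : Basis (Fin (dg K)) ℤ I} {o : Fin (dg K)}
    {u : ZMod (p ^ ν)} (hu : ∀ z, ρ (el b z) = (z o : ZMod (p ^ ν)) * u)
    {ψ : DirichletCharacter ℂ (p ^ ν)} (hν : 1 < p ^ ν)
    (hψ : ∀ α : 𝓞 K, χ (Ideal.span {α}) = ψ (ρ α) * infT τ (α : K)) (x : LS K) :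
    HasSum (fun z => TT s τ χ (el b z) x) (ψ u * Th b o ψ x * WW s τ x) := by
  have h1 := (GS_summable (det_AX_ne hI b x) 0 (F := fun z => ψ (z o : ZMod (p ^ ν)))
    (fun z => ψ.norm_le_one _)).of_norm.hasSum
  have h2 := (h1.mul_left (ψ u)).mul_right (WW s τ x)
  refine h2.congr_fun ?_ |> id
  intro z
  exact (TT_el s hu hν hψ z x)

lemma AX_cont {I : Ideal (𝓞 K)} (b : Basis (Fin (dg K)) ℤ I) (i j : Fin (dg K)) :
    Continuous fun x : LS K => AX b x i j := by
  unfold AX MX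
  have h : Continuous fun x : LS K => UU K x (plc K i) := by
    have : (fun x : LS K => UU K x (plc K i)) = fun x => x.2 + 2 * ∑ j, x.1 j * lu K j (plc K i) := by
      funext x; rfl
    rw [this]
    fun_prop
  exact ((Real.continuous_exp.comp h).sqrt).mul continuous_const

lemma gs_cont {I : Ideal (𝓞 K)} (b : Basis (Fin (dg K)) ℤ I) (z : Fin (dg K) → ℤ) :
    Continuous fun x : LS K => gs (AX b x) 0 z := by
  unfold gs q Matrix.mulVec dotProduct
  have h := AX_cont b
  refine Real.continuous_exp.comp ?_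
  refine Continuous.neg ?_
  refine continuous_const.mul ?_
  refine continuous_finsetSum _ fun i _ => ?_
  refine Continuous.pow ?_ 2
  refine continuous_finsetSum _ fun j _ => ?_
  exact (h i j).mul continuous_const

lemma Th_meas {I : Ideal (𝓞 K)} (hI : I ≠ ⊥) (b : Basis (Fin (dg K)) ℤ I) (o : Fin (dg K)) {N : ℕ}
    (ψ : DirichletCharacter ℂ N) : Measurable (Th b o ψ) := by
  have h1 : ∀ s : Finset (Fin (dg K) → ℤ), Measurable fun x : LS K =>
      ∑ z ∈ s, (gs (AX b x) 0 z : ℂ) * ψ (z o : ZMod N) := by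
    intro s
    refine Finset.measurable_sum _ fun z _ => ?_
    exact (Complex.measurable_ofReal.comp (gs_cont b z).measurable).mul_const _
  refine measurable_of_tendsto_metrizable' Filter.atTop h1 ?_
  rw [tendsto_pi_nhds]
  intro x
  have h2 := (GS_summable (det_AX_ne hI b x) 0 (F := fun z => ψ (z o : ZMod N))
    (fun z => ψ.norm_le_one _)).of_norm.hasSum
  exact h2

lemma WW_cont (s : ℂ) (τ : InfinitePlace K → ℝ) : Continuous (WW s τ : LS K → ℂ) := by
  unfold WW
  refine continuous_finsetProd _ fun w _ => ?_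
  refine Complex.continuous_exp.comp ?_
  refine continuous_const.mul (Complex.continuous_ofReal.comp ?_)
  have : (fun x : LS K => UU K x w) = fun x => x.2 + 2 * ∑ j, x.1 j * lu K j w := by
    funext x; rfl
  rw [this]
  fun_prop

end Pool.Agent.T2H29.SW
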