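import Pool.Agent.T2H29.SW.N10

/-!
# Decay of the theta function
-/

set_option autoImplicit false
set_option linter.unusedSectionVars false

namespace Pool.Agent.T2H29.SW

open Finset NumberField NumberField.InfinitePlace Module MeasureTheory NumberField.Units

lemma ea_int {a : ℝ} (ha : 0 < a) : Integrable (fun t : ℝ => Real.exp (-(a * |t|))) := by
  have h1 : IntegrableOn (fun t : ℝ => Real.exp (-(a * |t|))) (Set.Iic 0) := by
    refine (integrableOn_exp_mul_Iic ha 0).congr_fun (fun t ht => ?_) measurableSet_Iic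
    simp only
    rw [abs_of_nonpos ht]
    congr 1
    ring
  have h2 : IntegrableOn (fun t : ℝ => Real.exp (-(a * |t|))) (Set.Ioi 0) := by
    refine (integrableOn_exp_mul_Ioi (neg_lt_zero.2 ha) 0).congr_fun (fun t ht => ?_) measurableSet_Ioi
    simp only
    rw [abs_of_pos ht]
    congr 1
    ring
  have h3 := h1.union h2
  rw [Set.Iic_union_Ioi, integrableOn_univ] at h3
  exact h3

lemma ea_val {a : ℝ} (ha : 0 < a) : ∫ t : ℝ, Real.exp (-(a * |t|)) = 2 / a := by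
  have h1 := integral_comp_abs (f := fun t => Real.exp (-(a * t)))
  rw [h1]
  have h2 := integral_exp_mul_Ioi (neg_lt_zero.2 ha) 0
  have h3 : ∫ x in Set.Ioi (0 : ℝ), Real.exp (-(a * x)) = ∫ x in Set.Ioi (0 : ℝ), Real.exp (-a * x) := by
    refine setIntegral_congr_fun measurableSet_Ioi fun t _ => ?_
    congr 1
    ring
  rw [h3, h2, mul_zero, Real.exp_zero]
  field_simp

variable (K : Type) [Field K] [NumberField K]

lemma cube_vol (ι : Type) [Fintype ι] : volume (cube ι) = 1 := by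
  have : cube ι = Set.univ.pi fun _ => Set.Ioc (0 : ℝ) (0 + 1) := by
    ext x
    simp [cube]
  rw [this, volume_pi_pi]
  simp

lemma box_int {h : ℝ → ℝ} (hh : Integrable h) : IntegrableOn (fun x : LS K => h x.2) (box K) ∧
    ∫ x in box K, h x.2 = ∫ t, h t := by
  have h1 : IntegrableOn (fun _ : Fin (Units.rank K) → ℝ => (1 : ℝ)) (cube (Fin (Units.rank K))) := by
    refine integrableOn_const ?_
    rw [cube_vol]
    exact ENNReal.one_ne_top
  constructor
  · have h2 : Integrable (fun x : LS K => (1 : ℝ) * h x.2)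
        ((volume.restrict (cube (Fin (Units.rank K)))).prod (volume.restrict Set.univ)) :=
      Integrable.mul_prod (f := fun _ : Fin (Units.rank K) → ℝ => (1 : ℝ)) (g := h) h1
        (by rw [Measure.restrict_univ]; exact hh)
    rw [Measure.prod_restrict] at h2
    refine Integrable.congr h2 (Filter.Eventually.of_forall fun x => ?_)
    simp
  · have h3 := setIntegral_prod_mul (μ := (volume : Measure (Fin (Units.rank K) → ℝ)))
      (ν := (volume : Measure ℝ)) (fun _ => (1 : ℝ)) h (cube (Fin (Units.rank K))) Set.univ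
    have h4 : ∫ x in box K, h x.2 = ∫ z in cube (Fin (Units.rank K)) ×ˢ Set.univ, (1 : ℝ) * h z.2
        ∂((volume : Measure (Fin (Units.rank K) → ℝ)).prod (volume : Measure ℝ)) := by
      simp only [one_mul]
      rfl
    rw [h4, h3, setIntegral_univ, setIntegral_const, measureReal_def, cube_vol]
    simp

variable {K}

/-- the setting -/
structure Setg (p ν : ℕ) (B : ℝ) (I : Ideal (𝓞 K)) (b : Basis (Fin (dg K)) ℤ I) (o : Fin (dg K))
    (ψ : DirichletCharacter ℂ (p ^ ν)) : Prop where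
  pp : p.Prime
  nu : 1 ≤ ν
  ne : I ≠ ⊥
  prim : ψ.IsPrimitive
  bal : ∀ x : LS K, Bal p o ν B (AX b x)

lemma mm_pos {I : Ideal (𝓞 K)} (hI : I ≠ ⊥) (t : ℝ) : 0 < mm I t := by
  unfold mm
  have := cK_pos K
  have := absNorm_pos' hI
  positivity

variable {p ν : ℕ} {B : ℝ} {I : Ideal (𝓞 K)} {b : Basis (Fin (dg K)) ℤ I} {o : Fin (dg K)}
    {ψ : DirichletCharacter ℂ (p ^ ν)}

lemma Th_triv (h : Setg p ν B I b o ψ) (x : LS K) : ‖Th b o ψ x‖ ≤ B * (1 + mm I x.2) := by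
  have h1 := (h.bal x).zero.one 0
  rw [Mv_AX] at h1
  refine le_trans ?_ h1
  have h2 := GS_summable (det_AX_ne h.ne b x) 0 (F := fun z => ψ (z o : ZMod (p ^ ν)))
    (fun z => ψ.norm_le_one _)
  unfold Th GS
  refine (norm_tsum_le_tsum_norm h2).trans ?_
  refine h2.tsum_le_tsum (fun z => ?_) (gs_summable (det_AX_ne h.ne b x) 0)
  rw [norm_mul, Complex.norm_real, Real.norm_of_nonneg (gs_pos _ _ _).le]
  exact mul_le_of_le_one_right (gs_pos _ _ _).le (ψ.norm_le_one _)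

lemma Th_bd1 (h : Setg p ν B I b o ψ) (N : ℕ) : ∃ C : ℝ, 0 ≤ C ∧ ∀ x : LS K,
    ‖Th b o ψ x‖ ≤ C * mm I x.2 ^ N := by
  haveI : Nonempty (Fin (dg K)) := ⟨0⟩
  obtain ⟨C, hC0, hC⟩ := tails (ι := Fin (dg K)) B N
  obtain ⟨C2, hC20, hC2⟩ := tails (ι := Fin (dg K)) B 2
  have hB : 0 ≤ B := (h.bal 0).zero.nonneg
  have hp0 : (0 : ℝ) < p := by exact_mod_cast h.pp.pos
  refine ⟨C + B * (1 + (p : ℝ) ^ ν) + (C2 * (p : ℝ) ^ ν + 1), by positivity, fun x => ?_⟩
  have hm := mm_pos h.ne x.2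
  have h1 := hC p ν h.pp h.nu o (AX b x) (det_AX_ne h.ne b x) (h.bal x) ψ h.prim
  have h2 := hC2 p ν h.pp h.nu o (AX b x) (det_AX_ne h.ne b x) (h.bal x) ψ h.prim
  rw [Mv_AX] at h1 h2
  rcases le_total (mm I x.2) 1 with h3 | h3
  · refine (h1.1 h3).trans ?_
    refine mul_le_mul_of_nonneg_right ?_ (by positivity)
    have : 0 ≤ B * (1 + (p : ℝ) ^ ν) := by positivity
    have : 0 ≤ C2 * (p : ℝ) ^ ν := by positivity
    linarith
  · have hmN : 1 ≤ mm I x.2 ^ N := one_le_pow₀ h3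
    refine le_trans ?_ (le_mul_of_one_le_right (by positivity) hmN)
    rcases le_total (mm I x.2) ((p : ℝ) ^ ν) with h4 | h4
    · refine (Th_triv h x).trans ?_
      have : B * (1 + mm I x.2) ≤ B * (1 + (p : ℝ) ^ ν) := mul_le_mul_of_nonneg_left (by linarith) hB
      have : 0 ≤ C2 * (p : ℝ) ^ ν := by positivity
      linarith
    · have h5 := h2.2 h4
      have h6 : C2 * (mm I x.2 ^ 2 / (p : ℝ) ^ ν) * ((p : ℝ) ^ ν / mm I x.2) ^ 2 = C2 * (p : ℝ) ^ ν := by
        field_simp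
      rw [h6] at h5
      have h7 : ‖Th b o ψ x‖ ≤ C2 * (p : ℝ) ^ ν + 1 := by
        have h8 : ‖Th b o ψ x‖ ^ 2 ≤ C2 * (p : ℝ) ^ ν := h5
        nlinarith [norm_nonneg (Th b o ψ x), sq_nonneg (‖Th b o ψ x‖ - 1)]
      have : 0 ≤ B * (1 + (p : ℝ) ^ ν) := by positivity
      linarith

lemma Th_bd2 (h : Setg p ν B I b o ψ) (N : ℕ) : ∃ C : ℝ, 0 ≤ C ∧ ∀ x : LS K,
    ‖Th b o ψ x‖ * mm I x.2 ^ N ≤ C := by
  haveI : Nonempty (Fin (dg K)) := ⟨0⟩
  obtain ⟨C, hC0, hC⟩ := tails (ι := Fin (dg K)) B (2 * N + 2)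
  have hB : 0 ≤ B := (h.bal 0).zero.nonneg
  have hp0 : (0 : ℝ) < p := by exact_mod_cast h.pp.pos
  set q : ℝ := (p : ℝ) ^ ν with hq
  have hq0 : 0 < q := by positivity
  refine ⟨B * (1 + q) * q ^ N + (C * q * (q ^ N) ^ 2 + 1), by positivity, fun x => ?_⟩
  have hm := mm_pos h.ne x.2
  have h2 := hC p ν h.pp h.nu o (AX b x) (det_AX_ne h.ne b x) (h.bal x) ψ h.prim
  rw [Mv_AX] at h2
  rcases le_total (mm I x.2) q with h4 | h4
  · have h5 : ‖Th b o ψ x‖ * mm I x.2 ^ N ≤ B * (1 + q) * q ^ N := by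
      refine mul_le_mul ((Th_triv h x).trans ?_) (pow_le_pow_left₀ hm.le h4 N) (by positivity)
        (by positivity)
      exact mul_le_mul_of_nonneg_left (by linarith) hB
    have : 0 ≤ C * q * (q ^ N) ^ 2 := by positivity
    linarith
  · have h5 := h2.2 h4
    have h6 : C * (mm I x.2 ^ 2 / q) * (q / mm I x.2) ^ (2 * N + 2) * (mm I x.2 ^ N) ^ 2 =
        C * q * (q ^ N) ^ 2 := by
      rw [div_pow]
      have e1 : mm I x.2 ^ (2 * N + 2) = (mm I x.2 ^ N) ^ 2 * mm I x.2 ^ 2 := by ring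
      have e2 : q ^ (2 * N + 2) = (q ^ N) ^ 2 * q ^ 2 := by ring
      rw [e1, e2]
      field_simp
    have h7 : (‖Th b o ψ x‖ * mm I x.2 ^ N) ^ 2 ≤ C * q * (q ^ N) ^ 2 := by
      rw [mul_pow, ← h6]
      exact mul_le_mul_of_nonneg_right h5 (by positivity)
    have h8 : ‖Th b o ψ x‖ * mm I x.2 ^ N ≤ C * q * (q ^ N) ^ 2 + 1 := by
      have h9 : 0 ≤ ‖Th b o ψ x‖ * mm I x.2 ^ N := by positivity
      nlinarith [sq_nonneg (‖Th b o ψ x‖ * mm I x.2 ^ N - 1)]
    have : 0 ≤ B * (1 + q) * q ^ N := by positivity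
    linarith

/-- rapid decay -/
theorem Th_decay (h : Setg p ν B I b o ψ) (R : ℝ) : ∃ C : ℝ, 0 ≤ C ∧ ∀ x : LS K,
    ‖Th b o ψ x‖ ≤ C * Real.exp (-(R * |x.2|)) := by
  have hn : (1 : ℝ) ≤ dg K := by exact_mod_cast NeZero.pos (dg K)
  set N : ℕ := ⌈2 * |R|⌉₊ with hN
  have hNR : R ≤ dg K * N / 2 := by
    have h1 : 2 * |R| ≤ N := Nat.le_ceil _
    have h2 := le_abs_self R
    have h3 : (0 : ℝ) ≤ N := by positivity
    nlinarith
  obtain ⟨C1, hC10, hC1⟩ := Th_bd1 h N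
  obtain ⟨C2, hC20, hC2⟩ := Th_bd2 h N
  set κ := cK K * Ideal.absNorm I with hκ
  have hκ0 : 0 < κ := by
    have := cK_pos K
    have := absNorm_pos' h.ne
    positivity
  refine ⟨C1 / κ ^ N + C2 * κ ^ N, by positivity, fun x => ?_⟩
  have hm : mm I x.2 ^ N = Real.exp (-(dg K * N / 2 * x.2)) / κ ^ N := by
    unfold mm
    rw [div_pow, ← Real.exp_nat_mul]
    congr 2
    ring
  rcases le_total 0 x.2 with h3 | h3
  · have h4 := hC1 x
    rw [hm] at h4
    have h5 : Real.exp (-(dg K * N / 2 * x.2)) ≤ Real.exp (-(R * |x.2|)) := by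
      rw [Real.exp_le_exp, abs_of_nonneg h3]
      nlinarith
    calc ‖Th b o ψ x‖ ≤ C1 * (Real.exp (-(dg K * N / 2 * x.2)) / κ ^ N) := h4
      _ = C1 / κ ^ N * Real.exp (-(dg K * N / 2 * x.2)) := by ring
      _ ≤ (C1 / κ ^ N + C2 * κ ^ N) * Real.exp (-(R * |x.2|)) := by
          refine mul_le_mul ?_ h5 (Real.exp_pos _).le (by positivity)
          have : 0 ≤ C2 * κ ^ N := by positivity
          linarith
  · have h4 := hC2 x
    rw [hm, ← mul_div_assoc, div_le_iff₀ (by positivity)] at h4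
    have h5 : ‖Th b o ψ x‖ ≤ C2 * κ ^ N * Real.exp (dg K * N / 2 * x.2) := by
      rw [Real.exp_neg, ← div_eq_mul_inv, div_le_iff₀ (Real.exp_pos _)] at h4
      exact h4
    have h6 : Real.exp (dg K * N / 2 * x.2) ≤ Real.exp (-(R * |x.2|)) := by
      rw [Real.exp_le_exp, abs_of_nonpos h3]
      nlinarith
    refine h5.trans ?_
    refine mul_le_mul ?_ h6 (Real.exp_pos _).le (by positivity)
    have : 0 ≤ C1 / κ ^ N := by positivity
    linarith

end Pool.Agent.T2H29.SW
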