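import Pool.Agent.T2H29.SW.N11

/-!
# The completed L-function is entire
-/

set_option autoImplicit false
set_option linter.unusedSectionVars false

namespace Pool.Agent.T2H29.SW

open Finset NumberField NumberField.InfinitePlace Module MeasureTheory NumberField.Units

variable {K : Type} [Field K] [NumberField K]

variable {p ν : ℕ} {B : ℝ} {I : Ideal (𝓞 K)} {b : Basis (Fin (dg K)) ℤ I} {o : Fin (dg K)}
    {ψ : DirichletCharacter ℂ (p ^ ν)}

/-- the completed L-function of a class -/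
noncomputable def Lam {I : Ideal (𝓞 K)} (b : Basis (Fin (dg K)) ℤ I) (o : Fin (dg K)) {N : ℕ}
    (ψ : DirichletCharacter ℂ N) (τ : InfinitePlace K → ℝ) (s : ℂ) : ℂ :=
  ∫ x in box K, Th b o ψ x * WW s τ x

lemma exp_abs_bd {y a R : ℝ} (h : |a| + 1 ≤ R) : Real.exp (-(R * |y|)) * Real.exp (a * y) ≤
    Real.exp (-(1 * |y|)) := by
  rw [← Real.exp_add, Real.exp_le_exp]
  have h1 : a * y ≤ |a| * |y| := by rw [← abs_mul]; exact le_abs_self _
  have h2 := abs_nonneg y
  nlinarith

lemma Lam_bd (h : Setg p ν B I b o ψ) (r : ℝ) : ∃ C : ℝ, 0 ≤ C ∧ ∀ (x : LS K) (s : ℂ), |s.re| ≤ r →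
    ‖Th b o ψ x‖ * ((1 + |dg K * x.2 / 2|) * Real.exp (s.re * (dg K * x.2 / 2))) ≤
      C * Real.exp (-(1 * |x.2|)) := by
  set n : ℝ := ((dg K : ℕ) : ℝ) with hn
  have hn0 : 0 ≤ n := by positivity
  obtain ⟨C, hC0, hC⟩ := Th_decay h ((r + 1) * (n / 2) + 1)
  refine ⟨C, hC0, fun x s hs => ?_⟩
  have h1 : 1 + |n * x.2 / 2| ≤ Real.exp (n / 2 * |x.2|) := by
    have := Real.add_one_le_exp (n / 2 * |x.2|)
    have e1 : |n * x.2 / 2| = n / 2 * |x.2| := by
      rw [abs_div, abs_mul, abs_of_nonneg hn0, abs_two]; ring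
    rw [e1]; linarith
  have h2 : Real.exp (s.re * (n * x.2 / 2)) ≤ Real.exp (r * (n / 2 * |x.2|)) := by
    rw [Real.exp_le_exp]
    have h3 : s.re * (n * x.2 / 2) ≤ |s.re| * |n * x.2 / 2| := by rw [← abs_mul]; exact le_abs_self _
    have e1 : |n * x.2 / 2| = n / 2 * |x.2| := by
      rw [abs_div, abs_mul, abs_of_nonneg hn0, abs_two]; ring
    rw [e1] at h3
    refine h3.trans (mul_le_mul_of_nonneg_right hs (by positivity))
  calc ‖Th b o ψ x‖ * ((1 + |n * x.2 / 2|) * Real.exp (s.re * (n * x.2 / 2))) ≤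
      (C * Real.exp (-(((r + 1) * (n / 2) + 1) * |x.2|))) *
      (Real.exp (n / 2 * |x.2|) * Real.exp (r * (n / 2 * |x.2|))) := by
        refine mul_le_mul (hC x) (mul_le_mul h1 h2 (Real.exp_pos _).le (Real.exp_pos _).le)
          (by positivity) (by positivity)
    _ = C * Real.exp (-(1 * |x.2|)) := by
        rw [mul_assoc, ← Real.exp_add, ← Real.exp_add]
        congr 2
        ring

lemma Th_WW_meas (hI : I ≠ ⊥) (s : ℂ) (τ : InfinitePlace K → ℝ) (μ : Measure (LS K)) :
    AEStronglyMeasurable (fun x => Th b o ψ x * WW s τ x) μ :=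
  ((Th_meas hI b o ψ).mul (WW_cont s τ).measurable).aestronglyMeasurable

lemma Th_WW_int (h : Setg p ν B I b o ψ) (s : ℂ) (τ : InfinitePlace K → ℝ) :
    IntegrableOn (fun x => Th b o ψ x * WW s τ x) (box K) := by
  obtain ⟨C, hC0, hC⟩ := Lam_bd h |s.re|
  have h1 := (box_int K (ea_int one_pos)).1.const_mul C
  refine Integrable.mono' h1 (Th_WW_meas h.ne s τ _) (Filter.Eventually.of_forall fun x => ?_)
  rw [norm_mul, WW_norm]
  refine le_trans ?_ (hC x s le_rfl)
  refine mul_le_mul_of_nonneg_left ?_ (norm_nonneg _)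
  refine le_mul_of_one_le_left (Real.exp_pos _).le ?_
  linarith [abs_nonneg ((dg K : ℝ) * x.2 / 2)]

/-- it is entire -/
theorem Lam_diff (h : Setg p ν B I b o ψ) (τ : InfinitePlace K → ℝ) :
    Differentiable ℂ (Lam b o ψ τ) := by
  intro s0
  obtain ⟨C, hC0, hC⟩ := Lam_bd h (|s0.re| + 1)
  set F' : ℂ → LS K → ℂ := fun s x => Th b o ψ x * (((dg K * x.2 / 2 : ℝ) : ℂ) * WW s τ x) with hF'
  have hd := hasDerivAt_integral_of_dominated_loc_of_deriv_le (μ := volume.restrict (box K))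
    (F := fun s x => Th b o ψ x * WW s τ x) (F' := F') (x₀ := s0) (s := Metric.ball s0 1)
    (bound := fun x => C * Real.exp (-(1 * |x.2|))) (Metric.ball_mem_nhds _ one_pos)
    (Filter.Eventually.of_forall fun s => Th_WW_meas h.ne s τ _) (Th_WW_int h s0 τ) ?_ ?_ ?_ ?_
  · exact hd.2.differentiableAt
  · refine Measurable.aestronglyMeasurable ?_
    refine (Th_meas h.ne b o ψ).mul (Measurable.mul ?_ (WW_cont s0 τ).measurable)
    have : Continuous fun x : LS K => ((dg K * x.2 / 2 : ℝ) : ℂ) := by fun_prop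
    exact this.measurable
  · refine Filter.Eventually.of_forall fun x s hs => ?_
    rw [hF']
    simp only
    rw [norm_mul, norm_mul, WW_norm, Complex.norm_real, Real.norm_eq_abs]
    have h1 : |s.re| ≤ |s0.re| + 1 := by
      have h2 : ‖s - s0‖ < 1 := by rwa [Metric.mem_ball, dist_eq_norm] at hs
      have h3 : |(s - s0).re| ≤ ‖s - s0‖ := Complex.abs_re_le_norm _
      have h4 : |s.re| ≤ |s0.re| + |(s - s0).re| := by
        have e1 : s.re = s0.re + (s - s0).re := by simp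
        conv_lhs => rw [e1]
        exact abs_add_le _ _
      linarith
    refine le_trans ?_ (hC x s h1)
    refine mul_le_mul_of_nonneg_left ?_ (norm_nonneg _)
    refine mul_le_mul_of_nonneg_right ?_ (Real.exp_pos _).le
    linarith
  · exact (box_int K (ea_int one_pos)).1.const_mul C
  · refine Filter.Eventually.of_forall fun x s _ => ?_
    rw [hF']
    simp only
    have e1 : ∀ s : ℂ, WW s τ x = Complex.exp (s * (dg K * x.2 / 2 : ℝ)) * WW 0 τ x :=
      fun s => WW_eq s τ x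
    have h1 : HasDerivAt (fun s : ℂ => Complex.exp (s * (dg K * x.2 / 2 : ℝ)))
        (Complex.exp (s * (dg K * x.2 / 2 : ℝ)) * (1 * (dg K * x.2 / 2 : ℝ))) s :=
      ((hasDerivAt_id s).mul_const _).cexp
    have h2 := (h1.mul_const (WW 0 τ x)).const_mul (Th b o ψ x)
    have h3 : (fun s : ℂ => Th b o ψ x * WW s τ x) =
        fun s => Th b o ψ x * (Complex.exp (s * (dg K * x.2 / 2 : ℝ)) * WW 0 τ x) := by
      funext s
      rw [e1]
    rw [h3]
    have h4 : Th b o ψ x * (((dg K * x.2 / 2 : ℝ) : ℂ) * WW s τ x) =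
        Th b o ψ x * (Complex.exp (s * (dg K * x.2 / 2 : ℝ)) * (1 * (dg K * x.2 / 2 : ℝ)) * WW 0 τ x) := by
      rw [e1 s]
      ring
    rw [h4]
    exact h2

end Pool.Agent.T2H29.SW
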