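import Pool.Agent.T2H29.SW.N12

/-!
# The sum over the elements
-/

set_option autoImplicit false
set_option linter.unusedSectionVars false

namespace Pool.Agent.T2H29.SW

open Finset NumberField NumberField.InfinitePlace Module MeasureTheory NumberField.Units

variable {K : Type} [Field K] [NumberField K]

variable {p ν : ℕ} {B : ℝ} {I : Ideal (𝓞 K)} {b : Basis (Fin (dg K)) ℤ I} {o : Fin (dg K)}
    {ψ : DirichletCharacter ℂ (p ^ ν)}

/-- the sum over the nonzero elements -/
lemma S0_bd (h : Setg p ν B I b o ψ) (N : ℕ) (hN : 1 ≤ N) : ∃ C : ℝ, 0 ≤ C ∧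
    ∀ (x : LS K) (s : Finset (Fin (dg K) → ℤ)), 0 ∉ s →
    ∑ z ∈ s, gs (AX b x) 0 z ≤ C * mm I x.2 ∧ ∑ z ∈ s, gs (AX b x) 0 z ≤ C * mm I x.2 ^ N := by
  haveI : Nonempty (Fin (dg K)) := ⟨0⟩
  obtain ⟨C, hC0, hC⟩ := tail (ι := Fin (dg K)) B N
  have hB : 0 ≤ B := (h.bal 0).zero.nonneg
  refine ⟨2 * B + C, by positivity, fun x s hs => ?_⟩
  have hm := mm_pos h.ne x.2
  have hA := det_AX_ne h.ne b x
  set F : (Fin (dg K) → ℤ) → ℂ := fun z => if z = 0 then 0 else 1 with hF
  have hF1 : ∀ z, ‖F z‖ ≤ 1 := by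
    intro z
    rw [hF]
    simp only
    split_ifs
    · rw [norm_zero]; exact zero_le_one
    · rw [norm_one]
  rcases le_total (mm I x.2) 1 with h1 | h1
  · have h2 : ∑ z ∈ s, gs (AX b x) 0 z ≤ C * mm I x.2 ^ N := by
      have h3 := hC (AX b x) hA (h.bal x).zero (by rw [Mv_AX]; exact h1) F (by rw [hF]; simp) hF1
      rw [Mv_AX] at h3
      refine le_trans ?_ h3
      have h4 : GS (AX b x) 0 F = ((∑' z, (if z = 0 then 0 else gs (AX b x) 0 z) : ℝ) : ℂ) := by
        unfold GS
        rw [Complex.ofReal_tsum]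
        refine tsum_congr fun z => ?_
        rw [hF]
        simp only
        split_ifs <;> simp
      have h5 : ∀ z, 0 ≤ (if z = 0 then 0 else gs (AX b x) 0 z) := by
        intro z
        split_ifs
        · exact le_rfl
        · exact (gs_pos _ _ _).le
      rw [h4, Complex.norm_real, Real.norm_of_nonneg (tsum_nonneg h5)]
      have h6 : Summable fun z => (if z = 0 then 0 else gs (AX b x) 0 z) := by
        refine Summable.of_nonneg_of_le h5 (fun z => ?_) (gs_summable hA 0)
        split_ifs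
        · exact (gs_pos _ _ _).le
        · exact le_rfl
      have h7 := h6.sum_le_tsum s (fun z _ => h5 z)
      refine le_trans (le_of_eq ?_) h7
      refine sum_congr rfl fun z hz => ?_
      have : z ≠ 0 := fun h0 => hs (h0 ▸ hz)
      rw [if_neg this]
    constructor
    · refine h2.trans ?_
      have h3 : mm I x.2 ^ N ≤ mm I x.2 := pow_le_of_le_one hm.le h1 (by omega)
      calc C * mm I x.2 ^ N ≤ C * mm I x.2 := mul_le_mul_of_nonneg_left h3 hC0.le
        _ ≤ (2 * B + C) * mm I x.2 := mul_le_mul_of_nonneg_right (by linarith) hm.le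
    · refine h2.trans ?_
      exact mul_le_mul_of_nonneg_right (by linarith) (by positivity)
  · have h2 : ∑ z ∈ s, gs (AX b x) 0 z ≤ 2 * B * mm I x.2 := by
      have h3 := (h.bal x).zero.one 0
      rw [Mv_AX] at h3
      refine ((gs_summable hA 0).sum_le_tsum s (fun z _ => (gs_pos _ _ _).le)).trans (h3.trans ?_)
      nlinarith
    have h3 : 2 * B * mm I x.2 ≤ (2 * B + C) * mm I x.2 :=
      mul_le_mul_of_nonneg_right (by linarith) hm.le
    have h4 : mm I x.2 ≤ mm I x.2 ^ N := le_self_pow₀ h1 (by omega)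
    refine ⟨h2.trans h3, (h2.trans h3).trans ?_⟩
    exact mul_le_mul_of_nonneg_left h4 (by positivity)

lemma mm_exp (I : Ideal (𝓞 K)) (t : ℝ) (N : ℕ) : mm I t ^ N =
    Real.exp (-(N * (dg K * t / 2))) / (cK K * Ideal.absNorm I) ^ N := by
  unfold mm
  rw [div_pow, ← Real.exp_nat_mul]
  congr 2
  ring

lemma S0_bd2 (h : Setg p ν B I b o ψ) {r : ℝ} (hr : 1 < r) : ∃ C δ : ℝ, 0 ≤ C ∧ 0 < δ ∧
    ∀ (x : LS K) (s : Finset (Fin (dg K) → ℤ)), 0 ∉ s →
    (∑ z ∈ s, gs (AX b x) 0 z) * Real.exp (r * (dg K * x.2 / 2)) ≤ C * Real.exp (-(δ * |x.2|)) := by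
  set N : ℕ := ⌈r⌉₊ + 1 with hN
  obtain ⟨C, hC0, hC⟩ := S0_bd h N (by omega)
  have hn : (0 : ℝ) < dg K := by exact_mod_cast NeZero.pos (dg K)
  have hNr : r + 1 ≤ N := by
    rw [hN]; push_cast
    linarith [Nat.le_ceil r]
  set κ := cK K * Ideal.absNorm I with hκ
  have hκ0 : 0 < κ := by
    have := cK_pos K
    have := absNorm_pos' h.ne
    positivity
  refine ⟨C / κ + C / κ ^ N, min (r - 1) 1 * (dg K / 2), by positivity, ?_, fun x s hs => ?_⟩
  · have : 0 < min (r - 1) 1 := lt_min (by linarith) one_pos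
    positivity
  obtain ⟨h1, h2⟩ := hC x s hs
  have hm1 : min (r - 1) 1 ≤ r - 1 := min_le_left _ _
  have hm2 : min (r - 1) 1 ≤ 1 := min_le_right _ _
  have hm0 : 0 ≤ min (r - 1) 1 := le_min (by linarith) zero_le_one
  rcases le_total 0 x.2 with h3 | h3
  · rw [mm_exp] at h2
    have h4 : (∑ z ∈ s, gs (AX b x) 0 z) * Real.exp (r * (dg K * x.2 / 2)) ≤
        C / κ ^ N * Real.exp (-((N - r) * (dg K * x.2 / 2))) := by
      calc _ ≤ C * (Real.exp (-(N * (dg K * x.2 / 2))) / κ ^ N) * Real.exp (r * (dg K * x.2 / 2)) :=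
            mul_le_mul_of_nonneg_right h2 (Real.exp_pos _).le
        _ = C / κ ^ N * (Real.exp (-(N * (dg K * x.2 / 2))) * Real.exp (r * (dg K * x.2 / 2))) := by
            ring
        _ = _ := by
            rw [← Real.exp_add]
            congr 2
            ring
    refine h4.trans (mul_le_mul ?_ ?_ (Real.exp_pos _).le (by positivity))
    · have : 0 ≤ C / κ := by positivity
      linarith
    · rw [Real.exp_le_exp, abs_of_nonneg h3, neg_le_neg_iff]
      have h5 : 0 ≤ (dg K : ℝ) * x.2 / 2 := by positivity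
      calc min (r - 1) 1 * (dg K / 2) * x.2 = min (r - 1) 1 * (dg K * x.2 / 2) := by ring
        _ ≤ (N - r) * (dg K * x.2 / 2) := mul_le_mul_of_nonneg_right (by linarith) h5
  · have h2' : ∑ z ∈ s, gs (AX b x) 0 z ≤ C * (Real.exp (-(1 * (dg K * x.2 / 2))) / κ) := by
      have := mm_exp I x.2 1
      rw [pow_one, pow_one] at this
      rw [this] at h1
      exact_mod_cast h1
    have h4 : (∑ z ∈ s, gs (AX b x) 0 z) * Real.exp (r * (dg K * x.2 / 2)) ≤
        C / κ * Real.exp ((r - 1) * (dg K * x.2 / 2)) := by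
      calc _ ≤ C * (Real.exp (-(1 * (dg K * x.2 / 2))) / κ) * Real.exp (r * (dg K * x.2 / 2)) :=
            mul_le_mul_of_nonneg_right h2' (Real.exp_pos _).le
        _ = C / κ * (Real.exp (-(1 * (dg K * x.2 / 2))) * Real.exp (r * (dg K * x.2 / 2))) := by
            ring
        _ = _ := by
            rw [← Real.exp_add]
            congr 2
            ring
    refine h4.trans (mul_le_mul ?_ ?_ (Real.exp_pos _).le (by positivity))
    · have : 0 ≤ C / κ ^ N := by positivity
      linarith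
    · rw [Real.exp_le_exp, abs_of_nonpos h3]
      have h5 : (dg K : ℝ) * x.2 / 2 ≤ 0 := by nlinarith
      calc (r - 1) * (dg K * x.2 / 2) ≤ min (r - 1) 1 * (dg K * x.2 / 2) :=
            mul_le_mul_of_nonpos_right hm1 h5
        _ = -(min (r - 1) 1 * (dg K / 2) * -x.2) := by ring

variable {τ : InfinitePlace K → ℝ} {χ : Ideal (𝓞 K) →* ℂ} {ρ : 𝓞 K →+* ZMod (p ^ ν)}

/-- the sum over the elements, absolutely convergent -/
theorem el_hasSum (h : Setg p ν B I b o ψ) {u : ZMod (p ^ ν)}
    (hu : ∀ z, ρ (el b z) = (z o : ZMod (p ^ ν)) * u)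
    (hψ : ∀ α : 𝓞 K, χ (Ideal.span {α}) = ψ (ρ α) * infT τ (α : K)) {s : ℂ} (hs : 1 < s.re) {c : ℝ}
    (hc : ∀ G : (InfinitePlace K → ℝ) → ℂ, (∫ x, G (UU K x) = (c : ℂ) * ∫ u, G u) ∧
      (Integrable G → Integrable fun x => G (UU K x))) :
    HasSum (fun z => ∫ x in box K, TT s τ χ (el b z) x) (ψ u * Lam b o ψ τ s) := by
  have hν : 1 < p ^ ν := Nat.one_lt_pow (by have := h.nu; omega) h.pp.one_lt
  haveI : Fact (1 < p ^ ν) := ⟨hν⟩
  have hz0 : ∀ x, TT s τ χ (el b 0) x = 0 := by
    intro x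
    unfold TT
    rw [el_zero, hψ, map_zero, MulChar.map_zero]
    ring
  have hint : ∀ z, Integrable (fun x => TT s τ χ (el b z) x) (volume.restrict (box K)) := by
    intro z
    by_cases hz : z = 0
    · rw [hz]
      have : (fun x => TT s τ χ (el b 0) x) = fun _ => (0 : ℂ) := funext hz0
      rw [this]
      exact integrable_zero _ _ _
    · exact (TT_int (by linarith) τ χ hc (el_ne b hz)).1.integrableOn
  have hnorm : ∀ z x, ‖TT s τ χ (el b z) x‖ ≤
      (if z = 0 then 0 else gs (AX b x) 0 z) * Real.exp (s.re * (dg K * x.2 / 2)) := by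
    intro z x
    by_cases hz : z = 0
    · rw [hz, hz0, norm_zero, if_pos rfl, zero_mul]
    · rw [if_neg hz, TT_el s hu hν hψ, norm_mul, norm_mul, norm_mul, WW_norm, Complex.norm_real,
        Real.norm_of_nonneg (gs_pos _ _ _).le]
      refine mul_le_mul_of_nonneg_right ?_ (Real.exp_pos _).le
      have h1 := ψ.norm_le_one u
      have h2 := ψ.norm_le_one (z o : ZMod (p ^ ν))
      have h3 := (gs_pos (AX b x) 0 z).le
      calc ‖ψ u‖ * (gs (AX b x) 0 z * ‖ψ (z o : ZMod (p ^ ν))‖) ≤ 1 * (gs (AX b x) 0 z * 1) := by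
            refine mul_le_mul h1 (mul_le_mul_of_nonneg_left h2 h3) (by positivity) zero_le_one
        _ = _ := by ring
  obtain ⟨C, δ, hC0, hδ, hC⟩ := S0_bd2 h hs
  have hsum : Summable fun z => ∫ x in box K, ‖TT s τ χ (el b z) x‖ := by
    refine summable_of_sum_le (c := ∫ x in box K, C * Real.exp (-(δ * |x.2|)))
      (fun z => integral_nonneg fun x => norm_nonneg _) fun t => ?_
    rw [← integral_finsetSum _ (fun z _ => (hint z).norm)]
    refine setIntegral_mono_on (integrable_finsetSum _ fun z _ => (hint z).norm)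
      ((box_int K (ea_int hδ)).1.const_mul C) (box_meas K) fun x _ => ?_
    refine le_trans ?_ (hC x (t.erase 0) (by simp))
    rw [sum_mul]
    calc ∑ z ∈ t, ‖TT s τ χ (el b z) x‖ ≤ ∑ z ∈ t, (if z = 0 then 0 else gs (AX b x) 0 z) *
          Real.exp (s.re * (dg K * x.2 / 2)) := sum_le_sum fun z _ => hnorm z x
      _ = ∑ z ∈ t.erase 0, gs (AX b x) 0 z * Real.exp (s.re * (dg K * x.2 / 2)) := by
          rw [← Finset.sum_filter_add_sum_filter_not t (fun z => z = 0)]
          have e1 : ∑ z ∈ t with z = 0, (if z = 0 then 0 else gs (AX b x) 0 z) *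
              Real.exp (s.re * (dg K * x.2 / 2)) = 0 := by
            refine sum_eq_zero fun z hz => ?_
            rw [if_pos (mem_filter.1 hz).2, zero_mul]
          rw [e1, zero_add]
          have e2 : ({z ∈ t | ¬ z = 0} : Finset _) = t.erase 0 := by
            ext z
            rw [mem_filter, mem_erase]
            tauto
          rw [e2]
          refine sum_congr rfl fun z hz => ?_
          rw [if_neg (mem_erase.1 hz).1]
  have h1 := hasSum_integral_of_summable_integral_norm hint hsum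
  have h2 : ∫ x in box K, ∑' z, TT s τ χ (el b z) x = ψ u * Lam b o ψ τ s := by
    unfold Lam
    rw [← integral_const_mul]
    refine setIntegral_congr_fun (box_meas K) fun x _ => ?_
    rw [(TT_sum s h.ne hu hν hψ x).tsum_eq, mul_assoc]
  rw [h2] at h1
  exact h1

end Pool.Agent.T2H29.SW
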