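import Pool.Agent.T2H29.SW.N13

/-!
# Gamma factors
-/

set_option autoImplicit false
set_option linter.unusedSectionVars false

namespace Pool.Agent.T2H29.SW

open Finset NumberField NumberField.InfinitePlace Module MeasureTheory NumberField.Units

variable (K : Type) [Field K] [NumberField K]

/-- the inverse of the Gamma factor -/
noncomputable def Gi (s : ℂ) (τ : InfinitePlace K → ℝ) : ℂ :=
  ∏ w : InfinitePlace K, (((Real.pi * mult w : ℝ) : ℂ) ^ (sw K s τ w) * (Complex.Gamma (sw K s τ w))⁻¹)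

lemma pm_pos (w : InfinitePlace K) : (0 : ℝ) < Real.pi * mult w := by
  have : (0 : ℝ) < mult w := by exact_mod_cast mult_pos
  positivity

lemma Gf_mul_Gi {s : ℂ} (hs : 0 < s.re) (τ : InfinitePlace K → ℝ) : Gf K s τ * Gi K s τ = 1 := by
  unfold Gf Gi
  rw [← prod_mul_distrib]
  refine prod_eq_one fun w _ => ?_
  have hw := pm_pos K w
  have hg : Complex.Gamma (sw K s τ w) ≠ 0 := by
    refine Complex.Gamma_ne_zero_of_re_pos ?_
    rw [sw_re]
    have : (0 : ℝ) < mult w := by exact_mod_cast mult_pos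
    positivity
  have h1 : (1 / ((Real.pi * mult w : ℝ) : ℂ)) ^ (sw K s τ w) * ((Real.pi * mult w : ℝ) : ℂ) ^ (sw K s τ w) = 1 := by
    have e1 : (1 / ((Real.pi * mult w : ℝ) : ℂ)) = (((Real.pi * mult w)⁻¹ : ℝ) : ℂ) := by
      rw [one_div, Complex.ofReal_inv]
    rw [e1, ← Complex.mul_cpow_ofReal_nonneg (inv_nonneg.2 hw.le) hw.le, ← Complex.ofReal_mul,
      inv_mul_cancel₀ hw.ne', Complex.ofReal_one, Complex.one_cpow]
  calc _ = ((1 / ((Real.pi * mult w : ℝ) : ℂ)) ^ (sw K s τ w) * ((Real.pi * mult w : ℝ) : ℂ) ^ (sw K s τ w)) *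
      (Complex.Gamma (sw K s τ w) * (Complex.Gamma (sw K s τ w))⁻¹) := by ring
    _ = 1 := by rw [h1, mul_inv_cancel₀ hg, one_mul]

lemma Gi_diff (τ : InfinitePlace K → ℝ) : Differentiable ℂ fun s => Gi K s τ := by
  unfold Gi
  refine Differentiable.fun_finset_prod fun w _ => ?_
  have h1 : Differentiable ℂ fun s : ℂ => sw K s τ w := by
    unfold sw
    fun_prop
  refine Differentiable.mul ?_ ?_
  · refine Differentiable.const_cpow h1 (Or.inl ?_)
    exact_mod_cast (pm_pos K w).ne'
  · have h2 : (fun s : ℂ => (Complex.Gamma (sw K s τ w))⁻¹) =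
        (fun z : ℂ => (Complex.Gamma z)⁻¹) ∘ fun s => sw K s τ w := rfl
    rw [h2]
    exact Complex.differentiable_one_div_Gamma.comp h1

/-- uniform bound on the critical line -/
lemma Gi_bd (R : ℝ) : ∃ C : ℝ, 0 < C ∧ ∀ (t : ℝ) (τ : InfinitePlace K → ℝ), |t| ≤ R →
    (∀ w, |τ w| ≤ R) → ‖Gi K (1 / 2 + t * Complex.I) τ‖ ≤ C := by
  have hcomp : IsCompact (Metric.closedBall (0 : ℂ) (1 + 2 * |R|)) := isCompact_closedBall _ _
  obtain ⟨M, hM⟩ := hcomp.exists_bound_of_continuousOn
    (Complex.differentiable_one_div_Gamma.continuous.continuousOn)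
  refine ⟨∏ w : InfinitePlace K, ((Real.pi * mult w) ^ ((mult w : ℝ) * (1 / 2) / 2) * (|M| + 1)), ?_,
    fun t τ ht hτ => ?_⟩
  · refine prod_pos fun w _ => ?_
    have := pm_pos K w
    positivity
  · unfold Gi
    rw [norm_prod]
    refine prod_le_prod (fun w _ => norm_nonneg _) fun w _ => ?_
    have hw := pm_pos K w
    have hre : (sw K (1 / 2 + t * Complex.I) τ w).re = (mult w : ℝ) * (1 / 2) / 2 := by
      rw [sw_re]
      simp
    have him : (sw K (1 / 2 + t * Complex.I) τ w).im = (mult w : ℝ) * t / 2 - τ w / 2 := by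
      unfold sw
      simp
    rw [norm_mul, Complex.norm_cpow_eq_rpow_re_of_pos hw, hre]
    refine mul_le_mul_of_nonneg_left ?_ (by positivity)
    have hmult : (mult w : ℝ) ≤ 2 := by
      unfold InfinitePlace.mult
      split_ifs <;> norm_num
    have hmult0 : (0 : ℝ) ≤ mult w := by positivity
    have h1 : ‖sw K (1 / 2 + t * Complex.I) τ w‖ ≤ 1 + 2 * |R| := by
      refine (Complex.norm_le_abs_re_add_abs_im _).trans ?_
      rw [hre, him]
      have hR : R ≤ |R| := le_abs_self R
      have h2 : |(mult w : ℝ) * (1 / 2) / 2| ≤ 1 := by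
        rw [abs_of_nonneg (by positivity)]
        linarith
      have h3 : |(mult w : ℝ) * t / 2 - τ w / 2| ≤ 2 * |R| := by
        refine (abs_sub _ _).trans ?_
        rw [abs_div, abs_div, abs_mul, abs_two, abs_of_nonneg hmult0]
        have h4 := hτ w
        have h5 : (mult w : ℝ) * |t| ≤ 2 * |R| := by
          refine mul_le_mul hmult (ht.trans hR) (abs_nonneg _) (by norm_num)
        have h6 := abs_nonneg R
        linarith
      linarith
    have h2 := hM (sw K (1 / 2 + t * Complex.I) τ w) (by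
      rw [Metric.mem_closedBall, dist_zero_right]; exact h1)
    refine h2.trans ?_
    linarith [le_abs_self M]

end Pool.Agent.T2H29.SW
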