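import Pool.Agent.T2H29.SW.N14

/-!
# The bound on the critical line
-/

set_option autoImplicit false
set_option linter.unusedSectionVars false

namespace Pool.Agent.T2H29.SW

open Finset NumberField NumberField.InfinitePlace Module MeasureTheory NumberField.Units

variable {K : Type} [Field K] [NumberField K]

variable {p ν : ℕ} {B : ℝ} {I : Ideal (𝓞 K)} {b : Basis (Fin (dg K)) ℤ I} {o : Fin (dg K)}
    {ψ : DirichletCharacter ℂ (p ^ ν)}

/-- the main constant -/
noncomputable def K0 (n p ν : ℕ) (D : ℝ) : ℝ :=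
  14 * 2 ^ n * (ν : ℝ) ^ 2 * D ^ 3 * (p : ℝ) ^ ((19 * ν + 57) / 58 + 6)

/-- the majorant -/
noncomputable def maj (n t0 V k C : ℝ) (t : ℝ) : ℝ :=
  (Set.Icc (t0 - V) t0).indicator (fun _ => √k) t + (C * Real.exp (-(n / 4 * |t - t0|)) +
    √C * Real.exp (-(n / 4 * |t - (t0 - V)|)))

lemma maj_int {n t0 V k C : ℝ} (hn : 0 < n) (hV : 0 ≤ V) : Integrable (maj n t0 V k C) ∧
    ∫ t, maj n t0 V k C t = √k * V + (C * (8 / n) + √C * (8 / n)) := by
  have h1 : Integrable ((Set.Icc (t0 - V) t0).indicator (fun _ : ℝ => √k)) := by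
    rw [integrable_indicator_iff measurableSet_Icc]
    exact integrableOn_const (by rw [Real.volume_Icc]; exact ENNReal.ofReal_ne_top)
  have hn4 : 0 < n / 4 := by positivity
  have h2 : Integrable fun t : ℝ => C * Real.exp (-(n / 4 * |t - t0|)) :=
    ((ea_int hn4).comp_sub_right t0).const_mul C
  have h3 : Integrable fun t : ℝ => √C * Real.exp (-(n / 4 * |t - (t0 - V)|)) :=
    ((ea_int hn4).comp_sub_right (t0 - V)).const_mul _
  constructor
  · exact h1.add (h2.add h3)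
  · have e1 : ∫ t, maj n t0 V k C t = (∫ t, (Set.Icc (t0 - V) t0).indicator (fun _ : ℝ => √k) t) +
        ((∫ t, C * Real.exp (-(n / 4 * |t - t0|))) + ∫ t, √C * Real.exp (-(n / 4 * |t - (t0 - V)|))) := by
      have h23 : Integrable fun t : ℝ => C * Real.exp (-(n / 4 * |t - t0|)) +
        √C * Real.exp (-(n / 4 * |t - (t0 - V)|)) := h2.add h3
      unfold maj
      rw [integral_add h1 h23, integral_add h2 h3]
    have e2 := integral_sub_right_eq_self (fun t : ℝ => Real.exp (-(n / 4 * |t|)))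
      (μ := (volume : Measure ℝ)) t0
    have e3 := integral_sub_right_eq_self (fun t : ℝ => Real.exp (-(n / 4 * |t|)))
      (μ := (volume : Measure ℝ)) (t0 - V)
    rw [e1, integral_const_mul, integral_const_mul, e2, e3, ea_val hn4,
      integral_indicator measurableSet_Icc, setIntegral_const, measureReal_def, Real.volume_Icc,
      ENNReal.toReal_ofReal (by linarith), smul_eq_mul]
    have e4 : (2 : ℝ) / (n / 4) = 8 / n := by field_simp; norm_num
    rw [e4]
    ring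

/-- the pointwise bound -/
lemma Th_maj (h : Setg p ν B I b o ψ) {D : ℝ} (hD : DD (dg K) B D) (hp7 : 7 ≤ p) {C : ℝ}
    (hC0 : 0 < C) (hC : ∀ (p ν : ℕ), p.Prime → 1 ≤ ν →
    ∀ (o : Fin (dg K)) (A : Matrix (Fin (dg K)) (Fin (dg K)) ℝ), A.det ≠ 0 → Bal p o ν B A →
    ∀ χ : DirichletCharacter ℂ (p ^ ν), χ.IsPrimitive →
    (Mv A ≤ 1 → ‖GS A 0 (fun z => χ (z o : ZMod (p ^ ν)))‖ ≤ C * Mv A ^ 2) ∧
    ((p : ℝ) ^ ν ≤ Mv A → ‖GS A 0 (fun z => χ (z o : ZMod (p ^ ν)))‖ ^ 2 ≤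
      C * (Mv A ^ 2 / (p : ℝ) ^ ν) * ((p : ℝ) ^ ν / Mv A) ^ 2)) (x : LS K) :
    ‖Th b o ψ x‖ * Real.exp (dg K / 4 * x.2) * √(cK K * Ideal.absNorm I) ≤
      maj (dg K) (-(2 / dg K) * Real.log (cK K * Ideal.absNorm I)) (2 / dg K * (ν * Real.log p))
        (K0 (dg K) p ν D) C x.2 := by
  have hn : (0 : ℝ) < dg K := by exact_mod_cast NeZero.pos (dg K)
  have hp0 : (0 : ℝ) < p := by exact_mod_cast h.pp.pos
  have hp1 : (1 : ℝ) ≤ p := by exact_mod_cast h.pp.one_lt.le
  set n : ℝ := ((dg K : ℕ) : ℝ) with hnn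
  set κ := cK K * Ideal.absNorm I with hκ
  have hκ0 : 0 < κ := by
    have := cK_pos K
    have := absNorm_pos' h.ne
    positivity
  set t0 := -(2 / n) * Real.log κ with ht0
  set V := 2 / n * (ν * Real.log p) with hV
  have hlp : 0 ≤ Real.log p := Real.log_nonneg hp1
  have hV0 : 0 ≤ V := by positivity
  have hD1 := hD.one
  have hK0 : 0 ≤ K0 (dg K) p ν D := by unfold K0; positivity
  have hmt : mm I x.2 = Real.exp (-(n / 2 * (x.2 - t0))) := by
    unfold mm
    rw [← hκ, ← hnn]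
    have e1 : Real.exp (-(n / 2 * (x.2 - t0))) = Real.exp (-(n * x.2 / 2)) * Real.exp (n / 2 * t0) := by
      rw [← Real.exp_add]
      congr 1
      ring
    have e2 : Real.exp (n / 2 * t0) = κ⁻¹ := by
      have : n / 2 * t0 = -Real.log κ := by
        rw [ht0]; field_simp
      rw [this, Real.exp_neg, Real.exp_log hκ0]
    rw [e1, e2]
    rfl
  have hsk : √κ = Real.exp (-(n / 4 * t0)) := by
    have : -(n / 4 * t0) = Real.log κ / 2 := by
      rw [ht0]; field_simp; ring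
    rw [this, Real.exp_half, Real.exp_log hκ0]
  have hq : (p : ℝ) ^ ν = Real.exp (n / 2 * V) := by
    have : n / 2 * V = ν * Real.log p := by
      rw [hV]; field_simp
    rw [this, Real.exp_nat_mul, Real.exp_log hp0]
  have hL : ‖Th b o ψ x‖ * Real.exp (n / 4 * x.2) * √κ = ‖Th b o ψ x‖ * Real.exp (n / 4 * (x.2 - t0)) := by
    rw [hsk, mul_assoc, ← Real.exp_add]
    congr 2
    ring
  rw [hL]
  have hA := det_AX_ne h.ne b x
  obtain ⟨h1, h2⟩ := hC p ν h.pp h.nu o (AX b x) hA (h.bal x) ψ h.prim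
  rw [Mv_AX, hmt] at h1 h2
  have hind0 : 0 ≤ (Set.Icc (t0 - V) t0).indicator (fun _ => √(K0 (dg K) p ν D)) x.2 :=
    Set.indicator_nonneg (fun _ _ => Real.sqrt_nonneg _) _
  have hA0 : 0 ≤ C * Real.exp (-(n / 4 * |x.2 - t0|)) := by positivity
  have hB0 : 0 ≤ √C * Real.exp (-(n / 4 * |x.2 - (t0 - V)|)) := by positivity
  unfold maj
  rcases le_total t0 x.2 with h3 | h3
  · have h4 : Real.exp (-(n / 2 * (x.2 - t0))) ≤ 1 := by
      rw [Real.exp_le_one_iff]
      have : 0 ≤ n / 2 * (x.2 - t0) := mul_nonneg (by positivity) (by linarith)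
      linarith
    have h5 : ‖Th b o ψ x‖ ≤ C * Real.exp (-(n / 2 * (x.2 - t0))) ^ 2 := h1 h4
    have h6 : ‖Th b o ψ x‖ * Real.exp (n / 4 * (x.2 - t0)) ≤ C * Real.exp (-(n / 4 * |x.2 - t0|)) := by
      rw [abs_of_nonneg (by linarith)]
      calc ‖Th b o ψ x‖ * Real.exp (n / 4 * (x.2 - t0)) ≤
          C * Real.exp (-(n / 2 * (x.2 - t0))) ^ 2 * Real.exp (n / 4 * (x.2 - t0)) :=
            mul_le_mul_of_nonneg_right h5 (Real.exp_pos _).le
        _ = C * Real.exp (-(3 * n / 4 * (x.2 - t0))) := by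
            rw [← Real.exp_nat_mul, mul_assoc, ← Real.exp_add]
            congr 2
            push_cast
            ring
        _ ≤ C * Real.exp (-(n / 4 * (x.2 - t0))) := by
            refine mul_le_mul_of_nonneg_left ?_ hC0.le
            rw [Real.exp_le_exp]
            have : 0 ≤ n * (x.2 - t0) := mul_nonneg hn.le (by linarith)
            linarith
    linarith
  · rcases le_total (t0 - V) x.2 with h4 | h4
    · -- the middle range
      have h5 : 1 ≤ Real.exp (-(n / 2 * (x.2 - t0))) := by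
        rw [Real.one_le_exp_iff]
        have : 0 ≤ n / 2 * (t0 - x.2) := mul_nonneg (by positivity) (by linarith)
        linarith
      have h6 : Real.exp (-(n / 2 * (x.2 - t0))) ≤ (p : ℝ) ^ ν := by
        rw [hq, Real.exp_le_exp]
        have : 0 ≤ n / 2 * (x.2 - (t0 - V)) := mul_nonneg (by positivity) (by linarith)
        linarith
      have h7 := core2 h.pp hp7 h.nu hA (h.bal x) (by rw [Fintype.card_fin]; exact hD)
        (by rw [Mv_AX, hmt]; exact h5) (by rw [Mv_AX, hmt]; exact h6) h.prim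
      rw [Mv_AX, hmt, Fintype.card_fin] at h7
      have h8 : ‖Th b o ψ x‖ ^ 2 ≤ K0 (dg K) p ν D * Real.exp (-(n / 2 * (x.2 - t0))) := h7
      have h9 : ‖Th b o ψ x‖ * Real.exp (n / 4 * (x.2 - t0)) ≤ √(K0 (dg K) p ν D) := by
        refine Real.le_sqrt_of_sq_le ?_
        rw [mul_pow]
        calc ‖Th b o ψ x‖ ^ 2 * Real.exp (n / 4 * (x.2 - t0)) ^ 2 ≤
            K0 (dg K) p ν D * Real.exp (-(n / 2 * (x.2 - t0))) * Real.exp (n / 4 * (x.2 - t0)) ^ 2 :=
              mul_le_mul_of_nonneg_right h8 (by positivity)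
          _ = K0 (dg K) p ν D := by
              rw [← Real.exp_nat_mul, mul_assoc, ← Real.exp_add]
              have : -(n / 2 * (x.2 - t0)) + ((2 : ℕ) : ℝ) * (n / 4 * (x.2 - t0)) = 0 := by
                push_cast; ring
              rw [this, Real.exp_zero, mul_one]
      have h10 : (Set.Icc (t0 - V) t0).indicator (fun _ => √(K0 (dg K) p ν D)) x.2 =
          √(K0 (dg K) p ν D) := Set.indicator_of_mem (Set.mem_Icc.2 ⟨h4, h3⟩) _
      rw [h10]
      linarith
    · have h5 : (p : ℝ) ^ ν ≤ Real.exp (-(n / 2 * (x.2 - t0))) := by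
        rw [hq, Real.exp_le_exp]
        have : 0 ≤ n / 2 * ((t0 - V) - x.2) := mul_nonneg (by positivity) (by linarith)
        linarith
      have h6 := h2 h5
      have hm0 := Real.exp_pos (-(n / 2 * (x.2 - t0)))
      have h7 : ‖Th b o ψ x‖ ^ 2 ≤ C * (p : ℝ) ^ ν := by
        refine le_trans h6 (le_of_eq ?_)
        field_simp
      have h8 : ‖Th b o ψ x‖ * Real.exp (n / 4 * (x.2 - t0)) ≤
          √C * Real.exp (-(n / 4 * |x.2 - (t0 - V)|)) := by
        rw [abs_of_nonpos (by linarith)]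
        refine le_of_pow_le_pow_left₀ two_ne_zero (by positivity) ?_
        rw [mul_pow, mul_pow, Real.sq_sqrt hC0.le, ← Real.exp_nat_mul, ← Real.exp_nat_mul]
        calc ‖Th b o ψ x‖ ^ 2 * Real.exp (((2 : ℕ) : ℝ) * (n / 4 * (x.2 - t0))) ≤
            C * (p : ℝ) ^ ν * Real.exp (((2 : ℕ) : ℝ) * (n / 4 * (x.2 - t0))) :=
              mul_le_mul_of_nonneg_right h7 (Real.exp_pos _).le
          _ = _ := by
              rw [hq, mul_assoc, ← Real.exp_add]
              congr 2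
              push_cast
              ring
      linarith

/-- the bound for the completed L-function of a class -/
theorem Lam_crit (h : Setg p ν B I b o ψ) {D : ℝ} (hD : DD (dg K) B D) (hp7 : 7 ≤ p) {C : ℝ}
    (hC0 : 0 < C) (hC : ∀ (p ν : ℕ), p.Prime → 1 ≤ ν →
    ∀ (o : Fin (dg K)) (A : Matrix (Fin (dg K)) (Fin (dg K)) ℝ), A.det ≠ 0 → Bal p o ν B A →
    ∀ χ : DirichletCharacter ℂ (p ^ ν), χ.IsPrimitive →
    (Mv A ≤ 1 → ‖GS A 0 (fun z => χ (z o : ZMod (p ^ ν)))‖ ≤ C * Mv A ^ 2) ∧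
    ((p : ℝ) ^ ν ≤ Mv A → ‖GS A 0 (fun z => χ (z o : ZMod (p ^ ν)))‖ ^ 2 ≤
      C * (Mv A ^ 2 / (p : ℝ) ^ ν) * ((p : ℝ) ^ ν / Mv A) ^ 2)) (τ : InfinitePlace K → ℝ) {s : ℂ}
    (hs : s.re = 1 / 2) :
    √(Ideal.absNorm I) * ‖Lam b o ψ τ s‖ ≤ (√(cK K))⁻¹ *
      (√(K0 (dg K) p ν D) * (2 / dg K * (ν * Real.log p)) + (C + √C) * (8 / dg K)) := by
  have hn : (0 : ℝ) < dg K := by exact_mod_cast NeZero.pos (dg K)
  have hp1 : (1 : ℝ) ≤ p := by exact_mod_cast h.pp.one_lt.le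
  have hlp : 0 ≤ Real.log p := Real.log_nonneg hp1
  have hcK := cK_pos K
  have hI0 := absNorm_pos' h.ne
  set κ := cK K * Ideal.absNorm I with hκ
  have hκ0 : 0 < κ := by positivity
  have hsκ : 0 < √κ := Real.sqrt_pos.2 hκ0
  set G := maj (dg K) (-(2 / dg K) * Real.log κ) (2 / dg K * (ν * Real.log p)) (K0 (dg K) p ν D) C with hG
  obtain ⟨hGi, hGv⟩ := maj_int (n := (dg K : ℝ)) (t0 := -(2 / dg K) * Real.log κ)
    (V := 2 / dg K * (ν * Real.log p)) (k := K0 (dg K) p ν D) (C := C) hn (by positivity)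
  rw [← hG] at hGi hGv
  obtain ⟨hb1, hb2⟩ := box_int K hGi
  have h1 : ‖Lam b o ψ τ s‖ ≤ (√κ)⁻¹ * ∫ t, G t := by
    unfold Lam
    rw [← hb2, ← integral_const_mul]
    refine (norm_integral_le_integral_norm _).trans ?_
    refine setIntegral_mono_on (Th_WW_int h s τ).norm (hb1.const_mul _) (box_meas K) fun x _ => ?_
    rw [norm_mul, WW_norm, hs]
    have h2 := Th_maj h hD hp7 hC0 hC x
    rw [← hκ, ← hG] at h2
    rw [inv_mul_eq_div, le_div_iff₀ hsκ]
    have e1 : (1 : ℝ) / 2 * (dg K * x.2 / 2) = dg K / 4 * x.2 := by ring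
    rw [e1]
    exact h2
  rw [hGv] at h1
  have h2 : √κ = √(cK K) * √(Ideal.absNorm I) := Real.sqrt_mul hcK.le _
  have h3 : 0 < √(cK K) := Real.sqrt_pos.2 hcK
  have h4 : 0 < √(Ideal.absNorm I : ℝ) := Real.sqrt_pos.2 hI0
  calc √(Ideal.absNorm I) * ‖Lam b o ψ τ s‖ ≤ √(Ideal.absNorm I) * ((√κ)⁻¹ *
        (√(K0 (dg K) p ν D) * (2 / dg K * (ν * Real.log p)) + (C * (8 / dg K) + √C * (8 / dg K)))) :=
        mul_le_mul_of_nonneg_left h1 h4.le
    _ = _ := by
        rw [h2]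
        field_simp

end Pool.Agent.T2H29.SW
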