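import Pool.Agent.T2H29.SW.N15

/-!
# Ideal classes
-/

set_option autoImplicit false
set_option linter.unusedSectionVars false

namespace Pool.Agent.T2H29.SW

open Finset NumberField NumberField.InfinitePlace Module MeasureTheory NumberField.Units
open scoped nonZeroDivisors

variable {K : Type} [Field K] [NumberField K]

lemma nzd {J : Ideal (𝓞 K)} (h : J ≠ ⊥) : J ∈ (Ideal (𝓞 K))⁰ := mem_nonZeroDivisors_iff_ne_zero.2 h

/-- the ideals in a class -/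
def clS (C : ClassGroup (𝓞 K)) : Set (Ideal (𝓞 K)) :=
  {J | ∃ h : J ≠ ⊥, ClassGroup.mk0 ⟨J, nzd h⟩ = C}

lemma mk0_mul {I J : Ideal (𝓞 K)} (hI : I ≠ ⊥) (hJ : J ≠ ⊥) (hIJ : I * J ≠ ⊥) :
    ClassGroup.mk0 (⟨I * J, nzd hIJ⟩ : (Ideal (𝓞 K))⁰) =
      ClassGroup.mk0 ⟨I, nzd hI⟩ * ClassGroup.mk0 ⟨J, nzd hJ⟩ := by
  rw [← map_mul]
  rfl

lemma mul_ne_bot' {I J : Ideal (𝓞 K)} (hI : I ≠ ⊥) (hJ : J ≠ ⊥) : I * J ≠ ⊥ := by
  intro h
  have : I * J = 0 := h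
  rcases mul_eq_zero.1 this with h1 | h1
  · exact hI h1
  · exact hJ h1

/-- every class contains an ideal coprime to `P` -/
lemma exists_rep {P : Ideal (𝓞 K)} (hP : P.IsPrime) (hP0 : P ≠ ⊥) (C : ClassGroup (𝓞 K)) :
    ∃ (I : Ideal (𝓞 K)) (h : I ≠ ⊥), IsCoprime I P ∧ ClassGroup.mk0 ⟨I, nzd h⟩ = C := by
  obtain ⟨⟨J, hJ⟩, hJC⟩ := ClassGroup.mk0_surjective C⁻¹
  have hJ0 : J ≠ ⊥ := mem_nonZeroDivisors_iff_ne_zero.1 hJ
  have h1 : ∃ α ∈ J, α ∉ J * P := by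
    by_contra hcon
    push Not at hcon
    have h2 : J * P ∣ J * 1 := by
      rw [mul_one, Ideal.dvd_iff_le]
      exact hcon
    have h3 := (mul_dvd_mul_iff_left (show J ≠ 0 from hJ0)).1 h2
    have h4 : P = ⊤ := by
      rw [Ideal.dvd_iff_le, Ideal.one_eq_top, top_le_iff] at h3
      exact h3
    exact hP.ne_top h4
  obtain ⟨α, hα, hαP⟩ := h1
  have hα0 : α ≠ 0 := fun h => hαP (h ▸ zero_mem _)
  obtain ⟨I, hI⟩ : J ∣ Ideal.span {α} := by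
    rw [Ideal.dvd_iff_le, Ideal.span_singleton_le_iff_mem]
    exact hα
  have hI0 : I ≠ ⊥ := by
    intro h
    rw [h, Ideal.mul_bot, Ideal.span_singleton_eq_bot] at hI
    exact hα0 hI
  refine ⟨I, hI0, ?_, ?_⟩
  · have hmax : P.IsMaximal := hP.isMaximal hP0
    rw [Ideal.isCoprime_iff_sup_eq]
    refine hmax.1.2 _ (lt_of_le_of_ne le_sup_right fun h2 => hαP ?_)
    have h3 : P ∣ I := by
      rw [Ideal.dvd_iff_le, h2]
      exact le_sup_left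
    have h4 : J * P ∣ Ideal.span {α} := by
      rw [hI]
      exact mul_dvd_mul_left J h3
    rw [Ideal.dvd_iff_le, Ideal.span_singleton_le_iff_mem] at h4
    exact h4
  · have h2 := mk0_mul hJ0 hI0 (mul_ne_bot' hJ0 hI0)
    have h3 : ClassGroup.mk0 (⟨J * I, nzd (mul_ne_bot' hJ0 hI0)⟩ : (Ideal (𝓞 K))⁰) = 1 := by
      rw [ClassGroup.mk0_eq_one_iff]
      show Submodule.IsPrincipal (J * I)
      rw [← hI]
      exact ⟨⟨α, rfl⟩⟩
    rw [h3] at h2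
    have h4 : ClassGroup.mk0 (⟨J, nzd hJ0⟩ : (Ideal (𝓞 K))⁰) = C⁻¹ := hJC
    rw [h4] at h2
    have h5 := congrArg (fun y => C * y) h2
    simp only [mul_one, mul_inv_cancel_left] at h5
    exact h5.symm

/-- the map from a class to the principal ideals below `I` -/
noncomputable def toPr {I : Ideal (𝓞 K)} (hI : I ≠ ⊥) {C : ClassGroup (𝓞 K)}
    (hC : ClassGroup.mk0 ⟨I, nzd hI⟩ = C⁻¹) (J : clS C) : PrI I :=
  ⟨J.1 * I, by
    obtain ⟨J, hJ0, hJC⟩ := J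
    exact mul_ne_bot' hJ0 hI, Ideal.mul_le_right, by
    obtain ⟨J, hJ0, hJC⟩ := J
    have h1 := mk0_mul hJ0 hI (mul_ne_bot' hJ0 hI)
    rw [hJC, hC, mul_inv_cancel, ClassGroup.mk0_eq_one_iff] at h1
    exact h1⟩

lemma toPr_bij {I : Ideal (𝓞 K)} (hI : I ≠ ⊥) {C : ClassGroup (𝓞 K)}
    (hC : ClassGroup.mk0 ⟨I, nzd hI⟩ = C⁻¹) : Function.Bijective (toPr hI hC) := by
  constructor
  · intro J J' h
    have h1 : J.1 * I = J'.1 * I := congrArg Subtype.val h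
    exact Subtype.ext (mul_right_cancel₀ (show I ≠ 0 from hI) h1)
  · rintro ⟨J', hJ'0, hJ'I, hJ'p⟩
    obtain ⟨J, hJ⟩ : I ∣ J' := by rw [Ideal.dvd_iff_le]; exact hJ'I
    have hJ0 : J ≠ ⊥ := by
      intro h
      rw [h, Ideal.mul_bot] at hJ
      exact hJ'0 hJ
    have h1 := mk0_mul hJ0 hI (mul_ne_bot' hJ0 hI)
    have h2 : ClassGroup.mk0 (⟨J * I, nzd (mul_ne_bot' hJ0 hI)⟩ : (Ideal (𝓞 K))⁰) = 1 := by
      rw [ClassGroup.mk0_eq_one_iff]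
      show Submodule.IsPrincipal (J * I)
      rw [mul_comm, ← hJ]
      exact hJ'p
    rw [h2, hC] at h1
    have h3 : ClassGroup.mk0 (⟨J, nzd hJ0⟩ : (Ideal (𝓞 K))⁰) = C := by
      have := congrArg (fun y => y * C) h1
      simp only [one_mul, inv_mul_cancel_right] at this
      exact this.symm
    refine ⟨⟨J, hJ0, h3⟩, ?_⟩
    apply Subtype.ext
    show J * I = J'
    rw [hJ, mul_comm]

/-- from the principal ideals below `I` to a class -/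
theorem cl_hasSum {I : Ideal (𝓞 K)} (hI : I ≠ ⊥) {C : ClassGroup (𝓞 K)}
    (hC : ClassGroup.mk0 ⟨I, nzd hI⟩ = C⁻¹) {χ : Ideal (𝓞 K) →* ℂ} (hχI : χ I ≠ 0) {s S : ℂ}
    (h : HasSum (fun J : PrI I => χ J.1 * (Ideal.absNorm J.1 : ℂ) ^ (-s)) S) :
    HasSum (fun J : clS C => χ J.1 * (Ideal.absNorm J.1 : ℂ) ^ (-s))
      ((χ I)⁻¹ * (Ideal.absNorm I : ℂ) ^ s * S) := by
  have h1 := (Equiv.ofBijective _ (toPr_bij hI hC)).hasSum_iff.2 h
  have h2 := h1.mul_left ((χ I)⁻¹ * (Ideal.absNorm I : ℂ) ^ s)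
  refine h2.congr_fun ?_ |> id
  intro J
  show _ = (χ I)⁻¹ * (Ideal.absNorm I : ℂ) ^ s * (χ (J.1 * I) * (Ideal.absNorm (J.1 * I) : ℂ) ^ (-s))
  have hI0 : ((Ideal.absNorm I : ℕ) : ℂ) ≠ 0 := by
    have := absNorm_pos' hI
    exact_mod_cast this.ne'
  rw [map_mul, map_mul, Nat.cast_mul, Complex.natCast_mul_natCast_cpow]
  have h3 : ((Ideal.absNorm I : ℕ) : ℂ) ^ s * ((Ideal.absNorm I : ℕ) : ℂ) ^ (-s) = 1 := by
    rw [← Complex.cpow_add _ _ hI0, add_neg_cancel, Complex.cpow_zero]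
  calc χ J.1 * ((Ideal.absNorm J.1 : ℕ) : ℂ) ^ (-s) = χ J.1 * ((Ideal.absNorm J.1 : ℕ) : ℂ) ^ (-s) *
        ((χ I)⁻¹ * χ I) * (((Ideal.absNorm I : ℕ) : ℂ) ^ s * ((Ideal.absNorm I : ℕ) : ℂ) ^ (-s)) := by
        rw [h3, inv_mul_cancel₀ hχI]; ring
    _ = _ := by ring

/-- the sum over all ideals -/
theorem all_hasSum {f : Ideal (𝓞 K) → ℂ} (hf : f ⊥ = 0) {S : ClassGroup (𝓞 K) → ℂ}
    (h : ∀ C, HasSum (fun J : clS C => f J.1) (S C)) : HasSum f (∑ C, S C) := by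
  have h1 : ∀ C, HasSum ((clS C).indicator f) (S C) := fun C => hasSum_subtype_iff_indicator.1 (h C)
  have h2 := hasSum_sum (s := univ) fun C _ => h1 C
  refine h2.congr_fun ?_ |> id
  intro J
  by_cases hJ : J = ⊥
  · rw [hJ, hf]
    symm
    refine sum_eq_zero fun C _ => ?_
    rw [Set.indicator_apply_eq_zero]
    intro _
    exact hf
  · rw [sum_eq_single (ClassGroup.mk0 ⟨J, nzd hJ⟩)]
    · rw [Set.indicator_of_mem]
      exact ⟨hJ, rfl⟩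
    · intro C _ hC
      rw [Set.indicator_of_notMem]
      rintro ⟨_, h3⟩
      exact hC h3.symm
    · intro h3
      exact absurd (mem_univ _) h3

end Pool.Agent.T2H29.SW
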