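import Pool.Agent.T2H29.SW.N16

/-!
# The main theorem
-/

set_option autoImplicit false
set_option linter.unusedSectionVars false

namespace Pool.Agent.T2H29.SW

open Finset NumberField NumberField.InfinitePlace Module MeasureTheory NumberField.Units
open scoped nonZeroDivisors

lemma sq_le_exp {y ε : ℝ} (hy : 0 ≤ y) (hε : 0 < ε) : y ^ 2 ≤ 2 / ε ^ 2 * Real.exp (ε * y) := by
  have h1 := Real.quadratic_le_exp_of_nonneg (x := ε * y) (by positivity)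
  have h2 : (ε * y) ^ 2 / 2 ≤ Real.exp (ε * y) := by
    have : 0 ≤ ε * y := by positivity
    linarith
  calc y ^ 2 = 2 / ε ^ 2 * ((ε * y) ^ 2 / 2) := by field_simp
    _ ≤ _ := mul_le_mul_of_nonneg_left h2 (by positivity)

/-- the numerical bound -/
lemma num_bd (n : ℕ) (hn : 0 < n) {D : ℝ} (hD : 1 ≤ D) {ε : ℝ} (hε : 0 < ε) {C1 : ℝ} (hC1 : 0 ≤ C1) :
    ∃ C : ℝ, 0 < C ∧ ∀ (p ν : ℕ), 7 ≤ p → 1 ≤ ν →
    √(K0 n p ν D) * (2 / n * (ν * Real.log p)) + C1 ≤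
      C * (p : ℝ) ^ 4 * ((p : ℝ) ^ ν) ^ ((19 : ℝ) / 116 + ε) := by
  have hn0 : (0 : ℝ) < n := by exact_mod_cast hn
  refine ⟨√(14 * 2 ^ n * D ^ 3) * (2 / n) * (2 / ε ^ 2) + C1, ?_, fun p ν hp hν => ?_⟩
  · have : 0 < √(14 * 2 ^ n * D ^ 3) := Real.sqrt_pos.2 (by positivity)
    positivity
  have hp0 : (0 : ℝ) < p := by exact_mod_cast (by omega : 0 < p)
  have hp1 : (1 : ℝ) ≤ p := by exact_mod_cast (by omega : 1 ≤ p)
  have hp7 : (7 : ℝ) ≤ p := by exact_mod_cast hp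
  have hν1 : (1 : ℝ) ≤ ν := by exact_mod_cast hν
  have hlp : 1 ≤ Real.log p := by
    rw [Real.le_log_iff_exp_le hp0]
    have := Real.exp_one_lt_d9
    linarith
  set y := (ν : ℝ) * Real.log p with hy
  have hy0 : 0 ≤ y := by positivity
  have hνy : (ν : ℝ) ≤ y := le_mul_of_one_le_right (by positivity) hlp
  set X := (p : ℝ) ^ ν with hX
  have hX0 : 0 < X := by positivity
  have hX1 : 1 ≤ X := one_le_pow₀ hp1
  have hXe : Real.exp (ε * y) = X ^ ε := by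
    rw [Real.rpow_def_of_pos hX0, hX, Real.log_pow]
    congr 1
    ring
  have h1 : √(K0 n p ν D) ≤ √(14 * 2 ^ n * D ^ 3) * ν * ((p : ℝ) ^ 4 * X ^ ((19 : ℝ) / 116)) := by
    have e1 : K0 n p ν D = (14 * 2 ^ n * D ^ 3) * (ν : ℝ) ^ 2 * (p : ℝ) ^ ((19 * ν + 57) / 58 + 6) := by
      unfold K0; ring
    rw [e1, Real.sqrt_mul (by positivity), Real.sqrt_mul (by positivity), Real.sqrt_sq (by positivity)]
    refine mul_le_mul_of_nonneg_left ?_ (by positivity)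
    rw [Real.sqrt_eq_rpow, ← Real.rpow_natCast, ← Real.rpow_mul hp0.le]
    have e2 : (p : ℝ) ^ 4 * X ^ ((19 : ℝ) / 116) = (p : ℝ) ^ (4 + (ν : ℝ) * ((19 : ℝ) / 116)) := by
      rw [Real.rpow_add hp0, hX, ← Real.rpow_natCast (p : ℝ) ν, ← Real.rpow_mul hp0.le]
      norm_num
    rw [e2]
    refine Real.rpow_le_rpow_of_exponent_le hp1 ?_
    have h2 : (((19 * ν + 57) / 58 : ℕ) : ℝ) ≤ (19 * ν + 57) / 58 := by
      have := @Nat.cast_div_le ℝ _ _ _ (19 * ν + 57) 58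
      push_cast at this
      exact this
    push_cast
    linarith
  have h2 : (ν : ℝ) * y ≤ 2 / ε ^ 2 * X ^ ε := by
    rw [← hXe]
    refine le_trans ?_ (sq_le_exp hy0 hε)
    rw [pow_two]
    exact mul_le_mul_of_nonneg_right hνy hy0
  have h3 : 1 ≤ (p : ℝ) ^ 4 * X ^ ((19 : ℝ) / 116 + ε) :=
    one_le_mul_of_one_le_of_one_le (one_le_pow₀ hp1) (Real.one_le_rpow hX1 (by positivity))
  have h4 : √(K0 n p ν D) * (2 / n * y) ≤ √(14 * 2 ^ n * D ^ 3) * (2 / n) * (2 / ε ^ 2) *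
      ((p : ℝ) ^ 4 * X ^ ((19 : ℝ) / 116 + ε)) := by
    calc √(K0 n p ν D) * (2 / n * y) ≤ √(14 * 2 ^ n * D ^ 3) * ν * ((p : ℝ) ^ 4 * X ^ ((19 : ℝ) / 116)) *
          (2 / n * y) := mul_le_mul_of_nonneg_right h1 (by positivity)
      _ = √(14 * 2 ^ n * D ^ 3) * (2 / n) * ((p : ℝ) ^ 4 * X ^ ((19 : ℝ) / 116)) * (ν * y) := by ring
      _ ≤ √(14 * 2 ^ n * D ^ 3) * (2 / n) * ((p : ℝ) ^ 4 * X ^ ((19 : ℝ) / 116)) * (2 / ε ^ 2 * X ^ ε) :=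
          mul_le_mul_of_nonneg_left h2 (by positivity)
      _ = _ := by
          rw [Real.rpow_add hX0]; ring
  calc _ ≤ √(14 * 2 ^ n * D ^ 3) * (2 / n) * (2 / ε ^ 2) *
      ((p : ℝ) ^ 4 * X ^ ((19 : ℝ) / 116 + ε)) + C1 * ((p : ℝ) ^ 4 * X ^ ((19 : ℝ) / 116 + ε)) :=
        add_le_add h4 (le_mul_of_one_le_right hC1 h3)
    _ = _ := by ring

variable {K : Type} [Field K] [NumberField K]

/-- the data of a class -/
theorem exists_data {P : Ideal (𝓞 K)} {p ν : ℕ} (h : Deg1 P p) (hp : p.Prime) (hν : 1 ≤ ν)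
    {ρ : 𝓞 K →+* ZMod (p ^ ν)} (hρ : Red P p ν ρ) {ψ : DirichletCharacter ℂ (p ^ ν)}
    (hψ : ψ.IsPrimitive) {B : ℝ}
    (hB : ∀ (P : Ideal (𝓞 K)) (p ν : ℕ) (ρ : 𝓞 K →+* ZMod (p ^ ν)),
    Deg1 P p → p.Prime → Red P p ν ρ → ∀ (I : Ideal (𝓞 K)), I ≠ ⊥ → IsCoprime I P →
    ∀ (b : Basis (Fin (dg K)) ℤ I) (o : Fin (dg K)) (u : ZMod (p ^ ν)),
    (∀ z, ρ (el b z) = (z o : ZMod (p ^ ν)) * u) → ∀ x : LS K, Bal p o ν B (AX b x))
    (C : ClassGroup (𝓞 K)) : ∃ (I : Ideal (𝓞 K)) (hI : I ≠ ⊥), IsCoprime I P ∧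
    ClassGroup.mk0 ⟨I, nzd hI⟩ = C⁻¹ ∧ ∃ (b : Basis (Fin (dg K)) ℤ I) (o : Fin (dg K))
    (u : ZMod (p ^ ν)), IsUnit u ∧ (∀ z, ρ (el b z) = (z o : ZMod (p ^ ν)) * u) ∧
    Setg p ν B I b o ψ := by
  obtain ⟨I, hI, hco, hC⟩ := exists_rep h.prime (h.ne_bot hp) C⁻¹
  obtain ⟨b, o, u, hu, hz⟩ := exists_basis hρ h hp hν hI hco
  exact ⟨I, hI, hco, hC, b, o, u, hu, hz, ⟨hp, hν, hI, hψ, hB P p ν ρ h hp hρ I hI hco b o u hz⟩⟩

/-- one class -/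
theorem class_L {p ν : ℕ} {τ : InfinitePlace K → ℝ} {χ : Ideal (𝓞 K) →* ℂ}
    {ρ : 𝓞 K →+* ZMod (p ^ ν)} {B : ℝ} {I : Ideal (𝓞 K)} {b : Basis (Fin (dg K)) ℤ I}
    {o : Fin (dg K)} {ψ : DirichletCharacter ℂ (p ^ ν)} (h : Setg p ν B I b o ψ) {u : ZMod (p ^ ν)}
    (hu : ∀ z, ρ (el b z) = (z o : ZMod (p ^ ν)) * u)
    (hψ : ∀ α : 𝓞 K, χ (Ideal.span {α}) = ψ (ρ α) * infT τ (α : K)) (hχI : χ I ≠ 0)
    {c : ℝ} (hc0 : 0 < c)
    (hc : ∀ G : (InfinitePlace K → ℝ) → ℂ, (∫ x, G (UU K x) = (c : ℂ) * ∫ u, G u) ∧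
      (Integrable G → Integrable fun x => G (UU K x))) {C : ClassGroup (𝓞 K)} (hI : I ≠ ⊥)
    (hC : ClassGroup.mk0 ⟨I, nzd hI⟩ = C⁻¹) {s : ℂ} (hs : 1 < s.re) :
    HasSum (fun J : clS C => χ J.1 * (Ideal.absNorm J.1 : ℂ) ^ (-s))
      ((χ I)⁻¹ * (Ideal.absNorm I : ℂ) ^ s *
        (((torsionOrder K : ℂ) * c)⁻¹ * Gi K s τ * (ψ u * Lam b o ψ τ s))) := by
  have hν : 1 < p ^ ν := Nat.one_lt_pow (by have := h.nu; omega) h.pp.one_lt
  haveI : Fact (1 < p ^ ν) := ⟨hν⟩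
  have hs0 : 0 < s.re := by linarith
  refine cl_hasSum hI hC hχI ?_
  have h1 := el_hasSum (τ := τ) (χ := χ) h hu hψ hs hc
  have hF0 : (fun α : 𝓞 K => ∫ x in box K, TT s τ χ α x) 0 = 0 := by
    simp only
    have : ∀ x, TT s τ χ 0 x = 0 := by
      intro x
      unfold TT
      rw [hψ, map_zero, MulChar.map_zero]
      ring
    simp_rw [this]
    simp
  have h2 := class_hasSum b (F := fun α : 𝓞 K => ∫ x in box K, TT s τ χ α x) hF0 h1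
    (G := fun J : PrI I => (torsionOrder K : ℂ) * ((c * Gf K s τ) * (χ (Ideal.span {J.gen}) *
        (Ideal.absNorm (Ideal.span {J.gen}) : ℂ) ^ (-s)))) (fun J => TT_units hs0 τ χ hc J.gen_ne)
  have h3 := h2.mul_left (((torsionOrder K : ℂ) * c)⁻¹ * Gi K s τ)
  refine h3.congr_fun ?_ |> id
  intro J
  rw [J.span]
  have hw : (torsionOrder K : ℂ) ≠ 0 := by exact_mod_cast torsionOrder_ne_zero K
  have hcc : (c : ℂ) ≠ 0 := by exact_mod_cast hc0.ne'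
  have hG := Gf_mul_Gi K hs0 τ
  calc χ J.1 * (Ideal.absNorm J.1 : ℂ) ^ (-s) = (Gf K s τ * Gi K s τ) * (χ J.1 * (Ideal.absNorm J.1 : ℂ) ^ (-s)) := by
        rw [hG, one_mul]
    _ = _ := by
        field_simp

/-- the main theorem -/
theorem main_thm (K : Type) [Field K] [NumberField K] (R ε : ℝ) (hε : 0 < ε) : ∃ C : ℝ, 0 < C ∧
    ∀ (P : Ideal (𝓞 K)) (p ν : ℕ) (τ : InfinitePlace K → ℝ) (χ : Ideal (𝓞 K) →* ℂ),
    p.Prime → 7 ≤ p → Deg1 P p → 1 ≤ ν → Hecke P ν τ χ →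
    ∃ L : ℂ → ℂ, Differentiable ℂ L ∧
    (∀ s : ℂ, 1 < s.re →
      HasSum (fun J : Ideal (𝓞 K) => χ J * (Ideal.absNorm J : ℂ) ^ (-s)) (L s)) ∧
    ((∀ w, |τ w| ≤ R) → ∀ t : ℝ, |t| ≤ R →
      ‖L (1 / 2 + t * Complex.I)‖ ≤ C * (p : ℝ) ^ 4 * ((p : ℝ) ^ ν) ^ ((19 : ℝ) / 116 + ε)) := by
  haveI : Nonempty (Fin (dg K)) := ⟨0⟩
  obtain ⟨B, hB1, hB⟩ := exists_Bal K
  obtain ⟨c, hc0, hc⟩ := UU_int K
  obtain ⟨Ct, hCt0, hCt⟩ := tails (ι := Fin (dg K)) B 2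
  obtain ⟨Cg, hCg0, hCg⟩ := Gi_bd K R
  set D := max 1 (max (2 * B) (B * (1 + √2 ^ (dg K)))) with hDd
  have hD : DD (dg K) B D := ⟨le_max_left _ _, (le_max_left _ _).trans (le_max_right _ _),
    (le_max_right _ _).trans (le_max_right _ _)⟩
  have hn : 0 < dg K := NeZero.pos (dg K)
  have hn0 : (0 : ℝ) < dg K := by exact_mod_cast hn
  obtain ⟨Cn, hCn0, hCn⟩ := num_bd (dg K) hn hD.one hε (C1 := (Ct + √Ct) * (8 / dg K)) (by positivity)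
  have hcK := cK_pos K
  have hwc : 0 < (torsionOrder K : ℝ) * c := by
    have : (0 : ℝ) < torsionOrder K := by exact_mod_cast torsionOrder_pos K
    positivity
  have hsc : 0 < √(cK K) := Real.sqrt_pos.2 hcK
  have hcard : (0 : ℝ) < Fintype.card (ClassGroup (𝓞 K)) := by
    exact_mod_cast Fintype.card_pos
  refine ⟨Fintype.card (ClassGroup (𝓞 K)) * (((torsionOrder K : ℝ) * c)⁻¹ * Cg * ((√(cK K))⁻¹ * Cn)),
    by positivity, fun P p ν τ χ hp hp7 h hν hχ => ?_⟩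
  obtain ⟨ρ, hρ⟩ := exists_red h hp hν
  obtain ⟨ψ, hψp, hψ⟩ := exists_dir h hp hν hρ hχ
  have hbot : χ ⊥ = 0 := by
    refine hχ.zero _ fun h1 => ?_
    rw [Ideal.isCoprime_iff_sup_eq, bot_sup_eq] at h1
    exact h.prime.ne_top h1
  choose I hI hco hC b o u hu hz hS using exists_data h hp hν hρ hψp hB
  set L : ℂ → ℂ := fun s => ∑ C : ClassGroup (𝓞 K), ((χ (I C))⁻¹ * (Ideal.absNorm (I C) : ℂ) ^ s *
    (((torsionOrder K : ℂ) * c)⁻¹ * Gi K s τ * (ψ (u C) * Lam (b C) (o C) ψ τ s))) with hL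
  have hχn : ∀ C, ‖χ (I C)‖ = 1 := fun C => hχ.norm _ (hco C)
  have hχ0 : ∀ C, χ (I C) ≠ 0 := by
    intro C h1
    have := hχn C
    rw [h1, norm_zero] at this
    exact zero_ne_one this
  refine ⟨L, ?_, ?_, ?_⟩
  · rw [hL]
    refine Differentiable.fun_sum fun C _ => ?_
    have h1 := Lam_diff (hS C) τ
    have h2 := Gi_diff K τ
    refine Differentiable.mul (Differentiable.mul (differentiable_const _) ?_)
      (Differentiable.mul (Differentiable.mul (differentiable_const _) h2)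
        (Differentiable.mul (differentiable_const _) h1))
    refine Differentiable.const_cpow differentiable_id (Or.inl ?_)
    have := absNorm_pos' (hI C)
    exact_mod_cast this.ne'
  · intro s hs
    refine all_hasSum (f := fun J : Ideal (𝓞 K) => χ J * (Ideal.absNorm J : ℂ) ^ (-s)) ?_ fun C => ?_
    · rw [hbot, zero_mul]
    · exact class_L (hS C) (hz C) hψ (hχ0 C) hc0 hc (hI C) (hC C) hs
  · intro hτ t ht
    rw [hL]
    simp only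
    refine (norm_sum_le _ _).trans ?_
    have h1 : ∀ C : ClassGroup (𝓞 K), ‖(χ (I C))⁻¹ * (Ideal.absNorm (I C) : ℂ) ^ (1 / 2 + t * Complex.I : ℂ) *
        (((torsionOrder K : ℂ) * c)⁻¹ * Gi K (1 / 2 + t * Complex.I) τ *
        (ψ (u C) * Lam (b C) (o C) ψ τ (1 / 2 + t * Complex.I)))‖ ≤
        ((torsionOrder K : ℝ) * c)⁻¹ * Cg * ((√(cK K))⁻¹ * Cn) *
        ((p : ℝ) ^ 4 * ((p : ℝ) ^ ν) ^ ((19 : ℝ) / 116 + ε)) := by
      intro C
      have hre : (1 / 2 + t * Complex.I : ℂ).re = 1 / 2 := by simp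
      have h2 := Lam_crit (hS C) hD hp7 hCt0 hCt τ hre
      have h3 := hCn p ν hp7 hν
      have h4 := hCg t τ ht hτ
      have hI0 := absNorm_pos' (hI C)
      have e1 : ‖(Ideal.absNorm (I C) : ℂ) ^ (1 / 2 + t * Complex.I : ℂ)‖ = √(Ideal.absNorm (I C)) := by
        have e2 : ((Ideal.absNorm (I C) : ℕ) : ℂ) = (((Ideal.absNorm (I C) : ℕ) : ℝ) : ℂ) := by
          push_cast; rfl
        rw [e2, Complex.norm_cpow_eq_rpow_re_of_pos hI0, hre, Real.sqrt_eq_rpow]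
      have e3 : ‖((torsionOrder K : ℂ) * c)⁻¹‖ = ((torsionOrder K : ℝ) * c)⁻¹ := by
        rw [norm_inv]
        congr 1
        have : ((torsionOrder K : ℂ) * c) = (((torsionOrder K : ℝ) * c : ℝ) : ℂ) := by
          push_cast; rfl
        rw [this, Complex.norm_real, Real.norm_of_nonneg hwc.le]
      have e4 : ‖ψ (u C)‖ ≤ 1 := ψ.norm_le_one _
      rw [norm_mul, norm_mul, norm_inv, hχn, inv_one, one_mul, norm_mul, norm_mul, norm_mul, e1, e3]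
      set Λ := ‖Lam (b C) (o C) ψ τ (1 / 2 + t * Complex.I)‖ with hΛ
      have hΛ0 : 0 ≤ Λ := norm_nonneg _
      calc √(Ideal.absNorm (I C)) * (((torsionOrder K : ℝ) * c)⁻¹ * ‖Gi K (1 / 2 + t * Complex.I) τ‖ *
            (‖ψ (u C)‖ * Λ)) ≤ √(Ideal.absNorm (I C)) * (((torsionOrder K : ℝ) * c)⁻¹ * Cg * (1 * Λ)) := by
            gcongr
        _ = ((torsionOrder K : ℝ) * c)⁻¹ * Cg * (√(Ideal.absNorm (I C)) * Λ) := by ring
        _ ≤ ((torsionOrder K : ℝ) * c)⁻¹ * Cg * ((√(cK K))⁻¹ * (Cn * (p : ℝ) ^ 4 *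
            ((p : ℝ) ^ ν) ^ ((19 : ℝ) / 116 + ε))) := by
            refine mul_le_mul_of_nonneg_left (h2.trans ?_) (by positivity)
            exact mul_le_mul_of_nonneg_left h3 (by positivity)
        _ = _ := by ring
    refine (sum_le_sum fun C _ => h1 C).trans ?_
    rw [sum_const, card_univ, nsmul_eq_mul]
    exact le_of_eq (by ring)

end Pool.Agent.T2H29.SW
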