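import Pool.Agent.T2H29.SW.N1

/-!
# Matrices of the ideal lattices of a number field
-/

set_option autoImplicit false
set_option linter.unusedSectionVars false

namespace Pool.Agent.T2H29.SW

open Finset NumberField NumberField.InfinitePlace NumberField.mixedEmbedding Module

variable (K : Type) [Field K] [NumberField K]

/-- the degree -/
noncomputable abbrev dg : ℕ := finrank ℚ K

instance : NeZero (dg K) := ⟨(finrank_pos (R := ℚ) (M := K)).ne'⟩

open scoped Classical in
/-- enumeration of the real coordinates -/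
noncomputable def eI : Fin (dg K) ≃ index K :=
  Fintype.equivOfCardEq (by
    rw [Fintype.card_fin, Fintype.card_congr (indexEquiv K), Embeddings.card])

/-- the place of a real coordinate -/
def pI : index K → InfinitePlace K
  | Sum.inl w => w.1
  | Sum.inr wj => wj.1.1

/-- the place of a real coordinate -/
noncomputable def plc (i : Fin (dg K)) : InfinitePlace K := pI K (eI K i)

/-- the scaled real coordinates -/
noncomputable def co (i : Fin (dg K)) : K →+ ℝ where
  toFun α := √(mult (plc K i)) * (stdBasis K).repr (mixedEmbedding K α) (eI K i)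
  map_zero' := by simp
  map_add' x y := by rw [map_add, map_add, Finsupp.add_apply]; ring

open scoped Classical in
lemma sum_index (f : index K → ℝ) (g : InfinitePlace K → ℝ)
    (h1 : ∀ w : {w : InfinitePlace K // IsReal w}, f (Sum.inl w) = g w.1)
    (h2 : ∀ w : {w : InfinitePlace K // IsComplex w}, f (Sum.inr (w, 0)) + f (Sum.inr (w, 1)) = g w.1) :
    ∑ i, f i = ∑ w, g w := by
  rw [sum_eq_sum_add_sum, Fintype.sum_sum_type, Fintype.sum_prod_type]
  congr 1
  · exact sum_congr rfl fun w _ => h1 w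
  · refine sum_congr rfl fun w _ => ?_
    rw [Fin.sum_univ_two, h2]

open scoped Classical in
lemma prod_index (f : index K → ℝ) (g : InfinitePlace K → ℝ)
    (h1 : ∀ w : {w : InfinitePlace K // IsReal w}, f (Sum.inl w) = g w.1)
    (h2 : ∀ w : {w : InfinitePlace K // IsComplex w}, f (Sum.inr (w, 0)) * f (Sum.inr (w, 1)) = g w.1) :
    ∏ i, f i = ∏ w, g w := by
  rw [prod_eq_prod_mul_prod, Fintype.prod_sum_type, Fintype.prod_prod_type]
  congr 1
  · exact prod_congr rfl fun w _ => h1 w
  · refine prod_congr rfl fun w _ => ?_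
    rw [Fin.prod_univ_two, h2]

open scoped Classical in
lemma sum_co (X : InfinitePlace K → ℝ) (α : K) :
    ∑ i, X (plc K i) * co K i α ^ 2 = ∑ w, X w * (mult w * (w α) ^ 2) := by
  have e1 : ∑ i, X (plc K i) * co K i α ^ 2 = ∑ j : index K, X (pI K j) *
      (√(mult (pI K j)) * (stdBasis K).repr (mixedEmbedding K α) j) ^ 2 :=
    (eI K).sum_comp fun j => X (pI K j) *
      (√(mult (pI K j)) * (stdBasis K).repr (mixedEmbedding K α) j) ^ 2
  rw [e1]
  refine sum_index K _ _ ?_ ?_
  · intro w
    simp only [pI]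
    rw [stdBasis_apply_isReal, mixedEmbedding_apply_isReal, mul_pow, Real.sq_sqrt (by positivity),
      ← norm_embedding_of_isReal w.2, Real.norm_eq_abs, sq_abs]
  · intro w
    simp only [pI]
    rw [stdBasis_apply_isComplex_fst, stdBasis_apply_isComplex_snd, mixedEmbedding_apply_isComplex,
      mul_pow, mul_pow, Real.sq_sqrt (by positivity), ← norm_embedding_eq w.1, Complex.sq_norm,
      Complex.normSq_apply]
    ring

open scoped Classical in
lemma prod_plc (X : InfinitePlace K → ℝ) : ∏ i, X (plc K i) = ∏ w, X w ^ mult w := by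
  have e1 : ∏ i, X (plc K i) = ∏ j : index K, X (pI K j) := (eI K).prod_comp fun j => X (pI K j)
  rw [e1]
  refine prod_index K _ _ ?_ ?_
  · intro w
    rw [mult_isReal, pow_one]; rfl
  · intro w
    rw [mult_isComplex, pow_two]; rfl

variable {K}

/-- the matrix of an ideal with a basis, with scaling `X` -/
noncomputable def MX (X : InfinitePlace K → ℝ) {I : Ideal (𝓞 K)} (b : Basis (Fin (dg K)) ℤ I) :
    Matrix (Fin (dg K)) (Fin (dg K)) ℝ := fun i j => √(X (plc K i)) * co K i (((b j : I) : 𝓞 K) : K)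

/-- the element with given coordinates -/
noncomputable def el {I : Ideal (𝓞 K)} (b : Basis (Fin (dg K)) ℤ I) (z : Fin (dg K) → ℤ) : 𝓞 K :=
  ((∑ j, z j • b j : I) : 𝓞 K)

lemma co_el {I : Ideal (𝓞 K)} (b : Basis (Fin (dg K)) ℤ I) (z : Fin (dg K) → ℤ) (i : Fin (dg K)) :
    co K i (el b z : K) = ∑ j, (z j : ℝ) * co K i (((b j : I) : 𝓞 K) : K) := by
  unfold el
  rw [Submodule.coe_sum]
  push_cast
  rw [map_sum]
  refine sum_congr rfl fun j _ => ?_
  rw [map_zsmul, zsmul_eq_mul]

lemma MX_mulVec {X : InfinitePlace K → ℝ} {I : Ideal (𝓞 K)} (b : Basis (Fin (dg K)) ℤ I)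
    (z : Fin (dg K) → ℤ) (i : Fin (dg K)) :
    (MX X b).mulVec (cz z) i = √(X (plc K i)) * co K i (el b z : K) := by
  rw [co_el, mul_sum]
  unfold Matrix.mulVec dotProduct MX cz
  refine sum_congr rfl fun j _ => ?_
  ring

/-- the quadratic form -/
lemma q_MX {X : InfinitePlace K → ℝ} (hX : ∀ w, 0 ≤ X w) {I : Ideal (𝓞 K)}
    (b : Basis (Fin (dg K)) ℤ I) (z : Fin (dg K) → ℤ) :
    q (MX X b) (cz z) = ∑ w, X w * (mult w * (w (el b z : K)) ^ 2) := by
  unfold q
  rw [← sum_co]
  refine sum_congr rfl fun i _ => ?_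
  rw [MX_mulVec, mul_pow, Real.sq_sqrt (hX _)]

lemma det_MX (X : InfinitePlace K → ℝ) {I : Ideal (𝓞 K)} (b : Basis (Fin (dg K)) ℤ I) :
    (MX X b).det = √(∏ w, X w ^ mult w) * (MX (fun _ => 1) b).det ∨ ∃ w, X w < 0 := by
  by_cases h : ∃ w, X w < 0
  · exact Or.inr h
  left
  push Not at h
  have e1 : MX X b = Matrix.of fun i j => √(X (plc K i)) * (MX (fun _ => 1) b) i j := by
    ext i j
    unfold MX
    simp
  rw [e1, Matrix.det_mul_column, ← prod_plc]
  congr 1
  rw [Real.sqrt_prod _ (fun i _ => h _)]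

variable (K)

/-- a basis of the ring of integers -/
noncomputable def bO : Basis (Fin (dg K)) ℤ (𝓞 K) :=
  (RingOfIntegers.basis K).reindex (Fintype.equivOfCardEq (by
    rw [Fintype.card_fin, ← finrank_eq_card_chooseBasisIndex, RingOfIntegers.rank]))

/-- the matrix of the ring of integers -/
noncomputable def M0 : Matrix (Fin (dg K)) (Fin (dg K)) ℝ := fun i j => co K i ((bO K j : 𝓞 K) : K)

/-- its determinant -/
noncomputable def cK : ℝ := |(M0 K).det|

lemma cK_pos : 0 < cK K := by
  unfold cK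
  rw [abs_pos]
  -- the basis of the mixed space
  set e' : Free.ChooseBasisIndex ℤ (𝓞 K) ≃ Fin (dg K) := Fintype.equivOfCardEq (by
    rw [Fintype.card_fin, ← finrank_eq_card_chooseBasisIndex, RingOfIntegers.rank]) with he'
  set sb := (stdBasis K).reindex (eI K).symm with hsb
  set lb := (latticeBasis K).reindex e' with hlb
  have e1 : M0 K = Matrix.of fun i j => √(mult (plc K i)) * (sb.toMatrix lb) i j := by
    ext i j
    unfold M0 co bO
    simp only [AddMonoidHom.coe_mk, ZeroHom.coe_mk, Matrix.of_apply, Basis.toMatrix_apply, hsb, hlb,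
      Basis.reindex_apply, Basis.repr_reindex_apply, Equiv.symm_symm, latticeBasis_apply]
    rw [integralBasis_apply]
  rw [e1, Matrix.det_mul_column]
  refine mul_ne_zero (prod_ne_zero_iff.2 fun i _ => ?_) ?_
  · have : (0 : ℝ) < mult (plc K i) := by exact_mod_cast mult_pos
    exact (Real.sqrt_pos.2 this).ne'
  · intro h
    have h1 := congrArg Matrix.det (sb.toMatrix_mul_toMatrix_flip lb)
    rw [Matrix.det_mul, h, zero_mul, Matrix.det_one] at h1
    exact zero_ne_one h1

variable {K}

/-- the determinant for an ideal -/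
lemma det_MX_one {I : Ideal (𝓞 K)} (b : Basis (Fin (dg K)) ℤ I) :
    |(MX (fun _ => 1) b).det| = cK K * Ideal.absNorm I := by
  set C : Matrix (Fin (dg K)) (Fin (dg K)) ℤ := (bO K).toMatrix (fun j => ((b j : I) : 𝓞 K)) with hC
  have e1 : MX (fun _ => 1) b = M0 K * C.map (Int.cast : ℤ → ℝ) := by
    ext i j
    rw [Matrix.mul_apply]
    unfold MX M0
    rw [Real.sqrt_one, one_mul]
    have h1 := (bO K).sum_toMatrix_smul_self (fun j => ((b j : I) : 𝓞 K)) j
    rw [← h1]
    push_cast
    rw [map_sum]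
    refine sum_congr rfl fun k _ => ?_
    rw [map_zsmul, zsmul_eq_mul, Matrix.map_apply, hC, mul_comm]
  have h2 := Ideal.natAbs_det_basis_change (bO K) I b
  have h3 : (C.map (Int.cast : ℤ → ℝ)).det = ((C.det : ℤ) : ℝ) := by
    have := (Int.castRingHom ℝ).map_det C
    simpa using this.symm
  rw [e1, Matrix.det_mul, abs_mul, h3]
  unfold cK
  congr 1
  rw [← h2, Nat.cast_natAbs, Int.cast_abs]
  congr 2

end Pool.Agent.T2H29.SW
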