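import Pool.Agent.T2H29.SW.N2

/-!
# Reduction modulo a power of a prime of degree one
-/

set_option autoImplicit false
set_option linter.unusedSectionVars false

namespace Pool.Agent.T2H29.SW

open Finset NumberField NumberField.InfinitePlace Module
open Pool.Agent.Y779.R3 (unit_or not_unit_pi pi_zero)

variable {K : Type} [Field K] [NumberField K]

lemma coe_zs {I : Ideal (𝓞 K)} (n : ℤ) (x : I) : ((n • x : I) : 𝓞 K) = n • (x : 𝓞 K) := by
  push_cast; rfl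

/-- a prime of degree one, unramified -/
structure Deg1 (P : Ideal (𝓞 K)) (p : ℕ) : Prop where
  prime : P.IsPrime
  norm : Ideal.absNorm P = p
  ram : (p : 𝓞 K) ∉ P ^ 2

variable {P : Ideal (𝓞 K)} {p : ℕ}

lemma Deg1.ne_bot (h : Deg1 P p) (hp : p.Prime) : P ≠ ⊥ := by
  intro h0
  have := h.norm
  rw [h0, Ideal.absNorm_bot] at this
  exact hp.ne_zero this.symm

lemma Deg1.mem (h : Deg1 P p) : (p : 𝓞 K) ∈ P := by
  have := Ideal.absNorm_mem P
  rwa [h.norm] at this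

lemma Deg1.pr (h : Deg1 P p) (hp : p.Prime) : Prime P :=
  Ideal.prime_of_isPrime (h.ne_bot hp) h.prime

/-- `p^j γ ∈ P^(j+1)` only if `γ ∈ P` -/
lemma Deg1.val (h : Deg1 P p) (hp : p.Prime) {j : ℕ} {γ : 𝓞 K}
    (hm : (p : 𝓞 K) ^ j * γ ∈ P ^ (j + 1)) : γ ∈ P := by
  have hP0 := h.ne_bot hp
  have hPr := h.pr hp
  obtain ⟨J, hJ⟩ : P ∣ Ideal.span {(p : 𝓞 K)} := by
    rw [Ideal.dvd_iff_le, Ideal.span_singleton_le_iff_mem]
    exact h.mem
  have hPJ : ¬ P ∣ J := by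
    intro hd
    apply h.ram
    have h1 : P ^ 2 ∣ Ideal.span {(p : 𝓞 K)} := by
      rw [hJ, pow_two]
      exact mul_dvd_mul_left _ hd
    rw [Ideal.dvd_iff_le, Ideal.span_singleton_le_iff_mem] at h1
    exact h1
  have h2 : P ^ (j + 1) ∣ P ^ j * (J ^ j * Ideal.span {γ}) := by
    have h3 : P ^ (j + 1) ∣ Ideal.span {(p : 𝓞 K) ^ j * γ} := by
      rw [Ideal.dvd_iff_le, Ideal.span_singleton_le_iff_mem]
      exact hm
    rw [← Ideal.span_singleton_mul_span_singleton, ← Ideal.span_singleton_pow, hJ, mul_pow,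
      mul_assoc] at h3
    exact h3
  rw [pow_succ] at h2
  have h4 : P ∣ J ^ j * Ideal.span {γ} :=
    (mul_dvd_mul_iff_left (pow_ne_zero _ hP0)).1 h2
  rcases hPr.dvd_or_dvd h4 with h5 | h5
  · exact absurd (hPr.dvd_of_dvd_pow h5) hPJ
  · rw [Ideal.dvd_iff_le, Ideal.span_singleton_le_iff_mem] at h5
    exact h5

/-- the reduction map -/
structure Red (P : Ideal (𝓞 K)) (p ν : ℕ) (ρ : 𝓞 K →+* ZMod (p ^ ν)) : Prop where
  surj : Function.Surjective ρ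
  ker : ∀ α, ρ α = 0 ↔ α ∈ P ^ ν

theorem exists_red (h : Deg1 P p) (hp : p.Prime) {ν : ℕ} (hν : 1 ≤ ν) :
    ∃ ρ : 𝓞 K →+* ZMod (p ^ ν), Red P p ν ρ := by
  have hcard : Nat.card (𝓞 K ⧸ P ^ ν) = p ^ ν := by
    rw [← Submodule.cardQuot_apply, ← Ideal.absNorm_apply, map_pow, h.norm]
  haveI : Finite (𝓞 K ⧸ P ^ ν) := by
    refine Nat.finite_of_card_ne_zero ?_
    rw [hcard]
    exact pow_ne_zero _ hp.ne_zero
  haveI : Fintype (𝓞 K ⧸ P ^ ν) := Fintype.ofFinite _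
  have hcard' : Fintype.card (𝓞 K ⧸ P ^ ν) = p ^ ν := by rw [← Nat.card_eq_fintype_card, hcard]
  have hchar : ringChar (𝓞 K ⧸ P ^ ν) = p ^ ν := by
    have h1 : ringChar (𝓞 K ⧸ P ^ ν) ∣ p ^ ν := by
      refine ringChar.dvd ?_
      have : ((p ^ ν : ℕ) : 𝓞 K ⧸ P ^ ν) = Ideal.Quotient.mk (P ^ ν) ((p : 𝓞 K) ^ ν) := by
        push_cast
        simp
      rw [this, Ideal.Quotient.eq_zero_iff_mem]
      exact Ideal.pow_mem_pow h.mem ν
    obtain ⟨j, hj, hje⟩ := (Nat.dvd_prime_pow hp).1 h1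
    rcases hj.eq_or_lt with h2 | h2
    · rw [hje, h2]
    · exfalso
      have h3 : ((p ^ j : ℕ) : 𝓞 K ⧸ P ^ ν) = 0 := by
        rw [ringChar.spec, hje]
      have h4 : ((p ^ j : ℕ) : 𝓞 K ⧸ P ^ ν) = Ideal.Quotient.mk (P ^ ν) ((p : 𝓞 K) ^ j) := by
        push_cast
        simp
      rw [h4, Ideal.Quotient.eq_zero_iff_mem] at h3
      have h5 : (p : 𝓞 K) ^ j * 1 ∈ P ^ (j + 1) := by
        rw [mul_one]
        exact Ideal.pow_le_pow_right (by omega) h3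
      exact h.prime.ne_top ((Ideal.eq_top_iff_one P).2 (h.val hp h5))
  haveI : CharP (𝓞 K ⧸ P ^ ν) (p ^ ν) := hchar ▸ ringChar.charP _
  refine ⟨((ZMod.ringEquiv (𝓞 K ⧸ P ^ ν) hcard').symm : (𝓞 K ⧸ P ^ ν) →+* ZMod (p ^ ν)).comp
    (Ideal.Quotient.mk (P ^ ν)), ⟨?_, ?_⟩⟩
  · intro x
    obtain ⟨α, hα⟩ := Ideal.Quotient.mk_surjective (ZMod.ringEquiv (𝓞 K ⧸ P ^ ν) hcard' x)
    exact ⟨α, by simp [hα]⟩
  · intro α
    rw [← Ideal.Quotient.eq_zero_iff_mem]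
    simp

variable {ν : ℕ} {ρ : 𝓞 K →+* ZMod (p ^ ν)}

lemma Red.le (hρ : Red P p ν ρ) (h : Deg1 P p) {k : ℕ} (hk : k ≤ ν) {α : 𝓞 K} {y : ZMod (p ^ ν)}
    (hy : ρ α = (p : ZMod (p ^ ν)) ^ k * y) : α ∈ P ^ k := by
  obtain ⟨β, rfl⟩ := hρ.surj y
  have h1 : ρ (α - (p : 𝓞 K) ^ k * β) = 0 := by
    rw [map_sub, hy, map_mul, map_pow, map_natCast, sub_self]
  have h2 : α - (p : 𝓞 K) ^ k * β ∈ P ^ k := Ideal.pow_le_pow_right hk ((hρ.ker _).1 h1)
  have h3 : (p : 𝓞 K) ^ k * β ∈ P ^ k := Ideal.mul_mem_right _ _ (Ideal.pow_mem_pow h.mem k)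
  have := Ideal.add_mem _ h2 h3
  simpa using this

lemma Red.unit (hρ : Red P p ν ρ) (h : Deg1 P p) (hp : p.Prime) (hν : 1 ≤ ν) (α : 𝓞 K) :
    IsUnit (ρ α) ↔ α ∉ P := by
  haveI : NeZero (p ^ ν) := ⟨pow_ne_zero _ hp.ne_zero⟩
  haveI : Fact (1 < p ^ ν) := ⟨Nat.one_lt_pow (by omega) hp.one_lt⟩
  constructor
  · intro hu hα
    have h1 : ρ α ^ ν = 0 := by
      rw [← map_pow, hρ.ker]
      exact Ideal.pow_mem_pow hα ν
    exact not_isUnit_zero (h1 ▸ hu.pow ν)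
  · intro hα
    rcases unit_or hp (ρ α) with h1 | ⟨y, hy⟩
    · exact h1
    · exfalso
      apply hα
      have := hρ.le h hν (α := α) (y := y) (by rw [pow_one]; exact hy)
      rwa [pow_one] at this

/-- elements of `ZMod (p^ν)` -/
lemma zmod_form (hp : p.Prime) (y : ZMod (p ^ ν)) : ∀ k ≤ ν, (∃ y', y = (p : ZMod (p ^ ν)) ^ k * y') ∨
    ∃ j < k, ∃ w, IsUnit w ∧ y = (p : ZMod (p ^ ν)) ^ j * w := by
  haveI : NeZero (p ^ ν) := ⟨pow_ne_zero _ hp.ne_zero⟩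
  intro k
  induction k with
  | zero => intro _; exact Or.inl ⟨y, by ring⟩
  | succ k ih =>
    intro hk
    rcases ih (by omega) with ⟨y', hy'⟩ | ⟨j, hj, w, hw, hy⟩
    · rcases unit_or hp y' with h1 | ⟨y'', hy''⟩
      · exact Or.inr ⟨k, by omega, y', h1, hy'⟩
      · exact Or.inl ⟨y'', by rw [hy', hy'']; ring⟩
    · exact Or.inr ⟨j, by omega, w, hw, hy⟩

lemma Red.ge (hρ : Red P p ν ρ) (h : Deg1 P p) (hp : p.Prime) (hν : 1 ≤ ν) {k : ℕ} (hk : k ≤ ν)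
    {α : 𝓞 K} (hα : α ∈ P ^ k) : ∃ y, ρ α = (p : ZMod (p ^ ν)) ^ k * y := by
  rcases zmod_form hp (ρ α) k hk with h1 | ⟨j, hj, w, hw, hy⟩
  · exact h1
  · exfalso
    obtain ⟨γ, rfl⟩ := hρ.surj w
    have h1 : ρ (α - (p : 𝓞 K) ^ j * γ) = 0 := by
      rw [map_sub, hy, map_mul, map_pow, map_natCast, sub_self]
    have h2 : α - (p : 𝓞 K) ^ j * γ ∈ P ^ (j + 1) :=
      Ideal.pow_le_pow_right (by omega) ((hρ.ker _).1 h1)
    have h3 : α ∈ P ^ (j + 1) := Ideal.pow_le_pow_right (by omega) hα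
    have h4 : (p : 𝓞 K) ^ j * γ ∈ P ^ (j + 1) := by
      have := Ideal.sub_mem _ h3 h2
      simpa using this
    exact ((hρ.unit h hp hν γ).1 hw) (h.val hp h4)

/-- a basis adapted to the reduction map -/
theorem exists_basis (hρ : Red P p ν ρ) (h : Deg1 P p) (hp : p.Prime) (hν : 1 ≤ ν) {I : Ideal (𝓞 K)}
    (hI : I ≠ ⊥) (hco : IsCoprime I P) : ∃ (b : Basis (Fin (dg K)) ℤ I) (o : Fin (dg K))
    (u : ZMod (p ^ ν)), IsUnit u ∧ ∀ z, ρ (el b z) = (z o : ZMod (p ^ ν)) * u := by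
  haveI : NeZero (p ^ ν) := ⟨pow_ne_zero _ hp.ne_zero⟩
  set b' : Basis (Fin (dg K)) ℤ I := Ideal.selfBasis (bO K) I hI with hb'
  -- a basis element which is a unit
  have ho : ∃ o, IsUnit (ρ ((b' o : I) : 𝓞 K)) := by
    by_contra hcon
    push Not at hcon
    obtain ⟨x, hx, y, hy, hxy⟩ := Ideal.isCoprime_iff_exists.1 hco
    have hxP : x ∉ P := by
      intro h1
      exact h.prime.ne_top ((Ideal.eq_top_iff_one P).2 (hxy ▸ Ideal.add_mem _ h1 hy))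
    have hux := (hρ.unit h hp hν x).2 hxP
    have h1 : x = ((∑ j, b'.repr ⟨x, hx⟩ j • b' j : I) : 𝓞 K) := by
      rw [b'.sum_repr]
    have h2 : ∀ j, ∃ y, ρ ((b' j : I) : 𝓞 K) = p * y := fun j =>
      (unit_or hp _).resolve_left (hcon j)
    choose y' hy' using h2
    have h3 : ρ x = p * ∑ j, (b'.repr ⟨x, hx⟩ j : ZMod (p ^ ν)) * y' j := by
      rw [mul_sum]
      conv_lhs => rw [h1]
      rw [Submodule.coe_sum, map_sum]
      refine sum_congr rfl fun j _ => ?_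
      rw [coe_zs, map_zsmul, hy', zsmul_eq_mul]
      ring
    rw [h3] at hux
    exact not_unit_pi hp hν _ hux
  obtain ⟨o, ho⟩ := ho
  set u := ρ ((b' o : I) : 𝓞 K) with hu
  have hc : ∀ i, ∃ c : ℤ, (c : ZMod (p ^ ν)) = if i = o then 0 else ρ ((b' i : I) : 𝓞 K) * u⁻¹ :=
    fun i => ZMod.intCast_surjective _
  choose c hc using hc
  have hco0 : (c o : ZMod (p ^ ν)) = 0 := by rw [hc, if_pos rfl]
  -- the functional
  set c' : Fin (dg K) → ℤ := fun i => if i = o then 0 else c i with hc'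
  set f : I →ₗ[ℤ] ℤ := b'.constr ℤ c' with hf
  have hfo : f (b' o) = 0 := by rw [hf, Basis.constr_basis, hc']; simp
  set S : ℤ →ₗ[ℤ] I := LinearMap.toSpanSingleton ℤ I (b' o) with hS
  set T : I ≃ₗ[ℤ] I := LinearEquiv.ofLinear (LinearMap.id - S.comp f) (LinearMap.id + S.comp f)
    (by
      apply LinearMap.ext
      intro x
      simp only [LinearMap.comp_apply, LinearMap.sub_apply, LinearMap.add_apply, LinearMap.id_apply,
        hS, LinearMap.toSpanSingleton_apply, map_add, map_smul, hfo, smul_zero, add_zero]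
      abel)
    (by
      apply LinearMap.ext
      intro x
      simp only [LinearMap.comp_apply, LinearMap.sub_apply, LinearMap.add_apply, LinearMap.id_apply,
        hS, LinearMap.toSpanSingleton_apply, map_sub, map_smul, hfo, smul_zero, sub_zero]
      abel) with hT
  have hTb : ∀ i, T (b' i) = b' i - c' i • b' o := by
    intro i
    rw [hT, LinearEquiv.ofLinear_apply]
    simp only [LinearMap.sub_apply, LinearMap.id_apply, LinearMap.comp_apply, hS,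
      LinearMap.toSpanSingleton_apply, hf, Basis.constr_basis]
  refine ⟨b'.map T, o, u, ho, fun z => ?_⟩
  unfold el
  rw [Submodule.coe_sum, map_sum, sum_eq_single o]
  · rw [coe_zs, map_zsmul, Basis.map_apply, hTb, hc']
    simp only [if_true, zero_smul, sub_zero]
    rw [zsmul_eq_mul]
  · intro i _ hi
    rw [coe_zs, map_zsmul, Basis.map_apply, hTb, Submodule.coe_sub, coe_zs, map_sub, map_zsmul]
    have e1 : (c' i : ZMod (p ^ ν)) = ρ ((b' i : I) : 𝓞 K) * u⁻¹ := by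
      rw [hc']
      simp only [hi, if_false]
      rw [hc, if_neg hi]
    have h1 : u * u⁻¹ = 1 := ZMod.mul_inv_of_unit _ ho
    have e2 : ρ ((b' i : I) : 𝓞 K) - c' i • ρ ((b' o : I) : 𝓞 K) = 0 := by
      rw [zsmul_eq_mul, e1, ← hu]
      linear_combination (-ρ ((b' i : I) : 𝓞 K)) * h1
    rw [e2, smul_zero]
  · intro h; exact absurd (mem_univ o) h

end Pool.Agent.T2H29.SW
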