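import Pool.Agent.T2H29.SW.N3

/-!
# Hecke characters of prime power conductor
-/

set_option autoImplicit false
set_option linter.unusedSectionVars false

namespace Pool.Agent.T2H29.SW

open Finset NumberField NumberField.InfinitePlace Module
open Pool.Agent.Y779.R3 (unit_or not_unit_pi pi_zero)

variable {K : Type} [Field K] [NumberField K]

/-- the character `∏ v(α)^(i τ_v)` -/
noncomputable def infT (τ : InfinitePlace K → ℝ) (α : K) : ℂ :=
  ∏ v : InfinitePlace K, ((v α : ℝ) : ℂ) ^ ((τ v : ℂ) * Complex.I)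

lemma infT_mul (τ : InfinitePlace K → ℝ) (α β : K) : infT τ (α * β) = infT τ α * infT τ β := by
  unfold infT
  rw [← prod_mul_distrib]
  refine prod_congr rfl fun v _ => ?_
  rw [map_mul, Complex.ofReal_mul, Complex.mul_cpow_ofReal_nonneg (apply_nonneg v α) (apply_nonneg v β)]

lemma infT_norm (τ : InfinitePlace K → ℝ) {α : K} (hα : α ≠ 0) : ‖infT τ α‖ = 1 := by
  unfold infT
  rw [norm_prod]
  refine prod_eq_one fun v _ => ?_
  rw [Complex.norm_cpow_eq_rpow_re_of_pos (pos_iff.2 hα)]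
  simp

lemma infT_ne (τ : InfinitePlace K → ℝ) {α : K} (hα : α ≠ 0) : infT τ α ≠ 0 := by
  intro h
  have := infT_norm τ hα
  rw [h, norm_zero] at this
  exact zero_ne_one this

lemma infT_one (τ : InfinitePlace K → ℝ) : infT τ (1 : K) = 1 := by
  unfold infT
  refine prod_eq_one fun v _ => ?_
  rw [map_one]; simp

/-- Hecke characters modulo `P^ν`, primitive, with infinite type `∏ v(α)^(i τ_v)` -/
structure Hecke (P : Ideal (𝓞 K)) (ν : ℕ) (τ : InfinitePlace K → ℝ) (χ : Ideal (𝓞 K) →* ℂ) :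
    Prop where
  zero : ∀ I, ¬ IsCoprime I P → χ I = 0
  norm : ∀ I, IsCoprime I P → ‖χ I‖ = 1
  inf : ∀ α : 𝓞 K, α - 1 ∈ P ^ ν → χ (Ideal.span {α}) = infT τ (α : K)
  prim : ∃ α : 𝓞 K, α - 1 ∈ P ^ (ν - 1) ∧ IsCoprime (Ideal.span {α}) P ∧
    χ (Ideal.span {α}) ≠ infT τ (α : K)

variable {P : Ideal (𝓞 K)} {p ν : ℕ} {τ : InfinitePlace K → ℝ} {χ : Ideal (𝓞 K) →* ℂ}
  {ρ : 𝓞 K →+* ZMod (p ^ ν)}

lemma cop_iff (h : Deg1 P p) (hp : p.Prime) (α : 𝓞 K) :
    IsCoprime (Ideal.span {α}) P ↔ α ∉ P := by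
  have hmax : P.IsMaximal := h.prime.isMaximal (h.ne_bot hp)
  rw [Ideal.isCoprime_iff_sup_eq]
  constructor
  · intro h1 h2
    apply h.prime.ne_top
    rw [eq_top_iff, ← h1]
    exact sup_le ((Ideal.span_singleton_le_iff_mem _).2 h2) le_rfl
  · intro h1
    refine hmax.1.2 _ ?_
    refine lt_of_le_of_ne le_sup_right fun h2 => h1 ?_
    rw [h2]
    exact Ideal.mem_sup_left (Ideal.mem_span_singleton_self α)

/-- the finite part of a Hecke character -/
noncomputable def gH (τ : InfinitePlace K → ℝ) (χ : Ideal (𝓞 K) →* ℂ) (α : 𝓞 K) : ℂ :=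
  χ (Ideal.span {α}) * (infT τ (α : K))⁻¹

lemma gH_mul (α β : 𝓞 K) : gH τ χ (α * β) = gH τ χ α * gH τ χ β := by
  unfold gH
  rw [← Ideal.span_singleton_mul_span_singleton, map_mul]
  push_cast
  rw [infT_mul, mul_inv]
  ring

lemma ne_of_not (α : 𝓞 K) (hα : α ∉ P) : (α : K) ≠ 0 := by
  intro h
  have : α = 0 := by exact_mod_cast h
  exact hα (this ▸ zero_mem _)

lemma gH_norm (h : Deg1 P p) (hp : p.Prime) (hχ : Hecke P ν τ χ) {α : 𝓞 K} (hα : α ∉ P) :
    ‖gH τ χ α‖ = 1 := by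
  unfold gH
  rw [norm_mul, norm_inv, infT_norm τ (ne_of_not α hα), hχ.norm _ ((cop_iff h hp α).2 hα)]
  norm_num

lemma gH_one (h : Deg1 P p) (hν : 1 ≤ ν) (hχ : Hecke P ν τ χ) {α : 𝓞 K} (hα : α - 1 ∈ P ^ ν) :
    gH τ χ α = 1 := by
  have hαP : α ∉ P := by
    intro h1
    have h2 : α - 1 ∈ P := Ideal.pow_le_self (by omega) hα
    have h3 := Ideal.sub_mem _ h1 h2
    apply h.prime.ne_top
    rw [Ideal.eq_top_iff_one]
    simpa using h3
  unfold gH
  rw [hχ.inf α hα]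
  exact mul_inv_cancel₀ (infT_ne τ (ne_of_not α hαP))

/-- it depends on the residue only -/
lemma gH_congr (h : Deg1 P p) (hp : p.Prime) (hν : 1 ≤ ν) (hρ : Red P p ν ρ) (hχ : Hecke P ν τ χ)
    {α β : 𝓞 K} (hα : IsUnit (ρ α)) (hαβ : ρ α = ρ β) : gH τ χ α = gH τ χ β := by
  obtain ⟨w, hw⟩ := hα
  obtain ⟨γ, hγ⟩ := hρ.surj ((w⁻¹ : (ZMod (p ^ ν))ˣ) : ZMod (p ^ ν))
  have h1 : ∀ δ : 𝓞 K, ρ δ = ρ α → gH τ χ δ * gH τ χ γ = 1 := by
    intro δ hδ
    rw [← gH_mul]
    refine gH_one h hν hχ ?_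
    rw [← hρ.ker, map_sub, map_mul, map_one, hδ, ← hw, hγ, ← Units.val_mul, mul_inv_cancel,
      Units.val_one, sub_self]
  have h2 := h1 α rfl
  have h3 := h1 β hαβ.symm
  have h4 : gH τ χ γ ≠ 0 := by
    intro h5
    rw [h5, mul_zero] at h2
    exact zero_ne_one h2
  exact mul_right_cancel₀ h4 (h2.trans h3.symm)

/-- the Dirichlet character attached to a Hecke character -/
theorem exists_dir (h : Deg1 P p) (hp : p.Prime) (hν : 1 ≤ ν) (hρ : Red P p ν ρ)
    (hχ : Hecke P ν τ χ) : ∃ ψ : DirichletCharacter ℂ (p ^ ν), ψ.IsPrimitive ∧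
    ∀ α : 𝓞 K, χ (Ideal.span {α}) = ψ (ρ α) * infT τ (α : K) := by
  haveI : NeZero (p ^ ν) := ⟨pow_ne_zero _ hp.ne_zero⟩
  haveI : Fact (1 < p ^ ν) := ⟨Nat.one_lt_pow (by omega) hp.one_lt⟩
  choose σ hσ using hρ.surj
  have hu : ∀ x : (ZMod (p ^ ν))ˣ, IsUnit (ρ (σ (x : ZMod (p ^ ν)))) := fun x => by
    rw [hσ]; exact x.isUnit
  let f : (ZMod (p ^ ν))ˣ →* ℂ :=
    { toFun := fun x => gH τ χ (σ (x : ZMod (p ^ ν)))
      map_one' := by
        have h1 := gH_congr h hp hν hρ hχ (hu 1) (β := 1) (by rw [hσ, map_one, Units.val_one])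
        rw [h1]
        exact gH_one h hν hχ (by rw [sub_self]; exact zero_mem _)
      map_mul' := fun x y => by
        rw [← gH_mul]
        refine gH_congr h hp hν hρ hχ (hu _) ?_
        rw [hσ, map_mul, hσ, hσ, Units.val_mul] }
  set ψ : DirichletCharacter ℂ (p ^ ν) := MulChar.ofUnitHom f.toHomUnits with hψ
  have hψu : ∀ α : 𝓞 K, α ∉ P → ψ (ρ α) = gH τ χ α := by
    intro α hα
    obtain ⟨w, hw⟩ := (hρ.unit h hp hν α).2 hα
    rw [← hw, hψ, MulChar.ofUnitHom_coe, MonoidHom.coe_toHomUnits]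
    show gH τ χ (σ (w : ZMod (p ^ ν))) = _
    refine gH_congr h hp hν hρ hχ (hu w) ?_
    rw [hσ, hw]
  refine ⟨ψ, ?_, fun α => ?_⟩
  · -- primitivity
    rw [DirichletCharacter.isPrimitive_def]
    obtain ⟨j, hj, hje⟩ := (Nat.dvd_prime_pow hp).1 (DirichletCharacter.conductor_dvd_level ψ)
    rcases hj.eq_or_lt with h2 | h2
    · rw [hje, h2]
    · exfalso
      obtain ⟨α, hα1, hα2, hα3⟩ := hχ.prim
      have hαP := (cop_iff h hp α).1 hα2
      have hfac := DirichletCharacter.factorsThrough_conductor ψ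
      rw [hje] at hfac
      have hker := (DirichletCharacter.factorsThrough_iff_ker_unitsMap hfac.dvd).1 hfac
      obtain ⟨w, hw⟩ := (hρ.unit h hp hν α).2 hαP
      have h1 : w ∈ (ZMod.unitsMap hfac.dvd).ker := by
        rw [MonoidHom.mem_ker, Units.ext_iff, Units.val_one, ZMod.unitsMap_val]
        obtain ⟨y, hy⟩ := hρ.ge h hp hν (show ν - 1 ≤ ν by omega) hα1
        rw [map_sub, map_one, ← hw] at hy
        have h3 : (w : ZMod (p ^ ν)) = 1 + (p : ZMod (p ^ ν)) ^ (ν - 1) * y := by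
          linear_combination hy
        have h4 : ((w : ZMod (p ^ ν)).cast : ZMod (p ^ j)) =
            ZMod.castHom hfac.dvd (ZMod (p ^ j)) (w : ZMod (p ^ ν)) := by
          rw [ZMod.castHom_apply]
        rw [h4, h3, map_add, map_one, map_mul, map_pow, map_natCast, pi_zero (by omega), zero_mul,
          add_zero]
      have h5 := hker h1
      rw [MonoidHom.mem_ker, Units.ext_iff, MulChar.coe_toUnitHom, Units.val_one, hw, hψu α hαP] at h5
      apply hα3
      unfold gH at h5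
      have h6 := infT_ne τ (ne_of_not α hαP)
      field_simp at h5
      exact h5
  · by_cases hα : α ∈ P
    · rw [hχ.zero _ (fun h1 => (cop_iff h hp α).1 h1 hα),
        MulChar.map_nonunit _ (fun h1 => (hρ.unit h hp hν α).1 h1 hα), zero_mul]
    · rw [hψu α hα]
      unfold gH
      rw [mul_assoc, inv_mul_cancel₀ (infT_ne τ (ne_of_not α hα)), mul_one]

end Pool.Agent.T2H29.SW
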