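import Pool.Agent.T2H29.SW.N4

/-!
# Logarithmic coordinates and units
-/

set_option autoImplicit false
set_option linter.unusedSectionVars false

namespace Pool.Agent.T2H29.SW

open Finset NumberField NumberField.InfinitePlace Module MeasureTheory NumberField.Units

variable (K : Type) [Field K] [NumberField K]

/-- the parameters `(a, b)` -/
abbrev LS : Type := (Fin (Units.rank K) → ℝ) × ℝ

instance : (volume : Measure (LS K)).IsAddHaarMeasure :=
  Measure.prod.instIsAddHaarMeasure volume volume

/-- logarithms of the fundamental units -/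
noncomputable def lu (j : Fin (Units.rank K)) (w : InfinitePlace K) : ℝ :=
  Real.log (w (fundSystem K j : K))

/-- the logarithmic coordinates -/
noncomputable def UU : LS K →ₗ[ℝ] (InfinitePlace K → ℝ) where
  toFun x w := x.2 + 2 * ∑ j, x.1 j * lu K j w
  map_add' x y := by
    funext w
    simp only [Prod.snd_add, Prod.fst_add, Pi.add_apply, add_mul, sum_add_distrib]
    ring
  map_smul' c x := by
    funext w
    have h : ∑ j, (c • x).1 j * lu K j w = c * ∑ j, x.1 j * lu K j w := by
      rw [mul_sum]
      refine sum_congr rfl fun j _ => ?_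
      rw [Prod.smul_fst, Pi.smul_apply, smul_eq_mul]
      ring
    rw [h, Pi.smul_apply, Prod.smul_snd, smul_eq_mul, smul_eq_mul, RingHom.id_apply]
    ring

lemma UU_apply (x : LS K) (w : InfinitePlace K) : UU K x w = x.2 + 2 * ∑ j, x.1 j * lu K j w := rfl

lemma lu_sum (j : Fin (Units.rank K)) : ∑ w, (mult w : ℝ) * lu K j w = 0 := by
  have := sum_mult_mul_log (K := K) (fundSystem K j)
  exact this

lemma sum_mult_real : ∑ w : InfinitePlace K, (mult w : ℝ) = dg K := by
  have h := sum_mult_eq (K := K)
  exact_mod_cast h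

lemma UU_sum (x : LS K) : ∑ w, (mult w : ℝ) * UU K x w = dg K * x.2 := by
  simp_rw [UU_apply, mul_add, sum_add_distrib]
  rw [← sum_mul, sum_mult_real]
  have : ∑ w, (mult w : ℝ) * (2 * ∑ j, x.1 j * lu K j w) = 0 := by
    have e1 : ∀ w : InfinitePlace K, (mult w : ℝ) * (2 * ∑ j, x.1 j * lu K j w) =
        ∑ j, 2 * x.1 j * (mult w * lu K j w) := by
      intro w
      rw [mul_sum, mul_sum]
      refine sum_congr rfl fun j _ => ?_
      ring
    simp_rw [e1]
    rw [sum_comm]
    refine sum_eq_zero fun j _ => ?_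
    rw [← mul_sum, lu_sum, mul_zero]
  rw [this, add_zero]

lemma UU_inj : Function.Injective (UU K) := by
  rw [← LinearMap.ker_eq_bot, LinearMap.ker_eq_bot']
  intro x hx
  have hd : (0 : ℝ) < dg K := by exact_mod_cast NeZero.pos (dg K)
  have hb : x.2 = 0 := by
    have h1 := UU_sum K x
    rw [hx] at h1
    simp only [Pi.zero_apply, mul_zero, sum_const_zero] at h1
    rcases mul_eq_zero.1 h1.symm with h2 | h2
    · exact absurd h2 hd.ne'
    · exact h2
  have ha : ∀ w, ∑ j, x.1 j * lu K j w = 0 := by
    intro w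
    have h1 := congrFun hx w
    rw [UU_apply, hb, Pi.zero_apply] at h1
    linarith
  have hli := isMaxRank_fundSystem K
  have h2 : ∑ j, x.1 j • logEmbedding K (Additive.ofMul (fundSystem K j)) = 0 := by
    funext w
    rw [Finset.sum_apply, Pi.zero_apply]
    have e1 : ∀ j, (x.1 j • logEmbedding K (Additive.ofMul (fundSystem K j))) w =
        (mult w.1 : ℝ) * (x.1 j * lu K j w.1) := by
      intro j
      rw [Pi.smul_apply, dirichletUnitTheorem.logEmbedding_component, smul_eq_mul]
      unfold lu
      ring
    simp_rw [e1]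
    rw [← mul_sum, ha, mul_zero]
  have h3 := Fintype.linearIndependent_iff.1 hli x.1 h2
  ext
  · exact h3 _
  · exact hb

lemma UU_finrank : finrank ℝ (LS K) = finrank ℝ (InfinitePlace K → ℝ) := by
  rw [Module.finrank_prod, Module.finrank_fin_fun, Module.finrank_self, Module.finrank_fintype_fun_eq_card]
  unfold Units.rank
  have : 0 < Fintype.card (InfinitePlace K) := Fintype.card_pos
  omega

/-- the logarithmic coordinates as an isomorphism -/
noncomputable def UE : LS K ≃L[ℝ] (InfinitePlace K → ℝ) :=
  (LinearEquiv.ofInjectiveOfFinrankEq (UU K) (UU_inj K) (UU_finrank K)).toContinuousLinearEquiv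

lemma UE_apply (x : LS K) : UE K x = UU K x := rfl

/-- change of variables -/
theorem UU_int : ∃ c : ℝ, 0 < c ∧ ∀ G : (InfinitePlace K → ℝ) → ℂ,
    (∫ x, G (UU K x) = (c : ℂ) * ∫ u, G u) ∧ (Integrable G → Integrable fun x => G (UU K x)) := by
  set μ' : Measure (InfinitePlace K → ℝ) := Measure.map (UE K) volume with hμ'
  haveI : μ'.IsAddHaarMeasure := (UE K).isAddHaarMeasure_map volume
  have h1 := Measure.isAddLeftInvariant_eq_smul μ' (volume : Measure (InfinitePlace K → ℝ))
  set κ := Measure.addHaarScalarFactor μ' (volume : Measure (InfinitePlace K → ℝ)) with hκ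
  have hκ0 : 0 < κ := Measure.addHaarScalarFactor_pos_of_isAddHaarMeasure _ _
  have hme : MeasurableEmbedding (UE K) := (UE K).toHomeomorph.measurableEmbedding
  refine ⟨κ, hκ0, fun G => ⟨?_, fun hG => ?_⟩⟩
  · have h2 := hme.integral_map (μ := volume) G
    rw [← hμ', h1] at h2
    have h3 : ∫ u, G u ∂(κ • (volume : Measure (InfinitePlace K → ℝ))) = (κ : ℂ) * ∫ u, G u := by
      rw [show (κ • (volume : Measure (InfinitePlace K → ℝ))) = ((κ : ENNReal) • volume) from rfl,
        integral_smul_measure, ENNReal.coe_toReal, Complex.real_smul]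
    rw [h3] at h2
    exact h2.symm
  · have h2 : Integrable G μ' := by
      rw [h1]
      exact hG.smul_measure ENNReal.coe_ne_top
    exact (hme.integrable_map_iff).1 h2

/-- the domain of integration -/
def box : Set (LS K) := cube (Fin (Units.rank K)) ×ˢ Set.univ

lemma box_meas : MeasurableSet (box K) := cube_meas.prod MeasurableSet.univ

/-- translation by an integral vector -/
def sh (k : Fin (Units.rank K) → ℤ) (x : LS K) : LS K := (x.1 + cz k, x.2)

/-- unfolding -/
theorem unfold_box (G : LS K → ℂ) (hG : Integrable G) :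
    HasSum (fun k : Fin (Units.rank K) → ℤ => ∫ x in box K, G (sh K k x)) (∫ x, G x) := by
  let s : (Fin (Units.rank K) → ℤ) → Set (LS K) := fun k => (fun x : LS K => x + (cz k, 0)) ⁻¹' box K
  have hsm : ∀ k, MeasurableSet (s k) := fun k => (measurable_add_const _) (box_meas K)
  have hmem : ∀ k x, x ∈ s k ↔ ∀ i, x.1 i + k i ∈ Set.Ioc (0 : ℝ) (0 + 1) := by
    intro k x
    simp only [s, box, Set.mem_preimage, Set.mem_prod, Set.mem_univ, and_true]
    exact Iff.rfl
  have hd : Pairwise (Function.onFun Disjoint s) := by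
    intro z z' hne
    show Disjoint (s z) (s z')
    rw [Set.disjoint_left]
    intro x hx hx'
    apply hne
    funext i
    have h1 := (hmem z x).1 hx i
    have h2 := (hmem z' x).1 hx' i
    rw [Set.mem_Ioc] at h1 h2
    have h3 : (z i : ℝ) - z' i < 1 := by linarith [h1.2, h2.1]
    have h4 : (z' i : ℝ) - z i < 1 := by linarith [h1.1, h2.2]
    have h5 : z i - z' i < 1 := by exact_mod_cast h3
    have h6 : z' i - z i < 1 := by exact_mod_cast h4
    omega
  have hU : (⋃ z, s z) = Set.univ := by
    rw [Set.eq_univ_iff_forall]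
    intro x
    rw [Set.mem_iUnion]
    refine ⟨fun i => 1 - ⌈x.1 i⌉, (hmem _ _).2 fun i => ?_⟩
    rw [Set.mem_Ioc]
    push_cast
    have h1 := Int.le_ceil (x.1 i)
    have h2 := Int.ceil_lt_add_one (x.1 i)
    constructor <;> linarith
  have h1 := hasSum_integral_iUnion (f := G) (μ := volume) hsm hd (by
    rw [hU]; exact hG.integrableOn)
  rw [hU, setIntegral_univ] at h1
  have h2 : ∀ k, ∫ x in s k, G x = ∫ x in box K, G (sh K (-k) x) := by
    intro k
    have h3 := (measurePreserving_add_right (volume : Measure (LS K))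
      (cz k, 0)).setIntegral_preimage_emb
      (measurableEmbedding_addRight _) (fun x => G (sh K (-k) x)) (box K)
    rw [← h3]
    refine setIntegral_congr_fun (hsm k) fun x _ => ?_
    show G x = G (sh K (-k) (x + (cz k, 0)))
    congr 1
    unfold sh
    ext i
    · simp [cz]
    · simp
  simp only [h2] at h1
  have h4 := (Equiv.neg (Fin (Units.rank K) → ℤ)).hasSum_iff.2 h1
  refine h4.congr_fun ?_ |> id
  intro k
  simp

end Pool.Agent.T2H29.SW
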