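import Pool.Agent.T2H29.SW.N5

/-!
# Gamma integrals
-/

set_option autoImplicit false
set_option linter.unusedSectionVars false

namespace Pool.Agent.T2H29.SW

open Finset NumberField NumberField.InfinitePlace Module MeasureTheory NumberField.Units

/-- the integrand of the Gamma integral in logarithmic coordinates -/
noncomputable def phg (c : ℝ) (s : ℂ) (u : ℝ) : ℂ :=
  Complex.exp (-(c * Real.exp u : ℝ)) * Complex.exp (s * u)

lemma phg_gamma {c : ℝ} (hc : 0 < c) {s : ℂ} (hs : 0 < s.re) :
    Integrable (phg c s) ∧ ∫ u, phg c s u = (1 / (c : ℂ)) ^ s * Complex.Gamma s := by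
  set g : ℝ → ℂ := fun t => (t : ℂ) ^ (s - 1) * Complex.exp (-(c * t)) with hg
  have himg : Real.exp '' Set.univ = Set.Ioi 0 := by
    rw [Set.image_univ, Real.range_exp]
  have hd : ∀ x ∈ (Set.univ : Set ℝ), HasDerivWithinAt Real.exp (Real.exp x) Set.univ x :=
    fun x _ => (Real.hasDerivAt_exp x).hasDerivWithinAt
  have hinj : Set.InjOn Real.exp Set.univ := Real.exp_injective.injOn
  have hpt : ∀ u : ℝ, |Real.exp u| • g (Real.exp u) = phg c s u := by
    intro u
    simp only [hg]
    unfold phg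
    rw [abs_of_pos (Real.exp_pos u), Complex.real_smul]
    have h1 : ((Real.exp u : ℝ) : ℂ) ≠ 0 := by
      exact_mod_cast (Real.exp_pos u).ne'
    have h2 : ((Real.exp u : ℝ) : ℂ) ^ (s - 1) = Complex.exp ((s - 1) * u) := by
      rw [Complex.cpow_def_of_ne_zero h1, ← Complex.ofReal_log (Real.exp_pos u).le, Real.log_exp,
        mul_comm]
    rw [h2]
    have h3 : ((Real.exp u : ℝ) : ℂ) = Complex.exp u := by push_cast; rfl
    calc ((Real.exp u : ℝ) : ℂ) * (Complex.exp ((s - 1) * u) * Complex.exp (-(c * ((Real.exp u : ℝ) : ℂ)))) =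
        (((Real.exp u : ℝ) : ℂ) * Complex.exp ((s - 1) * u)) * Complex.exp (-(c * ((Real.exp u : ℝ) : ℂ))) := by
          ring
      _ = Complex.exp (s * u) * Complex.exp (-(c * ((Real.exp u : ℝ) : ℂ))) := by
          congr 1
          rw [h3, ← Complex.exp_add]
          congr 1
          ring
      _ = _ := by push_cast; ring
  have hgi : IntegrableOn g (Set.Ioi 0) := by
    have h1 : IntegrableOn (fun x : ℝ => x ^ (s.re - 1) * Real.exp (-c * x ^ (1 : ℝ))) (Set.Ioi 0) :=
      integrableOn_rpow_mul_exp_neg_mul_rpow (by linarith) one_pos hc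
    refine Integrable.mono' h1 ?_ ?_
    · refine ContinuousOn.aestronglyMeasurable ?_ measurableSet_Ioi
      intro x hx
      refine ContinuousAt.continuousWithinAt ?_
      refine ContinuousAt.mul ?_ ?_
      · exact Complex.continuousAt_ofReal_cpow_const _ _ (Or.inr (ne_of_gt hx))
      · fun_prop
    · refine (ae_restrict_iff' measurableSet_Ioi).2 (Filter.Eventually.of_forall fun x hx => ?_)
      simp only [hg]
      rw [norm_mul, Complex.norm_cpow_eq_rpow_re_of_pos hx, Complex.norm_exp]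
      simp
  constructor
  · have h1 := (integrableOn_image_iff_integrableOn_abs_deriv_smul MeasurableSet.univ hd hinj g).1
      (by rw [himg]; exact hgi)
    rw [integrableOn_univ] at h1
    exact h1.congr (Filter.Eventually.of_forall hpt)
  · have h1 := integral_image_eq_integral_abs_deriv_smul MeasurableSet.univ hd hinj g
    rw [himg, setIntegral_univ] at h1
    simp_rw [hpt] at h1
    rw [← h1]
    exact Complex.integral_cpow_mul_exp_neg_mul_Ioi hs hc

variable (K : Type) [Field K] [NumberField K]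

/-- the exponents -/
noncomputable def sw (s : ℂ) (τ : InfinitePlace K → ℝ) (w : InfinitePlace K) : ℂ :=
  (mult w : ℂ) * s / 2 - (τ w : ℂ) * Complex.I / 2

lemma sw_re (s : ℂ) (τ : InfinitePlace K → ℝ) (w : InfinitePlace K) :
    (sw K s τ w).re = (mult w : ℝ) * s.re / 2 := by
  unfold sw
  simp

variable {K}

/-- the integrand of an element -/
noncomputable def fg (s : ℂ) (τ : InfinitePlace K → ℝ) (g : K) (x : LS K) : ℂ :=
  Complex.exp (-(Real.pi * ∑ w, Real.exp (UU K x w) * (mult w * (w g) ^ 2) : ℝ)) *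
    ∏ w, Complex.exp (sw K s τ w * UU K x w)

lemma fg_prod (s : ℂ) (τ : InfinitePlace K → ℝ) (g : K) (x : LS K) :
    fg s τ g x = ∏ w, phg (Real.pi * (mult w * (w g) ^ 2)) (sw K s τ w) (UU K x w) := by
  unfold fg phg
  rw [prod_mul_distrib]
  congr 1
  have h : ∀ w : InfinitePlace K, (-((Real.pi * (mult w * (w g) ^ 2) * Real.exp (UU K x w) : ℝ) : ℂ)) =
      -(Real.pi * (Real.exp (UU K x w) * (mult w * (w g) ^ 2)) : ℝ) := by
    intro w
    push_cast
    ring
  simp_rw [h]
  rw [← Complex.exp_sum, Finset.sum_neg_distrib, ← Complex.ofReal_sum, ← Finset.mul_sum]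

/-- the Gamma factor -/
noncomputable def Gf (K : Type) [Field K] [NumberField K] (s : ℂ) (τ : InfinitePlace K → ℝ) : ℂ :=
  ∏ w : InfinitePlace K, ((1 / ((Real.pi * mult w : ℝ) : ℂ)) ^ (sw K s τ w) *
    Complex.Gamma (sw K s τ w))

lemma norm_el {α : 𝓞 K} (hα : α ≠ 0) : (Ideal.absNorm (Ideal.span {α}) : ℝ) =
    Real.exp (∑ w : InfinitePlace K, (mult w : ℝ) * Real.log (w (α : K))) := by
  have hα' : (α : K) ≠ 0 := by exact_mod_cast hα
  have h1 : (Ideal.absNorm (Ideal.span {α}) : ℝ) = ∏ w : InfinitePlace K, w (α : K) ^ mult w := by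
    rw [prod_eq_abs_norm, Ideal.absNorm_span_singleton]
    have h2 : Algebra.norm ℚ (α : K) = ((Algebra.norm ℤ α : ℤ) : ℚ) := (Algebra.coe_norm_int α).symm
    rw [h2]
    push_cast
    rw [Nat.cast_natAbs, Int.cast_abs]
  rw [h1, Real.exp_sum]
  refine prod_congr rfl fun w _ => ?_
  rw [← Real.log_pow, Real.exp_log (pow_pos (pos_iff.2 hα') _)]

/-- the integral of an element -/
theorem fg_int {s : ℂ} (hs : 0 < s.re) (τ : InfinitePlace K → ℝ) {c : ℝ}
    (hc : ∀ G : (InfinitePlace K → ℝ) → ℂ, (∫ x, G (UU K x) = (c : ℂ) * ∫ u, G u) ∧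
      (Integrable G → Integrable fun x => G (UU K x))) {α : 𝓞 K} (hα : α ≠ 0) :
    Integrable (fg s τ (α : K)) ∧ ∫ x, fg s τ (α : K) x =
      c * (Gf K s τ * ((Ideal.absNorm (Ideal.span {α}) : ℂ) ^ (-s) * infT τ (α : K))) := by
  have hα' : (α : K) ≠ 0 := by exact_mod_cast hα
  have hw : ∀ w : InfinitePlace K, 0 < w (α : K) := fun w => pos_iff.2 hα'
  have hc0 : ∀ w : InfinitePlace K, 0 < Real.pi * (mult w * (w (α : K)) ^ 2) := by
    intro w
    have := hw w
    have h2 : (0 : ℝ) < mult w := by exact_mod_cast mult_pos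
    positivity
  have hsw : ∀ w, 0 < (sw K s τ w).re := by
    intro w
    rw [sw_re]
    have h2 : (0 : ℝ) < mult w := by exact_mod_cast mult_pos
    positivity
  set G : (InfinitePlace K → ℝ) → ℂ := fun u =>
    ∏ w, phg (Real.pi * (mult w * (w (α : K)) ^ 2)) (sw K s τ w) (u w) with hG
  have hGi : Integrable G := Integrable.fintype_prod fun w => (phg_gamma (hc0 w) (hsw w)).1
  have e1 : ∀ x, fg s τ (α : K) x = G (UU K x) := fun x => fg_prod s τ _ x
  constructor
  · exact ((hc G).2 hGi).congr (Filter.Eventually.of_forall fun x => (e1 x).symm)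
  · simp_rw [e1]
    rw [(hc G).1]
    congr 1
    rw [hG, integral_fintype_prod_volume_eq_prod]
    have e2 : ∀ w : InfinitePlace K, ∫ u, phg (Real.pi * (mult w * (w (α : K)) ^ 2)) (sw K s τ w) u =
        ((1 / ((Real.pi * mult w : ℝ) : ℂ)) ^ (sw K s τ w) * Complex.Gamma (sw K s τ w)) *
        Complex.exp (-(2 * sw K s τ w) * Real.log (w (α : K))) := by
      intro w
      rw [(phg_gamma (hc0 w) (hsw w)).2]
      have h3 : (0 : ℝ) < Real.pi * mult w := by
        have h2 : (0 : ℝ) < mult w := by exact_mod_cast mult_pos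
        positivity
      have h4 : (1 / ((Real.pi * (mult w * (w (α : K)) ^ 2) : ℝ) : ℂ)) =
          ((1 / (Real.pi * mult w) : ℝ) : ℂ) * (((w (α : K)) ^ (-2 : ℤ) : ℝ) : ℂ) := by
        rw [← Complex.ofReal_mul, ← Complex.ofReal_one, ← Complex.ofReal_div]
        congr 1
        rw [zpow_neg]
        have := (hw w).ne'
        field_simp
      have h5 : (0 : ℝ) < (w (α : K)) ^ (-2 : ℤ) := zpow_pos (hw w) _
      rw [h4, Complex.mul_cpow_ofReal_nonneg (by positivity) h5.le]
      have h6 : (((w (α : K)) ^ (-2 : ℤ) : ℝ) : ℂ) ^ (sw K s τ w) =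
          Complex.exp (-(2 * sw K s τ w) * Real.log (w (α : K))) := by
        rw [Complex.cpow_def_of_ne_zero (by exact_mod_cast h5.ne'), ← Complex.ofReal_log h5.le,
          Real.log_zpow]
        congr 1
        push_cast
        ring
      rw [h6]
      push_cast
      ring
    rw [prod_congr rfl fun w _ => e2 w, prod_mul_distrib, ← Complex.exp_sum]
    unfold Gf
    congr 1
    -- the exponential factor
    have h7 : ((Ideal.absNorm (Ideal.span {α}) : ℕ) : ℂ) ^ (-s) =
        Complex.exp (-s * ((∑ w : InfinitePlace K, (mult w : ℝ) * Real.log (w (α : K)) : ℝ) : ℂ)) := by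
      have h8 : ((Ideal.absNorm (Ideal.span {α}) : ℕ) : ℂ) = (((Ideal.absNorm (Ideal.span {α}) : ℕ) : ℝ) : ℂ) := by
        push_cast; rfl
      rw [h8, norm_el hα, Complex.cpow_def_of_ne_zero (by exact_mod_cast (Real.exp_pos _).ne'),
        ← Complex.ofReal_log (Real.exp_pos _).le, Real.log_exp, mul_comm]
    have h9 : infT τ (α : K) = Complex.exp (∑ w : InfinitePlace K,
        (τ w : ℂ) * Complex.I * Real.log (w (α : K))) := by
      unfold infT
      rw [Complex.exp_sum]
      refine prod_congr rfl fun w _ => ?_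
      rw [Complex.cpow_def_of_ne_zero (by exact_mod_cast (hw w).ne'), ← Complex.ofReal_log (hw w).le,
        mul_comm]
    rw [h7, h9, ← Complex.exp_add]
    congr 1
    push_cast
    rw [mul_sum, ← sum_add_distrib]
    refine sum_congr rfl fun w _ => ?_
    unfold sw
    ring

end Pool.Agent.T2H29.SW
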