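import Pool.Agent.T2H29.SW.N6

/-!
# Translation by units
-/

set_option autoImplicit false
set_option linter.unusedSectionVars false

namespace Pool.Agent.T2H29.SW

open Finset NumberField NumberField.InfinitePlace Module MeasureTheory NumberField.Units

variable {K : Type} [Field K] [NumberField K]

/-- products of powers of the fundamental units -/
noncomputable def eu (k : Fin (Units.rank K) → ℤ) : (𝓞 K)ˣ := ∏ j, fundSystem K j ^ k j

lemma log_eu (k : Fin (Units.rank K) → ℤ) (w : InfinitePlace K) :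
    Real.log (w ((eu k : (𝓞 K)ˣ) : K)) = ∑ j, k j * lu K j w := by
  have h1 : ((eu k : (𝓞 K)ˣ) : K) = ∏ j, (fundSystem K j : K) ^ k j := by
    unfold eu
    have h2 : ∀ (s : Finset (Fin (Units.rank K))), (((∏ j ∈ s, fundSystem K j ^ k j : (𝓞 K)ˣ)) : K) =
        ∏ j ∈ s, (fundSystem K j : K) ^ k j := by
      intro s
      induction s using Finset.induction_on with
      | empty => simp
      | insert i s hi ih =>
        rw [Finset.prod_insert hi, Finset.prod_insert hi, Units.coe_mul, ih, Units.coe_zpow]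
    exact h2 _
  rw [h1, map_prod, Real.log_prod]
  · refine sum_congr rfl fun j _ => ?_
    rw [map_zpow₀, Real.log_zpow]
    rfl
  · intro j _
    rw [map_zpow₀]
    refine zpow_ne_zero _ ?_
    rw [map_ne_zero]
    exact Units.coe_ne_zero _

lemma UU_sh (k : Fin (Units.rank K) → ℤ) (x : LS K) (w : InfinitePlace K) :
    UU K (sh K k x) w = UU K x w + 2 * Real.log (w ((eu k : (𝓞 K)ˣ) : K)) := by
  rw [UU_apply, UU_apply, log_eu]
  have h : ∑ j, (sh K k x).1 j * lu K j w = ∑ j, x.1 j * lu K j w + ∑ j, k j * lu K j w := by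
    rw [← sum_add_distrib]
    refine sum_congr rfl fun j _ => ?_
    show (x.1 j + (k j : ℝ)) * _ = _
    ring
  rw [h]
  show x.2 + _ = _
  ring

lemma unit_ne (η : (𝓞 K)ˣ) : ((η : (𝓞 K)ˣ) : K) ≠ 0 := Units.coe_ne_zero _

lemma fg_sh (s : ℂ) (τ : InfinitePlace K → ℝ) (g : K) (k : Fin (Units.rank K) → ℤ) (x : LS K) :
    fg s τ g (sh K k x) = fg s τ (((eu k : (𝓞 K)ˣ) : K) * g) x *
      (infT τ ((eu k : (𝓞 K)ˣ) : K))⁻¹ := by
  unfold fg
  set ε : (𝓞 K)ˣ := eu k with hε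
  have hε0 : ∀ w : InfinitePlace K, 0 < w ((ε : (𝓞 K)ˣ) : K) := fun w => pos_iff.2 (unit_ne ε)
  have h1 : ∀ w : InfinitePlace K, Real.exp (UU K (sh K k x) w) * (mult w * (w g) ^ 2) =
      Real.exp (UU K x w) * (mult w * (w (((ε : (𝓞 K)ˣ) : K) * g)) ^ 2) := by
    intro w
    rw [UU_sh, Real.exp_add, map_mul, two_mul, Real.exp_add, Real.exp_log (hε0 w)]
    ring
  simp_rw [h1]
  rw [mul_assoc]
  congr 1
  have h2 : ∀ w : InfinitePlace K, Complex.exp (sw K s τ w * (UU K (sh K k x) w : ℝ)) =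
      Complex.exp (sw K s τ w * (UU K x w : ℝ)) *
      Complex.exp (sw K s τ w * (2 * Real.log (w ((ε : (𝓞 K)ˣ) : K)) : ℝ)) := by
    intro w
    rw [UU_sh, ← Complex.exp_add]
    congr 1
    push_cast
    ring
  simp_rw [h2]
  rw [prod_mul_distrib]
  congr 1
  have h3 : infT τ ((ε : (𝓞 K)ˣ) : K) = Complex.exp (∑ w : InfinitePlace K,
      (τ w : ℂ) * Complex.I * Real.log (w ((ε : (𝓞 K)ˣ) : K))) := by
    unfold infT
    rw [Complex.exp_sum]
    refine prod_congr rfl fun w _ => ?_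
    rw [Complex.cpow_def_of_ne_zero (by exact_mod_cast (hε0 w).ne'), ← Complex.ofReal_log (hε0 w).le,
      mul_comm]
  rw [h3, ← Complex.exp_neg, ← Complex.exp_sum]
  congr 1
  have h4 : (∑ w : InfinitePlace K, (mult w : ℂ) * (Real.log (w ((ε : (𝓞 K)ˣ) : K)) : ℂ)) = 0 := by
    have := sum_mult_mul_log (K := K) ε
    exact_mod_cast this
  have h5 : ∀ w : InfinitePlace K, sw K s τ w * (2 * Real.log (w ((ε : (𝓞 K)ˣ) : K)) : ℝ) =
      s * ((mult w : ℂ) * (Real.log (w ((ε : (𝓞 K)ˣ) : K)) : ℂ)) +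
      -((τ w : ℂ) * Complex.I * Real.log (w ((ε : (𝓞 K)ˣ) : K))) := by
    intro w
    unfold sw
    push_cast
    ring
  rw [sum_congr rfl fun w _ => h5 w, sum_add_distrib, ← mul_sum, h4, mul_zero, zero_add,
    sum_neg_distrib]

/-- the term of an element -/
noncomputable def TT (s : ℂ) (τ : InfinitePlace K → ℝ) (χ : Ideal (𝓞 K) →* ℂ) (α : 𝓞 K)
    (x : LS K) : ℂ := χ (Ideal.span {α}) * (infT τ (α : K))⁻¹ * fg s τ (α : K) x

lemma TT_unit (s : ℂ) (τ : InfinitePlace K → ℝ) (χ : Ideal (𝓞 K) →* ℂ) (g : 𝓞 K)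
    (ζ : torsion K) (k : Fin (Units.rank K) → ℤ) (x : LS K) :
    TT s τ χ (((((ζ : (𝓞 K)ˣ) * eu k : (𝓞 K)ˣ)) : 𝓞 K) * g) x = TT s τ χ g (sh K k x) := by
  have hζ : ∀ w : InfinitePlace K, w (((ζ : (𝓞 K)ˣ) : 𝓞 K) : K) = 1 := fun w =>
    (mem_torsion K).1 ζ.2 w
  have e1 : Ideal.span {(((((ζ : (𝓞 K)ˣ) * eu k : (𝓞 K)ˣ)) : 𝓞 K) * g)} = Ideal.span {g} := by
    rw [← Ideal.span_singleton_mul_span_singleton, Ideal.span_singleton_eq_top.2 (Units.isUnit _),
      Ideal.top_mul]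
  have e2 : (((((((ζ : (𝓞 K)ˣ) * eu k : (𝓞 K)ˣ)) : 𝓞 K) * g : 𝓞 K)) : K) =
      (((ζ : (𝓞 K)ˣ) : 𝓞 K) : K) * ((((eu k : (𝓞 K)ˣ) : 𝓞 K) : K) * (g : K)) := by
    push_cast
    ring
  have e3 : ∀ y : K, infT τ ((((ζ : (𝓞 K)ˣ) : 𝓞 K) : K) * y) = infT τ y := by
    intro y
    unfold infT
    refine prod_congr rfl fun w _ => ?_
    rw [map_mul, hζ, one_mul]
  have e4 : ∀ y : K, fg s τ ((((ζ : (𝓞 K)ˣ) : 𝓞 K) : K) * y) x = fg s τ y x := by
    intro y
    unfold fg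
    simp_rw [map_mul, hζ, one_mul]
  unfold TT
  rw [e1, e2, e3, e4, fg_sh, infT_mul, mul_inv]
  ring

lemma hasSum_fin {T β : Type} [Fintype T] {g1 : β → ℂ} {v1 : ℂ} (h1 : HasSum g1 v1) :
    HasSum (fun v : T × β => g1 v.2) ((Fintype.card T : ℂ) * v1) := by
  have h4 : HasSum (fun _ : T => (1 : ℂ)) (Fintype.card T : ℂ) := by
    have := hasSum_fintype (fun _ : T => (1 : ℂ))
    rw [sum_const, card_univ, nsmul_eq_mul, mul_one] at this
    exact this
  have h5 : Summable fun v : T × β => (fun _ : T => (1 : ℂ)) v.1 * g1 v.2 :=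
    summable_mul_of_summable_norm (f := fun _ : T => (1 : ℂ)) (g := g1) h4.summable.norm
      h1.summable.norm
  have h3 := HasSum.mul (f := fun _ : T => (1 : ℂ)) (g := g1) h4 h1 h5
  refine h3.congr_fun ?_ |> id
  intro v
  show _ = (1 : ℂ) * g1 v.2
  rw [one_mul]

lemma TT_int {s : ℂ} (hs : 0 < s.re) (τ : InfinitePlace K → ℝ) (χ : Ideal (𝓞 K) →* ℂ) {c : ℝ}
    (hc : ∀ G : (InfinitePlace K → ℝ) → ℂ, (∫ x, G (UU K x) = (c : ℂ) * ∫ u, G u) ∧
      (Integrable G → Integrable fun x => G (UU K x))) {g : 𝓞 K} (hg : g ≠ 0) :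
    Integrable (TT s τ χ g) ∧ ∫ x, TT s τ χ g x = (c * Gf K s τ) * (χ (Ideal.span {g}) *
        (Ideal.absNorm (Ideal.span {g}) : ℂ) ^ (-s)) := by
  obtain ⟨hi, hI⟩ := fg_int hs τ hc hg
  have hg' : (g : K) ≠ 0 := by exact_mod_cast hg
  refine ⟨hi.const_mul _, ?_⟩
  unfold TT
  rw [integral_const_mul, hI]
  have := infT_ne τ hg'
  field_simp

/-- the sum over the units -/
theorem TT_units {s : ℂ} (hs : 0 < s.re) (τ : InfinitePlace K → ℝ) (χ : Ideal (𝓞 K) →* ℂ) {c : ℝ}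
    (hc : ∀ G : (InfinitePlace K → ℝ) → ℂ, (∫ x, G (UU K x) = (c : ℂ) * ∫ u, G u) ∧
      (Integrable G → Integrable fun x => G (UU K x))) {g : 𝓞 K} (hg : g ≠ 0) :
    HasSum (fun v : torsion K × (Fin (Units.rank K) → ℤ) =>
      ∫ x in box K, TT s τ χ (((((v.1 : (𝓞 K)ˣ) * eu v.2 : (𝓞 K)ˣ)) : 𝓞 K) * g) x)
      ((torsionOrder K : ℂ) * ((c * Gf K s τ) * (χ (Ideal.span {g}) *
        (Ideal.absNorm (Ideal.span {g}) : ℂ) ^ (-s)))) := by
  obtain ⟨hTi, h2⟩ := TT_int hs τ χ hc hg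
  have h1 := unfold_box K _ hTi
  rw [h2] at h1
  haveI : Fintype (torsion K) := Fintype.ofFinite _
  have h3 := hasSum_fin (T := torsion K) h1
  have h4 : (Fintype.card (torsion K) : ℂ) = torsionOrder K := by
    unfold torsionOrder
    rw [Nat.card_eq_fintype_card]
  rw [h4] at h3
  refine h3.congr_fun ?_ |> id
  intro v
  refine setIntegral_congr_fun (box_meas K) fun x _ => ?_
  exact TT_unit s τ χ g v.1 v.2 x

end Pool.Agent.T2H29.SW
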