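import Pool.Agent.T2H29.SW.N7

/-!
# Elements of an ideal and the principal ideals below it
-/

set_option autoImplicit false
set_option linter.unusedSectionVars false

namespace Pool.Agent.T2H29.SW

open Finset NumberField NumberField.InfinitePlace Module MeasureTheory NumberField.Units

variable {K : Type} [Field K] [NumberField K]

/-- the nonzero principal ideals below `I` -/
def PrI (I : Ideal (𝓞 K)) : Type := {J : Ideal (𝓞 K) // J ≠ ⊥ ∧ J ≤ I ∧ Submodule.IsPrincipal J}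

/-- a generator -/
noncomputable def PrI.gen {I : Ideal (𝓞 K)} (J : PrI I) : 𝓞 K :=
  haveI := J.2.2.2
  Submodule.IsPrincipal.generator J.1

lemma PrI.span {I : Ideal (𝓞 K)} (J : PrI I) : Ideal.span {J.gen} = J.1 := by
  haveI := J.2.2.2
  exact Ideal.span_singleton_generator J.1

lemma PrI.gen_ne {I : Ideal (𝓞 K)} (J : PrI I) : J.gen ≠ 0 := by
  intro h
  apply J.2.1
  rw [← J.span, h, Ideal.span_singleton_eq_bot]

lemma PrI.gen_mem {I : Ideal (𝓞 K)} (J : PrI I) : J.gen ∈ I := by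
  apply J.2.2.1
  rw [← J.span]
  exact Ideal.mem_span_singleton_self _

/-- the unit attached to a pair -/
noncomputable def un (v : torsion K × (Fin (Units.rank K) → ℤ)) : (𝓞 K)ˣ := (v.1 : (𝓞 K)ˣ) * eu v.2

lemma un_inj : Function.Injective (un (K := K)) := by
  intro v v' h
  obtain ⟨y, _, hy⟩ := exist_unique_eq_mul_prod K (un v)
  rw [hy v rfl, hy v' (by rw [h]; rfl)]

lemma un_surj (η : (𝓞 K)ˣ) : ∃ v, un v = η := by
  obtain ⟨y, hy, _⟩ := exist_unique_eq_mul_prod K η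
  exact ⟨y, hy.symm⟩

/-- the element attached to a principal ideal and a unit -/
noncomputable def pel {I : Ideal (𝓞 K)} (v : PrI I × (torsion K × (Fin (Units.rank K) → ℤ))) : 𝓞 K :=
  (un v.2 : 𝓞 K) * v.1.gen

lemma pel_span {I : Ideal (𝓞 K)} (v : PrI I × (torsion K × (Fin (Units.rank K) → ℤ))) :
    Ideal.span {pel v} = v.1.1 := by
  unfold pel
  rw [← Ideal.span_singleton_mul_span_singleton, Ideal.span_singleton_eq_top.2 (Units.isUnit _),
    Ideal.top_mul, PrI.span]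

lemma pel_ne {I : Ideal (𝓞 K)} (v : PrI I × (torsion K × (Fin (Units.rank K) → ℤ))) :
    pel v ≠ 0 := mul_ne_zero (Units.ne_zero _) v.1.gen_ne

lemma pel_mem {I : Ideal (𝓞 K)} (v : PrI I × (torsion K × (Fin (Units.rank K) → ℤ))) :
    pel v ∈ I := I.mul_mem_left _ v.1.gen_mem

lemma el_eq {I : Ideal (𝓞 K)} (b : Basis (Fin (dg K)) ℤ I) (z : Fin (dg K) → ℤ) :
    el b z = (b.equivFun.symm z : 𝓞 K) := by
  unfold el
  rw [Basis.equivFun_symm_apply]

/-- coordinates of the element -/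
noncomputable def pz {I : Ideal (𝓞 K)} (b : Basis (Fin (dg K)) ℤ I)
    (v : PrI I × (torsion K × (Fin (Units.rank K) → ℤ))) : Fin (dg K) → ℤ :=
  b.equivFun ⟨pel v, pel_mem v⟩

lemma el_pz {I : Ideal (𝓞 K)} (b : Basis (Fin (dg K)) ℤ I)
    (v : PrI I × (torsion K × (Fin (Units.rank K) → ℤ))) : el b (pz b v) = pel v := by
  rw [el_eq, pz, LinearEquiv.symm_apply_apply]

lemma pz_inj {I : Ideal (𝓞 K)} (b : Basis (Fin (dg K)) ℤ I) : Function.Injective (pz b) := by
  intro v v' h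
  have h1 : pel v = pel v' := by rw [← el_pz b, ← el_pz b, h]
  have h2 : v.1 = v'.1 := by
    apply Subtype.ext
    rw [← pel_span v, ← pel_span v', h1]
  have h3 : un v.2 = un v'.2 := by
    unfold pel at h1
    rw [h2] at h1
    exact Units.ext (mul_right_cancel₀ v'.1.gen_ne h1)
  exact Prod.ext h2 (un_inj h3)

lemma pz_range {I : Ideal (𝓞 K)} (b : Basis (Fin (dg K)) ℤ I) {z : Fin (dg K) → ℤ} (hz : z ≠ 0) :
    z ∈ Set.range (pz b) := by
  set α : I := b.equivFun.symm z with hα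
  have hα0 : (α : 𝓞 K) ≠ 0 := by
    intro h
    apply hz
    have h1 : α = 0 := Subtype.ext h
    have h2 : b.equivFun α = z := by rw [hα, LinearEquiv.apply_symm_apply]
    rw [← h2, h1, map_zero]
  let J : PrI I := ⟨Ideal.span {(α : 𝓞 K)}, by rw [ne_eq, Ideal.span_singleton_eq_bot]; exact hα0,
    (Ideal.span_singleton_le_iff_mem _).2 α.2, ⟨⟨(α : 𝓞 K), rfl⟩⟩⟩
  have h1 : Ideal.span {J.gen} = Ideal.span {(α : 𝓞 K)} := J.span
  rw [Ideal.span_singleton_eq_span_singleton] at h1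
  obtain ⟨η, hη⟩ := h1
  obtain ⟨v, hv⟩ := un_surj η
  refine ⟨(J, v), ?_⟩
  have h2 : pel (J, v) = (α : 𝓞 K) := by
    unfold pel
    show (un v : 𝓞 K) * J.gen = _
    rw [hv, mul_comm, hη]
  have h3 : (⟨pel (J, v), pel_mem (J, v)⟩ : I) = α := Subtype.ext h2
  rw [pz, h3, hα, LinearEquiv.apply_symm_apply]

lemma el_zero {I : Ideal (𝓞 K)} (b : Basis (Fin (dg K)) ℤ I) : el b 0 = 0 := by
  rw [el_eq, map_zero]; rfl

lemma el_ne {I : Ideal (𝓞 K)} (b : Basis (Fin (dg K)) ℤ I) {z : Fin (dg K) → ℤ} (hz : z ≠ 0) :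
    el b z ≠ 0 := by
  obtain ⟨v, rfl⟩ := pz_range b hz
  rw [el_pz]
  exact pel_ne v

lemma el_mem {I : Ideal (𝓞 K)} (b : Basis (Fin (dg K)) ℤ I) (z : Fin (dg K) → ℤ) :
    el b z ∈ I := by
  rw [el_eq]
  exact (b.equivFun.symm z).2

/-- from elements to ideals -/
theorem class_hasSum {I : Ideal (𝓞 K)} (b : Basis (Fin (dg K)) ℤ I) {F : 𝓞 K → ℂ} (hF0 : F 0 = 0)
    {S : ℂ} (hS : HasSum (fun z => F (el b z)) S) {G : PrI I → ℂ}
    (hin : ∀ J : PrI I, HasSum (fun v : torsion K × (Fin (Units.rank K) → ℤ) =>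
      F ((un v : 𝓞 K) * J.gen)) (G J)) : HasSum G S := by
  have h1 : HasSum (fun v : PrI I × (torsion K × (Fin (Units.rank K) → ℤ)) => F (pel v)) S := by
    have h2 : HasSum ((fun z => F (el b z)) ∘ pz b) S := by
      rw [(pz_inj b).hasSum_iff]
      · exact hS
      · intro z hz
        by_cases h3 : z = 0
        · rw [h3, el_zero, hF0]
        · exact absurd (pz_range b h3) hz
    refine h2.congr_fun ?_ |> id
    intro v
    show _ = F (el b (pz b v))
    rw [el_pz]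
  exact h1.prod_fiberwise hin

end Pool.Agent.T2H29.SW
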