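import Pool.Agent.T2H29.SW.N8

/-!
# The ideal lattices are balanced
-/

set_option autoImplicit false
set_option linter.unusedSectionVars false

namespace Pool.Agent.T2H29.SW

open Finset NumberField NumberField.InfinitePlace Module MeasureTheory NumberField.Units

variable {K : Type} [Field K] [NumberField K]

/-- the matrix at the point `x` -/
noncomputable def AX {I : Ideal (𝓞 K)} (b : Basis (Fin (dg K)) ℤ I) (x : LS K) :
    Matrix (Fin (dg K)) (Fin (dg K)) ℝ := MX (fun w => Real.exp (UU K x w)) b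

lemma norm_prod' (α : 𝓞 K) : (Ideal.absNorm (Ideal.span {α}) : ℝ) =
    ∏ w : InfinitePlace K, w (α : K) ^ mult w := by
  rw [prod_eq_abs_norm, Ideal.absNorm_span_singleton]
  have h2 : Algebra.norm ℚ (α : K) = ((Algebra.norm ℤ α : ℤ) : ℚ) := (Algebra.coe_norm_int α).symm
  rw [h2]
  push_cast
  rw [Nat.cast_natAbs, Int.cast_abs]

lemma prod_exp_UU (x : LS K) : ∏ w : InfinitePlace K, Real.exp (UU K x w) ^ mult w =
    Real.exp (dg K * x.2) := by
  rw [← UU_sum, Real.exp_sum]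
  refine prod_congr rfl fun w _ => ?_
  rw [← Real.exp_nat_mul]

lemma abs_det_AX {I : Ideal (𝓞 K)} (b : Basis (Fin (dg K)) ℤ I) (x : LS K) :
    |(AX b x).det| = Real.exp (dg K * x.2 / 2) * (cK K * Ideal.absNorm I) := by
  unfold AX
  rcases det_MX (fun w => Real.exp (UU K x w)) b with h | ⟨w, hw⟩
  · rw [h, prod_exp_UU, abs_mul, det_MX_one, abs_of_nonneg (Real.sqrt_nonneg _), Real.exp_half]
  · exact absurd hw (not_lt.2 (Real.exp_pos _).le)

lemma absNorm_pos' {I : Ideal (𝓞 K)} (hI : I ≠ ⊥) : (0 : ℝ) < Ideal.absNorm I := by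
  have : Ideal.absNorm I ≠ 0 := fun h => hI (Ideal.absNorm_eq_zero_iff.1 h)
  exact_mod_cast Nat.pos_of_ne_zero this

lemma det_AX_ne {I : Ideal (𝓞 K)} (hI : I ≠ ⊥) (b : Basis (Fin (dg K)) ℤ I) (x : LS K) :
    (AX b x).det ≠ 0 := by
  rw [← abs_pos, abs_det_AX]
  have := cK_pos K
  have := absNorm_pos' hI
  positivity

/-- the value of `M` -/
noncomputable def mm (I : Ideal (𝓞 K)) (t : ℝ) : ℝ :=
  Real.exp (-(dg K * t / 2)) / (cK K * Ideal.absNorm I)

lemma Mv_AX {I : Ideal (𝓞 K)} (b : Basis (Fin (dg K)) ℤ I) (x : LS K) :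
    Mv (AX b x) = mm I x.2 := by
  unfold Mv mm
  rw [abs_det_AX, mul_inv, Real.exp_neg, div_eq_mul_inv _ (cK K * _)]

/-- the inequality between the means -/
lemma am_gm (x : LS K) (α : 𝓞 K) :
    (dg K : ℝ) ^ (dg K) * (Real.exp (dg K * x.2) * (Ideal.absNorm (Ideal.span {α}) : ℝ) ^ 2) ≤
      (∑ w : InfinitePlace K, Real.exp (UU K x w) * (mult w * (w (α : K)) ^ 2)) ^ (dg K) := by
  set Z : InfinitePlace K → ℝ := fun w => Real.exp (UU K x w) * (w (α : K)) ^ 2 with hZ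
  have hZ0 : ∀ w, 0 ≤ Z w := fun w => by positivity
  have hn : (0 : ℝ) < dg K := by exact_mod_cast NeZero.pos (dg K)
  have h1 := Real.geom_mean_le_arith_mean univ (fun w : InfinitePlace K => (mult w : ℝ)) Z
    (fun w _ => by positivity) (by rw [sum_mult_real]; exact hn) (fun w _ => hZ0 w)
  rw [sum_mult_real] at h1
  have h2 : ∏ w : InfinitePlace K, Z w ^ (mult w : ℝ) =
      Real.exp (dg K * x.2) * (Ideal.absNorm (Ideal.span {α}) : ℝ) ^ 2 := by
    rw [← prod_exp_UU, norm_prod', ← prod_pow, ← prod_mul_distrib]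
    refine prod_congr rfl fun w _ => ?_
    rw [Real.rpow_natCast, hZ]
    ring
  rw [h2] at h1
  set Y := Real.exp (dg K * x.2) * (Ideal.absNorm (Ideal.span {α}) : ℝ) ^ 2 with hY
  have hY0 : 0 ≤ Y := by positivity
  have h3 : Y ≤ ((∑ w : InfinitePlace K, (mult w : ℝ) * Z w) / dg K) ^ (dg K) := by
    have h4 := pow_le_pow_left₀ (Real.rpow_nonneg hY0 _) h1 (dg K)
    have h5 : (Y ^ ((dg K : ℝ)⁻¹)) ^ (dg K) = Y := by
      rw [← Real.rpow_natCast, ← Real.rpow_mul hY0, inv_mul_cancel₀ hn.ne', Real.rpow_one]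
    rwa [h5] at h4
  rw [div_pow, le_div_iff₀ (by positivity)] at h3
  have h6 : ∑ w : InfinitePlace K, (mult w : ℝ) * Z w =
      ∑ w : InfinitePlace K, Real.exp (UU K x w) * (mult w * (w (α : K)) ^ 2) := by
    refine sum_congr rfl fun w _ => ?_
    rw [hZ]; ring
  rw [h6] at h3
  linarith

variable {P : Ideal (𝓞 K)} {p ν : ℕ} {ρ : 𝓞 K →+* ZMod (p ^ ν)}

lemma norm_ge (h : Deg1 P p) (hp : p.Prime) (hρ : Red P p ν ρ) {I : Ideal (𝓞 K)}
    (hco : IsCoprime I P) {k : ℕ} (hk : k ≤ ν) {α : 𝓞 K} (hα : α ≠ 0) (hαI : α ∈ I) {y : ZMod (p ^ ν)}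
    (hy : ρ α = (p : ZMod (p ^ ν)) ^ k * y) :
    (Ideal.absNorm I : ℝ) * (p : ℝ) ^ k ≤ Ideal.absNorm (Ideal.span {α}) := by
  have h1 : α ∈ P ^ k := hρ.le h hk hy
  have h2 : α ∈ I * P ^ k := by
    rw [← Ideal.inf_eq_mul_of_isCoprime (hco.pow_right)]
    exact ⟨hαI, h1⟩
  have h3 : Ideal.absNorm (I * P ^ k) ∣ Ideal.absNorm (Ideal.span {α}) :=
    Ideal.absNorm_dvd_absNorm_of_le ((Ideal.span_singleton_le_iff_mem _).2 h2)
  have h4 : 0 < Ideal.absNorm (Ideal.span {α}) := by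
    refine Nat.pos_of_ne_zero fun h5 => hα ?_
    rw [Ideal.absNorm_eq_zero_iff, Ideal.span_singleton_eq_bot] at h5
    exact h5
  have h5 := Nat.le_of_dvd h4 h3
  rw [map_mul, map_pow, h.norm] at h5
  exact_mod_cast h5

variable (K)

/-- the lattices are balanced, with a constant depending only on the field -/
theorem exists_Bal : ∃ B : ℝ, 1 ≤ B ∧ ∀ (P : Ideal (𝓞 K)) (p ν : ℕ) (ρ : 𝓞 K →+* ZMod (p ^ ν)),
    Deg1 P p → p.Prime → Red P p ν ρ → ∀ (I : Ideal (𝓞 K)), I ≠ ⊥ → IsCoprime I P →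
    ∀ (b : Basis (Fin (dg K)) ℤ I) (o : Fin (dg K)) (u : ZMod (p ^ ν)),
    (∀ z, ρ (el b z) = (z o : ZMod (p ^ ν)) * u) → ∀ x : LS K, Bal p o ν B (AX b x) := by
  haveI : Nonempty (Fin (dg K)) := ⟨0⟩
  have hn : (0 : ℝ) < dg K := by exact_mod_cast NeZero.pos (dg K)
  have hc := cK_pos K
  have hκ : 0 < (dg K : ℝ) ^ (dg K) / cK K ^ 2 := by positivity
  obtain ⟨B, hB1, hB⟩ := cb_min (Fin (dg K)) hκ
  refine ⟨B, hB1, fun P p ν ρ h hp hρ I hI hco b o u hu x k hk => ?_⟩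
  have hdA := det_AX_ne hI b x
  refine hB _ (det_mul_dk_ne hp.pos o hdA k) fun z hz => ?_
  -- the element
  set z' := sc (dk p o k) z with hz'
  have hz'0 : z' ≠ 0 := by
    intro h0
    apply hz
    funext i
    have h1 : (dk p o k i : ℤ) * z i = 0 := congrFun h0 i
    have h2 : (dk p o k i : ℤ) ≠ 0 := by exact_mod_cast (dk_pos hp.pos o k i).ne'
    exact (mul_eq_zero.1 h1).resolve_left h2
  have hq : q (AX b x * dgm (dk p o k)) (cz z) = q (AX b x) (cz z') := by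
    unfold q
    rw [← Matrix.mulVec_mulVec, dgm_mulVec]
    have : (fun i => (dk p o k i : ℝ) * cz z i) = cz z' := by
      funext i
      rw [hz']
      simp [cz, sc]
    rw [this]
  rw [hq, Fintype.card_fin]
  unfold AX
  rw [q_MX (fun w => (Real.exp_pos _).le)]
  refine le_trans ?_ (am_gm x (el b z'))
  have hα0 := el_ne b hz'0
  have hy : ρ (el b z') = (p : ZMod (p ^ ν)) ^ k * ((z o : ZMod (p ^ ν)) * u) := by
    rw [hu, hz']
    unfold sc dk
    simp only [if_true]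
    push_cast
    ring
  have h1 := norm_ge h hp hρ hco hk hα0 (el_mem b z') hy
  have hdet : (MX (fun w => Real.exp (UU K x w)) b * dgm (dk p o k)).det ^ 2 =
      Real.exp (dg K * x.2) * (cK K * Ideal.absNorm I * (p : ℝ) ^ k) ^ 2 := by
    rw [Matrix.det_mul, det_dk, ← sq_abs, abs_mul]
    have h2 := abs_det_AX b x
    unfold AX at h2
    rw [h2, abs_of_nonneg (by positivity : (0 : ℝ) ≤ (p : ℝ) ^ k)]
    have h3 : Real.exp (dg K * x.2) = Real.exp (dg K * x.2 / 2) ^ 2 := by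
      rw [← Real.exp_nat_mul]
      congr 1
      push_cast
      ring
    rw [h3]
    ring
  rw [hdet]
  have hI0 := absNorm_pos' hI
  have h4 : ((Ideal.absNorm I : ℝ) * (p : ℝ) ^ k) ^ 2 ≤
      (Ideal.absNorm (Ideal.span {el b z'}) : ℝ) ^ 2 := pow_le_pow_left₀ (by positivity) h1 2
  calc (dg K : ℝ) ^ dg K / cK K ^ 2 * (Real.exp (dg K * x.2) *
        (cK K * Ideal.absNorm I * (p : ℝ) ^ k) ^ 2) =
      (dg K : ℝ) ^ dg K * (Real.exp (dg K * x.2) * ((Ideal.absNorm I : ℝ) * (p : ℝ) ^ k) ^ 2) := by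
        field_simp
    _ ≤ _ := by
        refine mul_le_mul_of_nonneg_left ?_ (by positivity)
        exact mul_le_mul_of_nonneg_left h4 (Real.exp_pos _).le

end Pool.Agent.T2H29.SW
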