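import Pool.Agent.T2H29.SW.M3

/-!
# Complete sums with four factors: prime moduli and squares of primes
-/

set_option autoImplicit false
set_option linter.unusedSectionVars false

namespace Pool.Agent.T2H29.SW

open Finset NumberField NumberField.InfinitePlace Module

section FF
open Polynomial Pool.Agent.H341R2.Sharp Pool.Agent.H435R3.Weil

lemma cop_of1 {F : Type} [Field F] {t : ℕ} {P R : F[X]} {v : F} (hP : P.eval v = 0)
    (hP' : P.derivative.eval v ≠ 0) (hR : R.eval v ≠ 0) : Cop t (P * R ^ (t - 1)) := by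
  classical
  have hP0 : P ≠ 0 := by
    rintro rfl
    simp at hP'
  have hR0 : R ≠ 0 := by
    rintro rfl
    simp at hR
  refine ⟨v, ?_⟩
  have h1 : rootMultiplicity v R = 0 := rootMultiplicity_eq_zero hR
  have h2 : rootMultiplicity v P = 1 := by
    have h3 : 0 < rootMultiplicity v P := (rootMultiplicity_pos hP0).2 hP
    have h4 : ¬ 1 < rootMultiplicity v P := by
      intro h5
      have h6 := (one_lt_rootMultiplicity_iff_isRoot hP0).1 h5
      exact hP' h6.2
    omega
  rw [rootMultiplicity_mul (mul_ne_zero hP0 (pow_ne_zero _ hR0)), h2,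
    ← count_roots (R ^ (t - 1)), roots_pow, Multiset.count_nsmul, count_roots, h1, mul_zero, add_zero]
  exact Nat.coprime_one_left t

variable {F : Type} [Field F] [Fintype F] [DecidableEq F]

theorem four_le (χ : MulChar F ℂ) (hχ : χ ≠ 1) {b1 b2 b3 b4 : F} (h2 : b1 ≠ b2) (h3 : b1 ≠ b3)
    (h4 : b1 ≠ b4) : ‖∑ x : F, χ (x + b1) * χ (x + b2) * ((starRingEnd ℂ) (χ (x + b3)) *
      (starRingEnd ℂ) (χ (x + b4)))‖ ≤ 4 * Real.sqrt (Fintype.card F) := by
  set t := orderOf χ with ht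
  have ht0 : 0 < t := χ.orderOf_pos
  have ht1 : t ≠ 1 := fun h => hχ (orderOf_eq_one_iff.1 h)
  have ht2 : 2 ≤ t := by omega
  set P : F[X] := (X + C b1) * (X + C b2) with hP
  set R : F[X] := (X + C b3) * (X + C b4) with hR
  have hPm : P.Monic := (monic_X_add_C b1).mul (monic_X_add_C b2)
  have hRm : R.Monic := (monic_X_add_C b3).mul (monic_X_add_C b4)
  have hPd : P.natDegree = 2 := by
    rw [hP, (monic_X_add_C b1).natDegree_mul (monic_X_add_C b2), natDegree_X_add_C, natDegree_X_add_C]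
  have hRd : R.natDegree = 2 := by
    rw [hR, (monic_X_add_C b3).natDegree_mul (monic_X_add_C b4), natDegree_X_add_C, natDegree_X_add_C]
  have hcop : Cop t (P * R ^ (t - 1)) := by
    refine cop_of1 (v := -b1) ?_ ?_ ?_
    · rw [hP]; simp
    · rw [hP]
      simp only [derivative_mul, derivative_add, derivative_X, derivative_C, add_zero, one_mul,
        mul_one, eval_add, eval_X, eval_C, neg_add_cancel]
      intro h
      apply h2
      linear_combination -h
    · rw [hR, eval_mul, eval_add, eval_add, eval_X, eval_C, eval_C]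
      refine mul_ne_zero (fun h => h3 ?_) (fun h => h4 ?_)
      · linear_combination -h
      · linear_combination -h
  have w := weil t ht2 χ.orderOf_dvd_card_sub_one χ hχ (pow_orderOf_eq_one χ) P R hPm hRm hcop
  rw [hPd, hRd] at w
  have e1 : ∑ x : F, χ (x + b1) * χ (x + b2) * ((starRingEnd ℂ) (χ (x + b3)) *
      (starRingEnd ℂ) (χ (x + b4))) = ∑ x : F, χ (P.eval x) * (starRingEnd ℂ) (χ (R.eval x)) := by
    refine sum_congr rfl fun x _ => ?_
    rw [hP, hR]
    simp only [eval_mul, eval_add, eval_X, eval_C, map_mul]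
  rw [e1]
  refine w.trans (le_of_eq ?_)
  norm_num

/-- the number of roots of the stationary equation -/
theorem quad_roots {b1 b2 b3 b4 : F} (h2 : b1 ≠ b2) (h3 : b1 ≠ b3) (h4 : b1 ≠ b4) :
    (univ.filter fun y : F => (2 * y + b1 + b2) * ((y + b3) * (y + b4)) -
      (2 * y + b3 + b4) * ((y + b1) * (y + b2)) = 0).card ≤ 2 := by
  set p : F[X] := C (b3 + b4 - b1 - b2) * X ^ 2 + C (2 * (b3 * b4 - b1 * b2)) * X +
    C ((b1 + b2) * (b3 * b4) - (b3 + b4) * (b1 * b2)) with hp
  have hev : ∀ y, p.eval y = (2 * y + b1 + b2) * ((y + b3) * (y + b4)) -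
      (2 * y + b3 + b4) * ((y + b1) * (y + b2)) := by
    intro y
    rw [hp]
    simp only [eval_add, eval_mul, eval_C, eval_pow, eval_X]
    ring
  have hp0 : p ≠ 0 := by
    intro h
    have h5 := hev (-b1)
    rw [h, eval_zero] at h5
    have h6 : (b2 - b1) * ((b3 - b1) * (b4 - b1)) = 0 := by linear_combination -h5
    rcases mul_eq_zero.1 h6 with h7 | h7
    · exact h2 (sub_eq_zero.1 h7).symm
    · rcases mul_eq_zero.1 h7 with h8 | h8
      · exact h3 (sub_eq_zero.1 h8).symm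
      · exact h4 (sub_eq_zero.1 h8).symm
  have h5 : (univ.filter fun y : F => (2 * y + b1 + b2) * ((y + b3) * (y + b4)) -
      (2 * y + b3 + b4) * ((y + b1) * (y + b2)) = 0) ⊆ p.roots.toFinset := by
    intro y hy
    rw [mem_filter] at hy
    rw [Multiset.mem_toFinset, mem_roots hp0]
    show p.eval y = 0
    rw [hev]
    exact hy.2
  refine (card_le_card h5).trans ((Multiset.toFinset_card_le _).trans ((card_roots' p).trans ?_))
  rw [hp]
  compute_degree

end FF

variable {K : Type} [Field K] [NumberField K]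

/-- the product of four factors -/
noncomputable def PF (F : 𝓞 K → ℂ) (b1 b2 b3 b4 y : 𝓞 K) : ℂ :=
  F (y + b1) * F (y + b2) * ((starRingEnd ℂ) (F (y + b3)) * (starRingEnd ℂ) (F (y + b4)))

lemma PF_le {m : Ideal (𝓞 K)} {F : 𝓞 K → ℂ} (hF : PM m F) (b1 b2 b3 b4 y : 𝓞 K) :
    ‖PF F b1 b2 b3 b4 y‖ ≤ 1 := by
  unfold PF
  rw [norm_mul, norm_mul, norm_mul, RCLike.norm_conj, RCLike.norm_conj]
  exact mul_le_one₀ (mul_le_one₀ (hF.le_one _) (norm_nonneg _) (hF.le_one _))
    (mul_nonneg (norm_nonneg _) (norm_nonneg _))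
    (mul_le_one₀ (hF.le_one _) (norm_nonneg _) (hF.le_one _))

lemma PF_per {m : Ideal (𝓞 K)} {F : 𝓞 K → ℂ} (hF : PerO m F) (b1 b2 b3 b4 : 𝓞 K) :
    PerO m (PF F b1 b2 b3 b4) := by
  intro x y hxy
  unfold PF
  have h : ∀ b, F (x + b) = F (y + b) := fun b => hF _ _ (by
    have : x + b - (y + b) = x - y := by ring
    rwa [this])
  rw [h, h, h, h]

theorem four_prime {P : Ideal (𝓞 K)} (hP : Prime P) [Fintype (𝓞 K ⧸ P)] {F : 𝓞 K → ℂ}
    (hF : PM P F) {b1 b2 b3 b4 : 𝓞 K} (h2 : b1 - b2 ∉ P) (h3 : b1 - b3 ∉ P) (h4 : b1 - b4 ∉ P) :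
    ‖sQ P (PF F b1 b2 b3 b4)‖ ≤ 4 * √(Ideal.absNorm P) := by
  classical
  have hP0 : P ≠ ⊥ := hP.ne_zero
  haveI hPp : P.IsPrime := Ideal.isPrime_of_prime hP
  haveI hPm : P.IsMaximal := hPp.isMaximal hP0
  letI : Field (𝓞 K ⧸ P) := Ideal.Quotient.field P
  have hcard : Ideal.absNorm P = Fintype.card (𝓞 K ⧸ P) := by
    rw [Ideal.absNorm_apply, Submodule.cardQuot_apply, Nat.card_eq_fintype_card]
  have hper : ∀ x y, x - y ∈ P → F x = F y := hF.per
  let χ : MulChar (𝓞 K ⧸ P) ℂ :=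
    { toFun := fun c => F (Quotient.out c)
      map_one' := by
        rw [← hF.one]
        exact hper _ _ (out_sub P 1)
      map_mul' := fun c d => by
        rw [← hF.mul]
        refine hper _ _ ?_
        rw [← Ideal.Quotient.mk_eq_mk_iff_sub_mem, mk_out, map_mul, mk_out, mk_out]
      map_nonunit' := fun c hc => by
        have h0 : c = 0 := by
          by_contra h1
          exact hc (isUnit_iff_ne_zero.2 h1)
        refine hF.zero _ (not_cop.2 ⟨P, hPp, ?_, le_rfl⟩)
        rw [h0, ← Ideal.Quotient.eq_zero_iff_mem, mk_out] }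
  have hχ : ∀ x, χ (Ideal.Quotient.mk P x) = F x := fun x => hper _ _ (out_sub P x)
  have hχ1 : χ ≠ 1 := by
    intro h1
    obtain ⟨α, -, hα2, hα3⟩ := hF.prim ⊤ (lt_top_iff_ne_top.2 hPp.ne_top)
    apply hα3
    rw [← hχ, h1, MulChar.one_apply]
    rw [isUnit_iff_ne_zero, Ne, Ideal.Quotient.eq_zero_iff_mem]
    intro h2
    exact not_cop.2 ⟨P, hPp, h2, le_rfl⟩ hα2
  have hne : ∀ b b' : 𝓞 K, b - b' ∉ P → Ideal.Quotient.mk P b ≠ Ideal.Quotient.mk P b' := by
    intro b b' h h'
    exact h ((Ideal.Quotient.mk_eq_mk_iff_sub_mem _ _).1 h')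
  have h1 := four_le χ hχ1 (hne _ _ h2) (hne _ _ h3) (hne _ _ h4)
  rw [hcard]
  refine le_trans (le_of_eq ?_) h1
  congr 1
  unfold sQ
  refine sum_congr rfl fun c _ => ?_
  beta_reduce
  unfold PF
  have e1 : ∀ b, χ (c + Ideal.Quotient.mk P b) = F (Quotient.out c + b) := by
    intro b
    rw [← hχ, map_add (Ideal.Quotient.mk P), mk_out]
  rw [e1, e1, e1, e1]

end Pool.Agent.T2H29.SW
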