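import Pool.Agent.T2H29.SW.U9

/-!
# A sieve with Gaussian weights
-/

set_option autoImplicit false
set_option linter.unusedSectionVars false

namespace Pool.Agent.T2H29.SW

open Finset NumberField NumberField.InfinitePlace Module MeasureTheory

variable {K : Type} [Field K] [NumberField K]

/-- the set of sieved elements -/
def Dset (d q : Ideal (𝓞 K)) : Set (𝓞 K) := {a | a ∈ d ∧ IsCoprime (Ideal.span {a}) q}

/-- the step of the sieve -/
lemma Dset_ind {μ : 𝓞 K → ℝ} {P q q' d : Ideal (𝓞 K)} {k : ℕ} (hPm : P.IsMaximal) (hqP : q ≤ P)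
    (hqe : q = P ^ k * q') (hdP : IsCoprime d P) (a : 𝓞 K) : (Dset d q).indicator μ a =
      (Dset d q').indicator μ a - (Dset (d * P) q').indicator μ a := by
  by_cases ha : a ∈ Dset d q'
  · by_cases hP : a ∈ P
    · have h3 : a ∈ Dset (d * P) q' := by
        refine ⟨?_, ha.2⟩
        rw [← Ideal.inf_eq_mul_of_isCoprime hdP]
        exact ⟨ha.1, hP⟩
      have h4 : a ∉ Dset d q := by
        intro h5
        have h6 := h5.2
        rw [cop_prime] at h6
        exact h6 P hPm.isPrime ((Ideal.span_singleton_le_iff_mem _).2 hP) hqP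
      rw [Set.indicator_of_mem ha, Set.indicator_of_mem h3, Set.indicator_of_notMem h4,
        sub_self]
    · have h3 : a ∉ Dset (d * P) q' := fun h5 => hP ((Ideal.mul_le_right : d * P ≤ P) h5.1)
      have h4 : a ∈ Dset d q := by
        refine ⟨ha.1, ?_⟩
        rw [hqe]
        refine IsCoprime.mul_right ?_ ha.2
        refine IsCoprime.pow_right ?_
        rw [Ideal.isCoprime_iff_sup_eq, sup_comm]
        refine hPm.1.2 _ (lt_of_le_of_ne le_sup_left fun h => hP ?_)
        rw [h]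
        exact Ideal.mem_sup_right (Ideal.mem_span_singleton_self a)
      rw [Set.indicator_of_mem ha, Set.indicator_of_notMem h3, Set.indicator_of_mem h4,
        sub_zero]
  · have h3 : a ∉ Dset (d * P) q' := fun h5 => ha ⟨(Ideal.mul_le_left : d * P ≤ d) h5.1, h5.2⟩
    have h4 : a ∉ Dset d q := by
      intro h5
      apply ha
      refine ⟨h5.1, ?_⟩
      have h6 := h5.2
      rw [hqe] at h6
      exact IsCoprime.of_mul_right_right h6
    rw [Set.indicator_of_notMem ha, Set.indicator_of_notMem h3, Set.indicator_of_notMem h4,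
      sub_zero]

lemma abs_step {X Y u v A B : ℝ} (h1 : |X - u| ≤ A) (h2 : |Y - v| ≤ A) (h3 : 2 * A ≤ B) :
    |X - Y - (u - v)| ≤ B := by
  rw [abs_le] at *
  constructor <;> linarith [h1.1, h1.2, h2.1, h2.2]

/-- the sieve -/
theorem sieve {μ : 𝓞 K → ℝ} (hμs : Summable μ) {V C : ℝ} (hC : 0 ≤ C)
    (hb : ∀ d : Ideal (𝓞 K), d ≠ ⊥ → |∑' a, (d : Set (𝓞 K)).indicator μ a - V / Ideal.absNorm d| ≤ C) :
    ∀ (n : ℕ) (q : Ideal (𝓞 K)), q ≠ ⊥ → Ideal.absNorm q ≤ n → ∃ κ : ℝ, (tau q : ℝ)⁻¹ ≤ κ ∧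
      ∀ d : Ideal (𝓞 K), d ≠ ⊥ → IsCoprime d q →
      |∑' a, (Dset d q).indicator μ a - κ * V / Ideal.absNorm d| ≤ tau q * C := by
  intro n
  induction n with
  | zero =>
    intro q hq hn
    have := nrm_pos hq
    omega
  | succ n ih =>
    intro q hq hn
    have hτq : (1 : ℝ) ≤ tau q := by exact_mod_cast tau_pos hq
    by_cases hqt : q = ⊤
    · refine ⟨1, inv_le_one_of_one_le₀ hτq, fun d hd _ => ?_⟩
      have e1 : Dset d q = (d : Set (𝓞 K)) := by
        ext a
        constructor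
        · exact fun h => h.1
        · intro h
          refine ⟨h, ?_⟩
          rw [hqt, Ideal.isCoprime_iff_sup_eq]
          exact sup_top_eq _
      rw [e1, one_mul]
      refine (hb d hd).trans ?_
      exact le_mul_of_one_le_left hC hτq
    · obtain ⟨P, hPm, hqP⟩ := Ideal.exists_le_maximal q hqt
      have hP0 : P ≠ ⊥ := by
        rintro rfl
        exact hq (le_bot_iff.1 hqP)
      have hPp : Prime P := Ideal.prime_of_isPrime hP0 hPm.isPrime
      obtain ⟨k, q', hPq', hqe⟩ := WfDvdMonoid.max_power_factor hq hPp.irreducible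
      have hk : 1 ≤ k := by
        by_contra h
        have hk0 : k = 0 := by omega
        rw [hk0, pow_zero, one_mul] at hqe
        apply hPq'
        rw [← hqe, Ideal.dvd_iff_le]
        exact hqP
      have hq'0 : q' ≠ ⊥ := by
        rintro rfl
        exact hPq' (dvd_zero P)
      have hPk0 : P ^ k ≠ ⊥ := pow_ne_zero k hP0
      have hNP2 : 2 ≤ Ideal.absNorm P := two_le_nrm hPp
      have hNq' : Ideal.absNorm q' ≤ n := by
        have h1 : Ideal.absNorm q = Ideal.absNorm P ^ k * Ideal.absNorm q' := by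
          rw [hqe, map_mul, map_pow]
        have h2 : 2 ≤ Ideal.absNorm P ^ k := hNP2.trans (Nat.le_self_pow (by omega) _)
        have h3 := nrm_pos hq'0
        nlinarith
      obtain ⟨κ', hκ', hbd⟩ := ih q' hq'0 hNq'
      have hPq'c : IsCoprime P q' := by
        rw [Ideal.isCoprime_iff_sup_eq]
        refine hPm.1.2 _ (lt_of_le_of_ne le_sup_left fun h => hPq' ?_)
        rw [Ideal.dvd_iff_le, h]
        exact le_sup_right
      have hPkq' : IsCoprime (P ^ k) q' := hPq'c.pow_left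
      have hτ2 : (2 : ℝ) * tau q' ≤ tau q := by
        have h1 := tau_cop_mul hPk0 hq'0 hPkq'
        have h2 := tau_ge_two hPp hk
        have h3 : 2 * tau q' ≤ tau q := by
          rw [hqe]
          exact (Nat.mul_le_mul_right _ h2).trans h1
        exact_mod_cast h3
      have hτ' : (1 : ℝ) ≤ tau q' := by exact_mod_cast tau_pos hq'0
      have hNP : (2 : ℝ) ≤ Ideal.absNorm P := by exact_mod_cast hNP2
      refine ⟨κ' * (1 - 1 / Ideal.absNorm P), ?_, fun d hd hdq => ?_⟩
      · have h1 : (1 : ℝ) / 2 ≤ 1 - 1 / Ideal.absNorm P := by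
          have : (1 : ℝ) / Ideal.absNorm P ≤ 1 / 2 := one_div_le_one_div_of_le (by norm_num) hNP
          linarith
        have h2 : (tau q : ℝ)⁻¹ ≤ (tau q' : ℝ)⁻¹ * (1 / 2) := by
          rw [inv_le_comm₀ (by positivity) (by positivity)]
          calc ((tau q' : ℝ)⁻¹ * (1 / 2))⁻¹ = 2 * tau q' := by
                rw [mul_inv, inv_inv]
                ring
            _ ≤ _ := hτ2
        refine h2.trans ?_
        exact mul_le_mul hκ' h1 (by norm_num) ((inv_nonneg.2 (by positivity)).trans hκ')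
      · have hdP : IsCoprime d P := by
          rw [hqe] at hdq
          have h1 : IsCoprime d (P ^ k) := IsCoprime.of_mul_right_left hdq
          obtain ⟨j, rfl⟩ : ∃ j, k = j + 1 := ⟨k - 1, by omega⟩
          rw [pow_succ] at h1
          exact IsCoprime.of_mul_right_right h1
        have hdq' : IsCoprime d q' := by
          rw [hqe] at hdq
          exact IsCoprime.of_mul_right_right hdq
        have hdP0 : d * P ≠ ⊥ := by
          intro h
          rcases Ideal.mul_eq_bot.1 h with h1 | h1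
          · exact hd h1
          · exact hP0 h1
        have hdPq' : IsCoprime (d * P) q' := IsCoprime.mul_left hdq' hPq'c
        have h1 := hbd d hd hdq'
        have h2 := hbd (d * P) hdP0 hdPq'
        have hs1 : Summable ((Dset d q').indicator μ) := hμs.indicator _
        have hs2 : Summable ((Dset (d * P) q').indicator μ) := hμs.indicator _
        have e1 := Dset_ind (μ := μ) hPm hqP hqe hdP
        rw [tsum_congr e1, hs1.tsum_sub hs2]
        have hNd := absNorm_pos' hd
        have hNdP : (Ideal.absNorm (d * P) : ℝ) = Ideal.absNorm d * Ideal.absNorm P := by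
          rw [map_mul]
          push_cast
          rfl
        have e2 : κ' * (1 - 1 / (Ideal.absNorm P : ℝ)) * V / Ideal.absNorm d =
            κ' * V / Ideal.absNorm d - κ' * V / Ideal.absNorm (d * P) := by
          rw [hNdP]
          have : (Ideal.absNorm P : ℝ) ≠ 0 := by positivity
          field_simp
        rw [e2]
        have h3 : (2 : ℝ) * (tau q' * C) ≤ tau q * C := by
          rw [← mul_assoc]
          exact mul_le_mul_of_nonneg_right hτ2 hC
        exact abs_step h1 h2 h3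

section
variable {ι : Type} [Fintype ι] [DecidableEq ι]

/-- the sum over a lattice -/
lemma gs_main {B C1 : ℝ} (hC1 : ∀ A : Matrix ι ι ℝ,
    A.det ≠ 0 → CB B A → ∑' z, (if z = 0 then 0 else gs A 0 z) ≤ C1 * Mv A)
    {A : Matrix ι ι ℝ} (hA : A.det ≠ 0) (hB : CB B A) (c : ι → ℝ) :
    |∑' z, gs A c z - Mv A| ≤ C1 := by
  have hd := du_det_ne hA
  have hM := Mv_pos hA
  have h1 := gs_poisson hA c 0
  simp only [Pi.zero_apply, zero_mul, sum_const_zero, e_zero, mul_one, zero_sub] at h1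
  rw [← Complex.ofReal_tsum] at h1
  set H : (ι → ℤ) → ℂ := fun y => (gs (du A) 0 y : ℂ) * e (∑ i, c i * (-(y i : ℝ))) with hH
  have hHs : Summable H := by
    refine Summable.of_norm ?_
    refine (gs_summable hd (0 : ι → ℝ)).congr fun y => ?_
    simp only [hH]
    rw [norm_mul, e_norm, mul_one, Complex.norm_real, Real.norm_of_nonneg (gs_pos _ _ _).le]
  have e0 : ∑' y, H y = H 0 + ∑' y, (if y = 0 then 0 else H y) := hHs.tsum_eq_add_tsum_ite 0
  have hH0 : H 0 = 1 := by
    simp only [hH]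
    rw [gs_zero]
    simp [e_zero]
  have hs2 : Summable fun z : ι → ℤ => (if z = 0 then 0 else gs (du A) 0 z) := by
    refine Summable.of_nonneg_of_le (fun z => ?_) (fun z => ?_) (gs_summable hd 0)
    · split_ifs
      · exact le_rfl
      · exact (gs_pos _ _ _).le
    · split_ifs
      · exact (gs_pos _ _ _).le
      · exact le_rfl
  have h3 : ‖∑' y, (if y = 0 then 0 else H y)‖ ≤ C1 * Mv (du A) := by
    refine (tsum_of_norm_bounded hs2.hasSum fun y => ?_).trans (hC1 _ hd (hB.du hA))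
    split_ifs
    · rw [norm_zero]
    · simp only [hH]
      rw [norm_mul, e_norm, mul_one, Complex.norm_real, Real.norm_of_nonneg (gs_pos _ _ _).le]
  have h4 : ((∑' z, gs A c z - Mv A : ℝ) : ℂ) = ((Mv A : ℝ) : ℂ) * ∑' y, (if y = 0 then 0 else H y) := by
    rw [Complex.ofReal_sub, h1]
    have : ∑' y, H y = 1 + ∑' y, (if y = 0 then 0 else H y) := by rw [e0, hH0]
    have h5 : ∑' y : ι → ℤ, (gs (du A) 0 y : ℂ) * e (∑ i, c i * (-(y i : ℝ))) =
        1 + ∑' y, (if y = 0 then 0 else H y) := this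
    rw [h5]
    unfold Mv
    ring
  have h6 : |∑' z, gs A c z - Mv A| = ‖((∑' z, gs A c z - Mv A : ℝ) : ℂ)‖ := by
    rw [Complex.norm_real, Real.norm_eq_abs]
  rw [h6, h4, norm_mul, Complex.norm_real, Real.norm_of_nonneg hM.le]
  calc Mv A * ‖∑' y, (if y = 0 then 0 else H y)‖ ≤ Mv A * (C1 * Mv (du A)) :=
        mul_le_mul_of_nonneg_left h3 hM.le
    _ = C1 := by
        rw [Mv_du]
        field_simp

end

/-- sums over an ideal -/
lemma tsum_ideal {d : Ideal (𝓞 K)} (b : Basis (Fin (dg K)) ℤ d) (μ : 𝓞 K → ℝ) :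
    ∑' a, (d : Set (𝓞 K)).indicator μ a = ∑' z, μ (el b z) := by
  rw [← _root_.tsum_subtype]
  have h1 := (b.equivFun.symm.toEquiv).tsum_eq fun a : d => μ a
  refine h1.symm.trans ?_
  refine tsum_congr fun z => ?_
  rw [el_eq]
  rfl

lemma summable_top (b : Basis (Fin (dg K)) ℤ (⊤ : Ideal (𝓞 K))) {μ : 𝓞 K → ℝ}
    (h : Summable fun z => μ (el b z)) : Summable μ := by
  have hb : Function.Bijective (el b) :=
    ⟨el_inj b, fun a => ⟨crd b ⟨a, Submodule.mem_top⟩, el_crd b _⟩⟩
  exact (Equiv.ofBijective _ hb).summable_iff.1 h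

/-- the Gaussian weight of an integer -/
noncomputable def gw (s : ℝ) (g : EK K) (a : 𝓞 K) : ℝ :=
  Real.exp (-(Real.pi * (s ^ 2 * ‖vx 0 a - g‖ ^ 2)))

lemma gw_pos (s : ℝ) (g : EK K) (a : 𝓞 K) : 0 < gw s g a := Real.exp_pos _

lemma gw_summable {s : ℝ} (hs : 0 < s) (g : EK K) : Summable (gw s g) := by
  obtain ⟨b⟩ := exists_bas (⊤ : Ideal (𝓞 K)) top_ne_bot
  refine summable_top b ?_
  have h1 := gs_summable (smul_det_ne hs.ne' (det_AX_ne top_ne_bot b 0))
    ((AX b 0)⁻¹.mulVec g.ofLp)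
  refine h1.congr fun z => ?_
  rw [gs_cen top_ne_bot]
  rfl

lemma mm_zero {d : Ideal (𝓞 K)} : mm d (0 : LS K).2 = (cK K)⁻¹ / Ideal.absNorm d := by
  unfold mm
  have : (0 : LS K).2 = 0 := rfl
  rw [this]
  simp only [mul_zero, zero_div, neg_zero, Real.exp_zero]
  rw [one_div, mul_inv]
  rfl

lemma gw_main {B C1 : ℝ} (hB : CBI K B) (hC1 : ∀ A : Matrix (Fin (dg K)) (Fin (dg K)) ℝ,
    A.det ≠ 0 → CB B A → ∑' z, (if z = 0 then 0 else gs A 0 z) ≤ C1 * Mv A)
    {s : ℝ} (hs : 0 < s) (g : EK K) (d : Ideal (𝓞 K)) (hd : d ≠ ⊥) :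
    |∑' a, (d : Set (𝓞 K)).indicator (gw s g) a -
      ((cK K)⁻¹ / s ^ (dg K)) / Ideal.absNorm d| ≤ C1 := by
  obtain ⟨b⟩ := exists_bas d hd
  have hdet := smul_det_ne hs.ne' (det_AX_ne hd b 0)
  rw [tsum_ideal b]
  have h1 := gs_main hC1 hdet ((hB d hd b 0).smul hs) ((AX b 0)⁻¹.mulVec g.ofLp)
  rw [Mv_smul hs, Mv_AX, Fintype.card_fin, mm_zero] at h1
  have e1 : ∑' z, gw s g (el b z) = ∑' z, gs (s • AX b 0) ((AX b 0)⁻¹.mulVec g.ofLp) z := by
    refine tsum_congr fun z => ?_
    rw [gs_cen hd]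
    rfl
  rw [e1]
  have e2 : (cK K)⁻¹ / s ^ (dg K) / (Ideal.absNorm d : ℝ) =
      (cK K)⁻¹ / Ideal.absNorm d / s ^ (dg K) := by ring
  rw [e2]
  exact h1

end Pool.Agent.T2H29.SW
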