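import Pool.Agent.T2H29.SW.U10

/-!
# The set of multipliers
-/

set_option autoImplicit false
set_option linter.unusedSectionVars false

namespace Pool.Agent.T2H29.SW

open Finset NumberField NumberField.InfinitePlace Module MeasureTheory

variable {K : Type} [Field K] [NumberField K]

lemma lamK_vx0 (α : 𝓞 K) (w : InfinitePlace K) : lamK K w (vx 0 α) = sg α w := by
  rw [lamK_vx, map_zero]
  simp

lemma vx0_norm (α : 𝓞 K) : ‖vx 0 α‖ ^ 2 = ∑ w : InfinitePlace K, (mult w : ℝ) * ‖sg α w‖ ^ 2 := by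
  rw [lamK_norm]
  exact sum_congr rfl fun w _ => by rw [lamK_vx0]

lemma sum_mult_le {R : ℝ} {a : 𝓞 K} (h : ∀ w, ‖sg a w‖ ≤ R) : ‖vx 0 a‖ ^ 2 ≤ dg K * R ^ 2 := by
  rw [vx0_norm, ← sum_mult_real, sum_mul]
  refine sum_le_sum fun w _ => ?_
  exact mul_le_mul_of_nonneg_left (pow_le_pow_left₀ (norm_nonneg _) (h w) 2) (Nat.cast_nonneg _)

lemma gw_low {R : ℝ} (hR : 0 < R) {a : 𝓞 K} (h : ∀ w, ‖sg a w‖ ≤ R) :
    Real.exp (-(Real.pi * dg K)) ≤ gw R⁻¹ 0 a := by
  unfold gw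
  apply Real.exp_le_exp.2
  have h1 := sum_mult_le h
  rw [sub_zero, inv_pow]
  have h2 : (R ^ 2)⁻¹ * ‖vx 0 a‖ ^ 2 ≤ dg K := by
    rw [inv_mul_le_iff₀ (by positivity)]
    linarith
  have := mul_le_mul_of_nonneg_left h2 Real.pi_pos.le
  linarith

lemma fin_R {R : ℝ} (hR : 0 < R) : Set.Finite {a : 𝓞 K | ∀ w, ‖sg a w‖ ≤ R} := by
  have h1 := (gw_summable (K := K) (inv_pos.2 hR) 0).tendsto_cofinite_zero
  have h2 := h1.eventually (gt_mem_nhds (Real.exp_pos (-(Real.pi * dg K))))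
  rw [Filter.eventually_cofinite] at h2
  refine h2.subset fun a ha => ?_
  show ¬ gw R⁻¹ 0 a < Real.exp (-(Real.pi * dg K))
  rw [not_lt]
  exact gw_low hR ha

/-- the upper bound for the number of multipliers in an ideal -/
theorem upA {B C1 : ℝ} (hB : CBI K B) (hC1 : ∀ A : Matrix (Fin (dg K)) (Fin (dg K)) ℝ,
    A.det ≠ 0 → CB B A → ∑' z, (if z = 0 then 0 else gs A 0 z) ≤ C1 * Mv A)
    (d : Ideal (𝓞 K)) (hd : d ≠ ⊥) {R : ℝ} (hR : 0 < R) (S : Finset (𝓞 K))
    (hS : ∀ a ∈ S, a ∈ d ∧ a ≠ 0 ∧ ∀ w, ‖sg a w‖ ≤ R) :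
    (S.card : ℝ) ≤ (Real.exp (Real.pi * dg K) * C1 * (cK K)⁻¹) * (R ^ (dg K) / Ideal.absNorm d) := by
  classical
  obtain ⟨b⟩ := exists_bas d hd
  have hs : 0 < R⁻¹ := inv_pos.2 hR
  have hdet := smul_det_ne hs.ne' (det_AX_ne hd b 0)
  set φ : 𝓞 K → (Fin (dg K) → ℤ) := fun a => if h : a ∈ d then crd b ⟨a, h⟩ else 0 with hφ
  have hel : ∀ a ∈ S, el b (φ a) = a := by
    intro a ha
    simp only [hφ]
    rw [dif_pos (hS a ha).1, el_crd]
  set G : (Fin (dg K) → ℤ) → ℝ := fun z => if z = 0 then 0 else gs (R⁻¹ • AX b 0) 0 z with hG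
  have hG0 : ∀ z, 0 ≤ G z := by
    intro z
    simp only [hG]
    split_ifs
    · exact le_rfl
    · exact (gs_pos _ _ _).le
  have hGs : Summable G := by
    refine Summable.of_nonneg_of_le hG0 (fun z => ?_) (gs_summable hdet 0)
    simp only [hG]
    split_ifs
    · exact (gs_pos _ _ _).le
    · exact le_rfl
  have h1 : ∀ a ∈ S, (1 : ℝ) ≤ Real.exp (Real.pi * dg K) * G (φ a) := by
    intro a ha
    have h2 : φ a ≠ 0 := by
      intro h
      have h3 := hel a ha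
      rw [h, el_zero] at h3
      exact (hS a ha).2.1 h3.symm
    have h4 : G (φ a) = gw R⁻¹ 0 a := by
      simp only [hG]
      rw [if_neg h2, gs_vx, hel a ha]
      unfold gw
      rw [sub_zero]
    rw [h4]
    calc (1 : ℝ) = Real.exp (Real.pi * dg K) * Real.exp (-(Real.pi * dg K)) := by
          rw [← Real.exp_add, add_neg_cancel, Real.exp_zero]
      _ ≤ _ := mul_le_mul_of_nonneg_left (gw_low hR (hS a ha).2.2) (Real.exp_pos _).le
  have h2 : ∑ a ∈ S, G (φ a) ≤ ∑' z, G z := by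
    have e1 : ∑ a ∈ S, G (φ a) = ∑ z ∈ S.image φ, G z := by
      rw [sum_image]
      intro a ha a' ha' h
      rw [← hel a ha, ← hel a' ha', h]
    rw [e1]
    exact hGs.sum_le_tsum _ fun z _ => hG0 z
  have h3 := hC1 _ hdet ((hB d hd b 0).smul hs)
  rw [Mv_smul hs, Mv_AX, Fintype.card_fin, mm_zero] at h3
  calc (S.card : ℝ) = ∑ a ∈ S, (1 : ℝ) := by simp
    _ ≤ ∑ a ∈ S, Real.exp (Real.pi * dg K) * G (φ a) := sum_le_sum h1
    _ = Real.exp (Real.pi * dg K) * ∑ a ∈ S, G (φ a) := by rw [mul_sum]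
    _ ≤ Real.exp (Real.pi * dg K) * (C1 * ((cK K)⁻¹ / Ideal.absNorm d / R⁻¹ ^ (dg K))) :=
        mul_le_mul_of_nonneg_left (h2.trans h3) (Real.exp_pos _).le
    _ = _ := by
        rw [inv_pow, div_inv_eq_mul]
        ring

/-- the lower bound for the number of multipliers -/
theorem lowA {B C1 : ℝ} (hB1 : 1 ≤ B) (hB : CBI K B) (hC10 : 0 < C1)
    (hC1 : ∀ A : Matrix (Fin (dg K)) (Fin (dg K)) ℝ,
    A.det ≠ 0 → CB B A → ∑' z, (if z = 0 then 0 else gs A 0 z) ≤ C1 * Mv A) :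
    ∃ c C : ℝ, 0 < c ∧ 0 < C ∧ ∀ (q : Ideal (𝓞 K)) (R : ℝ), q ≠ ⊥ → 0 < R →
    C * (tau q : ℝ) ^ (dg K + 2) ≤ R ^ (dg K) → ∃ S : Finset (𝓞 K),
    (∀ a ∈ S, IsCoprime (Ideal.span {a}) q ∧ ∀ w, R / 4 ≤ ‖sg a w‖ ∧ ‖sg a w‖ ≤ R) ∧
    c * (R ^ (dg K) / (tau q : ℝ) ^ (dg K + 1)) ≤ S.card := by
  classical
  have hπ := Real.pi_pos
  set D : ℝ := √2 ^ dg K with hD
  have hD1 : 1 ≤ D := one_le_pow₀ (by rw [Real.one_le_sqrt]; norm_num)
  set κ : ℝ := 128 * B * D with hκ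
  have hBD : 1 ≤ B * D := by nlinarith
  have hκ1 : 1 ≤ κ := by
    rw [hκ]
    nlinarith
  have hcK := cK_pos K
  refine ⟨(2 * cK K * κ ^ dg K)⁻¹, 4 * (C1 + 1) * cK K * κ ^ dg K, by positivity, by positivity,
    fun q R hq hR hRq => ?_⟩
  have hτ : (1 : ℝ) ≤ tau q := by exact_mod_cast tau_pos hq
  set τ : ℝ := ((tau q : ℕ) : ℝ) with hτd
  set L : ℝ := κ * τ with hL
  have hL1 : 1 ≤ L := by
    rw [hL]
    nlinarith
  have hL0 : 0 < L := by linarith
  set s : ℝ := L / R with hs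
  have hs0 : 0 < s := by positivity
  set g : EK K := (R / 2) • vx 0 (1 : 𝓞 K) with hg
  set V : ℝ := (cK K)⁻¹ / s ^ (dg K) with hV
  have hV0 : 0 < V := by positivity
  have hVe : V = R ^ (dg K) / (cK K * κ ^ dg K * τ ^ dg K) := by
    rw [hV, hs, hL, div_pow, mul_pow]
    field_simp
  -- the set
  set Aset : Set (𝓞 K) := {a | ∀ w, ‖sg a w‖ ≤ R} with hAset
  have hfin : Aset.Finite := fin_R hR
  set S : Finset (𝓞 K) := hfin.toFinset.filter
    (fun a => IsCoprime (Ideal.span {a}) q ∧ ∀ w, R / 4 ≤ ‖sg a w‖) with hS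
  refine ⟨S, fun a ha => ?_, ?_⟩
  · rw [hS, mem_filter, Set.Finite.mem_toFinset] at ha
    exact ⟨ha.2.1, fun w => ⟨ha.2.2 w, ha.1 w⟩⟩
  -- the sieve
  have hgs := gw_summable (K := K) hs0 g
  obtain ⟨κ0, hκ0, hsv⟩ := sieve (μ := gw s g) hgs hC10.le
    (gw_main hB hC1 hs0 g) _ q hq le_rfl
  have ht1 : IsCoprime (⊤ : Ideal (𝓞 K)) q := by
    rw [Ideal.isCoprime_iff_sup_eq]
    exact top_sup_eq _
  have h1 := hsv ⊤ top_ne_bot ht1
  rw [Ideal.absNorm_top, Nat.cast_one, div_one] at h1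
  rw [← hτd] at h1 hκ0
  have h2 : V / τ - τ * C1 ≤ ∑' a, (Dset ⊤ q).indicator (gw s g) a := by
    have h3 := (abs_le.1 h1).1
    have h4 : V / τ ≤ κ0 * V := by
      rw [div_eq_mul_inv, mul_comm]
      exact mul_le_mul_of_nonneg_right hκ0 hV0.le
    linarith
  -- the tail
  set s' : ℝ := s * (√2)⁻¹ with hs'
  have hs'0 : 0 < s' := by positivity
  have hs'2 : s' ^ 2 = s ^ 2 * 2⁻¹ := by
    rw [hs', mul_pow s, inv_pow, Real.sq_sqrt (by norm_num)]
  have hpt : ∀ a, (Dset ⊤ q).indicator (gw s g) a ≤ (S : Set (𝓞 K)).indicator (fun _ => (1 : ℝ)) a +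
      Real.exp (-(Real.pi * L ^ 2 / 32)) * gw s' g a := by
    intro a
    have h0 : 0 ≤ Real.exp (-(Real.pi * L ^ 2 / 32)) * gw s' g a :=
      mul_nonneg (Real.exp_pos _).le (gw_pos _ _ _).le
    by_cases ha : a ∈ Dset ⊤ q
    · rw [Set.indicator_of_mem ha]
      by_cases haS : a ∈ S
      · rw [Set.indicator_of_mem (by exact_mod_cast haS)]
        have : gw s g a ≤ 1 := by
          unfold gw
          rw [Real.exp_le_one_iff]
          have : 0 ≤ Real.pi * (s ^ 2 * ‖vx 0 a - g‖ ^ 2) := by positivity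
          linarith
        linarith
      · rw [Set.indicator_of_notMem (by exact_mod_cast haS), zero_add]
        -- a far place
        have h3 : ∃ w, R / 4 ≤ ‖sg a w - ((R / 2 : ℝ) : ℂ)‖ := by
          by_contra hcon
          push Not at hcon
          apply haS
          rw [hS, mem_filter, Set.Finite.mem_toFinset]
          have hnR : ‖((R / 2 : ℝ) : ℂ)‖ = R / 2 := by
            rw [Complex.norm_real, Real.norm_of_nonneg (by positivity)]
          refine ⟨fun w => ?_, ha.2, fun w => ?_⟩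
          · have h4 := hcon w
            have h5 : ‖sg a w‖ ≤ ‖sg a w - ((R / 2 : ℝ) : ℂ)‖ + ‖((R / 2 : ℝ) : ℂ)‖ := by
              calc ‖sg a w‖ = ‖(sg a w - ((R / 2 : ℝ) : ℂ)) + ((R / 2 : ℝ) : ℂ)‖ := by
                    rw [sub_add_cancel]
                _ ≤ _ := norm_add_le _ _
            linarith
          · have h4 := hcon w
            have h5 : ‖((R / 2 : ℝ) : ℂ)‖ ≤ ‖sg a w - ((R / 2 : ℝ) : ℂ)‖ + ‖sg a w‖ := by
              calc ‖((R / 2 : ℝ) : ℂ)‖ = ‖sg a w - (sg a w - ((R / 2 : ℝ) : ℂ))‖ := by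
                    rw [sub_sub_cancel]
                _ ≤ ‖sg a w‖ + ‖sg a w - ((R / 2 : ℝ) : ℂ)‖ := norm_sub_le _ _
                _ = _ := add_comm _ _
            linarith
        obtain ⟨w, hw⟩ := h3
        have h4 : (R / 4) ^ 2 ≤ ‖vx 0 a - g‖ ^ 2 := by
          rw [lamK_norm]
          have h5 := single_le_sum (f := fun w : InfinitePlace K =>
            (mult w : ℝ) * ‖lamK K w (vx 0 a - g)‖ ^ 2) (fun w _ => by positivity) (mem_univ w)
          beta_reduce at h5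
          refine le_trans ?_ h5
          have h6 : lamK K w (vx 0 a - g) = sg a w - ((R / 2 : ℝ) : ℂ) := by
            rw [map_sub, hg, map_smul, lamK_vx0, lamK_vx0, Complex.real_smul]
            unfold sg
            simp
          rw [h6]
          have h7 : (1 : ℝ) ≤ mult w := by exact_mod_cast mult_pos (w := w)
          have h8 : (R / 4) ^ 2 ≤ ‖sg a w - ((R / 2 : ℝ) : ℂ)‖ ^ 2 :=
            pow_le_pow_left₀ (by positivity) hw 2
          have h9 : 0 ≤ ‖sg a w - ((R / 2 : ℝ) : ℂ)‖ ^ 2 := by positivity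
          nlinarith
        unfold gw
        rw [← Real.exp_add]
        apply Real.exp_le_exp.2
        rw [hs'2]
        set X := ‖vx 0 a - g‖ ^ 2 with hX
        have h5 : L ^ 2 / 16 ≤ s ^ 2 * X := by
          rw [hs, div_pow]
          calc L ^ 2 / 16 = L ^ 2 / R ^ 2 * (R / 4) ^ 2 := by field_simp; norm_num
            _ ≤ _ := mul_le_mul_of_nonneg_left h4 (by positivity)
        have h6 := mul_le_mul_of_nonneg_left h5 hπ.le
        nlinarith
    · rw [Set.indicator_of_notMem ha]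
      have : 0 ≤ (S : Set (𝓞 K)).indicator (fun _ => (1 : ℝ)) a :=
        Set.indicator_nonneg (fun _ _ => zero_le_one) a
      linarith
  have hss : Summable (gw s' g) := gw_summable hs'0 g
  have hS1 : Summable ((S : Set (𝓞 K)).indicator (fun _ => (1 : ℝ))) := by
    refine summable_of_ne_finset_zero (s := S) fun a ha => ?_
    exact Set.indicator_of_notMem (by exact_mod_cast ha) _
  have hS2 : ∑' a, (S : Set (𝓞 K)).indicator (fun _ => (1 : ℝ)) a = S.card := by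
    rw [tsum_eq_sum (s := S) fun a ha => Set.indicator_of_notMem (by exact_mod_cast ha) _]
    rw [sum_congr rfl fun a ha => Set.indicator_of_mem (by exact_mod_cast ha) _]
    simp
  have h3 : ∑' a, (Dset ⊤ q).indicator (gw s g) a ≤ S.card +
      Real.exp (-(Real.pi * L ^ 2 / 32)) * ∑' a, gw s' g a := by
    refine ((hgs.indicator _).tsum_le_tsum hpt (hS1.add (hss.mul_left _))).trans (le_of_eq ?_)
    rw [hS1.tsum_add (hss.mul_left _), hS2, tsum_mul_left]
  have h4 : ∑' a, gw s' g a ≤ B * (1 + D * V) := by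
    obtain ⟨b⟩ := exists_bas (⊤ : Ideal (𝓞 K)) top_ne_bot
    have hdet := smul_det_ne hs'0.ne' (det_AX_ne top_ne_bot b 0)
    have e1 := tsum_ideal b (gw s' g)
    rw [Submodule.top_coe, Set.indicator_univ] at e1
    rw [e1]
    have e2 : ∑' z, gw s' g (el b z) =
        ∑' z, gs (s' • AX b 0) ((AX b 0)⁻¹.mulVec g.ofLp) z := by
      refine tsum_congr fun z => ?_
      rw [gs_cen top_ne_bot]
      rfl
    rw [e2]
    refine (((hB ⊤ top_ne_bot b 0).smul hs'0).one _).trans (le_of_eq ?_)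
    rw [Mv_smul hs'0, Mv_AX, Fintype.card_fin, mm_zero, Ideal.absNorm_top, hs', mul_pow, inv_pow, hV,
      hD]
    push_cast
    field_simp
  -- the exponential
  have h5 : Real.exp (-(Real.pi * L ^ 2 / 32)) * (B * D) ≤ 1 / (4 * τ) := by
    have hy : 0 < Real.pi * L ^ 2 / 32 := by positivity
    have h6 : Real.exp (-(Real.pi * L ^ 2 / 32)) ≤ 1 / (Real.pi * L ^ 2 / 32) := by
      rw [Real.exp_neg, inv_eq_one_div]
      refine one_div_le_one_div_of_le hy ?_
      have := Real.add_one_le_exp (Real.pi * L ^ 2 / 32)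
      linarith
    have h7 : B * D * 128 * τ ≤ Real.pi * L ^ 2 := by
      have h8 : κ * τ ≤ L ^ 2 := by
        rw [← hL]
        nlinarith
      have h9 : B * D * 128 * τ = κ * τ := by rw [hκ]; ring
      rw [h9]
      have : (1 : ℝ) ≤ Real.pi := by linarith [Real.pi_gt_three]
      nlinarith [sq_nonneg L]
    calc Real.exp (-(Real.pi * L ^ 2 / 32)) * (B * D) ≤ 1 / (Real.pi * L ^ 2 / 32) * (B * D) :=
          mul_le_mul_of_nonneg_right h6 (by positivity)
      _ = (32 * (B * D)) / (Real.pi * L ^ 2) := by field_simp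
      _ ≤ 1 / (4 * τ) := by
          rw [div_le_div_iff₀ (by positivity) (by positivity)]
          linarith
  have h6 : Real.exp (-(Real.pi * L ^ 2 / 32)) * (B * (1 + D * V)) ≤ 1 / (4 * τ) * (1 + V) := by
    have h7 : B * (1 + D * V) ≤ (B * D) * (1 + V) := by nlinarith
    calc Real.exp (-(Real.pi * L ^ 2 / 32)) * (B * (1 + D * V)) ≤
          Real.exp (-(Real.pi * L ^ 2 / 32)) * ((B * D) * (1 + V)) :=
          mul_le_mul_of_nonneg_left h7 (Real.exp_pos _).le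
      _ = (Real.exp (-(Real.pi * L ^ 2 / 32)) * (B * D)) * (1 + V) := by ring
      _ ≤ _ := mul_le_mul_of_nonneg_right h5 (by positivity)
  have h7 : V / τ - τ * C1 - 1 / (4 * τ) * (1 + V) ≤ S.card := by
    have h8 := mul_le_mul_of_nonneg_left h4 (Real.exp_pos (-(Real.pi * L ^ 2 / 32))).le
    linarith
  have hVbig : 4 * (C1 + 1) * τ ^ 2 ≤ V := by
    rw [hVe, le_div_iff₀ (by positivity)]
    calc 4 * (C1 + 1) * τ ^ 2 * (cK K * κ ^ dg K * τ ^ dg K) =
          4 * (C1 + 1) * cK K * κ ^ dg K * τ ^ (dg K + 2) := by ring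
      _ ≤ _ := hRq
  have h8 : V / (2 * τ) ≤ S.card := by
    refine le_trans ?_ h7
    have e1 : V / τ - τ * C1 - 1 / (4 * τ) * (1 + V) - V / (2 * τ) =
        (V - 4 * C1 * τ ^ 2 - 1) / (4 * τ) := by
      field_simp
      ring
    have h9 : 0 ≤ (V - 4 * C1 * τ ^ 2 - 1) / (4 * τ) := by
      refine div_nonneg ?_ (by positivity)
      nlinarith
    linarith
  refine le_trans (le_of_eq ?_) h8
  rw [hVe]
  field_simp
  ring

end Pool.Agent.T2H29.SW
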