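import Pool.Agent.T2H29.SW.U11

/-!
# The total energy, and Hölder's inequality
-/

set_option autoImplicit false
set_option linter.unusedSectionVars false

namespace Pool.Agent.T2H29.SW

open Finset NumberField NumberField.InfinitePlace Module MeasureTheory

/-- Hölder's inequality -/
theorem holder4 {X Y : Type} [Fintype Y] [DecidableEq Y] (S : Finset X) (w : X → ℝ)
    (hw : ∀ x, 0 ≤ w x) (ρ : X → Y) (T : Y → ℝ) :
    (∑ x ∈ S, w x * T (ρ x)) ^ 4 ≤ (∑ x ∈ S, w x) ^ 2 *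
      (∑ x ∈ S, ∑ x' ∈ S, if ρ x = ρ x' then w x * w x' else 0) * ∑ y, T y ^ 4 := by
  set ν : Y → ℝ := fun y => ∑ x ∈ S, if ρ x = y then w x else 0 with hν
  have hw0 : 0 ≤ ∑ x ∈ S, w x := sum_nonneg fun x _ => hw x
  have h1 : (∑ x ∈ S, w x * T (ρ x)) ^ 2 ≤ (∑ x ∈ S, w x) * ∑ x ∈ S, w x * T (ρ x) ^ 2 := by
    have h := sum_mul_sq_le_sq_mul_sq S (fun x => √(w x)) (fun x => √(w x) * T (ρ x))
    have e1 : ∑ x ∈ S, √(w x) * (√(w x) * T (ρ x)) = ∑ x ∈ S, w x * T (ρ x) := by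
      refine sum_congr rfl fun x _ => ?_
      rw [← mul_assoc, Real.mul_self_sqrt (hw x)]
    have e2 : ∑ x ∈ S, √(w x) ^ 2 = ∑ x ∈ S, w x :=
      sum_congr rfl fun x _ => Real.sq_sqrt (hw x)
    have e3 : ∑ x ∈ S, (√(w x) * T (ρ x)) ^ 2 = ∑ x ∈ S, w x * T (ρ x) ^ 2 := by
      refine sum_congr rfl fun x _ => ?_
      rw [mul_pow, Real.sq_sqrt (hw x)]
    rw [e1, e2, e3] at h
    exact h
  have h2 : ∑ x ∈ S, w x * T (ρ x) ^ 2 = ∑ y, ν y * T y ^ 2 := by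
    simp only [hν]
    simp_rw [sum_mul]
    rw [sum_comm]
    refine sum_congr rfl fun x _ => ?_
    rw [sum_eq_single (ρ x) (fun y _ hy => ?_) (fun h => absurd (mem_univ _) h)]
    · rw [if_pos rfl]
    · rw [if_neg (fun h => hy h.symm), zero_mul]
  have h3 : (∑ y, ν y * T y ^ 2) ^ 2 ≤ (∑ y, ν y ^ 2) * ∑ y, T y ^ 4 := by
    have h := sum_mul_sq_le_sq_mul_sq univ ν (fun y => T y ^ 2)
    have e1 : ∑ y, (T y ^ 2) ^ 2 = ∑ y, T y ^ 4 := sum_congr rfl fun y _ => by ring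
    rw [e1] at h
    exact h
  have h4 : ∑ y, ν y ^ 2 = ∑ x ∈ S, ∑ x' ∈ S, if ρ x = ρ x' then w x * w x' else 0 := by
    simp only [hν]
    have e1 : ∀ y : Y, (∑ x ∈ S, if ρ x = y then w x else 0) ^ 2 =
        ∑ x ∈ S, ∑ x' ∈ S, (if ρ x = y then w x else 0) * (if ρ x' = y then w x' else 0) := by
      intro y
      rw [sq, sum_mul_sum]
    simp_rw [e1]
    rw [sum_comm]
    refine sum_congr rfl fun x _ => ?_
    rw [sum_comm]
    refine sum_congr rfl fun x' _ => ?_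
    rw [sum_eq_single (ρ x) (fun y _ hy => ?_) (fun h => absurd (mem_univ _) h)]
    · rw [if_pos rfl]
      by_cases h : ρ x = ρ x'
      · rw [if_pos h.symm, if_pos h]
      · rw [if_neg (fun h' => h h'.symm), if_neg h, mul_zero]
    · rw [if_neg (fun h => hy h.symm), zero_mul]
  have h5 : 0 ≤ ∑ x ∈ S, w x * T (ρ x) ^ 2 :=
    sum_nonneg fun x _ => mul_nonneg (hw x) (by positivity)
  calc (∑ x ∈ S, w x * T (ρ x)) ^ 4 = ((∑ x ∈ S, w x * T (ρ x)) ^ 2) ^ 2 := by ring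
    _ ≤ ((∑ x ∈ S, w x) * ∑ x ∈ S, w x * T (ρ x) ^ 2) ^ 2 :=
        pow_le_pow_left₀ (by positivity) h1 2
    _ = (∑ x ∈ S, w x) ^ 2 * (∑ x ∈ S, w x * T (ρ x) ^ 2) ^ 2 := by ring
    _ ≤ (∑ x ∈ S, w x) ^ 2 * ((∑ y, ν y ^ 2) * ∑ y, T y ^ 4) := by
        refine mul_le_mul_of_nonneg_left ?_ (by positivity)
        rw [h2]
        exact h3
    _ = _ := by rw [h4]; ring

variable {K : Type} [Field K] [NumberField K]

lemma norm_sg (a : 𝓞 K) : (Ideal.absNorm (Ideal.span {a}) : ℝ) =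
    ∏ w : InfinitePlace K, ‖sg a w‖ ^ mult w := by
  rw [norm_prod']
  refine prod_congr rfl fun w _ => ?_
  unfold sg
  rw [norm_embedding_eq]

lemma norm_low {a : 𝓞 K} {r : ℝ} (hr : 0 ≤ r) (h : ∀ w, r ≤ ‖sg a w‖) :
    r ^ (dg K) ≤ Ideal.absNorm (Ideal.span {a}) := by
  rw [norm_sg]
  have e1 : r ^ (dg K) = ∏ w : InfinitePlace K, r ^ mult w := by
    rw [prod_pow_eq_pow_sum, sum_mult_eq]
  rw [e1]
  exact prod_le_prod (fun w _ => by positivity) fun w _ => pow_le_pow_left₀ hr (h w) _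

lemma norm_up {a : 𝓞 K} {r : ℝ} (h : ∀ w, ‖sg a w‖ ≤ r) :
    (Ideal.absNorm (Ideal.span {a}) : ℝ) ≤ r ^ (dg K) := by
  rw [norm_sg]
  have e1 : r ^ (dg K) = ∏ w : InfinitePlace K, r ^ mult w := by
    rw [prod_pow_eq_pow_sum, sum_mult_eq]
  rw [e1]
  exact prod_le_prod (fun w _ => by positivity) fun w _ => pow_le_pow_left₀ (norm_nonneg _) (h w) _

lemma ne_of_low {a : 𝓞 K} {r : ℝ} (hr : 0 < r) (h : ∀ w, r ≤ ‖sg a w‖) : a ≠ 0 := by
  rintro rfl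
  have h1 := norm_low hr.le h
  have h2 : 0 < r ^ (dg K) := by positivity
  have h3 : Ideal.span {(0 : 𝓞 K)} = ⊥ := Ideal.span_singleton_eq_bot.2 rfl
  rw [h3, Ideal.absNorm_bot] at h1
  norm_num at h1
  linarith

/-- the sum of the greatest common divisors -/
lemma gcd_sum {Cu : ℝ} (hCu : ∀ (d : Ideal (𝓞 K)), d ≠ ⊥ → ∀ {R : ℝ}, 0 < R →
    ∀ (S : Finset (𝓞 K)), (∀ a ∈ S, a ∈ d ∧ a ≠ 0 ∧ ∀ w, ‖sg a w‖ ≤ R) →
    (S.card : ℝ) ≤ Cu * (R ^ (dg K) / Ideal.absNorm d)) {R : ℝ} (hR : 0 < R) (S : Finset (𝓞 K))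
    (hS : ∀ a ∈ S, ∀ w, R / 4 ≤ ‖sg a w‖ ∧ ‖sg a w‖ ≤ R) {a : 𝓞 K} (ha : a ∈ S) :
    ∑ a' ∈ S, (Ideal.absNorm (Ideal.span {a} ⊔ Ideal.span {a'}) : ℝ) ≤
      tau (Ideal.span {a}) * (Cu * R ^ (dg K)) := by
  classical
  have hne : ∀ a ∈ S, a ≠ 0 := fun a ha => ne_of_low (by positivity) fun w => (hS a ha w).1
  have hsa : Ideal.span {a} ≠ ⊥ := by
    rw [Ne, Ideal.span_singleton_eq_bot]
    exact hne a ha
  have h1 : ∀ a' ∈ S, (Ideal.absNorm (Ideal.span {a} ⊔ Ideal.span {a'}) : ℝ) ≤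
      Gd (Ideal.span {a}) a' := by
    intro a' _
    refine le_Gd hsa ?_ ?_
    · rw [Ideal.dvd_iff_le]
      exact le_sup_left
    · exact Ideal.mem_sup_right (Ideal.mem_span_singleton_self a')
  refine (sum_le_sum h1).trans ?_
  unfold Gd
  rw [sum_comm]
  unfold tau
  rw [← nsmul_eq_mul, ← sum_const]
  refine sum_le_sum fun d hd => ?_
  have hd0 : d ≠ ⊥ := by
    obtain ⟨d', hd'⟩ := (mem_dvs hsa).1 hd
    exact (ne_bot_mul (hd' ▸ hsa)).1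
  have hNd := absNorm_pos' hd0
  have e1 : ∑ a' ∈ S, (if a' ∈ d then (Ideal.absNorm d : ℝ) else 0) =
      Ideal.absNorm d * ((S.filter (· ∈ d)).card : ℝ) := by
    rw [← sum_filter, sum_const, nsmul_eq_mul, mul_comm]
  rw [e1]
  have h2 := hCu d hd0 hR (S.filter (· ∈ d)) fun a' ha' =>
    ⟨(mem_filter.1 ha').2, hne a' (mem_filter.1 ha').1, fun w => (hS a' (mem_filter.1 ha').1 w).2⟩
  calc (Ideal.absNorm d : ℝ) * ((S.filter (· ∈ d)).card : ℝ) ≤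
        Ideal.absNorm d * (Cu * (R ^ (dg K) / Ideal.absNorm d)) :=
        mul_le_mul_of_nonneg_left h2 hNd.le
    _ = _ := by field_simp

/-- the total energy -/
theorem en_tot {B Cu : ℝ} (hB1 : 1 ≤ B) (hB : CBI K B) (hCu0 : 0 < Cu)
    (hCu : ∀ (d : Ideal (𝓞 K)), d ≠ ⊥ → ∀ {R : ℝ}, 0 < R →
    ∀ (S : Finset (𝓞 K)), (∀ a ∈ S, a ∈ d ∧ a ≠ 0 ∧ ∀ w, ‖sg a w‖ ≤ R) →
    (S.card : ℝ) ≤ Cu * (R ^ (dg K) / Ideal.absNorm d)) {m I : Ideal (𝓞 K)} (hm : m ≠ ⊥)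
    (hI : I ≠ ⊥) (hc : IsCoprime I m) (b : Basis (Fin (dg K)) ℤ I) (x : LS K) {R : ℝ} (hR : 0 < R)
    (S : Finset (𝓞 K)) (hS : ∀ a ∈ S, ∀ w, R / 4 ≤ ‖sg a w‖ ∧ ‖sg a w‖ ≤ R) {T : ℝ} (hT0 : 0 ≤ T)
    (hT : ∀ a ∈ S, (tau (Ideal.span {a}) : ℝ) ≤ T)
    (P : 𝓞 K → 𝓞 K → Finset ((Fin (dg K) → ℤ) × (Fin (dg K) → ℤ)))
    (hP : ∀ a a' : 𝓞 K, ∀ p ∈ P a a', a' * el b p.1 - a * el b p.2 ∈ m) :
    ∑ a ∈ S, ∑ a' ∈ S, ∑ p ∈ P a a', gs ((√2)⁻¹ • AX b x) 0 p.1 * gs ((√2)⁻¹ • AX b x) 0 p.2 ≤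
      (B ^ 2 * √8 ^ (dg K) * 8 ^ (dg K) * (1 + Cu)) *
      ((1 + R ^ (dg K) * (mm I x.2 / Ideal.absNorm m)) *
        ((S.card : ℝ) ^ 2 + mm I x.2 * S.card * T)) := by
  classical
  have hMM := mm_pos hI x.2
  have hNm := absNorm_pos' hm
  set M := mm I x.2 with hM
  set D : ℝ := √8 ^ (dg K) with hD
  have hD1 : 1 ≤ D := one_le_pow₀ (by rw [Real.one_le_sqrt]; norm_num)
  set E1 : ℝ := 1 + R ^ (dg K) * (M / Ideal.absNorm m) with hE1
  have hE11 : 1 ≤ E1 := by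
    rw [hE1]
    have : 0 ≤ R ^ (dg K) * (M / Ideal.absNorm m) := by positivity
    linarith
  have hne : ∀ a ∈ S, a ≠ 0 := fun a ha => ne_of_low (by positivity) fun w => (hS a ha w).1
  have hpair : ∀ a ∈ S, ∀ a' ∈ S, ∑ p ∈ P a a', gs ((√2)⁻¹ • AX b x) 0 p.1 *
      gs ((√2)⁻¹ • AX b x) 0 p.2 ≤ (B * (D * E1)) * (B * (1 + 2 ^ (dg K) * (M *
      Ideal.absNorm (Ideal.span {a} ⊔ Ideal.span {a'}) / (R / 4) ^ (dg K)))) := by
    intro a ha a' ha'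
    refine (en_pair hB1 hB hm hI hc b x (hne a ha) hR (fun w => (hS a ha w).2)
      (fun w => (hS a' ha' w).2) (P a a') (hP a a')).trans ?_
    rw [← hM]
    have h1 : (R / 4) ^ (dg K) ≤ Ideal.absNorm (Ideal.span {a}) :=
      norm_low (by positivity) fun w => (hS a ha w).1
    have hR4 : 0 < (R / 4) ^ (dg K) := by positivity
    refine mul_le_mul ?_ ?_ (by positivity) (by positivity)
    · refine mul_le_mul_of_nonneg_left ?_ (by positivity)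
      rw [hE1, mul_pow, ← hD, mul_add, mul_one]
      have e1 : D * R ^ (dg K) * (M / Ideal.absNorm m) =
        D * (R ^ (dg K) * (M / Ideal.absNorm m)) := by ring
      rw [e1]
      linarith
    · refine mul_le_mul_of_nonneg_left ?_ (by positivity)
      refine add_le_add le_rfl (mul_le_mul_of_nonneg_left ?_ (by positivity))
      exact div_le_div_of_nonneg_left (by positivity) hR4 h1
  have hgcd : ∀ a ∈ S, ∑ a' ∈ S, (Ideal.absNorm (Ideal.span {a} ⊔ Ideal.span {a'}) : ℝ) ≤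
      T * (Cu * R ^ (dg K)) := by
    intro a ha
    refine (gcd_sum hCu hR S hS ha).trans ?_
    exact mul_le_mul_of_nonneg_right (hT a ha) (by positivity)
  calc ∑ a ∈ S, ∑ a' ∈ S, ∑ p ∈ P a a', gs ((√2)⁻¹ • AX b x) 0 p.1 *
        gs ((√2)⁻¹ • AX b x) 0 p.2 ≤ ∑ a ∈ S, ∑ a' ∈ S, (B * (D * E1)) * (B * (1 + 2 ^ (dg K) * (M *
      Ideal.absNorm (Ideal.span {a} ⊔ Ideal.span {a'}) / (R / 4) ^ (dg K)))) :=
        sum_le_sum fun a ha => sum_le_sum fun a' ha' => hpair a ha a' ha'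
    _ = ∑ a ∈ S, (B ^ 2 * D * E1) * (S.card + (8 ^ (dg K) * M / R ^ (dg K)) *
        ∑ a' ∈ S, (Ideal.absNorm (Ideal.span {a} ⊔ Ideal.span {a'}) : ℝ)) := by
        refine sum_congr rfl fun a _ => ?_
        have e1 : (S.card : ℝ) = ∑ a' ∈ S, (1 : ℝ) := by simp
        rw [e1, mul_sum, ← sum_add_distrib, mul_sum]
        refine sum_congr rfl fun a' _ => ?_
        have e2 : (8 : ℝ) ^ (dg K) = 2 ^ (dg K) * 4 ^ (dg K) := by
          rw [← mul_pow]; norm_num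
        rw [e2, div_pow]
        field_simp
    _ ≤ ∑ a ∈ S, (B ^ 2 * D * E1) * (S.card + (8 ^ (dg K) * M / R ^ (dg K)) *
        (T * (Cu * R ^ (dg K)))) := by
        refine sum_le_sum fun a ha => ?_
        refine mul_le_mul_of_nonneg_left ?_ (by positivity)
        exact add_le_add le_rfl (mul_le_mul_of_nonneg_left (hgcd a ha) (by positivity))
    _ = (B ^ 2 * D * E1) * ((S.card : ℝ) ^ 2 + 8 ^ (dg K) * Cu * (M * S.card * T)) := by
        rw [sum_const, nsmul_eq_mul]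
        field_simp
    _ ≤ _ := by
        have h8 : (1 : ℝ) ≤ 8 ^ (dg K) := one_le_pow₀ (by norm_num)
        have e1 : (B ^ 2 * D * 8 ^ (dg K) * (1 + Cu)) * (E1 * ((S.card : ℝ) ^ 2 + M * S.card * T)) =
          (B ^ 2 * D * E1) * (8 ^ (dg K) * (1 + Cu) * ((S.card : ℝ) ^ 2 + M * S.card * T)) := by ring
        rw [e1]
        refine mul_le_mul_of_nonneg_left ?_ (by positivity)
        set X : ℝ := (S.card : ℝ) ^ 2 with hX
        set Y : ℝ := M * S.card * T with hY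
        have hX0 : 0 ≤ X := by positivity
        have hY0 : 0 ≤ Y := by positivity
        have h9 : X ≤ 8 ^ (dg K) * (1 + Cu) * X :=
          le_mul_of_one_le_left hX0 (one_le_mul_of_one_le_of_one_le h8 (by linarith))
        have h10 : 8 ^ (dg K) * Cu * Y ≤ 8 ^ (dg K) * (1 + Cu) * Y := by
          refine mul_le_mul_of_nonneg_right ?_ hY0
          exact mul_le_mul_of_nonneg_left (by linarith) (by positivity)
        calc X + 8 ^ (dg K) * Cu * Y ≤ 8 ^ (dg K) * (1 + Cu) * X + 8 ^ (dg K) * (1 + Cu) * Y :=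
              add_le_add h9 h10
          _ = _ := by ring

end Pool.Agent.T2H29.SW
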