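import Pool.Agent.T2H29.SW.U12

/-!
# The inequality of Burgess
-/

set_option autoImplicit false
set_option linter.unusedSectionVars false

namespace Pool.Agent.T2H29.SW

open Finset NumberField NumberField.InfinitePlace Module MeasureTheory
open scoped RealInnerProductSpace

variable {K : Type} [Field K] [NumberField K]

lemma le_qqrt {x y : ℝ} (h : x ^ 4 ≤ y) : x ≤ √(√y) := by
  apply Real.le_sqrt_of_sq_le
  apply Real.le_sqrt_of_sq_le
  calc (x ^ 2) ^ 2 = x ^ 4 := by ring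
    _ ≤ y := h

section
variable {ι : Type} [Fintype ι] [DecidableEq ι]

lemma Mv_le_tsum {A : Matrix ι ι ℝ} (hA : A.det ≠ 0) : Mv A ≤ ∑' z, gs A 0 z := by
  have hd := du_det_ne hA
  have h1 := gs_poisson hA 0 0
  simp only [Pi.zero_apply, zero_mul, sum_const_zero, e_zero, mul_one] at h1
  rw [← Complex.ofReal_tsum, ← Complex.ofReal_tsum] at h1
  have h2 : ∑' z, gs A 0 z = |A.det|⁻¹ * ∑' y, gs (du A) 0 y := by exact_mod_cast h1
  rw [h2]
  have h3 : (1 : ℝ) ≤ ∑' y, gs (du A) 0 y := by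
    have h4 := (gs_summable hd (0 : ι → ℝ)).le_tsum 0 (fun z _ => (gs_pos _ _ _).le)
    rwa [gs_zero] at h4
  unfold Mv
  exact le_mul_of_one_le_right (inv_nonneg.2 (abs_nonneg _)) h3

end

/-- the fourth moment, with one constant -/
lemma four_cst {B C1 : ℝ} (hB1 : 1 ≤ B) (hC10 : 0 < C1) : ∃ C : ℝ, 0 < C ∧
    ∀ (n : ℕ) (M' Q Nf τ S : ℝ), n = dg K → 0 < M' → 0 ≤ Q → 0 ≤ Nf → 0 ≤ τ → 0 ≤ S →
    3 * Q * (B * (1 + M' / √2 ^ n)) ^ 2 + 4 * (Nf * (τ ^ 2 * S)) *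
      ((B * (1 + 2 ^ n * (M' / √2 ^ n))) * (τ * (C1 * (√8 ^ n * (M' / √2 ^ n)))) ^ 3) ≤
    C * (Q * (1 + M') ^ 2 + (Nf * (τ ^ 2 * S)) * ((1 + M') * (τ * M') ^ 3)) := by
  refine ⟨3 * B ^ 2 + 4 * (B * 2 ^ (dg K) * (C1 * √8 ^ (dg K)) ^ 3), by positivity,
    fun n M' Q Nf τ S hn hM hQ hNf hτ hS => ?_⟩
  subst hn
  have h2 : (1 : ℝ) ≤ √2 ^ (dg K) := one_le_pow₀ (by rw [Real.one_le_sqrt]; norm_num)
  set M2 := M' / √2 ^ (dg K) with hM2
  have hM20 : 0 < M2 := by positivity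
  have hM2le : M2 ≤ M' := div_le_self hM.le h2
  set D := √8 ^ (dg K) with hD
  have hD0 : 0 < D := by positivity
  have hB0 : 0 < B := by linarith
  have t1 : 3 * Q * (B * (1 + M2)) ^ 2 ≤ 3 * B ^ 2 * (Q * (1 + M') ^ 2) := by
    have h3 : (1 + M2) ^ 2 ≤ (1 + M') ^ 2 := pow_le_pow_left₀ (by positivity) (by linarith) 2
    calc 3 * Q * (B * (1 + M2)) ^ 2 = 3 * B ^ 2 * (Q * (1 + M2) ^ 2) := by ring
      _ ≤ _ := mul_le_mul_of_nonneg_left (mul_le_mul_of_nonneg_left h3 hQ) (by positivity)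
  have h4 : (1 : ℝ) ≤ 2 ^ (dg K) := one_le_pow₀ (by norm_num)
  have t2 : (B * (1 + 2 ^ (dg K) * M2)) * (τ * (C1 * (D * M2))) ^ 3 ≤
      (B * 2 ^ (dg K) * (C1 * D) ^ 3) * ((1 + M') * (τ * M') ^ 3) := by
    have h5 : B * (1 + 2 ^ (dg K) * M2) ≤ B * 2 ^ (dg K) * (1 + M') := by
      have : 1 + 2 ^ (dg K) * M2 ≤ 2 ^ (dg K) * (1 + M') := by nlinarith
      calc B * (1 + 2 ^ (dg K) * M2) ≤ B * (2 ^ (dg K) * (1 + M')) :=
            mul_le_mul_of_nonneg_left this hB0.le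
        _ = _ := by ring
    have h6 : (τ * (C1 * (D * M2))) ^ 3 ≤ (C1 * D) ^ 3 * (τ * M') ^ 3 := by
      rw [← mul_pow]
      refine pow_le_pow_left₀ (by positivity) ?_ 3
      calc τ * (C1 * (D * M2)) = C1 * D * (τ * M2) := by ring
        _ ≤ _ := mul_le_mul_of_nonneg_left (mul_le_mul_of_nonneg_left hM2le hτ) (by positivity)
    calc _ ≤ (B * 2 ^ (dg K) * (1 + M')) * ((C1 * D) ^ 3 * (τ * M') ^ 3) :=
          mul_le_mul h5 h6 (by positivity) (by positivity)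
      _ = _ := by ring
  have hA0 : 0 ≤ 4 * (Nf * (τ ^ 2 * S)) := by positivity
  have t3 := mul_le_mul_of_nonneg_left t2 hA0
  have p1 : 0 ≤ Q * (1 + M') ^ 2 := by positivity
  have p2 : 0 ≤ (Nf * (τ ^ 2 * S)) * ((1 + M') * (τ * M') ^ 3) := by positivity
  have p3 : 0 ≤ B * 2 ^ (dg K) * (C1 * D) ^ 3 := by positivity
  calc _ ≤ 3 * B ^ 2 * (Q * (1 + M') ^ 2) + 4 * (Nf * (τ ^ 2 * S)) *
        ((B * 2 ^ (dg K) * (C1 * D) ^ 3) * ((1 + M') * (τ * M') ^ 3)) := add_le_add t1 t3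
    _ = 3 * B ^ 2 * (Q * (1 + M') ^ 2) + 4 * (B * 2 ^ (dg K) * (C1 * D) ^ 3) *
        ((Nf * (τ ^ 2 * S)) * ((1 + M') * (τ * M') ^ 3)) := by ring
    _ ≤ _ := by
        set u := Q * (1 + M') ^ 2
        set v := (Nf * (τ ^ 2 * S)) * ((1 + M') * (τ * M') ^ 3)
        set c := B * 2 ^ (dg K) * (C1 * D) ^ 3
        have q1 : 0 ≤ 4 * c * u := by positivity
        have q2 : 0 ≤ 3 * B ^ 2 * v := by positivity
        nlinarith

/-- the inequality of Burgess -/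
theorem bur1 {B C1 Cu : ℝ} (hB1 : 1 ≤ B) (hB : CBI K B) (hC10 : 0 < C1)
    (hC1 : ∀ A : Matrix (Fin (dg K)) (Fin (dg K)) ℝ,
    A.det ≠ 0 → CB B A → ∑' z, (if z = 0 then 0 else gs A 0 z) ≤ C1 * Mv A) (hCu0 : 0 < Cu)
    (hCu : ∀ (d : Ideal (𝓞 K)), d ≠ ⊥ → ∀ {R : ℝ}, 0 < R →
    ∀ (S : Finset (𝓞 K)), (∀ a ∈ S, a ∈ d ∧ a ≠ 0 ∧ ∀ w, ‖sg a w‖ ≤ R) →
    (S.card : ℝ) ≤ Cu * (R ^ (dg K) / Ideal.absNorm d)) :
    ∃ C : ℝ, 0 < C ∧ ∀ (f m I : Ideal (𝓞 K)) (F : 𝓞 K → ℂ) (b : Basis (Fin (dg K)) ℤ I) (x : LS K)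
    (ξ : EK K) (R : ℝ) (S : Finset (𝓞 K)) (T : ℝ), f ≠ ⊥ → m ≠ ⊥ → IsCoprime f m →
    (∀ P : Ideal (𝓞 K), Prime P → ¬ P ^ 3 ∣ m) → I ≠ ⊥ → IsCoprime I (f * m) → PM (f * m) F →
    0 < R → (∀ a ∈ S, IsCoprime (Ideal.span {a}) (f * m) ∧
      ∀ w, R / 4 ≤ ‖sg a w‖ ∧ ‖sg a w‖ ≤ R) → 0 ≤ T →
    (∀ a ∈ S, (tau (Ideal.span {a}) : ℝ) ≤ T) →
    S.card * (‖GS (AX b x) 0 (fun z => ee ((AX b x).transpose.mulVec ξ.ofLp) z * F (el b z))‖ *
      (mm I x.2 / (2 * R) ^ (dg K))) ≤ C * (1 + ‖ξ‖) ^ (dg K + 1) *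
      √(√((S.card * (1 + mm I x.2)) ^ 2 *
      ((1 + R ^ (dg K) * (mm I x.2 / Ideal.absNorm (f * m))) *
        ((S.card : ℝ) ^ 2 + mm I x.2 * S.card * T)) *
      (Ideal.absNorm (f * m) * (1 + mm I x.2 / R ^ (dg K)) ^ 2 +
        (Ideal.absNorm f * ((tau m : ℝ) ^ 2 * √(Ideal.absNorm m))) *
        ((1 + mm I x.2 / R ^ (dg K)) * (tau m * (mm I x.2 / R ^ (dg K))) ^ 3)))) := by
  classical
  obtain ⟨Cs, hCs0, hCs⟩ := shift_bd K
  obtain ⟨C4, hC40, hC4⟩ := four_cst (K := K) hB1 hC10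
  set cI : ℝ := ∫ τ : EK K, Kf τ with hcI
  have hcI0 : 0 ≤ cI := integral_nonneg fun τ => (Kf_pos τ).le
  set Ce : ℝ := B ^ 2 * √8 ^ (dg K) * 8 ^ (dg K) * (1 + Cu) with hCe
  set Cg : ℝ := B * √2 ^ (dg K) with hCg
  have hCg0 : 0 < Cg := by positivity
  have hCe0 : 0 < Ce := by positivity
  set C : ℝ := Cs * (cI + 1) * (√(√(Cg ^ 2 * Ce * C4)) + 1) with hC
  refine ⟨C, by positivity, fun f m I F b x ξ R S T hf hm hfc hcf hI hIc hF hR hS hT0 hT => ?_⟩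
  have hfm : f * m ≠ ⊥ := by
    intro h
    rcases Ideal.mul_eq_bot.1 h with h1 | h1
    · exact hf h1
    · exact hm h1
  haveI : Finite (𝓞 K ⧸ (f * m)) := Ideal.finiteQuotientOfFreeOfNeBot _ hfm
  haveI : Fintype (𝓞 K ⧸ (f * m)) := Fintype.ofFinite _
  have hMM := mm_pos hI x.2
  set M := mm I x.2 with hM
  set A := AX b x with hA
  have hdet : A.det ≠ 0 := det_AX_ne hI b x
  set Q : ℝ := ((Ideal.absNorm (f * m) : ℕ) : ℝ) with hQ
  have hQ0 : 0 < Q := absNorm_pos' hfm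
  set M' := M / R ^ (dg K) with hM'
  have hM'0 : 0 < M' := by positivity
  set Nf : ℝ := ((Ideal.absNorm f : ℕ) : ℝ) with hNf
  have hNf0 : 0 ≤ Nf := Nat.cast_nonneg _
  set τm : ℝ := ((tau m : ℕ) : ℝ) with hτm
  have hτm0 : 0 ≤ τm := Nat.cast_nonneg _
  set Sm : ℝ := √((Ideal.absNorm m : ℕ) : ℝ) with hSm
  have hSm0 : 0 ≤ Sm := Real.sqrt_nonneg _
  set Z : ℝ := (S.card * (1 + M)) ^ 2 *
      ((1 + R ^ (dg K) * (M / Q)) * ((S.card : ℝ) ^ 2 + M * S.card * T)) *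
      (Q * (1 + M') ^ 2 + (Nf * (τm ^ 2 * Sm)) * ((1 + M') * (τm * M') ^ 3)) with hZ
  have hZ0 : 0 ≤ Z := by positivity
  set g0 := ‖GS A 0 (fun z => ee (A.transpose.mulVec ξ.ofLp) z * F (el b z))‖ with hg0
  have hg00 : 0 ≤ g0 := norm_nonneg _
  -- inverses
  have hinv : ∀ a, ∃ a', a ∈ S → a * a' - 1 ∈ f * m := by
    intro a
    by_cases ha : a ∈ S
    · obtain ⟨γ, hγ⟩ := cop_inv (hS a ha).1
      exact ⟨γ, fun _ => hγ⟩
    · exact ⟨0, fun h => absurd h ha⟩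
  choose iv hiv using hinv
  set G : (Fin (dg K) → ℤ) → ℝ := gs ((√2)⁻¹ • A) 0 with hG
  have hG0 : ∀ z, 0 ≤ G z := fun z => (gs_pos _ _ _).le
  have hdet2 : ((√2)⁻¹ • A).det ≠ 0 := smul_det_ne (by positivity) hdet
  -- the bound for finite sets
  have key : ∀ Sβ SZ : Finset (Fin (dg K) → ℤ), ∑ a ∈ S, ∑ z ∈ SZ, G z *
      ∫ τ, Kf τ * ‖Bt R Sβ (vc A) (fun β => F (iv a * el b z + el b β)) τ‖ ≤
      cI * √(√(Cg ^ 2 * Ce * C4 * Z)) := by
    intro Sβ SZ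
    set ρ : 𝓞 K × (Fin (dg K) → ℤ) → 𝓞 K ⧸ (f * m) := fun p =>
      Ideal.Quotient.mk (f * m) (iv p.1 * el b p.2) with hρ
    have hint : ∀ p ∈ S ×ˢ SZ, Integrable fun τ : EK K =>
        G p.2 * (Kf τ * ‖Bt R Sβ (vc A) (fun β => F (iv p.1 * el b p.2 + el b β)) τ‖) :=
      fun p _ => (KfBt_int R Sβ _ _).const_mul _
    have e1 : ∑ a ∈ S, ∑ z ∈ SZ, G z *
        ∫ τ, Kf τ * ‖Bt R Sβ (vc A) (fun β => F (iv a * el b z + el b β)) τ‖ =
        ∫ τ : EK K, ∑ p ∈ S ×ˢ SZ, G p.2 *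
          (Kf τ * ‖Bt R Sβ (vc A) (fun β => F (iv p.1 * el b p.2 + el b β)) τ‖) := by
      rw [integral_finset_sum _ hint, sum_product]
      refine sum_congr rfl fun a _ => sum_congr rfl fun z _ => ?_
      rw [integral_const_mul]
    rw [e1, hcI, ← integral_mul_const]
    refine integral_mono (integrable_finset_sum _ hint) (Kf_int.mul_const _) fun τ => ?_
    beta_reduce
    have e2 : ∑ p ∈ S ×ˢ SZ, G p.2 *
        (Kf τ * ‖Bt R Sβ (vc A) (fun β => F (iv p.1 * el b p.2 + el b β)) τ‖) =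
        Kf τ * ∑ p ∈ S ×ˢ SZ, G p.2 *
          ‖Bt R Sβ (vc A) (fun β => F (iv p.1 * el b p.2 + el b β)) τ‖ := by
      rw [mul_sum]
      exact sum_congr rfl fun p _ => by ring
    rw [e2]
    refine mul_le_mul_of_nonneg_left ?_ (Kf_pos τ).le
    apply le_qqrt
    -- Hölder
    set g : (Fin (dg K) → ℤ) → ℂ := fun z =>
      ((Real.exp (-(2 * Real.pi * R ^ 2 * ‖vc A z‖ ^ 2)) : ℝ) : ℂ) * e (R * ⟪τ, vc A z⟫) with hg
    set Tt : 𝓞 K ⧸ (f * m) → ℝ := fun y =>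
      ‖∑ z ∈ Sβ, g z * F (Quotient.out y + el b z)‖ with hTt
    have e3 : ∀ p : 𝓞 K × (Fin (dg K) → ℤ),
        ‖Bt R Sβ (vc A) (fun β => F (iv p.1 * el b p.2 + el b β)) τ‖ = Tt (ρ p) := by
      intro p
      simp only [hTt, hρ]
      congr 1
      unfold Bt
      refine sum_congr rfl fun z _ => ?_
      simp only [hg]
      congr 1
      refine hF.per _ _ ?_
      have h1 := out_sub (f * m) (iv p.1 * el b p.2)
      have e4 : iv p.1 * el b p.2 + el b z -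
          (Quotient.out (Ideal.Quotient.mk (f * m) (iv p.1 * el b p.2)) + el b z) =
          -(Quotient.out (Ideal.Quotient.mk (f * m) (iv p.1 * el b p.2)) - iv p.1 * el b p.2) := by
        ring
      rw [e4]
      exact neg_mem h1
    simp_rw [e3]
    have hH := holder4 (S ×ˢ SZ) (fun p => G p.2) (fun p => hG0 p.2) ρ Tt
    refine hH.trans ?_
    have b1 : ∑ p ∈ S ×ˢ SZ, G p.2 ≤ Cg * (S.card * (1 + M)) := by
      rw [sum_product]
      show ∑ _x ∈ S, ∑ y ∈ SZ, G y ≤ _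
      rw [sum_const, nsmul_eq_mul]
      have h1 : ∑ z ∈ SZ, G z ≤ Cg * (1 + M) := by
        refine ((gs_summable hdet2 0).sum_le_tsum SZ fun z _ => hG0 z).trans ?_
        refine (((hB I hI b x).smul (by positivity : (0 : ℝ) < (√2)⁻¹)).one 0).trans ?_
        rw [Mv_smul (by positivity), Mv_AX, Fintype.card_fin, inv_pow, div_inv_eq_mul, hCg, mul_assoc]
        refine mul_le_mul_of_nonneg_left ?_ (by positivity)
        have : (1 : ℝ) ≤ √2 ^ (dg K) := one_le_pow₀ (by rw [Real.one_le_sqrt]; norm_num)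
        nlinarith
      calc (S.card : ℝ) * ∑ z ∈ SZ, G z ≤ S.card * (Cg * (1 + M)) :=
            mul_le_mul_of_nonneg_left h1 (Nat.cast_nonneg _)
        _ = _ := by ring
    have b10 : 0 ≤ ∑ p ∈ S ×ˢ SZ, G p.2 := sum_nonneg fun p _ => hG0 _
    have b2 : (∑ p ∈ S ×ˢ SZ, ∑ p' ∈ S ×ˢ SZ, if ρ p = ρ p' then G p.2 * G p'.2 else 0) ≤
        Ce * ((1 + R ^ (dg K) * (M / Q)) * ((S.card : ℝ) ^ 2 + M * S.card * T)) := by
      set P : 𝓞 K → 𝓞 K → Finset ((Fin (dg K) → ℤ) × (Fin (dg K) → ℤ)) := fun a a' =>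
        (SZ ×ˢ SZ).filter (fun p => a' * el b p.1 - a * el b p.2 ∈ f * m) with hP
      have h1 := en_tot hB1 hB hCu0 hCu hfm hI hIc b x hR S (fun a ha => (hS a ha).2) hT0 hT P
        (fun a a' p hp => (mem_filter.1 hp).2)
      refine le_trans ?_ h1
      rw [sum_product]
      refine sum_le_sum fun a ha => ?_
      have e5 : ∑ z ∈ SZ, ∑ p' ∈ S ×ˢ SZ, (if ρ (a, z) = ρ p' then G (a, z).2 * G p'.2 else 0) =
          ∑ a' ∈ S, ∑ z ∈ SZ, ∑ z' ∈ SZ, (if ρ (a, z) = ρ (a', z') then G z * G z' else 0) := by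
        rw [sum_comm, sum_product]
        refine sum_congr rfl fun a' _ => ?_
        rw [sum_comm]
      rw [e5]
      refine sum_le_sum fun a' ha' => ?_
      have e6 : ∑ z ∈ SZ, ∑ z' ∈ SZ, (if ρ (a, z) = ρ (a', z') then G z * G z' else 0) =
          ∑ p ∈ SZ ×ˢ SZ, (if ρ (a, p.1) = ρ (a', p.2) then G p.1 * G p.2 else 0) := by
        rw [sum_product]
      rw [e6]
      simp only [hP]
      rw [sum_filter]
      refine sum_le_sum fun p _ => ?_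
      have hGG : 0 ≤ G p.1 * G p.2 := mul_nonneg (hG0 _) (hG0 _)
      by_cases h2 : ρ (a, p.1) = ρ (a', p.2)
      · rw [if_pos h2]
        have h3 : a' * el b p.1 - a * el b p.2 ∈ f * m := by
          simp only [hρ] at h2
          rw [Ideal.Quotient.mk_eq_mk_iff_sub_mem] at h2
          have h4 := hiv a ha
          have h5 := hiv a' ha'
          have e7 : a' * el b p.1 - a * el b p.2 =
              (a * a') * (iv a * el b p.1 - iv a' * el b p.2) -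
              (a * iv a - 1) * (a' * el b p.1) + (a' * iv a' - 1) * (a * el b p.2) := by ring
          rw [e7]
          exact add_mem (sub_mem (Ideal.mul_mem_left _ _ h2) (Ideal.mul_mem_right _ _ h4))
            (Ideal.mul_mem_right _ _ h5)
        rw [if_pos h3]
      · rw [if_neg h2]
        split_ifs
        · exact hGG
        · exact le_rfl
    have b3 : ∑ y, Tt y ^ 4 ≤ C4 * (Q * (1 + M') ^ 2 +
        (Nf * (τm ^ 2 * Sm)) * ((1 + M') * (τm * M') ^ 3)) := by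
      have hρ2 : 0 < √2 * R := by positivity
      have hgn : ∀ z, ‖g z‖ ≤ gs ((√2 * R) • AX b x) 0 z := by
        intro z
        rw [gs_vx, ← vc_vx]
        simp only [hg]
        rw [norm_mul, e_norm, mul_one, Complex.norm_real, Real.norm_of_nonneg (Real.exp_pos _).le,
          mul_pow, Real.sq_sqrt (by norm_num), ← hA]
        apply le_of_eq
        congr 1
        ring
      have h1 := four_fin hB1 hB hC10 hC1 hf hm hfc hcf hI hIc hF b x hρ2 g hgn Sβ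
      have e4 : mm I x.2 / (√2 * R) ^ (dg K) = M' / √2 ^ (dg K) := by
        rw [hM', mul_pow, ← hM]
        field_simp
      rw [e4] at h1
      refine h1.trans ?_
      exact hC4 (dg K) M' Q Nf τm Sm rfl hM'0 hQ0.le hNf0 hτm0 hSm0
    have b20 : 0 ≤ Ce * ((1 + R ^ (dg K) * (M / Q)) * ((S.card : ℝ) ^ 2 + M * S.card * T)) := by
      positivity
    calc (∑ p ∈ S ×ˢ SZ, G p.2) ^ 2 * (∑ p ∈ S ×ˢ SZ, ∑ p' ∈ S ×ˢ SZ,
          if ρ p = ρ p' then G p.2 * G p'.2 else 0) * ∑ y, Tt y ^ 4 ≤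
          (Cg * (S.card * (1 + M))) ^ 2 *
          (Ce * ((1 + R ^ (dg K) * (M / Q)) * ((S.card : ℝ) ^ 2 + M * S.card * T))) *
          (C4 * (Q * (1 + M') ^ 2 + (Nf * (τm ^ 2 * Sm)) * ((1 + M') * (τm * M') ^ 3))) := by
          refine mul_le_mul (mul_le_mul (pow_le_pow_left₀ b10 b1 2) b2 ?_ (by positivity)) b3 ?_
            (by positivity)
          · refine sum_nonneg fun p _ => sum_nonneg fun p' _ => ?_
            split_ifs
            · exact mul_nonneg (hG0 _) (hG0 _)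
            · exact le_rfl
          · exact sum_nonneg fun y _ => by positivity
      _ = _ := by rw [hZ]; ring
  -- the limit in the lattice variable
  have key2 : ∀ Sβ : Finset (Fin (dg K) → ℤ), S.card * (g0 * ∑ β ∈ Sβ, gs ((2 * R) • A) 0 β) ≤
      Cs * (1 + ‖ξ‖) ^ (dg K + 1) * (cI * √(√(Cg ^ 2 * Ce * C4 * Z))) := by
    intro Sβ
    have h1 : ∀ a ∈ S, (Summable fun z => G z *
        ∫ τ, Kf τ * ‖Bt R Sβ (vc A) (fun β => F (iv a * el b z + el b β)) τ‖) ∧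
        g0 * ∑ β ∈ Sβ, gs ((2 * R) • A) 0 β ≤ Cs * (1 + ‖ξ‖) ^ (dg K + 1) * ∑' z, G z *
        ∫ τ, Kf τ * ‖Bt R Sβ (vc A) (fun β => F (iv a * el b z + el b β)) τ‖ := fun a ha =>
      hCs (f * m) I F b x ξ a (iv a) R Sβ hF hI (hiv a ha) hR (fun w => ((hS a ha).2 w).2)
    have h2 : ∑ a ∈ S, ∑' z, G z *
        ∫ τ, Kf τ * ‖Bt R Sβ (vc A) (fun β => F (iv a * el b z + el b β)) τ‖ ≤
        cI * √(√(Cg ^ 2 * Ce * C4 * Z)) := by
      have ht : Filter.Tendsto (fun SZ : Finset (Fin (dg K) → ℤ) => ∑ a ∈ S, ∑ z ∈ SZ, G z *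
          ∫ τ, Kf τ * ‖Bt R Sβ (vc A) (fun β => F (iv a * el b z + el b β)) τ‖) Filter.atTop
          (nhds (∑ a ∈ S, ∑' z, G z *
            ∫ τ, Kf τ * ‖Bt R Sβ (vc A) (fun β => F (iv a * el b z + el b β)) τ‖)) :=
        tendsto_finsetSum _ fun a ha => (h1 a ha).1.hasSum
      exact le_of_tendsto ht (Filter.Eventually.of_forall fun SZ => key Sβ SZ)
    calc S.card * (g0 * ∑ β ∈ Sβ, gs ((2 * R) • A) 0 β) =
          ∑ a ∈ S, (g0 * ∑ β ∈ Sβ, gs ((2 * R) • A) 0 β) := by rw [sum_const, nsmul_eq_mul]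
      _ ≤ ∑ a ∈ S, Cs * (1 + ‖ξ‖) ^ (dg K + 1) * ∑' z, G z *
        ∫ τ, Kf τ * ‖Bt R Sβ (vc A) (fun β => F (iv a * el b z + el b β)) τ‖ :=
          sum_le_sum fun a ha => (h1 a ha).2
      _ = Cs * (1 + ‖ξ‖) ^ (dg K + 1) * ∑ a ∈ S, ∑' z, G z *
        ∫ τ, Kf τ * ‖Bt R Sβ (vc A) (fun β => F (iv a * el b z + el b β)) τ‖ := by rw [mul_sum]
      _ ≤ _ := mul_le_mul_of_nonneg_left h2 (by positivity)
  -- the limit in the short variable
  have hdet3 : ((2 * R) • A).det ≠ 0 := smul_det_ne (by positivity) hdet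
  have hs3 := gs_summable hdet3 (0 : Fin (dg K) → ℝ)
  have ht3 : Filter.Tendsto (fun Sβ : Finset (Fin (dg K) → ℤ) =>
      S.card * (g0 * ∑ β ∈ Sβ, gs ((2 * R) • A) 0 β)) Filter.atTop
      (nhds (S.card * (g0 * ∑' β, gs ((2 * R) • A) 0 β))) :=
    (hs3.hasSum.const_mul g0).const_mul _
  have h3 := le_of_tendsto ht3 (Filter.Eventually.of_forall key2)
  have h4 : M / (2 * R) ^ (dg K) ≤ ∑' β, gs ((2 * R) • A) 0 β := by
    have h5 := Mv_le_tsum hdet3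
    rwa [Mv_smul (by positivity), Mv_AX, Fintype.card_fin] at h5
  have h5 : √(√(Cg ^ 2 * Ce * C4 * Z)) = √(√(Cg ^ 2 * Ce * C4)) * √(√Z) := by
    rw [Real.sqrt_mul (by positivity), Real.sqrt_mul (by positivity)]
  calc S.card * (g0 * (M / (2 * R) ^ (dg K))) ≤ S.card * (g0 * ∑' β, gs ((2 * R) • A) 0 β) :=
        mul_le_mul_of_nonneg_left (mul_le_mul_of_nonneg_left h4 hg00) (Nat.cast_nonneg _)
    _ ≤ _ := h3
    _ = Cs * cI * √(√(Cg ^ 2 * Ce * C4)) * ((1 + ‖ξ‖) ^ (dg K + 1) * √(√Z)) := by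
        rw [h5]; ring
    _ ≤ C * ((1 + ‖ξ‖) ^ (dg K + 1) * √(√Z)) := by
        refine mul_le_mul_of_nonneg_right ?_ (by positivity)
        rw [hC]
        refine mul_le_mul ?_ (by linarith) (Real.sqrt_nonneg _) (by positivity)
        exact mul_le_mul_of_nonneg_left (by linarith) hCs0.le
    _ = _ := by ring

end Pool.Agent.T2H29.SW
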