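import Pool.Agent.T2H29.SW.U13

/-!
# The core bound of Burgess quality
-/

set_option autoImplicit false
set_option linter.unusedSectionVars false

namespace Pool.Agent.T2H29.SW

open Finset NumberField NumberField.InfinitePlace Module MeasureTheory

/-- the numerical part -/
lemma bur_alg {n : ℕ} {s M r τ τm T Q Nf Sm Nm g X C c Cu : ℝ} (hs : 0 < s) (hM : 1 ≤ M)
    (hr : 1 ≤ r) (hτ : 1 ≤ τ) (hτm0 : 0 ≤ τm) (hτm : τm ≤ τ) (hT : 1 ≤ T) (hQ : 0 < Q)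
    (hNf : 0 ≤ Nf) (hNm : Nm = r ^ 4) (hSm : Sm = r ^ 2) (hQN : Q = Nf * Nm) (hg : 0 ≤ g)
    (hX : 0 ≤ X) (hC : 0 < C) (hc : 0 < c) (hCu : 0 < Cu) (h1 : c * ((M / r) / τ ^ (n + 1)) ≤ s)
    (h2 : s ≤ Cu * (M / r)) (h3 : (M / r) * (M / Q) ≤ 1)
    (h4 : s * (g * (M / (2 ^ n * (M / r)))) ≤ C * X * √(√((s * (1 + M)) ^ 2 *
      ((1 + (M / r) * (M / Q)) * (s ^ 2 + M * s * T)) *
      (Q * (1 + r) ^ 2 + (Nf * (τm ^ 2 * Sm)) * ((1 + r) * (τm * r) ^ 3))))) :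
    g ^ 2 ≤ √(16 ^ n * C ^ 4 * (48 * (Cu + 1)) / c) * X ^ 2 * (τ ^ (n + 6) * T) *
      (√(Q / r) * M) := by
  have hM0 : 0 < M := by linarith
  have hr0 : 0 < r := by linarith
  have hτ0 : 0 < τ := by linarith
  have hT0 : 0 < T := by linarith
  set Z := (s * (1 + M)) ^ 2 *
      ((1 + (M / r) * (M / Q)) * (s ^ 2 + M * s * T)) *
      (Q * (1 + r) ^ 2 + (Nf * (τm ^ 2 * Sm)) * ((1 + r) * (τm * r) ^ 3)) with hZ
  have hSm0 : 0 ≤ Sm := by rw [hSm]; positivity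
  have hZ0 : 0 ≤ Z := by positivity
  have a1 : (s * (1 + M)) ^ 2 ≤ 4 * s ^ 2 * M ^ 2 := by
    calc (s * (1 + M)) ^ 2 ≤ (s * (2 * M)) ^ 2 := by
          refine pow_le_pow_left₀ (by positivity) ?_ 2
          exact mul_le_mul_of_nonneg_left (by linarith) hs.le
      _ = _ := by ring
  have hsM : s ≤ Cu * M := by
    refine h2.trans (mul_le_mul_of_nonneg_left ?_ hCu.le)
    exact div_le_self hM0.le hr
  have a2 : (1 + (M / r) * (M / Q)) * (s ^ 2 + M * s * T) ≤ 2 * (s * ((Cu + 1) * M * T)) := by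
    have b1 : s ^ 2 + M * s * T ≤ s * ((Cu + 1) * M * T) := by
      have : s ^ 2 ≤ s * (Cu * M * T) := by
        rw [sq]
        refine mul_le_mul_of_nonneg_left ?_ hs.le
        refine hsM.trans ?_
        exact le_mul_of_one_le_right (by positivity) hT
      calc s ^ 2 + M * s * T ≤ s * (Cu * M * T) + M * s * T := by linarith
        _ = _ := by ring
    exact mul_le_mul (by linarith) b1 (by positivity) (by norm_num)
  have a3 : Q * (1 + r) ^ 2 + (Nf * (τm ^ 2 * Sm)) * ((1 + r) * (τm * r) ^ 3) ≤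
      6 * τ ^ 5 * (Q * r ^ 2) := by
    have c1 : (1 + r) ^ 2 ≤ 4 * r ^ 2 := by nlinarith
    have c2 : (1 : ℝ) ≤ τ ^ 5 := one_le_pow₀ hτ
    have c3 : Q * (1 + r) ^ 2 ≤ 4 * τ ^ 5 * (Q * r ^ 2) := by
      calc Q * (1 + r) ^ 2 ≤ Q * (4 * r ^ 2) := mul_le_mul_of_nonneg_left c1 hQ.le
        _ = 4 * (Q * r ^ 2) := by ring
        _ ≤ 4 * τ ^ 5 * (Q * r ^ 2) := by
            refine mul_le_mul_of_nonneg_right ?_ (by positivity)
            linarith
    have c4 : (Nf * (τm ^ 2 * Sm)) * ((1 + r) * (τm * r) ^ 3) ≤ 2 * τ ^ 5 * (Q * r ^ 2) := by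
      have c5 : τm ^ 5 ≤ τ ^ 5 := pow_le_pow_left₀ hτm0 hτm 5
      calc (Nf * (τm ^ 2 * Sm)) * ((1 + r) * (τm * r) ^ 3) =
            τm ^ 5 * ((1 + r) * (Nf * (r ^ 5))) := by rw [hSm]; ring
        _ ≤ τ ^ 5 * ((2 * r) * (Nf * (r ^ 5))) := by
            refine mul_le_mul c5 ?_ (by positivity) (by positivity)
            exact mul_le_mul_of_nonneg_right (by linarith) (by positivity)
        _ = _ := by rw [hQN, hNm]; ring
    linarith
  have hZ1 : Z ≤ 48 * (Cu + 1) * (s ^ 3 * M ^ 3 * T * τ ^ 5 * Q * r ^ 2) := by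
    calc Z ≤ (4 * s ^ 2 * M ^ 2) * (2 * (s * ((Cu + 1) * M * T))) * (6 * τ ^ 5 * (Q * r ^ 2)) := by
          rw [hZ]
          refine mul_le_mul (mul_le_mul a1 a2 (by positivity) (by positivity)) a3 (by positivity)
            (by positivity)
      _ = _ := by ring
  have e1 : M / (2 ^ n * (M / r)) = r / 2 ^ n := by field_simp
  rw [e1] at h4
  have h5 : (s * (g * (r / 2 ^ n))) ^ 4 ≤ (C * X) ^ 4 * Z := by
    have h6 := pow_le_pow_left₀ (by positivity) h4 4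
    have e2 : (√(√Z)) ^ 4 = Z := by
      calc (√(√Z)) ^ 4 = ((√(√Z)) ^ 2) ^ 2 := by ring
        _ = Z := by rw [Real.sq_sqrt (Real.sqrt_nonneg _), Real.sq_sqrt hZ0]
    rw [mul_pow (C * X), e2] at h6
    exact h6
  have h6 : s ^ 4 * g ^ 4 * r ^ 4 ≤ 16 ^ n * (C * X) ^ 4 *
      (48 * (Cu + 1) * (s ^ 3 * M ^ 3 * T * τ ^ 5 * Q * r ^ 2)) := by
    have e2 : s ^ 4 * g ^ 4 * r ^ 4 = 16 ^ n * (s * (g * (r / 2 ^ n))) ^ 4 := by
      have e3 : (16 : ℝ) ^ n = (2 ^ n) ^ 4 := by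
        rw [← pow_mul, mul_comm n 4, pow_mul]
        norm_num
      rw [e3]
      field_simp
    rw [e2, mul_assoc (16 ^ n)]
    refine mul_le_mul_of_nonneg_left (h5.trans ?_) (by positivity)
    exact mul_le_mul_of_nonneg_left hZ1 (by positivity)
  set K0 : ℝ := 16 ^ n * C ^ 4 * (48 * (Cu + 1)) with hK0
  have hK00 : 0 < K0 := by positivity
  have h7 : s * g ^ 4 * r ^ 4 ≤ K0 * X ^ 4 * (M ^ 3 * T * τ ^ 5 * Q * r ^ 2) := by
    have hs3 : 0 < s ^ 3 := by positivity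
    refine le_of_mul_le_mul_left ?_ hs3
    calc s ^ 3 * (s * g ^ 4 * r ^ 4) = s ^ 4 * g ^ 4 * r ^ 4 := by ring
      _ ≤ _ := h6
      _ = _ := by rw [hK0]; ring
  have h8 : c * (M / r / τ ^ (n + 1)) * (g ^ 4 * r ^ 4) ≤
      K0 * X ^ 4 * (M ^ 3 * T * τ ^ 5 * Q * r ^ 2) := by
    refine le_trans ?_ h7
    calc c * (M / r / τ ^ (n + 1)) * (g ^ 4 * r ^ 4) ≤ s * (g ^ 4 * r ^ 4) :=
          mul_le_mul_of_nonneg_right h1 (by positivity)
      _ = _ := by ring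
  have h9 : g ^ 4 ≤ (K0 / c) * X ^ 4 * (M ^ 2 * (τ ^ (n + 6) * T) * (Q / r)) := by
    have hpos : 0 < c * (M / r / τ ^ (n + 1)) * r ^ 4 := by positivity
    refine le_of_mul_le_mul_left ?_ hpos
    calc c * (M / r / τ ^ (n + 1)) * r ^ 4 * g ^ 4 =
          c * (M / r / τ ^ (n + 1)) * (g ^ 4 * r ^ 4) := by ring
      _ ≤ _ := h8
      _ = _ := by
          have e4 : τ ^ (n + 6) = τ ^ (n + 1) * τ ^ 5 := by ring
          rw [e4]
          field_simp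
  set W := τ ^ (n + 6) * T with hW
  have hW1 : 1 ≤ W := one_le_mul_of_one_le_of_one_le (one_le_pow₀ hτ) hT
  have h10 : (g ^ 2) ^ 2 ≤ (√(K0 / c) * X ^ 2 * W * (√(Q / r) * M)) ^ 2 := by
    have e5 : (√(K0 / c) * X ^ 2 * W * (√(Q / r) * M)) ^ 2 =
        (K0 / c) * X ^ 4 * (M ^ 2 * W ^ 2 * (Q / r)) := by
      have s1 : √(K0 / c) ^ 2 = K0 / c := Real.sq_sqrt (by positivity)
      have s2 : √(Q / r) ^ 2 = Q / r := Real.sq_sqrt (by positivity)
      calc _ = √(K0 / c) ^ 2 * X ^ 4 * (M ^ 2 * W ^ 2 * √(Q / r) ^ 2) := by ring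
        _ = _ := by rw [s1, s2]
    rw [e5]
    have hW2 : W ≤ W ^ 2 := by nlinarith
    calc (g ^ 2) ^ 2 = g ^ 4 := by ring
      _ ≤ _ := h9
      _ ≤ _ := by
          refine mul_le_mul_of_nonneg_left ?_ (by positivity)
          refine mul_le_mul_of_nonneg_right ?_ (by positivity)
          exact mul_le_mul_of_nonneg_left hW2 (by positivity)
  exact (pow_le_pow_iff_left₀ (by positivity) (by positivity) two_ne_zero).1 h10

variable {K : Type} [Field K] [NumberField K]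

/-- the core bound -/
theorem coreU {B : ℝ} (hB1 : 1 ≤ B) (hB : CBI K B) : ∃ C : ℝ, 0 < C ∧
    ∀ (f m I : Ideal (𝓞 K)) (F : 𝓞 K → ℂ) (b : Basis (Fin (dg K)) ℤ I) (x : LS K)
    (ξ : EK K) (T : ℝ), f ≠ ⊥ → m ≠ ⊥ → IsCoprime f m →
    (∀ P : Ideal (𝓞 K), Prime P → ¬ P ^ 3 ∣ m) → I ≠ ⊥ → IsCoprime I (f * m) → PM (f * m) F →
    1 ≤ T → (∀ J : Ideal (𝓞 K), J ≠ ⊥ → (Ideal.absNorm J : ℝ) ≤ Ideal.absNorm (f * m) →
      (tau J : ℝ) ≤ T) →
    ‖GS (AX b x) 0 (fun z => ee ((AX b x).transpose.mulVec ξ.ofLp) z * F (el b z))‖ ^ 2 ≤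
      C * ((tau (f * m) : ℝ) ^ (dg K + 6) * T *
        √(Ideal.absNorm (f * m) / √(√(Ideal.absNorm m)))) *
      (1 + mm I x.2 + mm I x.2 ^ 2 / Ideal.absNorm (f * m)) * ((1 + ‖ξ‖) ^ (dg K + 1)) ^ 2 := by
  classical
  haveI : Nonempty (Fin (dg K)) := ⟨0⟩
  obtain ⟨C1, hC10, hC1⟩ := nz_sum (ι := Fin (dg K)) (B := B) (by linarith)
  have hcK := cK_pos K
  set Cu : ℝ := Real.exp (Real.pi * dg K) * C1 * (cK K)⁻¹ with hCu
  have hCu0 : 0 < Cu := by positivity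
  have hCuu : ∀ (d : Ideal (𝓞 K)), d ≠ ⊥ → ∀ {R : ℝ}, 0 < R →
      ∀ (S : Finset (𝓞 K)), (∀ a ∈ S, a ∈ d ∧ a ≠ 0 ∧ ∀ w, ‖sg a w‖ ≤ R) →
      (S.card : ℝ) ≤ Cu * (R ^ (dg K) / Ideal.absNorm d) := fun d hd R hR S hS =>
    upA hB hC1 d hd hR S hS
  obtain ⟨c, Cl, hc0, hCl0, hlow⟩ := lowA hB1 hB hC10 hC1
  obtain ⟨C, hC0, hC⟩ := bur1 hB1 hB hC10 hC1 hCu0 hCuu
  set C' : ℝ := √(16 ^ (dg K) * C ^ 4 * (48 * (Cu + 1)) / c) with hC'
  have hC'0 : 0 ≤ C' := Real.sqrt_nonneg _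
  refine ⟨C' + 2 * B ^ 2 * (Cl + 1) + 2 * B ^ 2, by positivity,
    fun f m I F b x ξ T hf hm hfc hcf hI hIc hF hT1 hT => ?_⟩
  have hfm : f * m ≠ ⊥ := by
    intro h
    rcases Ideal.mul_eq_bot.1 h with h1 | h1
    · exact hf h1
    · exact hm h1
  have hMM := mm_pos hI x.2
  set M := mm I x.2 with hM
  have hNfm : Ideal.absNorm (f * m) = Ideal.absNorm f * Ideal.absNorm m := map_mul _ _ _
  have hNf1 : (1 : ℝ) ≤ Ideal.absNorm f := by exact_mod_cast nrm_pos hf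
  have hNm1 : (1 : ℝ) ≤ Ideal.absNorm m := by exact_mod_cast nrm_pos hm
  have hτ1 : (1 : ℝ) ≤ tau (f * m) := by exact_mod_cast tau_pos hfm
  have hτmle : (tau m : ℝ) ≤ tau (f * m) := by
    exact_mod_cast tau_mono hfm (dvd_mul_left m f)
  have hQe : ((Ideal.absNorm (f * m) : ℕ) : ℝ) = Ideal.absNorm f * Ideal.absNorm m := by
    rw [hNfm]; push_cast; rfl
  set Q : ℝ := ((Ideal.absNorm (f * m) : ℕ) : ℝ) with hQ
  set Nf : ℝ := ((Ideal.absNorm f : ℕ) : ℝ) with hNf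
  set Nm : ℝ := ((Ideal.absNorm m : ℕ) : ℝ) with hNm
  set τ : ℝ := ((tau (f * m) : ℕ) : ℝ) with hτ
  set r : ℝ := √(√Nm) with hr
  have hQ1 : 1 ≤ Q := by rw [hQe]; nlinarith
  have hQ0 : 0 < Q := by linarith
  have hr2 : r ^ 2 = √Nm := Real.sq_sqrt (Real.sqrt_nonneg _)
  have hr4 : r ^ 4 = Nm := by
    calc r ^ 4 = (r ^ 2) ^ 2 := by ring
      _ = Nm := by rw [hr2, Real.sq_sqrt (by linarith)]
  have hr1 : 1 ≤ r := by
    rw [hr, Real.one_le_sqrt, Real.one_le_sqrt]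
    exact hNm1
  have hr0 : 0 < r := by linarith
  set k : ℝ := √(Q / r) with hk
  have hk0 : 0 ≤ k := Real.sqrt_nonneg _
  have hk2 : k ^ 2 = Q / r := Real.sq_sqrt (by positivity)
  have hrQ : r ^ 3 ≤ Q := by
    calc r ^ 3 ≤ r ^ 4 := pow_le_pow_right₀ hr1 (by norm_num)
      _ = Nm := hr4
      _ ≤ Q := by rw [hQe]; nlinarith
  have hrk : r ≤ k := by
    apply Real.le_sqrt_of_sq_le
    rw [le_div_iff₀ hr0]
    calc r ^ 2 * r = r ^ 3 := by ring
      _ ≤ Q := hrQ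
  have hk1 : 1 ≤ k := hr1.trans hrk
  set W : ℝ := τ ^ (dg K + 6) * T with hW
  have hW1 : 1 ≤ W := one_le_mul_of_one_le_of_one_le (one_le_pow₀ hτ1) hT1
  set X : ℝ := (1 + ‖ξ‖) ^ (dg K + 1) with hX
  have hX1 : 1 ≤ X := one_le_pow₀ (by linarith [norm_nonneg ξ])
  have hX2 : 1 ≤ X ^ 2 := one_le_pow₀ hX1
  set g := ‖GS (AX b x) 0 (fun z => ee ((AX b x).transpose.mulVec ξ.ofLp) z * F (el b z))‖ with hg
  have hg0 : 0 ≤ g := norm_nonneg _
  have hMQ0 : 0 ≤ M ^ 2 / Q := by positivity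
  -- the common conclusion
  have fin : ∀ D : ℝ, 0 ≤ D → D ≤ C' + 2 * B ^ 2 * (Cl + 1) + 2 * B ^ 2 → ∀ V : ℝ, 0 ≤ V →
      V ≤ 1 + M + M ^ 2 / Q → g ^ 2 ≤ D * (W * k) * V * X ^ 2 →
      g ^ 2 ≤ (C' + 2 * B ^ 2 * (Cl + 1) + 2 * B ^ 2) * (W * k) * (1 + M + M ^ 2 / Q) * X ^ 2 := by
    intro D hD0 hD V hV0 hV h
    refine h.trans ?_
    refine mul_le_mul_of_nonneg_right ?_ (by positivity)
    refine mul_le_mul ?_ hV hV0 (by positivity)
    exact mul_le_mul_of_nonneg_right hD (by positivity)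
  have hB0 : 0 < B := by linarith
  rcases lt_or_ge (Q * r) (M ^ 2) with hA | hA
  · -- large M
    refine fin (2 * B ^ 2) (by positivity) ?_ (M + M ^ 2 / Q) (by positivity) (by linarith) ?_
    · have : 0 ≤ 2 * B ^ 2 * (Cl + 1) := by positivity
      linarith
    have h2 := pvI hB hI hfm hIc b hF x 0 ((AX b x).transpose.mulVec ξ.ofLp)
    rw [← hg, ← hQ, ← hM] at h2
    have h3 : g ^ 2 ≤ Q * (B ^ 2 * (1 + M / Q) ^ 2) := by
      refine (pow_le_pow_left₀ hg0 h2 2).trans (le_of_eq ?_)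
      rw [mul_pow, Real.sq_sqrt hQ0.le, mul_pow]
    have h4 : Q * (B ^ 2 * (1 + M / Q) ^ 2) ≤ 2 * B ^ 2 * (Q + M ^ 2 / Q) := by
      have e1 : Q * (B ^ 2 * (1 + M / Q) ^ 2) = B ^ 2 * (Q + 2 * M + M ^ 2 / Q) := by
        field_simp
        ring
      have e2 : 2 * M ≤ Q + M ^ 2 / Q := by
        have h5 : 0 ≤ (Q - M) ^ 2 / Q := by positivity
        have e3 : (Q - M) ^ 2 / Q = Q + M ^ 2 / Q - 2 * M := by field_simp; ring
        linarith
      rw [e1]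
      have : 0 ≤ B ^ 2 := by positivity
      nlinarith
    have h5 : Q ≤ k * M := by
      have h6 : Q ^ 2 ≤ (k * M) ^ 2 := by
        rw [mul_pow, hk2]
        calc Q ^ 2 = Q / r * (Q * r) := by field_simp
          _ ≤ Q / r * M ^ 2 := mul_le_mul_of_nonneg_left hA.le (by positivity)
      exact (pow_le_pow_iff_left₀ hQ0.le (by positivity) two_ne_zero).1 h6
    have h6 : Q + M ^ 2 / Q ≤ k * (M + M ^ 2 / Q) := by
      have : M ^ 2 / Q ≤ k * (M ^ 2 / Q) := le_mul_of_one_le_left hMQ0 hk1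
      calc Q + M ^ 2 / Q ≤ k * M + k * (M ^ 2 / Q) := add_le_add h5 this
        _ = _ := by ring
    calc g ^ 2 ≤ 2 * B ^ 2 * (Q + M ^ 2 / Q) := h3.trans h4
      _ ≤ 2 * B ^ 2 * (k * (M + M ^ 2 / Q)) := mul_le_mul_of_nonneg_left h6 (by positivity)
      _ = 2 * B ^ 2 * (1 * k) * (M + M ^ 2 / Q) * 1 := by ring
      _ ≤ 2 * B ^ 2 * (W * k) * (M + M ^ 2 / Q) * X ^ 2 := by
          refine mul_le_mul ?_ hX2 zero_le_one (by positivity)
          refine mul_le_mul_of_nonneg_right ?_ (by positivity)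
          refine mul_le_mul_of_nonneg_left ?_ (by positivity)
          exact mul_le_mul_of_nonneg_right hW1 hk0
  rcases lt_or_ge M ((Cl + 1) * τ ^ (dg K + 2) * r) with hB' | hB'
  · -- small M
    refine fin (2 * B ^ 2 * (Cl + 1)) (by positivity) ?_ (1 + M) (by positivity) (by linarith) ?_
    · have : 0 ≤ 2 * B ^ 2 := by positivity
      linarith
    have h2 : g ≤ B * (1 + M) := by
      refine (GS_le (det_AX_ne hI b x) 0 (fun z => ?_)).trans ?_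
      · rw [norm_mul, ee_norm, one_mul]
        exact hF.le_one _
      · have := (hB I hI b x).one 0
        rwa [Mv_AX] at this
    have hTT : 1 ≤ (Cl + 1) * τ ^ (dg K + 2) * r :=
      one_le_mul_of_one_le_of_one_le (one_le_mul_of_one_le_of_one_le (by linarith)
        (one_le_pow₀ hτ1)) hr1
    have h3 : 1 + M ≤ 2 * ((Cl + 1) * τ ^ (dg K + 2) * r) := by linarith
    have h4 : τ ^ (dg K + 2) ≤ W := by
      calc τ ^ (dg K + 2) ≤ τ ^ (dg K + 6) := pow_le_pow_right₀ hτ1 (by omega)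
        _ ≤ W := le_mul_of_one_le_right (by positivity) hT1
    calc g ^ 2 ≤ (B * (1 + M)) ^ 2 := pow_le_pow_left₀ hg0 h2 2
      _ = B ^ 2 * (1 + M) * (1 + M) := by ring
      _ ≤ B ^ 2 * (1 + M) * (2 * ((Cl + 1) * τ ^ (dg K + 2) * r)) :=
          mul_le_mul_of_nonneg_left h3 (by positivity)
      _ = 2 * B ^ 2 * (Cl + 1) * (τ ^ (dg K + 2) * r) * (1 + M) * 1 := by ring
      _ ≤ 2 * B ^ 2 * (Cl + 1) * (W * k) * (1 + M) * X ^ 2 := by
          refine mul_le_mul ?_ hX2 zero_le_one (by positivity)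
          refine mul_le_mul_of_nonneg_right ?_ (by positivity)
          refine mul_le_mul_of_nonneg_left ?_ (by positivity)
          exact mul_le_mul h4 hrk hr0.le (by positivity)
  · -- the main range
    refine fin C' hC'0 ?_ M hMM.le (by linarith) ?_
    · have : 0 ≤ 2 * B ^ 2 * (Cl + 1) + 2 * B ^ 2 := by positivity
      linarith
    have hM1 : 1 ≤ M := by
      refine le_trans ?_ hB'
      exact one_le_mul_of_one_le_of_one_le (one_le_mul_of_one_le_of_one_le (by linarith)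
        (one_le_pow₀ hτ1)) hr1
    have hP0 : 0 < M / r := by positivity
    set R : ℝ := (M / r) ^ ((dg K : ℝ)⁻¹) with hR
    have hR0 : 0 < R := Real.rpow_pos_of_pos hP0 _
    have hRn : R ^ (dg K) = M / r := by
      rw [hR]
      exact Real.rpow_inv_natCast_pow hP0.le (NeZero.ne (dg K))
    have hRl : Cl * τ ^ (dg K + 2) ≤ R ^ (dg K) := by
      rw [hRn, le_div_iff₀ hr0]
      refine le_trans ?_ hB'
      refine mul_le_mul_of_nonneg_right ?_ hr0.le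
      exact mul_le_mul_of_nonneg_right (by linarith) (by positivity)
    obtain ⟨S, hS, hSc⟩ := hlow (f * m) R hfm hR0 hRl
    rw [hRn] at hSc
    have hS0 : 0 < (S.card : ℝ) := by
      refine lt_of_lt_of_le ?_ hSc
      positivity
    have hne : ∀ a ∈ S, a ≠ 0 := fun a ha => ne_of_low (by positivity) fun w => ((hS a ha).2 w).1
    have hSup : (S.card : ℝ) ≤ Cu * (M / r) := by
      have h1 := hCuu ⊤ top_ne_bot hR0 S fun a ha =>
        ⟨Submodule.mem_top, hne a ha, fun w => ((hS a ha).2 w).2⟩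
      rwa [hRn, Ideal.absNorm_top, Nat.cast_one, div_one] at h1
    have h3 : (M / r) * (M / Q) ≤ 1 := by
      rw [div_mul_div_comm, div_le_one (by positivity)]
      calc M * M = M ^ 2 := by ring
        _ ≤ Q * r := hA
        _ = r * Q := mul_comm _ _
    have hPQ : M / r ≤ Q := by
      have h4 : M / r ≤ (M / r) * M := le_mul_of_one_le_right hP0.le hM1
      have h5 : (M / r) * M ≤ Q := by
        have := mul_le_mul_of_nonneg_right h3 hQ0.le
        calc (M / r) * M = (M / r) * (M / Q) * Q := by field_simp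
          _ ≤ 1 * Q := this
          _ = Q := one_mul _
      linarith
    have hTS : ∀ a ∈ S, (tau (Ideal.span {a}) : ℝ) ≤ T := by
      intro a ha
      refine hT _ ?_ ?_
      · rw [Ne, Ideal.span_singleton_eq_bot]
        exact hne a ha
      · have h4 := norm_up fun w => ((hS a ha).2 w).2
        rw [hRn] at h4
        exact h4.trans hPQ
    have h5 := hC f m I F b x ξ R S T hf hm hfc hcf hI hIc hF hR0 hS (by linarith) hTS
    have e2 : (2 * R) ^ (dg K) = 2 ^ (dg K) * (M / r) := by rw [mul_pow, hRn]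
    have e3 : M / (M / r) = r := by field_simp
    rw [e2, hRn, ← hM, e3] at h5
    have h6 := bur_alg (n := dg K) hS0 hM1 hr1 hτ1 (Nat.cast_nonneg (tau m)) hτmle hT1 hQ0
      (by linarith : (0 : ℝ) ≤ Nf) hr4.symm hr2.symm hQe hg0 (by positivity : 0 ≤ X) hC0 hc0 hCu0
      hSc hSup h3 h5
    refine h6.trans (le_of_eq ?_)
    rw [hC', hW, hk]
    ring

end Pool.Agent.T2H29.SW
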