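import Pool.Agent.T2H29.SW.U14
import Pool.Agent.T2H29.SW.B10

/-!
# The chain for abstract data with polynomial growth
-/

set_option autoImplicit false
set_option linter.unusedSectionVars false

namespace Pool.Agent.T2H29.SW

open Finset NumberField NumberField.InfinitePlace Module MeasureTheory NumberField.Units
open scoped nonZeroDivisors

variable {K : Type} [Field K] [NumberField K]

/-- the data of an ideal class, abstract form -/
structure SetU (B : ℝ) (Ct : ℕ → ℝ) (Q k : ℝ) (I : Ideal (𝓞 K)) (b : Basis (Fin (dg K)) ℤ I)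
    (F : (Fin (dg K) → ℤ) → ℂ) : Prop where
  ne : I ≠ ⊥
  bal : ∀ x : LS K, CB B (AX b x)
  le : ∀ z, ‖F z‖ ≤ 1
  zero : F 0 = 0
  Q1 : 1 ≤ Q
  k0 : 0 ≤ k
  ct : ∀ N, 0 ≤ Ct N
  core : ∀ (x : LS K) (ξ : EuclideanSpace ℝ (Fin (dg K))),
    ‖GS (AX b x) 0 (fun z => ee ((AX b x).transpose.mulVec ξ.ofLp) z * F z)‖ ^ 2 ≤
    k * (1 + mm I x.2 + mm I x.2 ^ 2 / Q) * ((1 + ‖ξ‖) ^ (dg K + 1)) ^ 2
  tail : ∀ (N : ℕ) (x : LS K), Q ≤ mm I x.2 → ∀ ξ : EuclideanSpace ℝ (Fin (dg K)),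
    ‖GS (AX b x) 0 (fun z => ee ((AX b x).transpose.mulVec ξ.ofLp) z * F z)‖ ≤
      Ct N * (1 + ‖ξ‖) ^ (2 * (dg K * N)) * (mm I x.2 / √Q * (Q / mm I x.2) ^ (2 * N))

variable {B : ℝ} {Ct : ℕ → ℝ} {Q k : ℝ} {I : Ideal (𝓞 K)} {b : Basis (Fin (dg K)) ℤ I}
  {F : (Fin (dg K) → ℤ) → ℂ} {θ : Par (InfinitePlace K)} {χ : Ideal (𝓞 K) →* ℂ}

variable (K) in
/-- the bound for all `M` -/
theorem TW_allU : ∃ C : ℝ, 0 ≤ C ∧ ∀ (B : ℝ) (Ct : ℕ → ℝ) (Q k : ℝ) (I : Ideal (𝓞 K))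
    (b : Basis (Fin (dg K)) ℤ I) (F : (Fin (dg K) → ℤ) → ℂ) (θ : Par (InfinitePlace K)) (x : LS K),
    SetU B Ct Q k I b F → ‖TW (lamK K) θ (AX b x) F‖ ≤ C * Tp θ ^ (3 * dg K + 1) *
      √(k * (1 + mm I x.2 + mm I x.2 ^ 2 / Q)) := by
  obtain ⟨C, hC0, hC⟩ := gh_main (lamK_LF K) (dg K + 1)
  refine ⟨C, hC0, fun B Ct Q k I b F θ x h => ?_⟩
  have hA := det_AX_ne h.ne b x
  have hG : ∀ ξ : EuclideanSpace ℝ (Fin (dg K)),
      ‖GS (AX b x) 0 (fun z => ee ((AX b x).transpose.mulVec ξ.ofLp) z * F z)‖ ≤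
      √(k * (1 + mm I x.2 + mm I x.2 ^ 2 / Q)) * (1 + ‖ξ‖) ^ (dg K + 1) := by
    intro ξ
    have h1 := Real.le_sqrt_of_sq_le (h.core x ξ)
    have h2 := h.k0
    have h3 := mm_pos h.ne x.2
    have h4 := h.Q1
    rwa [Real.sqrt_mul (by positivity), Real.sqrt_sq (by positivity)] at h1
  obtain ⟨h1, h2⟩ := TW_le (lamK_LF K) θ hA h.le (Real.sqrt_nonneg _) hG
  refine h2.trans ?_
  have h3 := (hC θ).2.2
  rw [Fintype.card_fin] at h3
  have hn1 : 1 ≤ dg K := NeZero.one_le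
  have h4 : Tp θ ^ (dg K + 1 + dg K + 1) ≤ Tp θ ^ (3 * dg K + 1) :=
    pow_le_pow_right₀ (Tp_one θ) (by omega)
  calc _ ≤ √(k * (1 + mm I x.2 + mm I x.2 ^ 2 / Q)) * (C * Tp θ ^ (dg K + 1 + dg K + 1)) :=
        mul_le_mul_of_nonneg_left h3 (Real.sqrt_nonneg _)
    _ ≤ √(k * (1 + mm I x.2 + mm I x.2 ^ 2 / Q)) * (C * Tp θ ^ (3 * dg K + 1)) :=
        mul_le_mul_of_nonneg_left (mul_le_mul_of_nonneg_left h4 hC0) (Real.sqrt_nonneg _)
    _ = _ := by ring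

variable (K) in
/-- the bound for large `M` -/
theorem TW_tailU (N : ℕ) : ∃ C : ℝ, 0 ≤ C ∧ ∀ (B : ℝ) (Ct : ℕ → ℝ) (Q k : ℝ) (I : Ideal (𝓞 K))
    (b : Basis (Fin (dg K)) ℤ I) (F : (Fin (dg K) → ℤ) → ℂ) (θ : Par (InfinitePlace K)) (x : LS K),
    SetU B Ct Q k I b F → Q ≤ mm I x.2 → ‖TW (lamK K) θ (AX b x) F‖ ≤
      C * Ct N * Tp θ ^ (2 * (dg K * N) + dg K + 1) *
      (mm I x.2 / √Q * (Q / mm I x.2) ^ (2 * N)) := by
  obtain ⟨C, hC0, hC⟩ := gh_main (lamK_LF K) (2 * (dg K * N))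
  refine ⟨C, hC0, fun B Ct Q k I b F θ x h hQ => ?_⟩
  have hA := det_AX_ne h.ne b x
  have hMM := mm_pos h.ne x.2
  have hQ0 : 0 < Q := by linarith [h.Q1]
  have hct := h.ct N
  set Y := mm I x.2 / √Q * (Q / mm I x.2) ^ (2 * N) with hY
  have hY0 : 0 ≤ Y := by positivity
  have hG : ∀ ξ : EuclideanSpace ℝ (Fin (dg K)),
      ‖GS (AX b x) 0 (fun z => ee ((AX b x).transpose.mulVec ξ.ofLp) z * F z)‖ ≤
      (Ct N * Y) * (1 + ‖ξ‖) ^ (2 * (dg K * N)) := by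
    intro ξ
    refine (h.tail N x hQ ξ).trans (le_of_eq ?_)
    ring
  obtain ⟨-, h2⟩ := TW_le (lamK_LF K) θ hA h.le (by positivity) hG
  refine h2.trans ?_
  have h3 := (hC θ).2.2
  rw [Fintype.card_fin] at h3
  calc _ ≤ (Ct N * Y) * (C * Tp θ ^ (2 * (dg K * N) + dg K + 1)) :=
        mul_le_mul_of_nonneg_left h3 (by positivity)
    _ = _ := by ring

lemma ThW_bd2U (h : SetU B Ct Q k I b F) (θ : Par (InfinitePlace K)) (N : ℕ) :
    ∃ C : ℝ, 0 ≤ C ∧ ∀ x : LS K, ‖ThW b θ F x‖ * mm I x.2 ^ N ≤ C := by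
  haveI : Nonempty (Fin (dg K)) := ⟨0⟩
  obtain ⟨C1, hC10, hC1⟩ := TW_tailU K (N + 1)
  have hB : 0 ≤ B := (h.bal 0).nonneg
  have hQ1 := h.Q1
  have hQ0 : 0 < Q := by linarith
  set C2 := (1 : ℝ) * (Real.exp (Real.pi * (3 / 2 * dg K)) * B * ((m0 K)⁻¹ + 1)) with hC2
  have hm0 := m0_pos (K := K)
  have hC20 : 0 ≤ C2 := by positivity
  have hct := h.ct (N + 1)
  set C3 := C1 * Ct (N + 1) * Tp θ ^ (2 * (dg K * (N + 1)) + dg K + 1) with hC3
  have hT1 := Tp_one θ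
  have hC30 : 0 ≤ C3 := by positivity
  refine ⟨C2 * Q * Q ^ N + C3 * Q ^ (N + 1), by positivity, fun x => ?_⟩
  have hmm := mm_pos h.ne x.2
  rcases le_total (mm I x.2) Q with h1 | h1
  · have h2 := (ThW_triv (θ := θ) h.ne h.bal h.zero h.le x).2
    have h3 : ‖ThW b θ F x‖ ≤ C2 * Q := by
      refine h2.trans ?_
      calc _ = C2 * mm I x.2 := by rw [hC2]; ring
        _ ≤ _ := mul_le_mul_of_nonneg_left h1 hC20
    have h4 : ‖ThW b θ F x‖ * mm I x.2 ^ N ≤ C2 * Q * Q ^ N :=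
      mul_le_mul h3 (pow_le_pow_left₀ hmm.le h1 N) (by positivity) (by positivity)
    have : 0 ≤ C3 * Q ^ (N + 1) := by positivity
    linarith
  · have h2 := hC1 B Ct Q k I b F θ x h h1
    rw [← hC3] at h2
    have hsQ : 1 ≤ √Q := by rw [Real.one_le_sqrt]; exact hQ1
    have h3 : mm I x.2 / √Q * (Q / mm I x.2) ^ (2 * (N + 1)) * mm I x.2 ^ N ≤ Q ^ (N + 1) := by
      have e1 : mm I x.2 * (Q / mm I x.2) ^ (2 * (N + 1)) * mm I x.2 ^ N =
          Q ^ (N + 1) * (Q / mm I x.2) ^ (N + 1) := by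
        rw [div_pow, div_pow]
        have e2 : mm I x.2 ^ (2 * (N + 1)) = mm I x.2 ^ (N + 1) * (mm I x.2 * mm I x.2 ^ N) := by
          ring
        have e3 : Q ^ (2 * (N + 1)) = Q ^ (N + 1) * Q ^ (N + 1) := by ring
        rw [e2, e3]
        field_simp
      calc mm I x.2 / √Q * (Q / mm I x.2) ^ (2 * (N + 1)) * mm I x.2 ^ N ≤
          mm I x.2 * (Q / mm I x.2) ^ (2 * (N + 1)) * mm I x.2 ^ N := by
            refine mul_le_mul_of_nonneg_right ?_ (by positivity)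
            exact mul_le_mul_of_nonneg_right (div_le_self hmm.le hsQ) (by positivity)
        _ = Q ^ (N + 1) * (Q / mm I x.2) ^ (N + 1) := e1
        _ ≤ Q ^ (N + 1) * 1 := by
            refine mul_le_mul_of_nonneg_left ?_ (by positivity)
            exact pow_le_one₀ (by positivity) ((div_le_one hmm).2 h1)
        _ = _ := mul_one _
    have h4 : ‖ThW b θ F x‖ * mm I x.2 ^ N ≤ C3 * Q ^ (N + 1) := by
      calc ‖ThW b θ F x‖ * mm I x.2 ^ N ≤ C3 * (mm I x.2 / √Q * (Q / mm I x.2) ^ (2 * (N + 1))) *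
            mm I x.2 ^ N := mul_le_mul_of_nonneg_right h2 (by positivity)
        _ = C3 * (mm I x.2 / √Q * (Q / mm I x.2) ^ (2 * (N + 1)) * mm I x.2 ^ N) := by ring
        _ ≤ _ := mul_le_mul_of_nonneg_left h3 hC30
    have : 0 ≤ C2 * Q * Q ^ N := by positivity
    linarith

lemma ThW_decayU (h : SetU B Ct Q k I b F) (θ : Par (InfinitePlace K)) (R : ℝ) :
    ∃ C : ℝ, 0 ≤ C ∧ ∀ x : LS K, ‖ThW b θ F x‖ ≤ C * Real.exp (-(R * |x.2|)) := by
  refine decay_abs h.ne (fun N => ?_) (ThW_bd2U h θ) R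
  obtain ⟨C, hC0, hC⟩ := ThW_bd2U h θ 0
  have hm0 := m0_pos (K := K)
  refine ⟨C / m0 K ^ N, by positivity, fun x => ?_⟩
  have hmm := mm_pos h.ne x.2
  have h1 := hC x
  rw [pow_zero, mul_one] at h1
  rcases lt_or_ge (mm I x.2) (m0 K) with h2 | h2
  · rw [ThW_zero h.ne h.zero h2, norm_zero]
    positivity
  · rw [div_mul_eq_mul_div, le_div_iff₀ (by positivity)]
    calc ‖ThW b θ F x‖ * m0 K ^ N ≤ C * mm I x.2 ^ N :=
          mul_le_mul h1 (pow_le_pow_left₀ hm0.le h2 N) (by positivity) hC0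
      _ = _ := rfl

lemma SetU.td (h : SetU B Ct Q k I b F) (θ : Par (InfinitePlace K)) : TD (ThW b θ F) :=
  ⟨ThW_meas h.ne h.bal h.zero h.le, ThW_decayU h θ⟩

/-- the sum over the elements, absolutely convergent -/
theorem el_sumTU (h : SetU B Ct Q k I b F) {κ : ℂ}
    (hrel : ∀ z, χ (Ideal.span {el b z}) = κ * F z * infK θ (el b z : K)) (t0 : ℝ) {s : ℂ}
    (hs : 1 < s.re) {c : ℝ}
    (hc : ∀ G : (InfinitePlace K → ℝ) → ℂ, (∫ x, G (UU K x) = (c : ℂ) * ∫ u, G u) ∧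
      (Integrable G → Integrable fun x => G (UU K x))) :
    HasSum (fun z => ∫ x in box K, TN s θ t0 χ (el b z) x)
      (κ * LamT θ.2 (ThW b (shp θ t0) F) s) := by
  have hz0 : ∀ x, TN s θ t0 χ (el b 0) x = 0 := by
    intro x
    rw [TN_el h.zero hrel, h.zero]
    ring
  have hint : ∀ z, Integrable (fun x => TN s θ t0 χ (el b z) x) (volume.restrict (box K)) := by
    intro z
    by_cases hz : z = 0
    · rw [hz]
      have : (fun x => TN s θ t0 χ (el b 0) x) = fun _ => (0 : ℂ) := funext hz0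
      rw [this]
      exact integrable_zero _ _ _
    · exact (TN_int θ t0 s χ hc (el_ne b hz)).1.integrableOn
  set bF := ‖κ‖ with hbF
  have hbF0 : 0 ≤ bF := by positivity
  have hnorm : ∀ z x, ‖TN s θ t0 χ (el b z) x‖ ≤
      bF * (if z = 0 then 0 else ‖Wt (lamK K) (shp θ t0) (vc (AX b x) z)‖) *
        Real.exp (s.re * (dg K * x.2 / 2)) := by
    intro z x
    by_cases hz : z = 0
    · rw [hz, hz0, norm_zero, if_pos rfl, mul_zero, zero_mul]
    · rw [if_neg hz, TN_el h.zero hrel, norm_mul, norm_mul, norm_mul, WW_norm]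
      refine mul_le_mul_of_nonneg_right ?_ (Real.exp_pos _).le
      have h2 := h.le z
      have h3 := norm_nonneg (Wt (lamK K) (shp θ t0) (vc (AX b x) z))
      calc ‖κ‖ * (‖Wt (lamK K) (shp θ t0) (vc (AX b x) z)‖ * ‖F z‖) ≤
          ‖κ‖ * (‖Wt (lamK K) (shp θ t0) (vc (AX b x) z)‖ * 1) :=
            mul_le_mul_of_nonneg_left (mul_le_mul_of_nonneg_left h2 h3) (norm_nonneg _)
        _ = _ := by rw [hbF]; ring
  obtain ⟨C, δ, hC0, hδ, hC⟩ := S1_bdH (θ := shp θ t0) h.ne h.bal hs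
  have hsum : Summable fun z => ∫ x in box K, ‖TN s θ t0 χ (el b z) x‖ := by
    refine summable_of_sum_le (c := ∫ x in box K, bF * (C * Real.exp (-(δ * |x.2|))))
      (fun z => integral_nonneg fun x => norm_nonneg _) fun t => ?_
    rw [← integral_finsetSum _ (fun z _ => (hint z).norm)]
    refine setIntegral_mono_on (integrable_finsetSum _ fun z _ => (hint z).norm)
      (((box_int K (ea_int hδ)).1.const_mul C).const_mul bF) (box_meas K) fun x _ => ?_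
    refine le_trans ?_ (mul_le_mul_of_nonneg_left (hC x (t.erase 0) (by simp)) hbF0)
    rw [sum_mul, mul_sum]
    calc ∑ z ∈ t, ‖TN s θ t0 χ (el b z) x‖ ≤
          ∑ z ∈ t, bF * (if z = 0 then 0 else ‖Wt (lamK K) (shp θ t0) (vc (AX b x) z)‖) *
          Real.exp (s.re * (dg K * x.2 / 2)) := sum_le_sum fun z _ => hnorm z x
      _ = ∑ z ∈ t.erase 0, bF * (‖Wt (lamK K) (shp θ t0) (vc (AX b x) z)‖ *
            Real.exp (s.re * (dg K * x.2 / 2))) := by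
          rw [← Finset.sum_filter_add_sum_filter_not t (fun z => z = 0)]
          have e1 : ∑ z ∈ t with z = 0, bF * (if z = 0 then 0 else
              ‖Wt (lamK K) (shp θ t0) (vc (AX b x) z)‖) *
              Real.exp (s.re * (dg K * x.2 / 2)) = 0 := by
            refine sum_eq_zero fun z hz => ?_
            rw [if_pos (mem_filter.1 hz).2, mul_zero, zero_mul]
          rw [e1, zero_add]
          have e2 : ({z ∈ t | ¬ z = 0} : Finset _) = t.erase 0 := by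
            ext z
            rw [mem_filter, mem_erase]
            tauto
          rw [e2]
          refine sum_congr rfl fun z hz => ?_
          rw [if_neg (mem_erase.1 hz).1, mul_assoc]
  have h1 := hasSum_integral_of_summable_integral_norm hint hsum
  have h2 : ∫ x in box K, ∑' z, TN s θ t0 χ (el b z) x =
      κ * LamT θ.2 (ThW b (shp θ t0) F) s := by
    unfold LamT
    rw [← integral_const_mul]
    refine setIntegral_congr_fun (box_meas K) fun x _ => ?_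
    beta_reduce
    rw [(TN_sum h.ne h.bal h.zero h.le hrel s t0 x).tsum_eq, mul_assoc]
  rw [h2] at h1
  exact h1

variable (K) in
/-- the bound for the completed L-function of a class -/
theorem LamT_bdU (B : ℝ) (Ct : ℕ → ℝ) (hCt : ∀ N, 0 ≤ Ct N) :
    ∃ C : ℝ, 0 < C ∧ ∀ (Q k : ℝ) (I : Ideal (𝓞 K))
    (b : Basis (Fin (dg K)) ℤ I)
    (F : (Fin (dg K) → ℤ) → ℂ) (θ : Par (InfinitePlace K)) (τ : InfinitePlace K → ℝ) (s : ℂ),
    SetU B Ct Q k I b F → s.re = 1 / 2 →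
    √(Ideal.absNorm I) * ‖LamT τ (ThW b θ F) s‖ ≤ C * Tp θ ^ (3 * dg K + 1) *
      (√k * (Real.log Q + 1) + 1) := by
  haveI : Nonempty (Fin (dg K)) := ⟨0⟩
  obtain ⟨C1, hC10, hC1⟩ := TW_allU K
  obtain ⟨C2, hC20, hC2⟩ := TW_tailU K 1
  have hct := hCt 1
  have hn : (0 : ℝ) < dg K := by exact_mod_cast NeZero.pos (dg K)
  have hcK := cK_pos K
  have hscK : 0 < √(cK K) := Real.sqrt_pos.2 hcK
  have hm0 := m0_pos (K := K)
  set c1 := √((m0 K)⁻¹ + 2) with hc1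
  have hc10 : 0 < c1 := Real.sqrt_pos.2 (by positivity)
  set c2 := 2 / dg K * (1 + |Real.log (m0 K)|) with hc2
  have hc20 : 0 < c2 := by positivity
  refine ⟨(√(cK K))⁻¹ * (C1 * c1 * c2 + C2 * Ct 1 * (8 / dg K)) + 1, by positivity,
    fun Q k I b F θ τ s h hs => ?_⟩
  have hQ1 : 1 ≤ Q := h.Q1
  have hk := h.k0
  have hQ0 : 0 < Q := by linarith
  have hlQ : 0 ≤ Real.log Q := Real.log_nonneg hQ1
  have hT1 := Tp_one θ
  set G := C1 * Tp θ ^ (3 * dg K + 1) * (√k * c1) with hG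
  set E := C2 * Ct 1 * Tp θ ^ (3 * dg K + 1) with hE
  have hG0 : 0 ≤ G := by positivity
  have hE0 : 0 ≤ E := by positivity
  have hcr := LamT_crit hG0 hE0 hQ1 h.ne (h.td θ) (fun x hx => ThW_zero h.ne h.zero hx)
    (fun x hx1 hx2 => ?_) (fun x hx => ?_) τ hs
  · refine hcr.trans ?_
    set X := Tp θ ^ (3 * dg K + 1) with hX
    have hX0 : 0 ≤ X := by positivity
    have hGX : G ≤ C1 * c1 * (X * √k) := by
      calc G = C1 * c1 * (Tp θ ^ (3 * dg K + 1) * √k) := by rw [hG]; ring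
        _ ≤ _ := le_of_eq (by rw [hX])
    have h4 : 2 / (dg K : ℝ) * Real.log Q + 2 / dg K * |Real.log (m0 K)| ≤ c2 * (Real.log Q + 1) := by
      rw [hc2]
      have h5 : 0 ≤ 2 / (dg K : ℝ) * (|Real.log (m0 K)| * Real.log Q) := by positivity
      have h6 : 0 ≤ 2 / (dg K : ℝ) := by positivity
      nlinarith
    have h5 : G * (2 / (dg K : ℝ) * Real.log Q + 2 / dg K * |Real.log (m0 K)|) ≤
        C1 * c1 * (X * √k) * (c2 * (Real.log Q + 1)) :=
      mul_le_mul hGX h4 (by positivity) (by positivity)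
    set Y := √k * (Real.log Q + 1) + 1 with hY
    have hsk := Real.sqrt_nonneg k
    have hY1 : 1 ≤ Y := by
      have : 0 ≤ √k * (Real.log Q + 1) := by positivity
      linarith
    have h6 : √k * (Real.log Q + 1) ≤ Y := by linarith
    have hXY : 0 ≤ X * Y := by positivity
    calc (√(cK K))⁻¹ * (G * (2 / (dg K : ℝ) * Real.log Q + 2 / dg K * |Real.log (m0 K)|) + E * (8 / dg K)) ≤
        (√(cK K))⁻¹ * (C1 * c1 * (X * √k) * (c2 * (Real.log Q + 1)) + C2 * Ct 1 * X * (8 / dg K)) := by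
          refine mul_le_mul_of_nonneg_left ?_ (by positivity)
          rw [hE]
          linarith
      _ = (√(cK K))⁻¹ * (C1 * c1 * c2 * (X * (√k * (Real.log Q + 1))) +
          C2 * Ct 1 * (8 / dg K) * (X * 1)) := by
          ring
      _ ≤ (√(cK K))⁻¹ * (C1 * c1 * c2 * (X * Y) + C2 * Ct 1 * (8 / dg K) * (X * Y)) := by
          refine mul_le_mul_of_nonneg_left (add_le_add ?_ ?_) (by positivity)
          · exact mul_le_mul_of_nonneg_left (mul_le_mul_of_nonneg_left h6 hX0) (by positivity)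
          · exact mul_le_mul_of_nonneg_left (mul_le_mul_of_nonneg_left hY1 hX0) (by positivity)
      _ ≤ ((√(cK K))⁻¹ * (C1 * c1 * c2 + C2 * Ct 1 * (8 / dg K)) + 1) * (X * Y) := by
          have : ((√(cK K))⁻¹ * (C1 * c1 * c2 + C2 * Ct 1 * (8 / dg K)) + 1) * (X * Y) =
            (√(cK K))⁻¹ * (C1 * c1 * c2 * (X * Y) + C2 * Ct 1 * (8 / dg K) * (X * Y)) + X * Y := by
            ring
          rw [this]
          linarith
      _ = _ := by ring
  · -- middle range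
    have h1 := hC1 B Ct Q k I b F θ x h
    refine h1.trans ?_
    have hmm := mm_pos h.ne x.2
    have h2 : 1 + mm I x.2 + mm I x.2 ^ 2 / Q ≤ ((m0 K)⁻¹ + 2) * mm I x.2 := by
      have h3 : 1 ≤ (m0 K)⁻¹ * mm I x.2 := by
        rw [le_inv_mul_iff₀ hm0, mul_one]; exact hx1
      have h4 : mm I x.2 ^ 2 / Q ≤ mm I x.2 := by
        rw [div_le_iff₀ hQ0, pow_two]
        exact mul_le_mul_of_nonneg_left hx2 hmm.le
      linarith
    have h3 : √(k * (1 + mm I x.2 + mm I x.2 ^ 2 / Q)) ≤ √k * c1 * √(mm I x.2) := by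
      rw [hc1, ← Real.sqrt_mul hk, ← Real.sqrt_mul (by positivity)]
      refine Real.sqrt_le_sqrt ?_
      rw [mul_assoc]
      exact mul_le_mul_of_nonneg_left h2 hk
    calc C1 * Tp θ ^ (3 * dg K + 1) * √(k * (1 + mm I x.2 + mm I x.2 ^ 2 / Q)) ≤
        C1 * Tp θ ^ (3 * dg K + 1) * (√k * c1 * √(mm I x.2)) :=
          mul_le_mul_of_nonneg_left h3 (by positivity)
      _ = _ := by rw [hG]; ring
  · have h1 := hC2 B Ct Q k I b F θ x h hx
    refine h1.trans (le_of_eq ?_)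
    rw [hE]
    have e1 : 2 * (dg K * 1) + dg K + 1 = 3 * dg K + 1 := by omega
    rw [e1]


/-- one class -/
theorem class_LGU {B : ℝ} {Ct : ℕ → ℝ} {Q k : ℝ} {I : Ideal (𝓞 K)} {b : Basis (Fin (dg K)) ℤ I}
    {F : (Fin (dg K) → ℤ) → ℂ} {θ : Par (InfinitePlace K)} {χ : Ideal (𝓞 K) →* ℂ}
    (h : SetU B Ct Q k I b F) {κ : ℂ}
    (hrel : ∀ z, χ (Ideal.span {el b z}) = κ * F z * infK θ (el b z : K)) (hχI : χ I ≠ 0)
    {c : ℝ} (hc0 : 0 < c)
    (hc : ∀ G : (InfinitePlace K → ℝ) → ℂ, (∫ x, G (UU K x) = (c : ℂ) * ∫ u, G u) ∧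
      (Integrable G → Integrable fun x => G (UU K x))) {C : ClassGroup (𝓞 K)} (hI : I ≠ ⊥)
    (hC : ClassGroup.mk0 ⟨I, nzd hI⟩ = C⁻¹) {s : ℂ} (hs : 1 < s.re) {t0 : ℝ}
    (ht : |s.im - t0| < 1) :
    HasSum (fun J : clS C => χ J.1 * (Ideal.absNorm J.1 : ℂ) ^ (-s))
      ((χ I)⁻¹ * (Ideal.absNorm I : ℂ) ^ s *
        (((torsionOrder K : ℂ) * c)⁻¹ * (Zf K (s - Complex.I * t0))⁻¹ *
          (κ * LamT θ.2 (ThW b (shp θ t0) F) s))) := by
  refine cl_hasSum hI hC hχI ?_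
  have h1 := el_sumTU (χ := χ) h hrel t0 hs hc
  have hF0 : (fun α : 𝓞 K => ∫ x in box K, TN s θ t0 χ α x) 0 = 0 := by
    beta_reduce
    have : ∀ x, TN s θ t0 χ 0 x = 0 := by
      intro x
      have h2 := TN_el h.zero hrel s t0 0 x
      rw [h.zero, el_zero] at h2
      rw [h2]
      ring
    simp_rw [this]
    simp
  have h2 := class_hasSum b (F := fun α : 𝓞 K => ∫ x in box K, TN s θ t0 χ α x) hF0 h1
    (G := fun J : PrI I => (torsionOrder K : ℂ) * ((c * Zf K (s - Complex.I * t0)) *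
      (χ (Ideal.span {J.gen}) * (Ideal.absNorm (Ideal.span {J.gen}) : ℂ) ^ (-s))))
    (fun J => TN_units s θ t0 χ hc J.gen_ne)
  have h3 := h2.mul_left (((torsionOrder K : ℂ) * c)⁻¹ * (Zf K (s - Complex.I * t0))⁻¹)
  refine h3.congr_fun ?_ |> id
  intro J
  rw [J.span]
  have hw : (torsionOrder K : ℂ) ≠ 0 := by exact_mod_cast torsionOrder_ne_zero K
  have hcc : (c : ℂ) ≠ 0 := by exact_mod_cast hc0.ne'
  have hZ : Zf K (s - Complex.I * t0) ≠ 0 := by
    refine Zf_ne K ?_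
    have e1 : (s - Complex.I * t0).im = s.im - t0 := by simp
    rw [e1]
    exact ht.le
  field_simp

/-- the abstract main theorem -/
theorem main_absU (K : Type) [Field K] [NumberField K] (B : ℝ) (Ct : ℕ → ℝ) (hCt : ∀ N, 0 ≤ Ct N) :
    ∃ C0 : ℝ, 0 < C0 ∧ ∀ (m : Ideal (𝓞 K)) (θ : Par (InfinitePlace K)) (χ : Ideal (𝓞 K) →* ℂ)
    (Q k : ℝ), m ≠ ⊤ → (∀ I, ¬ IsCoprime I m → χ I = 0) → (∀ I, IsCoprime I m → ‖χ I‖ = 1) →
    (∀ C : ClassGroup (𝓞 K), ∃ (I : Ideal (𝓞 K)) (hI : I ≠ ⊥), IsCoprime I m ∧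
      ClassGroup.mk0 ⟨I, nzd hI⟩ = C⁻¹ ∧ ∃ (b : Basis (Fin (dg K)) ℤ I)
      (G : (Fin (dg K) → ℤ) → ℂ), SetU B Ct Q k I b G ∧
      ∀ z, χ (Ideal.span {el b z}) = 1 * G z * infK θ (el b z : K)) →
    ∃ L : ℂ → ℂ, Differentiable ℂ L ∧
    (∀ s : ℂ, 1 < s.re →
      HasSum (fun I : Ideal (𝓞 K) => χ I * (Ideal.absNorm I : ℂ) ^ (-s)) (L s)) ∧
    ∀ t : ℝ, ‖L (1 / 2 + t * Complex.I)‖ ≤ C0 * (Tp θ * (1 + |t|)) ^ (3 * dg K + 1) *
        (√k * (Real.log Q + 1) + 1) := by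
  haveI : Nonempty (Fin (dg K)) := ⟨0⟩
  obtain ⟨c, hc0, hc⟩ := UU_int K
  obtain ⟨C0, hC00, hC0⟩ := LamT_bdU K B Ct hCt
  have hwc : 0 < (torsionOrder K : ℝ) * c := by
    have : (0 : ℝ) < torsionOrder K := by exact_mod_cast torsionOrder_pos K
    positivity
  have hcard : (0 : ℝ) < Fintype.card (ClassGroup (𝓞 K)) := by
    exact_mod_cast Fintype.card_pos
  have hZ0 : Zf K (1 / 2) ≠ 0 := Zf_ne K (by norm_num)
  have hZn : 0 < ‖Zf K (1 / 2)‖ := norm_pos_iff.2 hZ0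
  set A0 : ℝ := (1 + 2 * Fintype.card (InfinitePlace K)) ^ (3 * dg K + 1) with hA0
  have hA00 : 0 < A0 := by positivity
  refine ⟨Fintype.card (ClassGroup (𝓞 K)) * (((torsionOrder K : ℝ) * c)⁻¹ *
    ‖Zf K (1 / 2)‖⁻¹ * (C0 * A0)), by positivity, fun m θ χ Q k hm hχz hχnn hdata => ?_⟩
  choose I hI hco hC b G hS hrel using hdata
  have hχn : ∀ C, ‖χ (I C)‖ = 1 := fun C => hχnn _ (hco C)
  have hχ0 : ∀ C, χ (I C) ≠ 0 := by
    intro C h1
    have := hχn C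
    rw [h1, norm_zero] at this
    exact zero_ne_one this
  have hbot : χ ⊥ = 0 := by
    refine hχz _ fun h1 => ?_
    rw [Ideal.isCoprime_iff_sup_eq, bot_sup_eq] at h1
    exact hm h1
  set Lt : ℝ → ℂ → ℂ := fun t0 s => ∑ C : ClassGroup (𝓞 K), ((χ (I C))⁻¹ *
    (Ideal.absNorm (I C) : ℂ) ^ s * (((torsionOrder K : ℂ) * c)⁻¹ *
      (Zf K (s - Complex.I * t0))⁻¹ * ((1 : ℂ) * LamT θ.2 (ThW (b C) (shp θ t0) (G C)) s))) with hLt
  have hd : ∀ t0, DifferentiableOn ℂ (Lt t0) {s | |s.im - t0| < 1} := by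
    intro t0
    rw [hLt]
    beta_reduce
    refine DifferentiableOn.fun_sum fun C _ => ?_
    have h1 := ((hS C).td (shp θ t0)).diff θ.2
    have h2 : DifferentiableOn ℂ (fun s => (Zf K (s - Complex.I * t0))⁻¹) {s | |s.im - t0| < 1} := by
      refine DifferentiableOn.inv ?_ fun s hs => ?_
      · exact ((Zf_diff K).comp (by fun_prop :
          Differentiable ℂ fun s : ℂ => s - Complex.I * t0)).differentiableOn
      · refine Zf_ne K ?_
        have e1 : (s - Complex.I * t0).im = s.im - t0 := by simp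
        rw [e1]
        exact le_of_lt hs
    have h3 : Differentiable ℂ fun s : ℂ => (Ideal.absNorm (I C) : ℂ) ^ s := by
      refine Differentiable.const_cpow differentiable_id (Or.inl ?_)
      have := absNorm_pos' (hI C)
      exact_mod_cast this.ne'
    refine DifferentiableOn.mul ((h3.differentiableOn).const_mul _) ?_
    refine DifferentiableOn.mul (h2.const_mul _) ?_
    exact (h1.differentiableOn).const_mul _
  have hsum : ∀ t0 s, 1 < s.re → |s.im - t0| < 1 →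
      HasSum (fun I : Ideal (𝓞 K) => χ I * (Ideal.absNorm I : ℂ) ^ (-s)) (Lt t0 s) := by
    intro t0 s hs ht
    refine all_hasSum (f := fun J : Ideal (𝓞 K) => χ J * (Ideal.absNorm J : ℂ) ^ (-s)) ?_
      fun C => ?_
    · rw [hbot, zero_mul]
    · exact class_LGU (hS C) (hrel C) (hχ0 C) hc0 hc (hI C) (hC C) hs ht
  obtain ⟨L, hL1, hL2, hL3⟩ := glue hd
    (g := fun s => ∑' I : Ideal (𝓞 K), χ I * (Ideal.absNorm I : ℂ) ^ (-s))
    (fun t0 s hs ht => ((hsum t0 s hs ht).tsum_eq).symm)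
  refine ⟨L, hL1, fun s hs => ?_, fun t => ?_⟩
  · rw [hL3 s.im s (by simp)]
    exact hsum s.im s hs (by simp)
  · set s : ℂ := 1 / 2 + t * Complex.I with hs
    have hsi : s.im = t := by simp [hs]
    have hre : s.re = 1 / 2 := by simp [hs]
    rw [hL3 t s (by rw [hsi]; simp)]
    have hsub : s - Complex.I * t = 1 / 2 := by rw [hs]; ring
    rw [hLt]
    beta_reduce
    refine (norm_sum_le _ _).trans ?_
    have hT1 := Tp_one θ
    have h1 : ∀ C : ClassGroup (𝓞 K), ‖(χ (I C))⁻¹ * (Ideal.absNorm (I C) : ℂ) ^ s *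
        (((torsionOrder K : ℂ) * c)⁻¹ * (Zf K (s - Complex.I * t))⁻¹ *
        ((1 : ℂ) * LamT θ.2 (ThW (b C) (shp θ t) (G C)) s))‖ ≤
        ((torsionOrder K : ℝ) * c)⁻¹ * ‖Zf K (1 / 2)‖⁻¹ * (C0 * A0) *
        ((Tp θ * (1 + |t|)) ^ (3 * dg K + 1) * (√k * (Real.log Q + 1) + 1)) := by
      intro C
      have hlQ : 0 ≤ Real.log Q := Real.log_nonneg (hS C).Q1
      have h2 := hC0 Q k (I C) (b C) (G C) (shp θ t) θ.2 s (hS C) hre
      have hI0 := absNorm_pos' (hI C)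
      have e1 : ‖(Ideal.absNorm (I C) : ℂ) ^ s‖ = √(Ideal.absNorm (I C)) := by
        have e2 : ((Ideal.absNorm (I C) : ℕ) : ℂ) = (((Ideal.absNorm (I C) : ℕ) : ℝ) : ℂ) := by
          push_cast; rfl
        rw [e2, Complex.norm_cpow_eq_rpow_re_of_pos hI0, hre, Real.sqrt_eq_rpow]
      have e3 : ‖((torsionOrder K : ℂ) * c)⁻¹‖ = ((torsionOrder K : ℝ) * c)⁻¹ := by
        rw [norm_inv]
        congr 1
        have : ((torsionOrder K : ℂ) * c) = (((torsionOrder K : ℝ) * c : ℝ) : ℂ) := by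
          push_cast; rfl
        rw [this, Complex.norm_real, Real.norm_of_nonneg hwc.le]
      rw [norm_mul, norm_mul, norm_inv, hχn, inv_one, one_mul, norm_mul, norm_mul, one_mul, e1, e3,
        hsub, norm_inv]
      set Λ := ‖LamT θ.2 (ThW (b C) (shp θ t) (G C)) s‖ with hΛ
      have hΛ0 : 0 ≤ Λ := norm_nonneg _
      have hTs : Tp (shp θ t) ^ (3 * dg K + 1) ≤ A0 * (Tp θ * (1 + |t|)) ^ (3 * dg K + 1) := by
        rw [hA0, ← mul_pow]
        have h5 := Tp_one (shp θ t)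
        exact pow_le_pow_left₀ (by linarith) (Tp_shp θ t) _
      have hYY : 0 ≤ √k * (Real.log Q + 1) + 1 := by positivity
      calc √(Ideal.absNorm (I C)) * (((torsionOrder K : ℝ) * c)⁻¹ * ‖Zf K (1 / 2)‖⁻¹ * Λ) =
            ((torsionOrder K : ℝ) * c)⁻¹ * ‖Zf K (1 / 2)‖⁻¹ * (√(Ideal.absNorm (I C)) * Λ) := by ring
        _ ≤ ((torsionOrder K : ℝ) * c)⁻¹ * ‖Zf K (1 / 2)‖⁻¹ * (C0 * (A0 *
            (Tp θ * (1 + |t|)) ^ (3 * dg K + 1)) * (√k * (Real.log Q + 1) + 1)) := by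
            refine mul_le_mul_of_nonneg_left (h2.trans ?_) (by positivity)
            refine mul_le_mul_of_nonneg_right ?_ hYY
            exact mul_le_mul_of_nonneg_left hTs hC00.le
        _ = _ := by ring
    refine (sum_le_sum fun C _ => h1 C).trans ?_
    rw [sum_const, card_univ, nsmul_eq_mul]
    exact le_of_eq (by ring)

end Pool.Agent.T2H29.SW
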