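import Pool.Agent.T2H29.SW.U15
import Pool.Agent.T2H29.SW.B13

/-!
# The bound of Burgess quality for moduli with a cube-free factor
-/

set_option autoImplicit false
set_option linter.unusedSectionVars false

namespace Pool.Agent.T2H29.SW

open Finset NumberField NumberField.InfinitePlace Module
open scoped nonZeroDivisors

/-- the core bound of Burgess quality -/
def CoreB (K : Type) [Field K] [NumberField K] (C : ℝ) : Prop :=
    ∀ (f m I : Ideal (𝓞 K)) (F : 𝓞 K → ℂ) (b : Basis (Fin (dg K)) ℤ I) (x : LS K)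
    (ξ : EK K) (T : ℝ), f ≠ ⊥ → m ≠ ⊥ → IsCoprime f m →
    (∀ P : Ideal (𝓞 K), Prime P → ¬ P ^ 3 ∣ m) → I ≠ ⊥ → IsCoprime I (f * m) → PM (f * m) F →
    1 ≤ T → (∀ J : Ideal (𝓞 K), J ≠ ⊥ → (Ideal.absNorm J : ℝ) ≤ Ideal.absNorm (f * m) →
      (tau J : ℝ) ≤ T) →
    ‖GS (AX b x) 0 (fun z => ee ((AX b x).transpose.mulVec ξ.ofLp) z * F (el b z))‖ ^ 2 ≤
      C * ((tau (f * m) : ℝ) ^ (dg K + 6) * T *
        √(Ideal.absNorm (f * m) / √(√(Ideal.absNorm m)))) *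
      (1 + mm I x.2 + mm I x.2 ^ 2 / Ideal.absNorm (f * m)) * ((1 + ‖ξ‖) ^ (dg K + 1)) ^ 2

variable {K : Type} [Field K] [NumberField K]

/-- the data of a class -/
theorem dataU {B : ℝ} (hB : CBI K B) {Ct : ℕ → ℝ} (hCt0 : ∀ N, 0 < Ct N)
    (hCt : ∀ N, TailP K N (Ct N)) {C1 : ℝ} (hC10 : 0 < C1) (hC1 : CoreB K C1)
    {f m : Ideal (𝓞 K)} (hne : f * m ≠ ⊥) (htop : f * m ≠ ⊤)
    (hcf : ∀ P : Ideal (𝓞 K), Prime P → ¬ P ^ 3 ∣ m)
    (hfc : IsCoprime f m) {T : ℝ} (hT1 : 1 ≤ T) (hT : ∀ J : Ideal (𝓞 K), J ≠ ⊥ →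
      (Ideal.absNorm J : ℝ) ≤ Ideal.absNorm (f * m) → (tau J : ℝ) ≤ T)
    {θ : Par (InfinitePlace K)}
    {χ : Ideal (𝓞 K) →* ℂ} (h : HeckeM (f * m) θ χ) (C : ClassGroup (𝓞 K)) :
    ∃ (I : Ideal (𝓞 K)) (hI : I ≠ ⊥), IsCoprime I (f * m) ∧
      ClassGroup.mk0 ⟨I, nzd hI⟩ = C⁻¹ ∧ ∃ (b : Basis (Fin (dg K)) ℤ I)
      (G : (Fin (dg K) → ℤ) → ℂ), SetU B Ct (Ideal.absNorm (f * m))
        (C1 * ((tau (f * m) : ℝ) ^ (dg K + 6) * T *
        √(Ideal.absNorm (f * m) / √(√(Ideal.absNorm m))))) I b G ∧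
      ∀ z, χ (Ideal.span {el b z}) = 1 * G z * infK θ (el b z : K) := by
  have hf0 : f ≠ ⊥ := (ne_bot_mul hne).1
  have hm0 : m ≠ ⊥ := (ne_bot_mul hne).2
  set F := FF (f * m) θ χ with hF
  have hFm : PM (f * m) F := FF_PM htop h
  -- the representative
  obtain ⟨I, hI, hcoI, hCl⟩ := exists_rep2 hne htop C⁻¹
  obtain ⟨b⟩ := exists_bas I hI
  have hQ1 : (1 : ℝ) ≤ Ideal.absNorm (f * m) := by exact_mod_cast nrm_pos hne
  refine ⟨I, hI, hcoI, hCl, b, fun z => F (el b z), ⟨hI, hB I hI b, fun z => hFm.le_one _, ?_, hQ1,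
    by positivity, fun N => (hCt0 N).le, fun x ξ => ?_, fun N x hx ξ => ?_⟩, fun z => ?_⟩
  · beta_reduce
    rw [el_zero]
    refine hFm.zero _ fun h1 => ?_
    rw [Ideal.isCoprime_iff_sup_eq] at h1
    apply htop
    simpa using h1
  · exact hC1 f m I F b x ξ T hf0 hm0 hfc hcf hI hcoI hFm hT1 hT
  · exact hCt N I (f * m) b F x hI hne htop hcoI hFm hx ξ
  · rw [FF_rel htop h, one_mul]

/-- the theorem -/
theorem U_thm (K : Type) [Field K] [NumberField K] (ε : ℝ) (hε : 0 < ε) : ∃ C : ℝ, 0 < C ∧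
    ∀ (f m : Ideal (𝓞 K)) (θ : Par (InfinitePlace K)) (χ : Ideal (𝓞 K) →* ℂ),
    f * m ≠ ⊥ → f * m ≠ ⊤ → (∀ P : Ideal (𝓞 K), Prime P → ¬ P ^ 3 ∣ m) → IsCoprime f m →
    HeckeM (f * m) θ χ →
    ∃ L : ℂ → ℂ, Differentiable ℂ L ∧
    (∀ s : ℂ, 1 < s.re →
      HasSum (fun I : Ideal (𝓞 K) => χ I * (Ideal.absNorm I : ℂ) ^ (-s)) (L s)) ∧
    ∀ t : ℝ, ‖L (1 / 2 + t * Complex.I)‖ ≤ C * (Tp θ * (1 + |t|)) ^ (3 * dg K + 1) *
        (Ideal.absNorm (f * m) : ℝ) ^ ε *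
        ((Ideal.absNorm f : ℝ) ^ (1 / 4 : ℝ) * (Ideal.absNorm m : ℝ) ^ (3 / 16 : ℝ)) := by
  obtain ⟨B, hB1, hB⟩ := exists_CBI K
  choose Ct hCt0 hCt using fun N => tailI (K := K) (B := B) hB N
  obtain ⟨C1, hC10, hC1⟩ := coreU (K := K) hB1 hB
  obtain ⟨C0, hC00, hC0⟩ := main_absU K B Ct (fun N => (hCt0 N).le)
  set δ : ℝ := ε / (dg K + 7) with hδ
  have hn7 : (0 : ℝ) < dg K + 7 := by positivity
  have hδ0 : 0 < δ := by positivity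
  obtain ⟨C2, hC21, hC2⟩ := tau_bound K hδ0
  set C3 : ℝ := 1 / (ε / 2) + 1 with hC3
  have hC31 : 1 ≤ C3 := by
    have : 0 ≤ 1 / (ε / 2) := by positivity
    linarith
  set C4 : ℝ := √(C1 * C2 ^ (dg K + 7)) + 1 with hC4
  have hC41 : 1 ≤ C4 := by
    have := Real.sqrt_nonneg (C1 * C2 ^ (dg K + 7))
    linarith
  refine ⟨C0 * (2 * (C4 * C3)), by positivity, fun f m θ χ hne htop hcf hfc h => ?_⟩
  have hf0 : f ≠ ⊥ := (ne_bot_mul hne).1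
  have hm0 : m ≠ ⊥ := (ne_bot_mul hne).2
  have hQ1 : (1 : ℝ) ≤ Ideal.absNorm (f * m) := by exact_mod_cast nrm_pos hne
  have hNf1 : (1 : ℝ) ≤ Ideal.absNorm f := by exact_mod_cast nrm_pos hf0
  have hNm1 : (1 : ℝ) ≤ Ideal.absNorm m := by exact_mod_cast nrm_pos hm0
  have hQe : ((Ideal.absNorm (f * m) : ℕ) : ℝ) = Ideal.absNorm f * Ideal.absNorm m := by
    rw [map_mul]; push_cast; rfl
  set T : ℝ := C2 * (Ideal.absNorm (f * m) : ℝ) ^ δ with hT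
  have hQδ : 1 ≤ (Ideal.absNorm (f * m) : ℝ) ^ δ := Real.one_le_rpow hQ1 hδ0.le
  have hT1 : 1 ≤ T := one_le_mul_of_one_le_of_one_le hC21 hQδ
  have hTJ : ∀ J : Ideal (𝓞 K), J ≠ ⊥ →
      (Ideal.absNorm J : ℝ) ≤ Ideal.absNorm (f * m) → (tau J : ℝ) ≤ T := by
    intro J hJ hJ2
    refine (hC2 J hJ).trans ?_
    refine mul_le_mul_of_nonneg_left ?_ (by linarith)
    exact Real.rpow_le_rpow (by positivity) hJ2 hδ0.le
  obtain ⟨L, hL1, hL2, hL3⟩ := hC0 (f * m) θ χ _ _ htop h.zero h.norm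
    (dataU hB hCt0 hCt hC10 hC1 hne htop hcf hfc hT1 hTJ h)
  refine ⟨L, hL1, hL2, fun t => (hL3 t).trans ?_⟩
  have hT1' := Tp_one θ
  set Q : ℝ := ((Ideal.absNorm (f * m) : ℕ) : ℝ) with hQ
  set Nf : ℝ := ((Ideal.absNorm f : ℕ) : ℝ) with hNf
  set Nm : ℝ := ((Ideal.absNorm m : ℕ) : ℝ) with hNm
  have hQ0 : 0 < Q := by linarith
  have hlQ : 0 ≤ Real.log Q := Real.log_nonneg hQ1
  have hW : (tau (f * m) : ℝ) ^ (dg K + 6) * T ≤ C2 ^ (dg K + 7) * Q ^ ε := by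
    have h1 := hC2 (f * m) hne
    rw [← hQ] at h1
    have h2 : (tau (f * m) : ℝ) ^ (dg K + 6) ≤ (C2 * Q ^ δ) ^ (dg K + 6) :=
      pow_le_pow_left₀ (Nat.cast_nonneg _) h1 _
    calc (tau (f * m) : ℝ) ^ (dg K + 6) * T ≤ (C2 * Q ^ δ) ^ (dg K + 6) * (C2 * Q ^ δ) :=
          mul_le_mul_of_nonneg_right h2 (by positivity)
      _ = C2 ^ (dg K + 7) * (Q ^ δ) ^ (dg K + 7) := by ring
      _ = C2 ^ (dg K + 7) * Q ^ ε := by
          rw [← Real.rpow_natCast (Q ^ δ), ← Real.rpow_mul hQ0.le]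
          congr 2
          rw [hδ]
          push_cast
          field_simp
  set Y : ℝ := Nf ^ (1 / 4 : ℝ) * Nm ^ (3 / 16 : ℝ) with hY
  have hY1 : 1 ≤ Y := one_le_mul_of_one_le_of_one_le (Real.one_le_rpow hNf1 (by norm_num))
    (Real.one_le_rpow hNm1 (by norm_num))
  have hNf0 : 0 < Nf := by linarith
  have hNm0 : 0 < Nm := by linarith
  have hsq : √(√(Q / √(√Nm))) = Y := by
    have e1 : √(√Nm) = Nm ^ (1 / 4 : ℝ) := by
      rw [Real.sqrt_eq_rpow, Real.sqrt_eq_rpow, ← Real.rpow_mul hNm0.le]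
      norm_num
    have e2 : Q / √(√Nm) = Nf * Nm ^ (3 / 4 : ℝ) := by
      rw [e1, hQe, mul_div_assoc]
      congr 1
      rw [div_eq_iff (by positivity), ← Real.rpow_add hNm0]
      norm_num
    rw [e2, Real.sqrt_eq_rpow, Real.sqrt_eq_rpow, ← Real.rpow_mul (by positivity),
      Real.mul_rpow hNf0.le (by positivity), ← Real.rpow_mul hNm0.le, hY]
    norm_num
  have hk : √(C1 * ((tau (f * m) : ℝ) ^ (dg K + 6) * T * √(Q / √(√Nm)))) ≤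
      C4 * (Q ^ (ε / 2) * Y) := by
    have h1 : C1 * ((tau (f * m) : ℝ) ^ (dg K + 6) * T * √(Q / √(√Nm))) ≤
        (C1 * C2 ^ (dg K + 7)) * (Q ^ ε * √(Q / √(√Nm))) := by
      calc _ ≤ C1 * ((C2 ^ (dg K + 7) * Q ^ ε) * √(Q / √(√Nm))) :=
            mul_le_mul_of_nonneg_left (mul_le_mul_of_nonneg_right hW (Real.sqrt_nonneg _)) hC10.le
        _ = _ := by ring
    refine (Real.sqrt_le_sqrt h1).trans ?_
    rw [Real.sqrt_mul (show 0 ≤ C1 * C2 ^ (dg K + 7) by positivity),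
      Real.sqrt_mul (show 0 ≤ Q ^ ε by positivity), hsq]
    have h2 : √(Q ^ ε) = Q ^ (ε / 2) := by
      rw [Real.sqrt_eq_rpow, ← Real.rpow_mul hQ0.le]
      congr 1
      ring
    rw [h2]
    refine mul_le_mul_of_nonneg_right ?_ (by positivity)
    rw [hC4]
    linarith
  have hl : Real.log Q + 1 ≤ C3 * Q ^ (ε / 2) := by
    have h3 := y_le_exp hlQ (half_pos hε)
    have e1 : Real.exp (ε / 2 * Real.log Q) = Q ^ (ε / 2) := by
      rw [Real.rpow_def_of_pos hQ0, mul_comm]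
    rw [e1] at h3
    exact h3
  have h3 : Q ^ (ε / 2) * Q ^ (ε / 2) = Q ^ ε := by
    rw [← Real.rpow_add hQ0]
    congr 1
    ring
  have hQε : 1 ≤ Q ^ ε := Real.one_le_rpow hQ1 hε.le
  have h4 : √(C1 * ((tau (f * m) : ℝ) ^ (dg K + 6) * T * √(Q / √(√Nm)))) * (Real.log Q + 1) ≤
      C4 * C3 * (Q ^ ε * Y) := by
    calc _ ≤ (C4 * (Q ^ (ε / 2) * Y)) * (C3 * Q ^ (ε / 2)) :=
          mul_le_mul hk hl (by positivity) (by positivity)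
      _ = C4 * C3 * ((Q ^ (ε / 2) * Q ^ (ε / 2)) * Y) := by ring
      _ = _ := by rw [h3]
  have h5 : (1 : ℝ) ≤ C4 * C3 * (Q ^ ε * Y) :=
    one_le_mul_of_one_le_of_one_le (one_le_mul_of_one_le_of_one_le hC41 hC31)
      (one_le_mul_of_one_le_of_one_le hQε hY1)
  calc C0 * (Tp θ * (1 + |t|)) ^ (3 * dg K + 1) *
        (√(C1 * ((tau (f * m) : ℝ) ^ (dg K + 6) * T * √(Q / √(√Nm)))) * (Real.log Q + 1) + 1) ≤
      C0 * (Tp θ * (1 + |t|)) ^ (3 * dg K + 1) * (2 * (C4 * C3 * (Q ^ ε * Y))) := by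
        refine mul_le_mul_of_nonneg_left ?_ (by positivity)
        linarith
    _ = _ := by ring

end Pool.Agent.T2H29.SW
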