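import Pool.Agent.T2H29.SW.U1

/-!
# Complete sums with four factors: cube-free moduli
-/

set_option autoImplicit false
set_option linter.unusedSectionVars false

namespace Pool.Agent.T2H29.SW

open Finset NumberField NumberField.InfinitePlace Module

variable {K : Type} [Field K] [NumberField K]

/-- the stationary equation -/
def QQ (b1 b2 b3 b4 y : 𝓞 K) : 𝓞 K := (2 * y + b1 + b2) * ((y + b3) * (y + b4)) -
      (2 * y + b3 + b4) * ((y + b1) * (y + b2))

lemma cop_sq {P : Ideal (𝓞 K)} (hP : Prime P) {α : 𝓞 K} :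
    IsCoprime (Ideal.span {α}) (P ^ 2) ↔ α ∉ P := by
  have hPp : P.IsPrime := Ideal.isPrime_of_prime hP
  rw [← not_iff_not, not_not, not_cop]
  constructor
  · rintro ⟨P', hP', h1, h2⟩
    have h3 : P ≤ P' := Ideal.IsPrime.le_of_pow_le h2
    have h4 : P = P' := (hPp.isMaximal hP.ne_zero).eq_of_le hP'.ne_top h3
    rw [h4]; exact h1
  · intro h
    exact ⟨P, hPp, h, Ideal.pow_le_self two_ne_zero⟩

/-- a stationary point solves the stationary equation -/
lemma stat_sq {P : Ideal (𝓞 K)} (hP : Prime P) {F : 𝓞 K → ℂ} (hF : PM (P ^ 2) F)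
    {b1 b2 b3 b4 y : 𝓞 K} (h1 : y + b1 ∉ P) (h2 : y + b2 ∉ P) (h3 : y + b3 ∉ P) (h4 : y + b4 ∉ P)
    (hst : ∀ z ∈ P, PF F b1 b2 b3 b4 (y + z) = PF F b1 b2 b3 b4 y) : QQ b1 b2 b3 b4 y ∈ P := by
  have hPp : P.IsPrime := Ideal.isPrime_of_prime hP
  have hn : ∀ α : 𝓞 K, α ∉ P → ‖F α‖ = 1 := fun α hα => hF.norm _ ((cop_sq hP).2 hα)
  have hmul : ∀ α β : 𝓞 K, α ∉ P → β ∉ P → α * β ∉ P := fun α β hα hβ h =>
    (hPp.mem_or_mem h).elim hα hβ
  have hadd : ∀ α z : 𝓞 K, α ∉ P → z ∈ P → α + z ∉ P := fun α z hα hz h =>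
    hα (by simpa using sub_mem h hz)
  set p1 := y + b1 with hp1
  set p2 := y + b2 with hp2
  set p3 := y + b3 with hp3
  set p4 := y + b4 with hp4
  set D := p1 * p2 * (p3 * p4) with hD
  have hDP : D ∉ P := hmul _ _ (hmul _ _ h1 h2) (hmul _ _ h3 h4)
  have key : ∀ z ∈ P, F (1 + z * QQ b1 b2 b3 b4 y) = 1 := by
    intro z hz
    set w := D * z with hw
    have hwP : w ∈ P := Ideal.mul_mem_left _ _ hz
    have h5 := hst w hwP
    unfold PF at h5
    have e1 : F (y + w + b1) * F (y + w + b2) * ((starRingEnd ℂ) (F (y + w + b3)) *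
        (starRingEnd ℂ) (F (y + w + b4))) = F ((p1 + w) * (p2 + w)) *
        (starRingEnd ℂ) (F ((p3 + w) * (p4 + w))) := by
      have a1 : y + w + b1 = p1 + w := by rw [hp1]; ring
      have a2 : y + w + b2 = p2 + w := by rw [hp2]; ring
      have a3 : y + w + b3 = p3 + w := by rw [hp3]; ring
      have a4 : y + w + b4 = p4 + w := by rw [hp4]; ring
      rw [hF.mul, hF.mul, map_mul, a1, a2, a3, a4]
    have e2 : F (y + b1) * F (y + b2) * ((starRingEnd ℂ) (F (y + b3)) *
        (starRingEnd ℂ) (F (y + b4))) = F (p1 * p2) * (starRingEnd ℂ) (F (p3 * p4)) := by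
      rw [hF.mul, hF.mul, map_mul]
    rw [e1, e2, ← conj_rel (hn _ (hmul _ _ (hadd _ _ h3 hwP) (hadd _ _ h4 hwP)))
      (hn _ (hmul _ _ h3 h4)), ← hF.mul, ← hF.mul] at h5
    have hsq : ∀ u v c : 𝓞 K, u ∈ P → v ∈ P → c * (u * v) ∈ P ^ 2 := by
      intro u v c hu hv
      rw [pow_two]
      exact Ideal.mul_mem_left _ _ (Ideal.mul_mem_mul hu hv)
    have h6 : F ((p1 + w) * (p2 + w) * (p3 * p4)) = F (D * (1 + z * ((p1 + p2) * (p3 * p4)))) := by
      refine hF.per _ _ ?_
      have e3 : (p1 + w) * (p2 + w) * (p3 * p4) - D * (1 + z * ((p1 + p2) * (p3 * p4))) =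
          (p3 * p4) * (w * w) := by rw [hw, hD]; ring
      rw [e3]
      exact hsq _ _ _ hwP hwP
    have h7 : F (p1 * p2 * ((p3 + w) * (p4 + w))) = F (D * (1 + z * ((p3 + p4) * (p1 * p2)))) := by
      refine hF.per _ _ ?_
      have e3 : p1 * p2 * ((p3 + w) * (p4 + w)) - D * (1 + z * ((p3 + p4) * (p1 * p2))) =
          (p1 * p2) * (w * w) := by rw [hw, hD]; ring
      rw [e3]
      exact hsq _ _ _ hwP hwP
    rw [h6, h7, hF.mul D, hF.mul D] at h5
    have hFD : F D ≠ 0 := by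
      intro h0
      have := hn D hDP
      rw [h0, norm_zero] at this
      exact zero_ne_one this
    have h8 := mul_left_cancel₀ hFD h5
    have h9 : F (1 + z * ((p1 + p2) * (p3 * p4))) =
        F ((1 + z * ((p3 + p4) * (p1 * p2))) * (1 + z * QQ b1 b2 b3 b4 y)) := by
      refine hF.per _ _ ?_
      have e3 : 1 + z * ((p1 + p2) * (p3 * p4)) - (1 + z * ((p3 + p4) * (p1 * p2))) *
          (1 + z * QQ b1 b2 b3 b4 y) = -(((p3 + p4) * (p1 * p2)) * QQ b1 b2 b3 b4 y) * (z * z) := by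
        unfold QQ
        rw [hp1, hp2, hp3, hp4]
        ring
      rw [e3]
      exact hsq _ _ _ hz hz
    rw [h9, hF.mul] at h8
    have hFA : F (1 + z * ((p3 + p4) * (p1 * p2))) ≠ 0 := by
      intro h0
      have h10 : (1 : 𝓞 K) + z * ((p3 + p4) * (p1 * p2)) ∉ P := by
        refine hadd _ _ ?_ (Ideal.mul_mem_right _ _ hz)
        intro h
        exact hPp.ne_top ((Ideal.eq_top_iff_one P).2 h)
      have := hn _ h10
      rw [h0, norm_zero] at this
      exact zero_ne_one this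
    have h10 : F (1 + z * ((p3 + p4) * (p1 * p2))) * F (1 + z * QQ b1 b2 b3 b4 y) =
        F (1 + z * ((p3 + p4) * (p1 * p2))) * 1 := by rw [h8, mul_one]
    exact mul_left_cancel₀ hFA h10
  by_contra hQ
  have hlt : P ^ 2 < P := by
    have := Ideal.pow_succ_lt_pow hP.ne_zero 1
    simpa using this
  obtain ⟨α, hα1, hα2, hα3⟩ := hF.prim P hlt
  have hcQ : IsCoprime (Ideal.span {QQ b1 b2 b3 b4 y}) P := by
    by_contra hcon
    obtain ⟨P', hP', h5, h6⟩ := not_cop.1 hcon
    have h7 : P = P' := (hPp.isMaximal hP.ne_zero).eq_of_le hP'.ne_top h6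
    exact hQ (h7 ▸ h5)
  obtain ⟨γ, hγ⟩ := cop_inv hcQ
  apply hα3
  have h5 := key (γ * (α - 1)) (Ideal.mul_mem_left _ _ hα1)
  rw [← h5]
  refine hF.per _ _ ?_
  have e1 : α - (1 + γ * (α - 1) * QQ b1 b2 b3 b4 y) =
      -((α - 1) * (QQ b1 b2 b3 b4 y * γ - 1)) := by ring
  rw [e1, pow_two]
  exact neg_mem (Ideal.mul_mem_mul hα1 hγ)

/-- squares of primes -/
theorem four_sq {P : Ideal (𝓞 K)} (hP : Prime P) [Fintype (𝓞 K ⧸ P ^ 2)] {F : 𝓞 K → ℂ}
    (hF : PM (P ^ 2) F) {b1 b2 b3 b4 : 𝓞 K} (h2 : b1 - b2 ∉ P) (h3 : b1 - b3 ∉ P)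
    (h4 : b1 - b4 ∉ P) : ‖sQ (P ^ 2) (PF F b1 b2 b3 b4)‖ ≤ 2 * Ideal.absNorm P := by
  classical
  have hP0 : P ≠ ⊥ := hP.ne_zero
  haveI hPp : P.IsPrime := Ideal.isPrime_of_prime hP
  haveI hPm : P.IsMaximal := hPp.isMaximal hP0
  letI : Field (𝓞 K ⧸ P) := Ideal.Quotient.field P
  haveI : Finite (𝓞 K ⧸ P) := Ideal.finiteQuotientOfFreeOfNeBot P hP0
  haveI : Fintype (𝓞 K ⧸ P) := Fintype.ofFinite _
  have hP20 : P ^ 2 ≠ ⊥ := pow_ne_zero 2 hP0
  have hle : P ^ 2 ≤ P := Ideal.pow_le_self two_ne_zero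
  set g : 𝓞 K → ℂ := PF F b1 b2 b3 b4 with hg
  have hgp : PerO (P ^ 2) g := PF_per (fun x y hxy => hF.per x y hxy) _ _ _ _
  have hg1 : ∀ x, ‖g x‖ ≤ 1 := PF_le hF _ _ _ _
  -- vanishing
  have hz0 : ∀ y, (y + b1 ∈ P ∨ y + b2 ∈ P ∨ y + b3 ∈ P ∨ y + b4 ∈ P) → g y = 0 := by
    intro y hy
    have h0 : ∀ b, y + b ∈ P → F (y + b) = 0 := fun b hb =>
      hF.zero _ fun h => (cop_sq hP).1 h hb
    simp only [hg]
    unfold PF
    rcases hy with h | h | h | h
    · rw [h0 _ h]; ring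
    · rw [h0 _ h]; ring
    · rw [h0 _ h, map_zero]; ring
    · rw [h0 _ h, map_zero]; ring
  have hmul : ∀ y z z', z ∈ P → z' ∈ P → g (y + z + z') * g y = g (y + z) * g (y + z') := by
    intro y z z' hz hz'
    have h0 : ∀ b, F (y + z + z' + b) * F (y + b) = F (y + z + b) * F (y + z' + b) := by
      intro b
      rw [← hF.mul, ← hF.mul]
      refine hF.per _ _ ?_
      have e1 : (y + z + z' + b) * (y + b) - (y + z + b) * (y + z' + b) = -(z * z') := by ring
      rw [e1, pow_two]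
      exact neg_mem (Ideal.mul_mem_mul hz hz')
    have h0' : ∀ b, (starRingEnd ℂ) (F (y + z + z' + b)) * (starRingEnd ℂ) (F (y + b)) =
        (starRingEnd ℂ) (F (y + z + b)) * (starRingEnd ℂ) (F (y + z' + b)) := by
      intro b
      rw [← map_mul, ← map_mul, h0]
    simp only [hg]
    unfold PF
    calc _ = (F (y + z + z' + b1) * F (y + b1)) * (F (y + z + z' + b2) * F (y + b2)) *
          (((starRingEnd ℂ) (F (y + z + z' + b3)) * (starRingEnd ℂ) (F (y + b3))) *
          ((starRingEnd ℂ) (F (y + z + z' + b4)) * (starRingEnd ℂ) (F (y + b4)))) := by ring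
      _ = _ := by
          rw [h0, h0, h0', h0']
          ring
  have hnz : ∀ y, ¬ (y + b1 ∈ P ∨ y + b2 ∈ P ∨ y + b3 ∈ P ∨ y + b4 ∈ P) → g y ≠ 0 := by
    intro y hy h
    push Not at hy
    have hn : ∀ α : 𝓞 K, α ∉ P → ‖F α‖ = 1 := fun α hα => hF.norm _ ((cop_sq hP).2 hα)
    have h5 : ‖g y‖ = 1 := by
      simp only [hg]
      unfold PF
      rw [norm_mul, norm_mul, norm_mul, RCLike.norm_conj, RCLike.norm_conj, hn _ hy.1, hn _ hy.2.1,
        hn _ hy.2.2.1, hn _ hy.2.2.2]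
      norm_num
    rw [h, norm_zero] at h5
    exact zero_ne_one h5
  -- averaging
  set ind : 𝓞 K → ℂ := fun z => if z ∈ P then 1 else 0 with hind
  set ns : ℝ := ∑ d : 𝓞 K ⧸ P ^ 2, ‖ind (Quotient.out d)‖ with hns
  have hns0 : 0 < ns := by
    have h1 : ‖ind (Quotient.out (0 : 𝓞 K ⧸ P ^ 2))‖ = 1 := by
      have h2 : Quotient.out (0 : 𝓞 K ⧸ P ^ 2) ∈ P := by
        have := out_sub (P ^ 2) 0
        rw [map_zero, sub_zero] at this
        exact hle this
      simp only [hind]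
      rw [if_pos h2, norm_one]
    have h3 := single_le_sum (f := fun d : 𝓞 K ⧸ P ^ 2 => ‖ind (Quotient.out d)‖)
      (fun d _ => norm_nonneg _) (mem_univ (0 : 𝓞 K ⧸ P ^ 2))
    rw [h1] at h3
    linarith
  have hnsc : ((ns : ℝ) : ℂ) = ∑ d : 𝓞 K ⧸ P ^ 2, ind (Quotient.out d) := by
    rw [hns]
    push_cast
    refine sum_congr rfl fun d _ => ?_
    simp only [hind]
    split_ifs <;> simp
  have e1 : (ns : ℂ) * sQ (P ^ 2) g = ∑ c : 𝓞 K ⧸ P ^ 2, ∑ d : 𝓞 K ⧸ P ^ 2, ind (Quotient.out d) *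
      g (Quotient.out c + Quotient.out d) := by
    rw [hnsc, sum_mul, sum_comm]
    refine sum_congr rfl fun d _ => ?_
    rw [← mul_sum]
    congr 1
    rw [← sQ_shift hgp (Quotient.out d)]
    rfl
  have hT : ∀ c : 𝓞 K ⧸ P ^ 2, ‖∑ d : 𝓞 K ⧸ P ^ 2, ind (Quotient.out d) *
      g (Quotient.out c + Quotient.out d)‖ ≤
      if QQ b1 b2 b3 b4 (Quotient.out c) ∈ P then ns else 0 := by
    intro c
    set x : 𝓞 K := Quotient.out c with hx
    by_cases hU : x + b1 ∈ P ∨ x + b2 ∈ P ∨ x + b3 ∈ P ∨ x + b4 ∈ P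
    · have h0 : ∑ d : 𝓞 K ⧸ P ^ 2, ind (Quotient.out d) * g (x + Quotient.out d) = 0 := by
        refine sum_eq_zero fun d _ => ?_
        simp only [hind]
        split_ifs with hd
        · have h5 : ∀ b, x + b ∈ P → x + Quotient.out d + b ∈ P := by
            intro b hb
            have : x + Quotient.out d + b = x + b + Quotient.out d := by ring
            rw [this]
            exact add_mem hb hd
          rw [hz0, mul_zero]
          rcases hU with h | h | h | h
          · exact Or.inl (h5 _ h)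
          · exact Or.inr (Or.inl (h5 _ h))
          · exact Or.inr (Or.inr (Or.inl (h5 _ h)))
          · exact Or.inr (Or.inr (Or.inr (h5 _ h)))
        · rw [zero_mul]
      rw [h0, norm_zero]
      split_ifs
      · exact hns0.le
      · exact le_rfl
    · by_cases hst : ∀ z ∈ P, g (x + z) = g x
      · have hU' := hU
        push Not at hU'
        rw [if_pos (stat_sq hP hF hU'.1 hU'.2.1 hU'.2.2.1 hU'.2.2.2 hst)]
        refine (norm_sum_le _ _).trans ?_
        rw [hns]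
        refine sum_le_sum fun d _ => ?_
        rw [norm_mul]
        exact mul_le_of_le_one_right (norm_nonneg _) (hg1 _)
      · push Not at hst
        obtain ⟨z0, hz0', hne⟩ := hst
        set ψ : 𝓞 K → ℂ := fun z => ind z * g (x + z) with hψ
        have hψp : PerO (P ^ 2) ψ := by
          intro z w hzw
          simp only [hψ, hind]
          have h2 : g (x + z) = g (x + w) := hgp _ _ (by simpa using hzw)
          rw [h2]
          have h3 : z ∈ P ↔ w ∈ P := by
            constructor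
            · intro h4
              have := sub_mem h4 (hle hzw)
              simpa using this
            · intro h4
              have := add_mem (hle hzw) h4
              simpa using this
          by_cases h4 : z ∈ P
          · rw [if_pos h4, if_pos (h3.1 h4)]
          · rw [if_neg h4, if_neg (fun h5 => h4 (h3.2 h5))]
        have h5 : ∀ z, ψ (z + z0) * g x = ψ z * g (x + z0) := by
          intro z
          simp only [hψ, hind]
          by_cases hz : z ∈ P
          · rw [if_pos hz, if_pos (add_mem hz hz0'), one_mul, one_mul, ← add_assoc]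
            exact hmul x z z0 hz hz0'
          · have h6 : z + z0 ∉ P := fun h7 => hz (by simpa using sub_mem h7 hz0')
            rw [if_neg hz, if_neg h6]
            ring
        have h6 := sQ_shift hψp z0
        have h7 : sQ (P ^ 2) ψ * g x = sQ (P ^ 2) ψ * g (x + z0) := by
          conv_lhs => rw [← h6]
          unfold sQ
          rw [sum_mul, sum_mul]
          exact sum_congr rfl fun d _ => h5 _
        have h8 : sQ (P ^ 2) ψ * (g x - g (x + z0)) = 0 := by rw [mul_sub, h7, sub_self]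
        have h9 : sQ (P ^ 2) ψ = 0 := by
          rcases mul_eq_zero.1 h8 with h10 | h10
          · exact h10
          · exact absurd (sub_eq_zero.1 h10).symm hne
        have h10 : ∑ d : 𝓞 K ⧸ P ^ 2, ind (Quotient.out d) * g (x + Quotient.out d) = 0 := h9
        rw [h10, norm_zero]
        split_ifs
        · exact hns0.le
        · exact le_rfl
  have h5 : ns * ‖sQ (P ^ 2) g‖ ≤ ns *
      ((univ.filter fun c : 𝓞 K ⧸ P ^ 2 => QQ b1 b2 b3 b4 (Quotient.out c) ∈ P).card : ℝ) := by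
    have e2 : ns * ‖sQ (P ^ 2) g‖ = ‖(ns : ℂ) * sQ (P ^ 2) g‖ := by
      rw [norm_mul, Complex.norm_real, Real.norm_of_nonneg hns0.le]
    rw [e2, e1]
    refine (norm_sum_le _ _).trans ((sum_le_sum fun c _ => hT c).trans ?_)
    rw [← sum_filter, sum_const, nsmul_eq_mul, mul_comm]
  refine (le_of_mul_le_mul_left h5 hns0).trans ?_
  -- the count
  set mk := Ideal.Quotient.mk P with hmk
  set RR : Finset (𝓞 K ⧸ P) := univ.filter fun y : 𝓞 K ⧸ P =>
    (2 * y + mk b1 + mk b2) * ((y + mk b3) * (y + mk b4)) -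
      (2 * y + mk b3 + mk b4) * ((y + mk b1) * (y + mk b2)) = 0 with hRR
  have hne : ∀ b : 𝓞 K, b1 - b ∉ P → mk b1 ≠ mk b := by
    intro b h h'
    exact h ((Ideal.Quotient.mk_eq_mk_iff_sub_mem _ _).1 h')
  have hRc : RR.card ≤ 2 := quad_roots (hne _ h2) (hne _ h3) (hne _ h4)
  have hsub : (univ.filter fun c : 𝓞 K ⧸ P ^ 2 => QQ b1 b2 b3 b4 (Quotient.out c) ∈ P) ⊆
      RR.biUnion fun y => univ.filter fun c : 𝓞 K ⧸ P ^ 2 => Quotient.out c - Quotient.out y ∈ P := by
    intro c hc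
    rw [mem_filter] at hc
    rw [mem_biUnion]
    refine ⟨mk (Quotient.out c), ?_, ?_⟩
    · rw [hRR, mem_filter]
      refine ⟨mem_univ _, ?_⟩
      have h6 := (Ideal.Quotient.eq_zero_iff_mem (I := P)).2 hc.2
      unfold QQ at h6
      simp only [map_sub, map_mul, map_add, map_ofNat] at h6
      exact h6
    · rw [mem_filter]
      refine ⟨mem_univ _, ?_⟩
      have := neg_mem (out_sub P (Quotient.out c : 𝓞 K))
      simpa using this
  have hfib : ∀ y ∈ RR, (univ.filter fun c : 𝓞 K ⧸ P ^ 2 =>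
      Quotient.out c - Quotient.out y ∈ P).card ≤ Ideal.absNorm P := by
    intro y _
    have h6 := cnt_le hP20 hP0 hle (Quotient.out y)
    have h7 : Ideal.absNorm (P ^ 2) = Ideal.absNorm P * Ideal.absNorm P := by
      rw [map_pow, pow_two]
    exact Nat.le_of_mul_le_mul_right (h6.trans (le_of_eq h7)) (nrm_pos hP0)
  have h6 : (univ.filter fun c : 𝓞 K ⧸ P ^ 2 => QQ b1 b2 b3 b4 (Quotient.out c) ∈ P).card ≤
      2 * Ideal.absNorm P := by
    refine (card_le_card hsub).trans (card_biUnion_le.trans ((sum_le_card_nsmul _ _ _ hfib).trans ?_))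
    rw [smul_eq_mul]
    exact Nat.mul_le_mul_right _ hRc
  exact_mod_cast h6

end Pool.Agent.T2H29.SW
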