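import Pool.Agent.T2H29.SW.U2

/-!
# Complete sums with four factors: all cube-free moduli
-/

set_option autoImplicit false
set_option linter.unusedSectionVars false

namespace Pool.Agent.T2H29.SW

open Finset NumberField NumberField.InfinitePlace Module

variable {K : Type} [Field K] [NumberField K]

lemma tau_cop_mul {x y : Ideal (𝓞 K)} (hx : x ≠ ⊥) (hy : y ≠ ⊥) (hc : IsCoprime x y) :
    tau x * tau y ≤ tau (x * y) := by
  classical
  have hxy : x * y ≠ ⊥ := mul_ne_zero hx hy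
  unfold tau
  rw [← card_product]
  refine card_le_card_of_injOn (fun p => p.1 * p.2) (fun p hp => ?_) ?_
  · rw [mem_coe, mem_product] at hp
    rw [mem_coe, mem_dvs hxy]
    exact mul_dvd_mul ((mem_dvs hx).1 hp.1) ((mem_dvs hy).1 hp.2)
  · rintro ⟨d1, d2⟩ h1 ⟨d1', d2'⟩ h2 heq
    rw [mem_coe, mem_product] at h1 h2
    have a1 := (mem_dvs hx).1 h1.1
    have a2 := (mem_dvs hy).1 h1.2
    have a1' := (mem_dvs hx).1 h2.1
    have a2' := (mem_dvs hy).1 h2.2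
    simp only at heq a1 a2 a1' a2'
    have c1 : IsCoprime d1 d2' := (hc.of_isCoprime_of_dvd_left a1).of_isCoprime_of_dvd_right a2'
    have c2 : IsCoprime d1' d2 := (hc.of_isCoprime_of_dvd_left a1').of_isCoprime_of_dvd_right a2
    have e1 : d1 ∣ d1' := c1.dvd_of_dvd_mul_right (heq ▸ dvd_mul_right d1 d2)
    have e2 : d1' ∣ d1 := c2.dvd_of_dvd_mul_right (heq.symm ▸ dvd_mul_right d1' d2')
    have e3 : d1 = d1' := le_antisymm (Ideal.le_of_dvd e2) (Ideal.le_of_dvd e1)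
    have hd1 : d1 ≠ 0 := ne_zero_of_dvd_ne_zero hx a1
    subst e3
    have e4 : d2 = d2' := mul_left_cancel₀ hd1 heq
    rw [e4]

/-- the bound -/
def PFB (m : Ideal (𝓞 K)) : Prop := ∀ (_ : Fintype (𝓞 K ⧸ m)) (F : 𝓞 K → ℂ)
    (b1 b2 b3 b4 : 𝓞 K), PM m F → ∃ g2 g3 g4, g2 ∣ m ∧ g3 ∣ m ∧ g4 ∣ m ∧ b1 - b2 ∈ g2 ∧
    b1 - b3 ∈ g3 ∧ b1 - b4 ∈ g4 ∧ ‖sQ m (PF F b1 b2 b3 b4)‖ ≤ (tau m : ℝ) ^ 2 *
      √(Ideal.absNorm m) * (Ideal.absNorm g2 * Ideal.absNorm g3 * Ideal.absNorm g4)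

lemma PFB_triv {m g : Ideal (𝓞 K)} (hm0 : m ≠ ⊥) (hg : g ∣ m)
    (hN : (Ideal.absNorm m : ℝ) ≤ √(Ideal.absNorm m) * Ideal.absNorm g) [Fintype (𝓞 K ⧸ m)]
    {F : 𝓞 K → ℂ} {b1 b2 b3 b4 : 𝓞 K} (hF : PM m F) (h : b1 - b2 ∈ g ∨ b1 - b3 ∈ g ∨ b1 - b4 ∈ g) :
    ∃ g2 g3 g4, g2 ∣ m ∧ g3 ∣ m ∧ g4 ∣ m ∧ b1 - b2 ∈ g2 ∧
    b1 - b3 ∈ g3 ∧ b1 - b4 ∈ g4 ∧ ‖sQ m (PF F b1 b2 b3 b4)‖ ≤ (tau m : ℝ) ^ 2 *
      √(Ideal.absNorm m) * (Ideal.absNorm g2 * Ideal.absNorm g3 * Ideal.absNorm g4) := by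
  have h1 := sQ_le (b := m) (PF_le hF b1 b2 b3 b4)
  have hτ1 : (1 : ℝ) ≤ tau m := by exact_mod_cast tau_pos hm0
  have h2 : ‖sQ m (PF F b1 b2 b3 b4)‖ ≤ (tau m : ℝ) ^ 2 * √(Ideal.absNorm m) * Ideal.absNorm g := by
    refine h1.trans (hN.trans ?_)
    rw [mul_assoc]
    exact le_mul_of_one_le_left (by positivity) (one_le_pow₀ hτ1)
  have ht : ((Ideal.absNorm (⊤ : Ideal (𝓞 K)) : ℕ) : ℝ) = 1 := by
    rw [Ideal.absNorm_top]; norm_num
  have htd : (⊤ : Ideal (𝓞 K)) ∣ m := ⟨m, (Ideal.top_mul m).symm⟩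
  rcases h with h | h | h
  · exact ⟨g, ⊤, ⊤, hg, htd, htd, h, trivial, trivial, by rw [ht, mul_one, mul_one]; exact h2⟩
  · exact ⟨⊤, g, ⊤, htd, hg, htd, trivial, h, trivial, by rw [ht, one_mul, mul_one]; exact h2⟩
  · exact ⟨⊤, ⊤, g, htd, htd, hg, trivial, trivial, h, by rw [ht, one_mul, one_mul]; exact h2⟩

lemma PFB_unit {m : Ideal (𝓞 K)} (hm : m = ⊤) : PFB m := by
  intro _ F b1 b2 b3 b4 hF
  have hm0 : m ≠ ⊥ := by rw [hm]; exact top_ne_bot
  refine PFB_triv hm0 dvd_rfl ?_ hF (Or.inl (by rw [hm]; trivial))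
  have : ((Ideal.absNorm m : ℕ) : ℝ) = 1 := by rw [hm, Ideal.absNorm_top]; norm_num
  rw [this]
  norm_num

lemma tau_ge_two {P : Ideal (𝓞 K)} (hP : Prime P) {k : ℕ} (hk : 1 ≤ k) : 2 ≤ tau (P ^ k) := by
  classical
  have h0 : P ^ k ≠ ⊥ := pow_ne_zero k hP.ne_zero
  unfold tau
  have h1 : ({⊤, P} : Finset (Ideal (𝓞 K))) ⊆ dvs (P ^ k) := by
    intro d hd
    rw [mem_insert, mem_singleton] at hd
    rw [mem_dvs h0]
    rcases hd with rfl | rfl
    · exact ⟨P ^ k, (Ideal.top_mul _).symm⟩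
    · exact dvd_pow_self _ (by omega)
  have h2 : (⊤ : Ideal (𝓞 K)) ≠ P := fun h => (Ideal.isPrime_of_prime hP).ne_top h.symm
  have h3 := card_le_card h1
  rwa [card_pair h2] at h3

theorem PFB_all (m : Ideal (𝓞 K)) : (∀ P : Ideal (𝓞 K), Prime P → ¬ P ^ 3 ∣ m) → m ≠ ⊥ → PFB m := by
  refine UniqueFactorizationMonoid.induction_on_coprime m (fun _ h0 => absurd rfl h0)
    (fun {x} hx _ _ => ?_) (fun {P} k hP hcf h0 => ?_) (fun {x y} hxy ihx ihy hcf h0 => ?_)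
  · rw [Ideal.isUnit_iff] at hx
    exact PFB_unit hx
  · -- prime powers
    have hk : k < 3 := by
      by_contra hk
      push Not at hk
      exact hcf P hP (pow_dvd_pow P hk)
    have hN1 : (1 : ℝ) ≤ Ideal.absNorm P := by exact_mod_cast nrm_pos hP.ne_zero
    have hPd : 1 ≤ k → P ∣ P ^ k := fun h => dvd_pow_self P (by omega)
    have hNk : ((Ideal.absNorm (P ^ k) : ℕ) : ℝ) = (Ideal.absNorm P : ℝ) ^ k := by
      rw [map_pow]; push_cast; rfl
    rcases Nat.eq_zero_or_pos k with rfl | hk1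
    · exact PFB_unit (by rw [pow_zero, Ideal.one_eq_top])
    have hτ2 : (2 : ℝ) ≤ tau (P ^ k) := by exact_mod_cast tau_ge_two hP hk1
    have hτ4 : (4 : ℝ) ≤ (tau (P ^ k) : ℝ) ^ 2 := by nlinarith
    intro _ F b1 b2 b3 b4 hF
    by_cases h : b1 - b2 ∈ P ∨ b1 - b3 ∈ P ∨ b1 - b4 ∈ P
    · refine PFB_triv h0 (hPd hk1) ?_ hF h
      rw [hNk]
      obtain rfl | rfl : k = 1 ∨ k = 2 := by omega
      · rw [pow_one]
        have h1 : 1 ≤ √(Ideal.absNorm P : ℝ) := by rw [Real.one_le_sqrt]; exact hN1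
        nlinarith
      · rw [Real.sqrt_sq (by positivity)]
        nlinarith
    · push Not at h
      have ht : ((Ideal.absNorm (⊤ : Ideal (𝓞 K)) : ℕ) : ℝ) = 1 := by
        rw [Ideal.absNorm_top]; norm_num
      have htd : (⊤ : Ideal (𝓞 K)) ∣ P ^ k := ⟨P ^ k, (Ideal.top_mul _).symm⟩
      refine ⟨⊤, ⊤, ⊤, htd, htd, htd, trivial, trivial, trivial, ?_⟩
      rw [ht, mul_one, mul_one, mul_one]
      obtain rfl | rfl : k = 1 ∨ k = 2 := by omega
      · have e1 : P ^ 1 = P := pow_one P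
        have key : ∀ m : Ideal (𝓞 K), m = P → ∀ (_ : Fintype (𝓞 K ⧸ m)) (F : 𝓞 K → ℂ), PM m F →
            ‖sQ m (PF F b1 b2 b3 b4)‖ ≤ 4 * √(Ideal.absNorm m) := by
          rintro m rfl _ F hF
          exact four_prime hP hF h.1 h.2.1 h.2.2
        refine (key _ e1 _ F hF).trans ?_
        exact mul_le_mul_of_nonneg_right hτ4 (by positivity)
      · refine (four_sq hP hF h.1 h.2.1 h.2.2).trans ?_
        rw [hNk, Real.sqrt_sq (by positivity)]
        refine mul_le_mul_of_nonneg_right (by linarith) (by positivity)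
  · -- coprime products
    have hx0 : x ≠ ⊥ := left_ne_zero_of_mul h0
    have hy0 : y ≠ ⊥ := right_ne_zero_of_mul h0
    have hc : IsCoprime x y := by
      rw [cop_prime]
      intro P hP h1 h2
      have hPb : P ≠ ⊥ := by
        rintro rfl
        exact hx0 (le_bot_iff.1 h1)
      have h3 := hxy (Ideal.dvd_iff_le.2 h1) (Ideal.dvd_iff_le.2 h2)
      exact hP.ne_top (Ideal.isUnit_iff.1 h3)
    have hbx := ihx (fun P hP h => hcf P hP (h.mul_right y)) hx0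
    have hby := ihy (fun P hP h => hcf P hP (h.mul_left x)) hy0
    intro _ F b1 b2 b3 b4 hF
    haveI : Finite (𝓞 K ⧸ x) := Ideal.finiteQuotientOfFreeOfNeBot x hx0
    haveI : Fintype (𝓞 K ⧸ x) := Fintype.ofFinite _
    haveI : Finite (𝓞 K ⧸ y) := Ideal.finiteQuotientOfFreeOfNeBot y hy0
    haveI : Fintype (𝓞 K ⧸ y) := Fintype.ofFinite _
    obtain ⟨e, he, he1⟩ := exists_e0 hc
    have h1e : (1 - e) ∈ y := by
      have := neg_mem he1
      have e1 : -(e - 1) = 1 - e := by ring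
      rwa [e1] at this
    have hF1 : PM y (FA F e) := FA_PM hx0 hF he he1
    have hF2 : PM x (FA F (1 - e)) := by
      refine FA_PM hy0 (by rwa [mul_comm]) h1e ?_
      have e1 : 1 - e - 1 = -e := by ring
      rw [e1]
      exact neg_mem he
    obtain ⟨g2, g3, g4, d2, d3, d4, m2, m3, m4, hb⟩ := hby inferInstance (FA F e) b1 b2 b3 b4 hF1
    obtain ⟨g2', g3', g4', d2', d3', d4', m2', m3', m4', hb'⟩ :=
      hbx inferInstance (FA F (1 - e)) b1 b2 b3 b4 hF2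
    have hmem : ∀ {g g' : Ideal (𝓞 K)} {z : 𝓞 K}, g ∣ y → g' ∣ x → z ∈ g → z ∈ g' → z ∈ g' * g := by
      intro g g' z h1 h2 h3 h4
      have h5 : IsCoprime g' g := (hc.of_isCoprime_of_dvd_left h2).of_isCoprime_of_dvd_right h1
      rw [← Ideal.inf_eq_mul_of_isCoprime h5]
      exact ⟨h4, h3⟩
    refine ⟨g2' * g2, g3' * g3, g4' * g4, mul_dvd_mul d2' d2, mul_dvd_mul d3' d3, mul_dvd_mul d4' d4,
      hmem d2 d2' m2 m2', hmem d3 d3' m3 m3', hmem d4 d4' m4 m4', ?_⟩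
    have e1 : PF F b1 b2 b3 b4 = fun z => PF (FA F (1 - e)) b1 b2 b3 b4 z *
        PF (FA F e) b1 b2 b3 b4 z := by
      funext z
      unfold PF
      rw [FA_prod hF he he1 (z + b1), FA_prod hF he he1 (z + b2), FA_prod hF he he1 (z + b3),
        FA_prod hF he he1 (z + b4), map_mul, map_mul]
      ring
    rw [e1, sQ_crt hc (PF_per (fun x y hxy => hF2.per x y hxy) _ _ _ _)
      (PF_per (fun x y hxy => hF1.per x y hxy) _ _ _ _), norm_mul]
    have hτ : (tau x : ℝ) * tau y ≤ tau (x * y) := by exact_mod_cast tau_cop_mul hx0 hy0 hc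
    have hτ2 : ((tau x : ℝ) * tau y) ^ 2 ≤ (tau (x * y) : ℝ) ^ 2 :=
      pow_le_pow_left₀ (by positivity) hτ 2
    have hsN : √(Ideal.absNorm (x * y) : ℝ) = √(Ideal.absNorm x) * √(Ideal.absNorm y) := by
      rw [map_mul, Nat.cast_mul, Real.sqrt_mul (by positivity)]
    rw [hsN, map_mul, map_mul, map_mul]
    push_cast
    calc _ ≤ ((tau x : ℝ) ^ 2 * √(Ideal.absNorm x) *
          (Ideal.absNorm g2' * Ideal.absNorm g3' * Ideal.absNorm g4')) *
          ((tau y : ℝ) ^ 2 * √(Ideal.absNorm y) *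
          (Ideal.absNorm g2 * Ideal.absNorm g3 * Ideal.absNorm g4)) :=
          mul_le_mul hb' hb (norm_nonneg _) (by positivity)
      _ = ((tau x : ℝ) * tau y) ^ 2 * (√(Ideal.absNorm x) * √(Ideal.absNorm y) *
          ((Ideal.absNorm g2' * Ideal.absNorm g2) * (Ideal.absNorm g3' * Ideal.absNorm g3) *
          (Ideal.absNorm g4' * Ideal.absNorm g4))) := by ring
      _ ≤ (tau (x * y) : ℝ) ^ 2 * (√(Ideal.absNorm x) * √(Ideal.absNorm y) *
          ((Ideal.absNorm g2' * Ideal.absNorm g2) * (Ideal.absNorm g3' * Ideal.absNorm g3) *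
          (Ideal.absNorm g4' * Ideal.absNorm g4))) := mul_le_mul_of_nonneg_right hτ2 (by positivity)
      _ = _ := by ring

end Pool.Agent.T2H29.SW
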