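import Pool.Agent.T2H29.SW.U3
import Pool.Agent.T2H29.SW.B13

/-!
# The fourth moment of short sums
-/

set_option autoImplicit false
set_option linter.unusedSectionVars false

namespace Pool.Agent.T2H29.SW

open Finset NumberField NumberField.InfinitePlace Module

variable {K : Type} [Field K] [NumberField K]

lemma PF_swap (F : 𝓞 K → ℂ) (b1 b2 b3 b4 : 𝓞 K) : PF F b1 b2 b3 b4 = PF F b2 b1 b3 b4 := by
  funext y
  unfold PF
  ring

lemma PF_conj (F : 𝓞 K → ℂ) (b1 b2 b3 b4 y : 𝓞 K) :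
    PF F b3 b4 b1 b2 y = (starRingEnd ℂ) (PF F b1 b2 b3 b4 y) := by
  unfold PF
  simp only [map_mul, Complex.conj_conj]
  ring

lemma sQ_conj {m : Ideal (𝓞 K)} [Fintype (𝓞 K ⧸ m)] (F : 𝓞 K → ℂ) (b1 b2 b3 b4 : 𝓞 K) :
    ‖sQ m (PF F b3 b4 b1 b2)‖ = ‖sQ m (PF F b1 b2 b3 b4)‖ := by
  have e1 : sQ m (PF F b3 b4 b1 b2) = (starRingEnd ℂ) (sQ m (PF F b1 b2 b3 b4)) := by
    unfold sQ
    rw [map_sum]
    exact sum_congr rfl fun c _ => PF_conj F b1 b2 b3 b4 _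
  rw [e1, RCLike.norm_conj]

open scoped Classical in
/-- the sum over the common divisors -/
noncomputable def Gd (m : Ideal (𝓞 K)) (h : 𝓞 K) : ℝ :=
  ∑ d ∈ dvs m, if h ∈ d then (Ideal.absNorm d : ℝ) else 0

lemma Gd_nonneg (m : Ideal (𝓞 K)) (h : 𝓞 K) : 0 ≤ Gd m h := by
  classical
  unfold Gd
  refine sum_nonneg fun d _ => ?_
  split_ifs <;> positivity

lemma le_Gd {m g : Ideal (𝓞 K)} (hm : m ≠ ⊥) (hg : g ∣ m) {h : 𝓞 K} (hh : h ∈ g) :
    (Ideal.absNorm g : ℝ) ≤ Gd m h := by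
  classical
  unfold Gd
  have h3 := single_le_sum (f := fun d => (if h ∈ d then (Ideal.absNorm d : ℝ) else 0))
    (fun d _ => by
      beta_reduce
      split_ifs
      · positivity
      · exact le_rfl) ((mem_dvs hm).2 hg)
  beta_reduce at h3
  rwa [if_pos hh] at h3

/-- the modulus with a further factor -/
theorem PF_fm {f m : Ideal (𝓞 K)} (hf0 : f ≠ ⊥) (hm0 : m ≠ ⊥) (hfc : IsCoprime f m)
    (hcf : ∀ P : Ideal (𝓞 K), Prime P → ¬ P ^ 3 ∣ m) [Fintype (𝓞 K ⧸ (f * m))] {F : 𝓞 K → ℂ}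
    (hF : PM (f * m) F) (b1 b2 b3 b4 : 𝓞 K) :
    ‖sQ (f * m) (PF F b1 b2 b3 b4)‖ ≤ (Ideal.absNorm f * ((tau m : ℝ) ^ 2 * √(Ideal.absNorm m))) *
      (Gd m (b1 - b2) * Gd m (b1 - b3) * Gd m (b1 - b4)) := by
  haveI : Finite (𝓞 K ⧸ f) := Ideal.finiteQuotientOfFreeOfNeBot f hf0
  haveI : Fintype (𝓞 K ⧸ f) := Fintype.ofFinite _
  haveI : Finite (𝓞 K ⧸ m) := Ideal.finiteQuotientOfFreeOfNeBot m hm0
  haveI : Fintype (𝓞 K ⧸ m) := Fintype.ofFinite _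
  obtain ⟨e, he, he1⟩ := exists_e0 hfc
  have hF1 := FA_PM hf0 hF he he1
  have hF2 := FA_per hF he he1
  obtain ⟨g2, g3, g4, d2, d3, d4, m2, m3, m4, hb⟩ :=
    PFB_all m hcf hm0 inferInstance (FA F e) b1 b2 b3 b4 hF1
  have e1 : PF F b1 b2 b3 b4 = fun z => PF (FA F (1 - e)) b1 b2 b3 b4 z *
      PF (FA F e) b1 b2 b3 b4 z := by
    funext z
    unfold PF
    rw [FA_prod hF he he1 (z + b1), FA_prod hF he he1 (z + b2), FA_prod hF he he1 (z + b3),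
      FA_prod hF he he1 (z + b4), map_mul, map_mul]
    ring
  have hle : ∀ z, ‖PF (FA F (1 - e)) b1 b2 b3 b4 z‖ ≤ 1 := by
    intro z
    have h1 : ∀ y, ‖FA F (1 - e) y‖ ≤ 1 := fun y => by unfold FA; exact hF.le_one _
    unfold PF
    rw [norm_mul, norm_mul, norm_mul, RCLike.norm_conj, RCLike.norm_conj]
    exact mul_le_one₀ (mul_le_one₀ (h1 _) (norm_nonneg _) (h1 _))
      (mul_nonneg (norm_nonneg _) (norm_nonneg _)) (mul_le_one₀ (h1 _) (norm_nonneg _) (h1 _))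
  rw [e1, sQ_crt hfc (PF_per hF2 _ _ _ _) (PF_per (fun x y hxy => hF1.per x y hxy) _ _ _ _),
    norm_mul]
  have h2 := le_Gd hm0 d2 m2
  have h3 := le_Gd hm0 d3 m3
  have h4 := le_Gd hm0 d4 m4
  have h5 : (Ideal.absNorm g2 : ℝ) * Ideal.absNorm g3 * Ideal.absNorm g4 ≤
      Gd m (b1 - b2) * Gd m (b1 - b3) * Gd m (b1 - b4) :=
    mul_le_mul (mul_le_mul h2 h3 (by positivity) (Gd_nonneg _ _)) h4 (by positivity)
      (mul_nonneg (Gd_nonneg _ _) (Gd_nonneg _ _))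
  calc _ ≤ (Ideal.absNorm f : ℝ) * ((tau m : ℝ) ^ 2 * √(Ideal.absNorm m) *
        (Ideal.absNorm g2 * Ideal.absNorm g3 * Ideal.absNorm g4)) :=
        mul_le_mul (sQ_le hle) hb (norm_nonneg _) (by positivity)
    _ ≤ (Ideal.absNorm f : ℝ) * ((tau m : ℝ) ^ 2 * √(Ideal.absNorm m) *
        (Gd m (b1 - b2) * Gd m (b1 - b3) * Gd m (b1 - b4))) := by
        refine mul_le_mul_of_nonneg_left ?_ (by positivity)
        exact mul_le_mul_of_nonneg_left h5 (by positivity)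
    _ = _ := by ring

section
variable {Z : Type} [DecidableEq Z]

open scoped Classical in
/-- the off-diagonal weight -/
noncomputable def Pw (m : Ideal (𝓞 K)) (β : Z → 𝓞 K) (w x : Z) : ℝ :=
  if w = x then 0 else Gd m (β w - β x)

lemma Pw_nonneg (m : Ideal (𝓞 K)) (β : Z → 𝓞 K) (w x : Z) : 0 ≤ Pw m β w x := by
  unfold Pw
  split_ifs
  · exact le_rfl
  · exact Gd_nonneg _ _

/-- the diagonal -/
noncomputable def Dg (z1 z2 z3 z4 : Z) : ℝ :=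
  (if z1 = z2 then 1 else 0) * (if z3 = z4 then 1 else 0) +
  (if z1 = z3 then 1 else 0) * (if z2 = z4 then 1 else 0) +
  (if z1 = z4 then 1 else 0) * (if z2 = z3 then 1 else 0)

lemma Dg_nonneg (z1 z2 z3 z4 : Z) : 0 ≤ Dg z1 z2 z3 z4 := by
  unfold Dg
  have h : ∀ p : Prop, ∀ [Decidable p], (0 : ℝ) ≤ if p then 1 else 0 := by
    intro p _
    split_ifs <;> norm_num
  exact add_nonneg (add_nonneg (mul_nonneg (h _) (h _)) (mul_nonneg (h _) (h _)))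
    (mul_nonneg (h _) (h _))

/-- pointwise bound -/
theorem PF_pt {f m : Ideal (𝓞 K)} (hf0 : f ≠ ⊥) (hm0 : m ≠ ⊥) (hfc : IsCoprime f m)
    (hcf : ∀ P : Ideal (𝓞 K), Prime P → ¬ P ^ 3 ∣ m) [Fintype (𝓞 K ⧸ (f * m))] {F : 𝓞 K → ℂ}
    (hF : PM (f * m) F) (β : Z → 𝓞 K) (z1 z2 z3 z4 : Z) :
    ‖sQ (f * m) (PF F (β z1) (β z2) (β z3) (β z4))‖ ≤ Ideal.absNorm (f * m) * Dg z1 z2 z3 z4 +
      (Ideal.absNorm f * ((tau m : ℝ) ^ 2 * √(Ideal.absNorm m))) *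
      (Pw m β z1 z2 * Pw m β z1 z3 * Pw m β z1 z4 + Pw m β z2 z1 * Pw m β z2 z3 * Pw m β z2 z4 +
      Pw m β z3 z1 * Pw m β z3 z2 * Pw m β z3 z4 + Pw m β z4 z1 * Pw m β z4 z2 * Pw m β z4 z3) := by
  set X := ‖sQ (f * m) (PF F (β z1) (β z2) (β z3) (β z4))‖ with hX
  set A : ℝ := Ideal.absNorm f * ((tau m : ℝ) ^ 2 * √(Ideal.absNorm m)) with hA
  have hA0 : 0 ≤ A := by positivity
  have hQ : X ≤ Ideal.absNorm (f * m) := sQ_le (PF_le hF _ _ _ _)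
  have hP := Pw_nonneg m β
  have n1 : 0 ≤ Pw m β z1 z2 * Pw m β z1 z3 * Pw m β z1 z4 := mul_nonneg (mul_nonneg (hP _ _) (hP _ _)) (hP _ _)
  have n2 : 0 ≤ Pw m β z2 z1 * Pw m β z2 z3 * Pw m β z2 z4 := mul_nonneg (mul_nonneg (hP _ _) (hP _ _)) (hP _ _)
  have n3 : 0 ≤ Pw m β z3 z1 * Pw m β z3 z2 * Pw m β z3 z4 := mul_nonneg (mul_nonneg (hP _ _) (hP _ _)) (hP _ _)
  have n4 : 0 ≤ Pw m β z4 z1 * Pw m β z4 z2 * Pw m β z4 z3 := mul_nonneg (mul_nonneg (hP _ _) (hP _ _)) (hP _ _)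
  have hD := Dg_nonneg z1 z2 z3 z4
  have hN : (0 : ℝ) ≤ Ideal.absNorm (f * m) := Nat.cast_nonneg _
  have key : ∀ w x y z : Z, w ≠ x → w ≠ y → w ≠ z → ‖sQ (f * m) (PF F (β w) (β x) (β y) (β z))‖ = X →
      X ≤ A * (Pw m β w x * Pw m β w y * Pw m β w z) := by
    intro w x y z h1 h2 h3 h4
    rw [← h4]
    refine (PF_fm hf0 hm0 hfc hcf hF _ _ _ _).trans (le_of_eq ?_)
    unfold Pw
    rw [if_neg h1, if_neg h2, if_neg h3]
  by_cases s1 : z1 ≠ z2 ∧ z1 ≠ z3 ∧ z1 ≠ z4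
  · have := key z1 z2 z3 z4 s1.1 s1.2.1 s1.2.2 rfl
    have h0 : 0 ≤ (Ideal.absNorm (f * m) : ℝ) * Dg z1 z2 z3 z4 := mul_nonneg hN hD
    nlinarith [mul_nonneg hA0 n2, mul_nonneg hA0 n3, mul_nonneg hA0 n4]
  by_cases s2 : z2 ≠ z1 ∧ z2 ≠ z3 ∧ z2 ≠ z4
  · have := key z2 z1 z3 z4 s2.1 s2.2.1 s2.2.2 (by rw [PF_swap])
    have h0 : 0 ≤ (Ideal.absNorm (f * m) : ℝ) * Dg z1 z2 z3 z4 := mul_nonneg hN hD
    nlinarith [mul_nonneg hA0 n1, mul_nonneg hA0 n3, mul_nonneg hA0 n4]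
  by_cases s3 : z3 ≠ z1 ∧ z3 ≠ z2 ∧ z3 ≠ z4
  · have e1 : ‖sQ (f * m) (PF F (β z3) (β z4) (β z1) (β z2))‖ = X := sQ_conj _ _ _ _ _
    have := key z3 z4 z1 z2 s3.2.2 s3.1 s3.2.1 e1
    have h0 : 0 ≤ (Ideal.absNorm (f * m) : ℝ) * Dg z1 z2 z3 z4 := mul_nonneg hN hD
    have e2 : Pw m β z3 z4 * Pw m β z3 z1 * Pw m β z3 z2 =
        Pw m β z3 z1 * Pw m β z3 z2 * Pw m β z3 z4 := by ring
    rw [e2] at this
    nlinarith [mul_nonneg hA0 n1, mul_nonneg hA0 n2, mul_nonneg hA0 n4]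
  by_cases s4 : z4 ≠ z1 ∧ z4 ≠ z2 ∧ z4 ≠ z3
  · have e1 : ‖sQ (f * m) (PF F (β z4) (β z3) (β z1) (β z2))‖ = X := by
      rw [PF_swap]; exact sQ_conj _ _ _ _ _
    have := key z4 z3 z1 z2 s4.2.2 s4.1 s4.2.1 e1
    have h0 : 0 ≤ (Ideal.absNorm (f * m) : ℝ) * Dg z1 z2 z3 z4 := mul_nonneg hN hD
    have e2 : Pw m β z4 z3 * Pw m β z4 z1 * Pw m β z4 z2 =
        Pw m β z4 z1 * Pw m β z4 z2 * Pw m β z4 z3 := by ring
    rw [e2] at this
    nlinarith [mul_nonneg hA0 n1, mul_nonneg hA0 n2, mul_nonneg hA0 n3]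
  · have hD1 : 1 ≤ Dg z1 z2 z3 z4 := by
      have hb : ∀ p q : Prop, ∀ [Decidable p] [Decidable q],
          (0 : ℝ) ≤ (if p then 1 else 0) * (if q then 1 else 0) := by
        intro p q _ _
        split_ifs <;> norm_num
      unfold Dg
      by_cases e12 : z1 = z2
      · subst e12
        have e34 : z3 = z4 := by
          by_contra h
          by_cases e13 : z1 = z3
          · subst e13
            exact s4 ⟨fun h' => h h'.symm, fun h' => h h'.symm, fun h' => h h'.symm⟩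
          · exact s3 ⟨fun h' => e13 h'.symm, fun h' => e13 h'.symm, h⟩
        rw [if_pos rfl, if_pos e34]
        have := hb (z1 = z3) (z1 = z4)
        have := hb (z1 = z4) (z1 = z3)
        linarith
      · by_cases e13 : z1 = z3
        · subst e13
          have e24 : z2 = z4 := by
            by_contra h
            exact s2 ⟨fun h' => e12 h'.symm, fun h' => e12 h'.symm, h⟩
          have h1 := hb (z1 = z2) (z1 = z4)
          have h2 := hb (z1 = z4) (z2 = z1)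
          rw [if_pos (rfl : z1 = z1), if_pos e24]
          linarith
        · have e14 : z1 = z4 := by
            by_contra h
            exact s1 ⟨e12, e13, h⟩
          subst e14
          have e23 : z2 = z3 := by
            by_contra h
            exact s2 ⟨fun h' => e12 h'.symm, h, fun h' => e12 h'.symm⟩
          have h1 := hb (z1 = z2) (z3 = z1)
          have h2 := hb (z1 = z3) (z2 = z1)
          rw [if_pos (rfl : z1 = z1), if_pos e23]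
          linarith
    have h1 : X ≤ Ideal.absNorm (f * m) * Dg z1 z2 z3 z4 := by
      refine hQ.trans ?_
      exact le_mul_of_one_le_right hN hD1
    have h2 : 0 ≤ A * (Pw m β z1 z2 * Pw m β z1 z3 * Pw m β z1 z4 +
      Pw m β z2 z1 * Pw m β z2 z3 * Pw m β z2 z4 +
      Pw m β z3 z1 * Pw m β z3 z2 * Pw m β z3 z4 +
      Pw m β z4 z1 * Pw m β z4 z2 * Pw m β z4 z3) := mul_nonneg hA0 (by linarith)
    linarith

end

end Pool.Agent.T2H29.SW
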