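import Pool.Agent.T2H29.SW.U4

/-!
# The fourth moment of short sums, expansion
-/

set_option autoImplicit false
set_option linter.unusedSectionVars false

namespace Pool.Agent.T2H29.SW

open Finset NumberField NumberField.InfinitePlace Module

section
variable {Z Y : Type} [DecidableEq Z]

lemma norm4 (w : ℂ) : ((‖w‖ ^ 4 : ℝ) : ℂ) = w * w * (starRingEnd ℂ) w * (starRingEnd ℂ) w := by
  have h1 : w * (starRingEnd ℂ) w = ((‖w‖ ^ 2 : ℝ) : ℂ) := by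
    rw [Complex.mul_conj']
    push_cast
    rfl
  calc ((‖w‖ ^ 4 : ℝ) : ℂ) = ((‖w‖ ^ 2 : ℝ) : ℂ) * ((‖w‖ ^ 2 : ℝ) : ℂ) := by push_cast; ring
    _ = (w * (starRingEnd ℂ) w) * (w * (starRingEnd ℂ) w) := by rw [h1]
    _ = _ := by ring

lemma four_prod (S : Finset Z) (u : Z → ℂ) :
    (∑ z ∈ S, u z) * (∑ z ∈ S, u z) * (starRingEnd ℂ) (∑ z ∈ S, u z) *
      (starRingEnd ℂ) (∑ z ∈ S, u z) =
    ∑ z1 ∈ S, ∑ z2 ∈ S, ∑ z3 ∈ S, ∑ z4 ∈ S,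
      u z1 * u z2 * (starRingEnd ℂ) (u z3) * (starRingEnd ℂ) (u z4) := by
  rw [map_sum, sum_mul_sum, sum_mul, sum_mul]
  refine sum_congr rfl fun z1 _ => ?_
  rw [sum_mul, sum_mul]
  refine sum_congr rfl fun z2 _ => ?_
  rw [mul_assoc, sum_mul_sum, mul_sum]
  refine sum_congr rfl fun z3 _ => ?_
  rw [mul_sum]
  refine sum_congr rfl fun z4 _ => ?_
  ring

/-- the expansion of the fourth moment -/
theorem four_exp [Fintype Y] (S : Finset Z) (g : Z → ℂ) (c : Z → ℝ) (hg : ∀ z, ‖g z‖ ≤ c z)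
    (G : Z → Y → ℂ) : ∑ y, ‖∑ z ∈ S, g z * G z y‖ ^ 4 ≤
    ∑ z1 ∈ S, ∑ z2 ∈ S, ∑ z3 ∈ S, ∑ z4 ∈ S, (c z1 * c z2 * c z3 * c z4) *
      ‖∑ y, G z1 y * G z2 y * (starRingEnd ℂ) (G z3 y) * (starRingEnd ℂ) (G z4 y)‖ := by
  have h0 : 0 ≤ ∑ y, ‖∑ z ∈ S, g z * G z y‖ ^ 4 := sum_nonneg fun y _ => by positivity
  have e1 : ((∑ y, ‖∑ z ∈ S, g z * G z y‖ ^ 4 : ℝ) : ℂ) =
      ∑ z1 ∈ S, ∑ z2 ∈ S, ∑ z3 ∈ S, ∑ z4 ∈ S, (g z1 * g z2 * (starRingEnd ℂ) (g z3) *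
        (starRingEnd ℂ) (g z4)) *
      ∑ y, G z1 y * G z2 y * (starRingEnd ℂ) (G z3 y) * (starRingEnd ℂ) (G z4 y) := by
    rw [Complex.ofReal_sum]
    simp_rw [norm4, four_prod]
    rw [sum_comm]
    refine sum_congr rfl fun z1 _ => ?_
    rw [sum_comm]
    refine sum_congr rfl fun z2 _ => ?_
    rw [sum_comm]
    refine sum_congr rfl fun z3 _ => ?_
    rw [sum_comm]
    refine sum_congr rfl fun z4 _ => ?_
    rw [mul_sum]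
    refine sum_congr rfl fun y _ => ?_
    simp only [map_mul]
    ring
  have e2 : ∑ y, ‖∑ z ∈ S, g z * G z y‖ ^ 4 = ‖((∑ y, ‖∑ z ∈ S, g z * G z y‖ ^ 4 : ℝ) : ℂ)‖ := by
    rw [Complex.norm_real, Real.norm_of_nonneg h0]
  rw [e2, e1]
  refine (norm_sum_le _ _).trans (sum_le_sum fun z1 _ => ?_)
  refine (norm_sum_le _ _).trans (sum_le_sum fun z2 _ => ?_)
  refine (norm_sum_le _ _).trans (sum_le_sum fun z3 _ => ?_)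
  refine (norm_sum_le _ _).trans (sum_le_sum fun z4 _ => ?_)
  rw [norm_mul]
  refine mul_le_mul_of_nonneg_right ?_ (norm_nonneg _)
  rw [norm_mul, norm_mul, norm_mul, RCLike.norm_conj, RCLike.norm_conj]
  have hc : ∀ z, 0 ≤ c z := fun z => (norm_nonneg _).trans (hg z)
  refine mul_le_mul (mul_le_mul (mul_le_mul (hg _) (hg _) (norm_nonneg _) (hc _)) (hg _)
    (norm_nonneg _) (mul_nonneg (hc _) (hc _))) (hg _) (norm_nonneg _)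
    (mul_nonneg (mul_nonneg (hc _) (hc _)) (hc _))

lemma cube_sum (S : Finset Z) (c : Z → ℝ) (P : Z → Z → ℝ) :
    ∑ z1 ∈ S, ∑ z2 ∈ S, ∑ z3 ∈ S, ∑ z4 ∈ S, (c z1 * c z2 * c z3 * c z4) *
      (P z1 z2 * P z1 z3 * P z1 z4) = ∑ w ∈ S, c w * (∑ x ∈ S, c x * P w x) ^ 3 := by
  refine sum_congr rfl fun w _ => ?_
  have e1 : (∑ x ∈ S, c x * P w x) ^ 3 = ∑ z2 ∈ S, ∑ z3 ∈ S, ∑ z4 ∈ S,
      (c z2 * P w z2) * (c z3 * P w z3) * (c z4 * P w z4) := by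
    have : (∑ x ∈ S, c x * P w x) ^ 3 = (∑ x ∈ S, c x * P w x) * (∑ x ∈ S, c x * P w x) *
        (∑ x ∈ S, c x * P w x) := by ring
    rw [this, sum_mul_sum, sum_mul]
    refine sum_congr rfl fun z2 _ => ?_
    rw [sum_mul_sum]
  rw [e1, mul_sum]
  refine sum_congr rfl fun z2 _ => ?_
  rw [mul_sum]
  refine sum_congr rfl fun z3 _ => ?_
  rw [mul_sum]
  refine sum_congr rfl fun z4 _ => ?_
  ring

lemma sum_213 (S : Finset Z) (H : Z → Z → Z → Z → ℝ) :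
    ∑ z1 ∈ S, ∑ z2 ∈ S, ∑ z3 ∈ S, ∑ z4 ∈ S, H z2 z1 z3 z4 =
    ∑ z1 ∈ S, ∑ z2 ∈ S, ∑ z3 ∈ S, ∑ z4 ∈ S, H z1 z2 z3 z4 := sum_comm

lemma sum_312 (S : Finset Z) (H : Z → Z → Z → Z → ℝ) :
    ∑ z1 ∈ S, ∑ z2 ∈ S, ∑ z3 ∈ S, ∑ z4 ∈ S, H z3 z1 z2 z4 =
    ∑ z1 ∈ S, ∑ z2 ∈ S, ∑ z3 ∈ S, ∑ z4 ∈ S, H z1 z2 z3 z4 := by
  calc _ = ∑ z1 ∈ S, ∑ z3 ∈ S, ∑ z2 ∈ S, ∑ z4 ∈ S, H z3 z1 z2 z4 :=
        sum_congr rfl fun z1 _ => sum_comm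
    _ = ∑ z3 ∈ S, ∑ z1 ∈ S, ∑ z2 ∈ S, ∑ z4 ∈ S, H z3 z1 z2 z4 := sum_comm

lemma sum_4123 (S : Finset Z) (H : Z → Z → Z → Z → ℝ) :
    ∑ z1 ∈ S, ∑ z2 ∈ S, ∑ z3 ∈ S, ∑ z4 ∈ S, H z4 z1 z2 z3 =
    ∑ z1 ∈ S, ∑ z2 ∈ S, ∑ z3 ∈ S, ∑ z4 ∈ S, H z1 z2 z3 z4 := by
  calc _ = ∑ z1 ∈ S, ∑ z2 ∈ S, ∑ z4 ∈ S, ∑ z3 ∈ S, H z4 z1 z2 z3 :=
        sum_congr rfl fun z1 _ => sum_congr rfl fun z2 _ => sum_comm
    _ = _ := sum_312 S H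

lemma diag_sum (S : Finset Z) (c : Z → ℝ) :
    ∑ z1 ∈ S, ∑ z2 ∈ S, ∑ z3 ∈ S, ∑ z4 ∈ S, (c z1 * c z2 * c z3 * c z4) * Dg z1 z2 z3 z4 =
      3 * (∑ z ∈ S, c z ^ 2) ^ 2 := by
  have e0 : (∑ z ∈ S, c z ^ 2) ^ 2 = ∑ z ∈ S, ∑ w ∈ S, c z ^ 2 * c w ^ 2 := by
    rw [sq, sum_mul_sum]
  have h1 : ∑ z1 ∈ S, ∑ z2 ∈ S, ∑ z3 ∈ S, ∑ z4 ∈ S, (c z1 * c z2 * c z3 * c z4) *
      ((if z1 = z2 then 1 else 0) * (if z3 = z4 then 1 else 0)) = (∑ z ∈ S, c z ^ 2) ^ 2 := by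
    rw [e0]
    refine sum_congr rfl fun z1 h1 => ?_
    rw [sum_eq_single z1 (fun z2 _ h => ?_) (fun h => absurd h1 h)]
    · refine sum_congr rfl fun z3 h3 => ?_
      rw [sum_eq_single z3 (fun z4 _ h => ?_) (fun h => absurd h3 h)]
      · rw [if_pos rfl, if_pos rfl]
        ring
      · rw [if_neg h.symm]
        ring
    · refine sum_eq_zero fun z3 _ => sum_eq_zero fun z4 _ => ?_
      rw [if_neg h.symm]
      ring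
  have h2 : ∑ z1 ∈ S, ∑ z2 ∈ S, ∑ z3 ∈ S, ∑ z4 ∈ S, (c z1 * c z2 * c z3 * c z4) *
      ((if z1 = z3 then 1 else 0) * (if z2 = z4 then 1 else 0)) = (∑ z ∈ S, c z ^ 2) ^ 2 := by
    rw [e0]
    refine sum_congr rfl fun z1 h1 => sum_congr rfl fun z2 h2 => ?_
    rw [sum_eq_single z1 (fun z3 _ h => ?_) (fun h => absurd h1 h)]
    · rw [sum_eq_single z2 (fun z4 _ h => ?_) (fun h => absurd h2 h)]
      · rw [if_pos rfl, if_pos rfl]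
        ring
      · rw [if_neg h.symm]
        ring
    · refine sum_eq_zero fun z4 _ => ?_
      rw [if_neg h.symm]
      ring
  have h3 : ∑ z1 ∈ S, ∑ z2 ∈ S, ∑ z3 ∈ S, ∑ z4 ∈ S, (c z1 * c z2 * c z3 * c z4) *
      ((if z1 = z4 then 1 else 0) * (if z2 = z3 then 1 else 0)) = (∑ z ∈ S, c z ^ 2) ^ 2 := by
    rw [e0]
    refine sum_congr rfl fun z1 h1 => sum_congr rfl fun z2 h2 => ?_
    rw [sum_eq_single z2 (fun z3 _ h => ?_) (fun h => absurd h2 h)]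
    · rw [sum_eq_single z1 (fun z4 _ h => ?_) (fun h => absurd h1 h)]
      · rw [if_pos rfl, if_pos rfl]
        ring
      · rw [if_neg h.symm]
        ring
    · refine sum_eq_zero fun z4 _ => ?_
      rw [if_neg h.symm]
      ring
  unfold Dg
  simp_rw [mul_add, sum_add_distrib]
  rw [h1, h2, h3]
  ring

end

end Pool.Agent.T2H29.SW
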