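import Pool.Agent.T2H29.SW.U5

/-!
# The fourth moment of short sums
-/

set_option autoImplicit false
set_option linter.unusedSectionVars false

namespace Pool.Agent.T2H29.SW

open Finset NumberField NumberField.InfinitePlace Module MeasureTheory NumberField.Units

section
variable {ι : Type} [Fintype ι] [DecidableEq ι]

lemma q_nonneg' (A : Matrix ι ι ℝ) (x : ι → ℝ) : 0 ≤ q A x := by
  unfold q
  exact sum_nonneg fun i _ => sq_nonneg _

lemma q_sub_le (A : Matrix ι ι ℝ) (x y : ι → ℝ) : q A (x - y) ≤ 2 * q A x + 2 * q A y := by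
  unfold q
  rw [Matrix.mulVec_sub, mul_sum, mul_sum, ← sum_add_distrib]
  refine sum_le_sum fun i _ => ?_
  rw [Pi.sub_apply]
  nlinarith [sq_nonneg (A.mulVec x i + A.mulVec y i)]

lemma cz_sub (w z : ι → ℤ) : cz (w - z) = cz w - cz z := by
  funext i
  simp [cz]

/-- the fourth root of the weight -/
lemma gs_fourth (A : Matrix ι ι ℝ) (z : ι → ℤ) : gs A 0 z = gs ((2 : ℝ)⁻¹ • A) 0 z ^ 4 := by
  unfold gs
  rw [q_smul, ← Real.exp_nat_mul]
  congr 1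
  push_cast
  ring

lemma gs_sep (A : Matrix ι ι ℝ) (w z : ι → ℤ) :
    gs ((2 : ℝ)⁻¹ • A) 0 w * gs A 0 z ≤ gs ((√8)⁻¹ • A) 0 (w - z) := by
  unfold gs
  rw [← Real.exp_add, q_smul, q_smul, sub_zero, sub_zero, sub_zero, cz_sub, inv_pow, inv_pow,
    Real.sq_sqrt (by norm_num)]
  apply Real.exp_le_exp.2
  have h1 := q_sub_le A (cz w) (cz z)
  have h2 := q_nonneg' A (cz z)
  have h3 := Real.pi_pos
  nlinarith

lemma gs_le_one (A : Matrix ι ι ℝ) (c : ι → ℝ) (z : ι → ℤ) : gs A c z ≤ 1 := by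
  unfold gs
  rw [Real.exp_le_one_iff]
  have h2 := q_nonneg' A (cz z - c)
  have h3 := Real.pi_pos
  nlinarith

end

variable {K : Type} [Field K] [NumberField K]

lemma shift_sum1 {B C1 : ℝ} (hB : CBI K B) (hC1 : ∀ A : Matrix (Fin (dg K)) (Fin (dg K)) ℝ,
    A.det ≠ 0 → CB B A → ∑' z, (if z = 0 then 0 else gs A 0 z) ≤ C1 * Mv A)
    {I e : Ideal (𝓞 K)} (hI : I ≠ ⊥) (he : e ≠ ⊥) (h1 : IsCoprime I e)
    (b : Basis (Fin (dg K)) ℤ I) (x : LS K) {s : ℝ} (hs : 0 < s) :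
    (Summable fun t => (PS b e).indicator (gs (s • AX b x) 0) t) ∧
    ∑' t, (PS b e).indicator (gs (s • AX b x) 0) t ≤
      C1 * (mm I x.2 / Ideal.absNorm e / s ^ (dg K)) := by
  classical
  have hId : I * e ≠ ⊥ := by
    intro h
    rcases Ideal.mul_eq_bot.1 h with h1 | h1
    · exact hI h1
    · exact he h1
  obtain ⟨bd⟩ := exists_bas (I * e) hId
  have hmem : ∀ t, el b t ∈ e → el b t ∈ I * e := by
    intro t ht
    rw [← Ideal.inf_eq_mul_of_isCoprime h1]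
    exact ⟨el_mem b t, ht⟩
  set φ : (Fin (dg K) → ℤ) → (Fin (dg K) → ℤ) := fun t =>
    if h : el b t ∈ I * e then crd bd ⟨_, h⟩ else 0 with hφ
  have hel : ∀ t ∈ PS b e, el bd (φ t) = el b t := by
    intro t ht
    simp only [hφ]
    rw [dif_pos (hmem t ht.2), el_crd]
  have hd := det_AX_ne hId bd x
  obtain ⟨g1, g2⟩ := sub_sum (P := PS b e) (A2 := AX b x) (Ad := AX bd x) (φ := φ)
    (fun t ht t' ht' h => by
      apply el_inj b
      rw [← hel t ht, ← hel t' ht', h])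
    (fun t ht h => by
      have h3 := hel t ht
      rw [h, el_zero] at h3
      exact el_ne b ht.1 h3.symm)
    (fun t ht => by
      funext i
      unfold AX
      rw [MX_mulVec, MX_mulVec, hel t ht]) hd hs.ne'
  refine ⟨g1, g2.trans ?_⟩
  refine (hC1 _ (smul_det_ne hs.ne' hd) ((hB _ hId bd x).smul hs)).trans (le_of_eq ?_)
  rw [Mv_smul hs, Mv_AX, mm_mul hI he, Fintype.card_fin]

/-- the sum over the differences -/
lemma off_sum {B C1 : ℝ} (hB : CBI K B) (hC1 : ∀ A : Matrix (Fin (dg K)) (Fin (dg K)) ℝ,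
    A.det ≠ 0 → CB B A → ∑' z, (if z = 0 then 0 else gs A 0 z) ≤ C1 * Mv A)
    {I m : Ideal (𝓞 K)} (hI : I ≠ ⊥) (hm : m ≠ ⊥) (hc : IsCoprime I m)
    (b : Basis (Fin (dg K)) ℤ I) (x : LS K) {ρ : ℝ} (hρ : 0 < ρ) (S : Finset (Fin (dg K) → ℤ))
    (w : Fin (dg K) → ℤ) :
    ∑ z ∈ S, (gs ((2 : ℝ)⁻¹ • (ρ • AX b x)) 0 w * gs (ρ • AX b x) 0 z) * Pw m (el b) w z ≤
      tau m * (C1 * (√8 ^ (dg K) * (mm I x.2 / ρ ^ (dg K)))) := by
  classical
  set A' := ρ • AX b x with hA'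
  set G : (Fin (dg K) → ℤ) → ℝ := gs ((√8)⁻¹ • A') 0 with hG
  have hG0 : ∀ t, 0 ≤ G t := fun t => (gs_pos _ _ _).le
  have hsub : ∀ z, el b w - el b z = el b (w - z) := by
    intro z
    have h1 := el_addd b (w - z) z
    rw [sub_add_cancel] at h1
    rw [h1]
    ring
  have hpt : ∀ z ∈ S, (gs ((2 : ℝ)⁻¹ • A') 0 w * gs A' 0 z) * Pw m (el b) w z ≤
      ∑ d ∈ dvs m, (Ideal.absNorm d : ℝ) * (PS b d).indicator G (w - z) := by
    intro z _
    by_cases hz : w = z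
    · unfold Pw
      rw [if_pos hz, mul_zero]
      exact sum_nonneg fun d _ => mul_nonneg (Nat.cast_nonneg _)
        (Set.indicator_nonneg (fun t _ => hG0 t) _)
    · unfold Pw
      rw [if_neg hz, hsub]
      have h1 := gs_sep A' w z
      calc _ ≤ G (w - z) * Gd m (el b (w - z)) := mul_le_mul_of_nonneg_right h1 (Gd_nonneg _ _)
        _ = _ := by
            unfold Gd
            rw [mul_sum]
            refine sum_congr rfl fun d _ => ?_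
            by_cases hd : el b (w - z) ∈ d
            · have h2 : w - z ∈ PS b d := ⟨sub_ne_zero.2 hz, hd⟩
              rw [if_pos hd, Set.indicator_of_mem h2]
              ring
            · have h2 : w - z ∉ PS b d := fun h => hd h.2
              rw [if_neg hd, Set.indicator_of_notMem h2]
              ring
  refine (sum_le_sum hpt).trans ?_
  rw [sum_comm]
  unfold tau
  rw [← nsmul_eq_mul, ← sum_const]
  refine sum_le_sum fun d hd => ?_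
  obtain ⟨d', hd'⟩ := (mem_dvs hm).1 hd
  have hd0 : d ≠ ⊥ := (ne_bot_mul (hd' ▸ hm)).1
  have hNd := absNorm_pos' hd0
  have hcd : IsCoprime I d := by
    rw [hd'] at hc
    exact IsCoprime.of_mul_right_left hc
  have hs8 : 0 < (√8)⁻¹ * ρ := by positivity
  obtain ⟨h1, h2⟩ := shift_sum1 hB hC1 hI hd0 hcd b x hs8
  have e1 : gs (((√8)⁻¹ * ρ) • AX b x) 0 = G := by rw [hG, hA', smul_smul]
  rw [e1] at h1 h2
  rw [← mul_sum]
  have h3 : ∑ z ∈ S, (PS b d).indicator G (w - z) ≤ ∑' t, (PS b d).indicator G t := by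
    have e2 : ∑ z ∈ S, (PS b d).indicator G (w - z) =
        ∑ t ∈ S.image (fun z => w - z), (PS b d).indicator G t := by
      rw [sum_image]
      intro a _ a' _ h
      exact sub_right_injective h
    rw [e2]
    exact h1.sum_le_tsum _ fun t _ => Set.indicator_nonneg (fun t _ => hG0 t) _
  calc (Ideal.absNorm d : ℝ) * ∑ z ∈ S, (PS b d).indicator G (w - z) ≤
        (Ideal.absNorm d : ℝ) * (C1 * (mm I x.2 / Ideal.absNorm d / ((√8)⁻¹ * ρ) ^ (dg K))) :=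
        mul_le_mul_of_nonneg_left (h3.trans h2) hNd.le
    _ = C1 * (√8 ^ (dg K) * (mm I x.2 / ρ ^ (dg K))) := by
        rw [mul_pow, inv_pow]
        field_simp

/-- the fourth moment of finite sums -/
theorem four_fin {B C1 : ℝ} (hB1 : 1 ≤ B) (hB : CBI K B) (hC10 : 0 < C1)
    (hC1 : ∀ A : Matrix (Fin (dg K)) (Fin (dg K)) ℝ,
    A.det ≠ 0 → CB B A → ∑' z, (if z = 0 then 0 else gs A 0 z) ≤ C1 * Mv A)
    {f m I : Ideal (𝓞 K)} (hf0 : f ≠ ⊥) (hm0 : m ≠ ⊥) (hfc : IsCoprime f m)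
    (hcf : ∀ P : Ideal (𝓞 K), Prime P → ¬ P ^ 3 ∣ m) (hI : I ≠ ⊥) (hIc : IsCoprime I (f * m))
    [Fintype (𝓞 K ⧸ (f * m))] {F : 𝓞 K → ℂ} (hF : PM (f * m) F)
    (b : Basis (Fin (dg K)) ℤ I) (x : LS K) {ρ : ℝ} (hρ : 0 < ρ)
    (g : (Fin (dg K) → ℤ) → ℂ) (hg : ∀ z, ‖g z‖ ≤ gs (ρ • AX b x) 0 z)
    (S : Finset (Fin (dg K) → ℤ)) :
    ∑ y : 𝓞 K ⧸ (f * m), ‖∑ z ∈ S, g z * F (Quotient.out y + el b z)‖ ^ 4 ≤
      3 * Ideal.absNorm (f * m) * (B * (1 + mm I x.2 / ρ ^ (dg K))) ^ 2 +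
      4 * (Ideal.absNorm f * ((tau m : ℝ) ^ 2 * √(Ideal.absNorm m))) *
      ((B * (1 + 2 ^ (dg K) * (mm I x.2 / ρ ^ (dg K)))) *
        (tau m * (C1 * (√8 ^ (dg K) * (mm I x.2 / ρ ^ (dg K))))) ^ 3) := by
  classical
  have hMM := mm_pos hI x.2
  set M' := mm I x.2 / ρ ^ (dg K) with hM'
  have hM'0 : 0 < M' := by positivity
  set A' := ρ • AX b x with hA'
  set c : (Fin (dg K) → ℤ) → ℝ := gs A' 0 with hc
  have hc0 : ∀ z, 0 ≤ c z := fun z => (gs_pos _ _ _).le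
  have hdet : A'.det ≠ 0 := smul_det_ne hρ.ne' (det_AX_ne hI b x)
  have hCB : CB B A' := (hB I hI b x).smul hρ
  have hMv : Mv A' = M' := by
    rw [hA', Mv_smul hρ, Mv_AX, Fintype.card_fin]
  have hcs := gs_summable hdet (0 : Fin (dg K) → ℝ)
  have hcI : IsCoprime I m := IsCoprime.of_mul_right_right hIc
  set A : ℝ := Ideal.absNorm f * ((tau m : ℝ) ^ 2 * √(Ideal.absNorm m)) with hAdef
  have hA0 : 0 ≤ A := by positivity
  set Y := tau m * (C1 * (√8 ^ (dg K) * M')) with hY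
  have hY0 : 0 ≤ Y := by positivity
  have h1 := four_exp (Y := 𝓞 K ⧸ (f * m)) S g c hg (fun z y => F (Quotient.out y + el b z))
  refine h1.trans ?_
  have h2 : ∑ z1 ∈ S, ∑ z2 ∈ S, ∑ z3 ∈ S, ∑ z4 ∈ S, (c z1 * c z2 * c z3 * c z4) *
      ‖∑ y : 𝓞 K ⧸ (f * m), F (Quotient.out y + el b z1) * F (Quotient.out y + el b z2) *
        (starRingEnd ℂ) (F (Quotient.out y + el b z3)) *
        (starRingEnd ℂ) (F (Quotient.out y + el b z4))‖ ≤
      ∑ z1 ∈ S, ∑ z2 ∈ S, ∑ z3 ∈ S, ∑ z4 ∈ S, (c z1 * c z2 * c z3 * c z4) *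
      (Ideal.absNorm (f * m) * Dg z1 z2 z3 z4 +
      A * (Pw m (el b) z1 z2 * Pw m (el b) z1 z3 * Pw m (el b) z1 z4 +
        Pw m (el b) z2 z1 * Pw m (el b) z2 z3 * Pw m (el b) z2 z4 +
        Pw m (el b) z3 z1 * Pw m (el b) z3 z2 * Pw m (el b) z3 z4 +
        Pw m (el b) z4 z1 * Pw m (el b) z4 z2 * Pw m (el b) z4 z3)) := by
    refine sum_le_sum fun z1 _ => sum_le_sum fun z2 _ => sum_le_sum fun z3 _ =>
      sum_le_sum fun z4 _ => ?_
    refine mul_le_mul_of_nonneg_left ?_ (mul_nonneg (mul_nonneg (mul_nonneg (hc0 _) (hc0 _))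
      (hc0 _)) (hc0 _))
    have h3 := PF_pt hf0 hm0 hfc hcf hF (el b) z1 z2 z3 z4
    refine (le_of_eq ?_).trans h3
    unfold sQ PF
    congr 1
    refine sum_congr rfl fun y _ => ?_
    ring
  refine h2.trans ?_
  set P := Pw m (el b) with hP
  have hcube : ∑ w ∈ S, c w * (∑ z ∈ S, c z * P w z) ^ 3 ≤
      (B * (1 + 2 ^ (dg K) * M')) * Y ^ 3 := by
    have h3 : ∀ w ∈ S, c w * (∑ z ∈ S, c z * P w z) ^ 3 ≤ gs ((2 : ℝ)⁻¹ • A') 0 w * Y ^ 3 := by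
      intro w _
      have h4 := off_sum hB hC1 hI hm0 hcI b x hρ S w
      rw [← hA', ← hM', ← hY] at h4
      set u := gs ((2 : ℝ)⁻¹ • A') 0 w with hu
      have hu0 : 0 ≤ u := (gs_pos _ _ _).le
      have e1 : ∑ z ∈ S, (u * gs A' 0 z) * Pw m (el b) w z = u * ∑ z ∈ S, c z * P w z := by
        rw [mul_sum]
        refine sum_congr rfl fun z _ => ?_
        rw [hc, hP]
        ring
      rw [e1] at h4
      have h5 : 0 ≤ ∑ z ∈ S, c z * P w z := sum_nonneg fun z _ =>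
        mul_nonneg (hc0 z) (Pw_nonneg _ _ _ _)
      have e2 : c w = u ^ 4 := gs_fourth A' w
      calc c w * (∑ z ∈ S, c z * P w z) ^ 3 = u * (u * ∑ z ∈ S, c z * P w z) ^ 3 := by
            rw [e2]; ring
        _ ≤ u * Y ^ 3 := mul_le_mul_of_nonneg_left
            (pow_le_pow_left₀ (mul_nonneg hu0 h5) h4 3) hu0
    refine (sum_le_sum h3).trans ?_
    rw [← sum_mul]
    refine mul_le_mul_of_nonneg_right ?_ (by positivity)
    have h6 := gs_summable (smul_det_ne (show ((2 : ℝ)⁻¹) ≠ 0 by norm_num) hdet)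
      (0 : Fin (dg K) → ℝ)
    refine (h6.sum_le_tsum S fun z _ => (gs_pos _ _ _).le).trans ?_
    refine ((hCB.smul (by norm_num : (0 : ℝ) < 2⁻¹)).one 0).trans (le_of_eq ?_)
    rw [Mv_smul (by norm_num), hMv, Fintype.card_fin, inv_pow, div_inv_eq_mul]
    ring
  have hdiag : 3 * (∑ z ∈ S, c z ^ 2) ^ 2 ≤ 3 * (B * (1 + M')) ^ 2 := by
    have h3 : ∑ z ∈ S, c z ^ 2 ≤ B * (1 + M') := by
      calc ∑ z ∈ S, c z ^ 2 ≤ ∑ z ∈ S, c z := sum_le_sum fun z _ => by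
            have := gs_le_one A' 0 z
            have := hc0 z
            rw [sq]
            exact mul_le_of_le_one_left (hc0 z) (gs_le_one A' 0 z)
        _ ≤ ∑' z, c z := hcs.sum_le_tsum S fun z _ => hc0 z
        _ ≤ _ := by
            have := hCB.one 0
            rwa [hMv] at this
    have h4 : 0 ≤ ∑ z ∈ S, c z ^ 2 := sum_nonneg fun z _ => by positivity
    have := pow_le_pow_left₀ h4 h3 2
    linarith
  have e3 : ∑ z1 ∈ S, ∑ z2 ∈ S, ∑ z3 ∈ S, ∑ z4 ∈ S, (c z1 * c z2 * c z3 * c z4) *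
      (Ideal.absNorm (f * m) * Dg z1 z2 z3 z4 +
      A * (P z1 z2 * P z1 z3 * P z1 z4 + P z2 z1 * P z2 z3 * P z2 z4 +
        P z3 z1 * P z3 z2 * P z3 z4 + P z4 z1 * P z4 z2 * P z4 z3)) =
      (Ideal.absNorm (f * m) : ℝ) * (3 * (∑ z ∈ S, c z ^ 2) ^ 2) +
      A * (4 * ∑ w ∈ S, c w * (∑ z ∈ S, c z * P w z) ^ 3) := by
    have t1 := cube_sum S c P
    have t2 : ∑ z1 ∈ S, ∑ z2 ∈ S, ∑ z3 ∈ S, ∑ z4 ∈ S, (c z1 * c z2 * c z3 * c z4) *
        (P z2 z1 * P z2 z3 * P z2 z4) = ∑ w ∈ S, c w * (∑ x ∈ S, c x * P w x) ^ 3 := by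
      rw [← t1, ← sum_213 S (fun z1 z2 z3 z4 => (c z1 * c z2 * c z3 * c z4) *
        (P z1 z2 * P z1 z3 * P z1 z4))]
      refine sum_congr rfl fun z1 _ => sum_congr rfl fun z2 _ => sum_congr rfl fun z3 _ =>
        sum_congr rfl fun z4 _ => ?_
      ring
    have t3 : ∑ z1 ∈ S, ∑ z2 ∈ S, ∑ z3 ∈ S, ∑ z4 ∈ S, (c z1 * c z2 * c z3 * c z4) *
        (P z3 z1 * P z3 z2 * P z3 z4) = ∑ w ∈ S, c w * (∑ x ∈ S, c x * P w x) ^ 3 := by
      rw [← t1, ← sum_312 S (fun z1 z2 z3 z4 => (c z1 * c z2 * c z3 * c z4) *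
        (P z1 z2 * P z1 z3 * P z1 z4))]
      refine sum_congr rfl fun z1 _ => sum_congr rfl fun z2 _ => sum_congr rfl fun z3 _ =>
        sum_congr rfl fun z4 _ => ?_
      ring
    have t4 : ∑ z1 ∈ S, ∑ z2 ∈ S, ∑ z3 ∈ S, ∑ z4 ∈ S, (c z1 * c z2 * c z3 * c z4) *
        (P z4 z1 * P z4 z2 * P z4 z3) = ∑ w ∈ S, c w * (∑ x ∈ S, c x * P w x) ^ 3 := by
      rw [← t1, ← sum_4123 S (fun z1 z2 z3 z4 => (c z1 * c z2 * c z3 * c z4) *
        (P z1 z2 * P z1 z3 * P z1 z4))]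
      refine sum_congr rfl fun z1 _ => sum_congr rfl fun z2 _ => sum_congr rfl fun z3 _ =>
        sum_congr rfl fun z4 _ => ?_
      ring
    have t0 := diag_sum S c
    have e4 : ∀ z1 z2 z3 z4 : Fin (dg K) → ℤ, (c z1 * c z2 * c z3 * c z4) *
      (Ideal.absNorm (f * m) * Dg z1 z2 z3 z4 +
      A * (P z1 z2 * P z1 z3 * P z1 z4 + P z2 z1 * P z2 z3 * P z2 z4 +
        P z3 z1 * P z3 z2 * P z3 z4 + P z4 z1 * P z4 z2 * P z4 z3)) =
      (Ideal.absNorm (f * m) : ℝ) * ((c z1 * c z2 * c z3 * c z4) * Dg z1 z2 z3 z4) +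
      A * ((c z1 * c z2 * c z3 * c z4) * (P z1 z2 * P z1 z3 * P z1 z4)) +
      A * ((c z1 * c z2 * c z3 * c z4) * (P z2 z1 * P z2 z3 * P z2 z4)) +
      A * ((c z1 * c z2 * c z3 * c z4) * (P z3 z1 * P z3 z2 * P z3 z4)) +
      A * ((c z1 * c z2 * c z3 * c z4) * (P z4 z1 * P z4 z2 * P z4 z3)) := by
      intro z1 z2 z3 z4
      ring
    simp_rw [e4, sum_add_distrib, ← mul_sum]
    rw [t0, t1, t2, t3, t4]
    ring
  rw [e3]
  have hN : (0 : ℝ) ≤ Ideal.absNorm (f * m) := Nat.cast_nonneg _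
  calc (Ideal.absNorm (f * m) : ℝ) * (3 * (∑ z ∈ S, c z ^ 2) ^ 2) +
      A * (4 * ∑ w ∈ S, c w * (∑ z ∈ S, c z * P w z) ^ 3) ≤
      (Ideal.absNorm (f * m) : ℝ) * (3 * (B * (1 + M')) ^ 2) +
      A * (4 * ((B * (1 + 2 ^ (dg K) * M')) * Y ^ 3)) := by
        refine add_le_add (mul_le_mul_of_nonneg_left hdiag hN)
          (mul_le_mul_of_nonneg_left ?_ hA0)
        linarith
    _ = _ := by ring

/-- the fourth moment -/
theorem four_mom {B C1 : ℝ} (hB1 : 1 ≤ B) (hB : CBI K B) (hC10 : 0 < C1)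
    (hC1 : ∀ A : Matrix (Fin (dg K)) (Fin (dg K)) ℝ,
    A.det ≠ 0 → CB B A → ∑' z, (if z = 0 then 0 else gs A 0 z) ≤ C1 * Mv A)
    {f m I : Ideal (𝓞 K)} (hf0 : f ≠ ⊥) (hm0 : m ≠ ⊥) (hfc : IsCoprime f m)
    (hcf : ∀ P : Ideal (𝓞 K), Prime P → ¬ P ^ 3 ∣ m) (hI : I ≠ ⊥) (hIc : IsCoprime I (f * m))
    [Fintype (𝓞 K ⧸ (f * m))] {F : 𝓞 K → ℂ} (hF : PM (f * m) F)
    (b : Basis (Fin (dg K)) ℤ I) (x : LS K) {ρ : ℝ} (hρ : 0 < ρ)
    (g : (Fin (dg K) → ℤ) → ℂ) (hg : ∀ z, ‖g z‖ ≤ gs (ρ • AX b x) 0 z) :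
    ∑ y : 𝓞 K ⧸ (f * m), ‖∑' z, g z * F (Quotient.out y + el b z)‖ ^ 4 ≤
      3 * Ideal.absNorm (f * m) * (B * (1 + mm I x.2 / ρ ^ (dg K))) ^ 2 +
      4 * (Ideal.absNorm f * ((tau m : ℝ) ^ 2 * √(Ideal.absNorm m))) *
      ((B * (1 + 2 ^ (dg K) * (mm I x.2 / ρ ^ (dg K)))) *
        (tau m * (C1 * (√8 ^ (dg K) * (mm I x.2 / ρ ^ (dg K))))) ^ 3) := by
  classical
  have hdet : (ρ • AX b x).det ≠ 0 := smul_det_ne hρ.ne' (det_AX_ne hI b x)
  have hcs := gs_summable hdet (0 : Fin (dg K) → ℝ)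
  have hs : ∀ y : 𝓞 K ⧸ (f * m), Summable fun z => g z * F (Quotient.out y + el b z) := by
    intro y
    refine Summable.of_norm (Summable.of_nonneg_of_le (fun z => norm_nonneg _) (fun z => ?_) hcs)
    rw [norm_mul]
    exact (mul_le_of_le_one_right (norm_nonneg _) (hF.le_one _)).trans (hg z)
  have ht : Filter.Tendsto (fun S : Finset (Fin (dg K) → ℤ) =>
      ∑ y : 𝓞 K ⧸ (f * m), ‖∑ z ∈ S, g z * F (Quotient.out y + el b z)‖ ^ 4) Filter.atTop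
      (nhds (∑ y : 𝓞 K ⧸ (f * m), ‖∑' z, g z * F (Quotient.out y + el b z)‖ ^ 4)) := by
    refine tendsto_finsetSum _ fun y _ => ?_
    exact ((hs y).hasSum.norm.pow 4)
  exact le_of_tendsto ht (Filter.Eventually.of_forall fun S =>
    four_fin hB1 hB hC10 hC1 hf0 hm0 hfc hcf hI hIc hF b x hρ g hg S)

end Pool.Agent.T2H29.SW
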