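import Pool.Agent.T2H29.SW.U6

/-!
# Separation of the variables
-/

set_option autoImplicit false
set_option linter.unusedSectionVars false

namespace Pool.Agent.T2H29.SW

open Finset MeasureTheory
open scoped RealInnerProductSpace

variable {ι : Type} [Fintype ι] [DecidableEq ι]

/-- the Fourier transform of the Gaussian -/
lemma gft : ∃ κ : ℂ, ‖κ‖ ≤ 1 ∧ ∀ y : EuclideanSpace ℝ ι,
    ((Real.exp (-(2 * Real.pi * ‖y‖ ^ 2)) : ℝ) : ℂ) =
      κ * ∫ τ : EuclideanSpace ℝ ι, ((Real.exp (-(Real.pi / 2 * ‖τ‖ ^ 2)) : ℝ) : ℂ) * e ⟪y, τ⟫ := by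
  have hπ := Real.pi_pos
  have hb : 0 < (((Real.pi / 2 : ℝ) : ℂ)).re := by
    rw [Complex.ofReal_re]
    positivity
  have h2 : ((Real.pi : ℂ) / ((Real.pi / 2 : ℝ) : ℂ)) = ((2 : ℝ) : ℂ) := by
    have : (Real.pi : ℂ) ≠ 0 := by exact_mod_cast hπ.ne'
    push_cast
    field_simp
  set P : ℂ := ((2 : ℝ) : ℂ) ^ ((Fintype.card ι : ℂ) / 2) with hP
  have hP1 : 1 ≤ ‖P‖ := by
    rw [hP, Complex.norm_cpow_eq_rpow_re_of_pos (by norm_num)]
    refine Real.one_le_rpow (by norm_num) ?_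
    have : ((Fintype.card ι : ℂ) / 2).re = (Fintype.card ι : ℝ) / 2 := by
      have e1 : ((Fintype.card ι : ℂ) / 2) = (((Fintype.card ι : ℝ) / 2 : ℝ) : ℂ) := by
        push_cast
        rfl
      rw [e1, Complex.ofReal_re]
    rw [this]
    positivity
  have hP0 : P ≠ 0 := by
    intro h
    rw [h, norm_zero] at hP1
    linarith
  refine ⟨P⁻¹, ?_, fun y => ?_⟩
  · rw [norm_inv]
    exact inv_le_one_of_one_le₀ hP1
  · have h1 := GaussianFourier.integral_cexp_neg_mul_sq_norm_add_of_euclideanSpace (ι := ι) hb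
      (2 * Real.pi * Complex.I) y
    rw [h2, ← hP] at h1
    have e1 : (fun τ : EuclideanSpace ℝ ι =>
        ((Real.exp (-(Real.pi / 2 * ‖τ‖ ^ 2)) : ℝ) : ℂ) * e ⟪y, τ⟫) =
        fun v => Complex.exp (-((Real.pi / 2 : ℝ) : ℂ) * (‖v‖ : ℂ) ^ 2 +
          2 * Real.pi * Complex.I * ((⟪y, v⟫ : ℝ) : ℂ)) := by
      funext v
      unfold e
      rw [Complex.ofReal_exp, ← Complex.exp_add]
      congr 1
      push_cast
      ring
    rw [e1, h1, ← mul_assoc, inv_mul_cancel₀ hP0, one_mul, Complex.ofReal_exp]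
    congr 1
    have : (Real.pi : ℂ) ≠ 0 := by exact_mod_cast hπ.ne'
    push_cast
    have e2 : (2 * (Real.pi : ℂ) * Complex.I) ^ 2 = -(4 * (Real.pi : ℂ) ^ 2) := by
      rw [mul_pow, mul_pow, Complex.I_sq]
      ring
    rw [e2]
    field_simp

/-- the weight function -/
noncomputable def Kf (τ : EuclideanSpace ℝ ι) : ℝ := ((1 + ‖τ‖) ^ (Fintype.card ι + 1))⁻¹

lemma Kf_pos (τ : EuclideanSpace ℝ ι) : 0 < Kf τ := by
  unfold Kf
  positivity

lemma Kf_cont : Continuous (Kf : EuclideanSpace ℝ ι → ℝ) := by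
  unfold Kf
  refine Continuous.inv₀ (by fun_prop) fun τ => ?_
  positivity

lemma Kf_int : Integrable (Kf : EuclideanSpace ℝ ι → ℝ) := by
  have h := integrable_one_add_norm (E := EuclideanSpace ℝ ι) (μ := volume)
    (r := (Fintype.card ι : ℝ) + 1) (by rw [finrank_euclideanSpace]; linarith)
  refine h.congr (Filter.Eventually.of_forall fun τ => ?_)
  beta_reduce
  unfold Kf
  rw [Real.rpow_neg (by positivity)]
  congr 1
  have : ((Fintype.card ι : ℝ) + 1) = ((Fintype.card ι + 1 : ℕ) : ℝ) := by push_cast; rfl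
  rw [this, Real.rpow_natCast]

variable {Z : Type}

/-- the short sum -/
noncomputable def Bt (R : ℝ) (S : Finset Z) (v : Z → EuclideanSpace ℝ ι) (h : Z → ℂ)
    (τ : EuclideanSpace ℝ ι) : ℂ :=
  ∑ z ∈ S, ((Real.exp (-(2 * Real.pi * R ^ 2 * ‖v z‖ ^ 2)) : ℝ) : ℂ) * e (R * ⟪τ, v z⟫) * h z

lemma Bt_cont (R : ℝ) (S : Finset Z) (v : Z → EuclideanSpace ℝ ι) (h : Z → ℂ) :
    Continuous (Bt R S v h) := by
  unfold Bt
  refine continuous_finsetSum _ fun z _ => ?_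
  refine Continuous.mul (Continuous.mul continuous_const ?_) continuous_const
  exact e_continuous.comp (by fun_prop)

lemma Bt_le (R : ℝ) (S : Finset Z) (v : Z → EuclideanSpace ℝ ι) (h : Z → ℂ)
    (τ : EuclideanSpace ℝ ι) : ‖Bt R S v h τ‖ ≤ ∑ z ∈ S, ‖h z‖ := by
  unfold Bt
  refine (norm_sum_le _ _).trans (sum_le_sum fun z _ => ?_)
  rw [norm_mul, norm_mul, e_norm, mul_one, Complex.norm_real, Real.norm_of_nonneg (Real.exp_pos _).le]
  refine mul_le_of_le_one_left (norm_nonneg _) ?_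
  rw [Real.exp_le_one_iff]
  have := Real.pi_pos
  have : 0 ≤ 2 * Real.pi * R ^ 2 * ‖v z‖ ^ 2 := by positivity
  linarith

lemma KfBt_int (R : ℝ) (S : Finset Z) (v : Z → EuclideanSpace ℝ ι) (h : Z → ℂ) :
    Integrable fun τ => Kf τ * ‖Bt R S v h τ‖ := by
  refine (Kf_int.mul_const (∑ z ∈ S, ‖h z‖)).mono' ?_ (Filter.Eventually.of_forall fun τ => ?_)
  · exact (Kf_cont.mul (Bt_cont R S v h).norm).aestronglyMeasurable
  · rw [norm_mul, norm_norm, Real.norm_of_nonneg (Kf_pos τ).le]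
    exact mul_le_mul_of_nonneg_left (Bt_le R S v h τ) (Kf_pos τ).le

lemma gauss_int : Integrable fun τ : EuclideanSpace ℝ ι =>
    Real.exp (-(Real.pi / 2 * ‖τ‖ ^ 2)) := by
  have hπ := Real.pi_pos
  have hb : 0 < (((Real.pi / 2 : ℝ) : ℂ)).re := by
    rw [Complex.ofReal_re]
    positivity
  have h := (GaussianFourier.integrable_cexp_neg_mul_sq_norm_add_of_euclideanSpace (ι := ι) hb
    0 0).norm
  refine h.congr (Filter.Eventually.of_forall fun τ => ?_)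
  beta_reduce
  rw [Complex.norm_exp, zero_mul, add_zero]
  congr 1
  have : (-((Real.pi / 2 : ℝ) : ℂ) * (‖τ‖ : ℂ) ^ 2) = ((-(Real.pi / 2 * ‖τ‖ ^ 2) : ℝ) : ℂ) := by
    push_cast
    ring
  rw [this, Complex.ofReal_re]

/-- separation of the variables -/
theorem sepG : ∃ C : ℝ, 0 < C ∧ ∀ (T : EuclideanSpace ℝ ι →L[ℝ] EuclideanSpace ℝ ι) (R : ℝ),
    0 < R → (∀ v, ‖T v‖ ≤ R * ‖v‖) → ∀ (p ξ : EuclideanSpace ℝ ι) (Z : Type) (S : Finset Z)
    (v : Z → EuclideanSpace ℝ ι) (h : Z → ℂ),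
    ‖∑ z ∈ S, ((Real.exp (-(Real.pi * ‖p + T (v z)‖ ^ 2)) *
      Real.exp (-(Real.pi * (4 * R ^ 2 * ‖v z‖ ^ 2 - ‖T (v z)‖ ^ 2))) : ℝ) : ℂ) *
      e ⟪ξ, p + T (v z)⟫ * h z‖ ≤
    C * (1 + ‖ξ‖) ^ (Fintype.card ι + 1) * Real.exp (-(Real.pi / 2 * ‖p‖ ^ 2)) *
      ∫ τ, Kf τ * ‖Bt R S v h τ‖ := by
  obtain ⟨κ, hκ1, hκ⟩ := gft (ι := ι)
  obtain ⟨Cg, hCg0, hCg⟩ := gauss_decay (Fintype.card ι + 1)
  refine ⟨Cg, hCg0, fun T R hR hT p ξ Z S v h => ?_⟩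
  have hπ := Real.pi_pos
  set Ta := ContinuousLinearMap.adjoint T with hTa
  have hTn : ‖T‖ ≤ R := T.opNorm_le_bound hR.le hT
  have hTan : ∀ w, ‖Ta w‖ ≤ R * ‖w‖ := by
    intro w
    refine (Ta.le_opNorm w).trans ?_
    refine mul_le_mul_of_nonneg_right ?_ (norm_nonneg _)
    rw [hTa, LinearIsometryEquiv.norm_map]
    exact hTn
  set u := (2 * R)⁻¹ • Ta p with hu
  set η := R⁻¹ • Ta ξ with hη
  have hun : ‖u‖ ≤ ‖p‖ / 2 := by
    rw [hu, norm_smul, norm_inv, Real.norm_of_nonneg (by positivity)]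
    calc (2 * R)⁻¹ * ‖Ta p‖ ≤ (2 * R)⁻¹ * (R * ‖p‖) :=
          mul_le_mul_of_nonneg_left (hTan p) (by positivity)
      _ = ‖p‖ / 2 := by field_simp
  have hηn : ‖η‖ ≤ ‖ξ‖ := by
    rw [hη, norm_smul, norm_inv, Real.norm_of_nonneg hR.le]
    calc R⁻¹ * ‖Ta ξ‖ ≤ R⁻¹ * (R * ‖ξ‖) := mul_le_mul_of_nonneg_left (hTan ξ) (by positivity)
      _ = ‖ξ‖ := by field_simp
  set A0 : ℝ := Real.exp (-(Real.pi * ‖p‖ ^ 2) + 2 * Real.pi * ‖u‖ ^ 2) with hA0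
  have hA0le : A0 ≤ Real.exp (-(Real.pi / 2 * ‖p‖ ^ 2)) := by
    rw [hA0]
    apply Real.exp_le_exp.2
    have h1 : ‖u‖ ^ 2 ≤ (‖p‖ / 2) ^ 2 := pow_le_pow_left₀ (norm_nonneg _) hun 2
    nlinarith
  -- the pointwise identity
  have hpt : ∀ z, ((Real.exp (-(Real.pi * ‖p + T (v z)‖ ^ 2)) *
      Real.exp (-(Real.pi * (4 * R ^ 2 * ‖v z‖ ^ 2 - ‖T (v z)‖ ^ 2))) : ℝ) : ℂ) *
      e ⟪ξ, p + T (v z)⟫ * h z = ((A0 : ℝ) : ℂ) * e ⟪ξ, p⟫ * κ *
      ∫ τ : EuclideanSpace ℝ ι, (((Real.exp (-(Real.pi / 2 * ‖τ‖ ^ 2)) : ℝ) : ℂ) * e ⟪u, τ⟫) *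
        (((Real.exp (-(2 * Real.pi * R ^ 2 * ‖v z‖ ^ 2)) : ℝ) : ℂ) *
        e (R * ⟪τ + η, v z⟫) * h z) := by
    intro z
    set V := v z with hV
    have i1 : ⟪p, T V⟫ = 2 * R * ⟪V, u⟫ := by
      rw [hu, inner_smul_right, hTa, ContinuousLinearMap.adjoint_inner_right,
        real_inner_comm]
      field_simp
    have i2 : ⟪ξ, T V⟫ = R * ⟪η, V⟫ := by
      rw [hη, inner_smul_left, hTa, ContinuousLinearMap.adjoint_inner_left]
      simp only [map_inv₀, conj_trivial]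
      field_simp
    have n1 : ‖p + T V‖ ^ 2 = ‖p‖ ^ 2 + 2 * (2 * R * ⟪V, u⟫) + ‖T V‖ ^ 2 := by
      rw [norm_add_sq_real, i1]
    have n2 : ‖R • V + u‖ ^ 2 = R ^ 2 * ‖V‖ ^ 2 + 2 * (R * ⟪V, u⟫) + ‖u‖ ^ 2 := by
      rw [norm_add_sq_real, inner_smul_left, norm_smul, mul_pow, Real.norm_eq_abs, sq_abs]
      simp only [conj_trivial]
    have r1 : Real.exp (-(Real.pi * ‖p + T V‖ ^ 2)) *
        Real.exp (-(Real.pi * (4 * R ^ 2 * ‖V‖ ^ 2 - ‖T V‖ ^ 2))) =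
        A0 * Real.exp (-(2 * Real.pi * R ^ 2 * ‖V‖ ^ 2)) *
        Real.exp (-(2 * Real.pi * ‖R • V + u‖ ^ 2)) := by
      rw [hA0, ← Real.exp_add, ← Real.exp_add, ← Real.exp_add, n1, n2]
      congr 1
      ring
    rw [r1, inner_add_right, e_add, i2]
    push_cast
    have hk := hκ (R • V + u)
    push_cast at hk
    rw [hk]
    have e3 : ∫ τ : EuclideanSpace ℝ ι,
        (Complex.exp (-(Real.pi / 2 * (‖τ‖ : ℂ) ^ 2)) * e ⟪u, τ⟫) *
        (Complex.exp (-(2 * Real.pi * (R : ℂ) ^ 2 * (‖V‖ : ℂ) ^ 2)) * e (R * ⟪τ + η, V⟫) * h z) =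
        (Complex.exp (-(2 * Real.pi * (R : ℂ) ^ 2 * (‖V‖ : ℂ) ^ 2)) * e (R * ⟪η, V⟫) * h z) *
        ∫ τ : EuclideanSpace ℝ ι, Complex.exp (-(Real.pi / 2 * (‖τ‖ : ℂ) ^ 2)) *
          e ⟪R • V + u, τ⟫ := by
      rw [← integral_const_mul]
      congr 1
      funext τ
      have e4 : e ⟪R • V + u, τ⟫ = e (R * ⟪τ, V⟫) * e ⟪u, τ⟫ := by
        rw [inner_add_left, e_add, inner_smul_left, conj_trivial, real_inner_comm]
      have e5 : e (R * ⟪τ + η, V⟫) = e (R * ⟪τ, V⟫) * e (R * ⟪η, V⟫) := by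
        rw [inner_add_left, mul_add, e_add]
      rw [e4, e5]
      ring
    rw [e3]
    ring
  have hint : ∀ z, Integrable fun τ : EuclideanSpace ℝ ι =>
      (((Real.exp (-(Real.pi / 2 * ‖τ‖ ^ 2)) : ℝ) : ℂ) * e ⟪u, τ⟫) *
        (((Real.exp (-(2 * Real.pi * R ^ 2 * ‖v z‖ ^ 2)) : ℝ) : ℂ) *
        e (R * ⟪τ + η, v z⟫) * h z) := by
    intro z
    refine (gauss_int.mul_const ‖h z‖).mono' ?_ (Filter.Eventually.of_forall fun τ => ?_)
    · refine Continuous.aestronglyMeasurable ?_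
      refine Continuous.mul (Continuous.mul (by fun_prop) (e_continuous.comp (by fun_prop)))
        (Continuous.mul (Continuous.mul continuous_const (e_continuous.comp (by fun_prop)))
          continuous_const)
    · rw [norm_mul, norm_mul, norm_mul, norm_mul, e_norm, e_norm, Complex.norm_real,
        Complex.norm_real, Real.norm_of_nonneg (Real.exp_pos _).le,
        Real.norm_of_nonneg (Real.exp_pos _).le, mul_one, mul_one]
      refine mul_le_mul_of_nonneg_left ?_ (Real.exp_pos _).le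
      refine mul_le_of_le_one_left (norm_nonneg _) ?_
      rw [Real.exp_le_one_iff]
      have : 0 ≤ 2 * Real.pi * R ^ 2 * ‖v z‖ ^ 2 := by positivity
      linarith
  have hsum : ∑ z ∈ S, ((Real.exp (-(Real.pi * ‖p + T (v z)‖ ^ 2)) *
      Real.exp (-(Real.pi * (4 * R ^ 2 * ‖v z‖ ^ 2 - ‖T (v z)‖ ^ 2))) : ℝ) : ℂ) *
      e ⟪ξ, p + T (v z)⟫ * h z = ((A0 : ℝ) : ℂ) * e ⟪ξ, p⟫ * κ *
      ∫ τ : EuclideanSpace ℝ ι, (((Real.exp (-(Real.pi / 2 * ‖τ‖ ^ 2)) : ℝ) : ℂ) * e ⟪u, τ⟫) *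
        Bt R S v h (τ + η) := by
    rw [sum_congr rfl fun z _ => hpt z, ← mul_sum, ← integral_finset_sum _ fun z _ => hint z]
    congr 2
    funext τ
    unfold Bt
    rw [mul_sum]
  rw [hsum, norm_mul, norm_mul, norm_mul, e_norm, mul_one, Complex.norm_real,
    Real.norm_of_nonneg (by rw [hA0]; positivity)]
  have h1 : ‖∫ τ : EuclideanSpace ℝ ι, (((Real.exp (-(Real.pi / 2 * ‖τ‖ ^ 2)) : ℝ) : ℂ) *
      e ⟪u, τ⟫) * Bt R S v h (τ + η)‖ ≤ ∫ τ : EuclideanSpace ℝ ι,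
      Real.exp (-(Real.pi / 2 * ‖τ - η‖ ^ 2)) * ‖Bt R S v h τ‖ := by
    refine (norm_integral_le_integral_norm _).trans (le_of_eq ?_)
    rw [← integral_sub_right_eq_self _ η]
    congr 1
    funext τ
    rw [norm_mul, norm_mul, e_norm, mul_one, Complex.norm_real,
      Real.norm_of_nonneg (Real.exp_pos _).le, sub_add_cancel]
  have h2 : ∫ τ : EuclideanSpace ℝ ι, Real.exp (-(Real.pi / 2 * ‖τ - η‖ ^ 2)) *
      ‖Bt R S v h τ‖ ≤ ∫ τ : EuclideanSpace ℝ ι, (Cg * (1 + ‖ξ‖) ^ (Fintype.card ι + 1)) *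
      (Kf τ * ‖Bt R S v h τ‖) := by
    refine integral_mono_of_nonneg (Filter.Eventually.of_forall fun τ => ?_)
      ((KfBt_int R S v h).const_mul _) (Filter.Eventually.of_forall fun τ => ?_)
    · exact mul_nonneg (Real.exp_pos _).le (norm_nonneg _)
    · beta_reduce
      rw [← mul_assoc]
      refine mul_le_mul_of_nonneg_right ?_ (norm_nonneg _)
      set a := ‖τ - η‖ with ha
      have ha0 : 0 ≤ a := norm_nonneg _
      have h3 : 1 + ‖τ‖ ≤ (1 + a) * (1 + ‖ξ‖) := by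
        have h4 : ‖τ‖ ≤ a + ‖η‖ := by
          have : τ = (τ - η) + η := by abel
          calc ‖τ‖ = ‖(τ - η) + η‖ := by rw [← this]
            _ ≤ _ := norm_add_le _ _
        nlinarith [norm_nonneg ξ]
      have h5 := hCg a ha0
      have h6 : (1 + a) ^ (Fintype.card ι + 1) ≤ (1 + a) ^ (2 * (Fintype.card ι + 1)) :=
        pow_le_pow_right₀ (by linarith) (by omega)
      have h7 : Real.exp (-(Real.pi / 2 * a ^ 2)) * (1 + a) ^ (Fintype.card ι + 1) ≤ Cg :=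
        (mul_le_mul_of_nonneg_left h6 (Real.exp_pos _).le).trans h5
      unfold Kf
      rw [← div_eq_mul_inv, le_div_iff₀ (by positivity)]
      calc Real.exp (-(Real.pi / 2 * a ^ 2)) * (1 + ‖τ‖) ^ (Fintype.card ι + 1) ≤
            Real.exp (-(Real.pi / 2 * a ^ 2)) * ((1 + a) * (1 + ‖ξ‖)) ^ (Fintype.card ι + 1) :=
            mul_le_mul_of_nonneg_left (pow_le_pow_left₀ (by positivity) h3 _) (Real.exp_pos _).le
        _ = (Real.exp (-(Real.pi / 2 * a ^ 2)) * (1 + a) ^ (Fintype.card ι + 1)) *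
            (1 + ‖ξ‖) ^ (Fintype.card ι + 1) := by rw [mul_pow]; ring
        _ ≤ _ := mul_le_mul_of_nonneg_right h7 (by positivity)
  rw [integral_const_mul] at h2
  have h0 : 0 ≤ ∫ τ, Kf τ * ‖Bt R S v h τ‖ :=
    integral_nonneg fun τ => mul_nonneg (Kf_pos τ).le (norm_nonneg _)
  have hA00 : 0 ≤ A0 := by rw [hA0]; positivity
  calc A0 * ‖κ‖ * _ ≤ A0 * 1 * ((Cg * (1 + ‖ξ‖) ^ (Fintype.card ι + 1)) *
        ∫ τ, Kf τ * ‖Bt R S v h τ‖) := by
        refine mul_le_mul ?_ (h1.trans h2) (norm_nonneg _) (by positivity)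
        exact mul_le_mul_of_nonneg_left hκ1 hA00
    _ ≤ Real.exp (-(Real.pi / 2 * ‖p‖ ^ 2)) * 1 * ((Cg * (1 + ‖ξ‖) ^ (Fintype.card ι + 1)) *
        ∫ τ, Kf τ * ‖Bt R S v h τ‖) := by
        refine mul_le_mul_of_nonneg_right ?_ (by positivity)
        exact mul_le_mul_of_nonneg_right hA0le zero_le_one
    _ = _ := by ring

end Pool.Agent.T2H29.SW
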