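import Pool.Agent.T2H29.SW.U7

/-!
# Multiplication operators and the shift
-/

set_option autoImplicit false
set_option linter.unusedSectionVars false

namespace Pool.Agent.T2H29.SW

open Finset NumberField NumberField.InfinitePlace NumberField.mixedEmbedding Module MeasureTheory
open scoped RealInnerProductSpace

variable (K : Type) [Field K] [NumberField K]

/-- the coordinates of the multiplication operator -/
noncomputable def cTm (u : InfinitePlace K → ℂ) (v : EK K) : index K → ℝ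
  | Sum.inl w => (u w.1 * lamK K w.1 v).re
  | Sum.inr (w, j) => if j = 0 then √2 * (u w.1 * lamK K w.1 v).re
      else √2 * (u w.1 * lamK K w.1 v).im

/-- the multiplication operator -/
noncomputable def Tl (u : InfinitePlace K → ℂ) : EK K →ₗ[ℝ] EK K where
  toFun v := WithLp.toLp 2 fun i => cTm K u v (eI K i)
  map_add' v v' := by
    ext i
    show cTm K u (v + v') (eI K i) = cTm K u v (eI K i) + cTm K u v' (eI K i)
    rcases eI K i with w | ⟨w, j⟩
    · simp only [cTm]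
      rw [map_add, mul_add, Complex.add_re]
    · simp only [cTm]
      split_ifs
      · rw [map_add, mul_add, Complex.add_re, mul_add]
      · rw [map_add, mul_add, Complex.add_im, mul_add]
  map_smul' c v := by
    ext i
    show cTm K u (c • v) (eI K i) = c * cTm K u v (eI K i)
    rcases eI K i with w | ⟨w, j⟩
    · simp only [cTm]
      rw [map_smul, Complex.real_smul, mul_left_comm, Complex.re_ofReal_mul]
    · simp only [cTm]
      split_ifs
      · rw [map_smul, Complex.real_smul, mul_left_comm, Complex.re_ofReal_mul]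
        ring
      · rw [map_smul, Complex.real_smul, mul_left_comm, Complex.im_ofReal_mul]
        ring

/-- the multiplication operator -/
noncomputable def Tm (u : InfinitePlace K → ℂ) : EK K →L[ℝ] EK K :=
  LinearMap.toContinuousLinearMap (Tl K u)

lemma Tm_apply (u : InfinitePlace K → ℂ) (v : EK K) (i : Fin (dg K)) :
    (Tm K u v) i = cTm K u v (eI K i) := rfl

open scoped Classical in
lemma lamK_Tm {u : InfinitePlace K → ℂ} (hu : ∀ w, IsReal w → (u w).im = 0) (w : InfinitePlace K)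
    (v : EK K) : lamK K w (Tm K u v) = u w * lamK K w v := by
  by_cases h : IsReal w
  · rw [lamK_real K h, Tm_apply, Equiv.apply_symm_apply]
    simp only [cTm]
    have h2 := hu w h
    have h3 := lamK_real K h v
    rw [h3]
    apply Complex.ext
    · simp
    · rw [Complex.ofReal_im, Complex.mul_im, h2, Complex.ofReal_im]
      ring
  · have hc := not_isReal_iff_isComplex.1 h
    rw [lamK_complex K hc, Tm_apply, Tm_apply, Equiv.apply_symm_apply, Equiv.apply_symm_apply]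
    simp only [cTm]
    rw [if_pos trivial, if_neg (by decide)]
    have h2 : (((√2 : ℝ)) : ℂ) ≠ 0 := by
      have : (√2 : ℝ) ≠ 0 := by positivity
      exact_mod_cast this
    set Y := u w * lamK K w v with hY
    have h3 := Complex.re_add_im Y
    push_cast
    calc ((√2 : ℝ) : ℂ)⁻¹ * (((√2 : ℝ) : ℂ) * (Y.re : ℂ) +
        Complex.I * (((√2 : ℝ) : ℂ) * (Y.im : ℂ))) =
        (((√2 : ℝ) : ℂ)⁻¹ * ((√2 : ℝ) : ℂ)) * ((Y.re : ℂ) + (Y.im : ℂ) * Complex.I) := by ring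
      _ = Y := by rw [inv_mul_cancel₀ h2, one_mul, h3]

lemma Tm_norm {u : InfinitePlace K → ℂ} (hu : ∀ w, IsReal w → (u w).im = 0) {R : ℝ} (hR : 0 ≤ R)
    (hR2 : ∀ w, ‖u w‖ ≤ R) (v : EK K) : ‖Tm K u v‖ ≤ R * ‖v‖ := by
  have h1 : ‖Tm K u v‖ ^ 2 ≤ (R * ‖v‖) ^ 2 := by
    rw [lamK_norm, mul_pow, lamK_norm, mul_sum]
    refine sum_le_sum fun w _ => ?_
    rw [lamK_Tm K hu, norm_mul, mul_pow]
    have h2 : ‖u w‖ ^ 2 ≤ R ^ 2 := pow_le_pow_left₀ (norm_nonneg _) (hR2 w) 2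
    have h3 : 0 ≤ (mult w : ℝ) * ‖lamK K w v‖ ^ 2 := by positivity
    calc (mult w : ℝ) * (‖u w‖ ^ 2 * ‖lamK K w v‖ ^ 2) = ‖u w‖ ^ 2 *
          ((mult w : ℝ) * ‖lamK K w v‖ ^ 2) := by ring
      _ ≤ _ := mul_le_mul_of_nonneg_right h2 h3
  exact (pow_le_pow_iff_left₀ (norm_nonneg _) (by positivity) two_ne_zero).1 h1

lemma lamK_inj {v v' : EK K} (h : ∀ w, lamK K w v = lamK K w v') : v = v' := by
  have h1 : ‖v - v'‖ ^ 2 = 0 := by
    rw [lamK_norm]
    refine sum_eq_zero fun w _ => ?_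
    rw [map_sub, h w, sub_self, norm_zero]
    simp
  have h2 : ‖v - v'‖ = 0 := by
    exact pow_eq_zero_iff (two_ne_zero) |>.1 h1
  exact sub_eq_zero.1 (norm_eq_zero.1 h2)

variable {K}

/-- the conjugates -/
noncomputable def sg (a : 𝓞 K) (w : InfinitePlace K) : ℂ := w.embedding (a : K)

lemma sg_real (a : 𝓞 K) (w : InfinitePlace K) (h : IsReal w) : (sg a w).im = 0 := by
  unfold sg
  rw [← embedding_of_isReal_apply h, Complex.ofReal_im]

/-- the vector of an integer -/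
noncomputable def vx (x : LS K) (α : 𝓞 K) : EK K :=
  WithLp.toLp 2 fun i => √(Real.exp (UU K x (plc K i))) * co K i (α : K)

lemma vc_vx {I : Ideal (𝓞 K)} (b : Basis (Fin (dg K)) ℤ I) (x : LS K) (z : Fin (dg K) → ℤ) :
    vc (AX b x) z = vx x (el b z) := by
  unfold vc vx AX
  congr 1
  funext i
  rw [MX_mulVec]

lemma vx_add (x : LS K) (α β : 𝓞 K) : vx x (α + β) = vx x α + vx x β := by
  ext i
  show √(Real.exp (UU K x (plc K i))) * co K i ((α + β : 𝓞 K) : K) =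
    √(Real.exp (UU K x (plc K i))) * co K i (α : K) + √(Real.exp (UU K x (plc K i))) * co K i (β : K)
  push_cast
  rw [map_add]
  ring

lemma vx_zero (x : LS K) : vx x 0 = 0 := by
  have h := vx_add x 0 0
  rw [add_zero] at h
  simpa using h

lemma vx_neg (x : LS K) (α : 𝓞 K) : vx x (-α) = -vx x α := by
  have h := vx_add x α (-α)
  rw [add_neg_cancel, vx_zero] at h
  exact (neg_eq_of_add_eq_zero_right h.symm).symm

lemma vx_sub (x : LS K) (α β : 𝓞 K) : vx x (α - β) = vx x α - vx x β := by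
  rw [sub_eq_add_neg, vx_add, vx_neg, ← sub_eq_add_neg]

lemma lamK_vx (x : LS K) (α : 𝓞 K) (w : InfinitePlace K) : lamK K w (vx x α) =
    ((Real.exp (UU K x w / 2) : ℝ) : ℂ) * sg α w := by
  obtain ⟨b⟩ := exists_bas (⊤ : Ideal (𝓞 K)) top_ne_bot
  have h1 := el_crd b ⟨α, Submodule.mem_top⟩
  have h2 : α = el b (crd b ⟨α, Submodule.mem_top⟩) := h1.symm
  have h3 := lamK_vc b x (crd b ⟨α, Submodule.mem_top⟩) w
  rw [vc_vx, ← h2] at h3
  exact h3

lemma sg_mul (a β : 𝓞 K) (w : InfinitePlace K) : sg (a * β) w = sg a w * sg β w := by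
  unfold sg
  push_cast
  rw [map_mul]

lemma vx_mul (x : LS K) (a α : 𝓞 K) : vx x (a * α) = Tm K (sg a) (vx x α) := by
  refine lamK_inj K fun w => ?_
  rw [lamK_Tm K (sg_real a), lamK_vx, lamK_vx, sg_mul]
  ring

lemma gs_vx {I : Ideal (𝓞 K)} (b : Basis (Fin (dg K)) ℤ I) (x : LS K) (z : Fin (dg K) → ℤ)
    (s : ℝ) : gs (s • AX b x) 0 z = Real.exp (-(Real.pi * (s ^ 2 * ‖vx x (el b z)‖ ^ 2))) := by
  unfold gs
  rw [sub_zero, q_smul, ← vc_norm, vc_vx]

variable (K) in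
/-- the shift -/
theorem shift_bd : ∃ C : ℝ, 0 < C ∧ ∀ (m I : Ideal (𝓞 K)) (F : 𝓞 K → ℂ)
    (b : Basis (Fin (dg K)) ℤ I) (x : LS K) (ξ : EK K) (a a' : 𝓞 K) (R : ℝ)
    (S : Finset (Fin (dg K) → ℤ)), PM m F → I ≠ ⊥ → a * a' - 1 ∈ m → 0 < R →
    (∀ w, ‖sg a w‖ ≤ R) →
    (Summable fun z : Fin (dg K) → ℤ => gs ((√2)⁻¹ • AX b x) 0 z *
      ∫ τ, Kf τ * ‖Bt R S (vc (AX b x)) (fun β => F (a' * el b z + el b β)) τ‖) ∧
    ‖GS (AX b x) 0 (fun z => ee ((AX b x).transpose.mulVec ξ.ofLp) z * F (el b z))‖ *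
      ∑ β ∈ S, gs ((2 * R) • AX b x) 0 β ≤
    C * (1 + ‖ξ‖) ^ (dg K + 1) * ∑' z, gs ((√2)⁻¹ • AX b x) 0 z *
      ∫ τ, Kf τ * ‖Bt R S (vc (AX b x)) (fun β => F (a' * el b z + el b β)) τ‖ := by
  obtain ⟨C, hC0, hC⟩ := sepG (ι := Fin (dg K))
  refine ⟨C, hC0, fun m I F b x ξ a a' R S hF hI haa hR haR => ?_⟩
  have hπ := Real.pi_pos
  set A := AX b x with hA
  have hdet : A.det ≠ 0 := det_AX_ne hI b x
  have hdet2 : ((√2)⁻¹ • A).det ≠ 0 := smul_det_ne (by positivity) hdet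
  set T := Tm K (sg a) with hT
  have hTn : ∀ v, ‖T v‖ ≤ R * ‖v‖ := Tm_norm K (sg_real a) hR.le haR
  set J : (Fin (dg K) → ℤ) → ℝ := fun z =>
    ∫ τ, Kf τ * ‖Bt R S (vc A) (fun β => F (a' * el b z + el b β)) τ‖ with hJ
  have hJ0 : ∀ z, 0 ≤ J z := fun z =>
    integral_nonneg fun τ => mul_nonneg (Kf_pos τ).le (norm_nonneg _)
  set cI : ℝ := ∫ τ : EK K, Kf τ * (S.card : ℝ) with hcI
  have hJ1 : ∀ z, J z ≤ cI := by
    intro z
    refine integral_mono (KfBt_int R S _ _) (Kf_int.mul_const _) fun τ => ?_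
    refine mul_le_mul_of_nonneg_left ?_ (Kf_pos τ).le
    refine (Bt_le R S _ _ τ).trans ?_
    calc ∑ z' ∈ S, ‖F (a' * el b z + el b z')‖ ≤ ∑ z' ∈ S, (1 : ℝ) :=
          sum_le_sum fun z' _ => hF.le_one _
      _ = _ := by simp
  have hJs : Summable fun z => gs ((√2)⁻¹ • A) 0 z * J z :=
    Summable.of_nonneg_of_le (fun z => mul_nonneg (gs_pos _ _ _).le (hJ0 z))
      (fun z => mul_le_mul_of_nonneg_left (hJ1 z) (gs_pos _ _ _).le)
      ((gs_summable hdet2 0).mul_right cI)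
  refine ⟨hJs, ?_⟩
  -- the weights
  set ω : (Fin (dg K) → ℤ) → ℝ := fun β =>
    Real.exp (-(Real.pi * (4 * R ^ 2 * ‖vc A β‖ ^ 2 - ‖T (vc A β)‖ ^ 2))) with hω
  have hω0 : ∀ β, 0 ≤ ω β := fun β => (Real.exp_pos _).le
  have hωl : ∀ β, gs ((2 * R) • A) 0 β ≤ ω β := by
    intro β
    rw [gs_vx, ← vc_vx]
    simp only [hω]
    apply Real.exp_le_exp.2
    have : 0 ≤ ‖T (vc A β)‖ ^ 2 := by positivity
    rw [← hA]
    nlinarith
  set H : (Fin (dg K) → ℤ) → ℂ := fun z => ee (A.transpose.mulVec ξ.ofLp) z * F (el b z) with hH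
  have hHn : ∀ z, ‖H z‖ ≤ 1 := by
    intro z
    simp only [hH]
    rw [norm_mul, ee_norm, one_mul]
    exact hF.le_one _
  have hsum := (GS_summable hdet 0 hHn).of_norm
  -- the shifted sums
  set sh : (Fin (dg K) → ℤ) → (Fin (dg K) → ℤ) := fun β =>
    crd b ⟨a * el b β, Ideal.mul_mem_left _ _ (el_mem b β)⟩ with hsh
  have hel : ∀ z β, el b (z + sh β) = el b z + a * el b β := by
    intro z β
    rw [el_addd, hsh]
    beta_reduce
    rw [el_crd]
  have hGSβ : ∀ β, (∑' z, (gs A 0 (z + sh β) : ℂ) * H (z + sh β)) = GS A 0 H := by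
    intro β
    unfold GS
    exact (Equiv.addRight (sh β)).tsum_eq fun z => (gs A 0 z : ℂ) * H z
  have hsβ : ∀ β, Summable fun z => (gs A 0 (z + sh β) : ℂ) * H (z + sh β) := by
    intro β
    exact (Equiv.addRight (sh β)).summable_iff.2 hsum
  have hFa : ‖F a‖ ≤ 1 := hF.le_one _
  have hterm : ∀ z β, (ω β : ℂ) * ((gs A 0 (z + sh β) : ℂ) * H (z + sh β)) =
      F a * (((Real.exp (-(Real.pi * ‖vc A z + T (vc A β)‖ ^ 2)) * ω β : ℝ) : ℂ) *
        e ⟪ξ, vc A z + T (vc A β)⟫ * F (a' * el b z + el b β)) := by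
    intro z β
    have h1 : vc A (z + sh β) = vc A z + T (vc A β) := by
      rw [hA, vc_vx, hel, vx_add, vx_mul, ← vc_vx, ← vc_vx]
    have h2 : gs A 0 (z + sh β) = Real.exp (-(Real.pi * ‖vc A z + T (vc A β)‖ ^ 2)) := by
      rw [← h1, vc_norm]
      unfold gs
      rw [sub_zero]
    have h3 : F (el b z + a * el b β) = F a * F (a' * el b z + el b β) := by
      rw [← hF.mul]
      refine hF.per _ _ ?_
      have e1 : el b z + a * el b β - a * (a' * el b z + el b β) = -((a * a' - 1) * el b z) := by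
        ring
      rw [e1]
      exact neg_mem (Ideal.mul_mem_right _ _ haa)
    simp only [hH]
    rw [h2, ← vc_inner, h1, hel, h3]
    push_cast
    ring
  have hbd : ∀ z, ‖∑ β ∈ S, (ω β : ℂ) * ((gs A 0 (z + sh β) : ℂ) * H (z + sh β))‖ ≤
      C * (1 + ‖ξ‖) ^ (dg K + 1) * (gs ((√2)⁻¹ • A) 0 z * J z) := by
    intro z
    rw [sum_congr rfl fun β _ => hterm z β, ← mul_sum, norm_mul]
    have h1 := hC T R hR hTn (vc A z) ξ _ S (vc A) (fun β => F (a' * el b z + el b β))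
    rw [Fintype.card_fin] at h1
    have h2 : Real.exp (-(Real.pi / 2 * ‖vc A z‖ ^ 2)) = gs ((√2)⁻¹ • A) 0 z := by
      rw [gs_vx, ← vc_vx, inv_pow, Real.sq_sqrt (by norm_num)]
      congr 1
      ring
    rw [h2] at h1
    calc ‖F a‖ * ‖∑ β ∈ S, ((Real.exp (-(Real.pi * ‖vc A z + T (vc A β)‖ ^ 2)) * ω β : ℝ) : ℂ) *
        e ⟪ξ, vc A z + T (vc A β)⟫ * F (a' * el b z + el b β)‖ ≤ 1 * _ :=
          mul_le_mul hFa h1 (norm_nonneg _) zero_le_one
      _ = _ := by rw [one_mul]; ring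
  have hmain : GS A 0 H * ((∑ β ∈ S, ω β : ℝ) : ℂ) =
      ∑' z, ∑ β ∈ S, (ω β : ℂ) * ((gs A 0 (z + sh β) : ℂ) * H (z + sh β)) := by
    rw [Summable.tsum_finsetSum fun β _ => (hsβ β).mul_left _]
    push_cast
    rw [mul_sum]
    refine sum_congr rfl fun β _ => ?_
    rw [tsum_mul_left, hGSβ, mul_comm]
  have hω1 : 0 ≤ ∑ β ∈ S, ω β := sum_nonneg fun β _ => hω0 β
  calc ‖GS A 0 H‖ * ∑ β ∈ S, gs ((2 * R) • A) 0 β ≤ ‖GS A 0 H‖ * ∑ β ∈ S, ω β :=
        mul_le_mul_of_nonneg_left (sum_le_sum fun β _ => hωl β) (norm_nonneg _)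
    _ = ‖GS A 0 H * ((∑ β ∈ S, ω β : ℝ) : ℂ)‖ := by
        rw [norm_mul, Complex.norm_real, Real.norm_of_nonneg hω1]
    _ ≤ _ := by
        rw [hmain, ← tsum_mul_left]
        exact tsum_of_norm_bounded (hJs.mul_left _).hasSum hbd

end Pool.Agent.T2H29.SW
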