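import Pool.Agent.T2H29.SW.U8

/-!
# The energy of a pair
-/

set_option autoImplicit false
set_option linter.unusedSectionVars false

namespace Pool.Agent.T2H29.SW

open Finset NumberField NumberField.InfinitePlace Module MeasureTheory

variable {K : Type} [Field K] [NumberField K]

/-- the quotient by the greatest common divisor -/
lemma quot_gcd {a a' : 𝓞 K} (ha : a ≠ 0) : ∃ l l' : Ideal (𝓞 K),
    Ideal.span {a} = (Ideal.span {a} ⊔ Ideal.span {a'}) * l ∧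
    Ideal.span {a'} = (Ideal.span {a} ⊔ Ideal.span {a'}) * l' ∧ IsCoprime l l' := by
  set g := Ideal.span {a} ⊔ Ideal.span {a'} with hg
  have hg0 : g ≠ ⊥ := by
    intro h
    have h1 : a ∈ g := Ideal.mem_sup_left (Ideal.mem_span_singleton_self a)
    rw [h] at h1
    exact ha (by simpa using h1)
  have d1 : g ∣ Ideal.span {a} := by
    rw [Ideal.dvd_iff_le]
    exact le_sup_left
  have d2 : g ∣ Ideal.span {a'} := by
    rw [Ideal.dvd_iff_le]
    exact le_sup_right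
  obtain ⟨l, hl⟩ := d1
  obtain ⟨l', hl'⟩ := d2
  refine ⟨l, l', hl, hl', ?_⟩
  rw [Ideal.isCoprime_iff_sup_eq]
  have h1 : g * (l ⊔ l') = g * ⊤ := by
    rw [Ideal.mul_sup, ← hl, ← hl', Ideal.mul_top]
  exact mul_left_cancel₀ hg0 h1

lemma diff_mem {a a' : 𝓞 K} (ha : a ≠ 0) {l l' I : Ideal (𝓞 K)} (hI : I ≠ ⊥)
    (hl : Ideal.span {a} = (Ideal.span {a} ⊔ Ideal.span {a'}) * l)
    (hl' : Ideal.span {a'} = (Ideal.span {a} ⊔ Ideal.span {a'}) * l') (hc : IsCoprime l l')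
    {δ δ' : 𝓞 K} (h1 : δ ∈ I) (h2 : δ' ∈ I) (h : a' * δ = a * δ') : δ ∈ I * l := by
  set g := Ideal.span {a} ⊔ Ideal.span {a'} with hg
  have hg0 : g ≠ ⊥ := by
    intro h
    have h1 : a ∈ g := Ideal.mem_sup_left (Ideal.mem_span_singleton_self a)
    rw [h] at h1
    exact ha (by simpa using h1)
  have d1 : I ∣ Ideal.span {δ} := by
    rw [Ideal.dvd_iff_le, Ideal.span_singleton_le_iff_mem]
    exact h1
  have d2 : I ∣ Ideal.span {δ'} := by
    rw [Ideal.dvd_iff_le, Ideal.span_singleton_le_iff_mem]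
    exact h2
  obtain ⟨J, hJ⟩ := d1
  obtain ⟨J', hJ'⟩ := d2
  have e1 : Ideal.span {a'} * Ideal.span {δ} = Ideal.span {a} * Ideal.span {δ'} := by
    rw [Ideal.span_singleton_mul_span_singleton, Ideal.span_singleton_mul_span_singleton, h]
  rw [hl', hl, hJ, hJ'] at e1
  have e2 : (g * I) * (l' * J) = (g * I) * (l * J') := by
    calc (g * I) * (l' * J) = g * l' * (I * J) := by ring
      _ = g * l * (I * J') := e1
      _ = _ := by ring
  have hgI : g * I ≠ ⊥ := by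
    intro h
    rcases Ideal.mul_eq_bot.1 h with h1 | h1
    · exact hg0 h1
    · exact hI h1
  have e3 := mul_left_cancel₀ hgI e2
  have d3 : l ∣ l' * J := by
    rw [e3]
    exact dvd_mul_right _ _
  have d4 : l ∣ J := hc.dvd_of_dvd_mul_left d3
  have d5 : I * l ∣ Ideal.span {δ} := by
    rw [hJ]
    exact mul_dvd_mul_left _ d4
  rw [Ideal.dvd_iff_le, Ideal.span_singleton_le_iff_mem] at d5
  exact d5

/-- centres -/
lemma gs_cen {I : Ideal (𝓞 K)} (hI : I ≠ ⊥) (b : Basis (Fin (dg K)) ℤ I) (x : LS K) (w : EK K)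
    (s : ℝ) (z : Fin (dg K) → ℤ) :
    gs (s • AX b x) ((AX b x)⁻¹.mulVec w.ofLp) z =
      Real.exp (-(Real.pi * (s ^ 2 * ‖vx x (el b z) - w‖ ^ 2))) := by
  unfold gs
  rw [q_smul]
  congr 4
  have hdet := det_AX_ne hI b x
  rw [EuclideanSpace.norm_sq_eq]
  unfold q
  refine sum_congr rfl fun i _ => ?_
  rw [Matrix.mulVec_sub, mv_inv hdet, ← vc_vx, Real.norm_eq_abs, sq_abs]
  rfl

lemma exp_sum_le {B : ℝ} (hB : CBI K B) {I : Ideal (𝓞 K)} (hI : I ≠ ⊥)
    (b : Basis (Fin (dg K)) ℤ I) (x : LS K) (w : EK K) {s : ℝ} (hs : 0 < s)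
    (S : Finset (Fin (dg K) → ℤ)) :
    ∑ z ∈ S, Real.exp (-(Real.pi * (s ^ 2 * ‖vx x (el b z) - w‖ ^ 2))) ≤
      B * (1 + mm I x.2 / s ^ (dg K)) := by
  have hdet := smul_det_ne hs.ne' (det_AX_ne hI b x)
  have h1 := gs_summable hdet ((AX b x)⁻¹.mulVec w.ofLp)
  rw [sum_congr rfl fun z _ => (gs_cen hI b x w s z).symm]
  refine (h1.sum_le_tsum S fun z _ => (gs_pos _ _ _).le).trans ?_
  refine (((hB I hI b x).smul hs).one _).trans (le_of_eq ?_)
  rw [Mv_smul hs, Mv_AX, Fintype.card_fin]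

/-- the energy of a pair -/
theorem en_pair {B : ℝ} (hB1 : 1 ≤ B) (hB : CBI K B) {m I : Ideal (𝓞 K)} (hm : m ≠ ⊥) (hI : I ≠ ⊥)
    (hc : IsCoprime I m) (b : Basis (Fin (dg K)) ℤ I) (x : LS K) {a a' : 𝓞 K} (ha : a ≠ 0)
    {R : ℝ} (hR : 0 < R) (h1 : ∀ w, ‖sg a w‖ ≤ R) (h2 : ∀ w, ‖sg a' w‖ ≤ R)
    (P : Finset ((Fin (dg K) → ℤ) × (Fin (dg K) → ℤ)))
    (hP : ∀ p ∈ P, a' * el b p.1 - a * el b p.2 ∈ m) :
    ∑ p ∈ P, gs ((√2)⁻¹ • AX b x) 0 p.1 * gs ((√2)⁻¹ • AX b x) 0 p.2 ≤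
      (B * (1 + (√8 * R) ^ (dg K) * (mm I x.2 / Ideal.absNorm m))) *
      (B * (1 + 2 ^ (dg K) * (mm I x.2 * Ideal.absNorm (Ideal.span {a} ⊔ Ideal.span {a'}) /
        Ideal.absNorm (Ideal.span {a})))) := by
  classical
  have hπ := Real.pi_pos
  obtain ⟨l, l', hl, hl', hll⟩ := quot_gcd (a' := a') ha
  set g := Ideal.span {a} ⊔ Ideal.span {a'} with hg
  have hsa : Ideal.span {a} ≠ ⊥ := by
    rw [Ne, Ideal.span_singleton_eq_bot]
    exact ha
  have hg0 : g ≠ ⊥ := fun h => hsa (by rw [hl, h, Ideal.bot_mul])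
  have hl0 : l ≠ ⊥ := fun h => hsa (by rw [hl, h, Ideal.mul_bot])
  have hIl : I * l ≠ ⊥ := by
    intro h
    rcases Ideal.mul_eq_bot.1 h with h1 | h1
    · exact hI h1
    · exact hl0 h1
  have hIm : I * m ≠ ⊥ := by
    intro h
    rcases Ideal.mul_eq_bot.1 h with h1 | h1
    · exact hI h1
    · exact hm h1
  obtain ⟨bl⟩ := exists_bas (I * l) hIl
  obtain ⟨bm⟩ := exists_bas (I * m) hIm
  have hNg := absNorm_pos' hg0
  have hNl := absNorm_pos' hl0
  have hNm := absNorm_pos' hm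
  have hMM := mm_pos hI x.2
  set M := mm I x.2 with hM
  have hNa : (Ideal.absNorm (Ideal.span {a}) : ℝ) = Ideal.absNorm g * Ideal.absNorm l := by
    rw [hl, map_mul]
    push_cast
    rfl
  -- the difference
  set γ : (Fin (dg K) → ℤ) × (Fin (dg K) → ℤ) → 𝓞 K := fun p => a' * el b p.1 - a * el b p.2 with hγ
  have hγI : ∀ p, γ p ∈ I := fun p =>
    sub_mem (Ideal.mul_mem_left _ _ (el_mem b _)) (Ideal.mul_mem_left _ _ (el_mem b _))
  have hγm : ∀ p ∈ P, γ p ∈ I * m := by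
    intro p hp
    rw [← Ideal.inf_eq_mul_of_isCoprime hc]
    exact ⟨hγI p, hP p hp⟩
  set t : (Fin (dg K) → ℤ) × (Fin (dg K) → ℤ) → (Fin (dg K) → ℤ) := fun p =>
    if h : γ p ∈ I * m then crd bm ⟨γ p, h⟩ else 0 with ht
  have helt : ∀ p ∈ P, el bm (t p) = γ p := by
    intro p hp
    simp only [ht]
    rw [dif_pos (hγm p hp), el_crd]
  -- the pointwise bound
  set s8 : ℝ := (√8 * R)⁻¹ with hs8
  have hs80 : 0 < s8 := by positivity
  have hpt : ∀ p ∈ P, gs ((√2)⁻¹ • AX b x) 0 p.1 * gs ((√2)⁻¹ • AX b x) 0 p.2 ≤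
      Real.exp (-(Real.pi * (s8 ^ 2 * ‖vx x (el bm (t p)) - 0‖ ^ 2))) *
      Real.exp (-(Real.pi * ((2 : ℝ)⁻¹ ^ 2 * ‖vx x (el b p.1)‖ ^ 2))) := by
    intro p hp
    rw [helt p hp, gs_vx, gs_vx, ← Real.exp_add, ← Real.exp_add, sub_zero, inv_pow,
      Real.sq_sqrt (by norm_num), hs8, inv_pow, mul_pow, Real.sq_sqrt (by norm_num)]
    apply Real.exp_le_exp.2
    set u := ‖vx x (el b p.1)‖ with hu
    set v := ‖vx x (el b p.2)‖ with hv
    have h3 : ‖vx x (γ p)‖ ≤ R * u + R * v := by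
      simp only [hγ]
      rw [vx_sub, vx_mul, vx_mul]
      refine (norm_sub_le _ _).trans (add_le_add ?_ ?_)
      · exact Tm_norm K (sg_real a') hR.le h2 _
      · exact Tm_norm K (sg_real a) hR.le h1 _
    have h4 : ‖vx x (γ p)‖ ^ 2 ≤ 2 * R ^ 2 * (u ^ 2 + v ^ 2) := by
      have h5 := pow_le_pow_left₀ (norm_nonneg _) h3 2
      have h6 : (R * u + R * v) ^ 2 ≤ 2 * R ^ 2 * (u ^ 2 + v ^ 2) := by
        nlinarith [sq_nonneg (R * u - R * v)]
      linarith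
    have h5 : (8 * R ^ 2)⁻¹ * ‖vx x (γ p)‖ ^ 2 ≤ (u ^ 2 + v ^ 2) / 4 := by
      rw [inv_mul_le_iff₀ (by positivity)]
      calc ‖vx x (γ p)‖ ^ 2 ≤ 2 * R ^ 2 * (u ^ 2 + v ^ 2) := h4
        _ = _ := by ring
    have hv2 : 0 ≤ v ^ 2 := by positivity
    nlinarith
  refine (sum_le_sum hpt).trans ?_
  rw [← sum_fiberwise_of_maps_to (g := t) (t := P.image t) (fun p hp => mem_image_of_mem t hp)]
  -- the fibres
  set K1 : ℝ := B * (1 + 2 ^ (dg K) * (M * Ideal.absNorm g / Ideal.absNorm (Ideal.span {a})))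
    with hK1
  have hK10 : 0 ≤ K1 := by positivity
  have hfib : ∀ y ∈ P.image t, ∑ p ∈ P with t p = y,
      Real.exp (-(Real.pi * (s8 ^ 2 * ‖vx x (el bm (t p)) - 0‖ ^ 2))) *
      Real.exp (-(Real.pi * ((2 : ℝ)⁻¹ ^ 2 * ‖vx x (el b p.1)‖ ^ 2))) ≤
      Real.exp (-(Real.pi * (s8 ^ 2 * ‖vx x (el bm y) - 0‖ ^ 2))) * K1 := by
    intro y hy
    have e1 : ∑ p ∈ P with t p = y,
        Real.exp (-(Real.pi * (s8 ^ 2 * ‖vx x (el bm (t p)) - 0‖ ^ 2))) *
        Real.exp (-(Real.pi * ((2 : ℝ)⁻¹ ^ 2 * ‖vx x (el b p.1)‖ ^ 2))) =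
        Real.exp (-(Real.pi * (s8 ^ 2 * ‖vx x (el bm y) - 0‖ ^ 2))) * ∑ p ∈ P with t p = y,
        Real.exp (-(Real.pi * ((2 : ℝ)⁻¹ ^ 2 * ‖vx x (el b p.1)‖ ^ 2))) := by
      rw [mul_sum]
      refine sum_congr rfl fun p hp => ?_
      rw [(mem_filter.1 hp).2]
    rw [e1]
    refine mul_le_mul_of_nonneg_left ?_ (Real.exp_pos _).le
    obtain ⟨p0, hp0, hp0y⟩ := mem_image.1 hy
    have hd : ∀ p ∈ P.filter (fun p => t p = y), el b p.1 - el b p0.1 ∈ I * l ∧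
        a' * (el b p.1 - el b p0.1) = a * (el b p.2 - el b p0.2) := by
      intro p hp
      obtain ⟨hpP, hpt⟩ := mem_filter.1 hp
      have h3 : γ p = γ p0 := by
        rw [← helt p hpP, ← helt p0 hp0, hpt, hp0y]
      simp only [hγ] at h3
      have h4 : a' * (el b p.1 - el b p0.1) = a * (el b p.2 - el b p0.2) := by
        linear_combination h3
      exact ⟨diff_mem ha hI hl hl' hll (sub_mem (el_mem b _) (el_mem b _))
        (sub_mem (el_mem b _) (el_mem b _)) h4, h4⟩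
    set r : (Fin (dg K) → ℤ) × (Fin (dg K) → ℤ) → (Fin (dg K) → ℤ) := fun p =>
      if h : el b p.1 - el b p0.1 ∈ I * l then crd bl ⟨_, h⟩ else 0 with hr
    have helr : ∀ p ∈ P.filter (fun p => t p = y), el bl (r p) = el b p.1 - el b p0.1 := by
      intro p hp
      simp only [hr]
      rw [dif_pos (hd p hp).1, el_crd]
    have hrinj : ∀ p ∈ P.filter (fun p => t p = y), ∀ p' ∈ P.filter (fun p => t p = y),
        r p = r p' → p = p' := by
      intro p hp p' hp' h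
      have h3 : el b p.1 = el b p'.1 := by
        have h4 := helr p hp
        rw [h, helr p' hp'] at h4
        linear_combination -h4
      have h5 : el b p.2 = el b p'.2 := by
        have h6 := (hd p hp).2
        have h7 := (hd p' hp').2
        rw [h3] at h6
        have h8 : a * (el b p.2 - el b p0.2) = a * (el b p'.2 - el b p0.2) := by
          rw [← h6, ← h7]
        have h9 := mul_left_cancel₀ ha h8
        linear_combination h9
      exact Prod.ext (el_inj b h3) (el_inj b h5)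
    have e2 : ∑ p ∈ P with t p = y,
        Real.exp (-(Real.pi * ((2 : ℝ)⁻¹ ^ 2 * ‖vx x (el b p.1)‖ ^ 2))) =
        ∑ z ∈ (P.filter (fun p => t p = y)).image r,
        Real.exp (-(Real.pi * ((2 : ℝ)⁻¹ ^ 2 * ‖vx x (el bl z) - (-vx x (el b p0.1))‖ ^ 2))) := by
      rw [sum_image hrinj]
      refine sum_congr rfl fun p hp => ?_
      rw [helr p hp, vx_sub, sub_neg_eq_add, sub_add_cancel]
    rw [e2]
    refine (exp_sum_le hB hIl bl x _ (by norm_num) _).trans (le_of_eq ?_)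
    rw [hK1, mm_mul hI hl0, hNa, inv_pow, div_inv_eq_mul, ← hM]
    field_simp
  refine (sum_le_sum hfib).trans ?_
  rw [← sum_mul]
  refine mul_le_mul_of_nonneg_right ?_ hK10
  refine (exp_sum_le hB hIm bm x 0 hs80 _).trans (le_of_eq ?_)
  rw [mm_mul hI hm, hs8, inv_pow, div_inv_eq_mul]
  ring

end Pool.Agent.T2H29.SW
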