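import Pool.Agent.T2H29.SW.L17

/-!
# Poisson summation for periodic functions
-/

set_option autoImplicit false
set_option linter.unusedSectionVars false

namespace Pool.Agent.T2H29.SW

open Finset

variable {ι : Type} [Fintype ι] [DecidableEq ι]

/-- the linear phase -/
noncomputable def ee (η : ι → ℝ) (z : ι → ℤ) : ℂ := e (∑ i, η i * z i)

lemma ee_norm (η : ι → ℝ) (z : ι → ℤ) : ‖ee η z‖ = 1 := e_norm _

lemma ee_add (η : ι → ℝ) (z w : ι → ℤ) : ee η (z + w) = ee η z * ee η w := by
  unfold ee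
  rw [← e_add, ← sum_add_distrib]
  congr 1
  refine sum_congr rfl fun i _ => ?_
  simp only [Pi.add_apply]
  push_cast
  ring

lemma ee_zero (z : ι → ℤ) : ee (0 : ι → ℝ) z = 1 := by
  unfold ee
  simp [e_zero]

lemma ee_add' (η η' : ι → ℝ) (z : ι → ℤ) : ee (η + η') z = ee η z * ee η' z := by
  unfold ee
  rw [← e_add, ← sum_add_distrib]
  congr 1
  refine sum_congr rfl fun i _ => ?_
  simp only [Pi.add_apply]
  ring

/-- periodic functions -/
def Per (d : ι → ℕ) (F : (ι → ℤ) → ℂ) : Prop := ∀ z t, F (z + sc d t) = F z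

/-- finite Fourier transform -/
noncomputable def Fh (d : ι → ℕ) (F : (ι → ℤ) → ℂ) (y : ι → ℤ) : ℂ :=
  ∑ r ∈ CC d, F r * e (∑ i, (r i : ℝ) * y i / d i)

lemma cl_add {d : ι → ℕ} {r : ι → ℤ} (hr : r ∈ CC d) (t : ι → ℤ) :
    cl d (r + sc d t) = r := by
  unfold CC at hr
  rw [Fintype.mem_piFinset] at hr
  funext i
  have h := mem_Ico.1 (hr i)
  show (r i + (d i : ℤ) * t i) % (d i : ℤ) = r i
  rw [Int.add_mul_emod_self_left]
  exact Int.emod_eq_of_lt h.1 h.2

lemma tsum_cc {H : (ι → ℤ) → ℂ} (hH : Summable fun z => ‖H z‖) {d : ι → ℕ} (hd : ∀ i, 0 < d i) :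
    ∑' z, H z = ∑ r ∈ CC d, ∑' t, H (r + sc d t) := by
  rw [sum_classes hH hd]
  refine sum_congr rfl fun r hr => ?_
  have hinj : Function.Injective fun t : ι → ℤ => r + sc d t := by
    intro t t' h
    have h1 : sc d t = sc d t' := add_left_cancel h
    funext i
    have h4 : (d i : ℤ) * t i = (d i : ℤ) * t' i := congrFun h1 i
    exact mul_left_cancel₀ (by exact_mod_cast (hd i).ne') h4
  have hsup : Function.support (HC d H r) ⊆ Set.range fun t : ι → ℤ => r + sc d t := by
    intro z hz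
    rw [Function.mem_support] at hz
    unfold HC at hz
    by_cases h : cl d z = r
    · have h2 : cl d z = cl d r := by
        rw [h]
        have := cl_add hr 0
        have e : r + sc d 0 = r := by funext i; simp [sc]
        rw [e] at this
        exact this.symm
      obtain ⟨⟨t, w⟩, ht⟩ := cl_range d h2
      unfold jj at ht
      rw [Prod.mk.injEq] at ht
      simp only at ht
      refine ⟨t, ?_⟩
      show r + sc d t = z
      rw [← ht.1, ht.2]
    · rw [if_neg h] at hz
      exact absurd rfl hz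
  rw [← hinj.tsum_eq hsup]
  refine tsum_congr fun t => ?_
  unfold HC
  rw [if_pos (cl_add hr t)]

/-- Poisson summation for a periodic function with centre and phase -/
theorem pois_gen {A : Matrix ι ι ℝ} (hA : A.det ≠ 0) {d : ι → ℕ} (hd : ∀ i, 0 < d i)
    (c η : ι → ℝ) {F : (ι → ℤ) → ℂ} {b : ℝ} (hb : ∀ z, ‖F z‖ ≤ b) (hF : Per d F) :
    GS A c (fun z => ee η z * F z) = (Mv (A * dgm d) : ℂ) * GS (du (A * dgm d)) (fun i => d i * η i)
      (fun y => e (∑ i, c i * (η i - y i / d i)) * Fh d F y) := by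
  have hAd : (A * dgm d).det ≠ 0 := by
    rw [Matrix.det_mul]
    exact mul_ne_zero hA (det_dgm_ne hd)
  have hd0 : ∀ i, (d i : ℝ) ≠ 0 := fun i => by exact_mod_cast (hd i).ne'
  have hsum : Summable fun z => ‖(gs A c z : ℂ) * (ee η z * F z)‖ :=
    ((norm_gs_sum_le hA c (F := fun z => ee η z * F z) (b := b) (fun z => by
      rw [norm_mul, ee_norm, one_mul]; exact hb z)).1).norm
  unfold GS
  rw [tsum_cc hsum hd]
  have h1 : ∀ r ∈ CC d, ∑' t, (gs A c (r + sc d t) : ℂ) * (ee η (r + sc d t) * F (r + sc d t)) =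
      (Mv (A * dgm d) : ℂ) * ∑' y : ι → ℤ, (gs (du (A * dgm d)) (fun i => d i * η i) y : ℂ) *
        (e (∑ i, c i * (η i - y i / d i)) * (F r * e (∑ i, (r i : ℝ) * y i / d i))) := by
    intro r _
    have h2 := gs_poisson hAd (fun i => (c i - r i) / d i) (fun i => d i * η i)
    have h3 : ∑' t, (gs A c (r + sc d t) : ℂ) * (ee η (r + sc d t) * F (r + sc d t)) =
        (ee η r * F r) * ∑' z : ι → ℤ, (gs (A * dgm d) (fun i => (c i - r i) / d i) z : ℂ) *
          e (∑ i, (d i * η i) * z i) := by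
      rw [← tsum_mul_left]
      refine tsum_congr fun t => ?_
      rw [hF, ee_add]
      have e1 : gs (A * dgm d) (fun i => (c i - r i) / d i) t = gs A c (r + sc d t) := by
        rw [gs_mul_dgm]
        unfold gs
        congr 4
        funext i
        simp only [cz, Pi.sub_apply, Pi.add_apply]
        have := hd0 i
        push_cast
        field_simp
        ring
      have e2 : ee η (sc d t) = e (∑ i, (d i * η i) * t i) := by
        unfold ee
        congr 1
        refine sum_congr rfl fun i _ => ?_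
        unfold sc
        push_cast
        ring
      rw [e1, e2]
      ring
    rw [h3, h2, ← mul_assoc, mul_comm (ee η r * F r), mul_assoc, ← tsum_mul_left]
    unfold Mv
    congr 1
    refine tsum_congr fun y => ?_
    have e3 : ee η r * e (∑ i, (c i - r i) / d i * (d i * η i - y i)) =
        e (∑ i, c i * (η i - y i / d i)) * e (∑ i, (r i : ℝ) * y i / d i) := by
      unfold ee
      rw [← e_add, ← e_add, ← sum_add_distrib, ← sum_add_distrib]
      congr 1
      refine sum_congr rfl fun i _ => ?_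
      have := hd0 i
      field_simp
      ring
    linear_combination (F r * (gs (du (A * dgm d)) (fun i => d i * η i) y : ℂ)) * e3
  rw [sum_congr rfl h1, ← mul_sum]
  congr 1
  have hb0 : 0 ≤ b := (norm_nonneg _).trans (hb 0)
  rw [← Summable.tsum_finsetSum]
  · refine tsum_congr fun y => ?_
    unfold Fh
    beta_reduce
    rw [mul_sum, mul_sum]
  · intro r _
    refine (norm_gs_sum_le (du_det_ne hAd) _ (F := fun y => e (∑ i, c i * (η i - y i / d i)) *
      (F r * e (∑ i, (r i : ℝ) * y i / d i))) (b := b) (fun y => ?_)).1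
    rw [norm_mul, e_norm, norm_mul, e_norm, one_mul, mul_one]
    exact hb r

/-- completion for a periodic function -/
theorem comp_gen {A : Matrix ι ι ℝ} (hA : A.det ≠ 0) {d : ι → ℕ} (hd : ∀ i, 0 < d i)
    (c η : ι → ℝ) {F : (ι → ℤ) → ℂ} {b : ℝ} (hb : ∀ z, ‖F z‖ ≤ b) (hF : Per d F) {B k : ℝ}
    (hB : CB B (A * dgm d)) (hk : ∀ y, ‖Fh d F y‖ ≤ k) :
    ‖GS A c (fun z => ee η z * F z)‖ ≤ k * (B * (1 + Mv (A * dgm d))) := by
  have hAd : (A * dgm d).det ≠ 0 := by
    rw [Matrix.det_mul]
    exact mul_ne_zero hA (det_dgm_ne hd)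
  have hM := Mv_pos hAd
  have hk0 : 0 ≤ k := (norm_nonneg _).trans (hk 0)
  rw [pois_gen hA hd c η hb hF, norm_mul, Complex.norm_real, Real.norm_of_nonneg hM.le]
  have h1 := (norm_gs_sum_le (du_det_ne hAd) (fun i => d i * η i)
    (F := fun y => e (∑ i, c i * (η i - y i / d i)) * Fh d F y) (b := k) (fun y => by
      rw [norm_mul, e_norm, one_mul]; exact hk y)).2
  have h2 := (hB.du hAd).one (fun i => d i * η i)
  rw [Mv_du] at h2
  calc Mv (A * dgm d) * ‖GS (du (A * dgm d)) (fun i => d i * η i)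
        (fun y => e (∑ i, c i * (η i - y i / d i)) * Fh d F y)‖ ≤
        Mv (A * dgm d) * (k * (B * (1 + (Mv (A * dgm d))⁻¹))) := by
        refine mul_le_mul_of_nonneg_left (h1.trans (mul_le_mul_of_nonneg_left h2 hk0)) hM.le
    _ = _ := by field_simp; ring

end Pool.Agent.T2H29.SW
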