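import Pool.Agent.T2H29.SW.V1

/-!
# Product functions of several residues
-/

set_option autoImplicit false
set_option linter.unusedSectionVars false

namespace Pool.Agent.T2H29.SW

open Finset Matrix

variable {ι : Type} [Fintype ι] [DecidableEq ι] {J : Type} [Fintype J] [DecidableEq J]

/-- the diagonal matrix with `p ^ a j` at the place `o j` -/
def dv (p : ℕ) (o : J → ι) (a : J → ℕ) : ι → ℕ := fun i => ∏ j, if o j = i then p ^ a j else 1

lemma dv_o (p : ℕ) {o : J → ι} (ho : Function.Injective o) (a : J → ℕ) (j : J) :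
    dv p o a (o j) = p ^ a j := by
  unfold dv
  rw [prod_eq_single j]
  · rw [if_pos rfl]
  · intro k _ hk
    rw [if_neg fun h => hk (ho h)]
  · intro h; exact absurd (mem_univ j) h

lemma dv_not (p : ℕ) {o : J → ι} (a : J → ℕ) {i : ι} (hi : i ∉ Set.range o) :
    dv p o a i = 1 := by
  unfold dv
  refine prod_eq_one fun j _ => ?_
  rw [if_neg fun h => hi ⟨j, h⟩]

lemma dv_pos {p : ℕ} (hp : 0 < p) (o : J → ι) (a : J → ℕ) (i : ι) : 0 < dv p o a i := by
  unfold dv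
  refine prod_pos fun j _ => ?_
  split_ifs
  · exact pow_pos hp _
  · exact one_pos

lemma prod_range {M : Type} [CommMonoid M] {o : J → ι} (ho : Function.Injective o) {g : ι → M}
    (h : ∀ i, i ∉ Set.range o → g i = 1) : ∏ i, g i = ∏ j, g (o j) :=
  (Fintype.prod_of_injective o ho (fun j => g (o j)) g h fun _ => rfl).symm

lemma prod_dv (p : ℕ) {o : J → ι} (ho : Function.Injective o) (a : J → ℕ) :
    ∏ i, dv p o a i = p ^ ∑ j, a j := by
  rw [prod_range ho fun i hi => dv_not p a hi, ← prod_pow_eq_pow_sum]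
  exact prod_congr rfl fun j _ => dv_o p ho a j

lemma dv_add (p : ℕ) (o : J → ι) (a b : J → ℕ) : dv p o a * dv p o b = dv p o (a + b) := by
  funext i
  rw [Pi.mul_apply]
  unfold dv
  rw [← prod_mul_distrib]
  refine prod_congr rfl fun j _ => ?_
  split_ifs
  · rw [Pi.add_apply, pow_add]
  · rw [one_mul]

lemma dv_zero (p : ℕ) (o : J → ι) : dgm (dv p o 0) = 1 := by
  unfold dgm dv
  rw [← Matrix.diagonal_one]
  congr 1
  funext i
  simp

lemma det_dv (p : ℕ) {o : J → ι} (ho : Function.Injective o) (a : J → ℕ) :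
    (dgm (dv p o a)).det = (p : ℝ) ^ ∑ j, a j := by
  rw [det_dgm, ← Nat.cast_prod, prod_dv p ho]
  push_cast
  rfl

lemma Mv_dv (p : ℕ) {o : J → ι} (ho : Function.Injective o) (a : J → ℕ) :
    Mv (dgm (dv p o a)) = ((p : ℝ) ^ ∑ j, a j)⁻¹ := by
  unfold Mv
  rw [det_dv p ho, abs_of_nonneg (by positivity)]

lemma det_mul_dv_ne {p : ℕ} (hp : 0 < p) (o : J → ι) {A : Matrix ι ι ℝ} (hA : A.det ≠ 0)
    (a : J → ℕ) : (A * dgm (dv p o a)).det ≠ 0 := by
  rw [Matrix.det_mul]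
  exact mul_ne_zero hA (det_dgm_ne (dv_pos hp o a))

/-- all sublattices are balanced -/
def BalV (p : ℕ) (o : J → ι) (ν : J → ℕ) (B : ℝ) (A : Matrix ι ι ℝ) : Prop :=
  ∀ a : J → ℕ, (∀ j, a j ≤ ν j) → CB B (A * dgm (dv p o a))

lemma BalV.zero {p : ℕ} {o : J → ι} {ν : J → ℕ} {B : ℝ} {A : Matrix ι ι ℝ}
    (h : BalV p o ν B A) : CB B A := by
  have := h 0 (fun j => Nat.zero_le _)
  rwa [dv_zero, Matrix.mul_one] at this

lemma BalV.smul {p : ℕ} {o : J → ι} {ν : J → ℕ} {B : ℝ} {A : Matrix ι ι ℝ}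
    (h : BalV p o ν B A) {t : ℝ} (ht : 0 < t) : BalV p o ν B (t • A) := by
  intro k hk
  rw [Matrix.smul_mul]
  exact (h k hk).smul ht

lemma du_mul_dgm {A : Matrix ι ι ℝ} {d d' : ι → ℕ} (hd' : ∀ i, 0 < d' i) :
    du (A * dgm (d * d')) * dgm d' = du (A * dgm d) := by
  have hu : IsUnit (dgm d').det := isUnit_iff_ne_zero.2 (det_dgm_ne hd')
  have e2 : (dgm d')ᵀ = dgm d' := by
    unfold dgm
    rw [Matrix.diagonal_transpose]
  rw [← dgm_mul, ← Matrix.mul_assoc]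
  unfold du
  rw [Matrix.mul_inv_rev, Matrix.transpose_mul, Matrix.mul_assoc]
  have e3 : (dgm d')⁻¹ᵀ * dgm d' = 1 := by
    conv_lhs => rw [← e2]
    rw [← Matrix.transpose_nonsing_inv, Matrix.transpose_transpose]
    rw [e2, Matrix.nonsing_inv_mul _ hu]
  rw [e3, Matrix.mul_one]

lemma du_mul_dv {p : ℕ} (hp : 0 < p) (o : J → ι) {A : Matrix ι ι ℝ} {r a : J → ℕ}
    (har : ∀ j, a j ≤ r j) :
    du (A * dgm (dv p o r)) * dgm (dv p o a) = du (A * dgm (dv p o (r - a))) := by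
  have h : dv p o r = dv p o (r - a) * dv p o a := by
    rw [dv_add]
    congr 1
    funext j
    simp only [Pi.add_apply, Pi.sub_apply]
    have := har j
    omega
  rw [h, du_mul_dgm (dv_pos hp o a)]

lemma BalV.du {p : ℕ} (hp : 0 < p) {o : J → ι} {ν : J → ℕ} {B : ℝ} {A : Matrix ι ι ℝ}
    (hA : A.det ≠ 0) (h : BalV p o ν B A) : BalV p o ν B (du (A * dgm (dv p o ν))) := by
  intro a ha
  rw [du_mul_dv hp o ha]
  refine CB.du (det_mul_dv_ne hp o hA _) (h _ fun j => ?_)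
  simp only [Pi.sub_apply]
  omega

/-- product functions -/
noncomputable def Fp (o : J → ι) (f : J → ℤ → ℂ) (z : ι → ℤ) : ℂ := ∏ j, f j (z (o j))

/-- Fourier transform of a periodic function on the integers -/
noncomputable def fth (N : ℕ) (f : ℤ → ℂ) (y : ℤ) : ℂ :=
  ∑ r ∈ Ico (0 : ℤ) N, f r * e ((r : ℝ) * y / N)

lemma sc_dv {p : ℕ} {o : J → ι} (ho : Function.Injective o) (a : J → ℕ) (t : ι → ℤ) (j : J) :
    sc (dv p o a) t (o j) = (p : ℤ) ^ a j * t (o j) := by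
  unfold sc
  rw [dv_o p ho]
  push_cast
  rfl

lemma Fp_per {p : ℕ} {o : J → ι} (ho : Function.Injective o) {a : J → ℕ} {f : J → ℤ → ℂ}
    (hf : ∀ j x t, f j (x + (p : ℤ) ^ a j * t) = f j x) : Per (dv p o a) (Fp o f) := by
  intro z t
  unfold Fp
  refine prod_congr rfl fun j _ => ?_
  rw [Pi.add_apply, sc_dv ho, hf]

lemma Fp_norm {o : J → ι} {f : J → ℤ → ℂ} (hf : ∀ j x, ‖f j x‖ ≤ 1) (z : ι → ℤ) :
    ‖Fp o f z‖ ≤ 1 := by
  unfold Fp
  rw [norm_prod]
  exact prod_le_one (fun j _ => norm_nonneg _) fun j _ => hf _ _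

/-- the Fourier transform of a product function -/
lemma Fh_Fp (p : ℕ) {o : J → ι} (ho : Function.Injective o) (a : J → ℕ) (f : J → ℤ → ℂ)
    (y : ι → ℤ) : Fh (dv p o a) (Fp o f) y = ∏ j, fth (p ^ a j) (f j) (y (o j)) := by
  set g : ι → ℤ → ℂ := fun i x => (∏ j, if o j = i then f j x else 1) *
    e ((x : ℝ) * y i / dv p o a i) with hg
  have h1 : ∀ r : ι → ℤ, Fp o f r * e (∑ i, (r i : ℝ) * y i / dv p o a i) = ∏ i, g i (r i) := by
    intro r
    rw [hg, prod_mul_distrib, e_sum]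
    congr 1
    rw [prod_range ho (g := fun i => ∏ j, if o j = i then f j (r i) else 1)]
    · unfold Fp
      refine prod_congr rfl fun j _ => ?_
      rw [prod_eq_single j]
      · rw [if_pos rfl]
      · intro k _ hk
        rw [if_neg fun h => hk (ho h)]
      · intro h; exact absurd (mem_univ j) h
    · intro i hi
      refine prod_eq_one fun j _ => ?_
      rw [if_neg fun h => hi ⟨j, h⟩]
  unfold Fh CC
  rw [sum_congr rfl fun r _ => h1 r, ← Finset.prod_univ_sum, prod_range ho]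
  · refine prod_congr rfl fun j _ => ?_
    unfold fth
    rw [dv_o p ho]
    refine sum_congr rfl fun x _ => ?_
    rw [hg]
    simp only
    rw [prod_eq_single j, if_pos rfl, dv_o p ho]
    · intro k _ hk
      rw [if_neg fun h => hk (ho h)]
    · intro h; exact absurd (mem_univ j) h
  · intro i hi
    rw [dv_not p a hi]
    have : Ico (0 : ℤ) ((1 : ℕ) : ℤ) = {0} := by ext x; simp; omega
    rw [this, sum_singleton, hg]
    simp only
    have h2 : (∏ j, if o j = i then f j 0 else 1) = 1 := by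
      refine prod_eq_one fun j _ => ?_
      rw [if_neg fun h => hi ⟨j, h⟩]
    rw [h2]
    simp [e_zero]

lemma fth_zmod {N : ℕ} [NeZero N] (G : ZMod N → ℂ) (y : ℤ) :
    fth N (fun x => G (x : ZMod N)) y = ft G (y : ZMod N) := by
  unfold fth ft
  symm
  refine sum_nbij' (fun a => (a.val : ℤ)) (fun x => (x : ZMod N)) ?_ ?_ ?_ ?_ ?_
  · intro a _
    rw [mem_Ico]
    exact ⟨by positivity, by exact_mod_cast a.val_lt⟩
  · intro x _
    exact mem_univ _
  · intro a _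
    simp
  · intro x hx
    rw [mem_Ico] at hx
    rw [ZMod.val_intCast]
    exact Int.emod_eq_of_lt hx.1 hx.2
  · intro a _
    have h1 : (((a.val : ℤ)) : ZMod N) = a := by simp
    simp only
    rw [h1]
    congr 1
    have h2 : a * (y : ZMod N) = (((a.val : ℤ) * y : ℤ) : ZMod N) := by
      push_cast
      rw [ZMod.natCast_zmod_val]
    rw [h2, ps_int]
    congr 1
    push_cast
    ring

/-- completion for product functions -/
theorem comp_prod {p : ℕ} (hp : 0 < p) {o : J → ι} (ho : Function.Injective o) {a : J → ℕ}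
    {A : Matrix ι ι ℝ} (hA : A.det ≠ 0) (c η : ι → ℝ) {f : J → ℤ → ℂ}
    (hf : ∀ j x t, f j (x + (p : ℤ) ^ a j * t) = f j x) (hf1 : ∀ j x, ‖f j x‖ ≤ 1) {B : ℝ}
    (hB : CB B (A * dgm (dv p o a))) {k : J → ℝ} (hk : ∀ j y, ‖fth (p ^ a j) (f j) y‖ ≤ k j) :
    ‖GS A c (fun z => ee η z * Fp o f z)‖ ≤ (∏ j, k j) * (B * (1 + Mv (A * dgm (dv p o a)))) := by
  refine comp_gen hA (dv_pos hp o a) c η (Fp_norm hf1) (Fp_per ho hf) hB fun y => ?_
  rw [Fh_Fp p ho, norm_prod]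
  exact prod_le_prod (fun j _ => norm_nonneg _) fun j _ => hk j _

/-- the product of Dirichlet characters -/
noncomputable def Fc {p : ℕ} (o : J → ι) {ν : J → ℕ} (ψ : ∀ j, DirichletCharacter ℂ (p ^ ν j)) :
    (ι → ℤ) → ℂ := Fp o fun j x => ψ j (x : ZMod (p ^ ν j))

lemma Fc_norm {p : ℕ} (o : J → ι) {ν : J → ℕ} (ψ : ∀ j, DirichletCharacter ℂ (p ^ ν j))
    (z : ι → ℤ) : ‖Fc o ψ z‖ ≤ 1 := Fp_norm (fun j _ => (ψ j).norm_le_one _) z

lemma chi_per {p n : ℕ} (ψ : DirichletCharacter ℂ (p ^ n)) (x t : ℤ) :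
    ψ ((x + (p : ℤ) ^ n * t : ℤ) : ZMod (p ^ n)) = ψ (x : ZMod (p ^ n)) := by
  congr 1
  push_cast
  have : ((p : ZMod (p ^ n)) ^ n) = 0 := by
    have := ZMod.natCast_self (p ^ n)
    push_cast at this
    exact this
  rw [this, zero_mul, add_zero]

/-- the functional equation -/
theorem dual_gen {p : ℕ} (hp : 0 < p) {o : J → ι} (ho : Function.Injective o) {ν : J → ℕ}
    {A : Matrix ι ι ℝ} (hA : A.det ≠ 0) (c η : ι → ℝ) {ψ : ∀ j, DirichletCharacter ℂ (p ^ ν j)}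
    (hψ : ∀ j, (ψ j).IsPrimitive) : ‖GS A c (fun z => ee η z * Fc o ψ z)‖ ^ 2 =
      Mv A ^ 2 / (p : ℝ) ^ (∑ j, ν j) * ‖GS (du (A * dgm (dv p o ν))) (fun i => dv p o ν i * η i)
        (fun y => ee (fun i => -(c i / dv p o ν i)) y * Fc o (fun j => (ψ j)⁻¹) y)‖ ^ 2 := by
  haveI : ∀ j, NeZero (p ^ ν j) := fun j => ⟨by positivity⟩
  have hMA := Mv_pos hA
  rw [pois_gen hA (dv_pos hp o ν) c η (Fc_norm o ψ)
    (Fp_per ho fun j x t => chi_per (ψ j) x t)]
  have h1 : GS (du (A * dgm (dv p o ν))) (fun i => dv p o ν i * η i)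
      (fun y => e (∑ i, c i * (η i - y i / dv p o ν i)) * Fh (dv p o ν) (Fc o ψ) y) =
      (e (∑ i, c i * η i) * ∏ j, gaussSum (ψ j) ZMod.stdAddChar) *
      GS (du (A * dgm (dv p o ν))) (fun i => dv p o ν i * η i)
        (fun y => ee (fun i => -(c i / dv p o ν i)) y * Fc o (fun j => (ψ j)⁻¹) y) := by
    unfold GS
    rw [← tsum_mul_left]
    refine tsum_congr fun y => ?_
    have h2 : e (∑ i, c i * (η i - y i / dv p o ν i)) = e (∑ i, c i * η i) *
        ee (fun i => -(c i / dv p o ν i)) y := by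
      unfold ee
      rw [← e_add, ← sum_add_distrib]
      congr 1
      refine sum_congr rfl fun i _ => ?_
      ring
    have h3 : Fh (dv p o ν) (Fc o ψ) y = (∏ j, gaussSum (ψ j) ZMod.stdAddChar) *
        Fc o (fun j => (ψ j)⁻¹) y := by
      unfold Fc
      rw [Fh_Fp p ho]
      unfold Fp
      rw [← prod_mul_distrib]
      refine prod_congr rfl fun j _ => ?_
      rw [fth_zmod (fun x => ψ j x), ft_chi (hψ j), mul_comm]
    beta_reduce
    rw [h2, h3]
    ring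
  have h4 : ‖∏ j, gaussSum (ψ j) ZMod.stdAddChar‖ ^ 2 = (p : ℝ) ^ (∑ j, ν j) := by
    rw [norm_prod, ← prod_pow, ← prod_pow_eq_pow_sum]
    refine prod_congr rfl fun j _ => ?_
    rw [gauss_norm (hψ j)]
    push_cast
    rfl
  have hpQ : (0 : ℝ) < (p : ℝ) ^ (∑ j, ν j) := by positivity
  rw [h1, norm_mul, norm_mul, norm_mul, e_norm, one_mul, mul_pow, mul_pow, h4, Complex.norm_real,
    Real.norm_of_nonneg (Mv_pos (det_mul_dv_ne hp o hA ν)).le, Mv_mul, Mv_dv p ho]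
  field_simp

/-- the estimate in the first half of the range -/
def Core (p : ℕ) (o : J → ι) (ν : J → ℕ) (B k : ℝ) : Prop :=
  ∀ A : Matrix ι ι ℝ, A.det ≠ 0 → BalV p o ν B A → Mv A ^ 2 ≤ (p : ℝ) ^ (∑ j, ν j) →
  ∀ ψ : ∀ j, DirichletCharacter ℂ (p ^ ν j), (∀ j, (ψ j).IsPrimitive) → ∀ c η : ι → ℝ,
  ‖GS A c (fun z => ee η z * Fc o ψ z)‖ ^ 2 ≤ k * (1 + Mv A)

/-- the estimate for all values of `M` -/
theorem Core.all {p : ℕ} (hp : 0 < p) {o : J → ι} (ho : Function.Injective o) {ν : J → ℕ}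
    {B k : ℝ} (hk : 0 ≤ k) (h : Core p o ν B k) {A : Matrix ι ι ℝ} (hA : A.det ≠ 0)
    (hBal : BalV p o ν B A) {ψ : ∀ j, DirichletCharacter ℂ (p ^ ν j)}
    (hψ : ∀ j, (ψ j).IsPrimitive) (c η : ι → ℝ) : ‖GS A c (fun z => ee η z * Fc o ψ z)‖ ^ 2 ≤
      k * (1 + Mv A + Mv A ^ 2 / (p : ℝ) ^ (∑ j, ν j)) := by
  have hMA := Mv_pos hA
  have hpQ : (0 : ℝ) < (p : ℝ) ^ (∑ j, ν j) := by positivity
  by_cases hM : Mv A ^ 2 ≤ (p : ℝ) ^ (∑ j, ν j)
  · refine (h A hA hBal hM ψ hψ c η).trans ?_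
    refine mul_le_mul_of_nonneg_left ?_ hk
    have : 0 ≤ Mv A ^ 2 / (p : ℝ) ^ (∑ j, ν j) := by positivity
    linarith
  · push Not at hM
    rw [dual_gen hp ho hA c η hψ]
    set A2 := du (A * dgm (dv p o ν)) with hA2
    have hA2d : A2.det ≠ 0 := du_det_ne (det_mul_dv_ne hp o hA ν)
    have hMA2 : Mv A2 = (p : ℝ) ^ (∑ j, ν j) / Mv A := by
      rw [hA2, Mv_du, Mv_mul, Mv_dv p ho, mul_inv, inv_inv]
      field_simp
    have h3 : Mv A2 ^ 2 ≤ (p : ℝ) ^ (∑ j, ν j) := by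
      rw [hMA2, div_pow, div_le_iff₀ (by positivity)]
      nlinarith
    have h4 := h A2 hA2d (hBal.du hp hA) h3 (fun j => (ψ j)⁻¹) (fun j => inv_prim (hψ j))
      (fun i => dv p o ν i * η i) (fun i => -(c i / dv p o ν i))
    rw [hMA2] at h4
    calc _ ≤ Mv A ^ 2 / (p : ℝ) ^ (∑ j, ν j) * (k * (1 + (p : ℝ) ^ (∑ j, ν j) / Mv A)) :=
          mul_le_mul_of_nonneg_left h4 (by positivity)
      _ = k * (0 + Mv A + Mv A ^ 2 / (p : ℝ) ^ (∑ j, ν j)) := by field_simp; ring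
      _ ≤ _ := mul_le_mul_of_nonneg_left (by linarith) hk

end Pool.Agent.T2H29.SW
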