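import Pool.Agent.T2H29.SW.V2

/-!
# The sub-Weyl bound with a linear phase
-/

set_option autoImplicit false
set_option linter.unusedSectionVars false

namespace Pool.Agent.T2H29.SW

open Finset

variable {ι : Type} [Fintype ι] [DecidableEq ι] {p : ℕ}

lemma DF_ee (d : ι → ℕ) (η : ι → ℝ) (F : (ι → ℤ) → ℂ) (t z : ι → ℤ) :
    DF d (fun z => ee η z * F z) t z = ee η (sc d t) * DF d F t z := by
  unfold DF
  beta_reduce
  rw [ee_add, map_mul]
  have h : ee η z * (starRingEnd ℂ) (ee η z) = 1 := by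
    rw [Complex.mul_conj', ee_norm]; norm_num
  linear_combination (ee η (sc d t) * F (z + sc d t) * (starRingEnd ℂ) (F z)) * h

lemma GS_DF_ee (A : Matrix ι ι ℝ) (c : ι → ℝ) (d : ι → ℕ) (η : ι → ℝ) (F : (ι → ℤ) → ℂ)
    (t : ι → ℤ) : ‖GS A c (DF d (fun z => ee η z * F z) t)‖ = ‖GS A c (DF d F t)‖ := by
  have : GS A c (DF d (fun z => ee η z * F z) t) = ee η (sc d t) * GS A c (DF d F t) := by
    unfold GS
    rw [← tsum_mul_left]
    refine tsum_congr fun z => ?_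
    rw [DF_ee]
    ring
  rw [this, norm_mul, ee_norm, one_mul]

/-- the character sum, `M² ≤ p^ν` -/
theorem core1p {ν : ℕ} (hp : p.Prime) (hp7 : 7 ≤ p) (hν : 1 ≤ ν) {o : ι} {A : Matrix ι ι ℝ}
    (hA : A.det ≠ 0) {B D : ℝ} (hBal : Bal p o ν B A) (hD : DD (Fintype.card ι) B D)
    (hM : Mv A ^ 2 ≤ (p : ℝ) ^ ν) {χ : DirichletCharacter ℂ (p ^ ν)} (hχ : χ.IsPrimitive)
    (c η : ι → ℝ) : ‖GS A c (fun z => ee η z * χ (z o : ZMod (p ^ ν)))‖ ^ 2 ≤
      7 * 2 ^ Fintype.card ι * ν ^ 2 * D ^ 3 * (p : ℝ) ^ ((19 * ν + 57) / 58 + 6) * (1 + Mv A) := by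
  have hp0 := hp.pos
  have hp1 : (1 : ℝ) ≤ p := by exact_mod_cast hp0
  have hD1 := hD.one
  have hB := hBal.zero.nonneg
  have hBD := hD.two
  have hν1 : (1 : ℝ) ≤ ν := by exact_mod_cast hν
  have hMA := Mv_pos hA
  have h2n : (1 : ℝ) ≤ 2 ^ Fintype.card ι := one_le_pow₀ (by norm_num)
  have hF0 : ∀ z : ι → ℤ, ‖χ (z o : ZMod (p ^ ν))‖ ≤ 1 := fun z => χ.norm_le_one _
  have hF : ∀ z : ι → ℤ, ‖ee η z * χ (z o : ZMod (p ^ ν))‖ ≤ 1 := fun z => by
    rw [norm_mul, ee_norm, one_mul]; exact hF0 z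
  have htriv : ‖GS A c (fun z => ee η z * χ (z o : ZMod (p ^ ν)))‖ ≤ B * (1 + Mv A) :=
    (GS_le hA c hF).trans (hBal.zero.one c)
  set k := (19 * ν + 57) / 58 with hk
  by_cases hν3 : ν < 3
  · -- small `ν`
    have hMp : Mv A ≤ p := by
      refine le_of_pow_le_pow_left₀ (n := 2) (by norm_num) (by positivity) (hM.trans ?_)
      exact pow_le_pow_right₀ hp1 (by omega)
    have h1 : (1 + Mv A) ≤ 2 * p := by linarith
    have h2 : B ^ 2 * 2 ≤ D ^ 3 := by
      have : D ^ 2 ≤ D ^ 3 := pow_le_pow_right₀ hD1 (by norm_num)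
      nlinarith
    calc ‖GS A c (fun z => ee η z * χ (z o : ZMod (p ^ ν)))‖ ^ 2 ≤ (B * (1 + Mv A)) ^ 2 :=
          pow_le_pow_left₀ (norm_nonneg _) htriv 2
      _ = B ^ 2 * (1 + Mv A) * (1 + Mv A) := by ring
      _ ≤ B ^ 2 * (2 * p) * (1 + Mv A) := by
          refine mul_le_mul_of_nonneg_right ?_ (by positivity)
          exact mul_le_mul_of_nonneg_left h1 (by positivity)
      _ = (B ^ 2 * 2) * (p : ℝ) ^ 1 * (1 + Mv A) := by ring
      _ ≤ D ^ 3 * (p : ℝ) ^ (k + 6) * (1 + Mv A) := by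
          refine mul_le_mul_of_nonneg_right ?_ (by positivity)
          exact mul_le_mul h2 (pow_le_pow_right₀ hp1 (by omega)) (by positivity) (by positivity)
      _ ≤ (7 * 2 ^ Fintype.card ι * ν ^ 2) * (D ^ 3 * (p : ℝ) ^ (k + 6) * (1 + Mv A)) := by
          refine le_mul_of_one_le_left (by positivity) ?_
          have : 1 ≤ (ν : ℝ) ^ 2 := one_le_pow₀ hν1
          have h7 : 1 ≤ 2 ^ Fintype.card ι * (ν : ℝ) ^ 2 := one_le_mul_of_one_le_of_one_le h2n this
          nlinarith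
      _ = _ := by ring
  push Not at hν3
  set A' := (√2) • A with hA'
  have hA'd : A'.det ≠ 0 := smul_det_ne (by positivity) hA
  have hMA' := Mv_pos hA'd
  have hM'eq : Mv A' = Mv A / √2 ^ Fintype.card ι := Mv_smul (by positivity) A
  have hM'le : Mv A' ≤ Mv A := Mv_s2 le_rfl
  have hBal' : Bal p o ν B A' := hBal.smul (by positivity)
  by_cases hM1 : Mv A' < 1
  · -- small `M`
    have h1 : Mv A ≤ √2 ^ Fintype.card ι := by
      rw [hM'eq, div_lt_one (by positivity)] at hM1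
      exact hM1.le
    have h2 : ‖GS A c (fun z => ee η z * χ (z o : ZMod (p ^ ν)))‖ ≤ D := by
      refine htriv.trans (le_trans ?_ hD.sq)
      exact mul_le_mul_of_nonneg_left (by linarith) hB
    calc ‖GS A c (fun z => ee η z * χ (z o : ZMod (p ^ ν)))‖ ^ 2 ≤ D ^ 2 :=
          pow_le_pow_left₀ (norm_nonneg _) h2 2
      _ ≤ D ^ 3 := pow_le_pow_right₀ hD1 (by norm_num)
      _ = 1 * D ^ 3 * 1 * 1 := by ring
      _ ≤ (7 * 2 ^ Fintype.card ι * ν ^ 2) * D ^ 3 * (p : ℝ) ^ (k + 6) * (1 + Mv A) := by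
          refine mul_le_mul ?_ (by linarith) (by norm_num) (by positivity)
          refine mul_le_mul ?_ (one_le_pow₀ hp1) (by norm_num) (by positivity)
          refine mul_le_mul_of_nonneg_right ?_ (by positivity)
          have : 1 ≤ (ν : ℝ) ^ 2 := one_le_pow₀ hν1
          have h7 : 1 ≤ 2 ^ Fintype.card ι * (ν : ℝ) ^ 2 := one_le_mul_of_one_le_of_one_le h2n this
          nlinarith
      _ = _ := by ring
  push Not at hM1
  have hp1' : (1 : ℝ) < p := by exact_mod_cast hp.one_lt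
  obtain ⟨μ, hμ1, hμ2⟩ := exists_nat_pow_near hM1 hp1'
  have hμν : 2 * μ ≤ ν := by
    have h1 : (p : ℝ) ^ (2 * μ) ≤ (p : ℝ) ^ ν := by
      calc (p : ℝ) ^ (2 * μ) = ((p : ℝ) ^ μ) ^ 2 := by rw [← pow_mul]; congr 1; ring
        _ ≤ Mv A ^ 2 := pow_le_pow_left₀ (by positivity) (hμ1.trans hM'le) 2
        _ ≤ _ := hM
    exact (pow_le_pow_iff_right₀ hp1').1 h1
  set J := μ + 1 - k with hJ
  have hd := d2_pos hp0 o k
  have hws := wt_summable hA hd
  set τ : (ι → ℤ) → ℝ := fun t => ‖GS A' (c - (2 : ℝ)⁻¹ • cz (sc (d2 p o k) t))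
    (DF (d2 p o k) (fun z => χ (z o : ZMod (p ^ ν))) t)‖ with hτ
  have hτ0 : ∀ t, 0 ≤ τ t := fun t => norm_nonneg _
  have hpμ : (1 : ℝ) ≤ (p : ℝ) ^ (μ + 1) := one_le_pow₀ hp1
  have hτb : ∀ t, τ t ≤ D * (p : ℝ) ^ (μ + 1) := by
    intro t
    refine (GS_le hA'd _ (fun z => DF_norm hF0 t z)).trans ((hBal'.zero.one _).trans ?_)
    calc B * (1 + Mv A') ≤ B * (2 * (p : ℝ) ^ (μ + 1)) :=
          mul_le_mul_of_nonneg_left (by linarith) hB
      _ = (2 * B) * (p : ℝ) ^ (μ + 1) := by ring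
      _ ≤ _ := mul_le_mul_of_nonneg_right hBD (by positivity)
  -- the first differencing
  obtain ⟨-, hv⟩ := vdc_gs hA c hF hd
  rw [d2_prod] at hv
  have hsum1 : Summable fun t => wt A (d2 p o k) t * τ t :=
    wsum (fun t => (wt_pos _ _ _).le) hws hτ0 hτb
  have hn1 : ‖∑' t, (wt A (d2 p o k) t : ℂ) * GS ((√2) • A) (c - (2 : ℝ)⁻¹ • cz (sc (d2 p o k) t))
      (DF (d2 p o k) (fun z => ee η z * χ (z o : ZMod (p ^ ν))) t)‖ ≤ ∑' t, wt A (d2 p o k) t * τ t := by
    refine tsum_of_norm_bounded hsum1.hasSum fun t => ?_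
    rw [norm_mul, Complex.norm_real, Real.norm_of_nonneg (wt_pos _ _ _).le,
      GS_DF_ee _ _ _ η (fun z => χ (z o : ZMod (p ^ ν)))]
  -- splitting according to the valuation
  let Aj : ℕ → (ι → ℤ) → ℝ := fun j t => if (p : ℤ) ^ j ∣ t o ∧ ¬ (p : ℤ) ^ (j + 1) ∣ t o then
    wt A (d2 p o k) t * τ t else 0
  let AJ : (ι → ℤ) → ℝ := fun t => if (p : ℤ) ^ J ∣ t o then wt A (d2 p o k) t * τ t else 0
  have hwτ : ∀ t, 0 ≤ wt A (d2 p o k) t * τ t := fun t => mul_nonneg (wt_pos _ _ _).le (hτ0 t)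
  have hAj0 : ∀ j t, 0 ≤ Aj j t := by
    intro j t
    simp only [Aj]
    split_ifs
    · exact hwτ t
    · exact le_rfl
  have hAJ0 : ∀ t, 0 ≤ AJ t := by
    intro t
    simp only [AJ]
    split_ifs
    · exact hwτ t
    · exact le_rfl
  have hAjs : ∀ j, Summable (Aj j) := fun j =>
    Summable.of_nonneg_of_le (hAj0 j) (fun t => by
      simp only [Aj]
      split_ifs
      · exact le_rfl
      · exact hwτ t) hsum1
  have hAJs : Summable AJ :=
    Summable.of_nonneg_of_le hAJ0 (fun t => by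
      simp only [AJ]
      split_ifs
      · exact le_rfl
      · exact hwτ t) hsum1
  have hsplit : ∀ t, wt A (d2 p o k) t * τ t ≤ ∑ j ∈ range J, Aj j t + AJ t := by
    intro t
    by_cases ht : (p : ℤ) ^ J ∣ t o
    · have : AJ t = wt A (d2 p o k) t * τ t := by simp only [AJ]; rw [if_pos ht]
      rw [this]
      have := sum_nonneg fun j (_ : j ∈ range J) => hAj0 j t
      linarith
    · obtain ⟨v, n, hvJ, e1, hn, -⟩ := good_factor hp ht
      have hv1 : (p : ℤ) ^ v ∣ t o := by rw [e1]; exact dvd_mul_right _ _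
      have hv2 : ¬ (p : ℤ) ^ (v + 1) ∣ t o := by
        rw [e1, pow_succ]
        intro h
        exact hn ((mul_dvd_mul_iff_left (pow_ne_zero _ (by exact_mod_cast hp0.ne'))).1 h)
      have h1 : Aj v t = wt A (d2 p o k) t * τ t := by simp only [Aj]; rw [if_pos ⟨hv1, hv2⟩]
      have h2 := single_le_sum (f := fun j => Aj j t) (fun j _ => hAj0 j t) (mem_range.2 hvJ)
      rw [h1] at h2
      linarith [hAJ0 t]
  have hk1 : 19 * ν ≤ 58 * k := by omega
  have hkν : k ≤ ν := by omega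
  -- one valuation
  have hAjb : ∀ j ∈ range J, ∑' t, Aj j t ≤ 6 * ν * D ^ 3 * (p : ℝ) ^ (μ + 6) := by
    intro j hj
    rw [mem_range] at hj
    have hsup : Function.support (Aj j) ⊆ Set.range (sc (dk p o j)) := by
      intro t ht
      rw [Function.mem_support] at ht
      refine dk_range ?_
      by_contra h
      apply ht
      simp only [Aj]
      rw [if_neg fun h' => h h'.1]
    rw [← (sc_inj (dk_pos hp0 o j)).tsum_eq hsup]
    have e2 : ∀ x : ι → ℤ, Aj j (sc (dk p o j) x) = w1 p o (A' * dgm (dk p o (k + j))) x *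
        ‖GS A' (c - (2 : ℝ)⁻¹ • cz (sc (d2 p o k) (sc (dk p o j) x)))
          (DF (d2 p o k) (fun z => χ (z o : ZMod (p ^ ν))) (sc (dk p o j) x))‖ := by
      intro x
      simp only [Aj]
      unfold w1
      rw [sc_dk_o]
      by_cases hx : (p : ℤ) ∣ x o
      · rw [if_pos hx, if_neg, zero_mul]
        rintro ⟨-, h⟩
        apply h
        rw [pow_succ]
        exact mul_dvd_mul_left _ hx
      · rw [if_neg hx, if_pos, wt_d2]
        refine ⟨dvd_mul_right _ _, fun h => hx ?_⟩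
        rw [pow_succ] at h
        exact (mul_dvd_mul_iff_left (pow_ne_zero _ (by exact_mod_cast hp0.ne'))).1 h
    rw [tsum_congr e2]
    exact sig_bound hp hp7 hν3 (by omega) hμν (by omega) hA'd hBal' hD hμ1 hμ2.le hχ rfl c
  have hAJb : ∑' t, AJ t ≤ D ^ 2 * (p : ℝ) ^ (μ + 1) := by
    have h1 : ∑' t, AJ t ≤ ∑' t : ι → ℤ, (if (p : ℤ) ^ J ∣ t o then wt A (d2 p o k) t else 0) *
        (D * (p : ℝ) ^ (μ + 1)) := by
      refine hAJs.tsum_le_tsum (fun t => ?_) ((sum_dvd_summable (wt_det hA hd) J).mul_right _)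
      simp only [AJ]
      split_ifs
      · exact mul_le_mul_of_nonneg_left (hτb t) (wt_pos _ _ _).le
      · rw [zero_mul]
    rw [tsum_mul_right] at h1
    refine h1.trans ?_
    have h2 : ∑' t : ι → ℤ, (if (p : ℤ) ^ J ∣ t o then wt A (d2 p o k) t else 0) ≤ D := by
      unfold wt
      rw [sum_dvd hp0, d2_mat]
      refine ((hBal' (k + J) (by omega)).one 0).trans ?_
      have h3 : Mv (A' * dgm (dk p o (k + J))) ≤ 1 := by
        rw [Mv_mul, Mv_dk, ← div_eq_mul_inv, div_le_one (by positivity)]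
        exact hμ2.le.trans (pow_le_pow_right₀ hp1 (by omega))
      have := mul_le_mul_of_nonneg_left (show 1 + Mv (A' * dgm (dk p o (k + J))) ≤ 2 by linarith) hB
      linarith
    calc _ ≤ D * (D * (p : ℝ) ^ (μ + 1)) := mul_le_mul_of_nonneg_right h2 (by positivity)
      _ = _ := by ring
  have hJν : (J : ℝ) ≤ ν := by
    have : J ≤ ν := by omega
    exact_mod_cast this
  have htot : ∑' t, wt A (d2 p o k) t * τ t ≤ 7 * ν ^ 2 * D ^ 3 * (p : ℝ) ^ (μ + 6) := by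
    calc ∑' t, wt A (d2 p o k) t * τ t ≤ ∑' t, (∑ j ∈ range J, Aj j t + AJ t) :=
          hsum1.tsum_le_tsum hsplit ((summable_sum fun j _ => hAjs j).add hAJs)
      _ = ∑ j ∈ range J, ∑' t, Aj j t + ∑' t, AJ t := by
          rw [Summable.tsum_add (summable_sum fun j _ => hAjs j) hAJs,
            Summable.tsum_finsetSum fun j _ => hAjs j]
      _ ≤ ∑ j ∈ range J, 6 * ν * D ^ 3 * (p : ℝ) ^ (μ + 6) + D ^ 2 * (p : ℝ) ^ (μ + 1) :=
          add_le_add (sum_le_sum hAjb) hAJb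
      _ = J * (6 * ν * D ^ 3 * (p : ℝ) ^ (μ + 6)) + D ^ 2 * (p : ℝ) ^ (μ + 1) := by
          rw [sum_const, card_range, nsmul_eq_mul]
      _ ≤ ν * (6 * ν * D ^ 3 * (p : ℝ) ^ (μ + 6)) + ν ^ 2 * D ^ 3 * (p : ℝ) ^ (μ + 6) := by
          refine add_le_add (mul_le_mul_of_nonneg_right hJν (by positivity)) ?_
          refine mul_le_mul ?_ (pow_le_pow_right₀ hp1 (by omega)) (by positivity) (by positivity)
          have h5 : 1 ≤ (ν : ℝ) ^ 2 := one_le_pow₀ hν1
          have h6 : D ^ 2 ≤ D ^ 3 := pow_le_pow_right₀ hD1 (by norm_num)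
          have h7 : 0 ≤ D ^ 2 := by positivity
          nlinarith
      _ = _ := by ring
  calc ‖GS A c (fun z => ee η z * χ (z o : ZMod (p ^ ν)))‖ ^ 2 ≤ 2 ^ Fintype.card ι * (p : ℝ) ^ k *
        (7 * ν ^ 2 * D ^ 3 * (p : ℝ) ^ (μ + 6)) :=
        hv.trans (mul_le_mul_of_nonneg_left (hn1.trans htot) (by positivity))
    _ = 7 * 2 ^ Fintype.card ι * ν ^ 2 * D ^ 3 * (p : ℝ) ^ (k + 6) * (p : ℝ) ^ μ := by
        rw [pow_add, pow_add]; ring
    _ ≤ _ := by
        refine mul_le_mul_of_nonneg_left ?_ (by positivity)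
        linarith

lemma dk_dv (p : ℕ) (o : ι) (k : ℕ) : dv p (fun _ : Unit => o) (fun _ => k) = dk p o k := by
  funext i
  unfold dv dk
  rw [Fintype.prod_unique]
  by_cases h : i = o
  · rw [if_pos h, if_pos h.symm]
  · rw [if_neg h, if_neg fun h' => h h'.symm]

/-- the sub-Weyl estimate for one prime -/
theorem core_sw (hp : p.Prime) (hp7 : 7 ≤ p) {ν : ℕ} (hν : 1 ≤ ν) (o : ι) {B D : ℝ}
    (hD : DD (Fintype.card ι) B D) : Core p (fun _ : Unit => o) (fun _ => ν) B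
      (7 * 2 ^ Fintype.card ι * ν ^ 2 * D ^ 3 * (p : ℝ) ^ ((19 * ν + 57) / 58 + 6)) := by
  intro A hA hBal hM ψ hψ c η
  have hs : ∑ _j : Unit, ν = ν := by simp
  rw [hs] at hM
  have hBal' : Bal p o ν B A := by
    intro k hk
    have := hBal (fun _ => k) (fun _ => hk)
    rwa [dk_dv] at this
  have h := core1p hp hp7 hν hA hBal' hD hM (hψ ()) c η
  have e1 : (fun z : ι → ℤ => ee η z * Fc (fun _ : Unit => o) ψ z) =
      fun z => ee η z * ψ () (z o : ZMod (p ^ ν)) := by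
    funext z
    unfold Fc Fp
    rw [Fintype.prod_unique]
  rw [e1]
  exact h

end Pool.Agent.T2H29.SW
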