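import Pool.Agent.T2H29.SW.V3

/-!
# The bound of Weyl quality for several primes: the local analysis
-/

set_option autoImplicit false
set_option linter.unusedSectionVars false

namespace Pool.Agent.T2H29.SW

open Finset
open Pool.Agent.Y779.R3 (unit_int pi_zero not_unit_pi)
open Pool.Agent.Y766.R3 (KL FF)

lemma fth_triv {N : ℕ} {f : ℤ → ℂ} (hf : ∀ x, ‖f x‖ ≤ 1) (y : ℤ) : ‖fth N f y‖ ≤ N := by
  unfold fth
  refine (norm_sum_le _ _).trans ((sum_le_card_nsmul _ _ 1 fun r _ => ?_).trans ?_)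
  · rw [norm_mul, e_norm, mul_one]
    exact hf r
  · simp

/-- the difference of a character, locally -/
lemma chi_diff {p ν a : ℕ} (hp : p.Prime) (hp2 : p ≠ 2) (ha : 1 ≤ a) (haν : a ≤ ν)
    (h3 : ν ≤ 3 * a) {ψ : DirichletCharacter ℂ (p ^ ν)} (hψ : ψ.IsPrimitive) (τ : ℤ) :
    ∃ (R v : ℕ) (φ : ℤ → ℂ), 1 ≤ R ∧ R ≤ max (ν - a) 1 ∧ v ≤ ν - a ∧ (p : ℤ) ^ v ∣ τ ∧
      ν - a - v ≤ R ∧
      (∀ z : ℤ, ψ ((z + (p : ℤ) ^ a * τ : ℤ) : ZMod (p ^ ν)) *
        (starRingEnd ℂ) (ψ ((z - (p : ℤ) ^ a * τ : ℤ) : ZMod (p ^ ν))) = φ z) ∧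
      (∀ z t : ℤ, φ (z + (p : ℤ) ^ R * t) = φ z) ∧ (∀ z, ‖φ z‖ ≤ 1) ∧
      ∀ y, ‖fth (p ^ R) φ y‖ ≤ 2 * (p : ℝ) ^ ((R + 1) / 2) := by
  have hp0 := hp.pos
  have hp1 : (1 : ℝ) ≤ p := by exact_mod_cast hp0
  by_cases h : (p : ℤ) ^ (ν - a) ∣ τ
  · refine ⟨1, ν - a, fun z => if (p : ℤ) ∣ z then 0 else 1, le_rfl, le_max_right _ _, le_rfl, h,
      by omega, ?_, ?_, ?_, ?_⟩
    · intro z
      beta_reduce
      obtain ⟨k, hk⟩ := h
      have e0 : ((p : ZMod (p ^ ν)) ^ ν) = 0 := by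
        rw [← Nat.cast_pow, ZMod.natCast_self]
      have e1 : ((z + (p : ℤ) ^ a * τ : ℤ) : ZMod (p ^ ν)) = (z : ZMod (p ^ ν)) := by
        rw [hk, ← mul_assoc, ← pow_add, show a + (ν - a) = ν by omega]
        push_cast
        rw [e0, zero_mul, add_zero]
      have e2 : ((z - (p : ℤ) ^ a * τ : ℤ) : ZMod (p ^ ν)) = (z : ZMod (p ^ ν)) := by
        rw [hk, ← mul_assoc, ← pow_add, show a + (ν - a) = ν by omega]
        push_cast
        rw [e0, zero_mul, sub_zero]
      rw [e1, e2, Complex.mul_conj']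
      by_cases hz : (p : ℤ) ∣ z
      · have hnu : ¬ IsUnit (z : ZMod (p ^ ν)) := by
          obtain ⟨k, rfl⟩ := hz
          push_cast
          exact not_unit_pi hp (by omega) _
        rw [MulChar.map_nonunit ψ hnu, if_pos hz]
        simp
      · have hu : IsUnit (z : ZMod (p ^ ν)) := unit_int hp hz
        obtain ⟨u, hu'⟩ := hu
        rw [if_neg hz, ← hu', ψ.unit_norm_eq_one]
        simp
    · intro z t
      have : (p : ℤ) ∣ z + (p : ℤ) ^ 1 * t ↔ (p : ℤ) ∣ z := by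
        rw [pow_one]
        exact dvd_add_left (dvd_mul_right _ _)
      beta_reduce
      by_cases hz : (p : ℤ) ∣ z
      · rw [if_pos hz, if_pos (this.2 hz)]
      · rw [if_neg hz, if_neg fun h => hz (this.1 h)]
    · intro z
      beta_reduce
      split_ifs <;> simp
    · intro y
      refine (fth_triv (fun z => ?_) y).trans ?_
      · beta_reduce
        split_ifs <;> simp
      · push_cast
        have : (p : ℝ) ^ 1 = (p : ℝ) ^ ((1 + 1) / 2) := by norm_num
        rw [this]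
        have : (0 : ℝ) ≤ (p : ℝ) ^ ((1 + 1) / 2) := by positivity
        linarith
  · obtain ⟨v, n, hv, e1, hn, -⟩ := good_factor hp h
    set m := a + v with hm
    haveI : NeZero (p ^ (ν - m)) := ⟨by positivity⟩
    obtain ⟨Φ, hΦ1, hΦ2, hΦ3⟩ := hphi p ν m hp hp2 (by omega) (by omega) ψ hψ
    obtain ⟨A0, hA0, hA1⟩ := hΦ3 0 (by omega) (by omega)
    have hPhi : PhiD p (ν - m) 0 Φ A0 := ⟨hΦ1, hA0, hA1⟩
    refine ⟨ν - m, v, fun z => FL Φ (n : ZMod (p ^ (ν - m))) (z : ZMod (p ^ (ν - m))), by omega, ?_, by omega, ?_,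
      by omega, ?_, ?_, ?_, ?_⟩
    · exact le_max_of_le_left (by omega)
    · rw [e1]; exact dvd_mul_right _ _
    · intro z
      beta_reduce
      have e2 : (p : ℤ) ^ a * τ = (p : ℤ) ^ m * n := by rw [e1, hm, pow_add]; ring
      have hd : (p : ℤ) ∣ (p : ℤ) ^ m * n := Dvd.dvd.mul_right (dvd_pow_self _ (by omega)) _
      have e3 : ψ ((z + (p : ℤ) ^ a * τ : ℤ) : ZMod (p ^ ν)) *
        (starRingEnd ℂ) (ψ ((z - (p : ℤ) ^ a * τ : ℤ) : ZMod (p ^ ν))) =
          FF ψ ((p : ℤ) ^ m * (2 * n)) (z - (p : ℤ) ^ m * n) := by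
        unfold FF
        rw [e2]
        congr 3
        push_cast
        ring
      rw [e3, hΦ2, FL_int hp (by omega)]
      have hdz : (p : ℤ) ∣ z - (p : ℤ) ^ m * n ↔ (p : ℤ) ∣ z := by
        constructor
        · intro h'
          have := dvd_add h' hd
          simpa using this
        · intro h'
          exact dvd_sub h' hd
      by_cases hz : (p : ℤ) ∣ z
      · rw [if_pos hz, if_pos (hdz.2 hz)]
      · rw [if_neg hz, if_neg (fun h => hz (hdz.1 h))]
        congr 1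
        have hu : IsUnit ((z : ℤ) : ZMod (p ^ (ν - m))) := unit_int hp hz
        have h2 : IsUnit (2 : ZMod (p ^ (ν - m))) := Pool.Agent.Y779.R3.unit_two hp hp2
        have e5 : ((2 * (z - (p : ℤ) ^ m * n) + (p : ℤ) ^ m * (2 * n) : ℤ) : ZMod (p ^ (ν - m))) =
            2 * ((z : ℤ) : ZMod (p ^ (ν - m))) := by push_cast; ring
        have hu2 : IsUnit (2 * ((z : ℤ) : ZMod (p ^ (ν - m)))) := h2.mul hu
        rw [e5]
        set V := ((z : ℤ) : ZMod (p ^ (ν - m)))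
        have f1 := ZMod.mul_inv_of_unit _ hu
        have f2 := ZMod.mul_inv_of_unit _ hu2
        push_cast
        have f3 : 2 * (2 * V)⁻¹ = V⁻¹ := by
          linear_combination V⁻¹ * f2 - (2 * (2 * V)⁻¹) * f1
        linear_combination (n : ZMod (p ^ (ν - m))) * f3
    · intro z t
      beta_reduce
      congr 1
      push_cast
      have : ((p : ZMod (p ^ (ν - m))) ^ (ν - m)) = 0 := by
        rw [← Nat.cast_pow, ZMod.natCast_self]
      rw [this]
      ring
    · intro z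
      exact FL_norm hΦ1 _ _
    · intro y
      by_cases hR2 : 2 ≤ ν - m
      · rw [fth_zmod (fun z : ZMod (p ^ (ν - m)) => FL Φ (n : ZMod (p ^ (ν - m))) z)]
        have hul : IsUnit ((n : ZMod (p ^ (ν - m)))) := unit_int hp hn
        have hk := (hklo p (ν - m) 0 hp hp2 hR2 (by omega) (PP Φ A0) (PP_norm hPhi.norm A0)
          (PP_per hPhi) A0 (n : ZMod (p ^ (ν - m))) hPhi.unit hul).1
        rw [ft_FL A0 _ hul]
        exact hk y
      · refine (fth_triv (fun z => FL_norm hΦ1 _ _) y).trans ?_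
        have hR1 : ν - m = 1 := by omega
        rw [hR1]
        push_cast
        have : (p : ℝ) ^ 1 = (p : ℝ) ^ ((1 + 1) / 2) := by norm_num
        rw [this]
        have : (0 : ℝ) ≤ (p : ℝ) ^ ((1 + 1) / 2) := by positivity
        linarith

variable {ι : Type} [Fintype ι] [DecidableEq ι] {J : Type} [Fintype J] [DecidableEq J] {p : ℕ}

lemma dv_range {o : J → ι} (ho : Function.Injective o) {e' : J → ℕ} {t : ι → ℤ}
    (h : ∀ j, (p : ℤ) ^ e' j ∣ t (o j)) : t ∈ Set.range (sc (dv p o e')) := by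
  choose s hs using h
  classical
  refine ⟨fun i => if h : ∃ j, o j = i then s h.choose else t i, ?_⟩
  funext i
  unfold sc
  beta_reduce
  by_cases hi : ∃ j, o j = i
  · rw [dif_pos hi]
    obtain ⟨j, rfl⟩ := id hi
    have e1 : hi.choose = j := ho hi.choose_spec
    rw [e1, dv_o p ho, hs]
    push_cast
    rfl
  · rw [dif_neg hi, dv_not p e' (fun h => hi (by obtain ⟨j, hj⟩ := h; exact ⟨j, hj⟩))]
    simp

lemma sum_dvdv (hp : 0 < p) {o : J → ι} (ho : Function.Injective o) (A : Matrix ι ι ℝ)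
    (e' : J → ℕ) [∀ t : ι → ℤ, Decidable (∀ j, (p : ℤ) ^ e' j ∣ t (o j))] :
    ∑' t : ι → ℤ, (if ∀ j, (p : ℤ) ^ e' j ∣ t (o j) then gs A 0 t else 0) =
      ∑' t, gs (A * dgm (dv p o e')) 0 t := by
  have hsup : Function.support (fun t : ι → ℤ =>
      (if ∀ j, (p : ℤ) ^ e' j ∣ t (o j) then gs A 0 t else 0)) ⊆ Set.range (sc (dv p o e')) := by
    intro t h
    rw [Function.mem_support] at h
    have h4 : ∀ j, (p : ℤ) ^ e' j ∣ t (o j) := by
      by_contra h5
      exact h (if_neg h5)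
    exact dv_range ho h4
  rw [← (sc_inj (dv_pos hp o e')).tsum_eq hsup]
  refine tsum_congr fun t => ?_
  rw [if_pos (fun j => by rw [sc_dv ho]; exact dvd_mul_right _ _), gs_mul_dgm]
  congr 1
  funext i; simp

lemma sum_dvdv_summable {o : J → ι} {A : Matrix ι ι ℝ} (hA : A.det ≠ 0) (e' : J → ℕ)
    [∀ t : ι → ℤ, Decidable (∀ j, (p : ℤ) ^ e' j ∣ t (o j))] :
    Summable fun t : ι → ℤ => (if ∀ j, (p : ℤ) ^ e' j ∣ t (o j) then gs A 0 t else 0) := by
  refine Summable.of_nonneg_of_le (fun t => ?_) (fun t => ?_) (gs_summable hA 0)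
  · split_ifs
    · exact (gs_pos _ _ _).le
    · exact le_rfl
  · split_ifs
    · exact le_rfl
    · exact (gs_pos _ _ _).le

end Pool.Agent.T2H29.SW
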