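import Pool.Agent.T2H29.SW.V4

/-!
# The bound of Weyl quality for several primes
-/

set_option autoImplicit false
set_option linter.unusedSectionVars false

namespace Pool.Agent.T2H29.SW

open Finset

variable {ι : Type} [Fintype ι] [DecidableEq ι] {J : Type} [Fintype J] [DecidableEq J] {p : ℕ}

/-- the steps -/
def dv2 (p : ℕ) (o : J → ι) (a : J → ℕ) : ι → ℕ := fun i => 2 * dv p o a i

lemma dv2_pos (hp : 0 < p) (o : J → ι) (a : J → ℕ) (i : ι) : 0 < dv2 p o a i :=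
  Nat.mul_pos (by norm_num) (dv_pos hp o a i)

lemma dv2_prod {o : J → ι} (ho : Function.Injective o) (a : J → ℕ) :
    ∏ i, ((dv2 p o a i : ℕ) : ℝ) = 2 ^ Fintype.card ι * (p : ℝ) ^ ∑ j, a j := by
  unfold dv2
  push_cast
  rw [prod_mul_distrib, prod_const, card_univ, ← Nat.cast_prod, prod_dv p ho]
  push_cast; rfl

lemma dv2_mat (o : J → ι) (A : Matrix ι ι ℝ) (a b : J → ℕ) :
    (√2)⁻¹ • (A * dgm (dv2 p o a)) * dgm (dv p o b) = ((√2) • A) * dgm (dv p o (a + b)) := by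
  have e1 : dgm (dv2 p o a) = (2 : ℝ) • dgm (dv p o a) := by
    unfold dgm dv2
    ext i i'
    by_cases h : i = i'
    · subst h; simp
    · simp [h]
  rw [e1, Matrix.mul_smul, smul_smul, Matrix.smul_mul, Matrix.mul_assoc, dgm_mul, dv_add,
    Matrix.smul_mul]
  congr 1
  have : √2 * √2 = 2 := Real.mul_self_sqrt (by norm_num)
  field_simp
  linarith

/-- the first difference -/
lemma DF_chis (hp : p.Prime) {o : J → ι} (ho : Function.Injective o) {ν a : J → ℕ}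
    (ψ : ∀ j, DirichletCharacter ℂ (p ^ ν j)) (t : ι → ℤ) {φ : J → ℤ → ℂ}
    (hφ : ∀ j, ∀ z : ℤ, ψ j ((z + (p : ℤ) ^ a j * t (o j) : ℤ) : ZMod (p ^ ν j)) *
        (starRingEnd ℂ) (ψ j ((z - (p : ℤ) ^ a j * t (o j) : ℤ) : ZMod (p ^ ν j))) = φ j z)
    (A : Matrix ι ι ℝ) (c : ι → ℝ) :
    GS A (c - (2 : ℝ)⁻¹ • cz (sc (dv2 p o a) t)) (DF (dv2 p o a) (Fc o ψ) t) =
      GS A c (fun z => ee 0 z * Fp o φ z) := by
  set s : ι → ℤ := sc (dv p o a) t with hs
  have e1 : (2 : ℝ)⁻¹ • cz (sc (dv2 p o a) t) = cz s := by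
    funext i
    simp only [Pi.smul_apply, cz, hs, sc, dv2, smul_eq_mul]
    push_cast
    ring
  rw [e1, ← GS_shift A c s]
  congr 1
  funext z
  rw [ee_zero, one_mul]
  unfold DF Fc Fp
  rw [map_prod, ← prod_mul_distrib]
  refine prod_congr rfl fun j _ => ?_
  have hso : s (o j) = (p : ℤ) ^ a j * t (o j) := by rw [hs, sc_dv ho]
  rw [Pi.add_apply (f := z) (g := s), hso, ← hφ j]
  congr 3
  · congr 1
    rw [Pi.add_apply]
    simp only [sc, dv2]
    rw [dv_o p ho]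
    push_cast
    ring
  · congr 1
    ring

/-- several primes: the bound of Weyl quality -/
theorem core_weyl (hp : p.Prime) (hp2 : p ≠ 2) {o : J → ι} (ho : Function.Injective o)
    {ν : J → ℕ} (hν : ∀ j, 1 ≤ ν j) (B : ℝ) : Core p o ν B
      (16 * 2 ^ (Fintype.card ι + Fintype.card J) * B ^ 2 * (∏ j, ((ν j : ℝ) + 1)) *
        (p : ℝ) ^ (∑ j, (ν j / 3 + 3))) := by
  classical
  intro A hA hBal hM ψ hψ c η
  have hp0 := hp.pos
  have hp1 : (1 : ℝ) ≤ p := by exact_mod_cast hp0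
  have hB := hBal.zero.nonneg
  have hMA := Mv_pos hA
  set n := Fintype.card ι with hn
  set r := Fintype.card J with hr
  set a : J → ℕ := fun j => (ν j + 2) / 3 with ha
  set D : J → ℕ := fun j => ν j - a j with hD
  set E := ∑ j, (ν j / 3 + 3) with hE
  set V : ℝ := ∏ j, ((ν j : ℝ) + 1) with hV
  have hV1 : 1 ≤ V := by
    rw [hV]
    have : ∏ j : J, (1 : ℝ) ≤ ∏ j, ((ν j : ℝ) + 1) := prod_le_prod (fun _ _ => by norm_num)
      fun j _ => by have : (0 : ℝ) ≤ ν j := by positivity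
                    linarith
    simpa using this
  have h2 : (1 : ℝ) ≤ 2 ^ (n + r) := one_le_pow₀ (by norm_num)
  set Q := ∑ j, a j with hQ
  have hF0 : ∀ z : ι → ℤ, ‖Fc o ψ z‖ ≤ 1 := Fc_norm o ψ
  have hF : ∀ z : ι → ℤ, ‖ee η z * Fc o ψ z‖ ≤ 1 := fun z => by
    rw [norm_mul, ee_norm, one_mul]; exact hF0 z
  have htriv : ‖GS A c (fun z => ee η z * Fc o ψ z)‖ ≤ B * (1 + Mv A) :=
    (GS_le hA c hF).trans (hBal.zero.one c)
  have hQE : Q + r ≤ E := by
    rw [hQ, hE, hr, ← card_univ, card_eq_sum_ones, ← sum_add_distrib]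
    refine sum_le_sum fun j _ => ?_
    simp only [ha]
    omega
  by_cases hMQ : Mv A ≤ (p : ℝ) ^ Q
  · -- the trivial bound
    have hpQ : (1 : ℝ) ≤ (p : ℝ) ^ Q := one_le_pow₀ hp1
    calc ‖GS A c (fun z => ee η z * Fc o ψ z)‖ ^ 2 ≤ (B * (1 + Mv A)) ^ 2 :=
          pow_le_pow_left₀ (norm_nonneg _) htriv 2
      _ = B ^ 2 * (1 + Mv A) * (1 + Mv A) := by ring
      _ ≤ B ^ 2 * (2 * (p : ℝ) ^ Q) * (1 + Mv A) := by
          refine mul_le_mul_of_nonneg_right ?_ (by positivity)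
          exact mul_le_mul_of_nonneg_left (by linarith) (by positivity)
      _ = (2 * 1 * B ^ 2 * 1 * (p : ℝ) ^ Q) * (1 + Mv A) := by ring
      _ ≤ _ := by
          refine mul_le_mul_of_nonneg_right ?_ (by positivity)
          refine mul_le_mul ?_ (pow_le_pow_right₀ hp1 (by omega)) (by positivity) (by positivity)
          refine mul_le_mul ?_ hV1 (by norm_num) (by positivity)
          refine mul_le_mul_of_nonneg_right ?_ (by positivity)
          exact mul_le_mul (by norm_num) h2 (by norm_num) (by norm_num)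
  push Not at hMQ
  have ha1 : ∀ j, 1 ≤ a j := fun j => by
    have := hν j
    simp only [ha]
    omega
  have haν : ∀ j, a j ≤ ν j := fun j => by
    have := hν j
    simp only [ha]
    omega
  have ha3 : ∀ j, ν j ≤ 3 * a j := fun j => by simp only [ha]; omega
  have hloc := fun (t : ι → ℤ) (j : J) => chi_diff hp hp2 (ha1 j) (haν j) (ha3 j) (hψ j) (t (o j))
  choose R v φ hR1 hR2 hv1 hv2 hvR hφ hφp hφ1 hφk using hloc
  set A' := (√2) • A with hA'
  have hA'd : A'.det ≠ 0 := smul_det_ne (by positivity) hA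
  have hMA' := Mv_pos hA'd
  have hM'le : Mv A' ≤ Mv A := Mv_s2 le_rfl
  have hBal' : BalV p o ν B A' := hBal.smul (by positivity)
  have hd := dv2_pos hp0 o a
  set τ : (ι → ℤ) → ℝ := fun t => ‖GS A' (c - (2 : ℝ)⁻¹ • cz (sc (dv2 p o a) t))
    (DF (dv2 p o a) (Fc o ψ) t)‖ with hτ
  set K1 := ∑ j, (max (D j) 1 + 1) / 2 with hK1
  set w : (ι → ℤ) → ℝ := fun t => (p : ℝ) ^ ∑ j, v t j / 2 with hw
  set α : ℝ := 2 ^ r * B * (p : ℝ) ^ K1 with hα
  set β : ℝ := 2 ^ r * B * (Mv A * ((p : ℝ) ^ r * ((p : ℝ) ^ ∑ j, D j / 2)⁻¹)) with hβ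
  have hα0 : 0 ≤ α := by positivity
  have hβ0 : 0 ≤ β := by positivity
  -- the inner sums
  have hτb : ∀ t, τ t ≤ α + β * w t := by
    intro t
    simp only [hτ]
    rw [DF_chis hp ho ψ t (hφ t)]
    have hRν : ∀ j, R t j ≤ ν j := fun j => by
      have h1 := hR2 t j
      have h2 := hν j
      have h3 := ha1 j
      omega
    refine (comp_prod hp0 ho (a := R t) hA'd c 0 (hφp t) (hφ1 t) (hBal' _ hRν) (hφk t)).trans ?_
    rw [prod_mul_distrib, prod_const, card_univ, prod_pow_eq_pow_sum, Mv_mul, Mv_dv p ho, ← hr]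
    have i1 : (p : ℝ) ^ (∑ j, (R t j + 1) / 2) ≤ (p : ℝ) ^ K1 := by
      refine pow_le_pow_right₀ hp1 (sum_le_sum fun j _ => ?_)
      have := hR2 t j
      simp only [hD]
      omega
    have i2 : (p : ℝ) ^ (∑ j, (R t j + 1) / 2) * ((p : ℝ) ^ ∑ j, R t j)⁻¹ ≤
        (p : ℝ) ^ r * ((p : ℝ) ^ ∑ j, D j / 2)⁻¹ * w t := by
      rw [mul_inv_le_iff₀ (by positivity)]
      have e1 : (p : ℝ) ^ r * ((p : ℝ) ^ ∑ j, D j / 2)⁻¹ * w t * (p : ℝ) ^ (∑ j, R t j) =
        (p : ℝ) ^ (r + ∑ j, v t j / 2 + ∑ j, R t j) * ((p : ℝ) ^ ∑ j, D j / 2)⁻¹ := by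
        rw [pow_add, pow_add, hw]; ring
      rw [e1, le_mul_inv_iff₀ (by positivity), ← pow_add]
      refine pow_le_pow_right₀ hp1 ?_
      rw [hr, ← card_univ, card_eq_sum_ones, ← sum_add_distrib, ← sum_add_distrib,
        ← sum_add_distrib]
      refine sum_le_sum fun j _ => ?_
      have h1 := hvR t j
      have h2 := hv1 t j
      simp only [hD]
      omega
    calc (2 ^ r * (p : ℝ) ^ (∑ j, (R t j + 1) / 2)) * (B * (1 + Mv A' * ((p : ℝ) ^ ∑ j, R t j)⁻¹)) =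
          2 ^ r * B * ((p : ℝ) ^ (∑ j, (R t j + 1) / 2) + Mv A' *
            ((p : ℝ) ^ (∑ j, (R t j + 1) / 2) * ((p : ℝ) ^ ∑ j, R t j)⁻¹)) := by ring
      _ ≤ 2 ^ r * B * ((p : ℝ) ^ K1 + Mv A * ((p : ℝ) ^ r * ((p : ℝ) ^ ∑ j, D j / 2)⁻¹ * w t)) := by
          refine mul_le_mul_of_nonneg_left (add_le_add i1 ?_) (by positivity)
          exact mul_le_mul hM'le i2 (by positivity) hMA.le
      _ = _ := by rw [hα, hβ]; ring
  have hw0 : ∀ t, 0 ≤ w t := fun t => by simp only [hw]; positivity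
  have hwb : ∀ t, w t ≤ (p : ℝ) ^ (∑ j, D j / 2) := fun t => by
    simp only [hw]
    refine pow_le_pow_right₀ hp1 (sum_le_sum fun j _ => ?_)
    have := hv1 t j
    simp only [hD]
    omega
  have hws := wt_summable hA hd
  have hτ0 : ∀ t, 0 ≤ τ t := fun t => norm_nonneg _
  have hτB : ∀ t, τ t ≤ α + β * (p : ℝ) ^ (∑ j, D j / 2) := fun t =>
    (hτb t).trans (by have := mul_le_mul_of_nonneg_left (hwb t) hβ0; linarith)
  have hsum1 : Summable fun t => wt A (dv2 p o a) t * τ t :=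
    wsum (fun t => (wt_pos _ _ _).le) hws hτ0 hτB
  have hsumw : Summable fun t => wt A (dv2 p o a) t * w t :=
    wsum (fun t => (wt_pos _ _ _).le) hws hw0 hwb
  obtain ⟨-, hv⟩ := vdc_gs hA c hF hd
  rw [dv2_prod ho] at hv
  have hn1 : ‖∑' t, (wt A (dv2 p o a) t : ℂ) * GS ((√2) • A) (c - (2 : ℝ)⁻¹ • cz (sc (dv2 p o a) t))
      (DF (dv2 p o a) (fun z => ee η z * Fc o ψ z) t)‖ ≤ ∑' t, wt A (dv2 p o a) t * τ t := by
    refine tsum_of_norm_bounded hsum1.hasSum fun t => ?_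
    rw [norm_mul, Complex.norm_real, Real.norm_of_nonneg (wt_pos _ _ _).le,
      GS_DF_ee _ _ _ η (Fc o ψ)]
  -- the sums over the shifts
  have hg : ∀ e' : J → ℕ, (∀ j, e' j ≤ D j) →
      ∑' t : ι → ℤ, (if ∀ j, (p : ℤ) ^ e' j ∣ t (o j) then wt A (dv2 p o a) t else 0) ≤
        B * (1 + Mv A * ((p : ℝ) ^ Q)⁻¹ * ((p : ℝ) ^ ∑ j, e' j)⁻¹) := by
    intro e' he'
    unfold wt
    rw [sum_dvdv hp0 ho, dv2_mat]
    refine ((hBal' (a + e') (fun j => ?_)).one 0).trans ?_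
    · have h1 := he' j
      have h2 := haν j
      simp only [hD] at h1
      simp only [Pi.add_apply]
      omega
    · rw [Mv_mul, Mv_dv p ho]
      refine mul_le_mul_of_nonneg_left ?_ hB
      have e1 : (p : ℝ) ^ (∑ j, (a + e') j) = (p : ℝ) ^ Q * (p : ℝ) ^ (∑ j, e' j) := by
        rw [← pow_add, hQ, ← sum_add_distrib]
        rfl
      rw [e1, mul_inv, ← mul_assoc]
      have : Mv A' * ((p : ℝ) ^ Q)⁻¹ * ((p : ℝ) ^ ∑ j, e' j)⁻¹ ≤
          Mv A * ((p : ℝ) ^ Q)⁻¹ * ((p : ℝ) ^ ∑ j, e' j)⁻¹ := by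
        refine mul_le_mul_of_nonneg_right ?_ (by positivity)
        exact mul_le_mul_of_nonneg_right hM'le (by positivity)
      linarith
  have hwt : ∑' t, wt A (dv2 p o a) t ≤ B * (1 + Mv A * ((p : ℝ) ^ Q)⁻¹) := by
    have h := hg 0 (fun j => Nat.zero_le _)
    simpa using h
  have hww : ∑' t, wt A (dv2 p o a) t * w t ≤
      V * (B * ((p : ℝ) ^ (∑ j, D j / 2) + Mv A * ((p : ℝ) ^ Q)⁻¹)) := by
    set S := Fintype.piFinset fun j => range (D j + 1) with hS
    have h1 : ∀ t, wt A (dv2 p o a) t * w t ≤ ∑ e' ∈ S, (p : ℝ) ^ (∑ j, e' j / 2) *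
        (if ∀ j, (p : ℤ) ^ e' j ∣ t (o j) then wt A (dv2 p o a) t else 0) := by
      intro t
      have hmem : v t ∈ S := by
        rw [hS, Fintype.mem_piFinset]
        intro j
        rw [mem_range]
        have := hv1 t j
        simp only [hD]
        omega
      refine le_trans ?_ (single_le_sum (f := fun e' : J → ℕ => (p : ℝ) ^ (∑ j, e' j / 2) *
        (if ∀ j, (p : ℤ) ^ e' j ∣ t (o j) then wt A (dv2 p o a) t else 0)) (fun e' _ => ?_) hmem)
      · rw [if_pos (hv2 t), mul_comm]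
      · beta_reduce
        refine mul_nonneg (by positivity) ?_
        split_ifs
        · exact (wt_pos _ _ _).le
        · exact le_rfl
    have hsm : ∀ e' ∈ S, Summable fun t : ι → ℤ => (p : ℝ) ^ (∑ j, e' j / 2) *
        (if ∀ j, (p : ℤ) ^ e' j ∣ t (o j) then wt A (dv2 p o a) t else 0) := by
      intro e' _
      unfold wt
      exact (sum_dvdv_summable (wt_det hA hd) e').mul_left _
    calc ∑' t, wt A (dv2 p o a) t * w t ≤ ∑' t, ∑ e' ∈ S, (p : ℝ) ^ (∑ j, e' j / 2) *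
          (if ∀ j, (p : ℤ) ^ e' j ∣ t (o j) then wt A (dv2 p o a) t else 0) :=
          hsumw.tsum_le_tsum h1 (summable_sum hsm)
      _ = ∑ e' ∈ S, (p : ℝ) ^ (∑ j, e' j / 2) *
          ∑' t, (if ∀ j, (p : ℤ) ^ e' j ∣ t (o j) then wt A (dv2 p o a) t else 0) := by
          rw [Summable.tsum_finsetSum hsm]
          refine sum_congr rfl fun e' _ => ?_
          rw [tsum_mul_left]
      _ ≤ ∑ _e' ∈ S, B * ((p : ℝ) ^ (∑ j, D j / 2) + Mv A * ((p : ℝ) ^ Q)⁻¹) := by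
          refine sum_le_sum fun e' he' => ?_
          rw [hS, Fintype.mem_piFinset] at he'
          have he'' : ∀ j, e' j ≤ D j := fun j => by
            have := mem_range.1 (he' j)
            omega
          have i1 : (p : ℝ) ^ (∑ j, e' j / 2) ≤ (p : ℝ) ^ (∑ j, D j / 2) := by
            refine pow_le_pow_right₀ hp1 (sum_le_sum fun j _ => ?_)
            have := he'' j
            omega
          have i2 : (p : ℝ) ^ (∑ j, e' j / 2) * ((p : ℝ) ^ ∑ j, e' j)⁻¹ ≤ 1 := by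
            rw [mul_inv_le_iff₀ (by positivity), one_mul]
            refine pow_le_pow_right₀ hp1 (sum_le_sum fun j _ => ?_)
            omega
          calc (p : ℝ) ^ (∑ j, e' j / 2) *
              ∑' t, (if ∀ j, (p : ℤ) ^ e' j ∣ t (o j) then wt A (dv2 p o a) t else 0) ≤
              (p : ℝ) ^ (∑ j, e' j / 2) * (B * (1 + Mv A * ((p : ℝ) ^ Q)⁻¹ * ((p : ℝ) ^ ∑ j, e' j)⁻¹)) :=
                mul_le_mul_of_nonneg_left (hg e' he'') (by positivity)
            _ = B * ((p : ℝ) ^ (∑ j, e' j / 2) + Mv A * ((p : ℝ) ^ Q)⁻¹ *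
                ((p : ℝ) ^ (∑ j, e' j / 2) * ((p : ℝ) ^ ∑ j, e' j)⁻¹)) := by ring
            _ ≤ B * ((p : ℝ) ^ (∑ j, D j / 2) + Mv A * ((p : ℝ) ^ Q)⁻¹ * 1) := by
                refine mul_le_mul_of_nonneg_left (add_le_add i1 ?_) hB
                exact mul_le_mul_of_nonneg_left i2 (by positivity)
            _ = _ := by rw [mul_one]
      _ = (S.card : ℝ) * (B * ((p : ℝ) ^ (∑ j, D j / 2) + Mv A * ((p : ℝ) ^ Q)⁻¹)) := by
          rw [sum_const, nsmul_eq_mul]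
      _ ≤ _ := by
          refine mul_le_mul_of_nonneg_right ?_ (by positivity)
          rw [hS, Fintype.card_piFinset, hV]
          push_cast
          refine prod_le_prod (fun _ _ => by positivity) fun j _ => ?_
          rw [card_range]
          have : D j ≤ ν j := by simp only [hD]; omega
          have : (D j : ℝ) ≤ ν j := by exact_mod_cast this
          push_cast
          linarith
  have hpQ : (0 : ℝ) < (p : ℝ) ^ Q := by positivity
  have hMQ1 : 1 ≤ Mv A * ((p : ℝ) ^ Q)⁻¹ := by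
    rw [le_mul_inv_iff₀ hpQ, one_mul]; exact hMQ.le
  have htot : ∑' t, wt A (dv2 p o a) t * τ t ≤ α * (B * (2 * (Mv A * ((p : ℝ) ^ Q)⁻¹))) +
      β * (V * (B * ((p : ℝ) ^ (∑ j, D j / 2) + Mv A * ((p : ℝ) ^ Q)⁻¹))) := by
    calc ∑' t, wt A (dv2 p o a) t * τ t ≤
        ∑' t, (α * wt A (dv2 p o a) t + β * (wt A (dv2 p o a) t * w t)) := by
          refine hsum1.tsum_le_tsum (fun t => ?_) ((hws.mul_left α).add (hsumw.mul_left β))
          have := mul_le_mul_of_nonneg_left (hτb t) (wt_pos A (dv2 p o a) t).le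
          linarith
      _ = α * ∑' t, wt A (dv2 p o a) t + β * ∑' t, wt A (dv2 p o a) t * w t := by
          rw [Summable.tsum_add (hws.mul_left α) (hsumw.mul_left β), tsum_mul_left, tsum_mul_left]
      _ ≤ _ := by
          refine add_le_add (mul_le_mul_of_nonneg_left (hwt.trans ?_) hα0)
            (mul_le_mul_of_nonneg_left hww hβ0)
          exact mul_le_mul_of_nonneg_left (by linarith) hB
  -- final computations
  have hMsq : Mv A * Mv A ≤ Mv A * (p : ℝ) ^ (∑ j, (ν j + 1) / 2) := by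
    refine mul_le_mul_of_nonneg_left ?_ hMA.le
    refine le_of_pow_le_pow_left₀ (n := 2) (by norm_num) (by positivity) (hM.trans ?_)
    rw [← pow_mul, sum_mul]
    refine pow_le_pow_right₀ hp1 (sum_le_sum fun j _ => ?_)
    omega
  have j1 : (p : ℝ) ^ K1 ≤ (p : ℝ) ^ E := by
    refine pow_le_pow_right₀ hp1 (sum_le_sum fun j _ => ?_)
    simp only [hD, ha]
    omega
  have j2 : (p : ℝ) ^ Q * (p : ℝ) ^ r ≤ (p : ℝ) ^ E := by
    rw [← pow_add]; exact pow_le_pow_right₀ hp1 hQE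
  have j3 : (p : ℝ) ^ r * ((p : ℝ) ^ ∑ j, D j / 2)⁻¹ * (p : ℝ) ^ (∑ j, (ν j + 1) / 2) ≤
      (p : ℝ) ^ E := by
    have e1 : (p : ℝ) ^ r * ((p : ℝ) ^ ∑ j, D j / 2)⁻¹ * (p : ℝ) ^ (∑ j, (ν j + 1) / 2) =
      (p : ℝ) ^ (r + ∑ j, (ν j + 1) / 2) * ((p : ℝ) ^ ∑ j, D j / 2)⁻¹ := by rw [pow_add]; ring
    rw [e1, mul_inv_le_iff₀ (by positivity), ← pow_add]
    refine pow_le_pow_right₀ hp1 ?_
    rw [hr, ← card_univ, card_eq_sum_ones, ← sum_add_distrib, hE, ← sum_add_distrib]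
    refine sum_le_sum fun j _ => ?_
    simp only [hD, ha]
    omega
  calc ‖GS A c (fun z => ee η z * Fc o ψ z)‖ ^ 2 ≤ 2 ^ n * (p : ℝ) ^ Q *
        (α * (B * (2 * (Mv A * ((p : ℝ) ^ Q)⁻¹))) +
      β * (V * (B * ((p : ℝ) ^ (∑ j, D j / 2) + Mv A * ((p : ℝ) ^ Q)⁻¹)))) :=
        hv.trans (mul_le_mul_of_nonneg_left (hn1.trans htot) (by positivity))
    _ = 2 ^ (n + r) * B ^ 2 * (2 * ((p : ℝ) ^ K1 * Mv A) + V * ((p : ℝ) ^ Q * (p : ℝ) ^ r * Mv A) +
        V * ((p : ℝ) ^ r * ((p : ℝ) ^ ∑ j, D j / 2)⁻¹ * (Mv A * Mv A))) := by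
        rw [hα, hβ, pow_add]
        field_simp
        ring
    _ ≤ 2 ^ (n + r) * B ^ 2 * (2 * V * ((p : ℝ) ^ E * Mv A) + V * ((p : ℝ) ^ E * Mv A) +
        V * ((p : ℝ) ^ E * Mv A)) := by
        refine mul_le_mul_of_nonneg_left ?_ (by positivity)
        refine add_le_add (add_le_add ?_ ?_) ?_
        · have : (p : ℝ) ^ K1 * Mv A ≤ V * ((p : ℝ) ^ E * Mv A) := by
            calc (p : ℝ) ^ K1 * Mv A ≤ (p : ℝ) ^ E * Mv A := mul_le_mul_of_nonneg_right j1 hMA.le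
              _ ≤ V * ((p : ℝ) ^ E * Mv A) := le_mul_of_one_le_left (by positivity) hV1
          linarith
        · exact mul_le_mul_of_nonneg_left (mul_le_mul_of_nonneg_right j2 hMA.le) (by positivity)
        · refine mul_le_mul_of_nonneg_left ?_ (by positivity)
          calc (p : ℝ) ^ r * ((p : ℝ) ^ ∑ j, D j / 2)⁻¹ * (Mv A * Mv A) ≤
              (p : ℝ) ^ r * ((p : ℝ) ^ ∑ j, D j / 2)⁻¹ * (Mv A * (p : ℝ) ^ (∑ j, (ν j + 1) / 2)) :=
                mul_le_mul_of_nonneg_left hMsq (by positivity)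
            _ = ((p : ℝ) ^ r * ((p : ℝ) ^ ∑ j, D j / 2)⁻¹ * (p : ℝ) ^ (∑ j, (ν j + 1) / 2)) * Mv A := by
                ring
            _ ≤ _ := mul_le_mul_of_nonneg_right j3 hMA.le
    _ = 4 * 2 ^ (n + r) * B ^ 2 * V * (p : ℝ) ^ E * Mv A := by ring
    _ ≤ _ := by
        refine mul_le_mul ?_ (by linarith) hMA.le (by positivity)
        refine mul_le_mul_of_nonneg_right ?_ (by positivity)
        refine mul_le_mul_of_nonneg_right ?_ (by positivity)
        refine mul_le_mul_of_nonneg_right ?_ (by positivity)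
        refine mul_le_mul_of_nonneg_right ?_ (by positivity)
        norm_num

end Pool.Agent.T2H29.SW
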