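import Pool.Agent.T2H29.SW.V5

/-!
# Fourier transforms of families of test functions
-/

set_option autoImplicit false
set_option linter.unusedSectionVars false

namespace Pool.Agent.T2H29.SW

open Finset MeasureTheory Module
open scoped ContDiff RealInnerProductSpace FourierTransform

variable {E : Type} [NormedAddCommGroup E] [InnerProductSpace ℝ E] [FiniteDimensional ℝ E]
  [MeasurableSpace E] [BorelSpace E]

/-- the Fourier transform -/
noncomputable def FT (F : E → ℂ) (ξ : E) : ℂ := ∫ x, F x * e (-⟪x, ξ⟫)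

lemma FT_norm_le (F : E → ℂ) (ξ : E) : ‖FT F ξ‖ ≤ ∫ x, ‖F x‖ := by
  unfold FT
  refine (norm_integral_le_integral_norm _).trans (le_of_eq ?_)
  refine integral_congr_ae (Filter.Eventually.of_forall fun x => ?_)
  simp only [norm_mul, e_norm, mul_one]

lemma FT_eq (F : E → ℂ) : FT F = 𝓕 F := by
  funext ξ
  rw [Real.fourier_eq']
  unfold FT
  refine integral_congr_ae (Filter.Eventually.of_forall fun x => ?_)
  simp only [smul_eq_mul]
  rw [mul_comm]
  congr 1
  unfold e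
  congr 1
  push_cast
  ring

lemma e_hasF (ξ x : E) : HasFDerivAt (fun x : E => e (-⟪x, ξ⟫))
    ((-(2 * Real.pi * Complex.I) * e (-⟪x, ξ⟫)) • (Complex.ofRealCLM.comp ((innerSL ℝ ξ : E →L[ℝ] ℝ)))) x := by
  have h1 : HasFDerivAt (fun x : E => ⟪ξ, x⟫) (innerSL ℝ ξ : E →L[ℝ] ℝ) x :=
    (innerSL ℝ ξ).hasFDerivAt
  have h2 : HasFDerivAt (fun x : E => ((⟪ξ, x⟫ : ℝ) : ℂ))
      (Complex.ofRealCLM.comp (innerSL ℝ ξ : E →L[ℝ] ℝ)) x :=
    Complex.ofRealCLM.hasFDerivAt.comp x h1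
  have h3 := (h2.const_mul (-(2 * Real.pi * Complex.I))).cexp
  have e1 : (fun x : E => e (-⟪x, ξ⟫)) = fun x => Complex.exp (-(2 * Real.pi * Complex.I) *
      ((⟪ξ, x⟫ : ℝ) : ℂ)) := by
    funext y
    unfold e
    rw [real_inner_comm]
    congr 1
    push_cast
    ring
  have e2 : e (-⟪x, ξ⟫) = Complex.exp (-(2 * Real.pi * Complex.I) * ((⟪ξ, x⟫ : ℝ) : ℂ)) := congrFun e1 x
  rw [e1, e2]
  have e3 : (-(2 * Real.pi * Complex.I) * Complex.exp (-(2 * Real.pi * Complex.I) * ((⟪ξ, x⟫ : ℝ) : ℂ))) •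
      (Complex.ofRealCLM.comp ((innerSL ℝ ξ : E →L[ℝ] ℝ))) =
      Complex.exp (-(2 * Real.pi * Complex.I) * ((⟪ξ, x⟫ : ℝ) : ℂ)) •
      (-(2 * Real.pi * Complex.I)) • (Complex.ofRealCLM.comp (innerSL ℝ ξ : E →L[ℝ] ℝ)) := by
    rw [smul_smul, mul_comm]
  rw [e3]
  exact h3

lemma fderiv_e (ξ x v : E) : fderiv ℝ (fun x : E => e (-⟪x, ξ⟫)) x v =
    -(2 * Real.pi * Complex.I * ⟪v, ξ⟫) * e (-⟪x, ξ⟫) := by
  rw [(e_hasF ξ x).fderiv]
  simp only [ContinuousLinearMap.smul_apply, ContinuousLinearMap.comp_apply, innerSL_apply_apply,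
    Complex.ofRealCLM_apply, smul_eq_mul]
  rw [real_inner_comm v ξ]
  ring

/-- the Fourier transform of a derivative -/
lemma FT_fderiv {F D : E → ℂ} (hF : Differentiable ℝ F) (hc : HasCompactSupport F) {v : E}
    (hD : ∀ x, fderiv ℝ F x v = D x) (hDc : Continuous D) (ξ : E) :
    FT D ξ = 2 * Real.pi * Complex.I * ⟪v, ξ⟫ * FT F ξ := by
  have hDs : HasCompactSupport D := by
    have h1 := hc.fderiv_apply (𝕜 := ℝ) v
    have h2 : (fun x => fderiv ℝ F x v) = D := funext hD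
    rwa [h2] at h1
  have hec : Continuous fun x : E => e (-⟪x, ξ⟫) := e_continuous.comp (by fun_prop)
  have hed : ∀ x, DifferentiableAt ℝ (fun x : E => e (-⟪x, ξ⟫)) x := fun x =>
    (e_hasF ξ x).differentiableAt
  have hi1 : Integrable fun x => fderiv ℝ (fun x : E => e (-⟪x, ξ⟫)) x v * F x := by
    simp_rw [fderiv_e]
    refine Continuous.integrable_of_hasCompactSupport ?_ ?_
    · exact (continuous_const.mul hec).mul hF.continuous
    · exact hc.mul_left
  have hi2 : Integrable fun x => (fun x : E => e (-⟪x, ξ⟫)) x * fderiv ℝ F x v := by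
    simp_rw [hD]
    exact Continuous.integrable_of_hasCompactSupport (hec.mul hDc) hDs.mul_left
  have hi3 : Integrable fun x => (fun x : E => e (-⟪x, ξ⟫)) x * F x :=
    Continuous.integrable_of_hasCompactSupport (hec.mul hF.continuous) hc.mul_left
  have h := integral_mul_fderiv_eq_neg_fderiv_mul_of_integrable hi1 hi2 hi3 (fun x _ => hed x)
    (fun x _ => hF x)
  simp_rw [hD, fderiv_e] at h
  unfold FT
  calc ∫ x, D x * e (-⟪x, ξ⟫) = ∫ x, e (-⟪x, ξ⟫) * D x := by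
        refine integral_congr_ae (Filter.Eventually.of_forall fun x => ?_)
        exact mul_comm _ _
    _ = -∫ x, -(2 * Real.pi * Complex.I * ⟪v, ξ⟫) * e (-⟪x, ξ⟫) * F x := h
    _ = ∫ x, 2 * Real.pi * Complex.I * ⟪v, ξ⟫ * (F x * e (-⟪x, ξ⟫)) := by
        rw [← integral_neg]
        refine integral_congr_ae (Filter.Eventually.of_forall fun x => ?_)
        simp only
        ring
    _ = _ := by rw [integral_const_mul]

/-- smooth functions with compact support in `U` -/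
structure CI (U : Set E) (G : E → ℂ) : Prop where
  sm : ContDiff ℝ ∞ G
  cs : HasCompactSupport G
  ts : tsupport G ⊆ U

lemma CI.mul_smooth {U : Set E} (hU : IsOpen U) {b G : E → ℂ} (hb : ContDiffOn ℝ ∞ b U)
    (hG : CI U G) : CI U (fun x => b x * G x) := by
  refine ⟨?_, hG.cs.mul_left, (tsupport_mul_subset_right).trans hG.ts⟩
  rw [contDiff_iff_contDiffAt]
  intro x
  by_cases hx : x ∈ tsupport G
  · exact (hb.contDiffAt (hU.mem_nhds (hG.ts hx))).mul hG.sm.contDiffAt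
  · have h1 : (fun x => b x * G x) =ᶠ[nhds x] fun _ => 0 := by
      have h2 := notMem_tsupport_iff_eventuallyEq.1 hx
      filter_upwards [h2] with y hy
      rw [hy]
      simp
    exact contDiffAt_const.congr_of_eventuallyEq h1

lemma CI.fderiv' {U : Set E} {G : E → ℂ} (hG : CI U G) (v : E) :
    CI U (fun x => fderiv ℝ G x v) := by
  refine ⟨?_, hG.cs.fderiv_apply (𝕜 := ℝ) v, ?_⟩
  · exact (hG.sm.fderiv_right (m := ∞) (by norm_cast)).clm_apply contDiff_const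
  · exact (tsupport_fderiv_apply_subset ℝ v).trans hG.ts

/-- families of functions -/
structure Fam {Θ Λ : Type} [Fintype Λ] (u : Θ → E → ℂ) (T : Θ → ℝ) (U : Set E) (c : Θ → Λ → ℂ)
    (b : Λ → E → E → ℂ) : Prop where
  op : IsOpen U
  T1 : ∀ θ, 1 ≤ T θ
  nrm : ∀ θ x, ‖u θ x‖ ≤ 1
  der : ∀ θ, ∀ x ∈ U, ∃ u' : E →L[ℝ] ℂ, HasFDerivAt (u θ) u' x ∧
    ∀ v, u' v = u θ x * ∑ l, c θ l * b l v x
  smooth : ∀ l v, ContDiffOn ℝ ∞ (b l v) U
  bd : ∀ θ l, ‖c θ l‖ ≤ T θ

section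
variable {Θ Λ : Type} [Fintype Λ] {u : Θ → E → ℂ} {T : Θ → ℝ} {U : Set E} {c : Θ → Λ → ℂ}
    {b : Λ → E → E → ℂ}

lemma Fam.hasF (h : Fam u T U c b) {G : E → ℂ} (hG : CI U G) (θ : Θ) (x : E) :
    ∃ F' : E →L[ℝ] ℂ, HasFDerivAt (fun x => u θ x * G x) F' x ∧
      ∀ v, F' v = u θ x * fderiv ℝ G x v + ∑ l, c θ l * (u θ x * (b l v x * G x)) := by
  by_cases hx : x ∈ tsupport G
  · obtain ⟨u', h1, h2⟩ := h.der θ x (hG.ts hx)
    have h3 : HasFDerivAt G (fderiv ℝ G x) x :=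
      (hG.sm.differentiable (by norm_num)).differentiableAt.hasFDerivAt
    refine ⟨_, h1.mul h3, fun v => ?_⟩
    simp only [ContinuousLinearMap.add_apply, ContinuousLinearMap.smul_apply, smul_eq_mul]
    rw [h2, mul_sum, mul_sum]
    congr 1
    refine sum_congr rfl fun l _ => ?_
    ring
  · have h2 := notMem_tsupport_iff_eventuallyEq.1 hx
    have h1 : (fun x => u θ x * G x) =ᶠ[nhds x] fun _ => 0 := by
      filter_upwards [h2] with y hy
      rw [hy]
      simp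
    refine ⟨0, (hasFDerivAt_const (0 : ℂ) x).congr_of_eventuallyEq h1, fun v => ?_⟩
    have h3 : G x = 0 := image_eq_zero_of_notMem_tsupport hx
    have h4 : fderiv ℝ G x = 0 := by
      rw [Filter.EventuallyEq.fderiv_eq h2]
      simp
    rw [h3, h4]
    simp

lemma Fam.cont (h : Fam u T U c b) {G : E → ℂ} (hG : CI U G) (θ : Θ) :
    Continuous fun x => u θ x * G x := by
  rw [continuous_iff_continuousAt]
  intro x
  obtain ⟨F', h1, _⟩ := h.hasF hG θ x
  exact h1.continuousAt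

lemma Fam.integ (h : Fam u T U c b) {G : E → ℂ} (hG : CI U G) (θ : Θ) :
    Integrable fun x => u θ x * G x :=
  (h.cont hG θ).integrable_of_hasCompactSupport hG.cs.mul_left

lemma Fam.fderiv' (h : Fam u T U c b) {G : E → ℂ} (hG : CI U G) (θ : Θ) (v x : E) :
    fderiv ℝ (fun x => u θ x * G x) x v =
      u θ x * fderiv ℝ G x v + ∑ l, c θ l * (u θ x * (b l v x * G x)) := by
  obtain ⟨F', h1, h2⟩ := h.hasF hG θ x
  rw [h1.fderiv, h2]

lemma Fam.FT_step (h : Fam u T U c b) {G : E → ℂ} (hG : CI U G) (θ : Θ) (v ξ : E) :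
    2 * Real.pi * Complex.I * ⟪v, ξ⟫ * FT (fun x => u θ x * G x) ξ =
      FT (fun x => u θ x * fderiv ℝ G x v) ξ +
        ∑ l, c θ l * FT (fun x => u θ x * (b l v x * G x)) ξ := by
  have hd : Differentiable ℝ fun x => u θ x * G x := by
    intro x
    obtain ⟨F', h1, _⟩ := h.hasF hG θ x
    exact h1.differentiableAt
  have hi0 := h.integ (hG.fderiv' v) θ
  have hil : ∀ l, Integrable fun x => u θ x * (b l v x * G x) := fun l =>
    h.integ (hG.mul_smooth h.op (h.smooth l v)) θ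
  have hcl : ∀ l, Continuous fun x => u θ x * (b l v x * G x) := fun l =>
    h.cont (hG.mul_smooth h.op (h.smooth l v)) θ
  rw [← FT_fderiv hd hG.cs.mul_left (v := v) (h.fderiv' hG θ v) ?_ ξ]
  · have he : ∀ x : E, ‖e (-⟪x, ξ⟫)‖ = 1 := fun x => e_norm _
    have hm : ∀ {F : E → ℂ}, Integrable F → Integrable fun x => F x * e (-⟪x, ξ⟫) := by
      intro F hF
      refine hF.mul_bdd (c := 1) ?_ (Filter.Eventually.of_forall fun x => (he x).le)
      exact (e_continuous.comp (by fun_prop)).aestronglyMeasurable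
    unfold FT
    have e1 : ∀ x, (u θ x * fderiv ℝ G x v + ∑ l, c θ l * (u θ x * (b l v x * G x))) * e (-⟪x, ξ⟫) =
        u θ x * fderiv ℝ G x v * e (-⟪x, ξ⟫) +
        ∑ l, c θ l * (u θ x * (b l v x * G x) * e (-⟪x, ξ⟫)) := by
      intro x
      rw [add_mul, sum_mul]
      congr 1
      refine sum_congr rfl fun l _ => ?_
      ring
    simp_rw [e1]
    rw [integral_add (hm hi0) (integrable_finsetSum _ fun l _ => (hm (hil l)).const_mul _),
      integral_finsetSum _ fun l _ => (hm (hil l)).const_mul _]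
    congr 1
    refine sum_congr rfl fun l _ => ?_
    rw [integral_const_mul]
  · refine (h.cont (hG.fderiv' v) θ).add ?_
    exact continuous_finsetSum _ fun l _ => continuous_const.mul (hcl l)

/-- decay in one direction -/
theorem Fam.decay (h : Fam u T U c b) (v : E) (N : ℕ) : ∀ G : E → ℂ, CI U G → ∃ C : ℝ, 0 ≤ C ∧
    ∀ θ ξ, |⟪v, ξ⟫| ^ N * ‖FT (fun x => u θ x * G x) ξ‖ ≤ C * T θ ^ N := by
  induction N with
  | zero =>
    intro G hG
    refine ⟨∫ x, ‖G x‖, integral_nonneg fun x => norm_nonneg _, fun θ ξ => ?_⟩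
    rw [pow_zero, pow_zero, one_mul, mul_one]
    refine (FT_norm_le _ ξ).trans ?_
    refine integral_mono (h.integ hG θ).norm
      (hG.sm.continuous.integrable_of_hasCompactSupport hG.cs).norm fun x => ?_
    simp only [norm_mul]
    exact mul_le_of_le_one_left (norm_nonneg _) (h.nrm θ x)
  | succ N ih =>
    intro G hG
    obtain ⟨C0, hC00, hC0⟩ := ih _ (hG.fderiv' v)
    have hl := fun l => ih _ (hG.mul_smooth h.op (h.smooth l v))
    choose C1 hC10 hC1 using hl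
    have hS : 0 ≤ ∑ l, C1 l := sum_nonneg fun l _ => hC10 l
    refine ⟨C0 + ∑ l, C1 l, by positivity, fun θ ξ => ?_⟩
    have hT := h.T1 θ
    have hTN : 0 ≤ T θ ^ N := by positivity
    have h2π : (1 : ℝ) ≤ 2 * Real.pi := by linarith [Real.pi_gt_three]
    have h1 := h.FT_step hG θ v ξ
    have h2 : 2 * Real.pi * |⟪v, ξ⟫| * ‖FT (fun x => u θ x * G x) ξ‖ ≤
        ‖FT (fun x => u θ x * fderiv ℝ G x v) ξ‖ +
        ∑ l, T θ * ‖FT (fun x => u θ x * (b l v x * G x)) ξ‖ := by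
      have e1 : ‖(2 * Real.pi * Complex.I * ⟪v, ξ⟫ * FT (fun x => u θ x * G x) ξ : ℂ)‖ =
          2 * Real.pi * |⟪v, ξ⟫| * ‖FT (fun x => u θ x * G x) ξ‖ := by
        rw [norm_mul, norm_mul, norm_mul, norm_mul, Complex.norm_I, Complex.norm_real,
          Complex.norm_real, Real.norm_of_nonneg Real.pi_pos.le, Real.norm_eq_abs]
        norm_num
      rw [← e1, h1]
      refine (norm_add_le _ _).trans ?_
      gcongr
      refine (norm_sum_le _ _).trans (sum_le_sum fun l _ => ?_)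
      rw [norm_mul]
      exact mul_le_mul_of_nonneg_right (h.bd θ l) (norm_nonneg _)
    have h3 : |⟪v, ξ⟫| * ‖FT (fun x => u θ x * G x) ξ‖ ≤
        2 * Real.pi * |⟪v, ξ⟫| * ‖FT (fun x => u θ x * G x) ξ‖ := by
      rw [mul_assoc (2 * Real.pi)]
      exact le_mul_of_one_le_left (by positivity) h2π
    calc |⟪v, ξ⟫| ^ (N + 1) * ‖FT (fun x => u θ x * G x) ξ‖ = |⟪v, ξ⟫| ^ N *
          (|⟪v, ξ⟫| * ‖FT (fun x => u θ x * G x) ξ‖) := by ring
      _ ≤ |⟪v, ξ⟫| ^ N * (‖FT (fun x => u θ x * fderiv ℝ G x v) ξ‖ +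
        ∑ l, T θ * ‖FT (fun x => u θ x * (b l v x * G x)) ξ‖) :=
          mul_le_mul_of_nonneg_left (h3.trans h2) (by positivity)
      _ = |⟪v, ξ⟫| ^ N * ‖FT (fun x => u θ x * fderiv ℝ G x v) ξ‖ +
        ∑ l, T θ * (|⟪v, ξ⟫| ^ N * ‖FT (fun x => u θ x * (b l v x * G x)) ξ‖) := by
          rw [mul_add, mul_sum]
          congr 1
          refine sum_congr rfl fun l _ => ?_
          ring
      _ ≤ C0 * T θ ^ N + ∑ l, T θ * (C1 l * T θ ^ N) := by
          refine add_le_add (hC0 θ ξ) (sum_le_sum fun l _ => ?_)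
          exact mul_le_mul_of_nonneg_left (hC1 l θ ξ) (by linarith)
      _ = C0 * T θ ^ N + (∑ l, C1 l) * T θ ^ (N + 1) := by
          rw [sum_mul]
          congr 1
          refine sum_congr rfl fun l _ => ?_
          ring
      _ ≤ C0 * T θ ^ (N + 1) + (∑ l, C1 l) * T θ ^ (N + 1) := by
          refine add_le_add (mul_le_mul_of_nonneg_left ?_ hC00) le_rfl
          exact pow_le_pow_right₀ hT (by omega)
      _ = _ := by ring

/-- decay in all directions -/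
theorem Fam.decay_all (h : Fam u T U c b) (M : ℕ) {G : E → ℂ} (hG : CI U G) : ∃ C : ℝ, 0 ≤ C ∧
    ∀ θ ξ, (1 + ‖ξ‖) ^ M * ‖FT (fun x => u θ x * G x) ξ‖ ≤ C * T θ ^ M := by
  set ob := stdOrthonormalBasis ℝ E with hob
  set n := finrank ℝ E with hn
  have hd := fun i : Fin n => h.decay (ob i) (M + 1) G hG
  choose C1 hC10 hC1 using hd
  have hd' := fun i : Fin n => h.decay (ob i) M G hG
  choose C2 hC20 hC2 using hd'
  obtain ⟨C3, hC30, hC3⟩ := h.decay 0 0 G hG
  have hS : 0 ≤ ∑ l, C2 l := sum_nonneg fun l _ => hC20 l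
  refine ⟨((n : ℝ) + 1) ^ M * (C3 + ∑ l, C2 l), by positivity, fun θ ξ => ?_⟩
  have hT := h.T1 θ
  set Y := ‖FT (fun x => u θ x * G x) ξ‖ with hY
  have hY0 : 0 ≤ Y := norm_nonneg _
  have h3 := hC3 θ ξ
  rw [pow_zero, pow_zero, one_mul, mul_one] at h3
  have h3' : Y ≤ C3 * T θ ^ M := h3.trans (le_mul_of_one_le_right hC30 (one_le_pow₀ hT))
  have h1 : ‖ξ‖ ≤ ∑ i, |⟪ob i, ξ⟫| := by
    conv_lhs => rw [← ob.sum_repr' ξ]
    refine (norm_sum_le _ _).trans (sum_le_sum fun i _ => ?_)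
    rw [norm_smul, ob.orthonormal.1 i, mul_one, Real.norm_eq_abs]
  -- the largest term
  have h2 : (1 + ‖ξ‖) ^ M ≤ ((n : ℝ) + 1) ^ M * (1 + ∑ i, |⟪ob i, ξ⟫| ^ M) := by
    set a : Option (Fin n) → ℝ := fun o => o.elim 1 fun i => |⟪ob i, ξ⟫| with ha
    have ha0 : ∀ o, 0 ≤ a o := by
      intro o
      cases o with
      | none => simp [ha]
      | some i => simp [ha]
    obtain ⟨o, -, ho⟩ := exists_max_image (univ : Finset (Option (Fin n))) a ⟨none, mem_univ _⟩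
    have h4 : 1 + ‖ξ‖ ≤ ((n : ℝ) + 1) * a o := by
      calc 1 + ‖ξ‖ ≤ 1 + ∑ i, |⟪ob i, ξ⟫| := by linarith
        _ = ∑ o, a o := by rw [Fintype.sum_option]; rfl
        _ ≤ ∑ _o : Option (Fin n), a o := sum_le_sum fun o' _ => ho o' (mem_univ _)
        _ = ((n : ℝ) + 1) * a o := by
            rw [sum_const, card_univ, Fintype.card_option, Fintype.card_fin, nsmul_eq_mul]
            push_cast
            ring
    have h5 : a o ^ M ≤ 1 + ∑ i, |⟪ob i, ξ⟫| ^ M := by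
      have h6 : 1 + ∑ i, |⟪ob i, ξ⟫| ^ M = ∑ o, a o ^ M := by
        rw [Fintype.sum_option]
        simp [ha]
      rw [h6]
      exact single_le_sum (f := fun o => a o ^ M) (fun o _ => pow_nonneg (ha0 o) M) (mem_univ o)
    calc (1 + ‖ξ‖) ^ M ≤ (((n : ℝ) + 1) * a o) ^ M := pow_le_pow_left₀ (by positivity) h4 M
      _ = ((n : ℝ) + 1) ^ M * a o ^ M := mul_pow _ _ _
      _ ≤ _ := mul_le_mul_of_nonneg_left h5 (by positivity)
  calc (1 + ‖ξ‖) ^ M * Y ≤ (((n : ℝ) + 1) ^ M * (1 + ∑ i, |⟪ob i, ξ⟫| ^ M)) * Y :=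
        mul_le_mul_of_nonneg_right h2 hY0
    _ = ((n : ℝ) + 1) ^ M * (Y + ∑ i, |⟪ob i, ξ⟫| ^ M * Y) := by
        rw [← sum_mul]; ring
    _ ≤ ((n : ℝ) + 1) ^ M * (C3 * T θ ^ M + ∑ i, C2 i * T θ ^ M) := by
        refine mul_le_mul_of_nonneg_left ?_ (by positivity)
        exact add_le_add h3' (sum_le_sum fun i _ => hC2 i θ ξ)
    _ = _ := by rw [← sum_mul]; ring

/-- the main properties -/
theorem Fam.main (h : Fam u T U c b) (N : ℕ) {G : E → ℂ} (hG : CI U G) : ∃ C : ℝ, 0 ≤ C ∧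
    ∀ θ, Continuous (FT (fun x => u θ x * G x)) ∧
      Integrable (fun ξ => ‖FT (fun x => u θ x * G x) ξ‖ * (1 + ‖ξ‖) ^ N) ∧
      ∫ ξ, ‖FT (fun x => u θ x * G x) ξ‖ * (1 + ‖ξ‖) ^ N ≤ C * T θ ^ (N + finrank ℝ E + 1) := by
  set n := finrank ℝ E with hn
  obtain ⟨C, hC0, hC⟩ := h.decay_all (N + n + 1) hG
  have hi : Integrable fun x : E => (1 + ‖x‖) ^ (-((n : ℝ) + 1)) :=
    integrable_one_add_norm (by rw [← hn]; linarith)
  refine ⟨C * ∫ x : E, (1 + ‖x‖) ^ (-((n : ℝ) + 1)), ?_, fun θ => ?_⟩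
  · exact mul_nonneg hC0 (integral_nonneg fun x => by positivity)
  · have hcont : Continuous (FT (fun x => u θ x * G x)) := by
      rw [FT_eq]
      exact VectorFourier.fourierIntegral_continuous Real.continuous_fourierChar
        (by exact continuous_inner) (h.integ hG θ)
    have hpt : ∀ ξ : E, ‖FT (fun x => u θ x * G x) ξ‖ * (1 + ‖ξ‖) ^ N ≤
        C * T θ ^ (N + n + 1) * (1 + ‖ξ‖) ^ (-((n : ℝ) + 1)) := by
      intro ξ
      have h1 : 0 < 1 + ‖ξ‖ := by positivity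
      have h2 := hC θ ξ
      have e1 : (1 + ‖ξ‖) ^ (-((n : ℝ) + 1)) = ((1 + ‖ξ‖) ^ (n + 1))⁻¹ := by
        rw [Real.rpow_neg h1.le]
        congr 1
        rw [← Real.rpow_natCast]
        congr 1
        push_cast
        ring
      rw [e1, le_mul_inv_iff₀ (by positivity)]
      calc ‖FT (fun x => u θ x * G x) ξ‖ * (1 + ‖ξ‖) ^ N * (1 + ‖ξ‖) ^ (n + 1) =
          (1 + ‖ξ‖) ^ (N + n + 1) * ‖FT (fun x => u θ x * G x) ξ‖ := by
            rw [pow_add, pow_add, pow_add]; ring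
        _ ≤ _ := h2
    have hi2 := hi.const_mul (C * T θ ^ (N + n + 1))
    have hi3 : Integrable fun ξ => ‖FT (fun x => u θ x * G x) ξ‖ * (1 + ‖ξ‖) ^ N := by
      refine hi2.mono' ?_ (Filter.Eventually.of_forall fun ξ => ?_)
      · exact (hcont.norm.mul ((continuous_const.add continuous_norm).pow N)).aestronglyMeasurable
      · rw [Real.norm_of_nonneg (by positivity)]
        exact hpt ξ
    refine ⟨hcont, hi3, ?_⟩
    calc ∫ ξ, ‖FT (fun x => u θ x * G x) ξ‖ * (1 + ‖ξ‖) ^ N ≤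
        ∫ ξ : E, C * T θ ^ (N + n + 1) * (1 + ‖ξ‖) ^ (-((n : ℝ) + 1)) := integral_mono hi3 hi2 hpt
      _ = _ := by rw [integral_const_mul]; ring

/-- inversion -/
theorem Fam.inv (h : Fam u T U c b) {G : E → ℂ} (hG : CI U G) (θ : Θ) (x : E) :
    u θ x * G x = ∫ ξ, FT (fun x => u θ x * G x) ξ * e ⟪ξ, x⟫ := by
  obtain ⟨C, -, hC⟩ := h.main 0 hG
  obtain ⟨h1, h2, -⟩ := hC θ
  have h3 : Integrable (𝓕 (fun x => u θ x * G x)) := by
    rw [← FT_eq]
    have : Integrable fun ξ => ‖FT (fun x => u θ x * G x) ξ‖ := by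
      refine h2.congr (Filter.Eventually.of_forall fun ξ => ?_)
      simp
    exact (integrable_norm_iff h1.aestronglyMeasurable).1 this
  have h4 := (h.cont hG θ).fourierInv_fourier_eq (h.integ hG θ) h3
  have h5 := congrFun h4 x
  rw [Real.fourierInv_eq', ← FT_eq] at h5
  rw [← h5]
  refine integral_congr_ae (Filter.Eventually.of_forall fun ξ => ?_)
  simp only [smul_eq_mul]
  rw [mul_comm]
  congr 1
  unfold e
  congr 1
  push_cast
  ring

end

end Pool.Agent.T2H29.SW
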