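import Pool.Agent.T2H29.SW.X9

/-!
# The finite part on a lattice
-/

set_option autoImplicit false
set_option linter.unusedSectionVars false

namespace Pool.Agent.T2H29.SW

open Finset NumberField NumberField.InfinitePlace Module MeasureTheory NumberField.Units

section
variable {ι : Type} [Fintype ι] [DecidableEq ι]

lemma sum_e (N : ℕ) (hN : 1 ≤ N) (m : ℤ) : ∑ b ∈ Ico (0 : ℤ) N, e ((b : ℝ) * m / N) =
    if (N : ℤ) ∣ m then (N : ℂ) else 0 := by
  haveI : NeZero N := ⟨by omega⟩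
  have h1 := fth_zmod (N := N) (fun _ => (1 : ℂ)) m
  unfold fth ft at h1
  simp only [one_mul] at h1
  rw [h1, ps_sum]
  congr 1
  rw [eq_iff_iff]
  exact ZMod.intCast_zmod_eq_zero_iff_dvd m N

/-- expansion of a periodic function in additive characters -/
theorem fin_exp {N : ℕ} (hN : 1 ≤ N) {G : (ι → ℤ) → ℂ} (hG : ∀ z t : ι → ℤ, G (z + (N : ℤ) • t) = G z)
    (hG1 : ∀ z, ‖G z‖ ≤ 1) : ∃ c : (ι → ℤ) → ℂ, (∀ β, ‖c β‖ ≤ 1) ∧
    ∀ z, G z = ∑ β ∈ CC (fun _ : ι => N), c β * ee (fun i => (β i : ℝ) / N) z := by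
  set n := Fintype.card ι with hn
  have hN0 : (0 : ℝ) < N := by exact_mod_cast hN
  have hNc : (N : ℂ) ≠ 0 := by exact_mod_cast hN0.ne'
  refine ⟨fun β => ((N : ℂ) ^ n)⁻¹ * ∑ r ∈ CC (fun _ : ι => N), G r *
    e (-∑ i, (β i : ℝ) * r i / N), fun β => ?_, fun z => ?_⟩
  · rw [norm_mul, norm_inv, norm_pow, Complex.norm_natCast, inv_mul_le_iff₀ (by positivity), mul_one,
      ← CC_card']
    refine (norm_sum_le _ _).trans ((sum_le_card_nsmul _ _ 1 fun r _ => ?_).trans (by simp))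
    rw [norm_mul, e_norm, mul_one]
    exact hG1 r
  · have h1 : ∀ r : ι → ℤ, ∑ β ∈ CC (fun _ : ι => N), e (-∑ i, (β i : ℝ) * r i / N) *
        ee (fun i => (β i : ℝ) / N) z = ∏ i, (if (N : ℤ) ∣ z i - r i then (N : ℂ) else 0) := by
      intro r
      have e1 : ∀ β : ι → ℤ, e (-∑ i, (β i : ℝ) * r i / N) * ee (fun i => (β i : ℝ) / N) z =
          ∏ i, e ((β i : ℝ) * ((z i - r i : ℤ) : ℝ) / N) := by
        intro β
        unfold ee
        rw [← e_add, ← e_sum]
        congr 1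
        rw [← sum_neg_distrib, ← sum_add_distrib]
        refine sum_congr rfl fun i _ => ?_
        push_cast
        ring
      rw [sum_congr rfl fun β _ => e1 β]
      unfold CC
      rw [← Finset.prod_univ_sum (fun _ : ι => Ico (0 : ℤ) N)
        (fun i b => e ((b : ℝ) * ((z i - r i : ℤ) : ℝ) / N))]
      exact prod_congr rfl fun i _ => sum_e N hN _
    have h2 : ∑ β ∈ CC (fun _ : ι => N), (((N : ℂ) ^ n)⁻¹ * ∑ r ∈ CC (fun _ : ι => N), G r *
        e (-∑ i, (β i : ℝ) * r i / N)) * ee (fun i => (β i : ℝ) / N) z =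
        ((N : ℂ) ^ n)⁻¹ * ∑ r ∈ CC (fun _ : ι => N), G r *
          ∏ i, (if (N : ℤ) ∣ z i - r i then (N : ℂ) else 0) := by
      simp_rw [← h1, mul_sum, sum_mul]
      rw [sum_comm]
      refine sum_congr rfl fun r _ => sum_congr rfl fun β _ => ?_
      ring
    rw [h2, sum_eq_single (cl (fun _ : ι => N) z)]
    · have h3 : ∀ i, (N : ℤ) ∣ z i - cl (fun _ : ι => N) z i := by
        intro i
        unfold cl
        exact Int.dvd_self_sub_emod
      rw [prod_congr rfl fun i _ => if_pos (h3 i), prod_const, card_univ, ← hn]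
      have h4 : G (cl (fun _ : ι => N) z) = G z := by
        choose t ht using h3
        have : z = cl (fun _ : ι => N) z + (N : ℤ) • t := by
          funext i
          rw [Pi.add_apply, Pi.smul_apply, smul_eq_mul, ← ht i]
          ring
        conv_rhs => rw [this]
        rw [hG]
      rw [h4]
      have : (N : ℂ) ^ n ≠ 0 := pow_ne_zero _ hNc
      field_simp
    · intro r hr hne
      have h3 : ∃ i, ¬ (N : ℤ) ∣ z i - r i := by
        by_contra hcon
        push Not at hcon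
        apply hne
        unfold CC at hr
        rw [Fintype.mem_piFinset] at hr
        funext i
        have h4 := mem_Ico.1 (hr i)
        have h5 : z i % N = r i % N := (Int.emod_emod_of_dvd _ (dvd_refl _)).symm.trans
          (by rw [Int.emod_emod_of_dvd _ (dvd_refl _)]; exact Int.emod_eq_emod_iff_emod_sub_eq_zero.2
                (Int.emod_eq_zero_of_dvd (hcon i)))
        unfold cl
        rw [h5, Int.emod_eq_of_lt h4.1 h4.2]
      obtain ⟨i, hi⟩ := h3
      rw [prod_eq_zero (mem_univ i) (if_neg hi), mul_zero]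
    · intro h0
      exact absurd (cl_mem (fun _ => hN) z) h0

end

variable {K : Type} [Field K] [NumberField K] {J : Type} [Fintype J] [DecidableEq J]

/-- the data of an ideal class -/
structure SetG (p : ℕ) (ν : J → ℕ) (B : ℝ) (Nf : ℕ) (I : Ideal (𝓞 K))
    (b : Basis (Fin (dg K)) ℤ I) (o : J → Fin (dg K)) (ψ : ∀ j, DirichletCharacter ℂ (p ^ ν j))
    (F : (Fin (dg K) → ℤ) → ℂ) : Prop where
  tame : Tame p o ν Nf ψ F
  ne : I ≠ ⊥
  bal : ∀ x : LS K, BalV p o ν B (AX b x)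
  zero : F 0 = 0

variable {f : Ideal (𝓞 K)} {P : J → Ideal (𝓞 K)} {p : ℕ} {ν : J → ℕ}
  {θ : Par (InfinitePlace K)} {χ : Ideal (𝓞 K) →* ℂ} {ρ : ∀ j, 𝓞 K →+* ZMod (p ^ ν j)}

lemma el_add {I : Ideal (𝓞 K)} (b : Basis (Fin (dg K)) ℤ I) (z t : Fin (dg K) → ℤ) (N : ℤ) :
    el b (z + N • t) = el b z + N • el b t := by
  rw [el_eq, el_eq, el_eq, map_add, map_smul]
  push_cast
  rfl

theorem exists_SetG [Nonempty J] (h : PD P p ν) (hf : ¬ p ∣ Ideal.absNorm f)
    (hρ : ∀ j, Red (P j) p (ν j) (ρ j)) {ψ : ∀ j, DirichletCharacter ℂ (p ^ ν j)} {F : 𝓞 K → ℂ}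
    (hψ : ∀ j, (ψ j).IsPrimitive) (hF1 : ∀ α, ‖F α‖ ≤ 1) (hF2 : ∀ α β, α - β ∈ f → F α = F β)
    (hdec : ∀ α : 𝓞 K, χ (Ideal.span {α}) = F α * (∏ j, ψ j (ρ j α)) * infK θ (α : K)) {B : ℝ}
    {I : Ideal (𝓞 K)} {b : Basis (Fin (dg K)) ℤ I} {o : J → Fin (dg K)}
    {u : ∀ j, ZMod (p ^ ν j)} (hI : I ≠ ⊥) (ho : Function.Injective o) (hu : ∀ j, IsUnit (u j))
    (hz : ∀ j z, ρ j (el b z) = (z (o j) : ZMod (p ^ ν j)) * u j)
    (hbal : ∀ x : LS K, BalV p o ν B (AX b x)) :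
    ∃ G : (Fin (dg K) → ℤ) → ℂ, SetG p ν B (Ideal.absNorm f) I b o ψ G ∧
      ∀ z, χ (Ideal.span {el b z}) = (∏ j, ψ j (u j)) * G z * infK θ (el b z : K) := by
  have hp := h.pp
  have hN : 1 ≤ Ideal.absNorm f := by
    rcases Nat.eq_zero_or_pos (Ideal.absNorm f) with h0 | h0
    · exact absurd (h0 ▸ dvd_zero p) hf
    · exact h0
  obtain ⟨c, hc1, hc2⟩ := fin_exp hN (G := fun z : Fin (dg K) → ℤ => F (el b z)) (fun z t => by
    refine hF2 _ _ ?_
    rw [el_add, add_sub_cancel_left, zsmul_eq_mul]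
    refine Ideal.mul_mem_right _ _ ?_
    have := Ideal.absNorm_mem f
    exact_mod_cast this) (fun z => hF1 _)
  refine ⟨fun z => F (el b z) * Fc o ψ z, ⟨⟨hp, h.nu, ho, ‹_›, hψ, hf, c, hc1, fun z => ?_⟩, hI,
    hbal, ?_⟩, fun z => ?_⟩
  · beta_reduce
    have := hc2 z
    beta_reduce at this
    rw [this, sum_mul]
    refine sum_congr rfl fun β _ => ?_
    ring
  · obtain ⟨j⟩ := ‹Nonempty J›
    have h1 : Fc o ψ 0 = 0 := by
      unfold Fc Fp
      refine prod_eq_zero (mem_univ j) ?_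
      haveI : Fact (1 < p ^ ν j) := ⟨Nat.one_lt_pow (by have := h.nu j; omega) hp.one_lt⟩
      simp only [Pi.zero_apply, Int.cast_zero]
      exact MulChar.map_zero _
    beta_reduce
    rw [h1, mul_zero]
  · beta_reduce
    rw [hdec]
    have : ∏ j, ψ j (ρ j (el b z)) = (∏ j, ψ j (u j)) * Fc o ψ z := by
      unfold Fc Fp
      rw [← prod_mul_distrib]
      refine prod_congr rfl fun j _ => ?_
      rw [hz, map_mul, mul_comm]
    rw [this]
    ring

end Pool.Agent.T2H29.SW
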