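import Pool.Agent.T2H29.SW.X10

/-!
# The theta function with a test function
-/

set_option autoImplicit false
set_option linter.unusedSectionVars false

namespace Pool.Agent.T2H29.SW

open Finset NumberField NumberField.InfinitePlace Module MeasureTheory NumberField.Units

variable {K : Type} [Field K] [NumberField K] {J : Type} [Fintype J] [DecidableEq J]
  {p : ℕ} {ν : J → ℕ} {B : ℝ} {Nf : ℕ} {I : Ideal (𝓞 K)} {b : Basis (Fin (dg K)) ℤ I}
  {o : J → Fin (dg K)} {ψ : ∀ j, DirichletCharacter ℂ (p ^ ν j)} {F : (Fin (dg K) → ℤ) → ℂ}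
  {θ : Par (InfinitePlace K)} {χ : Ideal (𝓞 K) →* ℂ}

/-- the theta function -/
noncomputable def ThW (b : Basis (Fin (dg K)) ℤ I) (θ : Par (InfinitePlace K))
    (F : (Fin (dg K) → ℤ) → ℂ) (x : LS K) : ℂ := TW (lamK K) θ (AX b x) F

/-- the term of an element -/
noncomputable def TN (s : ℂ) (θ : Par (InfinitePlace K)) (t0 : ℝ) (χ : Ideal (𝓞 K) →* ℂ)
    (α : 𝓞 K) (x : LS K) : ℂ :=
  χ (Ideal.span {α}) * ((infK θ (α : K))⁻¹ * (Wa (shp θ t0) (α : K) x * WW s θ.2 x))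

lemma TN_el {κ : ℂ} (hF0 : F 0 = 0)
    (hrel : ∀ z, χ (Ideal.span {el b z}) = κ * F z * infK θ (el b z : K)) (s : ℂ) (t0 : ℝ)
    (z : Fin (dg K) → ℤ) (x : LS K) : TN s θ t0 χ (el b z) x =
      κ * (Wt (lamK K) (shp θ t0) (vc (AX b x) z) * F z) * WW s θ.2 x := by
  unfold TN
  rw [hrel, Wt_el]
  by_cases hz : z = 0
  · rw [hz, hF0]
    ring
  · have h1 : (el b z : K) ≠ 0 := by exact_mod_cast el_ne b hz
    have h2 := infK_ne θ h1
    field_simp

/-- the smallest value of `M` -/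
noncomputable def m0 (K : Type) [Field K] [NumberField K] : ℝ := (cK K * (3 / 2) ^ (dg K))⁻¹

lemma m0_pos : 0 < m0 K := by
  unfold m0
  have := cK_pos K
  positivity

lemma Wt_small (hI : I ≠ ⊥) {x : LS K} {z : Fin (dg K) → ℤ} (hz : z ≠ 0)
    (hW : Wt (lamK K) θ (vc (AX b x) z) ≠ 0) : m0 K ≤ mm I x.2 := by
  have hα := el_ne b hz
  have hI0 := absNorm_pos' hI
  have hcK := cK_pos K
  have hw : ∀ w : InfinitePlace K, Real.exp (UU K x w) * w (el b z : K) ^ 2 ≤ 3 / 2 := by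
    intro w
    have h1 := (Wt_supp hW w).2
    rw [lamK_vc, norm_mul, Complex.norm_real, Real.norm_of_nonneg (Real.exp_pos _).le,
      norm_embedding_eq, mul_pow, ← Real.exp_nat_mul] at h1
    have e1 : ((2 : ℕ) : ℝ) * (UU K x w / 2) = UU K x w := by push_cast; ring
    rw [e1] at h1
    exact h1.le
  have h2 : Real.exp (dg K * x.2) * (Ideal.absNorm (Ideal.span {el b z}) : ℝ) ^ 2 ≤
      (3 / 2) ^ (dg K) := by
    have e1 : Real.exp (dg K * x.2) * (Ideal.absNorm (Ideal.span {el b z}) : ℝ) ^ 2 =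
        ∏ w : InfinitePlace K, (Real.exp (UU K x w) * w (el b z : K) ^ 2) ^ mult w := by
      rw [← prod_exp_UU, norm_prod', ← prod_pow, ← prod_mul_distrib]
      refine prod_congr rfl fun w _ => ?_
      ring
    have e2 : ((3 : ℝ) / 2) ^ (dg K) = ∏ w : InfinitePlace K, ((3 : ℝ) / 2) ^ mult w := by
      rw [prod_pow_eq_pow_sum, sum_mult_eq]
    rw [e1, e2]
    refine prod_le_prod (fun w _ => by positivity) fun w _ => ?_
    exact pow_le_pow_left₀ (by positivity) (hw w) _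
  have h3 : (Ideal.absNorm I : ℝ) ≤ Ideal.absNorm (Ideal.span {el b z}) := by
    have h4 : Ideal.absNorm I ∣ Ideal.absNorm (Ideal.span {el b z}) :=
      Ideal.absNorm_dvd_absNorm_of_le ((Ideal.span_singleton_le_iff_mem _).2 (el_mem b z))
    have h5 : 0 < Ideal.absNorm (Ideal.span {el b z}) := by
      refine Nat.pos_of_ne_zero fun h5 => hα ?_
      rw [Ideal.absNorm_eq_zero_iff, Ideal.span_singleton_eq_bot] at h5
      exact h5
    exact_mod_cast Nat.le_of_dvd h5 h4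
  have h4 : Real.exp (dg K * x.2) * (Ideal.absNorm I : ℝ) ^ 2 ≤ (3 / 2) ^ (dg K) :=
    (mul_le_mul_of_nonneg_left (pow_le_pow_left₀ hI0.le h3 2) (Real.exp_pos _).le).trans h2
  refine le_of_pow_le_pow_left₀ two_ne_zero (mm_pos hI x.2).le ?_
  unfold m0 mm
  have h32 : (1 : ℝ) ≤ (3 / 2) ^ (dg K) := one_le_pow₀ (by norm_num)
  rw [div_pow (Real.exp _), inv_pow, mul_pow (cK K) ((3 / 2 : ℝ) ^ (dg K)), mul_pow (cK K),
    ← Real.exp_nat_mul, inv_eq_one_div, div_le_div_iff₀ (by positivity) (by positivity), one_mul]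
  have e3 : ((2 : ℕ) : ℝ) * (-(dg K * x.2 / 2)) = -(dg K * x.2) := by push_cast; ring
  rw [e3, Real.exp_neg, ← div_eq_inv_mul, le_div_iff₀ (Real.exp_pos _)]
  calc cK K ^ 2 * (Ideal.absNorm I : ℝ) ^ 2 * Real.exp (dg K * x.2) =
      cK K ^ 2 * (Real.exp (dg K * x.2) * (Ideal.absNorm I : ℝ) ^ 2) := by ring
    _ ≤ cK K ^ 2 * ((3 / 2) ^ (dg K) * 1) := by
        rw [mul_one]
        exact mul_le_mul_of_nonneg_left h4 (by positivity)
    _ ≤ cK K ^ 2 * ((3 / 2) ^ (dg K) * (3 / 2) ^ (dg K)) := by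
        refine mul_le_mul_of_nonneg_left ?_ (by positivity)
        exact mul_le_mul_of_nonneg_left h32 (by positivity)
    _ = _ := by ring

lemma ThW_zero (hI : I ≠ ⊥) (hF0 : F 0 = 0) {x : LS K} (hx : mm I x.2 < m0 K) :
    ThW b θ F x = 0 := by
  unfold ThW TW
  have : ∀ z, Wt (lamK K) θ (vc (AX b x) z) * F z = 0 := by
    intro z
    by_cases hz : z = 0
    · rw [hz, hF0, mul_zero]
    · by_cases hW : Wt (lamK K) θ (vc (AX b x) z) = 0
      · rw [hW, zero_mul]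
      · exact absurd (Wt_small hI hz hW) (not_le.2 hx)
  simp_rw [this]
  exact tsum_zero

lemma Wt_gs (x : LS K) (z : Fin (dg K) → ℤ) : ‖Wt (lamK K) θ (vc (AX b x) z)‖ ≤
    Real.exp (Real.pi * (3 / 2 * dg K)) * gs (AX b x) 0 z := by
  by_cases hW : Wt (lamK K) θ (vc (AX b x) z) = 0
  · rw [hW, norm_zero]
    exact mul_nonneg (Real.exp_pos _).le (gs_pos _ _ _).le
  · refine (Wt_norm _ _).trans ?_
    unfold gs
    rw [sub_zero, ← vc_norm, ← Real.exp_add, Real.one_le_exp_iff, lamK_norm]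
    have h1 : ∑ w : InfinitePlace K, (mult w : ℝ) * ‖lamK K w (vc (AX b x) z)‖ ^ 2 ≤ 3 / 2 * dg K := by
      rw [← sum_mult_real, mul_sum]
      refine sum_le_sum fun w _ => ?_
      have h2 := (Wt_supp hW w).2.le
      have : (0 : ℝ) ≤ mult w := by positivity
      nlinarith
    have := mul_le_mul_of_nonneg_left h1 Real.pi_pos.le
    linarith

/-- the trivial bound -/
lemma Wt_sum (hI : I ≠ ⊥) (hbal : ∀ x : LS K, CB B (AX b x)) : ∀ (x : LS K)
    (s : Finset (Fin (dg K) → ℤ)), 0 ∉ s → ∑ z ∈ s, ‖Wt (lamK K) θ (vc (AX b x) z)‖ ≤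
      (if m0 K ≤ mm I x.2 then
        Real.exp (Real.pi * (3 / 2 * dg K)) * B * ((m0 K)⁻¹ + 1) * mm I x.2 else 0) := by
  intro x s hs
  have hB := (hbal x).nonneg
  split_ifs with h
  · have hA := det_AX_ne hI b x
    have h1 := (hbal x).one 0
    rw [Mv_AX] at h1
    have hm0 := m0_pos (K := K)
    have hmm := mm_pos hI x.2
    have h2 : 1 ≤ (m0 K)⁻¹ * mm I x.2 := by
      rw [le_inv_mul_iff₀ hm0, mul_one]; exact h
    calc ∑ z ∈ s, ‖Wt (lamK K) θ (vc (AX b x) z)‖ ≤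
        ∑ z ∈ s, Real.exp (Real.pi * (3 / 2 * dg K)) * gs (AX b x) 0 z :=
          sum_le_sum fun z _ => Wt_gs x z
      _ = Real.exp (Real.pi * (3 / 2 * dg K)) * ∑ z ∈ s, gs (AX b x) 0 z := by rw [mul_sum]
      _ ≤ Real.exp (Real.pi * (3 / 2 * dg K)) * (B * (1 + mm I x.2)) := by
          refine mul_le_mul_of_nonneg_left ?_ (Real.exp_pos _).le
          exact ((gs_summable hA 0).sum_le_tsum s (fun z _ => (gs_pos _ _ _).le)).trans h1
      _ ≤ Real.exp (Real.pi * (3 / 2 * dg K)) * (B * ((m0 K)⁻¹ * mm I x.2 + mm I x.2)) := by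
          refine mul_le_mul_of_nonneg_left ?_ (Real.exp_pos _).le
          exact mul_le_mul_of_nonneg_left (by linarith) hB
      _ = _ := by ring
  · refine le_of_eq (sum_eq_zero fun z hz => ?_)
    rw [norm_eq_zero]
    by_contra hW
    exact h (Wt_small hI (fun h0 => hs (h0 ▸ hz)) hW)

lemma ThW_triv (hI : I ≠ ⊥) (hbal : ∀ x : LS K, CB B (AX b x)) (hF0 : F 0 = 0) {bF : ℝ}
    (hF : ∀ z, ‖F z‖ ≤ bF) (x : LS K) : (Summable fun z => Wt (lamK K) θ (vc (AX b x) z) * F z) ∧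
    ‖ThW b θ F x‖ ≤ bF * (Real.exp (Real.pi * (3 / 2 * dg K)) * B * ((m0 K)⁻¹ + 1) * mm I x.2) := by
  have hbF : 0 ≤ bF := (norm_nonneg _).trans (hF 0)
  have hB := (hbal x).nonneg
  have hmm := mm_pos hI x.2
  have hm0 := m0_pos (K := K)
  have hC : 0 ≤ Real.exp (Real.pi * (3 / 2 * dg K)) * B * ((m0 K)⁻¹ + 1) * mm I x.2 := by positivity
  have h1 : ∀ s : Finset (Fin (dg K) → ℤ), ∑ z ∈ s, ‖Wt (lamK K) θ (vc (AX b x) z) * F z‖ ≤
      bF * (Real.exp (Real.pi * (3 / 2 * dg K)) * B * ((m0 K)⁻¹ + 1) * mm I x.2) := by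
    intro s
    have h2 : ∑ z ∈ s, ‖Wt (lamK K) θ (vc (AX b x) z) * F z‖ =
        ∑ z ∈ s.erase 0, ‖Wt (lamK K) θ (vc (AX b x) z) * F z‖ := by
      by_cases h0 : 0 ∈ s
      · rw [← Finset.add_sum_erase s _ h0, hF0, mul_zero, norm_zero, zero_add]
      · rw [Finset.erase_eq_of_notMem h0]
    rw [h2]
    calc ∑ z ∈ s.erase 0, ‖Wt (lamK K) θ (vc (AX b x) z) * F z‖ ≤
        ∑ z ∈ s.erase 0, bF * ‖Wt (lamK K) θ (vc (AX b x) z)‖ := by
          refine sum_le_sum fun z _ => ?_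
          rw [norm_mul, mul_comm]
          exact mul_le_mul_of_nonneg_right (hF z) (norm_nonneg _)
      _ = bF * ∑ z ∈ s.erase 0, ‖Wt (lamK K) θ (vc (AX b x) z)‖ := by rw [mul_sum]
      _ ≤ _ := by
          refine mul_le_mul_of_nonneg_left ((Wt_sum hI hbal x _ (by simp)).trans ?_) hbF
          split_ifs
          · exact le_rfl
          · exact hC
  have h3 : Summable fun z => ‖Wt (lamK K) θ (vc (AX b x) z) * F z‖ :=
    summable_of_sum_le (fun z => norm_nonneg _) h1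
  refine ⟨h3.of_norm, ?_⟩
  unfold ThW TW
  exact (norm_tsum_le_tsum_norm h3).trans (Real.tsum_le_of_sum_le (fun z => norm_nonneg _) h1)

/-- the sum of the terms -/
lemma TN_sum (hI : I ≠ ⊥) (hbal : ∀ x : LS K, CB B (AX b x)) (hF0 : F 0 = 0) {bF : ℝ}
    (hF : ∀ z, ‖F z‖ ≤ bF) {κ : ℂ}
    (hrel : ∀ z, χ (Ideal.span {el b z}) = κ * F z * infK θ (el b z : K)) (s : ℂ) (t0 : ℝ)
    (x : LS K) : HasSum (fun z => TN s θ t0 χ (el b z) x)
      (κ * ThW b (shp θ t0) F x * WW s θ.2 x) := by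
  have h1 := (ThW_triv (θ := shp θ t0) hI hbal hF0 hF x).1.hasSum
  have h2 := (h1.mul_left κ).mul_right (WW s θ.2 x)
  refine h2.congr_fun ?_ |> id
  intro z
  exact TN_el hF0 hrel s t0 z x

lemma Wt_cont (θ : Par (InfinitePlace K)) : Continuous (Wt (lamK K) θ) := by
  have h : Wt (lamK K) θ = fun v => ((Real.exp (-(Real.pi * ‖v‖ ^ 2)) : ℝ) : ℂ) *
      (up (lamK K) θ v * G0 (lamK K) v) := by
    funext v
    rw [Wt_eq (lamK_LF K), (up_Fam (lamK K)).inv (G0_CI (lamK_LF K)) θ v]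
    rfl
  rw [h]
  refine Continuous.mul ?_ ((up_Fam (lamK K)).cont (G0_CI (lamK_LF K)) θ)
  exact Complex.continuous_ofReal.comp (Real.continuous_exp.comp (by fun_prop))

lemma vc_cont (b : Basis (Fin (dg K)) ℤ I) (z : Fin (dg K) → ℤ) :
    Continuous fun x : LS K => vc (AX b x) z := by
  unfold vc
  refine (PiLp.continuous_toLp 2 _).comp ?_
  refine continuous_pi fun i => ?_
  unfold Matrix.mulVec dotProduct
  exact continuous_finsetSum _ fun j _ => (AX_cont b i j).mul continuous_const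

lemma ThW_meas (hI : I ≠ ⊥) (hbal : ∀ x : LS K, CB B (AX b x)) (hF0 : F 0 = 0) {bF : ℝ}
    (hF : ∀ z, ‖F z‖ ≤ bF) : Measurable (ThW b θ F) := by
  have h1 : ∀ s : Finset (Fin (dg K) → ℤ), Measurable fun x : LS K =>
      ∑ z ∈ s, Wt (lamK K) θ (vc (AX b x) z) * F z := by
    intro s
    refine Finset.measurable_sum _ fun z _ => ?_
    exact (((Wt_cont θ).comp (vc_cont b z)).measurable).mul_const _
  refine measurable_of_tendsto_metrizable' Filter.atTop h1 ?_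
  rw [tendsto_pi_nhds]
  intro x
  exact (ThW_triv hI hbal hF0 hF x).1.hasSum

/-- rapid decay, abstract form -/
lemma decay_abs (hI : I ≠ ⊥) {T : LS K → ℂ} (h1 : ∀ N : ℕ, ∃ C : ℝ, 0 ≤ C ∧ ∀ x : LS K,
    ‖T x‖ ≤ C * mm I x.2 ^ N) (h2 : ∀ N : ℕ, ∃ C : ℝ, 0 ≤ C ∧ ∀ x : LS K,
    ‖T x‖ * mm I x.2 ^ N ≤ C) (R : ℝ) : ∃ C : ℝ, 0 ≤ C ∧ ∀ x : LS K,
    ‖T x‖ ≤ C * Real.exp (-(R * |x.2|)) := by
  have hn : (1 : ℝ) ≤ dg K := by exact_mod_cast NeZero.pos (dg K)
  set N : ℕ := ⌈2 * |R|⌉₊ with hN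
  have hNR : R ≤ dg K * N / 2 := by
    have h1 : 2 * |R| ≤ N := Nat.le_ceil _
    have h2 := le_abs_self R
    have h3 : (0 : ℝ) ≤ N := by positivity
    nlinarith
  obtain ⟨C1, hC10, hC1⟩ := h1 N
  obtain ⟨C2, hC20, hC2⟩ := h2 N
  set κ := cK K * Ideal.absNorm I with hκ
  have hκ0 : 0 < κ := by
    have := cK_pos K
    have := absNorm_pos' hI
    positivity
  refine ⟨C1 / κ ^ N + C2 * κ ^ N, by positivity, fun x => ?_⟩
  have hm : mm I x.2 ^ N = Real.exp (-(dg K * N / 2 * x.2)) / κ ^ N := by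
    unfold mm
    rw [div_pow, ← Real.exp_nat_mul]
    congr 2
    ring
  rcases le_total 0 x.2 with h3 | h3
  · have h4 := hC1 x
    rw [hm] at h4
    have h5 : Real.exp (-(dg K * N / 2 * x.2)) ≤ Real.exp (-(R * |x.2|)) := by
      rw [Real.exp_le_exp, abs_of_nonneg h3]
      nlinarith
    calc ‖T x‖ ≤ C1 * (Real.exp (-(dg K * N / 2 * x.2)) / κ ^ N) := h4
      _ = C1 / κ ^ N * Real.exp (-(dg K * N / 2 * x.2)) := by ring
      _ ≤ (C1 / κ ^ N + C2 * κ ^ N) * Real.exp (-(R * |x.2|)) := by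
          refine mul_le_mul ?_ h5 (Real.exp_pos _).le (by positivity)
          have : 0 ≤ C2 * κ ^ N := by positivity
          linarith
  · have h4 := hC2 x
    rw [hm, ← mul_div_assoc, div_le_iff₀ (by positivity)] at h4
    have h5 : ‖T x‖ ≤ C2 * κ ^ N * Real.exp (dg K * N / 2 * x.2) := by
      rw [Real.exp_neg, ← div_eq_mul_inv, div_le_iff₀ (Real.exp_pos _)] at h4
      exact h4
    have h6 : Real.exp (dg K * N / 2 * x.2) ≤ Real.exp (-(R * |x.2|)) := by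
      rw [Real.exp_le_exp, abs_of_nonpos h3]
      nlinarith
    refine h5.trans ?_
    refine mul_le_mul ?_ h6 (Real.exp_pos _).le (by positivity)
    have : 0 ≤ C1 / κ ^ N := by positivity
    linarith

lemma ThW_bd2 (h : SetG p ν B Nf I b o ψ F) (θ : Par (InfinitePlace K)) (N : ℕ) :
    ∃ C : ℝ, 0 ≤ C ∧ ∀ x : LS K, ‖ThW b θ F x‖ * mm I x.2 ^ N ≤ C := by
  haveI : Nonempty (Fin (dg K)) := ⟨0⟩
  obtain ⟨C1, hC10, hC1⟩ := TW_tail (J := J) (lamK_LF K) B (N + 1)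
  have hCB : ∀ x : LS K, CB B (AX b x) := fun x => (h.bal x).zero
  have hB : 0 ≤ B := (hCB 0).nonneg
  have hp0 : (0 : ℝ) < p := by exact_mod_cast h.tame.pp.pos
  set Q : ℝ := (p : ℝ) ^ (∑ j, ν j) with hQ
  have hQ0 : 0 < Q := by positivity
  have hQ1 : 1 ≤ Q := one_le_pow₀ (by exact_mod_cast h.tame.pp.one_lt.le)
  set bF := (Nf : ℝ) ^ Fintype.card (Fin (dg K)) with hbF
  set C2 := bF * (Real.exp (Real.pi * (3 / 2 * dg K)) * B * ((m0 K)⁻¹ + 1)) with hC2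
  have hm0 := m0_pos (K := K)
  have hC20 : 0 ≤ C2 := by positivity
  set C3 := C1 * Tp θ ^ (2 * (Fintype.card (Fin (dg K)) * (N + 1)) + Fintype.card (Fin (dg K)) + 1) *
      (Nf : ℝ) ^ (Fintype.card (Fin (dg K)) + 2 * (Fintype.card (Fin (dg K)) * (N + 1))) with hC3
  have hT1 := Tp_one θ
  have hC30 : 0 ≤ C3 := by positivity
  refine ⟨C2 * Q * Q ^ N + C3 * Q ^ (N + 1), by positivity, fun x => ?_⟩
  have hmm := mm_pos h.ne x.2
  rcases le_total (mm I x.2) Q with h1 | h1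
  · have h2 := (ThW_triv (θ := θ) h.ne hCB h.zero h.tame.bdd x).2
    have h3 : ‖ThW b θ F x‖ ≤ C2 * Q := by
      refine h2.trans ?_
      calc _ = C2 * mm I x.2 := by rw [hC2]; ring
        _ ≤ _ := mul_le_mul_of_nonneg_left h1 hC20
    have h4 : ‖ThW b θ F x‖ * mm I x.2 ^ N ≤ C2 * Q * Q ^ N :=
      mul_le_mul h3 (pow_le_pow_left₀ hmm.le h1 N) (by positivity) (by positivity)
    have : 0 ≤ C3 * Q ^ (N + 1) := by positivity
    linarith
  · have h2 := hC1 θ p o ν Nf ψ F (AX b x) h.tame (det_AX_ne h.ne b x) (h.bal x)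
      (by rw [Mv_AX]; exact h1)
    rw [Mv_AX, ← hQ, ← hC3] at h2
    have hsQ : 1 ≤ √Q := by rw [Real.one_le_sqrt]; exact hQ1
    have h3 : mm I x.2 / √Q * (Q / mm I x.2) ^ (2 * (N + 1)) * mm I x.2 ^ N ≤ Q ^ (N + 1) := by
      have e1 : mm I x.2 * (Q / mm I x.2) ^ (2 * (N + 1)) * mm I x.2 ^ N =
          Q ^ (N + 1) * (Q / mm I x.2) ^ (N + 1) := by
        rw [div_pow, div_pow]
        have e2 : mm I x.2 ^ (2 * (N + 1)) = mm I x.2 ^ (N + 1) * (mm I x.2 * mm I x.2 ^ N) := by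
          ring
        have e3 : Q ^ (2 * (N + 1)) = Q ^ (N + 1) * Q ^ (N + 1) := by ring
        rw [e2, e3]
        field_simp
      calc mm I x.2 / √Q * (Q / mm I x.2) ^ (2 * (N + 1)) * mm I x.2 ^ N ≤
          mm I x.2 * (Q / mm I x.2) ^ (2 * (N + 1)) * mm I x.2 ^ N := by
            refine mul_le_mul_of_nonneg_right ?_ (by positivity)
            exact mul_le_mul_of_nonneg_right (div_le_self hmm.le hsQ) (by positivity)
        _ = Q ^ (N + 1) * (Q / mm I x.2) ^ (N + 1) := e1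
        _ ≤ Q ^ (N + 1) * 1 := by
            refine mul_le_mul_of_nonneg_left ?_ (by positivity)
            exact pow_le_one₀ (by positivity) ((div_le_one hmm).2 h1)
        _ = _ := mul_one _
    have h4 : ‖ThW b θ F x‖ * mm I x.2 ^ N ≤ C3 * Q ^ (N + 1) := by
      calc ‖ThW b θ F x‖ * mm I x.2 ^ N ≤
          C3 * (mm I x.2 / √Q * (Q / mm I x.2) ^ (2 * (N + 1))) * mm I x.2 ^ N :=
            mul_le_mul_of_nonneg_right h2 (by positivity)
        _ = C3 * (mm I x.2 / √Q * (Q / mm I x.2) ^ (2 * (N + 1)) * mm I x.2 ^ N) := by ring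
        _ ≤ _ := mul_le_mul_of_nonneg_left h3 hC30
    have : 0 ≤ C2 * Q * Q ^ N := by positivity
    linarith

/-- rapid decay -/
theorem ThW_decay (h : SetG p ν B Nf I b o ψ F) (θ : Par (InfinitePlace K)) (R : ℝ) :
    ∃ C : ℝ, 0 ≤ C ∧ ∀ x : LS K, ‖ThW b θ F x‖ ≤ C * Real.exp (-(R * |x.2|)) := by
  refine decay_abs h.ne (fun N => ?_) (ThW_bd2 h θ) R
  obtain ⟨C, hC0, hC⟩ := ThW_bd2 h θ 0
  have hm0 := m0_pos (K := K)
  refine ⟨C / m0 K ^ N, by positivity, fun x => ?_⟩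
  have hmm := mm_pos h.ne x.2
  have h1 := hC x
  rw [pow_zero, mul_one] at h1
  rcases lt_or_ge (mm I x.2) (m0 K) with h2 | h2
  · rw [ThW_zero h.ne h.zero h2, norm_zero]
    positivity
  · rw [div_mul_eq_mul_div, le_div_iff₀ (by positivity)]
    calc ‖ThW b θ F x‖ * m0 K ^ N ≤ C * mm I x.2 ^ N :=
          mul_le_mul h1 (pow_le_pow_left₀ hm0.le h2 N) (by positivity) hC0
      _ = _ := rfl

end Pool.Agent.T2H29.SW
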