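import Pool.Agent.T2H29.SW.X11

/-!
# The completed L-function of a class, general form
-/

set_option autoImplicit false
set_option linter.unusedSectionVars false

namespace Pool.Agent.T2H29.SW

open Finset NumberField NumberField.InfinitePlace Module MeasureTheory NumberField.Units

variable {K : Type} [Field K] [NumberField K]

/-- the completed L-function -/
noncomputable def LamT (τ : InfinitePlace K → ℝ) (T : LS K → ℂ) (s : ℂ) : ℂ :=
  ∫ x in box K, T x * WW s τ x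

/-- rapidly decaying theta functions -/
structure TD (T : LS K → ℂ) : Prop where
  meas : Measurable T
  dec : ∀ R : ℝ, ∃ C : ℝ, 0 ≤ C ∧ ∀ x : LS K, ‖T x‖ ≤ C * Real.exp (-(R * |x.2|))

lemma TD.bd {T : LS K → ℂ} (h : TD T) (r : ℝ) : ∃ C : ℝ, 0 ≤ C ∧ ∀ (x : LS K) (s : ℂ), |s.re| ≤ r →
    ‖T x‖ * ((1 + |dg K * x.2 / 2|) * Real.exp (s.re * (dg K * x.2 / 2))) ≤
      C * Real.exp (-(1 * |x.2|)) := by
  set n : ℝ := ((dg K : ℕ) : ℝ) with hn
  have hn0 : 0 ≤ n := by positivity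
  obtain ⟨C, hC0, hC⟩ := h.dec ((r + 1) * (n / 2) + 1)
  refine ⟨C, hC0, fun x s hs => ?_⟩
  have h1 : 1 + |n * x.2 / 2| ≤ Real.exp (n / 2 * |x.2|) := by
    have := Real.add_one_le_exp (n / 2 * |x.2|)
    have e1 : |n * x.2 / 2| = n / 2 * |x.2| := by
      rw [abs_div, abs_mul, abs_of_nonneg hn0, abs_two]; ring
    rw [e1]; linarith
  have h2 : Real.exp (s.re * (n * x.2 / 2)) ≤ Real.exp (r * (n / 2 * |x.2|)) := by
    rw [Real.exp_le_exp]
    have h3 : s.re * (n * x.2 / 2) ≤ |s.re| * |n * x.2 / 2| := by rw [← abs_mul]; exact le_abs_self _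
    have e1 : |n * x.2 / 2| = n / 2 * |x.2| := by
      rw [abs_div, abs_mul, abs_of_nonneg hn0, abs_two]; ring
    rw [e1] at h3
    refine h3.trans (mul_le_mul_of_nonneg_right hs (by positivity))
  calc ‖T x‖ * ((1 + |n * x.2 / 2|) * Real.exp (s.re * (n * x.2 / 2))) ≤
      (C * Real.exp (-(((r + 1) * (n / 2) + 1) * |x.2|))) *
      (Real.exp (n / 2 * |x.2|) * Real.exp (r * (n / 2 * |x.2|))) := by
        refine mul_le_mul (hC x) (mul_le_mul h1 h2 (Real.exp_pos _).le (Real.exp_pos _).le)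
          (by positivity) (by positivity)
    _ = C * Real.exp (-(1 * |x.2|)) := by
        rw [mul_assoc, ← Real.exp_add, ← Real.exp_add]
        congr 2
        ring

lemma TD.WW_meas {T : LS K → ℂ} (h : TD T) (s : ℂ) (τ : InfinitePlace K → ℝ) (μ : Measure (LS K)) :
    AEStronglyMeasurable (fun x => T x * WW s τ x) μ :=
  (h.meas.mul (WW_cont s τ).measurable).aestronglyMeasurable

lemma TD.int {T : LS K → ℂ} (h : TD T) (s : ℂ) (τ : InfinitePlace K → ℝ) :
    IntegrableOn (fun x => T x * WW s τ x) (box K) := by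
  obtain ⟨C, hC0, hC⟩ := h.bd |s.re|
  have h1 := (box_int K (ea_int one_pos)).1.const_mul C
  refine Integrable.mono' h1 (h.WW_meas s τ _) (Filter.Eventually.of_forall fun x => ?_)
  rw [norm_mul, WW_norm]
  refine le_trans ?_ (hC x s le_rfl)
  refine mul_le_mul_of_nonneg_left ?_ (norm_nonneg _)
  refine le_mul_of_one_le_left (Real.exp_pos _).le ?_
  linarith [abs_nonneg ((dg K : ℝ) * x.2 / 2)]

/-- it is entire -/
theorem TD.diff {T : LS K → ℂ} (h : TD T) (τ : InfinitePlace K → ℝ) :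
    Differentiable ℂ (LamT τ T) := by
  intro s0
  obtain ⟨C, hC0, hC⟩ := h.bd (|s0.re| + 1)
  set F' : ℂ → LS K → ℂ := fun s x => T x * (((dg K * x.2 / 2 : ℝ) : ℂ) * WW s τ x) with hF'
  have hd := hasDerivAt_integral_of_dominated_loc_of_deriv_le (μ := volume.restrict (box K))
    (F := fun s x => T x * WW s τ x) (F' := F') (x₀ := s0) (s := Metric.ball s0 1)
    (bound := fun x => C * Real.exp (-(1 * |x.2|))) (Metric.ball_mem_nhds _ one_pos)
    (Filter.Eventually.of_forall fun s => h.WW_meas s τ _) (h.int s0 τ) ?_ ?_ ?_ ?_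
  · exact hd.2.differentiableAt
  · refine Measurable.aestronglyMeasurable ?_
    refine h.meas.mul (Measurable.mul ?_ (WW_cont s0 τ).measurable)
    have : Continuous fun x : LS K => ((dg K * x.2 / 2 : ℝ) : ℂ) := by fun_prop
    exact this.measurable
  · refine Filter.Eventually.of_forall fun x s hs => ?_
    rw [hF']
    simp only
    rw [norm_mul, norm_mul, WW_norm, Complex.norm_real, Real.norm_eq_abs]
    have h1 : |s.re| ≤ |s0.re| + 1 := by
      have h2 : ‖s - s0‖ < 1 := by rwa [Metric.mem_ball, dist_eq_norm] at hs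
      have h3 : |(s - s0).re| ≤ ‖s - s0‖ := Complex.abs_re_le_norm _
      have h4 : |s.re| ≤ |s0.re| + |(s - s0).re| := by
        have e1 : s.re = s0.re + (s - s0).re := by simp
        conv_lhs => rw [e1]
        exact abs_add_le _ _
      linarith
    refine le_trans ?_ (hC x s h1)
    refine mul_le_mul_of_nonneg_left ?_ (norm_nonneg _)
    refine mul_le_mul_of_nonneg_right ?_ (Real.exp_pos _).le
    linarith
  · exact (box_int K (ea_int one_pos)).1.const_mul C
  · refine Filter.Eventually.of_forall fun x s _ => ?_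
    rw [hF']
    simp only
    have e1 : ∀ s : ℂ, WW s τ x = Complex.exp (s * (dg K * x.2 / 2 : ℝ)) * WW 0 τ x :=
      fun s => WW_eq s τ x
    have h1 : HasDerivAt (fun s : ℂ => Complex.exp (s * (dg K * x.2 / 2 : ℝ)))
        (Complex.exp (s * (dg K * x.2 / 2 : ℝ)) * (1 * (dg K * x.2 / 2 : ℝ))) s :=
      ((hasDerivAt_id s).mul_const _).cexp
    have h2 := (h1.mul_const (WW 0 τ x)).const_mul (T x)
    have h3 : (fun s : ℂ => T x * WW s τ x) =
        fun s => T x * (Complex.exp (s * (dg K * x.2 / 2 : ℝ)) * WW 0 τ x) := by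
      funext s
      rw [e1]
    rw [h3]
    have h4 : T x * (((dg K * x.2 / 2 : ℝ) : ℂ) * WW s τ x) =
        T x * (Complex.exp (s * (dg K * x.2 / 2 : ℝ)) * (1 * (dg K * x.2 / 2 : ℝ)) * WW 0 τ x) := by
      rw [e1 s]
      ring
    rw [h4]
    exact h2

section
variable {J : Type} [Fintype J] [DecidableEq J]
  {p : ℕ} {ν : J → ℕ} {B : ℝ} {Nf : ℕ} {I : Ideal (𝓞 K)} {b : Basis (Fin (dg K)) ℤ I}
  {o : J → Fin (dg K)} {ψ : ∀ j, DirichletCharacter ℂ (p ^ ν j)} {F : (Fin (dg K) → ℤ) → ℂ}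
  {θ : Par (InfinitePlace K)} {χ : Ideal (𝓞 K) →* ℂ}

lemma SetG.CB (h : SetG p ν B Nf I b o ψ F) (x : LS K) : CB B (AX b x) := (h.bal x).zero

lemma SetG.td (h : SetG p ν B Nf I b o ψ F) (θ : Par (InfinitePlace K)) : TD (ThW b θ F) :=
  ⟨ThW_meas h.ne h.CB h.zero h.tame.bdd, ThW_decay h θ⟩

lemma S1_bd (h : SetG p ν B Nf I b o ψ F) {r : ℝ} (hr : 1 < r) : ∃ C δ : ℝ, 0 ≤ C ∧ 0 < δ ∧
    ∀ (x : LS K) (s : Finset (Fin (dg K) → ℤ)), 0 ∉ s →
    (∑ z ∈ s, ‖Wt (lamK K) θ (vc (AX b x) z)‖) * Real.exp (r * (dg K * x.2 / 2)) ≤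
      C * Real.exp (-(δ * |x.2|)) := by
  have hn : (0 : ℝ) < dg K := by exact_mod_cast NeZero.pos (dg K)
  set κ := cK K * Ideal.absNorm I with hκ
  have hκ0 : 0 < κ := by
    have := cK_pos K
    have := absNorm_pos' h.ne
    positivity
  have hm0 := m0_pos (K := K)
  have hB : 0 ≤ B := (h.CB 0).nonneg
  set C1 := Real.exp (Real.pi * (3 / 2 * dg K)) * B * ((m0 K)⁻¹ + 1) with hC1
  have hC10 : 0 ≤ C1 := by positivity
  set t1 := -(2 / dg K) * Real.log (m0 K * κ) with ht1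
  set δ := (r - 1) * (dg K / 2) with hδd
  have hδ : 0 < δ := by
    have : 0 < r - 1 := by linarith
    positivity
  refine ⟨C1 / κ * Real.exp (2 * δ * |t1|), δ, by positivity, hδ, fun x s hs => ?_⟩
  have h1 := Wt_sum (θ := θ) h.ne h.CB x s hs
  rw [← hC1] at h1
  split_ifs at h1 with hm
  · have e1 : C1 * mm I x.2 * Real.exp (r * (dg K * x.2 / 2)) = C1 / κ * Real.exp (δ * x.2) := by
      unfold mm
      rw [← hκ, mul_div_assoc', div_mul_eq_mul_div, mul_assoc, ← Real.exp_add, div_mul_eq_mul_div]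
      congr 3
      rw [hδd]
      ring
    have h2 : x.2 ≤ t1 := by
      have h3 : m0 K * κ ≤ Real.exp (-(dg K * x.2 / 2)) := by
        unfold mm at hm
        rw [← hκ, le_div_iff₀ hκ0] at hm
        exact hm
      have h4 : Real.log (m0 K * κ) ≤ -(dg K * x.2 / 2) := by
        rw [← Real.log_exp (-(dg K * x.2 / 2))]
        exact Real.log_le_log (by positivity) h3
      have h5 : x.2 = -(2 / dg K) * (-(dg K * x.2 / 2)) := by field_simp
      rw [h5, ht1, neg_mul, neg_mul, neg_le_neg_iff]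
      exact mul_le_mul_of_nonneg_left h4 (by positivity)
    have h3 : Real.exp (δ * x.2) ≤ Real.exp (2 * δ * |t1|) * Real.exp (-(δ * |x.2|)) := by
      rw [← Real.exp_add, Real.exp_le_exp]
      have h4 : x.2 + |x.2| ≤ 2 * |t1| := by
        rcases le_total 0 x.2 with h5 | h5
        · rw [abs_of_nonneg h5]
          have := h2.trans (le_abs_self t1)
          linarith
        · rw [abs_of_nonpos h5]
          have := abs_nonneg t1
          linarith
      have := mul_le_mul_of_nonneg_left h4 hδ.le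
      linarith
    calc _ ≤ C1 * mm I x.2 * Real.exp (r * (dg K * x.2 / 2)) :=
          mul_le_mul_of_nonneg_right h1 (Real.exp_pos _).le
      _ = C1 / κ * Real.exp (δ * x.2) := e1
      _ ≤ C1 / κ * (Real.exp (2 * δ * |t1|) * Real.exp (-(δ * |x.2|))) :=
          mul_le_mul_of_nonneg_left h3 (by positivity)
      _ = _ := by ring
  · have h2 : (∑ z ∈ s, ‖Wt (lamK K) θ (vc (AX b x) z)‖) * Real.exp (r * (dg K * x.2 / 2)) ≤ 0 :=
      mul_nonpos_of_nonpos_of_nonneg h1 (Real.exp_pos _).le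
    refine h2.trans (by positivity)

lemma TN_int (θ : Par (InfinitePlace K)) (t0 : ℝ) (s : ℂ) (χ : Ideal (𝓞 K) →* ℂ) {c : ℝ}
    (hc : ∀ G : (InfinitePlace K → ℝ) → ℂ, (∫ x, G (UU K x) = (c : ℂ) * ∫ u, G u) ∧
      (Integrable G → Integrable fun x => G (UU K x))) {g : 𝓞 K} (hg : g ≠ 0) :
    Integrable (TN s θ t0 χ g) ∧ ∫ x, TN s θ t0 χ g x = (c * Zf K (s - Complex.I * t0)) *
      (χ (Ideal.span {g}) * (Ideal.absNorm (Ideal.span {g}) : ℂ) ^ (-s)) := by
  obtain ⟨hi, hI⟩ := Wa_int θ t0 s hc hg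
  have hg' : (g : K) ≠ 0 := by exact_mod_cast hg
  refine ⟨(hi.const_mul _).const_mul _, ?_⟩
  unfold TN
  rw [integral_const_mul, integral_const_mul, hI]
  have := infK_ne θ hg'
  field_simp

lemma TN_unit (s : ℂ) (θ : Par (InfinitePlace K)) (t0 : ℝ) (χ : Ideal (𝓞 K) →* ℂ) {g : 𝓞 K}
    (hg : g ≠ 0) (ζ : torsion K) (k : Fin (Units.rank K) → ℤ) (x : LS K) :
    TN s θ t0 χ (((((ζ : (𝓞 K)ˣ) * eu k : (𝓞 K)ˣ)) : 𝓞 K) * g) x =
      TN s θ t0 χ g (sh K k x) := by
  have hζ : ∀ w : InfinitePlace K, w (((ζ : (𝓞 K)ˣ) : 𝓞 K) : K) = 1 := fun w =>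
    (mem_torsion K).1 ζ.2 w
  have e1 : Ideal.span {(((((ζ : (𝓞 K)ˣ) * eu k : (𝓞 K)ˣ)) : 𝓞 K) * g)} = Ideal.span {g} := by
    rw [← Ideal.span_singleton_mul_span_singleton, Ideal.span_singleton_eq_top.2 (Units.isUnit _),
      Ideal.top_mul]
  unfold TN
  rw [e1]
  congr 1
  refine Wa_unit θ t0 s hg ((ζ : (𝓞 K)ˣ) * eu k) fun w => ?_
  rw [UU_sh]
  congr 2
  have e2 : w ((((ζ : (𝓞 K)ˣ) * eu k : (𝓞 K)ˣ) : 𝓞 K) : K) = w (((eu k : (𝓞 K)ˣ) : 𝓞 K) : K) := by
    have : ((((ζ : (𝓞 K)ˣ) * eu k : (𝓞 K)ˣ) : 𝓞 K) : K) =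
        (((ζ : (𝓞 K)ˣ) : 𝓞 K) : K) * (((eu k : (𝓞 K)ˣ) : 𝓞 K) : K) := by
      push_cast
      rfl
    rw [this, map_mul, hζ, one_mul]
  rw [e2]

/-- the sum over the units -/
theorem TN_units (s : ℂ) (θ : Par (InfinitePlace K)) (t0 : ℝ) (χ : Ideal (𝓞 K) →* ℂ) {c : ℝ}
    (hc : ∀ G : (InfinitePlace K → ℝ) → ℂ, (∫ x, G (UU K x) = (c : ℂ) * ∫ u, G u) ∧
      (Integrable G → Integrable fun x => G (UU K x))) {g : 𝓞 K} (hg : g ≠ 0) :
    HasSum (fun v : torsion K × (Fin (Units.rank K) → ℤ) =>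
      ∫ x in box K, TN s θ t0 χ (((((v.1 : (𝓞 K)ˣ) * eu v.2 : (𝓞 K)ˣ)) : 𝓞 K) * g) x)
      ((torsionOrder K : ℂ) * ((c * Zf K (s - Complex.I * t0)) * (χ (Ideal.span {g}) *
        (Ideal.absNorm (Ideal.span {g}) : ℂ) ^ (-s)))) := by
  obtain ⟨hTi, h2⟩ := TN_int θ t0 s χ hc hg
  have h1 := unfold_box K _ hTi
  rw [h2] at h1
  haveI : Fintype (torsion K) := Fintype.ofFinite _
  have h3 := hasSum_fin (T := torsion K) h1
  have h4 : (Fintype.card (torsion K) : ℂ) = torsionOrder K := by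
    unfold torsionOrder
    rw [Nat.card_eq_fintype_card]
  rw [h4] at h3
  refine h3.congr_fun ?_ |> id
  intro v
  refine setIntegral_congr_fun (box_meas K) fun x _ => ?_
  exact TN_unit s θ t0 χ hg v.1 v.2 x

/-- the sum over the elements, absolutely convergent -/
theorem el_sumT (h : SetG p ν B Nf I b o ψ F) {κ : ℂ}
    (hrel : ∀ z, χ (Ideal.span {el b z}) = κ * F z * infK θ (el b z : K)) (t0 : ℝ) {s : ℂ}
    (hs : 1 < s.re) {c : ℝ}
    (hc : ∀ G : (InfinitePlace K → ℝ) → ℂ, (∫ x, G (UU K x) = (c : ℂ) * ∫ u, G u) ∧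
      (Integrable G → Integrable fun x => G (UU K x))) :
    HasSum (fun z => ∫ x in box K, TN s θ t0 χ (el b z) x)
      (κ * LamT θ.2 (ThW b (shp θ t0) F) s) := by
  have hz0 : ∀ x, TN s θ t0 χ (el b 0) x = 0 := by
    intro x
    rw [TN_el h.zero hrel, h.zero]
    ring
  have hint : ∀ z, Integrable (fun x => TN s θ t0 χ (el b z) x) (volume.restrict (box K)) := by
    intro z
    by_cases hz : z = 0
    · rw [hz]
      have : (fun x => TN s θ t0 χ (el b 0) x) = fun _ => (0 : ℂ) := funext hz0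
      rw [this]
      exact integrable_zero _ _ _
    · exact (TN_int θ t0 s χ hc (el_ne b hz)).1.integrableOn
  set bF := ‖κ‖ * (Nf : ℝ) ^ Fintype.card (Fin (dg K)) with hbF
  have hbF0 : 0 ≤ bF := by positivity
  have hnorm : ∀ z x, ‖TN s θ t0 χ (el b z) x‖ ≤
      bF * (if z = 0 then 0 else ‖Wt (lamK K) (shp θ t0) (vc (AX b x) z)‖) *
        Real.exp (s.re * (dg K * x.2 / 2)) := by
    intro z x
    by_cases hz : z = 0
    · rw [hz, hz0, norm_zero, if_pos rfl, mul_zero, zero_mul]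
    · rw [if_neg hz, TN_el h.zero hrel, norm_mul, norm_mul, norm_mul, WW_norm]
      refine mul_le_mul_of_nonneg_right ?_ (Real.exp_pos _).le
      have h2 := h.tame.bdd z
      have h3 := norm_nonneg (Wt (lamK K) (shp θ t0) (vc (AX b x) z))
      calc ‖κ‖ * (‖Wt (lamK K) (shp θ t0) (vc (AX b x) z)‖ * ‖F z‖) ≤
          ‖κ‖ * (‖Wt (lamK K) (shp θ t0) (vc (AX b x) z)‖ *
            (Nf : ℝ) ^ Fintype.card (Fin (dg K))) :=
            mul_le_mul_of_nonneg_left (mul_le_mul_of_nonneg_left h2 h3) (norm_nonneg _)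
        _ = _ := by rw [hbF]; ring
  obtain ⟨C, δ, hC0, hδ, hC⟩ := S1_bd (θ := shp θ t0) h hs
  have hsum : Summable fun z => ∫ x in box K, ‖TN s θ t0 χ (el b z) x‖ := by
    refine summable_of_sum_le (c := ∫ x in box K, bF * (C * Real.exp (-(δ * |x.2|))))
      (fun z => integral_nonneg fun x => norm_nonneg _) fun t => ?_
    rw [← integral_finsetSum _ (fun z _ => (hint z).norm)]
    refine setIntegral_mono_on (integrable_finsetSum _ fun z _ => (hint z).norm)
      (((box_int K (ea_int hδ)).1.const_mul C).const_mul bF) (box_meas K) fun x _ => ?_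
    refine le_trans ?_ (mul_le_mul_of_nonneg_left (hC x (t.erase 0) (by simp)) hbF0)
    rw [sum_mul, mul_sum]
    calc ∑ z ∈ t, ‖TN s θ t0 χ (el b z) x‖ ≤
          ∑ z ∈ t, bF * (if z = 0 then 0 else ‖Wt (lamK K) (shp θ t0) (vc (AX b x) z)‖) *
          Real.exp (s.re * (dg K * x.2 / 2)) := sum_le_sum fun z _ => hnorm z x
      _ = ∑ z ∈ t.erase 0, bF * (‖Wt (lamK K) (shp θ t0) (vc (AX b x) z)‖ *
            Real.exp (s.re * (dg K * x.2 / 2))) := by
          rw [← Finset.sum_filter_add_sum_filter_not t (fun z => z = 0)]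
          have e1 : ∑ z ∈ t with z = 0, bF * (if z = 0 then 0 else
              ‖Wt (lamK K) (shp θ t0) (vc (AX b x) z)‖) *
              Real.exp (s.re * (dg K * x.2 / 2)) = 0 := by
            refine sum_eq_zero fun z hz => ?_
            rw [if_pos (mem_filter.1 hz).2, mul_zero, zero_mul]
          rw [e1, zero_add]
          have e2 : ({z ∈ t | ¬ z = 0} : Finset _) = t.erase 0 := by
            ext z
            rw [mem_filter, mem_erase]
            tauto
          rw [e2]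
          refine sum_congr rfl fun z hz => ?_
          rw [if_neg (mem_erase.1 hz).1, mul_assoc]
  have h1 := hasSum_integral_of_summable_integral_norm hint hsum
  have h2 : ∫ x in box K, ∑' z, TN s θ t0 χ (el b z) x =
      κ * LamT θ.2 (ThW b (shp θ t0) F) s := by
    unfold LamT
    rw [← integral_const_mul]
    refine setIntegral_congr_fun (box_meas K) fun x _ => ?_
    beta_reduce
    rw [(TN_sum h.ne h.CB h.zero h.tame.bdd hrel s t0 x).tsum_eq, mul_assoc]
  rw [h2] at h1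
  exact h1

end

end Pool.Agent.T2H29.SW
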