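import Pool.Agent.T2H29.SW.X12

/-!
# The bound on the critical line, general form
-/

set_option autoImplicit false
set_option linter.unusedSectionVars false

namespace Pool.Agent.T2H29.SW

open Finset NumberField NumberField.InfinitePlace Module MeasureTheory NumberField.Units

variable {K : Type} [Field K] [NumberField K]

/-- the majorant -/
noncomputable def maj2 (n t0 V V0 G E : ℝ) (t : ℝ) : ℝ :=
  (Set.Icc (t0 - V) (t0 + V0)).indicator (fun _ => G) t +
    E * Real.exp (-(n / 4 * |t - (t0 - V)|))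

lemma maj2_int {n t0 V V0 G E : ℝ} (hn : 0 < n) (hV : 0 ≤ V + V0) : Integrable (maj2 n t0 V V0 G E) ∧
    ∫ t, maj2 n t0 V V0 G E t = G * (V + V0) + E * (8 / n) := by
  have h1 : Integrable ((Set.Icc (t0 - V) (t0 + V0)).indicator (fun _ : ℝ => G)) := by
    rw [integrable_indicator_iff measurableSet_Icc]
    exact integrableOn_const (by rw [Real.volume_Icc]; exact ENNReal.ofReal_ne_top)
  have hn4 : 0 < n / 4 := by positivity
  have h3 : Integrable fun t : ℝ => E * Real.exp (-(n / 4 * |t - (t0 - V)|)) :=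
    ((ea_int hn4).comp_sub_right (t0 - V)).const_mul _
  constructor
  · exact h1.add h3
  · have e1 : ∫ t, maj2 n t0 V V0 G E t =
        (∫ t, (Set.Icc (t0 - V) (t0 + V0)).indicator (fun _ : ℝ => G) t) +
        (∫ t, E * Real.exp (-(n / 4 * |t - (t0 - V)|))) := by
      unfold maj2
      rw [integral_add h1 h3]
    have e3 := integral_sub_right_eq_self (fun t : ℝ => Real.exp (-(n / 4 * |t|)))
      (μ := (volume : Measure ℝ)) (t0 - V)
    rw [e1, integral_const_mul, e3, ea_val hn4,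
      integral_indicator measurableSet_Icc, setIntegral_const, measureReal_def, Real.volume_Icc,
      ENNReal.toReal_ofReal (by linarith), smul_eq_mul]
    have e4 : (2 : ℝ) / (n / 4) = 8 / n := by field_simp; norm_num
    rw [e4]
    ring

section
variable {J : Type} [Fintype J] [DecidableEq J]
  {p : ℕ} {ν : J → ℕ} {B : ℝ} {Nf : ℕ} {I : Ideal (𝓞 K)} {b : Basis (Fin (dg K)) ℤ I}
  {o : J → Fin (dg K)} {ψ : ∀ j, DirichletCharacter ℂ (p ^ ν j)} {F : (Fin (dg K) → ℤ) → ℂ}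
  {θ : Par (InfinitePlace K)}

/-- the pointwise bound -/
lemma ThW_maj {G E Q : ℝ} (hG : 0 ≤ G) (hE : 0 ≤ E) (hQ : 0 < Q) (hI : I ≠ ⊥) {T : LS K → ℂ}
    (h0 : ∀ x : LS K, mm I x.2 < m0 K → T x = 0)
    (h1 : ∀ x : LS K, m0 K ≤ mm I x.2 → mm I x.2 ≤ Q → ‖T x‖ ≤ G * √(mm I x.2))
    (h2 : ∀ x : LS K, Q ≤ mm I x.2 → ‖T x‖ ≤ E * (mm I x.2 / √Q * (Q / mm I x.2) ^ 2)) (x : LS K) :
    ‖T x‖ * Real.exp (dg K / 4 * x.2) * √(cK K * Ideal.absNorm I) ≤
      maj2 (dg K) (-(2 / dg K) * Real.log (cK K * Ideal.absNorm I)) (2 / dg K * Real.log Q)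
        (2 / dg K * |Real.log (m0 K)|) G E x.2 := by
  have hn : (0 : ℝ) < dg K := by exact_mod_cast NeZero.pos (dg K)
  set n : ℝ := ((dg K : ℕ) : ℝ) with hnn
  set κ := cK K * Ideal.absNorm I with hκ
  have hκ0 : 0 < κ := by
    have := cK_pos K
    have := absNorm_pos' hI
    positivity
  set t0 := -(2 / n) * Real.log κ with ht0
  set V := 2 / n * Real.log Q with hV
  set V0 := 2 / n * |Real.log (m0 K)| with hV0
  have hmm := mm_pos hI x.2
  have hm0 := m0_pos (K := K)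
  have hmt : mm I x.2 = Real.exp (-(n / 2 * (x.2 - t0))) := by
    unfold mm
    rw [← hκ, ← hnn]
    have e1 : Real.exp (-(n / 2 * (x.2 - t0))) = Real.exp (-(n * x.2 / 2)) * Real.exp (n / 2 * t0) := by
      rw [← Real.exp_add]
      congr 1
      ring
    have e2 : Real.exp (n / 2 * t0) = κ⁻¹ := by
      have : n / 2 * t0 = -Real.log κ := by
        rw [ht0]; field_simp
      rw [this, Real.exp_neg, Real.exp_log hκ0]
    rw [e1, e2]
    rfl
  have hlog : Real.log (mm I x.2) = -(n / 2 * (x.2 - t0)) := by rw [hmt, Real.log_exp]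
  have hsk : √κ = Real.exp (-(n / 4 * t0)) := by
    have : -(n / 4 * t0) = Real.log κ / 2 := by
      rw [ht0]; field_simp; ring
    rw [this, Real.exp_half, Real.exp_log hκ0]
  have hsm : √(mm I x.2) = Real.exp (-(n / 4 * (x.2 - t0))) := by
    have : -(n / 4 * (x.2 - t0)) = -(n / 2 * (x.2 - t0)) / 2 := by ring
    rw [this, Real.exp_half, ← hmt]
  have hL : ‖T x‖ * Real.exp (n / 4 * x.2) * √κ = ‖T x‖ * Real.exp (n / 4 * (x.2 - t0)) := by
    rw [hsk, mul_assoc, ← Real.exp_add]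
    congr 2
    ring
  rw [hL]
  have hind0 : 0 ≤ (Set.Icc (t0 - V) (t0 + V0)).indicator (fun _ => G) x.2 :=
    Set.indicator_nonneg (fun _ _ => hG) _
  have hB0 : 0 ≤ E * Real.exp (-(n / 4 * |x.2 - (t0 - V)|)) := by positivity
  unfold maj2
  rcases lt_or_ge (mm I x.2) (m0 K) with h3 | h3
  · rw [h0 x h3, norm_zero, zero_mul]
    linarith
  · rcases le_total (mm I x.2) Q with h4 | h4
    · have h5 : x.2 ∈ Set.Icc (t0 - V) (t0 + V0) := by
        have h6 := Real.log_le_log hmm h4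
        have h7 := Real.log_le_log hm0 h3
        rw [hlog] at h6 h7
        have e1 : n / 2 * V = Real.log Q := by rw [hV]; field_simp
        have e2 : n / 2 * V0 = |Real.log (m0 K)| := by rw [hV0]; field_simp
        have e3 := neg_abs_le (Real.log (m0 K))
        constructor
        · have h8 : n / 2 * (t0 - V) ≤ n / 2 * x.2 := by linarith
          exact le_of_mul_le_mul_left h8 (by positivity)
        · have h8 : n / 2 * x.2 ≤ n / 2 * (t0 + V0) := by linarith
          exact le_of_mul_le_mul_left h8 (by positivity)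
      rw [Set.indicator_of_mem h5]
      have h6 : ‖T x‖ * Real.exp (n / 4 * (x.2 - t0)) ≤ G := by
        calc ‖T x‖ * Real.exp (n / 4 * (x.2 - t0)) ≤ G * √(mm I x.2) * Real.exp (n / 4 * (x.2 - t0)) :=
              mul_le_mul_of_nonneg_right (h1 x h3 h4) (Real.exp_pos _).le
          _ = G := by
              rw [hsm, mul_assoc, ← Real.exp_add, neg_add_cancel, Real.exp_zero, mul_one]
      linarith
    · have h5 := h2 x h4
      have hQe : Q = Real.exp (n / 2 * V) := by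
        have : n / 2 * V = Real.log Q := by rw [hV]; field_simp
        rw [this, Real.exp_log hQ]
      have h6 := Real.log_le_log hQ h4
      rw [hlog] at h6
      have e1 : n / 2 * V = Real.log Q := by rw [hV]; field_simp
      have h7 : x.2 ≤ t0 - V := by
        have h8 : n / 2 * x.2 ≤ n / 2 * (t0 - V) := by linarith
        exact le_of_mul_le_mul_left h8 (by positivity)
      have h8 : mm I x.2 / √Q * (Q / mm I x.2) ^ 2 * Real.exp (n / 4 * (x.2 - t0)) =
          Real.exp (-(3 * n / 4 * |x.2 - (t0 - V)|)) := by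
        have e2 : √Q = Real.exp (n / 4 * V) := by
          have : n / 4 * V = n / 2 * V / 2 := by ring
          rw [this, Real.exp_half, ← hQe]
        rw [e2, hmt, hQe, ← Real.exp_sub, ← Real.exp_sub, ← Real.exp_nat_mul, ← Real.exp_add,
          ← Real.exp_add, abs_of_nonpos (by linarith)]
        congr 1
        push_cast
        ring
      have h9 : ‖T x‖ * Real.exp (n / 4 * (x.2 - t0)) ≤
          E * Real.exp (-(n / 4 * |x.2 - (t0 - V)|)) := by
        calc ‖T x‖ * Real.exp (n / 4 * (x.2 - t0)) ≤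
            E * (mm I x.2 / √Q * (Q / mm I x.2) ^ 2) * Real.exp (n / 4 * (x.2 - t0)) :=
              mul_le_mul_of_nonneg_right h5 (Real.exp_pos _).le
          _ = E * Real.exp (-(3 * n / 4 * |x.2 - (t0 - V)|)) := by rw [mul_assoc, h8]
          _ ≤ _ := by
              refine mul_le_mul_of_nonneg_left ?_ hE
              rw [Real.exp_le_exp]
              have : 0 ≤ n * |x.2 - (t0 - V)| := by positivity
              linarith
      linarith

/-- the bound for the completed L-function of a class, abstract form -/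
theorem LamT_crit {G E Q : ℝ} (hG : 0 ≤ G) (hE : 0 ≤ E) (hQ : 1 ≤ Q) (hI : I ≠ ⊥) {T : LS K → ℂ}
    (hT : TD T) (h0 : ∀ x : LS K, mm I x.2 < m0 K → T x = 0)
    (h1 : ∀ x : LS K, m0 K ≤ mm I x.2 → mm I x.2 ≤ Q → ‖T x‖ ≤ G * √(mm I x.2))
    (h2 : ∀ x : LS K, Q ≤ mm I x.2 → ‖T x‖ ≤ E * (mm I x.2 / √Q * (Q / mm I x.2) ^ 2))
    (τ : InfinitePlace K → ℝ) {s : ℂ} (hs : s.re = 1 / 2) :
    √(Ideal.absNorm I) * ‖LamT τ T s‖ ≤ (√(cK K))⁻¹ *
      (G * (2 / dg K * Real.log Q + 2 / dg K * |Real.log (m0 K)|) + E * (8 / dg K)) := by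
  have hn : (0 : ℝ) < dg K := by exact_mod_cast NeZero.pos (dg K)
  have hlQ : 0 ≤ Real.log Q := Real.log_nonneg hQ
  have hcK := cK_pos K
  have hI0 := absNorm_pos' hI
  set κ := cK K * Ideal.absNorm I with hκ
  have hκ0 : 0 < κ := by positivity
  have hsκ : 0 < √κ := Real.sqrt_pos.2 hκ0
  set M := maj2 (dg K) (-(2 / dg K) * Real.log κ) (2 / dg K * Real.log Q)
    (2 / dg K * |Real.log (m0 K)|) G E with hM
  obtain ⟨hGi, hGv⟩ := maj2_int (n := (dg K : ℝ)) (t0 := -(2 / dg K) * Real.log κ)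
    (V := 2 / dg K * Real.log Q) (V0 := 2 / dg K * |Real.log (m0 K)|) (G := G) (E := E) hn
    (by positivity)
  rw [← hM] at hGi hGv
  obtain ⟨hb1, hb2⟩ := box_int K hGi
  have h3 : ‖LamT τ T s‖ ≤ (√κ)⁻¹ * ∫ t, M t := by
    unfold LamT
    rw [← hb2, ← integral_const_mul]
    refine (norm_integral_le_integral_norm _).trans ?_
    refine setIntegral_mono_on (hT.int s τ).norm (hb1.const_mul _) (box_meas K) fun x _ => ?_
    rw [norm_mul, WW_norm, hs]
    have h4 := ThW_maj hG hE (by linarith) hI h0 h1 h2 x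
    rw [← hκ, ← hM] at h4
    rw [inv_mul_eq_div, le_div_iff₀ hsκ]
    have e1 : (1 : ℝ) / 2 * (dg K * x.2 / 2) = dg K / 4 * x.2 := by ring
    rw [e1]
    exact h4
  rw [hGv] at h3
  have h4 : √κ = √(cK K) * √(Ideal.absNorm I) := Real.sqrt_mul hcK.le _
  have h5 : 0 < √(cK K) := Real.sqrt_pos.2 hcK
  have h6 : 0 < √(Ideal.absNorm I : ℝ) := Real.sqrt_pos.2 hI0
  calc √(Ideal.absNorm I) * ‖LamT τ T s‖ ≤ √(Ideal.absNorm I) * ((√κ)⁻¹ *
        (G * (2 / dg K * Real.log Q + 2 / dg K * |Real.log (m0 K)|) + E * (8 / dg K))) :=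
        mul_le_mul_of_nonneg_left h3 h6.le
    _ = _ := by
        rw [h4]
        field_simp

/-- the bound for the completed L-function of a class -/
theorem LamT_bd (K : Type) [Field K] [NumberField K] (J : Type) [Fintype J] [DecidableEq J] (B : ℝ) :
    ∃ C : ℝ, 0 < C ∧ ∀ (p : ℕ) (ν : J → ℕ) (k : ℝ) (Nf : ℕ) (I : Ideal (𝓞 K))
    (b : Basis (Fin (dg K)) ℤ I) (o : J → Fin (dg K)) (ψ : ∀ j, DirichletCharacter ℂ (p ^ ν j))
    (F : (Fin (dg K) → ℤ) → ℂ) (θ : Par (InfinitePlace K)) (τ : InfinitePlace K → ℝ) (s : ℂ),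
    SetG p ν B Nf I b o ψ F → 1 ≤ Nf → 0 ≤ k → Core p o ν B k → s.re = 1 / 2 →
    √(Ideal.absNorm I) * ‖LamT τ (ThW b θ F) s‖ ≤ C * Tp θ ^ (3 * dg K + 1) *
      (Nf : ℝ) ^ (3 * dg K) * (√k * (Real.log ((p : ℝ) ^ (∑ j, ν j)) + 1) + 1) := by
  haveI : Nonempty (Fin (dg K)) := ⟨0⟩
  obtain ⟨C1, hC10, hC1⟩ := TW_all (J := J) (lamK_LF K)
  obtain ⟨C2, hC20, hC2⟩ := TW_tail (J := J) (lamK_LF K) B 1
  have hn : (0 : ℝ) < dg K := by exact_mod_cast NeZero.pos (dg K)
  have hcK := cK_pos K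
  have hscK : 0 < √(cK K) := Real.sqrt_pos.2 hcK
  have hm0 := m0_pos (K := K)
  set c1 := √((m0 K)⁻¹ + 2) with hc1
  have hc10 : 0 < c1 := Real.sqrt_pos.2 (by positivity)
  set c2 := 2 / dg K * (1 + |Real.log (m0 K)|) with hc2
  have hc20 : 0 < c2 := by positivity
  refine ⟨(√(cK K))⁻¹ * (C1 * c1 * c2 + C2 * (8 / dg K)) + 1, by positivity,
    fun p ν k Nf I b o ψ F θ τ s h hNf hk hcore hs => ?_⟩
  have hp0 : (0 : ℝ) < p := by exact_mod_cast h.tame.pp.pos
  set Q : ℝ := (p : ℝ) ^ (∑ j, ν j) with hQ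
  have hQ0 : 0 < Q := by positivity
  have hQ1 : 1 ≤ Q := one_le_pow₀ (by exact_mod_cast h.tame.pp.one_lt.le)
  have hlQ : 0 ≤ Real.log Q := Real.log_nonneg hQ1
  have hT1 := Tp_one θ
  have hN1 : (1 : ℝ) ≤ Nf := by exact_mod_cast hNf
  set G := C1 * Tp θ ^ (dg K + 1) * ((Nf : ℝ) ^ dg K * (√k * c1)) with hG
  set E := C2 * Tp θ ^ (3 * dg K + 1) * (Nf : ℝ) ^ (3 * dg K) with hE
  have hG0 : 0 ≤ G := by positivity
  have hE0 : 0 ≤ E := by positivity
  have hcr := LamT_crit hG0 hE0 hQ1 h.ne (h.td θ) (fun x hx => ThW_zero h.ne h.zero hx)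
    (fun x hx1 hx2 => ?_) (fun x hx => ?_) τ hs
  · refine hcr.trans ?_
    set X := Tp θ ^ (3 * dg K + 1) * (Nf : ℝ) ^ (3 * dg K) with hX
    have hX0 : 0 ≤ X := by positivity
    have hGX : G ≤ C1 * c1 * (X * √k) := by
      have h1 : Tp θ ^ (dg K + 1) ≤ Tp θ ^ (3 * dg K + 1) := pow_le_pow_right₀ hT1 (by omega)
      have h2 : (Nf : ℝ) ^ dg K ≤ (Nf : ℝ) ^ (3 * dg K) := pow_le_pow_right₀ hN1 (by omega)
      have h3 : Tp θ ^ (dg K + 1) * (Nf : ℝ) ^ dg K ≤ X := mul_le_mul h1 h2 (by positivity) (by positivity)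
      calc G = C1 * c1 * ((Tp θ ^ (dg K + 1) * (Nf : ℝ) ^ dg K) * √k) := by rw [hG]; ring
        _ ≤ _ := mul_le_mul_of_nonneg_left (mul_le_mul_of_nonneg_right h3 (Real.sqrt_nonneg _))
            (by positivity)
    have hEX : E = C2 * X := by rw [hE, hX]; ring
    have h4 : 2 / (dg K : ℝ) * Real.log Q + 2 / dg K * |Real.log (m0 K)| ≤ c2 * (Real.log Q + 1) := by
      rw [hc2]
      have h5 : 0 ≤ 2 / (dg K : ℝ) * (|Real.log (m0 K)| * Real.log Q) := by positivity
      have h6 : 0 ≤ 2 / (dg K : ℝ) := by positivity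
      nlinarith
    have h5 : G * (2 / (dg K : ℝ) * Real.log Q + 2 / dg K * |Real.log (m0 K)|) ≤
        C1 * c1 * (X * √k) * (c2 * (Real.log Q + 1)) :=
      mul_le_mul hGX h4 (by positivity) (by positivity)
    set Y := √k * (Real.log Q + 1) + 1 with hY
    have hsk := Real.sqrt_nonneg k
    have hY1 : 1 ≤ Y := by
      have : 0 ≤ √k * (Real.log Q + 1) := by positivity
      linarith
    have h6 : √k * (Real.log Q + 1) ≤ Y := by linarith
    have hXY : 0 ≤ X * Y := by positivity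
    calc (√(cK K))⁻¹ * (G * (2 / (dg K : ℝ) * Real.log Q + 2 / dg K * |Real.log (m0 K)|) + E * (8 / dg K)) ≤
        (√(cK K))⁻¹ * (C1 * c1 * (X * √k) * (c2 * (Real.log Q + 1)) + C2 * X * (8 / dg K)) := by
          refine mul_le_mul_of_nonneg_left ?_ (by positivity)
          rw [hEX]
          linarith
      _ = (√(cK K))⁻¹ * (C1 * c1 * c2 * (X * (√k * (Real.log Q + 1))) + C2 * (8 / dg K) * (X * 1)) := by
          ring
      _ ≤ (√(cK K))⁻¹ * (C1 * c1 * c2 * (X * Y) + C2 * (8 / dg K) * (X * Y)) := by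
          refine mul_le_mul_of_nonneg_left (add_le_add ?_ ?_) (by positivity)
          · exact mul_le_mul_of_nonneg_left (mul_le_mul_of_nonneg_left h6 hX0) (by positivity)
          · exact mul_le_mul_of_nonneg_left (mul_le_mul_of_nonneg_left hY1 hX0) (by positivity)
      _ ≤ ((√(cK K))⁻¹ * (C1 * c1 * c2 + C2 * (8 / dg K)) + 1) * (X * Y) := by
          have : ((√(cK K))⁻¹ * (C1 * c1 * c2 + C2 * (8 / dg K)) + 1) * (X * Y) =
            (√(cK K))⁻¹ * (C1 * c1 * c2 * (X * Y) + C2 * (8 / dg K) * (X * Y)) + X * Y := by ring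
          rw [this]
          linarith
      _ = _ := by rw [hX]; ring
  · -- middle range
    have h1 := (hC1 B k θ p o ν Nf ψ F (AX b x) hk hcore h.tame (det_AX_ne h.ne b x) (h.bal x)).2
    rw [Mv_AX, Fintype.card_fin, ← hQ] at h1
    refine h1.trans ?_
    have hmm := mm_pos h.ne x.2
    have h2 : 1 + mm I x.2 + mm I x.2 ^ 2 / Q ≤ ((m0 K)⁻¹ + 2) * mm I x.2 := by
      have h3 : 1 ≤ (m0 K)⁻¹ * mm I x.2 := by
        rw [le_inv_mul_iff₀ hm0, mul_one]; exact hx1
      have h4 : mm I x.2 ^ 2 / Q ≤ mm I x.2 := by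
        rw [div_le_iff₀ hQ0, pow_two]
        exact mul_le_mul_of_nonneg_left hx2 hmm.le
      linarith
    have h3 : √(k * (1 + mm I x.2 + mm I x.2 ^ 2 / Q)) ≤ √k * c1 * √(mm I x.2) := by
      rw [hc1, ← Real.sqrt_mul hk, ← Real.sqrt_mul (by positivity)]
      refine Real.sqrt_le_sqrt ?_
      rw [mul_assoc]
      exact mul_le_mul_of_nonneg_left h2 hk
    calc C1 * Tp θ ^ (dg K + 1) * ((Nf : ℝ) ^ dg K * √(k * (1 + mm I x.2 + mm I x.2 ^ 2 / Q))) ≤
        C1 * Tp θ ^ (dg K + 1) * ((Nf : ℝ) ^ dg K * (√k * c1 * √(mm I x.2))) := by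
          refine mul_le_mul_of_nonneg_left ?_ (by positivity)
          exact mul_le_mul_of_nonneg_left h3 (by positivity)
      _ = _ := by rw [hG]; ring
  · have h1 := hC2 θ p o ν Nf ψ F (AX b x) h.tame (det_AX_ne h.ne b x) (h.bal x)
      (by rw [Mv_AX]; exact hx)
    rw [Mv_AX, Fintype.card_fin, ← hQ] at h1
    refine h1.trans (le_of_eq ?_)
    rw [hE]
    have e1 : 2 * (dg K * 1) + dg K + 1 = 3 * dg K + 1 := by omega
    have e2 : dg K + 2 * (dg K * 1) = 3 * dg K := by omega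
    rw [e1, e2]

end

end Pool.Agent.T2H29.SW
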