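import Pool.Agent.T2H29.SW.X13

/-!
# The abstract main theorem
-/

set_option autoImplicit false
set_option linter.unusedSectionVars false

namespace Pool.Agent.T2H29.SW

open Finset NumberField NumberField.InfinitePlace Module MeasureTheory NumberField.Units
open scoped nonZeroDivisors

/-- gluing analytic functions on strips -/
theorem glue {Lt : ℝ → ℂ → ℂ} (hd : ∀ t0, DifferentiableOn ℂ (Lt t0) {s | |s.im - t0| < 1})
    {g : ℂ → ℂ} (hg : ∀ t0 s, 1 < s.re → |s.im - t0| < 1 → Lt t0 s = g s) :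
    ∃ L : ℂ → ℂ, Differentiable ℂ L ∧ (∀ s, 1 < s.re → L s = g s) ∧
      ∀ t0 s, |s.im - t0| < 1 → L s = Lt t0 s := by
  have hopen : ∀ t0 : ℝ, IsOpen {s : ℂ | |s.im - t0| < 1} := by
    intro t0
    exact isOpen_lt (by fun_prop) continuous_const
  have hconv : ∀ t0 : ℝ, Convex ℝ {s : ℂ | |s.im - t0| < 1} := by
    intro t0
    have e1 : {s : ℂ | |s.im - t0| < 1} = Complex.imLm ⁻¹' (Metric.ball t0 1) := by
      ext s
      simp [Real.dist_eq]
    rw [e1]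
    exact (convex_ball t0 1).linear_preimage _
  have key : ∀ t0 t1 s, |s.im - t0| < 1 → |s.im - t1| < 1 → Lt t0 s = Lt t1 s := by
    intro t0 t1 s h0 h1
    set U : Set ℂ := {s : ℂ | |s.im - t0| < 1} ∩ {s : ℂ | |s.im - t1| < 1} with hU
    have hUo : IsOpen U := (hopen t0).inter (hopen t1)
    have hUc : IsPreconnected U := ((hconv t0).inter (hconv t1)).isPreconnected
    have ha0 : AnalyticOnNhd ℂ (Lt t0) U :=
      ((hd t0).mono Set.inter_subset_left).analyticOnNhd hUo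
    have ha1 : AnalyticOnNhd ℂ (Lt t1) U :=
      ((hd t1).mono Set.inter_subset_right).analyticOnNhd hUo
    set s1 : ℂ := 2 + s.im * Complex.I with hs1
    have hs1i : s1.im = s.im := by simp [hs1]
    have hs1r : s1.re = 2 := by simp [hs1]
    have hs1U : s1 ∈ U := by
      refine ⟨?_, ?_⟩
      · show |s1.im - t0| < 1
        rw [hs1i]; exact h0
      · show |s1.im - t1| < 1
        rw [hs1i]; exact h1
    have hev : Lt t0 =ᶠ[nhds s1] Lt t1 := by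
      have h2 : {s : ℂ | 1 < s.re} ∩ U ∈ nhds s1 := by
        refine IsOpen.mem_nhds (IsOpen.inter (isOpen_lt continuous_const Complex.continuous_re) hUo)
          ⟨?_, hs1U⟩
        show 1 < s1.re
        rw [hs1r]; norm_num
      filter_upwards [h2] with y hy
      rw [hg t0 y hy.1 hy.2.1, hg t1 y hy.1 hy.2.2]
    exact ha0.eqOn_of_preconnected_of_eventuallyEq ha1 hUc hs1U hev ⟨h0, h1⟩
  refine ⟨fun s => Lt s.im s, fun s => ?_, fun s hs => ?_, fun t0 s hs => ?_⟩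
  · have h1 : DifferentiableAt ℂ (Lt s.im) s :=
      (hd s.im).differentiableAt ((hopen s.im).mem_nhds (by simp))
    refine h1.congr_of_eventuallyEq ?_
    filter_upwards [(hopen s.im).mem_nhds (show s ∈ {y : ℂ | |y.im - s.im| < 1} by simp)] with y hy
    exact key y.im s.im y (by simp) hy
  · exact hg s.im s hs (by simp)
  · exact key s.im t0 s (by simp) hs

variable {K : Type} [Field K] [NumberField K]

/-- every class contains an ideal coprime to `m` -/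
lemma exists_rep2 {m : Ideal (𝓞 K)} (hm0 : m ≠ ⊥) (hm : m ≠ ⊤) (C : ClassGroup (𝓞 K)) :
    ∃ (I : Ideal (𝓞 K)) (h : I ≠ ⊥), IsCoprime I m ∧ ClassGroup.mk0 ⟨I, nzd h⟩ = C := by
  obtain ⟨⟨J, hJ⟩, hJC⟩ := ClassGroup.mk0_surjective C⁻¹
  have hJ0 : J ≠ ⊥ := mem_nonZeroDivisors_iff_ne_zero.1 hJ
  obtain ⟨α, hα⟩ := IsDedekindDomain.exists_sup_span_eq (I := J * m) (J := J) Ideal.mul_le_left
    (mul_ne_bot' hJ0 hm0)
  have hαJ : α ∈ J := by
    have : Ideal.span {α} ≤ J := by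
      conv_rhs => rw [← hα]
      exact le_sup_right
    rwa [Ideal.span_singleton_le_iff_mem] at this
  obtain ⟨I, hI⟩ : J ∣ Ideal.span {α} := by
    rw [Ideal.dvd_iff_le, Ideal.span_singleton_le_iff_mem]
    exact hαJ
  have hco : m ⊔ I = ⊤ := by
    have h1 : J * (m ⊔ I) = J * ⊤ := by
      rw [Ideal.mul_sup, ← hI, hα, Ideal.mul_top]
    exact mul_left_cancel₀ (show J ≠ 0 from hJ0) h1
  have hI0 : I ≠ ⊥ := by
    intro h
    rw [h, sup_bot_eq] at hco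
    exact hm hco
  refine ⟨I, hI0, ?_, ?_⟩
  · rw [Ideal.isCoprime_iff_sup_eq, sup_comm]
    exact hco
  · have h2 := mk0_mul hJ0 hI0 (mul_ne_bot' hJ0 hI0)
    have h3 : ClassGroup.mk0 (⟨J * I, nzd (mul_ne_bot' hJ0 hI0)⟩ : (Ideal (𝓞 K))⁰) = 1 := by
      rw [ClassGroup.mk0_eq_one_iff]
      show Submodule.IsPrincipal (J * I)
      rw [← hI]
      exact ⟨⟨α, rfl⟩⟩
    rw [h3] at h2
    have h4 : ClassGroup.mk0 (⟨J, nzd hJ0⟩ : (Ideal (𝓞 K))⁰) = C⁻¹ := hJC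
    rw [h4] at h2
    have h5 := congrArg (fun y => C * y) h2
    simp only [mul_one, mul_inv_cancel_left] at h5
    exact h5.symm

section
variable {J : Type} [Fintype J] [DecidableEq J]
  {f : Ideal (𝓞 K)} {P : J → Ideal (𝓞 K)} {p : ℕ} {ν : J → ℕ}
  {θ : Par (InfinitePlace K)} {χ : Ideal (𝓞 K) →* ℂ} {ρ : ∀ j, 𝓞 K →+* ZMod (p ^ ν j)}

lemma mo_ne_bot (h : PD P p ν) (hf : ¬ p ∣ Ideal.absNorm f) : mo f P ν ≠ ⊥ := by
  have hf0 : f ≠ ⊥ := by
    rintro rfl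
    apply hf
    rw [Ideal.absNorm_bot]
    exact dvd_zero p
  unfold mo
  refine mul_ne_bot' hf0 ?_
  show (∏ j, P j ^ ν j : Ideal (𝓞 K)) ≠ 0
  refine prod_ne_zero_iff.2 fun j _ => pow_ne_zero _ ?_
  exact (h.deg j).ne_bot h.pp

/-- the data of a class -/
theorem exists_dataG [Nonempty J] (h : PD P p ν) (hf : ¬ p ∣ Ideal.absNorm f)
    (hρ : ∀ j, Red (P j) p (ν j) (ρ j)) {ψ : ∀ j, DirichletCharacter ℂ (p ^ ν j)} {F : 𝓞 K → ℂ}
    (hψ : ∀ j, (ψ j).IsPrimitive) (hF1 : ∀ α, ‖F α‖ ≤ 1) (hF2 : ∀ α β, α - β ∈ f → F α = F β)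
    (hdec : ∀ α : 𝓞 K, χ (Ideal.span {α}) = F α * (∏ j, ψ j (ρ j α)) * infK θ (α : K)) {B : ℝ}
    (hB : ∀ (I : Ideal (𝓞 K)), I ≠ ⊥ → (∀ j, IsCoprime I (P j)) →
      ∀ (b : Basis (Fin (dg K)) ℤ I) (o : J → Fin (dg K)) (u : ∀ j, ZMod (p ^ ν j)),
      Function.Injective o → (∀ j z, ρ j (el b z) = (z (o j) : ZMod (p ^ ν j)) * u j) →
      ∀ x : LS K, BalV p o ν B (AX b x))
    (C : ClassGroup (𝓞 K)) : ∃ (I : Ideal (𝓞 K)) (hI : I ≠ ⊥), IsCoprime I (mo f P ν) ∧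
    ClassGroup.mk0 ⟨I, nzd hI⟩ = C⁻¹ ∧ ∃ (b : Basis (Fin (dg K)) ℤ I) (o : J → Fin (dg K))
    (κ : ℂ) (G : (Fin (dg K) → ℤ) → ℂ), ‖κ‖ ≤ 1 ∧ Function.Injective o ∧
    SetG p ν B (Ideal.absNorm f) I b o ψ G ∧
    ∀ z, χ (Ideal.span {el b z}) = κ * G z * infK θ (el b z : K) := by
  obtain ⟨I, hI, hco, hC⟩ := exists_rep2 (mo_ne_bot h hf) (mo_ne_top h) C⁻¹
  have hcoP : ∀ j, IsCoprime I (P j) := by
    intro j
    rw [Ideal.isCoprime_iff_sup_eq] at hco ⊢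
    refine top_le_iff.1 ?_
    rw [← hco]
    refine sup_le_sup_left ?_ _
    exact (mo_le_P j).trans (Ideal.pow_le_self (by have := h.nu j; omega))
  obtain ⟨b, o, u, ho, hu, hz⟩ := exists_basisJ h hρ hI hcoP
  obtain ⟨G, hG, hrel⟩ := exists_SetG h hf hρ hψ hF1 hF2 hdec hI ho hu hz
    (hB I hI hcoP b o u ho hz)
  refine ⟨I, hI, hco, hC, b, o, ∏ j, ψ j (u j), G, ?_, ho, hG, hrel⟩
  rw [norm_prod]
  exact prod_le_one (fun j _ => norm_nonneg _) fun j _ => (ψ j).norm_le_one _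

end

section
variable {J : Type} [Fintype J] [DecidableEq J]
  {p : ℕ} {ν : J → ℕ} {B : ℝ} {Nf : ℕ} {I : Ideal (𝓞 K)} {b : Basis (Fin (dg K)) ℤ I}
  {o : J → Fin (dg K)} {ψ : ∀ j, DirichletCharacter ℂ (p ^ ν j)} {F : (Fin (dg K) → ℤ) → ℂ}
  {θ : Par (InfinitePlace K)} {χ : Ideal (𝓞 K) →* ℂ}

/-- one class -/
theorem class_LG (h : SetG p ν B Nf I b o ψ F) {κ : ℂ}
    (hrel : ∀ z, χ (Ideal.span {el b z}) = κ * F z * infK θ (el b z : K)) (hχI : χ I ≠ 0)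
    {c : ℝ} (hc0 : 0 < c)
    (hc : ∀ G : (InfinitePlace K → ℝ) → ℂ, (∫ x, G (UU K x) = (c : ℂ) * ∫ u, G u) ∧
      (Integrable G → Integrable fun x => G (UU K x))) {C : ClassGroup (𝓞 K)} (hI : I ≠ ⊥)
    (hC : ClassGroup.mk0 ⟨I, nzd hI⟩ = C⁻¹) {s : ℂ} (hs : 1 < s.re) {t0 : ℝ}
    (ht : |s.im - t0| < 1) :
    HasSum (fun J : clS C => χ J.1 * (Ideal.absNorm J.1 : ℂ) ^ (-s))
      ((χ I)⁻¹ * (Ideal.absNorm I : ℂ) ^ s *
        (((torsionOrder K : ℂ) * c)⁻¹ * (Zf K (s - Complex.I * t0))⁻¹ *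
          (κ * LamT θ.2 (ThW b (shp θ t0) F) s))) := by
  refine cl_hasSum hI hC hχI ?_
  have h1 := el_sumT (χ := χ) h hrel t0 hs hc
  have hF0 : (fun α : 𝓞 K => ∫ x in box K, TN s θ t0 χ α x) 0 = 0 := by
    beta_reduce
    have : ∀ x, TN s θ t0 χ 0 x = 0 := by
      intro x
      have h2 := TN_el h.zero hrel s t0 0 x
      rw [h.zero, el_zero] at h2
      rw [h2]
      ring
    simp_rw [this]
    simp
  have h2 := class_hasSum b (F := fun α : 𝓞 K => ∫ x in box K, TN s θ t0 χ α x) hF0 h1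
    (G := fun J : PrI I => (torsionOrder K : ℂ) * ((c * Zf K (s - Complex.I * t0)) *
      (χ (Ideal.span {J.gen}) * (Ideal.absNorm (Ideal.span {J.gen}) : ℂ) ^ (-s))))
    (fun J => TN_units s θ t0 χ hc J.gen_ne)
  have h3 := h2.mul_left (((torsionOrder K : ℂ) * c)⁻¹ * (Zf K (s - Complex.I * t0))⁻¹)
  refine h3.congr_fun ?_ |> id
  intro J
  rw [J.span]
  have hw : (torsionOrder K : ℂ) ≠ 0 := by exact_mod_cast torsionOrder_ne_zero K
  have hcc : (c : ℂ) ≠ 0 := by exact_mod_cast hc0.ne'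
  have hZ : Zf K (s - Complex.I * t0) ≠ 0 := by
    refine Zf_ne K ?_
    have e1 : (s - Complex.I * t0).im = s.im - t0 := by simp
    rw [e1]
    exact ht.le
  field_simp

end

/-- the abstract main theorem -/
theorem main_abs (K : Type) [Field K] [NumberField K] (J : Type) [Fintype J] [DecidableEq J]
    [Nonempty J] : ∃ B C : ℝ, 1 ≤ B ∧ 0 < C ∧ ∀ (f : Ideal (𝓞 K)) (P : J → Ideal (𝓞 K)) (p : ℕ)
    (ν : J → ℕ) (θ : Par (InfinitePlace K)) (χ : Ideal (𝓞 K) →* ℂ), PD P p ν →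
    ¬ p ∣ Ideal.absNorm f → HeckeG f P ν θ χ → ∃ L : ℂ → ℂ, Differentiable ℂ L ∧
    (∀ s : ℂ, 1 < s.re →
      HasSum (fun I : Ideal (𝓞 K) => χ I * (Ideal.absNorm I : ℂ) ^ (-s)) (L s)) ∧
    ∀ k : ℝ, 0 ≤ k → (∀ o : J → Fin (dg K), Function.Injective o → Core p o ν B k) → ∀ t : ℝ,
      ‖L (1 / 2 + t * Complex.I)‖ ≤ C * (Tp θ * (1 + |t|)) ^ (3 * dg K + 1) *
        (Ideal.absNorm f : ℝ) ^ (3 * dg K) * (√k * (Real.log ((p : ℝ) ^ (∑ j, ν j)) + 1) + 1) := by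
  haveI : Nonempty (Fin (dg K)) := ⟨0⟩
  obtain ⟨B, hB1, hB⟩ := exists_BalV K
  obtain ⟨c, hc0, hc⟩ := UU_int K
  obtain ⟨C0, hC00, hC0⟩ := LamT_bd K J B
  have hwc : 0 < (torsionOrder K : ℝ) * c := by
    have : (0 : ℝ) < torsionOrder K := by exact_mod_cast torsionOrder_pos K
    positivity
  have hcard : (0 : ℝ) < Fintype.card (ClassGroup (𝓞 K)) := by
    exact_mod_cast Fintype.card_pos
  have hZ0 : Zf K (1 / 2) ≠ 0 := Zf_ne K (by norm_num)
  have hZn : 0 < ‖Zf K (1 / 2)‖ := norm_pos_iff.2 hZ0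
  set A0 : ℝ := (1 + 2 * Fintype.card (InfinitePlace K)) ^ (3 * dg K + 1) with hA0
  have hA00 : 0 < A0 := by positivity
  refine ⟨B, Fintype.card (ClassGroup (𝓞 K)) * (((torsionOrder K : ℝ) * c)⁻¹ *
    ‖Zf K (1 / 2)‖⁻¹ * (C0 * A0)), hB1, by positivity, fun f P p ν θ χ h hf hχ => ?_⟩
  have hp := h.pp
  have hN1 : 1 ≤ Ideal.absNorm f := by
    rcases Nat.eq_zero_or_pos (Ideal.absNorm f) with h0 | h0
    · exact absurd (h0 ▸ dvd_zero p) hf
    · exact h0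
  choose ρ hρ using fun j => exists_red (h.deg j) hp (h.nu j)
  obtain ⟨ψ, F, hψ, hF1, hF2, hdec⟩ := exists_dirJ h hf hρ hχ
  choose I hI hco hC b o κ G hκ ho hS hrel using
    exists_dataG h hf hρ hψ hF1 hF2 hdec (hB J P p ν ρ h hρ)
  have hχn : ∀ C, ‖χ (I C)‖ = 1 := fun C => hχ.norm _ (hco C)
  have hχ0 : ∀ C, χ (I C) ≠ 0 := by
    intro C h1
    have := hχn C
    rw [h1, norm_zero] at this
    exact zero_ne_one this
  have hbot : χ ⊥ = 0 := by
    refine hχ.zero _ fun h1 => ?_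
    rw [Ideal.isCoprime_iff_sup_eq, bot_sup_eq] at h1
    exact mo_ne_top h h1
  set Lt : ℝ → ℂ → ℂ := fun t0 s => ∑ C : ClassGroup (𝓞 K), ((χ (I C))⁻¹ *
    (Ideal.absNorm (I C) : ℂ) ^ s * (((torsionOrder K : ℂ) * c)⁻¹ *
      (Zf K (s - Complex.I * t0))⁻¹ * (κ C * LamT θ.2 (ThW (b C) (shp θ t0) (G C)) s))) with hLt
  have hd : ∀ t0, DifferentiableOn ℂ (Lt t0) {s | |s.im - t0| < 1} := by
    intro t0
    rw [hLt]
    beta_reduce
    refine DifferentiableOn.fun_sum fun C _ => ?_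
    have h1 := ((hS C).td (shp θ t0)).diff θ.2
    have h2 : DifferentiableOn ℂ (fun s => (Zf K (s - Complex.I * t0))⁻¹) {s | |s.im - t0| < 1} := by
      refine DifferentiableOn.inv ?_ fun s hs => ?_
      · exact ((Zf_diff K).comp (by fun_prop :
          Differentiable ℂ fun s : ℂ => s - Complex.I * t0)).differentiableOn
      · refine Zf_ne K ?_
        have e1 : (s - Complex.I * t0).im = s.im - t0 := by simp
        rw [e1]
        exact le_of_lt hs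
    have h3 : Differentiable ℂ fun s : ℂ => (Ideal.absNorm (I C) : ℂ) ^ s := by
      refine Differentiable.const_cpow differentiable_id (Or.inl ?_)
      have := absNorm_pos' (hI C)
      exact_mod_cast this.ne'
    refine DifferentiableOn.mul ((h3.differentiableOn).const_mul _) ?_
    refine DifferentiableOn.mul (h2.const_mul _) ?_
    exact (h1.differentiableOn).const_mul _
  have hsum : ∀ t0 s, 1 < s.re → |s.im - t0| < 1 →
      HasSum (fun I : Ideal (𝓞 K) => χ I * (Ideal.absNorm I : ℂ) ^ (-s)) (Lt t0 s) := by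
    intro t0 s hs ht
    refine all_hasSum (f := fun J : Ideal (𝓞 K) => χ J * (Ideal.absNorm J : ℂ) ^ (-s)) ?_
      fun C => ?_
    · rw [hbot, zero_mul]
    · exact class_LG (hS C) (hrel C) (hχ0 C) hc0 hc (hI C) (hC C) hs ht
  obtain ⟨L, hL1, hL2, hL3⟩ := glue hd
    (g := fun s => ∑' I : Ideal (𝓞 K), χ I * (Ideal.absNorm I : ℂ) ^ (-s))
    (fun t0 s hs ht => ((hsum t0 s hs ht).tsum_eq).symm)
  refine ⟨L, hL1, fun s hs => ?_, fun k hk hcore t => ?_⟩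
  · rw [hL3 s.im s (by simp)]
    exact hsum s.im s hs (by simp)
  · set s : ℂ := 1 / 2 + t * Complex.I with hs
    have hsi : s.im = t := by simp [hs]
    have hre : s.re = 1 / 2 := by simp [hs]
    rw [hL3 t s (by rw [hsi]; simp)]
    have hsub : s - Complex.I * t = 1 / 2 := by rw [hs]; ring
    rw [hLt]
    beta_reduce
    refine (norm_sum_le _ _).trans ?_
    set Y := Real.log ((p : ℝ) ^ (∑ j, ν j)) + 1 with hY
    have hlQ : 0 ≤ Real.log ((p : ℝ) ^ (∑ j, ν j)) :=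
      Real.log_nonneg (one_le_pow₀ (by exact_mod_cast hp.one_lt.le))
    have hT1 := Tp_one θ
    have h1 : ∀ C : ClassGroup (𝓞 K), ‖(χ (I C))⁻¹ * (Ideal.absNorm (I C) : ℂ) ^ s *
        (((torsionOrder K : ℂ) * c)⁻¹ * (Zf K (s - Complex.I * t))⁻¹ *
        (κ C * LamT θ.2 (ThW (b C) (shp θ t) (G C)) s))‖ ≤
        ((torsionOrder K : ℝ) * c)⁻¹ * ‖Zf K (1 / 2)‖⁻¹ * (C0 * A0) *
        ((Tp θ * (1 + |t|)) ^ (3 * dg K + 1) * (Ideal.absNorm f : ℝ) ^ (3 * dg K) *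
          (√k * Y + 1)) := by
      intro C
      have h2 := hC0 p ν k (Ideal.absNorm f) (I C) (b C) (o C) ψ (G C) (shp θ t) θ.2 s (hS C) hN1
        hk (hcore (o C) (ho C)) hre
      rw [← hY] at h2
      have hI0 := absNorm_pos' (hI C)
      have e1 : ‖(Ideal.absNorm (I C) : ℂ) ^ s‖ = √(Ideal.absNorm (I C)) := by
        have e2 : ((Ideal.absNorm (I C) : ℕ) : ℂ) = (((Ideal.absNorm (I C) : ℕ) : ℝ) : ℂ) := by
          push_cast; rfl
        rw [e2, Complex.norm_cpow_eq_rpow_re_of_pos hI0, hre, Real.sqrt_eq_rpow]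
      have e3 : ‖((torsionOrder K : ℂ) * c)⁻¹‖ = ((torsionOrder K : ℝ) * c)⁻¹ := by
        rw [norm_inv]
        congr 1
        have : ((torsionOrder K : ℂ) * c) = (((torsionOrder K : ℝ) * c : ℝ) : ℂ) := by
          push_cast; rfl
        rw [this, Complex.norm_real, Real.norm_of_nonneg hwc.le]
      rw [norm_mul, norm_mul, norm_inv, hχn, inv_one, one_mul, norm_mul, norm_mul, norm_mul, e1, e3,
        hsub, norm_inv]
      set Λ := ‖LamT θ.2 (ThW (b C) (shp θ t) (G C)) s‖ with hΛ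
      have hΛ0 : 0 ≤ Λ := norm_nonneg _
      have hTs : Tp (shp θ t) ^ (3 * dg K + 1) ≤ A0 * (Tp θ * (1 + |t|)) ^ (3 * dg K + 1) := by
        rw [hA0, ← mul_pow]
        have h5 := Tp_one (shp θ t)
        exact pow_le_pow_left₀ (by linarith) (Tp_shp θ t) _
      have hYY : 0 ≤ √k * Y + 1 := by positivity
      have hsI : 0 ≤ √(Ideal.absNorm (I C) : ℝ) := Real.sqrt_nonneg _
      calc √(Ideal.absNorm (I C)) * (((torsionOrder K : ℝ) * c)⁻¹ * ‖Zf K (1 / 2)‖⁻¹ *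
            (‖κ C‖ * Λ)) ≤ √(Ideal.absNorm (I C)) * (((torsionOrder K : ℝ) * c)⁻¹ *
            ‖Zf K (1 / 2)‖⁻¹ * (1 * Λ)) := by
            have := mul_le_mul_of_nonneg_right (hκ C) hΛ0
            refine mul_le_mul_of_nonneg_left ?_ hsI
            exact mul_le_mul_of_nonneg_left this (by positivity)
        _ = ((torsionOrder K : ℝ) * c)⁻¹ * ‖Zf K (1 / 2)‖⁻¹ * (√(Ideal.absNorm (I C)) * Λ) := by ring
        _ ≤ ((torsionOrder K : ℝ) * c)⁻¹ * ‖Zf K (1 / 2)‖⁻¹ * (C0 * (A0 *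
            (Tp θ * (1 + |t|)) ^ (3 * dg K + 1)) * (Ideal.absNorm f : ℝ) ^ (3 * dg K) *
            (√k * Y + 1)) := by
            refine mul_le_mul_of_nonneg_left (h2.trans ?_) (by positivity)
            refine mul_le_mul_of_nonneg_right ?_ hYY
            refine mul_le_mul_of_nonneg_right ?_ (by positivity)
            exact mul_le_mul_of_nonneg_left hTs hC00.le
        _ = _ := by ring
    refine (sum_le_sum fun C _ => h1 C).trans ?_
    rw [sum_const, card_univ, nsmul_eq_mul]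
    exact le_of_eq (by ring)

end Pool.Agent.T2H29.SW
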