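import Pool.Agent.T2H29.SW.X14
import Pool.Agent.T2H29.SW.V5

/-!
# The two theorems
-/

set_option autoImplicit false
set_option linter.unusedSectionVars false

namespace Pool.Agent.T2H29.SW

open Finset NumberField NumberField.InfinitePlace Module

section
variable {K : Type} [Field K] [NumberField K]

/-- the infinite type, explicitly -/
noncomputable def ityp (k : InfinitePlace K → ℤ) (τ : InfinitePlace K → ℝ) (α : K) : ℂ :=
  ∏ v : InfinitePlace K, (v.embedding α / ((v α : ℝ) : ℂ)) ^ k v *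
    ((v α : ℝ) : ℂ) ^ ((τ v : ℂ) * Complex.I)

lemma infK_ityp (θ : Par (InfinitePlace K)) {α : K} (hα : α ≠ 0) : infK θ α = ityp θ.1 θ.2 α := by
  unfold infK ityp
  refine prod_congr rfl fun w _ => ?_
  rw [uu_eq _ _ (emb_ne hα w), norm_embedding_eq]

end

lemma y_le_exp {y ε : ℝ} (hy : 0 ≤ y) (hε : 0 < ε) : y + 1 ≤ (1 / ε + 1) * Real.exp (ε * y) := by
  have h1 := Real.add_one_le_exp (ε * y)
  have h2 : 1 ≤ Real.exp (ε * y) := Real.one_le_exp_iff.2 (by positivity)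
  have h3 : y ≤ 1 / ε * Real.exp (ε * y) := by
    rw [one_div, inv_mul_eq_div, le_div_iff₀ hε]
    linarith
  linarith

/-- the numerical bound, sub-Weyl -/
lemma num_sw (n : ℕ) (hn : 0 < n) {D : ℝ} (hD : 1 ≤ D) {ε : ℝ} (hε : 0 < ε) :
    ∃ C : ℝ, 0 < C ∧ ∀ (p ν : ℕ), 7 ≤ p → 1 ≤ ν →
    √(7 * 2 ^ n * (ν : ℝ) ^ 2 * D ^ 3 * (p : ℝ) ^ ((19 * ν + 57) / 58 + 6)) *
      (Real.log ((p : ℝ) ^ ν) + 1) + 1 ≤ C * (p : ℝ) ^ 4 * ((p : ℝ) ^ ν) ^ ((19 : ℝ) / 116 + ε) := by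
  obtain ⟨C, hC0, hC⟩ := num_bd n hn hD hε (C1 := 1) zero_le_one
  have hn0 : (0 : ℝ) < n := by exact_mod_cast hn
  have hn1 : (1 : ℝ) ≤ n := by exact_mod_cast hn
  refine ⟨n * C, by positivity, fun p ν hp hν => ?_⟩
  have hp7 : (7 : ℝ) ≤ p := by exact_mod_cast hp
  have hp0 : (0 : ℝ) < p := by linarith
  have hν1 : (1 : ℝ) ≤ ν := by exact_mod_cast hν
  have hlp : 1 ≤ Real.log p := by
    rw [Real.le_log_iff_exp_le hp0]
    have := Real.exp_one_lt_d9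
    linarith
  have h1 := hC p ν hp hν
  rw [Real.log_pow]
  set y := (ν : ℝ) * Real.log p with hy
  have hy1 : 1 ≤ y := by nlinarith
  set S := √(K0 n p ν D) with hS
  have hS0 : 0 ≤ S := Real.sqrt_nonneg _
  have h2 : √(7 * 2 ^ n * (ν : ℝ) ^ 2 * D ^ 3 * (p : ℝ) ^ ((19 * ν + 57) / 58 + 6)) ≤ S := by
    refine Real.sqrt_le_sqrt ?_
    unfold K0
    have : 0 ≤ 2 ^ n * (ν : ℝ) ^ 2 * D ^ 3 * (p : ℝ) ^ ((19 * ν + 57) / 58 + 6) := by positivity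
    nlinarith
  calc _ ≤ S * (y + y) + 1 := by
        have : √(7 * 2 ^ n * (ν : ℝ) ^ 2 * D ^ 3 * (p : ℝ) ^ ((19 * ν + 57) / 58 + 6)) * (y + 1) ≤
          S * (y + y) := mul_le_mul h2 (by linarith) (by linarith) hS0
        linarith
    _ ≤ n * (S * (2 / n * y) + 1) := by
        have e1 : (n : ℝ) * (S * (2 / n * y) + 1) = S * (y + y) + n := by field_simp; ring
        rw [e1]
        linarith
    _ ≤ n * (C * (p : ℝ) ^ 4 * ((p : ℝ) ^ ν) ^ ((19 : ℝ) / 116 + ε)) :=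
        mul_le_mul_of_nonneg_left h1 hn0.le
    _ = _ := by ring

/-- the numerical bound, Weyl -/
lemma num_weyl (J : Type) [Fintype J] (n : ℕ) {B : ℝ} (hB : 1 ≤ B) {ε : ℝ} (hε : 0 < ε) :
    ∃ C : ℝ, 0 < C ∧ ∀ (p : ℕ) (ν : J → ℕ), 3 ≤ p →
    √(16 * 2 ^ (n + Fintype.card J) * B ^ 2 * (∏ j, ((ν j : ℝ) + 1)) *
      (p : ℝ) ^ (∑ j, (ν j / 3 + 3))) * (Real.log ((p : ℝ) ^ (∑ j, ν j)) + 1) + 1 ≤
      C * (p : ℝ) ^ ((3 : ℝ) / 2 * Fintype.card J) *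
        ((p : ℝ) ^ (∑ j, ν j)) ^ ((1 : ℝ) / 6 + ε) := by
  set ε' := ε / 2 with hε'
  have hε'0 : 0 < ε' := by positivity
  set c1 : ℝ := (1 / ε' + 1) ^ Fintype.card J with hc1
  have hc10 : 0 < c1 := by positivity
  refine ⟨√(16 * 2 ^ (n + Fintype.card J) * B ^ 2 * c1) * (1 / ε' + 1) + 1, by positivity,
    fun p ν hp => ?_⟩
  have hp3 : (3 : ℝ) ≤ p := by exact_mod_cast hp
  have hp0 : (0 : ℝ) < p := by linarith
  have hp1 : (1 : ℝ) ≤ p := by linarith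
  have hlp : 1 ≤ Real.log p := by
    rw [Real.le_log_iff_exp_le hp0]
    have := Real.exp_one_lt_d9
    linarith
  set Q := (p : ℝ) ^ (∑ j, ν j) with hQ
  have hQ0 : 0 < Q := by positivity
  have hQ1 : 1 ≤ Q := one_le_pow₀ hp1
  have hlQ : 0 ≤ Real.log Q := Real.log_nonneg hQ1
  have hQe : ∀ a : ℝ, Real.exp (a * Real.log Q) = Q ^ a := by
    intro a
    rw [Real.rpow_def_of_pos hQ0, mul_comm]
  have hlQe : Real.log Q = ∑ j, (ν j : ℝ) * Real.log p := by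
    rw [hQ, Real.log_pow]
    push_cast
    rw [sum_mul]
  -- the divisor function
  have h1 : ∏ j, ((ν j : ℝ) + 1) ≤ c1 * Q ^ ε' := by
    rw [← hQe, hlQe, mul_sum, Real.exp_sum, hc1, ← card_univ, ← prod_const, ← prod_mul_distrib]
    refine prod_le_prod (fun j _ => by positivity) fun j _ => ?_
    have h2 : (ν j : ℝ) ≤ (ν j : ℝ) * Real.log p := le_mul_of_one_le_right (by positivity) hlp
    have h3 := y_le_exp (y := (ν j : ℝ) * Real.log p) (by positivity) hε'0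
    linarith
  have h2 : (p : ℝ) ^ (∑ j, (ν j / 3 + 3)) ≤ Q ^ ((1 : ℝ) / 3) * (p : ℝ) ^ (3 * (Fintype.card J : ℝ)) := by
    rw [hQ, ← Real.rpow_natCast, ← Real.rpow_natCast (p : ℝ) (∑ j, ν j), ← Real.rpow_mul hp0.le,
      ← Real.rpow_add hp0]
    refine Real.rpow_le_rpow_of_exponent_le hp1 ?_
    rw [sum_add_distrib, sum_const, card_univ]
    push_cast
    have h3 : ∑ j, ((ν j / 3 : ℕ) : ℝ) ≤ (∑ j, (ν j : ℝ)) * (1 / 3) := by
      rw [sum_mul]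
      refine sum_le_sum fun j _ => ?_
      have := @Nat.cast_div_le ℝ _ _ _ (ν j) 3
      push_cast at this
      linarith
    rw [smul_eq_mul]
    push_cast
    linarith
  have h3 : √(16 * 2 ^ (n + Fintype.card J) * B ^ 2 * (∏ j, ((ν j : ℝ) + 1)) *
      (p : ℝ) ^ (∑ j, (ν j / 3 + 3))) ≤ √(16 * 2 ^ (n + Fintype.card J) * B ^ 2 * c1) *
      ((p : ℝ) ^ ((3 : ℝ) / 2 * Fintype.card J) * Q ^ ((1 : ℝ) / 6 + ε' / 2)) := by
    refine Real.sqrt_le_iff.2 ⟨by positivity, ?_⟩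
    rw [mul_pow, Real.sq_sqrt (by positivity), mul_pow]
    have e1 : ((p : ℝ) ^ ((3 : ℝ) / 2 * Fintype.card J)) ^ 2 = (p : ℝ) ^ (3 * (Fintype.card J : ℝ)) := by
      rw [← Real.rpow_natCast, ← Real.rpow_mul hp0.le]
      congr 1
      push_cast
      ring
    have e2 : (Q ^ ((1 : ℝ) / 6 + ε' / 2)) ^ 2 = Q ^ ε' * Q ^ ((1 : ℝ) / 3) := by
      rw [← Real.rpow_natCast, ← Real.rpow_mul hQ0.le, ← Real.rpow_add hQ0]
      congr 1
      push_cast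
      ring
    rw [e1, e2]
    calc 16 * 2 ^ (n + Fintype.card J) * B ^ 2 * (∏ j, ((ν j : ℝ) + 1)) *
        (p : ℝ) ^ (∑ j, (ν j / 3 + 3)) ≤ 16 * 2 ^ (n + Fintype.card J) * B ^ 2 * (c1 * Q ^ ε') *
        (Q ^ ((1 : ℝ) / 3) * (p : ℝ) ^ (3 * (Fintype.card J : ℝ))) := by
          refine mul_le_mul ?_ h2 (by positivity) (by positivity)
          exact mul_le_mul_of_nonneg_left h1 (by positivity)
      _ = _ := by ring
  have h4 := y_le_exp hlQ (half_pos hε'0)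
  have h5 : Real.log Q + 1 ≤ (1 / (ε' / 2) + 1) * Real.exp (ε' / 2 * Real.log Q) := h4
  have h5' : Real.log Q + 1 ≤ (1 / ε' + 1) * Q ^ ε' := by
    rw [← hQe]
    exact y_le_exp hlQ hε'0
  have h6 : 1 ≤ (p : ℝ) ^ ((3 : ℝ) / 2 * Fintype.card J) * Q ^ ((1 : ℝ) / 6 + ε) :=
    one_le_mul_of_one_le_of_one_le (Real.one_le_rpow hp1 (by positivity))
      (Real.one_le_rpow hQ1 (by positivity))
  have h7 : Q ^ ((1 : ℝ) / 6 + ε' / 2) * Q ^ ε' ≤ Q ^ ((1 : ℝ) / 6 + ε) := by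
    rw [← Real.rpow_add hQ0]
    refine Real.rpow_le_rpow_of_exponent_le hQ1 ?_
    rw [hε']
    linarith
  set S := √(16 * 2 ^ (n + Fintype.card J) * B ^ 2 * c1) with hS
  have hS0 : 0 ≤ S := Real.sqrt_nonneg _
  calc _ ≤ S * ((p : ℝ) ^ ((3 : ℝ) / 2 * Fintype.card J) * Q ^ ((1 : ℝ) / 6 + ε' / 2)) *
        ((1 / ε' + 1) * Q ^ ε') + 1 := by
        have := mul_le_mul h3 h5' (by positivity) (by positivity)
        linarith
    _ = S * (1 / ε' + 1) * ((p : ℝ) ^ ((3 : ℝ) / 2 * Fintype.card J) *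
        (Q ^ ((1 : ℝ) / 6 + ε' / 2) * Q ^ ε')) + 1 := by ring
    _ ≤ S * (1 / ε' + 1) * ((p : ℝ) ^ ((3 : ℝ) / 2 * Fintype.card J) * Q ^ ((1 : ℝ) / 6 + ε)) +
        (p : ℝ) ^ ((3 : ℝ) / 2 * Fintype.card J) * Q ^ ((1 : ℝ) / 6 + ε) := by
        refine add_le_add ?_ h6
        refine mul_le_mul_of_nonneg_left ?_ (by positivity)
        exact mul_le_mul_of_nonneg_left h7 (by positivity)
    _ = _ := by ring

/-- the parameter -/
lemma par_le {a b : ℝ} (ha : 1 ≤ a) (hb : 1 ≤ b) (n : ℕ) :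
    a ^ (3 * n + 1) * b ^ (3 * n) ≤ (b * a) ^ (3 * n + 1) := by
  rw [mul_pow, mul_comm (b ^ _)]
  refine mul_le_mul_of_nonneg_left ?_ (by positivity)
  exact pow_le_pow_right₀ hb (by omega)

/-- sub-Weyl bound -/
theorem G_thm (K : Type) [Field K] [NumberField K] (ε : ℝ) (hε : 0 < ε) : ∃ C : ℝ, 0 < C ∧
    ∀ (f P : Ideal (𝓞 K)) (p ν : ℕ) (θ : Par (InfinitePlace K)) (χ : Ideal (𝓞 K) →* ℂ),
    p.Prime → 7 ≤ p → Deg1 P p → ¬ p ∣ Ideal.absNorm f → 1 ≤ ν →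
    HeckeG f (fun _ : Unit => P) (fun _ => ν) θ χ → ∃ L : ℂ → ℂ, Differentiable ℂ L ∧
    (∀ s : ℂ, 1 < s.re →
      HasSum (fun I : Ideal (𝓞 K) => χ I * (Ideal.absNorm I : ℂ) ^ (-s)) (L s)) ∧
    ∀ t : ℝ, ‖L (1 / 2 + t * Complex.I)‖ ≤
      C * (Ideal.absNorm f * (Tp θ * (1 + |t|))) ^ (3 * dg K + 1) * (p : ℝ) ^ 4 *
        ((p : ℝ) ^ ν) ^ ((19 : ℝ) / 116 + ε) := by
  obtain ⟨B, C, hB1, hC0, hC⟩ := main_abs K Unit
  have hn : 0 < dg K := NeZero.pos (dg K)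
  set D := max 1 (max (2 * B) (B * (1 + √2 ^ (dg K)))) with hDd
  have hD : DD (dg K) B D := ⟨le_max_left _ _, (le_max_left _ _).trans (le_max_right _ _),
    (le_max_right _ _).trans (le_max_right _ _)⟩
  obtain ⟨Cn, hCn0, hCn⟩ := num_sw (dg K) hn hD.one hε
  refine ⟨C * Cn, by positivity, fun f P p ν θ χ hp hp7 hP hf hν hχ => ?_⟩
  obtain ⟨L, hL1, hL2, hL3⟩ := hC f (fun _ => P) p (fun _ => ν) θ χ
    ⟨hp, fun _ => hP, fun _ _ _ => rfl, fun _ => hν⟩ hf hχ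
  refine ⟨L, hL1, hL2, fun t => ?_⟩
  have hD1 := hD.one
  set k : ℝ := 7 * 2 ^ dg K * (ν : ℝ) ^ 2 * D ^ 3 * (p : ℝ) ^ ((19 * ν + 57) / 58 + 6) with hk
  have h1 := hL3 k (by positivity) (fun o _ => by
    have h2 := core_sw hp hp7 hν (o ()) (B := B) (D := D) (by rw [Fintype.card_fin]; exact hD)
    rw [Fintype.card_fin] at h2
    exact h2) t
  have e1 : ∑ _j : Unit, ν = ν := by simp
  rw [e1] at h1
  have h2 := hCn p ν hp7 hν
  have hN1 : (1 : ℝ) ≤ Ideal.absNorm f := by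
    have : 1 ≤ Ideal.absNorm f := by
      rcases Nat.eq_zero_or_pos (Ideal.absNorm f) with h0 | h0
      · exact absurd (h0 ▸ dvd_zero p) hf
      · exact h0
    exact_mod_cast this
  have hT : 1 ≤ Tp θ * (1 + |t|) :=
    one_le_mul_of_one_le_of_one_le (Tp_one θ) (by linarith [abs_nonneg t])
  refine h1.trans ?_
  calc _ = C * ((Tp θ * (1 + |t|)) ^ (3 * dg K + 1) * (Ideal.absNorm f : ℝ) ^ (3 * dg K)) *
        (√k * (Real.log ((p : ℝ) ^ ν) + 1) + 1) := by ring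
    _ ≤ C * (Ideal.absNorm f * (Tp θ * (1 + |t|))) ^ (3 * dg K + 1) *
        (Cn * (p : ℝ) ^ 4 * ((p : ℝ) ^ ν) ^ ((19 : ℝ) / 116 + ε)) := by
        have h3 : (0 : ℝ) ≤ Real.log ((p : ℝ) ^ ν) :=
          Real.log_nonneg (one_le_pow₀ (by exact_mod_cast hp.one_lt.le))
        refine mul_le_mul ?_ h2 (by positivity) (by positivity)
        exact mul_le_mul_of_nonneg_left (par_le hT hN1 _) hC0.le
    _ = _ := by ring

/-- Weyl bound, several primes -/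
theorem D_thm (K : Type) [Field K] [NumberField K] (J : Type) [Fintype J] [DecidableEq J]
    [Nonempty J] (ε : ℝ) (hε : 0 < ε) : ∃ C : ℝ, 0 < C ∧
    ∀ (f : Ideal (𝓞 K)) (P : J → Ideal (𝓞 K)) (p : ℕ) (ν : J → ℕ) (θ : Par (InfinitePlace K))
    (χ : Ideal (𝓞 K) →* ℂ), PD P p ν → p ≠ 2 → ¬ p ∣ Ideal.absNorm f →
    HeckeG f P ν θ χ → ∃ L : ℂ → ℂ, Differentiable ℂ L ∧
    (∀ s : ℂ, 1 < s.re →
      HasSum (fun I : Ideal (𝓞 K) => χ I * (Ideal.absNorm I : ℂ) ^ (-s)) (L s)) ∧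
    ∀ t : ℝ, ‖L (1 / 2 + t * Complex.I)‖ ≤
      C * (Ideal.absNorm f * (Tp θ * (1 + |t|))) ^ (3 * dg K + 1) *
        (p : ℝ) ^ ((3 : ℝ) / 2 * Fintype.card J) *
        ((p : ℝ) ^ (∑ j, ν j)) ^ ((1 : ℝ) / 6 + ε) := by
  obtain ⟨B, C, hB1, hC0, hC⟩ := main_abs K J
  obtain ⟨Cn, hCn0, hCn⟩ := num_weyl J (dg K) hB1 hε
  refine ⟨C * Cn, by positivity, fun f P p ν θ χ hP hp2 hf hχ => ?_⟩
  obtain ⟨L, hL1, hL2, hL3⟩ := hC f P p ν θ χ hP hf hχ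
  refine ⟨L, hL1, hL2, fun t => ?_⟩
  have hp3 : 3 ≤ p := by
    have := hP.pp.two_le
    omega
  set k : ℝ := 16 * 2 ^ (dg K + Fintype.card J) * B ^ 2 * (∏ j, ((ν j : ℝ) + 1)) *
      (p : ℝ) ^ (∑ j, (ν j / 3 + 3)) with hk
  have h1 := hL3 k (by positivity) (fun o ho => by
    have h2 := core_weyl hP.pp hp2 ho hP.nu B
    rw [Fintype.card_fin] at h2
    exact h2) t
  have h2 := hCn p ν hp3
  have hN1 : (1 : ℝ) ≤ Ideal.absNorm f := by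
    have : 1 ≤ Ideal.absNorm f := by
      rcases Nat.eq_zero_or_pos (Ideal.absNorm f) with h0 | h0
      · exact absurd (h0 ▸ dvd_zero p) hf
      · exact h0
    exact_mod_cast this
  have hT : 1 ≤ Tp θ * (1 + |t|) :=
    one_le_mul_of_one_le_of_one_le (Tp_one θ) (by linarith [abs_nonneg t])
  refine h1.trans ?_
  calc _ = C * ((Tp θ * (1 + |t|)) ^ (3 * dg K + 1) * (Ideal.absNorm f : ℝ) ^ (3 * dg K)) *
        (√k * (Real.log ((p : ℝ) ^ (∑ j, ν j)) + 1) + 1) := by ring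
    _ ≤ C * (Ideal.absNorm f * (Tp θ * (1 + |t|))) ^ (3 * dg K + 1) *
        (Cn * (p : ℝ) ^ ((3 : ℝ) / 2 * Fintype.card J) *
          ((p : ℝ) ^ (∑ j, ν j)) ^ ((1 : ℝ) / 6 + ε)) := by
        have h3 : (0 : ℝ) ≤ Real.log ((p : ℝ) ^ (∑ j, ν j)) :=
          Real.log_nonneg (one_le_pow₀ (by exact_mod_cast hP.pp.one_lt.le))
        refine mul_le_mul ?_ h2 (by positivity) (by positivity)
        exact mul_le_mul_of_nonneg_left (par_le hT hN1 _) hC0.le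
    _ = _ := by ring

end Pool.Agent.T2H29.SW
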