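import Pool.Agent.T2H29.SW.X15

/-!
# The number of primes is at most the degree
-/

set_option autoImplicit false
set_option linter.unusedSectionVars false

namespace Pool.Agent.T2H29.SW

open Finset NumberField NumberField.InfinitePlace Module

variable {K : Type} [Field K] [NumberField K]

lemma PD.card_le {J : Type} [Fintype J] [DecidableEq J] {P : J → Ideal (𝓞 K)} {p : ℕ} {ν : J → ℕ}
    (h : PD P p ν) : Fintype.card J ≤ dg K := by
  choose ρ hρ using fun j => exists_red (h.deg j) h.pp (h.nu j)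
  obtain ⟨b, o, u, ho, -⟩ := exists_basisJ h hρ (I := (⊤ : Ideal (𝓞 K))) top_ne_bot
    (fun j => by rw [Ideal.isCoprime_iff_sup_eq, top_sup_eq])
  have := Fintype.card_le_of_injective o ho
  rwa [Fintype.card_fin] at this

/-- Weyl bound, several primes -/
theorem D_unif (K : Type) [Field K] [NumberField K] (ε : ℝ) (hε : 0 < ε) : ∃ C : ℝ, 0 < C ∧
    ∀ (r : ℕ) (f : Ideal (𝓞 K)) (P : Fin r → Ideal (𝓞 K)) (p : ℕ) (ν : Fin r → ℕ)
    (θ : Par (InfinitePlace K)) (χ : Ideal (𝓞 K) →* ℂ), 0 < r → PD P p ν → p ≠ 2 →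
    ¬ p ∣ Ideal.absNorm f → HeckeG f P ν θ χ → ∃ L : ℂ → ℂ, Differentiable ℂ L ∧
    (∀ s : ℂ, 1 < s.re →
      HasSum (fun I : Ideal (𝓞 K) => χ I * (Ideal.absNorm I : ℂ) ^ (-s)) (L s)) ∧
    ∀ t : ℝ, ‖L (1 / 2 + t * Complex.I)‖ ≤
      C * (Ideal.absNorm f * (Tp θ * (1 + |t|))) ^ (3 * dg K + 1) *
        (p : ℝ) ^ ((3 : ℝ) / 2 * r) * ((p : ℝ) ^ (∑ j, ν j)) ^ ((1 : ℝ) / 6 + ε) := by
  choose C hC0 hC using fun r : ℕ => D_thm K (Fin (r + 1)) ε hε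
  refine ⟨∑ r ∈ range (dg K), C r, ?_, fun r f P p ν θ χ hr hP hp2 hf hχ => ?_⟩
  · exact sum_pos (fun r _ => hC0 r) ⟨0, mem_range.2 (NeZero.pos (dg K))⟩
  have hc := hP.card_le
  rw [Fintype.card_fin] at hc
  obtain ⟨r', rfl⟩ : ∃ r', r = r' + 1 := ⟨r - 1, by omega⟩
  obtain ⟨L, hL1, hL2, hL3⟩ := hC r' f P p ν θ χ hP hp2 hf hχ
  refine ⟨L, hL1, hL2, fun t => (hL3 t).trans ?_⟩
  rw [Fintype.card_fin]
  have h1 : C r' ≤ ∑ r ∈ range (dg K), C r :=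
    single_le_sum (fun r _ => (hC0 r).le) (mem_range.2 (by omega))
  have hT : 1 ≤ Tp θ * (1 + |t|) :=
    one_le_mul_of_one_le_of_one_le (Tp_one θ) (by linarith [abs_nonneg t])
  gcongr

end Pool.Agent.T2H29.SW
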