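import Pool.Agent.T2H29.SW.X1

/-!
# The characters `(z/|z|)^k |z|^(i t)` and the test functions
-/

set_option autoImplicit false
set_option linter.unusedSectionVars false

namespace Pool.Agent.T2H29.SW

open Finset MeasureTheory Module
open scoped ContDiff RealInnerProductSpace FourierTransform

/-- the character `(z/|z|)^k |z|^(i t)` -/
noncomputable def uu (k : ℤ) (t : ℝ) (z : ℂ) : ℂ :=
  z ^ k * Complex.exp ((Complex.I * t - k) * ((Real.log (z.re ^ 2 + z.im ^ 2) / 2 : ℝ) : ℂ))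

lemma log_half {z : ℂ} : Real.log (z.re ^ 2 + z.im ^ 2) / 2 = Real.log ‖z‖ := by
  have h1 : z.re ^ 2 + z.im ^ 2 = ‖z‖ ^ 2 := by
    rw [Complex.sq_norm, Complex.normSq_apply]; ring
  rw [h1, Real.log_pow]
  push_cast
  ring

lemma uu_norm_of {k : ℤ} {t : ℝ} {z : ℂ} (hz : z ≠ 0) : ‖uu k t z‖ = 1 := by
  unfold uu
  rw [log_half, norm_mul, norm_zpow, Complex.norm_exp, Complex.re_mul_ofReal]
  have h0 : 0 < ‖z‖ := norm_pos_iff.2 hz
  have h1 : (Complex.I * t - k).re = -(k : ℝ) := by simp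
  rw [h1, ← Real.rpow_intCast]
  nth_rewrite 1 [← Real.exp_log h0]
  rw [← Real.exp_mul, ← Real.exp_add]
  have : Real.log ‖z‖ * k + -(k : ℝ) * Real.log ‖z‖ = 0 := by ring
  rw [this, Real.exp_zero]

lemma uu_norm (k : ℤ) (t : ℝ) (z : ℂ) : ‖uu k t z‖ ≤ 1 := by
  by_cases hz : z = 0
  · unfold uu
    rw [hz]
    by_cases hk : k = 0
    · rw [hk]; simp
    · rw [zero_zpow _ hk]; simp
  · exact (uu_norm_of hz).le

lemma uu_mul {k : ℤ} {t : ℝ} {z w : ℂ} (hz : z ≠ 0) (hw : w ≠ 0) :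
    uu k t (z * w) = uu k t z * uu k t w := by
  unfold uu
  rw [log_half, log_half, log_half, norm_mul, Real.log_mul (norm_ne_zero_iff.2 hz)
    (norm_ne_zero_iff.2 hw), mul_zpow]
  push_cast
  rw [mul_add, Complex.exp_add]
  ring

lemma uu_pos {k : ℤ} {t : ℝ} {r : ℝ} (hr : 0 < r) :
    uu k t (r : ℂ) = Complex.exp (Complex.I * t * (Real.log r : ℝ)) := by
  unfold uu
  rw [log_half, Complex.norm_real, Real.norm_of_nonneg hr.le, sub_mul, Complex.exp_sub]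
  have h1 : (r : ℂ) ^ k = Complex.exp (k * (Real.log r : ℝ)) := by
    rw [Complex.exp_int_mul, ← Complex.ofReal_exp, Real.exp_log hr]
  rw [h1]
  have := Complex.exp_ne_zero (k * (Real.log r : ℝ))
  field_simp

lemma uu_add (k : ℤ) (t t' : ℝ) {z : ℂ} (hz : z ≠ 0) :
    uu k (t + t') z = uu k t z * Complex.exp (Complex.I * t' * (Real.log ‖z‖ : ℝ)) := by
  unfold uu
  rw [log_half, mul_assoc, ← Complex.exp_add]
  congr 2
  push_cast
  ring

/-- relation with the usual form -/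
lemma uu_eq (k : ℤ) (t : ℝ) {z : ℂ} (hz : z ≠ 0) :
    uu k t z = (z / (‖z‖ : ℝ)) ^ k * ((‖z‖ : ℝ) : ℂ) ^ ((t : ℂ) * Complex.I) := by
  have h0 : 0 < ‖z‖ := norm_pos_iff.2 hz
  have h1 : ((‖z‖ : ℝ) : ℂ) ≠ 0 := by exact_mod_cast h0.ne'
  unfold uu
  rw [log_half, sub_mul, Complex.exp_sub, div_zpow, Complex.cpow_def_of_ne_zero h1,
    ← Complex.ofReal_log h0.le]
  have h2 : ((‖z‖ : ℝ) : ℂ) ^ k = Complex.exp (k * (Real.log ‖z‖ : ℝ)) := by
    rw [Complex.exp_int_mul, ← Complex.ofReal_exp, Real.exp_log h0]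
  rw [h2]
  have e1 : Complex.I * t * (Real.log ‖z‖ : ℝ) = (Real.log ‖z‖ : ℝ) * ((t : ℂ) * Complex.I) := by ring
  rw [e1]
  ring

/-- the derivative -/
lemma uu_deriv (k : ℤ) (t : ℝ) {z : ℂ} (hz : z ≠ 0) : ∃ u' : ℂ →L[ℝ] ℂ,
    HasFDerivAt (uu k t) u' z ∧ ∀ w, u' w = uu k t z * (k * (w / z) +
      (Complex.I * t - k) * (((w / z).re : ℝ) : ℂ)) := by
  have hq : z.re ^ 2 + z.im ^ 2 ≠ 0 := by
    have h1 : z.re ^ 2 + z.im ^ 2 = ‖z‖ ^ 2 := by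
      rw [Complex.sq_norm, Complex.normSq_apply]; ring
    rw [h1]
    exact pow_ne_zero _ (norm_ne_zero_iff.2 hz)
  obtain ⟨a1, h1, ha1⟩ : ∃ a : ℂ →L[ℝ] ℂ, HasFDerivAt (fun z : ℂ => z ^ k) a z ∧
      ∀ w, a w = k * z ^ (k - 1) * w :=
    ⟨_, (hasDerivAt_zpow k z (Or.inl hz)).hasFDerivAt.restrictScalars ℝ, fun w => by
      simp; ring⟩
  have hre : HasFDerivAt (fun z : ℂ => z.re) Complex.reCLM z := Complex.reCLM.hasFDerivAt
  have him : HasFDerivAt (fun z : ℂ => z.im) Complex.imCLM z := Complex.imCLM.hasFDerivAt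
  obtain ⟨a2, h2, ha2⟩ : ∃ a : ℂ →L[ℝ] ℝ, HasFDerivAt (fun z : ℂ => z.re ^ 2 + z.im ^ 2) a z ∧
      ∀ w, a w = 2 * (z.re * w.re + z.im * w.im) :=
    ⟨_, (hre.pow 2).add (him.pow 2), fun w => by simp; ring⟩
  obtain ⟨a3, h3, ha3⟩ : ∃ a : ℂ →L[ℝ] ℝ,
      HasFDerivAt (fun z : ℂ => Real.log (z.re ^ 2 + z.im ^ 2) / 2) a z ∧
      ∀ w, a w = (z.re * w.re + z.im * w.im) / (z.re ^ 2 + z.im ^ 2) := by
    refine ⟨_, (h2.log hq).mul_const (1 / 2 : ℝ) |>.congr_of_eventuallyEq ?_, fun w => ?_⟩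
    · exact Filter.Eventually.of_forall fun y => by ring
    · simp only [ContinuousLinearMap.smul_apply, smul_eq_mul, ha2]
      field_simp
  obtain ⟨a4, h4, ha4⟩ : ∃ a : ℂ →L[ℝ] ℂ,
      HasFDerivAt (fun z : ℂ => ((Real.log (z.re ^ 2 + z.im ^ 2) / 2 : ℝ) : ℂ)) a z ∧
      ∀ w, a w = (((z.re * w.re + z.im * w.im) / (z.re ^ 2 + z.im ^ 2) : ℝ) : ℂ) :=
    ⟨_, Complex.ofRealCLM.hasFDerivAt.comp z h3, fun w => by simp [ha3]⟩
  have h6 := (h4.const_mul (Complex.I * t - k)).cexp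
  have h7 := h1.mul h6
  refine ⟨_, h7, fun w => ?_⟩
  have hwz : (w / z).re = (z.re * w.re + z.im * w.im) / (z.re ^ 2 + z.im ^ 2) := by
    rw [Complex.div_re, Complex.normSq_apply, ← add_div]
    congr 1
    · ring
    · ring
  have hzk : z ^ (k - 1) = z ^ k / z := by rw [zpow_sub_one₀ hz]; rfl
  unfold uu
  rw [hwz]
  simp only [ContinuousLinearMap.add_apply, ContinuousLinearMap.smul_apply, smul_eq_mul, ha1, ha4]
  rw [hzk]
  field_simp
  ring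

end Pool.Agent.T2H29.SW
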