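import Pool.Agent.T2H29.SW.X2

/-!
# The test functions
-/

set_option autoImplicit false
set_option linter.unusedSectionVars false

namespace Pool.Agent.T2H29.SW

open Finset MeasureTheory Module
open scoped ContDiff RealInnerProductSpace FourierTransform

/-- a bump function -/
noncomputable def bmp : ContDiffBump (1 : ℝ) := ⟨1 / 4, 1 / 2, by norm_num, by norm_num⟩

lemma bmp_supp {x : ℝ} (h : bmp x ≠ 0) : 1 / 2 < x ∧ x < 3 / 2 := by
  have h1 : x ∈ Function.support (bmp : ℝ → ℝ) := h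
  rw [bmp.support_eq, Metric.mem_ball, Real.dist_eq, abs_lt] at h1
  have h2 : bmp.rOut = 1 / 2 := rfl
  rw [h2] at h1
  constructor <;> linarith [h1.1, h1.2]

variable {ι : Type} [Fintype ι] [DecidableEq ι] {Pl : Type} [Fintype Pl]

/-- linear forms -/
structure LF (lam : Pl → (EuclideanSpace ℝ ι →L[ℝ] ℂ)) : Prop where
  bd : ∃ C : ℝ, ∀ v, ‖v‖ ^ 2 ≤ C * ∑ w, ‖lam w v‖ ^ 2

variable {lam : Pl → (EuclideanSpace ℝ ι →L[ℝ] ℂ)}

/-- the smooth factor -/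
noncomputable def G0 (lam : Pl → (EuclideanSpace ℝ ι →L[ℝ] ℂ)) (v : EuclideanSpace ℝ ι) : ℂ :=
  (((∏ w, bmp (‖lam w v‖ ^ 2)) * Real.exp (Real.pi * ‖v‖ ^ 2) : ℝ) : ℂ)

/-- the domain -/
def Ud (lam : Pl → (EuclideanSpace ℝ ι →L[ℝ] ℂ)) : Set (EuclideanSpace ℝ ι) :=
  {v | ∀ w, lam w v ≠ 0}

lemma G0_CI (h : LF lam) : CI (Ud lam) (G0 lam) := by
  obtain ⟨C, hC⟩ := h.bd
  set Kc : Set (EuclideanSpace ℝ ι) := {v | ∀ w, 1 / 2 ≤ ‖lam w v‖ ^ 2 ∧ ‖lam w v‖ ^ 2 ≤ 3 / 2} with hK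
  have hclosed : IsClosed Kc := by
    have : Kc = ⋂ w, ({v | 1 / 2 ≤ ‖lam w v‖ ^ 2} ∩ {v | ‖lam w v‖ ^ 2 ≤ 3 / 2}) := by
      ext v
      simp [hK]
    rw [this]
    refine isClosed_iInter fun w => ?_
    refine (isClosed_le continuous_const ?_).inter (isClosed_le ?_ continuous_const)
    · exact ((lam w).continuous.norm).pow 2
    · exact ((lam w).continuous.norm).pow 2
  have hsup : Function.support (G0 lam) ⊆ Kc := by
    intro v hv w
    have h1 : bmp (‖lam w v‖ ^ 2) ≠ 0 := by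
      intro h0
      apply hv
      unfold G0
      rw [prod_eq_zero (mem_univ w) h0]
      simp
    obtain ⟨h2, h3⟩ := bmp_supp h1
    exact ⟨h2.le, h3.le⟩
  have hts : tsupport (G0 lam) ⊆ Kc := closure_minimal hsup hclosed
  have hbdd : Bornology.IsBounded Kc := by
    rw [isBounded_iff_forall_norm_le]
    refine ⟨√(|C| * (Fintype.card Pl * (3 / 2))), fun v hv => ?_⟩
    refine Real.le_sqrt_of_sq_le ((hC v).trans ?_)
    have h1 : ∑ w, ‖lam w v‖ ^ 2 ≤ Fintype.card Pl * (3 / 2) := by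
      refine (sum_le_card_nsmul univ _ (3 / 2) fun w _ => (hv w).2).trans ?_
      rw [card_univ, nsmul_eq_mul]
    have h2 : 0 ≤ ∑ w, ‖lam w v‖ ^ 2 := sum_nonneg fun w _ => by positivity
    calc C * ∑ w, ‖lam w v‖ ^ 2 ≤ |C| * ∑ w, ‖lam w v‖ ^ 2 :=
          mul_le_mul_of_nonneg_right (le_abs_self C) h2
      _ ≤ _ := mul_le_mul_of_nonneg_left h1 (abs_nonneg _)
  have hcomp : IsCompact Kc := Metric.isCompact_of_isClosed_isBounded hclosed hbdd
  refine ⟨?_, ?_, ?_⟩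
  · unfold G0
    refine Complex.ofRealCLM.contDiff.comp ?_
    refine ContDiff.mul ?_ ?_
    · refine contDiff_prod fun w _ => ?_
      exact bmp.contDiff.comp ((lam w).contDiff.norm_sq ℝ)
    · exact Real.contDiff_exp.comp (contDiff_const.mul (contDiff_id.norm_sq ℝ))
  · exact hcomp.of_isClosed_subset (isClosed_tsupport _) hts
  · intro v hv w h0
    have h1 := (hts hv w).1
    rw [h0] at h1
    norm_num at h1

/-- the parameters -/
abbrev Par (Pl : Type) : Type := (Pl → ℤ) × (Pl → ℝ)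

/-- their size -/
noncomputable def Tp (θ : Par Pl) : ℝ := 1 + ∑ w, (|(θ.1 w : ℝ)| + |θ.2 w|)

lemma Tp_one (θ : Par Pl) : 1 ≤ Tp θ := by
  unfold Tp
  have : 0 ≤ ∑ w, (|(θ.1 w : ℝ)| + |θ.2 w|) := sum_nonneg fun w _ => by positivity
  linarith

/-- the angular part -/
noncomputable def up (lam : Pl → (EuclideanSpace ℝ ι →L[ℝ] ℂ)) (θ : Par Pl)
    (v : EuclideanSpace ℝ ι) : ℂ := ∏ w, uu (θ.1 w) (θ.2 w) (lam w v)

/-- the coefficients -/
noncomputable def cf (θ : Par Pl) : Pl ⊕ Pl → ℂ :=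
  Sum.elim (fun w => (θ.1 w : ℂ)) (fun w => Complex.I * θ.2 w - θ.1 w)

/-- the functions -/
noncomputable def bf (lam : Pl → (EuclideanSpace ℝ ι →L[ℝ] ℂ)) :
    Pl ⊕ Pl → EuclideanSpace ℝ ι → EuclideanSpace ℝ ι → ℂ :=
  Sum.elim (fun w v x => lam w v / lam w x) (fun w v x => (((lam w v / lam w x).re : ℝ) : ℂ))

lemma up_Fam (lam : Pl → (EuclideanSpace ℝ ι →L[ℝ] ℂ)) :
    Fam (up lam) (Tp (Pl := Pl)) (Ud lam) cf (bf lam) := by
  classical
  refine ⟨?_, Tp_one, ?_, ?_, ?_, ?_⟩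
  · have : Ud lam = ⋂ w, {v | lam w v ≠ 0} := by
      ext v
      simp [Ud]
    rw [this]
    exact isOpen_iInter_of_finite fun w => isOpen_ne_fun (lam w).continuous continuous_const
  · intro θ x
    unfold up
    rw [norm_prod]
    exact prod_le_one (fun _ _ => norm_nonneg _) fun w _ => uu_norm _ _ _
  · intro θ x hx
    have h1 := fun w => uu_deriv (θ.1 w) (θ.2 w) (hx w)
    choose u' hu1 hu2 using h1
    have h2 : ∀ w ∈ (univ : Finset Pl), HasFDerivAt (fun x => uu (θ.1 w) (θ.2 w) (lam w x))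
        ((u' w).comp (lam w)) x := fun w _ => (hu1 w).comp x (lam w).hasFDerivAt
    have h3 := HasFDerivAt.finsetProd h2
    refine ⟨_, h3, fun v => ?_⟩
    unfold up
    simp only [ContinuousLinearMap.sum_apply, ContinuousLinearMap.smul_apply,
      ContinuousLinearMap.comp_apply, smul_eq_mul, hu2]
    rw [Fintype.sum_sum_type, mul_add, mul_sum, mul_sum, ← sum_add_distrib]
    refine sum_congr rfl fun w _ => ?_
    have e1 : ∏ w, uu (θ.1 w) (θ.2 w) (lam w x) =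
        (∏ j ∈ univ.erase w, uu (θ.1 j) (θ.2 j) (lam j x)) * uu (θ.1 w) (θ.2 w) (lam w x) :=
      (prod_erase_mul _ _ (mem_univ w)).symm
    rw [e1]
    simp only [cf, bf, Sum.elim_inl, Sum.elim_inr]
    ring
  · intro l v
    have h1 : ∀ w, ContDiffOn ℝ ∞ (fun x => lam w v / lam w x) (Ud lam) := by
      intro w
      have h2 : ContDiffOn ℝ ∞ (fun x => (lam w x)⁻¹) (Ud lam) :=
        (lam w).contDiff.contDiffOn.inv fun x hx => hx w
      simp_rw [div_eq_mul_inv]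
      exact contDiffOn_const.mul h2
    rcases l with w | w
    · exact h1 w
    · have h3 : ContDiffOn ℝ ∞ (fun x => Complex.reCLM (lam w v / lam w x)) (Ud lam) :=
        Complex.reCLM.contDiff.comp_contDiffOn (h1 w)
      exact Complex.ofRealCLM.contDiff.comp_contDiffOn h3
  · intro θ l
    have h0 : ∀ w, |(θ.1 w : ℝ)| + |θ.2 w| ≤ Tp θ := by
      intro w
      unfold Tp
      have := single_le_sum (f := fun w => |(θ.1 w : ℝ)| + |θ.2 w|) (fun w _ => by positivity)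
        (mem_univ w)
      linarith
    rcases l with w | w
    · simp only [cf, Sum.elim_inl]
      have e1 : ‖((θ.1 w : ℤ) : ℂ)‖ = |(θ.1 w : ℝ)| := by
        rw [Complex.norm_intCast]
      rw [e1]
      linarith [h0 w, abs_nonneg (θ.2 w)]
    · simp only [cf, Sum.elim_inr]
      refine (norm_sub_le _ _).trans ?_
      rw [norm_mul, Complex.norm_I, one_mul, Complex.norm_real, Real.norm_eq_abs,
        Complex.norm_intCast]
      linarith [h0 w]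

/-- the weight -/
noncomputable def Wt (lam : Pl → (EuclideanSpace ℝ ι →L[ℝ] ℂ)) (θ : Par Pl)
    (v : EuclideanSpace ℝ ι) : ℂ :=
  ∏ w, (uu (θ.1 w) (θ.2 w) (lam w v) * ((bmp (‖lam w v‖ ^ 2) : ℝ) : ℂ))

/-- its Fourier transform, normalised -/
noncomputable def gh (lam : Pl → (EuclideanSpace ℝ ι →L[ℝ] ℂ)) (θ : Par Pl) :
    EuclideanSpace ℝ ι → ℂ := FT fun x => up lam θ x * G0 lam x

lemma Wt_eq (h : LF lam) (θ : Par Pl) (v : EuclideanSpace ℝ ι) : Wt lam θ v =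
    ((Real.exp (-(Real.pi * ‖v‖ ^ 2)) : ℝ) : ℂ) * ∫ ξ, gh lam θ ξ * e ⟪ξ, v⟫ := by
  unfold gh
  rw [← (up_Fam lam).inv (G0_CI h) θ v]
  unfold Wt up G0
  rw [prod_mul_distrib]
  have e1 : Real.exp (-(Real.pi * ‖v‖ ^ 2)) * Real.exp (Real.pi * ‖v‖ ^ 2) = 1 := by
    rw [← Real.exp_add, neg_add_cancel, Real.exp_zero]
  have e2 : ((Real.exp (-(Real.pi * ‖v‖ ^ 2)) : ℝ) : ℂ) * ((Real.exp (Real.pi * ‖v‖ ^ 2) : ℝ) : ℂ) = 1 := by
    exact_mod_cast e1
  rw [Complex.ofReal_mul, Complex.ofReal_prod]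
  linear_combination (-(∏ w, uu (θ.1 w) (θ.2 w) (lam w v)) * ∏ w, ((bmp (‖lam w v‖ ^ 2) : ℝ) : ℂ)) * e2

lemma Wt_norm (θ : Par Pl) (v : EuclideanSpace ℝ ι) : ‖Wt lam θ v‖ ≤ 1 := by
  unfold Wt
  rw [norm_prod]
  refine prod_le_one (fun _ _ => norm_nonneg _) fun w _ => ?_
  rw [norm_mul, Complex.norm_real, Real.norm_of_nonneg bmp.nonneg]
  exact mul_le_one₀ (uu_norm _ _ _) bmp.nonneg bmp.le_one

lemma Wt_supp {θ : Par Pl} {v : EuclideanSpace ℝ ι} (hv : Wt lam θ v ≠ 0) (w : Pl) :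
    1 / 2 < ‖lam w v‖ ^ 2 ∧ ‖lam w v‖ ^ 2 < 3 / 2 := by
  refine bmp_supp fun h0 => hv ?_
  unfold Wt
  refine prod_eq_zero (mem_univ w) ?_
  rw [h0]
  simp

theorem gh_main (h : LF lam) (N : ℕ) : ∃ C : ℝ, 0 ≤ C ∧ ∀ θ, Continuous (gh lam θ) ∧
      Integrable (fun ξ => ‖gh lam θ ξ‖ * (1 + ‖ξ‖) ^ N) ∧
      ∫ ξ, ‖gh lam θ ξ‖ * (1 + ‖ξ‖) ^ N ≤ C * Tp θ ^ (N + Fintype.card ι + 1) := by
  obtain ⟨C, h0, h1⟩ := (up_Fam lam).main N (G0_CI h)
  rw [finrank_euclideanSpace] at h1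
  exact ⟨C, h0, h1⟩

/-- the vector attached to a lattice point -/
noncomputable def vc (A : Matrix ι ι ℝ) (z : ι → ℤ) : EuclideanSpace ℝ ι :=
  WithLp.toLp 2 (A.mulVec (cz z))

lemma vc_norm (A : Matrix ι ι ℝ) (z : ι → ℤ) : ‖vc A z‖ ^ 2 = q A (cz z) := by
  rw [EuclideanSpace.norm_sq_eq]
  unfold q vc
  refine sum_congr rfl fun i _ => ?_
  simp

lemma vc_inner (A : Matrix ι ι ℝ) (z : ι → ℤ) (ξ : EuclideanSpace ℝ ι) :
    e ⟪ξ, vc A z⟫ = ee (A.transpose.mulVec ξ.ofLp) z := by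
  unfold ee
  congr 1
  have h1 : ⟪ξ, vc A z⟫ = ∑ i, ξ i * (A.mulVec (cz z)) i := by
    rw [PiLp.inner_apply]
    refine sum_congr rfl fun i _ => ?_
    simp [vc, mul_comm]
  rw [h1]
  have h2 : ∑ i, ξ i * (A.mulVec (cz z)) i = dotProduct ξ.ofLp (A.mulVec (cz z)) := rfl
  rw [h2, Matrix.dotProduct_mulVec, Matrix.mulVec_transpose]
  rfl

/-- the sum -/
noncomputable def TW (lam : Pl → (EuclideanSpace ℝ ι →L[ℝ] ℂ)) (θ : Par Pl) (A : Matrix ι ι ℝ)
    (F : (ι → ℤ) → ℂ) : ℂ := ∑' z, Wt lam θ (vc A z) * F z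

theorem TW_le (h : LF lam) (θ : Par Pl) {A : Matrix ι ι ℝ} (hA : A.det ≠ 0) {F : (ι → ℤ) → ℂ}
    {bF : ℝ} (hF : ∀ z, ‖F z‖ ≤ bF) {N : ℕ} {k : ℝ} (hk : 0 ≤ k)
    (hG : ∀ ξ : EuclideanSpace ℝ ι, ‖GS A 0 (fun z => ee (A.transpose.mulVec ξ.ofLp) z * F z)‖ ≤
      k * (1 + ‖ξ‖) ^ N) :
    (Summable fun z => Wt lam θ (vc A z) * F z) ∧
    ‖TW lam θ A F‖ ≤ k * ∫ ξ, ‖gh lam θ ξ‖ * (1 + ‖ξ‖) ^ N := by
  obtain ⟨C0, -, hC0⟩ := gh_main h 0
  obtain ⟨C, -, hC⟩ := gh_main h N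
  obtain ⟨hc, hi, -⟩ := hC θ
  have hbF : 0 ≤ bF := (norm_nonneg _).trans (hF 0)
  have hi0 : Integrable (gh lam θ) := by
    have : Integrable fun ξ => ‖gh lam θ ξ‖ := by
      refine (hC0 θ).2.1.congr (Filter.Eventually.of_forall fun ξ => ?_)
      simp
    exact (integrable_norm_iff hc.aestronglyMeasurable).1 this
  set I0 := ∫ ξ, ‖gh lam θ ξ‖ with hI0
  -- the functions
  set H : (ι → ℤ) → EuclideanSpace ℝ ι → ℂ := fun z ξ =>
    gh lam θ ξ * ((gs A 0 z : ℂ) * (e ⟪ξ, vc A z⟫ * F z)) with hH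
  have hnorm : ∀ z ξ, ‖H z ξ‖ ≤ ‖gh lam θ ξ‖ * (gs A 0 z * bF) := by
    intro z ξ
    simp only [hH]
    rw [norm_mul, norm_mul, norm_mul, e_norm, one_mul, Complex.norm_real,
      Real.norm_of_nonneg (gs_pos _ _ _).le]
    refine mul_le_mul_of_nonneg_left ?_ (norm_nonneg _)
    exact mul_le_mul_of_nonneg_left (hF z) (gs_pos _ _ _).le
  have hHc : ∀ z, Continuous (H z) := by
    intro z
    simp only [hH]
    refine hc.mul (continuous_const.mul ((e_continuous.comp ?_).mul continuous_const))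
    fun_prop
  have hHi : ∀ z, Integrable (H z) := fun z =>
    (hi0.norm.mul_const (gs A 0 z * bF)).mono' (hHc z).aestronglyMeasurable
      (Filter.Eventually.of_forall fun ξ => hnorm z ξ)
  have hsumn : Summable fun z => ∫ ξ, ‖H z ξ‖ := by
    refine Summable.of_nonneg_of_le (fun z => integral_nonneg fun ξ => norm_nonneg _)
      (fun z => ?_) ((gs_summable hA (0 : ι → ℝ)).mul_left (I0 * bF))
    calc ∫ ξ, ‖H z ξ‖ ≤ ∫ ξ, ‖gh lam θ ξ‖ * (gs A 0 z * bF) :=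
          integral_mono (hHi z).norm (hi0.norm.mul_const _) (hnorm z)
      _ = I0 * bF * gs A 0 z := by rw [integral_mul_const]; ring
  have hs := hasSum_integral_of_summable_integral_norm hHi hsumn
  -- the value of the integrals
  have hval : ∀ z, ∫ ξ, H z ξ = Wt lam θ (vc A z) * F z := by
    intro z
    rw [Wt_eq h, vc_norm]
    have e1 : ∀ ξ, H z ξ = (gh lam θ ξ * e ⟪ξ, vc A z⟫) * ((gs A 0 z : ℂ) * F z) := by
      intro ξ
      simp only [hH]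
      ring
    simp_rw [e1]
    rw [integral_mul_const]
    have e2 : Real.exp (-(Real.pi * q A (cz z))) = gs A 0 z := by
      unfold gs
      rw [sub_zero]
    rw [e2]
    ring
  simp_rw [hval] at hs
  refine ⟨hs.summable, ?_⟩
  unfold TW
  rw [hs.tsum_eq]
  have e3 : ∀ ξ, ∑' z, H z ξ = gh lam θ ξ * GS A 0 (fun z => ee (A.transpose.mulVec ξ.ofLp) z * F z) := by
    intro ξ
    unfold GS
    rw [← tsum_mul_left]
    refine tsum_congr fun z => ?_
    simp only [hH]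
    rw [vc_inner]
  simp_rw [e3]
  rw [← integral_const_mul]
  refine norm_integral_le_of_norm_le (hi.const_mul k) (Filter.Eventually.of_forall fun ξ => ?_)
  rw [norm_mul]
  calc ‖gh lam θ ξ‖ * ‖GS A 0 (fun z => ee (A.transpose.mulVec ξ.ofLp) z * F z)‖ ≤
      ‖gh lam θ ξ‖ * (k * (1 + ‖ξ‖) ^ N) := mul_le_mul_of_nonneg_left (hG ξ) (norm_nonneg _)
    _ = _ := by ring

end Pool.Agent.T2H29.SW
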