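import Pool.Agent.T2H29.SW.X3

/-!
# Bounds for the weighted sums
-/

set_option autoImplicit false
set_option linter.unusedSectionVars false

namespace Pool.Agent.T2H29.SW

open Finset MeasureTheory Module
open scoped RealInnerProductSpace
open Pool.Agent.Y779.R3 (not_unit_pi)

variable {ι : Type} [Fintype ι] [DecidableEq ι] {J : Type} [Fintype J] [DecidableEq J]

lemma gauss_decay (K : ℕ) : ∃ C : ℝ, 0 < C ∧ ∀ a : ℝ, 0 ≤ a →
    Real.exp (-(Real.pi / 2 * a ^ 2)) * (1 + a) ^ (2 * K) ≤ C := by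
  refine ⟨2 ^ K * (K.factorial * Real.exp 1), by positivity, fun a ha => ?_⟩
  have hf : (0 : ℝ) < K.factorial := by exact_mod_cast K.factorial_pos
  have h1 : (1 + a) ^ 2 ≤ 2 * (1 + a ^ 2) := by nlinarith [sq_nonneg (a - 1)]
  have h2 : (1 + a ^ 2) ^ K ≤ K.factorial * Real.exp (1 + a ^ 2) := by
    have := Real.pow_div_factorial_le_exp (1 + a ^ 2) (by positivity) K
    rw [div_le_iff₀ hf] at this
    linarith
  have h3 : Real.exp (1 + a ^ 2) ≤ Real.exp 1 * Real.exp (Real.pi / 2 * a ^ 2) := by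
    rw [← Real.exp_add, Real.exp_le_exp]
    have : a ^ 2 ≤ Real.pi / 2 * a ^ 2 := by
      have := Real.pi_gt_three
      nlinarith [sq_nonneg a]
    linarith
  have h4 : (1 + a) ^ (2 * K) ≤ 2 ^ K * (K.factorial * (Real.exp 1 * Real.exp (Real.pi / 2 * a ^ 2))) := by
    rw [pow_mul]
    calc ((1 + a) ^ 2) ^ K ≤ (2 * (1 + a ^ 2)) ^ K := pow_le_pow_left₀ (by positivity) h1 K
      _ = 2 ^ K * (1 + a ^ 2) ^ K := mul_pow _ _ _
      _ ≤ _ := by
          refine mul_le_mul_of_nonneg_left (h2.trans ?_) (by positivity)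
          exact mul_le_mul_of_nonneg_left h3 hf.le
  calc Real.exp (-(Real.pi / 2 * a ^ 2)) * (1 + a) ^ (2 * K) ≤ Real.exp (-(Real.pi / 2 * a ^ 2)) *
        (2 ^ K * (K.factorial * (Real.exp 1 * Real.exp (Real.pi / 2 * a ^ 2)))) :=
        mul_le_mul_of_nonneg_left h4 (Real.exp_pos _).le
    _ = 2 ^ K * (K.factorial * Real.exp 1) * (Real.exp (-(Real.pi / 2 * a ^ 2)) *
        Real.exp (Real.pi / 2 * a ^ 2)) := by ring
    _ = _ := by rw [← Real.exp_add, neg_add_cancel, Real.exp_zero, mul_one]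

/-- the setting for the finite part -/
structure Tame (p : ℕ) (o : J → ι) (ν : J → ℕ) (Nf : ℕ) (ψ : ∀ j, DirichletCharacter ℂ (p ^ ν j))
    (F : (ι → ℤ) → ℂ) : Prop where
  pp : p.Prime
  nu : ∀ j, 1 ≤ ν j
  inj : Function.Injective o
  ne : Nonempty J
  prim : ∀ j, (ψ j).IsPrimitive
  cop : ¬ p ∣ Nf
  ex : ∃ c : (ι → ℤ) → ℂ, (∀ β, ‖c β‖ ≤ 1) ∧ ∀ z, F z = ∑ β ∈ CC (fun _ : ι => Nf),
    c β * (ee (fun i => (β i : ℝ) / Nf) z * Fc o ψ z)

lemma Tame.pos {p : ℕ} {o : J → ι} {ν : J → ℕ} {Nf : ℕ} {ψ : ∀ j, DirichletCharacter ℂ (p ^ ν j)}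
    {F : (ι → ℤ) → ℂ} (h : Tame p o ν Nf ψ F) : 1 ≤ Nf := by
  rcases Nat.eq_zero_or_pos Nf with h0 | h0
  · exact absurd (h0 ▸ dvd_zero p) h.cop
  · exact h0

/-- the sum with a phase, large `M` -/
theorem ph_tail [Nonempty ι] (B : ℝ) (N : ℕ) : ∃ C : ℝ, 0 < C ∧ ∀ (p : ℕ) (o : J → ι)
    (ν : J → ℕ) (Nf : ℕ) (ψ : ∀ j, DirichletCharacter ℂ (p ^ ν j)) (A : Matrix ι ι ℝ), p.Prime →
    (∀ j, 1 ≤ ν j) → Function.Injective o → Nonempty J → (∀ j, (ψ j).IsPrimitive) → ¬ p ∣ Nf →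
    A.det ≠ 0 → BalV p o ν B A → (p : ℝ) ^ (∑ j, ν j) ≤ Mv A → ∀ (ξ : EuclideanSpace ℝ ι)
    (β : ι → ℤ), ‖GS A 0 (fun z => ee (A.transpose.mulVec ξ.ofLp + fun i => (β i : ℝ) / Nf) z *
      Fc o ψ z)‖ ≤ C * (Nf * (1 + ‖ξ‖)) ^ (2 * (Fintype.card ι * N)) *
        (Mv A / √((p : ℝ) ^ (∑ j, ν j)) * ((p : ℝ) ^ (∑ j, ν j) / Mv A) ^ (2 * N)) := by
  set n := Fintype.card ι with hn
  have hn1 : 1 ≤ n := Fintype.card_pos
  set κ := Real.exp (-(2 * Real.pi)) / (4 * B ^ 2) with hκ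
  obtain ⟨Cg, hCg0, hCg⟩ := gauss_decay (n * N)
  set C := Cg * ((κ⁻¹) ^ (n * N)) * ((|B| + 1) * (1 + √2 ^ n)) with hC
  by_cases hB0 : B = 0
  · refine ⟨1, one_pos, fun p o ν Nf ψ A hp hν ho hJ hψ hcop hA hBal hM ξ β => ?_⟩
    exfalso
    have h1 := (gs_summable hA (0 : ι → ℝ)).le_tsum 0 (fun z _ => (gs_pos _ _ _).le)
    have h2 := hBal.zero.one 0
    rw [gs_zero] at h1
    rw [hB0, zero_mul] at h2
    linarith
  have hκ0 : 0 < κ := by positivity
  have hC0 : 0 < C := by positivity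
  refine ⟨C, hC0, fun p o ν Nf ψ A hp hν ho hJ hψ hcop hA hBal hM ξ β => ?_⟩
  have hp0 := hp.pos
  have hpR : (0 : ℝ) < p := by exact_mod_cast hp0
  have hNf : 1 ≤ Nf := by
    rcases Nat.eq_zero_or_pos Nf with h0 | h0
    · exact absurd (h0 ▸ dvd_zero p) hcop
    · exact h0
  have hNf0 : (0 : ℝ) < Nf := by exact_mod_cast hNf
  have hMA := Mv_pos hA
  set Q := (p : ℝ) ^ (∑ j, ν j) with hQ
  have hQ0 : 0 < Q := by positivity
  set η : ι → ℝ := A.transpose.mulVec ξ.ofLp + fun i => (β i : ℝ) / Nf with hη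
  have hdual := dual_gen hp0 ho hA 0 η hψ
  set A2 := du (A * dgm (dv p o ν)) with hA2
  have hAd := det_mul_dv_ne hp0 o hA ν
  have hA2d : A2.det ≠ 0 := du_det_ne hAd
  have hMA2 : Mv A2 = Q / Mv A := by
    rw [hA2, Mv_du, Mv_mul, Mv_dv p ho, mul_inv, inv_inv, ← hQ]
    field_simp
  have hMA2p := Mv_pos hA2d
  have hMA21 : Mv A2 ≤ 1 := by rw [hMA2]; exact (div_le_one hMA).2 hM
  have hB2 : BalV p o ν B A2 := hBal.du hp0 hA
  have hBn := hBal.zero.nonneg
  set F2 : (ι → ℤ) → ℂ := fun y => ee (fun i => -((0 : ι → ℝ) i / dv p o ν i)) y *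
    Fc o (fun j => (ψ j)⁻¹) y with hF2
  set c' : ι → ℝ := fun i => dv p o ν i * η i with hc'
  set m := Mv A2 ^ ((n : ℝ)⁻¹) with hm
  have hm0 : 0 < m := Real.rpow_pos_of_pos hMA2p _
  have hmM : m ^ n = Mv A2 := by
    rw [hm, ← Real.rpow_natCast, ← Real.rpow_mul hMA2p.le, inv_mul_cancel₀ (by positivity),
      Real.rpow_one]
  set r := ‖ξ‖ with hr
  have hr0 : 0 ≤ r := norm_nonneg _
  -- the pointwise bound
  set X := Cg * ((κ⁻¹) ^ (n * N)) * (Nf * (1 + r)) ^ (2 * (n * N)) * (m ^ 2) ^ (n * N) with hX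
  have hX0 : 0 ≤ X := by positivity
  have hpt : ∀ y, ‖(gs A2 c' y : ℂ) * F2 y‖ ≤ X * gs ((√2)⁻¹ • A2) c' y := by
    intro y
    by_cases hy : Fc o (fun j => (ψ j)⁻¹) y = 0
    · have : F2 y = 0 := by simp only [hF2]; rw [hy, mul_zero]
      rw [this, mul_zero, norm_zero]
      exact mul_nonneg hX0 (gs_pos _ _ _).le
    · have hF2n : ‖F2 y‖ ≤ 1 := by
        simp only [hF2]
        rw [norm_mul, ee_norm, one_mul]
        exact Fc_norm _ _ _
      rw [norm_mul, Complex.norm_real, Real.norm_of_nonneg (gs_pos _ _ _).le]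
      refine (mul_le_of_le_one_right (gs_pos _ _ _).le hF2n).trans ?_
      -- a nonzero integral vector
      set y' : ι → ℤ := fun i => Nf * y i - dv p o ν i * β i with hy'
      have hy'0 : y' ≠ 0 := by
        intro h0
        obtain ⟨j⟩ := hJ
        apply hy
        unfold Fc Fp
        refine prod_eq_zero (mem_univ j) ?_
        have h1 := congrFun h0 (o j)
        simp only [hy', Pi.zero_apply] at h1
        rw [dv_o p ho] at h1
        have h2 : (p : ℤ) ∣ (Nf : ℤ) * y (o j) := by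
          have : (Nf : ℤ) * y (o j) = ((p ^ ν j : ℕ) : ℤ) * β (o j) := by linarith
          rw [this]
          refine Dvd.dvd.mul_right ?_ _
          push_cast
          exact dvd_pow_self _ (by have := hν j; omega)
        have h3 : (p : ℤ) ∣ y (o j) := by
          rcases (Nat.prime_iff_prime_int.1 hp).dvd_or_dvd h2 with h4 | h4
          · exact absurd (by exact_mod_cast h4) hcop
          · exact h4
        obtain ⟨k, hk⟩ := h3
        haveI : NeZero (p ^ ν j) := ⟨by positivity⟩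
        refine MulChar.map_nonunit _ ?_
        rw [hk]
        push_cast
        exact not_unit_pi hp (hν j) _
      have hsep := sep hA2d hB2.zero hy'0 hm0 (by rw [← hn]; exact hmM)
      rw [← hκ] at hsep
      -- the vectors
      set w : EuclideanSpace ℝ ι := (Nf : ℝ)⁻¹ • vc A2 y' with hw
      have hwn : ‖w‖ ^ 2 = q A2 (cz y') / Nf ^ 2 := by
        rw [hw, norm_smul, mul_pow, vc_norm, norm_inv, Real.norm_of_nonneg hNf0.le]
        field_simp
      have hdc : A2.mulVec (fun i => dv p o ν i * (A.transpose.mulVec ξ.ofLp) i) = ξ.ofLp := by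
        have e1 : (fun i => (dv p o ν i : ℝ) * (A.transpose.mulVec ξ.ofLp) i) =
            (A * dgm (dv p o ν)).transpose.mulVec ξ.ofLp := by
          rw [Matrix.transpose_mul, ← Matrix.mulVec_mulVec]
          have e2 : (dgm (dv p o ν)).transpose = dgm (dv p o ν) := by
            unfold dgm
            rw [Matrix.diagonal_transpose]
          rw [e2, dgm_mulVec]
        rw [e1, Matrix.mulVec_mulVec, hA2]
        unfold du
        rw [← Matrix.transpose_mul, Matrix.mul_nonsing_inv _ (isUnit_iff_ne_zero.2 hAd),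
          Matrix.transpose_one, Matrix.one_mulVec]
      have hvec : A2.mulVec (cz y - c') = (w - ξ).ofLp := by
        have e1 : cz y - c' = (Nf : ℝ)⁻¹ • cz y' -
            (fun i => (dv p o ν i : ℝ) * (A.transpose.mulVec ξ.ofLp) i) := by
          funext i
          simp only [hc', hη, hy', cz, Pi.sub_apply, Pi.smul_apply, Pi.add_apply, smul_eq_mul]
          push_cast
          field_simp
          ring
        rw [e1, Matrix.mulVec_sub, Matrix.mulVec_smul, hdc]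
        rfl
      have hq : q A2 (cz y - c') = ‖w - ξ‖ ^ 2 := by
        unfold q
        rw [hvec, EuclideanSpace.norm_sq_eq]
        refine sum_congr rfl fun i _ => ?_
        rw [Real.norm_eq_abs, sq_abs]
      set a := ‖w - ξ‖ with ha
      have ha0 : 0 ≤ a := norm_nonneg _
      have hwar : ‖w‖ ≤ (1 + a) * (1 + r) := by
        have h1 : ‖w‖ ≤ a + r := by
          have : w = (w - ξ) + ξ := by abel
          calc ‖w‖ = ‖(w - ξ) + ξ‖ := by rw [← this]
            _ ≤ _ := norm_add_le _ _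
        nlinarith
      -- `κ / (m Nf)^2 ≤ ((1 + a) (1 + r))^2`
      have h5 : κ / m ^ 2 / Nf ^ 2 ≤ ((1 + a) * (1 + r)) ^ 2 := by
        calc κ / m ^ 2 / Nf ^ 2 ≤ q A2 (cz y') / Nf ^ 2 :=
              div_le_div_of_nonneg_right hsep (by positivity)
          _ = ‖w‖ ^ 2 := hwn.symm
          _ ≤ _ := pow_le_pow_left₀ (norm_nonneg _) hwar 2
      have h6 : 1 ≤ κ⁻¹ * ((Nf * (1 + r)) ^ 2 * m ^ 2) * (1 + a) ^ 2 := by
        rw [div_div, div_le_iff₀ (by positivity)] at h5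
        have : κ⁻¹ * κ ≤ κ⁻¹ * (((1 + a) * (1 + r)) ^ 2 * (m ^ 2 * Nf ^ 2)) :=
          mul_le_mul_of_nonneg_left h5 (by positivity)
        rw [inv_mul_cancel₀ hκ0.ne'] at this
        calc (1 : ℝ) ≤ _ := this
          _ = _ := by ring
      have h7 : 1 ≤ (κ⁻¹) ^ (n * N) * (Nf * (1 + r)) ^ (2 * (n * N)) * (m ^ 2) ^ (n * N) *
          (1 + a) ^ (2 * (n * N)) := by
        calc (1 : ℝ) ≤ (κ⁻¹ * ((Nf * (1 + r)) ^ 2 * m ^ 2) * (1 + a) ^ 2) ^ (n * N) := one_le_pow₀ h6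
          _ = _ := by
              rw [mul_pow, mul_pow, mul_pow, pow_mul (Nf * (1 + r)) 2 (n * N),
                pow_mul (1 + a) 2 (n * N)]
              ring
      have h8 : gs A2 c' y = Real.exp (-(Real.pi / 2 * a ^ 2)) * gs ((√2)⁻¹ • A2) c' y := by
        unfold gs
        rw [q_smul, hq, inv_pow, Real.sq_sqrt (by norm_num), ← Real.exp_add]
        congr 1
        ring
      have h9 : Real.exp (-(Real.pi / 2 * a ^ 2)) ≤ X := by
        calc Real.exp (-(Real.pi / 2 * a ^ 2)) ≤ Real.exp (-(Real.pi / 2 * a ^ 2)) *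
              ((κ⁻¹) ^ (n * N) * (Nf * (1 + r)) ^ (2 * (n * N)) * (m ^ 2) ^ (n * N) *
              (1 + a) ^ (2 * (n * N))) := le_mul_of_one_le_right (Real.exp_pos _).le h7
          _ = (Real.exp (-(Real.pi / 2 * a ^ 2)) * (1 + a) ^ (2 * (n * N))) *
              ((κ⁻¹) ^ (n * N) * (Nf * (1 + r)) ^ (2 * (n * N)) * (m ^ 2) ^ (n * N)) := by ring
          _ ≤ Cg * ((κ⁻¹) ^ (n * N) * (Nf * (1 + r)) ^ (2 * (n * N)) * (m ^ 2) ^ (n * N)) :=
              mul_le_mul_of_nonneg_right (hCg a ha0) (by positivity)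
          _ = X := by rw [hX]; ring
      rw [h8]
      exact mul_le_mul_of_nonneg_right h9 (gs_pos _ _ _).le
  have hA3 : ((√2)⁻¹ • A2).det ≠ 0 := smul_det_ne (by positivity) hA2d
  have h1 : ‖GS A2 c' F2‖ ≤ X * (B * (1 + √2 ^ n)) := by
    unfold GS
    refine (tsum_of_norm_bounded ((gs_summable hA3 c').mul_left X).hasSum hpt).trans ?_
    rw [tsum_mul_left]
    refine mul_le_mul_of_nonneg_left ?_ hX0
    refine (hB2.zero _ (by positivity) c').trans ?_
    rw [Mv_smul (by positivity), inv_pow, div_inv_eq_mul, ← hn]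
    refine mul_le_mul_of_nonneg_left ?_ hBn
    have : 0 ≤ √2 ^ n := by positivity
    have : Mv A2 * √2 ^ n ≤ 1 * √2 ^ n := mul_le_mul_of_nonneg_right hMA21 this
    linarith
  -- conclusion
  have hmN : (m ^ 2) ^ (n * N) = (Q / Mv A) ^ (2 * N) := by
    rw [← pow_mul, ← hMA2, ← hmM, ← pow_mul]
    congr 1
    ring
  have h2 : ‖GS A 0 (fun z => ee η z * Fc o ψ z)‖ ^ 2 ≤
      (Mv A / √Q * (X * (B * (1 + √2 ^ n)))) ^ 2 := by
    rw [hdual, mul_pow, div_pow, Real.sq_sqrt hQ0.le]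
    exact mul_le_mul_of_nonneg_left (pow_le_pow_left₀ (norm_nonneg _) h1 2) (by positivity)
  have h3 := le_of_pow_le_pow_left₀ two_ne_zero (by positivity) h2
  refine h3.trans ?_
  rw [hX, hmN]
  calc Mv A / √Q * (Cg * κ⁻¹ ^ (n * N) * (Nf * (1 + r)) ^ (2 * (n * N)) * (Q / Mv A) ^ (2 * N) *
        (B * (1 + √2 ^ n))) = (Cg * κ⁻¹ ^ (n * N) * (B * (1 + √2 ^ n))) *
        (Nf * (1 + r)) ^ (2 * (n * N)) * (Mv A / √Q * (Q / Mv A) ^ (2 * N)) := by ring
    _ ≤ C * (Nf * (1 + r)) ^ (2 * (n * N)) * (Mv A / √Q * (Q / Mv A) ^ (2 * N)) := by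
        refine mul_le_mul_of_nonneg_right ?_ (by positivity)
        refine mul_le_mul_of_nonneg_right ?_ (by positivity)
        rw [hC]
        refine mul_le_mul_of_nonneg_left ?_ (by positivity)
        refine mul_le_mul_of_nonneg_right ?_ (by positivity)
        linarith [le_abs_self B]

end Pool.Agent.T2H29.SW
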