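import Pool.Agent.T2H29.SW.X4

/-!
# Bounds for the weighted sums, continued
-/

set_option autoImplicit false
set_option linter.unusedSectionVars false

namespace Pool.Agent.T2H29.SW

open Finset MeasureTheory Module
open scoped RealInnerProductSpace

variable {ι : Type} [Fintype ι] [DecidableEq ι] {J : Type} [Fintype J] [DecidableEq J]
  {Pl : Type} [Fintype Pl] {lam : Pl → (EuclideanSpace ℝ ι →L[ℝ] ℂ)}

section
variable {p : ℕ} {o : J → ι} {ν : J → ℕ} {Nf : ℕ} {ψ : ∀ j, DirichletCharacter ℂ (p ^ ν j)}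
  {F : (ι → ℤ) → ℂ}

lemma CC_card' (Nf : ℕ) : ((CC (fun _ : ι => Nf)).card : ℝ) = (Nf : ℝ) ^ Fintype.card ι := by
  rw [CC_card, prod_const, card_univ]

lemma Tame.bdd (h : Tame p o ν Nf ψ F) (z : ι → ℤ) : ‖F z‖ ≤ (Nf : ℝ) ^ Fintype.card ι := by
  obtain ⟨c, hc, hF⟩ := h.ex
  rw [hF, ← CC_card']
  refine (norm_sum_le _ _).trans ((sum_le_card_nsmul _ _ 1 fun β _ => ?_).trans (by simp))
  rw [norm_mul, norm_mul, ee_norm, one_mul]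
  exact mul_le_one₀ (hc β) (norm_nonneg _) (Fc_norm o ψ z)

lemma Tame.GS_le' (h : Tame p o ν Nf ψ F) {A : Matrix ι ι ℝ} (hA : A.det ≠ 0) (η : ι → ℝ) {K : ℝ}
    (hK : ∀ β : ι → ℤ, ‖GS A 0 (fun z => ee (η + fun i => (β i : ℝ) / Nf) z * Fc o ψ z)‖ ≤ K) :
    ‖GS A 0 (fun z => ee η z * F z)‖ ≤ (Nf : ℝ) ^ Fintype.card ι * K := by
  obtain ⟨c, hc, hF⟩ := h.ex
  have hb : ∀ (β z : ι → ℤ), ‖ee (η + fun i => (β i : ℝ) / Nf) z * Fc o ψ z‖ ≤ 1 := by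
    intro β z
    rw [norm_mul, ee_norm, one_mul]
    exact Fc_norm o ψ z
  have e1 : GS A 0 (fun z => ee η z * F z) = ∑ β ∈ CC (fun _ : ι => Nf),
      c β * GS A 0 (fun z => ee (η + fun i => (β i : ℝ) / Nf) z * Fc o ψ z) := by
    unfold GS
    have hs : ∀ β ∈ CC (fun _ : ι => Nf), Summable fun z : ι → ℤ => c β * ((gs A 0 z : ℂ) *
        (ee (η + fun i => (β i : ℝ) / Nf) z * Fc o ψ z)) := fun β _ =>
      ((norm_gs_sum_le hA 0 (hb β)).1).mul_left _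
    simp_rw [← tsum_mul_left]
    rw [← Summable.tsum_finsetSum hs]
    refine tsum_congr fun z => ?_
    rw [hF, mul_sum, mul_sum]
    refine sum_congr rfl fun β _ => ?_
    rw [ee_add']
    ring
  have hK0 : 0 ≤ K := (norm_nonneg _).trans (hK 0)
  rw [e1, ← CC_card']
  refine (norm_sum_le _ _).trans ((sum_le_card_nsmul _ _ K fun β _ => ?_).trans ?_)
  · rw [norm_mul]
    calc ‖c β‖ * _ ≤ 1 * K := mul_le_mul (hc β) (hK β) (norm_nonneg _) zero_le_one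
      _ = K := one_mul K
  · rw [nsmul_eq_mul]

end

/-- the bound for all `M` -/
theorem TW_all (h : LF lam) : ∃ C : ℝ, 0 ≤ C ∧ ∀ (B k : ℝ) (θ : Par Pl) (p : ℕ) (o : J → ι)
    (ν : J → ℕ) (Nf : ℕ) (ψ : ∀ j, DirichletCharacter ℂ (p ^ ν j)) (F : (ι → ℤ) → ℂ)
    (A : Matrix ι ι ℝ), 0 ≤ k → Core p o ν B k → Tame p o ν Nf ψ F → A.det ≠ 0 →
    BalV p o ν B A → (Summable fun z => Wt lam θ (vc A z) * F z) ∧
    ‖TW lam θ A F‖ ≤ C * Tp θ ^ (Fintype.card ι + 1) * ((Nf : ℝ) ^ Fintype.card ι *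
      √(k * (1 + Mv A + Mv A ^ 2 / (p : ℝ) ^ (∑ j, ν j)))) := by
  obtain ⟨C, hC0, hC⟩ := gh_main h 0
  refine ⟨C, hC0, fun B k θ p o ν Nf ψ F A hk hcore hT hA hBal => ?_⟩
  have hp0 := hT.pp.pos
  have hG : ∀ ξ : EuclideanSpace ℝ ι, ‖GS A 0 (fun z => ee (A.transpose.mulVec ξ.ofLp) z * F z)‖ ≤
      ((Nf : ℝ) ^ Fintype.card ι * √(k * (1 + Mv A + Mv A ^ 2 / (p : ℝ) ^ (∑ j, ν j)))) *
        (1 + ‖ξ‖) ^ 0 := by
    intro ξ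
    rw [pow_zero, mul_one]
    refine hT.GS_le' hA _ fun β => ?_
    refine Real.le_sqrt_of_sq_le ?_
    exact hcore.all hp0 hT.inj hk hA hBal hT.prim 0 _
  obtain ⟨h1, h2⟩ := TW_le h θ hA hT.bdd (by positivity) hG
  refine ⟨h1, h2.trans ?_⟩
  have h3 := (hC θ).2.2
  rw [zero_add] at h3
  calc _ ≤ ((Nf : ℝ) ^ Fintype.card ι * √(k * (1 + Mv A + Mv A ^ 2 / (p : ℝ) ^ (∑ j, ν j)))) *
        (C * Tp θ ^ (Fintype.card ι + 1)) := mul_le_mul_of_nonneg_left h3 (by positivity)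
    _ = _ := by ring

/-- the bound for large `M` -/
theorem TW_tail [Nonempty ι] (h : LF lam) (B : ℝ) (N : ℕ) : ∃ C : ℝ, 0 ≤ C ∧ ∀ (θ : Par Pl) (p : ℕ)
    (o : J → ι) (ν : J → ℕ) (Nf : ℕ) (ψ : ∀ j, DirichletCharacter ℂ (p ^ ν j)) (F : (ι → ℤ) → ℂ)
    (A : Matrix ι ι ℝ), Tame p o ν Nf ψ F → A.det ≠ 0 →
    BalV p o ν B A → (p : ℝ) ^ (∑ j, ν j) ≤ Mv A →
    ‖TW lam θ A F‖ ≤ C * Tp θ ^ (2 * (Fintype.card ι * N) + Fintype.card ι + 1) *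
      (Nf : ℝ) ^ (Fintype.card ι + 2 * (Fintype.card ι * N)) *
      (Mv A / √((p : ℝ) ^ (∑ j, ν j)) * ((p : ℝ) ^ (∑ j, ν j) / Mv A) ^ (2 * N)) := by
  obtain ⟨C, hC0, hC⟩ := gh_main h (2 * (Fintype.card ι * N))
  obtain ⟨Ct, hCt0, hCt⟩ := ph_tail (ι := ι) (J := J) B N
  refine ⟨Ct * C, by positivity, fun θ p o ν Nf ψ F A hT hA hBal hM => ?_⟩
  have hMA := Mv_pos hA
  set Y := Mv A / √((p : ℝ) ^ (∑ j, ν j)) * ((p : ℝ) ^ (∑ j, ν j) / Mv A) ^ (2 * N) with hY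
  have hY0 : 0 ≤ Y := by positivity
  set n := Fintype.card ι with hn
  have hG : ∀ ξ : EuclideanSpace ℝ ι, ‖GS A 0 (fun z => ee (A.transpose.mulVec ξ.ofLp) z * F z)‖ ≤
      ((Nf : ℝ) ^ n * (Ct * (Nf : ℝ) ^ (2 * (n * N)) * Y)) * (1 + ‖ξ‖) ^ (2 * (n * N)) := by
    intro ξ
    have h1 := hT.GS_le' hA (A.transpose.mulVec ξ.ofLp) (K := Ct * (Nf * (1 + ‖ξ‖)) ^ (2 * (n * N)) * Y)
      (fun β => hCt p o ν Nf ψ A hT.pp hT.nu hT.inj hT.ne hT.prim hT.cop hA hBal hM ξ β)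
    refine h1.trans (le_of_eq ?_)
    rw [mul_pow]
    ring
  obtain ⟨-, h2⟩ := TW_le h θ hA hT.bdd (by positivity) hG
  refine h2.trans ?_
  calc _ ≤ ((Nf : ℝ) ^ n * (Ct * (Nf : ℝ) ^ (2 * (n * N)) * Y)) *
        (C * Tp θ ^ (2 * (n * N) + n + 1)) := mul_le_mul_of_nonneg_left (hC θ).2.2 (by positivity)
    _ = _ := by rw [pow_add (Nf : ℝ) n]; ring

end Pool.Agent.T2H29.SW
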