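import Pool.Agent.T2H29.SW.X5
import Pool.Agent.T2H29.SW.N17

/-!
# The linear forms of a number field and the Mellin transforms
-/

set_option autoImplicit false
set_option linter.unusedSectionVars false

namespace Pool.Agent.T2H29.SW

open Finset NumberField NumberField.InfinitePlace NumberField.mixedEmbedding Module MeasureTheory
open scoped RealInnerProductSpace

variable (K : Type) [Field K] [NumberField K]

/-- the coordinate space -/
abbrev EK : Type := EuclideanSpace ℝ (Fin (dg K))

open scoped Classical in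
/-- the linear forms -/
noncomputable def lamK (w : InfinitePlace K) : EK K →L[ℝ] ℂ :=
  if h : IsReal w then
    Complex.ofRealCLM.comp (EuclideanSpace.proj ((eI K).symm (Sum.inl ⟨w, h⟩)))
  else
    (√2)⁻¹ • (Complex.ofRealCLM.comp (EuclideanSpace.proj
      ((eI K).symm (Sum.inr (⟨w, not_isReal_iff_isComplex.1 h⟩, 0)))) +
      Complex.I • Complex.ofRealCLM.comp (EuclideanSpace.proj
      ((eI K).symm (Sum.inr (⟨w, not_isReal_iff_isComplex.1 h⟩, 1)))))

open scoped Classical in
lemma lamK_real {w : InfinitePlace K} (h : IsReal w) (v : EK K) :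
    lamK K w v = ((v ((eI K).symm (Sum.inl ⟨w, h⟩)) : ℝ) : ℂ) := by
  unfold lamK
  rw [dif_pos h]
  rfl

open scoped Classical in
lemma lamK_complex {w : InfinitePlace K} (h : IsComplex w) (v : EK K) :
    lamK K w v = (((√2)⁻¹ : ℝ) : ℂ) * (((v ((eI K).symm (Sum.inr (⟨w, h⟩, 0))) : ℝ) : ℂ) +
      Complex.I * ((v ((eI K).symm (Sum.inr (⟨w, h⟩, 1))) : ℝ) : ℂ)) := by
  unfold lamK
  rw [dif_neg (not_isReal_iff_isComplex.2 h)]
  simp only [ContinuousLinearMap.smul_apply, ContinuousLinearMap.add_apply,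
    ContinuousLinearMap.comp_apply, Complex.ofRealCLM_apply, Complex.real_smul, smul_eq_mul]
  rfl

open scoped Classical in
lemma lamK_norm (v : EK K) : ‖v‖ ^ 2 = ∑ w, (mult w : ℝ) * ‖lamK K w v‖ ^ 2 := by
  rw [EuclideanSpace.norm_sq_eq]
  have e1 : ∑ i, ‖v i‖ ^ 2 = ∑ j : index K, ‖v ((eI K).symm j)‖ ^ 2 :=
    ((eI K).symm.sum_comp fun i => ‖v i‖ ^ 2).symm
  rw [e1]
  refine sum_index K _ _ ?_ ?_
  · intro w
    rw [lamK_real K w.2, mult_isReal, Complex.norm_real]
    simp
  · intro w
    have e2 : ∀ a c : ℝ, ‖(((√2)⁻¹ : ℝ) : ℂ) * ((a : ℂ) + Complex.I * (c : ℂ))‖ ^ 2 =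
        (a ^ 2 + c ^ 2) / 2 := by
      intro a c
      rw [norm_mul, mul_pow, Complex.norm_real, norm_inv, Real.norm_of_nonneg (by positivity),
        inv_pow, Real.sq_sqrt (by norm_num), mul_comm Complex.I, Complex.sq_norm,
        Complex.normSq_add_mul_I]
      ring
    rw [lamK_complex K w.2, mult_isComplex, e2, Real.norm_eq_abs, Real.norm_eq_abs, sq_abs, sq_abs]
    push_cast
    ring

lemma lamK_LF : LF (lamK K) := by
  refine ⟨2, fun v => ?_⟩
  rw [lamK_norm, mul_sum]
  refine sum_le_sum fun w _ => ?_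
  have : (mult w : ℝ) ≤ 2 := by
    unfold InfinitePlace.mult
    split_ifs <;> norm_num
  exact mul_le_mul_of_nonneg_right this (by positivity)

variable {K}

open scoped Classical in
lemma lamK_vc {I : Ideal (𝓞 K)} (b : Basis (Fin (dg K)) ℤ I) (x : LS K) (z : Fin (dg K) → ℤ)
    (w : InfinitePlace K) : lamK K w (vc (AX b x) z) =
      ((Real.exp (UU K x w / 2) : ℝ) : ℂ) * w.embedding (el b z : K) := by
  have hX : ∀ w : InfinitePlace K, √(Real.exp (UU K x w)) = Real.exp (UU K x w / 2) := by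
    intro w
    rw [Real.exp_half]
  have hv : ∀ i, (vc (AX b x) z) i = Real.exp (UU K x (plc K i) / 2) * co K i (el b z : K) := by
    intro i
    show (AX b x).mulVec (cz z) i = _
    unfold AX
    rw [MX_mulVec, hX]
  by_cases h : IsReal w
  · rw [lamK_real K h, hv]
    have e1 : plc K ((eI K).symm (Sum.inl ⟨w, h⟩)) = w := by
      unfold plc
      rw [Equiv.apply_symm_apply]
      rfl
    have e2 : co K ((eI K).symm (Sum.inl ⟨w, h⟩)) (el b z : K) =
        embedding_of_isReal h (el b z : K) := by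
      show √(mult (plc K _)) * (stdBasis K).repr (mixedEmbedding K (el b z : K)) (eI K _) = _
      rw [Equiv.apply_symm_apply, e1, mult_isReal ⟨w, h⟩, stdBasis_apply_isReal,
        mixedEmbedding_apply_isReal]
      simp
    rw [e1, e2]
    push_cast
    rw [embedding_of_isReal_apply]
  · have hc := not_isReal_iff_isComplex.1 h
    rw [lamK_complex K hc, hv, hv]
    have e1 : ∀ j, plc K ((eI K).symm (Sum.inr (⟨w, hc⟩, j))) = w := by
      intro j
      unfold plc
      rw [Equiv.apply_symm_apply]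
      rfl
    have e2 : co K ((eI K).symm (Sum.inr (⟨w, hc⟩, 0))) (el b z : K) =
        √2 * (w.embedding (el b z : K)).re := by
      show √(mult (plc K _)) * (stdBasis K).repr (mixedEmbedding K (el b z : K)) (eI K _) = _
      rw [Equiv.apply_symm_apply, e1, mult_isComplex ⟨w, hc⟩, stdBasis_apply_isComplex_fst,
        mixedEmbedding_apply_isComplex]
      norm_num
    have e3 : co K ((eI K).symm (Sum.inr (⟨w, hc⟩, 1))) (el b z : K) =
        √2 * (w.embedding (el b z : K)).im := by
      show √(mult (plc K _)) * (stdBasis K).repr (mixedEmbedding K (el b z : K)) (eI K _) = _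
      rw [Equiv.apply_symm_apply, e1, mult_isComplex ⟨w, hc⟩, stdBasis_apply_isComplex_snd,
        mixedEmbedding_apply_isComplex]
      norm_num
    rw [e1, e1, e2, e3]
    have h2 : (((√2 : ℝ)) : ℂ) ≠ 0 := by
      have : (√2 : ℝ) ≠ 0 := by positivity
      exact_mod_cast this
    conv_rhs => rw [← Complex.re_add_im (w.embedding (el b z : K))]
    push_cast
    field_simp

/-- the weight of an element -/
noncomputable def Wa (θ : Par (InfinitePlace K)) (α : K) (x : LS K) : ℂ :=
  ∏ w, (uu (θ.1 w) (θ.2 w) (((Real.exp (UU K x w / 2) : ℝ) : ℂ) * w.embedding α) *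
    ((bmp (Real.exp (UU K x w) * w α ^ 2) : ℝ) : ℂ))

lemma Wt_el (θ : Par (InfinitePlace K)) {I : Ideal (𝓞 K)} (b : Basis (Fin (dg K)) ℤ I) (x : LS K)
    (z : Fin (dg K) → ℤ) : Wt (lamK K) θ (vc (AX b x) z) = Wa θ (el b z : K) x := by
  unfold Wt Wa
  refine prod_congr rfl fun w _ => ?_
  rw [lamK_vc, norm_mul, Complex.norm_real, Real.norm_of_nonneg (Real.exp_pos _).le,
    norm_embedding_eq, mul_pow, ← Real.exp_nat_mul]
  congr 5
  push_cast
  ring

/-- the infinite type -/
noncomputable def infK (θ : Par (InfinitePlace K)) (α : K) : ℂ :=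
  ∏ w : InfinitePlace K, uu (θ.1 w) (θ.2 w) (w.embedding α)

lemma emb_ne {α : K} (hα : α ≠ 0) (w : InfinitePlace K) : w.embedding α ≠ 0 := by
  rw [map_ne_zero]
  exact hα

lemma infK_mul (θ : Par (InfinitePlace K)) {α β : K} (hα : α ≠ 0) (hβ : β ≠ 0) :
    infK θ (α * β) = infK θ α * infK θ β := by
  unfold infK
  rw [← prod_mul_distrib]
  refine prod_congr rfl fun w _ => ?_
  rw [map_mul, uu_mul (emb_ne hα w) (emb_ne hβ w)]

lemma infK_norm (θ : Par (InfinitePlace K)) {α : K} (hα : α ≠ 0) : ‖infK θ α‖ = 1 := by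
  unfold infK
  rw [norm_prod]
  exact prod_eq_one fun w _ => uu_norm_of (emb_ne hα w)

lemma infK_ne (θ : Par (InfinitePlace K)) {α : K} (hα : α ≠ 0) : infK θ α ≠ 0 := by
  intro h
  have := infK_norm θ hα
  rw [h, norm_zero] at this
  exact zero_ne_one this

lemma infK_one (θ : Par (InfinitePlace K)) : infK θ (1 : K) = 1 := by
  have h := infK_mul θ (one_ne_zero (α := K)) one_ne_zero
  rw [one_mul] at h
  have h2 := infK_ne θ (one_ne_zero (α := K))
  exact (mul_right_cancel₀ h2 (by rw [one_mul]; exact h)).symm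

/-- the parameters of the weight -/
noncomputable def shp (θ : Par (InfinitePlace K)) (t0 : ℝ) : Par (InfinitePlace K) :=
  (θ.1, fun w => θ.2 w - mult w * t0)

lemma Tp_shp (θ : Par (InfinitePlace K)) (t0 : ℝ) :
    Tp (shp θ t0) ≤ (1 + 2 * Fintype.card (InfinitePlace K)) * (Tp θ * (1 + |t0|)) := by
  have h1 : Tp (shp θ t0) ≤ Tp θ + 2 * Fintype.card (InfinitePlace K) * |t0| := by
    unfold Tp shp
    have h2 : ∑ w : InfinitePlace K, (|(θ.1 w : ℝ)| + |θ.2 w - mult w * t0|) ≤
        ∑ w : InfinitePlace K, ((|(θ.1 w : ℝ)| + |θ.2 w|) + 2 * |t0|) := by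
      refine sum_le_sum fun w _ => ?_
      have h3 : |θ.2 w - mult w * t0| ≤ |θ.2 w| + 2 * |t0| := by
        refine (abs_sub _ _).trans ?_
        rw [abs_mul]
        have h4 : |(mult w : ℝ)| ≤ 2 := by
          rw [abs_of_nonneg (by positivity)]
          unfold InfinitePlace.mult
          split_ifs <;> norm_num
        have := mul_le_mul_of_nonneg_right h4 (abs_nonneg t0)
        linarith
      linarith
    have h3 : ∑ w : InfinitePlace K, ((|(θ.1 w : ℝ)| + |θ.2 w|) + 2 * |t0|) =
        ∑ w : InfinitePlace K, (|(θ.1 w : ℝ)| + |θ.2 w|) +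
          2 * Fintype.card (InfinitePlace K) * |t0| := by
      rw [sum_add_distrib, sum_const, card_univ, nsmul_eq_mul]
      ring
    rw [h3] at h2
    linarith
  have hT := Tp_one θ
  have hc : (0 : ℝ) ≤ Fintype.card (InfinitePlace K) := by positivity
  have ht := abs_nonneg t0
  have h3 : 0 ≤ Tp θ * |t0| := by positivity
  have h4 : |t0| ≤ Tp θ * (1 + |t0|) := by nlinarith
  have h5 : Tp θ ≤ Tp θ * (1 + |t0|) := by nlinarith
  calc Tp (shp θ t0) ≤ Tp θ + 2 * Fintype.card (InfinitePlace K) * |t0| := h1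
    _ ≤ Tp θ * (1 + |t0|) + 2 * Fintype.card (InfinitePlace K) * (Tp θ * (1 + |t0|)) :=
        add_le_add h5 (mul_le_mul_of_nonneg_left h4 (by positivity))
    _ = _ := by ring

end Pool.Agent.T2H29.SW
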