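import Pool.Agent.T2H29.SW.X6

/-!
# Mellin transforms of the weights
-/

set_option autoImplicit false
set_option linter.unusedSectionVars false

namespace Pool.Agent.T2H29.SW

open Finset NumberField NumberField.InfinitePlace NumberField.mixedEmbedding Module MeasureTheory
open NumberField.Units
open scoped RealInnerProductSpace

/-- the Mellin transform of the bump function -/
noncomputable def mbi (s : ℂ) (v : ℝ) : ℂ := ((bmp (Real.exp v) : ℝ) : ℂ) * Complex.exp (s * v)

noncomputable def Mb (s : ℂ) : ℂ := ∫ v : ℝ, mbi s v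

lemma bmp_exp_supp {v : ℝ} (h : bmp (Real.exp v) ≠ 0) : |v| ≤ 1 := by
  obtain ⟨h1, h2⟩ := bmp_supp h
  have h3 : Real.exp v < Real.exp 1 := h2.trans (by linarith [Real.exp_one_gt_d9])
  have h4 : Real.exp (-1) < Real.exp v := by
    refine lt_trans ?_ h1
    rw [Real.exp_neg, inv_lt_comm₀ (Real.exp_pos _) (by norm_num)]
    linarith [Real.exp_one_gt_d9]
  rw [Real.exp_lt_exp] at h3 h4
  rw [abs_le]
  constructor <;> linarith

lemma mbi_cont (s : ℂ) : Continuous (mbi s) := by
  unfold mbi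
  refine Continuous.mul ?_ ?_
  · exact Complex.continuous_ofReal.comp (bmp.continuous.comp Real.continuous_exp)
  · fun_prop

lemma mbi_cs (s : ℂ) : HasCompactSupport (mbi s) := by
  refine HasCompactSupport.intro (isCompact_Icc (a := (-1 : ℝ)) (b := 1)) fun v hv => ?_
  unfold mbi
  have : bmp (Real.exp v) = 0 := by
    by_contra h
    have := bmp_exp_supp h
    rw [abs_le] at this
    exact hv this
  rw [this]
  simp

lemma mbi_int (s : ℂ) : Integrable (mbi s) :=
  (mbi_cont s).integrable_of_hasCompactSupport (mbi_cs s)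

lemma Mb_diff : Differentiable ℂ Mb := by
  intro s0
  set F' : ℂ → ℝ → ℂ := fun s v => mbi s v * v with hF'
  have hd := hasDerivAt_integral_of_dominated_loc_of_deriv_le (μ := (volume : Measure ℝ))
    (F := mbi) (F' := F') (x₀ := s0) (s := Metric.ball s0 1)
    (bound := (Set.Icc (-1 : ℝ) 1).indicator fun _ => Real.exp (‖s0‖ + 1))
    (Metric.ball_mem_nhds _ one_pos)
    (Filter.Eventually.of_forall fun s => (mbi_cont s).aestronglyMeasurable) (mbi_int s0) ?_ ?_ ?_ ?_
  · exact hd.2.differentiableAt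
  · exact ((mbi_cont s0).mul Complex.continuous_ofReal).aestronglyMeasurable
  · refine Filter.Eventually.of_forall fun v s hs => ?_
    simp only [hF']
    by_cases hv : v ∈ Set.Icc (-1 : ℝ) 1
    · rw [Set.indicator_of_mem hv]
      have hv1 : |v| ≤ 1 := abs_le.2 hv
      unfold mbi
      rw [norm_mul, norm_mul, Complex.norm_real, Real.norm_of_nonneg bmp.nonneg, Complex.norm_exp,
        Complex.norm_real, Real.norm_eq_abs]
      have h1 : (s * v).re ≤ ‖s0‖ + 1 := by
        have h2 : ‖s‖ ≤ ‖s0‖ + 1 := by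
          rw [Metric.mem_ball, dist_eq_norm] at hs
          have : s = s0 + (s - s0) := by ring
          rw [this]
          exact (norm_add_le _ _).trans (by linarith)
        calc (s * v).re ≤ ‖s * v‖ := Complex.re_le_norm _
          _ = ‖s‖ * |v| := by rw [norm_mul, Complex.norm_real, Real.norm_eq_abs]
          _ ≤ ‖s‖ * 1 := mul_le_mul_of_nonneg_left hv1 (norm_nonneg _)
          _ ≤ _ := by linarith
      have h3 : Real.exp (s * v).re ≤ Real.exp (‖s0‖ + 1) := Real.exp_le_exp.2 h1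
      have hb : bmp (Real.exp v) ≤ 1 := bmp.le_one
      have hb0 : 0 ≤ bmp (Real.exp v) := bmp.nonneg
      calc bmp (Real.exp v) * Real.exp (s * v).re * |v| ≤ 1 * Real.exp (‖s0‖ + 1) * 1 := by
            refine mul_le_mul (mul_le_mul hb h3 (Real.exp_pos _).le zero_le_one) hv1
              (abs_nonneg _) (by positivity)
        _ = _ := by ring
    · rw [Set.indicator_of_notMem hv]
      have : bmp (Real.exp v) = 0 := by
        by_contra h
        have := bmp_exp_supp h
        rw [abs_le] at this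
        exact hv this
      unfold mbi
      rw [this]
      simp
  · rw [integrable_indicator_iff measurableSet_Icc]
    exact integrableOn_const (by rw [Real.volume_Icc]; exact ENNReal.ofReal_ne_top)
  · refine Filter.Eventually.of_forall fun v s _ => ?_
    simp only [hF']
    unfold mbi
    have h1 : HasDerivAt (fun s : ℂ => Complex.exp (s * v)) (Complex.exp (s * v) * (1 * v)) s :=
      ((hasDerivAt_id s).mul_const _).cexp
    have h2 := h1.const_mul ((bmp (Real.exp v) : ℝ) : ℂ)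
    have e1 : ((bmp (Real.exp v) : ℝ) : ℂ) * Complex.exp (s * v) * v =
        ((bmp (Real.exp v) : ℝ) : ℂ) * (Complex.exp (s * v) * (1 * v)) := by ring
    rw [e1]
    exact h2

lemma Mb_re_pos {s : ℂ} (hs : |s.im| ≤ 1) : 0 < (Mb s).re := by
  have h1 : (Mb s).re = ∫ v, (mbi s v).re := by
    unfold Mb
    exact (integral_re (mbi_int s)).symm
  rw [h1]
  have hre : ∀ v : ℝ, (mbi s v).re = bmp (Real.exp v) * (Real.exp (s.re * v) * Real.cos (s.im * v)) := by
    intro v
    unfold mbi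
    rw [Complex.re_ofReal_mul, Complex.exp_re]
    congr 3
    · simp
    · simp
  refine Continuous.integral_pos_of_hasCompactSupport_nonneg_nonzero
    (Complex.continuous_re.comp (mbi_cont s)) ?_ ?_ (x := (0 : ℝ)) ?_
  · exact (mbi_cs s).comp_left (g := Complex.re) rfl
  · intro v
    simp only [Pi.zero_apply, hre]
    by_cases hb : bmp (Real.exp v) = 0
    · rw [hb]; simp
    · have hv := bmp_exp_supp hb
      have h2 : |s.im * v| ≤ 1 := by
        rw [abs_mul]
        exact mul_le_one₀ hs (abs_nonneg _) hv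
      rw [abs_le] at h2
      have hpi := Real.pi_gt_three
      have h3 : 0 ≤ Real.cos (s.im * v) :=
        Real.cos_nonneg_of_mem_Icc ⟨by linarith [h2.1], by linarith [h2.2]⟩
      have h4 : 0 ≤ bmp (Real.exp v) := bmp.nonneg
      positivity
  · simp only [hre]
    have h2 : bmp (Real.exp 0) = 1 := by
      rw [Real.exp_zero]
      refine bmp.one_of_mem_closedBall ?_
      rw [Metric.mem_closedBall, dist_self]
      exact bmp.rIn_pos.le
    rw [h2]
    simp

variable (K : Type) [Field K] [NumberField K]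

/-- the factor at infinity -/
noncomputable def Zf (s : ℂ) : ℂ := ∏ w : InfinitePlace K, Mb (mult w * s / 2)

lemma Zf_diff : Differentiable ℂ (Zf K) := by
  unfold Zf
  refine Differentiable.fun_finset_prod fun w _ => ?_
  exact Mb_diff.comp (by fun_prop)

lemma Zf_ne {s : ℂ} (hs : |s.im| ≤ 1) : Zf K s ≠ 0 := by
  unfold Zf
  refine prod_ne_zero_iff.2 fun w _ h0 => ?_
  have h1 : |((mult w : ℂ) * s / 2).im| ≤ 1 := by
    have e1 : ((mult w : ℂ) * s / 2).im = (mult w : ℝ) * s.im / 2 := by simp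
    rw [e1, abs_div, abs_mul, abs_two]
    have h4 : |(mult w : ℝ)| ≤ 2 := by
      rw [abs_of_nonneg (by positivity)]
      unfold InfinitePlace.mult
      split_ifs <;> norm_num
    have := mul_le_mul h4 hs (abs_nonneg _) (by norm_num)
    linarith
  have h2 := Mb_re_pos h1
  rw [h0] at h2
  simp at h2

variable {K}

/-- the integrand of one place -/
noncomputable def phw (k : ℤ) (t : ℝ) (s : ℂ) (z : ℂ) (u : ℝ) : ℂ :=
  uu k t (((Real.exp (u / 2) : ℝ) : ℂ) * z) * ((bmp (Real.exp u * ‖z‖ ^ 2) : ℝ) : ℂ) *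
    Complex.exp (s * u)

lemma phw_eq (k : ℤ) (t : ℝ) (s : ℂ) {z : ℂ} (hz : z ≠ 0) (u : ℝ) : phw k t s z u =
    uu k t z * Complex.exp (-(2 * (s + Complex.I * t / 2)) * (Real.log ‖z‖ : ℝ)) *
      mbi (s + Complex.I * t / 2) (u + 2 * Real.log ‖z‖) := by
  have h0 : 0 < ‖z‖ := norm_pos_iff.2 hz
  have hne : ((Real.exp (u / 2) : ℝ) : ℂ) ≠ 0 := by exact_mod_cast (Real.exp_pos _).ne'
  unfold phw mbi
  rw [uu_mul hne hz, uu_pos (Real.exp_pos _), Real.log_exp]
  have e1 : Real.exp u * ‖z‖ ^ 2 = Real.exp (u + 2 * Real.log ‖z‖) := by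
    rw [Real.exp_add, two_mul, Real.exp_add, Real.exp_log h0]
    ring
  rw [e1]
  have e2 : Complex.exp (Complex.I * t * ((u / 2 : ℝ) : ℂ)) * Complex.exp (s * u) =
      Complex.exp (-(2 * (s + Complex.I * t / 2)) * (Real.log ‖z‖ : ℝ)) *
      Complex.exp ((s + Complex.I * t / 2) * ((u + 2 * Real.log ‖z‖ : ℝ) : ℂ)) := by
    rw [← Complex.exp_add, ← Complex.exp_add]
    congr 1
    push_cast
    ring
  linear_combination (uu k t z * ((bmp (Real.exp (u + 2 * Real.log ‖z‖)) : ℝ) : ℂ)) * e2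

lemma phw_int (k : ℤ) (t : ℝ) (s : ℂ) {z : ℂ} (hz : z ≠ 0) : Integrable (phw k t s z) ∧
    ∫ u, phw k t s z u = uu k t z * Complex.exp (-(2 * (s + Complex.I * t / 2)) *
      (Real.log ‖z‖ : ℝ)) * Mb (s + Complex.I * t / 2) := by
  have e1 : phw k t s z = fun u => uu k t z * Complex.exp (-(2 * (s + Complex.I * t / 2)) *
      (Real.log ‖z‖ : ℝ)) * mbi (s + Complex.I * t / 2) (u + 2 * Real.log ‖z‖) :=
    funext fun u => phw_eq k t s hz u
  rw [e1]
  constructor
  · exact ((mbi_int _).comp_add_right _).const_mul _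
  · rw [integral_const_mul]
    congr 1
    exact integral_add_right_eq_self (fun u => mbi (s + Complex.I * t / 2) u) _

/-- the integrand of an element -/
lemma Wa_prod (θ : Par (InfinitePlace K)) (s : ℂ) (τ : InfinitePlace K → ℝ) (α : K) (x : LS K) :
    Wa θ α x * WW s τ x = ∏ w, phw (θ.1 w) (θ.2 w) (sw K s τ w) (w.embedding α) (UU K x w) := by
  unfold Wa WW phw
  rw [← prod_mul_distrib]
  refine prod_congr rfl fun w _ => ?_
  rw [norm_embedding_eq]

/-- the integral of an element -/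
theorem Wa_int (θ : Par (InfinitePlace K)) (t0 : ℝ) (s : ℂ) {c : ℝ}
    (hc : ∀ G : (InfinitePlace K → ℝ) → ℂ, (∫ x, G (UU K x) = (c : ℂ) * ∫ u, G u) ∧
      (Integrable G → Integrable fun x => G (UU K x))) {α : 𝓞 K} (hα : α ≠ 0) :
    Integrable (fun x => Wa (shp θ t0) (α : K) x * WW s θ.2 x) ∧
    ∫ x, Wa (shp θ t0) (α : K) x * WW s θ.2 x =
      c * (Zf K (s - Complex.I * t0) * ((Ideal.absNorm (Ideal.span {α}) : ℂ) ^ (-s) *
        infK θ (α : K))) := by
  have hα' : (α : K) ≠ 0 := by exact_mod_cast hα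
  have hw : ∀ w : InfinitePlace K, 0 < w (α : K) := fun w => pos_iff.2 hα'
  set G : (InfinitePlace K → ℝ) → ℂ := fun u =>
    ∏ w, phw (θ.1 w) (θ.2 w - mult w * t0) (sw K s θ.2 w) (w.embedding (α : K)) (u w) with hG
  have hi := fun w => phw_int (θ.1 w) (θ.2 w - mult w * t0) (sw K s θ.2 w) (emb_ne hα' w)
  have hGi : Integrable G := Integrable.fintype_prod fun w => (hi w).1
  have e1 : ∀ x, Wa (shp θ t0) (α : K) x * WW s θ.2 x = G (UU K x) := fun x =>
    Wa_prod (shp θ t0) s θ.2 _ x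
  constructor
  · exact ((hc G).2 hGi).congr (Filter.Eventually.of_forall fun x => (e1 x).symm)
  · simp_rw [e1]
    rw [(hc G).1]
    congr 1
    rw [hG, integral_fintype_prod_volume_eq_prod]
    have e2 : ∀ w : InfinitePlace K, ∫ u, phw (θ.1 w) (θ.2 w - mult w * t0) (sw K s θ.2 w)
        (w.embedding (α : K)) u = Mb (mult w * (s - Complex.I * t0) / 2) *
        (uu (θ.1 w) (θ.2 w) (w.embedding (α : K)) *
        Complex.exp (-s * ((mult w : ℝ) * Real.log (w (α : K)) : ℝ))) := by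
      intro w
      rw [(hi w).2, sub_eq_add_neg, uu_add _ _ _ (emb_ne hα' w), norm_embedding_eq]
      have e3 : sw K s θ.2 w + Complex.I * ((θ.2 w + -(mult w * t0) : ℝ) : ℂ) / 2 =
          mult w * (s - Complex.I * t0) / 2 := by
        unfold sw
        push_cast
        ring
      rw [e3]
      have e4 : Complex.exp (Complex.I * ((-(mult w * t0) : ℝ) : ℂ) * (Real.log (w (α : K)) : ℝ)) *
          Complex.exp (-(2 * (mult w * (s - Complex.I * t0) / 2)) * (Real.log (w (α : K)) : ℝ)) =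
          Complex.exp (-s * ((mult w : ℝ) * Real.log (w (α : K)) : ℝ)) := by
        rw [← Complex.exp_add]
        congr 1
        push_cast
        ring
      rw [← e4]
      ring
    rw [prod_congr rfl fun w _ => e2 w, prod_mul_distrib, prod_mul_distrib, ← Complex.exp_sum]
    unfold Zf infK
    congr 1
    rw [mul_comm]
    congr 1
    -- the norm
    have h8 : ((Ideal.absNorm (Ideal.span {α}) : ℕ) : ℂ) = (((Ideal.absNorm (Ideal.span {α}) : ℕ) : ℝ) : ℂ) := by
      push_cast; rfl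
    rw [h8, norm_el hα, Complex.cpow_def_of_ne_zero (by exact_mod_cast (Real.exp_pos _).ne'),
      ← Complex.ofReal_log (Real.exp_pos _).le, Real.log_exp, mul_comm]
    congr 1
    rw [Complex.ofReal_sum, mul_sum]

/-- translation by a unit -/
lemma Wa_unit (θ : Par (InfinitePlace K)) (t0 : ℝ) (s : ℂ) {α : 𝓞 K} (hα : α ≠ 0) (η : (𝓞 K)ˣ)
    {x x' : LS K} (hx : ∀ w, UU K x' w = UU K x w + 2 * Real.log (w ((η : (𝓞 K)ˣ) : K))) :
    (infK θ (((η : 𝓞 K) * α : 𝓞 K) : K))⁻¹ * (Wa (shp θ t0) (((η : 𝓞 K) * α : 𝓞 K) : K) x *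
      WW s θ.2 x) = (infK θ (α : K))⁻¹ * (Wa (shp θ t0) (α : K) x' * WW s θ.2 x') := by
  have hα' : (α : K) ≠ 0 := by exact_mod_cast hα
  have hη : ((η : 𝓞 K) : K) ≠ 0 := unit_ne η
  have hη0 : ∀ w : InfinitePlace K, 0 < w ((η : 𝓞 K) : K) := fun w => pos_iff.2 hη
  have e1 : (((η : 𝓞 K) * α : 𝓞 K) : K) = ((η : 𝓞 K) : K) * (α : K) := by push_cast; rfl
  have hex : ∀ w : InfinitePlace K, ((Real.exp (UU K x w / 2) : ℝ) : ℂ) ≠ 0 := fun w => by
    exact_mod_cast (Real.exp_pos _).ne'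
  -- one place
  have h1 : ∀ w : InfinitePlace K,
      phw (θ.1 w) (θ.2 w - mult w * t0) (sw K s θ.2 w) (w.embedding (((η : 𝓞 K) : K) * (α : K)))
        (UU K x w) = (uu (θ.1 w) (θ.2 w) (w.embedding ((η : 𝓞 K) : K)) *
        Complex.exp (-s * ((mult w : ℝ) * Real.log (w ((η : 𝓞 K) : K)) : ℝ))) *
      phw (θ.1 w) (θ.2 w - mult w * t0) (sw K s θ.2 w) (w.embedding (α : K)) (UU K x' w) := by
    intro w
    rw [phw_eq _ _ _ (emb_ne (mul_ne_zero hη hα') w), phw_eq _ _ _ (emb_ne hα' w), hx,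
      norm_embedding_eq, norm_embedding_eq, map_mul, map_mul, Real.log_mul (hη0 w).ne'
      (pos_iff.2 hα').ne', uu_mul (emb_ne hη w) (emb_ne hα' w)]
    have e2 : UU K x w + 2 * (Real.log (w ((η : 𝓞 K) : K)) + Real.log (w (α : K))) =
        UU K x w + 2 * Real.log (w ((η : 𝓞 K) : K)) + 2 * Real.log (w (α : K)) := by ring
    rw [e2]
    have e3 : uu (θ.1 w) (θ.2 w - mult w * t0) (w.embedding ((η : 𝓞 K) : K)) =
        uu (θ.1 w) (θ.2 w) (w.embedding ((η : 𝓞 K) : K)) *
        Complex.exp (Complex.I * ((-(mult w * t0) : ℝ) : ℂ) * (Real.log (w ((η : 𝓞 K) : K)) : ℝ)) := by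
      rw [sub_eq_add_neg, uu_add _ _ _ (emb_ne hη w), norm_embedding_eq]
    rw [e3]
    have e4 : Complex.exp (Complex.I * ((-(mult w * t0) : ℝ) : ℂ) *
        (Real.log (w ((η : 𝓞 K) : K)) : ℝ)) *
        Complex.exp (-(2 * (sw K s θ.2 w + Complex.I * ((θ.2 w - mult w * t0 : ℝ) : ℂ) / 2)) *
          ((Real.log (w ((η : 𝓞 K) : K)) + Real.log (w (α : K)) : ℝ) : ℂ)) =
        Complex.exp (-s * ((mult w : ℝ) * Real.log (w ((η : 𝓞 K) : K)) : ℝ)) *
        Complex.exp (-(2 * (sw K s θ.2 w + Complex.I * ((θ.2 w - mult w * t0 : ℝ) : ℂ) / 2)) *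
          (Real.log (w (α : K)) : ℝ)) := by
      rw [← Complex.exp_add, ← Complex.exp_add]
      congr 1
      unfold sw
      push_cast
      ring
    linear_combination (uu (θ.1 w) (θ.2 w) (w.embedding ((η : 𝓞 K) : K)) *
      uu (θ.1 w) (θ.2 w - mult w * t0) (w.embedding (α : K)) *
      mbi (sw K s θ.2 w + Complex.I * ((θ.2 w - mult w * t0 : ℝ) : ℂ) / 2)
        (UU K x w + 2 * Real.log (w ((η : 𝓞 K) : K)) + 2 * Real.log (w (α : K)))) * e4
  have h2 : Wa (shp θ t0) (((η : 𝓞 K) : K) * (α : K)) x * WW s θ.2 x =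
      infK θ ((η : 𝓞 K) : K) * (Wa (shp θ t0) (α : K) x' * WW s θ.2 x') := by
    rw [Wa_prod, Wa_prod]
    show ∏ w, phw (θ.1 w) (θ.2 w - mult w * t0) (sw K s θ.2 w)
      (w.embedding (((η : 𝓞 K) : K) * (α : K))) (UU K x w) = _
    rw [prod_congr rfl fun w _ => h1 w, prod_mul_distrib, prod_mul_distrib, ← Complex.exp_sum]
    have h3 : ∑ w : InfinitePlace K, -s * (((mult w : ℝ) * Real.log (w ((η : 𝓞 K) : K)) : ℝ) : ℂ) = 0 := by
      rw [← mul_sum, ← Complex.ofReal_sum]
      have := sum_mult_mul_log (K := K) η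
      rw [this]
      simp
    rw [h3, Complex.exp_zero, mul_one]
    rfl
  rw [e1, h2, infK_mul θ hη hα']
  have h4 := infK_ne θ hη
  have h5 := infK_ne θ hα'
  field_simp

end Pool.Agent.T2H29.SW
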