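import Pool.Agent.T2H29.SW.X7

/-!
# Several primes: bases and balancedness
-/

set_option autoImplicit false
set_option linter.unusedSectionVars false

namespace Pool.Agent.T2H29.SW

open Finset NumberField NumberField.InfinitePlace Module
open Pool.Agent.Y779.R3 (unit_or not_unit_pi pi_zero unit_int)

variable {K : Type} [Field K] [NumberField K] {J : Type} [Fintype J] [DecidableEq J]

/-- several primes -/
structure PD (P : J → Ideal (𝓞 K)) (p : ℕ) (ν : J → ℕ) : Prop where
  pp : p.Prime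
  deg : ∀ j, Deg1 (P j) p
  inj : Function.Injective P
  nu : ∀ j, 1 ≤ ν j

variable {P : J → Ideal (𝓞 K)} {p : ℕ} {ν : J → ℕ}

lemma PD.max (h : PD P p ν) (j : J) : (P j).IsMaximal :=
  (h.deg j).prime.isMaximal ((h.deg j).ne_bot h.pp)

lemma PD.cop (h : PD P p ν) {i j : J} (hij : i ≠ j) : IsCoprime (P i) (P j) := by
  rw [Ideal.isCoprime_iff_sup_eq]
  have h1 := (h.max i)
  have h2 := (h.max j)
  have hne : P i ≠ P j := fun h3 => hij (h.inj h3)
  exact h1.coprime_of_ne h2 hne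

/-- elementary change of basis -/
lemma basis_op {I : Ideal (𝓞 K)} (b' : Basis (Fin (dg K)) ℤ I) (o : Fin (dg K))
    (c' : Fin (dg K) → ℤ) (hc : c' o = 0) : ∃ b : Basis (Fin (dg K)) ℤ I,
    ∀ i, b i = b' i - c' i • b' o := by
  set f : I →ₗ[ℤ] ℤ := b'.constr ℤ c' with hf
  have hfo : f (b' o) = 0 := by rw [hf, Basis.constr_basis, hc]
  set S : ℤ →ₗ[ℤ] I := LinearMap.toSpanSingleton ℤ I (b' o) with hS
  set T : I ≃ₗ[ℤ] I := LinearEquiv.ofLinear (LinearMap.id - S.comp f) (LinearMap.id + S.comp f)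
    (by
      apply LinearMap.ext
      intro x
      simp only [LinearMap.comp_apply, LinearMap.sub_apply, LinearMap.add_apply, LinearMap.id_apply,
        hS, LinearMap.toSpanSingleton_apply, map_add, map_smul, hfo, smul_zero, add_zero]
      abel)
    (by
      apply LinearMap.ext
      intro x
      simp only [LinearMap.comp_apply, LinearMap.sub_apply, LinearMap.add_apply, LinearMap.id_apply,
        hS, LinearMap.toSpanSingleton_apply, map_sub, map_smul, hfo, smul_zero, sub_zero]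
      abel) with hT
  refine ⟨b'.map T, fun i => ?_⟩
  rw [Basis.map_apply, hT, LinearEquiv.ofLinear_apply]
  simp only [LinearMap.sub_apply, LinearMap.id_apply, LinearMap.comp_apply, hS,
    LinearMap.toSpanSingleton_apply, hf, Basis.constr_basis]

lemma rho_el {n : ℕ} (ρ : 𝓞 K →+* ZMod n) {I : Ideal (𝓞 K)} (b : Basis (Fin (dg K)) ℤ I)
    (z : Fin (dg K) → ℤ) : ρ (el b z) = ∑ i, (z i : ZMod n) * ρ ((b i : I) : 𝓞 K) := by
  unfold el
  rw [Submodule.coe_sum, map_sum]
  refine sum_congr rfl fun i _ => ?_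
  rw [coe_zs, map_zsmul, zsmul_eq_mul]

variable {ρ : ∀ j, 𝓞 K →+* ZMod (p ^ ν j)}

/-- a basis adapted to several primes, by induction -/
theorem exists_basisS (h : PD P p ν) (hρ : ∀ j, Red (P j) p (ν j) (ρ j)) {I : Ideal (𝓞 K)}
    (hI : I ≠ ⊥) (hco : ∀ j, IsCoprime I (P j)) (S : Finset J) :
    ∃ (b : Basis (Fin (dg K)) ℤ I) (o : J → Fin (dg K)), Set.InjOn o S ∧
      ∀ j ∈ S, IsUnit (ρ j ((b (o j) : I) : 𝓞 K)) ∧ ∀ i, i ≠ o j → ρ j ((b i : I) : 𝓞 K) = 0 := by
  have hp := h.pp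
  haveI : ∀ j, NeZero (p ^ ν j) := fun j => ⟨pow_ne_zero _ hp.ne_zero⟩
  induction S using Finset.induction_on with
  | empty => exact ⟨Ideal.selfBasis (bO K) I hI, fun _ => 0, by simp, by simp⟩
  | insert j S hj ih =>
    obtain ⟨b, o, ho, hb⟩ := ih
    -- an element of `I` and of `P i`, `i ∈ S`, not in `P j`
    obtain ⟨x, hxI, hxP⟩ : ∃ x ∈ I * ∏ i ∈ S, P i, x ∉ P j := by
      by_contra hcon
      push Not at hcon
      have h1 : I * ∏ i ∈ S, P i ≤ P j := hcon
      have hpr := (h.deg j).prime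
      rcases (Ideal.IsPrime.mul_le hpr).1 h1 with h2 | h2
      · have h3 := Ideal.isCoprime_iff_sup_eq.1 (hco j)
        rw [sup_eq_right.2 h2] at h3
        exact hpr.ne_top h3
      · obtain ⟨i, hi, hi2⟩ := (Ideal.IsPrime.prod_le hpr).1 h2
        have h3 : P i = P j := (h.max i).eq_of_le hpr.ne_top hi2
        have h4 : i = j := h.inj h3
        subst h4
        exact hj hi
    have hle : I * ∏ i ∈ S, P i ≤ I := Ideal.mul_le_left
    have hxI' : x ∈ I := hle hxI
    have hxS : ∀ i ∈ S, x ∈ P i := by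
      intro i hi
      have h1 : I * ∏ i ∈ S, P i ≤ ∏ i ∈ S, P i := Ideal.mul_le_right
      have h2 : ∏ i ∈ S, P i ≤ P i := by
        rw [← Ideal.dvd_iff_le]
        exact dvd_prod_of_mem P hi
      exact h2 (h1 hxI)
    set z : Fin (dg K) → ℤ := b.equivFun ⟨x, hxI'⟩ with hz
    have hxz : el b z = x := by
      rw [el_eq, hz, LinearEquiv.symm_apply_apply]
    have hux := ((hρ j).unit (h.deg j) hp (h.nu j) x).2 hxP
    have hzS : ∀ i ∈ S, (p : ℤ) ∣ z (o i) := by
      intro i hi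
      by_contra hcon
      obtain ⟨hb1, hb2⟩ := hb i hi
      have h1 : ρ i x = (z (o i) : ZMod (p ^ ν i)) * ρ i ((b (o i) : I) : 𝓞 K) := by
        rw [← hxz, rho_el, sum_eq_single (o i)]
        · intro k _ hk
          rw [hb2 k hk, mul_zero]
        · intro h0; exact absurd (mem_univ _) h0
      have h2 : IsUnit (ρ i x) := by
        rw [h1]
        exact (unit_int hp hcon).mul hb1
      exact ((hρ i).unit (h.deg i) hp (h.nu i) x).1 h2 (hxS i hi)
    -- a good index
    obtain ⟨i0, hi0, hu0⟩ : ∃ i0, (∀ i ∈ S, i0 ≠ o i) ∧ IsUnit (ρ j ((b i0 : I) : 𝓞 K)) := by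
      by_contra hcon
      push Not at hcon
      have h1 : ∀ i, ∃ y, (z i : ZMod (p ^ ν j)) * ρ j ((b i : I) : 𝓞 K) = p * y := by
        intro i
        by_cases hiS : ∃ i' ∈ S, i = o i'
        · obtain ⟨i', hi', rfl⟩ := hiS
          obtain ⟨k, hk⟩ := hzS i' hi'
          exact ⟨(k : ZMod (p ^ ν j)) * ρ j ((b (o i') : I) : 𝓞 K), by rw [hk]; push_cast; ring⟩
        · push Not at hiS
          have h2 := hcon i hiS
          obtain ⟨y, hy⟩ := (unit_or hp (ρ j ((b i : I) : 𝓞 K))).resolve_left h2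
          exact ⟨(z i : ZMod (p ^ ν j)) * y, by rw [hy]; ring⟩
      choose y hy using h1
      have h2 : ρ j x = p * ∑ i, y i := by
        rw [← hxz, rho_el, mul_sum]
        exact sum_congr rfl fun i _ => hy i
      rw [h2] at hux
      exact not_unit_pi hp (h.nu j) _ hux
    set u := ρ j ((b i0 : I) : 𝓞 K) with hu
    have hc : ∀ i, ∃ c : ℤ, (c : ZMod (p ^ ν j)) = ρ j ((b i : I) : 𝓞 K) * u⁻¹ :=
      fun i => ZMod.intCast_surjective _
    choose c hc using hc
    set c' : Fin (dg K) → ℤ := fun i => if i = i0 then 0 else c i with hc'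
    obtain ⟨b2, hb2⟩ := basis_op b i0 c' (by rw [hc']; simp)
    refine ⟨b2, Function.update o j i0, ?_, ?_⟩
    · intro i hi k hk hik
      rw [coe_insert, Set.mem_insert_iff] at hi hk
      rcases hi with rfl | hi
      · rcases hk with rfl | hk
        · rfl
        · have hne : k ≠ i := fun h0 => hj (by rw [← h0]; exact hk)
          rw [Function.update_self, Function.update_of_ne hne] at hik
          exact absurd hik (hi0 k hk)
      · rcases hk with rfl | hk
        · have hne : i ≠ k := fun h0 => hj (by rw [← h0]; exact hi)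
          rw [Function.update_self, Function.update_of_ne hne] at hik
          exact absurd hik.symm (hi0 i hi)
        · have hne : i ≠ j := fun h0 => hj (by rw [← h0]; exact hi)
          have hne' : k ≠ j := fun h0 => hj (by rw [← h0]; exact hk)
          rw [Function.update_of_ne hne, Function.update_of_ne hne'] at hik
          exact ho hi hk hik
    · intro i hi
      rw [mem_insert] at hi
      rcases hi with rfl | hi
      · rw [Function.update_self]
        constructor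
        · rw [hb2, Submodule.coe_sub, coe_zs, map_sub, map_zsmul, hc']
          simp only [if_true, zero_smul, sub_zero]
          exact hu0
        · intro k hk
          rw [hb2, Submodule.coe_sub, coe_zs, map_sub, map_zsmul, hc']
          simp only [hk, if_false]
          rw [zsmul_eq_mul, hc, ← hu]
          have h1 : u * u⁻¹ = 1 := ZMod.mul_inv_of_unit _ hu0
          linear_combination (-ρ i ((b k : I) : 𝓞 K)) * h1
      · have hne : i ≠ j := fun h0 => hj (by rw [← h0]; exact hi)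
        rw [Function.update_of_ne hne]
        obtain ⟨hb3, hb4⟩ := hb i hi
        have h0 : ρ i ((b i0 : I) : 𝓞 K) = 0 := hb4 i0 (hi0 i hi)
        have h5 : ∀ k, ρ i ((b2 k : I) : 𝓞 K) = ρ i ((b k : I) : 𝓞 K) := by
          intro k
          rw [hb2, Submodule.coe_sub, coe_zs, map_sub, map_zsmul, h0, smul_zero, sub_zero]
        refine ⟨by rw [h5]; exact hb3, fun k hk => by rw [h5]; exact hb4 k hk⟩

theorem exists_basisJ (h : PD P p ν) (hρ : ∀ j, Red (P j) p (ν j) (ρ j)) {I : Ideal (𝓞 K)}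
    (hI : I ≠ ⊥) (hco : ∀ j, IsCoprime I (P j)) :
    ∃ (b : Basis (Fin (dg K)) ℤ I) (o : J → Fin (dg K)) (u : ∀ j, ZMod (p ^ ν j)),
      Function.Injective o ∧ (∀ j, IsUnit (u j)) ∧
      ∀ j z, ρ j (el b z) = (z (o j) : ZMod (p ^ ν j)) * u j := by
  obtain ⟨b, o, ho, hb⟩ := exists_basisS h hρ hI hco univ
  refine ⟨b, o, fun j => ρ j ((b (o j) : I) : 𝓞 K), ?_, fun j => (hb j (mem_univ j)).1, ?_⟩
  · intro i j hij
    exact ho (by simp) (by simp) hij
  · intro j z
    rw [rho_el, sum_eq_single (o j)]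
    · intro k _ hk
      rw [(hb j (mem_univ j)).2 k hk, mul_zero]
    · intro h0; exact absurd (mem_univ _) h0

lemma norm_geJ (h : PD P p ν) (hρ : ∀ j, Red (P j) p (ν j) (ρ j)) {I : Ideal (𝓞 K)}
    (hco : ∀ j, IsCoprime I (P j)) {a : J → ℕ} (ha : ∀ j, a j ≤ ν j) {α : 𝓞 K} (hα : α ≠ 0)
    (hαI : α ∈ I) (hy : ∀ j, ∃ y, ρ j α = (p : ZMod (p ^ ν j)) ^ a j * y) :
    (Ideal.absNorm I : ℝ) * (p : ℝ) ^ (∑ j, a j) ≤ Ideal.absNorm (Ideal.span {α}) := by
  have h1 : ∀ j, P j ^ a j ∣ Ideal.span {α} := fun j => by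
    obtain ⟨y, hy⟩ := hy j
    rw [Ideal.dvd_iff_le, Ideal.span_singleton_le_iff_mem]
    exact (hρ j).le (h.deg j) (ha j) hy
  have h2 : ∏ j, P j ^ a j ∣ Ideal.span {α} := by
    refine Finset.prod_dvd_of_coprime ?_ fun j _ => h1 j
    intro i _ j _ hij
    exact ((h.cop hij).pow : IsCoprime (P i ^ a i) (P j ^ a j))
  have h3 : I * ∏ j, P j ^ a j ∣ Ideal.span {α} := by
    refine IsCoprime.mul_dvd ?_ ?_ h2
    · exact IsCoprime.prod_right fun j _ => (hco j).pow_right
    · rw [Ideal.dvd_iff_le, Ideal.span_singleton_le_iff_mem]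
      exact hαI
  have h4 : Ideal.absNorm (I * ∏ j, P j ^ a j) ∣ Ideal.absNorm (Ideal.span {α}) :=
    Ideal.absNorm_dvd_absNorm_of_le (Ideal.dvd_iff_le.1 h3)
  have h5 : 0 < Ideal.absNorm (Ideal.span {α}) := by
    refine Nat.pos_of_ne_zero fun h5 => hα ?_
    rw [Ideal.absNorm_eq_zero_iff, Ideal.span_singleton_eq_bot] at h5
    exact h5
  have h6 := Nat.le_of_dvd h5 h4
  rw [map_mul, map_prod] at h6
  have h7 : ∏ j, Ideal.absNorm (P j ^ a j) = p ^ ∑ j, a j := by
    rw [← prod_pow_eq_pow_sum]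
    refine prod_congr rfl fun j _ => ?_
    rw [map_pow, (h.deg j).norm]
  rw [h7] at h6
  exact_mod_cast h6

variable (K)

/-- the lattices are balanced, with a constant depending only on the field -/
theorem exists_BalV : ∃ B : ℝ, 1 ≤ B ∧ ∀ (J : Type) [Fintype J] [DecidableEq J]
    (P : J → Ideal (𝓞 K)) (p : ℕ) (ν : J → ℕ) (ρ : ∀ j, 𝓞 K →+* ZMod (p ^ ν j)), PD P p ν →
    (∀ j, Red (P j) p (ν j) (ρ j)) → ∀ (I : Ideal (𝓞 K)), I ≠ ⊥ → (∀ j, IsCoprime I (P j)) →
    ∀ (b : Basis (Fin (dg K)) ℤ I) (o : J → Fin (dg K)) (u : ∀ j, ZMod (p ^ ν j)),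
    Function.Injective o → (∀ j z, ρ j (el b z) = (z (o j) : ZMod (p ^ ν j)) * u j) →
    ∀ x : LS K, BalV p o ν B (AX b x) := by
  haveI : Nonempty (Fin (dg K)) := ⟨0⟩
  have hn : (0 : ℝ) < dg K := by exact_mod_cast NeZero.pos (dg K)
  have hc := cK_pos K
  have hκ : 0 < (dg K : ℝ) ^ (dg K) / cK K ^ 2 := by positivity
  obtain ⟨B, hB1, hB⟩ := cb_min (Fin (dg K)) hκ
  refine ⟨B, hB1, fun J _ _ P p ν ρ h hρ I hI hco b o u ho hu x a ha => ?_⟩
  have hp := h.pp
  have hdA := det_AX_ne hI b x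
  refine hB _ (det_mul_dv_ne hp.pos o hdA a) fun z hz => ?_
  -- the element
  set z' := sc (dv p o a) z with hz'
  have hz'0 : z' ≠ 0 := by
    intro h0
    apply hz
    funext i
    have h1 : (dv p o a i : ℤ) * z i = 0 := congrFun h0 i
    have h2 : (dv p o a i : ℤ) ≠ 0 := by exact_mod_cast (dv_pos hp.pos o a i).ne'
    exact (mul_eq_zero.1 h1).resolve_left h2
  have hq : q (AX b x * dgm (dv p o a)) (cz z) = q (AX b x) (cz z') := by
    unfold q
    rw [← Matrix.mulVec_mulVec, dgm_mulVec]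
    have : (fun i => (dv p o a i : ℝ) * cz z i) = cz z' := by
      funext i
      rw [hz']
      simp [cz, sc]
    rw [this]
  rw [hq, Fintype.card_fin]
  unfold AX
  rw [q_MX (fun w => (Real.exp_pos _).le)]
  refine le_trans ?_ (am_gm x (el b z'))
  have hα0 := el_ne b hz'0
  have hy : ∀ j, ∃ y, ρ j (el b z') = (p : ZMod (p ^ ν j)) ^ a j * y := by
    intro j
    refine ⟨(z (o j) : ZMod (p ^ ν j)) * u j, ?_⟩
    rw [hu, hz', sc_dv ho]
    push_cast
    ring
  have h1 := norm_geJ h hρ hco ha hα0 (el_mem b z') hy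
  have hdet : (MX (fun w => Real.exp (UU K x w)) b * dgm (dv p o a)).det ^ 2 =
      Real.exp (dg K * x.2) * (cK K * Ideal.absNorm I * (p : ℝ) ^ (∑ j, a j)) ^ 2 := by
    rw [Matrix.det_mul, det_dv p ho, ← sq_abs, abs_mul]
    have h2 := abs_det_AX b x
    unfold AX at h2
    rw [h2, abs_of_nonneg (by positivity : (0 : ℝ) ≤ (p : ℝ) ^ (∑ j, a j))]
    have h3 : Real.exp (dg K * x.2) = Real.exp (dg K * x.2 / 2) ^ 2 := by
      rw [← Real.exp_nat_mul]
      congr 1
      push_cast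
      ring
    rw [h3]
    ring
  rw [hdet]
  have hI0 := absNorm_pos' hI
  have h4 : ((Ideal.absNorm I : ℝ) * (p : ℝ) ^ (∑ j, a j)) ^ 2 ≤
      (Ideal.absNorm (Ideal.span {el b z'}) : ℝ) ^ 2 := pow_le_pow_left₀ (by positivity) h1 2
  calc (dg K : ℝ) ^ dg K / cK K ^ 2 * (Real.exp (dg K * x.2) *
        (cK K * Ideal.absNorm I * (p : ℝ) ^ (∑ j, a j)) ^ 2) =
      (dg K : ℝ) ^ dg K * (Real.exp (dg K * x.2) *
        ((Ideal.absNorm I : ℝ) * (p : ℝ) ^ (∑ j, a j)) ^ 2) := by
        field_simp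
    _ ≤ _ := by
        refine mul_le_mul_of_nonneg_left ?_ (by positivity)
        exact mul_le_mul_of_nonneg_left h4 (Real.exp_pos _).le

end Pool.Agent.T2H29.SW
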