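import Pool.Agent.T2H29.SW.X8

/-!
# Hecke characters with several prime powers in the conductor
-/

set_option autoImplicit false
set_option linter.unusedSectionVars false

namespace Pool.Agent.T2H29.SW

open Finset NumberField NumberField.InfinitePlace Module
open Pool.Agent.Y779.R3 (unit_or not_unit_pi pi_zero unit_int)

variable {K : Type} [Field K] [NumberField K] {J : Type} [Fintype J] [DecidableEq J]

/-- the modulus -/
noncomputable def mo (f : Ideal (𝓞 K)) (P : J → Ideal (𝓞 K)) (ν : J → ℕ) : Ideal (𝓞 K) :=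
  f * ∏ j, P j ^ ν j

/-- Hecke characters modulo `f ∏ P_j^{ν_j}`, primitive at the `P_j` -/
structure HeckeG (f : Ideal (𝓞 K)) (P : J → Ideal (𝓞 K)) (ν : J → ℕ)
    (θ : Par (InfinitePlace K)) (χ : Ideal (𝓞 K) →* ℂ) : Prop where
  zero : ∀ I, ¬ IsCoprime I (mo f P ν) → χ I = 0
  norm : ∀ I, IsCoprime I (mo f P ν) → ‖χ I‖ = 1
  inf : ∀ α : 𝓞 K, α - 1 ∈ mo f P ν → χ (Ideal.span {α}) = infK θ (α : K)
  prim : ∀ j, ∃ α : 𝓞 K, α - 1 ∈ mo f P (Function.update ν j (ν j - 1)) ∧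
    IsCoprime (Ideal.span {α}) (mo f P ν) ∧ χ (Ideal.span {α}) ≠ infK θ (α : K)

variable {f : Ideal (𝓞 K)} {P : J → Ideal (𝓞 K)} {p : ℕ} {ν : J → ℕ}
  {θ : Par (InfinitePlace K)} {χ : Ideal (𝓞 K) →* ℂ} {ρ : ∀ j, 𝓞 K →+* ZMod (p ^ ν j)}

lemma f_cop (h : PD P p ν) (hf : ¬ p ∣ Ideal.absNorm f) (j : J) : IsCoprime f (P j) := by
  rw [Ideal.isCoprime_iff_sup_eq]
  refine (h.max j).1.2 _ (lt_of_le_of_ne le_sup_right fun h2 => hf ?_)
  have h3 : f ≤ P j := by rw [h2]; exact le_sup_left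
  have h4 := Ideal.absNorm_dvd_absNorm_of_le h3
  rwa [(h.deg j).norm] at h4

/-- the complementary modulus -/
noncomputable def mj (f : Ideal (𝓞 K)) (P : J → Ideal (𝓞 K)) (ν : J → ℕ) (j : J) : Ideal (𝓞 K) :=
  f * ∏ i ∈ univ.erase j, P i ^ ν i

lemma mo_mj (f : Ideal (𝓞 K)) (P : J → Ideal (𝓞 K)) (ν : J → ℕ) (j : J) :
    mo f P ν = mj f P ν j * P j ^ ν j := by
  unfold mo mj
  rw [mul_assoc, prod_erase_mul _ _ (mem_univ j)]

lemma mj_cop (h : PD P p ν) (hf : ¬ p ∣ Ideal.absNorm f) (j : J) :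
    IsCoprime (mj f P ν j) (P j ^ ν j) := by
  unfold mj
  refine IsCoprime.mul_left (f_cop h hf j).pow_right ?_
  refine IsCoprime.prod_left fun i hi => ?_
  exact (h.cop (ne_of_mem_erase hi)).pow

lemma mem_mo (h : PD P p ν) (hf : ¬ p ∣ Ideal.absNorm f) {δ : 𝓞 K} (h1 : δ ∈ f)
    (h2 : ∀ j, δ ∈ P j ^ ν j) : δ ∈ mo f P ν := by
  have e1 : ∀ {I : Ideal (𝓞 K)}, δ ∈ I ↔ I ∣ Ideal.span {δ} := by
    intro I
    rw [Ideal.dvd_iff_le, Ideal.span_singleton_le_iff_mem]
  rw [e1] at h1 ⊢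
  unfold mo
  refine IsCoprime.mul_dvd ?_ h1 ?_
  · exact IsCoprime.prod_right fun j _ => (f_cop h hf j).pow_right
  · refine Finset.prod_dvd_of_coprime ?_ fun j _ => e1.1 (h2 j)
    intro i _ j _ hij
    exact ((h.cop hij).pow : IsCoprime (P i ^ ν i) (P j ^ ν j))

lemma mo_le_f : mo f P ν ≤ f := Ideal.mul_le_left

lemma mo_le_P (j : J) : mo f P ν ≤ P j ^ ν j := by
  rw [mo_mj f P ν j]
  exact Ideal.mul_le_right

lemma mo_ne_top (h : PD P p ν) [Nonempty J] : mo f P ν ≠ ⊤ := by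
  intro h0
  obtain ⟨j⟩ := ‹Nonempty J›
  have h1 : (⊤ : Ideal (𝓞 K)) ≤ P j := by
    rw [← h0]
    exact (mo_le_P j).trans (Ideal.pow_le_self (by have := h.nu j; omega))
  exact (h.deg j).prime.ne_top (top_le_iff.1 h1)

/-- the finite part -/
noncomputable def gG (θ : Par (InfinitePlace K)) (χ : Ideal (𝓞 K) →* ℂ) (α : 𝓞 K) : ℂ :=
  χ (Ideal.span {α}) * (infK θ (α : K))⁻¹

lemma gG_mul {α β : 𝓞 K} (hα : α ≠ 0) (hβ : β ≠ 0) : gG θ χ (α * β) = gG θ χ α * gG θ χ β := by
  unfold gG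
  rw [← Ideal.span_singleton_mul_span_singleton, map_mul]
  push_cast
  rw [infK_mul θ (by exact_mod_cast hα) (by exact_mod_cast hβ), mul_inv]
  ring

lemma cop_ne {m : Ideal (𝓞 K)} (hm : m ≠ ⊤) {α : 𝓞 K} (hα : IsCoprime (Ideal.span {α}) m) :
    α ≠ 0 := by
  rintro rfl
  apply hm
  rw [Ideal.isCoprime_iff_sup_eq] at hα
  simpa using hα

lemma cop_inv {m : Ideal (𝓞 K)} {α : 𝓞 K} (hα : IsCoprime (Ideal.span {α}) m) :
    ∃ γ, α * γ - 1 ∈ m := by
  obtain ⟨x, hx, y, hy, hxy⟩ := Ideal.isCoprime_iff_exists.1 hα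
  obtain ⟨γ, rfl⟩ := Ideal.mem_span_singleton'.1 hx
  refine ⟨γ, ?_⟩
  have : α * γ - 1 = -y := by rw [← hxy]; ring
  rw [this]
  exact neg_mem hy

lemma inv_cop {m : Ideal (𝓞 K)} {α γ : 𝓞 K} (h : α * γ - 1 ∈ m) :
    IsCoprime (Ideal.span {α}) m := by
  rw [Ideal.isCoprime_iff_exists]
  refine ⟨α * γ, Ideal.mul_mem_right _ _ (Ideal.mem_span_singleton_self α), -(α * γ - 1),
    neg_mem h, by ring⟩

lemma gG_norm {m : Ideal (𝓞 K)} (hm : m ≠ ⊤) (hn : ∀ I, IsCoprime I m → ‖χ I‖ = 1) {α : 𝓞 K}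
    (hα : IsCoprime (Ideal.span {α}) m) : ‖gG θ χ α‖ = 1 := by
  have h0 : (α : K) ≠ 0 := by exact_mod_cast cop_ne hm hα
  unfold gG
  rw [norm_mul, norm_inv, infK_norm θ h0, hn _ hα]
  norm_num

lemma gG_one {m : Ideal (𝓞 K)} (hm : m ≠ ⊤)
    (hi : ∀ α : 𝓞 K, α - 1 ∈ m → χ (Ideal.span {α}) = infK θ (α : K)) {α : 𝓞 K}
    (hα : α - 1 ∈ m) : gG θ χ α = 1 := by
  have h1 : IsCoprime (Ideal.span {α}) m := inv_cop (γ := 1) (by rwa [mul_one])
  have h0 : (α : K) ≠ 0 := by exact_mod_cast cop_ne hm h1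
  unfold gG
  rw [hi α hα]
  exact mul_inv_cancel₀ (infK_ne θ h0)

lemma gG_congr {m : Ideal (𝓞 K)} (hm : m ≠ ⊤)
    (hi : ∀ α : 𝓞 K, α - 1 ∈ m → χ (Ideal.span {α}) = infK θ (α : K)) {α β : 𝓞 K}
    (hα : IsCoprime (Ideal.span {α}) m) (hαβ : α - β ∈ m) : gG θ χ α = gG θ χ β := by
  obtain ⟨γ, hγ⟩ := cop_inv hα
  have hγβ : β * γ - 1 ∈ m := by
    have e1 : β * γ - 1 = (α * γ - 1) - (α - β) * γ := by ring
    rw [e1]
    exact sub_mem hγ (Ideal.mul_mem_right _ _ hαβ)
  have hβ : IsCoprime (Ideal.span {β}) m := inv_cop hγβ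
  have hγc : IsCoprime (Ideal.span {γ}) m := inv_cop (γ := α) (by rwa [mul_comm])
  have h1 : gG θ χ α * gG θ χ γ = 1 := by
    rw [← gG_mul (cop_ne hm hα) (cop_ne hm hγc)]
    exact gG_one hm hi hγ
  have h2 : gG θ χ β * gG θ χ γ = 1 := by
    rw [← gG_mul (cop_ne hm hβ) (cop_ne hm hγc)]
    exact gG_one hm hi hγβ
  have h4 : gG θ χ γ ≠ 0 := by
    intro h5
    rw [h5, mul_zero] at h2
    exact zero_ne_one h2
  exact mul_right_cancel₀ h4 (h1.trans h2.symm)

lemma rho_pow (hρ : ∀ j, Red (P j) p (ν j) (ρ j)) {j : J} {α β : 𝓞 K} :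
    ρ j α = ρ j β ↔ α - β ∈ P j ^ ν j := by
  rw [← (hρ j).ker, map_sub, sub_eq_zero]

lemma cop_parts (h : PD P p ν) (hf : ¬ p ∣ Ideal.absNorm f) {α : 𝓞 K}
    (h1 : IsCoprime (Ideal.span {α}) f) (h2 : ∀ j, α ∉ P j) :
    IsCoprime (Ideal.span {α}) (mo f P ν) := by
  unfold mo
  refine IsCoprime.mul_right h1 (IsCoprime.prod_right fun j _ => ?_)
  exact ((cop_iff (h.deg j) h.pp α).2 (h2 j)).pow_right

lemma cop_of_mo (h : PD P p ν) {α : 𝓞 K} (h1 : IsCoprime (Ideal.span {α}) (mo f P ν)) :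
    IsCoprime (Ideal.span {α}) f ∧ ∀ j, α ∉ P j := by
  constructor
  · exact IsCoprime.of_mul_right_left h1
  · intro j
    rw [← cop_iff (h.deg j) h.pp]
    have h2 : IsCoprime (Ideal.span {α}) (P j ^ ν j) := by
      rw [mo_mj f P ν j] at h1
      exact IsCoprime.of_mul_right_right h1
    obtain ⟨n, hn⟩ : ∃ n, ν j = n + 1 := ⟨ν j - 1, by have := h.nu j; omega⟩
    rw [hn, pow_succ] at h2
    exact IsCoprime.of_mul_right_right h2

open Classical in
/-- the decomposition of the finite part -/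
theorem exists_dirJ [Nonempty J] (h : PD P p ν) (hf : ¬ p ∣ Ideal.absNorm f)
    (hρ : ∀ j, Red (P j) p (ν j) (ρ j)) (hχ : HeckeG f P ν θ χ) :
    ∃ (ψ : ∀ j, DirichletCharacter ℂ (p ^ ν j)) (F : 𝓞 K → ℂ), (∀ j, (ψ j).IsPrimitive) ∧
      (∀ α, ‖F α‖ ≤ 1) ∧ (∀ α β, α - β ∈ f → F α = F β) ∧
      ∀ α : 𝓞 K, χ (Ideal.span {α}) = F α * (∏ j, ψ j (ρ j α)) * infK θ (α : K) := by
  have hp := h.pp
  haveI : ∀ j, NeZero (p ^ ν j) := fun j => ⟨pow_ne_zero _ hp.ne_zero⟩
  haveI : ∀ j, Fact (1 < p ^ ν j) := fun j =>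
    ⟨Nat.one_lt_pow (by have := h.nu j; omega) hp.one_lt⟩
  have hm := mo_ne_top (f := f) h
  have hi := hχ.inf
  -- the idempotents
  have hE : ∀ j, ∃ e ∈ mj f P ν j, 1 - e ∈ P j ^ ν j := by
    intro j
    obtain ⟨x, hx, y, hy, hxy⟩ := Ideal.isCoprime_iff_exists.1 (mj_cop h hf j)
    refine ⟨x, hx, ?_⟩
    have : 1 - x = y := by rw [← hxy]; ring
    rwa [this]
  choose E hE1 hE2 using hE
  obtain ⟨e0, he0, he1⟩ : ∃ e ∈ ∏ j, P j ^ ν j, 1 - e ∈ f := by
    have hc : IsCoprime (∏ j, P j ^ ν j) f :=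
      IsCoprime.prod_left fun j _ => (f_cop h hf j).symm.pow_left
    obtain ⟨x, hx, y, hy, hxy⟩ := Ideal.isCoprime_iff_exists.1 hc
    refine ⟨x, hx, ?_⟩
    have : 1 - x = y := by rw [← hxy]; ring
    rwa [this]
  have he0j : ∀ j, e0 ∈ P j ^ ν j := fun j => by
    have : ∏ j, P j ^ ν j ≤ P j ^ ν j := by
      rw [← Ideal.dvd_iff_le]
      exact dvd_prod_of_mem (fun j => P j ^ ν j) (mem_univ j)
    exact this he0
  have hEf : ∀ j, E j ∈ f := fun j => by
    have : mj f P ν j ≤ f := Ideal.mul_le_left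
    exact this (hE1 j)
  have hEi : ∀ j i, i ≠ j → E j ∈ P i ^ ν i := fun j i hij => by
    have h1 : mj f P ν j ≤ P i ^ ν i := by
      rw [← Ideal.dvd_iff_le]
      unfold mj
      exact (dvd_prod_of_mem (fun i => P i ^ ν i) (mem_erase.2 ⟨hij, mem_univ i⟩)).mul_left _
    exact h1 (hE1 j)
  -- the lifts
  set lj : J → 𝓞 K → 𝓞 K := fun j α => 1 + E j * (α - 1) with hlj
  set l0 : 𝓞 K → 𝓞 K := fun α => 1 + e0 * (α - 1) with hl0
  have hlj1 : ∀ j α, lj j α - α ∈ P j ^ ν j := by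
    intro j α
    have : lj j α - α = -((1 - E j) * (α - 1)) := by simp only [hlj]; ring
    rw [this]
    exact neg_mem (Ideal.mul_mem_right _ _ (hE2 j))
  have hlj2 : ∀ j α i, i ≠ j → lj j α - 1 ∈ P i ^ ν i := by
    intro j α i hij
    have : lj j α - 1 = E j * (α - 1) := by simp only [hlj]; ring
    rw [this]
    exact Ideal.mul_mem_right _ _ (hEi j i hij)
  have hlj3 : ∀ j α, lj j α - 1 ∈ f := by
    intro j α
    have : lj j α - 1 = E j * (α - 1) := by simp only [hlj]; ring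
    rw [this]
    exact Ideal.mul_mem_right _ _ (hEf j)
  have hl01 : ∀ α, l0 α - α ∈ f := by
    intro α
    have : l0 α - α = -((1 - e0) * (α - 1)) := by simp only [hl0]; ring
    rw [this]
    exact neg_mem (Ideal.mul_mem_right _ _ he1)
  have hl02 : ∀ α j, l0 α - 1 ∈ P j ^ ν j := by
    intro α j
    have : l0 α - 1 = e0 * (α - 1) := by simp only [hl0]; ring
    rw [this]
    exact Ideal.mul_mem_right _ _ (he0j j)
  -- coprimality of the lifts
  have hnot : ∀ {α : 𝓞 K} {j : J}, α - 1 ∈ P j ^ ν j → α ∉ P j := by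
    intro α j h1 h2
    have h3 : α - 1 ∈ P j := Ideal.pow_le_self (by have := h.nu j; omega) h1
    have h4 := sub_mem h2 h3
    apply (h.deg j).prime.ne_top
    rw [Ideal.eq_top_iff_one]
    simpa using h4
  have hcf : ∀ {α β : 𝓞 K}, α - β ∈ f → IsCoprime (Ideal.span {β}) f → IsCoprime (Ideal.span {α}) f := by
    intro α β h1 h2
    obtain ⟨γ, hγ⟩ := cop_inv h2
    refine inv_cop (γ := γ) ?_
    have : α * γ - 1 = (β * γ - 1) + (α - β) * γ := by ring
    rw [this]
    exact add_mem hγ (Ideal.mul_mem_right _ _ h1)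
  have h1f : ∀ {α : 𝓞 K}, α - 1 ∈ f → IsCoprime (Ideal.span {α}) f := by
    intro α h1
    exact inv_cop (γ := 1) (by rwa [mul_one])
  have hljc : ∀ j α, α ∉ P j → IsCoprime (Ideal.span {lj j α}) (mo f P ν) := by
    intro j α hα
    refine cop_parts h hf (h1f (hlj3 j α)) fun i => ?_
    by_cases hij : i = j
    · subst hij
      intro h2
      have h3 : lj i α - α ∈ P i := Ideal.pow_le_self (by have := h.nu i; omega) (hlj1 i α)
      have h4 := sub_mem h2 h3
      apply hα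
      simpa using h4
    · exact hnot (hlj2 j α i hij)
  have hl0c : ∀ α, IsCoprime (Ideal.span {α}) f → IsCoprime (Ideal.span {l0 α}) (mo f P ν) := by
    intro α hα
    exact cop_parts h hf (hcf (hl01 α) hα) fun j => hnot (hl02 α j)
  -- the characters
  have hs := fun j => (hρ j).surj
  choose σ hσ using hs
  have hgl : ∀ j α β, α ∉ P j → ρ j α = ρ j β → gG θ χ (lj j α) = gG θ χ (lj j β) := by
    intro j α β hα hαβ
    refine gG_congr hm hi (hljc j α hα) (mem_mo h hf ?_ fun i => ?_)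
    · have := sub_mem (hlj3 j α) (hlj3 j β)
      simpa using this
    · by_cases hij : i = j
      · subst hij
        have h1 := (rho_pow hρ).1 hαβ
        have h2 := add_mem (sub_mem (hlj1 i α) (hlj1 i β)) h1
        have : lj i α - α - (lj i β - β) + (α - β) = lj i α - lj i β := by ring
        rwa [this] at h2
      · have := sub_mem (hlj2 j α i hij) (hlj2 j β i hij)
        simpa using this
  have hσu : ∀ j (x : (ZMod (p ^ ν j))ˣ), σ j (x : ZMod (p ^ ν j)) ∉ P j := fun j x => by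
    rw [← (hρ j).unit (h.deg j) hp (h.nu j), hσ]
    exact x.isUnit
  have hljne : ∀ j α, α ∉ P j → lj j α ≠ 0 := fun j α hα => cop_ne hm (hljc j α hα)
  have hmulj : ∀ j α β, α ∉ P j → β ∉ P j → gG θ χ (lj j α) * gG θ χ (lj j β) =
      gG θ χ (lj j (α * β)) := by
    intro j α β hα hβ
    rw [← gG_mul (hljne j α hα) (hljne j β hβ)]
    refine gG_congr hm hi ?_ (mem_mo h hf ?_ fun i => ?_)
    · rw [← Ideal.span_singleton_mul_span_singleton]
      exact (hljc j α hα).mul_left (hljc j β hβ)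
    · have : lj j α * lj j β - lj j (α * β) = (lj j α - 1) * lj j β + (lj j β - 1) -
        (lj j (α * β) - 1) := by ring
      rw [this]
      exact sub_mem (add_mem (Ideal.mul_mem_right _ _ (hlj3 j α)) (hlj3 j β)) (hlj3 j _)
    · by_cases hij : i = j
      · subst hij
        have : lj i α * lj i β - lj i (α * β) = (lj i α - α) * lj i β + α * (lj i β - β) -
          (lj i (α * β) - α * β) := by ring
        rw [this]
        exact sub_mem (add_mem (Ideal.mul_mem_right _ _ (hlj1 i α))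
          (Ideal.mul_mem_left _ _ (hlj1 i β))) (hlj1 i _)
      · have : lj j α * lj j β - lj j (α * β) = (lj j α - 1) * lj j β + (lj j β - 1) -
          (lj j (α * β) - 1) := by ring
        rw [this]
        exact sub_mem (add_mem (Ideal.mul_mem_right _ _ (hlj2 j α i hij)) (hlj2 j β i hij))
          (hlj2 j _ i hij)
  have hlj11 : ∀ j, gG θ χ (lj j 1) = 1 := by
    intro j
    have : lj j 1 = 1 := by simp only [hlj]; ring
    rw [this]
    exact gG_one hm hi (by rw [sub_self]; exact zero_mem _)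
  have hone : ∀ j, (1 : 𝓞 K) ∉ P j := fun j h1 =>
    (h.deg j).prime.ne_top ((Ideal.eq_top_iff_one _).2 h1)
  let fj : ∀ j, (ZMod (p ^ ν j))ˣ →* ℂ := fun j =>
    { toFun := fun x => gG θ χ (lj j (σ j (x : ZMod (p ^ ν j))))
      map_one' := by
        rw [hgl j _ 1 (hσu j 1) (by rw [hσ, map_one, Units.val_one]), hlj11]
      map_mul' := fun x y => by
        rw [hmulj j _ _ (hσu j x) (hσu j y)]
        refine hgl j _ _ (hσu j (x * y)) ?_
        rw [hσ, map_mul, hσ, hσ, Units.val_mul] }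
  set ψ : ∀ j, DirichletCharacter ℂ (p ^ ν j) := fun j => MulChar.ofUnitHom (fj j).toHomUnits with hψ
  have hψu : ∀ j (α : 𝓞 K), α ∉ P j → ψ j (ρ j α) = gG θ χ (lj j α) := by
    intro j α hα
    obtain ⟨w, hw⟩ := ((hρ j).unit (h.deg j) hp (h.nu j) α).2 hα
    rw [← hw, hψ]
    simp only
    rw [MulChar.ofUnitHom_coe, MonoidHom.coe_toHomUnits]
    show gG θ χ (lj j (σ j (w : ZMod (p ^ ν j)))) = _
    refine hgl j _ _ (hσu j w) ?_
    rw [hσ, hw]
  set F : 𝓞 K → ℂ := fun α => if IsCoprime (Ideal.span {α}) f then gG θ χ (l0 α) else 0 with hF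
  -- the decomposition
  have hdec : ∀ α, IsCoprime (Ideal.span {α}) (mo f P ν) → gG θ χ α = F α * ∏ j, ψ j (ρ j α) := by
    intro α hα
    obtain ⟨hα1, hα2⟩ := cop_of_mo h hα
    have h1 : F α = gG θ χ (l0 α) := by simp only [hF]; rw [if_pos hα1]
    have h2 : ∏ j, ψ j (ρ j α) = ∏ j, gG θ χ (lj j α) := prod_congr rfl fun j _ => hψu j α (hα2 j)
    have h3 : ∀ S : Finset J, ∏ j ∈ S, gG θ χ (lj j α) = gG θ χ (∏ j ∈ S, lj j α) := by
      intro S
      induction S using Finset.induction_on with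
      | empty =>
        rw [prod_empty, prod_empty]
        exact (gG_one hm hi (by rw [sub_self]; exact zero_mem _)).symm
      | insert j S hj ih =>
        rw [prod_insert hj, prod_insert hj, ih, gG_mul (hljne j α (hα2 j))
          (prod_ne_zero_iff.2 fun i _ => hljne i α (hα2 i))]
    rw [h1, h2, h3, ← gG_mul (cop_ne hm (hl0c α hα1))
      (prod_ne_zero_iff.2 fun i _ => hljne i α (hα2 i))]
    refine gG_congr hm hi hα (mem_mo h hf ?_ fun i => ?_)
    · rw [← Ideal.Quotient.mk_eq_mk_iff_sub_mem, map_mul, map_prod]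
      have q1 : Ideal.Quotient.mk f (l0 α) = Ideal.Quotient.mk f α :=
        (Ideal.Quotient.mk_eq_mk_iff_sub_mem _ _).2 (hl01 α)
      have q2 : ∀ j, Ideal.Quotient.mk f (lj j α) = 1 := fun j => by
        rw [← map_one (Ideal.Quotient.mk f)]
        exact (Ideal.Quotient.mk_eq_mk_iff_sub_mem _ _).2 (hlj3 j α)
      rw [q1, prod_eq_one fun j _ => q2 j, mul_one]
    · rw [← Ideal.Quotient.mk_eq_mk_iff_sub_mem, map_mul, map_prod]
      have q1 : Ideal.Quotient.mk (P i ^ ν i) (l0 α) = 1 := by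
        rw [← map_one (Ideal.Quotient.mk (P i ^ ν i))]
        exact (Ideal.Quotient.mk_eq_mk_iff_sub_mem _ _).2 (hl02 α i)
      have q2 : ∀ j, j ≠ i → Ideal.Quotient.mk (P i ^ ν i) (lj j α) = 1 := fun j hj => by
        rw [← map_one (Ideal.Quotient.mk (P i ^ ν i))]
        exact (Ideal.Quotient.mk_eq_mk_iff_sub_mem _ _).2 (hlj2 j α i hj.symm)
      have q3 : Ideal.Quotient.mk (P i ^ ν i) (lj i α) = Ideal.Quotient.mk (P i ^ ν i) α :=
        (Ideal.Quotient.mk_eq_mk_iff_sub_mem _ _).2 (hlj1 i α)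
      rw [q1, one_mul, prod_eq_single i (fun j _ hj => q2 j hj)
        (fun h0 => absurd (mem_univ i) h0), q3]
  refine ⟨ψ, F, ?_, ?_, ?_, ?_⟩
  · -- primitivity
    intro j
    rw [DirichletCharacter.isPrimitive_def]
    obtain ⟨i, hi', hie⟩ := (Nat.dvd_prime_pow hp).1 (DirichletCharacter.conductor_dvd_level (ψ j))
    rcases hi'.eq_or_lt with h2 | h2
    · rw [hie, h2]
    · exfalso
      obtain ⟨α, hα1, hα2, hα3⟩ := hχ.prim j
      have hαP := (cop_of_mo h hα2).2
      have hfac := DirichletCharacter.factorsThrough_conductor (ψ j)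
      rw [hie] at hfac
      have hker := (DirichletCharacter.factorsThrough_iff_ker_unitsMap hfac.dvd).1 hfac
      obtain ⟨w, hw⟩ := ((hρ j).unit (h.deg j) hp (h.nu j) α).2 (hαP j)
      have hαj : α - 1 ∈ P j ^ (ν j - 1) := by
        have := (mo_le_P (f := f) (P := P) (ν := Function.update ν j (ν j - 1)) j) hα1
        rwa [Function.update_self] at this
      have hαi : ∀ i, i ≠ j → α - 1 ∈ P i ^ ν i := fun i hij => by
        have := (mo_le_P (f := f) (P := P) (ν := Function.update ν j (ν j - 1)) i) hα1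
        rwa [Function.update_of_ne hij] at this
      have hαf : α - 1 ∈ f := mo_le_f hα1
      have h1 : w ∈ (ZMod.unitsMap hfac.dvd).ker := by
        rw [MonoidHom.mem_ker, Units.ext_iff, Units.val_one, ZMod.unitsMap_val]
        obtain ⟨y, hy⟩ := (hρ j).ge (h.deg j) hp (h.nu j) (show ν j - 1 ≤ ν j by omega) hαj
        rw [map_sub, map_one, ← hw] at hy
        have h3 : (w : ZMod (p ^ ν j)) = 1 + (p : ZMod (p ^ ν j)) ^ (ν j - 1) * y := by
          linear_combination hy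
        have h4 : ((w : ZMod (p ^ ν j)).cast : ZMod (p ^ i)) =
            ZMod.castHom hfac.dvd (ZMod (p ^ i)) (w : ZMod (p ^ ν j)) := by
          rw [ZMod.castHom_apply]
        rw [h4, h3, map_add, map_one, map_mul, map_pow, map_natCast, pi_zero (by omega), zero_mul,
          add_zero]
      have h5 := hker h1
      rw [MonoidHom.mem_ker, Units.ext_iff, MulChar.coe_toUnitHom, Units.val_one, hw] at h5
      have h6 := hdec α hα2
      have h7 : F α = 1 := by
        have hcα : IsCoprime (Ideal.span {α}) f := h1f hαf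
        simp only [hF]
        rw [if_pos hcα]
        refine gG_one hm hi (mem_mo h hf ?_ fun i => hl02 α i)
        have := add_mem (hl01 α) hαf
        simpa using this
      have h8 : ∀ i, i ≠ j → ψ i (ρ i α) = 1 := by
        intro i hij
        have : ρ i α = 1 := by
          rw [← map_one (ρ i)]
          exact (rho_pow hρ).2 (hαi i hij)
        rw [this, map_one]
      rw [h7, one_mul, prod_eq_single j (fun i _ hij => h8 i hij)
        (fun h0 => absurd (mem_univ j) h0), h5] at h6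
      apply hα3
      unfold gG at h6
      have h9 : (α : K) ≠ 0 := by exact_mod_cast cop_ne hm hα2
      have h10 := infK_ne θ h9
      field_simp at h6
      exact h6
  · intro α
    simp only [hF]
    split_ifs with h1
    · exact (gG_norm hm hχ.norm (hl0c α h1)).le
    · simp
  · intro α β hαβ
    simp only [hF]
    have hβα : β - α ∈ f := by
      have := neg_mem hαβ
      simpa using this
    by_cases h1 : IsCoprime (Ideal.span {α}) f
    · rw [if_pos h1, if_pos (hcf hβα h1)]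
      refine gG_congr hm hi (hl0c α h1) (mem_mo h hf ?_ fun j => ?_)
      · have h2 := add_mem (sub_mem (hl01 α) (hl01 β)) hαβ
        have : l0 α - α - (l0 β - β) + (α - β) = l0 α - l0 β := by ring
        rwa [this] at h2
      · have := sub_mem (hl02 α j) (hl02 β j)
        simpa using this
    · rw [if_neg h1, if_neg fun h2 => h1 (hcf hαβ h2)]
  · intro α
    by_cases hα : IsCoprime (Ideal.span {α}) (mo f P ν)
    · rw [← hdec α hα]
      unfold gG
      have h9 : (α : K) ≠ 0 := by exact_mod_cast cop_ne hm hα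
      rw [mul_assoc, inv_mul_cancel₀ (infK_ne θ h9), mul_one]
    · rw [hχ.zero _ hα]
      by_cases h1 : IsCoprime (Ideal.span {α}) f
      · have h2 : ∃ j, α ∈ P j := by
          by_contra hcon
          push Not at hcon
          exact hα (cop_parts h hf h1 hcon)
        obtain ⟨j, hj⟩ := h2
        have h3 : ψ j (ρ j α) = 0 := MulChar.map_nonunit _
          (fun h3 => ((hρ j).unit (h.deg j) hp (h.nu j) α).1 h3 hj)
        rw [prod_eq_zero (mem_univ j) h3]
        ring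
      · have h2 : F α = 0 := by simp only [hF]; rw [if_neg h1]
        rw [h2]
        ring

end Pool.Agent.T2H29.SW
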