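import Pool.Agent.T2H29.SW.U3

/-!
# Complete sums with four factors modulo prime powers: stationary points
-/

set_option autoImplicit false
set_option linter.unusedSectionVars false

namespace Pool.Agent.T2H29.SW

open Finset NumberField NumberField.InfinitePlace Module

variable {K : Type} [Field K] [NumberField K]

/-- division by an element of small valuation -/
lemma pdiv {P : Ideal (𝓞 K)} (hP : Prime P) {a b : 𝓞 K} {t i : ℕ} (h : a * b ∈ P ^ t)
    (ha : a ∉ P ^ (i + 1)) : b ∈ P ^ (t - i) := by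
  have ha0 : Ideal.span {a} ≠ 0 := by
    intro h0
    apply ha
    have : a = 0 := Ideal.span_singleton_eq_bot.1 h0
    rw [this]
    exact zero_mem _
  obtain ⟨v, A, hA, hvA⟩ := WfDvdMonoid.max_power_factor ha0 hP.irreducible
  have hv : v ≤ i := by
    by_contra hcon
    push Not at hcon
    apply ha
    have h1 : P ^ (i + 1) ∣ Ideal.span {a} := by
      rw [hvA]
      exact dvd_mul_of_dvd_left (pow_dvd_pow P hcon) _
    rw [Ideal.dvd_iff_le, Ideal.span_singleton_le_iff_mem] at h1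
    exact h1
  have h2 : P ^ t ∣ Ideal.span {a} * Ideal.span {b} := by
    rw [Ideal.span_singleton_mul_span_singleton, Ideal.dvd_iff_le, Ideal.span_singleton_le_iff_mem]
    exact h
  rcases le_total t v with h3 | h3
  · have : t - i = 0 := by omega
    rw [this, pow_zero, Ideal.one_eq_top]
    exact Submodule.mem_top
  · rw [hvA, mul_assoc] at h2
    have e1 : P ^ t = P ^ v * P ^ (t - v) := by
      rw [← pow_add]
      congr 1
      omega
    rw [e1] at h2
    have h4 : P ^ (t - v) ∣ A * Ideal.span {b} :=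
      (mul_dvd_mul_iff_left (pow_ne_zero v hP.ne_zero)).1 h2
    have h5 := hP.pow_dvd_of_dvd_mul_left _ hA h4
    rw [Ideal.dvd_iff_le, Ideal.span_singleton_le_iff_mem] at h5
    exact Ideal.pow_le_pow_right (by omega) h5

lemma pmul_not {P : Ideal (𝓞 K)} (hP : Prime P) {a b : 𝓞 K} {i j : ℕ} (ha : a ∉ P ^ (i + 1))
    (hb : b ∉ P ^ (j + 1)) : a * b ∉ P ^ (i + j + 1) := by
  intro h
  have h1 := pdiv hP h ha
  have : i + j + 1 - i = j + 1 := by omega
  rw [this] at h1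
  exact hb h1

/-- solving linear congruences -/
lemma cover {P : Ideal (𝓞 K)} (hP : Prime P) {w : 𝓞 K} {a b : ℕ} (hw : w ∈ P ^ a)
    (hw' : w ∉ P ^ (a + 1)) {y : 𝓞 K} (hy : y ∈ P ^ (a + b)) :
    ∃ z ∈ P ^ b, z * w - y ∈ P ^ (a + b + 1) := by
  have hPm : P.IsMaximal := (Ideal.isPrime_of_prime hP).isMaximal hP.ne_zero
  have h1 : P ^ a ∣ Ideal.span {w} := by
    rw [Ideal.dvd_iff_le, Ideal.span_singleton_le_iff_mem]
    exact hw
  obtain ⟨J, hJ⟩ := h1
  have hJP : ¬ J ≤ P := by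
    intro h2
    apply hw'
    have h3 : P ^ (a + 1) ∣ Ideal.span {w} := by
      rw [hJ, pow_succ]
      exact mul_dvd_mul_left _ (Ideal.dvd_iff_le.2 h2)
    rw [Ideal.dvd_iff_le, Ideal.span_singleton_le_iff_mem] at h3
    exact h3
  have hJt : J ⊔ P = ⊤ := by
    rw [sup_comm]
    refine hPm.1.2 _ (lt_of_le_of_ne le_sup_left fun h => hJP ?_)
    rw [h]
    exact le_sup_right
  have h4 : P ^ b * Ideal.span {w} ⊔ P ^ (a + b + 1) = P ^ (a + b) := by
    have e1 : P ^ b * Ideal.span {w} = P ^ (a + b) * J := by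
      rw [hJ, pow_add]
      ring
    rw [e1, pow_succ, ← Ideal.mul_sup, hJt, Ideal.mul_top]
  rw [← h4] at hy
  obtain ⟨u, hu, v, hv, huv⟩ := Submodule.mem_sup.1 hy
  obtain ⟨z, hz, hzw⟩ := Ideal.mem_mul_span_singleton.1 hu
  refine ⟨z, hz, ?_⟩
  have e2 : z * w - y = -v := by
    rw [hzw, ← huv]
    ring
  rw [e2]
  exact neg_mem hv

lemma cop_pk {P : Ideal (𝓞 K)} (hP : Prime P) {k : ℕ} (hk : 1 ≤ k) {α : 𝓞 K} :
    IsCoprime (Ideal.span {α}) (P ^ k) ↔ α ∉ P := by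
  have hPp : P.IsPrime := Ideal.isPrime_of_prime hP
  rw [← not_iff_not, not_not, not_cop]
  constructor
  · rintro ⟨P', hP', h1, h2⟩
    have h3 : P ≤ P' := Ideal.IsPrime.le_of_pow_le h2
    have h4 : P = P' := (hPp.isMaximal hP.ne_zero).eq_of_le hP'.ne_top h3
    rw [h4]; exact h1
  · intro h
    exact ⟨P, hPp, h, Ideal.pow_le_self (by omega)⟩

lemma prim_contra {P : Ideal (𝓞 K)} (hP : Prime P) {k : ℕ} (hk : 1 ≤ k) {F : 𝓞 K → ℂ}
    (hF : PM (P ^ k) F) (h : ∀ y ∈ P ^ (k - 1), F (1 + y) = 1) : False := by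
  haveI hPp : P.IsPrime := Ideal.isPrime_of_prime hP
  have hlt : P ^ k < P ^ (k - 1) := by
    have := Ideal.pow_succ_lt_pow hP.ne_zero (k - 1)
    have e : k - 1 + 1 = k := by omega
    rwa [e] at this
  obtain ⟨α, hα1, hα2, hα3⟩ := hF.prim _ hlt
  apply hα3
  have h1 := h (α - 1) hα1
  have e1 : 1 + (α - 1) = α := by ring
  rwa [e1] at h1

/-- a stationary point solves the stationary equation -/
lemma stat_gen {P : Ideal (𝓞 K)} (hP : Prime P) {k j : ℕ} (hj : 1 ≤ j) (hjk : j < k)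
    {F : 𝓞 K → ℂ} (hF : PM (P ^ k) F)
    {b1 b2 b3 b4 y : 𝓞 K} (h1 : y + b1 ∉ P) (h2 : y + b2 ∉ P) (h3 : y + b3 ∉ P) (h4 : y + b4 ∉ P)
    (hcond : ∀ w ∈ P ^ j, w * w * ((y + b3) * (y + b4) - (y + b1) * (y + b2)) ∈ P ^ k)
    (hst : ∀ z ∈ P ^ j, PF F b1 b2 b3 b4 (y + z) = PF F b1 b2 b3 b4 y) :
    QQ b1 b2 b3 b4 y ∈ P ^ (k - j) := by
  classical
  have hPp : P.IsPrime := Ideal.isPrime_of_prime hP
  have hn : ∀ α : 𝓞 K, α ∉ P → ‖F α‖ = 1 := fun α hα => hF.norm _ ((cop_pk hP (by omega)).2 hα)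
  have hmul : ∀ α β : 𝓞 K, α ∉ P → β ∉ P → α * β ∉ P := fun α β hα hβ h =>
    (hPp.mem_or_mem h).elim hα hβ
  have hadd : ∀ α z : 𝓞 K, α ∉ P → z ∈ P → α + z ∉ P := fun α z hα hz h =>
    hα (by simpa using sub_mem h hz)
  by_contra hQ
  have hex : ∃ n, QQ b1 b2 b3 b4 y ∉ P ^ n := ⟨_, hQ⟩
  set n := Nat.find hex with hnd
  have hn1 : QQ b1 b2 b3 b4 y ∉ P ^ n := Nat.find_spec hex
  have hnle : n ≤ k - j := Nat.find_min' hex hQ
  have hn0 : n ≠ 0 := by
    intro h0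
    rw [h0, pow_zero, Ideal.one_eq_top] at hn1
    exact hn1 Submodule.mem_top
  obtain ⟨v, hv⟩ : ∃ v, n = v + 1 := ⟨n - 1, by omega⟩
  have hv1 : QQ b1 b2 b3 b4 y ∈ P ^ v := by
    by_contra hcon
    have := Nat.find_min' hex hcon
    omega
  rw [hv] at hn1
  set p1 := y + b1 with hp1
  set p2 := y + b2 with hp2
  set p3 := y + b3 with hp3
  set p4 := y + b4 with hp4
  set D := p1 * p2 * (p3 * p4) with hD
  have hjP : P ^ j ≤ P := Ideal.pow_le_self (by omega)
  refine prim_contra hP (k := k) (by omega) hF fun y' hy' => ?_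
  have hDy : D * y' ∈ P ^ (v + (k - 1 - v)) := by
    have e1 : v + (k - 1 - v) = k - 1 := by omega
    rw [e1]
    exact Ideal.mul_mem_left _ _ hy'
  obtain ⟨z, hz, hzw⟩ := cover hP hv1 hn1 hDy
  have e1 : v + (k - 1 - v) + 1 = k := by omega
  rw [e1] at hzw
  have hzj : z ∈ P ^ j := Ideal.pow_le_pow_right (by omega) hz
  have hzP : z ∈ P := hjP hzj
  have h5 := hst z hzj
  unfold PF at h5
  have e2 : F (y + z + b1) * F (y + z + b2) * ((starRingEnd ℂ) (F (y + z + b3)) *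
      (starRingEnd ℂ) (F (y + z + b4))) = F ((p1 + z) * (p2 + z)) *
      (starRingEnd ℂ) (F ((p3 + z) * (p4 + z))) := by
    have a1 : y + z + b1 = p1 + z := by rw [hp1]; ring
    have a2 : y + z + b2 = p2 + z := by rw [hp2]; ring
    have a3 : y + z + b3 = p3 + z := by rw [hp3]; ring
    have a4 : y + z + b4 = p4 + z := by rw [hp4]; ring
    rw [hF.mul, hF.mul, map_mul, a1, a2, a3, a4]
  have e3 : F (y + b1) * F (y + b2) * ((starRingEnd ℂ) (F (y + b3)) *
      (starRingEnd ℂ) (F (y + b4))) = F (p1 * p2) * (starRingEnd ℂ) (F (p3 * p4)) := by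
    rw [hF.mul, hF.mul, map_mul]
  rw [e2, e3, ← conj_rel (hn _ (hmul _ _ (hadd _ _ h3 hzP) (hadd _ _ h4 hzP)))
    (hn _ (hmul _ _ h3 h4)), ← hF.mul, ← hF.mul] at h5
  set A := p1 * p2 * ((p3 + z) * (p4 + z)) with hA
  have hAP : A ∉ P := hmul _ _ (hmul _ _ h1 h2) (hmul _ _ (hadd _ _ h3 hzP) (hadd _ _ h4 hzP))
  have h6 : F ((p1 + z) * (p2 + z) * (p3 * p4)) = F (A * (1 + y')) := by
    refine hF.per _ _ ?_
    have e4 : (p1 + z) * (p2 + z) * (p3 * p4) - A * (1 + y') =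
        z * z * (p3 * p4 - p1 * p2) + (z * QQ b1 b2 b3 b4 y - D * y') +
        (-(z * ((p3 + p4 + z) * (p1 * p2)))) * y' := by
      rw [hA, hD, hp1, hp2, hp3, hp4]
      unfold QQ
      ring
    rw [e4]
    refine add_mem (add_mem (hcond z hzj) hzw) ?_
    have e5 : P ^ k = P * P ^ (k - 1) := by
      rw [← pow_succ']
      congr 1
      omega
    rw [e5]
    exact Ideal.mul_mem_mul (neg_mem (Ideal.mul_mem_right _ _ hzP)) hy'
  rw [h6, hF.mul] at h5
  have hFA : F A ≠ 0 := by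
    intro h0
    have := hn A hAP
    rw [h0, norm_zero] at this
    exact zero_ne_one this
  have h7 : F A * F (1 + y') = F A * 1 := by rw [h5, mul_one]
  exact mul_left_cancel₀ hFA h7

end Pool.Agent.T2H29.SW
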