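import Pool.Agent.T2H29.SW.Y1

/-!
# Complete sums with four factors modulo prime powers: averaging and counting
-/

set_option autoImplicit false
set_option linter.unusedSectionVars false

namespace Pool.Agent.T2H29.SW

open Finset NumberField NumberField.InfinitePlace Module

variable {K : Type} [Field K] [NumberField K]

/-- the four factors are units -/
def Adm (P : Ideal (𝓞 K)) (b1 b2 b3 b4 y : 𝓞 K) : Prop :=
  y + b1 ∉ P ∧ y + b2 ∉ P ∧ y + b3 ∉ P ∧ y + b4 ∉ P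

section
variable {P : Ideal (𝓞 K)} {k : ℕ} {F : 𝓞 K → ℂ} {b1 b2 b3 b4 : 𝓞 K}

lemma PF_zero (hP : Prime P) (hk : 1 ≤ k) (hF : PM (P ^ k) F) {y : 𝓞 K}
    (h : ¬ Adm P b1 b2 b3 b4 y) : PF F b1 b2 b3 b4 y = 0 := by
  have h0 : ∀ b, y + b ∈ P → F (y + b) = 0 := fun b hb =>
    hF.zero _ fun h => (cop_pk hP hk).1 h hb
  unfold Adm at h
  unfold PF
  by_cases a1 : y + b1 ∈ P
  · rw [h0 _ a1]; ring
  by_cases a2 : y + b2 ∈ P
  · rw [h0 _ a2]; ring
  by_cases a3 : y + b3 ∈ P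
  · rw [h0 _ a3, map_zero]; ring
  by_cases a4 : y + b4 ∈ P
  · rw [h0 _ a4, map_zero]; ring
  · exact absurd ⟨a1, a2, a3, a4⟩ h

lemma PF_norm (hP : Prime P) (hk : 1 ≤ k) (hF : PM (P ^ k) F) {y : 𝓞 K}
    (h : Adm P b1 b2 b3 b4 y) : ‖PF F b1 b2 b3 b4 y‖ = 1 := by
  have hn : ∀ α : 𝓞 K, α ∉ P → ‖F α‖ = 1 := fun α hα => hF.norm _ ((cop_pk hP hk).2 hα)
  unfold PF
  rw [norm_mul, norm_mul, norm_mul, RCLike.norm_conj, RCLike.norm_conj, hn _ h.1, hn _ h.2.1,
    hn _ h.2.2.1, hn _ h.2.2.2]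
  norm_num

lemma Adm_add {y z : 𝓞 K} (hz : z ∈ P) : Adm P b1 b2 b3 b4 (y + z) ↔ Adm P b1 b2 b3 b4 y := by
  have h : ∀ b, y + z + b ∈ P ↔ y + b ∈ P := by
    intro b
    have e1 : y + z + b = (y + b) + z := by ring
    rw [e1]
    constructor
    · intro h
      simpa using sub_mem h hz
    · intro h
      exact add_mem h hz
  unfold Adm
  rw [h, h, h, h]

/-- multiplicativity, small steps -/
lemma hmul1 (hF : PM (P ^ k) F) {j : ℕ} (hj : k ≤ 2 * j) (y z z' : 𝓞 K) (hz : z ∈ P ^ j)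
    (hz' : z' ∈ P ^ j) : PF F b1 b2 b3 b4 (y + z + z') * PF F b1 b2 b3 b4 y =
      PF F b1 b2 b3 b4 (y + z) * PF F b1 b2 b3 b4 (y + z') := by
  have h0 : ∀ b, F (y + z + z' + b) * F (y + b) = F (y + z + b) * F (y + z' + b) := by
    intro b
    rw [← hF.mul, ← hF.mul]
    refine hF.per _ _ ?_
    have e1 : (y + z + z' + b) * (y + b) - (y + z + b) * (y + z' + b) = -(z * z') := by ring
    rw [e1]
    have h2 : z * z' ∈ P ^ (j + j) := by
      rw [pow_add]
      exact Ideal.mul_mem_mul hz hz'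
    exact neg_mem (Ideal.pow_le_pow_right (by omega) h2)
  have h0' : ∀ b, (starRingEnd ℂ) (F (y + z + z' + b)) * (starRingEnd ℂ) (F (y + b)) =
      (starRingEnd ℂ) (F (y + z + b)) * (starRingEnd ℂ) (F (y + z' + b)) := by
    intro b
    rw [← map_mul, ← map_mul, h0]
  unfold PF
  calc _ = (F (y + z + z' + b1) * F (y + b1)) * (F (y + z + z' + b2) * F (y + b2)) *
        (((starRingEnd ℂ) (F (y + z + z' + b3)) * (starRingEnd ℂ) (F (y + b3))) *
        ((starRingEnd ℂ) (F (y + z + z' + b4)) * (starRingEnd ℂ) (F (y + b4)))) := by ring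
    _ = _ := by
        rw [h0, h0, h0', h0']
        ring

/-- a pair of close factors -/
lemma pair_rel (hP : Prime P) (hk : 1 ≤ k) (hF : PM (P ^ k) F) {j : ℕ} (hj1 : 1 ≤ j)
    (hj : k ≤ 2 * j + 1) {b b' y z z' : 𝓞 K} (hb : b - b' ∈ P) (h1 : y + b ∉ P) (h2 : y + b' ∉ P)
    (hz : z ∈ P ^ j) (hz' : z' ∈ P ^ j) :
    (F (y + z + z' + b) * F (y + b)) * (starRingEnd ℂ) (F (y + z + z' + b') * F (y + b')) =
    (F (y + z + b) * F (y + z' + b)) * (starRingEnd ℂ) (F (y + z + b') * F (y + z' + b')) := by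
  have hPp : P.IsPrime := Ideal.isPrime_of_prime hP
  have hn : ∀ α : 𝓞 K, α ∉ P → ‖F α‖ = 1 := fun α hα => hF.norm _ ((cop_pk hP hk).2 hα)
  have hmul : ∀ α β : 𝓞 K, α ∉ P → β ∉ P → α * β ∉ P := fun α β hα hβ h =>
    (hPp.mem_or_mem h).elim hα hβ
  have hadd : ∀ α z : 𝓞 K, α ∉ P → z ∈ P → α + z ∉ P := fun α z hα hz h =>
    hα (by simpa using sub_mem h hz)
  have hjP : P ^ j ≤ P := Ideal.pow_le_self (by omega)
  have a1 : y + z + b' ∉ P := by
    have e : y + z + b' = (y + b') + z := by ring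
    rw [e]
    exact hadd _ _ h2 (hjP hz)
  have a2 : y + z' + b' ∉ P := by
    have e : y + z' + b' = (y + b') + z' := by ring
    rw [e]
    exact hadd _ _ h2 (hjP hz')
  have a3 : y + z + z' + b' ∉ P := by
    have e : y + z + z' + b' = (y + z + b') + z' := by ring
    rw [e]
    exact hadd _ _ a1 (hjP hz')
  rw [← hF.mul, ← hF.mul, ← hF.mul, ← hF.mul]
  rw [← conj_rel (hn _ (hmul _ _ a3 h2)) (hn _ (hmul _ _ a1 a2)), ← hF.mul, ← hF.mul]
  refine hF.per _ _ ?_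
  have e1 : (y + z + z' + b) * (y + b) * ((y + z + b') * (y + z' + b')) -
      (y + z + b) * (y + z' + b) * ((y + z + z' + b') * (y + b')) =
      z * z' * ((b - b') * (b + b' + 2 * y + z + z')) := by ring
  rw [e1]
  have h3 : z * z' * ((b - b') * (b + b' + 2 * y + z + z')) ∈ P ^ (j + j + 1) := by
    rw [pow_succ, pow_add]
    exact Ideal.mul_mem_mul (Ideal.mul_mem_mul hz hz') (Ideal.mul_mem_right _ _ hb)
  exact Ideal.pow_le_pow_right (by omega) h3

/-- multiplicativity, paired factors -/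
lemma hmul2 (hP : Prime P) (hk : 1 ≤ k) (hF : PM (P ^ k) F) {j : ℕ} (hj1 : 1 ≤ j)
    (hj : k ≤ 2 * j + 1) (hb : b1 - b3 ∈ P) (hb' : b2 - b4 ∈ P) (y z z' : 𝓞 K) (hz : z ∈ P ^ j)
    (hz' : z' ∈ P ^ j) : PF F b1 b2 b3 b4 (y + z + z') * PF F b1 b2 b3 b4 y =
      PF F b1 b2 b3 b4 (y + z) * PF F b1 b2 b3 b4 (y + z') := by
  have hjP : P ^ j ≤ P := Ideal.pow_le_self (by omega)
  by_cases hA : Adm P b1 b2 b3 b4 y
  · have r1 := pair_rel hP hk hF hj1 hj hb hA.1 hA.2.2.1 hz hz'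
    have r2 := pair_rel hP hk hF hj1 hj hb' hA.2.1 hA.2.2.2 hz hz'
    simp only [map_mul] at r1 r2
    unfold PF
    calc _ = ((F (y + z + z' + b1) * F (y + b1)) *
          ((starRingEnd ℂ) (F (y + z + z' + b3)) * (starRingEnd ℂ) (F (y + b3)))) *
          ((F (y + z + z' + b2) * F (y + b2)) *
          ((starRingEnd ℂ) (F (y + z + z' + b4)) * (starRingEnd ℂ) (F (y + b4)))) := by ring
      _ = _ := by
          rw [r1, r2]
          ring
  · rw [PF_zero hP hk hF hA, PF_zero hP hk hF (mt (Adm_add (hjP hz)).1 hA)]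
    ring

lemma QQ_add {t : ℕ} {y z : 𝓞 K} (hz : z ∈ P ^ t) :
    QQ b1 b2 b3 b4 (y + z) ∈ P ^ t ↔ QQ b1 b2 b3 b4 y ∈ P ^ t := by
  have e1 : QQ b1 b2 b3 b4 (y + z) = QQ b1 b2 b3 b4 y + z *
      (2 * ((y + b3) * (y + b4)) + (2 * y + 2 * z + b1 + b2) * (2 * y + z + b3 + b4) -
      2 * ((y + b1) * (y + b2)) - (2 * y + 2 * z + b3 + b4) * (2 * y + z + b1 + b2)) := by
    unfold QQ
    ring
  have h2 : z * (2 * ((y + b3) * (y + b4)) + (2 * y + 2 * z + b1 + b2) * (2 * y + z + b3 + b4) -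
      2 * ((y + b1) * (y + b2)) - (2 * y + 2 * z + b3 + b4) * (2 * y + z + b1 + b2)) ∈ P ^ t :=
    Ideal.mul_mem_right _ _ hz
  rw [e1]
  constructor
  · intro h
    simpa using sub_mem h h2
  · intro h
    exact add_mem h h2

open scoped Classical in
/-- the partial sums -/
noncomputable def Tj (P : Ideal (𝓞 K)) (k j : ℕ) [Fintype (𝓞 K ⧸ P ^ k)] (g : 𝓞 K → ℂ) (c : 𝓞 K) : ℂ :=
  ∑ d : 𝓞 K ⧸ P ^ k, (if Quotient.out d ∈ P ^ j then g (c + Quotient.out d) else 0)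

open scoped Classical in
/-- the size of the subgroup -/
noncomputable def nj (P : Ideal (𝓞 K)) (k j : ℕ) [Fintype (𝓞 K ⧸ P ^ k)] : ℕ :=
  (univ.filter fun d : 𝓞 K ⧸ P ^ k => Quotient.out d ∈ P ^ j).card

lemma nj_pos (j : ℕ) [Fintype (𝓞 K ⧸ P ^ k)] (hjk : j ≤ k) : 0 < nj P k j := by
  classical
  unfold nj
  rw [card_pos]
  refine ⟨0, ?_⟩
  rw [mem_filter]
  refine ⟨mem_univ _, ?_⟩
  have := out_sub (P ^ k) 0
  rw [map_zero, sub_zero] at this
  exact Ideal.pow_le_pow_right hjk this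

lemma nj_mul (hP : Prime P) (j : ℕ) [Fintype (𝓞 K ⧸ P ^ k)] (hjk : j ≤ k) :
    nj P k j * Ideal.absNorm P ^ j ≤ Ideal.absNorm P ^ k := by
  classical
  have h1 := cnt_le (b := P ^ k) (l := P ^ j) (pow_ne_zero k hP.ne_zero)
    (pow_ne_zero j hP.ne_zero) (Ideal.pow_le_pow_right hjk) 0
  rw [map_pow, map_pow] at h1
  unfold nj
  simpa using h1

/-- the class sums are translation invariant -/
lemma sum_ind {g : 𝓞 K → ℂ} [Fintype (𝓞 K ⧸ P ^ k)] (hgp : PerO (P ^ k) g) {j : ℕ} (hjk : j ≤ k)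
    (c : 𝓞 K) {z : 𝓞 K} (hz : z ∈ P ^ j) : Tj P k j g (c + z) = Tj P k j g c := by
  classical
  set ψ : 𝓞 K → ℂ := fun x => if x ∈ P ^ j then g (c + x) else 0 with hψ
  have hle : P ^ k ≤ P ^ j := Ideal.pow_le_pow_right hjk
  have hψp : PerO (P ^ k) ψ := by
    intro x w hxw
    simp only [hψ]
    have h2 : g (c + x) = g (c + w) := hgp _ _ (by simpa using hxw)
    rw [h2]
    have h3 : x ∈ P ^ j ↔ w ∈ P ^ j := by
      constructor
      · intro h4
        have := sub_mem h4 (hle hxw)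
        simpa using this
      · intro h4
        have := add_mem (hle hxw) h4
        simpa using this
    by_cases h4 : x ∈ P ^ j
    · rw [if_pos h4, if_pos (h3.1 h4)]
    · rw [if_neg h4, if_neg (fun h5 => h4 (h3.2 h5))]
  have h1 := sQ_shift hψp z
  have h2 : Tj P k j g (c + z) = sQ (P ^ k) (fun x => ψ (x + z)) := by
    unfold Tj sQ
    refine sum_congr rfl fun d _ => ?_
    simp only [hψ]
    have e1 : (Quotient.out d : 𝓞 K) ∈ P ^ j ↔ (Quotient.out d : 𝓞 K) + z ∈ P ^ j := by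
      constructor
      · intro h
        exact add_mem h hz
      · intro h
        simpa using sub_mem h hz
    by_cases h3 : (Quotient.out d : 𝓞 K) ∈ P ^ j
    · rw [if_pos h3, if_pos (e1.1 h3)]
      congr 1
      ring
    · rw [if_neg h3, if_neg (fun h => h3 (e1.2 h))]
  rw [h2, h1]
  rfl

/-- averaging -/
lemma avg_T {g : 𝓞 K → ℂ} [Fintype (𝓞 K ⧸ P ^ k)] (hgp : PerO (P ^ k) g) (j : ℕ) :
    (nj P k j : ℂ) * sQ (P ^ k) g = ∑ c : 𝓞 K ⧸ P ^ k, Tj P k j g (Quotient.out c) := by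
  classical
  have h1 : (nj P k j : ℂ) = ∑ d : 𝓞 K ⧸ P ^ k, (if (Quotient.out d : 𝓞 K) ∈ P ^ j then (1 : ℂ) else 0) := by
    unfold nj
    rw [sum_boole]
  rw [h1, sum_mul]
  unfold Tj
  rw [sum_comm]
  refine sum_congr rfl fun d _ => ?_
  split_ifs with h
  · rw [one_mul, ← sQ_shift hgp (Quotient.out d)]
    rfl
  · rw [zero_mul, sum_const_zero]

/-- the class sum vanishes away from the stationary points -/
lemma T_stat {g : 𝓞 K → ℂ} [Fintype (𝓞 K ⧸ P ^ k)] (hgp : PerO (P ^ k) g) {j : ℕ} (hjk : j ≤ k)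
    {x : 𝓞 K} (hgx : g x ≠ 0)
    (hmul : ∀ z z', z ∈ P ^ j → z' ∈ P ^ j → g (x + z + z') * g x = g (x + z) * g (x + z'))
    (hT : Tj P k j g x ≠ 0) : ∀ z ∈ P ^ j, g (x + z) = g x := by
  classical
  intro z0 hz0
  by_contra hne
  apply hT
  have h1 := sum_ind hgp hjk x hz0
  have h2 : Tj P k j g (x + z0) * g x = Tj P k j g x * g (x + z0) := by
    unfold Tj
    rw [sum_mul, sum_mul]
    refine sum_congr rfl fun d _ => ?_
    split_ifs with hd
    · have e1 : x + z0 + Quotient.out d = x + Quotient.out d + z0 := by ring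
      rw [e1]
      exact hmul _ _ hd hz0
    · ring
  rw [h1] at h2
  have h3 : Tj P k j g x * (g x - g (x + z0)) = 0 := by rw [mul_sub, h2, sub_self]
  rcases mul_eq_zero.1 h3 with h4 | h4
  · exact h4
  · exact absurd (sub_eq_zero.1 h4).symm hne

lemma T_le {g : 𝓞 K → ℂ} [Fintype (𝓞 K ⧸ P ^ k)] (hg : ∀ x, ‖g x‖ ≤ 1) (j : ℕ) (x : 𝓞 K) :
    ‖Tj P k j g x‖ ≤ nj P k j := by
  classical
  unfold Tj nj
  refine (norm_sum_le _ _).trans ?_
  rw [card_filter]
  push_cast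
  refine sum_le_sum fun d _ => ?_
  split_ifs
  · exact hg _
  · rw [norm_zero]

open scoped Classical in
/-- the linear method -/
theorem lin_gen (hP : Prime P) {j t : ℕ} (hk : 1 ≤ k) (hj1 : 1 ≤ j) (hjk : j ≤ k)
    [Fintype (𝓞 K ⧸ P ^ k)] (hF : PM (P ^ k) F)
    (hmul : ∀ y z z', z ∈ P ^ j → z' ∈ P ^ j → PF F b1 b2 b3 b4 (y + z + z') *
      PF F b1 b2 b3 b4 y = PF F b1 b2 b3 b4 (y + z) * PF F b1 b2 b3 b4 (y + z'))
    (hst : ∀ y, Adm P b1 b2 b3 b4 y →
      (∀ z ∈ P ^ j, PF F b1 b2 b3 b4 (y + z) = PF F b1 b2 b3 b4 y) → QQ b1 b2 b3 b4 y ∈ P ^ t) :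
    ‖sQ (P ^ k) (PF F b1 b2 b3 b4)‖ ≤ ((univ.filter fun c : 𝓞 K ⧸ P ^ k =>
      Adm P b1 b2 b3 b4 (Quotient.out c) ∧ QQ b1 b2 b3 b4 (Quotient.out c) ∈ P ^ t).card : ℝ) := by
  set g := PF F b1 b2 b3 b4 with hg
  have hgp : PerO (P ^ k) g := PF_per (fun x y hxy => hF.per x y hxy) _ _ _ _
  have hg1 : ∀ x, ‖g x‖ ≤ 1 := PF_le hF _ _ _ _
  have hjP : P ^ j ≤ P := Ideal.pow_le_self (by omega)
  have hn0 : (0 : ℝ) < nj P k j := by exact_mod_cast nj_pos (P := P) (k := k) j hjk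
  have h1 := avg_T hgp j
  have hT : ∀ c : 𝓞 K ⧸ P ^ k, ‖Tj P k j g (Quotient.out c)‖ ≤
      if (Adm P b1 b2 b3 b4 (Quotient.out c) ∧ QQ b1 b2 b3 b4 (Quotient.out c) ∈ P ^ t)
      then (nj P k j : ℝ) else 0 := by
    intro c
    by_cases hA : Adm P b1 b2 b3 b4 (Quotient.out c)
    · by_cases hT0 : Tj P k j g (Quotient.out c) = 0
      · rw [hT0, norm_zero]
        split_ifs
        · exact hn0.le
        · exact le_rfl
      · have hgx : g (Quotient.out c) ≠ 0 := by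
          intro h0
          have := PF_norm hP hk hF hA
          rw [← hg, h0, norm_zero] at this
          exact zero_ne_one this
        have h2 := hst _ hA (T_stat hgp hjk hgx (fun z z' hz hz' => hmul _ z z' hz hz') hT0)
        rw [if_pos ⟨hA, h2⟩]
        exact T_le hg1 j _
    · have h2 : Tj P k j g (Quotient.out c) = 0 := by
        unfold Tj
        refine sum_eq_zero fun d _ => ?_
        split_ifs with hd
        · exact PF_zero hP hk hF (mt (Adm_add (hjP hd)).1 hA)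
        · rfl
      rw [h2, norm_zero, if_neg (fun h => hA h.1)]
  have h5 : (nj P k j : ℝ) * ‖sQ (P ^ k) g‖ ≤ (nj P k j : ℝ) *
      ((univ.filter fun c : 𝓞 K ⧸ P ^ k => Adm P b1 b2 b3 b4 (Quotient.out c) ∧
        QQ b1 b2 b3 b4 (Quotient.out c) ∈ P ^ t).card : ℝ) := by
    have e2 : (nj P k j : ℝ) * ‖sQ (P ^ k) g‖ = ‖(nj P k j : ℂ) * sQ (P ^ k) g‖ := by
      rw [norm_mul, Complex.norm_natCast]
    rw [e2, h1]
    refine (norm_sum_le _ _).trans ((sum_le_sum fun c _ => hT c).trans ?_)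
    rw [← sum_filter, sum_const, nsmul_eq_mul, mul_comm]
  exact le_of_mul_le_mul_left h5 hn0

open scoped Classical in
/-- the number of stationary points -/
theorem cntQ (hP : Prime P) {t w3 w4 e : ℕ} (htk : t ≤ k) [Fintype (𝓞 K ⧸ P ^ k)]
    (h3 : b1 - b3 ∈ P ^ w3) (h4 : b1 - b4 ∈ P ^ w4)
    (hw : w3 + w4 < t → b1 - b3 ∉ P ^ (w3 + 1) ∧ b1 - b4 ∉ P ^ (w4 + 1))
    (he : (2 : 𝓞 K) ∉ P ^ (e + 1)) :
    (univ.filter fun c : 𝓞 K ⧸ P ^ k => Adm P b1 b2 b3 b4 (Quotient.out c) ∧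
        QQ b1 b2 b3 b4 (Quotient.out c) ∈ P ^ t).card * Ideal.absNorm P ^ t ≤
      2 * Ideal.absNorm P ^ (k + (w3 + w4) + 2 * e) := by
  set N := Ideal.absNorm P with hN
  have hN1 : 1 ≤ N := nrm_pos hP.ne_zero
  have hPp : P.IsPrime := Ideal.isPrime_of_prime hP
  set U := univ.filter fun c : 𝓞 K ⧸ P ^ k => Adm P b1 b2 b3 b4 (Quotient.out c) ∧
        QQ b1 b2 b3 b4 (Quotient.out c) ∈ P ^ t with hU
  have hcls : ∀ (l : ℕ), l ≤ k → ∀ y0 : 𝓞 K,
      (univ.filter fun c : 𝓞 K ⧸ P ^ k => Quotient.out c - y0 ∈ P ^ l).card * N ^ l ≤ N ^ k := by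
    intro l hl y0
    have h1 := cnt_le (b := P ^ k) (l := P ^ l) (pow_ne_zero k hP.ne_zero)
      (pow_ne_zero l hP.ne_zero) (Ideal.pow_le_pow_right hl) y0
    rwa [map_pow, map_pow] at h1
  by_cases hs : w3 + w4 < t
  swap
  · -- the trivial bound
    have h1 : U.card ≤ N ^ k := by
      have h2 := hcls 0 (Nat.zero_le _) 0
      rw [show N ^ 0 = 1 from pow_zero N, mul_one] at h2
      refine (card_le_card fun c hc => ?_).trans h2
      rw [mem_filter]
      exact ⟨mem_univ _, by rw [pow_zero, Ideal.one_eq_top]; exact Submodule.mem_top⟩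
    calc U.card * N ^ t ≤ N ^ k * N ^ t := Nat.mul_le_mul_right _ h1
      _ = N ^ (k + t) := by rw [pow_add]
      _ ≤ N ^ (k + (w3 + w4) + 2 * e) := Nat.pow_le_pow_right hN1 (by omega)
      _ ≤ 2 * N ^ (k + (w3 + w4) + 2 * e) := by omega
  obtain ⟨h3', h4'⟩ := hw hs
  set s := w3 + w4 with hsd
  by_cases hne : U.Nonempty
  swap
  · rw [not_nonempty_iff_eq_empty] at hne
    rw [hne, card_empty, zero_mul]
    exact Nat.zero_le _
  obtain ⟨c0, hc0⟩ := hne
  have hc0' := (mem_filter.1 hc0).2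
  set x0 : 𝓞 K := Quotient.out c0 with hx0
  set y := x0 + b1 with hy
  set c3 := b3 - b1 with hc3
  set c4 := b4 - b1 with hc4
  set c2 := b2 - b1 with hc2
  set α := c3 + c4 - c2 with hα
  set u := α * y + c3 * c4 with hu
  have hQ0 : y * u + c3 * c4 * (y + c2) ∈ P ^ t := by
    have e1 : y * u + c3 * c4 * (y + c2) = QQ b1 b2 b3 b4 x0 := by
      rw [hu, hα, hc3, hc4, hc2, hy]
      unfold QQ
      ring
    rw [e1]
    exact hc0'.2
  have hyP : y ∉ P := hc0'.1.1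
  have hy2P : y + c2 ∉ P := by
    have e1 : y + c2 = x0 + b2 := by rw [hy, hc2]; ring
    rw [e1]
    exact hc0'.1.2.1
  have hyP1 : y ∉ P ^ (0 + 1) := by simpa using hyP
  have hy2P1 : y + c2 ∉ P ^ (0 + 1) := by simpa using hy2P
  have hc3m : c3 ∈ P ^ w3 := by
    have : c3 = -(b1 - b3) := by rw [hc3]; ring
    rw [this]; exact neg_mem h3
  have hc4m : c4 ∈ P ^ w4 := by
    have : c4 = -(b1 - b4) := by rw [hc4]; ring
    rw [this]; exact neg_mem h4
  have hc3n : c3 ∉ P ^ (w3 + 1) := by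
    intro h
    apply h3'
    have : b1 - b3 = -c3 := by rw [hc3]; ring
    rw [this]; exact neg_mem h
  have hc4n : c4 ∉ P ^ (w4 + 1) := by
    intro h
    apply h4'
    have : b1 - b4 = -c4 := by rw [hc4]; ring
    rw [this]; exact neg_mem h
  have hcc : c3 * c4 ∈ P ^ s := by
    rw [hsd, pow_add]
    exact Ideal.mul_mem_mul hc3m hc4m
  have hccn : c3 * c4 ∉ P ^ (s + 1) := pmul_not hP hc3n hc4n
  have huS : u ∈ P ^ s := by
    have h5 : y * u ∈ P ^ s := by
      have h6 : y * u = (y * u + c3 * c4 * (y + c2)) - c3 * c4 * (y + c2) := by ring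
      rw [h6]
      exact sub_mem (Ideal.pow_le_pow_right hs.le hQ0) (Ideal.mul_mem_right _ _ hcc)
    have h6 := pdiv hP h5 hyP1
    rwa [Nat.sub_zero] at h6
  have huN : u ∉ P ^ (s + 1) := by
    intro h
    apply hccn
    have h6 : (y + c2) * (c3 * c4) ∈ P ^ (s + 1) := by
      have h7 : (y + c2) * (c3 * c4) = (y * u + c3 * c4 * (y + c2)) - y * u := by ring
      rw [h7]
      exact sub_mem (Ideal.pow_le_pow_right hs hQ0) (Ideal.mul_mem_left _ _ h)
    have h7 := pdiv hP h6 hy2P1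
    rwa [Nat.sub_zero] at h7
  have hαS : α ∈ P ^ s := by
    have h5 : y * α ∈ P ^ s := by
      have h6 : y * α = u - c3 * c4 := by rw [hu]; ring
      rw [h6]
      exact sub_mem huS hcc
    have h6 := pdiv hP h5 hyP1
    rwa [Nat.sub_zero] at h6
  have h2u : 2 * u ∉ P ^ (s + e + 1) := by
    have h5 := pmul_not hP he huN
    have e1 : e + s + 1 = s + e + 1 := by ring
    rwa [e1] at h5
  -- the differences
  have hdiff : ∀ c ∈ U, (Quotient.out c - x0) * (2 * u + α * (Quotient.out c - x0)) ∈ P ^ t := by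
    intro c hc
    have h5 := ((mem_filter.1 hc).2).2
    have h6 := sub_mem h5 hc0'.2
    have e1 : QQ b1 b2 b3 b4 (Quotient.out c) - QQ b1 b2 b3 b4 x0 =
        (Quotient.out c - x0) * (2 * u + α * (Quotient.out c - x0)) := by
      rw [hu, hα, hc3, hc4, hc2, hy]
      unfold QQ
      ring
    rwa [e1] at h6
  set l := t - s - 2 * e with hl
  have hlk : l ≤ k := by omega
  set V1 := univ.filter fun c : 𝓞 K ⧸ P ^ k => Quotient.out c - x0 ∈ P ^ l with hV1
  have hcase : ∀ c ∈ U, c ∉ V1 → 2 * u + α * (Quotient.out c - x0) ∈ P ^ (s + e + 1) := by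
    intro c hc hcV
    by_contra hcon
    apply hcV
    rw [hV1, mem_filter]
    refine ⟨mem_univ _, ?_⟩
    have h5 := hdiff c hc
    rw [mul_comm] at h5
    have h6 := pdiv hP h5 hcon
    exact Ideal.pow_le_pow_right (by omega) h6
  have hcase2 : ∀ c ∈ U, c ∉ V1 → 2 * u + α * (Quotient.out c - x0) ∈ P ^ (t - e) := by
    intro c hc hcV
    have h5 := hcase c hc hcV
    have h6 : (Quotient.out c - x0 : 𝓞 K) ∉ P ^ (e + 1) := by
      intro h7
      apply h2u
      have h8 : 2 * u = (2 * u + α * (Quotient.out c - x0)) - α * (Quotient.out c - x0) := by ring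
      rw [h8]
      refine sub_mem h5 ?_
      have e2 : s + e + 1 = s + (e + 1) := by ring
      rw [e2, pow_add]
      exact Ideal.mul_mem_mul hαS h7
    exact pdiv hP (hdiff c hc) h6
  have hαN : ∀ c ∈ U, c ∉ V1 → α ∉ P ^ (s + e + 1) := by
    intro c hc hcV h7
    apply h2u
    have h8 : 2 * u = (2 * u + α * (Quotient.out c - x0)) - α * (Quotient.out c - x0) := by ring
    rw [h8]
    exact sub_mem (hcase c hc hcV) (Ideal.mul_mem_right _ _ h7)
  -- the cover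
  have hcov : ∃ y0 : 𝓞 K, U ⊆ V1 ∪ univ.filter fun c : 𝓞 K ⧸ P ^ k => Quotient.out c - y0 ∈ P ^ l := by
    by_cases hex : ∃ c ∈ U, c ∉ V1
    · obtain ⟨c1, hc1, hc1V⟩ := hex
      refine ⟨Quotient.out c1, fun c hc => ?_⟩
      rw [mem_union]
      by_cases hcV : c ∈ V1
      · exact Or.inl hcV
      · right
        rw [mem_filter]
        refine ⟨mem_univ _, ?_⟩
        have h5 := sub_mem (hcase2 c hc hcV) (hcase2 c1 hc1 hc1V)
        have e1 : 2 * u + α * (Quotient.out c - x0) - (2 * u + α * (Quotient.out c1 - x0)) =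
            α * (Quotient.out c - Quotient.out c1) := by ring
        rw [e1] at h5
        have h6 := pdiv hP h5 (hαN c hc hcV)
        exact Ideal.pow_le_pow_right (by omega) h6
    · push Not at hex
      exact ⟨0, fun c hc => mem_union_left _ (hex c hc)⟩
  obtain ⟨y0, hcov⟩ := hcov
  have h5 : U.card * N ^ l ≤ 2 * N ^ k := by
    have h6 := (card_le_card hcov).trans (card_union_le _ _)
    calc U.card * N ^ l ≤ (V1.card + (univ.filter fun c : 𝓞 K ⧸ P ^ k =>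
          Quotient.out c - y0 ∈ P ^ l).card) * N ^ l := Nat.mul_le_mul_right _ h6
      _ = V1.card * N ^ l + (univ.filter fun c : 𝓞 K ⧸ P ^ k =>
          Quotient.out c - y0 ∈ P ^ l).card * N ^ l := by ring
      _ ≤ N ^ k + N ^ k := add_le_add (hcls l hlk x0) (hcls l hlk y0)
      _ = 2 * N ^ k := by ring
  calc U.card * N ^ t ≤ U.card * N ^ (l + (s + 2 * e)) :=
        Nat.mul_le_mul_left _ (Nat.pow_le_pow_right hN1 (by omega))
    _ = (U.card * N ^ l) * N ^ (s + 2 * e) := by rw [pow_add]; ring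
    _ ≤ (2 * N ^ k) * N ^ (s + 2 * e) := Nat.mul_le_mul_right _ h5
    _ = _ := by
        have e1 : k + s + 2 * e = k + (s + 2 * e) := by ring
        rw [e1, pow_add N k]
        ring

end

end Pool.Agent.T2H29.SW
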