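import Pool.Agent.T2H29.SW.Y2

/-!
# Complete sums with four factors modulo odd prime powers: the quadratic case
-/

set_option autoImplicit false
set_option linter.unusedSectionVars false

namespace Pool.Agent.T2H29.SW

open Finset NumberField NumberField.InfinitePlace Module

variable {K : Type} [Field K] [NumberField K]

/-- the second-order discriminant -/
def R2 (b1 b2 b3 b4 y : 𝓞 K) : 𝓞 K :=
  ((y + b1) * (y + b2)) ^ 2 * ((y + b3) ^ 2 + (y + b4) ^ 2) -
    ((y + b1) ^ 2 + (y + b2) ^ 2) * ((y + b3) * (y + b4)) ^ 2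

/-- the product of the squares -/
def EE (b1 b2 b3 b4 y : 𝓞 K) : 𝓞 K := ((y + b1) * (y + b2)) ^ 2 * ((y + b3) * (y + b4)) ^ 2

section
variable {P : Ideal (𝓞 K)} {k : ℕ} {F : 𝓞 K → ℂ} {b1 b2 b3 b4 : 𝓞 K}

lemma R2_not (hP : Prime P) {y : 𝓞 K} (h2 : (2 : 𝓞 K) ∉ P) (h3 : b1 - b3 ∉ P) (h4 : b1 - b4 ∉ P)
    (hA : Adm P b1 b2 b3 b4 y) (hQ : QQ b1 b2 b3 b4 y ∈ P) : R2 b1 b2 b3 b4 y ∉ P := by
  have hPp : P.IsPrime := Ideal.isPrime_of_prime hP
  obtain ⟨a1, a2, a3, a4⟩ := hA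
  intro hR
  set p1 := y + b1 with hp1
  set p2 := y + b2 with hp2
  set p3 := y + b3 with hp3
  set p4 := y + b4 with hp4
  have e1 : (2 * (p1 * p2) * (p3 * p4)) * (p3 * p4 - p1 * p2) = R2 b1 b2 b3 b4 y +
      QQ b1 b2 b3 b4 y * ((p1 * p2) * (p3 + p4) + (p1 + p2) * (p3 * p4)) := by
    unfold R2 QQ
    rw [hp1, hp2, hp3, hp4]
    ring
  have h5 : (2 * (p1 * p2) * (p3 * p4)) * (p3 * p4 - p1 * p2) ∈ P := by
    rw [e1]
    exact add_mem hR (Ideal.mul_mem_right _ _ hQ)
  have hu : 2 * (p1 * p2) * (p3 * p4) ∉ P := by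
    intro h
    rcases hPp.mem_or_mem h with h | h
    · rcases hPp.mem_or_mem h with h | h
      · exact h2 h
      · exact (hPp.mem_or_mem h).elim a1 a2
    · exact (hPp.mem_or_mem h).elim a3 a4
  have h6 : p3 * p4 - p1 * p2 ∈ P := (hPp.mem_or_mem h5).resolve_left hu
  have e2 : (p1 + p2 - (p3 + p4)) * (p1 * p2) = QQ b1 b2 b3 b4 y -
      (p1 + p2) * (p3 * p4 - p1 * p2) := by
    unfold QQ
    rw [hp1, hp2, hp3, hp4]
    ring
  have h7 : (p1 + p2 - (p3 + p4)) * (p1 * p2) ∈ P := by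
    rw [e2]
    exact sub_mem hQ (Ideal.mul_mem_left _ _ h6)
  have h8 : p1 + p2 - (p3 + p4) ∈ P := (hPp.mem_or_mem h7).resolve_right
    fun h => (hPp.mem_or_mem h).elim a1 a2
  have e3 : (b1 - b3) * (b1 - b4) = p1 * (p1 + p2 - (p3 + p4)) + (p3 * p4 - p1 * p2) := by
    rw [hp1, hp2, hp3, hp4]
    ring
  have h9 : (b1 - b3) * (b1 - b4) ∈ P := by
    rw [e3]
    exact add_mem (Ideal.mul_mem_left _ _ h8) h6
  exact (hPp.mem_or_mem h9).elim h3 h4

/-- the second differences -/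
lemma Brel (hP : Prime P) {h : ℕ} (hh : 1 ≤ h) (hk : k = 2 * h + 1) (hF : PM (P ^ k) F)
    {ρ x z w : 𝓞 K} (hA : Adm P b1 b2 b3 b4 x)
    (hρ : EE b1 b2 b3 b4 x * ρ - R2 b1 b2 b3 b4 x ∈ P) (hz : z ∈ P ^ h) (hw : w ∈ P ^ h) :
    PF F b1 b2 b3 b4 (x + z + w) * PF F b1 b2 b3 b4 x =
      F (1 + z * w * ρ) * (PF F b1 b2 b3 b4 (x + z) * PF F b1 b2 b3 b4 (x + w)) := by
  have hPp : P.IsPrime := Ideal.isPrime_of_prime hP
  have hk1 : 1 ≤ k := by omega
  have hn : ∀ α : 𝓞 K, α ∉ P → ‖F α‖ = 1 := fun α hα => hF.norm _ ((cop_pk hP hk1).2 hα)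
  have hmul : ∀ α β : 𝓞 K, α ∉ P → β ∉ P → α * β ∉ P := fun α β hα hβ h =>
    (hPp.mem_or_mem h).elim hα hβ
  have hhP : P ^ h ≤ P := Ideal.pow_le_self (by omega)
  have hzP : z ∈ P := hhP hz
  have hwP : w ∈ P := hhP hw
  obtain ⟨a1, a2, a3, a4⟩ := hA
  have hadd : ∀ b z : 𝓞 K, x + b ∉ P → z ∈ P → x + z + b ∉ P := by
    intro b z hα hz h
    apply hα
    have : x + b = x + z + b - z := by ring
    rw [this]
    exact sub_mem h hz
  have hq : ∀ b : 𝓞 K, x + b ∉ P → x + z + b ∉ P ∧ x + w + b ∉ P ∧ x + z + w + b ∉ P := by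
    intro b hb
    refine ⟨hadd _ _ hb hzP, hadd _ _ hb hwP, ?_⟩
    have := hadd _ _ hb (add_mem hzP hwP)
    rwa [← add_assoc] at this
  obtain ⟨c31, c32, c33⟩ := hq _ a3
  obtain ⟨c41, c42, c43⟩ := hq _ a4
  have h1 : ‖F ((x + z + w + b3) * (x + b3) * ((x + z + w + b4) * (x + b4)))‖ = 1 :=
    hn _ (hmul _ _ (hmul _ _ c33 a3) (hmul _ _ c43 a4))
  have h2 : ‖F ((x + z + b3) * (x + w + b3) * ((x + z + b4) * (x + w + b4)))‖ = 1 :=
    hn _ (hmul _ _ (hmul _ _ c31 c32) (hmul _ _ c41 c42))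
  have key : F ((x + z + w + b1) * (x + b1) * ((x + z + w + b2) * (x + b2))) *
      (starRingEnd ℂ) (F ((x + z + w + b3) * (x + b3) * ((x + z + w + b4) * (x + b4)))) =
      F ((1 + z * w * ρ) * ((x + z + b1) * (x + w + b1) * ((x + z + b2) * (x + w + b2)))) *
      (starRingEnd ℂ) (F ((x + z + b3) * (x + w + b3) * ((x + z + b4) * (x + w + b4)))) := by
    rw [← conj_rel h1 h2, ← hF.mul, ← hF.mul]
    refine hF.per _ _ ?_
    set q1 := (x + z + b1) * (x + w + b1) with hq1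
    set q2 := (x + z + b2) * (x + w + b2) with hq2
    set q3 := (x + z + b3) * (x + w + b3) with hq3
    set q4 := (x + z + b4) * (x + w + b4) with hq4
    have f : ∀ b, (x + z + w + b) * (x + b) = (x + z + b) * (x + w + b) - z * w := by
      intro b; ring
    rw [f, f, f, f, ← hq1, ← hq2, ← hq3, ← hq4]
    have e1 : (q1 - z * w) * (q2 - z * w) * (q3 * q4) -
        (1 + z * w * ρ) * (q1 * q2) * ((q3 - z * w) * (q4 - z * w)) =
        z * w * (q1 * q2 * (q3 + q4) - (q1 + q2) * (q3 * q4) - ρ * (q1 * q2 * (q3 * q4))) +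
        z * w * (z * (w * (q3 * q4 - q1 * q2 + ρ * (q1 * q2) * (q3 + q4) -
          ρ * (q1 * q2) * (z * w)))) := by ring
    rw [e1]
    have hzw : z * w ∈ P ^ (2 * h) := by
      have e2 : 2 * h = h + h := by ring
      rw [e2, pow_add]
      exact Ideal.mul_mem_mul hz hw
    have e3 : P ^ k = P ^ (2 * h) * P := by rw [hk, pow_succ]
    rw [e3]
    refine add_mem (Ideal.mul_mem_mul hzw ?_) (Ideal.mul_mem_mul hzw (Ideal.mul_mem_right _ _ hzP))
    rw [← Ideal.Quotient.eq_zero_iff_mem] at hρ hzP hwP ⊢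
    unfold EE R2 at hρ
    rw [hq1, hq2, hq3, hq4]
    simp only [map_sub, map_mul, map_add, map_pow, hzP, hwP, add_zero] at hρ ⊢
    linear_combination -hρ
  unfold PF
  simp only [hF.mul, map_mul] at key ⊢
  linear_combination key

/-- exact size of the subgroups -/
lemma nj_low (hP : Prime P) (j : ℕ) [Fintype (𝓞 K ⧸ P ^ k)] (hjk : j ≤ k) :
    Ideal.absNorm P ^ k ≤ nj P k j * Ideal.absNorm P ^ j := by
  classical
  have hj0 : P ^ j ≠ ⊥ := pow_ne_zero j hP.ne_zero
  haveI : Finite (𝓞 K ⧸ P ^ j) := Ideal.finiteQuotientOfFreeOfNeBot _ hj0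
  haveI : Fintype (𝓞 K ⧸ P ^ j) := Fintype.ofFinite _
  have hcard : ∀ (i : ℕ) [Fintype (𝓞 K ⧸ P ^ i)], Fintype.card (𝓞 K ⧸ P ^ i) =
      Ideal.absNorm P ^ i := by
    intro i _
    rw [← map_pow, Ideal.absNorm_apply, Submodule.cardQuot_apply, Nat.card_eq_fintype_card]
  have hle : P ^ k ≤ P ^ j := Ideal.pow_le_pow_right hjk
  have h1 := card_le_mul_card_image (s := (univ : Finset (𝓞 K ⧸ P ^ k)))
    (f := fun c => Ideal.Quotient.mk (P ^ j) (Quotient.out c)) (nj P k j) (fun y _ => ?_)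
  · rw [card_univ] at h1
    have h1' : Fintype.card (𝓞 K ⧸ P ^ k) ≤ _ := h1
    rw [hcard] at h1'
    refine h1'.trans (Nat.mul_le_mul_left _ ?_)
    refine (card_le_univ _).trans ?_
    rw [hcard]
  · unfold nj
    refine card_le_card_of_injOn (fun c => Ideal.Quotient.mk (P ^ k) (Quotient.out c -
      Quotient.out y)) (fun c hc => ?_) (fun c hc c' hc' h => ?_)
    · rw [mem_coe, mem_filter] at hc ⊢
      refine ⟨mem_univ _, ?_⟩
      have h2 := out_sub (P ^ k) (Quotient.out c - Quotient.out y : 𝓞 K)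
      have h3 : (Quotient.out c : 𝓞 K) - Quotient.out y ∈ P ^ j := by
        rw [← Ideal.Quotient.mk_eq_mk_iff_sub_mem, hc.2, mk_out]
      have h4 := add_mem (hle h2) h3
      simpa using h4
    · rw [Ideal.Quotient.mk_eq_mk_iff_sub_mem] at h
      have h2 : (Quotient.out c : 𝓞 K) - Quotient.out c' ∈ P ^ k := by
        have e : (Quotient.out c : 𝓞 K) - Quotient.out c' = Quotient.out c - Quotient.out y -
          (Quotient.out c' - Quotient.out y) := by ring
        rw [e]; exact h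
      rw [← Ideal.Quotient.mk_eq_mk_iff_sub_mem, mk_out, mk_out] at h2
      exact h2

/-- the square of the class sum -/
lemma T_sq (hP : Prime P) {h : ℕ} (hh : 1 ≤ h) (hk : k = 2 * h + 1) (hF : PM (P ^ k) F)
    [Fintype (𝓞 K ⧸ P ^ k)] {c : 𝓞 K} (hA : Adm P b1 b2 b3 b4 c) (hR : R2 b1 b2 b3 b4 c ∉ P) :
    ‖Tj P k h (PF F b1 b2 b3 b4) c‖ ^ 2 ≤ nj P k h * nj P k (h + 1) := by
  classical
  have hPp : P.IsPrime := Ideal.isPrime_of_prime hP
  have hk1 : 1 ≤ k := by omega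
  have hhk : h ≤ k := by omega
  have hhP : P ^ h ≤ P := Ideal.pow_le_self (by omega)
  set g := PF F b1 b2 b3 b4 with hg
  have hgp : PerO (P ^ k) g := PF_per (fun x y hxy => hF.per x y hxy) _ _ _ _
  have hg1 : ∀ x, ‖g x‖ ≤ 1 := PF_le hF _ _ _ _
  have hgn : ∀ z ∈ P, ‖g (c + z)‖ = 1 := fun z hz => PF_norm hP hk1 hF ((Adm_add hz).2 hA)
  -- the slope
  have hE : EE b1 b2 b3 b4 c ∉ P := by
    intro h
    unfold EE at h
    obtain ⟨a1, a2, a3, a4⟩ := hA
    rcases hPp.mem_or_mem h with h | h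
    · exact (hPp.mem_or_mem (hPp.mem_of_pow_mem _ h)).elim a1 a2
    · exact (hPp.mem_or_mem (hPp.mem_of_pow_mem _ h)).elim a3 a4
  have hEc : IsCoprime (Ideal.span {EE b1 b2 b3 b4 c}) P := by
    have := (cop_pk hP (k := 1) le_rfl (α := EE b1 b2 b3 b4 c)).2 hE
    rwa [pow_one] at this
  obtain ⟨γ, hγ⟩ := cop_inv hEc
  set ρ := R2 b1 b2 b3 b4 c * γ with hρd
  have hρP : ρ ∉ P := by
    intro h
    rcases hPp.mem_or_mem h with h | h
    · exact hR h
    · apply hPp.ne_top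
      rw [Ideal.eq_top_iff_one]
      have := sub_mem (Ideal.mul_mem_left _ (EE b1 b2 b3 b4 c) h) hγ
      simpa using this
  have hρ : ∀ z ∈ P, EE b1 b2 b3 b4 (c + z) * ρ - R2 b1 b2 b3 b4 (c + z) ∈ P := by
    intro z hz
    have h1 : EE b1 b2 b3 b4 c * ρ - R2 b1 b2 b3 b4 c ∈ P := by
      have e1 : EE b1 b2 b3 b4 c * ρ - R2 b1 b2 b3 b4 c =
          R2 b1 b2 b3 b4 c * (EE b1 b2 b3 b4 c * γ - 1) := by rw [hρd]; ring
      rw [e1]
      exact Ideal.mul_mem_left _ _ hγ
    rw [← Ideal.Quotient.eq_zero_iff_mem] at h1 hz ⊢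
    unfold EE R2 at h1 ⊢
    simp only [map_sub, map_mul, map_add, map_pow, hz, add_zero] at h1 ⊢
    exact h1
  -- the inner sums
  set G : 𝓞 K → 𝓞 K → ℂ := fun w x => g (x + w) * (starRingEnd ℂ) (g x) with hG
  have hGp : ∀ w, PerO (P ^ k) (G w) := by
    intro w x y hxy
    simp only [hG]
    rw [hgp x y hxy, hgp (x + w) (y + w) (by
      have : x + w - (y + w) = x - y := by ring
      rwa [this])]
  have hG1 : ∀ w x, ‖G w x‖ ≤ 1 := by
    intro w x
    simp only [hG]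
    rw [norm_mul, RCLike.norm_conj]
    exact mul_le_one₀ (hg1 _) (norm_nonneg _) (hg1 _)
  have hzero : ∀ w ∈ P ^ h, w ∉ P ^ (h + 1) → Tj P k h (G w) c = 0 := by
    intro w hw hw'
    by_contra hne
    have hwρ : w * ρ ∈ P ^ h := Ideal.mul_mem_right _ _ hw
    have hwρ' : w * ρ ∉ P ^ (h + 1) := by
      have := pmul_not hP (i := h) (j := 0) hw' (by simpa using hρP)
      simpa using this
    refine prim_contra hP (k := k) hk1 hF fun y hy => ?_
    have e1 : k - 1 = h + h := by omega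
    rw [e1] at hy
    obtain ⟨z, hz, hzw⟩ := cover hP hwρ hwρ' hy
    have e2 : h + h + 1 = k := by omega
    rw [e2] at hzw
    have h3 : F (1 + y) = F (1 + z * w * ρ) := by
      refine hF.per _ _ ?_
      have e3 : 1 + y - (1 + z * w * ρ) = -(z * (w * ρ) - y) := by ring
      rw [e3]
      exact neg_mem hzw
    rw [h3]
    have h4 := sum_ind (hGp w) hhk c hz
    have h5 : Tj P k h (G w) (c + z) = F (1 + z * w * ρ) * Tj P k h (G w) c := by
      unfold Tj
      rw [mul_sum]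
      refine sum_congr rfl fun d _ => ?_
      split_ifs with hd
      · set δ : 𝓞 K := Quotient.out d with hδ
        have h6 := Brel hP hh hk hF (x := c + δ) ((Adm_add (hhP hd)).2 hA)
          (hρ δ (hhP hd)) hz hw
        rw [← hg] at h6
        have h7 := hgn δ (hhP hd)
        have h8 := hgn (δ + z) (add_mem (hhP hd) (hhP hz))
        have n7 : g (c + δ) * (starRingEnd ℂ) (g (c + δ)) = 1 := by
          rw [Complex.mul_conj, Complex.normSq_eq_norm_sq, h7]; norm_num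
        have n8 : g (c + δ + z) * (starRingEnd ℂ) (g (c + δ + z)) = 1 := by
          rw [add_assoc, Complex.mul_conj, Complex.normSq_eq_norm_sq, h8]; norm_num
        simp only [hG]
        have e4 : c + z + δ = c + δ + z := by ring
        rw [e4]
        calc g (c + δ + z + w) * (starRingEnd ℂ) (g (c + δ + z)) =
              (g (c + δ + z + w) * g (c + δ)) * (starRingEnd ℂ) (g (c + δ)) *
              (starRingEnd ℂ) (g (c + δ + z)) := by
                linear_combination (-(g (c + δ + z + w) * (starRingEnd ℂ) (g (c + δ + z)))) * n7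
          _ = F (1 + z * w * ρ) * (g (c + δ + z) * g (c + δ + w)) * (starRingEnd ℂ) (g (c + δ)) *
              (starRingEnd ℂ) (g (c + δ + z)) := by rw [h6]
          _ = _ := by
              linear_combination (F (1 + z * w * ρ) * g (c + δ + w) *
                (starRingEnd ℂ) (g (c + δ))) * n8
      · rw [mul_zero]
    rw [h4] at h5
    have h6 : Tj P k h (G w) c * F (1 + z * w * ρ) = Tj P k h (G w) c * 1 := by
      rw [mul_one, mul_comm]
      exact h5.symm
    exact mul_left_cancel₀ hne h6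
  -- the square
  have hsq : Tj P k h g c * (starRingEnd ℂ) (Tj P k h g c) =
      ∑ w : 𝓞 K ⧸ P ^ k, (if Quotient.out w ∈ P ^ h then Tj P k h (G (Quotient.out w)) c else 0) := by
    have e1 : (starRingEnd ℂ) (Tj P k h g c) = ∑ d : 𝓞 K ⧸ P ^ k,
        (if Quotient.out d ∈ P ^ h then (starRingEnd ℂ) (g (c + Quotient.out d)) else 0) := by
      unfold Tj
      rw [map_sum]
      refine sum_congr rfl fun d _ => ?_
      split_ifs
      · rfl
      · exact map_zero _
    rw [e1, mul_sum]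
    have e2 : ∀ d : 𝓞 K ⧸ P ^ k, Tj P k h g c *
        (if Quotient.out d ∈ P ^ h then (starRingEnd ℂ) (g (c + Quotient.out d)) else 0) =
        ∑ w : 𝓞 K ⧸ P ^ k, (if Quotient.out d ∈ P ^ h then (if Quotient.out w ∈ P ^ h then
          G (Quotient.out w) (c + Quotient.out d) else 0) else 0) := by
      intro d
      by_cases hd : (Quotient.out d : 𝓞 K) ∈ P ^ h
      · rw [if_pos hd, ← sum_ind hgp hhk c hd]
        unfold Tj
        rw [sum_mul]
        refine sum_congr rfl fun w _ => ?_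
        rw [if_pos hd]
        split_ifs
        · simp only [hG]
        · rw [zero_mul]
      · rw [if_neg hd, mul_zero]
        symm
        refine sum_eq_zero fun w _ => ?_
        rw [if_neg hd]
    rw [sum_congr rfl fun d _ => e2 d, sum_comm]
    refine sum_congr rfl fun w _ => ?_
    by_cases hw : (Quotient.out w : 𝓞 K) ∈ P ^ h
    · rw [if_pos hw]
      unfold Tj
      refine sum_congr rfl fun d _ => ?_
      split_ifs
      · rfl
      · rfl
    · rw [if_neg hw]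
      refine sum_eq_zero fun d _ => ?_
      split_ifs
      · rfl
      · rfl
  have h1 : ‖Tj P k h g c‖ ^ 2 = ‖Tj P k h g c * (starRingEnd ℂ) (Tj P k h g c)‖ := by
    rw [norm_mul, RCLike.norm_conj, sq]
  rw [h1, hsq]
  refine (norm_sum_le _ _).trans ?_
  have h2 : ∀ w : 𝓞 K ⧸ P ^ k, ‖(if Quotient.out w ∈ P ^ h then
      Tj P k h (G (Quotient.out w)) c else 0)‖ ≤
      if Quotient.out w ∈ P ^ (h + 1) then (nj P k h : ℝ) else 0 := by
    intro w
    by_cases hw : (Quotient.out w : 𝓞 K) ∈ P ^ h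
    · rw [if_pos hw]
      by_cases hw' : (Quotient.out w : 𝓞 K) ∈ P ^ (h + 1)
      · rw [if_pos hw']
        exact T_le (hG1 _) h c
      · rw [if_neg hw', hzero _ hw hw', norm_zero]
    · have hw' : (Quotient.out w : 𝓞 K) ∉ P ^ (h + 1) :=
        fun h' => hw (Ideal.pow_le_pow_right (by omega) h')
      rw [if_neg hw, if_neg hw', norm_zero]
  refine (sum_le_sum fun w _ => h2 w).trans (le_of_eq ?_)
  rw [← sum_filter, sum_const, nsmul_eq_mul, mul_comm]
  rfl

end

end Pool.Agent.T2H29.SW
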