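import Pool.Agent.T2H29.SW.Y3

/-!
# Complete sums with four factors modulo prime powers: the bound
-/

set_option autoImplicit false
set_option linter.unusedSectionVars false

namespace Pool.Agent.T2H29.SW

open Finset NumberField NumberField.InfinitePlace Module

variable {K : Type} [Field K] [NumberField K]

lemma val_ex (P : Ideal (𝓞 K)) (x : 𝓞 K) (k : ℕ) :
    ∃ w ≤ k, x ∈ P ^ w ∧ (w < k → x ∉ P ^ (w + 1)) := by
  induction k with
  | zero => exact ⟨0, le_rfl, by rw [pow_zero, Ideal.one_eq_top]; trivial, fun h => absurd h (lt_irrefl _)⟩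
  | succ k ih =>
    obtain ⟨w, hw, h1, h2⟩ := ih
    rcases lt_or_eq_of_le hw with h | h
    · exact ⟨w, by omega, h1, fun _ => h2 h⟩
    · subst h
      by_cases h3 : x ∈ P ^ (w + 1)
      · exact ⟨w + 1, le_rfl, h3, fun h => absurd h (lt_irrefl _)⟩
      · exact ⟨w, by omega, h1, fun _ => h3⟩

lemma two_val {P : Ideal (𝓞 K)} (hP : Prime P) : ∃ e, P ^ e ∣ Ideal.span {(2 : 𝓞 K)} ∧
    (2 : 𝓞 K) ∉ P ^ (e + 1) ∧ ((2 : 𝓞 K) ∈ P → 1 ≤ e) := by
  have h0 : Ideal.span {(2 : 𝓞 K)} ≠ 0 := by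
    intro h
    have : (2 : 𝓞 K) = 0 := Ideal.span_singleton_eq_bot.1 h
    exact two_ne_zero this
  obtain ⟨e, A, hA, hvA⟩ := WfDvdMonoid.max_power_factor h0 hP.irreducible
  have h1 : (2 : 𝓞 K) ∉ P ^ (e + 1) := by
    intro h
    have h2 : P ^ (e + 1) ∣ Ideal.span {(2 : 𝓞 K)} := by
      rw [Ideal.dvd_iff_le, Ideal.span_singleton_le_iff_mem]
      exact h
    rw [hvA, pow_succ] at h2
    exact hA ((mul_dvd_mul_iff_left (pow_ne_zero e hP.ne_zero)).1 h2)
  refine ⟨e, ⟨A, hvA⟩, h1, fun h => ?_⟩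
  by_contra hcon
  have : e = 0 := by omega
  rw [this, zero_add, pow_one] at h1
  exact h1 h

section
variable {P : Ideal (𝓞 K)} {k : ℕ} {F : 𝓞 K → ℂ} {b1 b2 b3 b4 : 𝓞 K}

/-- nonvanishing of the larger class sums -/
lemma T_next {g : 𝓞 K → ℂ} [Fintype (𝓞 K ⧸ P ^ k)] (hgp : PerO (P ^ k) g) {h : ℕ}
    (hhk : h + 1 ≤ k) {c : 𝓞 K} (hT : Tj P k h g c ≠ 0) :
    ∃ z ∈ P ^ h, Tj P k (h + 1) g (c + z) ≠ 0 := by
  classical
  by_contra hcon
  push Not at hcon
  apply hT
  have h1 : ∑ d : 𝓞 K ⧸ P ^ k, (if Quotient.out d ∈ P ^ h then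
      Tj P k (h + 1) g (c + Quotient.out d) else 0) = 0 := by
    refine sum_eq_zero fun d _ => ?_
    split_ifs with hd
    · exact hcon _ hd
    · rfl
  have h2 : ∑ d : 𝓞 K ⧸ P ^ k, (if Quotient.out d ∈ P ^ h then
      Tj P k (h + 1) g (c + Quotient.out d) else 0) = nj P k (h + 1) * Tj P k h g c := by
    have e1 : ∀ d : 𝓞 K ⧸ P ^ k, (if Quotient.out d ∈ P ^ h then
        Tj P k (h + 1) g (c + Quotient.out d) else 0) = ∑ w : 𝓞 K ⧸ P ^ k,
        (if Quotient.out w ∈ P ^ (h + 1) then (if Quotient.out d ∈ P ^ h then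
          g (c + Quotient.out w + Quotient.out d) else 0) else 0) := by
      intro d
      by_cases hd : (Quotient.out d : 𝓞 K) ∈ P ^ h
      · rw [if_pos hd]
        unfold Tj
        refine sum_congr rfl fun w _ => ?_
        rw [if_pos hd]
        have e2 : c + Quotient.out d + Quotient.out w = c + Quotient.out w + Quotient.out d := by
          ring
        rw [e2]
      · rw [if_neg hd]
        symm
        refine sum_eq_zero fun w _ => ?_
        rw [if_neg hd]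
        split_ifs <;> rfl
    rw [sum_congr rfl fun d _ => e1 d, sum_comm]
    have e2 : (nj P k (h + 1) : ℂ) = ∑ w : 𝓞 K ⧸ P ^ k,
        (if (Quotient.out w : 𝓞 K) ∈ P ^ (h + 1) then (1 : ℂ) else 0) := by
      unfold nj
      rw [sum_boole]
    rw [e2, sum_mul]
    refine sum_congr rfl fun w _ => ?_
    by_cases hw : (Quotient.out w : 𝓞 K) ∈ P ^ (h + 1)
    · rw [if_pos hw, one_mul, ← sum_ind hgp (show h ≤ k by omega) c
        (Ideal.pow_le_pow_right (Nat.le_succ h) hw)]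
      unfold Tj
      refine sum_congr rfl fun d _ => ?_
      rw [if_pos hw]
    · rw [if_neg hw, zero_mul]
      refine sum_eq_zero fun d _ => ?_
      rw [if_neg hw]
  rw [h1] at h2
  have h3 : (nj P k (h + 1) : ℂ) ≠ 0 := by
    exact_mod_cast (nj_pos (P := P) (k := k) (h + 1) hhk).ne'
  exact (mul_eq_zero.1 h2.symm).resolve_left h3

/-- the quadratic case -/
theorem quad_case (hP : Prime P) {h : ℕ} (hh : 1 ≤ h) (hk : k = 2 * h + 1) (hF : PM (P ^ k) F)
    [Fintype (𝓞 K ⧸ P ^ k)] (h2 : (2 : 𝓞 K) ∉ P) (h3 : b1 - b3 ∉ P) (h4 : b1 - b4 ∉ P) :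
    ‖sQ (P ^ k) (PF F b1 b2 b3 b4)‖ ≤ 2 * √((Ideal.absNorm P : ℝ) ^ k) := by
  classical
  have hk1 : 1 ≤ k := by omega
  have hhP : P ^ h ≤ P := Ideal.pow_le_self (by omega)
  set g := PF F b1 b2 b3 b4 with hg
  have hgp : PerO (P ^ k) g := PF_per (fun x y hxy => hF.per x y hxy) _ _ _ _
  have hg1 : ∀ x, ‖g x‖ ≤ 1 := PF_le hF _ _ _ _
  set N := Ideal.absNorm P with hN
  have hN1 : 1 ≤ N := nrm_pos hP.ne_zero
  have hn0 : (0 : ℝ) < nj P k h := by exact_mod_cast nj_pos (P := P) (k := k) h (by omega)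
  set U := univ.filter fun c : 𝓞 K ⧸ P ^ k => Adm P b1 b2 b3 b4 (Quotient.out c) ∧
        QQ b1 b2 b3 b4 (Quotient.out c) ∈ P ^ h with hU
  have hcount : U.card * N ^ h ≤ 2 * N ^ k := by
    have := cntQ hP (k := k) (t := h) (w3 := 0) (w4 := 0) (e := 0) (b1 := b1) (b2 := b2) (b3 := b3)
      (b4 := b4) (by omega) (by rw [pow_zero, Ideal.one_eq_top]; trivial)
      (by rw [pow_zero, Ideal.one_eq_top]; trivial)
      (fun _ => ⟨by simpa using h3, by simpa using h4⟩) (by simpa using h2)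
    simpa using this
  have hcount2 : U.card ≤ 2 * N ^ (h + 1) := by
    have e1 : 2 * N ^ k = 2 * N ^ (h + 1) * N ^ h := by
      rw [hk, show 2 * h + 1 = (h + 1) + h by ring, pow_add N (h + 1) h]
      ring
    rw [e1] at hcount
    exact Nat.le_of_mul_le_mul_right hcount (by positivity)
  have hnn : nj P k (h + 1) * N ≤ nj P k h := by
    have a1 := nj_mul hP (k := k) (h + 1) (by omega)
    have a2 := nj_low hP (k := k) h (by omega)
    have a3 : nj P k (h + 1) * N * N ^ h ≤ nj P k h * N ^ h := by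
      refine le_trans (le_of_eq ?_) (a1.trans a2)
      rw [pow_succ]
      ring
    exact Nat.le_of_mul_le_mul_right a3 (by positivity)
  set M : ℝ := √((nj P k h : ℝ) * nj P k (h + 1)) with hM
  have hT : ∀ c : 𝓞 K ⧸ P ^ k, ‖Tj P k h g (Quotient.out c)‖ ≤ if c ∈ U then M else 0 := by
    intro c
    by_cases hT0 : Tj P k h g (Quotient.out c) = 0
    · rw [hT0, norm_zero]
      split_ifs
      · exact Real.sqrt_nonneg _
      · exact le_rfl
    · have hA : Adm P b1 b2 b3 b4 (Quotient.out c) := by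
        by_contra hA
        apply hT0
        unfold Tj
        refine sum_eq_zero fun d _ => ?_
        split_ifs with hd
        · exact PF_zero hP hk1 hF (mt (Adm_add (hhP hd)).1 hA)
        · rfl
      have hQ : QQ b1 b2 b3 b4 (Quotient.out c) ∈ P ^ h := by
        obtain ⟨z, hz, hTz⟩ := T_next hgp (by omega) hT0
        rw [← QQ_add hz]
        have hAz : Adm P b1 b2 b3 b4 (Quotient.out c + z) := (Adm_add (hhP hz)).2 hA
        have hgx : g (Quotient.out c + z) ≠ 0 := by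
          intro h0
          have := PF_norm hP hk1 hF hAz
          rw [← hg, h0, norm_zero] at this
          exact zero_ne_one this
        have h5 := T_stat hgp (show h + 1 ≤ k by omega) hgx
          (fun z1 z2 hz1 hz2 => hmul1 hF (show k ≤ 2 * (h + 1) by omega) _ z1 z2 hz1 hz2) hTz
        have h6 := stat_gen hP (j := h + 1) (by omega) (by omega) hF hAz.1 hAz.2.1 hAz.2.2.1
          hAz.2.2.2 (fun w hw => by
            refine Ideal.mul_mem_right _ _ ?_
            have h7 : w * w ∈ P ^ (h + 1 + (h + 1)) := by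
              rw [pow_add]
              exact Ideal.mul_mem_mul hw hw
            exact Ideal.pow_le_pow_right (by omega) h7) h5
        have e1 : k - (h + 1) = h := by omega
        rwa [e1] at h6
      have hcU : c ∈ U := by
        rw [hU, mem_filter]
        exact ⟨mem_univ _, hA, hQ⟩
      rw [if_pos hcU]
      apply Real.le_sqrt_of_sq_le
      exact T_sq hP hh hk hF hA (R2_not hP h2 h3 h4 hA (hhP hQ))
  have h5 : (nj P k h : ℝ) * ‖sQ (P ^ k) g‖ ≤ U.card * M := by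
    have e2 : (nj P k h : ℝ) * ‖sQ (P ^ k) g‖ = ‖(nj P k h : ℂ) * sQ (P ^ k) g‖ := by
      rw [norm_mul, Complex.norm_natCast]
    rw [e2, avg_T hgp h]
    refine (norm_sum_le _ _).trans ((sum_le_sum fun c _ => hT c).trans ?_)
    rw [← sum_filter, sum_const, nsmul_eq_mul]
    refine mul_le_mul_of_nonneg_right ?_ (Real.sqrt_nonneg _)
    exact_mod_cast card_le_card fun c hc => (mem_filter.1 hc).2
  have hNr : (1 : ℝ) ≤ N := by exact_mod_cast hN1
  have hM2 : √(N : ℝ) * M ≤ nj P k h := by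
    rw [hM, ← Real.sqrt_mul (by positivity)]
    rw [Real.sqrt_le_left hn0.le]
    have h6 : (nj P k (h + 1) : ℝ) * N ≤ nj P k h := by exact_mod_cast hnn
    nlinarith
  have hc2 : (U.card : ℝ) ≤ 2 * (N : ℝ) ^ (h + 1) := by exact_mod_cast hcount2
  have e3 : √((N : ℝ) ^ k) = (N : ℝ) ^ h * √(N : ℝ) := by
    rw [hk, pow_succ, Real.sqrt_mul (by positivity), mul_comm 2 h, pow_mul,
      Real.sqrt_sq (by positivity)]
  rw [e3]
  refine le_of_mul_le_mul_left ?_ hn0
  have hsN : 0 < √(N : ℝ) := Real.sqrt_pos.2 (by linarith)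
  have e4 : (N : ℝ) ^ (h + 1) = (N : ℝ) ^ h * √(N : ℝ) * √(N : ℝ) := by
    rw [pow_succ, mul_assoc, Real.mul_self_sqrt (by linarith)]
  calc (nj P k h : ℝ) * ‖sQ (P ^ k) g‖ ≤ U.card * M := h5
    _ ≤ (2 * (N : ℝ) ^ (h + 1)) * M := mul_le_mul_of_nonneg_right hc2 (Real.sqrt_nonneg _)
    _ = (2 * ((N : ℝ) ^ h * √(N : ℝ))) * (√(N : ℝ) * M) := by rw [e4]; ring
    _ ≤ (2 * ((N : ℝ) ^ h * √(N : ℝ))) * nj P k h := mul_le_mul_of_nonneg_left hM2 (by positivity)
    _ = _ := by ring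

lemma PF_swap34 (F : 𝓞 K → ℂ) (b1 b2 b3 b4 : 𝓞 K) : PF F b1 b2 b3 b4 = PF F b1 b2 b4 b3 := by
  funext y
  unfold PF
  ring

/-- odd exponent, a coincidence modulo P -/
lemma odd_coinc (hP : Prime P) {h w3 w4 : ℕ} (hh : 1 ≤ h) (hk : k = 2 * h + 1) (hF : PM (P ^ k) F)
    [Fintype (𝓞 K ⧸ P ^ k)] (h2 : (2 : 𝓞 K) ∉ P) (hb : b1 - b3 ∈ P)
    (h3 : b1 - b3 ∈ P ^ w3) (h4 : b1 - b4 ∈ P ^ w4)
    (hw : w3 + w4 < k → b1 - b3 ∉ P ^ (w3 + 1) ∧ b1 - b4 ∉ P ^ (w4 + 1)) :
    ‖sQ (P ^ k) (PF F b1 b2 b3 b4)‖ ≤ 2 * (Ideal.absNorm P : ℝ) ^ (h + (w3 + w4)) := by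
  classical
  have hPp : P.IsPrime := Ideal.isPrime_of_prime hP
  have hk1 : 1 ≤ k := by omega
  have hhP : P ^ h ≤ P := Ideal.pow_le_self (by omega)
  have hN1 : 1 ≤ Ideal.absNorm P := nrm_pos hP.ne_zero
  by_cases hb' : b2 - b4 ∈ P
  · have h5 := lin_gen hP (j := h) (t := h + 1) hk1 hh (by omega) hF
      (hmul2 hP hk1 hF hh (by omega) hb hb') (fun y hA hst => by
        have h6 := stat_gen hP (j := h) hh (by omega) hF hA.1 hA.2.1 hA.2.2.1 hA.2.2.2
          (fun w hw => by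
            have h7 : w * w ∈ P ^ (h + h) := by
              rw [pow_add]
              exact Ideal.mul_mem_mul hw hw
            have h8 : (y + b3) * (y + b4) - (y + b1) * (y + b2) ∈ P := by
              have e1 : (y + b3) * (y + b4) - (y + b1) * (y + b2) =
                -((b1 - b3) * (y + b4) + (y + b1) * (b2 - b4)) := by ring
              rw [e1]
              exact neg_mem (add_mem (Ideal.mul_mem_right _ _ hb) (Ideal.mul_mem_left _ _ hb'))
            have e2 : P ^ k = P ^ (h + h) * P := by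
              rw [← pow_succ]
              congr 1
              omega
            rw [e2]
            exact Ideal.mul_mem_mul h7 h8) hst
        have e1 : k - h = h + 1 := by omega
        rwa [e1] at h6)
    refine h5.trans ?_
    have h6 := cntQ hP (k := k) (t := h + 1) (w3 := w3) (w4 := w4) (e := 0) (b1 := b1) (b2 := b2)
      (b3 := b3) (b4 := b4) (by omega) h3 h4 (fun h => hw (by omega)) (by simpa using h2)
    have h7 : (univ.filter fun c : 𝓞 K ⧸ P ^ k => Adm P b1 b2 b3 b4 (Quotient.out c) ∧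
        QQ b1 b2 b3 b4 (Quotient.out c) ∈ P ^ (h + 1)).card ≤
        2 * Ideal.absNorm P ^ (h + (w3 + w4)) := by
      have e1 : 2 * Ideal.absNorm P ^ (k + (w3 + w4) + 2 * 0) =
          2 * Ideal.absNorm P ^ (h + (w3 + w4)) * Ideal.absNorm P ^ (h + 1) := by
        rw [mul_assoc, ← pow_add]
        congr 2
        omega
      rw [e1] at h6
      exact Nat.le_of_mul_le_mul_right h6 (by positivity)
    exact_mod_cast h7
  · have h5 := lin_gen hP (j := h + 1) (t := h) hk1 (by omega) (by omega) hF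
      (hmul1 (b1 := b1) (b2 := b2) (b3 := b3) (b4 := b4) hF (by omega)) (fun y hA hst => by
        have h6 := stat_gen hP (j := h + 1) (by omega) (by omega) hF hA.1 hA.2.1 hA.2.2.1 hA.2.2.2
          (fun w hw => by
            refine Ideal.mul_mem_right _ _ ?_
            have h7 : w * w ∈ P ^ (h + 1 + (h + 1)) := by
              rw [pow_add]
              exact Ideal.mul_mem_mul hw hw
            exact Ideal.pow_le_pow_right (by omega) h7) hst
        have e1 : k - (h + 1) = h := by omega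
        rwa [e1] at h6)
    have h6 : (univ.filter fun c : 𝓞 K ⧸ P ^ k => Adm P b1 b2 b3 b4 (Quotient.out c) ∧
        QQ b1 b2 b3 b4 (Quotient.out c) ∈ P ^ h) = ∅ := by
      rw [filter_eq_empty_iff]
      rintro c - ⟨hA, hQ⟩
      have hQP := hhP hQ
      apply hb'
      set y : 𝓞 K := Quotient.out c with hy
      have e1 : (y + b1) ^ 2 * (b2 - b4) = (b1 - b3) * ((y + b1) * (y + b2) - (y + b4) *
          (2 * y + b1 + b2)) - QQ b1 b2 b3 b4 y := by
        unfold QQ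
        ring
      have h7 : (y + b1) ^ 2 * (b2 - b4) ∈ P := by
        rw [e1]
        exact sub_mem (Ideal.mul_mem_right _ _ hb) hQP
      exact (hPp.mem_or_mem h7).resolve_left fun h => hA.1 (hPp.mem_of_pow_mem _ h)
    rw [h6, card_empty, Nat.cast_zero] at h5
    exact h5.trans (by positivity)

/-- all exponents at least two -/
theorem loc_bd (hP : Prime P) (hk : 2 ≤ k) {e : ℕ} (he : (2 : 𝓞 K) ∉ P ^ (e + 1))
    (he1 : (2 : 𝓞 K) ∈ P → 1 ≤ e) (hF : PM (P ^ k) F) [Fintype (𝓞 K ⧸ P ^ k)] :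
    ∃ w3 w4, w3 ≤ k ∧ w4 ≤ k ∧ b1 - b3 ∈ P ^ w3 ∧ b1 - b4 ∈ P ^ w4 ∧
    ‖sQ (P ^ k) (PF F b1 b2 b3 b4)‖ ≤ 2 * ((Ideal.absNorm P : ℝ) ^ e) ^ 3 *
      √((Ideal.absNorm P : ℝ) ^ k) * ((Ideal.absNorm P : ℝ) ^ w3 * (Ideal.absNorm P : ℝ) ^ w4) := by
  classical
  obtain ⟨w3, hw3, h3, h3'⟩ := val_ex P (b1 - b3) k
  obtain ⟨w4, hw4, h4, h4'⟩ := val_ex P (b1 - b4) k
  refine ⟨w3, w4, hw3, hw4, h3, h4, ?_⟩
  have hk1 : 1 ≤ k := by omega
  have hN1 : 1 ≤ Ideal.absNorm P := nrm_pos hP.ne_zero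
  have hNr' : (1 : ℝ) ≤ ((Ideal.absNorm P : ℕ) : ℝ) := by exact_mod_cast hN1
  set N : ℝ := ((Ideal.absNorm P : ℕ) : ℝ) with hN
  have hNr : 1 ≤ N := hNr'
  have hN0 : 0 < N := by linarith
  have hsN : 1 ≤ √N := by rw [Real.one_le_sqrt]; exact hNr
  have hNe : 1 ≤ (N ^ e) ^ 3 := one_le_pow₀ (one_le_pow₀ hNr)
  have hw : w3 + w4 < k → b1 - b3 ∉ P ^ (w3 + 1) ∧ b1 - b4 ∉ P ^ (w4 + 1) :=
    fun h => ⟨h3' (by omega), h4' (by omega)⟩
  have hsq : ∀ h : ℕ, √(N ^ (2 * h)) = N ^ h := by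
    intro h
    rw [mul_comm 2 h, pow_mul, Real.sqrt_sq (by positivity)]
  -- the linear bound
  have lin : ∀ j t : ℕ, 1 ≤ j → j < k → k ≤ 2 * j → k - j = t →
      ‖sQ (P ^ k) (PF F b1 b2 b3 b4)‖ ≤ 2 * N ^ (k - t + (w3 + w4) + 2 * e) := by
    intro j t hj hjk hj2 ht
    have h5 := lin_gen hP (j := j) (t := t) hk1 hj hjk.le hF (hmul1 (b1 := b1) (b2 := b2)
      (b3 := b3) (b4 := b4) hF hj2) (fun y hA hst => by
        have h6 := stat_gen hP hj hjk hF hA.1 hA.2.1 hA.2.2.1 hA.2.2.2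
          (fun w hw => by
            refine Ideal.mul_mem_right _ _ ?_
            have h7 : w * w ∈ P ^ (j + j) := by
              rw [pow_add]
              exact Ideal.mul_mem_mul hw hw
            exact Ideal.pow_le_pow_right (by omega) h7) hst
        rwa [ht] at h6)
    refine h5.trans ?_
    have h6 := cntQ hP (k := k) (t := t) (w3 := w3) (w4 := w4) (e := e) (b1 := b1) (b2 := b2)
      (b3 := b3) (b4 := b4) (by omega) h3 h4 (fun h => hw (by omega)) he
    have h7 : (univ.filter fun c : 𝓞 K ⧸ P ^ k => Adm P b1 b2 b3 b4 (Quotient.out c) ∧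
        QQ b1 b2 b3 b4 (Quotient.out c) ∈ P ^ t).card ≤
        2 * Ideal.absNorm P ^ (k - t + (w3 + w4) + 2 * e) := by
      have e1 : 2 * Ideal.absNorm P ^ (k + (w3 + w4) + 2 * e) =
          2 * Ideal.absNorm P ^ (k - t + (w3 + w4) + 2 * e) * Ideal.absNorm P ^ t := by
        rw [mul_assoc, ← pow_add]
        congr 2
        omega
      rw [e1] at h6
      exact Nat.le_of_mul_le_mul_right h6 (by positivity)
    rw [hN]
    exact_mod_cast h7
  rcases Nat.even_or_odd' k with ⟨h, hkh | hkh⟩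
  · -- even
    refine (lin h h (by omega) (by omega) (by omega) (by omega)).trans ?_
    have e1 : k - h = h := by omega
    rw [e1, hkh, hsq]
    have e2 : N ^ (h + (w3 + w4) + 2 * e) = (N ^ e) ^ 2 * N ^ h * (N ^ w3 * N ^ w4) := by
      rw [pow_add, pow_add, pow_add, ← pow_mul, mul_comm 2 e]
      ring
    have h5 : (N ^ e) ^ 2 ≤ (N ^ e) ^ 3 := pow_le_pow_right₀ (one_le_pow₀ hNr) (by norm_num)
    rw [e2]
    calc 2 * ((N ^ e) ^ 2 * N ^ h * (N ^ w3 * N ^ w4)) =
          (N ^ e) ^ 2 * (2 * (N ^ h * (N ^ w3 * N ^ w4))) := by ring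
      _ ≤ (N ^ e) ^ 3 * (2 * (N ^ h * (N ^ w3 * N ^ w4))) :=
          mul_le_mul_of_nonneg_right h5 (by positivity)
      _ = _ := by ring
  · -- odd
    have hh : 1 ≤ h := by omega
    have e3 : √(N ^ k) = N ^ h * √N := by
      rw [hkh, pow_succ, Real.sqrt_mul (by positivity), hsq]
    rw [e3]
    have e4 : N ^ (h + (w3 + w4)) = N ^ h * (N ^ w3 * N ^ w4) := by
      rw [pow_add, pow_add]
    have fin : 2 * N ^ (h + (w3 + w4)) ≤
        2 * (N ^ e) ^ 3 * (N ^ h * √N) * (N ^ w3 * N ^ w4) := by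
      rw [e4]
      have h5 : 1 ≤ (N ^ e) ^ 3 * √N := one_le_mul_of_one_le_of_one_le hNe hsN
      calc 2 * (N ^ h * (N ^ w3 * N ^ w4)) ≤ (2 * (N ^ h * (N ^ w3 * N ^ w4))) *
            ((N ^ e) ^ 3 * √N) := le_mul_of_one_le_right (by positivity) h5
        _ = _ := by ring
    by_cases h2 : (2 : 𝓞 K) ∈ P
    · refine (lin (h + 1) h (by omega) (by omega) (by omega) (by omega)).trans ?_
      have e1 : k - h = h + 1 := by omega
      rw [e1]
      have e2 : N ^ (h + 1 + (w3 + w4) + 2 * e) = N * (N ^ e) ^ 2 * N ^ h * (N ^ w3 * N ^ w4) := by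
        rw [pow_add, pow_add, pow_add, pow_add, ← pow_mul, mul_comm 2 e]
        ring
      rw [e2]
      have h5 : N * (N ^ e) ^ 2 ≤ (N ^ e) ^ 3 * √N := by
        have h6 : N ≤ N ^ e := by
          calc N = N ^ 1 := (pow_one N).symm
            _ ≤ N ^ e := pow_le_pow_right₀ hNr (he1 h2)
        calc N * (N ^ e) ^ 2 ≤ N ^ e * (N ^ e) ^ 2 := mul_le_mul_of_nonneg_right h6 (by positivity)
          _ = (N ^ e) ^ 3 := by ring
          _ ≤ (N ^ e) ^ 3 * √N := le_mul_of_one_le_right (by positivity) hsN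
      calc 2 * (N * (N ^ e) ^ 2 * N ^ h * (N ^ w3 * N ^ w4)) =
            (N * (N ^ e) ^ 2) * (2 * (N ^ h * (N ^ w3 * N ^ w4))) := by ring
        _ ≤ ((N ^ e) ^ 3 * √N) * (2 * (N ^ h * (N ^ w3 * N ^ w4))) :=
            mul_le_mul_of_nonneg_right h5 (by positivity)
        _ = _ := by ring
    · by_cases hb3 : b1 - b3 ∈ P
      · exact (odd_coinc hP hh hkh hF h2 hb3 h3 h4 hw).trans fin
      · by_cases hb4 : b1 - b4 ∈ P
        · rw [PF_swap34]
          have h5 := odd_coinc (b2 := b2) hP hh hkh hF h2 hb4 h4 h3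
            (fun h => (hw (by omega)).symm)
          rw [add_comm w4 w3] at h5
          exact h5.trans fin
        · refine (quad_case hP hh hkh hF h2 hb3 hb4).trans ?_
          rw [← hN, e3]
          have h5 : 1 ≤ (N ^ e) ^ 3 * (N ^ w3 * N ^ w4) :=
            one_le_mul_of_one_le_of_one_le hNe
              (one_le_mul_of_one_le_of_one_le (one_le_pow₀ hNr) (one_le_pow₀ hNr))
          calc 2 * (N ^ h * √N) ≤ (2 * (N ^ h * √N)) * ((N ^ e) ^ 3 * (N ^ w3 * N ^ w4)) :=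
                le_mul_of_one_le_right (by positivity) h5
            _ = _ := by ring

end

end Pool.Agent.T2H29.SW
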