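import Pool.Agent.T2H29.SW.Y4
import Pool.Agent.T2H29.SW.U6

/-!
# Complete sums with four factors: all moduli
-/

set_option autoImplicit false
set_option linter.unusedSectionVars false

namespace Pool.Agent.T2H29.SW

open Finset NumberField NumberField.InfinitePlace Module

variable {K : Type} [Field K] [NumberField K]

/-- the bound, all moduli -/
def PFD (m : Ideal (𝓞 K)) : Prop := ∃ d : Ideal (𝓞 K), d ∣ Ideal.span {(2 : 𝓞 K)} ∧
    (∀ P : Ideal (𝓞 K), Prime P → P ∣ d → P ∣ m) ∧ ∀ (_ : Fintype (𝓞 K ⧸ m)) (F : 𝓞 K → ℂ)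
    (b1 b2 b3 b4 : 𝓞 K), PM m F → ∃ g2 g3 g4, g2 ∣ m ∧ g3 ∣ m ∧ g4 ∣ m ∧ b1 - b2 ∈ g2 ∧
    b1 - b3 ∈ g3 ∧ b1 - b4 ∈ g4 ∧ ‖sQ m (PF F b1 b2 b3 b4)‖ ≤ ((Ideal.absNorm d : ℝ) ^ 3 *
      (tau m : ℝ) ^ 2) * √(Ideal.absNorm m) *
      (Ideal.absNorm g2 * Ideal.absNorm g3 * Ideal.absNorm g4)

lemma PFD_of {m : Ideal (𝓞 K)} (h : PFB m) : PFD m := by
  refine ⟨⊤, ⟨_, (Ideal.top_mul _).symm⟩, fun P hP hd => ?_, fun _ F b1 b2 b3 b4 hF => ?_⟩
  · exact absurd (isUnit_of_dvd_unit hd (Ideal.isUnit_iff.2 rfl)) hP.not_unit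
  · obtain ⟨g2, g3, g4, d2, d3, d4, m2, m3, m4, hb⟩ := h inferInstance F b1 b2 b3 b4 hF
    refine ⟨g2, g3, g4, d2, d3, d4, m2, m3, m4, ?_⟩
    rw [Ideal.absNorm_top, Nat.cast_one, one_pow, one_mul]
    exact hb

theorem PFD_all (m : Ideal (𝓞 K)) : m ≠ ⊥ → PFD m := by
  refine UniqueFactorizationMonoid.induction_on_coprime m (fun h0 => absurd rfl h0)
    (fun {x} hx _ => ?_) (fun {P} k hP h0 => ?_) (fun {x y} hxy ihx ihy h0 => ?_)
  · rw [Ideal.isUnit_iff] at hx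
    exact PFD_of (PFB_unit hx)
  · -- prime powers
    rcases lt_or_ge k 2 with hk | hk
    · refine PFD_of (PFB_all _ (fun Q hQ hd => ?_) h0)
      have h1 : (Q ^ 3 : Ideal (𝓞 K)) ∣ P ^ 1 := hd.trans (pow_dvd_pow P (by omega))
      rw [pow_one] at h1
      have h2 : Q ∣ P := (dvd_pow_self Q (by norm_num)).trans h1
      have h3 : Q * Q ∣ P := by
        refine (dvd_trans ?_ h1)
        rw [pow_succ, pow_two]
        exact dvd_mul_right _ _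
      have h4 := (hP.irreducible.squarefree) Q h3
      exact hQ.not_unit h4
    obtain ⟨e, he0, he, he1⟩ := two_val hP
    refine ⟨P ^ e, he0, fun Q hQ hd => ?_, fun _ F b1 b2 b3 b4 hF => ?_⟩
    · exact (hQ.dvd_of_dvd_pow hd).trans (dvd_pow_self P (by omega))
    · obtain ⟨w3, w4, hw3, hw4, h3, h4, hb⟩ := loc_bd (b1 := b1) (b2 := b2) (b3 := b3) (b4 := b4)
        hP hk he he1 hF
      refine ⟨⊤, P ^ w3, P ^ w4, ⟨P ^ k, (Ideal.top_mul _).symm⟩, pow_dvd_pow P hw3,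
        pow_dvd_pow P hw4, trivial, h3, h4, hb.trans ?_⟩
      have hτ2 : (2 : ℝ) ≤ tau (P ^ k) := by exact_mod_cast tau_ge_two hP (by omega : 1 ≤ k)
      have hτ4 : (2 : ℝ) ≤ (tau (P ^ k) : ℝ) ^ 2 := by nlinarith
      rw [Ideal.absNorm_top, map_pow, map_pow, map_pow, map_pow]
      push_cast
      set N : ℝ := ((Ideal.absNorm P : ℕ) : ℝ) with hN
      have hN0 : 0 ≤ N := Nat.cast_nonneg _
      calc 2 * (N ^ e) ^ 3 * √(N ^ k) * (N ^ w3 * N ^ w4) =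
            2 * ((N ^ e) ^ 3 * √(N ^ k) * (N ^ w3 * N ^ w4)) := by ring
        _ ≤ (tau (P ^ k) : ℝ) ^ 2 * ((N ^ e) ^ 3 * √(N ^ k) * (N ^ w3 * N ^ w4)) :=
            mul_le_mul_of_nonneg_right hτ4 (by positivity)
        _ = _ := by ring
  · -- coprime products
    have hx0 : x ≠ ⊥ := left_ne_zero_of_mul h0
    have hy0 : y ≠ ⊥ := right_ne_zero_of_mul h0
    have hc : IsCoprime x y := by
      rw [cop_prime]
      intro P hP h1 h2
      have hPb : P ≠ ⊥ := by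
        rintro rfl
        exact hx0 (le_bot_iff.1 h1)
      have h3 := hxy (Ideal.dvd_iff_le.2 h1) (Ideal.dvd_iff_le.2 h2)
      exact hP.ne_top (Ideal.isUnit_iff.1 h3)
    obtain ⟨dx, hdx, hdx', hbx⟩ := ihx hx0
    obtain ⟨dy, hdy, hdy', hby⟩ := ihy hy0
    have hdc : IsCoprime dx dy := by
      rw [cop_prime]
      intro P hP h1 h2
      have hPb : P ≠ ⊥ := by
        rintro rfl
        have h3 : dx = ⊥ := le_bot_iff.1 h1
        rw [h3] at hdx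
        have h4 : Ideal.span {(2 : 𝓞 K)} = ⊥ := by
          have := zero_dvd_iff.1 hdx
          exact this
        rw [Ideal.span_singleton_eq_bot] at h4
        exact two_ne_zero h4
      have hP' : Prime P := Ideal.prime_of_isPrime hPb hP
      have h3 := hxy (hdx' P hP' (Ideal.dvd_iff_le.2 h1)) (hdy' P hP' (Ideal.dvd_iff_le.2 h2))
      exact hP.ne_top (Ideal.isUnit_iff.1 h3)
    refine ⟨dx * dy, hdc.mul_dvd hdx hdy, fun P hP hd => ?_, ?_⟩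
    · rcases hP.dvd_or_dvd hd with h | h
      · exact (hdx' P hP h).mul_right y
      · exact (hdy' P hP h).mul_left x
    intro _ F b1 b2 b3 b4 hF
    haveI : Finite (𝓞 K ⧸ x) := Ideal.finiteQuotientOfFreeOfNeBot x hx0
    haveI : Fintype (𝓞 K ⧸ x) := Fintype.ofFinite _
    haveI : Finite (𝓞 K ⧸ y) := Ideal.finiteQuotientOfFreeOfNeBot y hy0
    haveI : Fintype (𝓞 K ⧸ y) := Fintype.ofFinite _
    obtain ⟨e, he, he1⟩ := exists_e0 hc
    have h1e : (1 - e) ∈ y := by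
      have := neg_mem he1
      have e1 : -(e - 1) = 1 - e := by ring
      rwa [e1] at this
    have hF1 : PM y (FA F e) := FA_PM hx0 hF he he1
    have hF2 : PM x (FA F (1 - e)) := by
      refine FA_PM hy0 (by rwa [mul_comm]) h1e ?_
      have e1 : 1 - e - 1 = -e := by ring
      rw [e1]
      exact neg_mem he
    obtain ⟨g2, g3, g4, d2, d3, d4, m2, m3, m4, hb⟩ := hby inferInstance (FA F e) b1 b2 b3 b4 hF1
    obtain ⟨g2', g3', g4', d2', d3', d4', m2', m3', m4', hb'⟩ :=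
      hbx inferInstance (FA F (1 - e)) b1 b2 b3 b4 hF2
    have hmem : ∀ {g g' : Ideal (𝓞 K)} {z : 𝓞 K}, g ∣ y → g' ∣ x → z ∈ g → z ∈ g' → z ∈ g' * g := by
      intro g g' z h1 h2 h3 h4
      have h5 : IsCoprime g' g := (hc.of_isCoprime_of_dvd_left h2).of_isCoprime_of_dvd_right h1
      rw [← Ideal.inf_eq_mul_of_isCoprime h5]
      exact ⟨h4, h3⟩
    refine ⟨g2' * g2, g3' * g3, g4' * g4, mul_dvd_mul d2' d2, mul_dvd_mul d3' d3, mul_dvd_mul d4' d4,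
      hmem d2 d2' m2 m2', hmem d3 d3' m3 m3', hmem d4 d4' m4 m4', ?_⟩
    have e1 : PF F b1 b2 b3 b4 = fun z => PF (FA F (1 - e)) b1 b2 b3 b4 z *
        PF (FA F e) b1 b2 b3 b4 z := by
      funext z
      unfold PF
      rw [FA_prod hF he he1 (z + b1), FA_prod hF he he1 (z + b2), FA_prod hF he he1 (z + b3),
        FA_prod hF he he1 (z + b4), map_mul, map_mul]
      ring
    rw [e1, sQ_crt hc (PF_per (fun x y hxy => hF2.per x y hxy) _ _ _ _)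
      (PF_per (fun x y hxy => hF1.per x y hxy) _ _ _ _), norm_mul]
    have hτ : (tau x : ℝ) * tau y ≤ tau (x * y) := by exact_mod_cast tau_cop_mul hx0 hy0 hc
    have hτ2 : ((tau x : ℝ) * tau y) ^ 2 ≤ (tau (x * y) : ℝ) ^ 2 :=
      pow_le_pow_left₀ (by positivity) hτ 2
    have hsN : √(Ideal.absNorm (x * y) : ℝ) = √(Ideal.absNorm x) * √(Ideal.absNorm y) := by
      rw [map_mul, Nat.cast_mul, Real.sqrt_mul (by positivity)]
    rw [hsN, map_mul, map_mul, map_mul, map_mul]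
    push_cast
    set a : ℝ := ((Ideal.absNorm dx : ℕ) : ℝ) with ha
    set c : ℝ := ((Ideal.absNorm dy : ℕ) : ℝ) with hc'
    have ha0 : 0 ≤ a := Nat.cast_nonneg _
    have hc0 : 0 ≤ c := Nat.cast_nonneg _
    calc _ ≤ ((a ^ 3 * (tau x : ℝ) ^ 2) * √(Ideal.absNorm x) *
          (Ideal.absNorm g2' * Ideal.absNorm g3' * Ideal.absNorm g4')) *
          ((c ^ 3 * (tau y : ℝ) ^ 2) * √(Ideal.absNorm y) *
          (Ideal.absNorm g2 * Ideal.absNorm g3 * Ideal.absNorm g4)) :=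
          mul_le_mul hb' hb (norm_nonneg _) (by positivity)
      _ = ((tau x : ℝ) * tau y) ^ 2 * ((a * c) ^ 3 * (√(Ideal.absNorm x) * √(Ideal.absNorm y) *
          ((Ideal.absNorm g2' * Ideal.absNorm g2) * (Ideal.absNorm g3' * Ideal.absNorm g3) *
          (Ideal.absNorm g4' * Ideal.absNorm g4)))) := by ring
      _ ≤ (tau (x * y) : ℝ) ^ 2 * ((a * c) ^ 3 * (√(Ideal.absNorm x) * √(Ideal.absNorm y) *
          ((Ideal.absNorm g2' * Ideal.absNorm g2) * (Ideal.absNorm g3' * Ideal.absNorm g3) *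
          (Ideal.absNorm g4' * Ideal.absNorm g4)))) := mul_le_mul_of_nonneg_right hτ2 (by positivity)
      _ = _ := by ring

variable (K) in
/-- the constant of the prime two -/
noncomputable def kap : ℝ := (Ideal.absNorm (Ideal.span {(2 : 𝓞 K)}) : ℝ) ^ 3

variable (K) in
lemma kap_ge : 1 ≤ kap K := by
  have h0 : Ideal.span {(2 : 𝓞 K)} ≠ ⊥ := by
    intro h
    exact two_ne_zero (Ideal.span_singleton_eq_bot.1 h)
  have h1 : (1 : ℝ) ≤ Ideal.absNorm (Ideal.span {(2 : 𝓞 K)}) := by exact_mod_cast nrm_pos h0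
  exact one_le_pow₀ h1

theorem PFK {m : Ideal (𝓞 K)} (hm : m ≠ ⊥) [Fintype (𝓞 K ⧸ m)] {F : 𝓞 K → ℂ}
    (b1 b2 b3 b4 : 𝓞 K) (hF : PM m F) : ∃ g2 g3 g4, g2 ∣ m ∧ g3 ∣ m ∧ g4 ∣ m ∧ b1 - b2 ∈ g2 ∧
    b1 - b3 ∈ g3 ∧ b1 - b4 ∈ g4 ∧ ‖sQ m (PF F b1 b2 b3 b4)‖ ≤ kap K * ((tau m : ℝ) ^ 2 *
      √(Ideal.absNorm m) * (Ideal.absNorm g2 * Ideal.absNorm g3 * Ideal.absNorm g4)) := by
  obtain ⟨d, hd, -, h⟩ := PFD_all m hm
  obtain ⟨g2, g3, g4, d2, d3, d4, m2, m3, m4, hb⟩ := h inferInstance F b1 b2 b3 b4 hF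
  refine ⟨g2, g3, g4, d2, d3, d4, m2, m3, m4, hb.trans ?_⟩
  have h0 : Ideal.span {(2 : 𝓞 K)} ≠ ⊥ := by
    intro h
    exact two_ne_zero (Ideal.span_singleton_eq_bot.1 h)
  have h1 : (Ideal.absNorm d : ℝ) ≤ Ideal.absNorm (Ideal.span {(2 : 𝓞 K)}) := by
    exact_mod_cast Nat.le_of_dvd (nrm_pos h0) (map_dvd Ideal.absNorm hd)
  have h2 : (Ideal.absNorm d : ℝ) ^ 3 ≤ kap K := pow_le_pow_left₀ (Nat.cast_nonneg _) h1 3
  calc _ = (Ideal.absNorm d : ℝ) ^ 3 * ((tau m : ℝ) ^ 2 * √(Ideal.absNorm m) *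
        (Ideal.absNorm g2 * Ideal.absNorm g3 * Ideal.absNorm g4)) := by ring
    _ ≤ _ := mul_le_mul_of_nonneg_right h2 (by positivity)

/-- the modulus with a further factor -/
theorem PF_fmY {f m : Ideal (𝓞 K)} (hf0 : f ≠ ⊥) (hm0 : m ≠ ⊥) (hfc : IsCoprime f m)
    [Fintype (𝓞 K ⧸ (f * m))] {F : 𝓞 K → ℂ}
    (hF : PM (f * m) F) (b1 b2 b3 b4 : 𝓞 K) :
    ‖sQ (f * m) (PF F b1 b2 b3 b4)‖ ≤ ((kap K * Ideal.absNorm f) * ((tau m : ℝ) ^ 2 * √(Ideal.absNorm m))) *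
      (Gd m (b1 - b2) * Gd m (b1 - b3) * Gd m (b1 - b4)) := by
  haveI : Finite (𝓞 K ⧸ f) := Ideal.finiteQuotientOfFreeOfNeBot f hf0
  haveI : Fintype (𝓞 K ⧸ f) := Fintype.ofFinite _
  haveI : Finite (𝓞 K ⧸ m) := Ideal.finiteQuotientOfFreeOfNeBot m hm0
  haveI : Fintype (𝓞 K ⧸ m) := Fintype.ofFinite _
  obtain ⟨e, he, he1⟩ := exists_e0 hfc
  have hF1 := FA_PM hf0 hF he he1
  have hF2 := FA_per hF he he1
  obtain ⟨g2, g3, g4, d2, d3, d4, m2, m3, m4, hb⟩ :=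
    PFK hm0 b1 b2 b3 b4 hF1
  have hk1 := kap_ge K
  have hk0 : 0 ≤ kap K := by linarith
  have e1 : PF F b1 b2 b3 b4 = fun z => PF (FA F (1 - e)) b1 b2 b3 b4 z *
      PF (FA F e) b1 b2 b3 b4 z := by
    funext z
    unfold PF
    rw [FA_prod hF he he1 (z + b1), FA_prod hF he he1 (z + b2), FA_prod hF he he1 (z + b3),
      FA_prod hF he he1 (z + b4), map_mul, map_mul]
    ring
  have hle : ∀ z, ‖PF (FA F (1 - e)) b1 b2 b3 b4 z‖ ≤ 1 := by
    intro z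
    have h1 : ∀ y, ‖FA F (1 - e) y‖ ≤ 1 := fun y => by unfold FA; exact hF.le_one _
    unfold PF
    rw [norm_mul, norm_mul, norm_mul, RCLike.norm_conj, RCLike.norm_conj]
    exact mul_le_one₀ (mul_le_one₀ (h1 _) (norm_nonneg _) (h1 _))
      (mul_nonneg (norm_nonneg _) (norm_nonneg _)) (mul_le_one₀ (h1 _) (norm_nonneg _) (h1 _))
  rw [e1, sQ_crt hfc (PF_per hF2 _ _ _ _) (PF_per (fun x y hxy => hF1.per x y hxy) _ _ _ _),
    norm_mul]
  have h2 := le_Gd hm0 d2 m2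
  have h3 := le_Gd hm0 d3 m3
  have h4 := le_Gd hm0 d4 m4
  have h5 : (Ideal.absNorm g2 : ℝ) * Ideal.absNorm g3 * Ideal.absNorm g4 ≤
      Gd m (b1 - b2) * Gd m (b1 - b3) * Gd m (b1 - b4) :=
    mul_le_mul (mul_le_mul h2 h3 (by positivity) (Gd_nonneg _ _)) h4 (by positivity)
      (mul_nonneg (Gd_nonneg _ _) (Gd_nonneg _ _))
  calc _ ≤ (Ideal.absNorm f : ℝ) * (kap K * ((tau m : ℝ) ^ 2 * √(Ideal.absNorm m) *
        (Ideal.absNorm g2 * Ideal.absNorm g3 * Ideal.absNorm g4))) :=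
        mul_le_mul (sQ_le hle) hb (norm_nonneg _) (by positivity)
    _ ≤ (Ideal.absNorm f : ℝ) * (kap K * ((tau m : ℝ) ^ 2 * √(Ideal.absNorm m) *
        (Gd m (b1 - b2) * Gd m (b1 - b3) * Gd m (b1 - b4)))) := by
        refine mul_le_mul_of_nonneg_left ?_ (by positivity)
        refine mul_le_mul_of_nonneg_left ?_ hk0
        exact mul_le_mul_of_nonneg_left h5 (by positivity)
    _ = _ := by ring

section
variable {Z : Type} [DecidableEq Z]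

/-- pointwise bound -/
theorem PF_ptY {f m : Ideal (𝓞 K)} (hf0 : f ≠ ⊥) (hm0 : m ≠ ⊥) (hfc : IsCoprime f m)
    [Fintype (𝓞 K ⧸ (f * m))] {F : 𝓞 K → ℂ}
    (hF : PM (f * m) F) (β : Z → 𝓞 K) (z1 z2 z3 z4 : Z) :
    ‖sQ (f * m) (PF F (β z1) (β z2) (β z3) (β z4))‖ ≤ Ideal.absNorm (f * m) * Dg z1 z2 z3 z4 +
      ((kap K * Ideal.absNorm f) * ((tau m : ℝ) ^ 2 * √(Ideal.absNorm m))) *
      (Pw m β z1 z2 * Pw m β z1 z3 * Pw m β z1 z4 + Pw m β z2 z1 * Pw m β z2 z3 * Pw m β z2 z4 +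
      Pw m β z3 z1 * Pw m β z3 z2 * Pw m β z3 z4 + Pw m β z4 z1 * Pw m β z4 z2 * Pw m β z4 z3) := by
  set X := ‖sQ (f * m) (PF F (β z1) (β z2) (β z3) (β z4))‖ with hX
  have hk1 := kap_ge K
  have hk0 : 0 ≤ kap K := by linarith
  set A : ℝ := (kap K * Ideal.absNorm f) * ((tau m : ℝ) ^ 2 * √(Ideal.absNorm m)) with hA
  have hA0 : 0 ≤ A := by positivity
  have hQ : X ≤ Ideal.absNorm (f * m) := sQ_le (PF_le hF _ _ _ _)
  have hP := Pw_nonneg m β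
  have n1 : 0 ≤ Pw m β z1 z2 * Pw m β z1 z3 * Pw m β z1 z4 := mul_nonneg (mul_nonneg (hP _ _) (hP _ _)) (hP _ _)
  have n2 : 0 ≤ Pw m β z2 z1 * Pw m β z2 z3 * Pw m β z2 z4 := mul_nonneg (mul_nonneg (hP _ _) (hP _ _)) (hP _ _)
  have n3 : 0 ≤ Pw m β z3 z1 * Pw m β z3 z2 * Pw m β z3 z4 := mul_nonneg (mul_nonneg (hP _ _) (hP _ _)) (hP _ _)
  have n4 : 0 ≤ Pw m β z4 z1 * Pw m β z4 z2 * Pw m β z4 z3 := mul_nonneg (mul_nonneg (hP _ _) (hP _ _)) (hP _ _)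
  have hD := Dg_nonneg z1 z2 z3 z4
  have hN : (0 : ℝ) ≤ Ideal.absNorm (f * m) := Nat.cast_nonneg _
  have key : ∀ w x y z : Z, w ≠ x → w ≠ y → w ≠ z → ‖sQ (f * m) (PF F (β w) (β x) (β y) (β z))‖ = X →
      X ≤ A * (Pw m β w x * Pw m β w y * Pw m β w z) := by
    intro w x y z h1 h2 h3 h4
    rw [← h4]
    refine (PF_fmY hf0 hm0 hfc hF _ _ _ _).trans (le_of_eq ?_)
    unfold Pw
    rw [if_neg h1, if_neg h2, if_neg h3]
  by_cases s1 : z1 ≠ z2 ∧ z1 ≠ z3 ∧ z1 ≠ z4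
  · have := key z1 z2 z3 z4 s1.1 s1.2.1 s1.2.2 rfl
    have h0 : 0 ≤ (Ideal.absNorm (f * m) : ℝ) * Dg z1 z2 z3 z4 := mul_nonneg hN hD
    nlinarith [mul_nonneg hA0 n2, mul_nonneg hA0 n3, mul_nonneg hA0 n4]
  by_cases s2 : z2 ≠ z1 ∧ z2 ≠ z3 ∧ z2 ≠ z4
  · have := key z2 z1 z3 z4 s2.1 s2.2.1 s2.2.2 (by rw [PF_swap])
    have h0 : 0 ≤ (Ideal.absNorm (f * m) : ℝ) * Dg z1 z2 z3 z4 := mul_nonneg hN hD
    nlinarith [mul_nonneg hA0 n1, mul_nonneg hA0 n3, mul_nonneg hA0 n4]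
  by_cases s3 : z3 ≠ z1 ∧ z3 ≠ z2 ∧ z3 ≠ z4
  · have e1 : ‖sQ (f * m) (PF F (β z3) (β z4) (β z1) (β z2))‖ = X := sQ_conj _ _ _ _ _
    have := key z3 z4 z1 z2 s3.2.2 s3.1 s3.2.1 e1
    have h0 : 0 ≤ (Ideal.absNorm (f * m) : ℝ) * Dg z1 z2 z3 z4 := mul_nonneg hN hD
    have e2 : Pw m β z3 z4 * Pw m β z3 z1 * Pw m β z3 z2 =
        Pw m β z3 z1 * Pw m β z3 z2 * Pw m β z3 z4 := by ring
    rw [e2] at this
    nlinarith [mul_nonneg hA0 n1, mul_nonneg hA0 n2, mul_nonneg hA0 n4]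
  by_cases s4 : z4 ≠ z1 ∧ z4 ≠ z2 ∧ z4 ≠ z3
  · have e1 : ‖sQ (f * m) (PF F (β z4) (β z3) (β z1) (β z2))‖ = X := by
      rw [PF_swap]; exact sQ_conj _ _ _ _ _
    have := key z4 z3 z1 z2 s4.2.2 s4.1 s4.2.1 e1
    have h0 : 0 ≤ (Ideal.absNorm (f * m) : ℝ) * Dg z1 z2 z3 z4 := mul_nonneg hN hD
    have e2 : Pw m β z4 z3 * Pw m β z4 z1 * Pw m β z4 z2 =
        Pw m β z4 z1 * Pw m β z4 z2 * Pw m β z4 z3 := by ring
    rw [e2] at this
    nlinarith [mul_nonneg hA0 n1, mul_nonneg hA0 n2, mul_nonneg hA0 n3]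
  · have hD1 : 1 ≤ Dg z1 z2 z3 z4 := by
      have hb : ∀ p q : Prop, ∀ [Decidable p] [Decidable q],
          (0 : ℝ) ≤ (if p then 1 else 0) * (if q then 1 else 0) := by
        intro p q _ _
        split_ifs <;> norm_num
      unfold Dg
      by_cases e12 : z1 = z2
      · subst e12
        have e34 : z3 = z4 := by
          by_contra h
          by_cases e13 : z1 = z3
          · subst e13
            exact s4 ⟨fun h' => h h'.symm, fun h' => h h'.symm, fun h' => h h'.symm⟩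
          · exact s3 ⟨fun h' => e13 h'.symm, fun h' => e13 h'.symm, h⟩
        rw [if_pos rfl, if_pos e34]
        have := hb (z1 = z3) (z1 = z4)
        have := hb (z1 = z4) (z1 = z3)
        linarith
      · by_cases e13 : z1 = z3
        · subst e13
          have e24 : z2 = z4 := by
            by_contra h
            exact s2 ⟨fun h' => e12 h'.symm, fun h' => e12 h'.symm, h⟩
          have h1 := hb (z1 = z2) (z1 = z4)
          have h2 := hb (z1 = z4) (z2 = z1)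
          rw [if_pos (rfl : z1 = z1), if_pos e24]
          linarith
        · have e14 : z1 = z4 := by
            by_contra h
            exact s1 ⟨e12, e13, h⟩
          subst e14
          have e23 : z2 = z3 := by
            by_contra h
            exact s2 ⟨fun h' => e12 h'.symm, h, fun h' => e12 h'.symm⟩
          have h1 := hb (z1 = z2) (z3 = z1)
          have h2 := hb (z1 = z3) (z2 = z1)
          rw [if_pos (rfl : z1 = z1), if_pos e23]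
          linarith
    have h1 : X ≤ Ideal.absNorm (f * m) * Dg z1 z2 z3 z4 := by
      refine hQ.trans ?_
      exact le_mul_of_one_le_right hN hD1
    have h2 : 0 ≤ A * (Pw m β z1 z2 * Pw m β z1 z3 * Pw m β z1 z4 +
      Pw m β z2 z1 * Pw m β z2 z3 * Pw m β z2 z4 +
      Pw m β z3 z1 * Pw m β z3 z2 * Pw m β z3 z4 +
      Pw m β z4 z1 * Pw m β z4 z2 * Pw m β z4 z3) := mul_nonneg hA0 (by linarith)
    linarith

end

end Pool.Agent.T2H29.SW
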