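import Pool.Agent.T2H29.SW.Y5
import Pool.Agent.T2H29.SW.U13

/-!
# The inequality of Burgess, all moduli
-/

set_option autoImplicit false
set_option linter.unusedSectionVars false

namespace Pool.Agent.T2H29.SW

open Finset NumberField NumberField.InfinitePlace Module MeasureTheory
open scoped RealInnerProductSpace

variable {K : Type} [Field K] [NumberField K]

/-- the fourth moment of finite sums -/
theorem four_finY {B C1 : ℝ} (hB1 : 1 ≤ B) (hB : CBI K B) (hC10 : 0 < C1)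
    (hC1 : ∀ A : Matrix (Fin (dg K)) (Fin (dg K)) ℝ,
    A.det ≠ 0 → CB B A → ∑' z, (if z = 0 then 0 else gs A 0 z) ≤ C1 * Mv A)
    {f m I : Ideal (𝓞 K)} (hf0 : f ≠ ⊥) (hm0 : m ≠ ⊥) (hfc : IsCoprime f m)
    (hI : I ≠ ⊥) (hIc : IsCoprime I (f * m))
    [Fintype (𝓞 K ⧸ (f * m))] {F : 𝓞 K → ℂ} (hF : PM (f * m) F)
    (b : Basis (Fin (dg K)) ℤ I) (x : LS K) {ρ : ℝ} (hρ : 0 < ρ)
    (g : (Fin (dg K) → ℤ) → ℂ) (hg : ∀ z, ‖g z‖ ≤ gs (ρ • AX b x) 0 z)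
    (S : Finset (Fin (dg K) → ℤ)) :
    ∑ y : 𝓞 K ⧸ (f * m), ‖∑ z ∈ S, g z * F (Quotient.out y + el b z)‖ ^ 4 ≤
      3 * Ideal.absNorm (f * m) * (B * (1 + mm I x.2 / ρ ^ (dg K))) ^ 2 +
      4 * ((kap K * Ideal.absNorm f) * ((tau m : ℝ) ^ 2 * √(Ideal.absNorm m))) *
      ((B * (1 + 2 ^ (dg K) * (mm I x.2 / ρ ^ (dg K)))) *
        (tau m * (C1 * (√8 ^ (dg K) * (mm I x.2 / ρ ^ (dg K))))) ^ 3) := by
  classical
  have hMM := mm_pos hI x.2
  set M' := mm I x.2 / ρ ^ (dg K) with hM'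
  have hM'0 : 0 < M' := by positivity
  set A' := ρ • AX b x with hA'
  set c : (Fin (dg K) → ℤ) → ℝ := gs A' 0 with hc
  have hc0 : ∀ z, 0 ≤ c z := fun z => (gs_pos _ _ _).le
  have hdet : A'.det ≠ 0 := smul_det_ne hρ.ne' (det_AX_ne hI b x)
  have hCB : CB B A' := (hB I hI b x).smul hρ
  have hMv : Mv A' = M' := by
    rw [hA', Mv_smul hρ, Mv_AX, Fintype.card_fin]
  have hcs := gs_summable hdet (0 : Fin (dg K) → ℝ)
  have hcI : IsCoprime I m := IsCoprime.of_mul_right_right hIc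
  have hk1 := kap_ge K
  have hk0 : 0 ≤ kap K := by linarith
  set A : ℝ := (kap K * Ideal.absNorm f) * ((tau m : ℝ) ^ 2 * √(Ideal.absNorm m)) with hAdef
  have hA0 : 0 ≤ A := by positivity
  set Y := tau m * (C1 * (√8 ^ (dg K) * M')) with hY
  have hY0 : 0 ≤ Y := by positivity
  have h1 := four_exp (Y := 𝓞 K ⧸ (f * m)) S g c hg (fun z y => F (Quotient.out y + el b z))
  refine h1.trans ?_
  have h2 : ∑ z1 ∈ S, ∑ z2 ∈ S, ∑ z3 ∈ S, ∑ z4 ∈ S, (c z1 * c z2 * c z3 * c z4) *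
      ‖∑ y : 𝓞 K ⧸ (f * m), F (Quotient.out y + el b z1) * F (Quotient.out y + el b z2) *
        (starRingEnd ℂ) (F (Quotient.out y + el b z3)) *
        (starRingEnd ℂ) (F (Quotient.out y + el b z4))‖ ≤
      ∑ z1 ∈ S, ∑ z2 ∈ S, ∑ z3 ∈ S, ∑ z4 ∈ S, (c z1 * c z2 * c z3 * c z4) *
      (Ideal.absNorm (f * m) * Dg z1 z2 z3 z4 +
      A * (Pw m (el b) z1 z2 * Pw m (el b) z1 z3 * Pw m (el b) z1 z4 +
        Pw m (el b) z2 z1 * Pw m (el b) z2 z3 * Pw m (el b) z2 z4 +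
        Pw m (el b) z3 z1 * Pw m (el b) z3 z2 * Pw m (el b) z3 z4 +
        Pw m (el b) z4 z1 * Pw m (el b) z4 z2 * Pw m (el b) z4 z3)) := by
    refine sum_le_sum fun z1 _ => sum_le_sum fun z2 _ => sum_le_sum fun z3 _ =>
      sum_le_sum fun z4 _ => ?_
    refine mul_le_mul_of_nonneg_left ?_ (mul_nonneg (mul_nonneg (mul_nonneg (hc0 _) (hc0 _))
      (hc0 _)) (hc0 _))
    have h3 := PF_ptY hf0 hm0 hfc hF (el b) z1 z2 z3 z4
    refine (le_of_eq ?_).trans h3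
    unfold sQ PF
    congr 1
    refine sum_congr rfl fun y _ => ?_
    ring
  refine h2.trans ?_
  set P := Pw m (el b) with hP
  have hcube : ∑ w ∈ S, c w * (∑ z ∈ S, c z * P w z) ^ 3 ≤
      (B * (1 + 2 ^ (dg K) * M')) * Y ^ 3 := by
    have h3 : ∀ w ∈ S, c w * (∑ z ∈ S, c z * P w z) ^ 3 ≤ gs ((2 : ℝ)⁻¹ • A') 0 w * Y ^ 3 := by
      intro w _
      have h4 := off_sum hB hC1 hI hm0 hcI b x hρ S w
      rw [← hA', ← hM', ← hY] at h4
      set u := gs ((2 : ℝ)⁻¹ • A') 0 w with hu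
      have hu0 : 0 ≤ u := (gs_pos _ _ _).le
      have e1 : ∑ z ∈ S, (u * gs A' 0 z) * Pw m (el b) w z = u * ∑ z ∈ S, c z * P w z := by
        rw [mul_sum]
        refine sum_congr rfl fun z _ => ?_
        rw [hc, hP]
        ring
      rw [e1] at h4
      have h5 : 0 ≤ ∑ z ∈ S, c z * P w z := sum_nonneg fun z _ =>
        mul_nonneg (hc0 z) (Pw_nonneg _ _ _ _)
      have e2 : c w = u ^ 4 := gs_fourth A' w
      calc c w * (∑ z ∈ S, c z * P w z) ^ 3 = u * (u * ∑ z ∈ S, c z * P w z) ^ 3 := by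
            rw [e2]; ring
        _ ≤ u * Y ^ 3 := mul_le_mul_of_nonneg_left
            (pow_le_pow_left₀ (mul_nonneg hu0 h5) h4 3) hu0
    refine (sum_le_sum h3).trans ?_
    rw [← sum_mul]
    refine mul_le_mul_of_nonneg_right ?_ (by positivity)
    have h6 := gs_summable (smul_det_ne (show ((2 : ℝ)⁻¹) ≠ 0 by norm_num) hdet)
      (0 : Fin (dg K) → ℝ)
    refine (h6.sum_le_tsum S fun z _ => (gs_pos _ _ _).le).trans ?_
    refine ((hCB.smul (by norm_num : (0 : ℝ) < 2⁻¹)).one 0).trans (le_of_eq ?_)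
    rw [Mv_smul (by norm_num), hMv, Fintype.card_fin, inv_pow, div_inv_eq_mul]
    ring
  have hdiag : 3 * (∑ z ∈ S, c z ^ 2) ^ 2 ≤ 3 * (B * (1 + M')) ^ 2 := by
    have h3 : ∑ z ∈ S, c z ^ 2 ≤ B * (1 + M') := by
      calc ∑ z ∈ S, c z ^ 2 ≤ ∑ z ∈ S, c z := sum_le_sum fun z _ => by
            have := gs_le_one A' 0 z
            have := hc0 z
            rw [sq]
            exact mul_le_of_le_one_left (hc0 z) (gs_le_one A' 0 z)
        _ ≤ ∑' z, c z := hcs.sum_le_tsum S fun z _ => hc0 z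
        _ ≤ _ := by
            have := hCB.one 0
            rwa [hMv] at this
    have h4 : 0 ≤ ∑ z ∈ S, c z ^ 2 := sum_nonneg fun z _ => by positivity
    have := pow_le_pow_left₀ h4 h3 2
    linarith
  have e3 : ∑ z1 ∈ S, ∑ z2 ∈ S, ∑ z3 ∈ S, ∑ z4 ∈ S, (c z1 * c z2 * c z3 * c z4) *
      (Ideal.absNorm (f * m) * Dg z1 z2 z3 z4 +
      A * (P z1 z2 * P z1 z3 * P z1 z4 + P z2 z1 * P z2 z3 * P z2 z4 +
        P z3 z1 * P z3 z2 * P z3 z4 + P z4 z1 * P z4 z2 * P z4 z3)) =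
      (Ideal.absNorm (f * m) : ℝ) * (3 * (∑ z ∈ S, c z ^ 2) ^ 2) +
      A * (4 * ∑ w ∈ S, c w * (∑ z ∈ S, c z * P w z) ^ 3) := by
    have t1 := cube_sum S c P
    have t2 : ∑ z1 ∈ S, ∑ z2 ∈ S, ∑ z3 ∈ S, ∑ z4 ∈ S, (c z1 * c z2 * c z3 * c z4) *
        (P z2 z1 * P z2 z3 * P z2 z4) = ∑ w ∈ S, c w * (∑ x ∈ S, c x * P w x) ^ 3 := by
      rw [← t1, ← sum_213 S (fun z1 z2 z3 z4 => (c z1 * c z2 * c z3 * c z4) *
        (P z1 z2 * P z1 z3 * P z1 z4))]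
      refine sum_congr rfl fun z1 _ => sum_congr rfl fun z2 _ => sum_congr rfl fun z3 _ =>
        sum_congr rfl fun z4 _ => ?_
      ring
    have t3 : ∑ z1 ∈ S, ∑ z2 ∈ S, ∑ z3 ∈ S, ∑ z4 ∈ S, (c z1 * c z2 * c z3 * c z4) *
        (P z3 z1 * P z3 z2 * P z3 z4) = ∑ w ∈ S, c w * (∑ x ∈ S, c x * P w x) ^ 3 := by
      rw [← t1, ← sum_312 S (fun z1 z2 z3 z4 => (c z1 * c z2 * c z3 * c z4) *
        (P z1 z2 * P z1 z3 * P z1 z4))]
      refine sum_congr rfl fun z1 _ => sum_congr rfl fun z2 _ => sum_congr rfl fun z3 _ =>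
        sum_congr rfl fun z4 _ => ?_
      ring
    have t4 : ∑ z1 ∈ S, ∑ z2 ∈ S, ∑ z3 ∈ S, ∑ z4 ∈ S, (c z1 * c z2 * c z3 * c z4) *
        (P z4 z1 * P z4 z2 * P z4 z3) = ∑ w ∈ S, c w * (∑ x ∈ S, c x * P w x) ^ 3 := by
      rw [← t1, ← sum_4123 S (fun z1 z2 z3 z4 => (c z1 * c z2 * c z3 * c z4) *
        (P z1 z2 * P z1 z3 * P z1 z4))]
      refine sum_congr rfl fun z1 _ => sum_congr rfl fun z2 _ => sum_congr rfl fun z3 _ =>
        sum_congr rfl fun z4 _ => ?_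
      ring
    have t0 := diag_sum S c
    have e4 : ∀ z1 z2 z3 z4 : Fin (dg K) → ℤ, (c z1 * c z2 * c z3 * c z4) *
      (Ideal.absNorm (f * m) * Dg z1 z2 z3 z4 +
      A * (P z1 z2 * P z1 z3 * P z1 z4 + P z2 z1 * P z2 z3 * P z2 z4 +
        P z3 z1 * P z3 z2 * P z3 z4 + P z4 z1 * P z4 z2 * P z4 z3)) =
      (Ideal.absNorm (f * m) : ℝ) * ((c z1 * c z2 * c z3 * c z4) * Dg z1 z2 z3 z4) +
      A * ((c z1 * c z2 * c z3 * c z4) * (P z1 z2 * P z1 z3 * P z1 z4)) +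
      A * ((c z1 * c z2 * c z3 * c z4) * (P z2 z1 * P z2 z3 * P z2 z4)) +
      A * ((c z1 * c z2 * c z3 * c z4) * (P z3 z1 * P z3 z2 * P z3 z4)) +
      A * ((c z1 * c z2 * c z3 * c z4) * (P z4 z1 * P z4 z2 * P z4 z3)) := by
      intro z1 z2 z3 z4
      ring
    simp_rw [e4, sum_add_distrib, ← mul_sum]
    rw [t0, t1, t2, t3, t4]
    ring
  rw [e3]
  have hN : (0 : ℝ) ≤ Ideal.absNorm (f * m) := Nat.cast_nonneg _
  calc (Ideal.absNorm (f * m) : ℝ) * (3 * (∑ z ∈ S, c z ^ 2) ^ 2) +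
      A * (4 * ∑ w ∈ S, c w * (∑ z ∈ S, c z * P w z) ^ 3) ≤
      (Ideal.absNorm (f * m) : ℝ) * (3 * (B * (1 + M')) ^ 2) +
      A * (4 * ((B * (1 + 2 ^ (dg K) * M')) * Y ^ 3)) := by
        refine add_le_add (mul_le_mul_of_nonneg_left hdiag hN)
          (mul_le_mul_of_nonneg_left ?_ hA0)
        linarith
    _ = _ := by ring

/-- the inequality of Burgess -/
theorem bur1Y {B C1 Cu : ℝ} (hB1 : 1 ≤ B) (hB : CBI K B) (hC10 : 0 < C1)
    (hC1 : ∀ A : Matrix (Fin (dg K)) (Fin (dg K)) ℝ,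
    A.det ≠ 0 → CB B A → ∑' z, (if z = 0 then 0 else gs A 0 z) ≤ C1 * Mv A) (hCu0 : 0 < Cu)
    (hCu : ∀ (d : Ideal (𝓞 K)), d ≠ ⊥ → ∀ {R : ℝ}, 0 < R →
    ∀ (S : Finset (𝓞 K)), (∀ a ∈ S, a ∈ d ∧ a ≠ 0 ∧ ∀ w, ‖sg a w‖ ≤ R) →
    (S.card : ℝ) ≤ Cu * (R ^ (dg K) / Ideal.absNorm d)) :
    ∃ C : ℝ, 0 < C ∧ ∀ (f m I : Ideal (𝓞 K)) (F : 𝓞 K → ℂ) (b : Basis (Fin (dg K)) ℤ I) (x : LS K)
    (ξ : EK K) (R : ℝ) (S : Finset (𝓞 K)) (T : ℝ), f ≠ ⊥ → m ≠ ⊥ → IsCoprime f m →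
    I ≠ ⊥ → IsCoprime I (f * m) → PM (f * m) F →
    0 < R → (∀ a ∈ S, IsCoprime (Ideal.span {a}) (f * m) ∧
      ∀ w, R / 4 ≤ ‖sg a w‖ ∧ ‖sg a w‖ ≤ R) → 0 ≤ T →
    (∀ a ∈ S, (tau (Ideal.span {a}) : ℝ) ≤ T) →
    S.card * (‖GS (AX b x) 0 (fun z => ee ((AX b x).transpose.mulVec ξ.ofLp) z * F (el b z))‖ *
      (mm I x.2 / (2 * R) ^ (dg K))) ≤ C * (1 + ‖ξ‖) ^ (dg K + 1) *
      √(√((S.card * (1 + mm I x.2)) ^ 2 *
      ((1 + R ^ (dg K) * (mm I x.2 / Ideal.absNorm (f * m))) *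
        ((S.card : ℝ) ^ 2 + mm I x.2 * S.card * T)) *
      (Ideal.absNorm (f * m) * (1 + mm I x.2 / R ^ (dg K)) ^ 2 +
        (Ideal.absNorm f * ((tau m : ℝ) ^ 2 * √(Ideal.absNorm m))) *
        ((1 + mm I x.2 / R ^ (dg K)) * (tau m * (mm I x.2 / R ^ (dg K))) ^ 3)))) := by
  classical
  obtain ⟨Cs, hCs0, hCs⟩ := shift_bd K
  obtain ⟨C4', hC40', hC4⟩ := four_cst (K := K) hB1 hC10
  have hκ1 := kap_ge K
  have hκ0 : 0 < kap K := by linarith
  obtain ⟨C4, hC4d⟩ : ∃ C4, C4 = kap K * C4' := ⟨_, rfl⟩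
  have hC40 : 0 < C4 := by rw [hC4d]; positivity
  set cI : ℝ := ∫ τ : EK K, Kf τ with hcI
  have hcI0 : 0 ≤ cI := integral_nonneg fun τ => (Kf_pos τ).le
  set Ce : ℝ := B ^ 2 * √8 ^ (dg K) * 8 ^ (dg K) * (1 + Cu) with hCe
  set Cg : ℝ := B * √2 ^ (dg K) with hCg
  have hCg0 : 0 < Cg := by positivity
  have hCe0 : 0 < Ce := by positivity
  set C : ℝ := Cs * (cI + 1) * (√(√(Cg ^ 2 * Ce * C4)) + 1) with hC
  refine ⟨C, by positivity, fun f m I F b x ξ R S T hf hm hfc hI hIc hF hR hS hT0 hT => ?_⟩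
  have hfm : f * m ≠ ⊥ := by
    intro h
    rcases Ideal.mul_eq_bot.1 h with h1 | h1
    · exact hf h1
    · exact hm h1
  haveI : Finite (𝓞 K ⧸ (f * m)) := Ideal.finiteQuotientOfFreeOfNeBot _ hfm
  haveI : Fintype (𝓞 K ⧸ (f * m)) := Fintype.ofFinite _
  have hMM := mm_pos hI x.2
  set M := mm I x.2 with hM
  set A := AX b x with hA
  have hdet : A.det ≠ 0 := det_AX_ne hI b x
  set Q : ℝ := ((Ideal.absNorm (f * m) : ℕ) : ℝ) with hQ
  have hQ0 : 0 < Q := absNorm_pos' hfm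
  set M' := M / R ^ (dg K) with hM'
  have hM'0 : 0 < M' := by positivity
  set Nf : ℝ := ((Ideal.absNorm f : ℕ) : ℝ) with hNf
  have hNf0 : 0 ≤ Nf := Nat.cast_nonneg _
  set τm : ℝ := ((tau m : ℕ) : ℝ) with hτm
  have hτm0 : 0 ≤ τm := Nat.cast_nonneg _
  set Sm : ℝ := √((Ideal.absNorm m : ℕ) : ℝ) with hSm
  have hSm0 : 0 ≤ Sm := Real.sqrt_nonneg _
  set Z : ℝ := (S.card * (1 + M)) ^ 2 *
      ((1 + R ^ (dg K) * (M / Q)) * ((S.card : ℝ) ^ 2 + M * S.card * T)) *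
      (Q * (1 + M') ^ 2 + (Nf * (τm ^ 2 * Sm)) * ((1 + M') * (τm * M') ^ 3)) with hZ
  have hZ0 : 0 ≤ Z := by positivity
  set g0 := ‖GS A 0 (fun z => ee (A.transpose.mulVec ξ.ofLp) z * F (el b z))‖ with hg0
  have hg00 : 0 ≤ g0 := norm_nonneg _
  -- inverses
  have hinv : ∀ a, ∃ a', a ∈ S → a * a' - 1 ∈ f * m := by
    intro a
    by_cases ha : a ∈ S
    · obtain ⟨γ, hγ⟩ := cop_inv (hS a ha).1
      exact ⟨γ, fun _ => hγ⟩
    · exact ⟨0, fun h => absurd h ha⟩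
  choose iv hiv using hinv
  set G : (Fin (dg K) → ℤ) → ℝ := gs ((√2)⁻¹ • A) 0 with hG
  have hG0 : ∀ z, 0 ≤ G z := fun z => (gs_pos _ _ _).le
  have hdet2 : ((√2)⁻¹ • A).det ≠ 0 := smul_det_ne (by positivity) hdet
  -- the bound for finite sets
  have key : ∀ Sβ SZ : Finset (Fin (dg K) → ℤ), ∑ a ∈ S, ∑ z ∈ SZ, G z *
      ∫ τ, Kf τ * ‖Bt R Sβ (vc A) (fun β => F (iv a * el b z + el b β)) τ‖ ≤
      cI * √(√(Cg ^ 2 * Ce * C4 * Z)) := by
    intro Sβ SZ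
    set ρ : 𝓞 K × (Fin (dg K) → ℤ) → 𝓞 K ⧸ (f * m) := fun p =>
      Ideal.Quotient.mk (f * m) (iv p.1 * el b p.2) with hρ
    have hint : ∀ p ∈ S ×ˢ SZ, Integrable fun τ : EK K =>
        G p.2 * (Kf τ * ‖Bt R Sβ (vc A) (fun β => F (iv p.1 * el b p.2 + el b β)) τ‖) :=
      fun p _ => (KfBt_int R Sβ _ _).const_mul _
    have e1 : ∑ a ∈ S, ∑ z ∈ SZ, G z *
        ∫ τ, Kf τ * ‖Bt R Sβ (vc A) (fun β => F (iv a * el b z + el b β)) τ‖ =
        ∫ τ : EK K, ∑ p ∈ S ×ˢ SZ, G p.2 *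
          (Kf τ * ‖Bt R Sβ (vc A) (fun β => F (iv p.1 * el b p.2 + el b β)) τ‖) := by
      rw [integral_finset_sum _ hint, sum_product]
      refine sum_congr rfl fun a _ => sum_congr rfl fun z _ => ?_
      rw [integral_const_mul]
    rw [e1, hcI, ← integral_mul_const]
    refine integral_mono (integrable_finset_sum _ hint) (Kf_int.mul_const _) fun τ => ?_
    beta_reduce
    have e2 : ∑ p ∈ S ×ˢ SZ, G p.2 *
        (Kf τ * ‖Bt R Sβ (vc A) (fun β => F (iv p.1 * el b p.2 + el b β)) τ‖) =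
        Kf τ * ∑ p ∈ S ×ˢ SZ, G p.2 *
          ‖Bt R Sβ (vc A) (fun β => F (iv p.1 * el b p.2 + el b β)) τ‖ := by
      rw [mul_sum]
      exact sum_congr rfl fun p _ => by ring
    rw [e2]
    refine mul_le_mul_of_nonneg_left ?_ (Kf_pos τ).le
    apply le_qqrt
    -- Hölder
    set g : (Fin (dg K) → ℤ) → ℂ := fun z =>
      ((Real.exp (-(2 * Real.pi * R ^ 2 * ‖vc A z‖ ^ 2)) : ℝ) : ℂ) * e (R * ⟪τ, vc A z⟫) with hg
    set Tt : 𝓞 K ⧸ (f * m) → ℝ := fun y =>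
      ‖∑ z ∈ Sβ, g z * F (Quotient.out y + el b z)‖ with hTt
    have e3 : ∀ p : 𝓞 K × (Fin (dg K) → ℤ),
        ‖Bt R Sβ (vc A) (fun β => F (iv p.1 * el b p.2 + el b β)) τ‖ = Tt (ρ p) := by
      intro p
      simp only [hTt, hρ]
      congr 1
      unfold Bt
      refine sum_congr rfl fun z _ => ?_
      simp only [hg]
      congr 1
      refine hF.per _ _ ?_
      have h1 := out_sub (f * m) (iv p.1 * el b p.2)
      have e4 : iv p.1 * el b p.2 + el b z -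
          (Quotient.out (Ideal.Quotient.mk (f * m) (iv p.1 * el b p.2)) + el b z) =
          -(Quotient.out (Ideal.Quotient.mk (f * m) (iv p.1 * el b p.2)) - iv p.1 * el b p.2) := by
        ring
      rw [e4]
      exact neg_mem h1
    simp_rw [e3]
    have hH := holder4 (S ×ˢ SZ) (fun p => G p.2) (fun p => hG0 p.2) ρ Tt
    refine hH.trans ?_
    have b1 : ∑ p ∈ S ×ˢ SZ, G p.2 ≤ Cg * (S.card * (1 + M)) := by
      rw [sum_product]
      show ∑ _x ∈ S, ∑ y ∈ SZ, G y ≤ _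
      rw [sum_const, nsmul_eq_mul]
      have h1 : ∑ z ∈ SZ, G z ≤ Cg * (1 + M) := by
        refine ((gs_summable hdet2 0).sum_le_tsum SZ fun z _ => hG0 z).trans ?_
        refine (((hB I hI b x).smul (by positivity : (0 : ℝ) < (√2)⁻¹)).one 0).trans ?_
        rw [Mv_smul (by positivity), Mv_AX, Fintype.card_fin, inv_pow, div_inv_eq_mul, hCg, mul_assoc]
        refine mul_le_mul_of_nonneg_left ?_ (by positivity)
        have : (1 : ℝ) ≤ √2 ^ (dg K) := one_le_pow₀ (by rw [Real.one_le_sqrt]; norm_num)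
        nlinarith
      calc (S.card : ℝ) * ∑ z ∈ SZ, G z ≤ S.card * (Cg * (1 + M)) :=
            mul_le_mul_of_nonneg_left h1 (Nat.cast_nonneg _)
        _ = _ := by ring
    have b10 : 0 ≤ ∑ p ∈ S ×ˢ SZ, G p.2 := sum_nonneg fun p _ => hG0 _
    have b2 : (∑ p ∈ S ×ˢ SZ, ∑ p' ∈ S ×ˢ SZ, if ρ p = ρ p' then G p.2 * G p'.2 else 0) ≤
        Ce * ((1 + R ^ (dg K) * (M / Q)) * ((S.card : ℝ) ^ 2 + M * S.card * T)) := by
      set P : 𝓞 K → 𝓞 K → Finset ((Fin (dg K) → ℤ) × (Fin (dg K) → ℤ)) := fun a a' =>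
        (SZ ×ˢ SZ).filter (fun p => a' * el b p.1 - a * el b p.2 ∈ f * m) with hP
      have h1 := en_tot hB1 hB hCu0 hCu hfm hI hIc b x hR S (fun a ha => (hS a ha).2) hT0 hT P
        (fun a a' p hp => (mem_filter.1 hp).2)
      refine le_trans ?_ h1
      rw [sum_product]
      refine sum_le_sum fun a ha => ?_
      have e5 : ∑ z ∈ SZ, ∑ p' ∈ S ×ˢ SZ, (if ρ (a, z) = ρ p' then G (a, z).2 * G p'.2 else 0) =
          ∑ a' ∈ S, ∑ z ∈ SZ, ∑ z' ∈ SZ, (if ρ (a, z) = ρ (a', z') then G z * G z' else 0) := by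
        rw [sum_comm, sum_product]
        refine sum_congr rfl fun a' _ => ?_
        rw [sum_comm]
      rw [e5]
      refine sum_le_sum fun a' ha' => ?_
      have e6 : ∑ z ∈ SZ, ∑ z' ∈ SZ, (if ρ (a, z) = ρ (a', z') then G z * G z' else 0) =
          ∑ p ∈ SZ ×ˢ SZ, (if ρ (a, p.1) = ρ (a', p.2) then G p.1 * G p.2 else 0) := by
        rw [sum_product]
      rw [e6]
      simp only [hP]
      rw [sum_filter]
      refine sum_le_sum fun p _ => ?_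
      have hGG : 0 ≤ G p.1 * G p.2 := mul_nonneg (hG0 _) (hG0 _)
      by_cases h2 : ρ (a, p.1) = ρ (a', p.2)
      · rw [if_pos h2]
        have h3 : a' * el b p.1 - a * el b p.2 ∈ f * m := by
          simp only [hρ] at h2
          rw [Ideal.Quotient.mk_eq_mk_iff_sub_mem] at h2
          have h4 := hiv a ha
          have h5 := hiv a' ha'
          have e7 : a' * el b p.1 - a * el b p.2 =
              (a * a') * (iv a * el b p.1 - iv a' * el b p.2) -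
              (a * iv a - 1) * (a' * el b p.1) + (a' * iv a' - 1) * (a * el b p.2) := by ring
          rw [e7]
          exact add_mem (sub_mem (Ideal.mul_mem_left _ _ h2) (Ideal.mul_mem_right _ _ h4))
            (Ideal.mul_mem_right _ _ h5)
        rw [if_pos h3]
      · rw [if_neg h2]
        split_ifs
        · exact hGG
        · exact le_rfl
    have b3 : ∑ y, Tt y ^ 4 ≤ C4 * (Q * (1 + M') ^ 2 +
        (Nf * (τm ^ 2 * Sm)) * ((1 + M') * (τm * M') ^ 3)) := by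
      have hρ2 : 0 < √2 * R := by positivity
      have hgn : ∀ z, ‖g z‖ ≤ gs ((√2 * R) • AX b x) 0 z := by
        intro z
        rw [gs_vx, ← vc_vx]
        simp only [hg]
        rw [norm_mul, e_norm, mul_one, Complex.norm_real, Real.norm_of_nonneg (Real.exp_pos _).le,
          mul_pow, Real.sq_sqrt (by norm_num), ← hA]
        apply le_of_eq
        congr 1
        ring
      have h1 := four_finY hB1 hB hC10 hC1 hf hm hfc hI hIc hF b x hρ2 g hgn Sβ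
      have e4 : mm I x.2 / (√2 * R) ^ (dg K) = M' / √2 ^ (dg K) := by
        rw [hM', mul_pow, ← hM]
        field_simp
      rw [e4] at h1
      refine h1.trans ?_
      refine (hC4 (dg K) M' Q (kap K * Nf) τm Sm rfl hM'0 hQ0.le (by positivity) hτm0
        hSm0).trans ?_
      rw [hC4d]
      have q1 : 0 ≤ C4' * (Q * (1 + M') ^ 2) := by positivity
      have q2 : C4' * (Q * (1 + M') ^ 2) ≤ kap K * (C4' * (Q * (1 + M') ^ 2)) :=
        le_mul_of_one_le_left q1 hκ1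
      calc C4' * (Q * (1 + M') ^ 2 + (kap K * Nf * (τm ^ 2 * Sm)) *
            ((1 + M') * (τm * M') ^ 3)) = C4' * (Q * (1 + M') ^ 2) +
            kap K * (C4' * ((Nf * (τm ^ 2 * Sm)) * ((1 + M') * (τm * M') ^ 3))) := by ring
        _ ≤ kap K * (C4' * (Q * (1 + M') ^ 2)) +
            kap K * (C4' * ((Nf * (τm ^ 2 * Sm)) * ((1 + M') * (τm * M') ^ 3))) := by linarith
        _ = _ := by ring
    have b20 : 0 ≤ Ce * ((1 + R ^ (dg K) * (M / Q)) * ((S.card : ℝ) ^ 2 + M * S.card * T)) := by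
      positivity
    calc (∑ p ∈ S ×ˢ SZ, G p.2) ^ 2 * (∑ p ∈ S ×ˢ SZ, ∑ p' ∈ S ×ˢ SZ,
          if ρ p = ρ p' then G p.2 * G p'.2 else 0) * ∑ y, Tt y ^ 4 ≤
          (Cg * (S.card * (1 + M))) ^ 2 *
          (Ce * ((1 + R ^ (dg K) * (M / Q)) * ((S.card : ℝ) ^ 2 + M * S.card * T))) *
          (C4 * (Q * (1 + M') ^ 2 + (Nf * (τm ^ 2 * Sm)) * ((1 + M') * (τm * M') ^ 3))) := by
          refine mul_le_mul (mul_le_mul (pow_le_pow_left₀ b10 b1 2) b2 ?_ (by positivity)) b3 ?_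
            (by positivity)
          · refine sum_nonneg fun p _ => sum_nonneg fun p' _ => ?_
            split_ifs
            · exact mul_nonneg (hG0 _) (hG0 _)
            · exact le_rfl
          · exact sum_nonneg fun y _ => by positivity
      _ = _ := by rw [hZ]; ring
  -- the limit in the lattice variable
  have key2 : ∀ Sβ : Finset (Fin (dg K) → ℤ), S.card * (g0 * ∑ β ∈ Sβ, gs ((2 * R) • A) 0 β) ≤
      Cs * (1 + ‖ξ‖) ^ (dg K + 1) * (cI * √(√(Cg ^ 2 * Ce * C4 * Z))) := by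
    intro Sβ
    have h1 : ∀ a ∈ S, (Summable fun z => G z *
        ∫ τ, Kf τ * ‖Bt R Sβ (vc A) (fun β => F (iv a * el b z + el b β)) τ‖) ∧
        g0 * ∑ β ∈ Sβ, gs ((2 * R) • A) 0 β ≤ Cs * (1 + ‖ξ‖) ^ (dg K + 1) * ∑' z, G z *
        ∫ τ, Kf τ * ‖Bt R Sβ (vc A) (fun β => F (iv a * el b z + el b β)) τ‖ := fun a ha =>
      hCs (f * m) I F b x ξ a (iv a) R Sβ hF hI (hiv a ha) hR (fun w => ((hS a ha).2 w).2)
    have h2 : ∑ a ∈ S, ∑' z, G z *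
        ∫ τ, Kf τ * ‖Bt R Sβ (vc A) (fun β => F (iv a * el b z + el b β)) τ‖ ≤
        cI * √(√(Cg ^ 2 * Ce * C4 * Z)) := by
      have ht : Filter.Tendsto (fun SZ : Finset (Fin (dg K) → ℤ) => ∑ a ∈ S, ∑ z ∈ SZ, G z *
          ∫ τ, Kf τ * ‖Bt R Sβ (vc A) (fun β => F (iv a * el b z + el b β)) τ‖) Filter.atTop
          (nhds (∑ a ∈ S, ∑' z, G z *
            ∫ τ, Kf τ * ‖Bt R Sβ (vc A) (fun β => F (iv a * el b z + el b β)) τ‖)) :=
        tendsto_finsetSum _ fun a ha => (h1 a ha).1.hasSum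
      exact le_of_tendsto ht (Filter.Eventually.of_forall fun SZ => key Sβ SZ)
    calc S.card * (g0 * ∑ β ∈ Sβ, gs ((2 * R) • A) 0 β) =
          ∑ a ∈ S, (g0 * ∑ β ∈ Sβ, gs ((2 * R) • A) 0 β) := by rw [sum_const, nsmul_eq_mul]
      _ ≤ ∑ a ∈ S, Cs * (1 + ‖ξ‖) ^ (dg K + 1) * ∑' z, G z *
        ∫ τ, Kf τ * ‖Bt R Sβ (vc A) (fun β => F (iv a * el b z + el b β)) τ‖ :=
          sum_le_sum fun a ha => (h1 a ha).2
      _ = Cs * (1 + ‖ξ‖) ^ (dg K + 1) * ∑ a ∈ S, ∑' z, G z *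
        ∫ τ, Kf τ * ‖Bt R Sβ (vc A) (fun β => F (iv a * el b z + el b β)) τ‖ := by rw [mul_sum]
      _ ≤ _ := mul_le_mul_of_nonneg_left h2 (by positivity)
  -- the limit in the short variable
  have hdet3 : ((2 * R) • A).det ≠ 0 := smul_det_ne (by positivity) hdet
  have hs3 := gs_summable hdet3 (0 : Fin (dg K) → ℝ)
  have ht3 : Filter.Tendsto (fun Sβ : Finset (Fin (dg K) → ℤ) =>
      S.card * (g0 * ∑ β ∈ Sβ, gs ((2 * R) • A) 0 β)) Filter.atTop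
      (nhds (S.card * (g0 * ∑' β, gs ((2 * R) • A) 0 β))) :=
    (hs3.hasSum.const_mul g0).const_mul _
  have h3 := le_of_tendsto ht3 (Filter.Eventually.of_forall key2)
  have h4 : M / (2 * R) ^ (dg K) ≤ ∑' β, gs ((2 * R) • A) 0 β := by
    have h5 := Mv_le_tsum hdet3
    rwa [Mv_smul (by positivity), Mv_AX, Fintype.card_fin] at h5
  have h5 : √(√(Cg ^ 2 * Ce * C4 * Z)) = √(√(Cg ^ 2 * Ce * C4)) * √(√Z) := by
    rw [Real.sqrt_mul (by positivity), Real.sqrt_mul (by positivity)]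
  calc S.card * (g0 * (M / (2 * R) ^ (dg K))) ≤ S.card * (g0 * ∑' β, gs ((2 * R) • A) 0 β) :=
        mul_le_mul_of_nonneg_left (mul_le_mul_of_nonneg_left h4 hg00) (Nat.cast_nonneg _)
    _ ≤ _ := h3
    _ = Cs * cI * √(√(Cg ^ 2 * Ce * C4)) * ((1 + ‖ξ‖) ^ (dg K + 1) * √(√Z)) := by
        rw [h5]; ring
    _ ≤ C * ((1 + ‖ξ‖) ^ (dg K + 1) * √(√Z)) := by
        refine mul_le_mul_of_nonneg_right ?_ (by positivity)
        rw [hC]
        refine mul_le_mul ?_ (by linarith) (Real.sqrt_nonneg _) (by positivity)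
        exact mul_le_mul_of_nonneg_left (by linarith) hCs0.le
    _ = _ := by ring

end Pool.Agent.T2H29.SW
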